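import Pool.Agent.Lib.K5.Comp

/-!
# K5.ExpF: graphs whose components belong to a class

`R` is a fixed set of root vertices (the poles, or the vertices of a triangle). `K V G` is a class of graphs `G` on `R ∪ V`, without edges inside `R`, connected on `V`. `AllK R K U G`: `G` is a graph on `R ∪ U`,
without edges inside `R`, and for every component `C` of `G` on `U` the restriction to `R ∪ C` is in the class.
`exp_sum`: the total weight of `AllK R K U` is the sum over the partitions of `U` of the products of the total weights of the classes of the parts. The bijection sends `G` to its partition into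
components (`compPart`) and the family `C ↦ rst G (R ∪ C)`; the inverse sends `(π, (G_C))` to the union of the `G_C` (`C ∈ π.parts`): an edge of the union with both ends in `R ∪ C` is an edge of
`G_C` (its ends are not both in `R`, so one of them is in `C`, and `G_C'` has no vertex in `C` for `C' ≠ C`); so `C` is a component and the restriction to `R ∪ C` is `G_C`. The number of edges is additive: every
edge of `G` has at least one end in `U`, hence in exactly one part `C`, and then it is an edge of `G_C`; the edge sets are finite. `ENNReal.tsum` over a sigma type, and the product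
of the sums is the sum over `Π C ∈ π.parts` (`Finset.prod_univ_sum` does not apply to infinite sums; the classes are finite: a graph on a finite set of vertices; show first `Finite {G // On G S}` and
use `tsum_fintype`, or prove the product formula for `ENNReal.tsum` by induction on the finset `π.parts`).
-/

namespace K5

open Finset
open scoped ENNReal

/-- `K` is a class of graphs without edges inside `R`, connected on the interior. -/
def ExpClass (R : Finset ℕ) (K : Finset ℕ → Gr → Prop) : Prop :=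
  ∀ V G, K V G → Disjoint R V ∧ On G (R ∪ V) ∧ (∀ a ∈ R, ∀ b ∈ R, ¬ G.Adj a b) ∧ P512.Conn G V

/-- All components of `G` on `U` are in the class `K`. -/
def AllK (R : Finset ℕ) (K : Finset ℕ → Gr → Prop) (U : Finset ℕ) (G : Gr) : Prop :=
  Disjoint R U ∧ On G (R ∪ U) ∧ (∀ a ∈ R, ∀ b ∈ R, ¬ G.Adj a b) ∧
    ∀ C, IsComp G U C → K C (rst G (R ∪ C))

namespace ExpFAux

theorem on_right {G : Gr} {S : Finset ℕ} (h : On G S) {u v : ℕ} (huv : G.Adj u v) : v ∈ S :=
  h v u huv.symm

theorem conn_mono {G H : Gr} (h : G ≤ H) {S : Finset ℕ} (hS : P512.Conn G S) :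
    P512.Conn H S := by
  refine ⟨hS.1, fun P h1 h2 h3 => ?_⟩
  obtain ⟨u, hu, v, hv, hvP, huv⟩ := hS.2 P h1 h2 h3
  exact ⟨u, hu, v, hv, hvP, h huv⟩

end ExpFAux

theorem finite_on (S : Finset ℕ) : Finite {G : Gr // On G S} := by
  classical
  refine Finite.of_injective (β := S → S → Prop) (fun G a b => G.1.Adj a b) ?_
  rintro ⟨G, hG⟩ ⟨G', hG'⟩ h
  refine Subtype.ext ?_
  ext a b
  constructor
  · intro hab
    have h1 := congrFun (congrFun h ⟨a, hG a b hab⟩) ⟨b, ExpFAux.on_right hG hab⟩
    exact (iff_of_eq h1).1 hab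
  · intro hab
    have h1 := congrFun (congrFun h ⟨a, hG' a b hab⟩) ⟨b, ExpFAux.on_right hG' hab⟩
    exact (iff_of_eq h1).2 hab

theorem edgeSet_finite {G : Gr} {S : Finset ℕ} (h : On G S) : G.edgeSet.Finite := by
  classical
  refine Set.Finite.subset ((S ×ˢ S).image (fun p : ℕ × ℕ => s(p.1, p.2))).finite_toSet ?_
  intro e he
  induction e with
  | h a b =>
    have hab : G.Adj a b := he
    simp only [Finset.coe_image, Set.mem_image, Finset.mem_coe, Finset.mem_product]
    exact ⟨(a, b), ⟨h a b hab, ExpFAux.on_right h hab⟩, rfl⟩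

namespace ExpFAux

variable {R : Finset ℕ} {K : Finset ℕ → Gr → Prop} {U : Finset ℕ}

/-- The union of the graphs of a family. -/
def glue {π : Finpartition U} (f : ∀ C : {C // C ∈ π.parts}, {G : Gr // K C.1 G}) : Gr where
  Adj a b := ∃ C, (f C).1.Adj a b
  symm := ⟨fun _ _ ⟨C, h⟩ => ⟨C, h.symm⟩⟩
  loopless := ⟨fun _ ⟨_, h⟩ => h.ne rfl⟩

variable {π : Finpartition U}

theorem le_glue (f : ∀ C : {C // C ∈ π.parts}, {G : Gr // K C.1 G}) (C : {C // C ∈ π.parts}) :
    (f C).1 ≤ glue f := fun _ _ h => ⟨C, h⟩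

/-- an end in `C` and in `R ∪ C'` -/
theorem part_eq (hd : Disjoint R U) {C C' : Finset ℕ} (hC : C ∈ π.parts) (hC' : C' ∈ π.parts)
    {a : ℕ} (ha : a ∈ C) (ha' : a ∈ R ∪ C') : C = C' := by
  have h1 : a ∈ U := π.le hC ha
  have h2 : a ∉ R := fun h => Finset.disjoint_left.1 hd h h1
  exact π.eq_of_mem_parts hC hC' ha ((Finset.mem_union.1 ha').resolve_left h2)

theorem adj_of_mem (hK : ExpClass R K) (hd : Disjoint R U)
    (f : ∀ C : {C // C ∈ π.parts}, {G : Gr // K C.1 G}) (C : {C // C ∈ π.parts}) {a b : ℕ}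
    (ha : a ∈ C.1) (h : (glue f).Adj a b) : (f C).1.Adj a b := by
  obtain ⟨C', h'⟩ := h
  have h1 := (hK C'.1 (f C').1 (f C').2).2.1 a b h'
  have h2 : C = C' := Subtype.ext (part_eq hd C.2 C'.2 ha h1)
  rw [h2]
  exact h'

/-- one of the ends of an edge of the part `C` lies in `C` -/
theorem end_mem (hK : ExpClass R K) {C : Finset ℕ} {G : Gr} (hG : K C G) {a b : ℕ}
    (h : G.Adj a b) : a ∈ C ∨ b ∈ C := by
  obtain ⟨_, h2, h3, _⟩ := hK C G hG
  by_contra hcon
  push Not at hcon
  have ha := (Finset.mem_union.1 (h2 a b h)).resolve_right hcon.1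
  have hb := (Finset.mem_union.1 (on_right h2 h)).resolve_right hcon.2
  exact h3 a ha b hb h

theorem rst_glue (hK : ExpClass R K) (hd : Disjoint R U)
    (f : ∀ C : {C // C ∈ π.parts}, {G : Gr // K C.1 G}) (C : {C // C ∈ π.parts}) :
    rst (glue f) (R ∪ C.1) = (f C).1 := by
  ext a b
  constructor
  · rintro ⟨⟨C', h⟩, ha, hb⟩
    have h1 : C' = C := by
      rcases end_mem hK (f C').2 h with h2 | h2
      · exact Subtype.ext (part_eq hd C'.2 C.2 h2 ha)
      · exact Subtype.ext (part_eq hd C'.2 C.2 h2 hb)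
    rw [← h1]
    exact h
  · intro h
    have h2 := (hK C.1 (f C).1 (f C).2).2.1
    exact ⟨⟨C, h⟩, h2 a b h, on_right h2 h⟩

theorem isComp_glue (hK : ExpClass R K) (hd : Disjoint R U)
    (f : ∀ C : {C // C ∈ π.parts}, {G : Gr // K C.1 G}) (C : {C // C ∈ π.parts}) :
    IsComp (glue f) U C.1 := by
  refine ⟨π.le C.2, conn_mono (le_glue f C) (hK C.1 (f C).1 (f C).2).2.2.2, ?_⟩
  intro a ha b hb hbC hab
  have h1 := adj_of_mem hK hd f C ha hab
  have h2 := on_right (hK C.1 (f C).1 (f C).2).2.1 h1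
  exact Finset.disjoint_left.1 hd ((Finset.mem_union.1 h2).resolve_right hbC) hb

theorem comp_glue (hK : ExpClass R K) (hd : Disjoint R U)
    (f : ∀ C : {C // C ∈ π.parts}, {G : Gr // K C.1 G}) {C : Finset ℕ}
    (hC : IsComp (glue f) U C) : C ∈ π.parts := by
  obtain ⟨w, hw⟩ := hC.2.1.1
  obtain ⟨C', hC', hwC'⟩ := π.exists_mem (hC.1 hw)
  rw [hC.eq_of_mem (isComp_glue hK hd f ⟨C', hC'⟩) hw hwC']
  exact hC'

theorem allK_glue (hK : ExpClass R K) (hd : Disjoint R U)
    (f : ∀ C : {C // C ∈ π.parts}, {G : Gr // K C.1 G}) : AllK R K U (glue f) := by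
  refine ⟨hd, ?_, ?_, ?_⟩
  · rintro a b ⟨C, h⟩
    exact Finset.union_subset_union_right (π.le C.2) ((hK C.1 (f C).1 (f C).2).2.1 a b h)
  · rintro a ha b hb ⟨C, h⟩
    exact (hK C.1 (f C).1 (f C).2).2.2.1 a ha b hb h
  · intro C hC
    have h1 := comp_glue hK hd f hC
    have h2 := rst_glue hK hd f ⟨C, h1⟩
    have h3 : rst (glue f) (R ∪ C) = (f ⟨C, h1⟩).1 := h2
    rw [h3]
    exact (f ⟨C, h1⟩).2

theorem compPart_glue (hK : ExpClass R K) (hd : Disjoint R U)
    (f : ∀ C : {C // C ∈ π.parts}, {G : Gr // K C.1 G}) : compPart (glue f) U = π := by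
  refine Finpartition.ext (Finset.ext fun C => ?_)
  rw [mem_compPart]
  exact ⟨fun h => comp_glue hK hd f h, fun h => isComp_glue hK hd f ⟨C, h⟩⟩

/-- The bijection between the graphs with component partition `π` and the families. -/
noncomputable def eqv (hK : ExpClass R K) (hd : Disjoint R U) (π : Finpartition U) :
    (∀ C : {C // C ∈ π.parts}, {G : Gr // K C.1 G}) ≃
      {G : Gr // AllK R K U G ∧ compPart G U = π} where
  toFun f := ⟨glue f, allK_glue hK hd f, compPart_glue hK hd f⟩
  invFun G := fun C => ⟨rst G.1 (R ∪ C.1), G.2.1.2.2.2 C.1 (mem_compPart.1 (by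
    rw [G.2.2]
    exact C.2))⟩
  left_inv f := by
    funext C
    exact Subtype.ext (rst_glue hK hd f C)
  right_inv := by
    rintro ⟨G, hG, rfl⟩
    refine Subtype.ext ?_
    ext a b
    constructor
    · rintro ⟨C, h⟩
      exact h.1
    · intro h
      have key : ∀ a b, G.Adj a b → a ∈ U → ∃ C : {C // C ∈ (compPart G U).parts},
          a ∈ C.1 ∧ b ∈ R ∪ C.1 := by
        intro a b h ha
        obtain ⟨C, hC, haC⟩ := (compPart G U).exists_mem ha
        refine ⟨⟨C, hC⟩, haC, ?_⟩
        by_contra hb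
        rw [Finset.mem_union, not_or] at hb
        have h1 := (Finset.mem_union.1 (on_right hG.2.1 h)).resolve_left hb.1
        exact (mem_compPart.1 hC).2.2 a haC b h1 hb.2 h
      rcases Finset.mem_union.1 (hG.2.1 a b h) with ha | ha
      · rcases Finset.mem_union.1 (on_right hG.2.1 h) with hb | hb
        · exact absurd h (hG.2.2.1 a ha b hb)
        · obtain ⟨C, h1, h2⟩ := key b a h.symm hb
          exact ⟨C, h, h2, Finset.mem_union_right _ h1⟩
      · obtain ⟨C, h1, h2⟩ := key a b h ha
        exact ⟨C, h, Finset.mem_union_right _ h1, h2⟩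

theorem ncard_glue (hK : ExpClass R K) (hd : Disjoint R U)
    (f : ∀ C : {C // C ∈ π.parts}, {G : Gr // K C.1 G}) :
    (glue f).edgeSet.ncard = ∑ C, (f C).1.edgeSet.ncard := by
  classical
  have h1 : (glue f).edgeSet = ⋃ C, (f C).1.edgeSet := by
    ext e
    induction e with
    | h a b =>
      rw [Set.mem_iUnion]
      exact Iff.rfl
  have h2 : Pairwise (Function.onFun Disjoint (fun C => (f C).1.edgeSet)) := by
    intro C C' hne
    refine Set.disjoint_left.2 fun e => ?_
    induction e with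
    | h a b =>
      intro (h : (f C).1.Adj a b) (h' : (f C').1.Adj a b)
      have h3 := (hK C'.1 (f C').1 (f C').2).2.1
      rcases end_mem hK (f C).2 h with h4 | h4
      · exact hne (Subtype.ext (part_eq hd C.2 C'.2 h4 (h3 a b h')))
      · exact hne (Subtype.ext (part_eq hd C.2 C'.2 h4 (on_right h3 h')))
  have h3 : ∀ C, Finite ((f C).1.edgeSet) := fun C =>
    (edgeSet_finite (hK C.1 (f C).1 (f C).2).2.1).to_subtype
  rw [h1, ← Nat.card_coe_set_eq, Nat.card_congr (Set.unionEqSigmaOfDisjoint h2), Nat.card_sigma]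
  rfl

theorem sum_part (hK : ExpClass R K) (hd : Disjoint R U) (z : ℝ≥0∞) (π : Finpartition U) :
    ∑' G : {G : Gr // AllK R K U G ∧ compPart G U = π}, z ^ G.1.edgeSet.ncard =
      ∏ C ∈ π.parts, ∑' G : {G : Gr // K C G}, z ^ G.1.edgeSet.ncard := by
  classical
  have hfin : ∀ C : {C // C ∈ π.parts}, Finite {G : Gr // K C.1 G} := by
    intro C
    have := finite_on (R ∪ C.1)
    exact Finite.of_injective
      (fun G : {G : Gr // K C.1 G} => (⟨G.1, (hK C.1 G.1 G.2).2.1⟩ : {G : Gr // On G (R ∪ C.1)}))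
      (fun G G' h => Subtype.ext (congrArg (fun t => t.1) h))
  have hft : ∀ C : {C // C ∈ π.parts}, Fintype {G : Gr // K C.1 G} := fun C =>
    @Fintype.ofFinite _ (hfin C)
  rw [← (eqv hK hd π).tsum_eq]
  have h1 : ∀ f : (∀ C : {C // C ∈ π.parts}, {G : Gr // K C.1 G}),
      z ^ ((eqv hK hd π) f).1.edgeSet.ncard = ∏ C, z ^ (f C).1.edgeSet.ncard := by
    intro f
    have h2 : ((eqv hK hd π) f).1.edgeSet.ncard = ∑ C, (f C).1.edgeSet.ncard :=
      ncard_glue hK hd f
    rw [h2, Finset.prod_pow_eq_pow_sum]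
  rw [tsum_congr h1, tsum_fintype]
  rw [← Finset.prod_coe_sort π.parts (fun C => ∑' G : {G : Gr // K C G}, z ^ G.1.edgeSet.ncard)]
  have h3 : ∀ C : {C // C ∈ π.parts}, ∑' G : {G : Gr // K C.1 G}, z ^ G.1.edgeSet.ncard =
      ∑ G : {G : Gr // K C.1 G}, z ^ G.1.edgeSet.ncard := fun C => tsum_fintype _
  rw [Finset.prod_congr rfl fun C _ => h3 C, Finset.prod_univ_sum, Fintype.piFinset_univ]

end ExpFAux

/-- The partition of `U` into components belongs to `p`. -/
theorem exp_sum {R : Finset ℕ} {K : Finset ℕ → Gr → Prop} (hK : ExpClass R K) (z : ℝ≥0∞)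
    {U : Finset ℕ} (hd : Disjoint R U) (p : Finpartition U → Prop) [DecidablePred p] :
    ∑' G : {G : Gr // AllK R K U G ∧ p (compPart G U)}, z ^ G.1.edgeSet.ncard =
      ∑ π : Finpartition U, if p π then
        ∏ C ∈ π.parts, ∑' G : {G : Gr // K C G}, z ^ G.1.edgeSet.ncard else 0 := by
  classical
  have h1 : ∀ π : Finpartition U,
      ∏ C ∈ π.parts, ∑' G : {G : Gr // K C G}, z ^ G.1.edgeSet.ncard =
        ∑' G : Gr, {G : Gr | AllK R K U G ∧ compPart G U = π}.indicator
          (fun G => z ^ G.edgeSet.ncard) G := by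
    intro π
    rw [← ExpFAux.sum_part hK hd z π]
    exact tsum_subtype {G : Gr | AllK R K U G ∧ compPart G U = π} (fun G => z ^ G.edgeSet.ncard)
  have h2 : ∑' G : {G : Gr // AllK R K U G ∧ p (compPart G U)}, z ^ G.1.edgeSet.ncard =
      ∑' G : Gr, {G : Gr | AllK R K U G ∧ p (compPart G U)}.indicator
        (fun G => z ^ G.edgeSet.ncard) G :=
    tsum_subtype {G : Gr | AllK R K U G ∧ p (compPart G U)} (fun G => z ^ G.edgeSet.ncard)
  rw [h2]
  have h3 : ∀ π : Finpartition U, (if p π then
        ∏ C ∈ π.parts, ∑' G : {G : Gr // K C G}, z ^ G.1.edgeSet.ncard else 0) =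
      ∑' G : Gr, if p π then {G : Gr | AllK R K U G ∧ compPart G U = π}.indicator
          (fun G => z ^ G.edgeSet.ncard) G else 0 := by
    intro π
    split_ifs
    · exact h1 π
    · simp
  rw [Finset.sum_congr rfl fun π _ => h3 π]
  have h4 : ∑ π : Finpartition U, ∑' G : Gr, (if p π then
      {G : Gr | AllK R K U G ∧ compPart G U = π}.indicator
        (fun G => z ^ G.edgeSet.ncard) G else 0) =
      ∑' π : Finpartition U, ∑' G : Gr, (if p π then
      {G : Gr | AllK R K U G ∧ compPart G U = π}.indicator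
        (fun G => z ^ G.edgeSet.ncard) G else 0) := (tsum_fintype _).symm
  rw [h4, ENNReal.tsum_comm]
  refine tsum_congr fun G => ?_
  rw [tsum_fintype]
  by_cases hG : AllK R K U G
  · rw [Finset.sum_eq_single (compPart G U)]
    · by_cases hp : p (compPart G U)
      · rw [if_pos hp, Set.indicator_of_mem, Set.indicator_of_mem]
        · exact ⟨hG, rfl⟩
        · exact ⟨hG, hp⟩
      · rw [if_neg hp, Set.indicator_of_notMem]
        exact fun h => hp h.2
    · intro π _ hπ
      split_ifs
      · rw [Set.indicator_of_notMem]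
        exact fun h => hπ h.2.symm
      · rfl
    · intro h
      exact absurd (Finset.mem_univ _) h
  · rw [Set.indicator_of_notMem (fun h => hG h.1)]
    symm
    refine Finset.sum_eq_zero fun π _ => ?_
    split_ifs
    · exact Set.indicator_of_notMem (fun h => hG h.1) _
    · rfl

end K5
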