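import Pool.Agent.Lib.K5.CntDefs
import Pool.Agent.Lib.K5.ExpF
import Pool.Agent.Lib.P512.ConnB

/-!
# K5.Basic0: small facts about the counting functions

1. `q_zero`: `Q 0 = 1`: on the empty interior the only network is the graph with the single edge `01` (`Blk` on two vertices; a graph with two vertices that are not isolated has no `K_5` minor: five disjoint nonempty branch sets, each contains an end of an edge).
2. `net_edge`: for `s ≠ t`: `Net s t ∅ G ↔ G = clq {s, t}`.
3. `free_small`: a graph with all its edges inside a set of at most four vertices has no `K_5` minor.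
4. `nP_eq`: `nP n = nS n + nH n`, and `nP 0 = 0` (`Conn` needs a nonempty set), `nS 0 = 0`, `nH 0 = 0`, `nH 1 = 0` (the core of an `HPiece` is not needed: with one interior vertex `c` the graph without `st` and `c` has the two vertices `s`, `t` and no edge, so the piece is series).
5. `ee_add`: `ee n + nS n = dd n`: for `n ≥ 1` the pairs `(G, b)` with `Net` are `2 Q n` (finite), minus the pairs `(G, false)` with `Series`; for `n = 0` `ee 0 = 1`, `nS 0 = 0`.
6. `dd_add`: `dd n + (if n = 0 then 1 else 0) = 2 Q n`.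
7. `dd_ne_top` etc.: all the numbers are finite (`finite_on`).
-/

namespace K5

open Finset
open scoped ENNReal

theorem free_small {G : Gr} {S : Finset ℕ} (h : On G S) (hS : S.card ≤ 4) : Free G := by
  rintro ⟨B, hc, hd, ha⟩
  have h1 : ∀ i : Fin 5, ∃ u, u ∈ B i ∧ u ∈ S := by
    intro i
    have : ∃ j : Fin 5, i ≠ j := by
      revert i
      decide
    obtain ⟨j, hj⟩ := this
    obtain ⟨u, hu, v, -, huv⟩ := ha i j hj
    exact ⟨u, hu, h u v huv⟩
  choose u hu using h1
  have hinj : Function.Injective u := by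
    intro i j hij
    by_contra hne
    exact Finset.disjoint_left.1 (hd i j hne) (hu i).1 (hij ▸ (hu j).1)
  have h2 : (univ.image u).card ≤ S.card := Finset.card_le_card (by
    intro x hx
    obtain ⟨i, -, rfl⟩ := Finset.mem_image.1 hx
    exact (hu i).2)
  rw [Finset.card_image_of_injective _ hinj] at h2
  simp at h2
  omega

theorem net_empty {s t : ℕ} {G : Gr} (h : s ≠ t) : Net s t ∅ G ↔ G = clq {s, t} := by
  constructor
  · intro hN
    ext a b
    constructor
    · intro hab
      have h1 := hN.on a b hab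
      have h2 := hN.on b a hab.symm
      simp only [St, Finset.mem_insert, Finset.notMem_empty, or_false] at h1 h2
      exact ⟨hab.ne, by simpa using h1, by simpa using h2⟩
    · rintro ⟨hne, h1, h2⟩
      simp only [Finset.mem_insert, Finset.mem_singleton] at h1 h2
      rcases h1 with rfl | rfl <;> rcases h2 with rfl | rfl
      · exact absurd rfl hne
      · exact hN.adj
      · exact hN.adj.symm
      · exact absurd rfl hne
  · rintro rfl
    have hadj : (clq {s, t}).Adj s t := ⟨h, by simp, by simp⟩
    have hon : On (clq {s, t}) {s, t} := fun a b hab => hab.2.1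
    have hSt : St s t ∅ = {s, t} := by simp [St]
    have he1 : ({s, t} : Finset ℕ).erase s = {t} := by
      ext x
      simp only [Finset.mem_erase, Finset.mem_insert, Finset.mem_singleton]
      constructor
      · rintro ⟨h1, h2⟩
        exact h2.resolve_left h1
      · rintro rfl
        exact ⟨h.symm, Or.inr rfl⟩
    have he2 : ({s, t} : Finset ℕ).erase t = {s} := by
      ext x
      simp only [Finset.mem_erase, Finset.mem_insert, Finset.mem_singleton]
      constructor
      · rintro ⟨h1, h2⟩
        exact h2.resolve_right h1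
      · rintro rfl
        exact ⟨h, Or.inl rfl⟩
    refine ⟨h, by simp, by simp, by rw [hSt]; exact hon, hadj, ?_, ?_⟩
    · rw [hSt]
      refine ⟨by rw [Finset.card_pair h], ?_, ?_⟩
      · exact P512.conn_insert (P512.conn_singleton _ t) ⟨t, by simp, hadj.symm⟩
      · intro v hv
        simp only [Finset.mem_insert, Finset.mem_singleton] at hv
        rcases hv with rfl | rfl
        · rw [he1]
          exact P512.conn_singleton _ _
        · rw [he2]
          exact P512.conn_singleton _ _
    · exact free_small hon (by rw [Finset.card_pair h]; norm_num)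

theorem q_zero : Q 0 = 1 := by
  unfold Q
  have h : ∀ G : Gr, Net 0 1 (Ico 2 (0 + 2)) G ↔ G = clq {0, 1} := fun G => by
    have : Ico 2 (0 + 2) = (∅ : Finset ℕ) := by simp
    rw [this]
    exact net_empty (by norm_num)
  have : Unique {G : Gr // Net 0 1 (Ico 2 (0 + 2)) G} :=
    { default := ⟨clq {0, 1}, (h _).2 rfl⟩
      uniq := fun G => Subtype.ext ((h _).1 G.2) }
  exact Nat.card_unique

namespace Basic0Aux

open Classical in
theorem tsum_one_eq {α : Type*} (p : α → Prop) :
    ∑' _ : {x : α // p x}, (1 : ℝ≥0∞) = ∑' x : α, if p x then 1 else 0 := by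
  have h := _root_.tsum_subtype {x : α | p x} (fun _ => (1 : ℝ≥0∞))
  refine h.trans (tsum_congr (fun x => ?_))
  by_cases hx : p x
  · rw [if_pos hx, Set.indicator_of_mem (by exact hx)]
  · rw [if_neg hx, Set.indicator_of_notMem (by exact hx)]

theorem tsum_one_card {α : Type*} [Finite α] : ∑' _ : α, (1 : ℝ≥0∞) = (Nat.card α : ℝ≥0∞) := by
  have := Fintype.ofFinite α
  rw [tsum_fintype, Nat.card_eq_fintype_card]
  simp

theorem finite_sub {S : Finset ℕ} (p : Gr → Prop) (h : ∀ G, p G → On G S) :
    Finite {G : Gr // p G} := by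
  have := finite_on S
  refine Finite.of_injective (fun G : {G : Gr // p G} => (⟨G.1, h _ G.2⟩ : {G : Gr // On G S})) ?_
  intro G G' hG
  apply Subtype.ext
  exact congrArg (fun x : {G : Gr // On G S} => x.1) hG

theorem not_piece_empty {G : Gr} : ¬ Piece 0 1 (Ico 2 (0 + 2)) G := by
  intro h
  have := h.conn.1
  simp at this

end Basic0Aux

open Basic0Aux

theorem nP_eq (n : ℕ) : nP n = nS n + nH n := by
  classical
  unfold nP nS nH
  rw [tsum_one_eq, tsum_one_eq, tsum_one_eq, ← ENNReal.tsum_add]
  refine tsum_congr (fun G => ?_)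
  by_cases h1 : Piece 0 1 (Ico 2 (n + 2)) G
  · by_cases h2 : Series 0 1 (Ico 2 (n + 2)) G
    · simp [h1, h2, HPiece]
    · simp [h1, h2, HPiece]
  · have h2 : ¬ Series 0 1 (Ico 2 (n + 2)) G := fun h => h1 h.piece
    simp [h1, h2, HPiece]

theorem nP_zero : nP 0 = 0 := by
  unfold nP
  have : IsEmpty {G : Gr // Piece 0 1 (Ico 2 (0 + 2)) G} := ⟨fun G => not_piece_empty G.2⟩
  exact tsum_empty

theorem nS_zero : nS 0 = 0 := by
  unfold nS
  have : IsEmpty {G : Gr // Series 0 1 (Ico 2 (0 + 2)) G} := ⟨fun G => not_piece_empty G.2.piece⟩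
  exact tsum_empty

theorem nH_small {n : ℕ} (hn : n ≤ 1) : nH n = 0 := by
  unfold nH
  have : IsEmpty {G : Gr // HPiece 0 1 (Ico 2 (n + 2)) G} := by
    refine ⟨fun G => ?_⟩
    obtain ⟨G, hG, hS⟩ := G
    interval_cases n
    · exact not_piece_empty hG
    · apply hS
      refine ⟨hG, 2, by simp, ?_⟩
      intro hc
      have h3 : (St 0 1 (Ico 2 (1 + 2))).erase 2 = {0, 1} := by decide
      rw [h3] at hc
      obtain ⟨u, hu, v, hv, hvn, hadj⟩ := hc.2 {0} (by simp) (by simp) (by decide)
      simp only [Finset.mem_singleton, Finset.mem_insert] at hu hv hvn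
      subst hu
      have hv1 : v = 1 := hv.resolve_left hvn
      subst hv1
      simp at hadj
  exact tsum_empty

theorem ee_add (n : ℕ) : ee n + nS n = dd n := by
  classical
  have hfin : Finite {G : Gr // Net 0 1 (Ico 2 (n + 2)) G} :=
    finite_sub (S := St 0 1 (Ico 2 (n + 2))) _ (fun G h => h.on)
  have hQ : (Q n : ℝ≥0∞) = ∑' G : Gr, if Net 0 1 (Ico 2 (n + 2)) G then 1 else 0 := by
    unfold Q
    rw [← tsum_one_card, tsum_one_eq]
  have hee : ee n = ∑' G : Gr, ((if Net 0 1 (Ico 2 (n + 2)) G then 1 else 0) +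
      (if Net 0 1 (Ico 2 (n + 2)) G ∧ n ≠ 0 ∧ ¬ Series 0 1 (Ico 2 (n + 2)) G then 1 else 0)) := by
    unfold ee
    rw [tsum_one_eq, ENNReal.tsum_prod']
    refine tsum_congr (fun G => ?_)
    rw [tsum_fintype, Fintype.sum_bool]
    simp
  rcases Nat.eq_zero_or_pos n with rfl | hn
  · rw [nS_zero, add_zero, hee]
    simp only [ne_eq, not_true_eq_false, false_and, and_false, if_false, add_zero]
    rw [← hQ, q_zero]
    simp [dd]
  · have hn' : n ≠ 0 := by omega
    have : dd n = (Q n : ℝ≥0∞) + (Q n : ℝ≥0∞) := by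
      simp only [dd, if_neg hn']
      ring
    rw [this, hee, ENNReal.tsum_add, ← hQ, add_assoc]
    congr 1
    unfold nS
    rw [tsum_one_eq, ← ENNReal.tsum_add, hQ]
    refine tsum_congr (fun G => ?_)
    by_cases h1 : Net 0 1 (Ico 2 (n + 2)) G
    · by_cases h2 : Series 0 1 (Ico 2 (n + 2)) G
      · simp [h1, h2]
      · simp [h1, h2, hn']
    · have h2 : ¬ Series 0 1 (Ico 2 (n + 2)) G := fun h => h1 h.piece.net
      simp [h1, h2]

theorem dd_add (n : ℕ) : dd n + (if n = 0 then 1 else 0) = 2 * (Q n : ℝ≥0∞) := by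
  unfold dd
  by_cases hn : n = 0
  · subst hn
    rw [q_zero]
    norm_num
  · simp [hn]

theorem nP_ne_top (n : ℕ) : nP n ≠ ⊤ := by
  unfold nP
  have : Finite {G : Gr // Piece 0 1 (Ico 2 (n + 2)) G} :=
    finite_sub (S := St 0 1 (Ico 2 (n + 2))) _ (fun G h => h.net.on)
  rw [tsum_one_card]
  exact ENNReal.natCast_ne_top _

theorem dd_ne_top (n : ℕ) : dd n ≠ ⊤ := by
  unfold dd
  split_ifs
  · exact ENNReal.one_ne_top
  · exact ENNReal.mul_ne_top (by norm_num) (ENNReal.natCast_ne_top _)

theorem ee_ne_top (n : ℕ) : ee n ≠ ⊤ := by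
  have h := dd_ne_top n
  rw [← ee_add] at h
  exact fun h' => h (by rw [h']; simp)

end K5
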