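import Pool.Agent.Lib.K5.FragM

/-!
# K5.CoreF: the core of a piece has no `K_5` minor

`H = coreG s t U G`. Let `B` be a model of `K_5` in `H` (`P512.Model`). All vertices of all `B i` are in `St s t A` (each `B i` has an edge of `H` to `B j`, and in a connected set
with at least two elements every vertex has an edge). For a maximal fragment `J` with `bd J = {u, v}` let `own J` be the least `i` such that `B i` contains `u` or `v` (if there is one).
Put `B' i = B i ∪ ⋃ {J : own J = i}`. These sets are disjoint. Facts about a maximal fragment `J` with `bd J = {u, v}`: for every nonempty `X ⊆ J`, either some edge of `G` joins `X` to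
`J \ X`, or `X` is joined to both `u` and `v` (`bd G W X ⊆ {u, v}` has at least two elements, `Net.two_le_bd`).
* `B' i` and `B' j` are joined, `i < j`: an `H`-edge `ab`, `a ∈ B i`, `b ∈ B j`; if it is not a `G`-edge, `{a, b} = bd J` and `own J = i`; `J` is joined to `b`.
* `Conn G (B' i)`: let `P ⊆ B' i` be proper and nonempty. (a) If `P ∩ B i` is nonempty and not `B i`: take an `H`-edge `ab`, `a ∈ P ∩ B i`, `b ∈ B i \ P`; if it is not a `G`-edge then
  `{a, b} = bd J`, `own J = i`, `J ⊆ B' i`; apply the fact to `X = P ∩ J` (if nonempty: an edge from `X` to `J \ X` or to `b`), if `P ∩ J` is empty take an edge from `a` to `J`. (b) If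
  `P ∩ B i = ∅`: some `J` with `own J = i` meets `P`; apply the fact to `X = P ∩ J`, one of `u, v` is in `B i`. (c) If `B i ⊆ P`: some `J` with `own J = i` is not contained in `P`; apply the
  fact to `X = J \ P`.
-/

namespace K5

open Finset

namespace CoreFAux

theorem bd_full {s t : ℕ} {U : Finset ℕ} {G : Gr} (h : HPiece s t U G) {J X : Finset ℕ}
    (hJ : MaxFrag s t U G J) (hX : X ⊆ J) (hne : X.Nonempty) :
    (∃ a ∈ X, ∃ b ∈ J, b ∉ X ∧ G.Adj a b) ∨ ∀ w ∈ bd G (St s t U) J, ∃ a ∈ X, G.Adj a w := by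
  by_cases hc : ∃ a ∈ X, ∃ b ∈ J, b ∉ X ∧ G.Adj a b
  · exact Or.inl hc
  · right
    have hsub : bd G (St s t U) X ⊆ bd G (St s t U) J := by
      intro w hw
      obtain ⟨⟨hW, hwX⟩, i, hi, ha⟩ := mem_bd.mp hw
      refine mem_bd.mpr ⟨⟨hW, fun hwJ => hc ⟨i, hi, w, hwJ, hwX, ha⟩⟩, i, hX hi, ha⟩
    have h2 := h.1.net.two_le_bd (hX.trans hJ.1.sub) hne
    have heq : bd G (St s t U) X = bd G (St s t U) J :=
      Finset.eq_of_subset_of_card_le hsub (by rw [hJ.1.card]; exact h2)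
    intro w hw
    rw [← heq] at hw
    exact (mem_bd.mp hw).2

theorem core_mem {s t : ℕ} {U : Finset ℕ} {G : Gr} {a b : ℕ}
    (h : (coreG s t U G).Adj a b) : a ∈ St s t (coreV s t U G) := h.2.1

theorem model_sub {s t : ℕ} {U : Finset ℕ} {G : Gr} {B : Fin 5 → Finset ℕ}
    (hB : P512.Model (coreG s t U G) B) (i : Fin 5) : B i ⊆ St s t (coreV s t U G) := by
  intro x hx
  by_cases he : B i = {x}
  · obtain ⟨j, hj⟩ : ∃ j : Fin 5, i ≠ j := by
      by_cases h0 : i = 0
      · exact ⟨1, by rw [h0]; decide⟩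
      · exact ⟨0, h0⟩
    obtain ⟨u, hu, v, _, ha⟩ := hB.2.2 i j hj
    rw [he, Finset.mem_singleton] at hu
    subst hu
    exact core_mem ha
  · obtain ⟨u, hu, v, _, _, ha⟩ := (hB.1 i).2 {x} (Finset.singleton_subset_iff.mpr hx)
      (Finset.singleton_nonempty _) (fun e => he e.symm)
    rw [Finset.mem_singleton] at hu
    subst hu
    exact core_mem ha

theorem disj_core {s t : ℕ} {U : Finset ℕ} {G : Gr} (h : HPiece s t U G) {J : Finset ℕ}
    (hJ : MaxFrag s t U G J) {x : ℕ} (hx : x ∈ St s t (coreV s t U G)) : x ∉ J := by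
  classical
  intro hxJ
  rcases FragUAux.mem_St.mp hx with e | e | e
  · exact h.1.net.hs (e ▸ hJ.1.sub hxJ)
  · exact h.1.net.ht (e ▸ hJ.1.sub hxJ)
  · unfold coreV at e
    exact (Finset.mem_filter.mp e).2 J hJ.1 hxJ

/-- `i` is the least index such that `B i` meets the boundary of `J`. -/
def Own (s t : ℕ) (U : Finset ℕ) (G : Gr) (B : Fin 5 → Finset ℕ) (J : Finset ℕ) (i : Fin 5) : Prop :=
  (∃ x ∈ B i, x ∈ bd G (St s t U) J) ∧ ∀ k < i, ¬ ∃ x ∈ B k, x ∈ bd G (St s t U) J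

theorem Own.unique {s t : ℕ} {U : Finset ℕ} {G : Gr} {B : Fin 5 → Finset ℕ} {J : Finset ℕ}
    {i j : Fin 5} (hi : Own s t U G B J i) (hj : Own s t U G B J j) : i = j := by
  rcases lt_trichotomy i j with e | e | e
  · exact absurd hi.1 (hj.2 i e)
  · exact e
  · exact absurd hj.1 (hi.2 j e)

open Classical in
/-- The enlarged branch sets. -/
noncomputable def B' (s t : ℕ) (U : Finset ℕ) (G : Gr) (B : Fin 5 → Finset ℕ) (i : Fin 5) :
    Finset ℕ :=
  B i ∪ U.filter (fun w => ∃ J, MaxFrag s t U G J ∧ w ∈ J ∧ Own s t U G B J i)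

theorem mem_B' {s t : ℕ} {U : Finset ℕ} {G : Gr} {B : Fin 5 → Finset ℕ} {i : Fin 5} {w : ℕ} :
    w ∈ B' s t U G B i ↔ w ∈ B i ∨ ∃ J, MaxFrag s t U G J ∧ w ∈ J ∧ Own s t U G B J i := by
  classical
  unfold B'
  rw [Finset.mem_union, Finset.mem_filter]
  constructor
  · rintro (h | h)
    · exact Or.inl h
    · exact Or.inr h.2
  · rintro (h | ⟨J, hJ, hw, ho⟩)
    · exact Or.inl h
    · exact Or.inr ⟨hJ.1.sub hw, J, hJ, hw, ho⟩

/-- The boundary `{a, b}` of a maximal fragment with `a ∈ B i`, `b ∈ B j`, `i ≤ j`. -/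
theorem own_of {s t : ℕ} {U : Finset ℕ} {G : Gr} {B : Fin 5 → Finset ℕ}
    (hd : ∀ i j, i ≠ j → Disjoint (B i) (B j)) {J : Finset ℕ} {i j : Fin 5} {a b : ℕ}
    (ha : a ∈ B i) (hb : b ∈ B j) (hij : i ≤ j) (hJ : ∀ x, x ∈ bd G (St s t U) J ↔ x = a ∨ x = b) :
    Own s t U G B J i := by
  refine ⟨⟨a, ha, (hJ a).mpr (Or.inl rfl)⟩, ?_⟩
  rintro k hk ⟨x, hx, hxb⟩
  rcases (hJ x).mp hxb with rfl | rfl
  · exact Finset.disjoint_left.mp (hd k i (ne_of_lt hk)) hx ha
  · exact Finset.disjoint_left.mp (hd k j (ne_of_lt (lt_of_lt_of_le hk hij))) hx hb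

theorem model' {s t : ℕ} {U : Finset ℕ} {G : Gr} (h : HPiece s t U G) {B : Fin 5 → Finset ℕ}
    (hB : P512.Model (coreG s t U G) B) : P512.Model G (B' s t U G B) := by
  classical
  have hd := hB.2.1
  have hBJ : ∀ i J, MaxFrag s t U G J → ∀ x ∈ B i, x ∉ J := fun i J hJ x hx =>
    disj_core h hJ (model_sub hB i hx)
  have hBB : ∀ i x, x ∈ B i → x ∈ B' s t U G B i := fun i x hx => mem_B'.mpr (Or.inl hx)
  refine ⟨fun i => ⟨?_, ?_⟩, ?_, ?_⟩
  · obtain ⟨x, hx⟩ := (hB.1 i).1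
    exact ⟨x, hBB i x hx⟩
  · intro P hPB hPne hPB'
    by_cases hc1 : ∃ x ∈ B i, x ∈ P
    · by_cases hc2 : B i ⊆ P
      · -- (c)
        obtain ⟨w, hw, hwP⟩ : ∃ w ∈ B' s t U G B i, w ∉ P := by
          by_contra hcon
          push Not at hcon
          exact hPB' (Finset.Subset.antisymm hPB hcon)
        rcases mem_B'.mp hw with hwB | ⟨J, hJ, hwJ, ho⟩
        · exact absurd (hc2 hwB) hwP
        · have hJB : ∀ x ∈ J, x ∈ B' s t U G B i := fun x hx => mem_B'.mpr (Or.inr ⟨J, hJ, hx, ho⟩)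
          obtain ⟨x, hxB, hxb⟩ := ho.1
          rcases bd_full h hJ (X := J \ P) Finset.sdiff_subset
              ⟨w, Finset.mem_sdiff.mpr ⟨hwJ, hwP⟩⟩ with ⟨a, ha, b, hb, hbX, hab⟩ | hall
          · rw [Finset.mem_sdiff] at ha
            have hbP : b ∈ P := by
              by_contra hcon
              exact hbX (Finset.mem_sdiff.mpr ⟨hb, hcon⟩)
            exact ⟨b, hbP, a, hJB a ha.1, ha.2, hab.symm⟩
          · obtain ⟨a, ha, hax⟩ := hall x hxb
            rw [Finset.mem_sdiff] at ha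
            exact ⟨x, hc2 hxB, a, hJB a ha.1, ha.2, hax.symm⟩
      · -- (a)
        obtain ⟨x0, hx0, hx0P⟩ := hc1
        obtain ⟨a, ha, b, hb, hbP, hab⟩ := (hB.1 i).2 (P ∩ B i) Finset.inter_subset_right
          ⟨x0, Finset.mem_inter.mpr ⟨hx0P, hx0⟩⟩ (fun e => hc2 (by
            intro y hy
            rw [← e] at hy
            exact (Finset.mem_inter.mp hy).1))
        rw [Finset.mem_inter] at ha
        have hbP' : b ∉ P := fun e => hbP (Finset.mem_inter.mpr ⟨e, hb⟩)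
        rcases hab.2.2.2 with hG | ⟨J, hJ, hJb⟩
        · exact ⟨a, ha.1, b, hBB i b hb, hbP', hG⟩
        · have hJm : ∀ x, x ∈ bd G (St s t U) J ↔ x = a ∨ x = b := by
            intro x
            rw [hJb, Finset.mem_insert, Finset.mem_singleton]
          have ho := own_of hd ha.2 hb le_rfl hJm
          have hJB : ∀ x ∈ J, x ∈ B' s t U G B i := fun x hx => mem_B'.mpr (Or.inr ⟨J, hJ, hx, ho⟩)
          by_cases hX : (P ∩ J).Nonempty
          · rcases bd_full h hJ (X := P ∩ J) Finset.inter_subset_right hX with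
              ⟨a', ha', b', hb', hbX, hab'⟩ | hall
            · exact ⟨a', (Finset.mem_inter.mp ha').1, b', hJB b' hb',
                fun e => hbX (Finset.mem_inter.mpr ⟨e, hb'⟩), hab'⟩
            · obtain ⟨a', ha', hab'⟩ := hall b ((hJm b).mpr (Or.inr rfl))
              exact ⟨a', (Finset.mem_inter.mp ha').1, b, hBB i b hb, hbP', hab'⟩
          · obtain ⟨y, hy, hya⟩ := (mem_bd.mp ((hJm a).mpr (Or.inl rfl))).2
            exact ⟨a, ha.1, y, hJB y hy, fun e => hX ⟨y, Finset.mem_inter.mpr ⟨e, hy⟩⟩, hya.symm⟩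
    · -- (b)
      obtain ⟨w, hwP⟩ := hPne
      rcases mem_B'.mp (hPB hwP) with hwB | ⟨J, hJ, hwJ, ho⟩
      · exact absurd ⟨w, hwB, hwP⟩ hc1
      · have hJB : ∀ x ∈ J, x ∈ B' s t U G B i := fun x hx => mem_B'.mpr (Or.inr ⟨J, hJ, hx, ho⟩)
        obtain ⟨x, hxB, hxb⟩ := ho.1
        rcases bd_full h hJ (X := P ∩ J) Finset.inter_subset_right
            ⟨w, Finset.mem_inter.mpr ⟨hwP, hwJ⟩⟩ with ⟨a, ha, b, hb, hbX, hab⟩ | hall
        · exact ⟨a, (Finset.mem_inter.mp ha).1, b, hJB b hb,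
            fun e => hbX (Finset.mem_inter.mpr ⟨e, hb⟩), hab⟩
        · obtain ⟨a, ha, hax⟩ := hall x hxb
          exact ⟨a, (Finset.mem_inter.mp ha).1, x, hBB i x hxB, fun e => hc1 ⟨x, hxB, e⟩, hax⟩
  · intro i j hij
    rw [Finset.disjoint_left]
    intro w hi hj
    rcases mem_B'.mp hi with hi | ⟨J, hJ, hwJ, ho⟩
    · rcases mem_B'.mp hj with hj | ⟨J, hJ, hwJ, ho⟩
      · exact Finset.disjoint_left.mp (hd i j hij) hi hj
      · exact hBJ i J hJ w hi hwJ
    · rcases mem_B'.mp hj with hj | ⟨J', hJ', hwJ', ho'⟩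
      · exact hBJ j J hJ w hj hwJ
      · by_cases hJJ : J = J'
        · subst hJJ
          exact hij (ho.unique ho')
        · exact Finset.disjoint_left.mp (MaxFrag.disjoint h hJ hJ' hJJ) hwJ hwJ'
  · intro i j hij
    obtain ⟨a, ha, b, hb, hab⟩ := hB.2.2 i j hij
    rcases hab.2.2.2 with hG | ⟨J, hJ, hJb⟩
    · exact ⟨a, hBB i a ha, b, hBB j b hb, hG⟩
    · have hJm : ∀ x, x ∈ bd G (St s t U) J ↔ x = a ∨ x = b := by
        intro x
        rw [hJb, Finset.mem_insert, Finset.mem_singleton]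
      rcases le_total i j with hle | hle
      · have ho := own_of hd ha hb hle hJm
        obtain ⟨y, hy, hyb⟩ := (mem_bd.mp ((hJm b).mpr (Or.inr rfl))).2
        exact ⟨y, mem_B'.mpr (Or.inr ⟨J, hJ, hy, ho⟩), b, hBB j b hb, hyb⟩
      · have ho := own_of hd hb ha hle (fun x => (hJm x).trans or_comm)
        obtain ⟨y, hy, hya⟩ := (mem_bd.mp ((hJm a).mpr (Or.inl rfl))).2
        exact ⟨a, hBB i a ha, y, mem_B'.mpr (Or.inr ⟨J, hJ, hy, ho⟩), hya.symm⟩

end CoreFAux

theorem HPiece.core_free {s t : ℕ} {U : Finset ℕ} {G : Gr} (h : HPiece s t U G) :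
    Free (coreG s t U G) := by
  rintro ⟨B, hB⟩
  exact h.1.net.free ⟨_, CoreFAux.model' h hB⟩

end K5
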