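import Pool.Agent.Lib.K5.FragM
import Pool.Agent.Lib.P512.ConnB

/-!
# K5.PartN: the part of a network at a fragment is a network

Let `I` be a fragment with `bd G W I = {u, v}` (`W = St s t U`). `partG G u v I` is the graph on `St u v I` with the edges of `G` and the edge `uv`.
1. `Blk`: the vertex set has at least three elements. Let `x` be a vertex or nothing, and let `P` be a proper nonempty subset of `St u v I` minus `x` without edges (in `partG`) to the rest `P'`.
   As `uv` is an edge, not one of `u, v` in `P` and the other in `P'`; so we may assume (swapping) that `P ⊆ I`. Then `bd G W P ⊆ {x}`: an outer neighbour of `P` is in `I ∪ {u, v}`.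
   Contradiction to `Net.two_le_bd`.
2. `Free`: general lemma `free_add_edge`: if `R` is connected in `G`, disjoint from `S`, and joined to `u` and to `v` (`u ≠ v`, `u, v ∈ S`), and `G'` has all its edges in `S` and every edge of `G'` is
   an edge of `G` or the edge `uv`, and `G` has no `K_5` minor, then `G'` has no `K_5` minor: given a model `B` of `G'` (all `B i ⊆ S`), replace the branch set that contains `u` by
   its union with `R`. In our case `S = St u v I` and `R`: as `{u, v} ≠ {s, t}`, one of `s, t` is in `W \ S`; let `R` be its connected component in `G` restricted to `W \ S` (a minimal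
   closed set or the set of vertices reachable inside `W \ S`). `R` is joined only to `u` and `v` and to nothing else outside `R`; `two_le_bd_of_blk` for `R` (there are two vertices outside
   `R`: `u`, `v`) shows that it is joined to both.
-/

namespace K5

open Finset

namespace PartNAux

lemma pair_eq {a b u v : ℕ} (h : s(a, b) = s(u, v)) : (a = u ∧ b = v) ∨ (a = v ∧ b = u) := by
  rwa [Sym2.eq_iff] at h

/-- a subset `P` of `B ∪ R` that separates `u` from `v` is left by an edge -/
lemma leave {G : Gr} {R : Finset ℕ} {u v : ℕ} (hR : P512.Conn G R) (hRu : ∃ r ∈ R, G.Adj r u)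
    (hRv : ∃ r ∈ R, G.Adj r v) {X P : Finset ℕ} (hRX : R ⊆ X) (hvX : v ∈ X)
    (hu : u ∈ P) (hv : v ∉ P) : ∃ a ∈ P, ∃ b ∈ X, b ∉ P ∧ G.Adj a b := by
  obtain ⟨r, hr, hru⟩ := hRu
  obtain ⟨r', hr', hrv⟩ := hRv
  by_cases h1 : r ∈ P
  · by_cases h2 : r' ∈ P
    · exact ⟨r', h2, v, hvX, hv, hrv⟩
    · obtain ⟨a, ha, b, hb, hbn, hadj⟩ := hR.2 (P ∩ R) Finset.inter_subset_right
        ⟨r, Finset.mem_inter.2 ⟨h1, hr⟩⟩ (fun he => h2 (by
          rw [← he] at hr'
          exact (Finset.mem_inter.1 hr').1))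
      exact ⟨a, (Finset.mem_inter.1 ha).1, b, hRX hb, fun hbP => hbn (Finset.mem_inter.2 ⟨hbP, hb⟩), hadj⟩
  · exact ⟨u, hu, r, hRX hr, h1, hru.symm⟩

lemma conn_big {G G' : Gr} {R : Finset ℕ} {u v : ℕ} (hR : P512.Conn G R)
    (hRu : ∃ r ∈ R, G.Adj r u) (hRv : ∃ r ∈ R, G.Adj r v)
    (hG' : ∀ a b, G'.Adj a b → G.Adj a b ∨ s(a, b) = s(u, v)) {B : Finset ℕ}
    (hB : P512.Conn G' B) (huB : u ∈ B) : P512.Conn G (B ∪ R) := by
  classical
  refine P512.conn_of_forall (r := u) (Finset.mem_union_left _ huB) (fun P hP huP hne => ?_)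
  by_cases hBP : B ⊆ P
  · have hRP : ¬ R ⊆ P := fun h => hne (le_antisymm hP (Finset.union_subset hBP h))
    by_cases hm : (P ∩ R).Nonempty
    · obtain ⟨a, ha, b, hb, hbn, hadj⟩ := hR.2 (P ∩ R) Finset.inter_subset_right hm
        (fun he => hRP (by
          intro x hx
          rw [← he] at hx
          exact (Finset.mem_inter.1 hx).1))
      exact ⟨a, (Finset.mem_inter.1 ha).1, b, Finset.mem_union_right _ hb,
        fun hbP => hbn (Finset.mem_inter.2 ⟨hbP, hb⟩), hadj⟩
    · obtain ⟨r, hr, hru⟩ := hRu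
      exact ⟨u, huP, r, Finset.mem_union_right _ hr,
        fun h => hm ⟨r, Finset.mem_inter.2 ⟨h, hr⟩⟩, hru.symm⟩
  · obtain ⟨a, ha, b, hb, hbn, hadj⟩ := hB.2 (P ∩ B) Finset.inter_subset_right
      ⟨u, Finset.mem_inter.2 ⟨huP, huB⟩⟩ (fun he => hBP (by
        intro x hx
        rw [← he] at hx
        exact (Finset.mem_inter.1 hx).1))
    have haP := (Finset.mem_inter.1 ha).1
    have hbP : b ∉ P := fun h => hbn (Finset.mem_inter.2 ⟨h, hb⟩)
    rcases hG' a b hadj with h | h
    · exact ⟨a, haP, b, Finset.mem_union_left _ hb, hbP, h⟩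
    · rcases pair_eq h with ⟨h1, h2⟩ | ⟨h1, h2⟩
      · subst h1 h2
        exact leave hR hRu hRv Finset.subset_union_right (Finset.mem_union_left _ hb) haP hbP
      · subst h1 h2
        exact leave hR hRv hRu Finset.subset_union_right (Finset.mem_union_left _ hb) haP hbP

lemma conn_small {G G' : Gr} {u v : ℕ}
    (hG' : ∀ a b, G'.Adj a b → G.Adj a b ∨ s(a, b) = s(u, v)) {B : Finset ℕ}
    (hB : P512.Conn G' B) (huB : u ∉ B) : P512.Conn G B := by
  refine ⟨hB.1, fun P hP hne hneq => ?_⟩
  obtain ⟨a, ha, b, hb, hbn, hadj⟩ := hB.2 P hP hne hneq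
  refine ⟨a, ha, b, hb, hbn, ?_⟩
  rcases hG' a b hadj with h | h
  · exact h
  · exfalso
    rcases pair_eq h with ⟨h1, h2⟩ | ⟨h1, h2⟩
    · exact huB (h1 ▸ hP ha)
    · exact huB (h2 ▸ hb)

end PartNAux

open PartNAux in
theorem free_add_edge {G G' : Gr} (hG : Free G) {S R : Finset ℕ} {u v : ℕ} (hu : u ∈ S)
    (hv : v ∈ S) (huv : u ≠ v) (hR : P512.Conn G R) (hRS : Disjoint R S)
    (hRu : ∃ r ∈ R, G.Adj r u) (hRv : ∃ r ∈ R, G.Adj r v) (hon : On G' S)
    (hG' : ∀ a b, G'.Adj a b → G.Adj a b ∨ s(a, b) = s(u, v)) : Free G' := by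
  classical
  rintro ⟨B, hB1, hB2, hB3⟩
  have hBS : ∀ i, B i ⊆ S := by
    intro i b hb
    by_cases h1 : B i = {b}
    · obtain ⟨j, hj⟩ : ∃ j : Fin 5, i ≠ j := by
        obtain ⟨j, hj⟩ := exists_ne i
        exact ⟨j, hj.symm⟩
      obtain ⟨a, ha, c, -, hadj⟩ := hB3 i j hj
      rw [h1, Finset.mem_singleton] at ha
      subst ha
      exact hon _ _ hadj
    · obtain ⟨a, ha, c, -, -, hadj⟩ := (hB1 i).2 {b} (Finset.singleton_subset_iff.2 hb)
        (Finset.singleton_nonempty _) (fun h => h1 h.symm)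
      rw [Finset.mem_singleton] at ha
      subst ha
      exact hon _ _ hadj
  apply hG
  refine ⟨fun i => if u ∈ B i then B i ∪ R else B i, ?_, ?_, ?_⟩
  · intro i
    by_cases h : u ∈ B i
    · simp only [h, if_true]
      exact conn_big hR hRu hRv hG' (hB1 i) h
    · simp only [h, if_false]
      exact conn_small hG' (hB1 i) h
  · intro i j hij
    have hd := hB2 i j hij
    have h1 : ∀ k, Disjoint R (B k) := fun k => hRS.mono_right (hBS k)
    have h2 : ¬ (u ∈ B i ∧ u ∈ B j) := fun h => Finset.disjoint_left.1 hd h.1 h.2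
    by_cases hi : u ∈ B i
    · have hj : u ∉ B j := fun h => h2 ⟨hi, h⟩
      simp only [hi, hj, if_true, if_false]
      exact Finset.disjoint_union_left.2 ⟨hd, h1 j⟩
    · by_cases hj : u ∈ B j
      · simp only [hi, hj, if_true, if_false]
        exact Finset.disjoint_union_right.2 ⟨hd, (h1 i).symm⟩
      · simp only [hi, hj, if_false]
        exact hd
  · intro i j hij
    obtain ⟨a, ha, b, hb, hadj⟩ := hB3 i j hij
    have hsub : ∀ k, ∀ x ∈ B k, x ∈ (if u ∈ B k then B k ∪ R else B k) := by
      intro k x hx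
      split_ifs
      · exact Finset.mem_union_left _ hx
      · exact hx
    rcases hG' a b hadj with h | h
    · exact ⟨a, hsub i a ha, b, hsub j b hb, h⟩
    · obtain ⟨r, hr, hrv⟩ := hRv
      rcases pair_eq h with ⟨h1, h2⟩ | ⟨h1, h2⟩
      · subst h1 h2
        refine ⟨r, ?_, b, hsub j b hb, hrv⟩
        simp only [ha, if_true]
        exact Finset.mem_union_right _ hr
      · subst h1 h2
        refine ⟨a, hsub i a ha, r, ?_, hrv.symm⟩
        simp only [hb, if_true]
        exact Finset.mem_union_right _ hr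

namespace PartNAux

lemma mem_St {s t : ℕ} {U : Finset ℕ} {x : ℕ} : x ∈ St s t U ↔ x = s ∨ x = t ∨ x ∈ U := by
  simp [St]

lemma part_conn {s t : ℕ} {U : Finset ℕ} {G : Gr} (h : Net s t U G) {I : Finset ℕ}
    (hI : Frag s t U G I) {u v : ℕ} (hb : bd G (St s t U) I = {u, v}) (huv : u ≠ v)
    (x : ℕ) : P512.Conn (partG G u v I) ((St u v I).erase x) := by
  classical
  have hIne := hI.ne
  -- key: no closed nonempty subset of `I`
  have key : ∀ Y : Finset ℕ, Y ⊆ I → Y.Nonempty →
      ¬ ∀ y ∈ Y, ∀ w ∈ (St u v I).erase x, w ∉ Y → ¬ (partG G u v I).Adj y w := by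
    intro Y hY hne hcl
    have hsub : bd G (St s t U) Y ⊆ {x} := by
      intro w hw
      obtain ⟨⟨hwW, hwY⟩, y, hy, hadj⟩ := mem_bd.1 hw
      rw [Finset.mem_singleton]
      by_contra hwx
      have hwS : w ∈ St u v I := by
        by_cases hwI : w ∈ I
        · exact mem_St.2 (Or.inr (Or.inr hwI))
        · have : w ∈ bd G (St s t U) I := mem_bd.2 ⟨⟨hwW, hwI⟩, y, hY hy, hadj⟩
          rw [hb, Finset.mem_insert, Finset.mem_singleton] at this
          rcases this with e | e
          · exact mem_St.2 (Or.inl e)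
          · exact mem_St.2 (Or.inr (Or.inl e))
      exact hcl y hy w (Finset.mem_erase.2 ⟨hwx, hwS⟩) hwY
        ⟨hadj.ne, mem_St.2 (Or.inr (Or.inr (hY hy))), hwS, Or.inl hadj⟩
    have h1 := h.two_le_bd (hY.trans hI.sub) hne
    have h2 := Finset.card_le_card hsub
    rw [Finset.card_singleton] at h2
    omega
  refine ⟨?_, fun P hP hne hneq => ?_⟩
  · obtain ⟨y, hy⟩ : ∃ y, (y = u ∨ y = v) ∧ y ≠ x := by
      by_cases hux : u = x
      · exact ⟨v, Or.inr rfl, fun h => huv (hux.trans h.symm)⟩
      · exact ⟨u, Or.inl rfl, hux⟩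
    refine ⟨y, Finset.mem_erase.2 ⟨hy.2, mem_St.2 ?_⟩⟩
    rcases hy.1 with e | e
    · exact Or.inl e
    · exact Or.inr (Or.inl e)
  · by_contra hcon
    push Not at hcon
    by_cases hPI : P ⊆ I
    · exact key P hPI hne (fun y hy w hw hwP => hcon y hy w hw hwP)
    · obtain ⟨p, hp, hpI⟩ := Finset.not_subset.1 hPI
      have hpS := (Finset.mem_erase.1 (hP hp)).2
      refine key ((St u v I).erase x \ P) (fun y hy => ?_) ?_ (fun y hy w hw hwY hadj => ?_)
      · obtain ⟨hyX, hyP⟩ := Finset.mem_sdiff.1 hy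
        have hyS := (Finset.mem_erase.1 hyX).2
        by_contra hyI
        have hadj : (partG G u v I).Adj p y := by
          have hpy : p ≠ y := fun e => hyP (e ▸ hp)
          refine ⟨hpy, hpS, hyS, Or.inr ?_⟩
          rcases mem_St.1 hpS with e | e | e
          · rcases mem_St.1 hyS with e' | e' | e'
            · exact absurd (e.trans e'.symm) hpy
            · rw [e, e']
            · exact absurd e' hyI
          · rcases mem_St.1 hyS with e' | e' | e'
            · rw [e, e', Sym2.eq_swap]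
            · exact absurd (e.trans e'.symm) hpy
            · exact absurd e' hyI
          · exact absurd e hpI
        exact hcon p hp y hyX hyP hadj
      · by_contra hemp
        rw [Finset.not_nonempty_iff_eq_empty, Finset.sdiff_eq_empty_iff_subset] at hemp
        exact hneq (le_antisymm hP hemp)
      · have hyX := (Finset.mem_sdiff.1 hy)
        have hwP : w ∈ P := by
          by_contra hwP
          exact hwY (Finset.mem_sdiff.2 ⟨hw, hwP⟩)
        exact hcon w hwP y hyX.1 hyX.2 hadj.symm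

end PartNAux

open PartNAux in
theorem Frag.part_net {s t : ℕ} {U : Finset ℕ} {G : Gr} (h : Net s t U G) {I : Finset ℕ}
    (hI : Frag s t U G I) {u v : ℕ} (hb : bd G (St s t U) I = {u, v}) :
    Net u v I (partG G u v I) := by
  classical
  have huv : u ≠ v := by
    intro e
    have := hI.card
    rw [hb, e] at this
    simp at this
  have hub : u ∈ bd G (St s t U) I := by rw [hb]; simp
  have hvb : v ∈ bd G (St s t U) I := by rw [hb]; simp
  have hu := mem_bd.1 hub
  have hv := mem_bd.1 hvb
  have hadj : (partG G u v I).Adj u v :=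
    ⟨huv, mem_St.2 (Or.inl rfl), mem_St.2 (Or.inr (Or.inl rfl)), Or.inr rfl⟩
  refine ⟨huv, hu.1.2, hv.1.2, fun a b hab => hab.2.1, hadj, ⟨?_, ?_, ?_⟩, ?_⟩
  · have h1 : ({u, v} : Finset ℕ) ⊆ St u v I := by
      intro x hx
      rw [Finset.mem_insert, Finset.mem_singleton] at hx
      rcases hx with e | e
      · exact mem_St.2 (Or.inl e)
      · exact mem_St.2 (Or.inr (Or.inl e))
    have h2 := Finset.card_le_card h1
    rwa [Finset.card_pair huv] at h2
  · obtain ⟨x, hx⟩ := Infinite.exists_notMem_finset (St u v I)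
    have := part_conn h hI hb huv x
    rwa [Finset.erase_eq_of_notMem hx] at this
  · intro x _
    exact part_conn h hI hb huv x
  · -- no `K_5` minor
    obtain ⟨r, hrW, hrS⟩ : ∃ r ∈ St s t U, r ∉ St u v I := by
      by_contra hcon
      push Not at hcon
      have hs := hcon s (mem_St.2 (Or.inl rfl))
      have ht := hcon t (mem_St.2 (Or.inr (Or.inl rfl)))
      have hs' : s ∈ ({u, v} : Finset ℕ) := by
        rcases mem_St.1 hs with e | e | e
        · simp [e]
        · simp [e]
        · exact absurd (hI.sub e) h.hs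
      have ht' : t ∈ ({u, v} : Finset ℕ) := by
        rcases mem_St.1 ht with e | e | e
        · simp [e]
        · simp [e]
        · exact absurd (hI.sub e) h.ht
      apply hI.bd_ne
      rw [hb]
      symm
      apply Finset.eq_of_subset_of_card_le
      · intro x hx
        rw [Finset.mem_insert, Finset.mem_singleton] at hx
        rcases hx with e | e
        · exact e ▸ hs'
        · exact e ▸ ht'
      · rw [Finset.card_pair huv, Finset.card_pair h.ne]
    obtain ⟨R, hR1, hR2, hR3, hR4⟩ := P512.hull G {r} (St s t U \ St u v I)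
      (P512.conn_singleton G r) (Finset.singleton_subset_iff.2 (Finset.mem_sdiff.2 ⟨hrW, hrS⟩))
    have hRS : Disjoint R (St u v I) :=
      Finset.disjoint_left.2 (fun x hx hxS => (Finset.mem_sdiff.1 (hR2 hx)).2 hxS)
    have hRW : R ⊆ St s t U := fun x hx => (Finset.mem_sdiff.1 (hR2 hx)).1
    have huS : u ∈ St u v I := mem_St.2 (Or.inl rfl)
    have hvS : v ∈ St u v I := mem_St.2 (Or.inr (Or.inl rfl))
    have h2 := two_le_bd_of_blk h.blk hRW ⟨r, hR1 (Finset.mem_singleton_self r)⟩ hu.1.1 hv.1.1 huv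
      (fun e => Finset.disjoint_left.1 hRS e huS) (fun e => Finset.disjoint_left.1 hRS e hvS)
    have hsub : bd G (St s t U) R ⊆ {u, v} := by
      intro w hw
      obtain ⟨⟨hwW, hwR⟩, y, hy, hyw⟩ := mem_bd.1 hw
      have hwS : w ∈ St u v I := by
        by_contra hwS
        exact hwR (hR4 y hy w (Finset.mem_sdiff.2 ⟨hwW, hwS⟩) hyw)
      rcases mem_St.1 hwS with e | e | e
      · simp [e]
      · simp [e]
      · exfalso
        have hyS : y ∉ St u v I := fun hyS => Finset.disjoint_left.1 hRS hy hyS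
        have : y ∈ bd G (St s t U) I :=
          mem_bd.2 ⟨⟨hRW hy, fun hyI => hyS (mem_St.2 (Or.inr (Or.inr hyI)))⟩, w, e, hyw.symm⟩
        rw [hb, Finset.mem_insert, Finset.mem_singleton] at this
        rcases this with e' | e'
        · exact hyS (mem_St.2 (Or.inl e'))
        · exact hyS (mem_St.2 (Or.inr (Or.inl e')))
    have heq : bd G (St s t U) R = {u, v} := by
      apply Finset.eq_of_subset_of_card_le hsub
      rw [Finset.card_pair huv]
      exact h2
    have hRu : u ∈ bd G (St s t U) R := by rw [heq]; simp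
    have hRv : v ∈ bd G (St s t U) R := by rw [heq]; simp
    obtain ⟨-, ru, hru, hru2⟩ := mem_bd.1 hRu
    obtain ⟨-, rv, hrv, hrv2⟩ := mem_bd.1 hRv
    exact free_add_edge h.free huS hvS huv hR3 hRS ⟨ru, hru, hru2⟩ ⟨rv, hrv, hrv2⟩
      (fun a b hab => hab.2.1) (fun a b hab => hab.2.2.2)

end K5
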