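import Pool.Agent.Lib.K5.CoreT
import Pool.Agent.Lib.K5.CoreF
import Pool.Agent.Lib.K5.PartN
import Pool.Agent.Lib.K5.Basic0

/-!
# K5.Assem: every piece that is not series comes from a code

The code: `A = coreV s t U G`, `H = coreG s t U G`; for `w ∈ U \ A`, `f w = s(u, v)` where `bd I = {u, v}` for the maximal fragment `I` with `w ∈ I` (`mem_maxFrag`); for an edge `e = s(u, v) ≠ s(s, t)`
of `H`: if there is a maximal fragment `I` with `bd I = {u, v}` (unique, `MaxFrag.bd_inj`; it is then the fibre of `f`) `N e = partG G u v I`, otherwise `N e` is the graph with the single edge `uv`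
(`partG G u v ∅`; it is a network on the empty set); `F` = the edges `s(a, b) ≠ s(s, t)` of `H` with `G.Adj a b`. `N e = ⊥` for the other `e`.
`Core`: `HPiece.core_three`, `HPiece.core_free`. The edges: an edge `ab` of `G` is `st`, or has both ends in `St s t A` (then it is in `F`), or one end is in a maximal
fragment `I` and the other in `I ∪ bd I` (`MaxFrag.no_edge`), then it is an edge of `N (bd I)` different from the pair itself. Conversely every edge of `comp` is an edge of `G`.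
-/

namespace K5

open Finset

namespace AssemAux

lemma mem_St {s t : ℕ} {U : Finset ℕ} {x : ℕ} : x ∈ St s t U ↔ x = s ∨ x = t ∨ x ∈ U := by
  simp [St]

lemma sym2_of_pair {a b u v : ℕ} (hab : a ≠ b) (h : ({a, b} : Finset ℕ) = {u, v}) :
    s(a, b) = s(u, v) := by
  have ha : a ∈ ({u, v} : Finset ℕ) := by rw [← h]; simp
  have hb : b ∈ ({u, v} : Finset ℕ) := by rw [← h]; simp
  rw [mem_insert, mem_singleton] at ha hb
  rcases ha with ha | ha <;> rcases hb with hb | hb
  · exact absurd (ha.trans hb.symm) hab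
  · rw [ha, hb]
  · rw [ha, hb, Sym2.eq_swap]
  · exact absurd (ha.trans hb.symm) hab

lemma pair_of_sym2 {a b u v : ℕ} (h : s(a, b) = s(u, v)) : ({a, b} : Finset ℕ) = {u, v} := by
  rcases Sym2.eq_iff.1 h with ⟨h1, h2⟩ | ⟨h1, h2⟩
  · rw [h1, h2]
  · rw [h1, h2, Finset.pair_comm]

open Classical in
/-- The pair of a two-element set. -/
noncomputable def eo (X : Finset ℕ) : Sym2 ℕ :=
  if h : ∃ u v, u ≠ v ∧ X = {u, v} then s(h.choose, h.choose_spec.choose) else s(0, 0)

lemma eo_pair {u v : ℕ} (huv : u ≠ v) : eo {u, v} = s(u, v) := by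
  have h : ∃ u' v', u' ≠ v' ∧ ({u, v} : Finset ℕ) = {u', v'} := ⟨u, v, huv, rfl⟩
  rw [eo, dif_pos h]
  exact (sym2_of_pair huv h.choose_spec.choose_spec.2).symm

open Classical in
/-- The maximal fragment that contains `w`. -/
noncomputable def mf (s t : ℕ) (U : Finset ℕ) (G : Gr) (w : ℕ) : Finset ℕ :=
  if h : ∃ I, MaxFrag s t U G I ∧ w ∈ I then h.choose else ∅

lemma mf_spec {s t : ℕ} {U : Finset ℕ} {G : Gr} {w : ℕ} (hw : w ∈ U)
    (hc : w ∉ coreV s t U G) : MaxFrag s t U G (mf s t U G w) ∧ w ∈ mf s t U G w := by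
  have h := mem_maxFrag hw hc
  rw [mf, dif_pos h]
  exact h.choose_spec

lemma not_core {s t : ℕ} {U : Finset ℕ} {G : Gr} {I : Finset ℕ} (hI : MaxFrag s t U G I) {w : ℕ}
    (hw : w ∈ I) : w ∉ coreV s t U G := by
  classical
  intro h
  unfold coreV at h
  exact (Finset.mem_filter.1 h).2 I hI.1 hw

lemma mf_eq {s t : ℕ} {U : Finset ℕ} {G : Gr} (h : HPiece s t U G) {I : Finset ℕ}
    (hI : MaxFrag s t U G I) {w : ℕ} (hw : w ∈ I) : mf s t U G w = I := by
  obtain ⟨h1, h2⟩ := mf_spec (hI.1.sub hw) (not_core hI hw)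
  by_contra hne
  exact Finset.disjoint_left.1 (MaxFrag.disjoint h h1 hI hne) h2 hw

open Classical in
/-- The map of the code. -/
noncomputable def ff (s t : ℕ) (U : Finset ℕ) (G : Gr) (w : ℕ) : Sym2 ℕ :=
  if w ∈ U \ coreV s t U G then eo (bd G (St s t U) (mf s t U G w)) else s(s, t)

/-- The part of `G` on `e` and `I`, with the edge `e`. -/
def partE (G : Gr) (e : Sym2 ℕ) (I : Finset ℕ) : Gr where
  Adj a b := a ≠ b ∧ (a ∈ e ∨ a ∈ I) ∧ (b ∈ e ∨ b ∈ I) ∧ (G.Adj a b ∨ s(a, b) = e)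
  symm := ⟨fun a b h => ⟨h.1.symm, h.2.2.1, h.2.1, h.2.2.2.imp (fun h => h.symm)
    (fun h => by rw [Sym2.eq_swap]; exact h)⟩⟩
  loopless := ⟨fun a h => h.1 rfl⟩

lemma partE_eq (G : Gr) (u v : ℕ) (I : Finset ℕ) : partE G s(u, v) I = partG G u v I := by
  ext a b
  simp only [partE, partG, Sym2.mem_iff, mem_St, or_assoc]

open Classical in
/-- The set of the labels of the edge `e`. -/
noncomputable def fb (s t : ℕ) (U : Finset ℕ) (G : Gr) (e : Sym2 ℕ) : Finset ℕ :=
  (U \ coreV s t U G).filter (fun w => ff s t U G w = e)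

open Classical in
/-- The code of a piece. -/
noncomputable def cd (s t : ℕ) (U : Finset ℕ) (G : Gr) : Code where
  A := coreV s t U G
  H := coreG s t U G
  f := ff s t U G
  N := fun e => if e ∈ (coreG s t U G).edgeSet ∧ e ≠ s(s, t) then partE G e (fb s t U G e) else ⊥
  F := {e | e ∈ (coreG s t U G).edgeSet ∧ e ≠ s(s, t) ∧ e ∈ G.edgeSet}

lemma fib_eq (s t : ℕ) (U : Finset ℕ) (G : Gr) (e : Sym2 ℕ) : (cd s t U G).fib U e = fb s t U G e := by
  classical
  ext w
  simp [Code.fib, fb, cd]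

lemma mem_fb {s t : ℕ} {U : Finset ℕ} {G : Gr} {e : Sym2 ℕ} {w : ℕ} :
    w ∈ fb s t U G e ↔ (w ∈ U ∧ w ∉ coreV s t U G) ∧ ff s t U G w = e := by
  classical
  rw [fb, Finset.mem_filter, Finset.mem_sdiff]

lemma ff_eq {s t : ℕ} {U : Finset ℕ} {G : Gr} (h : HPiece s t U G) {I : Finset ℕ}
    (hI : MaxFrag s t U G I) {w : ℕ} (hw : w ∈ I) : ff s t U G w = eo (bd G (St s t U) I) := by
  rw [ff, if_pos (Finset.mem_sdiff.2 ⟨hI.1.sub hw, not_core hI hw⟩), mf_eq h hI hw]

/-- The fibre at the boundary of a maximal fragment. -/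
lemma fb_eq {s t : ℕ} {U : Finset ℕ} {G : Gr} (h : HPiece s t U G) {I : Finset ℕ}
    (hI : MaxFrag s t U G I) : fb s t U G (eo (bd G (St s t U) I)) = I := by
  ext w
  rw [mem_fb]
  constructor
  · rintro ⟨⟨hw, hc⟩, he⟩
    obtain ⟨hJ, hwJ⟩ := mf_spec hw hc
    rw [ff_eq h hJ hwJ] at he
    obtain ⟨u, v, huv, hb⟩ := Finset.card_eq_two.1 hI.1.card
    obtain ⟨u', v', huv', hb'⟩ := Finset.card_eq_two.1 hJ.1.card
    rw [hb, hb', eo_pair huv, eo_pair huv'] at he
    have := MaxFrag.bd_inj h hJ hI (by rw [hb, hb', pair_of_sym2 he])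
    rwa [← this]
  · intro hw
    exact ⟨⟨hI.1.sub hw, not_core hI hw⟩, ff_eq h hI hw⟩

lemma part_empty {G : Gr} {u v : ℕ} : partG G u v ∅ = clq {u, v} := by
  ext a b
  simp only [partG, clq, Finset.mem_insert, Finset.mem_singleton, Finset.notMem_empty, or_false]
  constructor
  · rintro ⟨h1, h2, h3, -⟩
    exact ⟨h1, h2, h3⟩
  · rintro ⟨h1, h2, h3⟩
    refine ⟨h1, h2, h3, Or.inr ?_⟩
    rcases h2 with e | e <;> rcases h3 with e' | e'
    · exact absurd (e.trans e'.symm) h1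
    · rw [e, e']
    · rw [e, e', Sym2.eq_swap]
    · exact absurd (e.trans e'.symm) h1

lemma ff_edge {s t : ℕ} {U : Finset ℕ} {G : Gr} (h : HPiece s t U G) {w : ℕ} (hw : w ∈ U)
    (hc : w ∉ coreV s t U G) :
    ff s t U G w ∈ (coreG s t U G).edgeSet ∧ ff s t U G w ≠ s(s, t) := by
  obtain ⟨hI, hwI⟩ := mf_spec hw hc
  rw [ff_eq h hI hwI]
  obtain ⟨u, v, huv, hb⟩ := Finset.card_eq_two.1 hI.1.card
  have hsub := MaxFrag.bd_sub h hI
  rw [hb] at hsub
  rw [hb, eo_pair huv]
  constructor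
  · exact ⟨huv, hsub (by simp), hsub (by simp), Or.inr ⟨_, hI, hb⟩⟩
  · intro he
    exact hI.1.bd_ne (by rw [hb, pair_of_sym2 he])

lemma valid {s t : ℕ} {U : Finset ℕ} {G : Gr} (h : HPiece s t U G) : (cd s t U G).Valid s t U := by
  classical
  have hA : coreV s t U G ⊆ U := by
    unfold coreV
    exact Finset.filter_subset _ _
  have hn := h.1.net
  refine ⟨hn.hs, hn.ht, hA, ⟨hn.ne, fun hs => hn.hs (hA hs), fun ht => hn.ht (hA ht), ?_, ?_, ?_, ?_⟩,
    ?_, ?_, ?_, ?_, ?_, ?_⟩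
  · exact fun a b hab => hab.2.1
  · exact ⟨hn.ne, mem_St.2 (Or.inl rfl), mem_St.2 (Or.inr (Or.inl rfl)), Or.inl hn.adj⟩
  · exact h.core_three
  · exact h.core_free
  · intro w hw
    rw [Finset.mem_sdiff] at hw
    exact ff_edge h hw.1 hw.2
  · intro w hw
    exact if_neg hw
  · intro e he hne
    rw [fib_eq]
    have hN : (cd s t U G).N e = partE G e (fb s t U G e) := if_pos ⟨he, hne⟩
    rw [hN]
    induction e using Sym2.ind with
    | _ u v =>
      refine ⟨u, v, rfl, ?_⟩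
      rw [partE_eq]
      have huv : u ≠ v := (show (coreG s t U G).Adj u v from he).ne
      by_cases hemp : fb s t U G s(u, v) = ∅
      · rw [hemp, part_empty]
        exact (net_empty huv).2 rfl
      · obtain ⟨w, hw⟩ := Finset.nonempty_iff_ne_empty.2 hemp
        obtain ⟨⟨hwU, hwc⟩, hwe⟩ := mem_fb.1 hw
        obtain ⟨hI, hwI⟩ := mf_spec hwU hwc
        rw [ff_eq h hI hwI] at hwe
        rw [← hwe, fb_eq h hI]
        obtain ⟨u', v', huv', hb⟩ := Finset.card_eq_two.1 hI.1.card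
        rw [hb, eo_pair huv'] at hwe
        exact Frag.part_net hn hI.1 (by rw [hb, pair_of_sym2 hwe])
  · intro e he
    refine if_neg ?_
    rintro ⟨h1, h2⟩
    rcases he with he | he
    · exact he h1
    · exact h2 he
  · intro e he
    exact ⟨he.1, he.2.1⟩
  · intro e he hne hf
    refine ⟨he, hne, ?_⟩
    induction e using Sym2.ind with
    | _ a b =>
      obtain ⟨hab, -, -, h1 | ⟨I, hI, hb⟩⟩ := (show (coreG s t U G).Adj a b from he)
      · exact h1
      · exfalso
        obtain ⟨w, hw⟩ := hI.1.ne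
        refine hf w (Finset.mem_sdiff.2 ⟨hI.1.sub hw, not_core hI hw⟩) ?_
        show ff s t U G w = s(a, b)
        rw [ff_eq h hI hw, hb, eo_pair hab]

lemma net_adj {s t : ℕ} {U : Finset ℕ} {G : Gr} (h : HPiece s t U G) {a b : ℕ} (hab : G.Adj a b)
    (ha : a ∉ St s t (coreV s t U G)) : ∃ e, ((cd s t U G).N e).Adj a b ∧ s(a, b) ≠ e := by
  classical
  have hn := h.1.net
  have haW := hn.on a b hab
  have hbW := hn.on b a hab.symm
  have haU : a ∈ U := by
    rcases mem_St.1 haW with e | e | e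
    · exact absurd (mem_St.2 (Or.inl e)) ha
    · exact absurd (mem_St.2 (Or.inr (Or.inl e))) ha
    · exact e
  have hac : a ∉ coreV s t U G := fun hc => ha (mem_St.2 (Or.inr (Or.inr hc)))
  obtain ⟨hI, haI⟩ := mf_spec haU hac
  obtain ⟨I, hIe⟩ : ∃ I, I = mf s t U G a := ⟨_, rfl⟩
  rw [← hIe] at hI haI
  have hfe := ff_edge h haU hac
  refine ⟨ff s t U G a, ?_, ?_⟩
  · have hN : (cd s t U G).N (ff s t U G a) = partE G (ff s t U G a) (fb s t U G (ff s t U G a)) :=
      if_pos hfe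
    rw [hN, ff_eq h hI haI, fb_eq h hI]
    refine ⟨hab.ne, Or.inr haI, ?_, Or.inl hab⟩
    by_cases hbI : b ∈ I
    · exact Or.inr hbI
    · left
      have hbb : b ∈ bd G (St s t U) I := mem_bd.2 ⟨⟨hbW, hbI⟩, a, haI, hab⟩
      obtain ⟨u, v, huv, hb⟩ := Finset.card_eq_two.1 hI.1.card
      rw [hb] at hbb
      rw [hb, eo_pair huv, Sym2.mem_iff]
      simpa using hbb
  · intro he
    rw [ff_eq h hI haI] at he
    obtain ⟨u, v, huv, hb⟩ := Finset.card_eq_two.1 hI.1.card
    rw [hb, eo_pair huv] at he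
    have : a ∈ bd G (St s t U) I := by
      rw [hb, ← pair_of_sym2 he]
      simp
    exact (mem_bd.1 this).1.2 haI

lemma comp_eq {s t : ℕ} {U : Finset ℕ} {G : Gr} (h : HPiece s t U G) : (cd s t U G).comp s t = G := by
  classical
  have hn := h.1.net
  ext a b
  constructor
  · rintro ⟨hab, h1 | h1 | ⟨e, h1, h2⟩⟩
    · rcases Sym2.eq_iff.1 h1 with ⟨e1, e2⟩ | ⟨e1, e2⟩
      · rw [e1, e2]; exact hn.adj
      · rw [e1, e2]; exact hn.adj.symm
    · exact h1.2.2
    · by_cases hc : e ∈ (coreG s t U G).edgeSet ∧ e ≠ s(s, t)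
      · have hN : (cd s t U G).N e = partE G e (fb s t U G e) := if_pos hc
        rw [hN] at h1
        rcases h1.2.2.2 with h3 | h3
        · exact h3
        · exact absurd h3 h2
      · have hN : (cd s t U G).N e = ⊥ := if_neg hc
        rw [hN] at h1
        exact absurd h1 (by simp)
  · intro hab
    refine ⟨hab.ne, ?_⟩
    by_cases hst : s(a, b) = s(s, t)
    · exact Or.inl hst
    · right
      by_cases ha : a ∈ St s t (coreV s t U G)
      · by_cases hb : b ∈ St s t (coreV s t U G)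
        · left
          exact ⟨⟨hab.ne, ha, hb, Or.inl hab⟩, hst, hab⟩
        · right
          obtain ⟨e, h1, h2⟩ := net_adj h hab.symm hb
          exact ⟨e, h1.symm, fun h3 => h2 (by rw [Sym2.eq_swap]; exact h3)⟩
      · right
        exact net_adj h hab ha

end AssemAux

theorem HPiece.exists_code {s t : ℕ} {U : Finset ℕ} {G : Gr} (h : HPiece s t U G) :
    ∃ c : Code, c.Valid s t U ∧ c.comp s t = G :=
  ⟨AssemAux.cd s t U G, AssemAux.valid h, AssemAux.comp_eq h⟩

end K5
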