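import Pool.Agent.Lib.K5.Defs

/-!
# K5.Bd: the boundary operator

1. `bd_submod`. Per vertex `w`: if `w ∈ bd (I ∪ J)` then `w ∉ I ∪ J` and `w ∈ bd I` or `w ∈ bd J`; if `w ∈ bd (I ∩ J)` then `w ∉ I ∩ J` and `w` has a
   neighbour in `I` and in `J`, so `w ∈ bd I` if `w ∉ I` and `w ∈ bd J` if `w ∉ J`. If `w` is in both then `w ∉ I ∪ J`, so `w` is in `bd I` and in `bd J`.
   So `bd (I ∪ J) ∪ bd (I ∩ J) ⊆ bd I ∪ bd J` and `bd (I ∪ J) ∩ bd (I ∩ J) ⊆ bd I ∩ bd J`; `Finset.card_union_add_card_inter`.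
2. `two_le_bd_of_blk`. `G` 2-connected on `W`, `I ⊆ W` nonempty, and some vertex `z ∈ W` outside `I` and outside `bd I`... (here: two vertices `z, z' ∈ W`, `z ≠ z'`, outside `I`).
   Cut form with `P = I`: `Conn G W` gives `w ∈ bd I`. If `bd I = {w}` then `Conn G (W.erase w)` with `P = I` (nonempty, not everything because `z` or `z'` is
   different from `w`) gives a second element.
-/

namespace K5

open Finset

theorem mem_bd {G : Gr} {W I : Finset ℕ} {w : ℕ} :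
    w ∈ bd G W I ↔ (w ∈ W ∧ w ∉ I) ∧ ∃ i ∈ I, G.Adj i w := by
  classical
  unfold bd
  rw [Finset.mem_filter, Finset.mem_sdiff]

theorem bd_submod (G : Gr) (W I J : Finset ℕ) :
    (bd G W (I ∪ J)).card + (bd G W (I ∩ J)).card ≤ (bd G W I).card + (bd G W J).card := by
  classical
  have h1 : bd G W (I ∪ J) ∪ bd G W (I ∩ J) ⊆ bd G W I ∪ bd G W J := by
    intro w hw
    rw [Finset.mem_union, mem_bd, mem_bd] at hw
    rw [Finset.mem_union, mem_bd, mem_bd]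
    rcases hw with ⟨⟨hW, hI⟩, i, hi, ha⟩ | ⟨⟨hW, hI⟩, i, hi, ha⟩
    · rw [Finset.mem_union, not_or] at hI
      rcases Finset.mem_union.mp hi with hi | hi
      · exact Or.inl ⟨⟨hW, hI.1⟩, i, hi, ha⟩
      · exact Or.inr ⟨⟨hW, hI.2⟩, i, hi, ha⟩
    · rw [Finset.mem_inter] at hi
      by_cases hwI : w ∈ I
      · exact Or.inr ⟨⟨hW, fun h => hI (Finset.mem_inter.mpr ⟨hwI, h⟩)⟩, i, hi.2, ha⟩
      · exact Or.inl ⟨⟨hW, hwI⟩, i, hi.1, ha⟩
  have h2 : bd G W (I ∪ J) ∩ bd G W (I ∩ J) ⊆ bd G W I ∩ bd G W J := by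
    intro w hw
    rw [Finset.mem_inter, mem_bd, mem_bd] at hw
    rw [Finset.mem_inter, mem_bd, mem_bd]
    obtain ⟨⟨⟨hW, hI⟩, _⟩, ⟨_, i, hi, ha⟩⟩ := hw
    rw [Finset.mem_union, not_or] at hI
    rw [Finset.mem_inter] at hi
    exact ⟨⟨⟨hW, hI.1⟩, i, hi.1, ha⟩, ⟨⟨hW, hI.2⟩, i, hi.2, ha⟩⟩
  have h3 := Finset.card_union_add_card_inter (bd G W (I ∪ J)) (bd G W (I ∩ J))
  have h4 := Finset.card_union_add_card_inter (bd G W I) (bd G W J)
  have h5 := Finset.card_le_card h1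
  have h6 := Finset.card_le_card h2
  omega

theorem two_le_bd_of_blk {G : Gr} {W I : Finset ℕ} (h : Blk G W) (hI : I ⊆ W) (hne : I.Nonempty)
    {z z' : ℕ} (hz : z ∈ W) (hz' : z' ∈ W) (hzz : z ≠ z') (hzI : z ∉ I) (hzI' : z' ∉ I) :
    2 ≤ (bd G W I).card := by
  obtain ⟨_, hc, hv⟩ := h
  obtain ⟨u, hu, v, hvW, hvI, ha⟩ := hc.2 I hI hne (fun h => hzI (h ▸ hz))
  have hvb : v ∈ bd G W I := mem_bd.mpr ⟨⟨hvW, hvI⟩, u, hu, ha⟩
  obtain ⟨u', hu', v', hvW', hvI', ha'⟩ := (hv v hvW).2 I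
    (fun x hx => Finset.mem_erase.mpr ⟨fun h => hvI (h ▸ hx), hI hx⟩) hne (by
      intro h
      by_cases hzv : z = v
      · exact hzI' (h ▸ Finset.mem_erase.mpr ⟨fun h => hzz (hzv.trans h.symm), hz'⟩)
      · exact hzI (h ▸ Finset.mem_erase.mpr ⟨hzv, hz⟩))
  rw [Finset.mem_erase] at hvW'
  have hvb' : v' ∈ bd G W I := mem_bd.mpr ⟨⟨hvW'.2, hvI'⟩, u', hu', ha'⟩
  exact Finset.one_lt_card.mpr ⟨v', hvb', v, hvb, hvW'.1⟩

theorem Net.two_le_bd {s t : ℕ} {U : Finset ℕ} {G : Gr} (h : Net s t U G) {I : Finset ℕ}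
    (hI : I ⊆ U) (hne : I.Nonempty) : 2 ≤ (bd G (St s t U) I).card := by
  refine two_le_bd_of_blk h.blk (fun x hx => ?_) hne (z := s) (z' := t) ?_ ?_ h.ne
    (fun hs => h.hs (hI hs)) (fun ht => h.ht (hI ht))
  · simp [hI hx]
  · simp
  · simp

end K5
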