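import Pool.Agent.Lib.K5.CompS
import Pool.Agent.Lib.K5.Bd

/-!
# K5.Avoid: the fragments of the graph of a code

`G = c.comp s t`, `W = St s t U`.
1. `frag_avoid`: a fragment `I` of `G` does not meet `A`. Let `bd G W I = {p, q}` and suppose `P = I ∩ A ≠ ∅`. For every edge `ab` of `H` with `a ∈ P`, `b ∈ St s t A \ P` (it is not `st`),
   `comp_cross` with the set `I` gives an edge of `G` from `I` to a vertex `b' ∉ I` of `St a b (fib ab)`, so `b' ∈ {p, q}`: one of `p, q` is equal to `b` or lies in `fib ab` (`b' ≠ a` as `a ∈ I`). (i) `p, q ∈ St s t A`: then no edge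
   of `H` leaves `P` in `St s t A \ {p, q}`, so (Three) `P = St s t A \ {p, q}`, and as `s, t ∉ P` `{p, q} = {s, t}`: contradiction to `bd_ne`. (ii) `p ∈ St s t A`, `q ∈ fib e_q`: `Three.cross_erase` for `x = p` and
   `e = e_q` gives an edge that is not blocked (`P ≠ (St s t A).erase p` because `s` or `t` is in the latter). (iii) both in fibres: `Three.cross` with `e_p`, `e_q`.
2. `fib_frag`: a nonempty fibre `fib e`, `e = s(u, v)` edge of `H`, `e ≠ st`, is a fragment with boundary `{u, v}` (`comp_edge` shows `⊆`, `Net.two_le_bd` gives equality).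
3. `frag_fib`: every fragment `I` is contained in a fibre. `I ⊆ U \ A`. Let `w ∈ I`, `e = f w = s(u, v)`, `I1 = I ∩ fib e`. Then `bd I1 ⊆ bd I` and `bd I1 ⊆ St u v (fib e)`; as both have ... at least / exactly two elements
   `bd I1 = bd I`. If `w' ∈ I` is in another fibre `e'`, then `bd I ⊆ St u' v' (fib e')` too: contradiction to `Code.Valid.common` (two different elements).
4. `maxFrag_iff`: the maximal fragments are the nonempty fibres of the edges of `H` other than `st`. `coreV_comp`: `coreV = A`.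
-/

namespace K5

open Finset

variable {s t : ℕ} {U : Finset ℕ} {c : Code}

namespace AvoidAux

theorem toNet (h : c.Valid s t U) : Net s t U (c.comp s t) := h.comp_hpiece.1.net

theorem mem_St {s t x : ℕ} {U : Finset ℕ} : x ∈ St s t U ↔ x = s ∨ x = t ∨ x ∈ U := by
  unfold St
  rw [Finset.mem_insert, Finset.mem_insert]

theorem StA_sub (h : c.Valid s t U) {x : ℕ} (hx : x ∈ St s t c.A) : x ∈ St s t U := by
  rw [mem_St] at hx ⊢
  rcases hx with hx | hx | hx
  · exact Or.inl hx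
  · exact Or.inr (Or.inl hx)
  · exact Or.inr (Or.inr (h.sub hx))

theorem A_of (h : c.Valid s t U) {x : ℕ} (hx : x ∈ St s t c.A) (hU : x ∈ U) : x ∈ c.A := by
  rw [mem_St] at hx
  rcases hx with hx | hx | hx
  · rw [hx] at hU
    exact absurd hU h.hs
  · rw [hx] at hU
    exact absurd hU h.ht
  · exact hx

theorem fib_not (h : c.Valid s t U) {e : Sym2 ℕ} {x : ℕ} (hx : x ∈ c.fib U e) :
    x ∉ St s t c.A := fun hA =>
  (h.fib_sub hx).2.1 (A_of h hA (h.fib_sub hx).1)

theorem adj_mem (h : c.Valid s t U) {u v : ℕ} (he : c.H.Adj u v) :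
    u ∈ St s t c.A ∧ v ∈ St s t c.A := ⟨h.core.on u v he, h.core.on v u he.symm⟩

theorem St_sub (h : c.Valid s t U) {u v : ℕ} (he : c.H.Adj u v) {e : Sym2 ℕ} {x : ℕ}
    (hx : x ∈ St u v (c.fib U e)) : x ∈ St s t U := by
  rw [mem_St] at hx
  rcases hx with hx | hx | hx
  · rw [hx]
    exact StA_sub h (adj_mem h he).1
  · rw [hx]
    exact StA_sub h (adj_mem h he).2
  · rw [mem_St]
    exact Or.inr (Or.inr (h.fib_sub hx).1)

theorem out_or (h : c.Valid s t U) {x : ℕ} (hx : x ∈ St s t U) (hA : x ∉ St s t c.A) :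
    x ∈ U ∧ x ∉ c.A := by
  rw [mem_St] at hx
  rw [mem_St] at hA
  push Not at hA
  rcases hx with hx | hx | hx
  · exact absurd hx hA.1
  · exact absurd hx hA.2.1
  · exact ⟨hx, hA.2.2⟩

/-- edges at a fibre stay in the star of the fibre -/
theorem fib_edge (h : c.Valid s t U) {u v x y : ℕ}
    (hx : x ∈ c.fib U s(u, v)) (hxy : (c.comp s t).Adj x y) :
    y ∈ St u v (c.fib U s(u, v)) := by
  obtain ⟨hxU, hxA, hfx⟩ := h.fib_sub hx
  have hxn := fib_not h hx
  rcases h.comp_edge hxy with h1 | h1 | ⟨u', v', he', hst', _, _, hx', hy', _⟩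
  · exfalso
    rw [Sym2.eq_iff] at h1
    rcases h1 with h1 | h1
    · rw [h1.1] at hxU
      exact h.hs hxU
    · rw [h1.1] at hxU
      exact h.ht hxU
  · exact absurd (adj_mem h h1.2).1 hxn
  · have h2 : x ∈ c.fib U s(u', v') := by
      rw [mem_St] at hx'
      rcases hx' with h3 | h3 | h3
      · rw [h3] at hxn
        exact absurd (adj_mem h he').1 hxn
      · rw [h3] at hxn
        exact absurd (adj_mem h he').2 hxn
      · exact h3
    have h3 : s(u', v') = s(u, v) := by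
      rw [← (h.fib_sub h2).2.2, hfx]
    rw [h3] at hy'
    rw [Sym2.eq_iff] at h3
    rw [mem_St] at hy' ⊢
    rcases h3 with h3 | h3
    · rw [h3.1, h3.2] at hy'
      exact hy'
    · rw [h3.1, h3.2] at hy'
      rcases hy' with h4 | h4 | h4
      · exact Or.inr (Or.inl h4)
      · exact Or.inl h4
      · exact Or.inr (Or.inr h4)

theorem pair_ne {u v s t : ℕ} (h : s(u, v) ≠ s(s, t)) (huv : u ≠ v) :
    ({u, v} : Finset ℕ) ≠ {s, t} := by
  intro h1
  apply h
  have h2 : u ∈ ({s, t} : Finset ℕ) := by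
    rw [← h1]
    simp
  have h3 : v ∈ ({s, t} : Finset ℕ) := by
    rw [← h1]
    simp
  rw [Finset.mem_insert, Finset.mem_singleton] at h2 h3
  rw [Sym2.eq_iff]
  rcases h2 with h2 | h2 <;> rcases h3 with h3 | h3
  · exact absurd (h2.trans h3.symm) huv
  · exact Or.inl ⟨h2, h3⟩
  · exact Or.inr ⟨h2, h3⟩
  · exact absurd (h2.trans h3.symm) huv

theorem pair_eq {p q s t : ℕ} (hs : s = p ∨ s = q) (ht : t = p ∨ t = q) (hst : s ≠ t) :
    ({p, q} : Finset ℕ) = {s, t} := by
  rcases hs with hs | hs <;> rcases ht with ht | ht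
  · exact absurd (hs.trans ht.symm) hst
  · rw [hs, ht]
  · rw [hs, ht, Finset.pair_comm]
  · exact absurd (hs.trans ht.symm) hst

/-- the two boundary vertices block the edges of the core -/
theorem block (h : c.Valid s t U) {I : Finset ℕ} (hIU : I ⊆ U) {p q : ℕ}
    (hbd : bd (c.comp s t) (St s t U) I = {p, q}) {a b : ℕ} (ha : a ∈ I)
    (hb : b ∈ St s t c.A) (hbP : ¬ (b ∈ I ∧ b ∈ c.A)) (hab : c.H.Adj a b) :
    ∃ z, (z = p ∨ z = q) ∧ ((z ∈ St s t c.A ∧ b = z) ∨ (z ∉ St s t c.A ∧ s(a, b) = c.f z)) := by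
  have hbI : b ∉ I := fun hbI => hbP ⟨hbI, A_of h hb (hIU hbI)⟩
  have hst : s(a, b) ≠ s(s, t) := by
    intro h1
    have haU := hIU ha
    rw [Sym2.eq_iff] at h1
    rcases h1 with h1 | h1
    · rw [h1.1] at haU
      exact h.hs haU
    · rw [h1.1] at haU
      exact h.ht haU
  obtain ⟨x, hx, hxI, y, hy, hyI, hxy, _⟩ := h.comp_cross hab hst ha hbI
  have hyb : y ∈ bd (c.comp s t) (St s t U) I :=
    mem_bd.mpr ⟨⟨St_sub h hab hy, hyI⟩, x, hxI, hxy⟩
  rw [hbd, Finset.mem_insert, Finset.mem_singleton] at hyb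
  refine ⟨y, hyb, ?_⟩
  rw [mem_St] at hy
  rcases hy with h1 | h1 | h1
  · rw [h1] at hyI
    exact absurd ha hyI
  · left
    rw [h1]
    exact ⟨hb, rfl⟩
  · right
    exact ⟨fib_not h h1, (h.fib_sub h1).2.2.symm⟩

end AvoidAux

open AvoidAux

theorem Code.Valid.frag_avoid (h : c.Valid s t U) {I : Finset ℕ}
    (hI : Frag s t U (c.comp s t) I) {a : ℕ} (ha : a ∈ c.A) : a ∉ I := by
  intro haI
  obtain ⟨p, q, hpq, hbd⟩ := Finset.card_eq_two.mp hI.card
  obtain ⟨P, hP⟩ : ∃ P, P = I ∩ c.A := ⟨_, rfl⟩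
  have hmem : ∀ x, x ∈ P ↔ x ∈ I ∧ x ∈ c.A := fun x => by rw [hP, Finset.mem_inter]
  have hPne : P.Nonempty := ⟨a, (hmem a).mpr ⟨haI, ha⟩⟩
  have hsP : s ∉ P := fun h1 => h.hs (hI.sub ((hmem s).mp h1).1)
  have htP : t ∉ P := fun h1 => h.ht (hI.sub ((hmem t).mp h1).1)
  have hsA : s ∈ St s t c.A := mem_St.mpr (Or.inl rfl)
  have htA : t ∈ St s t c.A := mem_St.mpr (Or.inr (Or.inl rfl))
  have hPA : P ⊆ St s t c.A := fun x hx => mem_St.mpr (Or.inr (Or.inr ((hmem x).mp hx).2))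
  have hpb : p ∈ bd (c.comp s t) (St s t U) I := by
    rw [hbd]
    simp
  have hqb : q ∈ bd (c.comp s t) (St s t U) I := by
    rw [hbd]
    simp
  have hpI : p ∉ I := (mem_bd.mp hpb).1.2
  have hqI : q ∉ I := (mem_bd.mp hqb).1.2
  have hpP : p ∉ P := fun h1 => hpI ((hmem p).mp h1).1
  have hqP : q ∉ P := fun h1 => hqI ((hmem q).mp h1).1
  have hst := h.core.ne
  have key : ∀ x ∈ P, ∀ b ∈ St s t c.A, b ∉ P → c.H.Adj x b →
      ∃ z, (z = p ∨ z = q) ∧ ((z ∈ St s t c.A ∧ b = z) ∨ (z ∉ St s t c.A ∧ s(x, b) = c.f z)) :=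
    fun x hx b hb hbP hxb => block h hI.sub hbd ((hmem x).mp hx).1 hb
      (fun h1 => hbP ((hmem b).mpr h1)) hxb
  by_cases hp : p ∈ St s t c.A <;> by_cases hq : q ∈ St s t c.A
  · have hsub : P ⊆ ((St s t c.A).erase p).erase q := fun x hx => by
      rw [Finset.mem_erase, Finset.mem_erase]
      refine ⟨fun h1 => hqP (h1 ▸ hx), fun h1 => hpP (h1 ▸ hx), hPA hx⟩
    by_cases heq : P = ((St s t c.A).erase p).erase q
    · apply hI.bd_ne
      rw [hbd]
      refine pair_eq ?_ ?_ hst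
      · by_contra hcon
        push Not at hcon
        apply hsP
        rw [heq, Finset.mem_erase, Finset.mem_erase]
        exact ⟨hcon.2, hcon.1, hsA⟩
      · by_contra hcon
        push Not at hcon
        apply htP
        rw [heq, Finset.mem_erase, Finset.mem_erase]
        exact ⟨hcon.2, hcon.1, htA⟩
    · obtain ⟨x, hx, b, hb, hbP, hxb⟩ := (h.core.three.2 p q).2 P hsub hPne heq
      rw [Finset.mem_erase, Finset.mem_erase] at hb
      obtain ⟨z, hz, h1 | h1⟩ := key x hx b hb.2.2 hbP hxb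
      · rcases hz with hz | hz
        · exact hb.2.1 (h1.2.trans hz)
        · exact hb.1 (h1.2.trans hz)
      · rcases hz with hz | hz
        · exact h1.1 (hz ▸ hp)
        · exact h1.1 (hz ▸ hq)
  · have hsub : P ⊆ (St s t c.A).erase p := fun x hx => by
      rw [Finset.mem_erase]
      exact ⟨fun h1 => hpP (h1 ▸ hx), hPA hx⟩
    have hne : P ≠ (St s t c.A).erase p := by
      intro h1
      by_cases hsp : s = p
      · apply htP
        rw [h1, Finset.mem_erase]
        exact ⟨fun h2 => hst (hsp.trans h2.symm), htA⟩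
      · apply hsP
        rw [h1, Finset.mem_erase]
        exact ⟨hsp, hsA⟩
    obtain ⟨x, hx, b, hb, hbP, hxb, hxe⟩ := h.core.three.cross_erase p hsub hPne hne (c.f q)
    rw [Finset.mem_erase] at hb
    obtain ⟨z, hz, h1 | h1⟩ := key x hx b hb.2 hbP hxb
    · rcases hz with hz | hz
      · exact hb.1 (h1.2.trans hz)
      · exact hq (hz ▸ h1.1)
    · rcases hz with hz | hz
      · exact h1.1 (hz ▸ hp)
      · exact hxe (hz ▸ h1.2)
  · have hsub : P ⊆ (St s t c.A).erase q := fun x hx => by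
      rw [Finset.mem_erase]
      exact ⟨fun h1 => hqP (h1 ▸ hx), hPA hx⟩
    have hne : P ≠ (St s t c.A).erase q := by
      intro h1
      by_cases hsq : s = q
      · apply htP
        rw [h1, Finset.mem_erase]
        exact ⟨fun h2 => hst (hsq.trans h2.symm), htA⟩
      · apply hsP
        rw [h1, Finset.mem_erase]
        exact ⟨hsq, hsA⟩
    obtain ⟨x, hx, b, hb, hbP, hxb, hxe⟩ := h.core.three.cross_erase q hsub hPne hne (c.f p)
    rw [Finset.mem_erase] at hb
    obtain ⟨z, hz, h1 | h1⟩ := key x hx b hb.2 hbP hxb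
    · rcases hz with hz | hz
      · exact hp (hz ▸ h1.1)
      · exact hb.1 (h1.2.trans hz)
    · rcases hz with hz | hz
      · exact hxe (hz ▸ h1.2)
      · exact h1.1 (hz ▸ hq)
  · have hne : P ≠ St s t c.A := fun h1 => hsP (h1 ▸ hsA)
    obtain ⟨x, hx, b, hb, hbP, hxb, hxe1, hxe2⟩ :=
      h.core.three.cross hPA hPne hne (c.f p) (c.f q)
    obtain ⟨z, hz, h1 | h1⟩ := key x hx b hb hbP hxb
    · rcases hz with hz | hz
      · exact hp (hz ▸ h1.1)
      · exact hq (hz ▸ h1.1)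
    · rcases hz with hz | hz
      · exact hxe1 (hz ▸ h1.2)
      · exact hxe2 (hz ▸ h1.2)

theorem Code.Valid.fib_frag (h : c.Valid s t U) {u v : ℕ} (he : c.H.Adj u v)
    (hst : s(u, v) ≠ s(s, t)) (hne : (c.fib U s(u, v)).Nonempty) :
    Frag s t U (c.comp s t) (c.fib U s(u, v)) ∧
      bd (c.comp s t) (St s t U) (c.fib U s(u, v)) = {u, v} := by
  have hsub : bd (c.comp s t) (St s t U) (c.fib U s(u, v)) ⊆ {u, v} := by
    intro y hy
    obtain ⟨⟨_, hyn⟩, x, hx, hxy⟩ := mem_bd.mp hy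
    have h1 := fib_edge h hx hxy
    rw [mem_St] at h1
    rw [Finset.mem_insert, Finset.mem_singleton]
    rcases h1 with h1 | h1 | h1
    · exact Or.inl h1
    · exact Or.inr h1
    · exact absurd h1 hyn
  have huv : u ≠ v := he.ne
  have hU : c.fib U s(u, v) ⊆ U := fun x hx => (h.fib_sub hx).1
  have h2 := (toNet h).two_le_bd hU hne
  have h3 : ({u, v} : Finset ℕ).card = 2 := Finset.card_pair huv
  have h4 : bd (c.comp s t) (St s t U) (c.fib U s(u, v)) = {u, v} :=
    Finset.eq_of_subset_of_card_le hsub (by rw [h3]; exact h2)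
  refine ⟨⟨hU, hne, ?_, ?_⟩, h4⟩
  · rw [h4]
    exact h3
  · rw [h4]
    exact pair_ne hst huv

theorem Code.Valid.frag_fib (h : c.Valid s t U) {I : Finset ℕ}
    (hI : Frag s t U (c.comp s t) I) :
    ∃ e ∈ c.H.edgeSet, e ≠ s(s, t) ∧ I ⊆ c.fib U e := by
  have hA : ∀ x ∈ I, x ∈ U ∧ x ∉ c.A := fun x hx =>
    ⟨hI.sub hx, fun h1 => h.frag_avoid hI h1 hx⟩
  have key : ∀ w ∈ I, ∀ u v, c.f w = s(u, v) →
      bd (c.comp s t) (St s t U) I ⊆ St u v (c.fib U s(u, v)) := by
    intro w hw u v hwf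
    obtain ⟨hwU, hwA⟩ := hA w hw
    obtain ⟨h1, h2, h3⟩ := h.mem_fib hwU hwA
    rw [hwf] at h1 h2 h3
    have huv : c.H.Adj u v := (SimpleGraph.mem_edgeSet c.H).mp h2
    obtain ⟨I1, hI1⟩ : ∃ I1, I1 = I ∩ c.fib U s(u, v) := ⟨_, rfl⟩
    have hm : ∀ x, x ∈ I1 ↔ x ∈ I ∧ x ∈ c.fib U s(u, v) := fun x => by rw [hI1, Finset.mem_inter]
    have hI1U : I1 ⊆ U := fun x hx => hI.sub ((hm x).mp hx).1
    have hne : I1.Nonempty := ⟨w, (hm w).mpr ⟨hw, h1⟩⟩
    have hsub : bd (c.comp s t) (St s t U) I1 ⊆ bd (c.comp s t) (St s t U) I := by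
      intro y hy
      obtain ⟨⟨hyW, hyn⟩, x, hx, hxy⟩ := mem_bd.mp hy
      have hx' := (hm x).mp hx
      refine mem_bd.mpr ⟨⟨hyW, fun hyI => ?_⟩, x, hx'.1, hxy⟩
      have h4 := fib_edge h hx'.2 hxy
      have hyA := hA y hyI
      rw [mem_St] at h4
      rcases h4 with h4 | h4 | h4
      · apply hyA.2
        rw [h4] at hyA ⊢
        exact A_of h (adj_mem h huv).1 hyA.1
      · apply hyA.2
        rw [h4] at hyA ⊢
        exact A_of h (adj_mem h huv).2 hyA.1
      · exact hyn ((hm y).mpr ⟨hyI, h4⟩)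
    have h5 := (toNet h).two_le_bd hI1U hne
    have h6 : bd (c.comp s t) (St s t U) I1 = bd (c.comp s t) (St s t U) I :=
      Finset.eq_of_subset_of_card_le hsub (by rw [hI.card]; exact h5)
    rw [← h6]
    intro y hy
    obtain ⟨_, x, hx, hxy⟩ := mem_bd.mp hy
    exact fib_edge h ((hm x).mp hx).2 hxy
  obtain ⟨w, hw⟩ := hI.ne
  obtain ⟨hwU, hwA⟩ := hA w hw
  obtain ⟨h1, h2, h3⟩ := h.mem_fib hwU hwA
  refine ⟨c.f w, h2, h3, fun w' hw' => ?_⟩
  obtain ⟨hwU', hwA'⟩ := hA w' hw'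
  obtain ⟨h1', h2', h3'⟩ := h.mem_fib hwU' hwA'
  obtain ⟨p, q, hpq, hbd⟩ := Finset.card_eq_two.mp hI.card
  have hp : p ∈ bd (c.comp s t) (St s t U) I := by
    rw [hbd]
    simp
  have hq : q ∈ bd (c.comp s t) (St s t U) I := by
    rw [hbd]
    simp
  by_cases hff : c.f w' = c.f w
  · rw [← hff]
    exact h1'
  · exfalso
    obtain ⟨u, v, huv⟩ : ∃ u v, c.f w = s(u, v) := by
      induction hfw : c.f w using Sym2.ind with
      | _ u v => exact ⟨u, v, rfl⟩
    obtain ⟨u', v', huv'⟩ : ∃ u v, c.f w' = s(u, v) := by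
      induction hfw : c.f w' using Sym2.ind with
      | _ u v => exact ⟨u, v, rfl⟩
    rw [huv] at h2
    rw [huv'] at h2'
    have e1 : c.H.Adj u v := (SimpleGraph.mem_edgeSet c.H).mp h2
    have e2 : c.H.Adj u' v' := (SimpleGraph.mem_edgeSet c.H).mp h2'
    have hne : s(u, v) ≠ s(u', v') := by
      rw [← huv, ← huv']
      exact fun h4 => hff h4.symm
    have k1 := key w hw u v huv
    have k2 := key w' hw' u' v' huv'
    exact hpq (h.common e1 e2 hne (k1 hp) (k2 hp) (k1 hq) (k2 hq))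

theorem Code.Valid.maxFrag_iff (h : c.Valid s t U) {I : Finset ℕ} :
    MaxFrag s t U (c.comp s t) I ↔
      I.Nonempty ∧ ∃ e ∈ c.H.edgeSet, e ≠ s(s, t) ∧ I = c.fib U e := by
  constructor
  · intro hI
    obtain ⟨e, he, hst, hsub⟩ := h.frag_fib hI.1
    refine ⟨hI.1.ne, e, he, hst, ?_⟩
    have hne : (c.fib U e).Nonempty := hI.1.ne.mono hsub
    have hfr : Frag s t U (c.comp s t) (c.fib U e) := by
      induction e using Sym2.ind with
      | _ u v => exact (h.fib_frag ((SimpleGraph.mem_edgeSet c.H).mp he) hst hne).1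
    exact (hI.2 _ hfr hsub).symm
  · rintro ⟨hne, e, he, hst, rfl⟩
    have hfr : Frag s t U (c.comp s t) (c.fib U e) := by
      induction e using Sym2.ind with
      | _ u v => exact (h.fib_frag ((SimpleGraph.mem_edgeSet c.H).mp he) hst hne).1
    refine ⟨hfr, fun J hJ hsub => ?_⟩
    obtain ⟨e', he', hst', hsub'⟩ := h.frag_fib hJ
    obtain ⟨w, hw⟩ := hne
    have h1 := (h.fib_sub hw).2.2
    have h2 := (h.fib_sub (hsub' (hsub hw))).2.2
    have h3 : e' = e := by rw [← h1, ← h2]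
    rw [h3] at hsub'
    exact Finset.Subset.antisymm hsub' hsub

theorem Code.Valid.coreV_comp (h : c.Valid s t U) : coreV s t U (c.comp s t) = c.A := by
  classical
  ext w
  unfold coreV
  rw [Finset.mem_filter]
  constructor
  · rintro ⟨hwU, hw⟩
    by_contra hwA
    obtain ⟨h1, h2, h3⟩ := h.mem_fib hwU hwA
    obtain ⟨u, v, huv⟩ : ∃ u v, c.f w = s(u, v) := by
      induction hfw : c.f w using Sym2.ind with
      | _ u v => exact ⟨u, v, rfl⟩
    rw [huv] at h1 h2 h3
    exact hw _ (h.fib_frag ((SimpleGraph.mem_edgeSet c.H).mp h2) h3 ⟨w, h1⟩).1 h1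
  · intro hwA
    exact ⟨h.sub hwA, fun I hI => h.frag_avoid hI hwA⟩

end K5
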