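import Pool.Agent.Lib.K5.Defs

/-!
# K5.Sum: clique sums do not create `K_5` minors

`S1 ∩ S2 = X` is a clique with at most three vertices, no edge joins `S1 \ X` to `S2 \ X`. Let `B` be a model of `K_5` in `G` with all `B i ⊆ S1 ∪ S2`. At least two of the five branch sets do not
meet `X`. A branch set that does not meet `X` is connected, so it is contained in `S1 \ X` or in `S2 \ X`; two such sets are joined by an edge, so they are all on the same side, say in
`S1 \ X`. Put `B' i = B i ∩ S1`. For all `i` it is nonempty: `B i` is joined to a branch set contained in `S1 \ X`. Connected: let `P ⊂ B' i` be proper and nonempty. If `X` meets both `P` and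
`B' i \ P`, use an edge of the clique. Otherwise, exchanging `P` and `B' i \ P`, `P` does not meet `X`, so `P ⊆ S1 \ X`, and the edge that leaves `P` inside `B i` ends in `S1`. Joined: let `ab` be an edge from
`B i` to `B j`. If `a, b ∈ S1` nothing to do. Otherwise one of them is in `S2 \ X`, the other in `S2`; so neither `B i` nor `B j` is contained in `S1 \ X`, both meet `X`, and the clique has an edge between them.
-/

namespace K5

open Finset

namespace SumAux

theorem conn_congr {G G' : Gr} {S B : Finset ℕ} (hBS : B ⊆ S)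
    (h : ∀ a ∈ S, ∀ b ∈ S, G.Adj a b → G'.Adj a b) (hB : P512.Conn G B) : P512.Conn G' B := by
  refine ⟨hB.1, fun P hP hne hPB => ?_⟩
  obtain ⟨u, hu, v, hv, hvP, huv⟩ := hB.2 P hP hne hPB
  exact ⟨u, hu, v, hv, hvP, h u (hBS (hP hu)) v (hBS hv) huv⟩

theorem k5_congr {G G' : Gr} {S : Finset ℕ}
    (h : ∀ a ∈ S, ∀ b ∈ S, G.Adj a b → G'.Adj a b) (h5 : P512.K5In G S) : P512.K5In G' S := by
  obtain ⟨B, ⟨h1, h2, h3⟩, hB⟩ := h5
  refine ⟨B, ⟨fun i => conn_congr (hB i) h (h1 i), h2, fun i j hij => ?_⟩, hB⟩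
  obtain ⟨u, hu, v, hv, huv⟩ := h3 i j hij
  exact ⟨u, hu, v, hv, h u (hB i hu) v (hB j hv) huv⟩

/-- a connected set that does not meet the clique is on one side -/
theorem side {G : Gr} {S1 S2 B : Finset ℕ}
    (hno : ∀ a ∈ S1, ∀ b ∈ S2, a ∉ S2 → b ∉ S1 → ¬ G.Adj a b)
    (hB : P512.Conn G B) (hBS : B ⊆ S1 ∪ S2) (hX : ∀ x ∈ B, x ∈ S1 → x ∉ S2) :
    B ⊆ S1 \ S2 ∨ B ⊆ S2 \ S1 := by
  classical
  by_cases hP : B.filter (· ∈ S1) = ∅
  · right
    intro x hx
    have h1 : x ∉ S1 := fun h => by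
      have : x ∈ B.filter (· ∈ S1) := Finset.mem_filter.2 ⟨hx, h⟩
      rw [hP] at this
      exact absurd this (Finset.notMem_empty x)
    exact Finset.mem_sdiff.2 ⟨(Finset.mem_union.1 (hBS hx)).resolve_left h1, h1⟩
  · by_cases hP2 : B.filter (· ∈ S1) = B
    · left
      intro x hx
      have h1 : x ∈ S1 := by
        have h2 : x ∈ B.filter (· ∈ S1) := by rw [hP2]; exact hx
        exact (Finset.mem_filter.1 h2).2
      exact Finset.mem_sdiff.2 ⟨h1, hX x hx h1⟩
    · exfalso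
      obtain ⟨u, hu, v, hv, hvP, huv⟩ := hB.2 (B.filter (· ∈ S1)) (Finset.filter_subset _ _)
        (Finset.nonempty_iff_ne_empty.2 hP) hP2
      have hu' := Finset.mem_filter.1 hu
      have hv1 : v ∉ S1 := fun h => hvP (Finset.mem_filter.2 ⟨hv, h⟩)
      exact hno u hu'.2 v ((Finset.mem_union.1 (hBS hv)).resolve_left hv1) (hX u hu'.1 hu'.2) hv1 huv

/-- restriction of a model to the side of a branch set that does not meet the clique -/
theorem restrict {G : Gr} {S1 S2 : Finset ℕ}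
    (hX : ∀ a ∈ S1 ∩ S2, ∀ b ∈ S1 ∩ S2, a ≠ b → G.Adj a b)
    (hno : ∀ a ∈ S1, ∀ b ∈ S2, a ∉ S2 → b ∉ S1 → ¬ G.Adj a b)
    {B : Fin 5 → Finset ℕ} (hB : P512.Model G B) (hBS : ∀ i, B i ⊆ S1 ∪ S2) {i0 : Fin 5}
    (h0 : B i0 ⊆ S1 \ S2) : P512.K5In G S1 := by
  classical
  obtain ⟨h1, h2, h3⟩ := hB
  -- an edge from `S1 \ S2` ends in `S1`
  have hedge : ∀ u ∈ S1, u ∉ S2 → ∀ v ∈ S1 ∪ S2, G.Adj u v → v ∈ S1 := by
    intro u hu hu2 v hv huv
    by_contra hv1
    exact hno u hu v ((Finset.mem_union.1 hv).resolve_left hv1) hu2 hv1 huv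
  have hne : ∀ i, ∃ x ∈ B i, x ∈ S1 := by
    intro i
    by_cases hi : i = i0
    · subst hi
      obtain ⟨x, hx⟩ := (h1 i).1
      exact ⟨x, hx, (Finset.mem_sdiff.1 (h0 hx)).1⟩
    · obtain ⟨u, hu, v, hv, huv⟩ := h3 i i0 hi
      have hv' := Finset.mem_sdiff.1 (h0 hv)
      exact ⟨u, hu, hedge v hv'.1 hv'.2 u (hBS i hu) huv.symm⟩
  -- a branch set that is not inside `S1` meets the clique
  have hmeet : ∀ i, ∀ a ∈ B i, a ∈ S2 → ∃ x ∈ B i, x ∈ S1 ∩ S2 := by
    intro i a ha ha2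
    by_contra hcon
    push Not at hcon
    have hs := side hno (h1 i) (hBS i) (fun x hx hx1 hx2 =>
      hcon x hx (Finset.mem_inter.2 ⟨hx1, hx2⟩))
    rcases hs with hs | hs
    · exact (Finset.mem_sdiff.1 (hs ha)).2 ha2
    · obtain ⟨x, hx, hx1⟩ := hne i
      exact (Finset.mem_sdiff.1 (hs hx)).2 hx1
  refine ⟨fun i => B i ∩ S1, ⟨fun i => ?_, fun i j hij => ?_, fun i j hij => ?_⟩,
    fun i => Finset.inter_subset_right⟩
  · refine ⟨?_, fun P hP hPne hPB => ?_⟩
    · obtain ⟨x, hx, hx1⟩ := hne i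
      exact ⟨x, Finset.mem_inter.2 ⟨hx, hx1⟩⟩
    · have hQne : ((B i ∩ S1) \ P).Nonempty := by
        rw [Finset.sdiff_nonempty]
        intro h
        exact hPB (Finset.Subset.antisymm hP h)
      by_cases hPX : ∃ x ∈ P, x ∈ S2
      · by_cases hQX : ∃ y ∈ (B i ∩ S1) \ P, y ∈ S2
        · obtain ⟨x, hx, hx2⟩ := hPX
          obtain ⟨y, hy, hy2⟩ := hQX
          have hy' := Finset.mem_sdiff.1 hy
          have hx1 := (Finset.mem_inter.1 (hP hx)).2
          have hy1 := (Finset.mem_inter.1 hy'.1).2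
          refine ⟨x, hx, y, hy'.1, hy'.2, hX x (Finset.mem_inter.2 ⟨hx1, hx2⟩) y
            (Finset.mem_inter.2 ⟨hy1, hy2⟩) ?_⟩
          rintro rfl
          exact hy'.2 hx
        · push Not at hQX
          obtain ⟨u, hu, v, hv, hvQ, huv⟩ := (h1 i).2 ((B i ∩ S1) \ P)
            (fun x hx => (Finset.mem_inter.1 (Finset.mem_sdiff.1 hx).1).1) hQne (by
              intro h
              obtain ⟨p, hp⟩ := hPne
              have hp1 : p ∈ (B i ∩ S1) \ P := by
                rw [h]; exact (Finset.mem_inter.1 (hP hp)).1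
              exact (Finset.mem_sdiff.1 hp1).2 hp)
          have hu' := Finset.mem_sdiff.1 hu
          have hv1 : v ∈ S1 := hedge u (Finset.mem_inter.1 hu'.1).2 (hQX u hu) v (hBS i hv) huv
          have hvP : v ∈ P := by
            by_contra hvP
            exact hvQ (Finset.mem_sdiff.2 ⟨Finset.mem_inter.2 ⟨hv, hv1⟩, hvP⟩)
          exact ⟨v, hvP, u, hu'.1, hu'.2, huv.symm⟩
      · push Not at hPX
        obtain ⟨u, hu, v, hv, hvP, huv⟩ := (h1 i).2 P
          (fun x hx => (Finset.mem_inter.1 (hP hx)).1) hPne (by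
            intro h
            obtain ⟨q, hq⟩ := hQne
            have hq' := Finset.mem_sdiff.1 hq
            exact hq'.2 (by rw [h]; exact (Finset.mem_inter.1 hq'.1).1))
        have hv1 : v ∈ S1 := hedge u (Finset.mem_inter.1 (hP hu)).2 (hPX u hu) v (hBS i hv) huv
        exact ⟨u, hu, v, Finset.mem_inter.2 ⟨hv, hv1⟩, hvP, huv⟩
  · exact (h2 i j hij).mono Finset.inter_subset_left Finset.inter_subset_left
  · obtain ⟨a, ha, b, hb, hab⟩ := h3 i j hij
    by_cases hin : a ∈ S1 ∧ b ∈ S1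
    · exact ⟨a, Finset.mem_inter.2 ⟨ha, hin.1⟩, b, Finset.mem_inter.2 ⟨hb, hin.2⟩, hab⟩
    · have hab2 : a ∈ S2 ∧ b ∈ S2 := by
        have ha' := Finset.mem_union.1 (hBS i ha)
        have hb' := Finset.mem_union.1 (hBS j hb)
        by_cases ha1 : a ∈ S1
        · have hb1 : b ∉ S1 := fun h => hin ⟨ha1, h⟩
          refine ⟨?_, hb'.resolve_left hb1⟩
          by_contra ha2
          exact hb1 (hedge a ha1 ha2 b (hBS j hb) hab)
        · refine ⟨ha'.resolve_left ha1, ?_⟩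
          rcases hb' with hb1 | hb2
          · by_contra hb2
            exact ha1 (hedge b hb1 hb2 a (hBS i ha) hab.symm)
          · exact hb2
      obtain ⟨x, hx, hxX⟩ := hmeet i a ha hab2.1
      obtain ⟨y, hy, hyX⟩ := hmeet j b hb hab2.2
      refine ⟨x, Finset.mem_inter.2 ⟨hx, (Finset.mem_inter.1 hxX).1⟩, y,
        Finset.mem_inter.2 ⟨hy, (Finset.mem_inter.1 hyX).1⟩, hX x hxX y hyX ?_⟩
      rintro rfl
      exact Finset.disjoint_left.1 (h2 i j hij) hx hy

end SumAux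

theorem k5in_of_k5 {G : Gr} {S : Finset ℕ} (h : On G S) (h5 : P512.K5 G) : P512.K5In G S := by
  obtain ⟨B, h1, h2, h3⟩ := h5
  refine ⟨B, ⟨h1, h2, h3⟩, fun i w hw => ?_⟩
  by_cases hB : ({w} : Finset ℕ) = B i
  · obtain ⟨j, hj⟩ := exists_ne i
    obtain ⟨u, hu, v, hv, huv⟩ := h3 i j hj.symm
    rw [← hB, Finset.mem_singleton] at hu
    subst hu
    exact h u v huv
  · obtain ⟨u, hu, v, hv, _, huv⟩ := (h1 i).2 {w} (Finset.singleton_subset_iff.2 hw)
      (Finset.singleton_nonempty w) hB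
    rw [Finset.mem_singleton] at hu
    subst hu
    exact h u v huv

theorem k5in_sum {G : Gr} {S1 S2 : Finset ℕ} (hc : (S1 ∩ S2).card ≤ 3)
    (hX : ∀ a ∈ S1 ∩ S2, ∀ b ∈ S1 ∩ S2, a ≠ b → G.Adj a b)
    (hno : ∀ a ∈ S1, ∀ b ∈ S2, a ∉ S2 → b ∉ S1 → ¬ G.Adj a b)
    (h : P512.K5In G (S1 ∪ S2)) : P512.K5In G S1 ∨ P512.K5In G S2 := by
  classical
  obtain ⟨B, hB, hBS⟩ := h
  have hi0 : ∃ i0, ∀ x ∈ B i0, x ∉ S1 ∩ S2 := by
    by_contra hcon
    push Not at hcon
    choose x hx hxX using hcon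
    have hinj : Function.Injective x := by
      intro i j hij
      by_contra hne
      exact Finset.disjoint_left.1 (hB.2.1 i j hne) (hx i) (by rw [hij]; exact hx j)
    have h1 : (Finset.univ.image x).card = 5 := by
      rw [Finset.card_image_of_injective _ hinj, Finset.card_univ, Fintype.card_fin]
    have h2 : (Finset.univ.image x) ⊆ S1 ∩ S2 := by
      intro y hy
      obtain ⟨i, _, rfl⟩ := Finset.mem_image.1 hy
      exact hxX i
    have h3 := Finset.card_le_card h2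
    omega
  obtain ⟨i0, h0⟩ := hi0
  rcases SumAux.side hno (hB.1 i0) (hBS i0) (fun x hx hx1 hx2 =>
    h0 x hx (Finset.mem_inter.2 ⟨hx1, hx2⟩)) with hs | hs
  · exact Or.inl (SumAux.restrict hX hno hB hBS hs)
  · right
    refine SumAux.restrict (S1 := S2) (S2 := S1) (i0 := i0) ?_ ?_ hB ?_ hs
    · rw [Finset.inter_comm]; exact hX
    · intro a ha b hb ha1 hb2 hab
      exact hno b hb a ha hb2 ha1 hab.symm
    · intro i
      rw [Finset.union_comm]
      exact hBS i

theorem Free.mono {G G' : Gr} (h : Free G) (hle : G' ≤ G) : Free G' := by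
  rintro ⟨B, h1, h2, h3⟩
  refine h ⟨B, fun i => ⟨(h1 i).1, fun P hP hne hPB => ?_⟩, h2, fun i j hij => ?_⟩
  · obtain ⟨u, hu, v, hv, hvP, huv⟩ := (h1 i).2 P hP hne hPB
    exact ⟨u, hu, v, hv, hvP, hle huv⟩
  · obtain ⟨u, hu, v, hv, huv⟩ := h3 i j hij
    exact ⟨u, hu, v, hv, hle huv⟩

/-- Gluing two graphs without `K_5` minor along a clique with at most three vertices. -/
theorem Free.sup {G1 G2 : Gr} {S1 S2 : Finset ℕ} (h1 : Free G1) (h2 : Free G2) (hon1 : On G1 S1)
    (hon2 : On G2 S2) (hc : (S1 ∩ S2).card ≤ 3)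
    (hX : ∀ a ∈ S1 ∩ S2, ∀ b ∈ S1 ∩ S2, a ≠ b → G1.Adj a b ∧ G2.Adj a b) : Free (G1 ⊔ G2) := by
  intro h5
  have hon : On (G1 ⊔ G2) (S1 ∪ S2) := by
    intro u v huv
    rcases huv with huv | huv
    · exact Finset.mem_union_left _ (hon1 u v huv)
    · exact Finset.mem_union_right _ (hon2 u v huv)
  rcases k5in_sum hc (fun a ha b hb hab => Or.inl (hX a ha b hb hab).1) (by
    intro a _ b _ ha2 hb1 hab
    rcases hab with hab | hab
    · exact hb1 (hon1 b a hab.symm)
    · exact ha2 (hon2 a b hab)) (k5in_of_k5 hon h5) with h | h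
  · obtain ⟨B, hB, _⟩ := SumAux.k5_congr (G' := G1) (by
      intro a ha b hb hab
      rcases hab with hab | hab
      · exact hab
      · exact (hX a (Finset.mem_inter.2 ⟨ha, hon2 a b hab⟩) b
          (Finset.mem_inter.2 ⟨hb, hon2 b a hab.symm⟩) hab.ne).1) h
    exact h1 ⟨B, hB⟩
  · obtain ⟨B, hB, _⟩ := SumAux.k5_congr (G' := G2) (by
      intro a ha b hb hab
      rcases hab with hab | hab
      · exact (hX a (Finset.mem_inter.2 ⟨hon1 a b hab, ha⟩) b
          (Finset.mem_inter.2 ⟨hon1 b a hab.symm, hb⟩) hab.ne).2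
      · exact hab) h
    exact h2 ⟨B, hB⟩

end K5
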