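import Pool.Agent.Lib.K5.BDefs
import Pool.Agent.Lib.K5.Sum
import Pool.Agent.Lib.P512.Trans
import Pool.Agent.Lib.P512.SupB

/-!
# K5.BOne: the connected graphs on `{0, ..., n}` are the connected graphs on `Fin (n + 1)`

`insert 0 (Ico 1 (n + 1)) = range (n + 1) = univ.map Fin.valEmbedding` (`Fin.map_valEmbedding_univ`, `Nat.Iio_eq_range`; or by `ext; simp; omega`).
The bijection: `G : SimpleGraph (Fin (n + 1)) ↦ G.map Fin.valEmbedding` with inverse `H ↦ H.comap Fin.valEmbedding` (`SimpleGraph.comap_map_eq`; if `On H (range (n + 1))` then `(H.comap f).map f = H`, by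
`ext`: both ends of an edge are `< n + 1`). `P512.conn_map` (with `G := H`, `S := univ`): `Conn (H.comap f) univ ↔ Conn H (univ.map f)`, and `P512.conn_univ_iff`: `Conn G univ ↔ G.Connected`.
`P512.k5_comap`: `K5 (H.comap f) ↔ K5In H (univ.map f)`; by `k5in_of_k5` (K5.Sum) `K5 H → K5In H S` if `On H S`, the converse is trivial. `Nat.card_congr`.
-/

namespace K5

open Finset

namespace BOneAux

/-- The numbers below `n + 1`. -/
abbrev vm (n : ℕ) : Fin (n + 1) ↪ ℕ := Fin.valEmbedding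

theorem set_eq (n : ℕ) : insert 0 (Ico 1 (n + 1)) = (univ : Finset (Fin (n + 1))).map (vm n) := by
  ext a
  simp only [Finset.mem_insert, Finset.mem_Ico, Finset.mem_map, Finset.mem_univ, true_and]
  constructor
  · intro h
    exact ⟨⟨a, by omega⟩, rfl⟩
  · rintro ⟨i, rfl⟩
    have := i.2
    show (i : ℕ) = 0 ∨ 1 ≤ (i : ℕ) ∧ (i : ℕ) < n + 1
    omega

theorem map_comap {n : ℕ} {H : Gr} (h : On H (insert 0 (Ico 1 (n + 1)))) :
    (H.comap (vm n)).map (vm n) = H := by
  ext a b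
  rw [SimpleGraph.map_adj]
  constructor
  · rintro ⟨i, j, hij, rfl, rfl⟩
    exact hij
  · intro hab
    have h1 := h a b hab
    have h2 := h b a hab.symm
    rw [set_eq, Finset.mem_map] at h1 h2
    obtain ⟨i, -, rfl⟩ := h1
    obtain ⟨j, -, rfl⟩ := h2
    exact ⟨i, j, hab, rfl, rfl⟩

theorem k5_iff {n : ℕ} {H : Gr} (h : On H (insert 0 (Ico 1 (n + 1)))) :
    P512.K5 (H.comap (vm n)) ↔ P512.K5 H := by
  rw [P512.k5_comap, ← set_eq]
  constructor
  · rintro ⟨B, hB, -⟩
    exact ⟨B, hB⟩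
  · exact k5in_of_k5 h

theorem cr_iff {n : ℕ} {H : Gr} (h : On H (insert 0 (Ico 1 (n + 1)))) :
    CR 0 (Ico 1 (n + 1)) H ↔ ¬ P512.K5 (H.comap (vm n)) ∧ (H.comap (vm n)).Connected := by
  rw [k5_iff h, ← P512.conn_univ_iff, P512.conn_map, ← set_eq]
  constructor
  · intro h
    exact ⟨h.free, h.conn⟩
  · rintro ⟨h1, h2⟩
    exact ⟨by simp, h, h2, h1⟩

theorem on_map {n : ℕ} (G : SimpleGraph (Fin (n + 1))) :
    On (G.map (vm n)) (insert 0 (Ico 1 (n + 1))) := by
  intro a b hab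
  rw [SimpleGraph.map_adj] at hab
  obtain ⟨i, j, hij, rfl, rfl⟩ := hab
  rw [set_eq]
  exact Finset.mem_map_of_mem _ (Finset.mem_univ _)

end BOneAux

open BOneAux

theorem rC_eq (n : ℕ) : rC n = P512.c (n + 1) := by
  unfold rC P512.c
  refine Nat.card_congr
    { toFun := fun H => ⟨H.1.comap (vm n), (cr_iff H.2.on).mp H.2⟩
      invFun := fun G => ⟨G.1.map (vm n), (cr_iff (on_map G.1)).mpr (by
        rw [SimpleGraph.comap_map_eq]
        exact G.2)⟩
      left_inv := fun H => Subtype.ext (map_comap H.2.on)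
      right_inv := fun G => Subtype.ext (SimpleGraph.comap_map_eq _ _) }

end K5
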