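import Pool.Agent.Lib.K5.Defs3
import Pool.Agent.Lib.P512.ConnB

/-!
# K5.Comp: connected components in cut form

`IsComp G U C`: `C ⊆ U`, `P512.Conn G C`, no edge from `C` to `U \ C`.
1. `exists_comp`: for `w ∈ U` let `C` be the set of the vertices of `U` that are reachable from `w` in the graph restricted to `U` (or: a minimal set among the closed subsets of `U` that contain
   `w`; if it were not connected, one of the two parts of a cut without edges contains `w` and is closed and smaller).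
2. `IsComp.eq_of_mem`: if `C, C'` are components and meet, then `C = C'`: `C ∩ C'` is a nonempty subset of `C`; if it is not `C`, `Conn G C` gives an edge from `C ∩ C'` to `C \ C'`, which
   leaves the component `C'`.
3. `compPart`: the components form a `Finpartition U`.
4. `Conn.le_comp`: a connected subset of `U` is contained in a component; `conn_iff`: `U` is connected iff `U` itself is a component; `IsComp.conn_eq`: if `Conn G U` the only component is `U`.
5. `exists_two`: if `U` is nonempty and not connected there are two different components.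
6. `IsComp.mono_closed`: a subset `P ⊆ U` with no edge from `P` to `U \ P` is a union of components: a component that meets `P` is contained in `P`.
-/

namespace K5

open Finset

namespace CompAux

variable {G : Gr} {U C : Finset ℕ}

theorem closed_sub {A : Finset ℕ} (hC : ∀ a ∈ C, ∀ b ∈ U, b ∉ C → ¬ G.Adj a b)
    (hA : P512.Conn G A) (hAU : A ⊆ U) {v : ℕ} (hv : v ∈ A) (hvC : v ∈ C) : A ⊆ C := by
  by_contra hcon
  obtain ⟨a, ha, b, hb, hbn, hab⟩ := hA.2 (A ∩ C) inter_subset_left
    ⟨v, mem_inter.2 ⟨hv, hvC⟩⟩ (fun he => hcon (by rw [← he]; exact inter_subset_right))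
  exact hC a (mem_inter.1 ha).2 b (hAU hb) (fun hbC => hbn (mem_inter.2 ⟨hb, hbC⟩)) hab

theorem exists_comp_conn {A : Finset ℕ} (hA : P512.Conn G A) (hAU : A ⊆ U) :
    ∃ C, IsComp G U C ∧ A ⊆ C := by
  obtain ⟨K, h1, h2, h3, h4⟩ := P512.hull G A U hA hAU
  exact ⟨K, ⟨h2, h3, fun a ha b hb hbn hab => hbn (h4 a ha b hb hab)⟩, h1⟩

end CompAux

theorem exists_comp (G : Gr) {U : Finset ℕ} {w : ℕ} (hw : w ∈ U) : ∃ C, IsComp G U C ∧ w ∈ C := by
  obtain ⟨K, h1, h2⟩ := CompAux.exists_comp_conn (G := G) (U := U) (P512.conn_singleton G w)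
    (singleton_subset_iff.2 hw)
  exact ⟨K, h1, singleton_subset_iff.1 h2⟩

theorem IsComp.eq_of_mem {G : Gr} {U C C' : Finset ℕ} (h : IsComp G U C) (h' : IsComp G U C')
    {w : ℕ} (hw : w ∈ C) (hw' : w ∈ C') : C = C' := by
  exact Subset.antisymm (CompAux.closed_sub h'.2.2 h.2.1 h.1 hw hw')
    (CompAux.closed_sub h.2.2 h'.2.1 h'.1 hw' hw)

theorem exists_compPart (G : Gr) (U : Finset ℕ) :
    ∃ π : Finpartition U, ∀ C, C ∈ π.parts ↔ IsComp G U C := by
  classical
  have hmem : ∀ C, C ∈ U.powerset.filter (fun C => IsComp G U C) ↔ IsComp G U C := by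
    intro C
    rw [mem_filter, mem_powerset]
    exact ⟨fun h => h.2, fun h => ⟨h.1, h⟩⟩
  refine ⟨Finpartition.ofExistsUnique (U.powerset.filter (fun C => IsComp G U C))
    (fun p hp => ((hmem p).1 hp).1) (fun a ha => ?_) (fun h => ?_), fun C => ?_⟩
  · obtain ⟨C, hC, haC⟩ := exists_comp G ha
    refine ⟨C, ⟨(hmem C).2 hC, haC⟩, ?_⟩
    rintro C' ⟨hC', haC'⟩
    exact IsComp.eq_of_mem ((hmem C').1 hC') hC haC' haC
  · exact Finset.not_nonempty_empty ((hmem ∅).1 h).2.1.1
  · exact hmem C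

/-- The partition of `U` into the components. -/
noncomputable def compPart (G : Gr) (U : Finset ℕ) : Finpartition U := (exists_compPart G U).choose

theorem mem_compPart {G : Gr} {U C : Finset ℕ} : C ∈ (compPart G U).parts ↔ IsComp G U C :=
  (exists_compPart G U).choose_spec C

theorem isComp_self_iff {G : Gr} {U : Finset ℕ} : IsComp G U U ↔ P512.Conn G U := by
  constructor
  · intro h
    exact h.2.1
  · intro h
    exact ⟨Subset.refl _, h, fun _ _ b hb hbn => absurd hb hbn⟩

theorem IsComp.eq_of_conn {G : Gr} {U C : Finset ℕ} (h : IsComp G U C) (hU : P512.Conn G U) :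
    C = U := by
  obtain ⟨w, hw⟩ := h.2.1.1
  exact h.eq_of_mem (isComp_self_iff.2 hU) hw (h.1 hw)

theorem conn_sub_comp {G : Gr} {U S : Finset ℕ} (hS : P512.Conn G S) (hSU : S ⊆ U) :
    ∃ C, IsComp G U C ∧ S ⊆ C := CompAux.exists_comp_conn hS hSU

theorem exists_two_comp {G : Gr} {U : Finset ℕ} (hne : U.Nonempty) (h : ¬ P512.Conn G U) :
    ∃ C C', IsComp G U C ∧ IsComp G U C' ∧ Disjoint C C' := by
  obtain ⟨w, hw⟩ := hne
  obtain ⟨C, hC, hwC⟩ := exists_comp G hw
  have hns : ¬ U ⊆ C := fun hsub => h (by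
    rw [Subset.antisymm hsub hC.1]
    exact hC.2.1)
  obtain ⟨v, hv, hvC⟩ := not_subset.1 hns
  obtain ⟨C', hC', hvC'⟩ := exists_comp G hv
  refine ⟨C, C', hC, hC', disjoint_left.2 (fun z hz hz' => hvC ?_)⟩
  rw [hC.eq_of_mem hC' hz hz']
  exact hvC'

theorem IsComp.sub_of_closed {G : Gr} {U C P : Finset ℕ} (h : IsComp G U C)
    (hP : ∀ a ∈ P, ∀ b ∈ U, b ∉ P → ¬ G.Adj a b) {w : ℕ} (hw : w ∈ C) (hwP : w ∈ P) : C ⊆ P :=
  CompAux.closed_sub hP h.2.1 h.1 hw hwP

end K5
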