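import Pool.Agent.Lib.K5.BRel
import Pool.Agent.Lib.K5.BOne
import Pool.Agent.Lib.K5.Comp
import Pool.Agent.Lib.K5.Sum
import Pool.Agent.Lib.P512.Trans

/-!
# K5.BAll: all graphs and connected graphs

`AF U G`: `On G U ∧ Free G`; `CF U G`: `On G U ∧ P512.Conn G U ∧ Free G`.
1. `af_card`: `Nat.card {G : Gr // AF U G} = P512.g U.card`; `cf_card`: the same with `P512.c` for nonempty `U`: first `U = range n` by the bijection `G ↦ G.map Fin.valEmbedding` as in K5.BOne (`P512.card_g`, `P512.card_c`, `P512.k5_comap`, `P512.conn_map`, `P512.conn_univ_iff`), or directly for the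
   type `{v // v ∈ U}` with `Function.Embedding.subtype`: `G ↦ G.map f`, `P512.card_g {v // v ∈ U}`, `Fintype.card_coe`.
2. `g_rec`: let `v ∉ U`, `G` with `AF (insert v U) G`, `C` the component of `v` (`exists_comp`), `A := C.erase v ⊆ U`. The map `G ↦ (A, rst G (insert v A), rst G (U \ A))` is a bijection to the triples with `A ⊆ U`, `CF (insert v A)`, `AF (U \ A)`; the inverse is the union of the two graphs:
   it is free by `Free.sup` (K5.Sum; the label sets are disjoint), `insert v A` is a component of the union (no edges to `U \ A`), `Free.mono` for the restrictions. So `g (|U| + 1) = ∑ A ∈ U.powerset, c (|A| + 1) * g |U \ A|` (`Nat.card_sigma`, `Nat.card_prod`, finiteness by `finite_on`).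
3. `g_rec'`: the sum over the subsets by cardinality (`Finset.sum_powerset_apply_card`), `U = range n`.
-/

namespace K5

open Finset

/-- Graphs on `U` without a `K_5` minor. -/
def AF (U : Finset ℕ) (G : Gr) : Prop := On G U ∧ Free G

/-- Connected graphs on `U` without a `K_5` minor. -/
def CF (U : Finset ℕ) (G : Gr) : Prop := On G U ∧ P512.Conn G U ∧ Free G

namespace BAllAux

/-- The embedding of a set of labels. -/
abbrev sb (U : Finset ℕ) : {v // v ∈ U} ↪ ℕ := Function.Embedding.subtype _

theorem map_sb (U : Finset ℕ) : (univ : Finset {v // v ∈ U}).map (sb U) = U := by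
  ext a
  simp

theorem map_comap {U : Finset ℕ} {H : Gr} (h : On H U) : (H.comap (sb U)).map (sb U) = H := by
  ext a b
  rw [SimpleGraph.map_adj]
  constructor
  · rintro ⟨i, j, hij, rfl, rfl⟩
    exact hij
  · intro hab
    exact ⟨⟨a, h a b hab⟩, ⟨b, h b a hab.symm⟩, hab, rfl, rfl⟩

theorem k5_iff {U : Finset ℕ} {H : Gr} (h : On H U) :
    P512.K5 (H.comap (sb U)) ↔ P512.K5 H := by
  rw [P512.k5_comap, map_sb]
  constructor
  · rintro ⟨B, hB, -⟩
    exact ⟨B, hB⟩
  · exact k5in_of_k5 h

theorem on_map {U : Finset ℕ} (G : SimpleGraph {v // v ∈ U}) : On (G.map (sb U)) U := by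
  intro a b hab
  rw [SimpleGraph.map_adj] at hab
  obtain ⟨i, j, hij, rfl, rfl⟩ := hab
  exact i.2

theorem conn_rst {G : Gr} {C : Finset ℕ} (h : P512.Conn G C) : P512.Conn (rst G C) C := by
  refine ⟨h.1, fun P h1 h2 h3 => ?_⟩
  obtain ⟨u, hu, v, hv, hvP, huv⟩ := h.2 P h1 h2 h3
  exact ⟨u, hu, v, hv, hvP, huv, h1 hu, hv⟩

theorem conn_le {G H : Gr} (h : G ≤ H) {S : Finset ℕ} (hS : P512.Conn G S) :
    P512.Conn H S := by
  refine ⟨hS.1, fun P h1 h2 h3 => ?_⟩
  obtain ⟨u, hu, v, hv, hvP, huv⟩ := hS.2 P h1 h2 h3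
  exact ⟨u, hu, v, hv, hvP, h huv⟩

theorem rst_le (G : Gr) (S : Finset ℕ) : rst G S ≤ G := fun _ _ h => h.1

variable {v : ℕ} {U A : Finset ℕ} {G1 G2 : Gr}

/-- The two label sets are disjoint. -/
theorem dj (hv : v ∉ U) {x : ℕ} (h1 : x ∈ insert v A) (h2 : x ∈ U \ A) : False := by
  obtain ⟨h3, h4⟩ := Finset.mem_sdiff.1 h2
  rcases Finset.mem_insert.1 h1 with rfl | h5
  · exact hv h3
  · exact h4 h5

theorem on_r {G : Gr} {S : Finset ℕ} (h : On G S) {a b : ℕ} (hab : G.Adj a b) : b ∈ S :=
  h b a hab.symm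

theorem comp_sup (hv : v ∉ U) (hA : A ⊆ U) (h1 : CF (insert v A) G1) (h2 : AF (U \ A) G2) :
    IsComp (G1 ⊔ G2) (insert v U) (insert v A) := by
  refine ⟨Finset.insert_subset_insert v hA, conn_le le_sup_left h1.2.1, ?_⟩
  rintro a ha b hb hb' (hab | hab)
  · exact hb' (on_r h1.1 hab)
  · exact dj hv ha (h2.1 a b hab)

theorem rst_one (hv : v ∉ U) (h1 : CF (insert v A) G1) (h2 : AF (U \ A) G2) :
    rst (G1 ⊔ G2) (insert v A) = G1 := by
  ext a b
  constructor
  · rintro ⟨hab | hab, ha, hb⟩
    · exact hab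
    · exact (dj hv ha (h2.1 a b hab)).elim
  · intro hab
    exact ⟨Or.inl hab, h1.1 a b hab, on_r h1.1 hab⟩

theorem rst_two (hv : v ∉ U) (h1 : CF (insert v A) G1) (h2 : AF (U \ A) G2) :
    rst (G1 ⊔ G2) (U \ A) = G2 := by
  ext a b
  constructor
  · rintro ⟨hab | hab, ha, hb⟩
    · exact (dj hv (h1.1 a b hab) ha).elim
    · exact hab
  · intro hab
    exact ⟨Or.inr hab, h2.1 a b hab, on_r h2.1 hab⟩

theorem sup_af (hv : v ∉ U) (hA : A ⊆ U) (h1 : CF (insert v A) G1) (h2 : AF (U \ A) G2) :
    AF (insert v U) (G1 ⊔ G2) := by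
  have hint : insert v A ∩ (U \ A) = ∅ := by
    rw [← Finset.disjoint_iff_inter_eq_empty]
    exact Finset.disjoint_left.2 fun x hx hx' => dj hv hx hx'
  refine ⟨?_, ?_⟩
  · rintro a b (hab | hab)
    · exact Finset.insert_subset_insert v hA (h1.1 a b hab)
    · exact Finset.mem_insert_of_mem (Finset.mem_sdiff.1 (h2.1 a b hab)).1
  · refine Free.sup h1.2.2 h2.2 h1.1 h2.1 ?_ ?_
    · rw [hint]; simp
    · rw [hint]; simp

end BAllAux

open BAllAux

theorem af_card (U : Finset ℕ) : Nat.card {G : Gr // AF U G} = P512.g U.card := by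
  have h := P512.card_g {v // v ∈ U}
  rw [Fintype.card_coe] at h
  rw [← h]
  refine Nat.card_congr
    { toFun := fun H => ⟨H.1.comap (sb U), fun h5 => H.2.2 ((k5_iff H.2.1).1 h5)⟩
      invFun := fun G => ⟨G.1.map (sb U), on_map G.1, fun h5 => G.2 (by
        rw [← k5_iff (on_map G.1), SimpleGraph.comap_map_eq] at h5
        exact h5)⟩
      left_inv := fun H => Subtype.ext (map_comap H.2.1)
      right_inv := fun G => Subtype.ext (SimpleGraph.comap_map_eq _ _) }

theorem cf_card {U : Finset ℕ} (hU : U.Nonempty) : Nat.card {G : Gr // CF U G} = P512.c U.card := by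
  have h := P512.card_c {v // v ∈ U}
  rw [Fintype.card_coe] at h
  rw [← h]
  have hc : ∀ H : Gr, (H.comap (sb U)).Connected ↔ P512.Conn H U := by
    intro H
    rw [← P512.conn_univ_iff, P512.conn_map, map_sb]
  refine Nat.card_congr
    { toFun := fun H => ⟨H.1.comap (sb U), fun h5 => H.2.2.2 ((k5_iff H.2.1).1 h5),
        (hc _).2 H.2.2.1⟩
      invFun := fun G => ⟨G.1.map (sb U), on_map G.1, (by
        rw [← hc, SimpleGraph.comap_map_eq]
        exact G.2.2), fun h5 => G.2.1 (by
        rw [← k5_iff (on_map G.1), SimpleGraph.comap_map_eq] at h5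
        exact h5)⟩
      left_inv := fun H => Subtype.ext (map_comap H.2.1)
      right_inv := fun G => Subtype.ext (SimpleGraph.comap_map_eq _ _) }

theorem g_rec {v : ℕ} {U : Finset ℕ} (hv : v ∉ U) :
    P512.g (U.card + 1) = ∑ A ∈ U.powerset, P512.c (A.card + 1) * P512.g (U \ A).card := by
  classical
  have hfin1 : ∀ A : Finset ℕ, Finite {G : Gr // CF (insert v A) G} := fun A => by
    have := finite_on (insert v A)
    exact Finite.of_injective
      (fun G : {G : Gr // CF (insert v A) G} => (⟨G.1, G.2.1⟩ : {G : Gr // On G (insert v A)}))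
      (fun G G' h => Subtype.ext (congrArg (fun t => t.1) h))
  have hfin2 : ∀ A : Finset ℕ, Finite {G : Gr // AF (U \ A) G} := fun A => by
    have := finite_on (U \ A)
    exact Finite.of_injective
      (fun G : {G : Gr // AF (U \ A) G} => (⟨G.1, G.2.1⟩ : {G : Gr // On G (U \ A)}))
      (fun G G' h => Subtype.ext (congrArg (fun t => t.1) h))
  let Sg := Σ A : {A // A ∈ U.powerset}, {G : Gr // CF (insert v A.1) G} ×
    {G : Gr // AF (U \ A.1) G}
  let φ : Sg → {G : Gr // AF (insert v U) G} := fun s =>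
    ⟨s.2.1.1 ⊔ s.2.2.1, sup_af hv (Finset.mem_powerset.1 s.1.2) s.2.1.2 s.2.2.2⟩
  have hφ : Function.Bijective φ := by
    constructor
    · rintro ⟨⟨A, hA⟩, ⟨G1, h1⟩, ⟨G2, h2⟩⟩ ⟨⟨A', hA'⟩, ⟨G1', h1'⟩, ⟨G2', h2'⟩⟩ e
      have e0 : G1 ⊔ G2 = G1' ⊔ G2' := congrArg Subtype.val e
      have hAU := Finset.mem_powerset.1 hA
      have hAU' := Finset.mem_powerset.1 hA'
      have c1 := comp_sup hv hAU h1 h2
      have c2 := comp_sup hv hAU' h1' h2'
      rw [← e0] at c2
      have e1 : insert v A = insert v A' :=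
        c1.eq_of_mem c2 (Finset.mem_insert_self v A) (Finset.mem_insert_self v A')
      have e2 : A = A' := by
        rw [← Finset.erase_insert (fun h => hv (hAU h)), e1,
          Finset.erase_insert (fun h => hv (hAU' h))]
      subst e2
      have e3 : G1 = G1' := by
        have q1 := rst_one hv h1 h2
        have q2 := rst_one hv h1' h2'
        rw [← e0, q1] at q2
        exact q2
      have e4 : G2 = G2' := by
        have q1 := rst_two hv h1 h2
        have q2 := rst_two hv h1' h2'
        rw [← e0, q1] at q2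
        exact q2
      subst e3
      subst e4
      rfl
    · rintro ⟨G, hon, hf⟩
      obtain ⟨C, hC, hvC⟩ := exists_comp G (Finset.mem_insert_self v U)
      have hins : insert v (C.erase v) = C := Finset.insert_erase hvC
      have hsub : C.erase v ⊆ U := by
        intro x hx
        obtain ⟨hx1, hx2⟩ := Finset.mem_erase.1 hx
        exact (Finset.mem_insert.1 (hC.1 hx2)).resolve_left hx1
      have h1 : CF (insert v (C.erase v)) (rst G C) := by
        rw [hins]
        exact ⟨fun a b hab => hab.2.1, conn_rst hC.2.1, hf.mono (rst_le G C)⟩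
      have h2 : AF (U \ C.erase v) (rst G (U \ C.erase v)) :=
        ⟨fun a b hab => hab.2.1, hf.mono (rst_le G _)⟩
      refine ⟨⟨⟨C.erase v, Finset.mem_powerset.2 hsub⟩, ⟨rst G C, h1⟩, ⟨_, h2⟩⟩, ?_⟩
      refine Subtype.ext ?_
      show rst G C ⊔ rst G (U \ C.erase v) = G
      have hside : ∀ x ∈ insert v U, x ∉ C → x ∈ U \ C.erase v := by
        intro x hx hxC
        have hxv : x ≠ v := fun e => hxC (e ▸ hvC)
        exact Finset.mem_sdiff.2 ⟨(Finset.mem_insert.1 hx).resolve_left hxv,
          fun h => hxC (Finset.mem_erase.1 h).2⟩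
      ext a b
      constructor
      · rintro (hab | hab)
        · exact hab.1
        · exact hab.1
      · intro hab
        have ha := hon a b hab
        have hb := hon b a hab.symm
        by_cases haC : a ∈ C
        · by_cases hbC : b ∈ C
          · exact Or.inl ⟨hab, haC, hbC⟩
          · exact (hC.2.2 a haC b hb hbC hab).elim
        · by_cases hbC : b ∈ C
          · exact (hC.2.2 b hbC a ha haC hab.symm).elim
          · exact Or.inr ⟨hab, hside a ha haC, hside b hb hbC⟩
  have h0 := Nat.card_eq_of_bijective φ hφ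
  rw [af_card, Finset.card_insert_of_notMem hv] at h0
  rw [← h0]
  show Nat.card (Σ A : {A // A ∈ U.powerset}, {G : Gr // CF (insert v A.1) G} ×
    {G : Gr // AF (U \ A.1) G}) = _
  rw [Nat.card_sigma]
  refine Eq.trans ?_ (Finset.sum_coe_sort U.powerset
    (fun A => P512.c (A.card + 1) * P512.g (U \ A).card))
  refine Finset.sum_congr ?_ fun A _ => ?_
  · ext A
    simp
  have hAU := Finset.mem_powerset.1 A.2
  rw [Nat.card_prod, cf_card (Finset.insert_nonempty v A.1), af_card,
    Finset.card_insert_of_notMem (fun h => hv (hAU h))]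

theorem g_rec' (n : ℕ) : P512.g (n + 1) =
    ∑ k ∈ range (n + 1), n.choose k * (P512.c (k + 1) * P512.g (n - k)) := by
  have h := g_rec (v := n) (U := range n) Finset.notMem_range_self
  rw [Finset.card_range] at h
  rw [h]
  have h1 := Finset.sum_powerset_apply_card (fun k => P512.c (k + 1) * P512.g (n - k))
    (x := range n)
  rw [Finset.card_range] at h1
  simp only [smul_eq_mul] at h1
  rw [← h1]
  refine Finset.sum_congr rfl fun A hA => ?_
  rw [Finset.card_sdiff_of_subset (Finset.mem_powerset.1 hA), Finset.card_range]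

end K5
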