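import Pool.Agent.Lib.K5.CLDefs

/-!
# K5.CLMul: products

1. `sum_powerset_pair`: group the subsets by their cardinality (`Finset.sum_powerset_apply_card` or `Finset.card_powersetCard`).
2. `egf_pair`: by 1 the left side is `∑' n, ∑_{a + b = n} x^(a+b) / (a! b!) g a b` (`n.choose a / n! = 1 / (a! (n-a)!)` in `ENNReal`: `ENNReal.div_eq_div_iff` or compute with `Nat.choose_mul_factorial_mul_factorial`); the sum over
   `n` and the antidiagonal is the double sum (`tsum_sigma'` and `Finset.sigmaAntidiagonalEquivProd`).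
3. `egf_mul`: `ENNReal.tsum_mul_left`, `tsum_mul_right`.
4. `egf_root`: `x^n/n! * n = x * (x^(n-1)/(n-1)!)` for `n ≥ 1`, the term `n = 0` vanishes; `tsum_eq_zero_add'`.
-/

namespace K5

open Finset
open scoped ENNReal

theorem sum_powerset_pair (g : ℕ → ℕ → ℝ≥0∞) {α : Type*} [DecidableEq α] (U : Finset α) :
    ∑ A ∈ U.powerset, g A.card (U \ A).card =
      ∑ p ∈ antidiagonal U.card, (U.card.choose p.1 : ℝ≥0∞) * g p.1 p.2 := by
  have h1 : ∑ A ∈ U.powerset, g A.card (U \ A).card =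
      ∑ A ∈ U.powerset, (fun k => g k (U.card - k)) A.card := by
    refine Finset.sum_congr rfl fun A hA => ?_
    rw [Finset.card_sdiff_of_subset (Finset.mem_powerset.1 hA)]
  rw [h1, Finset.sum_powerset_apply_card (fun k => g k (U.card - k)),
    Finset.Nat.sum_antidiagonal_eq_sum_range_succ_mk]
  refine Finset.sum_congr rfl fun k _ => ?_
  rw [nsmul_eq_mul]

namespace CLMulAux

theorem fac_ne (n : ℕ) : (n.factorial : ℝ≥0∞) ≠ 0 := by
  exact_mod_cast n.factorial_ne_zero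

theorem fac_top (n : ℕ) : (n.factorial : ℝ≥0∞) ≠ ⊤ := ENNReal.natCast_ne_top _

theorem term (x c : ℝ≥0∞) (a b : ℕ) :
    x ^ (a + b) / ((a + b).factorial : ℝ≥0∞) * (((a + b).choose a : ℝ≥0∞) * c) =
      (x ^ a / (a.factorial : ℝ≥0∞)) * ((x ^ b / (b.factorial : ℝ≥0∞)) * c) := by
  have h : ((a + b).choose a : ℝ≥0∞) * (a.factorial : ℝ≥0∞) * (b.factorial : ℝ≥0∞) =
      ((a + b).factorial : ℝ≥0∞) := by
    have h0 := Nat.choose_mul_factorial_mul_factorial (Nat.le_add_right a b)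
    rw [Nat.add_sub_cancel_left] at h0
    exact_mod_cast h0
  have h2 : ((a + b).factorial : ℝ≥0∞)⁻¹ * ((a + b).choose a : ℝ≥0∞) =
      (a.factorial : ℝ≥0∞)⁻¹ * (b.factorial : ℝ≥0∞)⁻¹ := by
    have hab : ((a + b).factorial : ℝ≥0∞)⁻¹ * (((a + b).choose a : ℝ≥0∞) * (a.factorial : ℝ≥0∞) *
        (b.factorial : ℝ≥0∞)) = 1 := by
      rw [h, ENNReal.inv_mul_cancel (fac_ne _) (fac_top _)]
    calc ((a + b).factorial : ℝ≥0∞)⁻¹ * ((a + b).choose a : ℝ≥0∞)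
        = ((a + b).factorial : ℝ≥0∞)⁻¹ * ((a + b).choose a : ℝ≥0∞) *
            ((a.factorial : ℝ≥0∞) * (a.factorial : ℝ≥0∞)⁻¹) *
            ((b.factorial : ℝ≥0∞) * (b.factorial : ℝ≥0∞)⁻¹) := by
          rw [ENNReal.mul_inv_cancel (fac_ne _) (fac_top _),
            ENNReal.mul_inv_cancel (fac_ne _) (fac_top _), mul_one, mul_one]
      _ = (((a + b).factorial : ℝ≥0∞)⁻¹ * (((a + b).choose a : ℝ≥0∞) * (a.factorial : ℝ≥0∞) *
            (b.factorial : ℝ≥0∞))) * ((a.factorial : ℝ≥0∞)⁻¹ * (b.factorial : ℝ≥0∞)⁻¹) := by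
          ring
      _ = (a.factorial : ℝ≥0∞)⁻¹ * (b.factorial : ℝ≥0∞)⁻¹ := by rw [hab, one_mul]
  calc x ^ (a + b) / ((a + b).factorial : ℝ≥0∞) * (((a + b).choose a : ℝ≥0∞) * c)
      = x ^ (a + b) * (((a + b).factorial : ℝ≥0∞)⁻¹ * ((a + b).choose a : ℝ≥0∞)) * c := by
        rw [div_eq_mul_inv]
        ring
    _ = (x ^ a / (a.factorial : ℝ≥0∞)) * ((x ^ b / (b.factorial : ℝ≥0∞)) * c) := by
        rw [h2, div_eq_mul_inv, div_eq_mul_inv, pow_add]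
        ring

end CLMulAux

theorem egf_pair (g : ℕ → ℕ → ℝ≥0∞) (x : ℝ≥0∞) :
    egf (fun n => ∑ A ∈ (range n).powerset, g A.card (range n \ A).card) x =
      ∑' a : ℕ, ∑' b : ℕ, (x ^ a / (a.factorial : ℝ≥0∞)) * ((x ^ b / (b.factorial : ℝ≥0∞)) * g a b) := by
  unfold egf
  rw [← ENNReal.tsum_prod (f := fun a b => (x ^ a / (a.factorial : ℝ≥0∞)) *
    ((x ^ b / (b.factorial : ℝ≥0∞)) * g a b)),
    ← (Finset.HasAntidiagonal.sigmaAntidiagonalEquivProd (A := ℕ)).tsum_eq, ENNReal.tsum_sigma']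
  refine tsum_congr fun n => ?_
  beta_reduce
  rw [sum_powerset_pair, Finset.card_range, Finset.mul_sum, tsum_fintype,
    ← Finset.sum_coe_sort (antidiagonal n)]
  refine Finset.sum_congr rfl fun p _ => ?_
  obtain ⟨⟨a, b⟩, hp⟩ := p
  have hab : a + b = n := Finset.HasAntidiagonal.mem_antidiagonal.1 hp
  subst hab
  exact CLMulAux.term x (g a b) a b

theorem egf_mul (F G : ℕ → ℝ≥0∞) (x : ℝ≥0∞) :
    egf (fun n => ∑ A ∈ (range n).powerset, F A.card * G (range n \ A).card) x =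
      egf F x * egf G x := by
  rw [egf_pair (fun a b => F a * G b)]
  unfold egf
  rw [← ENNReal.tsum_mul_right]
  refine tsum_congr fun a => ?_
  rw [← ENNReal.tsum_mul_left]
  refine tsum_congr fun b => ?_
  ring

theorem egf_root (F : ℕ → ℝ≥0∞) (x : ℝ≥0∞) :
    egf (fun n => (n : ℝ≥0∞) * F (n - 1)) x = x * egf F x := by
  unfold egf
  rw [tsum_eq_zero_add' ENNReal.summable, ← ENNReal.tsum_mul_left]
  simp only [Nat.cast_zero, zero_mul, mul_zero, zero_add, Nat.add_sub_cancel]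
  refine tsum_congr fun n => ?_
  have h1 : ((n + 1).factorial : ℝ≥0∞) = ((n + 1 : ℕ) : ℝ≥0∞) * (n.factorial : ℝ≥0∞) := by
    rw [Nat.factorial_succ]
    push_cast
    ring
  have hn : ((n + 1 : ℕ) : ℝ≥0∞) ≠ 0 := by
    exact_mod_cast Nat.succ_ne_zero n
  have hnt : ((n + 1 : ℕ) : ℝ≥0∞) ≠ ⊤ := ENNReal.natCast_ne_top _
  have h2 : (((n + 1).factorial : ℝ≥0∞))⁻¹ * ((n + 1 : ℕ) : ℝ≥0∞) = (n.factorial : ℝ≥0∞)⁻¹ := by
    rw [h1, ENNReal.mul_inv (Or.inl hn) (Or.inl hnt)]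
    calc (((n + 1 : ℕ) : ℝ≥0∞))⁻¹ * (n.factorial : ℝ≥0∞)⁻¹ * ((n + 1 : ℕ) : ℝ≥0∞)
        = ((((n + 1 : ℕ) : ℝ≥0∞))⁻¹ * ((n + 1 : ℕ) : ℝ≥0∞)) * (n.factorial : ℝ≥0∞)⁻¹ := by ring
      _ = (n.factorial : ℝ≥0∞)⁻¹ := by rw [ENNReal.inv_mul_cancel hn hnt, one_mul]
  calc x ^ (n + 1) / ((n + 1).factorial : ℝ≥0∞) * (((n + 1 : ℕ) : ℝ≥0∞) * F n)
      = x ^ (n + 1) * ((((n + 1).factorial : ℝ≥0∞))⁻¹ * ((n + 1 : ℕ) : ℝ≥0∞)) * F n := by
        rw [div_eq_mul_inv]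
        ring
    _ = x * (x ^ n / (n.factorial : ℝ≥0∞) * F n) := by
        rw [h2, div_eq_mul_inv, pow_succ]
        ring

theorem egf_mono {F G : ℕ → ℝ≥0∞} (h : ∀ n, F n ≤ G n) (x : ℝ≥0∞) : egf F x ≤ egf G x := by
  unfold egf
  exact ENNReal.tsum_le_tsum fun n => mul_le_mul_right (h n) _

end K5
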