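import Pool.Agent.Lib.K5.BOne
import Pool.Agent.Lib.K5.CLMul
import Pool.Agent.Lib.P512.Apex

/-!
# K5.BAn: growth constant and radius of convergence

1. `gamma_le`: `P512.g n ≤ P512.c (n + 1) = rC n` (`P512.g_le`, `rC_eq`), so `g n / n! ≤ C * r⁻¹ ^ n` and `(g n / n!) ^ (1 / n) ≤ C ^ (1 / n) * r⁻¹` for `n ≥ 1` (`Real.rpow_le_rpow`, `Real.mul_rpow`, `Real.pow_rpow_inv_natCast`), and
   `C ^ (1 / n) → 1`; `le_of_tendsto_of_tendsto`.
2. `egf_rE_ne_top`: `0 ≤ γ`; choose `q` with `γ < q`, `q * r < 1`. Eventually `(g n / n!) ^ (1 / n) < q`, so `g n / n! ≤ q ^ n`; `rC n = c (n + 1) ≤ g (n + 1)` (`P512.c_le`), so `rC n * r ^ n / n! ≤ (n + 1) * q ^ (n + 1) * r ^ n`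
   eventually, and `∑ (n + 1) * q * (q r) ^ n` converges (`summable_pow_mul_geometric_of_norm_lt_one`). So the real series `∑ rC n * r ^ n / n!` is summable and `egf rE (ofReal r) = ofReal (∑' ...)` (`ENNReal.ofReal_tsum_of_nonneg`),
   which is not `⊤` (the terms: `(ofReal r) ^ n / n! * rC n = ofReal (r ^ n / n! * rC n)`).
-/

namespace K5

open Finset Filter Topology
open scoped ENNReal

theorem gamma_le {γ r C : ℝ}
    (hγ : Tendsto (fun n : ℕ => ((P512.g n : ℝ) / n.factorial) ^ (1 / (n : ℝ))) atTop (𝓝 γ))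
    (hr : 0 < r) (hC : 0 < C) (h : ∀ n : ℕ, r ^ n / n.factorial * (rC n : ℝ) ≤ C) :
    γ * r ≤ 1 := by
  have hlim : Tendsto (fun n : ℕ => C ^ (1 / (n : ℝ)) * r⁻¹) atTop (𝓝 (1 * r⁻¹)) := by
    refine Tendsto.mul_const _ ?_
    have h1 : Tendsto (fun n : ℕ => 1 / (n : ℝ)) atTop (𝓝 0) := tendsto_one_div_atTop_nhds_zero_nat
    have h2 := (Real.continuousAt_const_rpow hC.ne' (b := 0)).tendsto.comp h1
    simpa [Function.comp_def] using h2
  have hle : γ ≤ 1 * r⁻¹ := by
    refine le_of_tendsto_of_tendsto hγ hlim ?_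
    filter_upwards [eventually_ge_atTop 1] with n hn
    have hn0 : (n : ℝ) ≠ 0 := by
      have : 0 < n := hn
      positivity
    have hfac : (0 : ℝ) < n.factorial := by positivity
    have hrn : 0 < r ^ n := pow_pos hr n
    have h1 : (P512.g n : ℝ) ≤ (rC n : ℝ) := by
      rw [rC_eq]
      exact_mod_cast P512.g_le n
    have h2 : (P512.g n : ℝ) / n.factorial ≤ C * r⁻¹ ^ n := by
      rw [inv_pow, ← div_eq_mul_inv, le_div_iff₀ hrn]
      calc (P512.g n : ℝ) / n.factorial * r ^ n ≤ (rC n : ℝ) / n.factorial * r ^ n := by gcongr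
        _ = r ^ n / n.factorial * (rC n : ℝ) := by ring
        _ ≤ C := h n
    have h3 : (0 : ℝ) ≤ (P512.g n : ℝ) / n.factorial := by positivity
    calc ((P512.g n : ℝ) / n.factorial) ^ (1 / (n : ℝ)) ≤ (C * r⁻¹ ^ n) ^ (1 / (n : ℝ)) :=
          Real.rpow_le_rpow h3 h2 (by positivity)
      _ = C ^ (1 / (n : ℝ)) * r⁻¹ := by
          rw [Real.mul_rpow hC.le (by positivity), one_div, Real.pow_rpow_inv_natCast (by positivity)
            (by omega)]
  calc γ * r ≤ (1 * r⁻¹) * r := by gcongr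
    _ = 1 := by
        rw [one_mul, inv_mul_cancel₀ hr.ne']

theorem egf_rE_ne_top {γ r : ℝ}
    (hγ : Tendsto (fun n : ℕ => ((P512.g n : ℝ) / n.factorial) ^ (1 / (n : ℝ))) atTop (𝓝 γ))
    (hr : 0 < r) (h : γ * r < 1) : egf rE (.ofReal r) ≠ ⊤ := by
  have hγ0 : 0 ≤ γ := ge_of_tendsto' hγ fun n => by positivity
  obtain ⟨q, hq1, hq2⟩ : ∃ q, γ < q ∧ q * r < 1 := by
    have h1 : γ < r⁻¹ := by
      rw [← one_div, lt_div_iff₀ hr]
      exact h
    obtain ⟨q, h2, h3⟩ := exists_between h1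
    refine ⟨q, h2, ?_⟩
    calc q * r < r⁻¹ * r := by gcongr
      _ = 1 := inv_mul_cancel₀ hr.ne'
  have hq0 : 0 < q := hγ0.trans_lt hq1
  have hev : ∀ᶠ n : ℕ in atTop, (P512.g n : ℝ) / n.factorial ≤ q ^ n := by
    filter_upwards [hγ.eventually (gt_mem_nhds hq1), eventually_ge_atTop 1] with n hn hn1
    have h3 : (0 : ℝ) ≤ (P512.g n : ℝ) / n.factorial := by positivity
    have h4 : (((P512.g n : ℝ) / n.factorial) ^ (1 / (n : ℝ))) ^ n ≤ q ^ n :=
      pow_le_pow_left₀ (by positivity) hn.le n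
    rwa [one_div, Real.rpow_inv_natCast_pow h3 (by omega)] at h4
  have hev2 : ∀ᶠ n : ℕ in atTop, r ^ n / n.factorial * (rC n : ℝ) ≤
      q * ((n : ℝ) * (q * r) ^ n + (q * r) ^ n) := by
    filter_upwards [(tendsto_add_atTop_nat 1).eventually hev] with n hn
    have h1 : (rC n : ℝ) ≤ (P512.g (n + 1) : ℝ) := by
      rw [rC_eq]
      exact_mod_cast P512.c_le (n + 1)
    have hf : ((n + 1).factorial : ℝ) = (n + 1) * n.factorial := by
      rw [Nat.factorial_succ]
      push_cast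
      ring
    have hfac : (0 : ℝ) < n.factorial := by positivity
    have h2 : (P512.g (n + 1) : ℝ) / n.factorial ≤ (n + 1) * q ^ (n + 1) := by
      rw [hf, div_le_iff₀ (by positivity)] at hn
      rw [div_le_iff₀ hfac]
      calc (P512.g (n + 1) : ℝ) ≤ q ^ (n + 1) * ((n + 1) * n.factorial) := hn
        _ = (n + 1) * q ^ (n + 1) * n.factorial := by ring
    calc r ^ n / n.factorial * (rC n : ℝ) ≤ r ^ n / n.factorial * (P512.g (n + 1) : ℝ) := by gcongr
      _ = (P512.g (n + 1) : ℝ) / n.factorial * r ^ n := by ring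
      _ ≤ (n + 1) * q ^ (n + 1) * r ^ n := by gcongr
      _ = q * ((n : ℝ) * (q * r) ^ n + (q * r) ^ n) := by
          rw [mul_pow]
          ring
  have hqr0 : 0 ≤ q * r := by positivity
  have hnorm : ‖q * r‖ < 1 := by
    rw [Real.norm_of_nonneg hqr0]
    exact hq2
  have hs1 : Summable fun n : ℕ => (n : ℝ) * (q * r) ^ n := by
    have := summable_pow_mul_geometric_of_norm_lt_one 1 hnorm
    simpa using this
  have hs2 : Summable fun n : ℕ => (q * r) ^ n := summable_geometric_of_norm_lt_one hnorm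
  have hs : Summable fun n : ℕ => r ^ n / n.factorial * (rC n : ℝ) :=
    Summable.of_norm_bounded_eventually_nat ((hs1.add hs2).mul_left q) (by
      filter_upwards [hev2] with n hn
      rwa [Real.norm_of_nonneg (by positivity)])
  have hterm : ∀ n : ℕ, (ENNReal.ofReal r) ^ n / (n.factorial : ℝ≥0∞) * rE n =
      ENNReal.ofReal (r ^ n / n.factorial * (rC n : ℝ)) := by
    intro n
    unfold rE
    rw [ENNReal.ofReal_mul (by positivity), ENNReal.ofReal_div_of_pos (by positivity),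
      ENNReal.ofReal_pow hr.le, ENNReal.ofReal_natCast, ENNReal.ofReal_natCast]
  unfold egf
  rw [tsum_congr hterm, ← ENNReal.ofReal_tsum_of_nonneg (fun n => by positivity) hs]
  exact ENNReal.ofReal_ne_top

end K5
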