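import Mathlib

/-!
# K5.CLDefs: exponential generating functions at a point, in `ENNReal`
-/

namespace K5

open Finset
open scoped ENNReal

/-- The exponential generating function of `F` at `x`. -/
noncomputable def egf (F : ℕ → ℝ≥0∞) (x : ℝ≥0∞) : ℝ≥0∞ :=
  ∑' n : ℕ, x ^ n / (n.factorial : ℝ≥0∞) * F n

/-- The exponential function on `ENNReal`. -/
noncomputable def eexp (a : ℝ≥0∞) : ℝ≥0∞ := ∑' k : ℕ, a ^ k / (k.factorial : ℝ≥0∞)

/-- Families: the sum over all maps from an `n`-set to an `m`-set of the product of the weights of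
the fibres. -/
noncomputable def fam (F : ℕ → ℝ≥0∞) (m n : ℕ) : ℝ≥0∞ :=
  ∑ f : Fin n → Fin m, ∏ i, F (univ.filter (fun j => f j = i)).card

/-- Set partitions: the sum over all partitions of an `n`-set of the product of the weights. -/
noncomputable def prt (F : ℕ → ℝ≥0∞) (n : ℕ) : ℝ≥0∞ :=
  ∑ π : Finpartition (range n), ∏ A ∈ π.parts, F A.card

/-- Set partitions with at least two parts. -/
noncomputable def prt2 (F : ℕ → ℝ≥0∞) (n : ℕ) : ℝ≥0∞ :=
  ∑ π : Finpartition (range n), if 2 ≤ π.parts.card then ∏ A ∈ π.parts, F A.card else 0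

end K5
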