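import Pool.Agent.Lib.K5.Defs3
import Pool.Agent.Lib.K5.CLDefs

/-!
# K5.BDefs: the block level: definitions

`CR v U`: connected graphs on `U ∪ {v}` with root `v`; `PL v U`: the same with `v` not a cut vertex
(and `U` nonempty); `BK v W`: blocks (2-connected or a single edge) on `W ∪ {v}`.
`rC n`, `pC n`, `bC n`: their numbers for `v = 0` and `U = {1, ..., n}`.
`HStr`, `GStr`: a graph in `PL v U` is a block `W ∪ {v}` together with a connected graph with root `w` on the hanging
set `J w` for every `w ∈ W`.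
-/

namespace K5

open Finset
open scoped ENNReal

/-- Connected graphs on `U ∪ {v}` without a `K_5` minor, with root `v`. -/
structure CR (v : ℕ) (U : Finset ℕ) (G : Gr) : Prop where
  hv : v ∉ U
  on : On G (insert v U)
  conn : P512.Conn G (insert v U)
  free : Free G

/-- The same, `v` is not a cut vertex and `U` is nonempty. -/
structure PL (v : ℕ) (U : Finset ℕ) (G : Gr) : Prop where
  hv : v ∉ U
  on : On G (insert v U)
  conn : P512.Conn G U
  adj : ∃ u ∈ U, G.Adj v u
  free : Free G

/-- Blocks on `W ∪ {v}` without a `K_5` minor. -/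
structure BK (v : ℕ) (W : Finset ℕ) (G : Gr) : Prop where
  hv : v ∉ W
  on : On G (insert v W)
  blk : Blk G (insert v W)
  free : Free G

/-- Blocks on `S` without a `K_5` minor. -/
structure BB (S : Finset ℕ) (G : Gr) : Prop where
  on : On G S
  blk : Blk G S
  free : Free G

/-- The number of connected graphs on `{0, ..., n}`. -/
noncomputable def rC (n : ℕ) : ℕ := Nat.card {G : Gr // CR 0 (Ico 1 (n + 1)) G}

/-- The number of connected graphs on `{0, ..., n}` for which `0` is not a cut vertex (`n ≥ 1`). -/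
noncomputable def pC (n : ℕ) : ℕ := Nat.card {G : Gr // PL 0 (Ico 1 (n + 1)) G}

/-- The number of blocks on `{0, ..., n}`. -/
noncomputable def bC (n : ℕ) : ℕ := Nat.card {G : Gr // BK 0 (Ico 1 (n + 1)) G}

/-- The same as sequences in `ENNReal`. -/
noncomputable def rE (n : ℕ) : ℝ≥0∞ := (rC n : ℝ≥0∞)
noncomputable def pE (n : ℕ) : ℝ≥0∞ := (pC n : ℝ≥0∞)
noncomputable def bE (n : ℕ) : ℝ≥0∞ := (bC n : ℝ≥0∞)

/-- The label set `U` is split into `W` and the sets `J w` for `w ∈ W`. -/
structure HStr (v : ℕ) (U W : Finset ℕ) (J : ℕ → Finset ℕ) : Prop where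
  hv : v ∉ U
  sub : W ⊆ U
  ne : W.Nonempty
  Jsub : ∀ w, J w ⊆ U \ W
  Jdisj : ∀ w w', w ≠ w' → Disjoint (J w) (J w')
  Jcover : ∀ u ∈ U \ W, ∃ w ∈ W, u ∈ J w
  Jout : ∀ w, w ∉ W → J w = ∅

/-- `G` is a block on `W ∪ {v}` with a connected graph on `J w ∪ {w}` hanging at every `w ∈ W`. -/
structure GStr (v : ℕ) (U W : Finset ℕ) (J : ℕ → Finset ℕ) (G : Gr) : Prop where
  str : HStr v U W J
  on : On G (insert v U)
  out : ∀ w, ∀ a ∈ J w, ∀ b, G.Adj a b → b = w ∨ b ∈ J w
  core : BK v W (rst G (insert v W))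
  hang : ∀ w ∈ W, CR w (J w) (rst G (insert w (J w)))

open Classical in
/-- The sum of the degrees of the vertices of `S` in `S`. -/
noncomputable def dg (G : Gr) (S : Finset ℕ) : ℕ := ∑ a ∈ S, (S.filter (fun b => G.Adj a b)).card

end K5
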