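import Pool.Agent.Lib.K5.Defs3
import Pool.Agent.Lib.K5.CLDefs

/-!
# K5.CntDefs: counting functions of the network level
-/

namespace K5

open Finset
open scoped ENNReal

/-- The number of pieces with `n` interior vertices. -/
noncomputable def nP (n : ℕ) : ℝ≥0∞ := ∑' _ : {G : Gr // Piece 0 1 (Ico 2 (n + 2)) G}, 1

/-- The number of series pieces with `n` interior vertices. -/
noncomputable def nS (n : ℕ) : ℝ≥0∞ := ∑' _ : {G : Gr // Series 0 1 (Ico 2 (n + 2)) G}, 1

/-- The number of pieces that are not series. -/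
noncomputable def nH (n : ℕ) : ℝ≥0∞ := ∑' _ : {G : Gr // HPiece 0 1 (Ico 2 (n + 2)) G}, 1

/-- Networks: with or without the edge `st`, not empty. -/
noncomputable def dd (n : ℕ) : ℝ≥0∞ := if n = 0 then 1 else 2 * (Q n : ℝ≥0∞)

/-- Networks that are not series (the edge `st` present, or not a series piece). -/
noncomputable def ee (n : ℕ) : ℝ≥0∞ :=
  ∑' _ : {p : Gr × Bool // Net 0 1 (Ico 2 (n + 2)) p.1 ∧ (n = 0 → p.2 = true) ∧
    (p.2 = true ∨ ¬ Series 0 1 (Ico 2 (n + 2)) p.1)}, 1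

/-- The total weight of the rooted 3-connected graphs with `n` interior vertices. -/
noncomputable def nT (z : ℝ≥0∞) (n : ℕ) : ℝ≥0∞ :=
  ∑' G : {G : Gr // Rtd {0, 1} (Ico 2 (n + 2)) G}, z ^ ecard {0, 1} G.1

/-- The total weight of the branches with `n` interior vertices. -/
noncomputable def nB (z : ℝ≥0∞) (n : ℕ) : ℝ≥0∞ :=
  ∑' G : {G : Gr // Branch {0, 1, 2} (Ico 3 (n + 3)) G}, z ^ G.1.edgeSet.ncard

/-- Cores with `a` interior vertices, with families of networks on `k` labels at the edges. -/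
noncomputable def gT (a k : ℕ) : ℝ≥0∞ :=
  ∑' G : {G : Gr // Rtd {0, 1} (Ico 2 (a + 2)) G}, fam dd (ecard {0, 1} G.1) k

/-- Truncation. -/
noncomputable def trn (N : ℕ) (F : ℕ → ℝ≥0∞) (n : ℕ) : ℝ≥0∞ := if n ≤ N then F n else 0

end K5
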