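import Pool.Agent.Lib.K5.Rel

/-!
# K5.Rel3: relabelling, planarity, triangles, numbers of edges

The image of a family `F i` is `fun a b => F i (σ⁻¹ a) (σ⁻¹ b)`; sums over `rl σ U` are sums over `U`. Use `rg_adj`, `conn_rg`, `free_rg`, `on_rg`, `three_rg`; sets: `rl σ (insert s (insert t U)) = insert (σ s) (insert (σ t) (rl σ U))`, `rl σ (U.erase v) = (rl σ U).erase (σ v)`; graphs: `rg σ (G ⊔ clq X) = rg σ G ⊔ clq (rl σ X)`,
`rg σ (rst G S) = rst (rg σ G) (rl σ S)`, `rg σ (G.deleteEdges {s(s, t)}) = (rg σ G).deleteEdges {s(σ s, σ t)}`. Every subset of `rl σ U` is `rl σ P` with `P ⊆ U`.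
-/

namespace K5

open Finset

variable (σ : Equiv.Perm ℕ)

namespace Rel3Aux

open RelAux

theorem cyc_fwd (σ : Equiv.Perm ℕ) {G : Gr} {U : Finset ℕ} {z : ℕ → ℕ → ZMod 2} (h : Cyc G U z) :
    Cyc (rg σ G) (rl σ U) (fun a b => z (σ⁻¹ a) (σ⁻¹ b)) := by
  refine ⟨fun a b => h.symm _ _, fun a b hab => (rg_adj' σ).mpr (h.supp _ _ hab), fun a ha => ?_⟩
  have e : ∑ b ∈ rl σ U, z (σ⁻¹ a) (σ⁻¹ b) = ∑ b ∈ U, z (σ⁻¹ a) b := by
    unfold rl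
    rw [Finset.sum_map]
    refine Finset.sum_congr rfl fun b _ => ?_
    simp
  rw [e]
  exact h.even _ ((mem_rl σ).mp ha)

theorem mac_fwd (σ : Equiv.Perm ℕ) {G : Gr} {U : Finset ℕ} (h : Mac G U) :
    Mac (rg σ G) (rl σ U) := by
  obtain ⟨n, F, h1, h2, h3⟩ := h
  refine ⟨n, fun i a b => F i (σ⁻¹ a) (σ⁻¹ b), fun i => cyc_fwd σ (h1 i),
    fun a b => h2 (σ⁻¹ a) (σ⁻¹ b), fun z hz => ?_⟩
  have h4 := cyc_fwd σ⁻¹ hz
  rw [(rg_symm σ G).1, rl_inv] at h4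
  obtain ⟨S, hS⟩ := h3 _ h4
  refine ⟨S, fun a b => ?_⟩
  have h5 := hS (σ⁻¹ a) (σ⁻¹ b)
  have e : ∀ x, σ (σ⁻¹ x) = x := fun x => by simp
  rw [inv_inv, e, e] at h5
  exact h5

theorem rl_sdiff (U V : Finset ℕ) : rl σ (U \ V) = rl σ U \ rl σ V := by
  ext a
  simp only [mem_rl, Finset.mem_sdiff]

theorem rg_clq (X : Finset ℕ) : rg σ (clq X) = clq (rl σ X) := by
  ext a b
  rw [rg_adj']
  show (σ⁻¹ a ≠ σ⁻¹ b ∧ σ⁻¹ a ∈ X ∧ σ⁻¹ b ∈ X) ↔ (a ≠ b ∧ a ∈ rl σ X ∧ b ∈ rl σ X)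
  rw [mem_rl, mem_rl]
  refine and_congr_left fun _ => ?_
  exact (σ⁻¹).injective.ne_iff

theorem rg_le (G H : Gr) : rg σ G ≤ rg σ H ↔ G ≤ H := by
  constructor
  · intro h a b hab
    exact (rg_adj σ).mp (h ((rg_adj σ).mpr hab))
  · intro h a b hab
    rw [rg_adj'] at hab ⊢
    exact h hab

theorem rg_edgeSet (G : Gr) :
    (rg σ G).edgeSet = (σ.toEmbedding.sym2Map : Sym2 ℕ → Sym2 ℕ) '' G.edgeSet := by
  unfold rg
  rw [SimpleGraph.edgeSet_map]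

end Rel3Aux

open RelAux Rel3Aux

theorem mac_rg {G : Gr} {U : Finset ℕ} : Mac (rg σ G) (rl σ U) ↔ Mac G U := by
  constructor
  · intro h
    have := mac_fwd σ⁻¹ h
    rwa [(rg_symm σ G).1, rl_inv] at this
  · exact mac_fwd σ

theorem nt_rg {G : Gr} {U X : Finset ℕ} : NT (rg σ G) (rl σ U) (rl σ X) ↔ NT G U X := by
  unfold NT
  rw [rl_subset, rl_card, ← rg_clq, rg_le, ← rl_sdiff, conn_rg]

theorem ecard_rg {R : Finset ℕ} {G : Gr} : ecard (rl σ R) (rg σ G) = ecard R G := by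
  unfold ecard
  rw [← rg_clq, rg_edgeSet, rg_edgeSet, ← Set.image_diff (σ.toEmbedding.sym2Map).injective,
    Set.ncard_image_of_injective _ (σ.toEmbedding.sym2Map).injective]

theorem ncard_rg {G : Gr} : (rg σ G).edgeSet.ncard = G.edgeSet.ncard := by
  rw [rg_edgeSet, Set.ncard_image_of_injective _ (σ.toEmbedding.sym2Map).injective]

end K5
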