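import Pool.Agent.Lib.K5.Rel2
import Pool.Agent.Lib.K5.Rel3
import Pool.Agent.Lib.K5.CntDefs

/-!
# K5.RelC: the numbers of structures depend only on the sizes

All statements: take `σ` from `exists_perm` / `exists_perm_st`; `rg σ` is a bijection (`rg_symm`) between the two classes (`*_rg`), it preserves the weights; `Equiv.tsum_eq` / `Nat.card_congr`.
For `msum`: the bijection `(H, M) ↦ (rg σ H, M.map (rl σ))` and `nt_rg`, `rtd_rg`, `mac_rg`; `Cov` and the clique edges are carried along.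
`Core s t U G ↔ Rtd {s, t} U G` if `s ≠ t` (`clq {s, t} ≤ G ↔ G.Adj s t`, `{s, t} ∪ U = St s t U`).
-/

namespace K5

open Finset
open scoped ENNReal

theorem core_iff_rtd {s t : ℕ} {U : Finset ℕ} {G : Gr} (h : s ≠ t) :
    Core s t U G ↔ Rtd {s, t} U G := by
  have e : ({s, t} : Finset ℕ) ∪ U = St s t U := by
    rw [Finset.insert_union, Finset.singleton_union]
  constructor
  · intro c
    refine ⟨?_, by rw [e]; exact c.on, ?_, by rw [e]; exact c.three, c.free,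
      Or.inl (Finset.card_pair h)⟩
    · rw [Finset.disjoint_left]
      intro a ha
      rw [Finset.mem_insert, Finset.mem_singleton] at ha
      rcases ha with rfl | rfl
      · exact c.hs
      · exact c.ht
    · rintro a b ⟨hab, ha, hb⟩
      rw [Finset.mem_insert, Finset.mem_singleton] at ha hb
      rcases ha with rfl | rfl <;> rcases hb with rfl | rfl
      · exact absurd rfl hab
      · exact c.adj
      · exact c.adj.symm
      · exact absurd rfl hab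
  · intro r
    have hd := Finset.disjoint_left.mp r.disj
    exact ⟨h, hd (by simp), hd (by simp), by rw [← e]; exact r.on,
      r.clique (show s ≠ t ∧ s ∈ ({s, t} : Finset ℕ) ∧ t ∈ ({s, t} : Finset ℕ) from
        ⟨h, by simp, by simp⟩), by rw [← e]; exact r.three, r.free⟩

namespace RelCAux

open RelAux Rel2Aux

/-- Transport of a sum over a class of graphs. -/
theorem tsum_rg (σ : Equiv.Perm ℕ) {P Q : Gr → Prop} (f g : Gr → ℝ≥0∞)
    (h : ∀ G, Q (rg σ G) ↔ P G) (hfg : ∀ G, g (rg σ G) = f G) :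
    ∑' G : {G : Gr // P G}, f G.1 = ∑' G : {G : Gr // Q G}, g G.1 := by
  let e : {G : Gr // P G} ≃ {G : Gr // Q G} :=
    { toFun := fun G => ⟨rg σ G.1, (h G.1).mpr G.2⟩
      invFun := fun G => ⟨rg σ⁻¹ G.1, by
        rw [← h, (rg_symm σ G.1).2]
        exact G.2⟩
      left_inv := fun G => Subtype.ext (rg_symm σ G.1).1
      right_inv := fun G => Subtype.ext (rg_symm σ G.1).2 }
  rw [← Equiv.tsum_eq e]
  exact tsum_congr fun G => (hfg G.1).symm

theorem finite_on' (S : Finset ℕ) : Finite {G : Gr // On G S} := by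
  classical
  refine Finite.of_injective (β := S → S → Prop) (fun G a b => G.1.Adj a b) ?_
  intro G H hGH
  apply Subtype.ext
  ext a b
  constructor
  · intro h
    have ha := G.2 a b h
    have hb := G.2 b a h.symm
    have := congrFun (congrFun hGH ⟨a, ha⟩) ⟨b, hb⟩
    exact (iff_of_eq this).mp h
  · intro h
    have ha := H.2 a b h
    have hb := H.2 b a h.symm
    have := congrFun (congrFun hGH ⟨a, ha⟩) ⟨b, hb⟩
    exact (iff_of_eq this).mpr h

theorem tsum_one_nat {α : Type} [Finite α] : ∑' _ : α, (1 : ℝ≥0∞) = (Nat.card α : ℝ≥0∞) := by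
  have := Fintype.ofFinite α
  rw [tsum_fintype, Finset.sum_const, Nat.card_eq_fintype_card, nsmul_eq_mul, mul_one,
    Finset.card_univ]

theorem rl_injective (σ : Equiv.Perm ℕ) : Function.Injective (rl σ) :=
  fun _ _ h => (rl_inj σ).mp h

/-- Relabelling of families of sets. -/
def rm (σ : Equiv.Perm ℕ) (M : Finset (Finset ℕ)) : Finset (Finset ℕ) :=
  M.map ⟨rl σ, rl_injective σ⟩

theorem mem_rm (σ : Equiv.Perm ℕ) {M : Finset (Finset ℕ)} {X : Finset ℕ} :
    rl σ X ∈ rm σ M ↔ X ∈ M := by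
  unfold rm
  rw [Finset.mem_map]
  constructor
  · rintro ⟨Y, hY, e⟩
    have : Y = X := (rl_inj σ).mp e
    rwa [← this]
  · intro h
    exact ⟨X, h, rfl⟩

theorem all_rm (σ : Equiv.Perm ℕ) {M : Finset (Finset ℕ)} {p : Finset ℕ → Prop} :
    (∀ X ∈ rm σ M, p X) ↔ ∀ X ∈ M, p (rl σ X) := by
  constructor
  · intro h X hX
    exact h _ ((mem_rm σ).mpr hX)
  · intro h X hX
    have e : rl σ (rl σ⁻¹ X) = X := rl_inv' σ X
    rw [← e] at hX ⊢
    exact h _ ((mem_rm σ).mp hX)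

theorem rm_inv (σ : Equiv.Perm ℕ) (M : Finset (Finset ℕ)) : rm σ⁻¹ (rm σ M) = M := by
  ext X
  have e : rl σ⁻¹ (rl σ X) = X := rl_inv σ X
  rw [← e, mem_rm σ⁻¹, mem_rm σ, e]

theorem rm_inv' (σ : Equiv.Perm ℕ) (M : Finset (Finset ℕ)) : rm σ (rm σ⁻¹ M) = M := by
  ext X
  have e : rl σ (rl σ⁻¹ X) = X := rl_inv' σ X
  rw [← e, mem_rm σ, mem_rm σ⁻¹, e]

theorem edge_rg (σ : Equiv.Perm ℕ) (G : Gr) (e : Sym2 ℕ) :
    Sym2.map σ e ∈ (rg σ G).edgeSet ↔ e ∈ G.edgeSet := by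
  induction e using Sym2.ind with
  | _ a b =>
    rw [Sym2.map_mk, SimpleGraph.mem_edgeSet, SimpleGraph.mem_edgeSet]
    exact rg_adj σ

theorem cov_rg (σ : Equiv.Perm ℕ) (M : Finset (Finset ℕ)) (e : Sym2 ℕ) :
    Cov (rm σ M) (Sym2.map σ e) ↔ Cov M e := by
  unfold Cov
  constructor
  · rintro ⟨X, hX, he⟩
    have e' : rl σ (rl σ⁻¹ X) = X := rl_inv' σ X
    rw [← e'] at hX he
    rw [← rg_clq, edge_rg] at he
    exact ⟨_, (mem_rm σ).mp hX, he⟩
  · rintro ⟨X, hX, he⟩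
    refine ⟨rl σ X, (mem_rm σ).mpr hX, ?_⟩
    rw [← rg_clq, edge_rg]
    exact he

theorem ncard_rg' (σ : Equiv.Perm ℕ) {p q : Sym2 ℕ → Prop} (h : ∀ e, q (Sym2.map σ e) ↔ p e) :
    {e | q e}.ncard = {e | p e}.ncard := by
  have he : {e | q e} = Sym2.map σ '' {e | p e} := by
    ext e
    constructor
    · intro hq
      have e' : Sym2.map σ (Sym2.map σ.symm e) = e := by
        induction e using Sym2.ind with
        | _ a b => simp
      refine ⟨Sym2.map σ.symm e, ?_, e'⟩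
      show p _
      rw [← h, e']
      exact hq
    · rintro ⟨e0, h0, rfl⟩
      exact (h e0).mpr h0
  rw [he, Set.ncard_image_of_injective _ (Sym2.map.injective σ.injective)]

theorem mwt_rg (σ : Equiv.Perm ℕ) (z w τ : ℝ≥0∞) (R : Finset ℕ) (H : Gr)
    (M : Finset (Finset ℕ)) : mwt z w τ (rl σ R) (rg σ H) (rm σ M) = mwt z w τ R H M := by
  have h1 : (rm σ M).card = M.card := Finset.card_map _
  have h2 : {e | e ∈ (rg σ H).edgeSet ∧ Cov (rm σ M) e ∧ e ∉ (clq (rl σ R)).edgeSet}.ncard =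
      {e | e ∈ H.edgeSet ∧ Cov M e ∧ e ∉ (clq R).edgeSet}.ncard :=
    ncard_rg' σ fun e => by rw [edge_rg, cov_rg, ← rg_clq, edge_rg]
  have h3 : {e | e ∈ (rg σ H).edgeSet ∧ ¬ Cov (rm σ M) e ∧ e ∉ (clq (rl σ R)).edgeSet}.ncard =
      {e | e ∈ H.edgeSet ∧ ¬ Cov M e ∧ e ∉ (clq R).edgeSet}.ncard :=
    ncard_rg' σ fun e => by rw [edge_rg, cov_rg, ← rg_clq, edge_rg]
  exact congrArg₂ (fun a b : ℝ≥0∞ => a * b) (congrArg₂ (fun a b : ℝ≥0∞ => a * b)
    (congrArg (fun n : ℕ => τ ^ n) h1) (congrArg (fun n : ℕ => w ^ n) h2))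
    (congrArg (fun n : ℕ => z ^ n) h3)

theorem pcore_rg (σ : Equiv.Perm ℕ) {R U : Finset ℕ} {H : Gr} :
    PCore (rl σ R) (rl σ U) (rg σ H) ↔ PCore R U H := by
  constructor
  · intro h
    exact ⟨(rtd_rg σ).mp h.rtd, (mac_rg σ).mp (by rw [rl_union]; exact h.mac)⟩
  · intro h
    exact ⟨(rtd_rg σ).mpr h.rtd, by rw [← rl_union]; exact (mac_rg σ).mpr h.mac⟩

theorem tsum_rm (σ : Equiv.Perm ℕ) {P Q : Gr × Finset (Finset ℕ) → Prop}
    (f g : Gr × Finset (Finset ℕ) → ℝ≥0∞)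
    (h : ∀ p, Q (rg σ p.1, rm σ p.2) ↔ P p) (hfg : ∀ p, g (rg σ p.1, rm σ p.2) = f p) :
    ∑' p : {p // P p}, f p.1 = ∑' p : {p // Q p}, g p.1 := by
  let e : {p // P p} ≃ {p // Q p} :=
    { toFun := fun p => ⟨(rg σ p.1.1, rm σ p.1.2), (h p.1).mpr p.2⟩
      invFun := fun p => ⟨(rg σ⁻¹ p.1.1, rm σ⁻¹ p.1.2), by
        rw [← h, (rg_symm σ p.1.1).2, rm_inv']
        exact p.2⟩
      left_inv := fun p => Subtype.ext (Prod.ext (rg_symm σ p.1.1).1 (rm_inv σ p.1.2))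
      right_inv := fun p => Subtype.ext (Prod.ext (rg_symm σ p.1.1).2 (rm_inv' σ p.1.2)) }
  rw [← Equiv.tsum_eq e]
  exact tsum_congr fun p => (hfg p.1).symm

theorem exists_st {s t : ℕ} {U : Finset ℕ} (h : s ≠ t) (hs : s ∉ U) (ht : t ∉ U) :
    ∃ σ : Equiv.Perm ℕ, σ s = 0 ∧ σ t = 1 ∧ rl σ U = Ico 2 (U.card + 2) :=
  exists_perm_st h hs ht (by decide) (by simp) (by simp) (by simp)

theorem exists_rt {R U : Finset ℕ} {k : ℕ} (hR : R.card = k) (hd : Disjoint R U) (R' : Finset ℕ)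
    (hR' : R'.card = k) (hlt : ∀ x ∈ R', x < k) :
    ∃ σ : Equiv.Perm ℕ, rl σ R = R' ∧ rl σ U = Ico k (U.card + k) :=
  exists_perm hd (by
    rw [Finset.disjoint_left]
    intro a ha hb
    have h1 := hlt a ha
    have h2 := (Finset.mem_Ico.mp hb).1
    omega) (by rw [hR, hR']) (by simp)

end RelCAux

open RelAux Rel2Aux RelCAux

variable {s t : ℕ} {U : Finset ℕ}

theorem net_count (h : s ≠ t) (hs : s ∉ U) (ht : t ∉ U) :
    ∑' _ : {G : Gr // Net s t U G}, (1 : ℝ≥0∞) = Q U.card := by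
  obtain ⟨σ, h0, h1, hU⟩ := exists_st h hs ht
  have hfin : Finite {G : Gr // Net 0 1 (Ico 2 (U.card + 2)) G} := by
    have := finite_on' (St 0 1 (Ico 2 (U.card + 2)))
    exact Finite.of_injective
      (fun G : {G : Gr // Net 0 1 (Ico 2 (U.card + 2)) G} =>
        (⟨G.1, G.2.on⟩ : {G : Gr // On G (St 0 1 (Ico 2 (U.card + 2)))}))
      (fun G H hGH => Subtype.ext (congrArg (fun x => x.1) hGH))
  have e := tsum_rg σ (P := fun G => Net s t U G)
    (Q := fun G => Net 0 1 (Ico 2 (U.card + 2)) G) (fun _ => 1) (fun _ => 1)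
    (fun G => by rw [← h0, ← h1, ← hU]; exact net_rg σ) (fun _ => rfl)
  rw [e, tsum_one_nat]
  rfl

theorem piece_count (h : s ≠ t) (hs : s ∉ U) (ht : t ∉ U) :
    ∑' _ : {G : Gr // Piece s t U G}, (1 : ℝ≥0∞) = nP U.card := by
  obtain ⟨σ, h0, h1, hU⟩ := exists_st h hs ht
  exact tsum_rg σ (P := fun G => Piece s t U G)
    (Q := fun G => Piece 0 1 (Ico 2 (U.card + 2)) G) (fun _ => 1) (fun _ => 1)
    (fun G => by rw [← h0, ← h1, ← hU]; exact piece_rg σ) (fun _ => rfl)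

theorem series_count (h : s ≠ t) (hs : s ∉ U) (ht : t ∉ U) :
    ∑' _ : {G : Gr // Series s t U G}, (1 : ℝ≥0∞) = nS U.card := by
  obtain ⟨σ, h0, h1, hU⟩ := exists_st h hs ht
  exact tsum_rg σ (P := fun G => Series s t U G)
    (Q := fun G => Series 0 1 (Ico 2 (U.card + 2)) G) (fun _ => 1) (fun _ => 1)
    (fun G => by rw [← h0, ← h1, ← hU]; exact series_rg σ) (fun _ => rfl)

theorem hpiece_count (h : s ≠ t) (hs : s ∉ U) (ht : t ∉ U) :
    ∑' _ : {G : Gr // HPiece s t U G}, (1 : ℝ≥0∞) = nH U.card := by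
  obtain ⟨σ, h0, h1, hU⟩ := exists_st h hs ht
  exact tsum_rg σ (P := fun G => HPiece s t U G)
    (Q := fun G => HPiece 0 1 (Ico 2 (U.card + 2)) G) (fun _ => 1) (fun _ => 1)
    (fun G => by
      rw [← h0, ← h1, ← hU]
      exact and_congr (piece_rg σ) (not_congr (series_rg σ))) (fun _ => rfl)

theorem rtd_count (z : ℝ≥0∞) {R : Finset ℕ} (hR : R.card = 2) (hd : Disjoint R U) :
    ∑' G : {G : Gr // Rtd R U G}, z ^ ecard R G.1 = nT z U.card := by
  obtain ⟨σ, h0, hU⟩ := exists_rt hR hd {0, 1} (by decide) (by decide)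
  exact tsum_rg σ (P := fun G => Rtd R U G)
    (Q := fun G => Rtd {0, 1} (Ico 2 (U.card + 2)) G) (fun G => z ^ ecard R G)
    (fun G => z ^ ecard {0, 1} G)
    (fun G => by rw [← h0, ← hU]; exact rtd_rg σ) (fun G => by rw [← h0, ecard_rg])

theorem branch_count (z : ℝ≥0∞) {R : Finset ℕ} (hR : R.card = 3) (hd : Disjoint R U) :
    ∑' G : {G : Gr // Branch R U G}, z ^ G.1.edgeSet.ncard = nB z U.card := by
  obtain ⟨σ, h0, hU⟩ := exists_rt hR hd {0, 1, 2} (by decide) (by decide)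
  exact tsum_rg σ (P := fun G => Branch R U G)
    (Q := fun G => Branch {0, 1, 2} (Ico 3 (U.card + 3)) G) (fun G => z ^ G.edgeSet.ncard)
    (fun G => z ^ G.edgeSet.ncard)
    (fun G => by rw [← h0, ← hU]; exact branch_rg σ) (fun G => by rw [ncard_rg])

theorem msum_count (z w τ : ℝ≥0∞) {R R' U' : Finset ℕ} (hR : R.card = R'.card)
    (hU : U.card = U'.card) (hd : Disjoint R U) (hd' : Disjoint R' U') :
    msum z w τ R U = msum z w τ R' U' ∧ msum0 z w τ R U = msum0 z w τ R' U' := by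
  obtain ⟨σ, rfl, rfl⟩ := exists_perm hd hd' hR hU
  constructor
  · exact tsum_rm σ
      (P := fun p => PCore R U p.1 ∧ ∀ X ∈ p.2, NT p.1 (R ∪ U) X ∧ X ≠ R)
      (Q := fun p => PCore (rl σ R) (rl σ U) p.1 ∧
        ∀ X ∈ p.2, NT p.1 (rl σ R ∪ rl σ U) X ∧ X ≠ rl σ R)
      (fun p => mwt z w τ R p.1 p.2) (fun p => mwt z w τ (rl σ R) p.1 p.2)
      (fun p => by
        refine and_congr (pcore_rg σ) ?_
        rw [all_rm]
        refine forall₂_congr fun X _ => ?_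
        rw [← rl_union, nt_rg, Ne, rl_inj])
      (fun p => mwt_rg σ z w τ R p.1 p.2)
  · exact tsum_rm σ
      (P := fun p => PCore R U p.1 ∧ ∀ X ∈ p.2, NT p.1 (R ∪ U) X ∧ ¬ R ⊆ X)
      (Q := fun p => PCore (rl σ R) (rl σ U) p.1 ∧
        ∀ X ∈ p.2, NT p.1 (rl σ R ∪ rl σ U) X ∧ ¬ rl σ R ⊆ X)
      (fun p => mwt z w τ R p.1 p.2) (fun p => mwt z w τ (rl σ R) p.1 p.2)
      (fun p => by
        refine and_congr (pcore_rg σ) ?_
        rw [all_rm]
        refine forall₂_congr fun X _ => ?_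
        rw [← rl_union, nt_rg, rl_subset])
      (fun p => mwt_rg σ z w τ R p.1 p.2)

end K5
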