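import Pool.Agent.Lib.K5.BRel
import Pool.Agent.Lib.K5.RelC

/-!
# K5.BEdge: blocks with a root edge are networks (double counting)

1. `bb_card`: let `v ∈ S`; `BB S G ↔ BK v (S.erase v) G` (`insert v (S.erase v) = S`), `bk_count`.
2. `bb_net`: for `a ≠ b` in `S`: `BB S G ∧ G.Adj a b ↔ Net a b ((S.erase a).erase b) G`, since `St a b ((S.erase a).erase b) = S`.
3. `dg_sum`: `dg G S = ∑ a ∈ S, ∑ b ∈ S, if G.Adj a b then 1 else 0` (`Finset.card_filter`); exchange the sums (the type `{G // BB S G}` is finite: `tsum_fintype`, `Finset.sum_comm`; or `Summable.tsum_finsetSum ENNReal.summable`). For `a = b` the inner sum over `G` vanishes,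
   for `a ≠ b` it is the number of the `G` with `BB S G ∧ G.Adj a b`, so by 2 and `net_count` (RelC) it is `Q (S.card - 2)`. There are `S.card * (S.card - 1)` ordered pairs (`Finset.offDiag_card`).
-/

namespace K5

open Finset
open scoped ENNReal

namespace BEdgeAux

theorem bb_bk {S : Finset ℕ} {v : ℕ} (hv : v ∈ S) (G : Gr) : BB S G ↔ BK v (S.erase v) G := by
  have e : insert v (S.erase v) = S := Finset.insert_erase hv
  constructor
  · intro h
    exact ⟨Finset.notMem_erase v S, by rw [e]; exact h.on, by rw [e]; exact h.blk, h.free⟩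
  · intro h
    have h1 := h.on
    have h2 := h.blk
    rw [e] at h1 h2
    exact ⟨h1, h2, h.free⟩

theorem st_eq {S : Finset ℕ} {a b : ℕ} (ha : a ∈ S) (hb : b ∈ S) (hab : a ≠ b) :
    St a b ((S.erase a).erase b) = S := by
  have hb' : b ∈ S.erase a := Finset.mem_erase.2 ⟨hab.symm, hb⟩
  unfold St
  rw [Finset.insert_erase hb', Finset.insert_erase ha]

end BEdgeAux

open BEdgeAux

theorem bb_card {S : Finset ℕ} (hS : S.Nonempty) :
    Nat.card {G : Gr // BB S G} = bC (S.card - 1) := by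
  obtain ⟨v, hv⟩ := hS
  rw [← Finset.card_erase_of_mem hv, ← bk_count (v := v) (U := S.erase v)
    (Finset.notMem_erase v S)]
  exact Nat.card_congr (Equiv.subtypeEquivRight (fun G => bb_bk hv G))

theorem bb_net {S : Finset ℕ} {a b : ℕ} (ha : a ∈ S) (hb : b ∈ S) (hab : a ≠ b) (G : Gr) :
    BB S G ∧ G.Adj a b ↔ Net a b ((S.erase a).erase b) G := by
  have e := st_eq ha hb hab
  constructor
  · rintro ⟨h, hadj⟩
    exact ⟨hab, by simp, by simp, by rw [e]; exact h.on, hadj, by rw [e]; exact h.blk, h.free⟩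
  · intro h
    have h1 := h.on
    have h2 := h.blk
    rw [e] at h1 h2
    exact ⟨⟨h1, h2, h.free⟩, h.adj⟩

namespace BEdgeAux

open Classical in
theorem dg_eq (G : Gr) (S : Finset ℕ) :
    (dg G S : ℝ≥0∞) = ∑ a ∈ S, ∑ b ∈ S, if G.Adj a b then (1 : ℝ≥0∞) else 0 := by
  unfold dg
  rw [Nat.cast_sum]
  refine Finset.sum_congr rfl (fun a _ => ?_)
  rw [Finset.card_filter, Nat.cast_sum]
  refine Finset.sum_congr rfl (fun b _ => ?_)
  split_ifs <;> simp

open Classical in
theorem inner {S : Finset ℕ} {a b : ℕ} (ha : a ∈ S) (hb : b ∈ S) :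
    ∑' G : {G : Gr // BB S G}, (if G.1.Adj a b then (1 : ℝ≥0∞) else 0) =
      if a = b then 0 else (Q (S.card - 2) : ℝ≥0∞) := by
  by_cases hab : a = b
  · subst hab
    rw [if_pos rfl]
    refine ENNReal.tsum_eq_zero.2 (fun G => if_neg (fun h => h.ne rfl))
  · rw [if_neg hab]
    have hb' : b ∈ S.erase a := Finset.mem_erase.2 ⟨fun h => hab h.symm, hb⟩
    have hc : ((S.erase a).erase b).card = S.card - 2 := by
      rw [Finset.card_erase_of_mem hb', Finset.card_erase_of_mem ha]
      omega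
    have h1 := net_count (s := a) (t := b) (U := (S.erase a).erase b) hab (by simp) (by simp)
    rw [hc] at h1
    rw [← h1]
    have h2 := _root_.tsum_subtype {G : {G : Gr // BB S G} | G.1.Adj a b}
      (fun _ => (1 : ℝ≥0∞))
    have h3 : ∑' G : {G : Gr // BB S G}, (if G.1.Adj a b then (1 : ℝ≥0∞) else 0) =
        ∑' _ : ({G : {G : Gr // BB S G} | G.1.Adj a b} : Set _), (1 : ℝ≥0∞) := by
      rw [h2]
      refine tsum_congr (fun G => ?_)
      by_cases hG : G.1.Adj a b
      · rw [if_pos hG, Set.indicator_of_mem (by exact hG)]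
      · rw [if_neg hG, Set.indicator_of_notMem (by exact hG)]
    rw [h3]
    let e : ({G : {G : Gr // BB S G} | G.1.Adj a b} : Set _) ≃
        {G : Gr // Net a b ((S.erase a).erase b) G} :=
      { toFun := fun G => ⟨G.1.1, (bb_net ha hb hab G.1.1).1 ⟨G.1.2, G.2⟩⟩
        invFun := fun G => ⟨⟨G.1, ((bb_net ha hb hab G.1).2 G.2).1⟩,
          ((bb_net ha hb hab G.1).2 G.2).2⟩
        left_inv := fun G => rfl
        right_inv := fun G => rfl }
    rw [← Equiv.tsum_eq e]

end BEdgeAux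

theorem dg_sum {S : Finset ℕ} (hS : 2 ≤ S.card) :
    ∑' G : {G : Gr // BB S G}, (dg G.1 S : ℝ≥0∞) =
      ((S.card * (S.card - 1) * Q (S.card - 2) : ℕ) : ℝ≥0∞) := by
  classical
  rw [tsum_congr (fun G : {G : Gr // BB S G} => dg_eq G.1 S),
    Summable.tsum_finsetSum (fun _ _ => ENNReal.summable)]
  have h1 : ∀ a ∈ S, (∑' G : {G : Gr // BB S G}, ∑ b ∈ S, if G.1.Adj a b then (1 : ℝ≥0∞) else 0) =
      ((S.card - 1 : ℕ) : ℝ≥0∞) * (Q (S.card - 2) : ℝ≥0∞) := by
    intro a ha
    rw [Summable.tsum_finsetSum (fun _ _ => ENNReal.summable),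
      Finset.sum_congr rfl (fun b hb => inner ha hb),
      ← Finset.sum_erase_add S _ ha, if_pos rfl, add_zero,
      Finset.sum_congr rfl (fun b hb => if_neg (Finset.ne_of_mem_erase hb).symm),
      Finset.sum_const, Finset.card_erase_of_mem ha, nsmul_eq_mul]
  rw [Finset.sum_congr rfl h1, Finset.sum_const, nsmul_eq_mul]
  push_cast
  ring

end K5
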