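import Pool.Agent.Lib.K5.CLFam

/-!
# K5.CLExp: set partitions and the exponential function

`F⁺ n = F n` for `n ≥ 1`, `F⁺ 0 = 0`.
1. `sum_prt`, `sum_prt2`: the sums over `Finpartition U` depend only on `U.card` (transport along a bijection of `U` with `range U.card`; `Finpartition` of images).
2. `fam_prt`: for every `k`: `fam F⁺ k n = k! * ∑_{π, |π.parts| = k} ∏_{A ∈ π.parts} F |A|`: a map `f : Fin n → Fin k` contributes only if it is surjective (an empty fibre gives `F⁺ 0 = 0`); the fibres of a surjective map form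
   a partition with `k` parts, and every partition with `k` parts comes from exactly `k!` surjective maps (the bijections of `Fin k` with the parts).
3. `egf_prt`: `prt F n = ∑_k fam F⁺ k n / k!` (finitely many `k ≤ n` or all `k`), so `egf (prt F) x = ∑' k, (egf F⁺ x)^k / k! = eexp (egf F⁺ x)` (`ENNReal.tsum_comm`, `egf_fam`).
4. `egf_prt2`: the parts with `k ≥ 2`: `egf (prt2 F) x + egf F⁺ x + 1 = eexp (egf F⁺ x)` (`k = 0`: only `n = 0`, the empty partition; `k = 1`: the partition with one part, `n ≥ 1`).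
-/

namespace K5

open Finset
open scoped ENNReal

/-- `F` with the value at `0` replaced by `0`. -/
noncomputable def pos (F : ℕ → ℝ≥0∞) (n : ℕ) : ℝ≥0∞ := if n = 0 then 0 else F n

/-- The map of a partition with numbered parts. -/
noncomputable def CLExpAux.mp {U : Finset ℕ} {k : ℕ} (π : Finpartition U) (e : π.parts ≃ Fin k)
    (x : U) : Fin k := e ⟨π.part x.1, π.part_mem.2 x.2⟩

theorem CLExpAux.mp_eq {U : Finset ℕ} {k : ℕ} (π : Finpartition U) (e : π.parts ≃ Fin k)
    (x : U) (A : π.parts) : CLExpAux.mp π e x = e A ↔ x.1 ∈ A.1 := by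
  unfold CLExpAux.mp
  rw [EmbeddingLike.apply_eq_iff_eq, ← π.part_eq_iff_mem A.2, Subtype.ext_iff]

theorem CLExpAux.mp_surj {U : Finset ℕ} {k : ℕ} (π : Finpartition U) (e : π.parts ≃ Fin k) :
    Function.Surjective (CLExpAux.mp π e) := by
  intro i
  obtain ⟨x, hx⟩ := π.nonempty_of_mem_parts (e.symm i).2
  refine ⟨⟨x, π.subset (e.symm i).2 hx⟩, ?_⟩
  have := (CLExpAux.mp_eq π e ⟨x, π.subset (e.symm i).2 hx⟩ (e.symm i)).2 hx
  rw [this, Equiv.apply_symm_apply]

/-- The fibre of a map, as a subset of `U`. -/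
def CLExpAux.fib {U : Finset ℕ} {k : ℕ} (f : U → Fin k) (i : Fin k) : Finset ℕ :=
  (univ.filter (fun x : U => f x = i)).map (Function.Embedding.subtype _)

theorem CLExpAux.mem_fib {U : Finset ℕ} {k : ℕ} (f : U → Fin k) (i : Fin k) (x : ℕ) :
    x ∈ CLExpAux.fib f i ↔ ∃ h : x ∈ U, f ⟨x, h⟩ = i := by
  unfold CLExpAux.fib
  simp

theorem CLExpAux.fib_mp {U : Finset ℕ} {k : ℕ} (π : Finpartition U) (e : π.parts ≃ Fin k)
    (A : π.parts) : CLExpAux.fib (CLExpAux.mp π e) (e A) = A.1 := by
  ext x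
  rw [CLExpAux.mem_fib]
  constructor
  · rintro ⟨h, h2⟩
    exact (CLExpAux.mp_eq π e ⟨x, h⟩ A).1 h2
  · intro h
    exact ⟨π.subset A.2 h, (CLExpAux.mp_eq π e ⟨x, π.subset A.2 h⟩ A).2 h⟩

theorem CLExpAux.parts_mp {U : Finset ℕ} {k : ℕ} (π : Finpartition U) (e : π.parts ≃ Fin k) :
    π.parts = univ.image (CLExpAux.fib (CLExpAux.mp π e)) := by
  ext A
  rw [Finset.mem_image]
  constructor
  · intro hA
    exact ⟨e ⟨A, hA⟩, Finset.mem_univ _, CLExpAux.fib_mp π e ⟨A, hA⟩⟩
  · rintro ⟨i, -, rfl⟩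
    have := CLExpAux.fib_mp π e (e.symm i)
    rw [Equiv.apply_symm_apply] at this
    rw [this]
    exact (e.symm i).2

/-- The partition of a surjective map. -/
def CLExpAux.pt {U : Finset ℕ} {k : ℕ} (f : U → Fin k) (hf : Function.Surjective f) :
    Finpartition U :=
  Finpartition.ofExistsUnique (univ.image (CLExpAux.fib f))
    (by
      intro p hp
      rw [Finset.mem_image] at hp
      obtain ⟨i, -, rfl⟩ := hp
      intro x hx
      exact ((CLExpAux.mem_fib f i x).1 hx).1)
    (by
      intro x hx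
      refine ⟨CLExpAux.fib f (f ⟨x, hx⟩), ⟨Finset.mem_image_of_mem _ (Finset.mem_univ _),
        (CLExpAux.mem_fib f _ x).2 ⟨hx, rfl⟩⟩, ?_⟩
      rintro B ⟨hB, hxB⟩
      rw [Finset.mem_image] at hB
      obtain ⟨i, -, rfl⟩ := hB
      obtain ⟨h, h2⟩ := (CLExpAux.mem_fib f i x).1 hxB
      rw [h2])
    (by
      intro h
      rw [Finset.mem_image] at h
      obtain ⟨i, -, hi⟩ := h
      obtain ⟨x, hx⟩ := hf i
      have : x.1 ∈ CLExpAux.fib f i := (CLExpAux.mem_fib f i x.1).2 ⟨x.2, hx⟩
      rw [hi] at this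
      exact absurd this (Finset.notMem_empty _))

theorem CLExpAux.fib_inj {U : Finset ℕ} {k : ℕ} (f : U → Fin k) (hf : Function.Surjective f) :
    Function.Injective (CLExpAux.fib f) := by
  intro i j hij
  obtain ⟨x, hx⟩ := hf i
  have h1 : x.1 ∈ CLExpAux.fib f i := (CLExpAux.mem_fib f i x.1).2 ⟨x.2, hx⟩
  rw [hij] at h1
  obtain ⟨_, h2⟩ := (CLExpAux.mem_fib f j x.1).1 h1
  rw [← hx, ← h2]

theorem CLExpAux.main (F : ℕ → ℝ≥0∞) (k : ℕ) (U : Finset ℕ) :
    fam (pos F) k U.card = (k.factorial : ℝ≥0∞) *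
      ∑ π : Finpartition U, if π.parts.card = k then ∏ A ∈ π.parts, F A.card else 0 := by
  classical
  have h0 := sum_fam (pos F) (α := U) (ι := Fin k)
  rw [Fintype.card_coe, Fintype.card_fin] at h0
  rw [← h0, ← Finset.sum_filter, Finset.mul_sum]
  have h1 : ∑ f : U → Fin k, ∏ i, pos F (univ.filter (fun j => f j = i)).card =
      ∑ f ∈ univ.filter (fun f : U → Fin k => Function.Surjective f),
        ∏ i, pos F (univ.filter (fun j => f j = i)).card := by
    symm
    refine Finset.sum_subset (Finset.filter_subset _ _) ?_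
    intro f _ hf
    rw [Finset.mem_filter] at hf
    have hf' : ¬ Function.Surjective f := fun h => hf ⟨Finset.mem_univ _, h⟩
    unfold Function.Surjective at hf'
    push Not at hf'
    obtain ⟨i, hi⟩ := hf'
    refine Finset.prod_eq_zero (Finset.mem_univ i) ?_
    have : univ.filter (fun j => f j = i) = ∅ := by
      rw [Finset.filter_eq_empty_iff]
      intro j _
      exact hi j
    rw [this, Finset.card_empty]
    unfold pos
    simp
  have h2 : ∀ π ∈ univ.filter (fun π : Finpartition U => π.parts.card = k),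
      (k.factorial : ℝ≥0∞) * ∏ A ∈ π.parts, F A.card =
        ∑ e : π.parts ≃ Fin k, ∏ i, pos F
          (univ.filter (fun j => CLExpAux.mp π e j = i)).card := by
    intro π hπ
    rw [Finset.mem_filter] at hπ
    have hc : Fintype.card (π.parts ≃ Fin k) = k.factorial := by
      have e0 : π.parts ≃ Fin k := by
        refine Fintype.equivOfCardEq ?_
        rw [Fintype.card_coe, Fintype.card_fin]
        exact hπ.2
      rw [Fintype.card_equiv e0, Fintype.card_coe, hπ.2]
    have h3 : ∀ e : π.parts ≃ Fin k, ∏ i, pos F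
          (univ.filter (fun j => CLExpAux.mp π e j = i)).card = ∏ A ∈ π.parts, F A.card := by
      intro e
      rw [← Finset.prod_coe_sort π.parts (fun A => F A.card)]
      symm
      refine Fintype.prod_equiv e _ _ ?_
      intro A
      have h4 : (univ.filter (fun j => CLExpAux.mp π e j = e A)).card = A.1.card := by
        have := congrArg Finset.card (CLExpAux.fib_mp π e A)
        unfold CLExpAux.fib at this
        rw [Finset.card_map] at this
        exact this
      rw [h4]
      unfold pos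
      have : A.1.card ≠ 0 := by
        rw [Finset.card_ne_zero]
        exact π.nonempty_of_mem_parts A.2
      rw [if_neg this]
    rw [Finset.sum_congr rfl fun e _ => h3 e, Finset.sum_const, nsmul_eq_mul, Finset.card_univ, hc]
  rw [h1, Finset.sum_congr rfl h2, Finset.sum_sigma']
  symm
  refine Finset.sum_bij (fun p _ => CLExpAux.mp p.1 p.2) ?_ ?_ ?_ ?_
  · intro p _
    rw [Finset.mem_filter]
    exact ⟨Finset.mem_univ _, CLExpAux.mp_surj p.1 p.2⟩
  · rintro ⟨π, e⟩ _ ⟨π', e'⟩ _ h
    simp only at h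
    have hp : π = π' := by
      ext1
      rw [CLExpAux.parts_mp π e, CLExpAux.parts_mp π' e', h]
    subst hp
    congr 1
    ext A
    have h5 := CLExpAux.fib_mp π e A
    obtain ⟨x, hx⟩ := π.nonempty_of_mem_parts A.2
    have hxU := π.subset A.2 hx
    have h6 := (CLExpAux.mp_eq π e ⟨x, hxU⟩ A).2 hx
    have h7 := (CLExpAux.mp_eq π e' ⟨x, hxU⟩ A).2 hx
    rw [← h6, ← h7, h]
  · intro f hf
    rw [Finset.mem_filter] at hf
    have hs := hf.2
    have hinj := CLExpAux.fib_inj f hs
    have hpts : (CLExpAux.pt f hs).parts = univ.image (CLExpAux.fib f) := rfl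
    let e1 : Fin k ≃ (CLExpAux.pt f hs).parts := Equiv.ofBijective
      (fun i => ⟨CLExpAux.fib f i, by
        rw [hpts]
        exact Finset.mem_image_of_mem _ (Finset.mem_univ _)⟩) (by
        constructor
        · intro i j hij
          exact hinj (Subtype.ext_iff.1 hij)
        · rintro ⟨A, hA⟩
          rw [hpts, Finset.mem_image] at hA
          obtain ⟨i, -, rfl⟩ := hA
          exact ⟨i, rfl⟩)
    refine ⟨⟨CLExpAux.pt f hs, e1.symm⟩, ?_, ?_⟩
    · rw [Finset.mem_sigma, Finset.mem_filter]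
      refine ⟨⟨Finset.mem_univ _, ?_⟩, Finset.mem_univ _⟩
      rw [hpts, Finset.card_image_of_injective _ hinj, Finset.card_univ, Fintype.card_fin]
    · funext x
      have h8 : x.1 ∈ (e1 (f x)).1 := (CLExpAux.mem_fib f (f x) x.1).2 ⟨x.2, rfl⟩
      have h9 := (CLExpAux.mp_eq (CLExpAux.pt f hs) e1.symm x (e1 (f x))).2 h8
      rw [Equiv.symm_apply_apply] at h9
      exact h9
  · intro p _
    rfl

theorem CLExpAux.coef (F : ℕ → ℝ≥0∞) (k : ℕ) (U : Finset ℕ) :
    (∑ π : Finpartition U, if π.parts.card = k then ∏ A ∈ π.parts, F A.card else 0) =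
      fam (pos F) k U.card / (k.factorial : ℝ≥0∞) := by
  have h1 : (k.factorial : ℝ≥0∞) ≠ 0 := by
    exact_mod_cast Nat.factorial_ne_zero k
  have h2 : (k.factorial : ℝ≥0∞) ≠ ⊤ := ENNReal.natCast_ne_top _
  rw [CLExpAux.main, mul_comm, ENNReal.mul_div_cancel_right h1 h2]

theorem CLExpAux.swap (F : ℕ → ℝ≥0∞) (P : ℕ → Prop) [DecidablePred P] (U : Finset ℕ) :
    (∑ π : Finpartition U, if P π.parts.card then ∏ A ∈ π.parts, F A.card else 0) =
      ∑' k : ℕ, if P k then fam (pos F) k U.card / (k.factorial : ℝ≥0∞) else 0 := by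
  have h1 : ∀ π : Finpartition U,
      (if P π.parts.card then ∏ A ∈ π.parts, F A.card else 0) =
        ∑' k : ℕ, if P k then (if π.parts.card = k then ∏ A ∈ π.parts, F A.card else 0)
          else 0 := by
    intro π
    rw [tsum_eq_single π.parts.card]
    · simp
    · intro k hk
      have : (if π.parts.card = k then ∏ A ∈ π.parts, F A.card else 0) = 0 :=
        if_neg (fun h => hk h.symm)
      rw [this]
      exact ite_self _
  rw [Finset.sum_congr rfl fun π _ => h1 π, ← tsum_fintype (L := .unconditional _),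
    ENNReal.tsum_comm]
  refine tsum_congr fun k => ?_
  rw [tsum_fintype]
  by_cases hP : P k
  · simp only [if_pos hP]
    rw [CLExpAux.coef]
  · simp only [if_neg hP]
    exact Finset.sum_const_zero

theorem sum_prt (F : ℕ → ℝ≥0∞) (U : Finset ℕ) :
    ∑ π : Finpartition U, ∏ A ∈ π.parts, F A.card = prt F U.card := by
  have h1 := CLExpAux.swap F (fun _ => True) U
  have h2 := CLExpAux.swap F (fun _ => True) (range U.card)
  rw [Finset.card_range] at h2
  simp only [if_true] at h1 h2
  unfold prt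
  rw [h1, h2]

theorem sum_prt2 (F : ℕ → ℝ≥0∞) (U : Finset ℕ) :
    ∑ π : Finpartition U, (if 2 ≤ π.parts.card then ∏ A ∈ π.parts, F A.card else 0) =
      prt2 F U.card := by
  have h1 := CLExpAux.swap F (fun k => 2 ≤ k) U
  have h2 := CLExpAux.swap F (fun k => 2 ≤ k) (range U.card)
  rw [Finset.card_range] at h2
  unfold prt2
  rw [h1, h2]

theorem fam_prt (F : ℕ → ℝ≥0∞) (k n : ℕ) :
    fam (pos F) k n = (k.factorial : ℝ≥0∞) *
      ∑ π : Finpartition (range n), if π.parts.card = k then ∏ A ∈ π.parts, F A.card else 0 := by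
  have := CLExpAux.main F k (range n)
  rw [Finset.card_range] at this
  exact this

theorem CLExpAux.egf_gen (F G : ℕ → ℝ≥0∞) (P : ℕ → Prop) [DecidablePred P] (x : ℝ≥0∞)
    (hG : ∀ n, G n = ∑' k : ℕ, if P k then fam (pos F) k n / (k.factorial : ℝ≥0∞) else 0) :
    egf G x = ∑' k : ℕ, if P k then egf (pos F) x ^ k / (k.factorial : ℝ≥0∞) else 0 := by
  unfold egf
  simp only [hG]
  simp only [← ENNReal.tsum_mul_left]
  rw [ENNReal.tsum_comm]
  refine tsum_congr fun k => ?_
  by_cases hP : P k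
  · simp only [if_pos hP]
    have h1 := egf_fam (pos F) k x
    unfold egf at h1
    rw [← h1]
    simp only [div_eq_mul_inv]
    rw [← ENNReal.tsum_mul_right]
    refine tsum_congr fun n => ?_
    ring
  · simp only [if_neg hP, mul_zero, tsum_zero]

theorem egf_prt (F : ℕ → ℝ≥0∞) (x : ℝ≥0∞) : egf (prt F) x = eexp (egf (pos F) x) := by
  have h := CLExpAux.egf_gen F (prt F) (fun _ => True) x (by
    intro n
    have h2 := CLExpAux.swap F (fun _ => True) (range n)
    rw [Finset.card_range] at h2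
    rw [← h2]
    simp only [if_true]
    rfl)
  simp only [if_true] at h
  exact h

theorem egf_prt2 (F : ℕ → ℝ≥0∞) (x : ℝ≥0∞) :
    egf (prt2 F) x + egf (pos F) x + 1 = eexp (egf (pos F) x) := by
  have h := CLExpAux.egf_gen F (prt2 F) (fun k => 2 ≤ k) x (by
    intro n
    have h2 := CLExpAux.swap F (fun k => 2 ≤ k) (range n)
    rw [Finset.card_range] at h2
    rw [← h2]
    rfl)
  rw [h]
  unfold eexp
  set y := egf (pos F) x
  have h1 : ∀ c : ℕ → ℝ≥0∞, ∑' k, c k = c 0 + (c 1 + ∑' k, c (k + 2)) := by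
    intro c
    rw [tsum_eq_zero_add' ENNReal.summable, tsum_eq_zero_add' ENNReal.summable]
  rw [h1 (fun k => if 2 ≤ k then y ^ k / (k.factorial : ℝ≥0∞) else 0),
    h1 (fun k => y ^ k / (k.factorial : ℝ≥0∞))]
  have h2 : ∀ k : ℕ, (if 2 ≤ k + 2 then y ^ (k + 2) / ((k + 2).factorial : ℝ≥0∞) else 0) =
      y ^ (k + 2) / ((k + 2).factorial : ℝ≥0∞) := by
    intro k
    rw [if_pos (by omega)]
  simp only [h2]
  simp only [show ¬ (2 ≤ 0) by omega, show ¬ (2 ≤ 1) by omega, if_false, zero_add, pow_zero,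
    Nat.factorial_zero, Nat.cast_one, div_one, pow_one, Nat.factorial_one]
  ring

theorem eexp_ofReal {a : ℝ} (ha : 0 ≤ a) : eexp (.ofReal a) = .ofReal (Real.exp a) := by
  have hs : HasSum (fun n : ℕ => a ^ n / (n.factorial : ℝ)) (Real.exp a) := by
    rw [Real.exp_eq_exp_ℝ]
    exact NormedSpace.expSeries_div_hasSum_exp a
  unfold eexp
  rw [← hs.tsum_eq, ENNReal.ofReal_tsum_of_nonneg (fun n => by positivity) hs.summable]
  refine tsum_congr fun n => ?_
  rw [ENNReal.ofReal_div_of_pos (by positivity), ENNReal.ofReal_pow ha, ENNReal.ofReal_natCast]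

theorem eexp_top : eexp ⊤ = ⊤ := by
  unfold eexp
  have h := ENNReal.le_tsum (f := fun k : ℕ => (⊤ : ℝ≥0∞) ^ k / (k.factorial : ℝ≥0∞)) 1
  simp only [pow_one, Nat.factorial_one, Nat.cast_one, div_one] at h
  exact top_le_iff.1 h

theorem eexp_mono {a b : ℝ≥0∞} (h : a ≤ b) : eexp a ≤ eexp b := by
  unfold eexp
  refine ENNReal.tsum_le_tsum fun k => ?_
  gcongr

end K5
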