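import Pool.Agent.Lib.K5.BDefs
import Pool.Agent.Lib.K5.CLExp

/-!
# K5.BEgf: composition of generating functions

`trc F N` is `F` cut off above `N`.
1. `egf_comp`: `egf_pair` (CLMul) with `g a b = b a * fam F a b`, then `∑' b, x^b/b! * fam F a b = egf (fam F a) x = egf F x ^ a` (`egf_fam`), `ENNReal.tsum_mul_left`, `x ^ a * (egf F x) ^ a = (x * egf F x) ^ a`.
2. `prt_trc`: for `n ≤ N`, `prt F n = prt (trc F N) n`: all parts of a partition of `range n` have at most `n` elements.
3. `comp_trc`: let `β 0 = 0`; for `n ≤ N + 1`, `W ⊆ range n`: `β |W| * fam F |W| |range n \ W| = β |W| * fam (trc F N) |W| |range n \ W|`: if `W` is nonempty the fibres have at most `n - 1 ≤ N` elements, if `W` is empty `β 0 = 0`.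
4. `egf_step`: let `r = prt p` and `p n = ∑_W β |W| * fam r |W| |range n \ W|`, `β 0 = 0`, `p 0 = 0`. Then `egf (trc r (N + 1)) x ≤ egf (prt (trc p (N + 1))) x` (2; for `n > N + 1` the left coefficient is `0`) `= eexp (egf (pos (trc p (N + 1))) x)` (`egf_prt`)
   and `pos (trc p (N + 1)) n ≤ ∑_W β |W| * fam (trc r N) |W| |range n \ W|` by 3 for `n ≤ N + 1` (trivial for larger `n`), whose egf is `egf β (x * egf (trc r N) x)` by 1; `eexp_mono`, `egf_mono`.
5. `egf_block`: the same without truncation: `egf r x = eexp (egf (pos p) x)`, `pos p = p` since `p 0 = 0`, `egf p x = egf β (x * egf r x)`.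
-/

namespace K5

open Finset
open scoped ENNReal

/-- `F` cut off above `N`. -/
noncomputable def trc (F : ℕ → ℝ≥0∞) (N n : ℕ) : ℝ≥0∞ := if n ≤ N then F n else 0

namespace BEgfAux

theorem prt_trc (F : ℕ → ℝ≥0∞) (N n : ℕ) (h : n ≤ N) : prt F n = prt (trc F N) n := by
  unfold prt
  refine Finset.sum_congr rfl fun π _ => Finset.prod_congr rfl fun A hA => ?_
  have h1 : A.card ≤ (range n).card := Finset.card_le_card (π.le hA)
  rw [Finset.card_range] at h1
  unfold trc
  rw [if_pos (h1.trans h)]

theorem fam_trc (F : ℕ → ℝ≥0∞) (N m n : ℕ) (h : n ≤ N) : fam F m n = fam (trc F N) m n := by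
  unfold fam
  refine Finset.sum_congr rfl fun f _ => Finset.prod_congr rfl fun i _ => ?_
  have h1 : (univ.filter (fun j => f j = i)).card ≤ (univ : Finset (Fin n)).card :=
    Finset.card_le_card (Finset.filter_subset _ _)
  rw [Finset.card_univ, Fintype.card_fin] at h1
  unfold trc
  rw [if_pos (h1.trans h)]

theorem prt_zero (F : ℕ → ℝ≥0∞) : prt F 0 ≤ 1 := by
  have hp : ∀ π : Finpartition (range 0), π.parts = ∅ := fun π =>
    π.parts_eq_empty_iff.mpr rfl
  have hs : Subsingleton (Finpartition (range 0)) :=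
    ⟨fun a b => Finpartition.ext ((hp a).trans (hp b).symm)⟩
  unfold prt
  calc ∑ π : Finpartition (range 0), ∏ A ∈ π.parts, F A.card
      = ∑ _π : Finpartition (range 0), (1 : ℝ≥0∞) :=
        Finset.sum_congr rfl fun π _ => by rw [hp π, Finset.prod_empty]
    _ = (Fintype.card (Finpartition (range 0)) : ℝ≥0∞) := by
        rw [Finset.sum_const, Finset.card_univ, nsmul_eq_mul, mul_one]
    _ ≤ 1 := by
        have h1 := Fintype.card_le_one_iff_subsingleton.mpr hs
        exact_mod_cast h1

end BEgfAux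

theorem egf_comp (β F : ℕ → ℝ≥0∞) (x : ℝ≥0∞) :
    egf (fun n => ∑ W ∈ (range n).powerset, β W.card * fam F W.card (range n \ W).card) x =
      egf β (x * egf F x) := by
  have h1 := egf_pair (fun a b => β a * fam F a b) x
  refine h1.trans ?_
  unfold egf
  refine tsum_congr fun a => ?_
  have h2 := egf_fam F a x
  unfold egf at h2
  have h3 : ∀ b : ℕ, (x ^ a / (a.factorial : ℝ≥0∞)) *
      ((x ^ b / (b.factorial : ℝ≥0∞)) * (β a * fam F a b)) =
      (x ^ a / (a.factorial : ℝ≥0∞) * β a) * ((x ^ b / (b.factorial : ℝ≥0∞)) * fam F a b) :=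
    fun b => by ring
  rw [tsum_congr h3, ENNReal.tsum_mul_left, h2, mul_pow, div_eq_mul_inv, div_eq_mul_inv]
  ring

/-- The system of equations. -/
structure Sys (β p r : ℕ → ℝ≥0∞) : Prop where
  b0 : β 0 = 0
  p0 : p 0 = 0
  hr : ∀ n, r n = prt p n
  hp : ∀ n, p n = ∑ W ∈ (range n).powerset, β W.card * fam r W.card (range n \ W).card

theorem Sys.egf_block {β p r : ℕ → ℝ≥0∞} (h : Sys β p r) (x : ℝ≥0∞) :
    egf r x = eexp (egf β (x * egf r x)) := by
  have h1 : r = prt p := funext h.hr
  have h2 : pos p = p := by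
    funext n
    unfold pos
    by_cases hn : n = 0
    · rw [if_pos hn, hn, h.p0]
    · rw [if_neg hn]
  have h3 : egf p x = egf β (x * egf r x) := by
    rw [← egf_comp]
    congr 1
    exact funext h.hp
  calc egf r x = egf (prt p) x := by rw [← h1]
    _ = eexp (egf (pos p) x) := egf_prt p x
    _ = eexp (egf β (x * egf r x)) := by rw [h2, h3]

theorem Sys.egf_zero {β p r : ℕ → ℝ≥0∞} (h : Sys β p r) (x : ℝ≥0∞) :
    egf (trc r 0) x ≤ 1 := by
  have h1 : egf (trc r 0) x = r 0 := by
    unfold egf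
    rw [tsum_eq_single 0]
    · unfold trc
      rw [if_pos le_rfl, pow_zero, Nat.factorial_zero, Nat.cast_one, div_one, one_mul]
    · intro n hn
      unfold trc
      rw [if_neg (fun h2 => hn (Nat.le_zero.mp h2)), mul_zero]
  rw [h1, h.hr]
  exact BEgfAux.prt_zero p

theorem Sys.egf_step {β p r : ℕ → ℝ≥0∞} (h : Sys β p r) (x : ℝ≥0∞) (N : ℕ) :
    egf (trc r (N + 1)) x ≤ eexp (egf β (x * egf (trc r N) x)) := by
  have h1 : egf (trc r (N + 1)) x ≤ egf (prt (trc p (N + 1))) x := by
    refine egf_mono (fun n => ?_) x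
    by_cases hn : n ≤ N + 1
    · have h2 : trc r (N + 1) n = r n := if_pos hn
      rw [h2, h.hr, BEgfAux.prt_trc p (N + 1) n hn]
    · have h2 : trc r (N + 1) n = 0 := if_neg hn
      rw [h2]
      exact zero_le
  rw [egf_prt] at h1
  refine h1.trans (eexp_mono ?_)
  rw [← egf_comp]
  refine egf_mono (fun n => ?_) x
  by_cases hn0 : n = 0
  · have h2 : pos (trc p (N + 1)) n = 0 := if_pos hn0
    rw [h2]
    exact zero_le
  · have h2 : pos (trc p (N + 1)) n = trc p (N + 1) n := if_neg hn0
    rw [h2]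
    by_cases hn : n ≤ N + 1
    · have h3 : trc p (N + 1) n = p n := if_pos hn
      rw [h3, h.hp]
      refine Finset.sum_le_sum fun W hW => ?_
      rw [Finset.mem_powerset] at hW
      rcases W.eq_empty_or_nonempty with h4 | h4
      · rw [h4, Finset.card_empty, h.b0, zero_mul]
        exact zero_le
      · have h5 : (range n \ W).card ≤ N := by
          rw [Finset.card_sdiff_of_subset hW, Finset.card_range]
          have h6 := h4.card_pos
          omega
        rw [← BEgfAux.fam_trc r N _ _ h5]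
    · have h3 : trc p (N + 1) n = 0 := if_neg hn
      rw [h3]
      exact zero_le

end K5
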