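import Pool.Agent.Lib.K5.BRel
import Pool.Agent.Lib.K5.CLExp
import Pool.Agent.Lib.K5.Sum
import Pool.Agent.Lib.P512.ConnB

/-!
# K5.BExp: connected graphs with a root are sets of planted graphs

`allK_iff`: a graph `G` on `U ∪ {v}` is connected and without a `K_5` minor iff for every component `C` of `G` on `U` the restriction to `{v} ∪ C` is in `PL v C`.
(→) `v ∉ U`; `On`; no edge from `v` to `v` (`G.loopless`). Let `C` be a component. `Conn (rst G ({v} ∪ C)) C`: the edges inside `C` are edges of the restriction. `Conn G (insert v U)` for `P = C` gives an edge from `C` to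
a vertex outside `C`, not in `U` (`IsComp`), so it is `v`. `Free.mono`.
(←) `Conn G (insert v U)`: `P512.conn_of_forall` with `r = v`: let `P ⊆ insert v U`, `v ∈ P`, `P ≠ insert v U`; take `w ∈ U \ P` and its component `C` (`exists_comp`). If `C ∩ P = ∅` the edge from `v` to `C` (`PL.adj`) is an edge
from `P` to its complement; otherwise `Conn G C` for `P ∩ C` (nonempty, different from `C`) gives an edge from `P ∩ C` to `C \ P`.
`Free G`: by `k5in_of_k5` it is enough that `¬ K5In G (insert v U)`. Claim: `¬ K5In G (insert v P)` for every `P ⊆ U` with no edge from `P` to `U \ P`; strong induction on `P.card`.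
If `P = ∅`: a model in `{v}` would have five disjoint nonempty subsets of a singleton. Otherwise let `w ∈ P`, `C` its component; `C ⊆ P` (`IsComp.sub_of_closed`) and `P \ C` is again
closed. `k5in_sum` with `S1 = insert v C`, `S2 = insert v (P \ C)`, `S1 ∩ S2 = {v}` (so `hc` holds and `hX` is vacuous, there are no two different elements), no edge between `C` and `P \ C`: a
`K_5` model in `insert v P` gives one in `S1`, which gives one of `rst G ({v} ∪ C)` (against `PL.free`), or one in `S2` (against the induction hypothesis).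
`rC_prt`: `exp_sum` (ExpF) with `R = {v}`, `K = PL v`, `z = 1` (`one_pow`), `p = fun _ => True`, `v = 0`, `U = Ico 1 (n + 1)`: the left side is `rC n` (`tsum_one`, `allK_iff`), the right side is
`∑ π : Finpartition U, ∏ C ∈ π.parts, pC C.card` (`tsum_one`, `pl_count`; `0 ∉ C` since `C ⊆ U`: `π.le`), and `sum_prt` (CLExp), `(Ico 1 (n + 1)).card = n`.
-/

namespace K5

open Finset
open scoped ENNReal

theorem expClass_pl (v : ℕ) : ExpClass {v} (PL v) := by
  intro V G h
  refine ⟨Finset.disjoint_singleton_left.2 h.hv, ?_, ?_, h.conn⟩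
  · have h1 := h.on
    rw [Finset.insert_eq] at h1
    exact h1
  · intro a ha b hb hab
    rw [Finset.mem_singleton] at ha hb
    rw [ha, hb] at hab
    exact hab.ne rfl

namespace BExpAux

theorem conn_rst {G : Gr} {S C : Finset ℕ} (hCS : C ⊆ S) (h : P512.Conn G C) :
    P512.Conn (rst G S) C := by
  refine ⟨h.1, fun P hP hne hneq => ?_⟩
  obtain ⟨u, hu, w, hw, hwP, huw⟩ := h.2 P hP hne hneq
  exact ⟨u, hu, w, hw, hwP, huw, hCS (hP hu), hCS hw⟩

theorem rst_le (G : Gr) (S : Finset ℕ) : rst G S ≤ G := fun _ _ h => h.1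

theorem not_k5in_singleton (G : Gr) (v : ℕ) : ¬ P512.K5In G {v} := by
  rintro ⟨B, ⟨h1, h2, _⟩, hB⟩
  obtain ⟨x, hx⟩ := (h1 0).1
  obtain ⟨y, hy⟩ := (h1 1).1
  have hx' := Finset.mem_singleton.1 (hB 0 hx)
  have hy' := Finset.mem_singleton.1 (hB 1 hy)
  rw [hx'] at hx
  rw [hy'] at hy
  exact Finset.disjoint_left.1 (h2 0 1 (by decide)) hx hy

theorem of_cr {v : ℕ} {U : Finset ℕ} {G : Gr} (h : CR v U G) : AllK {v} (PL v) U G := by
  refine ⟨Finset.disjoint_singleton_left.2 h.hv, ?_, ?_, ?_⟩
  · have h1 := h.on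
    rw [Finset.insert_eq] at h1
    exact h1
  · intro a ha b hb hab
    rw [Finset.mem_singleton] at ha hb
    rw [ha, hb] at hab
    exact hab.ne rfl
  · intro C hC
    have hvC : v ∉ C := fun hv => h.hv (hC.1 hv)
    refine ⟨hvC, ?_, ?_, ?_, h.free.mono (rst_le G _)⟩
    · intro a b hab
      rw [Finset.insert_eq]
      exact hab.2.1
    · exact conn_rst Finset.subset_union_right hC.2.1
    · obtain ⟨u, hu, w, hw, hwC, huw⟩ := h.conn.2 C
        (hC.1.trans (Finset.subset_insert v U)) hC.2.1.1 (by
          intro he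
          apply hvC
          rw [he]
          exact Finset.mem_insert_self v U)
      have hwv : w = v := by
        rcases Finset.mem_insert.1 hw with hw | hw
        · exact hw
        · exact absurd huw (hC.2.2 u hu w hw hwC)
      rw [hwv] at huw
      exact ⟨u, hu, huw.symm, Finset.mem_union_left _ (Finset.mem_singleton_self v),
        Finset.mem_union_right _ hu⟩

theorem conn_all {v : ℕ} {U : Finset ℕ} {G : Gr} (h : AllK {v} (PL v) U G) :
    P512.Conn G (insert v U) := by
  refine P512.conn_of_forall (r := v) (Finset.mem_insert_self v U) (fun P hP hvP hneq => ?_)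
  have hex : ∃ w ∈ U, w ∉ P := by
    by_contra hcon
    push Not at hcon
    exact hneq (Finset.Subset.antisymm hP (Finset.insert_subset hvP hcon))
  obtain ⟨w, hwU, hwP⟩ := hex
  obtain ⟨C, hC, hwC⟩ := exists_comp G hwU
  by_cases hCP : (P ∩ C).Nonempty
  · obtain ⟨u, hu, x, hx, hxn, hux⟩ := hC.2.1.2 (P ∩ C) Finset.inter_subset_right hCP (by
      intro he
      apply hwP
      rw [← he] at hwC
      exact (Finset.mem_inter.1 hwC).1)
    exact ⟨u, (Finset.mem_inter.1 hu).1, x, Finset.mem_insert_of_mem (hC.1 hx),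
      fun hxP => hxn (Finset.mem_inter.2 ⟨hxP, hx⟩), hux⟩
  · obtain ⟨u, hu, huv⟩ := (h.2.2.2 C hC).adj
    exact ⟨v, hvP, u, Finset.mem_insert_of_mem (hC.1 hu),
      fun huP => hCP ⟨u, Finset.mem_inter.2 ⟨huP, hu⟩⟩, huv.1⟩

theorem no_k5in {v : ℕ} {U : Finset ℕ} {G : Gr} (h : AllK {v} (PL v) U G) :
    ∀ P : Finset ℕ, P ⊆ U → (∀ a ∈ P, ∀ b ∈ U, b ∉ P → ¬ G.Adj a b) →
      ¬ P512.K5In G (insert v P) := by
  have hvU : v ∉ U := Finset.disjoint_singleton_left.1 h.1
  intro P
  induction P using Finset.strongInduction with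
  | H P ih =>
    intro hPU hcl h5
    rcases P.eq_empty_or_nonempty with hP | ⟨w, hw⟩
    · rw [hP] at h5
      exact not_k5in_singleton G v h5
    · obtain ⟨C, hC, hwC⟩ := exists_comp G (hPU hw)
      have hCP : C ⊆ P := hC.sub_of_closed hcl hwC hw
      have hvP : v ∉ P := fun hv => hvU (hPU hv)
      have hun : insert v C ∪ insert v (P \ C) = insert v P := by
        rw [← Finset.insert_union_distrib, Finset.union_sdiff_of_subset hCP]
      have hint : insert v C ∩ insert v (P \ C) = {v} := by
        rw [← Finset.insert_inter_distrib, Finset.inter_sdiff_self]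
        rfl
      rw [← hun] at h5
      rcases k5in_sum (by rw [hint]; simp) (by
        intro a ha b hb hab
        rw [hint, Finset.mem_singleton] at ha hb
        exact absurd (ha.trans hb.symm) hab) (by
        intro a ha b hb ha2 hb1
        have haC : a ∈ C := by
          rcases Finset.mem_insert.1 ha with ha' | ha'
          · exact absurd (by rw [ha']; exact Finset.mem_insert_self v _) ha2
          · exact ha'
        have hbC : b ∈ P \ C := by
          rcases Finset.mem_insert.1 hb with hb' | hb'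
          · exact absurd (by rw [hb']; exact Finset.mem_insert_self v _) hb1
          · exact hb'
        have hb' := Finset.mem_sdiff.1 hbC
        exact hC.2.2 a haC b (hPU hb'.1) hb'.2) h5 with h6 | h6
      · have h7 : P512.K5In (rst G ({v} ∪ C)) (insert v C) := by
          refine SumAux.k5_congr (G := G) ?_ h6
          intro a ha b hb hab
          rw [Finset.insert_eq] at ha hb
          exact ⟨hab, ha, hb⟩
        obtain ⟨B, hB, _⟩ := h7
        exact (h.2.2.2 C hC).free ⟨B, hB⟩
      · refine ih (P \ C) ?_ (Finset.sdiff_subset.trans hPU) ?_ h6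
        · refine Finset.ssubset_iff_subset_ne.2 ⟨Finset.sdiff_subset, ?_⟩
          intro he
          rw [← he] at hw
          exact (Finset.mem_sdiff.1 hw).2 hwC
        · intro a ha b hb hbn hab
          have ha' := Finset.mem_sdiff.1 ha
          by_cases hbP : b ∈ P
          · have hbC : b ∈ C := by
              by_contra hbC
              exact hbn (Finset.mem_sdiff.2 ⟨hbP, hbC⟩)
            exact hC.2.2 b hbC a (hPU ha'.1) ha'.2 hab.symm
          · exact hcl a ha'.1 b hb hbP hab

end BExpAux

theorem allK_iff {v : ℕ} {U : Finset ℕ} {G : Gr} : AllK {v} (PL v) U G ↔ CR v U G := by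
  refine ⟨fun h => ?_, BExpAux.of_cr⟩
  have hon : On G (insert v U) := by
    have h1 := h.2.1
    rw [← Finset.insert_eq] at h1
    exact h1
  refine ⟨Finset.disjoint_singleton_left.1 h.1, hon, BExpAux.conn_all h, fun h5 => ?_⟩
  exact BExpAux.no_k5in h U (Finset.Subset.refl U) (fun a _ b hb hbn => absurd hb hbn)
    (k5in_of_k5 hon h5)

theorem rE_prt (n : ℕ) : rE n = prt pE n := by
  classical
  have h0 : (0 : ℕ) ∉ Ico 1 (n + 1) := by simp
  have hd : Disjoint ({0} : Finset ℕ) (Ico 1 (n + 1)) := Finset.disjoint_singleton_left.2 h0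
  have h1 := exp_sum (expClass_pl 0) 1 hd (fun _ => True)
  simp only [one_pow, if_true] at h1
  let e : {G : Gr // AllK {0} (PL 0) (Ico 1 (n + 1)) G ∧ True} ≃
      {G : Gr // CR 0 (Ico 1 (n + 1)) G} :=
    Equiv.subtypeEquivRight (fun G => by rw [and_true]; exact allK_iff)
  have hfin := finite_cr 0 (Ico 1 (n + 1))
  have h2 : ∑' _ : {G : Gr // AllK {0} (PL 0) (Ico 1 (n + 1)) G ∧ True}, (1 : ℝ≥0∞) = rE n := by
    rw [← e.symm.tsum_eq, tsum_one]
    rfl
  rw [← h2, h1]
  have h3 : ∀ π : Finpartition (Ico 1 (n + 1)),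
      ∏ C ∈ π.parts, ∑' _ : {G : Gr // PL 0 C G}, (1 : ℝ≥0∞) = ∏ C ∈ π.parts, pE C.card := by
    intro π
    refine Finset.prod_congr rfl fun C hC => ?_
    have hfin2 := finite_pl 0 C
    rw [tsum_one, pl_count (fun h => h0 (π.le hC h))]
    rfl
  rw [Finset.sum_congr rfl fun π _ => h3 π, sum_prt, Nat.card_Ico, Nat.add_sub_cancel]

end K5
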