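import Pool.Agent.Lib.K5.BQ
import Pool.Agent.Lib.K5.CLMul

/-!
# K5.BFin: if `B'` is finite at `R` then the networks are finite at every `x < R`

`D x ≤ 1 + 2 * ∑' n, x^n/n! * bE (n + 1)` (`Q_le`; or bound every term by `1 * [n = 0] + 2 x^n/n! bE (n + 1)`). Since `x < R` the sequence `(n + 1) * (x / R)^n` is bounded by a constant `C` (it tends to `0`:
`tendsto_self_mul_const_pow_of_lt_one` or `summable_pow_mul_geometric_of_norm_lt_one`); `x^n/n! ≤ (C / R) * R^(n+1)/(n+1)!`. So `∑' n, x^n/n! * bE (n + 1) ≤ (C / R) * ∑' n, R^(n+1)/(n+1)! * bE (n + 1) ≤ (C / R) * egf bE R < ⊤`.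
-/

namespace K5

open Finset Filter Topology
open scoped ENNReal

theorem D_ne_top {x R : ℝ} (hx : 0 < x) (hR : x < R) (h : egf bE (.ofReal R) ≠ ⊤) :
    D (.ofReal x) ≠ ⊤ := by
  have hRpos : 0 < R := hx.trans hR
  have hr0 : 0 ≤ x / R := by positivity
  have hr1 : x / R < 1 := (div_lt_one hRpos).2 hR
  obtain ⟨C1, hC1⟩ := (tendsto_self_mul_const_pow_of_lt_one hr0 hr1).bddAbove_range
  have hC10 : 0 ≤ C1 := by
    have h1 := hC1 ⟨0, rfl⟩
    simpa using h1
  have hb : ∀ n : ℕ, 2 * ((n : ℝ) + 1) * x ^ n ≤ (2 * (C1 + 1) / R) * R ^ (n + 1) := by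
    intro n
    have h1 : (n : ℝ) * (x / R) ^ n ≤ C1 := hC1 ⟨n, rfl⟩
    have h2 : (x / R) ^ n ≤ 1 := pow_le_one₀ hr0 hr1.le
    have h3 : ((n : ℝ) + 1) * (x / R) ^ n ≤ C1 + 1 := by linarith
    have h4 : 0 < R ^ n := by positivity
    have h5 : ((n : ℝ) + 1) * x ^ n ≤ (C1 + 1) * R ^ n := by
      rw [div_pow, ← mul_div_assoc, div_le_iff₀ h4] at h3
      exact h3
    have h6 : 2 * (C1 + 1) / R * R ^ (n + 1) = 2 * ((C1 + 1) * R ^ n) := by
      field_simp
      ring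
    rw [h6]
    linarith
  have hE : ∀ n : ℕ, 2 * ((n : ℝ≥0∞) + 1) * ENNReal.ofReal x ^ n ≤
      ENNReal.ofReal (2 * (C1 + 1) / R) * ENNReal.ofReal R ^ (n + 1) := by
    intro n
    have h1 := ENNReal.ofReal_le_ofReal (hb n)
    rw [ENNReal.ofReal_mul (by positivity), ENNReal.ofReal_mul (by norm_num),
      ENNReal.ofReal_mul (by positivity), ENNReal.ofReal_pow hx.le, ENNReal.ofReal_pow hRpos.le,
      ENNReal.ofReal_add (by positivity) (by norm_num), ENNReal.ofReal_natCast,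
      ENNReal.ofReal_one] at h1
    simpa using h1
  have hterm : ∀ n : ℕ, ENNReal.ofReal x ^ n / (n.factorial : ℝ≥0∞) *
      (if n = 0 then 1 else 2 * (Q n : ℝ≥0∞)) ≤ (if n = 0 then 1 else 0) +
        ENNReal.ofReal (2 * (C1 + 1) / R) *
          (ENNReal.ofReal R ^ (n + 1) / ((n + 1).factorial : ℝ≥0∞) * bE (n + 1)) := by
    intro n
    rcases Nat.eq_zero_or_pos n with rfl | hn
    · simp
    · rw [if_neg hn.ne', if_neg hn.ne', zero_add]
      have hQ : (Q n : ℝ≥0∞) ≤ bE (n + 1) := by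
        unfold bE
        exact_mod_cast Q_le n
      have h0 : ((n : ℝ≥0∞) + 1) ≠ 0 := by simp
      have ht : ((n : ℝ≥0∞) + 1) ≠ ⊤ := by simp
      have hf : ENNReal.ofReal x ^ n / (n.factorial : ℝ≥0∞) =
          (((n : ℝ≥0∞) + 1) * ENNReal.ofReal x ^ n) / ((n + 1).factorial : ℝ≥0∞) := by
        rw [Nat.factorial_succ, Nat.cast_mul, Nat.cast_add, Nat.cast_one,
          ENNReal.mul_div_mul_left _ _ h0 ht]
      calc ENNReal.ofReal x ^ n / (n.factorial : ℝ≥0∞) * (2 * (Q n : ℝ≥0∞))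
          ≤ ENNReal.ofReal x ^ n / (n.factorial : ℝ≥0∞) * (2 * bE (n + 1)) := by gcongr
        _ = (2 * ((n : ℝ≥0∞) + 1) * ENNReal.ofReal x ^ n) / ((n + 1).factorial : ℝ≥0∞) *
            bE (n + 1) := by
            rw [hf, div_eq_mul_inv, div_eq_mul_inv]
            ring
        _ ≤ (ENNReal.ofReal (2 * (C1 + 1) / R) * ENNReal.ofReal R ^ (n + 1)) /
            ((n + 1).factorial : ℝ≥0∞) * bE (n + 1) := by
            exact mul_le_mul' (ENNReal.div_le_div_right (hE n) _) le_rfl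
        _ = ENNReal.ofReal (2 * (C1 + 1) / R) *
          (ENNReal.ofReal R ^ (n + 1) / ((n + 1).factorial : ℝ≥0∞) * bE (n + 1)) := by
            rw [mul_div_assoc, mul_assoc]
  have hle : D (.ofReal x) ≤ 1 + ENNReal.ofReal (2 * (C1 + 1) / R) * egf bE (.ofReal R) := by
    unfold D
    refine (ENNReal.tsum_le_tsum hterm).trans ?_
    rw [ENNReal.tsum_add, ENNReal.tsum_mul_left]
    have h1 : (∑' n : ℕ, (if n = 0 then (1 : ℝ≥0∞) else 0)) = 1 := by
      rw [tsum_ite_eq]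
    rw [h1]
    gcongr
    unfold egf
    exact ENNReal.tsum_comp_le_tsum_of_injective (add_left_injective 1)
      (fun n => ENNReal.ofReal R ^ n / (n.factorial : ℝ≥0∞) * bE n)
  refine ne_top_of_le_ne_top ?_ hle
  exact ENNReal.add_ne_top.2 ⟨ENNReal.one_ne_top, ENNReal.mul_ne_top ENNReal.ofReal_ne_top h⟩

end K5
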