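import Pool.Agent.Lib.K5.BQ
import Pool.Agent.Lib.K5.Sum

/-!
# K5.BFour: the graphs on four vertices

`S = range 4`. For every `G` with `BB S G`: `8 ≤ dg G S` (`BB.dg_le`). There are seven graphs with more: the complete graph `clq (range 4)` (`dg = 12`) and the six graphs obtained from it by deleting one edge (`dg = 10`); all are in
`BB (range 4)`. `Blk`: check the finitely many subsets (write the graph as a decidable relation, e.g. `SimpleGraph.mk (fun a b => a ≠ b ∧ a < 4 ∧ b < 4 ∧ s(a, b) ≠ e)`, and use `decide` on `∀ P ∈ S.powerset, ...`). `Free`: a model of `K_5` has five disjoint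
nonempty sets inside `range 4` (`k5in_of_k5`), impossible (`card_biUnion`). So `8 * bC 3 + 6 * 2 + 4 ≤ ∑' dg = 12 * Q 2` (`dg_sum`, `bb_card`, `tsum_one`): write `dg G S = 8 + (dg G S - 8)` and bound the sum of the second terms below by the sum over
the seven graphs (an injective map `Fin 7 → {G // BB S G}`; `ENNReal.tsum_comp_le_tsum_of_injective` or `Finset.sum_le_sum_of_subset` after `tsum_fintype`). Alternatively show `bC 3 ≤ 10` and `8 ≤ Q 2` directly.
-/

namespace K5

open Finset
open scoped ENNReal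

namespace BFourAux

/-- The smaller end of the missing edge. -/
def px : Fin 7 → ℕ := ![4, 0, 0, 0, 1, 1, 2]

/-- The larger end of the missing edge. -/
def py : Fin 7 → ℕ := ![4, 1, 2, 3, 2, 3, 3]

/-- The complete graph on `range 4`, without the edge `px i, py i`. -/
def gr (i : Fin 7) : Gr where
  Adj a b := a ≠ b ∧ a < 4 ∧ b < 4 ∧ ¬ (a = px i ∧ b = py i) ∧ ¬ (a = py i ∧ b = px i)
  symm := ⟨fun _ _ h => ⟨h.1.symm, h.2.2.1, h.2.1, fun k => h.2.2.2.2 ⟨k.2, k.1⟩,
    fun k => h.2.2.2.1 ⟨k.2, k.1⟩⟩⟩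
  loopless := ⟨fun _ h => h.1 rfl⟩

instance (i : Fin 7) (a : ℕ) : DecidablePred ((gr i).Adj a) := fun b =>
  inferInstanceAs (Decidable (a ≠ b ∧ a < 4 ∧ b < 4 ∧ ¬ (a = px i ∧ b = py i) ∧
    ¬ (a = py i ∧ b = px i)))

theorem on (i : Fin 7) : On (gr i) (range 4) := fun _ _ h => Finset.mem_range.2 h.2.1

theorem conn_of {G : Gr} {S : Finset ℕ} (hS : S.Nonempty)
    (h : ∀ P ∈ S.powerset, P.Nonempty → P ≠ S → ∃ u ∈ P, ∃ v ∈ S, v ∉ P ∧ G.Adj u v) :
    P512.Conn G S :=
  ⟨hS, fun P hP => h P (Finset.mem_powerset.2 hP)⟩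

theorem dec1 : ∀ i : Fin 7, ∀ P ∈ (range 4).powerset, P.Nonempty → P ≠ range 4 →
    ∃ u ∈ P, ∃ v ∈ range 4, v ∉ P ∧ (gr i).Adj u v := by
  decide +kernel

theorem dec2 : ∀ i : Fin 7, ∀ w ∈ range 4, ∀ P ∈ ((range 4).erase w).powerset, P.Nonempty →
    P ≠ (range 4).erase w → ∃ u ∈ P, ∃ v ∈ (range 4).erase w, v ∉ P ∧ (gr i).Adj u v := by
  decide +kernel

theorem free (i : Fin 7) : Free (gr i) := by
  intro h5
  obtain ⟨B, hB, hBS⟩ := k5in_of_k5 (on i) h5
  have hx : ∀ j, ∃ x, x ∈ B j := fun j => (hB.1 j).1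
  choose x hx using hx
  have hinj : Function.Injective x := by
    intro j k hjk
    by_contra hne
    exact Finset.disjoint_left.1 (hB.2.1 j k hne) (hx j) (by rw [hjk]; exact hx k)
  have h1 : (Finset.univ.image x).card = 5 := by
    rw [Finset.card_image_of_injective _ hinj, Finset.card_univ, Fintype.card_fin]
  have h2 : (Finset.univ.image x) ⊆ range 4 := by
    intro y hy
    obtain ⟨j, _, rfl⟩ := Finset.mem_image.1 hy
    exact hBS j (hx j)
  have h3 := Finset.card_le_card h2
  rw [h1, Finset.card_range] at h3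
  omega

theorem bb (i : Fin 7) : BB (range 4) (gr i) where
  on := on i
  blk := by
    refine ⟨by decide, conn_of ⟨0, by decide⟩ (dec1 i), fun w hw => conn_of ?_ (dec2 i w hw)⟩
    rw [← Finset.card_pos, Finset.card_erase_of_mem hw, Finset.card_range]
    norm_num
  free := free i

theorem dg_eq (G : Gr) (S : Finset ℕ) [∀ a, DecidablePred (G.Adj a)] :
    dg G S = ∑ a ∈ S, (S.filter (fun b => G.Adj a b)).card := by
  unfold dg
  refine Finset.sum_congr rfl fun a _ => ?_
  congr 1
  ext b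
  simp only [Finset.mem_filter]

theorem dec3 : 16 ≤ ∑ i : Fin 7,
    (∑ a ∈ range 4, ((range 4).filter (fun b => (gr i).Adj a b)).card - 8) := by
  decide +kernel

theorem dec4 : ∀ i j : Fin 7, (∀ a ∈ range 4, ∀ b ∈ range 4, (gr i).Adj a b ↔ (gr j).Adj a b) →
    i = j := by
  decide +kernel

/-- The seven blocks. -/
def gb (i : Fin 7) : {G : Gr // BB (range 4) G} := ⟨gr i, bb i⟩

theorem gb_inj : Function.Injective gb := by
  intro i j hij
  refine dec4 i j fun a _ b _ => ?_
  have h : gr i = gr j := congrArg Subtype.val hij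
  rw [h]

end BFourAux

theorem four : 2 * bC 3 + 4 ≤ 3 * Q 2 := by
  classical
  have hf := finite_bb (range 4)
  have : Fintype {G : Gr // BB (range 4) G} := Fintype.ofFinite _
  have h1 := dg_sum (S := range 4) (by decide)
  rw [tsum_fintype, ← Nat.cast_sum, Nat.cast_inj, Finset.card_range] at h1
  have h2 := bb_card (S := range 4) ⟨0, by decide⟩
  rw [Nat.card_eq_fintype_card, Finset.card_range] at h2
  have h3 : ∀ G : {G : Gr // BB (range 4) G}, dg G.1 (range 4) = 8 + (dg G.1 (range 4) - 8) := by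
    intro G
    have h := G.2.dg_le (by decide)
    rw [Finset.card_range] at h
    omega
  have h4 : ∑ G : {G : Gr // BB (range 4) G}, dg G.1 (range 4) =
      Fintype.card {G : Gr // BB (range 4) G} * 8 +
        ∑ G : {G : Gr // BB (range 4) G}, (dg G.1 (range 4) - 8) := by
    rw [Finset.sum_congr rfl fun G _ => h3 G, Finset.sum_add_distrib, Finset.sum_const,
      Finset.card_univ, smul_eq_mul]
  have h5 : 16 ≤ ∑ G : {G : Gr // BB (range 4) G}, (dg G.1 (range 4) - 8) := by
    calc 16 ≤ ∑ i : Fin 7, (dg (BFourAux.gr i) (range 4) - 8) := by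
          refine BFourAux.dec3.trans (le_of_eq ?_)
          refine Finset.sum_congr rfl fun i _ => ?_
          rw [BFourAux.dg_eq]
      _ = ∑ G ∈ univ.image BFourAux.gb, (dg G.1 (range 4) - 8) := by
          rw [Finset.sum_image fun i _ j _ h => BFourAux.gb_inj h]
          rfl
      _ ≤ _ := Finset.sum_le_sum_of_subset (Finset.subset_univ _)
  norm_num at h1 h2
  omega

end K5
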