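import Pool.Agent.Lib.K5.BDefs
import Pool.Agent.Lib.K5.Sum
import Pool.Agent.Lib.P512.ConnB

/-!
# K5.BStrE: existence of the block at the root

Let `PL v U G`. Call `(W, J)` weak if `HStr v U W J`, `out` (every edge at a vertex of `J w` goes to `w` or to `J w`) and all neighbours of `v` in `U` are in `W`. The pair `(U, fun _ => ∅)` is weak (`U` is nonempty). Choose a weak
pair with `W.card` minimal (`Finset.exists_min_image` on `U.powerset.filter (fun W => ∃ J, weak)`).
Below `X := insert v U`; `Conn G X` by `P512.conn_insert`; so a nonempty set `P ⊆ U` has an edge to `X \ P`. For `P ⊆ W` let `P' := P ∪ ⋃_{w ∈ P} J w` (`P.biUnion J`).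
(E) the edges that leave `P'` inside `X` (for `P ⊆ W`) or leave `insert v P'`: if `a ∈ P'`, `b ∈ X \ P'` and `G.Adj a b`, then `a ∈ P` and `b ∈ insert v W`: if `a ∈ J w`, `w ∈ P`, then `b ∈ insert w (J w) ⊆ P'`; so `a ∈ P ⊆ W`; if
`b ∈ J w'` then `a = w'` or `a ∈ J w'` by `out` (symmetric edge), the second is impossible since `a ∈ W`, and the first gives `b ∈ J a ⊆ P'`. The same with `v`: an edge from `v` to `U` ends in `W`.
1. hang: let `w ∈ W`. `Conn (rst G (insert w (J w))) (insert w (J w))`: `P512.conn_of_forall` with `r = w`: if `w ∈ P ≠ insert w (J w)`, let `Q := J w \ P` (nonempty, `⊆ U`); `Conn G X` gives an edge from `Q` to `X \ Q`; by `out` its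
   end is in `insert w (J w) \ Q ⊆ P`. `On`, `Free.mono`, `w ∉ J w` are clear.
2. core: `v ∉ W`, `On`, `Free.mono`, card: `v` and an element of `W`. Every `P ⊆ W` nonempty with `P ≠ W` has an edge of `G` to `W \ P` (`Conn G U` for `P'`, and (E)): this is `Conn (rst G (insert v W)) W`, `W = (insert v W).erase v`.
   `Conn (rst G (insert v W)) (insert v W)`: by `P512.conn_insert` and a neighbour of `v`, which lies in `W`.
   Let `x ∈ W`: `Conn (rst G (insert v W)) ((insert v W).erase x)` by `P512.conn_of_forall` with `r = v`: let `v ∈ P ≠ (insert v W).erase x`, put `Q := (insert v W).erase x \ P`, a nonempty subset of `W.erase x`. Suppose that there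
   is no edge from `P` to `Q`. Then put `W1 := W \ Q` and `J1 x := J x ∪ Q ∪ ⋃_{w ∈ Q} J w`, `J1 w := ∅` for `w ∈ Q`, `J1 w := J w` otherwise. This is weak: `x ∈ W1`; the edges that leave `Q' = Q ∪ ⋃_{w ∈ Q} J w` go, by (E), from `Q` to
   `insert v W \ Q = P ∪ {x}`, hence to `x`; the edges that leave `J x` go to `x`; no neighbour of `v` is in `Q` since `v ∈ P`. `W1.card < W.card`, contradiction.
-/

namespace K5

open Finset

namespace BStrEAux

/-- a weak structure -/
structure Weak (v : ℕ) (U W : Finset ℕ) (J : ℕ → Finset ℕ) (G : Gr) : Prop where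
  str : HStr v U W J
  out : ∀ w, ∀ a ∈ J w, ∀ b, G.Adj a b → b = w ∨ b ∈ J w
  nb : ∀ u ∈ U, G.Adj v u → u ∈ W

variable {v : ℕ} {U W : Finset ℕ} {J : ℕ → Finset ℕ} {G : Gr}

/-- edges that leave the closure of `P` -/
theorem leave (h : Weak v U W J G) {P : Finset ℕ} (hP : P ⊆ W) {a b : ℕ}
    (ha : a ∈ P ∪ P.biUnion J) (hb : b ∈ insert v U) (hbn : b ∉ P ∪ P.biUnion J)
    (hab : G.Adj a b) : a ∈ P ∧ b ∈ insert v W ∧ b ∉ P := by
  have haP : a ∈ P := by
    rcases mem_union.1 ha with h1 | h1
    · exact h1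
    · exfalso
      obtain ⟨w, hw, haw⟩ := mem_biUnion.1 h1
      rcases h.out w a haw b hab with h2 | h2
      · exact hbn (mem_union_left _ (h2 ▸ hw))
      · exact hbn (mem_union_right _ (mem_biUnion.2 ⟨w, hw, h2⟩))
  refine ⟨haP, ?_, fun h1 => hbn (mem_union_left _ h1)⟩
  rcases mem_insert.1 hb with h1 | h1
  · exact mem_insert.2 (Or.inl h1)
  · by_cases hbW : b ∈ W
    · exact mem_insert_of_mem hbW
    · exfalso
      obtain ⟨w, hw, hbw⟩ := h.str.Jcover b (mem_sdiff.2 ⟨h1, hbW⟩)
      rcases h.out w b hbw a hab.symm with h2 | h2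
      · rw [h2] at haP
        exact hbn (mem_union_right _ (mem_biUnion.2 ⟨w, haP, hbw⟩))
      · exact (mem_sdiff.1 (h.str.Jsub w h2)).2 (hP haP)

/-- moving the set `Q` to the hanging set of `x` -/
theorem move (hG : On G (insert v U)) (h : Weak v U W J G) {x : ℕ} (hx : x ∈ W) {Q : Finset ℕ}
    (hQ : Q ⊆ W) (hxQ : x ∉ Q) (hQe : ∀ a ∈ Q, ∀ b ∈ insert v W, b ∉ Q → G.Adj a b → b = x)
    (hQv : ∀ a ∈ Q, ¬ G.Adj v a) : ∃ J1, Weak v U (W \ Q) J1 G := by
  classical
  refine ⟨fun w => if w = x then J x ∪ (Q ∪ Q.biUnion J) else if w ∈ Q then ∅ else J w, ?_, ?_, ?_⟩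
  · have hJU : ∀ w, J w ⊆ U \ (W \ Q) := fun w a ha => by
      have h1 := mem_sdiff.1 (h.str.Jsub w ha)
      exact mem_sdiff.2 ⟨h1.1, fun h2 => h1.2 (mem_sdiff.1 h2).1⟩
    -- the large set is disjoint from the others
    have hbig : ∀ w, w ≠ x → w ∉ Q → Disjoint (J x ∪ (Q ∪ Q.biUnion J)) (J w) := by
      intro w hwx hwQ
      rw [Finset.disjoint_union_left, Finset.disjoint_union_left]
      refine ⟨h.str.Jdisj x w (Ne.symm hwx), ?_, ?_⟩
      · rw [Finset.disjoint_left]
        intro a ha ha'
        exact (mem_sdiff.1 (h.str.Jsub w ha')).2 (hQ ha)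
      · rw [Finset.disjoint_left]
        intro a ha ha'
        obtain ⟨q, hq, haq⟩ := mem_biUnion.1 ha
        exact disjoint_left.1 (h.str.Jdisj q w (fun e => hwQ (e ▸ hq))) haq ha'
    refine ⟨h.str.hv, sdiff_subset.trans h.str.sub, ⟨x, mem_sdiff.2 ⟨hx, hxQ⟩⟩, fun w => ?_,
      fun w w' hww => ?_, fun u hu => ?_, fun w hw => ?_⟩
    · by_cases h1 : w = x
      · simp only [if_pos h1]
        refine union_subset (hJU x) (union_subset ?_ ?_)
        · intro a ha
          exact mem_sdiff.2 ⟨h.str.sub (hQ ha), fun h2 => (mem_sdiff.1 h2).2 ha⟩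
        · intro a ha
          obtain ⟨q, hq, haq⟩ := mem_biUnion.1 ha
          exact hJU q haq
      · by_cases h2 : w ∈ Q
        · simp only [if_neg h1, if_pos h2]
          exact empty_subset _
        · simp only [if_neg h1, if_neg h2]
          exact hJU w
    · by_cases h1 : w = x
      · have h1' : w' ≠ x := fun e => hww (h1.trans e.symm)
        simp only [if_pos h1, if_neg h1']
        by_cases h2 : w' ∈ Q
        · simp only [if_pos h2]
          exact disjoint_empty_right _
        · simp only [if_neg h2]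
          exact hbig w' h1' h2
      · simp only [if_neg h1]
        by_cases h2 : w ∈ Q
        · simp only [if_pos h2]
          exact disjoint_empty_left _
        · simp only [if_neg h2]
          by_cases h3 : w' = x
          · simp only [if_pos h3]
            exact (hbig w h1 h2).symm
          · simp only [if_neg h3]
            by_cases h4 : w' ∈ Q
            · simp only [if_pos h4]
              exact disjoint_empty_right _
            · simp only [if_neg h4]
              exact h.str.Jdisj w w' hww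
    · have hu' := mem_sdiff.1 hu
      by_cases huW : u ∈ W
      · have huQ : u ∈ Q := by
          by_contra h1
          exact hu'.2 (mem_sdiff.2 ⟨huW, h1⟩)
        refine ⟨x, mem_sdiff.2 ⟨hx, hxQ⟩, ?_⟩
        simp only [if_true]
        exact mem_union_right _ (mem_union_left _ huQ)
      · obtain ⟨w, hw, huw⟩ := h.str.Jcover u (mem_sdiff.2 ⟨hu'.1, huW⟩)
        by_cases h1 : w = x
        · refine ⟨x, mem_sdiff.2 ⟨hx, hxQ⟩, ?_⟩
          simp only [if_true]
          exact mem_union_left _ (h1 ▸ huw)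
        · by_cases h2 : w ∈ Q
          · refine ⟨x, mem_sdiff.2 ⟨hx, hxQ⟩, ?_⟩
            simp only [if_true]
            exact mem_union_right _ (mem_union_right _ (mem_biUnion.2 ⟨w, h2, huw⟩))
          · refine ⟨w, mem_sdiff.2 ⟨hw, h2⟩, ?_⟩
            simp only [if_neg h1, if_neg h2]
            exact huw
    · have h1 : w ≠ x := fun e => hw (mem_sdiff.2 ⟨e ▸ hx, e ▸ hxQ⟩)
      by_cases h2 : w ∈ Q
      · simp only [if_neg h1, if_pos h2]
      · simp only [if_neg h1, if_neg h2]
        exact h.str.Jout w (fun h3 => hw (mem_sdiff.2 ⟨h3, h2⟩))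
  · intro w a ha b hab
    by_cases h1 : w = x
    · simp only [if_pos h1] at ha ⊢
      rcases mem_union.1 ha with ha | ha
      · rcases h.out x a ha b hab with h2 | h2
        · exact Or.inl (h2.trans h1.symm)
        · exact Or.inr (mem_union_left _ h2)
      · by_cases hb : b ∈ Q ∪ Q.biUnion J
        · exact Or.inr (mem_union_right _ hb)
        · obtain ⟨h2, h3, h4⟩ := leave h hQ ha (hG b a hab.symm) hb hab
          exact Or.inl ((hQe a h2 b h3 h4 hab).trans h1.symm)
    · by_cases h2 : w ∈ Q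
      · simp only [if_neg h1, if_pos h2] at ha
        exact absurd ha (notMem_empty _)
      · simp only [if_neg h1, if_neg h2] at ha ⊢
        exact h.out w a ha b hab
  · intro u hu hvu
    exact mem_sdiff.2 ⟨h.nb u hu hvu, fun h1 => hQv u h1 hvu⟩

theorem rst_le (G : Gr) (S : Finset ℕ) : rst G S ≤ G := fun _ _ h => h.1

end BStrEAux

open BStrEAux

theorem exists_gstr {v : ℕ} {U : Finset ℕ} {G : Gr} (h : PL v U G) :
    ∃ W J, GStr v U W J G := by
  classical
  -- a weak structure with smallest `W`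
  have hex : ∃ n, ∃ W J, Weak v U W J G ∧ W.card = n := by
    refine ⟨U.card, U, fun _ => ∅, ⟨⟨h.hv, Subset.refl _, h.conn.1, fun _ => empty_subset _,
      fun _ _ _ => disjoint_empty_left _, fun u hu => ?_, fun _ _ => rfl⟩, ?_, fun u hu _ => hu⟩,
      rfl⟩
    · exact absurd (mem_sdiff.1 hu).1 (mem_sdiff.1 hu).2
    · intro w a ha
      exact absurd ha (notMem_empty _)
  obtain ⟨W, J, hW, hWn⟩ := Nat.find_spec hex
  have hmin : ∀ W' J', Weak v U W' J' G → W.card ≤ W'.card := by
    intro W' J' hW'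
    rw [hWn]
    exact Nat.find_min' hex ⟨W', J', hW', rfl⟩
  have hvW : v ∉ W := fun h1 => h.hv (hW.str.sub h1)
  have hconnX : P512.Conn G (insert v U) := by
    obtain ⟨u, hu, hvu⟩ := h.adj
    exact P512.conn_insert h.conn ⟨u, hu, hvu.symm⟩
  -- (a)
  have hconnW : P512.Conn (rst G (insert v W)) W := by
    refine ⟨hW.str.ne, fun P hP hPne hPW => ?_⟩
    obtain ⟨q, hq, hqP⟩ : ∃ q ∈ W, q ∉ P := by
      by_contra hcon
      push Not at hcon
      exact hPW (Subset.antisymm hP hcon)
    have hsub : P ∪ P.biUnion J ⊆ U := by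
      refine union_subset (hP.trans hW.str.sub) ?_
      intro a ha
      obtain ⟨w, -, haw⟩ := mem_biUnion.1 ha
      exact (mem_sdiff.1 (hW.str.Jsub w haw)).1
    obtain ⟨a, ha, b, hb, hbn, hab⟩ := h.conn.2 (P ∪ P.biUnion J) hsub
      (hPne.mono subset_union_left) (fun he => by
        have h1 : q ∈ P ∪ P.biUnion J := by rw [he]; exact hW.str.sub hq
        rcases mem_union.1 h1 with h2 | h2
        · exact hqP h2
        · obtain ⟨w, -, hqw⟩ := mem_biUnion.1 h2
          exact (mem_sdiff.1 (hW.str.Jsub w hqw)).2 hq)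
    obtain ⟨h1, h2, h3⟩ := leave hW hP ha (mem_insert_of_mem hb) hbn hab
    have hbW : b ∈ W := by
      rcases mem_insert.1 h2 with h4 | h4
      · exact absurd (h4 ▸ hb) h.hv
      · exact h4
    exact ⟨a, h1, b, hbW, h3, hab, mem_insert_of_mem (hP h1), h2⟩
  have hconnS : P512.Conn (rst G (insert v W)) (insert v W) := by
    obtain ⟨u, hu, hvu⟩ := h.adj
    have huW := hW.nb u hu hvu
    exact P512.conn_insert hconnW ⟨u, huW, hvu.symm, mem_insert_of_mem huW, mem_insert_self _ _⟩
  refine ⟨W, J, hW.str, h.on, hW.out, ⟨hvW, fun a b hab => hab.2.1, ⟨?_, hconnS, ?_⟩,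
    h.free.mono (rst_le _ _)⟩, fun w hw => ⟨fun h1 => (mem_sdiff.1 (hW.str.Jsub w h1)).2 hw,
    fun a b hab => hab.2.1, ?_, h.free.mono (rst_le _ _)⟩⟩
  · rw [card_insert_of_notMem hvW]
    have := hW.str.ne.card_pos
    omega
  · intro x hx
    rcases mem_insert.1 hx with h1 | hxW
    · subst h1
      rw [erase_insert hvW]
      exact hconnW
    · have hxv : x ≠ v := fun e => hvW (e ▸ hxW)
      refine P512.conn_of_forall (r := v) (mem_erase.2 ⟨hxv.symm, mem_insert_self _ _⟩)
        (fun P hP hvP hPne => ?_)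
      by_contra hcon
      push Not at hcon
      set Q := ((insert v W).erase x) \ P with hQdef
      have hQW : Q ⊆ W := by
        intro a ha
        have h1 := mem_sdiff.1 ha
        have h2 := mem_erase.1 h1.1
        rcases mem_insert.1 h2.2 with h3 | h3
        · exact absurd (h3 ▸ hvP) h1.2
        · exact h3
      have hxQ : x ∉ Q := fun h1 => (mem_erase.1 (mem_sdiff.1 h1).1).1 rfl
      have hQne : Q.Nonempty := by
        rw [hQdef, sdiff_nonempty]
        intro h1
        exact hPne (Subset.antisymm hP h1)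
      -- no edges between `P` and `Q`
      have hPQ : ∀ p ∈ P, ∀ q ∈ Q, ¬ G.Adj p q := by
        intro p hp q hq hpq
        have hq' := mem_sdiff.1 hq
        exact hcon p hp q hq'.1 hq'.2 ⟨hpq, (mem_erase.1 (hP hp)).2, (mem_erase.1 hq'.1).2⟩
      obtain ⟨J1, hJ1⟩ := move h.on hW hxW hQW hxQ (fun a ha b hb hbQ hab => by
        by_contra hbx
        have hbP : b ∈ P := by
          by_contra hbP
          exact hbQ (mem_sdiff.2 ⟨mem_erase.2 ⟨hbx, hb⟩, hbP⟩)
        exact hPQ b hbP a ha hab.symm) (fun a ha hva => hPQ v hvP a ha hva)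
      have h1 := hmin _ _ hJ1
      rw [card_sdiff_of_subset hQW] at h1
      have h2 := hQne.card_pos
      have h3 := card_le_card hQW
      omega
  · -- the hanging graphs are connected
    have hwJ : w ∉ J w := fun h1 => (mem_sdiff.1 (hW.str.Jsub w h1)).2 hw
    refine P512.conn_of_forall (r := w) (mem_insert_self _ _) (fun P hP hwP hPne => ?_)
    have hQne : (J w \ P).Nonempty := by
      rw [sdiff_nonempty]
      intro h1
      exact hPne (Subset.antisymm hP (insert_subset hwP h1))
    have hJU : J w ⊆ U := fun a ha => (mem_sdiff.1 (hW.str.Jsub w ha)).1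
    obtain ⟨a, ha, b, hb, hbn, hab⟩ := hconnX.2 (J w \ P)
      ((sdiff_subset.trans hJU).trans (subset_insert _ _)) hQne (fun he => by
        have h1 : v ∈ J w \ P := by rw [he]; exact mem_insert_self _ _
        exact h.hv (hJU (mem_sdiff.1 h1).1))
    have ha' := mem_sdiff.1 ha
    have hbP : b ∈ P := by
      rcases hW.out w a ha'.1 b hab with h1 | h1
      · exact h1 ▸ hwP
      · by_contra h2
        exact hbn (mem_sdiff.2 ⟨h1, h2⟩)
    exact ⟨b, hbP, a, mem_insert_of_mem ha'.1, ha'.2, hab.symm, hP hbP, mem_insert_of_mem ha'.1⟩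

end K5
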