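import Pool.Agent.Lib.K5.BDefs
import Pool.Agent.Lib.K5.Sum
import Pool.Agent.Lib.P512.ConnB

/-!
# K5.BStrP: a block with hanging graphs is planted

`hv`, `on`: clear. `conn`: `Conn G U`: let `w0 ∈ W`, `P512.conn_of_forall` with `r = w0`: let `w0 ∈ P ≠ U`. If `W ⊆ P`, take `u ∈ U \ P`; `u ∈ J w` with `w ∈ W ⊆ P`; `Conn` of `rst G (insert w (J w))` for `P ∩ insert w (J w)`. Otherwise
`Conn` of `rst G (insert v W)` on `(insert v W).erase v = W` for `P ∩ W`. `adj`: `Conn (rst G (insert v W)) (insert v W)` for `{v}`.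
`free`: claim: `¬ P512.K5In G (insert v W ∪ T.biUnion J)` for every `T ⊆ W` (`Finset.induction`). `T = ∅`: a model in `insert v W` is a model of `rst G (insert v W)` (`k5_congr` in K5.Sum or directly), against `core.free`.
Step `insert w T`: `k5in_sum` (K5.Sum) with `S1 = insert v W ∪ T.biUnion J`, `S2 = insert w (J w)`: `S1 ∩ S2 = {w}` (`J w` is disjoint from `insert v W` and from the other `J w'`), so `hc` holds and `hX` is vacuous; an edge
from `a ∈ S1 \ S2` to `b ∈ S2 \ S1` is impossible (`b ∈ J w`, so `a ∈ S2` by `out`). So a model in `S1 ∪ S2` gives one in `S1` (induction) or in `S2` (against `hang.free`). Finally `T = W`: `insert v W ∪ W.biUnion J = insert v U`, `k5in_of_k5`.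
-/

namespace K5

open Finset

namespace BStrPAux

theorem conn_of_rst {G : Gr} {S B : Finset ℕ} (h : P512.Conn (rst G S) B) : P512.Conn G B :=
  SumAux.conn_congr (G := rst G S) (G' := G) (Finset.Subset.refl B) (fun _ _ _ _ hab => hab.1) h

theorem nok5 {v : ℕ} {U W : Finset ℕ} {J : ℕ → Finset ℕ} {G : Gr} (h : GStr v U W J G)
    (T : Finset ℕ) (hT : T ⊆ W) : ¬ P512.K5In G (insert v W ∪ T.biUnion J) := by
  classical
  obtain ⟨⟨hv, hWU, hWne, hJs, hJd, hJc, hJo⟩, hon, hout, hcore, hhang⟩ := h
  have hJU : ∀ w, J w ⊆ U := fun w x hx => (mem_sdiff.1 (hJs w hx)).1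
  have hJW : ∀ w, ∀ x ∈ J w, x ∉ W := fun w x hx => (mem_sdiff.1 (hJs w hx)).2
  induction T using Finset.induction_on with
  | empty =>
    intro h5
    rw [Finset.biUnion_empty, Finset.union_empty] at h5
    exact hcore.free (SumAux.k5_congr (G' := rst G (insert v W))
      (fun a ha b hb hab => ⟨hab, ha, hb⟩) h5).k5
  | insert w T hw ih =>
    intro h5
    have hwW : w ∈ W := hT (mem_insert_self _ _)
    have hTW : T ⊆ W := fun x hx => hT (mem_insert_of_mem hx)
    have e1 : insert v W ∪ (insert w T).biUnion J =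
        (insert v W ∪ T.biUnion J) ∪ insert w (J w) := by
      ext x
      simp only [mem_union, mem_insert, mem_biUnion]
      constructor
      · rintro (h | ⟨a, rfl | ha, hx⟩)
        · exact Or.inl (Or.inl h)
        · exact Or.inr (Or.inr hx)
        · exact Or.inl (Or.inr ⟨a, ha, hx⟩)
      · rintro ((h | ⟨a, ha, hx⟩) | h | h)
        · exact Or.inl h
        · exact Or.inr ⟨a, Or.inr ha, hx⟩
        · subst h
          exact Or.inl (Or.inr hwW)
        · exact Or.inr ⟨w, Or.inl rfl, h⟩
    have hint : (insert v W ∪ T.biUnion J) ∩ insert w (J w) ⊆ {w} := by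
      intro x hx
      rw [mem_inter, mem_insert] at hx
      rw [mem_singleton]
      rcases hx.2 with h | h
      · exact h
      · exfalso
        rcases mem_union.1 hx.1 with h1 | h1
        · rcases mem_insert.1 h1 with h2 | h2
          · rw [h2] at h
            exact hv (hJU w h)
          · exact hJW w x h h2
        · obtain ⟨a, ha, hxa⟩ := mem_biUnion.1 h1
          have hne : a ≠ w := fun e => hw (e ▸ ha)
          exact Finset.disjoint_left.1 (hJd a w hne) hxa h
    rw [e1] at h5
    rcases k5in_sum (by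
        have := Finset.card_le_card hint
        rw [Finset.card_singleton] at this
        omega) (by
        intro a ha b hb hab
        exact absurd ((mem_singleton.1 (hint ha)).trans (mem_singleton.1 (hint hb)).symm) hab) (by
        intro a ha b hb ha2 hb1 hab
        rcases mem_insert.1 hb with h | h
        · subst h
          exact hb1 (mem_union_left _ (mem_insert_of_mem hwW))
        · rcases hout w b h a hab.symm with h1 | h1
          · exact ha2 (by rw [h1]; exact mem_insert_self _ _)
          · exact ha2 (mem_insert_of_mem h1)) h5 with h | h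
    · exact ih hTW h
    · exact (hhang w hwW).free (SumAux.k5_congr (G' := rst G (insert w (J w)))
        (fun a ha b hb hab => ⟨hab, ha, hb⟩) h).k5

end BStrPAux

theorem GStr.pl {v : ℕ} {U W : Finset ℕ} {J : ℕ → Finset ℕ} {G : Gr} (h : GStr v U W J G) :
    PL v U G := by
  classical
  have hk := BStrPAux.nok5 h W (Finset.Subset.refl W)
  obtain ⟨⟨hv, hWU, hWne, hJs, hJd, hJc, hJo⟩, hon, hout, hcore, hhang⟩ := h
  have hvW : v ∉ W := fun h => hv (hWU h)
  have hJU : ∀ w, J w ⊆ U := fun w x hx => (mem_sdiff.1 (hJs w hx)).1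
  have hcW : P512.Conn G W := by
    have h1 := hcore.blk.2.2 v (mem_insert_self _ _)
    rw [Finset.erase_insert hvW] at h1
    exact BStrPAux.conn_of_rst h1
  refine ⟨hv, hon, ?_, ?_, ?_⟩
  · obtain ⟨w0, hw0⟩ := hWne
    refine P512.conn_of_forall (hWU hw0) (fun P hPU hw0P hP => ?_)
    by_cases hWP : W ⊆ P
    · obtain ⟨u, hu, huP⟩ : ∃ u ∈ U, u ∉ P := by
        by_contra hcon
        push Not at hcon
        exact hP (Finset.Subset.antisymm hPU hcon)
      obtain ⟨w, hw, huw⟩ := hJc u (mem_sdiff.2 ⟨hu, fun h => huP (hWP h)⟩)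
      have hc := BStrPAux.conn_of_rst (hhang w hw).conn
      obtain ⟨a, ha, b, hb, hbn, hab⟩ := hc.2 (P ∩ insert w (J w)) inter_subset_right
        ⟨w, mem_inter.2 ⟨hWP hw, mem_insert_self _ _⟩⟩ (fun e => by
          have : u ∈ P ∩ insert w (J w) := by
            rw [e]
            exact mem_insert_of_mem huw
          exact huP (mem_inter.1 this).1)
      refine ⟨a, (mem_inter.1 ha).1, b, ?_, fun h => hbn (mem_inter.2 ⟨h, hb⟩), hab⟩
      rcases mem_insert.1 hb with h | h
      · rw [h]
        exact hWU hw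
      · exact hJU w h
    · obtain ⟨a, ha, b, hb, hbn, hab⟩ := hcW.2 (P ∩ W) inter_subset_right
        ⟨w0, mem_inter.2 ⟨hw0P, hw0⟩⟩ (fun e => hWP (by
          intro x hx
          rw [← e] at hx
          exact (mem_inter.1 hx).1))
      exact ⟨a, (mem_inter.1 ha).1, b, hWU hb, fun h => hbn (mem_inter.2 ⟨h, hb⟩), hab⟩
  · obtain ⟨w0, hw0⟩ := hWne
    obtain ⟨a, ha, b, hb, hbn, hab⟩ := (BStrPAux.conn_of_rst hcore.blk.2.1).2 {v} (by
      intro x hx
      rw [mem_singleton.1 hx]
      exact mem_insert_self _ _) (singleton_nonempty v) (fun e => by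
        have : w0 ∈ ({v} : Finset ℕ) := by
          rw [e]
          exact mem_insert_of_mem hw0
        rw [mem_singleton.1 this] at hw0
        exact hvW hw0)
    rw [mem_singleton] at ha
    subst ha
    rcases mem_insert.1 hb with h | h
    · exact absurd (mem_singleton.2 h) hbn
    · exact ⟨b, hWU h, hab⟩
  · intro h5
    apply hk
    have e : insert v W ∪ W.biUnion J = insert v U := by
      ext x
      simp only [mem_union, mem_insert, mem_biUnion]
      constructor
      · rintro ((h | h) | ⟨a, ha, hx⟩)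
        · exact Or.inl h
        · exact Or.inr (hWU h)
        · exact Or.inr (hJU a hx)
      · rintro (h | h)
        · exact Or.inl (Or.inl h)
        · by_cases hxW : x ∈ W
          · exact Or.inl (Or.inr hxW)
          · exact Or.inr (hJc x (mem_sdiff.2 ⟨h, hxW⟩))
    rw [e]
    exact k5in_of_k5 hon h5

end K5
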