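import Pool.Agent.Lib.K5.BDefs
import Pool.Agent.Lib.P512.ConnB

/-!
# K5.BStrU: uniqueness of the block at the root

1. `conn_all`: `Conn G (insert v U)` if `GStr v U W J G`: `P512.conn_of_forall` with `r = v`: let `v ∈ P ≠ insert v U`. If `insert v W ⊆ P`, take `u ∈ U \ P`, `u ∈ J w` with `w ∈ W ⊆ P`, and use `Conn` of `rst G (insert w (J w))` for
   `P ∩ insert w (J w)` (nonempty, proper); otherwise use `Conn` of `rst G (insert v W)` for `P ∩ insert v W`.
2. `no_frag`: let `GStr v U W J G`, `I ⊆ U`, `x ≠ v`, `x ∉ I` such that every edge from `I` to `insert v U \ I` ends in `x`. Then `I` contains no vertex of `W`. Proof: let `P := I ∩ W`, suppose it is nonempty. An element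
   of `insert v W` that is not in `P` is not in `I`. If `x ∈ W`: `Conn (rst G (insert v W)) ((insert v W).erase x)` for `P` (it is a proper subset: `v ∉ P`, `v ≠ x`) gives an edge from `P ⊆ I` to some `b ≠ x`, `b ∈ insert v W \ P`,
   so `b ∉ I` and `b = x`, contradiction. If `x ∉ W` then `x ∉ insert v W`, and `Conn (rst G (insert v W)) (insert v W)` for `P` gives an edge from `P` to `b ∈ insert v W \ P`, so `b ∉ I`, `b = x ∈ insert v W`, contradiction.
3. Uniqueness of `W`: let `(W, J)`, `(W', J')` be two structures. If `w0 ∈ W \ W'`, then `w0 ∈ J' w'` for some `w' ∈ W'` and `I := J' w'`, `x := w'` contradict 2. By symmetry `W = W'`.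
4. Uniqueness of `J`: let `w ≠ w'` be in `W` and `A := J w ∩ J' w'`. If `A` is nonempty, 1 gives an edge from `a ∈ A` to `b ∈ insert v U \ A`; by `out` for both, `b ∈ insert w (J w)` and `b ∈ insert w' (J' w')`; since `w, w' ∈ W` are in no `J`
   and `w ≠ w'`, `b ∈ J w ∩ J' w'`, contradiction. So `J w ∩ J' w' = ∅` for `w ≠ w'`, and the covers give `J w = J' w`; outside `W` both are empty.
-/

namespace K5

open Finset

private theorem BStrUAux.rst_adj {G : Gr} {S : Finset ℕ} {a b : ℕ} (h : (rst G S).Adj a b) :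
    G.Adj a b := h.1

theorem GStr.conn_all {v : ℕ} {U W : Finset ℕ} {J : ℕ → Finset ℕ} {G : Gr}
    (h : GStr v U W J G) : P512.Conn G (insert v U) := by
  refine P512.conn_of_forall (r := v) (Finset.mem_insert_self v U) (fun P hP hvP hne => ?_)
  by_cases hWP : insert v W ⊆ P
  · obtain ⟨u, hu, huP⟩ : ∃ u ∈ insert v U, u ∉ P := by
      by_contra hcon
      push Not at hcon
      exact hne (le_antisymm hP hcon)
    have hu1 : u ∈ U := by
      rcases Finset.mem_insert.1 hu with rfl | h1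
      · exact (huP hvP).elim
      · exact h1
    have hu2 : u ∉ W := fun h1 => huP (hWP (Finset.mem_insert_of_mem h1))
    obtain ⟨w, hw, huw⟩ := h.str.Jcover u (Finset.mem_sdiff.2 ⟨hu1, hu2⟩)
    obtain ⟨a, ha, b, hb, hbn, e⟩ := (h.hang w hw).conn.2 (P ∩ insert w (J w))
      Finset.inter_subset_right
      ⟨w, Finset.mem_inter.2 ⟨hWP (Finset.mem_insert_of_mem hw), Finset.mem_insert_self w _⟩⟩
      (fun he => by
        have h1 : u ∈ insert w (J w) := Finset.mem_insert_of_mem huw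
        rw [← he] at h1
        exact huP (Finset.mem_inter.1 h1).1)
    refine ⟨a, (Finset.mem_inter.1 ha).1, b, ?_, fun h1 => hbn (Finset.mem_inter.2 ⟨h1, hb⟩),
      BStrUAux.rst_adj e⟩
    rcases Finset.mem_insert.1 hb with rfl | h1
    · exact Finset.mem_insert_of_mem (h.str.sub hw)
    · exact Finset.mem_insert_of_mem (Finset.mem_sdiff.1 (h.str.Jsub w h1)).1
  · obtain ⟨a, ha, b, hb, hbn, e⟩ := h.core.blk.2.1.2 (P ∩ insert v W)
      Finset.inter_subset_right
      ⟨v, Finset.mem_inter.2 ⟨hvP, Finset.mem_insert_self v _⟩⟩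
      (fun he => hWP (by
        intro z hz
        rw [← he] at hz
        exact (Finset.mem_inter.1 hz).1))
    refine ⟨a, (Finset.mem_inter.1 ha).1, b, ?_, fun h1 => hbn (Finset.mem_inter.2 ⟨h1, hb⟩),
      BStrUAux.rst_adj e⟩
    exact Finset.insert_subset_insert v h.str.sub hb

theorem GStr.no_frag {v : ℕ} {U W : Finset ℕ} {J : ℕ → Finset ℕ} {G : Gr}
    (h : GStr v U W J G) {I : Finset ℕ} {x : ℕ} (hI : I ⊆ U) (hx : x ≠ v) (hxI : x ∉ I)
    (hb : ∀ a ∈ I, ∀ b ∈ insert v U, b ∉ I → G.Adj a b → b = x) : ∀ w ∈ I, w ∉ W := by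
  intro w hwI hwW
  have hvI : v ∉ I := fun h1 => h.str.hv (hI h1)
  have hsub : insert v W ⊆ insert v U := Finset.insert_subset_insert v h.str.sub
  have key : ∀ b ∈ insert v W, b ∉ I ∩ W → b ∉ I := by
    intro b hb1 hb2 hb3
    rcases Finset.mem_insert.1 hb1 with rfl | h1
    · exact hvI hb3
    · exact hb2 (Finset.mem_inter.2 ⟨hb3, h1⟩)
  by_cases hxW : x ∈ W
  · obtain ⟨a, ha, b, hb1, hbn, e⟩ :=
      (h.core.blk.2.2 x (Finset.mem_insert_of_mem hxW)).2 (I ∩ W) (by
        intro z hz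
        rw [Finset.mem_inter] at hz
        rw [Finset.mem_erase]
        refine ⟨?_, Finset.mem_insert_of_mem hz.2⟩
        rintro rfl
        exact hxI hz.1) ⟨w, Finset.mem_inter.2 ⟨hwI, hwW⟩⟩ (by
        intro he
        have h1 : v ∈ (insert v W).erase x :=
          Finset.mem_erase.2 ⟨hx.symm, Finset.mem_insert_self v W⟩
        rw [← he] at h1
        exact hvI (Finset.mem_inter.1 h1).1)
    rw [Finset.mem_erase] at hb1
    exact hb1.1 (hb a (Finset.mem_inter.1 ha).1 b (hsub hb1.2) (key b hb1.2 hbn)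
      (BStrUAux.rst_adj e))
  · obtain ⟨a, ha, b, hb1, hbn, e⟩ := h.core.blk.2.1.2 (I ∩ W) (by
        intro z hz
        exact Finset.mem_insert_of_mem (Finset.mem_inter.1 hz).2)
        ⟨w, Finset.mem_inter.2 ⟨hwI, hwW⟩⟩ (by
        intro he
        have h1 : v ∈ insert v W := Finset.mem_insert_self v W
        rw [← he] at h1
        exact hvI (Finset.mem_inter.1 h1).1)
    have h2 : b = x := hb a (Finset.mem_inter.1 ha).1 b (hsub hb1) (key b hb1 hbn)
      (BStrUAux.rst_adj e)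
    rw [h2] at hb1
    rcases Finset.mem_insert.1 hb1 with h3 | h3
    · exact hx h3
    · exact hxW h3

private theorem BStrUAux.sub {v : ℕ} {U W W' : Finset ℕ} {J J' : ℕ → Finset ℕ} {G : Gr}
    (h : GStr v U W J G) (h' : GStr v U W' J' G) : W ⊆ W' := by
  intro w0 hw0
  by_contra hcon
  obtain ⟨w', hw', hw0'⟩ := h'.str.Jcover w0 (Finset.mem_sdiff.2 ⟨h.str.sub hw0, hcon⟩)
  refine h.no_frag (I := J' w') (x := w') (fun z hz => (Finset.mem_sdiff.1 (h'.str.Jsub w' hz)).1)
    ?_ (fun hz => (Finset.mem_sdiff.1 (h'.str.Jsub w' hz)).2 hw') ?_ w0 hw0' hw0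
  · rintro rfl
    exact h'.str.hv (h'.str.sub hw')
  · intro a ha b _ hbn e
    exact (h'.out w' a ha b e).resolve_right hbn

private theorem BStrUAux.disj {v : ℕ} {U W : Finset ℕ} {J J' : ℕ → Finset ℕ} {G : Gr}
    (h : GStr v U W J G) (h' : GStr v U W J' G) {w w' : ℕ} (hw : w ∈ W) (hw' : w' ∈ W)
    (hne : w ≠ w') {a : ℕ} (ha : a ∈ J w) (ha' : a ∈ J' w') : False := by
  obtain ⟨c, hc, b, -, hbn, e⟩ := h.conn_all.2 (J w ∩ J' w') (by
      intro z hz
      exact Finset.mem_insert_of_mem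
        (Finset.mem_sdiff.1 (h.str.Jsub w (Finset.mem_inter.1 hz).1)).1)
    ⟨a, Finset.mem_inter.2 ⟨ha, ha'⟩⟩ (by
      intro he
      have h1 : v ∈ insert v U := Finset.mem_insert_self v U
      rw [← he] at h1
      exact h.str.hv (Finset.mem_sdiff.1 (h.str.Jsub w (Finset.mem_inter.1 h1).1)).1)
  rw [Finset.mem_inter] at hc
  rcases h.out w c hc.1 b e with h1 | h1
  · rcases h'.out w' c hc.2 b e with h2 | h2
    · exact hne (h1.symm.trans h2)
    · rw [h1] at h2
      exact (Finset.mem_sdiff.1 (h'.str.Jsub w' h2)).2 hw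
  · rcases h'.out w' c hc.2 b e with h2 | h2
    · rw [h2] at h1
      exact (Finset.mem_sdiff.1 (h.str.Jsub w h1)).2 hw'
    · exact hbn (Finset.mem_inter.2 ⟨h1, h2⟩)

private theorem BStrUAux.jsub {v : ℕ} {U W : Finset ℕ} {J J' : ℕ → Finset ℕ} {G : Gr}
    (h : GStr v U W J G) (h' : GStr v U W J' G) {w : ℕ} (hw : w ∈ W) : J w ⊆ J' w := by
  intro a ha
  obtain ⟨w', hw', ha'⟩ := h'.str.Jcover a (h.str.Jsub w ha)
  by_cases hne : w = w'
  · rw [hne]; exact ha'
  · exact (BStrUAux.disj h h' hw hw' hne ha ha').elim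

theorem gstr_unique {v : ℕ} {U W W' : Finset ℕ} {J J' : ℕ → Finset ℕ} {G : Gr}
    (h : GStr v U W J G) (h' : GStr v U W' J' G) : W = W' ∧ J = J' := by
  have hW : W = W' := le_antisymm (BStrUAux.sub h h') (BStrUAux.sub h' h)
  subst hW
  refine ⟨rfl, ?_⟩
  funext w
  by_cases hw : w ∈ W
  · exact le_antisymm (BStrUAux.jsub h h' hw) (BStrUAux.jsub h' h hw)
  · rw [h.str.Jout w hw, h'.str.Jout w hw]

end K5
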