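import Pool.Agent.Lib.K5.CLMul

/-!
# K5.CLFam: families of structures indexed by a finite set

1. `sum_fam`: for finite types `α`, `ι` with `n` and `m` elements: transport along bijections with `Fin n`, `Fin m`; the product over `i : ι` of the weights of the fibre sizes.
2. `fam_succ`: `fam F (m+1) n = ∑_{A ⊆ range n} F |A| * fam F m |range n \ A|`: a map `Fin n → Fin (m+1)` is the fibre `A` of the last element and a map of the rest to `Fin m`.
3. `egf_fam`: `egf (fam F m) x = (egf F x)^m`, by induction on `m` with 2 and `egf_mul`; for `m = 0`, `fam F 0 n = 1` if `n = 0` and `0` otherwise (empty product / no maps).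
-/

namespace K5

open Finset
open scoped ENNReal

theorem sum_fam (F : ℕ → ℝ≥0∞) {α ι : Type*} [Fintype α] [Fintype ι] [DecidableEq α]
    [DecidableEq ι] :
    ∑ f : α → ι, ∏ i, F (univ.filter (fun j => f j = i)).card =
      fam F (Fintype.card ι) (Fintype.card α) := by
  unfold fam
  have e : α ≃ Fin (Fintype.card α) := Fintype.equivFin α
  have d : ι ≃ Fin (Fintype.card ι) := Fintype.equivFin ι
  refine Fintype.sum_equiv (Equiv.arrowCongr e d) _ _ ?_
  intro f
  refine Fintype.prod_equiv d _ _ ?_
  intro i
  congr 1
  refine Finset.card_equiv e ?_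
  intro j
  simp only [Finset.mem_filter, Finset.mem_univ, true_and, Equiv.arrowCongr_apply,
    Function.comp_apply, Equiv.symm_apply_apply, EmbeddingLike.apply_eq_iff_eq]

/-- The functions with a given fibre of the last element. -/
theorem CLFamAux.fibre (F : ℕ → ℝ≥0∞) (m n : ℕ) (A : Finset (Fin n)) :
    ∑ f ∈ (univ : Finset (Fin n → Fin (m + 1))).filter
        (fun f => univ.filter (fun j => f j = Fin.last m) = A),
      ∏ i, F (univ.filter (fun j => f j = i)).card =
    F A.card * fam F m (n - A.card) := by
  have hcard : Fintype.card {x : Fin n // x ∉ A} = n - A.card := by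
    rw [Fintype.card_subtype_compl, Fintype.card_fin]
    simp
  have h0 := sum_fam F (α := {x : Fin n // x ∉ A}) (ι := Fin m)
  rw [hcard, Fintype.card_fin] at h0
  rw [← h0, Finset.mul_sum]
  symm
  refine Finset.sum_bij (fun (g : {x : Fin n // x ∉ A} → Fin m) _ =>
    fun x : Fin n => if h : x ∈ A then Fin.last m else Fin.castSucc (g ⟨x, h⟩)) ?_ ?_ ?_ ?_
  · intro g _
    rw [Finset.mem_filter]
    refine ⟨Finset.mem_univ _, ?_⟩
    ext x
    simp only [Finset.mem_filter, Finset.mem_univ, true_and]
    constructor
    · intro hx
      by_contra hA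
      rw [dif_neg hA] at hx
      exact (Fin.castSucc_lt_last _).ne hx
    · intro hA
      rw [dif_pos hA]
  · intro g _ g' _ hgg
    funext x
    have h1 := congrFun hgg x.1
    simp only [dif_neg x.2] at h1
    exact Fin.castSucc_injective m h1
  · intro f hf
    rw [Finset.mem_filter] at hf
    have hA : ∀ x, x ∈ A ↔ f x = Fin.last m := by
      intro x
      rw [← hf.2, Finset.mem_filter]
      simp
    refine ⟨fun x => (f x.1).castPred (fun h => x.2 ((hA x.1).2 h)), Finset.mem_univ _, ?_⟩
    funext x
    by_cases hx : x ∈ A
    · simp only [dif_pos hx]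
      exact ((hA x).1 hx).symm
    · simp only [dif_neg hx, Fin.castSucc_castPred]
  · intro g _
    rw [Fin.prod_univ_castSucc, mul_comm]
    congr 1
    · refine Finset.prod_congr rfl ?_
      intro i _
      congr 1
      refine Finset.card_bij (fun (j : {x : Fin n // x ∉ A}) _ => j.1) ?_ ?_ ?_
      · intro j hj
        rw [Finset.mem_filter] at hj ⊢
        refine ⟨Finset.mem_univ _, ?_⟩
        simp only [dif_neg j.2, hj.2]
      · intro a _ b _ hab
        exact Subtype.ext hab
      · intro j hj
        rw [Finset.mem_filter] at hj
        by_cases hA : j ∈ A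
        · have h2 := hj.2
          simp only [dif_pos hA] at h2
          exact absurd h2.symm (Fin.castSucc_lt_last _).ne
        · have h2 := hj.2
          simp only [dif_neg hA] at h2
          exact ⟨⟨j, hA⟩, Finset.mem_filter.2 ⟨Finset.mem_univ _, Fin.castSucc_injective m h2⟩, rfl⟩
    · congr 1
      congr 1
      ext x
      simp only [Finset.mem_filter, Finset.mem_univ, true_and]
      constructor
      · intro hA
        rw [dif_pos hA]
      · intro hx
        by_contra hA
        rw [dif_neg hA] at hx
        exact (Fin.castSucc_lt_last _).ne hx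

theorem fam_succ (F : ℕ → ℝ≥0∞) (m n : ℕ) :
    fam F (m + 1) n = ∑ A ∈ (range n).powerset, F A.card * fam F m (range n \ A).card := by
  have h1 : fam F (m + 1) n = ∑ A : Finset (Fin n), F A.card * fam F m (n - A.card) := by
    unfold fam
    rw [← Finset.sum_fiberwise_of_maps_to (s := univ) (t := univ)
      (g := fun f : Fin n → Fin (m + 1) => univ.filter (fun j => f j = Fin.last m))
      (fun _ _ => Finset.mem_univ _)]
    exact Finset.sum_congr rfl fun A _ => CLFamAux.fibre F m n A
  have h2 : ∑ A ∈ (range n).powerset, F A.card * fam F m (range n \ A).card =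
      ∑ A ∈ (range n).powerset, F A.card * fam F m (n - A.card) := by
    refine Finset.sum_congr rfl fun A hA => ?_
    rw [Finset.card_sdiff_of_subset (Finset.mem_powerset.1 hA), Finset.card_range]
  rw [h1, h2, ← Finset.powerset_univ,
    Finset.sum_powerset_apply_card (fun k => F k * fam F m (n - k)),
    Finset.sum_powerset_apply_card (fun k => F k * fam F m (n - k)), Finset.card_univ,
    Fintype.card_fin, Finset.card_range]

theorem egf_fam (F : ℕ → ℝ≥0∞) (m : ℕ) (x : ℝ≥0∞) : egf (fam F m) x = egf F x ^ m := by
  induction m with
  | zero =>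
    unfold egf
    rw [tsum_eq_single 0]
    · unfold fam
      simp
    · intro n hn
      have : fam F 0 n = 0 := by
        unfold fam
        have : IsEmpty (Fin n → Fin 0) := by
          refine ⟨fun f => ?_⟩
          exact (f ⟨0, Nat.pos_of_ne_zero hn⟩).elim0
        simp
      rw [this, mul_zero]
  | succ m ih =>
    have h : fam F (m + 1) = fun n => ∑ A ∈ (range n).powerset,
        F A.card * fam F m (range n \ A).card := by
      funext n
      exact fam_succ F m n
    rw [h, egf_mul, ih, pow_succ']

end K5
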