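import Pool.Agent.Lib.K5.BStrC
import Pool.Agent.Lib.K5.BStrE
import Pool.Agent.Lib.K5.BStrU
import Pool.Agent.Lib.K5.BStrP
import Pool.Agent.Lib.K5.CLFam

/-!
# K5.BStrN: the number of planted graphs

For `W ⊆ U` and `f : ↥(U \ W) → ↥W` let `Jf f w` be the set of the `u ∈ U \ W` with `f u = w` (`((univ.filter (fun j => (f j : ℕ) = w)).map (Function.Embedding.subtype _))`); for nonempty `W` it satisfies
`HStr v U W (Jf f)`, every `J` with `HStr v U W J` is `Jf f` for a unique `f` (`f u` is the `w` with `u ∈ J w`: `Jcover`, `Jdisj`).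
By `exists_gstr`, `gstr_unique`, `GStr.pl` the type `{G // PL v U G}` is in bijection with the sigma type of the triples `W`, `f`, `G` with `GStr v U W (Jf f) G` (`W` nonempty); so its cardinality is
`∑ W ∈ U.powerset, ∑ f, Nat.card {G // GStr v U W (Jf f) G}` (`Nat.card_sigma`, the types are finite) `= ∑ W, ∑ f, bC W.card * ∏ w, rC (fibre).card` (`gstr_card`), and the sum over `f` is `sum_fam` (CLFam) with
`α = ↥(U \ W)`, `ι = ↥W`. The term `W = ∅` on the right side vanishes: `bC 0 = 0` (a block has at least two vertices). `pC_zero`: `Conn G ∅` is false.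
`pE_eq`: `pl_sum` for `v = 0`, `U = Ico 1 (n + 1)`; both sums are sums over `antidiagonal n` by `sum_powerset_pair` (CLMul) with `g a b = bE a * fam rE a b`.
-/

namespace K5

open Finset
open scoped ENNReal

theorem bC_zero : bC 0 = 0 := by
  unfold bC
  have : IsEmpty {G : Gr // BK 0 (Ico 1 (0 + 1)) G} := by
    refine ⟨fun G => ?_⟩
    have h := G.2.blk.1
    simp at h
  exact Nat.card_of_isEmpty

theorem pC_zero : pC 0 = 0 := by
  unfold pC
  have : IsEmpty {G : Gr // PL 0 (Ico 1 (0 + 1)) G} := by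
    refine ⟨fun G => ?_⟩
    have h := G.2.conn.1
    simp at h
  exact Nat.card_of_isEmpty

namespace BStrNAux

open Classical in
theorem tsum_one_eq {α : Type*} (p : α → Prop) :
    ∑' _ : {x : α // p x}, (1 : ℝ≥0∞) = ∑' x : α, if p x then 1 else 0 := by
  have h := _root_.tsum_subtype {x : α | p x} (fun _ => (1 : ℝ≥0∞))
  refine h.trans (tsum_congr (fun x => ?_))
  by_cases hx : p x
  · rw [if_pos hx, Set.indicator_of_mem (by exact hx)]
  · rw [if_neg hx, Set.indicator_of_notMem (by exact hx)]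

/-- The hanging sets of a map. -/
def Jf {U W : Finset ℕ} (f : {x // x ∈ U \ W} → {x // x ∈ W}) (w : ℕ) : Finset ℕ :=
  (univ.filter (fun j => ((f j : {x // x ∈ W}) : ℕ) = w)).map (Function.Embedding.subtype _)

theorem mem_Jf {U W : Finset ℕ} {f : {x // x ∈ U \ W} → {x // x ∈ W}} {w u : ℕ} :
    u ∈ Jf f w ↔ ∃ h : u ∈ U \ W, ((f ⟨u, h⟩ : {x // x ∈ W}) : ℕ) = w := by
  unfold Jf
  rw [Finset.mem_map]
  constructor
  · rintro ⟨j, hj, rfl⟩
    exact ⟨j.2, (Finset.mem_filter.1 hj).2⟩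
  · rintro ⟨h, h1⟩
    exact ⟨⟨u, h⟩, Finset.mem_filter.2 ⟨Finset.mem_univ _, h1⟩, rfl⟩

theorem hstr_Jf {v : ℕ} {U W : Finset ℕ} (hv : v ∉ U) (hW : W ⊆ U) (hne : W.Nonempty)
    (f : {x // x ∈ U \ W} → {x // x ∈ W}) : HStr v U W (Jf f) := by
  refine ⟨hv, hW, hne, fun w u hu => ?_, fun w w' hww => ?_, fun u hu => ?_, fun w hw => ?_⟩
  · obtain ⟨h, -⟩ := mem_Jf.1 hu
    exact h
  · rw [Finset.disjoint_left]
    intro u hu hu'
    obtain ⟨h, h1⟩ := mem_Jf.1 hu
    obtain ⟨h', h1'⟩ := mem_Jf.1 hu'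
    exact hww (h1.symm.trans h1')
  · exact ⟨(f ⟨u, hu⟩ : {x // x ∈ W}), (f ⟨u, hu⟩).2, mem_Jf.2 ⟨hu, rfl⟩⟩
  · rw [Finset.eq_empty_iff_forall_notMem]
    intro u hu
    obtain ⟨h, h1⟩ := mem_Jf.1 hu
    exact hw (h1 ▸ (f ⟨u, h⟩).2)

theorem exists_Jf {v : ℕ} {U W : Finset ℕ} {J : ℕ → Finset ℕ} (h : HStr v U W J) :
    ∃ f : {x // x ∈ U \ W} → {x // x ∈ W}, Jf f = J := by
  have h1 : ∀ u : {x // x ∈ U \ W}, ∃ w : {x // x ∈ W}, u.1 ∈ J w.1 := fun u => by
    obtain ⟨w, hw, hu⟩ := h.Jcover u.1 u.2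
    exact ⟨⟨w, hw⟩, hu⟩
  choose f hf using h1
  refine ⟨f, ?_⟩
  funext w
  ext u
  rw [mem_Jf]
  constructor
  · rintro ⟨hu, rfl⟩
    exact hf ⟨u, hu⟩
  · intro hu
    refine ⟨h.Jsub w hu, ?_⟩
    by_contra hne
    exact Finset.disjoint_left.1 (h.Jdisj _ _ hne) (hf ⟨u, h.Jsub w hu⟩) hu

theorem Jf_inj {U W : Finset ℕ} {f f' : {x // x ∈ U \ W} → {x // x ∈ W}} (h : Jf f = Jf f') :
    f = f' := by
  funext u
  have h1 : u.1 ∈ Jf f (f u).1 := mem_Jf.2 ⟨u.2, rfl⟩
  rw [h] at h1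
  obtain ⟨h2, h3⟩ := mem_Jf.1 h1
  exact Subtype.ext h3.symm

theorem card_Jf {U W : Finset ℕ} (f : {x // x ∈ U \ W} → {x // x ∈ W}) (w : {x // x ∈ W}) :
    (Jf f w.1).card = (univ.filter (fun j => f j = w)).card := by
  unfold Jf
  rw [Finset.card_map]
  congr 1
  ext j
  simp only [Finset.mem_filter, Finset.mem_univ, true_and]
  exact ⟨fun h => Subtype.ext h, fun h => congrArg _ h⟩

theorem finite_gstr (v : ℕ) (U W : Finset ℕ) (J : ℕ → Finset ℕ) :
    Finite {G : Gr // GStr v U W J G} := by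
  have := finite_pl v U
  refine Finite.of_injective
    (fun G : {G : Gr // GStr v U W J G} => (⟨G.1, G.2.pl⟩ : {G : Gr // PL v U G})) ?_
  intro G G' hG
  apply Subtype.ext
  exact congrArg (fun x : {G : Gr // PL v U G} => x.1) hG

end BStrNAux

open BStrNAux

theorem pl_sum {v : ℕ} {U : Finset ℕ} (hv : v ∉ U) :
    (Nat.card {G : Gr // PL v U G} : ℝ≥0∞) =
      ∑ W ∈ U.powerset, bE W.card * fam rE W.card (U \ W).card := by
  classical
  have hfin := finite_pl v U
  rw [← tsum_one, tsum_one_eq]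
  have hG : ∀ G : Gr, (if PL v U G then (1 : ℝ≥0∞) else 0) =
      ∑ W ∈ U.powerset, ∑ f : {x // x ∈ U \ W} → {x // x ∈ W},
        if GStr v U W (Jf f) G then (1 : ℝ≥0∞) else 0 := by
    intro G
    by_cases h : PL v U G
    · rw [if_pos h]
      obtain ⟨W, J, hJ⟩ := exists_gstr h
      obtain ⟨f, rfl⟩ := exists_Jf hJ.str
      rw [Finset.sum_eq_single_of_mem W (Finset.mem_powerset.2 hJ.str.sub)]
      · rw [Finset.sum_eq_single_of_mem f (Finset.mem_univ _), if_pos hJ]
        intro f' _ hne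
        refine if_neg (fun h' => hne ?_)
        exact Jf_inj (gstr_unique h' hJ).2
      · intro W' _ hne
        refine Finset.sum_eq_zero (fun f' _ => if_neg (fun h' => hne ?_))
        exact (gstr_unique h' hJ).1
    · rw [if_neg h]
      exact (Finset.sum_eq_zero (fun W _ => Finset.sum_eq_zero (fun f _ =>
        if_neg (fun h' => h h'.pl)))).symm
  rw [tsum_congr hG, Summable.tsum_finsetSum (fun _ _ => ENNReal.summable)]
  refine Finset.sum_congr rfl (fun W hW => ?_)
  rw [Summable.tsum_finsetSum (fun _ _ => ENNReal.summable)]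
  rcases W.eq_empty_or_nonempty with rfl | hne
  · have h0 : bE (∅ : Finset ℕ).card = 0 := by
      unfold bE
      rw [Finset.card_empty, bC_zero]
      simp
    rw [h0, zero_mul]
    refine Finset.sum_eq_zero (fun f _ => ?_)
    refine ENNReal.tsum_eq_zero.2 (fun G => if_neg (fun h => ?_))
    exact Finset.not_nonempty_empty h.str.ne
  · have h1 : ∀ f : {x // x ∈ U \ W} → {x // x ∈ W},
        (∑' G : Gr, if GStr v U W (Jf f) G then (1 : ℝ≥0∞) else 0) =
          bE W.card * ∏ w : {x // x ∈ W}, rE (univ.filter (fun j => f j = w)).card := by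
      intro f
      have := finite_gstr v U W (Jf f)
      rw [← tsum_one_eq, tsum_one, gstr_card (hstr_Jf hv (Finset.mem_powerset.1 hW) hne f)]
      rw [Nat.cast_mul, Nat.cast_prod]
      unfold bE rE
      congr 1
      rw [← Finset.prod_coe_sort W]
      exact Finset.prod_congr rfl (fun w _ => by rw [card_Jf])
    rw [Finset.sum_congr rfl (fun f _ => h1 f), ← Finset.mul_sum, sum_fam]
    simp

/-- The version on `range n`. -/
theorem pE_eq (n : ℕ) :
    pE n = ∑ W ∈ (range n).powerset, bE W.card * fam rE W.card (range n \ W).card := by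
  have h := pl_sum (v := 0) (U := Ico 1 (n + 1)) (by simp)
  have h1 := sum_powerset_pair (fun a b => bE a * fam rE a b) (Ico 1 (n + 1))
  have h2 := sum_powerset_pair (fun a b => bE a * fam rE a b) (range n)
  rw [h2, Finset.card_range]
  rw [h1, Nat.card_Ico, Nat.add_sub_cancel] at h
  exact h

end K5
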