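import Pool.Agent.Lib.K5.BUp
import Pool.Agent.Lib.K5.BExp
import Pool.Agent.Lib.K5.BStrN
import Pool.Agent.Lib.K5.BEgf
import Pool.Agent.Lib.K5.BAn
import Pool.Agent.Lib.K5.BFin

/-!
# K5.BMain: from networks to all graphs (assembly of the block level)

`blockU_main` and `blockL_main` have the statements of `blockU` and `blockL` in K5.Blocks.
-/

namespace K5

open Finset Filter Topology
open scoped ENNReal

namespace BMainAux

theorem sys : Sys bE pE rE where
  b0 := by simp [bE, bC_zero]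
  p0 := by simp [pE, pC_zero]
  hr := rE_prt
  hp := pE_eq

theorem egf_mono_x (F : ℕ → ℝ≥0∞) {x y : ℝ≥0∞} (h : x ≤ y) : egf F x ≤ egf F y := by
  unfold egf
  refine ENNReal.tsum_le_tsum fun n => ?_
  gcongr

theorem term_le (F : ℕ → ℝ≥0∞) (x : ℝ≥0∞) (n : ℕ) :
    x ^ n / (n.factorial : ℝ≥0∞) * F n ≤ egf (trc F n) x := by
  have h := ENNReal.le_tsum (f := fun m => x ^ m / (m.factorial : ℝ≥0∞) * trc F n m) n
  simpa [trc, egf] using h

theorem term_real {r : ℝ} (hr : 0 ≤ r) (n a : ℕ) :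
    ENNReal.ofReal r ^ n / (n.factorial : ℝ≥0∞) * (a : ℝ≥0∞) =
      .ofReal (r ^ n / n.factorial * (a : ℝ)) := by
  rw [ENNReal.ofReal_mul (by positivity), ENNReal.ofReal_div_of_pos (by positivity),
    ENNReal.ofReal_pow hr]
  simp

theorem bp_mono {y x : ℝ} (hy : 0 ≤ y) (hyx : y ≤ x) (hx : 0 < x) (hx4 : x ≤ 1 / 4) :
    y * Real.exp (bp x) ≤ x * Real.exp (bp y) := by
  have h1 : bp x - bp y ≤ (x - y) / x := by
    rw [le_div_iff₀ hx]
    have h2 : bp x - bp y = (x - y) * (1 + (x + y) / 2 + 5 * (x ^ 2 + x * y + y ^ 2) / 3 +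
        79 * (x ^ 3 + x ^ 2 * y + x * y ^ 2 + y ^ 3) / 8) := by
      unfold bp
      ring
    rw [h2, mul_assoc]
    have h3 : 0 ≤ x - y := by linarith
    have hxy : y ≤ 1 / 4 := hyx.trans hx4
    have e1 : (x + y) * x ≤ (1 / 4 + 1 / 4) * (1 / 4) := by
      apply mul_le_mul (by linarith) hx4 hx.le (by norm_num)
    have e2 : (x ^ 2 + x * y + y ^ 2) * x ≤
        ((1 / 4) ^ 2 + 1 / 4 * (1 / 4) + (1 / 4) ^ 2) * (1 / 4) := by
      gcongr
    have e3 : (x ^ 3 + x ^ 2 * y + x * y ^ 2 + y ^ 3) * x ≤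
        ((1 / 4) ^ 3 + (1 / 4) ^ 2 * (1 / 4) + 1 / 4 * (1 / 4) ^ 2 + (1 / 4) ^ 3) * (1 / 4) := by
      gcongr
    have h4 : (1 + (x + y) / 2 + 5 * (x ^ 2 + x * y + y ^ 2) / 3 +
        79 * (x ^ 3 + x ^ 2 * y + x * y ^ 2 + y ^ 3) / 8) * x ≤ 1 := by
      nlinarith
    calc (x - y) * ((1 + (x + y) / 2 + 5 * (x ^ 2 + x * y + y ^ 2) / 3 +
        79 * (x ^ 3 + x ^ 2 * y + x * y ^ 2 + y ^ 3) / 8) * x) ≤ (x - y) * 1 := by gcongr
      _ = x - y := by ring
  have h5 : y / x ≤ Real.exp (bp y - bp x) := by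
    have h6 := Real.add_one_le_exp (-((x - y) / x))
    have h7 : -((x - y) / x) + 1 = y / x := by
      field_simp
      ring
    rw [h7] at h6
    exact h6.trans (Real.exp_le_exp.2 (by linarith))
  rw [div_le_iff₀ hx] at h5
  have h8 : Real.exp (bp y - bp x) * Real.exp (bp x) = Real.exp (bp y) := by
    rw [← Real.exp_add]
    congr 1
    ring
  calc y * Real.exp (bp x) ≤ Real.exp (bp y - bp x) * x * Real.exp (bp x) := by gcongr
    _ = x * (Real.exp (bp y - bp x) * Real.exp (bp x)) := by ring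
    _ = x * Real.exp (bp y) := by rw [h8]

theorem beta_le {x z : ℝ} (hx : 0 < x) (hz : 1 ≤ z) (hD : D (.ofReal x) ≤ .ofReal z) :
    0 ≤ x / 2 + x * (1 + z) / 4 - x ^ 3 / 3 ∧
      egf bE (.ofReal x) ≤ .ofReal (x / 2 + x * (1 + z) / 4 - x ^ 3 / 3) := by
  have h1 := four_egf_le hx
  have h2 : 4 * egf bE (.ofReal x) + .ofReal (4 / 3 * x ^ 3) ≤ ENNReal.ofReal (3 * x + x * z) := by
    refine h1.trans ?_
    rw [ENNReal.ofReal_add (by positivity) (by positivity), ENNReal.ofReal_mul hx.le]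
    gcongr
  have h3 : egf bE (.ofReal x) ≠ ⊤ := by
    intro h
    rw [h] at h2
    simp at h2
  obtain ⟨b, hb0, hb⟩ : ∃ b : ℝ, 0 ≤ b ∧ egf bE (.ofReal x) = .ofReal b :=
    ⟨_, ENNReal.toReal_nonneg, (ENNReal.ofReal_toReal h3).symm⟩
  rw [hb] at h2 ⊢
  have h4 : ENNReal.ofReal (4 * b + 4 / 3 * x ^ 3) ≤ ENNReal.ofReal (3 * x + x * z) := by
    rw [ENNReal.ofReal_add (by positivity) (by positivity), ENNReal.ofReal_mul (by norm_num)]
    simpa using h2
  rw [ENNReal.ofReal_le_ofReal_iff (by positivity)] at h4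
  have h5 : b ≤ x / 2 + x * (1 + z) / 4 - x ^ 3 / 3 := by linarith
  exact ⟨hb0.trans h5, ENNReal.ofReal_le_ofReal h5⟩

end BMainAux

open BMainAux

/-- (BU) from networks to all graphs, upper bound. -/
theorem blockU_main {γ x z : ℝ}
    (hγ : Tendsto (fun n : ℕ => ((P512.g n : ℝ) / n.factorial) ^ (1 / (n : ℝ))) atTop (𝓝 γ))
    (hx : 0 < x) (hz : 1 ≤ z) (hD : D (.ofReal x) ≤ .ofReal z) :
    γ * x ≤ Real.exp (x / 2 + x * (1 + z) / 4 - x ^ 3 / 3) := by
  obtain ⟨hβ0, hβ⟩ := beta_le hx hz hD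
  set β : ℝ := x / 2 + x * (1 + z) / 4 - x ^ 3 / 3 with hβdef
  set r : ℝ := x * Real.exp (-β) with hr
  have hr0 : 0 < r := by positivity
  have hrx : r * Real.exp β = x := by
    rw [hr, mul_assoc, ← Real.exp_add]
    simp
  have key : ∀ N, egf (trc rE N) (.ofReal r) ≤ .ofReal (Real.exp β) := by
    intro N
    induction N with
    | zero =>
      refine (sys.egf_zero _).trans ?_
      rw [← ENNReal.ofReal_one]
      exact ENNReal.ofReal_le_ofReal (Real.one_le_exp hβ0)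
    | succ N ih =>
      refine (sys.egf_step _ N).trans ?_
      rw [← eexp_ofReal hβ0]
      refine eexp_mono (le_trans (egf_mono_x _ ?_) hβ)
      calc ENNReal.ofReal r * egf (trc rE N) (.ofReal r)
          ≤ ENNReal.ofReal r * .ofReal (Real.exp β) := by gcongr
        _ = .ofReal x := by rw [← ENNReal.ofReal_mul hr0.le, hrx]
  have h1 : γ * r ≤ 1 := by
    refine gamma_le hγ hr0 (Real.exp_pos β) fun n => ?_
    have h2 := (term_le rE (.ofReal r) n).trans (key n)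
    unfold rE at h2
    rw [term_real hr0.le, ENNReal.ofReal_le_ofReal_iff (Real.exp_pos β).le] at h2
    exact h2
  calc γ * x = γ * r * Real.exp β := by rw [mul_assoc, hrx]
    _ ≤ 1 * Real.exp β := by gcongr
    _ = Real.exp β := one_mul _

/-- (BL) from networks to all graphs, lower bound. -/
theorem blockL_main {γ x : ℝ}
    (hγ : Tendsto (fun n : ℕ => ((P512.g n : ℝ) / n.factorial) ^ (1 / (n : ℝ))) atTop (𝓝 γ))
    (hx : 0 < x) (hx4 : x ≤ 1 / 4)
    (h : γ * x < Real.exp (x + x ^ 2 / 2 + 5 * x ^ 3 / 3 + 79 * x ^ 4 / 8)) :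
    D (.ofReal x) ≠ ⊤ := by
  have h0 : γ * x < Real.exp (bp x) := h
  set r0 : ℝ := x * Real.exp (-bp x) with hr0
  have hr0p : 0 < r0 := by positivity
  have h1 : γ * r0 < 1 := by
    have h2 : γ * r0 = γ * x * Real.exp (-bp x) := by rw [hr0]; ring
    rw [h2, Real.exp_neg, ← div_eq_mul_inv, div_lt_one (Real.exp_pos _)]
    exact h0
  obtain ⟨r, hr, hγr⟩ : ∃ r, r0 < r ∧ γ * r < 1 := by
    rcases le_or_gt γ 0 with hg | hg
    · exact ⟨r0 + 1, by linarith, lt_of_le_of_lt (mul_nonpos_of_nonpos_of_nonneg hg (by linarith))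
        one_pos⟩
    · have h3 : r0 < 1 / γ := by
        rw [lt_div_iff₀ hg, mul_comm]
        exact h1
      refine ⟨(r0 + 1 / γ) / 2, by linarith, ?_⟩
      have h4 : (r0 + 1 / γ) / 2 < 1 / γ := by linarith
      rw [lt_div_iff₀ hg, mul_comm] at h4
      exact h4
  have hrp : 0 < r := hr0p.trans hr
  have hfin := egf_rE_ne_top hγ hrp hγr
  obtain ⟨ρ, hρ0, hρ⟩ : ∃ ρ : ℝ, 0 ≤ ρ ∧ egf rE (.ofReal r) = .ofReal ρ :=
    ⟨_, ENNReal.toReal_nonneg, (ENNReal.ofReal_toReal hfin).symm⟩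
  have hblk := sys.egf_block (.ofReal r)
  rw [hρ, ← ENNReal.ofReal_mul hrp.le] at hblk
  have hBfin : egf bE (.ofReal (r * ρ)) ≠ ⊤ := by
    intro htop
    rw [htop, eexp_top] at hblk
    exact ENNReal.ofReal_ne_top hblk
  have hR0 : 0 ≤ r * ρ := by positivity
  have hbp0 : 0 ≤ bp (r * ρ) := by
    unfold bp
    positivity
  have hge : Real.exp (bp (r * ρ)) ≤ ρ := by
    have h5 : ENNReal.ofReal (Real.exp (bp (r * ρ))) ≤ .ofReal ρ := by
      rw [hblk, ← eexp_ofReal hbp0]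
      exact eexp_mono (le_egf hR0)
    rwa [ENNReal.ofReal_le_ofReal_iff hρ0] at h5
  have hxR : x < r * ρ := by
    by_contra hcon
    push Not at hcon
    have h6 := bp_mono hR0 hcon hx hx4
    have h7 : r * Real.exp (bp (r * ρ)) * Real.exp (bp x) ≤ x * Real.exp (bp (r * ρ)) := by
      refine le_trans ?_ h6
      gcongr
    have h8 : r * Real.exp (bp x) ≤ x := by
      have h9 : Real.exp (bp (r * ρ)) * (r * Real.exp (bp x)) ≤
          Real.exp (bp (r * ρ)) * x := by linarith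
      exact le_of_mul_le_mul_left h9 (Real.exp_pos _)
    have h10 : r ≤ r0 := by
      rw [hr0, Real.exp_neg, ← div_eq_mul_inv, le_div_iff₀ (Real.exp_pos _)]
      exact h8
    linarith
  exact D_ne_top hx hxR hBfin

end K5
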