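import Pool.Agent.Lib.K5.BEdge

/-!
# K5.BQ: inequalities between the numbers of blocks and of networks

1. `BB.dg_le`: every `a ∈ S` has at least two neighbours in `S`: `Conn G S` for `P = {a}` gives a neighbour `b1`, `Conn G (S.erase b1)` for `P = {a}` (`a ≠ b1`, and `{a} ≠ S.erase b1` since the card is at least 2) gives a neighbour
   `b2 ≠ b1`. Sum over `a`.
2. `bC_le`: `S = range (n + 2)`: `∑' G, 2 * (n + 2) ≤ ∑' G, dg G S` (1), the left side is `2 * (n + 2) * bC (n + 1)` (`bb_card`, `tsum_one`), the right side is `(n + 2) * (n + 1) * Q n` (`dg_sum`). Cast to `ℕ` and divide by `n + 2`.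
3. `Q_le`: `Net 0 1 (Ico 2 (n + 2)) G → BK 0 (Ico 1 (n + 2)) G`, `St 0 1 (Ico 2 (n + 2)) = insert 0 (Ico 1 (n + 2))`; `Nat.card_le_card_of_injective`, `finite_bk`.
-/

namespace K5

open Finset
open scoped ENNReal

theorem BB.dg_le {S : Finset ℕ} {G : Gr} (h : BB S G) (h3 : 3 ≤ S.card) :
    2 * S.card ≤ dg G S := by
  classical
  have key : ∀ a ∈ S, 2 ≤ (S.filter (fun b => G.Adj a b)).card := by
    intro a ha
    obtain ⟨-, h1, h2⟩ := h.blk
    obtain ⟨u, hu, b1, hb1, hb1a, hadj1⟩ := h1.2 {a} (Finset.singleton_subset_iff.2 ha)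
      (Finset.singleton_nonempty a) (by
        intro e
        rw [← e, Finset.card_singleton] at h3
        omega)
    rw [Finset.mem_singleton] at hu hb1a
    subst hu
    have hu1 : u ∈ S.erase b1 := Finset.mem_erase.2 ⟨fun e => hb1a e.symm, ha⟩
    obtain ⟨w, hw, b2, hb2, hb2a, hadj2⟩ := (h2 b1 hb1).2 {u}
      (Finset.singleton_subset_iff.2 hu1) (Finset.singleton_nonempty u) (by
        intro e
        have e1 := Finset.card_erase_of_mem hb1
        rw [← e, Finset.card_singleton] at e1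
        omega)
    rw [Finset.mem_singleton] at hw hb2a
    subst hw
    obtain ⟨h12, hb2S⟩ := Finset.mem_erase.1 hb2
    have hsub : ({b1, b2} : Finset ℕ) ⊆ S.filter (fun b => G.Adj w b) := by
      intro x hx
      rw [Finset.mem_insert, Finset.mem_singleton] at hx
      rcases hx with rfl | rfl
      · exact Finset.mem_filter.2 ⟨hb1, hadj1⟩
      · exact Finset.mem_filter.2 ⟨hb2S, hadj2⟩
    have h5 := Finset.card_le_card hsub
    rwa [Finset.card_pair (fun e => h12 e.symm)] at h5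
  unfold dg
  calc 2 * S.card = S.card • 2 := by rw [smul_eq_mul, mul_comm]
    _ ≤ _ := by
      refine (Finset.card_nsmul_le_sum S _ 2 key).trans (le_of_eq ?_)
      refine Finset.sum_congr rfl fun a _ => ?_
      congr

theorem bC_le {n : ℕ} (hn : 1 ≤ n) : 2 * bC (n + 1) ≤ (n + 1) * Q n := by
  have hc : (range (n + 2)).card = n + 2 := Finset.card_range _
  have h1 := dg_sum (S := range (n + 2)) (by omega)
  have h2 := bb_card (S := range (n + 2)) ⟨0, by simp⟩
  rw [hc] at h1 h2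
  have e1 : n + 2 - 1 = n + 1 := rfl
  have e2 : n + 2 - 2 = n := rfl
  rw [e1, e2] at h1
  rw [e1] at h2
  have := finite_bb (range (n + 2))
  have h3 : ∑' _ : {G : Gr // BB (range (n + 2)) G}, ((2 * (n + 2) : ℕ) : ℝ≥0∞) ≤
      ∑' G : {G : Gr // BB (range (n + 2)) G}, (dg G.1 (range (n + 2)) : ℝ≥0∞) := by
    refine ENNReal.tsum_le_tsum fun G => ?_
    have h4 := G.2.dg_le (by omega)
    rw [hc] at h4
    exact_mod_cast h4
  have h5 : ∑' _ : {G : Gr // BB (range (n + 2)) G}, ((2 * (n + 2) : ℕ) : ℝ≥0∞) =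
      ((2 * (n + 2) * bC (n + 1) : ℕ) : ℝ≥0∞) := by
    have h6 := tsum_one {G : Gr // BB (range (n + 2)) G}
    rw [h2] at h6
    rw [Nat.cast_mul (2 * (n + 2)), ← h6, ← ENNReal.tsum_mul_left]
    refine tsum_congr fun _ => ?_
    rw [mul_one]
  rw [h5, h1] at h3
  have h7 : 2 * (n + 2) * bC (n + 1) ≤ (n + 2) * (n + 1) * Q n := by exact_mod_cast h3
  have h8 : (n + 2) * (2 * bC (n + 1)) ≤ (n + 2) * ((n + 1) * Q n) := by
    calc (n + 2) * (2 * bC (n + 1)) = 2 * (n + 2) * bC (n + 1) := by ring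
      _ ≤ _ := h7
      _ = _ := by ring
  exact Nat.le_of_mul_le_mul_left h8 (by omega)

theorem Q_le (n : ℕ) : Q n ≤ bC (n + 1) := by
  have hins : insert 1 (Ico 2 (n + 2)) = Ico 1 (n + 2) := by
    ext x
    simp only [Finset.mem_insert, Finset.mem_Ico]
    omega
  have := finite_bk 0 (Ico 1 (n + 1 + 1))
  unfold Q bC
  refine Nat.card_le_card_of_injective
    (fun G : {G : Gr // Net 0 1 (Ico 2 (n + 2)) G} => (⟨G.1, ?_⟩ :
      {G : Gr // BK 0 (Ico 1 (n + 1 + 1)) G})) ?_
  · refine ⟨by simp, ?_, ?_, G.2.free⟩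
    · have h := G.2.on
      unfold St at h
      rwa [hins] at h
    · have h := G.2.blk
      unfold St at h
      rwa [hins] at h
  · intro G G' e
    simp only [Subtype.mk.injEq] at e
    exact Subtype.ext e

end K5
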