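import Pool.Agent.Lib.K5.Defs3

/-!
# K5.Rel: relabelling

`σ : Equiv.Perm ℕ` acts on finite sets by `U.map σ.toEmbedding` and on graphs by `G.map σ.toEmbedding` (`(G.map σ).Adj (σ a) (σ b) ↔ G.Adj a b`; every number is `σ` of something). All notions are invariant. Short proofs: first
`map_adj`, then `Conn` (a subset of `U.map σ` is `P.map σ` with `P ⊆ U`), `K5` (a model `B` of `G.map σ` is the image of a model), then the others; for the equivalences prove one direction for all `σ` and apply it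
to `σ⁻¹`.
-/

namespace K5

open Finset

/-- Relabelling of finite sets. -/
def rl (σ : Equiv.Perm ℕ) (U : Finset ℕ) : Finset ℕ := U.map σ.toEmbedding

/-- Relabelling of graphs. -/
def rg (σ : Equiv.Perm ℕ) (G : Gr) : Gr := G.map σ.toEmbedding

variable (σ : Equiv.Perm ℕ)

theorem rg_adj {G : Gr} {a b : ℕ} : (rg σ G).Adj (σ a) (σ b) ↔ G.Adj a b := by
  have h := SimpleGraph.map_adj_apply (G := G) (f := σ.toEmbedding) (a := a) (b := b)
  simpa [rg] using h

namespace RelAux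

theorem rg_adj' {G : Gr} {a b : ℕ} : (rg σ G).Adj a b ↔ G.Adj (σ⁻¹ a) (σ⁻¹ b) := by
  rw [← rg_adj σ (a := σ⁻¹ a) (b := σ⁻¹ b)]
  simp

theorem mem_rl {U : Finset ℕ} {a : ℕ} : a ∈ rl σ U ↔ σ⁻¹ a ∈ U := by
  unfold rl
  rw [Finset.mem_map]
  constructor
  · rintro ⟨b, hb, rfl⟩
    simpa using hb
  · intro h
    exact ⟨σ⁻¹ a, h, by simp⟩

theorem apply_mem_rl {U : Finset ℕ} {a : ℕ} : σ a ∈ rl σ U ↔ a ∈ U := by
  rw [mem_rl]
  simp

theorem rl_inv (U : Finset ℕ) : rl σ⁻¹ (rl σ U) = U := by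
  ext a
  rw [mem_rl, mem_rl]
  simp

theorem rl_inv' (U : Finset ℕ) : rl σ (rl σ⁻¹ U) = U := by
  ext a
  rw [mem_rl, mem_rl]
  simp

theorem rl_card (U : Finset ℕ) : (rl σ U).card = U.card := by
  unfold rl
  rw [Finset.card_map]

theorem rl_erase (U : Finset ℕ) (v : ℕ) : rl σ (U.erase v) = (rl σ U).erase (σ v) := by
  ext a
  rw [mem_rl, Finset.mem_erase, Finset.mem_erase, mem_rl]
  constructor
  · rintro ⟨h1, h2⟩
    refine ⟨fun h => h1 (by rw [h]; simp), h2⟩
  · rintro ⟨h1, h2⟩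
    refine ⟨fun h => h1 (by rw [← h]; simp), h2⟩

theorem rl_nonempty {U : Finset ℕ} : (rl σ U).Nonempty ↔ U.Nonempty := by
  rw [← Finset.card_pos, rl_card, Finset.card_pos]

theorem rl_subset {U V : Finset ℕ} : rl σ U ⊆ rl σ V ↔ U ⊆ V := by
  constructor
  · intro h a ha
    exact (apply_mem_rl σ).mp (h ((apply_mem_rl σ).mpr ha))
  · intro h a ha
    rw [mem_rl] at ha ⊢
    exact h ha

theorem rl_inj {U V : Finset ℕ} : rl σ U = rl σ V ↔ U = V := by
  constructor
  · intro h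
    rw [← rl_inv σ U, h, rl_inv]
  · rintro rfl
    rfl

theorem rl_disj {U V : Finset ℕ} : Disjoint (rl σ U) (rl σ V) ↔ Disjoint U V := by
  rw [Finset.disjoint_left, Finset.disjoint_left]
  constructor
  · intro h a ha hb
    exact h ((apply_mem_rl σ).mpr ha) ((apply_mem_rl σ).mpr hb)
  · intro h a ha hb
    rw [mem_rl] at ha hb
    exact h ha hb

end RelAux

open RelAux

/-- Relabelling as a permutation of the set of graphs. -/
theorem rg_symm (G : Gr) : rg σ⁻¹ (rg σ G) = G ∧ rg σ (rg σ⁻¹ G) = G := by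
  constructor
  · ext a b
    rw [rg_adj', rg_adj']
    simp
  · ext a b
    rw [rg_adj', rg_adj']
    simp

namespace RelAux

theorem conn_fwd (σ : Equiv.Perm ℕ) {G : Gr} {U : Finset ℕ} (h : P512.Conn G U) :
    P512.Conn (rg σ G) (rl σ U) := by
  refine ⟨(rl_nonempty σ).mpr h.1, fun P hP hne hPU => ?_⟩
  have e : rl σ (rl σ⁻¹ P) = P := rl_inv' σ P
  rw [← e] at hP hne hPU
  obtain ⟨u, hu, v, hv, hvP, hadj⟩ := h.2 (rl σ⁻¹ P) ((rl_subset σ).mp hP) ((rl_nonempty σ).mp hne)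
    (fun h' => hPU (by rw [h']))
  refine ⟨σ u, ?_, σ v, (apply_mem_rl σ).mpr hv, ?_, (rg_adj σ).mpr hadj⟩
  · rw [mem_rl] at hu
    simpa using hu
  · intro h'
    apply hvP
    rw [mem_rl]
    simpa using h'

theorem k5_fwd (σ : Equiv.Perm ℕ) {G : Gr} (h : P512.K5 G) : P512.K5 (rg σ G) := by
  obtain ⟨B, h1, h2, h3⟩ := h
  refine ⟨fun i => rl σ (B i), fun i => conn_fwd σ (h1 i), fun i j hij => (rl_disj σ).mpr (h2 i j hij),
    fun i j hij => ?_⟩
  obtain ⟨u, hu, v, hv, hadj⟩ := h3 i j hij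
  exact ⟨σ u, (apply_mem_rl σ).mpr hu, σ v, (apply_mem_rl σ).mpr hv, (rg_adj σ).mpr hadj⟩

/-- An injection of a finite set of numbers extends to a permutation. -/
theorem exists_perm_fun (S : Finset ℕ) (g : ℕ → ℕ) (hg : Set.InjOn g S) :
    ∃ τ : Equiv.Perm ℕ, ∀ x ∈ S, τ x = g x := by
  classical
  have hinf : ∀ T : Finset ℕ, Infinite {x // ¬ x ∈ T} := by
    intro T
    have h := (T.finite_toSet).infinite_compl
    exact h.to_subtype
  let e : {x // x ∈ S} ≃ {y // y ∈ S.image g} := Equiv.ofBijective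
    (fun x => ⟨g x.1, Finset.mem_image_of_mem g x.2⟩) (by
      constructor
      · intro x y h
        exact Subtype.ext (hg x.2 y.2 (congrArg Subtype.val h))
      · rintro ⟨y, hy⟩
        obtain ⟨x, hx, rfl⟩ := Finset.mem_image.mp hy
        exact ⟨⟨x, hx⟩, rfl⟩)
  have i1 := hinf S
  have i2 := hinf (S.image g)
  obtain ⟨f⟩ := nonempty_equiv_of_countable (α := {x // ¬ x ∈ S}) (β := {x // ¬ x ∈ S.image g})
  refine ⟨Equiv.subtypeCongr e f, fun x hx => ?_⟩
  simp only [Equiv.subtypeCongr, Equiv.trans_apply, Equiv.sumCongr_apply]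
  rw [Equiv.sumCompl_symm_apply_of_pos (p := Membership.mem S) (a := x) hx]
  rfl

theorem rl_eq_of_maps {σ : Equiv.Perm ℕ} {U U' : Finset ℕ} (h : ∀ x ∈ U, σ x ∈ U')
    (hc : U.card = U'.card) : rl σ U = U' := by
  apply Finset.eq_of_subset_of_card_le
  · intro a ha
    rw [mem_rl] at ha
    have := h _ ha
    simpa using this
  · rw [rl_card, hc]

end RelAux

open RelAux

theorem conn_rg {G : Gr} {U : Finset ℕ} : P512.Conn (rg σ G) (rl σ U) ↔ P512.Conn G U := by
  constructor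
  · intro h
    have := conn_fwd σ⁻¹ h
    rwa [(rg_symm σ G).1, rl_inv] at this
  · exact conn_fwd σ

theorem free_rg {G : Gr} : Free (rg σ G) ↔ Free G := by
  unfold Free
  rw [not_iff_not]
  constructor
  · intro h
    have := k5_fwd σ⁻¹ h
    rwa [(rg_symm σ G).1] at this
  · exact k5_fwd σ

theorem on_rg {G : Gr} {U : Finset ℕ} : On (rg σ G) (rl σ U) ↔ On G U := by
  constructor
  · intro h u v huv
    exact (apply_mem_rl σ).mp (h _ _ ((rg_adj σ).mpr huv))
  · intro h u v huv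
    rw [mem_rl]
    exact h _ _ ((rg_adj' σ).mp huv)

theorem three_rg {G : Gr} {U : Finset ℕ} : Three (rg σ G) (rl σ U) ↔ Three G U := by
  unfold Three
  rw [rl_card]
  refine and_congr_right fun _ => ?_
  constructor
  · intro h u v
    have := h (σ u) (σ v)
    rwa [← rl_erase, ← rl_erase, conn_rg] at this
  · intro h u v
    have := h (σ⁻¹ u) (σ⁻¹ v)
    rw [← conn_rg σ, rl_erase, rl_erase] at this
    simpa using this

/-- Two disjoint pairs of sets of the same sizes are related by a permutation. -/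
theorem exists_perm {R U R' U' : Finset ℕ} (h : Disjoint R U) (h' : Disjoint R' U')
    (hR : R.card = R'.card) (hU : U.card = U'.card) :
    ∃ σ : Equiv.Perm ℕ, rl σ R = R' ∧ rl σ U = U' := by
  classical
  let φ : {x // x ∈ R} ≃ {x // x ∈ R'} := Finset.equivOfCardEq hR
  let ψ : {x // x ∈ U} ≃ {x // x ∈ U'} := Finset.equivOfCardEq hU
  let g : ℕ → ℕ := fun x => if hx : x ∈ R then (φ ⟨x, hx⟩).1 else
    if hx : x ∈ U then (ψ ⟨x, hx⟩).1 else 0
  have g1 : ∀ x (hx : x ∈ R), g x = (φ ⟨x, hx⟩).1 := fun x hx => by simp only [g, dif_pos hx]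
  have g2 : ∀ x (hx : x ∈ U), g x = (ψ ⟨x, hx⟩).1 := fun x hx => by
    have : x ∉ R := fun h' => Finset.disjoint_left.mp h h' hx
    simp only [g, dif_neg this, dif_pos hx]
  have hg : Set.InjOn g ((R ∪ U : Finset ℕ) : Set ℕ) := by
    intro x hx y hy hxy
    rw [Finset.mem_coe, Finset.mem_union] at hx hy
    rcases hx with hx | hx <;> rcases hy with hy | hy
    · rw [g1 x hx, g1 y hy] at hxy
      exact congrArg Subtype.val (φ.injective (Subtype.ext hxy))
    · rw [g1 x hx, g2 y hy] at hxy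
      exact absurd (hxy ▸ (ψ ⟨y, hy⟩).2) (Finset.disjoint_left.mp h' (φ ⟨x, hx⟩).2)
    · rw [g2 x hx, g1 y hy] at hxy
      exact absurd (hxy ▸ (ψ ⟨x, hx⟩).2) (Finset.disjoint_left.mp h' (φ ⟨y, hy⟩).2)
    · rw [g2 x hx, g2 y hy] at hxy
      exact congrArg Subtype.val (ψ.injective (Subtype.ext hxy))
  obtain ⟨τ, hτ⟩ := exists_perm_fun (R ∪ U) g hg
  refine ⟨τ, rl_eq_of_maps (fun x hx => ?_) hR, rl_eq_of_maps (fun x hx => ?_) hU⟩
  · rw [hτ x (Finset.mem_union_left _ hx), g1 x hx]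
    exact (φ ⟨x, hx⟩).2
  · rw [hτ x (Finset.mem_union_right _ hx), g2 x hx]
    exact (ψ ⟨x, hx⟩).2

/-- The pointed version. -/
theorem exists_perm_st {s t s' t' : ℕ} {U U' : Finset ℕ} (h : s ≠ t) (hs : s ∉ U) (ht : t ∉ U)
    (h' : s' ≠ t') (hs' : s' ∉ U') (ht' : t' ∉ U') (hU : U.card = U'.card) :
    ∃ σ : Equiv.Perm ℕ, σ s = s' ∧ σ t = t' ∧ rl σ U = U' := by
  classical
  let ψ : {x // x ∈ U} ≃ {x // x ∈ U'} := Finset.equivOfCardEq hU
  let g : ℕ → ℕ := fun x => if x = s then s' else if x = t then t' else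
    if hx : x ∈ U then (ψ ⟨x, hx⟩).1 else 0
  have gs : g s = s' := by simp only [g, if_pos]
  have gt : g t = t' := by simp only [g, if_neg h.symm, if_pos]
  have g2 : ∀ x (hx : x ∈ U), g x = (ψ ⟨x, hx⟩).1 := fun x hx => by
    have h1 : x ≠ s := fun h' => hs (h' ▸ hx)
    have h2 : x ≠ t := fun h' => ht (h' ▸ hx)
    simp only [g, if_neg h1, if_neg h2, dif_pos hx]
  have hg : Set.InjOn g ((insert s (insert t U) : Finset ℕ) : Set ℕ) := by
    intro x hx y hy hxy
    rw [Finset.mem_coe, Finset.mem_insert, Finset.mem_insert] at hx hy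
    rcases hx with rfl | rfl | hx <;> rcases hy with rfl | rfl | hy
    · rfl
    · rw [gs, gt] at hxy
      exact absurd hxy h'
    · rw [gs, g2 y hy] at hxy
      exact absurd (hxy ▸ (ψ ⟨y, hy⟩).2) hs'
    · rw [gs, gt] at hxy
      exact absurd hxy.symm h'
    · rfl
    · rw [gt, g2 y hy] at hxy
      exact absurd (hxy ▸ (ψ ⟨y, hy⟩).2) ht'
    · rw [gs, g2 x hx] at hxy
      exact absurd (hxy ▸ (ψ ⟨x, hx⟩).2) hs'
    · rw [gt, g2 x hx] at hxy
      exact absurd (hxy ▸ (ψ ⟨x, hx⟩).2) ht'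
    · rw [g2 x hx, g2 y hy] at hxy
      exact congrArg Subtype.val (ψ.injective (Subtype.ext hxy))
  obtain ⟨τ, hτ⟩ := exists_perm_fun (insert s (insert t U)) g hg
  refine ⟨τ, ?_, ?_, rl_eq_of_maps (fun x hx => ?_) hU⟩
  · rw [hτ s (Finset.mem_insert_self _ _), gs]
  · rw [hτ t (Finset.mem_insert_of_mem (Finset.mem_insert_self _ _)), gt]
  · rw [hτ x (Finset.mem_insert_of_mem (Finset.mem_insert_of_mem hx)), g2 x hx]
    exact (ψ ⟨x, hx⟩).2

end K5
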