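import Pool.Agent.Lib.K5.BDefs
import Pool.Agent.Lib.K5.Rel
import Pool.Agent.Lib.K5.ExpF

/-!
# K5.BRel: the numbers of rooted connected graphs and of blocks depend only on the sizes

1. `tsum_one`: `tsum_fintype` (after `Fintype.ofFinite`), `Finset.sum_const`, `Nat.card_eq_fintype_card`.
2. `finite_cr`, `finite_pl`, `finite_bk`, `finite_bb`: subtypes of `{G // On G S}` (`finite_on`, `Finite.of_injective`).
3. `cr_rg`, `pl_rg`, `bk_rg`: unfold and use `rg_adj`, `conn_rg`, `free_rg`, `on_rg` (`rl σ (insert v U) = insert (σ v) (rl σ U)`, `Finset.map_insert`; `rl σ (S.erase w) = (rl σ S).erase (σ w)`, `Finset.map_erase`; `card_map`;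
   every element of `rl σ S` is `σ w` with `w ∈ S`). The existence of `u ∈ rl σ U` with `(rg σ G).Adj (σ v) u` is that of `u ∈ U` with `G.Adj v u`.
4. `cr_count`, `pl_count`, `bk_count`: `exists_perm` (Rel) for the disjoint pairs `{0}`, `Ico 1 (U.card + 1)` and `{v}`, `U` gives `σ` with `rl σ {0} = {v}`, so `σ 0 = v`; `rg σ` is a bijection between the two types (`rg_symm`, `cr_rg` for `σ` and for `σ⁻¹`):
   `Nat.card_congr`.
-/

namespace K5

open Finset
open scoped ENNReal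

namespace BRelAux

open RelAux

theorem rl_ins (σ : Equiv.Perm ℕ) (v : ℕ) (U : Finset ℕ) :
    rl σ (insert v U) = insert (σ v) (rl σ U) := by
  unfold rl
  rw [Finset.map_insert]
  rfl

theorem rg_bij (σ : Equiv.Perm ℕ) {P Q : Gr → Prop} (h : ∀ G, Q (rg σ G) ↔ P G) :
    Nat.card {G : Gr // Q G} = Nat.card {G : Gr // P G} := by
  let e : Gr ≃ Gr := ⟨rg σ, rg σ⁻¹, fun G => (rg_symm σ G).1, fun G => (rg_symm σ G).2⟩
  exact (Nat.card_congr (e.subtypeEquiv (fun G => (h G).symm))).symm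

theorem blk_rg (σ : Equiv.Perm ℕ) {G : Gr} {U : Finset ℕ} :
    Blk (rg σ G) (rl σ U) ↔ Blk G U := by
  unfold Blk
  rw [rl_card, conn_rg]
  refine and_congr_right fun _ => and_congr_right fun _ => ?_
  constructor
  · intro h w hw
    have h1 := h (σ w) ((apply_mem_rl σ).mpr hw)
    rwa [← rl_erase, conn_rg] at h1
  · intro h w hw
    have h1 := h (σ⁻¹ w) ((mem_rl σ).mp hw)
    rw [← conn_rg σ, rl_erase] at h1
    simpa using h1

theorem exists_root {v : ℕ} {U : Finset ℕ} (hv : v ∉ U) : ∃ σ : Equiv.Perm ℕ,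
    σ 0 = v ∧ rl σ (Ico 1 (U.card + 1)) = U := by
  obtain ⟨σ, h1, h2⟩ := exists_perm (R := {0}) (U := Ico 1 (U.card + 1)) (R' := {v}) (U' := U)
    (by simp) (by simpa using hv) (by simp) (by simp)
  refine ⟨σ, ?_, h2⟩
  have h3 : σ 0 ∈ rl σ {0} := (apply_mem_rl σ).mpr (Finset.mem_singleton_self 0)
  rw [h1] at h3
  exact Finset.mem_singleton.mp h3

end BRelAux

open BRelAux RelAux

theorem tsum_one (α : Type*) [Finite α] : ∑' _ : α, (1 : ℝ≥0∞) = (Nat.card α : ℝ≥0∞) := by
  have := Fintype.ofFinite α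
  rw [tsum_fintype, Finset.sum_const, Nat.card_eq_fintype_card]
  simp

theorem finite_cr (v : ℕ) (U : Finset ℕ) : Finite {G : Gr // CR v U G} := by
  have := finite_on (insert v U)
  exact Finite.of_injective
    (fun G : {G : Gr // CR v U G} => (⟨G.1, G.2.on⟩ : {G : Gr // On G (insert v U)}))
    (fun G G' h => Subtype.ext (congrArg (fun t => t.1) h))

theorem finite_pl (v : ℕ) (U : Finset ℕ) : Finite {G : Gr // PL v U G} := by
  have := finite_on (insert v U)
  exact Finite.of_injective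
    (fun G : {G : Gr // PL v U G} => (⟨G.1, G.2.on⟩ : {G : Gr // On G (insert v U)}))
    (fun G G' h => Subtype.ext (congrArg (fun t => t.1) h))

theorem finite_bk (v : ℕ) (U : Finset ℕ) : Finite {G : Gr // BK v U G} := by
  have := finite_on (insert v U)
  exact Finite.of_injective
    (fun G : {G : Gr // BK v U G} => (⟨G.1, G.2.on⟩ : {G : Gr // On G (insert v U)}))
    (fun G G' h => Subtype.ext (congrArg (fun t => t.1) h))

theorem finite_bb (S : Finset ℕ) : Finite {G : Gr // BB S G} := by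
  have := finite_on S
  exact Finite.of_injective
    (fun G : {G : Gr // BB S G} => (⟨G.1, G.2.on⟩ : {G : Gr // On G S}))
    (fun G G' h => Subtype.ext (congrArg (fun t => t.1) h))

theorem cr_rg (σ : Equiv.Perm ℕ) {v : ℕ} {U : Finset ℕ} {G : Gr} :
    CR (σ v) (rl σ U) (rg σ G) ↔ CR v U G := by
  constructor
  · intro h
    refine ⟨fun hv => h.hv ((apply_mem_rl σ).mpr hv), ?_, ?_, (free_rg σ).mp h.free⟩
    · have h1 := h.on
      rwa [← rl_ins, on_rg] at h1
    · have h1 := h.conn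
      rwa [← rl_ins, conn_rg] at h1
  · intro h
    refine ⟨fun hv => h.hv ((apply_mem_rl σ).mp hv), ?_, ?_, (free_rg σ).mpr h.free⟩
    · rw [← rl_ins, on_rg]
      exact h.on
    · rw [← rl_ins, conn_rg]
      exact h.conn

theorem pl_rg (σ : Equiv.Perm ℕ) {v : ℕ} {U : Finset ℕ} {G : Gr} :
    PL (σ v) (rl σ U) (rg σ G) ↔ PL v U G := by
  constructor
  · intro h
    refine ⟨fun hv => h.hv ((apply_mem_rl σ).mpr hv), ?_, (conn_rg σ).mp h.conn, ?_,
      (free_rg σ).mp h.free⟩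
    · have h1 := h.on
      rwa [← rl_ins, on_rg] at h1
    · obtain ⟨u, hu, hadj⟩ := h.adj
      refine ⟨σ⁻¹ u, (mem_rl σ).mp hu, ?_⟩
      have h1 := (rg_adj' σ).mp hadj
      simpa using h1
  · intro h
    refine ⟨fun hv => h.hv ((apply_mem_rl σ).mp hv), ?_, (conn_rg σ).mpr h.conn, ?_,
      (free_rg σ).mpr h.free⟩
    · rw [← rl_ins, on_rg]
      exact h.on
    · obtain ⟨u, hu, hadj⟩ := h.adj
      exact ⟨σ u, (apply_mem_rl σ).mpr hu, (rg_adj σ).mpr hadj⟩

theorem bk_rg (σ : Equiv.Perm ℕ) {v : ℕ} {U : Finset ℕ} {G : Gr} :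
    BK (σ v) (rl σ U) (rg σ G) ↔ BK v U G := by
  constructor
  · intro h
    refine ⟨fun hv => h.hv ((apply_mem_rl σ).mpr hv), ?_, ?_, (free_rg σ).mp h.free⟩
    · have h1 := h.on
      rwa [← rl_ins, on_rg] at h1
    · have h1 := h.blk
      rwa [← rl_ins, blk_rg] at h1
  · intro h
    refine ⟨fun hv => h.hv ((apply_mem_rl σ).mp hv), ?_, ?_, (free_rg σ).mpr h.free⟩
    · rw [← rl_ins, on_rg]
      exact h.on
    · rw [← rl_ins, blk_rg]
      exact h.blk

theorem cr_count {v : ℕ} {U : Finset ℕ} (hv : v ∉ U) :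
    Nat.card {G : Gr // CR v U G} = rC U.card := by
  obtain ⟨σ, h1, h2⟩ := exists_root hv
  unfold rC
  refine rg_bij σ fun G => ?_
  have h3 := cr_rg σ (v := 0) (U := Ico 1 (U.card + 1)) (G := G)
  rwa [h1, h2] at h3

theorem pl_count {v : ℕ} {U : Finset ℕ} (hv : v ∉ U) :
    Nat.card {G : Gr // PL v U G} = pC U.card := by
  obtain ⟨σ, h1, h2⟩ := exists_root hv
  unfold pC
  refine rg_bij σ fun G => ?_
  have h3 := pl_rg σ (v := 0) (U := Ico 1 (U.card + 1)) (G := G)
  rwa [h1, h2] at h3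

theorem bk_count {v : ℕ} {U : Finset ℕ} (hv : v ∉ U) :
    Nat.card {G : Gr // BK v U G} = bC U.card := by
  obtain ⟨σ, h1, h2⟩ := exists_root hv
  unfold bC
  refine rg_bij σ fun G => ?_
  have h3 := bk_rg σ (v := 0) (U := Ico 1 (U.card + 1)) (G := G)
  rwa [h1, h2] at h3

end K5
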