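import Pool.Agent.Lib.K5.BRel
import Pool.Agent.Lib.K5.Sum

/-!
# K5.BSmall: the numbers of small blocks

`bC 1 = 1` (the edge `01`), `bC 2 ≥ 1` (the triangle), `bC 3 ≥ 10`, `bC 4 ≥ 237` (there are 238 labelled 2-connected graphs on five vertices, only `K_5` has a `K_5` minor).
`BK 0 (Ico 1 (n + 1)) G` is `BB (range (n + 1)) G` with other words.
Masks: for `a < b` let `idx a b = b * (b - 1) / 2 + a` (a bijection of the pairs `a < b < n` with `0, ..., n (n - 1) / 2 - 1`), `gm n m` the graph with the edges `ab`, `a < b < n`, `m.testBit (idx a b)`. `gm n` is injective on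
`m < 2 ^ (n (n - 1) / 2)` (`Nat.eq_of_testBit_eq`). `Blk (gm n m) (range n)` is a finite check: for `S = range n` and `S = (range n).erase v` and every `P ⊆ S`, nonempty, `P ≠ S`: `m &&& cut P S ≠ 0` where `cut P S` is the sum of `2 ^ idx a b` over the
pairs with one end in `P` and one in `S \ P`. For the kernel: list the cut masks (50 numbers for `n = 5`), `chk m := cuts.all (fun c => m &&& c ≠ 0)`, and prove `((List.range 1023).filter chk).length = 237` (`by decide +kernel`; the mask 1023 is `K_5`)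
and, for every `P`, `S`, that `cut P S` is in the list and that a common bit of `m` and `cut P S` is an edge between `P` and `S \ P` (`decide` over the finitely many `P`, `S`, or over bits). For `n = 4`: 64 masks, 10 of them.
`Free`: on at most four vertices there are no five disjoint nonempty subsets; on `range 5` five disjoint nonempty sets are singletons, so all pairs are adjacent and the mask is 1023 (`k5in_of_k5` in K5.Sum gives a model inside `range 5`).
`Nat.card_le_card_of_injective` from the subtype of the masks that pass the check (`finite_bk`).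
-/

namespace K5

open Finset

namespace BSmallAux

/-- The number of the pair `a, b`. -/
def idx (a b : ℕ) : ℕ := max a b * (max a b - 1) / 2 + min a b

theorem idx_comm (a b : ℕ) : idx a b = idx b a := by
  unfold idx
  rw [max_comm, min_comm]

/-- The graph of the mask `m` on `0, …, n - 1`. -/
def gm (n m : ℕ) : Gr where
  Adj a b := a ≠ b ∧ a < n ∧ b < n ∧ m.testBit (idx a b) = true
  symm := ⟨fun a b h => ⟨h.1.symm, h.2.2.1, h.2.1, by rw [idx_comm]; exact h.2.2.2⟩⟩
  loopless := ⟨fun _ h => h.1 rfl⟩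

/-- The pairs. -/
def prs : List (ℕ × ℕ) := [(0, 1), (0, 2), (1, 2), (0, 3), (1, 3), (2, 3), (0, 4), (1, 4), (2, 4), (3, 4)]

/-- The mask of the pairs of the list `L` between the two parts given by `b`, without the vertex `v`. -/
def cutl (n : ℕ) (b : ℕ → Bool) (v : ℕ) : List (ℕ × ℕ) → ℕ
  | [] => 0
  | p :: L => if p.2 < n ∧ p.1 ≠ v ∧ p.2 ≠ v ∧ b p.1 ≠ b p.2 then Nat.lor (2 ^ idx p.1 p.2) (cutl n b v L)
      else cutl n b v L

theorem mem_cutl {n : ℕ} {b : ℕ → Bool} {v : ℕ} {L : List (ℕ × ℕ)} {k : ℕ}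
    (h : (cutl n b v L).testBit k = true) :
    ∃ p ∈ L, p.2 < n ∧ p.1 ≠ v ∧ p.2 ≠ v ∧ b p.1 ≠ b p.2 ∧ idx p.1 p.2 = k := by
  induction L with
  | nil =>
    unfold cutl at h
    simp at h
  | cons p L ih =>
    unfold cutl at h
    by_cases hp : p.2 < n ∧ p.1 ≠ v ∧ p.2 ≠ v ∧ b p.1 ≠ b p.2
    · rw [if_pos hp] at h
      have h' : (2 ^ idx p.1 p.2 ||| cutl n b v L).testBit k = true := h
      rw [Nat.testBit_lor, Bool.or_eq_true] at h'
      rcases h' with h1 | h1
      · rw [Nat.testBit_two_pow] at h1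
        exact ⟨p, List.mem_cons_self, hp.1, hp.2.1, hp.2.2.1, hp.2.2.2, of_decide_eq_true h1⟩
      · obtain ⟨q, hq, h2⟩ := ih h1
        exact ⟨q, List.mem_cons_of_mem _ hq, h2⟩
    · rw [if_neg hp] at h
      obtain ⟨q, hq, h2⟩ := ih h
      exact ⟨q, List.mem_cons_of_mem _ hq, h2⟩

/-- All cut masks of the list meet `m`. -/
def chk (cs : List ℕ) (m : ℕ) : Bool := cs.all (fun c => Nat.ble 1 (Nat.land m c))

theorem chk_spec {cs : List ℕ} {m c : ℕ} (h : chk cs m = true) (hc : c ∈ cs) :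
    ∃ k, m.testBit k = true ∧ c.testBit k = true := by
  unfold chk at h
  have h1 := Nat.le_of_ble_eq_true (List.all_eq_true.1 h c hc)
  have h2 : m &&& c ≠ 0 := by
    intro h0
    have h3 : Nat.land m c = 0 := h0
    omega
  obtain ⟨k, hk⟩ := Nat.exists_testBit_of_ne_zero h2
  rw [Nat.testBit_land, Bool.and_eq_true] at hk
  exact ⟨k, hk.1, hk.2⟩

/-- All cuts are in the list. -/
def Lst (n : ℕ) (cs : List ℕ) : Prop := ∀ b : ℕ → Bool, ∀ v ≤ n, (∃ i < n, i ≠ v ∧ b i = true) →
  (∃ i < n, i ≠ v ∧ b i = false) → cutl n b v prs ∈ cs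

theorem prs_lt {p : ℕ × ℕ} (h : p ∈ prs) : p.1 < p.2 := by
  unfold prs at h
  simp only [List.mem_cons, List.not_mem_nil, or_false] at h
  rcases h with rfl | rfl | rfl | rfl | rfl | rfl | rfl | rfl | rfl | rfl <;> decide

theorem conn_gm {n m : ℕ} {cs : List ℕ} (hn : 2 ≤ n) (hcs : Lst n cs) (hm : chk cs m = true) {v : ℕ} (hv : v ≤ n) :
    P512.Conn (gm n m) ((range n).erase v) := by
  classical
  constructor
  · by_cases h0 : v = 0
    · exact ⟨1, Finset.mem_erase.2 ⟨by omega, Finset.mem_range.2 (by omega)⟩⟩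
    · exact ⟨0, Finset.mem_erase.2 ⟨by omega, Finset.mem_range.2 (by omega)⟩⟩
  · intro P hP hne hPS
    obtain ⟨x, hx⟩ := hne
    have hx' := Finset.mem_erase.1 (hP hx)
    obtain ⟨y, hy, hyP⟩ : ∃ y ∈ (range n).erase v, y ∉ P := by
      by_contra hcon
      push Not at hcon
      exact hPS (Finset.Subset.antisymm hP hcon)
    have hy' := Finset.mem_erase.1 hy
    have h1 := hcs (fun i => decide (i ∈ P)) v hv ⟨x, Finset.mem_range.1 hx'.2, hx'.1, by simpa using hx⟩
      ⟨y, Finset.mem_range.1 hy'.2, hy'.1, by simpa using hyP⟩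
    obtain ⟨k, hk1, hk2⟩ := chk_spec hm h1
    obtain ⟨p, hp, g1, g2, g3, g4, g5⟩ := mem_cutl hk2
    have hlt := prs_lt hp
    by_cases hp1 : p.1 ∈ P
    · have hp2 : p.2 ∉ P := by
        intro hp2
        apply g4
        show decide (p.1 ∈ P) = decide (p.2 ∈ P)
        rw [decide_eq_true hp1, decide_eq_true hp2]
      refine ⟨p.1, hp1, p.2, Finset.mem_erase.2 ⟨g3, Finset.mem_range.2 g1⟩, hp2, ?_⟩
      exact ⟨by omega, by omega, g1, by rw [g5]; exact hk1⟩
    · have hp2 : p.2 ∈ P := by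
        by_contra hp2
        apply g4
        show decide (p.1 ∈ P) = decide (p.2 ∈ P)
        rw [decide_eq_false hp1, decide_eq_false hp2]
      refine ⟨p.2, hp2, p.1, Finset.mem_erase.2 ⟨g2, Finset.mem_range.2 (by omega)⟩, hp1, ?_⟩
      exact ⟨by omega, g1, by omega, by rw [idx_comm, g5]; exact hk1⟩

theorem blk_gm {n m : ℕ} {cs : List ℕ} (hn : 2 ≤ n) (hcs : Lst n cs) (hm : chk cs m = true) :
    Blk (gm n m) (range n) := by
  refine ⟨by rw [Finset.card_range]; exact hn, ?_, fun v hv => conn_gm hn hcs hm (Finset.mem_range.1 hv).le⟩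
  have h := conn_gm hn hcs hm (le_refl n)
  rwa [Finset.erase_eq_of_notMem (by simp)] at h

theorem on_gm (n m : ℕ) : On (gm n m) (range n) := fun _ _ h => Finset.mem_range.2 h.2.1

/-- Five disjoint connected sets in `range n`. -/
theorem model_card {G : Gr} {n : ℕ} {B : Fin 5 → Finset ℕ} (hB : P512.Model G B) (hs : ∀ i, B i ⊆ range n) :
    (∑ i, (B i).card) = (univ.biUnion B).card ∧ (∑ i, (B i).card) ≤ n ∧ ∀ i, 1 ≤ (B i).card := by
  have h1 : (univ.biUnion B).card = ∑ i, (B i).card :=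
    Finset.card_biUnion fun i _ j _ hij => hB.2.1 i j hij
  have h2 : (univ.biUnion B).card ≤ n := by
    have h3 : univ.biUnion B ⊆ range n := by
      intro a ha
      obtain ⟨i, -, hi⟩ := Finset.mem_biUnion.1 ha
      exact hs i hi
    have h4 := Finset.card_le_card h3
    rwa [Finset.card_range] at h4
  refine ⟨h1.symm, by rw [← h1]; exact h2, fun i => Finset.card_pos.2 (hB.1 i).1⟩

theorem free_four {G : Gr} {n : ℕ} (hn : n ≤ 4) (hon : On G (range n)) : Free G := by
  intro h5
  obtain ⟨B, hB, hs⟩ := k5in_of_k5 hon h5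
  obtain ⟨-, h2, h3⟩ := model_card hB hs
  have h4 : ∑ _i : Fin 5, 1 ≤ ∑ i, (B i).card := Finset.sum_le_sum fun i _ => h3 i
  simp only [Finset.sum_const, Finset.card_univ, Fintype.card_fin, smul_eq_mul, mul_one] at h4
  omega

theorem free_five {G : Gr} (hon : On G (range 5)) (h5 : P512.K5 G) {a b : ℕ} (ha : a < 5) (hb : b < 5)
    (hab : a ≠ b) : G.Adj a b := by
  obtain ⟨B, hB, hs⟩ := k5in_of_k5 hon h5
  obtain ⟨h1, h2, h3⟩ := model_card hB hs
  have h4 : ∑ _i : Fin 5, 1 ≤ ∑ i, (B i).card := Finset.sum_le_sum fun i _ => h3 i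
  simp only [Finset.sum_const, Finset.card_univ, Fintype.card_fin, smul_eq_mul, mul_one] at h4
  have h6 : ∑ i, (B i).card = 5 := by omega
  have h7 : ∀ i, (B i).card = 1 := by
    intro i
    have h8 := Finset.add_sum_erase univ (fun i => (B i).card) (Finset.mem_univ i)
    have h9 : ∑ _j ∈ univ.erase i, 1 ≤ ∑ j ∈ univ.erase i, (B j).card := Finset.sum_le_sum fun j _ => h3 j
    simp only [Finset.sum_const, Finset.card_erase_of_mem (Finset.mem_univ i), Finset.card_univ, Fintype.card_fin,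
      smul_eq_mul, mul_one] at h9
    have h10 := h3 i
    omega
  have h8 : univ.biUnion B = range 5 := by
    apply Finset.eq_of_subset_of_card_le
    · intro x hx
      obtain ⟨i, -, hi⟩ := Finset.mem_biUnion.1 hx
      exact hs i hi
    · rw [Finset.card_range, ← h1, h6]
  have key : ∀ x < 5, ∃ i, B i = {x} := by
    intro x hx
    have h9 : x ∈ univ.biUnion B := by rw [h8]; exact Finset.mem_range.2 hx
    obtain ⟨i, -, hi⟩ := Finset.mem_biUnion.1 h9
    refine ⟨i, ?_⟩
    obtain ⟨y, hy⟩ := Finset.card_eq_one.1 (h7 i)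
    rw [hy] at hi ⊢
    rw [Finset.mem_singleton.1 hi]
  obtain ⟨i, hi⟩ := key a ha
  obtain ⟨j, hj⟩ := key b hb
  have hij : i ≠ j := by
    rintro rfl
    rw [hi] at hj
    exact hab (Finset.singleton_injective hj)
  obtain ⟨u, hu, v, hv, huv⟩ := hB.2.2 i j hij
  rw [hi, Finset.mem_singleton] at hu
  rw [hj, Finset.mem_singleton] at hv
  rwa [hu, hv] at huv

/-- Every number below `N` is the number of a pair of `range n`. -/
def Srj (n N : ℕ) : Prop := ∀ i ∈ range N, ∃ a ∈ range n, ∃ b ∈ range n, a ≠ b ∧ idx a b = i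

instance (n N : ℕ) : Decidable (Srj n N) := by
  unfold Srj
  infer_instance

theorem gm_inj {n N : ℕ} (hN : Srj n N) {m m' : ℕ} (hm : m < 2 ^ N) (hm' : m' < 2 ^ N) (h : gm n m = gm n m') :
    m = m' := by
  apply Nat.eq_of_testBit_eq
  intro i
  by_cases hi : i < N
  · obtain ⟨a, ha, b, hb, hab, rfl⟩ := hN i (Finset.mem_range.2 hi)
    have h1 : (gm n m).Adj a b ↔ (gm n m').Adj a b := by rw [h]
    have h2 : m.testBit (idx a b) = true ↔ m'.testBit (idx a b) = true := by
      constructor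
      · intro h3
        exact (h1.1 ⟨hab, Finset.mem_range.1 ha, Finset.mem_range.1 hb, h3⟩).2.2.2
      · intro h3
        exact (h1.2 ⟨hab, Finset.mem_range.1 ha, Finset.mem_range.1 hb, h3⟩).2.2.2
    exact Bool.eq_iff_iff.2 h2
  · have h1 : 2 ^ N ≤ 2 ^ i := Nat.pow_le_pow_right (by norm_num) (by omega)
    rw [Nat.testBit_lt_two_pow (lt_of_lt_of_le hm h1), Nat.testBit_lt_two_pow (lt_of_lt_of_le hm' h1)]

theorem insert_Ico (k : ℕ) : insert 0 (Ico 1 (k + 1)) = range (k + 1) := by
  ext a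
  rw [Finset.mem_insert, Finset.mem_Ico, Finset.mem_range]
  omega

theorem bk_gm {k m : ℕ} {cs : List ℕ} (hk : 1 ≤ k) (hcs : Lst (k + 1) cs) (hm : chk cs m = true)
    (hf : Free (gm (k + 1) m)) : BK 0 (Ico 1 (k + 1)) (gm (k + 1) m) := by
  refine ⟨by simp, ?_, ?_, hf⟩
  · rw [insert_Ico]
    exact on_gm _ _
  · rw [insert_Ico]
    exact blk_gm (by omega) hcs hm

theorem le_bC {k N M : ℕ} {cs : List ℕ} (hk : 1 ≤ k) (hcs : Lst (k + 1) cs) (hN : Srj (k + 1) N) (hM : M ≤ 2 ^ N)
    (hf : ∀ m < M, Free (gm (k + 1) m)) : ((range M).filter (fun m => chk cs m = true)).card ≤ bC k := by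
  have := finite_bk 0 (Ico 1 (k + 1))
  have h1 : ∀ m ∈ (range M).filter (fun m => chk cs m = true), m < M ∧ chk cs m = true := by
    intro m hm
    exact ⟨Finset.mem_range.1 (Finset.mem_filter.1 hm).1, (Finset.mem_filter.1 hm).2⟩
  let f : ((range M).filter (fun m => chk cs m = true)) → {G : Gr // BK 0 (Ico 1 (k + 1)) G} := fun m =>
    ⟨gm (k + 1) m.1, bk_gm hk hcs (h1 m.1 m.2).2 (hf m.1 (h1 m.1 m.2).1)⟩
  have hinj : Function.Injective f := by
    intro m m' h
    have h2 : gm (k + 1) m.1 = gm (k + 1) m'.1 := congrArg Subtype.val h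
    exact Subtype.ext (gm_inj hN (lt_of_lt_of_le (h1 m.1 m.2).1 hM) (lt_of_lt_of_le (h1 m'.1 m'.2).1 hM) h2)
  have h3 := Nat.card_le_card_of_injective f hinj
  rwa [Nat.card_eq_fintype_card, Fintype.card_coe] at h3

/-- The two parts given by five truth values. -/
def bo (b0 b1 b2 b3 b4 : Bool) (i : ℕ) : Bool := [b0, b1, b2, b3, b4].getD i false

/-- The finite check. -/
def Fin5 (n : ℕ) (cs : List ℕ) : Prop := ∀ b0 b1 b2 b3 b4 : Bool, ∀ v ∈ range (n + 1),
  (∃ i ∈ range n, i ≠ v ∧ bo b0 b1 b2 b3 b4 i = true) → (∃ i ∈ range n, i ≠ v ∧ bo b0 b1 b2 b3 b4 i = false) →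
    cutl n (bo b0 b1 b2 b3 b4) v prs ∈ cs

instance (n : ℕ) (cs : List ℕ) : Decidable (Fin5 n cs) := by
  unfold Fin5
  infer_instance

theorem cutl_congr {n v : ℕ} {b b' : ℕ → Bool} {L : List (ℕ × ℕ)} (h : ∀ p ∈ L, b p.1 = b' p.1 ∧ b p.2 = b' p.2) :
    cutl n b v L = cutl n b' v L := by
  induction L with
  | nil => rfl
  | cons p L ih =>
    unfold cutl
    rw [(h p List.mem_cons_self).1, (h p List.mem_cons_self).2, ih fun q hq => h q (List.mem_cons_of_mem _ hq)]

theorem bo_eq (b : ℕ → Bool) {i : ℕ} (hi : i < 5) : b i = bo (b 0) (b 1) (b 2) (b 3) (b 4) i := by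
  interval_cases i <;> rfl

theorem prs_lt5 {p : ℕ × ℕ} (h : p ∈ prs) : p.2 < 5 := by
  unfold prs at h
  simp only [List.mem_cons, List.not_mem_nil, or_false] at h
  rcases h with rfl | rfl | rfl | rfl | rfl | rfl | rfl | rfl | rfl | rfl <;> decide

theorem lst_of_fin {n : ℕ} {cs : List ℕ} (hn : n ≤ 5) (h : Fin5 n cs) : Lst n cs := by
  intro b v hv h1 h2
  have e : ∀ i < n, b i = bo (b 0) (b 1) (b 2) (b 3) (b 4) i := fun i hi => bo_eq b (by omega)
  have h3 := h (b 0) (b 1) (b 2) (b 3) (b 4) v (Finset.mem_range.2 (by omega))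
    (by
      obtain ⟨i, hi, g1, g2⟩ := h1
      exact ⟨i, Finset.mem_range.2 hi, g1, by rw [← e i hi]; exact g2⟩)
    (by
      obtain ⟨i, hi, g1, g2⟩ := h2
      exact ⟨i, Finset.mem_range.2 hi, g1, by rw [← e i hi]; exact g2⟩)
  rw [cutl_congr (b' := bo (b 0) (b 1) (b 2) (b 3) (b 4))]
  · exact h3
  · intro p hp
    have g1 := prs_lt hp
    have g2 := prs_lt5 hp
    exact ⟨bo_eq b (by omega), bo_eq b (by omega)⟩

/-- The cut masks on five vertices. -/
def cuts5 : List ℕ := [11, 21, 30, 38, 45, 51, 56, 67, 73, 74, 75, 133, 145, 148, 149, 198, 216, 222, 262, 290, 292,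
  294, 325, 360, 365, 387, 432, 435, 448, 504, 536, 552, 560, 568, 593, 610, 627, 649, 676, 685, 704, 742, 778, 788,
  798, 832, 853, 896, 907, 960]

/-- The cut masks on four vertices. -/
def cuts4 : List ℕ := [3, 5, 6, 9, 10, 11, 17, 20, 21, 24, 30, 34, 36, 38, 40, 45, 48, 51, 56]

/-- The cut masks on three vertices. -/
def cuts3 : List ℕ := [1, 2, 3, 4, 5, 6]

theorem fin5 : Fin5 5 cuts5 := by decide +kernel
theorem fin4 : Fin5 4 cuts4 := by decide +kernel
theorem fin3 : Fin5 3 cuts3 := by decide +kernel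
theorem fin2 : Fin5 2 [1] := by decide +kernel

theorem cnt5 : ((range 1023).filter (fun m => chk cuts5 m = true)).card = 237 := by decide +kernel
theorem cnt4 : ((range 64).filter (fun m => chk cuts4 m = true)).card = 10 := by decide +kernel
theorem cnt3 : ((range 8).filter (fun m => chk cuts3 m = true)).card = 1 := by decide +kernel

end BSmallAux

open BSmallAux

theorem bC_one : bC 1 = 1 := by
  unfold bC
  rw [Nat.card_eq_one_iff_unique]
  constructor
  · constructor
    rintro ⟨G, hG⟩ ⟨G', hG'⟩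
    have key : ∀ H : Gr, BK 0 (Ico 1 (1 + 1)) H → ∀ a b, H.Adj a b ↔ (a = 0 ∧ b = 1) ∨ (a = 1 ∧ b = 0) := by
      intro H hH a b
      have hon := hH.on
      have hc := hH.blk.2.1
      rw [insert_Ico] at hon hc
      have h01 : H.Adj 0 1 := by
        obtain ⟨u, hu, v, hv, hvP, huv⟩ := hc.2 {0} (by simp) (by simp) (by decide)
        rw [Finset.mem_singleton] at hu hvP
        have hv1 : v = 1 := by
          have := Finset.mem_range.1 hv
          omega
        rw [hu, hv1] at huv
        exact huv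
      constructor
      · intro hab
        have h1 := Finset.mem_range.1 (hon a b hab)
        have h2 := Finset.mem_range.1 (hon b a hab.symm)
        have h3 := hab.ne
        omega
      · rintro (⟨rfl, rfl⟩ | ⟨rfl, rfl⟩)
        · exact h01
        · exact h01.symm
    apply Subtype.ext
    ext a b
    exact (key G hG a b).trans (key G' hG' a b).symm
  · exact ⟨⟨gm 2 1, bk_gm (k := 1) (le_refl 1) (lst_of_fin (by omega) fin2) (by decide)
      (free_four (by omega) (on_gm 2 1))⟩⟩

theorem bC_two : 1 ≤ bC 2 := by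
  have h := le_bC (k := 2) (N := 3) (M := 8) (by omega) (lst_of_fin (by omega) fin3) (by decide) (by norm_num)
    (fun m _ => free_four (by omega) (on_gm 3 m))
  rwa [cnt3] at h

theorem bC_three : 10 ≤ bC 3 := by
  have h := le_bC (k := 3) (N := 6) (M := 64) (by omega) (lst_of_fin (by omega) fin4) (by decide) (by norm_num)
    (fun m _ => free_four (by omega) (on_gm 4 m))
  rwa [cnt4] at h

theorem bC_four : 237 ≤ bC 4 := by
  have hsr : Srj 5 10 := by decide
  have h := le_bC (k := 4) (N := 10) (M := 1023) (by omega) (lst_of_fin (by omega) fin5) hsr (by norm_num)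
    (by
      intro m hm h5
      have h1 : ∀ i < 10, m.testBit i = true := by
        intro i hi
        obtain ⟨a, ha, b, hb, hab, rfl⟩ := hsr i (Finset.mem_range.2 hi)
        exact (free_five (on_gm 5 m) h5 (Finset.mem_range.1 ha) (Finset.mem_range.1 hb) hab).2.2.2
      have h2 : m = 1023 := by
        apply Nat.eq_of_testBit_eq
        intro i
        by_cases hi : i < 10
        · rw [h1 i hi]
          interval_cases i <;> rfl
        · have h3 : 2 ^ 10 ≤ 2 ^ i := Nat.pow_le_pow_right (by norm_num) (by omega)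
          rw [Nat.testBit_lt_two_pow (lt_of_lt_of_le (by omega) h3),
            Nat.testBit_lt_two_pow (lt_of_lt_of_le (by norm_num) h3)]
      omega)
  rwa [cnt5] at h

end K5
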