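import Pool.Agent.Lib.K5.BRel

/-!
# K5.BStrC: the number of graphs with a given structure

Fix `HStr v U W J`. The map `G ↦ (rst G (insert v W), fun w => rst G (insert w (J w)))` is a bijection from `{G // GStr v U W J G}` to `{H // BK v W H} × ∀ w : W, {N // CR w (J w) N}` with the inverse `(H, N) ↦ H ⊔ ⨆ w, N w` (define it by the
adjacency `H.Adj a b ∨ ∃ w, (N w).Adj a b`).
Facts: `w ∈ W` is in no `J w'`; `v` is in no `J w'`, `v ∉ W`; `J w` is disjoint from `insert v W` and from `insert w' (J w')` for `w' ≠ w`.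
1. `rst (H ⊔ ⨆ N) (insert v W) = H`: an edge of `N w` has its ends in `insert w (J w)`; if both are in `insert v W` both are equal to `w`, impossible. `H` is on `insert v W`.
2. `rst (H ⊔ ⨆ N) (insert w (J w)) = N w`: an edge of `H` has its ends in `insert v W`; if both are in `insert w (J w)` both are `w`; an edge of `N w'`, `w' ≠ w`, has its ends in `insert w' (J w')`, disjoint from `insert w (J w)`.
3. `out`: an edge of `H ⊔ ⨆ N` at `a ∈ J w` is not in `H` and not in `N w'` for `w' ≠ w`; so it is in `N w`.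
4. `H ⊔ ⨆ N = G` if `H`, `N` are the restrictions of `G`: let `G.Adj a b`; if `a ∈ J w` (or `b ∈ J w`) then both ends are in `insert w (J w)` by `out` (and `w ∈ W` by `Jout`); otherwise both are in `insert v W`.
Then `Nat.card_congr`, `Nat.card_prod`, `Nat.card_pi`, `bk_count`, `cr_count`, `Finset.prod_coe_sort`.
-/

namespace K5

open Finset

namespace BStrCAux

variable {v : ℕ} {U W : Finset ℕ} {J : ℕ → Finset ℕ}

/-- the union of the block and the hanging graphs -/
def cmp (H : Gr) (N : W → Gr) : Gr where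
  Adj a b := H.Adj a b ∨ ∃ w, (N w).Adj a b
  symm := ⟨fun _ _ h => h.elim (fun h => Or.inl h.symm) (fun ⟨w, h⟩ => Or.inr ⟨w, h.symm⟩)⟩
  loopless := ⟨fun a h => h.elim (fun h => H.loopless.irrefl a h)
    (fun ⟨w, h⟩ => (N w).loopless.irrefl a h)⟩

theorem nJ (h : HStr v U W J) {a : ℕ} (ha : a ∈ insert v W) (w : ℕ) : a ∉ J w := by
  intro h1
  have h2 := Finset.mem_sdiff.mp (h.Jsub w h1)
  rcases Finset.mem_insert.mp ha with h3 | h3
  · exact h.hv (h3 ▸ h2.1)
  · exact h2.2 h3

theorem eq_w (h : HStr v U W J) {a w : ℕ} (ha : a ∈ insert v W) (ha' : a ∈ insert w (J w)) :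
    a = w := by
  rcases Finset.mem_insert.mp ha' with h1 | h1
  · exact h1
  · exact absurd h1 (nJ h ha w)

theorem eq_ww (h : HStr v U W J) {a w w' : ℕ} (hw : w ∈ W) (hw' : w' ∈ W)
    (ha : a ∈ insert w (J w)) (ha' : a ∈ insert w' (J w')) : w = w' := by
  rcases Finset.mem_insert.mp ha with h1 | h1
  · rw [h1] at ha'
    exact eq_w h (Finset.mem_insert_of_mem hw) ha'
  · rcases Finset.mem_insert.mp ha' with h2 | h2
    · rw [h2] at h1
      exact absurd h1 (nJ h (Finset.mem_insert_of_mem hw') w)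
    · by_contra hne
      exact Finset.disjoint_left.mp (h.Jdisj w w' hne) h1 h2

theorem cr_mem {w : ℕ} {S : Finset ℕ} {N : Gr} (h : CR w S N) {a b : ℕ} (hab : N.Adj a b) :
    a ∈ insert w S ∧ b ∈ insert w S := ⟨h.on a b hab, h.on b a hab.symm⟩

theorem bk_mem {H : Gr} (h : BK v W H) {a b : ℕ} (hab : H.Adj a b) :
    a ∈ insert v W ∧ b ∈ insert v W := ⟨h.on a b hab, h.on b a hab.symm⟩

theorem rst_core (h : HStr v U W J) {H : Gr} (hH : BK v W H) (N : W → Gr)
    (hN : ∀ w : W, CR w (J w) (N w)) : rst (cmp H N) (insert v W) = H := by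
  ext a b
  constructor
  · rintro ⟨h1 | ⟨w, h1⟩, ha, hb⟩
    · exact h1
    · exfalso
      have h2 := cr_mem (hN w) h1
      have h3 := eq_w h ha h2.1
      have h4 := eq_w h hb h2.2
      rw [h3, h4] at h1
      exact h1.ne rfl
  · intro h1
    have h2 := bk_mem hH h1
    exact ⟨Or.inl h1, h2.1, h2.2⟩

theorem rst_hang (h : HStr v U W J) {H : Gr} (hH : BK v W H) (N : W → Gr)
    (hN : ∀ w : W, CR w (J w) (N w)) (w : W) :
    rst (cmp H N) (insert (w : ℕ) (J w)) = N w := by
  ext a b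
  constructor
  · rintro ⟨h1 | ⟨w', h1⟩, ha, hb⟩
    · exfalso
      have h2 := bk_mem hH h1
      have h3 := eq_w h h2.1 ha
      have h4 := eq_w h h2.2 hb
      rw [h3, h4] at h1
      exact h1.ne rfl
    · have h2 := cr_mem (hN w') h1
      have h3 : w = w' := Subtype.ext (eq_ww h w.2 w'.2 ha h2.1)
      rw [h3]
      exact h1
  · intro h1
    have h2 := cr_mem (hN w) h1
    exact ⟨Or.inr ⟨w, h1⟩, h2.1, h2.2⟩

theorem J_mem (h : HStr v U W J) {a w : ℕ} (ha : a ∈ J w) : w ∈ W := by
  by_contra h1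
  rw [h.Jout w h1] at ha
  exact absurd ha (Finset.notMem_empty a)

theorem gstr_cmp (h : HStr v U W J) {H : Gr} (hH : BK v W H) (N : W → Gr)
    (hN : ∀ w : W, CR w (J w) (N w)) : GStr v U W J (cmp H N) := by
  refine ⟨h, ?_, ?_, ?_, ?_⟩
  · rintro a b (h1 | ⟨w, h1⟩)
    · rcases Finset.mem_insert.mp (bk_mem hH h1).1 with h2 | h2
      · rw [h2]
        exact Finset.mem_insert_self _ _
      · exact Finset.mem_insert_of_mem (h.sub h2)
    · rcases Finset.mem_insert.mp (cr_mem (hN w) h1).1 with h2 | h2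
      · rw [h2]
        exact Finset.mem_insert_of_mem (h.sub w.2)
      · exact Finset.mem_insert_of_mem (Finset.mem_sdiff.mp (h.Jsub _ h2)).1
  · rintro w a ha b (h1 | ⟨w', h1⟩)
    · exact absurd ha (nJ h (bk_mem hH h1).1 w)
    · have h2 := cr_mem (hN w') h1
      have h3 : w = (w' : ℕ) := eq_ww h (J_mem h ha) w'.2 (Finset.mem_insert_of_mem ha) h2.1
      rw [h3]
      exact Finset.mem_insert.mp h2.2
  · rw [rst_core h hH N hN]
    exact hH
  · intro w hw
    have h1 := rst_hang h hH N hN ⟨w, hw⟩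
    dsimp only at h1
    rw [h1]
    exact hN ⟨w, hw⟩

theorem cmp_rst (h : HStr v U W J) {G : Gr} (hG : GStr v U W J G) :
    cmp (W := W) (rst G (insert v W)) (fun w => rst G (insert (w : ℕ) (J w))) = G := by
  ext a b
  constructor
  · rintro (h1 | ⟨w, h1⟩)
    · exact h1.1
    · exact h1.1
  · intro hab
    by_cases ha : ∃ w, a ∈ J w
    · obtain ⟨w, ha⟩ := ha
      exact Or.inr ⟨⟨w, J_mem h ha⟩, hab, Finset.mem_insert_of_mem ha,
        Finset.mem_insert.mpr (hG.out w a ha b hab)⟩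
    · by_cases hb : ∃ w, b ∈ J w
      · obtain ⟨w, hb⟩ := hb
        exact Or.inr ⟨⟨w, J_mem h hb⟩, hab, Finset.mem_insert.mpr (hG.out w b hb a hab.symm),
          Finset.mem_insert_of_mem hb⟩
      · have key : ∀ x y, G.Adj x y → (¬ ∃ w, x ∈ J w) → x ∈ insert v W := by
          intro x y hxy hx
          rcases Finset.mem_insert.mp (hG.on x y hxy) with h1 | h1
          · rw [h1]
            exact Finset.mem_insert_self _ _
          · by_contra h2
            have h3 : x ∈ U \ W :=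
              Finset.mem_sdiff.mpr ⟨h1, fun h4 => h2 (Finset.mem_insert_of_mem h4)⟩
            obtain ⟨w, _, h5⟩ := h.Jcover x h3
            exact hx ⟨w, h5⟩
        exact Or.inl ⟨hab, key a b hab ha, key b a hab.symm hb⟩

/-- the bijection -/
noncomputable def eqv (h : HStr v U W J) : {G : Gr // GStr v U W J G} ≃
    {H : Gr // BK v W H} × ((w : W) → {N : Gr // CR (w : ℕ) (J w) N}) where
  toFun G := (⟨rst G.1 (insert v W), G.2.core⟩,
    fun w => ⟨rst G.1 (insert (w : ℕ) (J w)), G.2.hang w w.2⟩)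
  invFun p := ⟨cmp p.1.1 (fun w => (p.2 w).1), gstr_cmp h p.1.2 _ (fun w => (p.2 w).2)⟩
  left_inv G := Subtype.ext (cmp_rst h G.2)
  right_inv p := by
    refine Prod.ext (Subtype.ext ?_) (funext fun w => Subtype.ext ?_)
    · exact rst_core h p.1.2 _ (fun w => (p.2 w).2)
    · exact rst_hang h p.1.2 _ (fun w => (p.2 w).2) w

end BStrCAux

theorem gstr_card {v : ℕ} {U W : Finset ℕ} {J : ℕ → Finset ℕ} (h : HStr v U W J) :
    Nat.card {G : Gr // GStr v U W J G} = bC W.card * ∏ w ∈ W, rC (J w).card := by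
  rw [Nat.card_congr (BStrCAux.eqv h), Nat.card_prod, Nat.card_pi,
    bk_count (fun h1 => h.hv (h.sub h1)), ← Finset.prod_coe_sort W (fun w => rC (J w).card)]
  congr 1
  refine Finset.prod_congr rfl fun w _ => ?_
  exact cr_count (BStrCAux.nJ h (Finset.mem_insert_of_mem w.2) w)

end K5
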