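import Pool.Agent.Lib.K5.BQ
import Pool.Agent.Lib.K5.BFour
import Pool.Agent.Lib.K5.BSmall
import Pool.Agent.Lib.K5.BStrN

/-!
# K5.BUp: the series `B'` from above and from below

1. `four_egf_le`: the terms: `n = 0`: `bE 0 = 0`; `n = 1`: `4 x bE 1 = 4 x`; `n + 1` with `n ≥ 1`: `4 * x^(n+1)/(n+1)! * bC (n+1) ≤ x * (x^n/n! * 2 Q n)` (`bC_le`: `2 bC (n+1) ≤ (n+1) Q n`, `(n+1)! = (n+1) n!`), and for `n = 2` with the additional term
   `4/3 x^3` on the left (`four`: `4 * x^3/6 * bC 3 + 4/3 * x^3 = (x^3/3) * (2 bC 3 + 4) ≤ x^3 Q 2 = x * (x^2/2 * 2 Q 2)`). Sum over `n`: `tsum_eq_zero_add'` twice for the left side and once for `D x = 1 + ∑' n, ...`; add `3 x`. (`x ≠ ⊤` is not needed if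
   every inequality is multiplied out in `ENNReal`; it may be assumed: `x = ofReal _`.)
2. `le_egf`: the terms `n = 1, 2, 3, 4` of the series: `y + y^2/2 + 10 y^3/6 + 237 y^4/24` (`bC_one`, ..., `bC_four`; `Finset.sum` over `range 5` is at most the `tsum`: `ENNReal.sum_le_tsum`).
-/

namespace K5

open Finset
open scoped ENNReal

/-- The polynomial of the small blocks. -/
noncomputable def bp (y : ℝ) : ℝ := y + y ^ 2 / 2 + 5 * y ^ 3 / 3 + 79 * y ^ 4 / 8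

namespace BUpAux

theorem term_ofReal {x : ℝ} (hx : 0 ≤ x) (n m : ℕ) :
    (ENNReal.ofReal x) ^ n / (n.factorial : ℝ≥0∞) * (m : ℝ≥0∞) =
      ENNReal.ofReal (x ^ n / n.factorial * m) := by
  have hf : (0 : ℝ) < n.factorial := by exact_mod_cast n.factorial_pos
  rw [ENNReal.ofReal_mul (by positivity), ENNReal.ofReal_div_of_pos hf, ENNReal.ofReal_pow hx,
    ENNReal.ofReal_natCast, ENNReal.ofReal_natCast]

theorem term_le {x : ℝ} (hx : 0 ≤ x) (n : ℕ) :
    4 * (x ^ (n + 2) / (n + 2).factorial * (bC (n + 2) : ℝ)) +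
        (if n = 1 then 4 / 3 * x ^ 3 else 0) ≤
      x * (x ^ (n + 1) / (n + 1).factorial * (((2 * Q (n + 1) : ℕ) : ℝ))) := by
  by_cases h : n = 1
  · subst h
    have h4 : ((2 * bC 3 + 4 : ℕ) : ℝ) ≤ ((3 * Q 2 : ℕ) : ℝ) := by exact_mod_cast four
    push_cast at h4
    have e3 : ((1 + 2).factorial : ℝ) = 6 := by norm_num [Nat.factorial]
    have e2 : ((1 + 1).factorial : ℝ) = 2 := by norm_num [Nat.factorial]
    rw [e3, e2, if_pos rfl]
    push_cast
    have hx3 : 0 ≤ x ^ 3 := by positivity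
    have e : x ^ (1 + 2) = x ^ 3 := rfl
    have e5 : x * (x ^ (1 + 1) / 2 * (2 * (Q 2 : ℝ))) = x ^ 3 * (Q 2 : ℝ) := by ring
    have e6 : Q (1 + 1) = Q 2 := rfl
    have e7 : bC (1 + 2) = bC 3 := rfl
    rw [e6, e7, e, e5]
    have := mul_le_mul_of_nonneg_left h4 hx3
    nlinarith
  · rw [if_neg h, add_zero]
    have h1 : ((2 * bC (n + 2) : ℕ) : ℝ) ≤ (((n + 2) * Q (n + 1) : ℕ) : ℝ) := by
      exact_mod_cast bC_le (n := n + 1) (by omega)
    push_cast at h1 ⊢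
    have hf : (0 : ℝ) < (n + 1).factorial := by exact_mod_cast (n + 1).factorial_pos
    have e : ((n + 2).factorial : ℝ) = ((n : ℝ) + 2) * (n + 1).factorial := by
      rw [Nat.factorial_succ (n + 1)]
      push_cast
      ring
    have hn : (0 : ℝ) < (n : ℝ) + 2 := by positivity
    rw [e]
    have l : 4 * (x ^ (n + 2) / (((n : ℝ) + 2) * (n + 1).factorial) * (bC (n + 2) : ℝ)) =
        2 * x ^ (n + 2) / (((n : ℝ) + 2) * (n + 1).factorial) * (2 * (bC (n + 2) : ℝ)) := by ring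
    have r : x * (x ^ (n + 1) / ((n + 1).factorial : ℝ) * (2 * (Q (n + 1) : ℝ))) =
        2 * x ^ (n + 2) / (((n : ℝ) + 2) * (n + 1).factorial) *
          (((n : ℝ) + 2) * (Q (n + 1) : ℝ)) := by
      field_simp
      ring
    rw [l, r]
    exact mul_le_mul_of_nonneg_left h1 (by positivity)

theorem term_le' {x : ℝ} (hx : 0 ≤ x) (n : ℕ) :
    4 * ((ENNReal.ofReal x) ^ (n + 2) / ((n + 2).factorial : ℝ≥0∞) * bE (n + 2)) +
        (if n = 1 then ENNReal.ofReal (4 / 3 * x ^ 3) else 0) ≤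
      ENNReal.ofReal x * ((ENNReal.ofReal x) ^ (n + 1) / ((n + 1).factorial : ℝ≥0∞) *
        (if n + 1 = 0 then 1 else 2 * (Q (n + 1) : ℝ≥0∞))) := by
  have h := ENNReal.ofReal_le_ofReal (term_le hx n)
  rw [if_neg (Nat.succ_ne_zero n)]
  have e1 : (2 * (Q (n + 1) : ℝ≥0∞)) = ((2 * Q (n + 1) : ℕ) : ℝ≥0∞) := by push_cast; rfl
  have e2 : bE (n + 2) = ((bC (n + 2) : ℕ) : ℝ≥0∞) := rfl
  rw [e1, e2, term_ofReal hx, term_ofReal hx, ← ENNReal.ofReal_mul hx]
  have e4 : (4 : ℝ≥0∞) = ENNReal.ofReal 4 := by simp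
  rw [e4, ← ENNReal.ofReal_mul (by norm_num)]
  have e5 : (if n = 1 then ENNReal.ofReal (4 / 3 * x ^ 3) else 0) =
      ENNReal.ofReal (if n = 1 then 4 / 3 * x ^ 3 else 0) := by
    split_ifs <;> simp
  rw [e5, ← ENNReal.ofReal_add]
  · exact h
  · positivity
  · split_ifs
    · positivity
    · exact le_refl 0

end BUpAux

open BUpAux

theorem four_egf_le {x : ℝ} (hx : 0 < x) :
    4 * egf bE (.ofReal x) + .ofReal (4 / 3 * x ^ 3) ≤
      .ofReal (3 * x) + .ofReal x * D (.ofReal x) := by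
  set X := ENNReal.ofReal x with hX
  have hA : egf bE X = X + ∑' n : ℕ, X ^ (n + 2) / ((n + 2).factorial : ℝ≥0∞) * bE (n + 2) := by
    unfold egf
    rw [tsum_eq_zero_add' ENNReal.summable, tsum_eq_zero_add' ENNReal.summable]
    have e0 : bE 0 = 0 := by
      unfold bE
      rw [bC_zero]
      simp
    have e1 : bE 1 = 1 := by
      unfold bE
      rw [bC_one]
      simp
    rw [e0]
    simp only [zero_add, e1, mul_zero, pow_one, Nat.factorial_one, Nat.cast_one, div_one, mul_one]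
  have hD : D X = 1 + ∑' n : ℕ, X ^ (n + 1) / ((n + 1).factorial : ℝ≥0∞) *
      (if n + 1 = 0 then 1 else 2 * (Q (n + 1) : ℝ≥0∞)) := by
    unfold D
    rw [tsum_eq_zero_add' ENNReal.summable]
    simp
  have hs : ∑' n : ℕ, (if n = 1 then ENNReal.ofReal (4 / 3 * x ^ 3) else 0) =
      ENNReal.ofReal (4 / 3 * x ^ 3) := tsum_ite_eq 1 _
  have key : 4 * (∑' n : ℕ, X ^ (n + 2) / ((n + 2).factorial : ℝ≥0∞) * bE (n + 2)) +
      ENNReal.ofReal (4 / 3 * x ^ 3) ≤ X * ∑' n : ℕ, X ^ (n + 1) / ((n + 1).factorial : ℝ≥0∞) *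
      (if n + 1 = 0 then 1 else 2 * (Q (n + 1) : ℝ≥0∞)) := by
    rw [← hs, ← ENNReal.tsum_mul_left, ← ENNReal.tsum_mul_left, ← ENNReal.tsum_add]
    exact ENNReal.tsum_le_tsum fun n => term_le' hx.le n
  have h3 : ENNReal.ofReal (3 * x) = 3 * X := by
    rw [ENNReal.ofReal_mul (by norm_num)]
    simp [hX]
  rw [hA, hD, h3]
  calc 4 * (X + ∑' n : ℕ, X ^ (n + 2) / ((n + 2).factorial : ℝ≥0∞) * bE (n + 2)) +
        ENNReal.ofReal (4 / 3 * x ^ 3)
      = 4 * X + (4 * (∑' n : ℕ, X ^ (n + 2) / ((n + 2).factorial : ℝ≥0∞) * bE (n + 2)) +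
        ENNReal.ofReal (4 / 3 * x ^ 3)) := by rw [mul_add, add_assoc]
    _ ≤ 4 * X + X * ∑' n : ℕ, X ^ (n + 1) / ((n + 1).factorial : ℝ≥0∞) *
      (if n + 1 = 0 then 1 else 2 * (Q (n + 1) : ℝ≥0∞)) := by gcongr
    _ = 3 * X + X * (1 + ∑' n : ℕ, X ^ (n + 1) / ((n + 1).factorial : ℝ≥0∞) *
      (if n + 1 = 0 then 1 else 2 * (Q (n + 1) : ℝ≥0∞))) := by
        rw [mul_add, mul_one, ← add_assoc]
        congr 1
        have : (4 : ℝ≥0∞) = 3 + 1 := by norm_num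
        rw [this, add_mul, one_mul]

theorem le_egf {y : ℝ} (hy : 0 ≤ y) : ENNReal.ofReal (bp y) ≤ egf bE (.ofReal y) := by
  have h1 : ∑ n ∈ range 5, ENNReal.ofReal y ^ n / (n.factorial : ℝ≥0∞) * bE n ≤
      egf bE (.ofReal y) := ENNReal.sum_le_tsum (range 5)
  refine le_trans ?_ h1
  have e : ∀ n, bE n = ((bC n : ℕ) : ℝ≥0∞) := fun n => rfl
  simp only [e, term_ofReal hy]
  rw [← ENNReal.ofReal_sum_of_nonneg (fun n _ => by positivity)]
  apply ENNReal.ofReal_le_ofReal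
  have a2 : (1 : ℝ) ≤ bC 2 := by exact_mod_cast bC_two
  have a3 : (10 : ℝ) ≤ bC 3 := by exact_mod_cast bC_three
  have a4 : (237 : ℝ) ≤ bC 4 := by exact_mod_cast bC_four
  unfold bp
  simp only [Finset.sum_range_succ, Finset.sum_range_zero, bC_zero, bC_one]
  have f2 : ((2 : ℕ).factorial : ℝ) = 2 := by norm_num [Nat.factorial]
  have f3 : ((3 : ℕ).factorial : ℝ) = 6 := by norm_num [Nat.factorial]
  have f4 : ((4 : ℕ).factorial : ℝ) = 24 := by norm_num [Nat.factorial]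
  rw [f2, f3, f4]
  simp only [Nat.factorial_zero, Nat.factorial_one, Nat.cast_one, Nat.cast_zero, pow_zero, pow_one,
    mul_zero, zero_add, div_one, mul_one]
  have b2 := mul_le_mul_of_nonneg_left a2 (show (0 : ℝ) ≤ y ^ 2 / 2 by positivity)
  have b3 := mul_le_mul_of_nonneg_left a3 (show (0 : ℝ) ≤ y ^ 3 / 6 by positivity)
  have b4 := mul_le_mul_of_nonneg_left a4 (show (0 : ℝ) ≤ y ^ 4 / 24 by positivity)
  linarith

end K5
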