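import Pool.Agent.Lib.K5.RelD
import Pool.Agent.Lib.K5.Basic0

/-!
# K5.CntA: the number of codes with given `A`, `H`, `f`

Let `E = H.edgeSet \ {s(s, t)}` (finite, `On H`). For given `A, H, f` satisfying the conditions that do not mention `N` and `F`, the valid pairs `(N, F)` correspond to the families `(N e, [e ∈ F])_{e ∈ E}` with: `N e` a network at `e` on the fibre (`NetE e (fib e) (N e)`, i.e. `Net u v (fib e) (N e)` for
`e = s(u, v)`; the condition is symmetric in `u, v`: `Net u v I G ↔ Net v u I G`), and `e ∈ F` if the fibre is empty. Outside `E`: `N e = ⊥`, `e ∉ F`. So the number is `∏_{e ∈ E} dd |fib e|` (`dd_count`). A product of `∑'` over independent choices: induction on the finset `E`, or `Equiv` with a Pi type and `tsum` = `Nat.card` of finite types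
(`finite_on`), `Nat.card_pi`.
-/

namespace K5

open Finset
open scoped ENNReal

theorem Net.symm' {u v : ℕ} {I : Finset ℕ} {G : Gr} (h : Net u v I G) : Net v u I G := by
  have e : St v u I = St u v I := Finset.insert_comm _ _ _
  exact ⟨h.ne.symm, h.ht, h.hs, by rw [e]; exact h.on, h.adj.symm, by rw [e]; exact h.blk, h.free⟩

namespace CntAAux

lemma netE_iff {u v : ℕ} {I : Finset ℕ} {G : Gr} : NetE s(u, v) I G ↔ Net u v I G := by
  constructor
  · rintro ⟨a, b, he, hn⟩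
    rcases Sym2.eq_iff.mp he with h | h
    · rw [h.1, h.2]
      exact hn
    · rw [h.1, h.2]
      exact hn.symm'
  · intro h
    exact ⟨u, v, rfl, h⟩

lemma tsum_finite {α : Type} [Finite α] : ∑' _ : α, (1 : ℝ≥0∞) = (Nat.card α : ℝ≥0∞) := by
  have := Fintype.ofFinite α
  rw [tsum_fintype, sum_const, Finset.card_univ, Nat.card_eq_fintype_card, nsmul_eq_mul, mul_one]

lemma finite_of_tsum {α : Type} (h : ∑' _ : α, (1 : ℝ≥0∞) ≠ ⊤) : Finite α := by
  by_contra hcon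
  rw [not_finite_iff_infinite] at hcon
  exact h (ENNReal.tsum_const_eq_top_of_ne_zero one_ne_zero)

lemma tsum_pi {ι : Type} [Fintype ι] {β : ι → Type} (c : ι → ℝ≥0∞) (hc : ∀ i, c i ≠ ⊤)
    (h : ∀ i, ∑' _ : β i, (1 : ℝ≥0∞) = c i) : ∑' _ : (∀ i, β i), (1 : ℝ≥0∞) = ∏ i, c i := by
  have hf : ∀ i, Finite (β i) := fun i => finite_of_tsum (by rw [h i]; exact hc i)
  rw [tsum_finite, Nat.card_pi]
  push_cast
  refine Finset.prod_congr rfl fun i _ => ?_
  rw [← h i, tsum_finite]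

/-- The data at an edge. -/
abbrev Dat (U A : Finset ℕ) (f : ℕ → Sym2 ℕ) (e : Sym2 ℕ) : Type :=
  {p : Gr × Bool // NetE e ((U \ A).filter (fun w => f w = e)) p.1 ∧
    ((U \ A).filter (fun w => f w = e) = ∅ → p.2 = true)}

lemma fib_eq (U A : Finset ℕ) (H : Gr) (f : ℕ → Sym2 ℕ) (N : Sym2 ℕ → Gr) (F : Set (Sym2 ℕ)) (e : Sym2 ℕ) :
    Code.fib U ⟨A, H, f, N, F⟩ e = (U \ A).filter (fun w => f w = e) := by
  ext w
  simp [Code.fib]

lemma fib_empty {U A : Finset ℕ} {f : ℕ → Sym2 ℕ} {e : Sym2 ℕ} :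
    (U \ A).filter (fun w => f w = e) = ∅ ↔ ∀ w ∈ U \ A, f w ≠ e := by
  rw [Finset.filter_eq_empty_iff]

lemma valid_iff {s t : ℕ} {U A : Finset ℕ} {H : Gr} (hs : s ∉ U) (ht : t ∉ U) (hA : A ⊆ U)
    (hH : Core s t A H) {f : ℕ → Sym2 ℕ}
    (hf : ∀ w ∈ U \ A, f w ∈ H.edgeSet ∧ f w ≠ s(s, t)) (hf' : ∀ w, w ∉ U \ A → f w = s(s, t))
    (E : Finset (Sym2 ℕ)) (hE : ∀ e, e ∈ E ↔ e ∈ H.edgeSet ∧ e ≠ s(s, t))
    (N : Sym2 ℕ → Gr) (F : Set (Sym2 ℕ)) :
    Code.Valid s t U ⟨A, H, f, N, F⟩ ↔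
      (∀ e ∈ E, NetE e ((U \ A).filter (fun w => f w = e)) (N e) ∧
        ((U \ A).filter (fun w => f w = e) = ∅ → e ∈ F)) ∧ ∀ e, e ∉ E → N e = ⊥ ∧ e ∉ F := by
  constructor
  · intro h
    refine ⟨fun e he => ⟨?_, fun h0 => ?_⟩, fun e he => ⟨?_, fun h1 => ?_⟩⟩
    · have h1 := h.net e ((hE e).mp he).1 ((hE e).mp he).2
      rwa [fib_eq] at h1
    · exact h.F_full e ((hE e).mp he).1 ((hE e).mp he).2 (fib_empty.mp h0)
    · refine h.net_out e ?_
      by_contra hcon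
      push Not at hcon
      exact he ((hE e).mpr hcon)
    · exact he ((hE e).mpr (h.F_sub e h1))
  · rintro ⟨h1, h2⟩
    refine ⟨hs, ht, hA, hH, ?_, ?_, ?_, ?_, ?_, ?_⟩
    · exact hf
    · exact hf'
    · intro e he he'
      rw [fib_eq]
      exact (h1 e ((hE e).mpr ⟨he, he'⟩)).1
    · intro e he
      refine (h2 e ?_).1
      intro hcon
      rcases he with he | he
      · exact he ((hE e).mp hcon).1
      · exact ((hE e).mp hcon).2 he
    · intro e he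
      by_contra hcon
      exact (h2 e (fun h => hcon ((hE e).mp h))).2 he
    · intro e he he' h0
      exact (h1 e ((hE e).mpr ⟨he, he'⟩)).2 (fib_empty.mpr h0)

lemma dec_iff {P : Prop} (i : Decidable P) : @decide P i = true ↔ P := decide_eq_true_iff

open Classical in
/-- The bijection. -/
noncomputable def equ {s t : ℕ} {U A : Finset ℕ} {H : Gr} (hs : s ∉ U) (ht : t ∉ U) (hA : A ⊆ U)
    (hH : Core s t A H) {f : ℕ → Sym2 ℕ}
    (hf : ∀ w ∈ U \ A, f w ∈ H.edgeSet ∧ f w ≠ s(s, t)) (hf' : ∀ w, w ∉ U \ A → f w = s(s, t))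
    (E : Finset (Sym2 ℕ)) (hE : ∀ e, e ∈ E ↔ e ∈ H.edgeSet ∧ e ≠ s(s, t)) :
    {p : (Sym2 ℕ → Gr) × Set (Sym2 ℕ) // Code.Valid s t U ⟨A, H, f, p.1, p.2⟩} ≃
      ((e : E) → Dat U A f e.1) where
  toFun p := fun e => ⟨(p.1.1 e.1, decide (e.1 ∈ p.1.2)), by
    have h := ((valid_iff hs ht hA hH hf hf' E hE _ _).mp p.2).1 e.1 e.2
    exact ⟨h.1, fun h0 => decide_eq_true (h.2 h0)⟩⟩
  invFun g := ⟨(fun e => if h : e ∈ E then (g ⟨e, h⟩).1.1 else ⊥,
      {e | ∃ h : e ∈ E, (g ⟨e, h⟩).1.2 = true}), by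
    refine (valid_iff hs ht hA hH hf hf' E hE _ _).mpr ⟨fun e he => ⟨?_, fun h0 => ?_⟩, fun e he => ⟨?_, ?_⟩⟩
    · simp only [he, dif_pos]
      exact (g ⟨e, he⟩).2.1
    · exact ⟨he, (g ⟨e, he⟩).2.2 h0⟩
    · simp only [he, dif_neg, not_false_iff]
    · rintro ⟨h, _⟩
      exact he h⟩
  left_inv p := by
    have h := ((valid_iff hs ht hA hH hf hf' E hE _ _).mp p.2).2
    apply Subtype.ext
    apply Prod.ext
    · funext e
      show (if h : e ∈ E then p.1.1 e else ⊥) = p.1.1 e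
      split_ifs with he
      · rfl
      · exact (h e he).1.symm
    · ext e
      show (∃ h : e ∈ E, decide (e ∈ p.1.2) = true) ↔ e ∈ p.1.2
      constructor
      · rintro ⟨_, h1⟩
        exact of_decide_eq_true h1
      · intro h1
        refine ⟨?_, decide_eq_true h1⟩
        by_contra he
        exact (h e he).2 h1
  right_inv g := by
    funext e
    apply Subtype.ext
    apply Prod.ext
    · show (if h : e.1 ∈ E then (g ⟨e.1, h⟩).1.1 else ⊥) = (g e).1.1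
      rw [dif_pos e.2]
    · rw [Bool.eq_iff_iff]
      refine (dec_iff _).trans ?_
      exact ⟨fun ⟨_, h1⟩ => h1, fun h1 => ⟨e.2, h1⟩⟩

end CntAAux

open CntAAux in
theorem codes_fixed {s t : ℕ} {U A : Finset ℕ} {H : Gr} (hs : s ∉ U) (ht : t ∉ U) (hA : A ⊆ U)
    (hH : Core s t A H) {f : ℕ → Sym2 ℕ}
    (hf : ∀ w ∈ U \ A, f w ∈ H.edgeSet ∧ f w ≠ s(s, t)) (hf' : ∀ w, w ∉ U \ A → f w = s(s, t))
    (E : Finset (Sym2 ℕ)) (hE : ∀ e, e ∈ E ↔ e ∈ H.edgeSet ∧ e ≠ s(s, t)) :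
    ∑' _ : {p : (Sym2 ℕ → Gr) × Set (Sym2 ℕ) // Code.Valid s t U ⟨A, H, f, p.1, p.2⟩},
      (1 : ℝ≥0∞) = ∏ e ∈ E, dd ((U \ A).filter (fun w => f w = e)).card := by
  have h1 : ∀ e : E, ∑' _ : Dat U A f e.1, (1 : ℝ≥0∞) = dd ((U \ A).filter (fun w => f w = e.1)).card := by
    rintro ⟨e, he⟩
    revert he
    refine Sym2.ind (fun u v => ?_) e
    intro he
    have hadj : H.Adj u v := ((hE _).mp he).1
    have hout : ∀ x, x ∈ St s t A → x ∉ (U \ A).filter (fun w => f w = s(u, v)) := by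
      intro x hx hx'
      have h2 := mem_sdiff.mp (mem_filter.mp hx').1
      rcases mem_insert.mp hx with h | h
      · exact hs (h ▸ h2.1)
      · rcases mem_insert.mp h with h | h
        · exact ht (h ▸ h2.1)
        · exact h2.2 h
    rw [← dd_count hadj.ne (hout u (hH.on u v hadj)) (hout v (hH.on v u hadj.symm))]
    exact (Equiv.subtypeEquivRight (fun p => and_congr_left' netE_iff)).tsum_eq (fun _ => (1 : ℝ≥0∞))
  rw [← Finset.prod_coe_sort E (fun e => dd ((U \ A).filter (fun w => f w = e)).card)]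
  rw [← tsum_pi _ (fun e => dd_ne_top _) h1]
  exact (equ hs ht hA hH hf hf' E hE).tsum_eq (fun _ => (1 : ℝ≥0∞))

end K5
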