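import Pool.Agent.Lib.K5.CntA
import Pool.Agent.Lib.K5.CLFam

/-!
# K5.CntB: the number of codes

1. `codes_AH`: for given `A`, `H` sum `codes_fixed` over the admissible `f`: they are the maps from `U \ A` to `E` (extended by `s(s, t)` outside `U \ A`); `sum_fam` for the finite types `↥(U \ A)`, `↥E`; `E.card = ecard {s, t} H` (`(clq {s, t}).edgeSet = {s(s, t)}`).
2. `codes_all`: a code is `(A, H, (f, N, F))` with `A ⊆ U`, `Core s t A H`; `ENNReal.tsum` over sigma types.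
3. `hpieces_eq`: `HPiece s t U G` corresponds to the valid codes by `Code.comp` (`HPiece.exists_code`, `Code.Valid.comp_hpiece`, `Code.Valid.comp_inj`).
4. `nH_eq`: for `s = 0`, `t = 1`, `U = Ico 2 (n+2)`: `core_iff_rtd`, `rtd_sum` with `φ m = fam dd m k`; `sum_powerset_pair` twice to pass from `Ico 2 (n+2)` to `range n` (both sides are sums over `A` of a function of `|A|`, `|U \ A|`).
-/

namespace K5

open Finset
open scoped ENNReal

namespace CntBAux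

open Classical in
/-- The edges of `H` different from the root edge. -/
noncomputable def edg (s t : ℕ) (A : Finset ℕ) (H : Gr) : Finset (Sym2 ℕ) :=
  ((St s t A).sym2).filter (fun e => e ∈ H.edgeSet ∧ e ≠ s(s, t))

theorem mem_edg {s t : ℕ} {A : Finset ℕ} {H : Gr} (hH : On H (St s t A)) (e : Sym2 ℕ) :
    e ∈ edg s t A H ↔ e ∈ H.edgeSet ∧ e ≠ s(s, t) := by
  classical
  unfold edg
  rw [Finset.mem_filter]
  constructor
  · exact fun h => h.2
  · intro h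
    refine ⟨?_, h⟩
    rw [Finset.mem_sym2_iff]
    induction e using Sym2.ind with
    | _ a b =>
      have hab : H.Adj a b := h.1
      intro c hc
      rcases Sym2.mem_iff.1 hc with rfl | rfl
      · exact hH _ _ hab
      · exact hH _ _ hab.symm

theorem clq_pair {s t : ℕ} (hst : s ≠ t) : (clq {s, t}).edgeSet = {s(s, t)} := by
  ext e
  induction e using Sym2.ind with
  | _ a b =>
    rw [SimpleGraph.mem_edgeSet, Set.mem_singleton_iff, Sym2.eq_iff]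
    constructor
    · rintro ⟨h1, h2, h3⟩
      simp only [Finset.mem_insert, Finset.mem_singleton] at h2 h3
      rcases h2 with rfl | rfl <;> rcases h3 with rfl | rfl
      · exact absurd rfl h1
      · exact Or.inl ⟨rfl, rfl⟩
      · exact Or.inr ⟨rfl, rfl⟩
      · exact absurd rfl h1
    · rintro (⟨rfl, rfl⟩ | ⟨rfl, rfl⟩)
      · exact ⟨hst, by simp, by simp⟩
      · exact ⟨hst.symm, by simp, by simp⟩

theorem card_edg {s t : ℕ} {A : Finset ℕ} {H : Gr} (hst : s ≠ t) (hH : On H (St s t A)) :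
    (edg s t A H).card = ecard {s, t} H := by
  unfold ecard
  rw [clq_pair hst, ← Set.ncard_coe_finset]
  congr 1
  ext e
  rw [Finset.mem_coe, mem_edg hH, Set.mem_sdiff, Set.mem_singleton_iff]

open Classical in
/-- Extension of a map on `W` by `d`. -/
noncomputable def ext {W : Finset ℕ} {E : Finset (Sym2 ℕ)} (d : Sym2 ℕ) (g : ↥W → ↥E) (w : ℕ) :
    Sym2 ℕ := if h : w ∈ W then (g ⟨w, h⟩).1 else d

theorem ext_mem {W : Finset ℕ} {E : Finset (Sym2 ℕ)} {d : Sym2 ℕ} (g : ↥W → ↥E) {w : ℕ}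
    (h : w ∈ W) : ext d g w = (g ⟨w, h⟩).1 := by
  unfold ext
  rw [dif_pos h]

theorem ext_out {W : Finset ℕ} {E : Finset (Sym2 ℕ)} {d : Sym2 ℕ} (g : ↥W → ↥E) {w : ℕ}
    (h : w ∉ W) : ext d g w = d := by
  unfold ext
  rw [dif_neg h]

theorem ext_inj {W : Finset ℕ} {E : Finset (Sym2 ℕ)} {d : Sym2 ℕ} {g g' : ↥W → ↥E}
    (h : ext d g = ext d g') : g = g' := by
  funext w
  have h1 := congrFun h w.1
  rw [ext_mem g w.2, ext_mem g' w.2] at h1
  exact Subtype.ext h1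

theorem card_fibre {W : Finset ℕ} {E : Finset (Sym2 ℕ)} {d : Sym2 ℕ} (g : ↥W → ↥E) (e : ↥E)
    [DecidableEq ↥E] :
    (W.filter (fun w => ext d g w = e.1)).card = (univ.filter (fun j => g j = e)).card := by
  symm
  refine Finset.card_bij (fun (j : ↥W) _ => j.1) ?_ ?_ ?_
  · intro j hj
    rw [Finset.mem_filter] at hj ⊢
    refine ⟨j.2, ?_⟩
    rw [ext_mem g j.2, hj.2]
  · intro a _ b _ hab
    exact Subtype.ext hab
  · intro w hw
    rw [Finset.mem_filter] at hw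
    refine ⟨⟨w, hw.1⟩, ?_, rfl⟩
    rw [Finset.mem_filter]
    refine ⟨Finset.mem_univ _, ?_⟩
    have h2 := hw.2
    rw [ext_mem g hw.1] at h2
    exact Subtype.ext h2

/-- Codes with given `A`, `H` from a map on `U \ A` and the rest. -/
noncomputable def glue (s t : ℕ) (U A : Finset ℕ) (H : Gr) (E : Finset (Sym2 ℕ)) :
    (Σ g : ↥(U \ A) → ↥E, {q : (Sym2 ℕ → Gr) × Set (Sym2 ℕ) //
      Code.Valid s t U ⟨A, H, ext s(s, t) g, q.1, q.2⟩}) →
    {p : (ℕ → Sym2 ℕ) × (Sym2 ℕ → Gr) × Set (Sym2 ℕ) //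
      Code.Valid s t U ⟨A, H, p.1, p.2.1, p.2.2⟩} :=
  fun x => ⟨(ext s(s, t) x.1, x.2.1), x.2.2⟩

theorem glue_bij {s t : ℕ} {U A : Finset ℕ} {H : Gr} (hH : On H (St s t A)) :
    Function.Bijective (glue s t U A H (edg s t A H)) := by
  constructor
  · rintro ⟨g, q, hq⟩ ⟨g', q', hq'⟩ h
    have h1 : (ext s(s, t) g, q) = (ext s(s, t) g', q') := congrArg Subtype.val h
    have h2 : g = g' := ext_inj (congrArg Prod.fst h1)
    subst h2
    have h3 : q = q' := congrArg Prod.snd h1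
    subst h3
    rfl
  · rintro ⟨⟨f, q⟩, hp⟩
    obtain ⟨g, hg⟩ : ∃ g : ↥(U \ A) → ↥(edg s t A H), ext s(s, t) g = f := by
      refine ⟨fun w => ⟨f w.1, (mem_edg hH _).2 (hp.f_mem w.1 w.2)⟩, ?_⟩
      funext w
      by_cases hw : w ∈ U \ A
      · rw [ext_mem _ hw]
      · rw [ext_out _ hw]
        exact (hp.f_out w hw).symm
    subst hg
    exact ⟨⟨g, ⟨q, hp⟩⟩, rfl⟩

/-- Codes from `A`, `H` and the rest. -/
def glue2 (s t : ℕ) (U : Finset ℕ) :
    (Σ A : {A // A ∈ U.powerset}, Σ H : {H : Gr // Core s t A.1 H},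
      {p : (ℕ → Sym2 ℕ) × (Sym2 ℕ → Gr) × Set (Sym2 ℕ) //
        Code.Valid s t U ⟨A.1, H.1, p.1, p.2.1, p.2.2⟩}) →
    {c : Code // c.Valid s t U} :=
  fun x => ⟨⟨x.1.1, x.2.1.1, x.2.2.1.1, x.2.2.1.2.1, x.2.2.1.2.2⟩, x.2.2.2⟩

theorem glue2_bij {s t : ℕ} {U : Finset ℕ} : Function.Bijective (glue2 s t U) := by
  constructor
  · rintro ⟨⟨A, hA⟩, ⟨H, hH⟩, ⟨⟨f, N, F⟩, hp⟩⟩ ⟨⟨A', hA'⟩, ⟨H', hH'⟩, ⟨⟨f', N', F'⟩, hp'⟩⟩ h
    have h1 : (⟨A, H, f, N, F⟩ : Code) = ⟨A', H', f', N', F'⟩ := congrArg Subtype.val h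
    injection h1 with h2 h3 h4 h5 h6
    subst h2
    subst h3
    subst h4
    subst h5
    subst h6
    rfl
  · rintro ⟨⟨A, H, f, N, F⟩, hc⟩
    exact ⟨⟨⟨A, Finset.mem_powerset.2 hc.sub⟩, ⟨H, hc.core⟩, ⟨⟨f, N, F⟩, hc⟩⟩, rfl⟩

end CntBAux

theorem codes_AH {s t : ℕ} {U A : Finset ℕ} {H : Gr} (hs : s ∉ U) (ht : t ∉ U) (hA : A ⊆ U)
    (hH : Core s t A H) :
    ∑' _ : {p : (ℕ → Sym2 ℕ) × (Sym2 ℕ → Gr) × Set (Sym2 ℕ) //
      Code.Valid s t U ⟨A, H, p.1, p.2.1, p.2.2⟩}, (1 : ℝ≥0∞) =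
      fam dd (ecard {s, t} H) (U \ A).card := by
  classical
  have hE := CntBAux.mem_edg (s := s) (t := t) hH.on
  have h1 := (Equiv.ofBijective _ (CntBAux.glue_bij (U := U) hH.on)).tsum_eq
    (fun _ => (1 : ℝ≥0∞))
  rw [← h1, ENNReal.tsum_sigma', tsum_fintype, ← CntBAux.card_edg hH.ne hH.on]
  have h2 := sum_fam dd (α := ↥(U \ A)) (ι := ↥(CntBAux.edg s t A H))
  rw [Fintype.card_coe, Fintype.card_coe] at h2
  rw [← h2]
  refine Finset.sum_congr rfl fun g _ => ?_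
  have h3 := codes_fixed hs ht hA hH (f := CntBAux.ext s(s, t) g) ?_ ?_ (CntBAux.edg s t A H) hE
  · rw [h3, ← Finset.prod_coe_sort]
    refine Finset.prod_congr rfl fun e _ => ?_
    rw [← CntBAux.card_fibre (d := s(s, t)) g e]
  · intro w hw
    rw [CntBAux.ext_mem g hw]
    exact (hE _).1 (g ⟨w, hw⟩).2
  · intro w hw
    exact CntBAux.ext_out g hw

theorem codes_all {s t : ℕ} {U : Finset ℕ} (hst : s ≠ t) (hs : s ∉ U) (ht : t ∉ U) :
    ∑' _ : {c : Code // c.Valid s t U}, (1 : ℝ≥0∞) =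
      ∑ A ∈ U.powerset, ∑' H : {H : Gr // Core s t A H}, fam dd (ecard {s, t} H.1) (U \ A).card := by
  have h1 := (Equiv.ofBijective _ (CntBAux.glue2_bij (s := s) (t := t) (U := U))).tsum_eq
    (fun _ => (1 : ℝ≥0∞))
  rw [← h1, ENNReal.tsum_sigma', ← Finset.tsum_subtype]
  refine tsum_congr fun A => ?_
  rw [ENNReal.tsum_sigma']
  refine tsum_congr fun H => ?_
  exact codes_AH hs ht (Finset.mem_powerset.1 A.2) H.2

end K5
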