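import Pool.Agent.Lib.K5.Cross

/-!
# K5.CompL: first facts about the graph of a code

`c.Valid s t U`, `G = c.comp s t`, for an edge `e = s(u, v) ≠ s(s, t)` of `H`: `N e` is a network with poles `u, v` and interior `c.fib U e`.
1. `fib_*`: the fibres are disjoint, disjoint from `A`, contained in `U`; every `w ∈ U \ A` is in the fibre of `f w`; `St u v (fib e) ∩ St u' v' (fib e')` for two different edges `e, e'` of `H` contains only
   common ends (at most one vertex).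
2. `comp_net`: edges of `N e` other than `e` are edges of `G`, different from `st` (`s, t ∉ U`, so an edge `st` of `N e` would have both ends in `{u, v}`).
3. `comp_cross`: if `u ∈ P`, `v ∉ P` then some edge of `G` with both ends in `St u v (fib e)` leaves `P`, and it is not `st`: `Net.cross` if the fibre is nonempty, otherwise `e ∈ F`.
4. `comp_closed`: if `P` meets `fib e` and `u, v ∉ P` then for every `x` some edge of `G` joins `P ∩ fib e` to `St u v (fib e) \ (P ∪ {x})`, and it is not `st`: `Conn (N e) ((St u v (fib e)).erase x)` for the set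
   `(P ∩ fib e) \ {x}`, here assume `x ∉ P`.
5. `comp_edge`: an edge `ab` of `G` is `st`, or `s(a, b) ∈ F` is an edge of `H`, or it is an edge of some `N e`, `e` an edge of `H`, `e ≠ st`, and `a` or `b` is in `fib e`.
-/

namespace K5

open Finset

variable {s t : ℕ} {U : Finset ℕ} {c : Code}

private theorem CompLAux.symm {u v : ℕ} {I : Finset ℕ} {G : Gr} (h : Net u v I G) : Net v u I G := by
  have e : St v u I = St u v I := Finset.insert_comm v u I
  refine ⟨h.ne.symm, h.ht, h.hs, ?_, h.adj.symm, ?_, h.free⟩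
  · rw [e]; exact h.on
  · rw [e]; exact h.blk

private theorem CompLAux.net (h : c.Valid s t U) {u v : ℕ} (he : c.H.Adj u v)
    (hst : s(u, v) ≠ s(s, t)) : Net u v (c.fib U s(u, v)) (c.N s(u, v)) := by
  obtain ⟨u', v', h1, h2⟩ := h.net s(u, v) ((SimpleGraph.mem_edgeSet c.H).2 he) hst
  rcases Sym2.eq_iff.1 h1 with ⟨rfl, rfl⟩ | ⟨rfl, rfl⟩
  · exact h2
  · exact CompLAux.symm h2

private theorem CompLAux.fib_iff {e : Sym2 ℕ} {w : ℕ} :
    w ∈ c.fib U e ↔ w ∈ U ∧ w ∉ c.A ∧ c.f w = e := by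
  unfold Code.fib
  rw [Finset.mem_filter, Finset.mem_sdiff]
  tauto

private theorem CompLAux.edge_mem (h : c.Valid s t U) {u v : ℕ} (he : c.H.Adj u v) :
    u ∈ St s t c.A ∧ v ∈ St s t c.A :=
  ⟨h.core.on u v he, h.core.on v u he.symm⟩

private theorem CompLAux.not_fib (h : c.Valid s t U) {e : Sym2 ℕ} {u : ℕ}
    (hu : u ∈ St s t c.A) : u ∉ c.fib U e := by
  intro h1
  obtain ⟨hU, hA, -⟩ := CompLAux.fib_iff.1 h1
  simp only [St, Finset.mem_insert] at hu
  rcases hu with rfl | rfl | hu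
  · exact h.hs hU
  · exact h.ht hU
  · exact hA hu

private theorem CompLAux.mem_St {u v x : ℕ} {I : Finset ℕ} :
    x ∈ St u v I ↔ x = u ∨ x = v ∨ x ∈ I := by
  simp only [St, Finset.mem_insert]

private theorem CompLAux.exists_net (h : c.Valid s t U) {e : Sym2 ℕ} {a b : ℕ}
    (hab : (c.N e).Adj a b) :
    ∃ u v, e = s(u, v) ∧ c.H.Adj u v ∧ s(u, v) ≠ s(s, t) ∧ Net u v (c.fib U e) (c.N e) := by
  by_cases h1 : e ∉ c.H.edgeSet ∨ e = s(s, t)
  · rw [h.net_out e h1] at hab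
    exact hab.elim
  · push Not at h1
    obtain ⟨u, v, h2, h3⟩ := h.net e h1.1 h1.2
    refine ⟨u, v, h2, ?_, ?_, h3⟩
    · rw [h2] at h1; exact (SimpleGraph.mem_edgeSet c.H).1 h1.1
    · rw [← h2]; exact h1.2

theorem Code.Valid.mem_fib (h : c.Valid s t U) {w : ℕ} (hw : w ∈ U) (hA : w ∉ c.A) :
    w ∈ c.fib U (c.f w) ∧ c.f w ∈ c.H.edgeSet ∧ c.f w ≠ s(s, t) := by
  have := h.f_mem w (Finset.mem_sdiff.2 ⟨hw, hA⟩)
  exact ⟨CompLAux.fib_iff.2 ⟨hw, hA, rfl⟩, this.1, this.2⟩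

theorem Code.Valid.fib_sub (h : c.Valid s t U) {e : Sym2 ℕ} {w : ℕ} (hw : w ∈ c.fib U e) :
    w ∈ U ∧ w ∉ c.A ∧ c.f w = e := by
  have _ := h
  exact CompLAux.fib_iff.1 hw

theorem Code.Valid.common (h : c.Valid s t U) {u v u' v' x y : ℕ} (he : c.H.Adj u v)
    (he' : c.H.Adj u' v') (hne : s(u, v) ≠ s(u', v')) (hx : x ∈ St u v (c.fib U s(u, v)))
    (hx' : x ∈ St u' v' (c.fib U s(u', v'))) (hy : y ∈ St u v (c.fib U s(u, v)))
    (hy' : y ∈ St u' v' (c.fib U s(u', v'))) : x = y := by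
  have key : ∀ z, z ∈ St u v (c.fib U s(u, v)) → z ∈ St u' v' (c.fib U s(u', v')) →
      (z = u ∨ z = v) ∧ (z = u' ∨ z = v') := by
    intro z h1 h2
    have hu := (CompLAux.edge_mem h he).1
    have hv := (CompLAux.edge_mem h he).2
    have hu' := (CompLAux.edge_mem h he').1
    have hv' := (CompLAux.edge_mem h he').2
    rw [CompLAux.mem_St] at h1 h2
    by_cases h3 : z ∈ St s t c.A
    · have n1 : z ∉ c.fib U s(u, v) := CompLAux.not_fib h h3
      have n2 : z ∉ c.fib U s(u', v') := CompLAux.not_fib h h3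
      tauto
    · exfalso
      have m1 : z ∈ c.fib U s(u, v) := by
        rcases h1 with rfl | rfl | h1
        · exact (h3 hu).elim
        · exact (h3 hv).elim
        · exact h1
      have m2 : z ∈ c.fib U s(u', v') := by
        rcases h2 with rfl | rfl | h2
        · exact (h3 hu').elim
        · exact (h3 hv').elim
        · exact h2
      exact hne ((CompLAux.fib_iff.1 m1).2.2.symm.trans (CompLAux.fib_iff.1 m2).2.2)
  obtain ⟨x1, x2⟩ := key x hx hx'
  obtain ⟨y1, y2⟩ := key y hy hy'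
  by_contra hxy
  apply hne
  have e1 : s(x, y) = s(u, v) := by
    rw [Sym2.eq_iff]
    rcases x1 with rfl | rfl <;> rcases y1 with rfl | rfl
    · exact (hxy rfl).elim
    · exact Or.inl ⟨rfl, rfl⟩
    · exact Or.inr ⟨rfl, rfl⟩
    · exact (hxy rfl).elim
  have e2 : s(x, y) = s(u', v') := by
    rw [Sym2.eq_iff]
    rcases x2 with rfl | rfl <;> rcases y2 with rfl | rfl
    · exact (hxy rfl).elim
    · exact Or.inl ⟨rfl, rfl⟩
    · exact Or.inr ⟨rfl, rfl⟩
    · exact (hxy rfl).elim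
  exact e1.symm.trans e2

theorem Code.Valid.comp_net (h : c.Valid s t U) {e : Sym2 ℕ} {a b : ℕ} (hab : (c.N e).Adj a b)
    (hne : s(a, b) ≠ e) : (c.comp s t).Adj a b ∧ s(a, b) ≠ s(s, t) := by
  refine ⟨⟨hab.ne, Or.inr (Or.inr ⟨e, hab, hne⟩)⟩, ?_⟩
  intro hst
  obtain ⟨u, v, h1, h2, h3, h4⟩ := CompLAux.exists_net h hab
  have ha := CompLAux.mem_St.1 (h4.on a b hab)
  have hb := CompLAux.mem_St.1 (h4.on b a hab.symm)
  have hs : s ∈ St s t c.A := by simp [St]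
  have ht : t ∈ St s t c.A := by simp [St]
  have key : ∀ z, z ∈ St s t c.A → z ∉ c.fib U e := fun z hz => CompLAux.not_fib h hz
  have ha' : a ∈ St s t c.A ∧ b ∈ St s t c.A := by
    rcases Sym2.eq_iff.1 hst with ⟨rfl, rfl⟩ | ⟨rfl, rfl⟩
    · exact ⟨hs, ht⟩
    · exact ⟨ht, hs⟩
  have ka := key a ha'.1
  have kb := key b ha'.2
  apply hne
  rw [h1, Sym2.eq_iff]
  rcases ha with rfl | rfl | ha
  · rcases hb with rfl | rfl | hb
    · exact (hab.ne rfl).elim
    · exact Or.inl ⟨rfl, rfl⟩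
    · exact (kb hb).elim
  · rcases hb with rfl | rfl | hb
    · exact Or.inr ⟨rfl, rfl⟩
    · exact (hab.ne rfl).elim
    · exact (kb hb).elim
  · exact (ka ha).elim

theorem Code.Valid.comp_cross (h : c.Valid s t U) {u v : ℕ} (he : c.H.Adj u v)
    (hst : s(u, v) ≠ s(s, t)) {P : Finset ℕ} (hu : u ∈ P) (hv : v ∉ P) :
    ∃ a ∈ St u v (c.fib U s(u, v)), a ∈ P ∧ ∃ b ∈ St u v (c.fib U s(u, v)), b ∉ P ∧
      (c.comp s t).Adj a b ∧ s(a, b) ≠ s(s, t) := by
  by_cases hf : (c.fib U s(u, v)).Nonempty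
  · obtain ⟨a, ha, haP, b, hb, hbP, hab, hne⟩ := (CompLAux.net h he hst).cross hf hu hv
    exact ⟨a, ha, haP, b, hb, hbP, h.comp_net hab hne⟩
  · refine ⟨u, CompLAux.mem_St.2 (Or.inl rfl), hu, v, CompLAux.mem_St.2 (Or.inr (Or.inl rfl)), hv,
      ⟨he.ne, Or.inr (Or.inl ?_)⟩, hst⟩
    refine h.F_full _ ((SimpleGraph.mem_edgeSet c.H).2 he) hst ?_
    intro w hw hfw
    apply hf
    rw [Finset.mem_sdiff] at hw
    exact ⟨w, CompLAux.fib_iff.2 ⟨hw.1, hw.2, hfw⟩⟩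

theorem Code.Valid.comp_closed (h : c.Valid s t U) {u v : ℕ} (he : c.H.Adj u v)
    (hst : s(u, v) ≠ s(s, t)) {P : Finset ℕ} (hu : u ∉ P) (hv : v ∉ P) {w : ℕ} (hw : w ∈ P)
    (hw' : w ∈ c.fib U s(u, v)) (x : ℕ) (hx : x ∉ P) :
    ∃ a ∈ c.fib U s(u, v), a ∈ P ∧ ∃ b ∈ St u v (c.fib U s(u, v)), b ∉ P ∧ b ≠ x ∧
      (c.comp s t).Adj a b ∧ s(a, b) ≠ s(s, t) := by
  have hN := CompLAux.net h he hst
  have hC : P512.Conn (c.N s(u, v)) ((St u v (c.fib U s(u, v))).erase x) := by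
    by_cases hxS : x ∈ St u v (c.fib U s(u, v))
    · exact hN.blk.2.2 x hxS
    · rw [Finset.erase_eq_of_notMem hxS]
      exact hN.blk.2.1
  obtain ⟨a, ha, b, hb, hbP, hab⟩ := hC.2 (P ∩ c.fib U s(u, v)) (by
      intro z hz
      rw [Finset.mem_inter] at hz
      rw [Finset.mem_erase]
      refine ⟨?_, CompLAux.mem_St.2 (Or.inr (Or.inr hz.2))⟩
      rintro rfl
      exact hx hz.1) ⟨w, Finset.mem_inter.2 ⟨hw, hw'⟩⟩ (by
      intro heq
      have : ∃ z, z ∉ P ∧ z ∈ (St u v (c.fib U s(u, v))).erase x := by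
        by_cases hux : u = x
        · refine ⟨v, hv, Finset.mem_erase.2 ⟨?_, CompLAux.mem_St.2 (Or.inr (Or.inl rfl))⟩⟩
          rintro rfl
          exact he.ne hux
        · exact ⟨u, hu, Finset.mem_erase.2 ⟨hux, CompLAux.mem_St.2 (Or.inl rfl)⟩⟩
      obtain ⟨z, hz, hz'⟩ := this
      rw [← heq, Finset.mem_inter] at hz'
      exact hz hz'.1)
  rw [Finset.mem_inter] at ha
  rw [Finset.mem_erase] at hb
  have hbP' : b ∉ P := by
    intro hb1
    rcases CompLAux.mem_St.1 hb.2 with rfl | rfl | h1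
    · exact hu hb1
    · exact hv hb1
    · exact hbP (Finset.mem_inter.2 ⟨hb1, h1⟩)
  refine ⟨a, ha.2, ha.1, b, hb.2, hbP', hb.1, h.comp_net hab ?_⟩
  intro heq
  rcases Sym2.eq_iff.1 heq with ⟨rfl, -⟩ | ⟨rfl, -⟩
  · exact hu ha.1
  · exact hv ha.1

theorem Code.Valid.comp_edge (h : c.Valid s t U) {a b : ℕ} (hab : (c.comp s t).Adj a b) :
    s(a, b) = s(s, t) ∨ (s(a, b) ∈ c.F ∧ c.H.Adj a b) ∨
      ∃ u v, c.H.Adj u v ∧ s(u, v) ≠ s(s, t) ∧ (c.N s(u, v)).Adj a b ∧ s(a, b) ≠ s(u, v) ∧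
        a ∈ St u v (c.fib U s(u, v)) ∧ b ∈ St u v (c.fib U s(u, v)) ∧
        (a ∈ c.fib U s(u, v) ∨ b ∈ c.fib U s(u, v)) := by
  rcases hab.2 with h1 | h1 | ⟨e, h1, h2⟩
  · exact Or.inl h1
  · exact Or.inr (Or.inl ⟨h1, (SimpleGraph.mem_edgeSet c.H).1 (h.F_sub _ h1).1⟩)
  · refine Or.inr (Or.inr ?_)
    obtain ⟨u, v, rfl, k2, k3, k4⟩ := CompLAux.exists_net h h1
    have ha := k4.on a b h1
    have hb := k4.on b a h1.symm
    refine ⟨u, v, k2, k3, h1, h2, ha, hb, ?_⟩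
    rw [CompLAux.mem_St] at ha hb
    by_contra hcon
    push Not at hcon
    apply h2
    rw [Sym2.eq_iff]
    rcases ha with rfl | rfl | ha
    · rcases hb with rfl | rfl | hb
      · exact (h1.ne rfl).elim
      · exact Or.inl ⟨rfl, rfl⟩
      · exact (hcon.2 hb).elim
    · rcases hb with rfl | rfl | hb
      · exact Or.inr ⟨rfl, rfl⟩
      · exact (h1.ne rfl).elim
      · exact (hcon.2 hb).elim
    · exact (hcon.1 ha).elim

end K5
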