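import Pool.Agent.Lib.K5.Sum
import Pool.Agent.Lib.K5.CompL

/-!
# K5.CompF: the graph of a code has no `K_5` minor

For a finite set `E` of edges of `H` different from `st` let `G_E` be `H` together with the graphs `N e`, `e ∈ E`. By induction on `E`, `G_E` has no `K_5` minor: `G_{E + e} = G_E ⊔ N e`, `Free.sup` with
`S1 = St s t A ∪ ⋃_{E} fib`, `S2 = St u v (fib e)`, `S1 ∩ S2 = {u, v}`, `uv` is an edge of both. Finally `c.comp s t ≤ G_E` for `E` = all edges of `H` except `st` (finitely many: all edges lie in `St s t A`); `Free.mono`.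
-/

namespace K5

open Finset

namespace CompFAux

variable {s t : ℕ} {U : Finset ℕ} {c : Code}

open Classical in
/-- the label set of the partial graph -/
noncomputable def sup (s t : ℕ) (U : Finset ℕ) (c : Code) (E : Finset (Sym2 ℕ)) : Finset ℕ :=
  St s t c.A ∪ E.biUnion (fun e => c.fib U e)

theorem mem_fib {e : Sym2 ℕ} {w : ℕ} : w ∈ c.fib U e ↔ (w ∈ U ∧ w ∉ c.A) ∧ c.f w = e := by
  classical
  unfold Code.fib
  rw [Finset.mem_filter, Finset.mem_sdiff]

theorem mem_sup {E : Finset (Sym2 ℕ)} {w : ℕ} :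
    w ∈ sup s t U c E ↔ w ∈ St s t c.A ∨ ∃ e ∈ E, w ∈ c.fib U e := by
  classical
  unfold sup
  rw [Finset.mem_union, Finset.mem_biUnion]

theorem step (h : c.Valid s t U) (E : Finset (Sym2 ℕ))
    (hE : ∀ e ∈ E, e ∈ c.H.edgeSet ∧ e ≠ s(s, t)) :
    Free (c.H ⊔ E.sup c.N) ∧ On (c.H ⊔ E.sup c.N) (sup s t U c E) := by
  classical
  induction E using Finset.induction_on with
  | empty =>
    rw [Finset.sup_empty, sup_bot_eq]
    refine ⟨h.core.free, fun u v huv => ?_⟩
    rw [mem_sup]
    exact Or.inl (h.core.on u v huv)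
  | insert e E he ih =>
    obtain ⟨ihF, ihO⟩ := ih (fun e' he' => hE e' (Finset.mem_insert_of_mem he'))
    obtain ⟨heH, hest⟩ := hE e (Finset.mem_insert_self e E)
    obtain ⟨u, v, rfl, hN⟩ := h.net e heH hest
    have hadj : c.H.Adj u v := heH
    have heq : c.H ⊔ (insert s(u, v) E).sup c.N = (c.H ⊔ E.sup c.N) ⊔ c.N s(u, v) := by
      rw [Finset.sup_insert, sup_comm (c.N s(u, v)), sup_assoc]
    have hint : ∀ a ∈ sup s t U c E ∩ St u v (c.fib U s(u, v)), a = u ∨ a = v := by
      intro a ha
      obtain ⟨ha1, ha2⟩ := Finset.mem_inter.1 ha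
      rcases Finset.mem_insert.1 ha2 with rfl | ha2
      · exact Or.inl rfl
      rcases Finset.mem_insert.1 ha2 with rfl | ha2
      · exact Or.inr rfl
      exfalso
      obtain ⟨⟨haU, haA⟩, haf⟩ := mem_fib.1 ha2
      rcases mem_sup.1 ha1 with ha1 | ⟨e', he', ha1⟩
      · rcases Finset.mem_insert.1 ha1 with rfl | ha1
        · exact h.hs haU
        rcases Finset.mem_insert.1 ha1 with rfl | ha1
        · exact h.ht haU
        exact haA ha1
      · rw [(mem_fib.1 ha1).2] at haf
        exact he (haf ▸ he')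
    constructor
    · rw [heq]
      refine Free.sup ihF hN.free ihO hN.on ?_ ?_
      · refine (Finset.card_le_card (t := {u, v}) fun a ha => ?_).trans
          ((Finset.card_le_two).trans (by norm_num))
        rcases hint a ha with rfl | rfl <;> simp
      · intro a ha b hb hab
        rcases hint a ha with rfl | rfl <;> rcases hint b hb with rfl | rfl
        · exact absurd rfl hab
        · exact ⟨Or.inl hadj, hN.adj⟩
        · exact ⟨Or.inl hadj.symm, hN.adj.symm⟩
        · exact absurd rfl hab
    · rw [heq]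
      intro a b hab
      rcases hab with hab | hab
      · rcases mem_sup.1 (ihO a b hab) with h1 | ⟨e', he', h1⟩
        · exact mem_sup.2 (Or.inl h1)
        · exact mem_sup.2 (Or.inr ⟨e', Finset.mem_insert_of_mem he', h1⟩)
      · have h1 := hN.on a b hab
        rcases Finset.mem_insert.1 h1 with rfl | h1
        · exact mem_sup.2 (Or.inl (h.core.on _ _ hadj))
        rcases Finset.mem_insert.1 h1 with rfl | h1
        · exact mem_sup.2 (Or.inl (h.core.on _ _ hadj.symm))
        exact mem_sup.2 (Or.inr ⟨_, Finset.mem_insert_self _ _, h1⟩)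

end CompFAux

theorem Code.Valid.comp_free {s t : ℕ} {U : Finset ℕ} {c : Code} (h : c.Valid s t U) :
    Free (c.comp s t) := by
  classical
  have hE := CompFAux.step h
    (((St s t c.A).sym2).filter (fun e => e ∈ c.H.edgeSet ∧ e ≠ s(s, t)))
    (fun e he => (Finset.mem_filter.1 he).2)
  refine hE.1.mono fun a b hab => ?_
  obtain ⟨-, h1 | h1 | ⟨e, h1, -⟩⟩ := hab
  · have : s(a, b) ∈ c.H.edgeSet := by
      rw [h1]
      exact h.core.adj
    exact Or.inl this
  · exact Or.inl (h.F_sub _ h1).1
  · right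
    have he : e ∈ c.H.edgeSet ∧ e ≠ s(s, t) := by
      by_contra hcon
      have h2 : e ∉ c.H.edgeSet ∨ e = s(s, t) := by
        by_contra h3
        push Not at h3
        exact hcon h3
      rw [h.net_out e h2] at h1
      exact h1
    have hmem : e ∈ ((St s t c.A).sym2).filter (fun e => e ∈ c.H.edgeSet ∧ e ≠ s(s, t)) := by
      rw [Finset.mem_filter]
      refine ⟨?_, he⟩
      obtain ⟨h2, -⟩ := he
      induction e using Sym2.ind with
      | _ u v =>
        rw [Finset.mk_mem_sym2_iff]
        exact ⟨h.core.on _ _ h2, h.core.on _ _ (SimpleGraph.Adj.symm h2)⟩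
    exact (Finset.le_sup (f := c.N) hmem) h1

end K5
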