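import Pool.Agent.Lib.K5.CompB
import Pool.Agent.Lib.K5.CompF

/-!
# K5.CompS: the graph of a code is a piece that is not series

Collect: `On` (all edges have their ends in `St s t U`), `Adj s t`, `Blk` from `conn_erase` (for `x` in the set, and for some `x` outside, e.g. a number larger than all elements, `erase` does nothing),
`comp_free`, `conn_U`, and `¬ Series` from `conn_del` (elements of `U` are different from `s`, `t`).
-/

namespace K5

open Finset

theorem Code.Valid.comp_hpiece {s t : ℕ} {U : Finset ℕ} {c : Code} (h : c.Valid s t U) :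
    HPiece s t U (c.comp s t) := by
  have hne : s ≠ t := h.core.ne
  have hmono : ∀ x ∈ St s t c.A, x ∈ St s t U := by
    intro x hx
    simp only [St, mem_insert] at hx ⊢
    rcases hx with hx | hx | hx
    · exact Or.inl hx
    · exact Or.inr (Or.inl hx)
    · exact Or.inr (Or.inr (h.sub hx))
  have hon : On (c.comp s t) (St s t U) := by
    intro a b hab
    rcases h.comp_edge hab with h1 | ⟨_, h2⟩ | ⟨u, v, huv, _, _, _, ha, _, _⟩
    · rw [Sym2.eq_iff] at h1
      simp only [St, mem_insert]
      rcases h1 with ⟨h1, _⟩ | ⟨h1, _⟩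
      · exact Or.inl h1
      · exact Or.inr (Or.inl h1)
    · exact hmono a (h.core.on a b h2)
    · simp only [St, mem_insert] at ha
      rcases ha with ha | ha | ha
      · subst ha; exact hmono _ (h.core.on _ _ huv)
      · subst ha; exact hmono _ (h.core.on _ _ huv.symm)
      · simp only [St, mem_insert]
        exact Or.inr (Or.inr (h.fib_sub ha).1)
  have hadj : (c.comp s t).Adj s t := ⟨hne, Or.inl rfl⟩
  have hblk : Blk (c.comp s t) (St s t U) := by
    refine ⟨?_, ?_, fun v _ => h.conn_erase v⟩
    · have h1 : ({s, t} : Finset ℕ) ⊆ St s t U := by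
        intro x hx
        simp only [mem_insert, mem_singleton] at hx
        simp only [St, mem_insert]
        rcases hx with hx | hx
        · exact Or.inl hx
        · exact Or.inr (Or.inl hx)
      have h2 := card_le_card h1
      rw [card_pair hne] at h2
      exact h2
    · obtain ⟨x, hx⟩ := Infinite.exists_notMem_finset (St s t U)
      have := h.conn_erase x
      rwa [erase_eq_of_notMem hx] at this
  refine ⟨⟨⟨hne, h.hs, h.ht, hon, hadj, hblk, h.comp_free⟩, h.conn_U⟩, ?_⟩
  rintro ⟨_, x, hx, hcut⟩
  exact hcut (h.conn_del (fun e => h.hs (e ▸ hx)) (fun e => h.ht (e ▸ hx)))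

end K5
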