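import Pool.Agent.Lib.K5.Avoid

/-!
# K5.Recover: a code is determined by its graph
-/

namespace K5

open Finset

namespace RecoverAux

variable {s t : ℕ} {U : Finset ℕ} {c c' : Code}

theorem code_ext (h1 : c.A = c'.A) (h2 : c.H = c'.H) (h3 : c.f = c'.f) (h4 : c.N = c'.N)
    (h5 : c.F = c'.F) : c = c' := by
  cases c
  cases c'
  simp only at h1 h2 h3 h4 h5
  subst h1 h2 h3 h4 h5
  rfl

theorem sym2_of_pair {a b u v : ℕ} (hab : a ≠ b) (h : ({a, b} : Finset ℕ) = {u, v}) :
    s(a, b) = s(u, v) := by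
  have ha : a ∈ ({u, v} : Finset ℕ) := by rw [← h]; simp
  have hb : b ∈ ({u, v} : Finset ℕ) := by rw [← h]; simp
  rw [mem_insert, mem_singleton] at ha hb
  rcases ha with ha | ha <;> rcases hb with hb | hb
  · exact absurd (ha.trans hb.symm) hab
  · rw [ha, hb]
  · rw [ha, hb, Sym2.eq_swap]
  · exact absurd (ha.trans hb.symm) hab

theorem notMem_fib (h : c.Valid s t U) {a : ℕ} (ha : a ∈ St s t c.A) (e : Sym2 ℕ) :
    a ∉ c.fib U e := by
  intro hf
  obtain ⟨h1, h2, -⟩ := h.fib_sub hf
  rw [St, mem_insert, mem_insert] at ha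
  rcases ha with ha | ha | ha
  · rw [ha] at h1
    exact h.hs h1
  · rw [ha] at h1
    exact h.ht h1
  · exact h2 ha

theorem comp_adj {a b : ℕ} (hab : a ≠ b)
    (h : s(a, b) = s(s, t) ∨ s(a, b) ∈ c.F) : (c.comp s t).Adj a b :=
  ⟨hab, h.imp id Or.inl⟩

theorem coreG_comp (h : c.Valid s t U) : coreG s t U (c.comp s t) = c.H := by
  ext a b
  constructor
  · rintro ⟨hab, ha, hb, hG⟩
    rw [h.coreV_comp] at ha hb
    rcases hG with hG | ⟨I, hI, hbd⟩
    · rcases h.comp_edge hG with h1 | ⟨-, h1⟩ | ⟨u, v, -, -, -, -, -, -, h1⟩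
      · have h2 : s(s, t) ∈ c.H.edgeSet := h.core.adj
        rw [← h1] at h2
        exact h2
      · exact h1
      · rcases h1 with h1 | h1
        · exact absurd h1 (notMem_fib h ha _)
        · exact absurd h1 (notMem_fib h hb _)
    · obtain ⟨hne, e, he, hst, rfl⟩ := h.maxFrag_iff.1 hI
      induction e using Sym2.inductionOn with
      | hf u v =>
        have h1 := (h.fib_frag he hst hne).2
        rw [h1] at hbd
        have h2 := sym2_of_pair hab hbd.symm
        change s(a, b) ∈ c.H.edgeSet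
        rw [h2]
        exact he
  · intro hH
    have hab : a ≠ b := hH.ne
    refine ⟨hab, ?_, ?_, ?_⟩
    · rw [h.coreV_comp]
      exact h.core.on a b hH
    · rw [h.coreV_comp]
      exact h.core.on b a hH.symm
    · by_cases hst : s(a, b) = s(s, t)
      · exact Or.inl (comp_adj hab (Or.inl hst))
      · by_cases hw : ∃ w ∈ U \ c.A, c.f w = s(a, b)
        · obtain ⟨w, hw, hfw⟩ := hw
          have hne : (c.fib U s(a, b)).Nonempty := by
            refine ⟨w, ?_⟩
            rw [← hfw]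
            exact (h.mem_fib (mem_sdiff.1 hw).1 (mem_sdiff.1 hw).2).1
          exact Or.inr ⟨_, h.maxFrag_iff.2 ⟨hne, _, hH, hst, rfl⟩, (h.fib_frag hH hst hne).2⟩
        · push Not at hw
          exact Or.inl (comp_adj hab (Or.inr (h.F_full _ hH hst hw)))

theorem f_eq (h : c.Valid s t U) (h' : c'.Valid s t U) (heq : c.comp s t = c'.comp s t)
    {w : ℕ} (hw : w ∈ U \ c.A) : c.f w = c'.f w := by
  obtain ⟨h1, h2, h3⟩ := h.mem_fib (mem_sdiff.1 hw).1 (mem_sdiff.1 hw).2
  generalize c.f w = e at h1 h2 h3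
  induction e using Sym2.inductionOn with
  | hf u v =>
    have hne : (c.fib U s(u, v)).Nonempty := ⟨w, h1⟩
    have h4 : MaxFrag s t U (c.comp s t) (c.fib U s(u, v)) :=
      h.maxFrag_iff.2 ⟨hne, _, h2, h3, rfl⟩
    have h5 := (h.fib_frag h2 h3 hne).2
    rw [heq] at h4 h5
    obtain ⟨-, e', he', hst', hfib⟩ := h'.maxFrag_iff.1 h4
    induction e' using Sym2.inductionOn with
    | hf u' v' =>
      rw [hfib] at h5 hne h1
      have h6 := (h'.fib_frag he' hst' hne).2
      rw [h6] at h5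
      have huv : u' ≠ v' := SimpleGraph.Adj.ne he'
      rw [(h'.fib_sub h1).2.2]
      exact (sym2_of_pair huv h5).symm

theorem N_eq (h : c.Valid s t U) {u v : ℕ} (he : c.H.Adj u v) (hst : s(u, v) ≠ s(s, t)) :
    c.N s(u, v) = partG (c.comp s t) u v (c.fib U s(u, v)) := by
  obtain ⟨u', v', huv, hnet⟩ := h.net s(u, v) he hst
  have hSt : St u' v' (c.fib U s(u, v)) = St u v (c.fib U s(u, v)) := by
    rcases Sym2.eq_iff.1 huv with ⟨h1, h2⟩ | ⟨h1, h2⟩
    · rw [h1, h2]
    · rw [h1, h2]
      exact Finset.insert_comm _ _ _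
  have hadj : ∀ a b, s(a, b) = s(u, v) → (c.N s(u, v)).Adj a b := by
    intro a b hab
    have h1 : s(u', v') ∈ (c.N s(u, v)).edgeSet := hnet.adj
    rw [← huv, ← hab] at h1
    rw [← hab]
    exact h1
  have hin : ∀ a b, (c.N s(u, v)).Adj a b → a ∈ St u v (c.fib U s(u, v)) := by
    intro a b hab
    rw [← hSt]
    exact hnet.on a b hab
  have hA : ∀ a, a ∈ St s t c.A → a ∈ St u v (c.fib U s(u, v)) → a = u ∨ a = v := by
    intro a ha ha'
    rw [St, mem_insert, mem_insert] at ha'
    rcases ha' with h1 | h1 | h1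
    · exact Or.inl h1
    · exact Or.inr h1
    · exact absurd h1 (notMem_fib h ha _)
  have hA2 : ∀ a b, a ≠ b → a ∈ St s t c.A → b ∈ St s t c.A → a ∈ St u v (c.fib U s(u, v)) →
      b ∈ St u v (c.fib U s(u, v)) → s(a, b) = s(u, v) := by
    intro a b hab ha hb ha' hb'
    rcases hA a ha ha' with h1 | h1 <;> rcases hA b hb hb' with h2 | h2
    · exact absurd (h1.trans h2.symm) hab
    · rw [h1, h2]
    · rw [h1, h2, Sym2.eq_swap]
    · exact absurd (h1.trans h2.symm) hab
  ext a b
  constructor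
  · intro hab
    refine ⟨hab.ne, hin a b hab, hin b a hab.symm, ?_⟩
    by_cases h1 : s(a, b) = s(u, v)
    · exact Or.inr h1
    · exact Or.inl (h.comp_net hab h1).1
  · rintro ⟨hab, ha, hb, hG⟩
    by_cases h1 : s(a, b) = s(u, v)
    · exact hadj a b h1
    · rcases hG with hG | hG
      · rcases h.comp_edge hG with h2 | ⟨-, h2⟩ | ⟨u1, v1, h2, -, h3, -, h4, h5, -⟩
        · exfalso
          apply hst
          rw [← h2]
          have hs : s ∈ St s t c.A := by simp [St]
          have ht : t ∈ St s t c.A := by simp [St]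
          rcases Sym2.eq_iff.1 h2 with ⟨h6, h7⟩ | ⟨h6, h7⟩
          · exact (hA2 a b hab (h6 ▸ hs) (h7 ▸ ht) ha hb).symm
          · exact (hA2 a b hab (h6 ▸ ht) (h7 ▸ hs) ha hb).symm
        · exact absurd (hA2 a b hab (h.core.on a b h2) (h.core.on b a h2.symm) ha hb) h1
        · by_cases h6 : s(u1, v1) = s(u, v)
          · rw [h6] at h3
            exact h3
          · exact absurd (h.common h2 he h6 h4 ha h5 hb) hab
      · exact hadj a b hG

theorem F_eq (h : c.Valid s t U) (e : Sym2 ℕ) :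
    e ∈ c.F ↔ e ∈ c.H.edgeSet ∧ e ≠ s(s, t) ∧ e ∈ (c.comp s t).edgeSet := by
  induction e using Sym2.inductionOn with
  | hf a b =>
    constructor
    · intro hF
      obtain ⟨h1, h2⟩ := h.F_sub _ hF
      exact ⟨h1, h2, comp_adj (SimpleGraph.Adj.ne h1) (Or.inr hF)⟩
    · rintro ⟨h1, h2, h3⟩
      have ha : a ∈ St s t c.A := h.core.on a b h1
      have hb : b ∈ St s t c.A := h.core.on b a (SimpleGraph.Adj.symm h1)
      rcases h.comp_edge h3 with h4 | ⟨h4, -⟩ | ⟨u, v, -, -, -, -, -, -, h4⟩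
      · exact absurd h4 h2
      · exact h4
      · rcases h4 with h4 | h4
        · exact absurd h4 (notMem_fib h ha _)
        · exact absurd h4 (notMem_fib h hb _)

end RecoverAux

open RecoverAux

theorem Code.Valid.comp_inj {s t : ℕ} {U : Finset ℕ} {c c' : Code} (h : c.Valid s t U)
    (h' : c'.Valid s t U) (heq : c.comp s t = c'.comp s t) : c = c' := by
  have hA : c.A = c'.A := by
    rw [← h.coreV_comp, ← h'.coreV_comp, heq]
  have hH : c.H = c'.H := by
    rw [← coreG_comp h, ← coreG_comp h', heq]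
  have hf : c.f = c'.f := by
    funext w
    by_cases hw : w ∈ U \ c.A
    · exact f_eq h h' heq hw
    · rw [h.f_out w hw, h'.f_out w (by rw [← hA]; exact hw)]
  have hfib : ∀ e, c.fib U e = c'.fib U e := by
    intro e
    unfold Code.fib
    rw [hA, hf]
  refine code_ext hA hH hf ?_ ?_
  · funext e
    by_cases he : e ∉ c.H.edgeSet ∨ e = s(s, t)
    · rw [h.net_out e he, h'.net_out e (by rw [← hH]; exact he)]
    · push Not at he
      obtain ⟨he1, he2⟩ := he
      induction e using Sym2.inductionOn with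
      | hf u v =>
        have he1' : c'.H.Adj u v := by
          rw [← hH]
          exact he1
        rw [N_eq h he1 he2, N_eq h' he1' he2, heq, hfib]
  · ext e
    rw [F_eq h e, F_eq h' e, heq, hH]

end K5
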