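import Pool.Agent.Lib.K5.CntB
import Pool.Agent.Lib.K5.CLMul
import Pool.Agent.Lib.K5.Assem
import Pool.Agent.Lib.K5.Recover
import Pool.Agent.Lib.K5.CompS

/-!
# K5.CntC: the generating function of the pieces that are not series

See the header of `K5.CntB`, items 3 and 4, for `nH_eq`.
`egf_nH`: by `egf_pair` `egf nH x = ∑' a, ∑' k, (x^a/a!) (x^k/k!) gT a k`, and for fixed `a` exchange the sum over `k` with the sum over the cores: `∑' k, x^k/k! fam dd m k = egf (fam dd m) x = (egf dd x)^m` (`egf_fam`), `D x = egf dd x` (definition).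
`egf_nH_trn`: for `n ≤ N + 1` in `nH_eq` only sets `A` with at least two elements contribute (`Three` needs four vertices), so `|U \ A| ≤ N - 1`, and `fam dd m k = fam (trn N dd) m k` for `k ≤ N` (every fibre has at most `k` elements). So `trn (N+1) nH n ≤ ∑_A (the same with trn N dd)`, then as in `egf_nH`.
-/

namespace K5

open Finset
open scoped ENNReal

namespace CntCAux

/-- the weight with a general family function -/
noncomputable def gF (F : ℕ → ℝ≥0∞) (a k : ℕ) : ℝ≥0∞ :=
  ∑' G : {G : Gr // Rtd {0, 1} (Ico 2 (a + 2)) G}, fam F (ecard {0, 1} G.1) k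

theorem egf_gF (F : ℕ → ℝ≥0∞) (x : ℝ≥0∞) :
    egf (fun n => ∑ A ∈ (range n).powerset, gF F A.card (range n \ A).card) x =
      T0 x (egf F x) := by
  rw [egf_pair]
  unfold T0
  refine tsum_congr fun a => ?_
  rw [ENNReal.tsum_mul_left]
  congr 1
  unfold gF
  simp_rw [← ENNReal.tsum_mul_left]
  rw [ENNReal.tsum_comm]
  refine tsum_congr fun G => ?_
  rw [← egf_fam]
  rfl

theorem fam_congr {F F' : ℕ → ℝ≥0∞} {m n : ℕ} (h : ∀ k ≤ n, F k = F' k) :
    fam F m n = fam F' m n := by
  unfold fam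
  refine Finset.sum_congr rfl fun f _ => Finset.prod_congr rfl fun i _ => h _ ?_
  refine (Finset.card_filter_le _ _).trans ?_
  rw [Finset.card_univ, Fintype.card_fin]

theorem gF_small (F : ℕ → ℝ≥0∞) {a : ℕ} (ha : a ≤ 1) (k : ℕ) : gF F a k = 0 := by
  unfold gF
  rw [ENNReal.tsum_eq_zero]
  rintro ⟨G, hG⟩
  exfalso
  have h1 := hG.three.1
  have h2 := Finset.card_union_le ({0, 1} : Finset ℕ) (Ico 2 (a + 2))
  rw [Nat.card_Ico] at h2
  have h3 : ({0, 1} : Finset ℕ).card ≤ 2 := Finset.card_le_two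
  omega

end CntCAux

open CntCAux

theorem nH_eq (n : ℕ) : nH n = ∑ A ∈ (range n).powerset, gT A.card (range n \ A).card := by
  have h0 : (0 : ℕ) ∉ Ico 2 (n + 2) := by simp
  have h1 : (1 : ℕ) ∉ Ico 2 (n + 2) := by simp
  have hbij : nH n = ∑' _ : {c : Code // c.Valid 0 1 (Ico 2 (n + 2))}, (1 : ℝ≥0∞) := by
    unfold nH
    symm
    refine Equiv.tsum_eq (Equiv.ofBijective (fun c : {c : Code // c.Valid 0 1 (Ico 2 (n + 2))} =>
      (⟨c.1.comp 0 1, c.2.comp_hpiece⟩ : {G : Gr // HPiece 0 1 (Ico 2 (n + 2)) G})) ⟨?_, ?_⟩)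
      (fun _ => (1 : ℝ≥0∞))
    · rintro ⟨c, hc⟩ ⟨c', hc'⟩ h
      have h2 : c.comp 0 1 = c'.comp 0 1 := congrArg Subtype.val h
      exact Subtype.ext (hc.comp_inj hc' h2)
    · rintro ⟨G, hG⟩
      obtain ⟨c, hc, hcG⟩ := hG.exists_code
      exact ⟨⟨c, hc⟩, Subtype.ext hcG⟩
  rw [hbij, codes_all (by norm_num) h0 h1]
  have hterm : ∀ A ∈ (Ico 2 (n + 2)).powerset,
      ∑' H : {H : Gr // Core 0 1 A H}, fam dd (ecard {0, 1} H.1) (Ico 2 (n + 2) \ A).card =
        gT A.card (Ico 2 (n + 2) \ A).card := by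
    intro A hA
    have hA' := Finset.mem_powerset.1 hA
    have hd : Disjoint ({0, 1} : Finset ℕ) A := by
      rw [Finset.disjoint_left]
      intro a ha haA
      have h2 := Finset.mem_Ico.1 (hA' haA)
      rw [Finset.mem_insert, Finset.mem_singleton] at ha
      omega
    have h2 := rtd_sum (U := A) (fun m => fam dd m (Ico 2 (n + 2) \ A).card)
      (R := {0, 1}) (by simp) hd
    unfold gT
    rw [← h2]
    refine Equiv.tsum_eq (Equiv.subtypeEquivRight (fun G => core_iff_rtd (by norm_num)))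
      (fun G : {G : Gr // Rtd {0, 1} A G} => fam dd (ecard {0, 1} G.1) (Ico 2 (n + 2) \ A).card)
  rw [Finset.sum_congr rfl hterm, sum_powerset_pair, sum_powerset_pair, Nat.card_Ico,
    Finset.card_range, Nat.add_sub_cancel]

theorem egf_nH (x : ℝ≥0∞) : egf nH x = T0 x (D x) := by
  have h1 : nH = fun n => ∑ A ∈ (range n).powerset, gF dd A.card (range n \ A).card := by
    funext n
    exact nH_eq n
  rw [h1, egf_gF]
  rfl

theorem egf_nH_trn (N : ℕ) (x : ℝ≥0∞) :
    egf (trn (N + 1) nH) x ≤ T0 x (egf (trn N dd) x) := by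
  rw [← egf_gF]
  refine egf_mono (fun n => ?_) x
  unfold trn
  split_ifs with hn
  · rw [nH_eq]
    refine Finset.sum_le_sum fun A hA => ?_
    by_cases hA1 : A.card ≤ 1
    · have h1 := gF_small dd hA1 (range n \ A).card
      have h2 : gT A.card (range n \ A).card = 0 := h1
      rw [h2]
      exact bot_le
    · have hc : (range n \ A).card ≤ N := by
        rw [Finset.card_sdiff_of_subset (Finset.mem_powerset.1 hA), Finset.card_range]
        omega
      unfold gT gF
      refine le_of_eq (tsum_congr fun G => fam_congr fun k hk => ?_)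
      rw [if_pos (hk.trans hc)]
  · exact bot_le

end K5
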