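import Pool.Agent.Lib.K5.CompL

/-!
# K5.CompB: the graph of a code is 2-connected, and it is not series

`W = St s t U`, `G = c.comp s t`, `N = G - st`. All three statements: let `P` be a proper nonempty subset of the set `X` under consideration, `Q = X \ P`; we look for an edge leaving `P`.
Let `P_A = P ∩ St s t A`, `Q_A = Q ∩ St s t A`.
1. `comp_conn_erase`: `Conn N (W.erase x)` for every `x ∈ U` or `x ∉ W`, and `Conn G (W.erase x)` for all `x`. (a) `P_A, Q_A ≠ ∅`: if `x ∈ St s t A` `Three.cross_erase` gives a crossing edge `ab` of `H` in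
   `(St s t A).erase x` other than `st` (for `x ∈ {s, t}` too); if `x` is in the fibre of `e0` use `Three.cross` with `e0` and `st`; if `x ∉ W` `Three.cross` with `st`. Then `comp_cross` for `ab`: the edge found has its ends in
   `St a b (fib ab)`, which does not contain `x`. (b) `P_A = ∅`: `w ∈ P`, `w ∈ fib (f w)`, `comp_closed` with `x` (`x ∉ P`). (c) `Q_A = ∅`: the same for `Q` instead of `P` (edges are symmetric).
2. `comp_conn`: `Conn G U`. (a) `P ∩ A, Q ∩ A ≠ ∅`: `Conn H ((St s t A).erase s).erase t)` gives a crossing edge `ab` of `H` in `A`; `comp_cross`. (b), (c) `comp_closed` with `x` = the end of `f w` in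
   `{s, t}` if there is one (at most one, as `f w ≠ st`).
-/

namespace K5

open Finset

variable {s t : ℕ} {U : Finset ℕ} {c : Code}

namespace CompBAux

lemma fib_subW (h : c.Valid s t U) {u v : ℕ} (he : c.H.Adj u v) {b : ℕ}
    (hb : b ∈ St u v (c.fib U s(u, v))) : b ∈ St s t U := by
  have h1 : ∀ y, y ∈ St s t c.A → y ∈ St s t U := fun y hy =>
    Finset.insert_subset_insert _ (Finset.insert_subset_insert _ h.sub) hy
  rcases Finset.mem_insert.mp hb with rfl | hb
  · exact h1 _ (h.core.on _ _ he)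
  rcases Finset.mem_insert.mp hb with rfl | hb
  · exact h1 _ (h.core.on _ _ he.symm)
  · exact Finset.mem_insert_of_mem (Finset.mem_insert_of_mem (h.fib_sub hb).1)

/-- An edge of the core with an extra vertex in its fibre. -/
lemma ends (h : c.Valid s t U) {w : ℕ} (hw : w ∈ U) (hA : w ∉ c.A) :
    ∃ u v, c.H.Adj u v ∧ s(u, v) ≠ s(s, t) ∧ w ∈ c.fib U s(u, v) := by
  obtain ⟨h1, h2, h3⟩ := h.mem_fib hw hA
  induction hf : c.f w using Sym2.ind with
  | _ u v =>
    rw [hf] at h1 h2 h3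
    exact ⟨u, v, h2, h3, h1⟩

lemma closedW (h : c.Valid s t U) (x : ℕ) {P : Finset ℕ} (hP : P ⊆ (St s t U).erase x)
    (hPA : ∀ a ∈ P, a ∉ St s t c.A) (hne : P.Nonempty) :
    ∃ a ∈ P, ∃ b ∈ (St s t U).erase x, b ∉ P ∧ (c.comp s t).Adj a b ∧ s(a, b) ≠ s(s, t) := by
  obtain ⟨w, hw⟩ := hne
  have hwW := Finset.mem_of_mem_erase (hP hw)
  have hwA := hPA w hw
  have hs : w ≠ s := fun e => hwA (e ▸ Finset.mem_insert_self _ _)
  have ht : w ≠ t := fun e => hwA (e ▸ Finset.mem_insert_of_mem (Finset.mem_insert_self _ _))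
  have hwU : w ∈ U := Finset.mem_of_mem_insert_of_ne (Finset.mem_of_mem_insert_of_ne hwW hs) ht
  have hwA' : w ∉ c.A := fun e => hwA (Finset.mem_insert_of_mem (Finset.mem_insert_of_mem e))
  obtain ⟨u, v, he, hst, hf⟩ := ends h hwU hwA'
  have hu : u ∉ P := fun e => hPA u e (h.core.on _ _ he)
  have hv : v ∉ P := fun e => hPA v e (h.core.on _ _ he.symm)
  have hx : x ∉ P := fun e => Finset.notMem_erase x _ (hP e)
  obtain ⟨a, _, haP, b, hb, hbP, hbx, hadj, hne⟩ := h.comp_closed he hst hu hv hw hf x hx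
  exact ⟨a, haP, b, Finset.mem_erase.mpr ⟨hbx, fib_subW h he hb⟩, hbP, hadj, hne⟩

lemma key (h : c.Valid s t U) (x : ℕ) {P : Finset ℕ} (hP : P ⊆ (St s t U).erase x)
    (hne : P.Nonempty) (hPW : P ≠ (St s t U).erase x) :
    ∃ a ∈ P, ∃ b ∈ (St s t U).erase x, b ∉ P ∧ (c.comp s t).Adj a b ∧ s(a, b) ≠ s(s, t) := by
  classical
  by_cases hPA : ∀ a ∈ P, a ∉ St s t c.A
  · exact closedW h x hP hPA hne
  by_cases hQA : ∀ a ∈ (St s t U).erase x \ P, a ∉ St s t c.A
  · have hQne : ((St s t U).erase x \ P).Nonempty := by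
      rw [Finset.sdiff_nonempty]
      exact fun e => hPW (Finset.Subset.antisymm hP e)
    obtain ⟨a, ha, b, hb, hbQ, hadj, hst⟩ := closedW h x Finset.sdiff_subset hQA hQne
    have ha' := Finset.mem_sdiff.mp ha
    have hbP : b ∈ P := by
      by_contra hc
      exact hbQ (Finset.mem_sdiff.mpr ⟨hb, hc⟩)
    refine ⟨b, hbP, a, ha'.1, ha'.2, hadj.symm, ?_⟩
    rw [Sym2.eq_swap]
    exact hst
  push Not at hPA hQA
  obtain ⟨p, hpP, hpA⟩ := hPA
  obtain ⟨q, hqQ, hqA⟩ := hQA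
  have hq := Finset.mem_sdiff.mp hqQ
  have hpx : p ≠ x := Finset.ne_of_mem_erase (hP hpP)
  have hqx : q ≠ x := Finset.ne_of_mem_erase hq.1
  -- an edge of the core
  have hedge : ∃ a ∈ P, ∃ b, b ∉ P ∧ b ≠ x ∧ c.H.Adj a b ∧ s(a, b) ≠ s(s, t) ∧
      ∀ y ∈ c.fib U s(a, b), y ≠ x := by
    by_cases hx : x ∈ St s t c.A
    · obtain ⟨a, ha, b, hb, hbP, hadj, hst⟩ := Three.cross_erase h.core.three x
        (P := P ∩ (St s t c.A).erase x) Finset.inter_subset_right
        ⟨p, Finset.mem_inter.mpr ⟨hpP, Finset.mem_erase.mpr ⟨hpx, hpA⟩⟩⟩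
        (fun e => hq.2 (Finset.mem_inter.mp ((Finset.ext_iff.mp e q).mpr
          (Finset.mem_erase.mpr ⟨hqx, hqA⟩))).1) s(s, t)
      refine ⟨a, (Finset.mem_inter.mp ha).1, b, fun e => hbP (Finset.mem_inter.mpr ⟨e, hb⟩),
        Finset.ne_of_mem_erase hb, hadj, hst, ?_⟩
      rintro y hy rfl
      obtain ⟨h1, h2, -⟩ := h.fib_sub hy
      rcases Finset.mem_insert.mp hx with rfl | hx
      · exact h.hs h1
      rcases Finset.mem_insert.mp hx with rfl | hx
      · exact h.ht h1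
      · exact h2 hx
    · obtain ⟨a, ha, b, hb, hbP, hadj, hfx, hst⟩ := Three.cross h.core.three
        (P := P ∩ St s t c.A) Finset.inter_subset_right
        ⟨p, Finset.mem_inter.mpr ⟨hpP, hpA⟩⟩
        (fun e => hq.2 (Finset.mem_inter.mp ((Finset.ext_iff.mp e q).mpr hqA)).1) (c.f x) s(s, t)
      refine ⟨a, (Finset.mem_inter.mp ha).1, b, fun e => hbP (Finset.mem_inter.mpr ⟨e, hb⟩),
        fun e => hx (e ▸ hb), hadj, hst, ?_⟩
      rintro y hy rfl
      exact hfx (h.fib_sub hy).2.2.symm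
  obtain ⟨a, haP, b, hbP, hbx, hadj, hst, hfib⟩ := hedge
  obtain ⟨a', _, ha'P, b', hb', hb'P, hadj', hst'⟩ := h.comp_cross hadj hst haP hbP
  refine ⟨a', ha'P, b', Finset.mem_erase.mpr ⟨?_, fib_subW h hadj hb'⟩, hb'P, hadj', hst'⟩
  rcases Finset.mem_insert.mp hb' with rfl | hb'
  · exact absurd haP hb'P
  rcases Finset.mem_insert.mp hb' with rfl | hb'
  · exact hbx
  · exact hfib b' hb'

lemma nonemptyW (h : c.Valid s t U) (x : ℕ) : ((St s t U).erase x).Nonempty := by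
  by_cases hx : x = s
  · exact ⟨t, Finset.mem_erase.mpr ⟨fun e => h.core.ne (hx.symm.trans e.symm),
      Finset.mem_insert_of_mem (Finset.mem_insert_self _ _)⟩⟩
  · exact ⟨s, Finset.mem_erase.mpr ⟨fun e => hx e.symm, Finset.mem_insert_self _ _⟩⟩

lemma closedU (h : c.Valid s t U) {P : Finset ℕ} (hP : P ⊆ U)
    (hPA : ∀ a ∈ P, a ∉ c.A) (hne : P.Nonempty) :
    ∃ a ∈ P, ∃ b ∈ U, b ∉ P ∧ (c.comp s t).Adj a b := by
  classical
  obtain ⟨w, hw⟩ := hne
  obtain ⟨u, v, he, hst, hf⟩ := ends h (hP hw) (hPA w hw)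
  have hend : ∀ y, y ∈ St s t c.A → y ∉ P ∧ (y = s ∨ y = t ∨ y ∈ U) := by
    intro y hy
    rcases Finset.mem_insert.mp hy with rfl | hy
    · exact ⟨fun e => h.hs (hP e), Or.inl rfl⟩
    rcases Finset.mem_insert.mp hy with rfl | hy
    · exact ⟨fun e => h.ht (hP e), Or.inr (Or.inl rfl)⟩
    · exact ⟨fun e => hPA y e hy, Or.inr (Or.inr (h.sub hy))⟩
  obtain ⟨hu, hu'⟩ := hend u (h.core.on _ _ he)
  obtain ⟨hv, hv'⟩ := hend v (h.core.on _ _ he.symm)
  have hx : ∃ x, x ∉ P ∧ (u ≠ x → u ∈ U) ∧ (v ≠ x → v ∈ U) := by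
    by_cases huU : u ∈ U
    · exact ⟨v, hv, fun _ => huU, fun e => absurd rfl e⟩
    · refine ⟨u, hu, fun e => absurd rfl e, fun _ => ?_⟩
      rcases hv' with rfl | rfl | hv'
      · rcases hu' with rfl | rfl | hu'
        · exact absurd he (c.H.loopless.irrefl _)
        · exact absurd Sym2.eq_swap hst
        · exact absurd hu' huU
      · rcases hu' with rfl | rfl | hu'
        · exact absurd rfl hst
        · exact absurd he (c.H.loopless.irrefl _)
        · exact absurd hu' huU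
      · exact hv'
  obtain ⟨x, hxP, hux, hvx⟩ := hx
  obtain ⟨a, _, haP, b, hb, hbP, hbx, hadj, -⟩ := h.comp_closed he hst hu hv hw hf x hxP
  refine ⟨a, haP, b, ?_, hbP, hadj⟩
  rcases Finset.mem_insert.mp hb with rfl | hb
  · exact hux hbx
  rcases Finset.mem_insert.mp hb with rfl | hb
  · exact hvx hbx
  · exact (h.fib_sub hb).1

end CompBAux

open CompBAux

theorem Code.Valid.conn_del (h : c.Valid s t U) {x : ℕ} (hs : x ≠ s) (ht : x ≠ t) :
    P512.Conn ((c.comp s t).deleteEdges {s(s, t)}) ((St s t U).erase x) := by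
  refine ⟨nonemptyW h x, fun P hP hne hPW => ?_⟩
  obtain ⟨a, ha, b, hb, hbP, hadj, hst⟩ := key h x hP hne hPW
  refine ⟨a, ha, b, hb, hbP, ?_⟩
  rw [SimpleGraph.deleteEdges_adj]
  exact ⟨hadj, hst⟩

theorem Code.Valid.conn_erase (h : c.Valid s t U) (x : ℕ) :
    P512.Conn (c.comp s t) ((St s t U).erase x) := by
  refine ⟨nonemptyW h x, fun P hP hne hPW => ?_⟩
  obtain ⟨a, ha, b, hb, hbP, hadj, -⟩ := key h x hP hne hPW
  exact ⟨a, ha, b, hb, hbP, hadj⟩

theorem Code.Valid.conn_U (h : c.Valid s t U) : P512.Conn (c.comp s t) U := by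
  classical
  have hsA : s ∉ c.A := h.core.hs
  have htA : t ∉ c.A := h.core.ht
  have hconn := h.core.three.2 s t
  have eA : ((St s t c.A).erase s).erase t = c.A := by
    rw [Finset.erase_insert (by
      rw [Finset.mem_insert]
      rintro (e | e)
      · exact h.core.ne e
      · exact hsA e), Finset.erase_insert htA]
  rw [eA] at hconn
  refine ⟨hconn.1.mono h.sub, fun P hP hne hPU => ?_⟩
  by_cases hPA : ∀ a ∈ P, a ∉ c.A
  · exact closedU h hP hPA hne
  by_cases hQA : ∀ a ∈ U \ P, a ∉ c.A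
  · have hQne : (U \ P).Nonempty := by
      rw [Finset.sdiff_nonempty]
      exact fun e => hPU (Finset.Subset.antisymm hP e)
    obtain ⟨a, ha, b, hb, hbQ, hadj⟩ := closedU h Finset.sdiff_subset hQA hQne
    have ha' := Finset.mem_sdiff.mp ha
    have hbP : b ∈ P := by
      by_contra hc
      exact hbQ (Finset.mem_sdiff.mpr ⟨hb, hc⟩)
    exact ⟨b, hbP, a, ha'.1, ha'.2, hadj.symm⟩
  push Not at hPA hQA
  obtain ⟨p, hpP, hpA⟩ := hPA
  obtain ⟨q, hqQ, hqA⟩ := hQA
  have hq := Finset.mem_sdiff.mp hqQ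
  obtain ⟨a, ha, b, hb, hbP, hadj⟩ := hconn.2 (P ∩ c.A) Finset.inter_subset_right
    ⟨p, Finset.mem_inter.mpr ⟨hpP, hpA⟩⟩
    (fun e => hq.2 (Finset.mem_inter.mp ((Finset.ext_iff.mp e q).mpr hqA)).1)
  have haA := (Finset.mem_inter.mp ha).2
  have hst : s(a, b) ≠ s(s, t) := by
    intro e
    have : a ∈ s(s, t) := e ▸ Sym2.mem_mk_left a b
    rcases Sym2.mem_iff.mp this with rfl | rfl
    · exact hsA haA
    · exact htA haA
  obtain ⟨a', _, ha'P, b', hb', hb'P, hadj', -⟩ := h.comp_cross hadj hst (Finset.mem_inter.mp ha).1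
    (fun e => hbP (Finset.mem_inter.mpr ⟨e, hb⟩))
  refine ⟨a', ha'P, b', ?_, hb'P, hadj'⟩
  rcases Finset.mem_insert.mp hb' with rfl | hb'
  · exact h.sub haA
  rcases Finset.mem_insert.mp hb' with rfl | hb'
  · exact h.sub hb
  · exact (h.fib_sub hb').1

end K5
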