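import Pool.Agent.Lib.K5.FragM

/-!
# K5.CoreT: the core of a piece that is not series is 3-connected

`H = coreG s t U G` on `St s t A`, `A = coreV s t U G`. Note `s, t ∈ St s t A`, `H.Adj s t`.

1. `lift_closed` (the key step): let `P ⊆ A` be nonempty, `u, v` arbitrary numbers, and suppose no edge of `H` joins `P` to `St s t A \ (P ∪ {u, v})`. Put
   `I = P ∪ ⋃ {J maximal fragment : bd J meets P}`. Then `bd G W I ⊆ {u, v}`: an outer neighbour of a vertex of `P` in `St s t A` is `H`-adjacent to it, so it is `u` or `v`; an outer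
   neighbour in `U \ A` is in a maximal fragment `J` that has an element of `P` in `bd J`, so it is in `I`; an outer neighbour of `J` is in `bd J = {p, q}`, `p ∈ P`, and `q` is
   `H`-adjacent to `p` (`MaxFrag.bd_sub`), so `q ∈ P ∪ {u, v}`. By `Net.two_le_bd` `bd G W I = {u, v}` with `u ≠ v`. If `{u, v} ≠ {s, t}` then `I` is a fragment that meets `A`:
   contradiction to the definition of `coreV`. So `{u, v} = {s, t}`; then `Conn G U` gives `I = U`, so `P = A` (the fragments are disjoint from `A`).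
2. `card`: `4 ≤ |St s t A|`, i.e. `2 ≤ |A|`. If `A = ∅`: `U` is nonempty (`Conn G U`), so there is a maximal fragment `J`, `bd J ⊆ {s, t}`, so `bd J = {s, t}`: contradiction. If `A = {c}`: every
   maximal fragment has boundary `{s, c}` or `{t, c}`; in `N - c` (`N = G - st`) the set `{s} ∪ ⋃ {J : bd J = {s, c}}` has no edge to the rest, which contains `t`:
   contradiction to `¬ Series`.
3. For all `u v`: `Conn H ((St s t A).erase u).erase v)`. It is nonempty by 2. Suppose `P` is a proper nonempty subset without edges to the rest `P'` (in cut form). As `H.Adj s t`, not one of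
   `s, t` in `P` and the other in `P'`. So (swapping `P` and `P'`) we may assume `s, t ∉ P`: by 1, `P = A` and `{u, v} = {s, t}`, so `P'` is empty: contradiction.
-/

namespace K5

open Finset

namespace CoreTAux

theorem mem_core {s t : ℕ} {U : Finset ℕ} {G : Gr} {w : ℕ} :
    w ∈ coreV s t U G ↔ w ∈ U ∧ ∀ I, Frag s t U G I → w ∉ I := by
  classical
  unfold coreV
  rw [Finset.mem_filter]

theorem core_sub {s t : ℕ} {U : Finset ℕ} {G : Gr} : coreV s t U G ⊆ U :=
  fun _ h => (mem_core.mp h).1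

theorem core_adj {s t : ℕ} {U : Finset ℕ} {G : Gr} {a b : ℕ} :
    (coreG s t U G).Adj a b ↔ a ≠ b ∧ a ∈ St s t (coreV s t U G) ∧ b ∈ St s t (coreV s t U G) ∧
    (G.Adj a b ∨ ∃ I, MaxFrag s t U G I ∧ bd G (St s t U) I = {a, b}) := Iff.rfl

theorem lift_closed {s t : ℕ} {U : Finset ℕ} {G : Gr} (h : HPiece s t U G) {P : Finset ℕ}
    (hP : P ⊆ coreV s t U G) (hne : P.Nonempty) {u v : ℕ}
    (hno : ∀ a ∈ P, ∀ b ∈ St s t (coreV s t U G), b ∉ P → b ≠ u → b ≠ v →
      ¬ (coreG s t U G).Adj a b) :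
    ({u, v} : Finset ℕ) = {s, t} ∧ P = coreV s t U G := by
  classical
  let I : Finset ℕ := U.filter (fun w => w ∈ P ∨ ∃ J, MaxFrag s t U G J ∧ w ∈ J ∧
    ∃ p ∈ P, p ∈ bd G (St s t U) J)
  have hmI : ∀ w, w ∈ I ↔ w ∈ U ∧ (w ∈ P ∨ ∃ J, MaxFrag s t U G J ∧ w ∈ J ∧
    ∃ p ∈ P, p ∈ bd G (St s t U) J) := fun w => Finset.mem_filter
  have hIU : I ⊆ U := fun w hw => ((hmI w).mp hw).1
  have hPI : P ⊆ I := fun w hw => (hmI w).mpr ⟨core_sub (hP hw), Or.inl hw⟩
  have hINe : I.Nonempty := hne.mono hPI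
  have hbd : bd G (St s t U) I ⊆ {u, v} := by
    intro w hw
    obtain ⟨⟨hW, hwI⟩, i, hi, ha⟩ := mem_bd.mp hw
    have hwP : w ∉ P := fun e => hwI (hPI e)
    have hadj : ∀ a ∈ P, w ∈ St s t (coreV s t U G) → (coreG s t U G).Adj a w →
        w ∈ ({u, v} : Finset ℕ) := by
      intro a ha' hw' hadj
      by_contra hcon
      rw [Finset.mem_insert, Finset.mem_singleton, not_or] at hcon
      exact hno a ha' w hw' hwP hcon.1 hcon.2 hadj
    rcases ((hmI i).mp hi).2 with hiP | ⟨J, hJ, hiJ, p, hpP, hpb⟩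
    · by_cases hwA : w ∈ St s t (coreV s t U G)
      · exact hadj i hiP hwA (core_adj.mpr ⟨fun e => hwP (e ▸ hiP),
          FragUAux.mem_St.mpr (Or.inr (Or.inr (hP hiP))), hwA, Or.inl ha⟩)
      · exfalso
        rw [FragUAux.mem_St, not_or, not_or] at hwA
        rw [FragUAux.mem_St] at hW
        have hwU : w ∈ U := (hW.resolve_left hwA.1).resolve_left hwA.2.1
        obtain ⟨J, hJ, hwJ⟩ := mem_maxFrag hwU hwA.2.2
        have hiJ : i ∉ J := (mem_core.mp (hP hiP)).2 J hJ.1
        exact hwI ((hmI w).mpr ⟨hwU, Or.inr ⟨J, hJ, hwJ, i, hiP,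
          mem_bd.mpr ⟨⟨FragUAux.mem_St.mpr (Or.inr (Or.inr (core_sub (hP hiP)))), hiJ⟩,
            w, hwJ, ha.symm⟩⟩⟩)
    · have hwJ : w ∉ J := fun e => hwI ((hmI w).mpr ⟨hJ.1.sub e, Or.inr ⟨J, hJ, e, p, hpP, hpb⟩⟩)
      have hwb : w ∈ bd G (St s t U) J := mem_bd.mpr ⟨⟨hW, hwJ⟩, i, hiJ, ha⟩
      have hpw : p ≠ w := fun e => hwP (e ▸ hpP)
      have hJb : bd G (St s t U) J = {p, w} := by
        symm
        apply Finset.eq_of_subset_of_card_le
        · intro x hx
          rw [Finset.mem_insert, Finset.mem_singleton] at hx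
          rcases hx with rfl | rfl
          · exact hpb
          · exact hwb
        · rw [hJ.1.card, Finset.card_pair hpw]
      have hwA := MaxFrag.bd_sub h hJ hwb
      exact hadj p hpP hwA (core_adj.mpr ⟨hpw, MaxFrag.bd_sub h hJ hpb, hwA,
        Or.inr ⟨J, hJ, hJb⟩⟩)
  have h2 := h.1.net.two_le_bd hIU hINe
  have huv : bd G (St s t U) I = {u, v} := by
    apply Finset.eq_of_subset_of_card_le hbd
    exact Finset.card_le_two.trans h2
  have hst : bd G (St s t U) I = {s, t} := by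
    by_contra hcon
    obtain ⟨p, hp⟩ := hne
    have hF : Frag s t U G I :=
      ⟨hIU, hINe, le_antisymm (huv ▸ Finset.card_le_two) h2, hcon⟩
    exact (mem_core.mp (hP hp)).2 I hF (hPI hp)
  refine ⟨huv ▸ hst, Finset.Subset.antisymm hP (fun a ha => ?_)⟩
  have hIU' : I = U := by
    by_contra hcon
    exact FragMAux.bd_ne h hIU hINe hcon hst
  have haI : a ∈ I := hIU' ▸ core_sub ha
  rcases ((hmI a).mp haI).2 with e | ⟨J, hJ, haJ, _⟩
  · exact e
  · exact absurd haJ ((mem_core.mp ha).2 J hJ.1)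

theorem two_le {s t : ℕ} {U : Finset ℕ} {G : Gr} (h : HPiece s t U G) :
    2 ≤ (coreV s t U G).card := by
  classical
  by_contra hcon
  have hA : coreV s t U G = ∅ ∨ ∃ c, coreV s t U G = {c} := by
    rcases Nat.lt_or_ge (coreV s t U G).card 1 with h0 | h0
    · exact Or.inl (Finset.card_eq_zero.mp (by omega))
    · exact Or.inr (Finset.card_eq_one.mp (by omega))
  rcases hA with hA | ⟨c, hA⟩
  · obtain ⟨w, hw⟩ := h.1.conn.1
    obtain ⟨J, hJ, hwJ⟩ := mem_maxFrag (s := s) (t := t) (G := G) hw (by rw [hA]; simp)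
    have hb := MaxFrag.bd_sub h hJ
    rw [hA] at hb
    apply hJ.1.bd_ne
    apply Finset.eq_of_subset_of_card_le
    · intro x hx
      have := FragUAux.mem_St.mp (hb hx)
      rw [Finset.mem_insert, Finset.mem_singleton]
      rcases this with e | e | e
      · exact Or.inl e
      · exact Or.inr e
      · simp at e
    · rw [hJ.1.card, Finset.card_pair h.1.net.ne]
  · have hcA : c ∈ coreV s t U G := by rw [hA]; simp
    have hcU : c ∈ U := core_sub hcA
    have hcs : c ≠ s := fun e => h.1.net.hs (e ▸ hcU)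
    have hct : c ≠ t := fun e => h.1.net.ht (e ▸ hcU)
    have hout : ∀ w ∈ U, w ≠ c → ∃ J, MaxFrag s t U G J ∧ w ∈ J := by
      intro w hw hwc
      exact mem_maxFrag hw (by rw [hA, Finset.mem_singleton]; exact hwc)
    let P : Finset ℕ := insert s (U.filter (fun w => ∃ J, MaxFrag s t U G J ∧ w ∈ J ∧
      s ∈ bd G (St s t U) J))
    have hmP : ∀ w, w ∈ P ↔ w = s ∨ (w ∈ U ∧ ∃ J, MaxFrag s t U G J ∧ w ∈ J ∧
      s ∈ bd G (St s t U) J) := fun w => by
      rw [Finset.mem_insert, Finset.mem_filter]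
    obtain ⟨a, ha, b, hb, hbP, hab⟩ := (FragUAux.conn_del h hcU).2 P (by
      intro x hx
      rw [Finset.mem_erase, FragUAux.mem_St]
      rcases (hmP x).mp hx with e | ⟨hxU, J, hJ, hxJ, _⟩
      · exact ⟨fun e' => hcs (e'.symm.trans e), Or.inl e⟩
      · exact ⟨fun e' => (mem_core.mp hcA).2 J hJ.1 (e' ▸ hxJ), Or.inr (Or.inr hxU)⟩)
      (Finset.insert_nonempty _ _) (by
      intro e
      have : t ∈ P := by
        rw [e, Finset.mem_erase, FragUAux.mem_St]
        exact ⟨hct.symm, Or.inr (Or.inl rfl)⟩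
      rcases (hmP t).mp this with e | e
      · exact h.1.net.ne e.symm
      · exact h.1.net.ht e.1)
    rw [FragUAux.del_adj] at hab
    rw [Finset.mem_erase, FragUAux.mem_St] at hb
    have hbs : b ≠ s := fun e => hbP ((hmP b).mpr (Or.inl e))
    rcases (hmP a).mp ha with rfl | ⟨haU, J, hJ, haJ, hsJ⟩
    · rcases hb.2 with e | e | hbU
      · exact hbs e
      · exact hab.2 (by rw [e])
      · obtain ⟨J, hJ, hbJ⟩ := hout b hbU hb.1
        exact hbP ((hmP b).mpr (Or.inr ⟨hbU, J, hJ, hbJ,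
          mem_bd.mpr ⟨⟨FragUAux.mem_St.mpr (Or.inl rfl), fun e => h.1.net.hs (hJ.1.sub e)⟩,
            b, hbJ, hab.1.symm⟩⟩))
    · have hbJ : b ∉ J := fun e => hbP ((hmP b).mpr (Or.inr ⟨hJ.1.sub e, J, hJ, e, hsJ⟩))
      have hbb : b ∈ bd G (St s t U) J :=
        mem_bd.mpr ⟨⟨FragUAux.mem_St.mpr hb.2, hbJ⟩, a, haJ, hab.1⟩
      have hbA := FragUAux.mem_St.mp (MaxFrag.bd_sub h hJ hbb)
      rw [hA, Finset.mem_singleton] at hbA
      rcases hbA with e | e | e
      · exact hbs e
      · subst e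
        exact FragUAux.bd_not_both h hJ.1 hsJ hbb
      · exact hb.1 e

end CoreTAux

theorem HPiece.core_three {s t : ℕ} {U : Finset ℕ} {G : Gr} (h : HPiece s t U G) :
    Three (coreG s t U G) (St s t (coreV s t U G)) := by
  classical
  have hA2 := CoreTAux.two_le h
  have hsA : s ∉ coreV s t U G := fun e => h.1.net.hs (CoreTAux.core_sub e)
  have htA : t ∉ coreV s t U G := fun e => h.1.net.ht (CoreTAux.core_sub e)
  have hst := h.1.net.ne
  have hcard : (St s t (coreV s t U G)).card = (coreV s t U G).card + 2 := by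
    have h1 : s ∉ insert t (coreV s t U G) := by
      rw [Finset.mem_insert, not_or]
      exact ⟨hst, hsA⟩
    rw [St, Finset.card_insert_of_notMem h1, Finset.card_insert_of_notMem htA]
  have hadj : (coreG s t U G).Adj s t :=
    CoreTAux.core_adj.mpr ⟨hst, FragUAux.mem_St.mpr (Or.inl rfl),
      FragUAux.mem_St.mpr (Or.inr (Or.inl rfl)), Or.inl h.1.net.adj⟩
  refine ⟨by omega, fun u v => ⟨?_, ?_⟩⟩
  · rw [← Finset.card_pos]
    have h1 := Finset.pred_card_le_card_erase (s := St s t (coreV s t U G)) (a := u)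
    have h2 := Finset.pred_card_le_card_erase (s := (St s t (coreV s t U G)).erase u) (a := v)
    omega
  · intro P hPS hPne hPS'
    by_contra hcon
    push Not at hcon
    have hmS : ∀ x, x ∈ ((St s t (coreV s t U G)).erase u).erase v ↔
        x ≠ v ∧ x ≠ u ∧ x ∈ St s t (coreV s t U G) := fun x => by
      rw [Finset.mem_erase, Finset.mem_erase]
    have hsolve : ∀ Q Q' : Finset ℕ, Q ⊆ ((St s t (coreV s t U G)).erase u).erase v →
        Q.Nonempty → Q'.Nonempty →
        (∀ x ∈ ((St s t (coreV s t U G)).erase u).erase v, x ∈ Q ∨ x ∈ Q') →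
        Q' ⊆ ((St s t (coreV s t U G)).erase u).erase v → Disjoint Q Q' →
        (∀ a ∈ Q, ∀ b ∈ Q', ¬ (coreG s t U G).Adj a b) → s ∉ Q → t ∉ Q → False := by
      intro Q Q' hQS hQne hQ'ne hcov hQ'S hdis hno hsQ htQ
      have hQA : Q ⊆ coreV s t U G := by
        intro x hx
        rcases FragUAux.mem_St.mp ((hmS x).mp (hQS hx)).2.2 with e | e | e
        · exact absurd (e ▸ hx) hsQ
        · exact absurd (e ▸ hx) htQ
        · exact e
      obtain ⟨huv, hQ⟩ := CoreTAux.lift_closed h hQA hQne (u := u) (v := v) (by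
        intro a ha b hb hbQ hbu hbv hadj
        exact hno a ha b ((hcov b ((hmS b).mpr ⟨hbv, hbu, hb⟩)).resolve_left hbQ) hadj)
      obtain ⟨x, hx⟩ := hQ'ne
      have hxS := (hmS x).mp (hQ'S hx)
      have hxuv : x ∉ ({u, v} : Finset ℕ) := by
        rw [Finset.mem_insert, Finset.mem_singleton, not_or]
        exact ⟨hxS.2.1, hxS.1⟩
      rw [huv, Finset.mem_insert, Finset.mem_singleton, not_or] at hxuv
      rcases FragUAux.mem_St.mp hxS.2.2 with e | e | e
      · exact hxuv.1 e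
      · exact hxuv.2 e
      · exact Finset.disjoint_left.mp hdis (hQ ▸ e) hx
    have hP'ne : ((((St s t (coreV s t U G)).erase u).erase v) \ P).Nonempty := by
      rw [Finset.nonempty_iff_ne_empty]
      intro e
      exact hPS' (Finset.Subset.antisymm hPS (Finset.sdiff_eq_empty_iff_subset.mp e))
    by_cases hcase : s ∉ P ∧ t ∉ P
    · refine hsolve P _ hPS hPne hP'ne (fun x hx => ?_) Finset.sdiff_subset
        Finset.disjoint_sdiff (fun a ha b hb => ?_) hcase.1 hcase.2
      · by_cases hxP : x ∈ P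
        · exact Or.inl hxP
        · exact Or.inr (Finset.mem_sdiff.mpr ⟨hx, hxP⟩)
      · rw [Finset.mem_sdiff] at hb
        exact hcon a ha b hb.1 hb.2
    · refine hsolve _ P Finset.sdiff_subset hP'ne hPne (fun x hx => ?_) hPS
        Finset.disjoint_sdiff.symm (fun a ha b hb hadj' => ?_) ?_ ?_
      · by_cases hxP : x ∈ P
        · exact Or.inr hxP
        · exact Or.inl (Finset.mem_sdiff.mpr ⟨hx, hxP⟩)
      · rw [Finset.mem_sdiff] at ha
        exact hcon b hb a ha.1 ha.2 hadj'.symm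
      · intro hs'
        rw [Finset.mem_sdiff] at hs'
        exact hcase ⟨hs'.2, fun ht' => hcon t ht' s hs'.1 hs'.2 hadj.symm⟩
      · intro ht'
        rw [Finset.mem_sdiff] at ht'
        exact hcase ⟨fun hs' => hcon s hs' t ht'.1 ht'.2 hadj, ht'.2⟩

end K5
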