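import Pool.Agent.Lib.K5.Defs

/-!
# K5.Cross: crossing edges in a 3-connected graph

Let `P, Q` be the two sides.
1. `Three.cross`: at least three crossing edges. If `|P| ≥ 2` and `|Q| ≥ 2`: if `e1` is a crossing edge `a1 b1` (`a1 ∈ P`) delete `a1`, if `e2` is a crossing edge `a2 b2` delete `b2`; both
   sides stay nonempty, and `Conn H ((W.erase a1).erase b2)` gives a crossing edge `ab` with `a ≠ a1`, `b ≠ b2`. If `|P| = 1` then `|Q| ≥ 3`: delete the ends in `Q` of `e1` and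
   `e2`. Symmetric if `|Q| = 1`. (If `e1` is not crossing delete nothing: `W.erase` of a number outside `W`, or use any vertex twice.)
2. `Three.cross_erase`: in `W.erase x` there are at least two crossing edges: one of the sides has at least two elements, delete the end of `e` in this side.
3. `Net.cross`: a network with nonempty interior minus the edge `st` is connected: delete `s` or `t`, whose side has at least two elements. 
-/

namespace K5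

open Finset

namespace CrossAux

/-- One end in `P` of the only possible crossing edge `e`. -/
lemma endP {P : Finset ℕ} (hne : P.Nonempty) (e : Sym2 ℕ) :
    ∃ x ∈ P, ∀ a ∈ P, ∀ b, b ∉ P → s(a, b) = e → a = x := by
  by_cases h : ∃ a ∈ P, ∃ b, b ∉ P ∧ s(a, b) = e
  · obtain ⟨a, ha, b, hb, he⟩ := h
    refine ⟨a, ha, fun a' ha' b' hb' he' => ?_⟩
    rw [← he] at he'
    rcases Sym2.eq_iff.mp he' with h | h
    · exact h.1
    · exact absurd (h.1 ▸ ha') hb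
  · obtain ⟨x, hx⟩ := hne
    exact ⟨x, hx, fun a ha b hb he => absurd ⟨a, ha, b, hb, he⟩ h⟩

/-- One end outside `P` of the only possible crossing edge `e`. -/
lemma endQ {W P : Finset ℕ} (hne : ∃ q ∈ W, q ∉ P) (e : Sym2 ℕ) :
    ∃ y ∈ W, y ∉ P ∧ ∀ a ∈ P, ∀ b ∈ W, b ∉ P → s(a, b) = e → b = y := by
  by_cases h : ∃ a ∈ P, ∃ b ∈ W, b ∉ P ∧ s(a, b) = e
  · obtain ⟨a, ha, b, hbW, hb, he⟩ := h
    refine ⟨b, hbW, hb, fun a' ha' b' _ hb' he' => ?_⟩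
    rw [← he] at he'
    rcases Sym2.eq_iff.mp he' with h | h
    · exact h.2
    · exact absurd (h.1 ▸ ha') hb
  · obtain ⟨y, hyW, hy⟩ := hne
    exact ⟨y, hyW, hy, fun a ha b hbW hb he => absurd ⟨a, ha, b, hbW, hb, he⟩ h⟩

/-- Crossing edges of a connected set `S` for the part `P`. -/
lemma crossS {H : Gr} {S P : Finset ℕ} (hc : P512.Conn H S) (hp : ∃ p ∈ S, p ∈ P)
    (hq : ∃ q ∈ S, q ∉ P) : ∃ a ∈ S, a ∈ P ∧ ∃ b ∈ S, b ∉ P ∧ H.Adj a b := by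
  classical
  obtain ⟨p, hpS, hpP⟩ := hp
  obtain ⟨q, hqS, hqP⟩ := hq
  obtain ⟨u, hu, v, hv, hvP, huv⟩ := hc.2 (S.filter (· ∈ P)) (Finset.filter_subset _ _)
    ⟨p, Finset.mem_filter.mpr ⟨hpS, hpP⟩⟩ (fun h => by
      rw [← h] at hqS
      exact hqP (Finset.mem_filter.mp hqS).2)
  have hu' := Finset.mem_filter.mp hu
  exact ⟨u, hu'.1, hu'.2, v, hv, fun h => hvP (Finset.mem_filter.mpr ⟨hv, h⟩), huv⟩

lemma cross2 {H : Gr} {W : Finset ℕ} (hc : ∀ u v, P512.Conn H ((W.erase u).erase v)) {P : Finset ℕ}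
    (hP : P ⊆ W) (e1 e2 : Sym2 ℕ) (z1 z2 : ℕ)
    (h1 : ∀ a ∈ P, ∀ b ∈ W, b ∉ P → s(a, b) = e1 → a = z1 ∨ b = z1)
    (h2 : ∀ a ∈ P, ∀ b ∈ W, b ∉ P → s(a, b) = e2 → a = z2 ∨ b = z2)
    (hp : ∃ p ∈ P, p ≠ z1 ∧ p ≠ z2) (hq : ∃ q ∈ W, q ∉ P ∧ q ≠ z1 ∧ q ≠ z2) :
    ∃ a ∈ P, ∃ b ∈ W, b ∉ P ∧ H.Adj a b ∧ s(a, b) ≠ e1 ∧ s(a, b) ≠ e2 := by
  obtain ⟨p, hpP, hp1, hp2⟩ := hp
  obtain ⟨q, hqW, hqP, hq1, hq2⟩ := hq
  obtain ⟨a, haS, haP, b, hbS, hbP, hab⟩ := crossS (P := P) (hc z1 z2)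
    ⟨p, by simp [hP hpP, hp1, hp2], hpP⟩ ⟨q, by simp [hqW, hq1, hq2], hqP⟩
  simp only [Finset.mem_erase] at haS hbS
  refine ⟨a, haP, b, hbS.2.2, hbP, hab, fun h => ?_, fun h => ?_⟩
  · rcases h1 a haP b hbS.2.2 hbP h with h | h
    · exact haS.2.1 h
    · exact hbS.2.1 h
  · rcases h2 a haP b hbS.2.2 hbP h with h | h
    · exact haS.1 h
    · exact hbS.1 h

end CrossAux

open CrossAux

theorem Three.cross {H : Gr} {W : Finset ℕ} (h : Three H W) {P : Finset ℕ} (hP : P ⊆ W)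
    (hne : P.Nonempty) (hPW : P ≠ W) (e1 e2 : Sym2 ℕ) :
    ∃ a ∈ P, ∃ b ∈ W, b ∉ P ∧ H.Adj a b ∧ s(a, b) ≠ e1 ∧ s(a, b) ≠ e2 := by
  classical
  have hq : ∃ q ∈ W, q ∉ P := by
    by_contra hcon
    push Not at hcon
    exact hPW (Finset.Subset.antisymm hP (fun q hq => hcon q hq))
  have hcard : P.card + (W \ P).card = W.card := by
    rw [add_comm]
    exact Finset.card_sdiff_add_card_eq_card hP
  have h4 := h.1
  have hP1 : 1 ≤ P.card := hne.card_pos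
  have hQ1 : 1 ≤ (W \ P).card := by
    obtain ⟨q, hqW, hqP⟩ := hq
    exact Finset.card_pos.mpr ⟨q, Finset.mem_sdiff.mpr ⟨hqW, hqP⟩⟩
  rcases Nat.lt_or_ge 2 (W \ P).card with hQ3 | hQ3
  · obtain ⟨y1, hy1W, hy1, hy1e⟩ := endQ hq e1
    obtain ⟨y2, hy2W, hy2, hy2e⟩ := endQ hq e2
    obtain ⟨p, hp⟩ := hne
    refine cross2 h.2 hP e1 e2 y1 y2 (fun a ha b hb hb' he => Or.inr (hy1e a ha b hb hb' he))
      (fun a ha b hb hb' he => Or.inr (hy2e a ha b hb hb' he))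
      ⟨p, hp, fun h => hy1 (h ▸ hp), fun h => hy2 (h ▸ hp)⟩ ?_
    have : (({y1, y2} : Finset ℕ)).card < (W \ P).card :=
      lt_of_le_of_lt Finset.card_le_two hQ3
    obtain ⟨q, hq1, hq2⟩ := Finset.exists_mem_notMem_of_card_lt_card this
    simp only [Finset.mem_insert, Finset.mem_singleton, not_or] at hq2
    exact ⟨q, (Finset.mem_sdiff.mp hq1).1, (Finset.mem_sdiff.mp hq1).2, hq2.1, hq2.2⟩
  · rcases Nat.lt_or_ge 2 P.card with hP3 | hP3
    · obtain ⟨x1, hx1, hx1e⟩ := endP hne e1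
      obtain ⟨x2, hx2, hx2e⟩ := endP hne e2
      obtain ⟨q, hqW, hqP⟩ := hq
      refine cross2 h.2 hP e1 e2 x1 x2 (fun a ha b hb hb' he => Or.inl (hx1e a ha b hb' he))
        (fun a ha b hb hb' he => Or.inl (hx2e a ha b hb' he)) ?_
        ⟨q, hqW, hqP, fun h => hqP (h ▸ hx1), fun h => hqP (h ▸ hx2)⟩
      have : (({x1, x2} : Finset ℕ)).card < P.card := lt_of_le_of_lt Finset.card_le_two hP3
      obtain ⟨p, hp1, hp2⟩ := Finset.exists_mem_notMem_of_card_lt_card this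
      simp only [Finset.mem_insert, Finset.mem_singleton, not_or] at hp2
      exact ⟨p, hp1, hp2.1, hp2.2⟩
    · have hP2 : 1 < P.card := by omega
      have hQ2 : 1 < (W \ P).card := by omega
      obtain ⟨x, hx, hxe⟩ := endP hne e1
      obtain ⟨y, hyW, hy, hye⟩ := endQ hq e2
      obtain ⟨p, hp, hpx⟩ := Finset.exists_mem_ne hP2 x
      obtain ⟨q, hq', hqy⟩ := Finset.exists_mem_ne hQ2 y
      have hqW := (Finset.mem_sdiff.mp hq').1
      have hqP := (Finset.mem_sdiff.mp hq').2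
      exact cross2 h.2 hP e1 e2 x y (fun a ha b hb hb' he => Or.inl (hxe a ha b hb' he))
        (fun a ha b hb hb' he => Or.inr (hye a ha b hb hb' he))
        ⟨p, hp, hpx, fun h => hy (h ▸ hp)⟩ ⟨q, hqW, hqP, fun h => hqP (h ▸ hx), hqy⟩

theorem Three.cross_erase {H : Gr} {W : Finset ℕ} (h : Three H W) (x : ℕ) {P : Finset ℕ}
    (hP : P ⊆ W.erase x) (hne : P.Nonempty) (hPW : P ≠ W.erase x) (e : Sym2 ℕ) :
    ∃ a ∈ P, ∃ b ∈ W.erase x, b ∉ P ∧ H.Adj a b ∧ s(a, b) ≠ e := by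
  classical
  have hq : ∃ q ∈ W.erase x, q ∉ P := by
    by_contra hcon
    push Not at hcon
    exact hPW (Finset.Subset.antisymm hP (fun q hq => hcon q hq))
  have hcard : P.card + ((W.erase x) \ P).card = (W.erase x).card := by
    rw [add_comm]
    exact Finset.card_sdiff_add_card_eq_card hP
  have h4 := h.1
  have h3 : W.card - 1 ≤ (W.erase x).card := Finset.pred_card_le_card_erase
  have key : ∀ z, (∀ a ∈ P, ∀ b ∈ W.erase x, b ∉ P → s(a, b) = e → a = z ∨ b = z) →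
      (∃ p ∈ P, p ≠ z) → (∃ q ∈ W.erase x, q ∉ P ∧ q ≠ z) →
      ∃ a ∈ P, ∃ b ∈ W.erase x, b ∉ P ∧ H.Adj a b ∧ s(a, b) ≠ e := by
    intro z hz hp hq
    obtain ⟨p, hpP, hpz⟩ := hp
    obtain ⟨q, hqW, hqP, hqz⟩ := hq
    obtain ⟨a, haS, haP, b, hbS, hbP, hab⟩ := crossS (P := P) (h.2 x z)
      ⟨p, Finset.mem_erase.mpr ⟨hpz, hP hpP⟩, hpP⟩ ⟨q, Finset.mem_erase.mpr ⟨hqz, hqW⟩, hqP⟩
    have ha := Finset.mem_erase.mp haS
    have hb := Finset.mem_erase.mp hbS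
    refine ⟨a, haP, b, hb.2, hbP, hab, fun he => ?_⟩
    rcases hz a haP b hb.2 hbP he with h | h
    · exact ha.1 h
    · exact hb.1 h
  rcases Nat.lt_or_ge 1 P.card with hP2 | hP2
  · obtain ⟨z, hz, hze⟩ := endP hne e
    obtain ⟨q, hqW, hqP⟩ := hq
    exact key z (fun a ha b _ hb' he => Or.inl (hze a ha b hb' he)) (Finset.exists_mem_ne hP2 z)
      ⟨q, hqW, hqP, fun h => hqP (h ▸ hz)⟩
  · have hQ2 : 1 < ((W.erase x) \ P).card := by omega
    obtain ⟨z, hzW, hz, hze⟩ := endQ hq e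
    obtain ⟨q, hq', hqz⟩ := Finset.exists_mem_ne hQ2 z
    obtain ⟨p, hp⟩ := hne
    exact key z (fun a ha b hb hb' he => Or.inr (hze a ha b hb hb' he)) ⟨p, hp, fun h => hz (h ▸ hp)⟩
      ⟨q, (Finset.mem_sdiff.mp hq').1, (Finset.mem_sdiff.mp hq').2, hqz⟩

theorem Net.cross {s t : ℕ} {U : Finset ℕ} {G : Gr} (h : Net s t U G) (hU : U.Nonempty)
    {P : Finset ℕ} (hs : s ∈ P) (ht : t ∉ P) :
    ∃ a ∈ St s t U, a ∈ P ∧ ∃ b ∈ St s t U, b ∉ P ∧ G.Adj a b ∧ s(a, b) ≠ s(s, t) := by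
  obtain ⟨u, hu⟩ := hU
  have hus : u ≠ s := fun e => h.hs (e ▸ hu)
  have hut : u ≠ t := fun e => h.ht (e ▸ hu)
  have hsW : s ∈ St s t U := by simp [St]
  have htW : t ∈ St s t U := by simp [St]
  have huW : u ∈ St s t U := by simp [St, hu]
  by_cases hup : u ∈ P
  · obtain ⟨a, haS, haP, b, hbS, hbP, hab⟩ := crossS (P := P) (h.blk.2.2 s hsW)
      ⟨u, Finset.mem_erase.mpr ⟨hus, huW⟩, hup⟩ ⟨t, Finset.mem_erase.mpr ⟨h.ne.symm, htW⟩, ht⟩
    have ha := Finset.mem_erase.mp haS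
    have hb := Finset.mem_erase.mp hbS
    refine ⟨a, ha.2, haP, b, hb.2, hbP, hab, fun he => ?_⟩
    rcases Sym2.eq_iff.mp he with h' | h'
    · exact ha.1 h'.1
    · exact hb.1 h'.2
  · obtain ⟨a, haS, haP, b, hbS, hbP, hab⟩ := crossS (P := P) (h.blk.2.2 t htW)
      ⟨s, Finset.mem_erase.mpr ⟨h.ne, hsW⟩, hs⟩ ⟨u, Finset.mem_erase.mpr ⟨hut, huW⟩, hup⟩
    have ha := Finset.mem_erase.mp haS
    have hb := Finset.mem_erase.mp hbS
    refine ⟨a, ha.2, haP, b, hb.2, hbP, hab, fun he => ?_⟩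
    rcases Sym2.eq_iff.mp he with h' | h'
    · exact hb.1 h'.2
    · exact ha.1 h'.1

end K5
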