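import Pool.Agent.Lib.K5.DUp
import Pool.Agent.Lib.K5.ExpF

/-!
# K5.DBwd: at least three branches at `{0, 1, v}` give a rooted graph

`X = tri v`, `v ∈ U`, `G'` a graph all of whose components on `U.erase v` are branches at `X` (`AllK`), at least three components, `F0 ⊆ {s(0, v), s(1, v)}`, `G = gl F0 G'`.
1. `bwd_code`: let `C` be a component of `G'` in `U.erase v`, `J = U.erase v \ C`, `T0 = rst G' (X ∪ J)`. `Branch X C (rst G' (X ∪ C))` (`AllK`) gives `Rtd X C (rst G' (X ∪ C) ⊔ clq X)`, and `ex3` a code `c1` of this graph with root `X`. `TStr X J T0`: `card` (`v ≠ 0, 1`), `disj`, `on`, `noX` clear; the components of `T0` in `J` are the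
components `K ≠ C` of `G'` in `U.erase v` (`G'` and `T0` agree on `J`; `J` is closed in `U.erase v` because `C` is a component: `IsComp.of_closed`, `IsComp.sub_closed`, `IsComp.congr`); there are at least two of them, so `J` is nonempty and not connected in `T0` (`IsComp.eq_of_conn`: a component of a connected set is the whole set);
`branch`: `rst T0 (X ∪ K) = rst G' (X ∪ K)` for `K ⊆ J`. Let `c = c1.up v J T0 F0`. `up_valid` (`insert v (C ∪ J) = U`). `up_comp`: `G'.Adj a b ↔ T0.Adj a b ∨ ((c1.comp X).Adj a b ∧ ¬ (a ∈ X ∧ b ∈ X))`: an edge of `G'` is in `X ∪ U.erase v`, not inside `X` (`AllK`); if one end is in `C`, the other is in `X ∪ C` (`C` is a component), so it is an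
edge of `rst G' (X ∪ C)`; otherwise both ends are in `X ∪ J`. Conversely clear. So `c.comp {0, 1} = gl F0 G'`, and `up_mem`.
2. `bwd`: `Rtd {0, 1} U G` by `Code3.Valid.rtd`; `v ∈ CG G U` by `Code3.Valid.comp_shr` (`tri v ∈ c.M`; a component `C` exists since there are at least three parts).
3. `tg_gl`: `tg (gl F0 G') X (U.erase v) = G'`: an edge of `gl F0 G'` that is not inside `X` is an edge of `G'` (`0, 1, v ∈ X`), and an edge of `G'` is inside `X ∪ U.erase v`, not inside `X`.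
4. `edge_gl`: `(gl F0 G').edgeSet ∩ {s(0, v), s(1, v)} = F0`: `G'` has no edges inside `X`; `s(0, v)`, `s(1, v)` are not inside `{0, 1}`.
-/

namespace K5

open Finset

variable {U C : Finset ℕ} {G' : Gr} {v : ℕ} {F0 : Set (Sym2 ℕ)}

namespace DBwdAux

theorem tri_mem {v a : ℕ} : a ∈ tri v ↔ a = 0 ∨ a = 1 ∨ a = v := by
  simp [tri]

theorem ne01 (hd : Disjoint {0, 1} U) (hv : v ∈ U) : v ≠ 0 ∧ v ≠ 1 := by
  constructor
  · rintro rfl
    exact Finset.disjoint_left.1 hd (by simp : (0 : ℕ) ∈ ({0, 1} : Finset ℕ)) hv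
  · rintro rfl
    exact Finset.disjoint_left.1 hd (by simp : (1 : ℕ) ∈ ({0, 1} : Finset ℕ)) hv

/-- `J` is closed in `U.erase v`. -/
theorem J_closed {S : Finset ℕ} (hC : IsComp G' S C) :
    ∀ a ∈ S \ C, ∀ b ∈ S, b ∉ S \ C → ¬ G'.Adj a b := by
  intro a ha b hb hbn hab
  have hbC : b ∈ C := by
    by_contra hbC
    exact hbn (Finset.mem_sdiff.2 ⟨hb, hbC⟩)
  exact hC.2.2 b hbC a (Finset.mem_sdiff.1 ha).1 (Finset.mem_sdiff.1 ha).2 hab.symm

theorem tstr {X S : Finset ℕ} (h : AllK X (Branch X) S G')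
    (h3 : 3 ≤ (compPart G' S).parts.card) (hC : IsComp G' S C) :
    TStr X (S \ C) (rst G' (X ∪ (S \ C))) := by
  have hcard : X.card = 3 := (h.2.2.2 C hC).card
  have hcong : ∀ a ∈ S \ C, ∀ b ∈ S \ C,
      (G'.Adj a b ↔ (rst G' (X ∪ (S \ C))).Adj a b) := by
    intro a ha b hb
    exact ⟨fun hab => ⟨hab, Finset.mem_union_right _ ha, Finset.mem_union_right _ hb⟩,
      fun hab => hab.1⟩
  have hCp : C ∈ (compPart G' S).parts := mem_compPart.2 hC
  have h2 : 1 < ((compPart G' S).parts.erase C).card := by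
    rw [Finset.card_erase_of_mem hCp]
    omega
  obtain ⟨K1, hK1, K2, hK2, hK⟩ := Finset.one_lt_card.1 h2
  have key : ∀ K ∈ (compPart G' S).parts.erase C, IsComp G' (S \ C) K := by
    intro K hK
    obtain ⟨hKC, hKp⟩ := Finset.mem_erase.1 hK
    have hKc : IsComp G' S K := mem_compPart.1 hKp
    refine hKc.sub_closed (fun a ha => Finset.mem_sdiff.2 ⟨hKc.1 ha, fun haC => ?_⟩)
      Finset.sdiff_subset
    exact hKC (hKc.xeq_of_mem hC ha haC)
  refine ⟨hcard, h.1.mono_right Finset.sdiff_subset, fun a b hab => hab.2.1,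
    fun a ha b hb hab => h.2.2.1 a ha b hb hab.1, ?_, ?_, ?_⟩
  · obtain ⟨w, hw⟩ := (key K1 hK1).2.1.1
    exact ⟨w, (key K1 hK1).1 hw⟩
  · intro hc
    have hc' : P512.Conn G' (S \ C) := (conn_congr hcong).2 hc
    exact hK (((key K1 hK1).eq_of_conn hc').trans ((key K2 hK2).eq_of_conn hc').symm)
  · intro K hK
    have hK1 : IsComp G' (S \ C) K := IsComp.congr (fun a ha b hb => (hcong a ha b hb).symm) hK
    have hK2 : IsComp G' S K := IsComp.of_closed Finset.sdiff_subset (J_closed hC) hK1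
    have e : rst (rst G' (X ∪ (S \ C))) (X ∪ K) = rst G' (X ∪ K) := by
      ext a b
      constructor
      · intro hab
        exact ⟨hab.1.1, hab.2⟩
      · intro hab
        exact ⟨⟨hab.1, Finset.union_subset_union_right hK1.1 hab.2.1,
          Finset.union_subset_union_right hK1.1 hab.2.2⟩, hab.2⟩
    rw [e]
    exact h.2.2.2 K hK2

theorem adj_iff {X S : Finset ℕ} (h : AllK X (Branch X) S G') (hC : IsComp G' S C) (a b : ℕ) :
    G'.Adj a b ↔ (rst G' (X ∪ (S \ C))).Adj a b ∨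
      ((rst G' (X ∪ C) ⊔ clq X).Adj a b ∧ ¬ (a ∈ X ∧ b ∈ X)) := by
  constructor
  · intro hab
    have ha : a ∈ X ∪ S := h.2.1 a b hab
    have hb : b ∈ X ∪ S := h.2.1 b a hab.symm
    have hn : ¬ (a ∈ X ∧ b ∈ X) := fun hx => h.2.2.1 a hx.1 b hx.2 hab
    have key : ∀ a b, G'.Adj a b → a ∈ C → b ∈ X ∪ S → b ∈ X ∪ C := by
      intro a b hab haC hb
      rcases Finset.mem_union.1 hb with hb | hb
      · exact Finset.mem_union_left _ hb
      · refine Finset.mem_union_right _ ?_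
        by_contra hbC
        exact hC.2.2 a haC b hb hbC hab
    by_cases haC : a ∈ C
    · exact Or.inr ⟨Or.inl ⟨hab, Finset.mem_union_right _ haC, key a b hab haC hb⟩, hn⟩
    · by_cases hbC : b ∈ C
      · exact Or.inr ⟨Or.inl ⟨hab, key b a hab.symm hbC ha, Finset.mem_union_right _ hbC⟩, hn⟩
      · refine Or.inl ⟨hab, ?_, ?_⟩
        · rcases Finset.mem_union.1 ha with ha | ha
          · exact Finset.mem_union_left _ ha
          · exact Finset.mem_union_right _ (Finset.mem_sdiff.2 ⟨ha, haC⟩)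
        · rcases Finset.mem_union.1 hb with hb | hb
          · exact Finset.mem_union_left _ hb
          · exact Finset.mem_union_right _ (Finset.mem_sdiff.2 ⟨hb, hbC⟩)
  · rintro (hab | ⟨hab | hab, hn⟩)
    · exact hab.1
    · exact hab.1
    · exact absurd hab.2 hn

end DBwdAux

theorem bwd_code (hw : Wag) (hd : Disjoint {0, 1} U) (hv : v ∈ U)
    (h : AllK (tri v) (Branch (tri v)) (U.erase v) G')
    (h3 : 3 ≤ (compPart G' (U.erase v)).parts.card) (hF : F0 ⊆ {s(0, v), s(1, v)})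
    (hC : IsComp G' (U.erase v) C) :
    ∃ c : Code3, c.Valid {0, 1} U ∧ c.comp {0, 1} = gl F0 G' ∧ tri v ∈ c.M ∧
      c.V (tri v) = U.erase v \ C := by
  obtain ⟨hv0, hv1⟩ := DBwdAux.ne01 hd hv
  have hbr := h.2.2.2 C hC
  obtain ⟨c1, hc1, hcomp⟩ := ex3 hw hbr.rtd hbr.card
  have hT := DBwdAux.tstr h h3 hC
  have hCJ : Disjoint C (U.erase v \ C) := Finset.disjoint_sdiff
  have hU : insert v (C ∪ (U.erase v \ C)) = U := by
    rw [Finset.union_sdiff_of_subset hC.1, Finset.insert_erase hv]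
  have hval := hc1.up_valid hv0 hv1 hT hCJ hF
  rw [hU] at hval
  have hadj : ∀ a b, G'.Adj a b ↔ (rst G' (tri v ∪ (U.erase v \ C))).Adj a b ∨
      ((c1.comp (tri v)).Adj a b ∧ ¬ (a ∈ tri v ∧ b ∈ tri v)) := by
    intro a b
    rw [hcomp]
    exact DBwdAux.adj_iff h hC a b
  have hmem := Code3.up_mem (v := v) (J := U.erase v \ C)
    (T0 := rst G' (tri v ∪ (U.erase v \ C))) (F0 := F0) c1
  exact ⟨_, hval, hc1.up_comp hv0 hv1 hT hCJ hF hadj, hmem.1, hmem.2⟩

theorem bwd (hw : Wag) (hd : Disjoint {0, 1} U) (hv : v ∈ U)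
    (h : AllK (tri v) (Branch (tri v)) (U.erase v) G')
    (h3 : 3 ≤ (compPart G' (U.erase v)).parts.card) (hF : F0 ⊆ {s(0, v), s(1, v)}) :
    Rtd {0, 1} U (gl F0 G') ∧ v ∈ CG (gl F0 G') U := by
  classical
  obtain ⟨C, hC⟩ := Finset.card_pos.1 (lt_of_lt_of_le (by norm_num : 0 < 3) h3)
  obtain ⟨c, hc, he, hM, -⟩ := bwd_code hw hd hv h h3 hF (mem_compPart.1 hC)
  rw [← he]
  refine ⟨hc.rtd, ?_⟩
  unfold CG
  rw [Finset.mem_filter]
  exact ⟨hv, hc.comp_shr hM⟩

theorem tg_gl (hd : Disjoint {0, 1} U) (hv : v ∈ U)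
    (h : AllK (tri v) (Branch (tri v)) (U.erase v) G') (hF : F0 ⊆ {s(0, v), s(1, v)}) :
    tg (gl F0 G') (tri v) (U.erase v) = G' := by
  have _hd := hd
  have _hv := hv
  ext a b
  constructor
  · rintro ⟨⟨-, h1 | h1 | h1⟩, -, -, hn⟩
    · exfalso
      apply hn
      simp only [Finset.mem_insert, Finset.mem_singleton] at h1
      rw [DBwdAux.tri_mem, DBwdAux.tri_mem]
      tauto
    · exfalso
      apply hn
      rw [DBwdAux.tri_mem, DBwdAux.tri_mem]
      rcases hF h1 with e | e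
      · rw [Sym2.eq_iff] at e
        rcases e with ⟨rfl, rfl⟩ | ⟨rfl, rfl⟩ <;> simp
      · rw [Set.mem_singleton_iff, Sym2.eq_iff] at e
        rcases e with ⟨rfl, rfl⟩ | ⟨rfl, rfl⟩ <;> simp
    · exact h1
  · intro hab
    exact ⟨⟨hab.ne, Or.inr (Or.inr hab)⟩, h.2.1 a b hab, h.2.1 b a hab.symm,
      fun hx => h.2.2.1 a hx.1 b hx.2 hab⟩

theorem edge_gl (hd : Disjoint {0, 1} U) (hv : v ∈ U)
    (h : AllK (tri v) (Branch (tri v)) (U.erase v) G') (hF : F0 ⊆ {s(0, v), s(1, v)}) :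
    (gl F0 G').edgeSet ∩ {s(0, v), s(1, v)} = F0 := by
  obtain ⟨hv0, hv1⟩ := DBwdAux.ne01 hd hv
  ext e
  induction e with
  | h a b =>
    have key : s(a, b) ∈ ({s(0, v), s(1, v)} : Set (Sym2 ℕ)) →
        a ≠ b ∧ a ∈ tri v ∧ b ∈ tri v ∧
          ¬ (a ∈ ({0, 1} : Finset ℕ) ∧ b ∈ ({0, 1} : Finset ℕ)) := by
      intro he
      rw [DBwdAux.tri_mem, DBwdAux.tri_mem]
      simp only [Finset.mem_insert, Finset.mem_singleton]
      rcases he with e | e
      · rw [Sym2.eq_iff] at e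
        rcases e with ⟨rfl, rfl⟩ | ⟨rfl, rfl⟩ <;> refine ⟨by omega, by omega, by omega, by omega⟩
      · rw [Set.mem_singleton_iff, Sym2.eq_iff] at e
        rcases e with ⟨rfl, rfl⟩ | ⟨rfl, rfl⟩ <;> refine ⟨by omega, by omega, by omega, by omega⟩
    constructor
    · rintro ⟨h1, h2⟩
      obtain ⟨-, k2, k3, k4⟩ := key h2
      have h1' : (gl F0 G').Adj a b := h1
      rcases h1'.2 with h3 | h3 | h3
      · exact absurd h3 k4
      · exact h3
      · exact absurd h3 (h.2.2.1 a k2 b k3)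
    · intro he
      have h2 := hF he
      refine ⟨?_, h2⟩
      show (gl F0 G').Adj a b
      exact ⟨(key h2).1, Or.inr (Or.inl he)⟩

end K5
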