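import Pool.Agent.Lib.K5.XComp

/-!
# K5.XBase: graphs without shredders; choice of the side

1. `code_of_mac`: the code `Y = U`, `H = G`, `M = ∅`, `V = fun _ => ∅`, `T = fun _ => ⊥`, `F = ∅`. The graph of the code is `G`: no edge is covered by `∅`; the root clique is in `G`.
2. `IsV8.no_triangle`: in `ZMod 8` there are no `i, j, k` with each two at distance `1`, `-1` or `4` (`decide`); `f` is injective. `j = i + 4` is symmetric, `i + 4 + 4 = i`.
3. `IsV8.card_ne`: a clique `R` of `G` with `|R| = 3` gives a triangle (`Finset.card_eq_three`).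
4. `exists_side`: if `G` has a shredder on `W` and `R ⊆ W` is a clique of `G` there are a shredder `X` and a component `C` of `G` in `W \ X` with `R ⊆ X ∪ C` and `|C|` minimal: existence: if `R ⊆ X` take any component (`Shr` gives one); otherwise take `r ∈ R \ X`, its
   component `C`, and every other `r' ∈ R \ X` is joined to `r` so it is in `C`. Minimum: `Nat.find` on `∃ X C, ... ∧ C.card = n`.
-/

namespace K5

open Finset

theorem code_of_mac {R U : Finset ℕ} {G : Gr} (h : Rtd R U G) (hm : Mac G (R ∪ U)) :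
    ∃ c : Code3, c.Valid R U ∧ c.comp R = G := by
  refine ⟨⟨U, G, ∅, fun _ => ∅, fun _ => ⊥, ∅⟩, ?_, ?_⟩
  · exact {
      disj := h.disj
      sub := Finset.Subset.refl U
      core := ⟨h, hm⟩
      mark := fun X hX => absurd hX (Finset.notMem_empty X)
      V_sub := fun X hX => absurd hX (Finset.notMem_empty X)
      V_disj := fun X hX => absurd hX (Finset.notMem_empty X)
      V_cover := fun w hw => by
        have hw' := Finset.mem_sdiff.mp hw
        exact absurd hw'.1 hw'.2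
      T_str := fun X hX => absurd hX (Finset.notMem_empty X)
      V_out := fun _ _ => rfl
      T_out := fun _ _ => rfl
      F_sub := fun e he => absurd he (Set.notMem_empty e) }
  · ext a b
    show (a ≠ b ∧ ((a ∈ R ∧ b ∈ R) ∨ (G.Adj a b ∧ ¬ Cov ∅ s(a, b)) ∨
      s(a, b) ∈ (∅ : Set (Sym2 ℕ)) ∨ ∃ _ : Finset ℕ, (⊥ : Gr).Adj a b)) ↔ G.Adj a b
    constructor
    · rintro ⟨hne, h1 | h1 | h1 | ⟨_, h1⟩⟩
      · exact h.clique ⟨hne, h1⟩
      · exact h1.1
      · exact absurd h1 (Set.notMem_empty _)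
      · exact absurd h1 id
    · intro hab
      refine ⟨hab.ne, Or.inr (Or.inl ⟨hab, ?_⟩)⟩
      rintro ⟨X, hX, _⟩
      exact Finset.notMem_empty X hX

theorem IsV8.no_triangle {G : Gr} {W : Finset ℕ} (h : IsV8 G W) {a b c : ℕ} (hab : G.Adj a b)
    (hbc : G.Adj b c) (hac : G.Adj a c) : False := by
  obtain ⟨f, hf, -, hadj⟩ := h
  obtain ⟨i, j, rfl, rfl, h1⟩ := (hadj a b).mp hab
  obtain ⟨j', k, e1, rfl, h2⟩ := (hadj (f j) c).mp hbc
  obtain ⟨i', k', e2, e3, h3⟩ := (hadj (f i) (f k)).mp hac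
  have e1' := hf e1
  have e2' := hf e2
  have e3' := hf e3
  subst e1' e2' e3'
  have key : ∀ i j k : ZMod 8, (j = i + 1 ∨ i = j + 1 ∨ j = i + 4) →
      (k = j + 1 ∨ j = k + 1 ∨ k = j + 4) → (k = i + 1 ∨ i = k + 1 ∨ k = i + 4) → False := by
    decide
  exact key _ _ _ h1 h2 h3

theorem IsV8.no_clq {G : Gr} {W R : Finset ℕ} (h : IsV8 G W) (hR : clq R ≤ G)
    (hc : R.card = 3) : False := by
  obtain ⟨a, b, c, hab, hac, hbc, rfl⟩ := Finset.card_eq_three.mp hc
  exact h.no_triangle (hR ⟨hab, by simp, by simp⟩) (hR ⟨hbc, by simp, by simp⟩)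
    (hR ⟨hac, by simp, by simp⟩)

theorem exists_side {G : Gr} {W R : Finset ℕ} (hR : clq R ≤ G) (hRW : R ⊆ W)
    (hX : ∃ X, Shr G W X) :
    ∃ X C, Shr G W X ∧ IsComp G (W \ X) C ∧ R ⊆ X ∪ C ∧
      ∀ X' C', Shr G W X' → IsComp G (W \ X') C' → R ⊆ X' ∪ C' → C.card ≤ C'.card := by
  classical
  have hex : ∃ n, ∃ X C, Shr G W X ∧ IsComp G (W \ X) C ∧ R ⊆ X ∪ C ∧ C.card = n := by
    obtain ⟨X, hX⟩ := hX
    by_cases hRX : R ⊆ X
    · obtain ⟨C1, _, _, h1, _⟩ := hX.2.2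
      exact ⟨_, X, C1, hX, h1, hRX.trans Finset.subset_union_left, rfl⟩
    · obtain ⟨r, hr, hrX⟩ := Finset.not_subset.mp hRX
      obtain ⟨C, hC, hrC⟩ := exists_xcomp (G := G) (U := W \ X) (v := r)
        (Finset.mem_sdiff.mpr ⟨hRW hr, hrX⟩)
      refine ⟨_, X, C, hX, hC, fun r' hr' => ?_, rfl⟩
      rw [Finset.mem_union]
      by_contra hcon
      rw [not_or] at hcon
      have hne : r ≠ r' := fun h => hcon.2 (h ▸ hrC)
      exact hC.2.2 r hrC r' (Finset.mem_sdiff.mpr ⟨hRW hr', hcon.1⟩) hcon.2 (hR ⟨hne, hr, hr'⟩)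
  obtain ⟨X, C, h1, h2, h3, h4⟩ := Nat.find_spec hex
  refine ⟨X, C, h1, h2, h3, fun X' C' h1' h2' h3' => ?_⟩
  rw [h4]
  exact Nat.find_min' hex ⟨X', C', h1', h2', h3', rfl⟩

end K5
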