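import Pool.Agent.Lib.K5.XTor

/-!
# K5.XSep: shredders give separations; the structure at a shredder

1. `Shr.sep`: `W = X ∪ C ∪ J` with `J = (W \ X) \ C`. `J` is not connected: of the three disjoint components `C1, C2, C3` of the definition of `Shr` at most one is `C` (`IsComp.xeq_of_mem`), so two of them, `K1, K2`, are different from `C` and so
   disjoint from `C`, contained in `J`; `not_conn_of` with `P = K1` (no edge of `G` from `K1` to `W \ X \ K1`; `K1 ≠ J` because of `K2`). `J` is nonempty.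
2. `Sep.swap`: let `K` be a component of `G` in `J`. Then `X` separates `K` from `(C ∪ J) \ K`: `X ∪ K ∪ ((C ∪ J) \ K) = X ∪ C ∪ J`; no edge from `K` to `(C ∪ J) \ K`: `no` and `IsComp`; `(C ∪ J) \ K` is not connected: `not_conn_of` with `P = C`
   (nonempty; `J \ K` is not empty, else `J = K` would be connected).
3. `Sep.shr`: `X` is a shredder of `G` on `X ∪ C ∪ J`: the components `C` and two disjoint components of `J` (`exists_xcomp`, `exists_other_comp`, `IsComp.of_closed`).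
4. `Sep.tstr`: `TStr X J (tg G X J)`. `nconn`: `tg G X J` and `G` agree on `J`, `conn_congr`. Branches: a component `K` of `tg G X J` in `J` is a component of `G` in `J` (`IsComp.congr`), `rst (tg G X J) (X ∪ K) ⊔ clq X = rst G (X ∪ K) ⊔ clq X` (extensionality), and
   `Rtd X K` of it is `Sep.rtd_X` for `Sep.swap`.
-/

namespace K5

open Finset

variable {G : Gr} {W X C J : Finset ℕ}

theorem Shr.sep (hon : On G W) (h3 : Three G W) (hf : Free G) (hX : Shr G W X)
    (hC : IsComp G (W \ X) C) : Sep G X C ((W \ X) \ C) ∧ X ∪ C ∪ ((W \ X) \ C) = W := by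
  obtain ⟨hXW, hcard, C1, C2, C3, h1, h2, h3', d12, d13, d23⟩ := hX
  have key : ∀ K, IsComp G (W \ X) K → K = C ∨ Disjoint C K := by
    intro K hK
    by_cases hd : Disjoint C K
    · exact Or.inr hd
    · rw [Finset.not_disjoint_iff] at hd
      obtain ⟨v, hv, hv'⟩ := hd
      exact Or.inl (IsComp.xeq_of_mem hK hC hv' hv)
  obtain ⟨K1, K2, hK1, hK2, d, dC1, dC2⟩ : ∃ K1 K2, IsComp G (W \ X) K1 ∧
      IsComp G (W \ X) K2 ∧ Disjoint K1 K2 ∧ Disjoint C K1 ∧ Disjoint C K2 := by
    rcases key C1 h1 with e | e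
    · exact ⟨C2, C3, h2, h3', d23, e ▸ d12, e ▸ d13⟩
    · rcases key C2 h2 with e' | e'
      · exact ⟨C1, C3, h1, h3', d13, e, e' ▸ d23⟩
      · exact ⟨C1, C2, h1, h2, d12, e, e'⟩
  have sub : ∀ K, IsComp G (W \ X) K → Disjoint C K → K ⊆ (W \ X) \ C := by
    intro K hK hd v hv
    exact Finset.mem_sdiff.2 ⟨hK.1 hv, fun hv' => Finset.disjoint_left.1 hd hv' hv⟩
  have s1 := sub K1 hK1 dC1
  have s2 := sub K2 hK2 dC2
  obtain ⟨v2, hv2⟩ := hK2.2.1.1
  have hun : X ∪ C ∪ ((W \ X) \ C) = W := by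
    ext v
    simp only [Finset.mem_union, Finset.mem_sdiff]
    constructor
    · rintro ((hv | hv) | hv)
      · exact hXW hv
      · exact (Finset.mem_sdiff.1 (hC.1 hv)).1
      · exact hv.1.1
    · intro hv
      by_cases hx : v ∈ X
      · exact Or.inl (Or.inl hx)
      · by_cases hc : v ∈ C
        · exact Or.inl (Or.inr hc)
        · exact Or.inr ⟨⟨hv, hx⟩, hc⟩
  refine ⟨⟨hcard, ?_, ?_, Finset.disjoint_sdiff, ?_, ?_, hf, hC.2.1, ?_, ⟨v2, s2 hv2⟩, ?_⟩, hun⟩
  · exact Finset.disjoint_left.2 fun v hv hv' => (Finset.mem_sdiff.1 (hC.1 hv')).2 hv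
  · exact Finset.disjoint_left.2 fun v hv hv' =>
      (Finset.mem_sdiff.1 (Finset.mem_sdiff.1 hv').1).2 hv
  · rw [hun]; exact hon
  · rw [hun]; exact h3
  · intro a ha b hb
    obtain ⟨hb1, hb2⟩ := Finset.mem_sdiff.1 hb
    exact hC.2.2 a ha b hb1 hb2
  · refine not_conn_of s1 hK1.2.1.1 (fun e => ?_) ?_
    · have h5 : v2 ∈ K1 := by rw [e]; exact s2 hv2
      exact Finset.disjoint_left.1 d h5 hv2
    · intro a ha b hb hb'
      exact hK1.2.2 a ha b (Finset.mem_sdiff.1 hb).1 hb'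

theorem Sep.swap (h : Sep G X C J) {K : Finset ℕ} (hK : IsComp G J K) :
    Sep G X K ((C ∪ J) \ K) := by
  have hKJ := hK.1
  obtain ⟨c, hc⟩ := h.conn.1
  have hun : X ∪ K ∪ ((C ∪ J) \ K) = X ∪ C ∪ J := by
    ext v
    simp only [Finset.mem_union, Finset.mem_sdiff]
    constructor
    · rintro ((hv | hv) | hv)
      · exact Or.inl (Or.inl hv)
      · exact Or.inr (hKJ hv)
      · rcases hv.1 with hv | hv
        · exact Or.inl (Or.inr hv)
        · exact Or.inr hv
    · intro hv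
      by_cases hk : v ∈ K
      · exact Or.inl (Or.inr hk)
      · rcases hv with (hv | hv) | hv
        · exact Or.inl (Or.inl hv)
        · exact Or.inr ⟨Or.inl hv, hk⟩
        · exact Or.inr ⟨Or.inr hv, hk⟩
  have hCK : ∀ v ∈ C, v ∉ K := fun v hv hv' => Finset.disjoint_left.1 h.dCJ hv (hKJ hv')
  refine ⟨h.card, ?_, ?_, Finset.disjoint_sdiff, ?_, ?_, h.free, hK.2.1, ?_, ⟨c, ?_⟩, ?_⟩
  · exact h.dXJ.mono_right hKJ
  · refine Finset.disjoint_left.2 fun v hv hv' => ?_
    rcases Finset.mem_union.1 (Finset.mem_sdiff.1 hv').1 with h5 | h5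
    · exact Finset.disjoint_left.1 h.dXC hv h5
    · exact Finset.disjoint_left.1 h.dXJ hv h5
  · rw [hun]; exact h.on
  · rw [hun]; exact h.three
  · intro a ha b hb
    obtain ⟨hb1, hb2⟩ := Finset.mem_sdiff.1 hb
    rcases Finset.mem_union.1 hb1 with h5 | h5
    · exact fun hab => h.no b h5 a (hKJ ha) hab.symm
    · exact hK.2.2 a ha b h5 hb2
  · exact Finset.mem_sdiff.2 ⟨Finset.mem_union_left _ hc, hCK c hc⟩
  · refine not_conn_of (P := C) (fun v hv => Finset.mem_sdiff.2
      ⟨Finset.mem_union_left _ hv, hCK v hv⟩) h.conn.1 (fun e => ?_) ?_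
    · apply h.nconn
      have e2 : K = J := by
        refine Finset.Subset.antisymm hKJ (fun v hv => ?_)
        by_contra hvK
        have h6 : v ∈ (C ∪ J) \ K := Finset.mem_sdiff.2 ⟨Finset.mem_union_right _ hv, hvK⟩
        rw [← e] at h6
        exact Finset.disjoint_left.1 h.dCJ h6 hv
      rw [← e2]
      exact hK.2.1
    · intro a ha b hb hb'
      rcases Finset.mem_union.1 (Finset.mem_sdiff.1 hb).1 with h5 | h5
      · exact absurd h5 hb'
      · exact h.no a ha b h5

theorem Sep.comp_C (h : Sep G X C J) : IsComp G ((X ∪ C ∪ J) \ X) C := by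
  refine ⟨fun v hv => ?_, h.conn, fun a ha b hb hb' => ?_⟩
  · exact Finset.mem_sdiff.2 ⟨Finset.mem_union_left _ (Finset.mem_union_right _ hv),
      fun hx => Finset.disjoint_left.1 h.dXC hx hv⟩
  · obtain ⟨h1, h2⟩ := Finset.mem_sdiff.1 hb
    rcases Finset.mem_union.1 h1 with h3 | h3
    · rcases Finset.mem_union.1 h3 with h4 | h4
      · exact absurd h4 h2
      · exact absurd h4 hb'
    · exact h.no a ha b h3

theorem Sep.comp_J (h : Sep G X C J) {K : Finset ℕ} (hK : IsComp G J K) :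
    IsComp G ((X ∪ C ∪ J) \ X) K := by
  refine IsComp.of_closed (J := J) (fun v hv => ?_) (fun a ha b hb hb' => ?_) hK
  · exact Finset.mem_sdiff.2 ⟨Finset.mem_union_right _ hv,
      fun hx => Finset.disjoint_left.1 h.dXJ hx hv⟩
  · obtain ⟨h1, h2⟩ := Finset.mem_sdiff.1 hb
    rcases Finset.mem_union.1 h1 with h3 | h3
    · rcases Finset.mem_union.1 h3 with h4 | h4
      · exact absurd h4 h2
      · exact fun hab => h.no b h4 a ha hab.symm
    · exact absurd h3 hb'

theorem Sep.shr (h : Sep G X C J) : Shr G (X ∪ C ∪ J) X := by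
  obtain ⟨j, hj⟩ := h.ne
  obtain ⟨K1, hK1, -⟩ := exists_xcomp (G := G) hj
  obtain ⟨K2, hK2, hd⟩ := exists_other_comp h.nconn hK1
  refine ⟨fun v hv => Finset.mem_union_left _ (Finset.mem_union_left _ hv), h.card, C, K1, K2,
    h.comp_C, h.comp_J hK1, h.comp_J hK2, ?_, ?_, hd⟩
  · exact h.dCJ.mono_right hK1.1
  · exact h.dCJ.mono_right hK2.1

theorem Sep.tstr (h : Sep G X C J) : TStr X J (tg G X J) := by
  have hJX : ∀ v ∈ J, v ∉ X := fun v hv hx => Finset.disjoint_left.1 h.dXJ hx hv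
  have hcong : ∀ a ∈ J, ∀ b ∈ J, (G.Adj a b ↔ (tg G X J).Adj a b) := by
    intro a ha b hb
    constructor
    · intro hab
      exact ⟨hab, Finset.mem_union_right _ ha, Finset.mem_union_right _ hb,
        fun hx => hJX a ha hx.1⟩
    · intro hab
      exact hab.1
  refine ⟨h.card, h.dXJ, fun a b hab => hab.2.1, fun a ha b hb hab => hab.2.2.2 ⟨ha, hb⟩, h.ne,
    fun hc => h.nconn ((conn_congr hcong).2 hc), fun K hK => ?_⟩
  have hK' : IsComp G J K := IsComp.congr (fun a ha b hb => (hcong a ha b hb).symm) hK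
  have e : rst (tg G X J) (X ∪ K) ⊔ clq X = rst G (X ∪ K) ⊔ clq X := by
    ext a b
    simp only [SimpleGraph.sup_adj]
    constructor
    · rintro (hab | hab)
      · exact Or.inl ⟨hab.1.1, hab.2⟩
      · exact Or.inr hab
    · rintro (hab | hab)
      · by_cases hX : a ∈ X ∧ b ∈ X
        · exact Or.inr ⟨hab.1.ne, hX⟩
        · refine Or.inl ⟨⟨hab.1, ?_, ?_, hX⟩, hab.2⟩
          · exact Finset.union_subset_union_right hK'.1 hab.2.1
          · exact Finset.union_subset_union_right hK'.1 hab.2.2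
      · exact Or.inr hab
  refine ⟨h.card, fun a ha b hb hab => hab.1.2.2.2 ⟨ha, hb⟩, ?_⟩
  rw [e]
  exact (h.swap hK').rtd_X

end K5
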