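import Pool.Agent.Lib.K5.XCode
import Pool.Agent.Lib.K5.XSep

/-!
# K5.XMin2: a root vertex inside a marked structure gives a smaller side (root edge)

`W = X ∪ C ∪ J`, `G1 = rst G (X ∪ C) ⊔ clq X = c1.comp X` (root triangle `X`, interior `C`), `X' ∈ c1.M`, `R ⊆ X ∪ C` a clique of `G`, `r ∈ R ∩ V X'` (`V = c1.V`). `V X' ⊆ C \ c1.Y`, `X' ⊆ X ∪ c1.Y ⊆ X ∪ C`, so `V X'` is disjoint from `X` and `J`.
(a) `G` and `G1` agree on edges with an end in `V X'`: such an edge of `G` has its other end in `X ∪ C` (`no`), and the end in `V X' ⊆ C` is not in `X`. `V X'` is closed in `W \ X'` (for `G`): `comp_V`.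
(b) Let `D` be the component of `G` in `V X'` with `r ∈ D`; `V X'` is not connected in `c1.T X'` (`TStr.nconn`), so not in `G` (`comp_V`: `c1.T X'` and `G1` and `G` agree on `V X'`), let `D2` be another component (`exists_other_comp`). Both are components of `G` in
`W \ X'` (`IsComp.of_closed`).
(c) `J` is nonempty; let `D3` be the component of `G` in `W \ X'` with a vertex of `J`; it is not contained in `V X'`, so disjoint from it (`closed_sub`), so `D, D2, D3` are disjoint: `X'` is a shredder.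
(d) `R ⊆ X' ∪ D`: a vertex `r' ≠ r` of `R` is joined to `r` in `G`; if `r' ∉ X'` it is in `D`, as `D` is a component in `W \ X'`.
(e) `D` and `D2` are disjoint nonempty subsets of `V X' ⊆ C`: `|D| < |C|`.
-/

namespace K5

open Finset

theorem Sep.min2 {G : Gr} {X C J R : Finset ℕ} {c1 : Code3} (h : Sep G X C J)
    (hR : clq R ≤ G) (hRC : R ⊆ X ∪ C) (h1 : c1.Valid X C)
    (hcomp : c1.comp X = rst G (X ∪ C) ⊔ clq X)
    {X' : Finset ℕ} (hX' : X' ∈ c1.M) {r : ℕ} (hr : r ∈ R) (hrV : r ∈ c1.V X') :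
    ∃ D, Shr G (X ∪ C ∪ J) X' ∧ IsComp G ((X ∪ C ∪ J) \ X') D ∧ R ⊆ X' ∪ D ∧
      D.card < C.card := by
  classical
  obtain ⟨V, hV⟩ : ∃ V, V = c1.V X' := ⟨_, rfl⟩
  obtain ⟨hm1, hm2, hm3⟩ := h1.mark_sub hX'
  rw [← hV] at hm2 hm3 hrV
  have hVC : V ⊆ C := fun x hx => by
    rw [hV] at hx
    exact (Finset.mem_sdiff.mp (h1.V_sub X' hX' hx)).1
  have hXC : X' ⊆ X ∪ C := fun x hx =>
    (Finset.union_subset_union_right h1.sub : X ∪ c1.Y ⊆ X ∪ C) (hm1 hx)
  have hVX : ∀ x ∈ V, x ∉ X := fun x hx hxX =>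
    Finset.disjoint_left.mp hm3 (Finset.mem_union_left _ hxX) hx
  have hcard : X'.card = 3 := (h1.mark X' hX').1.2.1
  -- edges at `V`
  have a1 : ∀ a ∈ V, ∀ b, G.Adj a b → (c1.comp X).Adj a b := by
    intro a ha b hab
    have hbW : b ∈ X ∪ C ∪ J := h.on b a hab.symm
    have haC := hVC ha
    have hb : b ∈ X ∪ C := by
      rcases Finset.mem_union.mp hbW with h2 | h2
      · exact h2
      · exact absurd hab (h.no a haC b h2)
    rw [hcomp]
    exact Or.inl ⟨hab, Finset.mem_union_right _ haC, hb⟩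
  have a2 : ∀ a ∈ V, ∀ b, (c1.comp X).Adj a b → G.Adj a b := by
    intro a ha b hab
    rw [hcomp] at hab
    rcases hab with h2 | h2
    · exact h2.1
    · exact absurd h2.2.1 (hVX a ha)
  have a3 : ∀ a ∈ V, ∀ b, G.Adj a b → (c1.T X').Adj a b ∧ b ∈ X' ∪ V := by
    intro a ha b hab
    have h2 := h1.comp_V hX' (a1 a ha b hab) (hV ▸ ha)
    rw [← hV] at h2
    exact h2
  have a4 : ∀ a ∈ V, ∀ b ∈ V, (c1.T X').Adj a b ↔ G.Adj a b := by
    intro a ha b _
    constructor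
    · intro h2
      exact a2 a ha b ⟨h2.ne, Or.inr (Or.inr (Or.inr ⟨X', h2⟩))⟩
    · exact fun h2 => (a3 a ha b h2).1
  have hnV : ¬ P512.Conn G V := by
    intro h2
    apply (h1.T_str X' hX').nconn
    rw [← hV]
    exact (conn_congr a4).mpr h2
  obtain ⟨D, hD, hrD⟩ := exists_xcomp (G := G) hrV
  obtain ⟨D2, hD2, hDD2⟩ := exists_other_comp hnV hD
  have hVW : V ⊆ (X ∪ C ∪ J) \ X' := fun x hx => by
    rw [Finset.mem_sdiff, Finset.mem_union, Finset.mem_union]
    exact ⟨Or.inl (Or.inr (hVC hx)), fun h2 => Finset.disjoint_left.mp hm2 h2 hx⟩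
  have hcl : ∀ a ∈ V, ∀ b ∈ (X ∪ C ∪ J) \ X', b ∉ V → ¬ G.Adj a b := by
    intro a ha b hb hbV hab
    rcases Finset.mem_union.mp (a3 a ha b hab).2 with h2 | h2
    · exact (Finset.mem_sdiff.mp hb).2 h2
    · exact hbV h2
  have hDW := IsComp.of_closed hVW hcl hD
  have hD2W := IsComp.of_closed hVW hcl hD2
  obtain ⟨j0, hj0⟩ := h.ne
  have hj0C : j0 ∉ C := fun h2 => Finset.disjoint_left.mp h.dCJ h2 hj0
  have hj0W : j0 ∈ (X ∪ C ∪ J) \ X' := by
    rw [Finset.mem_sdiff]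
    refine ⟨Finset.mem_union_right _ hj0, fun h2 => ?_⟩
    rcases Finset.mem_union.mp (hXC h2) with h3 | h3
    · exact Finset.disjoint_left.mp h.dXJ h3 hj0
    · exact hj0C h3
  obtain ⟨D3, hD3, hj0D⟩ := exists_xcomp (G := G) hj0W
  have hDV : D ⊆ V := hD.1
  have hD2V : D2 ⊆ V := hD2.1
  have e1 : Disjoint D D3 := by
    rw [Finset.disjoint_left]
    intro x hx hx3
    have h2 := IsComp.xeq_of_mem hDW hD3 hx hx3
    exact hj0C (hVC (hDV (h2 ▸ hj0D)))
  have e2 : Disjoint D2 D3 := by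
    rw [Finset.disjoint_left]
    intro x hx hx3
    have h2 := IsComp.xeq_of_mem hD2W hD3 hx hx3
    exact hj0C (hVC (hD2V (h2 ▸ hj0D)))
  refine ⟨D, ⟨fun x hx => Finset.mem_union_left _ (hXC hx), hcard, D, D2, D3, hDW, hD2W, hD3,
    hDD2, e1, e2⟩, hDW, fun x hx => ?_, ?_⟩
  · rw [Finset.mem_union]
    by_cases hxr : x = r
    · rw [hxr]
      exact Or.inr hrD
    · by_cases hxX : x ∈ X'
      · exact Or.inl hxX
      · right
        by_contra hxD
        have hadj : G.Adj r x := hR ⟨fun h2 => hxr h2.symm, hr, hx⟩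
        exact hDW.2.2 r hrD x (Finset.mem_sdiff.mpr ⟨Finset.mem_union_left _ (hRC hx), hxX⟩)
          hxD hadj
  · have h2 : (D ∪ D2).card ≤ C.card :=
      Finset.card_le_card (Finset.union_subset (hDV.trans hVC) (hD2V.trans hVC))
    rw [Finset.card_union_of_disjoint hDD2] at h2
    have h3 : 0 < D2.card := Finset.card_pos.mpr hD2.2.1.1
    omega

end K5
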