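import Pool.Agent.Lib.K5.XCode
import Pool.Agent.Lib.K5.XSep

/-!
# K5.XMin3: a vertex of the triple inside a marked structure gives a smaller side (root triangle)

`W = X ∪ C ∪ J`, `G1 = rst G (X ∪ C) ⊔ clq X = c1.comp R`, `X' ∈ c1.M`, `x ∈ X ∩ V X'` (`V = c1.V`). Let `D` be the component of `G1` in `V X'` with `x ∈ D`. As `X` is a clique of `G1` and edges of `G1` at `V X'` end in `X' ∪ V X'` (`comp_V`), `X ⊆ X' ∪ D`.
`V X'` is not connected in `c1.T X'`, so not in `G1` (`c1.T X'` and `c1.comp R` agree on `V X'`: `comp_V`), so there is another component `D2` of `G1` in `V X'`, disjoint from `D` (`exists_other_comp`), so disjoint from `X` (`X' ∩ V X' = ∅`), `D2 ⊆ C`.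
(a) `J' = V X' ∪ J` is closed in `W \ X'`: let `a ∈ J'`, `b ∈ W \ X'`, `ab` an edge of `G`. If `a ∈ J`: `b ∈ J` or `b ∈ X` (`no`), then `b ∈ D ⊆ V X'`. If `a ∈ V X'` and `b ∉ J`: `a, b ∈ X ∪ C`, edge of `G1`, so `b ∈ V X'`.
(b) `D2` is a component of `G` in `W \ X'`: `G` and `G1` agree on `D2` (it is disjoint from `X`), an edge of `G` from `D2 ⊆ C` goes to `X ∪ C` (`no`), so it is an edge of `G1`, ends in `X' ∪ V X'`, so in `X' ∪ D2`.
(c) Let `D1` be the component of `G` in `W \ X'` with `x ∈ D1`: `D1 ⊆ J'` by (a) (`closed_sub`), `D1 ≠ D2` as `x ∉ D2` so they are disjoint. `R \ X'` is not empty (`|R| = |X'| = 3`, `R ≠ X'`); it is a clique of `G`, so it is contained in one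
component `C'` of `G` in `W \ X'`. `R` is disjoint from `V X'` and from `J` (`R ⊆ X ∪ C`), so `C'` is disjoint from `J'` by (a) (if `C'` meets `J'` then `C' ⊆ J'` by `closed_sub`). So `D1, D2, C'` are disjoint: `X'` is a shredder.
(d) `R ⊆ X' ∪ C'`. `C' ⊆ W \ X' \ J'`, `|C'| ≤ |W| - 3 - |V X'| - |J|`, `|C| = |W| - 3 - |J|`, `V X'` nonempty: `|C'| < |C|` (`X', V X', J` are disjoint subsets of `W`: `X', V X' ⊆ R ∪ U1 = X ∪ C`).
-/

namespace K5

open Finset

theorem Sep.min3 {G : Gr} {X C J R U1 : Finset ℕ} {c1 : Code3} (h : Sep G X C J)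
    (hR : clq R ≤ G) (hR3 : R.card = 3) (h1 : c1.Valid R U1)
    (hU1 : R ∪ U1 = X ∪ C) (hcomp : c1.comp R = rst G (X ∪ C) ⊔ clq X)
    {X' : Finset ℕ} (hX' : X' ∈ c1.M) {x : ℕ} (hx : x ∈ X) (hxV : x ∈ c1.V X') :
    ∃ C', Shr G (X ∪ C ∪ J) X' ∧ IsComp G ((X ∪ C ∪ J) \ X') C' ∧ R ⊆ X' ∪ C' ∧
      C'.card < C.card := by
  classical
  obtain ⟨hm1, hm2, hm3⟩ := h1.mark_sub hX'
  have hX'3 : X'.card = 3 := (h1.T_str X' hX').card
  have hVU : c1.V X' ⊆ X ∪ C := by
    rw [← hU1]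
    exact (h1.V_sub X' hX').trans (sdiff_subset.trans subset_union_right)
  have hX'W : X' ⊆ X ∪ C := by
    rw [← hU1]
    exact hm1.trans (union_subset_union (Subset.refl _) h1.sub)
  have hG1 : ∀ {a b : ℕ}, G.Adj a b → a ∈ X ∪ C → b ∈ X ∪ C → (c1.comp R).Adj a b := by
    intro a b hab ha hb
    rw [hcomp]
    exact Or.inl ⟨hab, ha, hb⟩
  have hG2 : ∀ {a b : ℕ}, (c1.comp R).Adj a b → a ∉ X → G.Adj a b := by
    intro a b hab ha
    rw [hcomp] at hab
    rcases hab with hab | hab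
    · exact hab.1
    · exact absurd hab.2.1 ha
  obtain ⟨D, hD, hxD⟩ := exists_xcomp (G := c1.comp R) hxV
  have hXD : ∀ y ∈ X, y ∈ X' ∨ y ∈ D := by
    intro y hy
    by_cases hyx : y = x
    · rw [hyx]
      exact Or.inr hxD
    · have hadj : (c1.comp R).Adj x y := by
        rw [hcomp]
        exact Or.inr ⟨fun e => hyx e.symm, hx, hy⟩
      rcases mem_union.1 (h1.comp_V hX' hadj hxV).2 with h' | h'
      · exact Or.inl h'
      · right
        by_contra hyD
        exact hD.2.2 x hxD y h' hyD hadj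
  have hnc : ¬ P512.Conn (c1.comp R) (c1.V X') := by
    intro hc
    apply (h1.T_str X' hX').nconn
    refine (conn_congr (G' := c1.comp R) (fun a ha b hb => ?_)).2 hc
    constructor
    · intro hab
      exact ⟨hab.ne, Or.inr (Or.inr (Or.inr ⟨X', hab⟩))⟩
    · intro hab
      exact (h1.comp_V hX' hab ha).1
  obtain ⟨D2, hD2, hdis⟩ := exists_other_comp hnc hD
  have hVX' : ∀ {v : ℕ}, v ∈ c1.V X' → v ∉ X' := fun {v} hv hv' => disjoint_left.1 hm2 hv' hv
  have hD2X : ∀ v ∈ D2, v ∉ X := by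
    intro v hv hvX
    rcases hXD v hvX with h' | h'
    · exact hVX' (hD2.1 hv) h'
    · exact disjoint_left.1 hdis h' hv
  have hD2C : ∀ v ∈ D2, v ∈ C := fun v hv =>
    (mem_union.1 (hVU (hD2.1 hv))).resolve_left (hD2X v hv)
  have hXCJ : ∀ {v : ℕ}, v ∈ X ∪ C → v ∉ J := by
    intro v hv hvJ
    rcases mem_union.1 hv with h' | h'
    · exact disjoint_left.1 h.dXJ h' hvJ
    · exact disjoint_left.1 h.dCJ h' hvJ
  -- (a)
  have hcl : ∀ a ∈ c1.V X' ∪ J, ∀ b ∈ (X ∪ C ∪ J) \ X', b ∉ c1.V X' ∪ J → ¬ G.Adj a b := by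
    intro a ha b hb hbn hab
    obtain ⟨hbW, hbX'⟩ := mem_sdiff.1 hb
    have hbV : b ∉ c1.V X' := fun h' => hbn (mem_union_left _ h')
    have hbJ : b ∉ J := fun h' => hbn (mem_union_right _ h')
    have hbXC : b ∈ X ∪ C := (mem_union.1 hbW).resolve_right hbJ
    rcases mem_union.1 ha with ha' | ha'
    · rcases mem_union.1 (h1.comp_V hX' (hG1 hab (hVU ha') hbXC) ha').2 with h' | h'
      · exact hbX' h'
      · exact hbV h'
    · rcases mem_union.1 hbXC with h' | h'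
      · rcases hXD b h' with h'' | h''
        · exact hbX' h''
        · exact hbV (hD.1 h'')
      · exact h.no b h' a ha' hab.symm
  -- (b)
  have hD2c : IsComp G ((X ∪ C ∪ J) \ X') D2 := by
    refine ⟨fun v hv => mem_sdiff.2 ⟨mem_union_left _ (hVU (hD2.1 hv)), hVX' (hD2.1 hv)⟩, ?_, ?_⟩
    · refine (conn_congr (G' := G) (fun a ha b hb => ?_)).1 hD2.2.1
      exact ⟨fun hab => hG2 hab (hD2X a ha), fun hab => hG1 hab (hVU (hD2.1 ha)) (hVU (hD2.1 hb))⟩
    · intro a ha b hb hbn hab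
      obtain ⟨hbW, hbX'⟩ := mem_sdiff.1 hb
      have hbJ : b ∉ J := fun h' => h.no a (hD2C a ha) b h' hab
      have hbXC : b ∈ X ∪ C := (mem_union.1 hbW).resolve_right hbJ
      have hadj := hG1 hab (hVU (hD2.1 ha)) hbXC
      rcases mem_union.1 (h1.comp_V hX' hadj (hD2.1 ha)).2 with h' | h'
      · exact hbX' h'
      · exact hD2.2.2 a ha b h' hbn hadj
  -- (c)
  obtain ⟨D1, hD1, hxD1⟩ := exists_xcomp (G := G) (U := (X ∪ C ∪ J) \ X') (v := x)
    (mem_sdiff.2 ⟨mem_union_left _ (mem_union_left _ hx), hVX' hxV⟩)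
  have hD1J : D1 ⊆ c1.V X' ∪ J :=
    closed_sub hcl hD1.2.1 hD1.1 hxD1 (mem_union_left _ hxV)
  have hd12 : Disjoint D1 D2 := by
    rw [disjoint_left]
    intro v hv hv'
    have he := hD1.xeq_of_mem hD2c hv hv'
    rw [he] at hxD1
    exact disjoint_left.1 hdis hxD hxD1
  obtain ⟨r, hr, hrX'⟩ : ∃ r ∈ R, r ∉ X' := by
    by_contra hcon
    push Not at hcon
    have hsub : R ⊆ X' := hcon
    exact (h1.mark X' hX').2 (Finset.eq_of_subset_of_card_le hsub (by rw [hR3, hX'3])).symm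
  have hRXC : R ⊆ X ∪ C := by
    rw [← hU1]
    exact subset_union_left
  obtain ⟨C', hC', hrC'⟩ := exists_xcomp (G := G) (U := (X ∪ C ∪ J) \ X') (v := r)
    (mem_sdiff.2 ⟨mem_union_left _ (hRXC hr), hrX'⟩)
  have hRC' : R ⊆ X' ∪ C' := by
    intro y hy
    by_cases hyX : y ∈ X'
    · exact mem_union_left _ hyX
    · apply mem_union_right
      by_contra hyC
      have hne : r ≠ y := fun e => hyC (e ▸ hrC')
      exact hC'.2.2 r hrC' y (mem_sdiff.2 ⟨mem_union_left _ (hRXC hy), hyX⟩) hyC (hR ⟨hne, hr, hy⟩)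
  have hdC' : Disjoint (c1.V X' ∪ J) C' := by
    rw [disjoint_left]
    intro v hv hv'
    have hsub := closed_sub hcl hC'.2.1 hC'.1 hv' hv
    rcases mem_union.1 (hsub hrC') with h' | h'
    · exact disjoint_left.1 hm3 (mem_union_left _ hr) h'
    · exact hXCJ (hRXC hr) h'
  have hD2J : D2 ⊆ c1.V X' ∪ J := hD2.1.trans subset_union_left
  refine ⟨C', ⟨hX'W.trans subset_union_left, hX'3, D1, D2, C', hD1, hD2c, hC', hd12,
    disjoint_of_subset_left hD1J hdC', disjoint_of_subset_left hD2J hdC'⟩, hC', hRC', ?_⟩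
  -- (d)
  have hVJ : Disjoint (c1.V X') J := disjoint_left.2 (fun v hv => hXCJ (hVU hv))
  have hX'J : Disjoint X' (c1.V X' ∪ J) := by
    rw [disjoint_union_right]
    exact ⟨hm2, disjoint_left.2 (fun v hv => hXCJ (hX'W hv))⟩
  have hC'X' : Disjoint C' X' := disjoint_left.2 (fun v hv => (mem_sdiff.1 (hC'.1 hv)).2)
  have hall : Disjoint C' (X' ∪ (c1.V X' ∪ J)) := by
    rw [disjoint_union_right]
    exact ⟨hC'X', hdC'.symm⟩
  have hsubW : C' ∪ (X' ∪ (c1.V X' ∪ J)) ⊆ X ∪ C ∪ J := by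
    refine union_subset (hC'.1.trans sdiff_subset) (union_subset (hX'W.trans subset_union_left)
      (union_subset (hVU.trans subset_union_left) subset_union_right))
  have hc1 := card_le_card hsubW
  rw [card_union_of_disjoint hall, card_union_of_disjoint hX'J, card_union_of_disjoint hVJ,
    card_union_of_disjoint (disjoint_union_left.2 ⟨h.dXJ, h.dCJ⟩),
    card_union_of_disjoint h.dXC, hX'3, h.card] at hc1
  have hV1 : 1 ≤ (c1.V X').card := card_pos.2 ⟨x, hxV⟩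
  omega

end K5
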