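import Pool.Agent.Lib.K5.XGlue
import Pool.Agent.Lib.K5.XMin3
import Pool.Agent.Lib.K5.XMin2
import Pool.Agent.Lib.K5.XBase

/-!
# K5.XEx: every rooted 3-connected graph without a `K_5` minor is the graph of a code
-/

namespace K5

open Finset

/-- Root triangle. -/
theorem ex3 (hw : Wag) {R U : Finset ℕ} {G : Gr} (h : Rtd R U G) (hc : R.card = 3) :
    ∃ c : Code3, c.Valid R U ∧ c.comp R = G := by
  induction hn : U.card using Nat.strong_induction_on generalizing R U G with
  | _ n ih =>
  by_cases hX : ∃ X, Shr G (R ∪ U) X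
  · obtain ⟨X, C, hX1, hC, hRC, hmin⟩ := exists_side h.clique subset_union_left hX
    obtain ⟨hs, hW⟩ := Shr.sep h.on h.three h.free hX1 hC
    have hroot : P512.Conn G U := by
      rcases h.root with hr | hr
      · omega
      · exact hr.2
    have hRX : R ≠ X := by
      rintro rfl
      have hU : (R ∪ U) \ R = U := by
        ext v
        have hdv : v ∈ U → v ∉ R := fun hv => Finset.disjoint_right.1 h.disj hv
        simp only [mem_sdiff, mem_union]
        tauto
      obtain ⟨j, hj⟩ := hs.ne
      rw [hU] at hj hC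
      obtain ⟨v, hv⟩ := hC.2.1.1
      have := closed_sub hC.2.2 hroot (Finset.Subset.refl _) (hC.1 hv) hv
      exact (mem_sdiff.1 hj).2 (this (mem_sdiff.1 hj).1)
    have h1 := hs.rtd h hc hRX hRC hW.symm
    have hlt : (U \ (((R ∪ U) \ X) \ C)).card < n := by
      rw [← hn]
      obtain ⟨j, hj⟩ := hs.ne
      refine Finset.card_lt_card ⟨sdiff_subset, fun hsub => ?_⟩
      have hj2 := mem_sdiff.1 hj
      have hjU : j ∈ U := by
        rcases mem_union.1 (mem_sdiff.1 hj2.1).1 with h' | h'
        · rcases mem_union.1 (hRC h') with h'' | h''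
          · exact absurd h'' (mem_sdiff.1 hj2.1).2
          · exact absurd h'' hj2.2
        · exact h'
      exact (mem_sdiff.1 (hsub hjU)).2 hj
    obtain ⟨c1, hv1, hcomp1⟩ := ih _ hlt h1 hc rfl
    have hU1 : R ∪ (U \ (((R ∪ U) \ X) \ C)) = X ∪ C := by
      ext v
      have e1 := @hRC v
      have e2 := @hX1.1 v
      have e3 := @hC.1 v
      simp only [mem_sdiff, mem_union] at *
      tauto
    have hXZ : X ⊆ R ∪ c1.Y := by
      intro x hx
      by_contra hxZ
      have hxU : x ∈ (U \ (((R ∪ U) \ X) \ C)) \ c1.Y := by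
        have : x ∈ R ∪ (U \ (((R ∪ U) \ X) \ C)) := by rw [hU1]; exact mem_union_left _ hx
        simp only [mem_union, not_or] at hxZ
        rcases mem_union.1 this with h' | h'
        · exact absurd h' hxZ.1
        · exact mem_sdiff.2 ⟨h', hxZ.2⟩
      obtain ⟨X', hX', hxV⟩ := hv1.V_cover x hxU
      obtain ⟨C', h1', h2', h3', h4'⟩ := hs.min3 h.clique hc hv1 hU1 hcomp1 hX' hx hxV
      rw [hW] at h1' h2'
      have := hmin X' C' h1' h2' h3'
      omega
    have hroot1 : P512.Conn c1.H ((R ∪ c1.Y) \ R) := by
      have e : (R ∪ c1.Y) \ R = c1.Y := by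
        ext v
        have hdv : v ∈ c1.Y → v ∉ R := fun hv => Finset.disjoint_right.1 hv1.core.rtd.disj hv
        simp only [mem_sdiff, mem_union]
        tauto
      rw [e]
      rcases hv1.core.rtd.root with hr | hr
      · omega
      · exact hr.2
    have hCc : P512.Conn (c1.comp R) C := by
      rw [hcomp1]
      refine (conn_congr (fun a ha b hb => ?_)).1 hC.2.1
      constructor
      · intro hab
        exact Or.inl ⟨hab, mem_union_right _ ha, mem_union_right _ hb⟩
      · rintro (hab | hab)
        · exact hab.1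
        · exact absurd hab.2.1 (Finset.disjoint_right.1 hs.dXC ha)
    have hRXne : ∃ r ∈ R, r ∉ X := by
      by_contra hcon
      push Not at hcon
      exact hRX (Finset.eq_of_subset_of_card_le hcon (by rw [hc, hX1.2.1]))
    have hXM : X ∉ c1.M := by
      intro hXm
      obtain ⟨m1, m2, m3⟩ := hv1.mark_sub hXm
      obtain ⟨v, hv⟩ := (hv1.T_str X hXm).ne
      have hVC : c1.V X ⊆ C := by
        intro w hw'
        have hw1 : w ∈ R ∪ (U \ (((R ∪ U) \ X) \ C)) :=
          mem_union_right _ (sdiff_subset (hv1.V_sub X hXm hw'))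
        rw [hU1] at hw1
        rcases mem_union.1 hw1 with h' | h'
        · exact absurd hw' (Finset.disjoint_left.1 m2 h')
        · exact h'
      have hsub : C ⊆ c1.V X := by
        refine closed_sub (U := C) (fun a ha b hb hbn hab => ?_) hCc (Finset.Subset.refl _)
          (hVC hv) hv
        rcases mem_union.1 (hv1.comp_V hXm hab ha).2 with h' | h'
        · exact Finset.disjoint_left.1 hs.dXC h' hb
        · exact hbn h'
      obtain ⟨r, hr, hrX⟩ := hRXne
      have hrC : r ∈ C := by
        rcases mem_union.1 (hRC hr) with h' | h'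
        · exact absurd h' hrX
        · exact h'
      exact Finset.disjoint_left.1 m3 (mem_union_left _ hr) (hsub hrC)
    have hconn : P512.Conn c1.H ((R ∪ c1.Y) \ X) := by
      have e : C ∩ (R ∪ c1.Y) = (R ∪ c1.Y) \ X := by
        ext v
        have e1 : v ∈ R ∪ c1.Y → v ∈ X ∪ C := by
          intro h'
          rw [← hU1]
          rcases mem_union.1 h' with h'' | h''
          · exact mem_union_left _ h''
          · exact mem_union_right _ (hv1.sub h'')
        have e2 : v ∈ X → v ∉ C := fun hv => Finset.disjoint_left.1 hs.dXC hv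
        simp only [mem_inter, mem_sdiff, mem_union] at *
        tauto
      rw [← e]
      refine hv1.conn_core hCc ?_
      obtain ⟨r, hr, hrX⟩ := hRXne
      refine ⟨r, mem_inter.2 ⟨?_, mem_union_left _ hr⟩⟩
      rcases mem_union.1 (hRC hr) with h' | h'
      · exact absurd h' hrX
      · exact h'
    exact hs.glue h.clique h.disj hW.symm hv1 hU1 hcomp1 hXZ hXM hconn subset_union_left
      hRX.symm (fun X' hX' => (hv1.mark X' hX').2) (Or.inr ⟨hc, hroot1⟩)
  · rcases hw G (R ∪ U) h.on h.three h.free hX with hm | hv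
    · exact code_of_mac h hm
    · exact absurd (hv.no_clq h.clique hc) id

/-- Root edge. -/
theorem ex2 (hw : Wag) {R U : Finset ℕ} {G : Gr} (h : Rtd R U G) (hc : R.card = 2) :
    (∃ c : Code3, c.Valid R U ∧ c.comp R = G) ∨ IsV8 G (R ∪ U) := by
  by_cases hX : ∃ X, Shr G (R ∪ U) X
  · left
    obtain ⟨X, C, hX1, hC, hRC, hmin⟩ := exists_side h.clique subset_union_left hX
    obtain ⟨hs, hW⟩ := Shr.sep h.on h.three h.free hX1 hC
    obtain ⟨c1, hv1, hcomp1⟩ := ex3 hw hs.rtd_X hs.card
    have hRZ : R ⊆ X ∪ c1.Y := by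
      intro r hr
      by_contra hrZ
      have hrU : r ∈ C \ c1.Y := by
        simp only [mem_union, not_or] at hrZ
        rcases mem_union.1 (hRC hr) with h' | h'
        · exact absurd h' hrZ.1
        · exact mem_sdiff.2 ⟨h', hrZ.2⟩
      obtain ⟨X', hX', hrV⟩ := hv1.V_cover r hrU
      obtain ⟨D, h1', h2', h3', h4'⟩ := hs.min2 h.clique hRC hv1 hcomp1 hX' hr hrV
      rw [hW] at h1' h2'
      have := hmin X' D h1' h2' h3'
      omega
    have hconn : P512.Conn c1.H ((X ∪ c1.Y) \ X) := by
      have e : (X ∪ c1.Y) \ X = c1.Y := by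
        ext v
        have hdv : v ∈ c1.Y → v ∉ X := fun hv => Finset.disjoint_right.1 hv1.core.rtd.disj hv
        simp only [mem_sdiff, mem_union]
        tauto
      rw [e]
      rcases hv1.core.rtd.root with hr | hr
      · have := hs.card
        omega
      · exact hr.2
    exact hs.glue h.clique h.disj hW.symm hv1 rfl hcomp1 subset_union_left
      (fun hXm => (hv1.mark X hXm).2 rfl) hconn hRZ (fun he => by
        have := hs.card
        rw [he] at this
        omega) (fun X' hX' he => by
        have := (hv1.mark X' hX').1.2.1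
        rw [he] at this
        omega) (Or.inl hc)
  · rcases hw G (R ∪ U) h.on h.three h.free hX with hm | hv
    · exact Or.inl (code_of_mac h hm)
    · exact Or.inr hv

end K5
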