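import Pool.Agent.Lib.K5.RelC

/-!
# K5.ZDefs: definitions for the counting of the shredder level
-/

namespace K5

open Finset
open scoped ENNReal

/-- `∑_{k ≥ 2} b^k / k!`. -/
noncomputable def E2 (b : ℝ≥0∞) : ℝ≥0∞ := ∑' k : ℕ, b ^ (k + 2) / ((k + 2).factorial : ℝ≥0∞)

/-- The total weight of the branches at `X` with interior `V`. -/
noncomputable def bw (z : ℝ≥0∞) (X V : Finset ℕ) : ℝ≥0∞ :=
  ∑' G : {G : Gr // Branch X V G}, z ^ G.1.edgeSet.ncard

/-- The total weight of the t-structures at `X` with interior `V`. -/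
noncomputable def tw (z : ℝ≥0∞) (X V : Finset ℕ) : ℝ≥0∞ :=
  ∑' G : {G : Gr // TStr X V G}, z ^ G.1.edgeSet.ncard

/-- The total weight of the rooted graphs with root clique `R` and interior `U`. -/
noncomputable def gw (z : ℝ≥0∞) (R U : Finset ℕ) : ℝ≥0∞ :=
  ∑' G : {G : Gr // Rtd R U G}, z ^ ecard R G.1

/-- t-structures with `n` interior vertices. -/
noncomputable def ts (z : ℝ≥0∞) (n : ℕ) : ℝ≥0∞ := tw z {0, 1, 2} (Ico 3 (n + 3))

/-- Planar cores with root `R`, interior `Y` and a set of marked triangles that satisfy `Q`. -/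
abbrev MC (Q : Finset ℕ → Prop) (R Y : Finset ℕ) : Type :=
  {p : Gr × Finset (Finset ℕ) // PCore R Y p.1 ∧ ∀ X ∈ p.2, NT p.1 (R ∪ Y) X ∧ Q X}

/-- All triangles different from the root. -/
abbrev QA (R X : Finset ℕ) : Prop := X ≠ R

/-- The triangles that do not contain the root. -/
abbrev QL (R X : Finset ℕ) : Prop := ¬ R ⊆ X

/-- The weighted sum over the marked cores on `Y`, with weight `φ m` for `m` marks. -/
noncomputable def mphi (Q : Finset ℕ → Prop) (φ : ℕ → ℝ≥0∞) (z w : ℝ≥0∞)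
    (R Y : Finset ℕ) : ℝ≥0∞ :=
  ∑' p : MC Q R Y, φ p.1.2.card * mwt z w 1 R p.1.1 p.1.2

/-- `∑_{Y ⊆ U}` marked cores on `Y`, the other vertices of `U` distributed on the marks with
weights `τ`. -/
noncomputable def csA (Q : Finset ℕ → Prop) (τ : ℕ → ℝ≥0∞) (z : ℝ≥0∞) (R U : Finset ℕ) : ℝ≥0∞ :=
  ∑ Y ∈ U.powerset, mphi Q (fun m => fam τ m (U \ Y).card) z (1 + z) R Y

/-- The codes with label set `U` and root `R` whose marks satisfy `Q`. -/
abbrev CD (Q : Finset ℕ → Prop) (R U : Finset ℕ) : Type :=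
  {c : Code3 // c.Valid R U ∧ ∀ X ∈ c.M, Q X}

/-- The sum over all codes. -/
noncomputable def csC (Q : Finset ℕ → Prop) (z : ℝ≥0∞) (R U : Finset ℕ) : ℝ≥0∞ :=
  ∑' c : CD Q R U, z ^ ecard R (c.1.comp R)

/-- Copies of `V_8` with the root edge. -/
noncomputable def v8w (z : ℝ≥0∞) (U : Finset ℕ) : ℝ≥0∞ :=
  ∑' G : {G : Gr // IsV8 G ({0, 1} ∪ U) ∧ clq {0, 1} ≤ G}, z ^ ecard {0, 1} G.1

/-- Copies of `K_{3,3}` with the root edge. -/
noncomputable def k33w (z : ℝ≥0∞) (U : Finset ℕ) : ℝ≥0∞ :=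
  ∑' G : {G : Gr // IsK33 G ({0, 1} ∪ U) ∧ clq {0, 1} ≤ G}, z ^ ecard {0, 1} G.1

/-! ### Fillings -/

/-- The vertices in `S` are distributed on the marks, every mark carries a t-structure. -/
structure IsFil (M : Finset (Finset ℕ)) (S : Finset ℕ)
    (q : (Finset ℕ → Finset ℕ) × (Finset ℕ → Gr)) : Prop where
  sub : ∀ X ∈ M, q.1 X ⊆ S
  disj : ∀ X ∈ M, ∀ X' ∈ M, X ≠ X' → Disjoint (q.1 X) (q.1 X')
  cover : ∀ w ∈ S, ∃ X ∈ M, w ∈ q.1 X
  str : ∀ X ∈ M, TStr X (q.1 X) (q.2 X)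
  vout : ∀ X, X ∉ M → q.1 X = ∅
  tout : ∀ X, X ∉ M → q.2 X = ⊥

/-- The sum over the fillings. -/
noncomputable def fil (z : ℝ≥0∞) (M : Finset (Finset ℕ)) (S : Finset ℕ) : ℝ≥0∞ :=
  ∑' q : {q : (Finset ℕ → Finset ℕ) × (Finset ℕ → Gr) // IsFil M S q},
    z ^ (∑ X ∈ M, (q.1.2 X).edgeSet.ncard)

/-- The fibre of `f` over `X`, as a Finset of numbers. -/
def fibF {M : Finset (Finset ℕ)} {S : Finset ℕ} (f : {w // w ∈ S} → {X // X ∈ M})
    (X : {X // X ∈ M}) : Finset ℕ :=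
  (univ.filter (fun w => f w = X)).map (Function.Embedding.subtype _)

/-! ### Black boxes (existence: helper19; soundness and uniqueness: helper78) -/

/-- Existence of the code, root triangle. -/
def Ex3 : Prop := ∀ U G, Rtd {0, 1, 2} U G →
  ∃ c : Code3, c.Valid {0, 1, 2} U ∧ c.comp {0, 1, 2} = G

/-- Existence of the code, root edge. -/
def Ex2 : Prop := ∀ U G, Rtd {0, 1} U G →
  (∃ c : Code3, c.Valid {0, 1} U ∧ c.comp {0, 1} = G) ∨ IsV8 G ({0, 1} ∪ U)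

/-- Soundness, root triangle. -/
def Snd3 : Prop := ∀ U (c : Code3), c.Valid {0, 1, 2} U → Rtd {0, 1, 2} U (c.comp {0, 1, 2})

/-- Uniqueness, root triangle. -/
def Inj3 : Prop := ∀ U (c c' : Code3), c.Valid {0, 1, 2} U → c'.Valid {0, 1, 2} U →
  c.comp {0, 1, 2} = c'.comp {0, 1, 2} → c = c'

/-- Soundness, root edge, low codes. -/
def Snd2 : Prop := ∀ U (c : Code3), c.Valid {0, 1} U → c.Low {0, 1} → Rtd {0, 1} U (c.comp {0, 1})

/-- Uniqueness, root edge, low codes. -/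
def Inj2 : Prop := ∀ U (c c' : Code3), c.Valid {0, 1} U → c'.Valid {0, 1} U → c.Low {0, 1} →
  c'.Low {0, 1} → c.comp {0, 1} = c'.comp {0, 1} →
  c = c' ∨ IsK33 (c.comp {0, 1}) ({0, 1} ∪ U)

/-- A copy of `K_{3,3}` has at most two low codes. -/
def Two33 : Prop := ∀ U G (s : Finset Code3), IsK33 G ({0, 1} ∪ U) →
  (∀ c ∈ s, c.Valid {0, 1} U ∧ c.Low {0, 1} ∧ c.comp {0, 1} = G) → s.card ≤ 2

end K5
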