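import Pool.Agent.Lib.K5.YInj
import Pool.Agent.Lib.K5.XEx
import Pool.Agent.Lib.K5.ZDefs
import Pool.Agent.Lib.K5.Comp

/-!
# K5.DDefs: definitions for the number of codes of a graph with root edge

`W = {0, 1} ∪ U`. `CG G U`: the vertices `v` such that `{0, 1, v}` is a shredder; `kk G U v`: the number of components of `G - {0, 1, v}`. The aim is `NG G U = 1 + ∑ v ∈ CG G U, (kk G U v - 1)` for every rooted graph `G` that is not a
copy of `V_8` (no code) or `K_{3,3}` (two codes).
-/

namespace K5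

open Finset
open scoped ENNReal

/-- The triangle at the root edge with third vertex `v`. -/
abbrev tri (v : ℕ) : Finset ℕ := {0, 1, v}

open Classical in
/-- The vertices `v` such that `{0, 1, v}` is a shredder. -/
noncomputable def CG (G : Gr) (U : Finset ℕ) : Finset ℕ :=
  U.filter (fun v => Shr G ({0, 1} ∪ U) (tri v))

/-- The number of components of `G - {0, 1, v}`. -/
noncomputable def kk (G : Gr) (U : Finset ℕ) (v : ℕ) : ℕ := (compPart G (U.erase v)).parts.card

/-- The codes of the graph `G`, root edge. -/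
def codes (G : Gr) (U : Finset ℕ) : Set Code3 := {c | c.Valid {0, 1} U ∧ c.comp {0, 1} = G}

/-- The structure `T0` with interior `J` is added at the root triangle `tri v`; the new root is the
edge `01`. -/
def Code3.up (v : ℕ) (J : Finset ℕ) (T0 : Gr) (F0 : Set (Sym2 ℕ)) (c : Code3) : Code3 where
  Y := insert v c.Y
  H := c.H
  M := insert (tri v) c.M
  V := Function.update c.V (tri v) J
  T := Function.update c.T (tri v) T0
  F := c.F ∪ F0

/-- The structure at the marked triangle `tri v` is removed; the new root is the triangle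
`tri v`. -/
def Code3.dn (v : ℕ) (c : Code3) : Code3 where
  Y := c.Y.erase v
  H := c.H
  M := c.M.erase (tri v)
  V := Function.update c.V (tri v) ∅
  T := Function.update c.T (tri v) ⊥
  F := c.F \ (clq (tri v)).edgeSet

/-- The graph with root edge, the edges in `F0` and the graph `G'`. -/
def gl (F0 : Set (Sym2 ℕ)) (G' : Gr) : Gr where
  Adj a b := a ≠ b ∧ ((a ∈ ({0, 1} : Finset ℕ) ∧ b ∈ ({0, 1} : Finset ℕ)) ∨ s(a, b) ∈ F0 ∨
    G'.Adj a b)
  symm := ⟨fun a b h => by
    refine ⟨h.1.symm, ?_⟩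
    rw [Sym2.eq_swap]
    exact h.2.imp (fun h => ⟨h.2, h.1⟩) (Or.imp id (fun h => h.symm))⟩
  loopless := ⟨fun a h => h.1 rfl⟩

/-- `∑_{k ≥ 3} (k - 1) a^k / k!`. -/
noncomputable def E3 (a : ℝ≥0∞) : ℝ≥0∞ :=
  ∑' k : ℕ, ((k + 2 : ℕ) : ℝ≥0∞) * (a ^ (k + 3) / ((k + 3).factorial : ℝ≥0∞))

/-- Partitions with at least three parts, with weight (number of parts - 1). -/
noncomputable def prt3 (F : ℕ → ℝ≥0∞) (n : ℕ) : ℝ≥0∞ :=
  ∑ π : Finpartition (range n), if 3 ≤ π.parts.card then
    ((π.parts.card - 1 : ℕ) : ℝ≥0∞) * ∏ A ∈ π.parts, F A.card else 0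

/-- The sum over the graphs for which `{0, 1, v}` is a shredder, with weight (number of
components - 1). -/
noncomputable def shw (z : ℝ≥0∞) (U : Finset ℕ) (v : ℕ) : ℝ≥0∞ :=
  ∑' G : {G : Gr // Rtd {0, 1} U G ∧ v ∈ CG G U},
    ((kk G.1 U v - 1 : ℕ) : ℝ≥0∞) * z ^ ecard {0, 1} G.1

end K5
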