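import Pool.Agent.Lib.K5.DDefs

/-!
# K5.DDn: removing the structure at a marked triangle that contains the root edge

`c.Valid {0, 1} U`, `X = tri v ∈ c.M`, `J = c.V X`, `D = U \ insert v J`.
1. `mark_v`: `|X| = 3` (`mark`, `NT`), so `v ≠ 0, 1`; `X ⊆ {0, 1} ∪ c.Y`, so `v ∈ c.Y ⊆ U`, and `J ⊆ U \ c.Y` does not contain `v`.
2. `dn_valid`: `c.dn v` is valid for the root `X` and the label set `D`: `disj`: `X` is disjoint from `D` (`0, 1 ∉ U`). `sub`: `c.Y.erase v ⊆ D` (`J` is disjoint from `c.Y`). `core`: `X ∪ c.Y.erase v = {0, 1} ∪ c.Y`; `On`, `Three`, `Free`, `Mac` are the same; clique and root from `NT c.H ({0, 1} ∪ c.Y) X`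
(`({0, 1} ∪ c.Y) \ X = c.Y.erase v`). `mark`: `Z ∈ M.erase X` is a mark of `c` on the same set, `Z ≠ X`. `V_sub`, `V_disj`, `V_cover` (`D \ c.Y.erase v = (U \ c.Y) \ J`), `T_str`, `V_out`, `T_out`: from those of `c`, `Function.update` changes only the value at `X`. `F_sub`: `e ∈ c.F`, not an edge of `clq X`; the
triangle that covers it is not `X`.
3. `dn_comp`: both sides contain all pairs inside `X`. Let `a`, `b` be not both in `X`. If `ab` is an edge of `(c.dn v).comp X`: edge of `H` not covered by `M.erase X` (not covered by `X` either, as it is not inside `X`), in `c.F`, or edge of `c.T Z`, `Z ≠ X`: an edge of `c.comp {0, 1}`, with ends in `X ∪ D`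
(`comp_on` for `dn_valid`). Conversely, an edge of `c.comp {0, 1}` with both ends in `X ∪ D`, not both in `X`: not both in `{0, 1} ⊆ X`; edge of `H` not covered by `M`; in `F` (and not inside `X`); an edge of `c.T Z` with `Z ≠ X` (an edge of `c.T X` has both ends in `X ∪ J` and `J` is disjoint from `X ∪ D`, so both
ends would be in `X`).
4. `mark_comp`: `v ∈ CG (c.comp {0, 1}) U` by `Code3.Valid.comp_shr`, and `D` is a component of `c.comp {0, 1}` in `U.erase v` by `Code3.Valid.out_isComp` (`({0, 1} ∪ U) \ X = U.erase v`, `({0, 1} ∪ U) \ (X ∪ J) = D`, as `0, 1 ∉ U`).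
5. `code_unique`: `c.dn v` and `c'.dn v` are codes with root `X` for the same label set and the same graph (2, 3), so they are equal by `Code3.Valid.inj3`; so `c.M.erase X = c'.M.erase X`, and `c.V Z = c'.V Z` for `Z ≠ X`; with `X ∈ c.M, c'.M` and `hV` use `Code3.Valid.recover`.
-/

namespace K5

open Finset

variable {v : ℕ} {U : Finset ℕ} {c c' : Code3}

namespace DDnAux

theorem mem_tri {v x : ℕ} : x ∈ tri v ↔ x = 0 ∨ x = 1 ∨ x = v := by
  rw [Finset.mem_insert, Finset.mem_insert, Finset.mem_singleton]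

theorem mem_R {x : ℕ} : x ∈ ({0, 1} : Finset ℕ) ↔ x = 0 ∨ x = 1 := by
  rw [Finset.mem_insert, Finset.mem_singleton]

theorem not_U (h : c.Valid {0, 1} U) : 0 ∉ U ∧ 1 ∉ U :=
  ⟨fun h0 => Finset.disjoint_left.1 h.disj (mem_R.2 (Or.inl rfl)) h0,
    fun h1 => Finset.disjoint_left.1 h.disj (mem_R.2 (Or.inr rfl)) h1⟩

theorem clq_mem {X : Finset ℕ} {a b : ℕ} : s(a, b) ∈ (clq X).edgeSet ↔ a ≠ b ∧ a ∈ X ∧ b ∈ X :=
  Iff.rfl

end DDnAux

open DDnAux

theorem Code3.Valid.mark_v (h : c.Valid {0, 1} U) (hX : tri v ∈ c.M) :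
    v ≠ 0 ∧ v ≠ 1 ∧ v ∈ c.Y ∧ v ∈ U ∧ v ∉ c.V (tri v) := by
  obtain ⟨⟨hsub, hcard, -, -⟩, -⟩ := h.mark (tri v) hX
  have h0 : v ≠ 0 := by
    rintro rfl
    revert hcard
    decide
  have h1 : v ≠ 1 := by
    rintro rfl
    revert hcard
    decide
  have hY : v ∈ c.Y := by
    rcases Finset.mem_union.1 (hsub (mem_tri.2 (Or.inr (Or.inr rfl)))) with h2 | h2
    · rcases mem_R.1 h2 with h3 | h3
      · exact absurd h3 h0
      · exact absurd h3 h1
    · exact h2
  refine ⟨h0, h1, hY, h.sub hY, fun h2 => ?_⟩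
  exact (Finset.mem_sdiff.1 (h.V_sub _ hX h2)).2 hY

namespace DDnAux

theorem Z_eq (h : c.Valid {0, 1} U) (hX : tri v ∈ c.M) :
    tri v ∪ c.Y.erase v = {0, 1} ∪ c.Y := by
  obtain ⟨h0, h1, hY, hU, hV⟩ := h.mark_v hX
  ext x
  rw [Finset.mem_union, Finset.mem_union, mem_tri, mem_R, Finset.mem_erase]
  constructor
  · rintro ((h2 | h2 | h2) | h2)
    · exact Or.inl (Or.inl h2)
    · exact Or.inl (Or.inr h2)
    · exact Or.inr (h2 ▸ hY)
    · exact Or.inr h2.2
  · rintro ((h2 | h2) | h2)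
    · exact Or.inl (Or.inl h2)
    · exact Or.inl (Or.inr (Or.inl h2))
    · by_cases hx : x = v
      · exact Or.inl (Or.inr (Or.inr hx))
      · exact Or.inr ⟨hx, h2⟩

theorem Z_sdiff (h : c.Valid {0, 1} U) (hX : tri v ∈ c.M) :
    ({0, 1} ∪ c.Y) \ tri v = c.Y.erase v := by
  obtain ⟨hU0, hU1⟩ := not_U h
  ext x
  rw [Finset.mem_sdiff, Finset.mem_union, mem_tri, mem_R, Finset.mem_erase]
  constructor
  · rintro ⟨(h2 | h2) | h2, h3⟩
    · exact absurd (Or.inl h2) h3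
    · exact absurd (Or.inr (Or.inl h2)) h3
    · exact ⟨fun h4 => h3 (Or.inr (Or.inr h4)), h2⟩
  · rintro ⟨h2, h3⟩
    refine ⟨Or.inr h3, ?_⟩
    rintro (h4 | h4 | h4)
    · exact hU0 (h4 ▸ h.sub h3)
    · exact hU1 (h4 ▸ h.sub h3)
    · exact h2 h4

theorem V_ne {X : Finset ℕ} (hX : X ≠ tri v) : (c.dn v).V X = c.V X :=
  Function.update_of_ne hX _ _

theorem V_self : (c.dn v).V (tri v) = ∅ := Function.update_self _ _ _

theorem T_ne {X : Finset ℕ} (hX : X ≠ tri v) : (c.dn v).T X = c.T X :=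
  Function.update_of_ne hX _ _

theorem T_self : (c.dn v).T (tri v) = ⊥ := Function.update_self _ _ _

theorem cov_mono {M M' : Finset (Finset ℕ)} (h : M ⊆ M') {e : Sym2 ℕ} (hc : Cov M e) :
    Cov M' e := by
  obtain ⟨X, hX, he⟩ := hc
  exact ⟨X, h hX, he⟩

end DDnAux

theorem Code3.Valid.dn_valid (h : c.Valid {0, 1} U) (hX : tri v ∈ c.M) :
    (c.dn v).Valid (tri v) (U \ insert v (c.V (tri v))) := by
  obtain ⟨h0, h1, hY, hU, hV⟩ := h.mark_v hX
  obtain ⟨hU0, hU1⟩ := not_U h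
  obtain ⟨⟨hsub, hcard, hclq, hconn⟩, -⟩ := h.mark (tri v) hX
  have hZ := Z_eq h hX
  refine ⟨?_, ?_, ⟨⟨?_, ?_, ?_, ?_, ?_, ?_⟩, ?_⟩, ?_, ?_, ?_, ?_, ?_, ?_, ?_, ?_⟩
  · rw [Finset.disjoint_left]
    intro x hx hx'
    obtain ⟨hx1, hx2⟩ := Finset.mem_sdiff.1 hx'
    rcases mem_tri.1 hx with h2 | h2 | h2
    · exact hU0 (h2 ▸ hx1)
    · exact hU1 (h2 ▸ hx1)
    · exact hx2 (h2 ▸ Finset.mem_insert_self _ _)
  · intro x hx
    obtain ⟨hxv, hxY⟩ := Finset.mem_erase.1 hx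
    rw [Finset.mem_sdiff, Finset.mem_insert]
    refine ⟨h.sub hxY, ?_⟩
    rintro (h2 | h2)
    · exact hxv h2
    · exact (Finset.mem_sdiff.1 (h.V_sub _ hX h2)).2 hxY
  · show Disjoint (tri v) (c.Y.erase v)
    rw [← Z_sdiff h hX]
    exact Finset.disjoint_sdiff
  · show On c.H (tri v ∪ c.Y.erase v)
    rw [hZ]
    exact h.core.rtd.on
  · exact hclq
  · show Three c.H (tri v ∪ c.Y.erase v)
    rw [hZ]
    exact h.core.rtd.three
  · exact h.core.rtd.free
  · right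
    refine ⟨hcard, ?_⟩
    show P512.Conn c.H (c.Y.erase v)
    rw [← Z_sdiff h hX]
    exact hconn
  · show Mac c.H (tri v ∪ c.Y.erase v)
    rw [hZ]
    exact h.core.mac
  · intro Z hZM
    obtain ⟨hne, hZM'⟩ := Finset.mem_erase.1 hZM
    refine ⟨?_, hne⟩
    show NT c.H (tri v ∪ c.Y.erase v) Z
    rw [hZ]
    exact (h.mark Z hZM').1
  · intro Z hZM w hw
    obtain ⟨hne, hZM'⟩ := Finset.mem_erase.1 hZM
    rw [V_ne hne] at hw
    obtain ⟨h2, h3⟩ := Finset.mem_sdiff.1 (h.V_sub Z hZM' hw)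
    rw [Finset.mem_sdiff, Finset.mem_sdiff, Finset.mem_insert]
    refine ⟨⟨h2, ?_⟩, ?_⟩
    · rintro (h4 | h4)
      · exact h3 (h4 ▸ hY)
      · exact Finset.disjoint_left.1 (h.V_disj Z hZM' _ hX hne) hw h4
    · intro h4
      exact h3 (Finset.mem_erase.1 h4).2
  · intro Z hZM Z' hZM' hne
    obtain ⟨h2, h3⟩ := Finset.mem_erase.1 hZM
    obtain ⟨h4, h5⟩ := Finset.mem_erase.1 hZM'
    rw [V_ne h2, V_ne h4]
    exact h.V_disj Z h3 Z' h5 hne
  · intro w hw
    obtain ⟨h2, h3⟩ := Finset.mem_sdiff.1 hw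
    obtain ⟨h4, h5⟩ := Finset.mem_sdiff.1 h2
    rw [Finset.mem_insert] at h5
    have h6 : w ∉ c.Y := fun h6 => h3 (Finset.mem_erase.2 ⟨fun h7 => h5 (Or.inl h7), h6⟩)
    obtain ⟨Z, hZM, hwZ⟩ := h.V_cover w (Finset.mem_sdiff.2 ⟨h4, h6⟩)
    have hne : Z ≠ tri v := by
      rintro rfl
      exact h5 (Or.inr hwZ)
    refine ⟨Z, Finset.mem_erase.2 ⟨hne, hZM⟩, ?_⟩
    rw [V_ne hne]
    exact hwZ
  · intro Z hZM
    obtain ⟨h2, h3⟩ := Finset.mem_erase.1 hZM
    rw [V_ne h2, T_ne h2]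
    exact h.T_str Z h3
  · intro Z hZM
    by_cases hne : Z = tri v
    · rw [hne]; exact V_self
    · rw [V_ne hne]
      exact h.V_out Z (fun h2 => hZM (Finset.mem_erase.2 ⟨hne, h2⟩))
  · intro Z hZM
    by_cases hne : Z = tri v
    · rw [hne]; exact T_self
    · rw [T_ne hne]
      exact h.T_out Z (fun h2 => hZM (Finset.mem_erase.2 ⟨hne, h2⟩))
  · rintro e ⟨he, he'⟩
    obtain ⟨h2, ⟨Z, hZM, heZ⟩, h4⟩ := h.F_sub e he
    refine ⟨h2, ⟨Z, Finset.mem_erase.2 ⟨?_, hZM⟩, heZ⟩, he'⟩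
    rintro rfl
    exact he' heZ

theorem Code3.Valid.dn_comp (h : c.Valid {0, 1} U) (hX : tri v ∈ c.M) :
    (c.dn v).comp (tri v) =
      rst (c.comp {0, 1}) (tri v ∪ (U \ insert v (c.V (tri v)))) ⊔ clq (tri v) := by
  have hval := h.dn_valid hX
  ext a b
  rw [SimpleGraph.sup_adj]
  constructor
  · intro hab
    by_cases hb : a ∈ tri v ∧ b ∈ tri v
    · exact Or.inr ⟨hab.1, hb.1, hb.2⟩
    · left
      refine ⟨?_, hval.comp_on a b hab, hval.comp_on b a hab.symm⟩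
      obtain ⟨hne, h2 | ⟨h2, h3⟩ | h2 | ⟨Z, h2⟩⟩ := hab
      · exact absurd h2 hb
      · refine ⟨hne, Or.inr (Or.inl ⟨h2, ?_⟩)⟩
        rintro ⟨Z, hZM, heZ⟩
        by_cases hZ : Z = tri v
        · rw [hZ] at heZ
          exact hb (clq_mem.1 heZ).2
        · exact h3 ⟨Z, Finset.mem_erase.2 ⟨hZ, hZM⟩, heZ⟩
      · exact ⟨hne, Or.inr (Or.inr (Or.inl h2.1))⟩
      · by_cases hZ : Z = tri v
        · rw [hZ, T_self] at h2
          exact absurd h2 (fun h3 => h3)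
        · rw [T_ne hZ] at h2
          exact ⟨hne, Or.inr (Or.inr (Or.inr ⟨Z, h2⟩))⟩
  · rintro (⟨hab, ha, hb⟩ | hab)
    · by_cases hbb : a ∈ tri v ∧ b ∈ tri v
      · exact ⟨hab.1, Or.inl hbb⟩
      · have hsubR : ∀ x ∈ ({0, 1} : Finset ℕ), x ∈ tri v := by
          intro x hx
          rcases mem_R.1 hx with h2 | h2
          · exact mem_tri.2 (Or.inl h2)
          · exact mem_tri.2 (Or.inr (Or.inl h2))
        obtain ⟨hne, h2 | ⟨h2, h3⟩ | h2 | ⟨Z, h2⟩⟩ := hab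
        · exact absurd ⟨hsubR a h2.1, hsubR b h2.2⟩ hbb
        · refine ⟨hne, Or.inr (Or.inl ⟨h2, fun h4 => h3 ?_⟩)⟩
          exact cov_mono (Finset.erase_subset _ _) h4
        · refine ⟨hne, Or.inr (Or.inr (Or.inl ⟨h2, fun h4 => hbb ?_⟩))⟩
          exact (clq_mem.1 h4).2
        · by_cases hZ : Z = tri v
          · exfalso
            rw [hZ] at h2
            obtain ⟨-, h3, h4, -⟩ := h.T_mem h2
            have key : ∀ x, x ∈ tri v ∪ c.V (tri v) →
                x ∈ tri v ∪ (U \ insert v (c.V (tri v))) → x ∈ tri v := by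
              intro x hx hx'
              rcases Finset.mem_union.1 hx with h5 | h5
              · exact h5
              · rcases Finset.mem_union.1 hx' with h6 | h6
                · exact h6
                · exact absurd (Finset.mem_insert_of_mem h5) (Finset.mem_sdiff.1 h6).2
            exact hbb ⟨key a h3 ha, key b h4 hb⟩
          · refine ⟨hne, Or.inr (Or.inr (Or.inr ⟨Z, ?_⟩))⟩
            rw [T_ne hZ]
            exact h2
    · exact ⟨hab.1, Or.inl ⟨hab.2.1, hab.2.2⟩⟩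

theorem Code3.Valid.mark_comp (h : c.Valid {0, 1} U) (hX : tri v ∈ c.M) :
    v ∈ CG (c.comp {0, 1}) U ∧
      IsComp (c.comp {0, 1}) (U.erase v) (U \ insert v (c.V (tri v))) := by
  classical
  obtain ⟨h0, h1, hY, hU, hV⟩ := h.mark_v hX
  obtain ⟨hU0, hU1⟩ := not_U h
  constructor
  · unfold CG
    rw [Finset.mem_filter]
    exact ⟨hU, h.comp_shr hX⟩
  · have h2 := h.out_isComp hX
    have e1 : ({0, 1} ∪ U) \ tri v = U.erase v := by
      ext x
      rw [Finset.mem_sdiff, Finset.mem_union, mem_tri, mem_R, Finset.mem_erase]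
      constructor
      · rintro ⟨(h2 | h2) | h2, h3⟩
        · exact absurd (Or.inl h2) h3
        · exact absurd (Or.inr (Or.inl h2)) h3
        · exact ⟨fun h4 => h3 (Or.inr (Or.inr h4)), h2⟩
      · rintro ⟨h2, h3⟩
        refine ⟨Or.inr h3, ?_⟩
        rintro (h4 | h4 | h4)
        · exact hU0 (h4 ▸ h3)
        · exact hU1 (h4 ▸ h3)
        · exact h2 h4
    have e2 : ({0, 1} ∪ U) \ (tri v ∪ c.V (tri v)) = U \ insert v (c.V (tri v)) := by
      ext x
      rw [Finset.mem_sdiff, Finset.mem_union, Finset.mem_union, mem_tri, mem_R, Finset.mem_sdiff,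
        Finset.mem_insert]
      constructor
      · rintro ⟨(h2 | h2) | h2, h3⟩
        · exact absurd (Or.inl (Or.inl h2)) h3
        · exact absurd (Or.inl (Or.inr (Or.inl h2))) h3
        · refine ⟨h2, ?_⟩
          rintro (h4 | h4)
          · exact h3 (Or.inl (Or.inr (Or.inr h4)))
          · exact h3 (Or.inr h4)
      · rintro ⟨h2, h3⟩
        refine ⟨Or.inr h2, ?_⟩
        rintro ((h4 | h4 | h4) | h4)
        · exact hU0 (h4 ▸ h2)
        · exact hU1 (h4 ▸ h2)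
        · exact h3 (Or.inl h4)
        · exact h3 (Or.inr h4)
    rw [e1, e2] at h2
    exact h2

theorem code_unique (h : c.Valid {0, 1} U) (h' : c'.Valid {0, 1} U)
    (hc : c.comp {0, 1} = c'.comp {0, 1}) (hX : tri v ∈ c.M) (hX' : tri v ∈ c'.M)
    (hV : c.V (tri v) = c'.V (tri v)) : c = c' := by
  have h1 := h.dn_valid hX
  have h2 := h'.dn_valid hX'
  rw [← hV] at h2
  have h3 : (c.dn v).comp (tri v) = (c'.dn v).comp (tri v) := by
    rw [h.dn_comp hX, h'.dn_comp hX', hc, hV]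
  have h4 := Code3.Valid.inj3 (h.mark _ hX).1.2.1 h1 h2 h3
  have h5 : c.M.erase (tri v) = c'.M.erase (tri v) := congrArg Code3.M h4
  have hM : c.M = c'.M := by
    rw [← Finset.insert_erase hX, ← Finset.insert_erase hX', h5]
  refine h.recover h' hc hM fun Z hZ => ?_
  by_cases hZ' : Z = tri v
  · rw [hZ']; exact hV
  · have h6 : (c.dn v).V Z = (c'.dn v).V Z := by rw [h4]
    rw [V_ne hZ', V_ne hZ'] at h6
    exact h6

end K5
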