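import Pool.Agent.Lib.K5.ZK33

/-!
# K5.DEx33: exactly 6 labelled copies of `K_{3,3}` contain the edge `01`

For `A' ∈ powersetCard 2 {2, 3, 4, 5}` let `A = {0} ∪ A'`, `B = range 6 \ A`; the complete bipartite graph with the classes `A, B` is a copy that contains `01` (`1 ∈ B`). Different `A'` give different graphs (`A` is the set of the vertices that are `0` or have a common neighbour with `0`, i.e. the vertices not joined to `0`, in
`range 6`). So there are at least 6 copies; at most 6 by the argument of K5.ZK33 (every copy is of this form). Every copy has `ecard = 8` (`k33_ecard`). `x^4 / 24 * (6 * z^8) = x^4 * z^8 / 4`; the other coefficients are `0` because `{0, 1} ∪ Ico 2 (n + 2)` has `n + 2 = 6` elements.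
-/

namespace K5

open Finset
open scoped ENNReal

namespace DEx33Aux

/-- The complete bipartite graph with the classes `A`, `B`. -/
def bg (A B : Finset ℕ) : Gr where
  Adj a b := a ≠ b ∧ ((a ∈ A ∧ b ∈ B) ∨ (a ∈ B ∧ b ∈ A))
  symm := ⟨fun _ _ h => ⟨h.1.symm, h.2.elim (fun h => Or.inr ⟨h.2, h.1⟩)
    (fun h => Or.inl ⟨h.2, h.1⟩)⟩⟩
  loopless := ⟨fun _ h => h.1 rfl⟩

theorem bg_adj {A B : Finset ℕ} (hd : Disjoint A B) (a b : ℕ) :
    (bg A B).Adj a b ↔ (a ∈ A ∧ b ∈ B) ∨ (a ∈ B ∧ b ∈ A) := by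
  constructor
  · exact fun h => h.2
  · intro h
    refine ⟨?_, h⟩
    rintro rfl
    rcases h with h | h
    · exact Finset.disjoint_left.1 hd h.1 h.2
    · exact Finset.disjoint_left.1 hd h.2 h.1

theorem W_card : (({0, 1} : Finset ℕ) ∪ Ico 2 6).card = 6 := by decide

theorem bg_k33 {X : Finset ℕ} (hX : X ∈ powersetCard 2 (Ico 2 6)) :
    IsK33 (bg (insert 0 X) (({0, 1} ∪ Ico 2 6) \ insert 0 X)) ({0, 1} ∪ Ico 2 6) ∧
      clq {0, 1} ≤ bg (insert 0 X) (({0, 1} ∪ Ico 2 6) \ insert 0 X) := by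
  obtain ⟨h1, h2⟩ := Finset.mem_powersetCard.1 hX
  have h0 : (0 : ℕ) ∉ X := fun h => by
    have := Finset.mem_Ico.1 (h1 h)
    omega
  have h1X : (1 : ℕ) ∉ X := fun h => by
    have := Finset.mem_Ico.1 (h1 h)
    omega
  have hsub : insert 0 X ⊆ ({0, 1} : Finset ℕ) ∪ Ico 2 6 := by
    intro y hy
    rcases Finset.mem_insert.1 hy with rfl | hy
    · exact Finset.mem_union_left _ (Finset.mem_insert_self _ _)
    · exact Finset.mem_union_right _ (h1 hy)
  have hd : Disjoint (insert 0 X) (({0, 1} ∪ Ico 2 6) \ insert 0 X) := Finset.disjoint_sdiff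
  have hc : (insert 0 X).card = 3 := by rw [Finset.card_insert_of_notMem h0, h2]
  refine ⟨⟨insert 0 X, ({0, 1} ∪ Ico 2 6) \ insert 0 X, ?_, hd, hc, ?_, bg_adj hd⟩, ?_⟩
  · exact (Finset.union_sdiff_of_subset hsub).symm
  · rw [Finset.card_sdiff_of_subset hsub, W_card, hc]
  · intro a b hab
    obtain ⟨hne, ha, hb⟩ := hab
    rw [Finset.mem_insert, Finset.mem_singleton] at ha hb
    rw [bg_adj hd]
    have hm0 : (0 : ℕ) ∈ insert 0 X := Finset.mem_insert_self _ _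
    have hm1 : (1 : ℕ) ∈ (({0, 1} : Finset ℕ) ∪ Ico 2 6) \ insert 0 X := by
      rw [Finset.mem_sdiff, Finset.mem_insert]
      refine ⟨by decide, ?_⟩
      rintro (h | h)
      · omega
      · exact h1X h
    rcases ha with rfl | rfl
    · rcases hb with rfl | rfl
      · exact absurd rfl hne
      · exact Or.inl ⟨hm0, hm1⟩
    · rcases hb with rfl | rfl
      · exact Or.inr ⟨hm1, hm0⟩
      · exact absurd rfl hne

theorem mem_iff {X : Finset ℕ} (hX : X ∈ powersetCard 2 (Ico 2 6)) (y : ℕ) :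
    y ∈ X ↔ y ∈ Ico 2 6 ∧ (bg (insert 0 X) (({0, 1} ∪ Ico 2 6) \ insert 0 X)).Adj 1 y := by
  obtain ⟨h1, h2⟩ := Finset.mem_powersetCard.1 hX
  have h1X : (1 : ℕ) ∉ insert 0 X := fun h => by
    rcases Finset.mem_insert.1 h with h | h
    · omega
    · have := Finset.mem_Ico.1 (h1 h)
      omega
  rw [bg_adj Finset.disjoint_sdiff]
  constructor
  · intro hy
    refine ⟨h1 hy, Or.inr ⟨?_, Finset.mem_insert_of_mem hy⟩⟩
    exact Finset.mem_sdiff.2 ⟨by decide, h1X⟩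
  · rintro ⟨h3, h4⟩
    rcases h4 with h4 | h4
    · exact absurd h4.1 h1X
    · rcases Finset.mem_insert.1 h4.2 with h5 | h5
      · have := Finset.mem_Ico.1 h3
        omega
      · exact h5

theorem le_k33w (z : ℝ≥0∞) : 6 * z ^ 8 ≤ k33w z (Ico 2 6) := by
  classical
  let i : {X // X ∈ powersetCard 2 (Ico 2 6)} →
      {G : Gr // IsK33 G ({0, 1} ∪ Ico 2 6) ∧ clq {0, 1} ≤ G} :=
    fun X => ⟨bg (insert 0 X.1) (({0, 1} ∪ Ico 2 6) \ insert 0 X.1), bg_k33 X.2⟩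
  have hi : Function.Injective i := by
    intro X Y hXY
    have h1 : bg (insert 0 X.1) (({0, 1} ∪ Ico 2 6) \ insert 0 X.1) =
        bg (insert 0 Y.1) (({0, 1} ∪ Ico 2 6) \ insert 0 Y.1) := congrArg Subtype.val hXY
    apply Subtype.ext
    ext y
    rw [mem_iff X.2, mem_iff Y.2, h1]
  have h8 : ∀ G : {G : Gr // IsK33 G ({0, 1} ∪ Ico 2 6) ∧ clq {0, 1} ≤ G},
      z ^ ecard {0, 1} G.1 = z ^ 8 := by
    intro G
    rw [k33_ecard G.2.1 G.2.2]
  unfold k33w
  rw [tsum_congr h8]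
  refine le_trans (le_of_eq ?_) (ENNReal.tsum_comp_le_tsum_of_injective hi (fun _ => z ^ 8))
  rw [tsum_fintype, Finset.sum_const, Finset.card_univ, Fintype.card_coe,
    Finset.card_powersetCard, Nat.card_Ico, nsmul_eq_mul]
  have h9 : Nat.choose (6 - 2) 2 = 6 := by decide
  rw [h9]
  norm_num

end DEx33Aux

theorem egf_k33w_eq (x z : ℝ≥0∞) :
    egf (fun n => k33w z (Ico 2 (n + 2))) x = x ^ 4 * z ^ 8 / 4 := by
  refine le_antisymm (egf_k33w x z) ?_
  have h0 : x ^ 4 / ((4 : ℕ).factorial : ℝ≥0∞) * k33w z (Ico 2 (4 + 2)) ≤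
      egf (fun n => k33w z (Ico 2 (n + 2))) x := by
    unfold egf
    exact ENNReal.le_tsum (f := fun n : ℕ => x ^ n / (n.factorial : ℝ≥0∞) *
      k33w z (Ico 2 (n + 2))) 4
  refine le_trans ?_ h0
  have h1 : x ^ 4 / ((4 : ℕ).factorial : ℝ≥0∞) * (6 * z ^ 8) ≤
      x ^ 4 / ((4 : ℕ).factorial : ℝ≥0∞) * k33w z (Ico 2 (4 + 2)) := by
    gcongr
    exact DEx33Aux.le_k33w z
  refine le_trans (le_of_eq ?_) h1
  have h2 : ((4 : ℕ).factorial : ℝ≥0∞) = 6 * 4 := by
    norm_num [Nat.factorial]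
  rw [h2, div_eq_mul_inv, div_eq_mul_inv, ENNReal.mul_inv (by norm_num) (by norm_num)]
  symm
  calc x ^ 4 * (6⁻¹ * 4⁻¹) * (6 * z ^ 8) = (6⁻¹ * 6) * (x ^ 4 * z ^ 8 * 4⁻¹) := by ring
    _ = x ^ 4 * z ^ 8 * 4⁻¹ := by
      rw [ENNReal.inv_mul_cancel (by norm_num) (by norm_num), one_mul]

end K5
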