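import Pool.Agent.Lib.K5.ZV8

/-!
# K5.DEx8: exactly 1080 labelled copies of the Wagner graph contain the edge `01`

In K5.ZV8 (helper98) it is shown that the copies on `range 8` that contain `01` are in the union of the images of `σ ↦ gr (FA σ)` (all 720 permutations) and `σ ↦ gr (FB σ)` (the 360 permutations with `σ 0 < σ 1`). For equality: these graphs are copies that contain `01`, the two maps are injective and the images are disjoint.
1. `gr f` for a bijection `f` of `ZMod 8` onto `range 8`: an isomorphism argument reduces everything to automorphisms of the Wagner graph `W8`: if `gr f = gr f'` then `f'⁻¹ ∘ f` is an automorphism of `W8`. The automorphisms of `W8` are exactly the 16 maps `i ↦ c + i`, `i ↦ c - i`: an edge `{i, i+4}` is in exactly two 4-cycles and an edge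
`{i, i+1}` is in exactly one 4-cycle (`decide`: count common structure, e.g. the number of pairs `(a, b)` with `i ~ a ~ b ~ j`, `a ≠ j`, `b ≠ i`), so an automorphism preserves the relation `j = i ± 1` and is a rotation or a reflection of the 8-cycle (`decide` by induction along the cycle: `φ (i + 1) - φ i = φ 1 - φ 0 = ± 1` since `φ` is injective).
2. An automorphism that fixes `0` and `1` is the identity; one that fixes `0` and `4` is the identity or `i ↦ -i`, which exchanges `1` and `7`; no automorphism maps the pair `(0, 1)` to the pair `(0, 4)`. So `FA` gives 720 different graphs, `FB` on `σ 0 < σ 1` gives 360 different graphs (`FB σ' = FB σ ∘ neg` would exchange the order of `σ 0` and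
`σ 1`), and a graph `gr (FA σ) = gr (FB σ')` would give an automorphism that maps `0 ↦ 0`, `1 ↦ 4`.
3. `360` permutations have `σ 0 < σ 1`: as in `half` (K5.ZV8) both classes have the same size and the sum is `720`.
4. Then `v8w z (Ico 2 8) = 1080 * z ^ 11`, and the other coefficients are `0` (as in the proof of `egf_v8w`).
-/

namespace K5

open Finset
open scoped ENNReal

namespace DEx8Aux

open ZV8Aux

/-- Neighbours along the 8-cycle, in terms of `rel` only. -/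
def cy (i j : ZMod 8) : Prop :=
  rel i j ∧ ∃ a, rel i a ∧ a ≠ j ∧ ∀ b, b ≠ i → rel a b → ¬ rel b j

instance : DecidableRel cy := fun i j => by unfold cy; infer_instance

theorem cy_iff : ∀ i j, cy i j ↔ (j = i + 1 ∨ j = i - 1) := by decide +kernel

theorem cy_map {φ : ZMod 8 → ZMod 8} (hi : Function.Injective φ)
    (hr : ∀ i j, rel i j ↔ rel (φ i) (φ j)) {i j : ZMod 8} (h : cy i j) : cy (φ i) (φ j) := by
  obtain ⟨h1, a, h2, h3, h4⟩ := h
  refine ⟨(hr i j).1 h1, φ a, (hr i a).1 h2, fun h => h3 (hi h), fun b hb hab hbj => ?_⟩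
  obtain ⟨b', rfl⟩ := Finite.surjective_of_injective hi b
  exact h4 b' (fun h => hb (by rw [h])) ((hr _ _).2 hab) ((hr _ _).2 hbj)

theorem ne2 : ∀ i : ZMod 8, i + 1 + 1 ≠ i := by decide

theorem step {φ : ZMod 8 → ZMod 8} (hi : Function.Injective φ)
    (hr : ∀ i j, rel i j ↔ rel (φ i) (φ j)) (i : ZMod 8) :
    φ (i + 1) = φ i + 1 ∨ φ (i + 1) = φ i - 1 :=
  (cy_iff _ _).1 (cy_map hi hr ((cy_iff i (i + 1)).2 (Or.inl rfl)))

theorem step_pos {φ : ZMod 8 → ZMod 8} (hi : Function.Injective φ)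
    (hr : ∀ i j, rel i j ↔ rel (φ i) (φ j)) {i : ZMod 8} (h : φ (i + 1) = φ i + 1) :
    φ (i + 1 + 1) = φ (i + 1) + 1 := by
  rcases step hi hr (i + 1) with h' | h'
  · exact h'
  · exfalso
    rw [h, add_sub_cancel_right] at h'
    exact ne2 i (hi h')

theorem step_neg {φ : ZMod 8 → ZMod 8} (hi : Function.Injective φ)
    (hr : ∀ i j, rel i j ↔ rel (φ i) (φ j)) {i : ZMod 8} (h : φ (i + 1) = φ i - 1) :
    φ (i + 1 + 1) = φ (i + 1) - 1 := by
  rcases step hi hr (i + 1) with h' | h'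
  · exfalso
    rw [h, sub_add_cancel] at h'
    exact ne2 i (hi h')
  · exact h'

theorem all_pos {φ : ZMod 8 → ZMod 8} (hi : Function.Injective φ)
    (hr : ∀ i j, rel i j ↔ rel (φ i) (φ j)) (h0 : φ 0 = 0) (h1 : φ 1 = 1) : ∀ i, φ i = i := by
  have k0 : φ (0 + 1) = φ 0 + 1 := by rw [zero_add, h0, h1, zero_add]
  have k1 := step_pos hi hr k0
  have k2 := step_pos hi hr k1
  have k3 := step_pos hi hr k2
  have k4 := step_pos hi hr k3
  have k5 := step_pos hi hr k4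
  have k6 := step_pos hi hr k5
  have e2 : φ 2 = 2 := by
    have : φ 2 = φ (0 + 1) + 1 := k1
    rw [this, k0, h0]; decide
  have e3 : φ 3 = 3 := by
    have : φ 3 = φ 2 + 1 := k2
    rw [this, e2]; decide
  have e4 : φ 4 = 4 := by
    have : φ 4 = φ 3 + 1 := k3
    rw [this, e3]; decide
  have e5 : φ 5 = 5 := by
    have : φ 5 = φ 4 + 1 := k4
    rw [this, e4]; decide
  have e6 : φ 6 = 6 := by
    have : φ 6 = φ 5 + 1 := k5
    rw [this, e5]; decide
  have e7 : φ 7 = 7 := by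
    have : φ 7 = φ 6 + 1 := k6
    rw [this, e6]; decide
  intro i
  fin_cases i
  · exact h0
  · exact h1
  · exact e2
  · exact e3
  · exact e4
  · exact e5
  · exact e6
  · exact e7

theorem seven_of_neg {φ : ZMod 8 → ZMod 8} (hi : Function.Injective φ)
    (hr : ∀ i j, rel i j ↔ rel (φ i) (φ j)) (h0 : φ 0 = 0) (h1 : φ 1 = 7) : φ 7 = 1 := by
  have k0 : φ (0 + 1) = φ 0 - 1 := by rw [zero_add, h0, h1]; decide
  have k1 := step_neg hi hr k0
  have k2 := step_neg hi hr k1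
  have k3 := step_neg hi hr k2
  have k4 := step_neg hi hr k3
  have k5 := step_neg hi hr k4
  have k6 := step_neg hi hr k5
  have e2 : φ 2 = 6 := by
    have : φ 2 = φ (0 + 1) - 1 := k1
    rw [this, k0, h0]; decide
  have e3 : φ 3 = 5 := by
    have : φ 3 = φ 2 - 1 := k2
    rw [this, e2]; decide
  have e4 : φ 4 = 4 := by
    have : φ 4 = φ 3 - 1 := k3
    rw [this, e3]; decide
  have e5 : φ 5 = 3 := by
    have : φ 5 = φ 4 - 1 := k4
    rw [this, e4]; decide
  have e6 : φ 6 = 2 := by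
    have : φ 6 = φ 5 - 1 := k5
    rw [this, e5]; decide
  have : φ 7 = φ 6 - 1 := k6
  rw [this, e6]; decide

/-- A labelling of the vertices of the Wagner graph. -/
structure Lb (f : ZMod 8 → ℕ) : Prop where
  lt : ∀ i, f i < 8
  surj : ∀ n, n < 8 → ∃ i, f i = n

theorem Lb.inj {f : ZMod 8 → ℕ} (h : Lb f) : Function.Injective f := by
  have hs : Function.Surjective (fun i : ZMod 8 => (⟨f i, h.lt i⟩ : Fin 8)) := by
    intro n
    obtain ⟨i, hi⟩ := h.surj n n.2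
    exact ⟨i, Fin.ext hi⟩
  have hc : Fintype.card (ZMod 8) = Fintype.card (Fin 8) := by
    rw [ZMod.card, Fintype.card_fin]
  have hb := (Fintype.bijective_iff_surjective_and_card _).2 ⟨hs, hc⟩
  intro i j hij
  exact hb.1 (Fin.ext hij)

theorem lb_of {f : ZMod 8 → ℕ} {c : ZMod 8} {σ : Equiv.Perm (Fin 6)} {p : Fin 6 → ZMod 8}
    (hlt : ∀ i, f i < 8) (h0 : f 0 = 0) (hc : f c = 1) (hp : ∀ k, f (p k) = (σ k : ℕ) + 2) :
    Lb f := by
  refine ⟨hlt, fun n hn => ?_⟩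
  rcases Nat.lt_or_ge n 2 with h | h
  · rcases Nat.lt_or_ge n 1 with h' | h'
    · exact ⟨0, by rw [h0]; omega⟩
    · exact ⟨c, by rw [hc]; omega⟩
  · refine ⟨p (σ.symm ⟨n - 2, by omega⟩), ?_⟩
    rw [hp, Equiv.apply_symm_apply]
    show n - 2 + 2 = n
    omega

theorem gr_adj {f : ZMod 8 → ℕ} (hf : Function.Injective f) (a b : ℕ) :
    (gr f).Adj a b ↔ ∃ i j, a = f i ∧ b = f j ∧ rel i j := by
  unfold gr
  rw [SimpleGraph.fromRel_adj]
  constructor
  · rintro ⟨-, h | ⟨i, j, h1, h2, h3⟩⟩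
    · exact h
    · exact ⟨j, i, h2, h1, rel_symm _ _ h3⟩
  · rintro ⟨i, j, h1, h2, h3⟩
    refine ⟨fun h => ?_, Or.inl ⟨i, j, h1, h2, h3⟩⟩
    rw [h1, h2] at h
    rw [hf h] at h3
    exact rel_irrefl _ h3

theorem gr_adj' {f : ZMod 8 → ℕ} (hf : Function.Injective f) (i j : ZMod 8) :
    (gr f).Adj (f i) (f j) ↔ rel i j := by
  rw [gr_adj hf]
  constructor
  · rintro ⟨i', j', h1, h2, h3⟩
    rw [hf h1, hf h2]
    exact h3
  · intro h
    exact ⟨i, j, rfl, rfl, h⟩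

/-- Two labellings with the same graph differ by an automorphism. -/
theorem exists_auto {f f' : ZMod 8 → ℕ} (h : Lb f) (h' : Lb f') (he : gr f = gr f') :
    ∃ φ : ZMod 8 → ZMod 8, Function.Injective φ ∧ (∀ i, f' (φ i) = f i) ∧
      ∀ i j, rel i j ↔ rel (φ i) (φ j) := by
  have hex : ∀ i, ∃ j, f' j = f i := fun i => h'.surj _ (h.lt i)
  choose φ hφ using hex
  refine ⟨φ, fun i j hij => h.inj ?_, hφ, fun i j => ?_⟩
  · rw [← hφ i, ← hφ j, hij]
  · rw [← gr_adj' h.inj, ← gr_adj' h'.inj, hφ, hφ, he]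

theorem lbA (σ : Equiv.Perm (Fin 6)) : Lb (FA σ) := by
  refine lb_of (c := 1) (σ := σ) (p := ![2, 3, 4, 5, 6, 7]) ?_ rfl rfl ?_
  · intro i
    fin_cases i
    · exact (by norm_num : 0 < 8)
    · exact (by norm_num : 1 < 8)
    · exact Nat.add_lt_add_right (σ 0).2 2
    · exact Nat.add_lt_add_right (σ 1).2 2
    · exact Nat.add_lt_add_right (σ 2).2 2
    · exact Nat.add_lt_add_right (σ 3).2 2
    · exact Nat.add_lt_add_right (σ 4).2 2
    · exact Nat.add_lt_add_right (σ 5).2 2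
  · intro k
    fin_cases k <;> rfl

theorem lbB (σ : Equiv.Perm (Fin 6)) : Lb (FB σ) := by
  refine lb_of (c := 4) (σ := σ) (p := ![1, 7, 2, 3, 5, 6]) ?_ rfl rfl ?_
  · intro i
    fin_cases i
    · exact (by norm_num : 0 < 8)
    · exact Nat.add_lt_add_right (σ 0).2 2
    · exact Nat.add_lt_add_right (σ 2).2 2
    · exact Nat.add_lt_add_right (σ 3).2 2
    · exact (by norm_num : 1 < 8)
    · exact Nat.add_lt_add_right (σ 4).2 2
    · exact Nat.add_lt_add_right (σ 5).2 2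
    · exact Nat.add_lt_add_right (σ 1).2 2
  · intro k
    fin_cases k <;> rfl

theorem fa0 (σ : Equiv.Perm (Fin 6)) : FA σ 0 = 0 := rfl
theorem fa1 (σ : Equiv.Perm (Fin 6)) : FA σ 1 = 1 := rfl
theorem fa2 (σ : Equiv.Perm (Fin 6)) : FA σ 2 = (σ 0 : ℕ) + 2 := rfl
theorem fa3 (σ : Equiv.Perm (Fin 6)) : FA σ 3 = (σ 1 : ℕ) + 2 := rfl
theorem fa4 (σ : Equiv.Perm (Fin 6)) : FA σ 4 = (σ 2 : ℕ) + 2 := rfl
theorem fa5 (σ : Equiv.Perm (Fin 6)) : FA σ 5 = (σ 3 : ℕ) + 2 := rfl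
theorem fa6 (σ : Equiv.Perm (Fin 6)) : FA σ 6 = (σ 4 : ℕ) + 2 := rfl
theorem fa7 (σ : Equiv.Perm (Fin 6)) : FA σ 7 = (σ 5 : ℕ) + 2 := rfl

theorem fb0 (σ : Equiv.Perm (Fin 6)) : FB σ 0 = 0 := rfl
theorem fb1 (σ : Equiv.Perm (Fin 6)) : FB σ 1 = (σ 0 : ℕ) + 2 := rfl
theorem fb2 (σ : Equiv.Perm (Fin 6)) : FB σ 2 = (σ 2 : ℕ) + 2 := rfl
theorem fb3 (σ : Equiv.Perm (Fin 6)) : FB σ 3 = (σ 3 : ℕ) + 2 := rfl
theorem fb4 (σ : Equiv.Perm (Fin 6)) : FB σ 4 = 1 := rfl
theorem fb5 (σ : Equiv.Perm (Fin 6)) : FB σ 5 = (σ 4 : ℕ) + 2 := rfl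
theorem fb6 (σ : Equiv.Perm (Fin 6)) : FB σ 6 = (σ 5 : ℕ) + 2 := rfl
theorem fb7 (σ : Equiv.Perm (Fin 6)) : FB σ 7 = (σ 1 : ℕ) + 2 := rfl

theorem injA : Function.Injective (fun σ : Equiv.Perm (Fin 6) => gr (FA σ)) := by
  intro σ τ he
  obtain ⟨φ, hi, hφ, hr⟩ := exists_auto (lbA σ) (lbA τ) he
  have h0 : φ 0 = 0 := (lbA τ).inj ((hφ 0).trans ((fa0 σ).trans (fa0 τ).symm))
  have h1 : φ 1 = 1 := (lbA τ).inj ((hφ 1).trans ((fa1 σ).trans (fa1 τ).symm))
  have hid := all_pos hi hr h0 h1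
  have hf : ∀ i, FA τ i = FA σ i := fun i => by
    have := hφ i
    rwa [hid i] at this
  apply Equiv.ext
  intro k
  apply Fin.ext
  have e0 : (τ 0 : ℕ) + 2 = (σ 0 : ℕ) + 2 := by
    rw [← fa2 τ, ← fa2 σ]; exact hf 2
  have e1 : (τ 1 : ℕ) + 2 = (σ 1 : ℕ) + 2 := by
    rw [← fa3 τ, ← fa3 σ]; exact hf 3
  have e2 : (τ 2 : ℕ) + 2 = (σ 2 : ℕ) + 2 := by
    rw [← fa4 τ, ← fa4 σ]; exact hf 4
  have e3 : (τ 3 : ℕ) + 2 = (σ 3 : ℕ) + 2 := by
    rw [← fa5 τ, ← fa5 σ]; exact hf 5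
  have e4 : (τ 4 : ℕ) + 2 = (σ 4 : ℕ) + 2 := by
    rw [← fa6 τ, ← fa6 σ]; exact hf 6
  have e5 : (τ 5 : ℕ) + 2 = (σ 5 : ℕ) + 2 := by
    rw [← fa7 τ, ← fa7 σ]; exact hf 7
  fin_cases k
  · exact (Nat.add_right_cancel e0).symm
  · exact (Nat.add_right_cancel e1).symm
  · exact (Nat.add_right_cancel e2).symm
  · exact (Nat.add_right_cancel e3).symm
  · exact (Nat.add_right_cancel e4).symm
  · exact (Nat.add_right_cancel e5).symm

theorem injB {σ τ : Equiv.Perm (Fin 6)} (hs : σ 0 < σ 1) (ht : τ 0 < τ 1)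
    (he : gr (FB σ) = gr (FB τ)) : σ = τ := by
  obtain ⟨φ, hi, hφ, hr⟩ := exists_auto (lbB σ) (lbB τ) he
  have h0 : φ 0 = 0 := (lbB τ).inj ((hφ 0).trans ((fb0 σ).trans (fb0 τ).symm))
  rcases step hi hr 0 with h1 | h1
  · have h1' : φ 1 = 1 := by
      rw [h0, zero_add] at h1
      exact h1
    have hid := all_pos hi hr h0 h1'
    have hf : ∀ i, FB τ i = FB σ i := fun i => by
      have := hφ i
      rwa [hid i] at this
    apply Equiv.ext
    intro k
    apply Fin.ext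
    have e0 : (τ 0 : ℕ) + 2 = (σ 0 : ℕ) + 2 := by
      rw [← fb1 τ, ← fb1 σ]; exact hf 1
    have e1 : (τ 1 : ℕ) + 2 = (σ 1 : ℕ) + 2 := by
      rw [← fb7 τ, ← fb7 σ]; exact hf 7
    have e2 : (τ 2 : ℕ) + 2 = (σ 2 : ℕ) + 2 := by
      rw [← fb2 τ, ← fb2 σ]; exact hf 2
    have e3 : (τ 3 : ℕ) + 2 = (σ 3 : ℕ) + 2 := by
      rw [← fb3 τ, ← fb3 σ]; exact hf 3
    have e4 : (τ 4 : ℕ) + 2 = (σ 4 : ℕ) + 2 := by
      rw [← fb5 τ, ← fb5 σ]; exact hf 5
    have e5 : (τ 5 : ℕ) + 2 = (σ 5 : ℕ) + 2 := by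
      rw [← fb6 τ, ← fb6 σ]; exact hf 6
    fin_cases k
    · exact (Nat.add_right_cancel e0).symm
    · exact (Nat.add_right_cancel e1).symm
    · exact (Nat.add_right_cancel e2).symm
    · exact (Nat.add_right_cancel e3).symm
    · exact (Nat.add_right_cancel e4).symm
    · exact (Nat.add_right_cancel e5).symm
  · exfalso
    have h1' : φ 1 = 7 := by
      rw [h0, zero_add] at h1
      rw [h1]; decide
    have h7 := seven_of_neg hi hr h0 h1'
    have a1 := hφ 1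
    have a7 := hφ 7
    rw [h1'] at a1
    rw [h7] at a7
    have b1 : (τ 1 : ℕ) + 2 = (σ 0 : ℕ) + 2 := by
      rw [← fb7 τ, ← fb1 σ]; exact a1
    have b7 : (τ 0 : ℕ) + 2 = (σ 1 : ℕ) + 2 := by
      rw [← fb1 τ, ← fb7 σ]; exact a7
    rw [Fin.lt_def] at hs ht
    omega

theorem disAB (σ τ : Equiv.Perm (Fin 6)) : gr (FA σ) ≠ gr (FB τ) := by
  intro he
  obtain ⟨φ, hi, hφ, hr⟩ := exists_auto (lbA σ) (lbB τ) he
  have h0 : φ 0 = 0 := (lbB τ).inj ((hφ 0).trans ((fa0 σ).trans (fb0 τ).symm))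
  have h1 : φ 1 = 4 := (lbB τ).inj ((hφ 1).trans ((fa1 σ).trans (fb4 τ).symm))
  have h := cy_map hi hr ((cy_iff 0 1).2 (Or.inl (by decide)))
  rw [h0, h1] at h
  revert h
  decide +kernel

theorem half_eq : (univ.filter (fun σ : Equiv.Perm (Fin 6) => σ 0 < σ 1)).card = 360 := by
  have h1 : (univ.filter (fun σ : Equiv.Perm (Fin 6) => σ 0 < σ 1)).card =
      (univ.filter (fun σ : Equiv.Perm (Fin 6) => ¬ σ 0 < σ 1)).card := by
    refine Finset.card_equiv (Equiv.mulRight (Equiv.swap 0 1)) ?_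
    intro σ
    rw [mem_filter, mem_filter]
    have hne : σ 0 ≠ σ 1 := fun h => absurd (σ.injective h) (by decide)
    simp only [mem_univ, true_and, Equiv.coe_mulRight, Equiv.Perm.mul_apply,
      Equiv.swap_apply_left, Equiv.swap_apply_right]
    constructor
    · intro h
      exact not_lt.2 h.le
    · intro h
      exact lt_of_le_of_ne (not_lt.1 h) hne
  have h2 := Finset.card_filter_add_card_filter_not (s := (univ : Finset (Equiv.Perm (Fin 6))))
    (fun σ : Equiv.Perm (Fin 6) => σ 0 < σ 1)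
  rw [← h1, Finset.card_univ, Fintype.card_perm, Fintype.card_fin] at h2
  have h4 : Nat.factorial 6 = 720 := by decide
  omega

theorem TT_card_eq : TT.card = 1080 := by
  classical
  unfold TT
  rw [Finset.card_union_of_disjoint]
  · rw [Finset.card_image_of_injective _ injA, Finset.card_univ, Fintype.card_perm,
      Fintype.card_fin, Finset.card_image_of_injOn, half_eq]
    · decide
    · intro σ hs τ ht he
      exact injB (mem_filter.1 (mem_coe.1 hs)).2 (mem_filter.1 (mem_coe.1 ht)).2 he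
  · rw [Finset.disjoint_left]
    intro G hA hB
    obtain ⟨σ, -, hσ⟩ := mem_image.1 hA
    obtain ⟨τ, -, hτ⟩ := mem_image.1 hB
    exact disAB σ τ (hσ.trans hτ.symm)

theorem cls_of {f : ZMod 8 → ℕ} (h : Lb f) {c : ZMod 8} (h0 : f 0 = 0) (hc : f c = 1)
    (hr : rel 0 c) : IsV8 (gr f) ({0, 1} ∪ Ico 2 8) ∧ clq {0, 1} ≤ gr f := by
  have h01 : (gr f).Adj 0 1 := (gr_adj h.inj 0 1).2 ⟨0, c, h0.symm, hc.symm, hr⟩
  refine ⟨⟨f, h.inj, ?_, gr_adj h.inj⟩, ?_⟩
  · ext n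
    rw [mem_union, mem_insert, mem_singleton, mem_Ico, mem_image]
    constructor
    · intro hn
      obtain ⟨i, hi⟩ := h.surj n (by omega)
      exact ⟨i, mem_univ i, hi⟩
    · rintro ⟨i, -, hi⟩
      have := h.lt i
      omega
  · rintro a b ⟨hab, ha, hb⟩
    rw [mem_insert, mem_singleton] at ha hb
    rcases ha with rfl | rfl <;> rcases hb with rfl | rfl
    · exact absurd rfl hab
    · exact h01
    · exact h01.symm
    · exact absurd rfl hab

theorem set_eq : {G : Gr | IsV8 G ({0, 1} ∪ Ico 2 8) ∧ clq {0, 1} ≤ G} = (TT : Set Gr) := by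
  classical
  apply Set.Subset.antisymm
  · rintro G ⟨⟨f, hinj, hW, hadj⟩, hG1⟩
    refine mem_coe.2 (memT hinj (fun i => ?_) hadj ?_)
    · have h2 : f i ∈ ({0, 1} ∪ Ico 2 8 : Finset ℕ) := by
        rw [hW]; exact mem_image_of_mem f (mem_univ i)
      rw [mem_union, mem_insert, mem_singleton, mem_Ico] at h2
      omega
    · have h2 : (clq {0, 1}).Adj 0 1 := ⟨by norm_num, by simp, by simp⟩
      exact hG1 h2
  · intro G hG
    unfold TT at hG
    rcases mem_union.1 (mem_coe.1 hG) with h | h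
    · obtain ⟨σ, -, hσ⟩ := mem_image.1 h
      rw [← hσ]
      exact cls_of (c := 1) (lbA σ) rfl rfl (by decide)
    · obtain ⟨σ, -, hσ⟩ := mem_image.1 h
      rw [← hσ]
      exact cls_of (c := 4) (lbB σ) rfl rfl (by decide)

theorem v8w_eq (z : ℝ≥0∞) : v8w z (Ico 2 8) = 1080 * z ^ 11 := by
  classical
  unfold v8w
  have h1 : ∀ G : {G : Gr // IsV8 G ({0, 1} ∪ Ico 2 8) ∧ clq {0, 1} ≤ G},
      z ^ ecard {0, 1} G.1 = z ^ 11 := by
    rintro ⟨G, hG, hG1⟩
    rw [v8_ecard hG hG1]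
  rw [tsum_congr h1]
  calc ∑' _ : {G : Gr // IsV8 G ({0, 1} ∪ Ico 2 8) ∧ clq {0, 1} ≤ G}, z ^ 11
      = ∑' _ : ({G : Gr | IsV8 G ({0, 1} ∪ Ico 2 8) ∧ clq {0, 1} ≤ G} : Set Gr), z ^ 11 := rfl
    _ = ∑' _ : (TT : Set Gr), z ^ 11 := by rw [set_eq]
    _ = ∑ _ ∈ TT, z ^ 11 := Finset.tsum_subtype' TT (fun _ => z ^ 11)
    _ = TT.card * z ^ 11 := by rw [Finset.sum_const, nsmul_eq_mul]
    _ = 1080 * z ^ 11 := by rw [TT_card_eq]; norm_num

end DEx8Aux

open DEx8Aux

theorem egf_v8w_eq (x z : ℝ≥0∞) :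
    egf (fun n => v8w z (Ico 2 (n + 2))) x = 3 / 2 * x ^ 6 * z ^ 11 := by
  unfold egf
  rw [tsum_eq_single 6]
  · have h1 : ((Nat.factorial 6 : ℕ) : ℝ≥0∞) = 720 := by
      have : Nat.factorial 6 = 720 := by decide
      rw [this]; norm_num
    rw [h1]
    calc x ^ 6 / 720 * v8w z (Ico 2 (6 + 2)) = x ^ 6 / 720 * (1080 * z ^ 11) := by
          rw [v8w_eq z]
      _ = 3 / 2 * x ^ 6 * z ^ 11 := by
        have h2 : (1080 : ℝ≥0∞) / 720 = 3 / 2 := by
          rw [ENNReal.div_eq_div_iff (by norm_num) (by norm_num) (by norm_num) (by norm_num)]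
          norm_num
        rw [← h2, div_eq_mul_inv, div_eq_mul_inv]
        ring
  · intro n hn
    have h2 : v8w z (Ico 2 (n + 2)) = 0 := by
      unfold v8w
      rw [ENNReal.tsum_eq_zero]
      rintro ⟨G, ⟨f, hinj, hW, -⟩, -⟩
      exfalso
      have h3 := congrArg Finset.card hW
      rw [Finset.card_image_of_injective _ hinj, Finset.card_univ, ZMod.card,
        Finset.card_union_of_disjoint, Nat.card_Ico, Finset.card_pair (by norm_num)] at h3
      · omega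
      · rw [Finset.disjoint_left]
        intro a ha ha'
        rw [mem_insert, mem_singleton] at ha
        rw [mem_Ico] at ha'
        omega
    show x ^ n / (n.factorial : ℝ≥0∞) * v8w z (Ico 2 (n + 2)) = 0
    rw [h2, mul_zero]

end K5
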