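import Pool.Agent.Lib.K5.DDefs
import Pool.Agent.Lib.K5.ExpF

/-!
# K5.DFwd: a graph with a shredder `{0, 1, v}` is a set of branches

`G` with `Rtd {0, 1} U G`, `v ∈ CG G U`, `X = tri v`, `W = {0, 1} ∪ U`, `W \ X = U.erase v`; `G' = tg G X (U.erase v)` (the edges of `G` in `W` that are not inside `X`).
1. `cg_sdiff`: `0, 1 ∉ U` (`disj`). `cg_ne`: `v ∈ U`, so `v ≠ 0, 1`.
2. `sep_of_comp`: for a component `C` of `G` in `U.erase v`: `Sep G X C (U.erase v \ C)` (`Shr.sep`).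
3. `tg_isComp`: `G` and `tg G X (U.erase v)` have the same edges inside `U.erase v` (`IsComp.congr` in both directions). So `compPart` has the same parts (`mem_compPart`, `Finset.ext`), `kk_tg`.
4. `fwd_all`: `AllK X (Branch X) (U.erase v) G'`: disjoint; `On G' (X ∪ U.erase v)`; no edges inside `X`; for a component `C` of `G'`, so of `G`: `Branch X C (rst G' (X ∪ C))`: `noX`; `rst G' (X ∪ C) ⊔ clq X = rst G (X ∪ C) ⊔ clq X` (an edge of `G` inside `X ∪ C` is inside `X` or an edge of `G'`), and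
`Rtd X C` of it is `Sep.rtd_X`.
5. `three_le`: three disjoint components (`Shr`), all nonempty, so three different parts: `3 ≤ parts.card` (`Finset.card_le_card` of `{C1, C2, C3}`).
6. `gl_tg`: `G = gl (G.edgeSet ∩ {s(0, v), s(1, v)}) (tg G X (U.erase v))`: an edge of `G` (inside `W` by `on`) is inside `X` (then it is `01`, `0v` or `1v`) or an edge of `tg`; `01` is an edge of `G` (`clique`).
7. `ecard_gl`: the edges of `G` outside `clq {0, 1}` are those of `G.edgeSet ∩ {s(0, v), s(1, v)}` and those of `tg` (disjoint: `s(0, v)`, `s(1, v)` are inside `X`); all finite.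
-/

namespace K5

open Finset

variable {U C : Finset ℕ} {G : Gr} {v : ℕ}

namespace DFwdAux

theorem mem_tri {a v : ℕ} : a ∈ tri v ↔ a = 0 ∨ a = 1 ∨ a = v := by
  simp [tri]

theorem mem_two {a : ℕ} : a ∈ ({0, 1} : Finset ℕ) ↔ a = 0 ∨ a = 1 := by
  simp

theorem ne_of_mem {U : Finset ℕ} {v : ℕ} (hd : Disjoint {0, 1} U) (hv : v ∈ U) :
    v ≠ 0 ∧ v ≠ 1 := by
  rw [Finset.disjoint_left] at hd
  constructor
  · rintro rfl
    exact hd (by simp) hv
  · rintro rfl
    exact hd (by simp) hv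

theorem disj {U : Finset ℕ} {v : ℕ} (hd : Disjoint {0, 1} U) :
    Disjoint (tri v) (U.erase v) := by
  rw [Finset.disjoint_left] at hd ⊢
  intro a ha hb
  rw [mem_tri] at ha
  rw [Finset.mem_erase] at hb
  rcases ha with ha | ha | ha
  · exact hd (mem_two.2 (Or.inl ha)) hb.2
  · exact hd (mem_two.2 (Or.inr ha)) hb.2
  · exact hb.1 ha

theorem mem_side {U : Finset ℕ} {a v : ℕ} (ha : a ∈ ({0, 1} : Finset ℕ) ∪ U) :
    a ∈ tri v ∪ U.erase v := by
  rw [Finset.mem_union, mem_two] at ha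
  rw [Finset.mem_union, mem_tri, Finset.mem_erase]
  rcases ha with (ha | ha) | ha
  · exact Or.inl (Or.inl ha)
  · exact Or.inl (Or.inr (Or.inl ha))
  · by_cases h : a = v
    · exact Or.inl (Or.inr (Or.inr h))
    · exact Or.inr ⟨h, ha⟩

theorem in_tri {G : Gr} {a b v : ℕ} (hab : G.Adj a b) (ha : a ∈ tri v) (hb : b ∈ tri v) :
    (a ∈ ({0, 1} : Finset ℕ) ∧ b ∈ ({0, 1} : Finset ℕ)) ∨
      s(a, b) ∈ ({s(0, v), s(1, v)} : Set (Sym2 ℕ)) := by
  have hne := hab.ne
  rw [mem_tri] at ha hb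
  simp only [mem_two, Set.mem_insert_iff, Set.mem_singleton_iff, Sym2.eq_iff]
  rcases ha with ha | ha | ha <;> rcases hb with hb | hb | hb
  · exact Or.inl ⟨Or.inl ha, Or.inl hb⟩
  · exact Or.inl ⟨Or.inl ha, Or.inr hb⟩
  · exact Or.inr (Or.inl (Or.inl ⟨ha, hb⟩))
  · exact Or.inl ⟨Or.inr ha, Or.inl hb⟩
  · exact Or.inl ⟨Or.inr ha, Or.inr hb⟩
  · exact Or.inr (Or.inr (Or.inl ⟨ha, hb⟩))
  · exact Or.inr (Or.inl (Or.inr ⟨ha, hb⟩))
  · exact Or.inr (Or.inr (Or.inr ⟨ha, hb⟩))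
  · exact absurd (ha.trans hb.symm) hne

theorem pair_tri {a b v : ℕ} (h : s(a, b) ∈ ({s(0, v), s(1, v)} : Set (Sym2 ℕ))) :
    a ∈ tri v ∧ b ∈ tri v := by
  simp only [Set.mem_insert_iff, Set.mem_singleton_iff, Sym2.eq_iff] at h
  rw [mem_tri, mem_tri]
  rcases h with (⟨ha, hb⟩ | ⟨ha, hb⟩) | (⟨ha, hb⟩ | ⟨ha, hb⟩)
  · exact ⟨Or.inl ha, Or.inr (Or.inr hb)⟩
  · exact ⟨Or.inr (Or.inr ha), Or.inl hb⟩
  · exact ⟨Or.inr (Or.inl ha), Or.inr (Or.inr hb)⟩
  · exact ⟨Or.inr (Or.inr ha), Or.inr (Or.inl hb)⟩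

theorem pair_not {a b v : ℕ} (h0 : v ≠ 0) (h1 : v ≠ 1)
    (h : s(a, b) ∈ ({s(0, v), s(1, v)} : Set (Sym2 ℕ))) :
    ¬ (a ∈ ({0, 1} : Finset ℕ) ∧ b ∈ ({0, 1} : Finset ℕ)) := by
  simp only [Set.mem_insert_iff, Set.mem_singleton_iff, Sym2.eq_iff] at h
  rw [mem_two, mem_two]
  omega

theorem two_tri {a v : ℕ} (ha : a ∈ ({0, 1} : Finset ℕ)) : a ∈ tri v := by
  rw [mem_two] at ha
  rw [mem_tri]
  tauto

end DFwdAux

open DFwdAux

theorem cg_mem (hv : v ∈ CG G U) : v ∈ U ∧ Shr G ({0, 1} ∪ U) (tri v) := by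
  classical
  unfold CG at hv
  exact Finset.mem_filter.1 hv

theorem cg_sdiff (hd : Disjoint {0, 1} U) : ({0, 1} ∪ U) \ tri v = U.erase v := by
  rw [Finset.disjoint_left] at hd
  ext a
  rw [Finset.mem_sdiff, Finset.mem_union, mem_two, mem_tri, Finset.mem_erase]
  constructor
  · rintro ⟨h1 | h1, h2⟩
    · exact absurd (h1.imp id Or.inl) h2
    · exact ⟨fun h => h2 (Or.inr (Or.inr h)), h1⟩
  · rintro ⟨h1, h2⟩
    refine ⟨Or.inr h2, ?_⟩
    rintro (h | h | h)
    · exact hd (mem_two.2 (Or.inl h)) h2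
    · exact hd (mem_two.2 (Or.inr h)) h2
    · exact h1 h

theorem sep_of_comp (h : Rtd {0, 1} U G) (hv : v ∈ CG G U) (hC : IsComp G (U.erase v) C) :
    Sep G (tri v) C (U.erase v \ C) ∧ tri v ∪ C ∪ (U.erase v \ C) = {0, 1} ∪ U := by
  have e := cg_sdiff (v := v) h.disj
  have h1 : IsComp G (({0, 1} ∪ U) \ tri v) C := by rwa [e]
  have h2 := Shr.sep h.on h.three h.free (cg_mem hv).2 h1
  rwa [e] at h2

theorem tg_isComp (hd : Disjoint (tri v) (U.erase v)) :
    IsComp (tg G (tri v) (U.erase v)) (U.erase v) C ↔ IsComp G (U.erase v) C := by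
  have key : ∀ a ∈ U.erase v, ∀ b ∈ U.erase v,
      (G.Adj a b ↔ (tg G (tri v) (U.erase v)).Adj a b) := by
    intro a ha b hb
    constructor
    · intro hab
      exact ⟨hab, Finset.mem_union_right _ ha, Finset.mem_union_right _ hb,
        fun h => Finset.disjoint_left.1 hd h.1 ha⟩
    · intro hab
      exact hab.1
  constructor
  · exact IsComp.congr fun a ha b hb => (key a ha b hb).symm
  · exact IsComp.congr key

theorem kk_tg (hd : Disjoint (tri v) (U.erase v)) :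
    (compPart (tg G (tri v) (U.erase v)) (U.erase v)).parts.card = kk G U v := by
  unfold kk
  congr 1
  ext C
  rw [mem_compPart, mem_compPart, tg_isComp hd]

theorem fwd_all (h : Rtd {0, 1} U G) (hv : v ∈ CG G U) :
    AllK (tri v) (Branch (tri v)) (U.erase v) (tg G (tri v) (U.erase v)) := by
  have hd := disj (v := v) h.disj
  refine ⟨hd, fun a b hab => hab.2.1, fun a ha b hb hab => hab.2.2.2 ⟨ha, hb⟩, fun C hC => ?_⟩
  rw [tg_isComp hd] at hC
  obtain ⟨hs, -⟩ := sep_of_comp h hv hC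
  have e : rst (tg G (tri v) (U.erase v)) (tri v ∪ C) ⊔ clq (tri v) =
      rst G (tri v ∪ C) ⊔ clq (tri v) := by
    ext a b
    constructor
    · rintro (hab | hab)
      · exact Or.inl ⟨hab.1.1, hab.2.1, hab.2.2⟩
      · exact Or.inr hab
    · rintro (⟨hab, ha, hb⟩ | hab)
      · by_cases hX : a ∈ tri v ∧ b ∈ tri v
        · exact Or.inr ⟨hab.ne, hX.1, hX.2⟩
        · exact Or.inl ⟨⟨hab, Finset.union_subset_union_right hC.1 ha,
            Finset.union_subset_union_right hC.1 hb, hX⟩, ha, hb⟩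
      · exact Or.inr hab
  refine ⟨hs.card, fun a ha b hb hab => hab.1.2.2.2 ⟨ha, hb⟩, ?_⟩
  rw [e]
  exact hs.rtd_X

theorem three_le (h : Rtd {0, 1} U G) (hv : v ∈ CG G U) : 3 ≤ kk G U v := by
  classical
  obtain ⟨_, _, _, C1, C2, C3, h1, h2, h3, d12, d13, d23⟩ := cg_mem hv
  rw [cg_sdiff h.disj] at h1 h2 h3
  have hne : ∀ C C' : Finset ℕ, IsComp G (U.erase v) C → Disjoint C C' → C ≠ C' := by
    rintro C C' hC hd rfl
    obtain ⟨w, hw⟩ := hC.2.1.1
    exact Finset.disjoint_left.1 hd hw hw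
  have hc : ({C1, C2, C3} : Finset (Finset ℕ)).card = 3 := by
    rw [Finset.card_eq_three]
    exact ⟨C1, C2, C3, hne _ _ h1 d12, hne _ _ h1 d13, hne _ _ h2 d23, rfl⟩
  unfold kk
  rw [← hc]
  refine Finset.card_le_card ?_
  intro C hC
  simp only [Finset.mem_insert, Finset.mem_singleton] at hC
  rw [mem_compPart]
  rcases hC with rfl | rfl | rfl
  · exact h1
  · exact h2
  · exact h3

theorem gl_tg (h : Rtd {0, 1} U G) (hv : v ∈ U) :
    gl (G.edgeSet ∩ {s(0, v), s(1, v)}) (tg G (tri v) (U.erase v)) = G := by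
  ext a b
  constructor
  · rintro ⟨hne, hab | hab | hab⟩
    · exact h.clique ⟨hne, hab.1, hab.2⟩
    · exact hab.1
    · exact hab.1
  · intro hab
    refine ⟨hab.ne, ?_⟩
    by_cases hX : a ∈ tri v ∧ b ∈ tri v
    · rcases in_tri hab hX.1 hX.2 with h1 | h1
      · exact Or.inl h1
      · exact Or.inr (Or.inl ⟨hab, h1⟩)
    · exact Or.inr (Or.inr ⟨hab, mem_side (h.on a b hab), mem_side (h.on b a hab.symm), hX⟩)

theorem ecard_gl (h : Rtd {0, 1} U G) (hv : v ∈ U) :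
    ecard {0, 1} G = (G.edgeSet ∩ {s(0, v), s(1, v)}).ncard +
      (tg G (tri v) (U.erase v)).edgeSet.ncard := by
  obtain ⟨h0, h1⟩ := ne_of_mem h.disj hv
  have e : G.edgeSet \ (clq {0, 1}).edgeSet =
      (G.edgeSet ∩ {s(0, v), s(1, v)}) ∪ (tg G (tri v) (U.erase v)).edgeSet := by
    ext e
    induction e using Sym2.ind with
    | h a b =>
      constructor
      · rintro ⟨hab, hn⟩
        have hab' : G.Adj a b := hab
        by_cases hX : a ∈ tri v ∧ b ∈ tri v
        · rcases in_tri hab' hX.1 hX.2 with h2 | h2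
          · exact absurd (show (clq {0, 1}).Adj a b from ⟨hab'.ne, h2.1, h2.2⟩) hn
          · exact Or.inl ⟨hab, h2⟩
        · exact Or.inr (show (tg G (tri v) (U.erase v)).Adj a b from
            ⟨hab', mem_side (h.on a b hab'), mem_side (h.on b a hab'.symm), hX⟩)
      · rintro (⟨hab, h2⟩ | hab)
        · refine ⟨hab, fun h3 => ?_⟩
          have h3' : (clq {0, 1}).Adj a b := h3
          exact pair_not h0 h1 h2 ⟨h3'.2.1, h3'.2.2⟩
        · have hab' : (tg G (tri v) (U.erase v)).Adj a b := hab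
          refine ⟨hab'.1, fun h3 => ?_⟩
          have h3' : (clq {0, 1}).Adj a b := h3
          exact hab'.2.2.2 ⟨two_tri h3'.2.1, two_tri h3'.2.2⟩
  have hdis : Disjoint (G.edgeSet ∩ {s(0, v), s(1, v)}) (tg G (tri v) (U.erase v)).edgeSet := by
    rw [Set.disjoint_left]
    intro e he he'
    induction e using Sym2.ind with
    | h a b =>
      have he2 : (tg G (tri v) (U.erase v)).Adj a b := he'
      exact he2.2.2.2 (pair_tri he.2)
  have hfin : (tg G (tri v) (U.erase v)).edgeSet.Finite :=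
    edgeSet_finite (S := tri v ∪ U.erase v) fun a b hab => hab.2.1
  unfold ecard
  rw [e, Set.ncard_union_eq hdis ((Set.toFinite _).subset Set.inter_subset_right) hfin]

end K5
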