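import Pool.Agent.Lib.K5.KuEdge

/-!
# K5.KuBase: the complete graph on four vertices

PROOF.  Let `U = {p, q, r, s}` (`Finset.card_eq_succ` / `Finset.card_eq_three` or an explicit lemma).
By `deg3` every vertex of `U` is adjacent to all three others (for `v` and two other vertices `p`,
`q` the neighbour different from both, in `U` by `hon` and different from `v`, is the third one).  So all
six pairs are edges.  Family (`n = 3`): the triangles `T1 = pqs`, `T2 = qrs`, `T3 = prs`, where the
triangle `abc` is `ind a b + ind b c + ind a c`.  Each is in the cycle space; every pair is in at most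
two of them (`ps, qs, rs` in two, `pq, qr, pr` in one).  Span: for `Cyc G U z` put
`w = z p q * T1 + z q r * T2 + z p r * T3` (i.e. `S` = the set of the indices with nonzero
coefficient).  `w` and `z` agree at `pq, qr, pr` and at `p s`: `z p s = z p q + z p r` (evenness at
`p`), similarly `q s`, `r s`.  Pairs that are not inside `U` have value 0 on both sides (support).
It may be easier to first transport everything to explicit case analysis: two symmetric functions
supported on pairs from `{p, q, r, s}` are equal if they agree on the six pairs.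
-/

namespace K5

open Finset

namespace KuBaseAux

/-- The triangle `abc`. -/
def tri (a b c : ℕ) : ℕ → ℕ → ZMod 2 := fun x y => ind a b x y + ind b c x y + ind a c x y

theorem ind_symm (a b x y : ℕ) : ind a b x y = ind a b y x := by
  unfold ind
  refine if_congr ?_ rfl rfl
  constructor
  · rintro (⟨h1, h2⟩ | ⟨h1, h2⟩)
    · exact Or.inr ⟨h2, h1⟩
    · exact Or.inl ⟨h2, h1⟩
  · rintro (⟨h1, h2⟩ | ⟨h1, h2⟩)
    · exact Or.inr ⟨h2, h1⟩
    · exact Or.inl ⟨h2, h1⟩

theorem ind_ne {a b x y : ℕ} (h : ind a b x y ≠ 0) : (x = a ∧ y = b) ∨ (x = b ∧ y = a) := by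
  unfold ind at h
  by_contra hc
  rw [if_neg hc] at h
  exact h rfl

theorem tri_ne {a b c x y : ℕ} (h : tri a b c x y ≠ 0) : ind a b x y ≠ 0 ∨ ind b c x y ≠ 0 ∨
    ind a c x y ≠ 0 := by
  by_contra hc
  push Not at hc
  apply h
  simp only [tri, hc.1, hc.2.1, hc.2.2, add_zero]

theorem sum_ind {U : Finset ℕ} {a b : ℕ} (hab : a ≠ b) (ha : a ∈ U) (hb : b ∈ U) (x : ℕ) :
    ∑ y ∈ U, ind a b x y = (if x = a then 1 else 0) + (if x = b then 1 else 0) := by
  by_cases hxa : x = a
  · subst hxa
    rw [if_pos rfl, if_neg hab, add_zero]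
    rw [Finset.sum_eq_single b]
    · simp [ind]
    · intro y _ hy
      by_contra hne
      rcases ind_ne hne with ⟨_, h⟩ | ⟨h, _⟩
      · exact hy h
      · exact hab h
    · intro h
      exact absurd hb h
  · by_cases hxb : x = b
    · subst hxb
      rw [if_pos rfl, if_neg hxa, zero_add]
      rw [Finset.sum_eq_single a]
      · simp [ind]
      · intro y _ hy
        by_contra hne
        rcases ind_ne hne with ⟨h, _⟩ | ⟨_, h⟩
        · exact hxa h
        · exact hy h
      · intro h
        exact absurd ha h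
    · rw [if_neg hxa, if_neg hxb, add_zero]
      refine Finset.sum_eq_zero (fun y _ => ?_)
      by_contra hne
      rcases ind_ne hne with ⟨h, _⟩ | ⟨h, _⟩
      · exact hxa h
      · exact hxb h

theorem six (a b c : ZMod 2) : (a + b) + (b + c) + (a + c) = 0 := by
  revert a b c
  decide

theorem cyc_tri {G : Gr} {U : Finset ℕ} {a b c : ℕ} (ha : a ∈ U) (hb : b ∈ U) (hc : c ∈ U)
    (hab : G.Adj a b) (hbc : G.Adj b c) (hac : G.Adj a c) : Cyc G U (tri a b c) := by
  refine ⟨fun x y => ?_, fun x y h => ?_, fun x _ => ?_⟩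
  · simp only [tri, ind_symm _ _ x y]
  · rcases tri_ne h with h | h | h
    · rcases ind_ne h with ⟨rfl, rfl⟩ | ⟨rfl, rfl⟩
      · exact hab
      · exact hab.symm
    · rcases ind_ne h with ⟨rfl, rfl⟩ | ⟨rfl, rfl⟩
      · exact hbc
      · exact hbc.symm
    · rcases ind_ne h with ⟨rfl, rfl⟩ | ⟨rfl, rfl⟩
      · exact hac
      · exact hac.symm
  · have e : ∑ y ∈ U, tri a b c x y =
        ∑ y ∈ U, ind a b x y + ∑ y ∈ U, ind b c x y + ∑ y ∈ U, ind a c x y := by
      rw [← Finset.sum_add_distrib, ← Finset.sum_add_distrib]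
      rfl
    rw [e, sum_ind hab.ne ha hb, sum_ind hbc.ne hb hc, sum_ind hac.ne ha hc]
    exact six _ _ _

theorem cyc_add {G : Gr} {U : Finset ℕ} {z w : ℕ → ℕ → ZMod 2} (hz : Cyc G U z)
    (hw : Cyc G U w) : Cyc G U (fun a b => z a b + w a b) := by
  refine ⟨fun x y => ?_, fun x y h => ?_, fun x hx => ?_⟩
  · show z x y + w x y = z y x + w y x
    rw [hz.symm x y, hw.symm x y]
  · by_contra hc
    apply h
    have h1 : z x y = 0 := by
      by_contra h1
      exact hc (hz.supp x y h1)
    have h2 : w x y = 0 := by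
      by_contra h2
      exact hc (hw.supp x y h2)
    show z x y + w x y = 0
    rw [h1, h2, add_zero]
  · rw [Finset.sum_add_distrib, hz.even x hx, hw.even x hx, add_zero]

theorem cyc_smul {G : Gr} {U : Finset ℕ} {z : ℕ → ℕ → ZMod 2} (hz : Cyc G U z)
    (k : ZMod 2) : Cyc G U (fun a b => k * z a b) := by
  refine ⟨fun x y => ?_, fun x y h => ?_, fun x hx => ?_⟩
  · show k * z x y = k * z y x
    rw [hz.symm x y]
  · refine hz.supp x y (fun h1 => h ?_)
    show k * z x y = 0
    rw [h1, mul_zero]
  · rw [← Finset.mul_sum, hz.even x hx, mul_zero]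

theorem adj3 {G : Gr} {U : Finset ℕ} (hon : On G U) (h3 : Three G U) {v a b c : ℕ}
    (hU : ∀ x ∈ U, x = v ∨ x = a ∨ x = b ∨ x = c) (hv : v ∈ U) : G.Adj v c := by
  obtain ⟨u, h1, h2, h4⟩ := deg3 hon h3 hv a b
  rcases hU u (hon _ _ h1.symm) with h | h | h | h
  · rw [h] at h1
    exact absurd h1 (G.loopless.irrefl v)
  · exact absurd h h2
  · exact absurd h h4
  · rw [h] at h1
    exact h1

theorem zmod_mul (k a : ZMod 2) : k * a = if k ≠ 0 then a else 0 := by
  revert k a
  decide

end KuBaseAux

theorem mac_four {G : Gr} {U : Finset ℕ} (hon : On G U) (h3 : Three G U) (h4 : U.card = 4) :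
    Mac G U := by
  classical
  obtain ⟨p, U1, hp, hU1, hc⟩ := Finset.card_eq_succ.1 h4
  obtain ⟨q, r, s, hqr, hqs, hrs, hU2⟩ := Finset.card_eq_three.1 hc
  subst hU2
  have hpq : p ≠ q := fun h => hp (by simp [h])
  have hpr : p ≠ r := fun h => hp (by simp [h])
  have hps : p ≠ s := fun h => hp (by simp [h])
  have hmem : ∀ x ∈ U, x = p ∨ x = q ∨ x = r ∨ x = s := by
    intro x hx
    rw [← hU1] at hx
    simpa using hx
  have pU : p ∈ U := by rw [← hU1]; simp
  have qU : q ∈ U := by rw [← hU1]; simp
  have rU : r ∈ U := by rw [← hU1]; simp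
  have sU : s ∈ U := by rw [← hU1]; simp
  have apq : G.Adj p q := KuBaseAux.adj3 hon h3 (v := p) (a := r) (b := s) (c := q)
    (fun x hx => by rcases hmem x hx with h | h | h | h <;> tauto) pU
  have apr : G.Adj p r := KuBaseAux.adj3 hon h3 (v := p) (a := q) (b := s) (c := r)
    (fun x hx => by rcases hmem x hx with h | h | h | h <;> tauto) pU
  have aps : G.Adj p s := KuBaseAux.adj3 hon h3 (v := p) (a := q) (b := r) (c := s)
    (fun x hx => by rcases hmem x hx with h | h | h | h <;> tauto) pU
  have aqr : G.Adj q r := KuBaseAux.adj3 hon h3 (v := q) (a := p) (b := s) (c := r)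
    (fun x hx => by rcases hmem x hx with h | h | h | h <;> tauto) qU
  have aqs : G.Adj q s := KuBaseAux.adj3 hon h3 (v := q) (a := p) (b := r) (c := s)
    (fun x hx => by rcases hmem x hx with h | h | h | h <;> tauto) qU
  have ars : G.Adj r s := KuBaseAux.adj3 hon h3 (v := r) (a := p) (b := q) (c := s)
    (fun x hx => by rcases hmem x hx with h | h | h | h <;> tauto) rU
  have c1 := KuBaseAux.cyc_tri (G := G) pU qU sU apq aqs aps
  have c2 := KuBaseAux.cyc_tri (G := G) qU rU sU aqr ars aqs
  have c3 := KuBaseAux.cyc_tri (G := G) pU rU sU apr ars aps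
  refine ⟨3, ![KuBaseAux.tri p q s, KuBaseAux.tri q r s, KuBaseAux.tri p r s], ?_, ?_, ?_⟩
  · intro i
    fin_cases i
    · exact c1
    · exact c2
    · exact c3
  · intro a b
    by_contra hcon
    push Not at hcon
    have hall : ∀ i : Fin 3, (![KuBaseAux.tri p q s, KuBaseAux.tri q r s,
        KuBaseAux.tri p r s] : Fin 3 → ℕ → ℕ → ZMod 2) i a b ≠ 0 := by
      intro i
      have hle : (univ.filter (fun i : Fin 3 => (![KuBaseAux.tri p q s, KuBaseAux.tri q r s,
        KuBaseAux.tri p r s] : Fin 3 → ℕ → ℕ → ZMod 2) i a b ≠ 0)) = univ := by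
        apply Finset.eq_univ_of_card
        have h1 := Finset.card_le_univ (univ.filter (fun i : Fin 3 => (![KuBaseAux.tri p q s,
          KuBaseAux.tri q r s, KuBaseAux.tri p r s] : Fin 3 → ℕ → ℕ → ZMod 2) i a b ≠ 0))
        simp only [Fintype.card_fin] at h1 ⊢
        omega
      have := Finset.mem_univ i
      rw [← hle] at this
      exact (Finset.mem_filter.1 this).2
    have h1 : KuBaseAux.tri p q s a b ≠ 0 := hall 0
    have h2 : KuBaseAux.tri q r s a b ≠ 0 := hall 1
    have h3' : KuBaseAux.tri p r s a b ≠ 0 := hall 2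
    have hn := (c1.supp a b h1).ne
    have key : ∀ {x y w : ℕ}, KuBaseAux.tri x y w a b ≠ 0 →
        (a = x ∨ a = y ∨ a = w) ∧ (b = x ∨ b = y ∨ b = w) := by
      intro x y w h
      rcases KuBaseAux.tri_ne h with h | h | h <;> rcases KuBaseAux.ind_ne h with h | h <;>
        tauto
    have k1 := key h1
    have k2 := key h2
    have k3 := key h3'
    have ha : a = s := by
      rcases k1.1 with h | h | h
      · rcases k2.1 with h' | h' | h'
        · exact absurd (h.symm.trans h') hpq
        · exact absurd (h.symm.trans h') hpr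
        · exact h'
      · rcases k3.1 with h' | h' | h'
        · exact absurd (h'.symm.trans h) hpq
        · exact absurd (h.symm.trans h') hqr
        · exact h'
      · exact h
    have hb : b = s := by
      rcases k1.2 with h | h | h
      · rcases k2.2 with h' | h' | h'
        · exact absurd (h.symm.trans h') hpq
        · exact absurd (h.symm.trans h') hpr
        · exact h'
      · rcases k3.2 with h' | h' | h'
        · exact absurd (h'.symm.trans h) hpq
        · exact absurd (h.symm.trans h') hqr
        · exact h'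
      · exact h
    exact hn (ha.trans hb.symm)
  · intro z hz
    refine ⟨univ.filter (fun i : Fin 3 => (![z p q, z q r, z p r] : Fin 3 → ZMod 2) i ≠ 0),
      fun a b => ?_⟩
    rw [Finset.sum_filter, Fin.sum_univ_three]
    have hD : Cyc G U (fun a b => z a b + (z p q * KuBaseAux.tri p q s a b +
        (z q r * KuBaseAux.tri q r s a b + z p r * KuBaseAux.tri p r s a b))) :=
      KuBaseAux.cyc_add hz (KuBaseAux.cyc_add (KuBaseAux.cyc_smul c1 _)
        (KuBaseAux.cyc_add (KuBaseAux.cyc_smul c2 _) (KuBaseAux.cyc_smul c3 _)))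
    have e1 : (if (![z p q, z q r, z p r] : Fin 3 → ZMod 2) 0 ≠ 0 then
        (![KuBaseAux.tri p q s, KuBaseAux.tri q r s,
          KuBaseAux.tri p r s] : Fin 3 → ℕ → ℕ → ZMod 2) 0 a b else 0) =
          z p q * KuBaseAux.tri p q s a b := (KuBaseAux.zmod_mul _ _).symm
    have e2 : (if (![z p q, z q r, z p r] : Fin 3 → ZMod 2) 1 ≠ 0 then
        (![KuBaseAux.tri p q s, KuBaseAux.tri q r s,
          KuBaseAux.tri p r s] : Fin 3 → ℕ → ℕ → ZMod 2) 1 a b else 0) =
          z q r * KuBaseAux.tri q r s a b := (KuBaseAux.zmod_mul _ _).symm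
    have e3 : (if (![z p q, z q r, z p r] : Fin 3 → ZMod 2) 2 ≠ 0 then
        (![KuBaseAux.tri p q s, KuBaseAux.tri q r s,
          KuBaseAux.tri p r s] : Fin 3 → ℕ → ℕ → ZMod 2) 2 a b else 0) =
          z p r * KuBaseAux.tri p r s a b := (KuBaseAux.zmod_mul _ _).symm
    rw [e1, e2, e3]
    set D : ℕ → ℕ → ZMod 2 := fun a b => z a b + (z p q * KuBaseAux.tri p q s a b +
        (z q r * KuBaseAux.tri q r s a b + z p r * KuBaseAux.tri p r s a b)) with hDd
    have char2 : ∀ u v : ZMod 2, u + v = 0 → u = v := by decide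
    suffices hz0 : D a b = 0 by
      have := char2 _ _ hz0
      rw [this]
      ring
    have hsym := hD.symm
    have d0 : ∀ x, D x x = 0 := fun x => by
      by_contra hne
      exact G.loopless.irrefl _ (hD.supp _ _ hne)
    have dpq : D p q = 0 := by
      simp only [hDd, KuBaseAux.tri, ind]
      simp [hpq, hpr, hps, hqr, hqs, hrs, hpq.symm, hpr.symm, hps.symm, hqr.symm, hqs.symm,
        hrs.symm, CharTwo.add_self_eq_zero]
    have dqr : D q r = 0 := by
      simp only [hDd, KuBaseAux.tri, ind]
      simp [hpq, hpr, hps, hqr, hqs, hrs, hpq.symm, hpr.symm, hps.symm, hqr.symm, hqs.symm,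
        hrs.symm, CharTwo.add_self_eq_zero]
    have dpr : D p r = 0 := by
      simp only [hDd, KuBaseAux.tri, ind]
      simp [hpq, hpr, hps, hqr, hqs, hrs, hpq.symm, hpr.symm, hps.symm, hqr.symm, hqs.symm,
        hrs.symm, CharTwo.add_self_eq_zero]
    have hsum : ∀ x ∈ U, D x p + (D x q + (D x r + D x s)) = 0 := by
      intro x hx
      have := hD.even x hx
      rw [← hU1, Finset.sum_insert hp, Finset.sum_insert (by simp [hqr, hqs]),
        Finset.sum_insert (by simp [hrs]), Finset.sum_singleton] at this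
      exact this
    have dps : D p s = 0 := by
      have := hsum p pU
      rw [d0, dpq, dpr] at this
      simpa using this
    have dqs : D q s = 0 := by
      have := hsum q qU
      rw [d0, hsym q p, dpq, dqr] at this
      simpa using this
    have drs : D r s = 0 := by
      have := hsum r rU
      rw [d0, hsym r p, dpr, hsym r q, dqr] at this
      simpa using this
    by_cases hadj : G.Adj a b
    · have ha := hmem a (hon _ _ hadj)
      have hb := hmem b (hon _ _ hadj.symm)
      rcases ha with rfl | rfl | rfl | rfl <;> rcases hb with rfl | rfl | rfl | rfl <;>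
        first
        | exact d0 _
        | assumption
        | (rw [hsym]; assumption)
    · by_contra hne
      exact hadj (hD.supp _ _ hne)

end K5
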