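import Pool.Agent.Lib.K5.DDn
import Pool.Agent.Lib.K5.KuBase

/-!
# K5.DK33: `K_{3,3}` is a rooted graph with exactly two codes

`G` is a copy of `K_{3,3}` with the classes `A, B`, `A ∪ B = {0, 1} ∪ U`, `01` an edge.
1. `k33_rtd`. Three: `|W| = 6`. After removing two vertices both classes are nonempty (`|A|, |B| = 3`); a proper nonempty subset `P` of the rest: if `P` and the complement meet different classes there is an edge between them; `P ∩ A`, `P ∩ B`, `Q ∩ A`, `Q ∩ B`: if `P` meets `A` and `Q` meets `B` done; if `P` meets `B` and `Q` meets `A` done;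
otherwise (`P` misses `A` or `Q` misses `B`) and (`P` misses `B` or `Q` misses `A`): `P` is nonempty, `Q` is nonempty, both classes of the rest are nonempty: contradiction by cases. Free: a model `B i` of `K_5` on subsets of `W` (6 vertices): a single vertex `B i = {w}` would have neighbours in four disjoint sets, but it has only three; so
`|B i| ≥ 2` and `10 ≤ 6`, contradiction.
2. `k33_cg`: a shredder of `G` is `A` or `B` (`k33_shr`, K5.YK33), and `0 ∈ A` iff `1 ∈ B` (`01` is an edge), so `tri v` contains elements of both classes and is not a shredder.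
3. `k33_codes`: at most two: `Code3.Valid.three_codes` (all codes are low because a mark that contains `{0, 1}` would be `tri v`, and `mark_comp` contradicts 2). At least two: let (say) `0 ∈ A`, `1 ∈ B`. The code `cA`: `Y = A.erase 0`, `H = clq (insert 1 A)` (a `K_4`), `M = {A}`, `V A = B.erase 1` (two vertices), `T A` = all edges between `A` and
`B.erase 1`, `F = ∅`; the other code is the same with `A` and `B`, `0` and `1` exchanged; their marks are different. Valid: `PCore {0, 1} (A.erase 0) (clq (insert 1 A))`: `K_4` is `Three`, `Free` (only 4 vertices), `Mac` (the four triangles; or `Mac` of the complete graph on 4 vertices: take the 3 triangles at `1`, as `Fin 3` family, and check that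
every even subgraph of `K_4` is a sum: it is determined by the edges not at `1`, i.e. `z = ∑ over the edges e = ab of A with z a b = 1 of the triangle 1ab`); the triangle `A` is non-separating (`{1}` is connected). `TStr A (B.erase 1)`: the components are the two single vertices; `Branch A {b}`: `Rtd A {b}` of the `K_4` on `A ∪ {b}`.
`comp = G`: root edge `01`; uncovered edges of `H`: the edges from `1` to `A`; `T A`: the edges between `A` and `B.erase 1`.
Alternatively use `ex2` for one code `c` (with `c.M = {A}`, say, by `Code3.Valid.k33`) and apply a permutation that exchanges `A` and `B`, `0` and `1` (relabelling of codes), or simply write down both codes.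
-/

namespace K5

open Finset

namespace DK33Aux

/-- A set that meets both classes is connected. -/
theorem conn_mix {G : Gr} {A B S : Finset ℕ} (hadj : ∀ a b, G.Adj a b ↔ (a ∈ A ∧ b ∈ B) ∨ (a ∈ B ∧ b ∈ A))
    (hS : S ⊆ A ∪ B) {a b : ℕ} (ha : a ∈ S) (haA : a ∈ A) (hb : b ∈ S) (hbB : b ∈ B) : P512.Conn G S := by
  refine ⟨⟨a, ha⟩, fun P hP hne hPS => ?_⟩
  obtain ⟨q, hq, hqP⟩ : ∃ q ∈ S, q ∉ P := by
    by_contra h'
    push Not at h'
    exact hPS (Subset.antisymm hP h')
  by_cases haP : a ∈ P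
  · by_cases hbP : b ∈ P
    · rcases mem_union.1 (hS hq) with h' | h'
      · exact ⟨b, hbP, q, hq, hqP, (hadj b q).2 (Or.inr ⟨hbB, h'⟩)⟩
      · exact ⟨a, haP, q, hq, hqP, (hadj a q).2 (Or.inl ⟨haA, h'⟩)⟩
    · exact ⟨a, haP, b, hb, hbP, (hadj a b).2 (Or.inl ⟨haA, hbB⟩)⟩
  · by_cases hbP : b ∈ P
    · exact ⟨b, hbP, a, ha, haP, (hadj b a).2 (Or.inr ⟨hbB, haA⟩)⟩
    · obtain ⟨p, hp⟩ := hne
      rcases mem_union.1 (hS (hP hp)) with h' | h'
      · exact ⟨p, hp, b, hb, hbP, (hadj p b).2 (Or.inl ⟨h', hbB⟩)⟩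
      · exact ⟨p, hp, a, ha, haP, (hadj p a).2 (Or.inr ⟨h', haA⟩)⟩

theorem ne_erase {A : Finset ℕ} (hA : A.card = 3) (u v : ℕ) : ∃ a ∈ A, a ≠ u ∧ a ≠ v := by
  have h1 : ((A.erase u).erase v).Nonempty := by
    rw [← card_pos]
    have h1 := pred_card_le_card_erase (s := A) (a := u)
    have h2 := pred_card_le_card_erase (s := A.erase u) (a := v)
    omega
  obtain ⟨a, ha⟩ := h1
  have h2 := mem_erase.1 ha
  have h3 := mem_erase.1 h2.2
  exact ⟨a, h3.2, h3.1, h2.1⟩

theorem three_mix {G : Gr} {A B : Finset ℕ} (hd : Disjoint A B) (hA : A.card = 3) (hB : B.card = 3)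
    (hadj : ∀ a b, G.Adj a b ↔ (a ∈ A ∧ b ∈ B) ∨ (a ∈ B ∧ b ∈ A)) : Three G (A ∪ B) := by
  refine ⟨by rw [card_union_of_disjoint hd, hA, hB]; norm_num, fun u v => ?_⟩
  obtain ⟨a, ha, hau, hav⟩ := ne_erase hA u v
  obtain ⟨b, hb, hbu, hbv⟩ := ne_erase hB u v
  exact conn_mix hadj ((erase_subset _ _).trans (erase_subset _ _))
    (mem_erase.2 ⟨hav, mem_erase.2 ⟨hau, mem_union_left _ ha⟩⟩) ha
    (mem_erase.2 ⟨hbv, mem_erase.2 ⟨hbu, mem_union_right _ hb⟩⟩) hb

/-- Few vertices and no triangle: no `K_5` minor. -/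
theorem free_of {G : Gr} {W : Finset ℕ} (hon : On G W) (hc : W.card ≤ 7)
    (ht : ∀ a b c, G.Adj a b → G.Adj b c → G.Adj a c → False) : Free G := by
  rintro ⟨B, h1, h2, h3⟩
  have hsub : ∀ i, B i ⊆ W := by
    intro i x hx
    by_cases hs : B i = {x}
    · obtain ⟨j, hj⟩ : ∃ j : Fin 5, i ≠ j := by
        by_cases h0 : i = 0
        · exact ⟨1, by rw [h0]; decide⟩
        · exact ⟨0, h0⟩
      obtain ⟨u, hu, v, -, huv⟩ := h3 i j hj
      rw [hs, mem_singleton] at hu
      exact hu ▸ hon u v huv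
    · obtain ⟨u, hu, v, -, -, huv⟩ := (h1 i).2 {x} (singleton_subset_iff.2 hx) ⟨x, mem_singleton_self x⟩
        (fun he => hs he.symm)
      rw [mem_singleton] at hu
      exact hu ▸ hon u v huv
  have hsum : ∑ i, (B i).card ≤ 7 := by
    rw [← card_biUnion (fun i _ j _ hij => h2 i j hij)]
    refine (card_le_card ?_).trans hc
    intro x hx
    rw [mem_biUnion] at hx
    obtain ⟨i, -, hi⟩ := hx
    exact hsub i hi
  set T : Finset (Fin 5) := univ.filter (fun i => (B i).card = 1) with hT
  have hle : ∀ i : Fin 5, (if (B i).card = 1 then 1 else 2) ≤ (B i).card := by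
    intro i
    have := card_pos.2 (h1 i).1
    split_ifs with h
    · omega
    · omega
  have hsum2 : ∑ i : Fin 5, (if (B i).card = 1 then 1 else 2) ≤ 7 :=
    (sum_le_sum fun i _ => hle i).trans hsum
  rw [sum_ite, sum_const, sum_const, smul_eq_mul, smul_eq_mul, mul_one] at hsum2
  have hsplit : (univ.filter (fun i : Fin 5 => (B i).card = 1)).card +
      (univ.filter (fun i : Fin 5 => ¬ (B i).card = 1)).card = 5 := by
    rw [card_filter_add_card_filter_not]
    rfl
  have hT3 : 2 < T.card := by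
    rw [hT]
    omega
  obtain ⟨i, hi, j, hj, k, hk, hij, hik, hjk⟩ := two_lt_card.1 hT3
  have one : ∀ i ∈ T, ∃ x, B i = {x} := by
    intro i hi
    exact card_eq_one.1 (mem_filter.1 hi).2
  obtain ⟨x, hx⟩ := one i hi
  obtain ⟨y, hy⟩ := one j hj
  obtain ⟨z, hz⟩ := one k hk
  have e1 : G.Adj x y := by
    obtain ⟨u, hu, v, hv, huv⟩ := h3 i j hij
    rw [hx, mem_singleton] at hu
    rw [hy, mem_singleton] at hv
    exact hu ▸ hv ▸ huv
  have e2 : G.Adj y z := by
    obtain ⟨u, hu, v, hv, huv⟩ := h3 j k hjk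
    rw [hy, mem_singleton] at hu
    rw [hz, mem_singleton] at hv
    exact hu ▸ hv ▸ huv
  have e3 : G.Adj x z := by
    obtain ⟨u, hu, v, hv, huv⟩ := h3 i k hik
    rw [hx, mem_singleton] at hu
    rw [hz, mem_singleton] at hv
    exact hu ▸ hv ▸ huv
  exact ht x y z e1 e2 e3

theorem no_tri {G : Gr} {A B : Finset ℕ} (hd : Disjoint A B)
    (hadj : ∀ a b, G.Adj a b ↔ (a ∈ A ∧ b ∈ B) ∨ (a ∈ B ∧ b ∈ A)) {a b c : ℕ} (h1 : G.Adj a b)
    (h2 : G.Adj b c) (h3 : G.Adj a c) : False := by
  have q : ∀ w, w ∈ A → w ∈ B → False := fun w h1 h2 => disjoint_left.1 hd h1 h2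
  rcases (hadj a b).1 h1 with ⟨xa, yb⟩ | ⟨xb, ya⟩
  · rcases (hadj a c).1 h3 with ⟨_, zb⟩ | ⟨xb, _⟩
    · rcases (hadj b c).1 h2 with ⟨ya, _⟩ | ⟨_, za⟩
      · exact q b ya yb
      · exact q c za zb
    · exact q a xa xb
  · rcases (hadj a c).1 h3 with ⟨xa, _⟩ | ⟨_, za⟩
    · exact q a xa xb
    · rcases (hadj b c).1 h2 with ⟨_, zb⟩ | ⟨yb, _⟩
      · exact q c za zb
      · exact q b ya yb

/-- Every nonempty part of a clique is connected. -/
theorem conn_clq {G : Gr} {S P : Finset ℕ} (h : clq S ≤ G) (hP : P ⊆ S) (hne : P.Nonempty) :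
    P512.Conn G P := by
  refine ⟨hne, fun Q hQ hQne hQP => ?_⟩
  obtain ⟨q, hq, hqQ⟩ : ∃ q ∈ P, q ∉ Q := by
    by_contra h'
    push Not at h'
    exact hQP (Subset.antisymm hQ h')
  obtain ⟨p, hp⟩ := hQne
  exact ⟨p, hp, q, hq, hqQ, h ⟨fun he => hqQ (he ▸ hp), hP (hQ hp), hP hq⟩⟩

theorem three_clq {G : Gr} {S : Finset ℕ} (h : clq S ≤ G) (hc : S.card = 4) : Three G S := by
  refine ⟨hc.ge, fun u v => conn_clq h ((erase_subset _ _).trans (erase_subset _ _)) ?_⟩
  rw [← card_pos]
  have h1 := pred_card_le_card_erase (s := S) (a := u)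
  have h2 := pred_card_le_card_erase (s := S.erase u) (a := v)
  omega

/-- The complete bipartite graph. -/
def bip (A B : Finset ℕ) (hd : Disjoint A B) : Gr where
  Adj a b := (a ∈ A ∧ b ∈ B) ∨ (a ∈ B ∧ b ∈ A)
  symm := ⟨fun _ _ h => h.symm.imp (fun h => ⟨h.2, h.1⟩) (fun h => ⟨h.2, h.1⟩)⟩
  loopless := ⟨fun a h => by
    rcases h with h | h
    · exact disjoint_left.1 hd h.1 h.2
    · exact disjoint_left.1 hd h.2 h.1⟩

theorem tstr {A B : Finset ℕ} (hd : Disjoint A B) (hA : A.card = 3) (hB : 2 ≤ B.card) :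
    TStr A B (bip A B hd) := by
  have hnB : ∀ a ∈ B, ∀ b ∈ B, ¬ (bip A B hd).Adj a b := by
    intro a ha b hb hab
    rcases hab with h | h
    · exact disjoint_left.1 hd h.1 ha
    · exact disjoint_left.1 hd h.2 hb
  refine {
    card := hA
    disj := hd
    on := ?_
    noX := ?_
    ne := card_pos.1 (by omega)
    nconn := ?_
    branch := ?_ }
  · intro a b hab
    rcases hab with h | h
    · exact mem_union_left _ h.1
    · exact mem_union_right _ h.1
  · intro a ha b hb hab
    rcases hab with h | h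
    · exact disjoint_left.1 hd hb h.2
    · exact disjoint_left.1 hd ha h.1
  · obtain ⟨b, hb⟩ : B.Nonempty := card_pos.1 (by omega)
    refine not_conn_of (P := {b}) (singleton_subset_iff.2 hb) ⟨b, mem_singleton_self b⟩ ?_ ?_
    · intro he
      rw [← he, card_singleton] at hB
      omega
    · intro a ha c hc _ hac
      rw [mem_singleton] at ha
      exact hnB a (ha ▸ hb) c hc hac
  · intro C hC
    obtain ⟨b, hb⟩ := hC.2.1.1
    have hCb : C = {b} := by
      by_contra hne
      obtain ⟨u, hu, v, hv, -, huv⟩ := hC.2.1.2 {b} (singleton_subset_iff.2 hb) ⟨b, mem_singleton_self b⟩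
        (fun he => hne he.symm)
      rw [mem_singleton] at hu
      exact hnB u (hu ▸ hC.1 hb) v (hC.1 hv) huv
    subst hCb
    have hbB : b ∈ B := hC.1 (mem_singleton_self b)
    have hbA : b ∉ A := fun h => disjoint_left.1 hd h hbB
    have hd2 : Disjoint A {b} := disjoint_singleton_right.2 hbA
    have hcard : (A ∪ {b}).card = 4 := by
      rw [card_union_of_disjoint hd2, hA, card_singleton]
    have hon : On (rst (bip A B hd) (A ∪ {b}) ⊔ clq A) (A ∪ {b}) := by
      intro u v huv
      rcases huv with h | h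
      · exact h.2.1
      · exact mem_union_left _ h.2.1
    have hclq : clq (A ∪ {b}) ≤ rst (bip A B hd) (A ∪ {b}) ⊔ clq A := by
      rintro u v ⟨hne, hu, hv⟩
      by_cases hu' : u ∈ A
      · by_cases hv' : v ∈ A
        · exact Or.inr ⟨hne, hu', hv'⟩
        · have hvb : v = b := by
            rcases mem_union.1 hv with h | h
            · exact absurd h hv'
            · exact mem_singleton.1 h
          exact Or.inl ⟨Or.inl ⟨hu', hvb ▸ hbB⟩, hu, hv⟩
      · have hub : u = b := by
          rcases mem_union.1 hu with h | h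
          · exact absurd h hu'
          · exact mem_singleton.1 h
        have hv' : v ∈ A := by
          rcases mem_union.1 hv with h | h
          · exact h
          · exact absurd (hub.trans (mem_singleton.1 h).symm) hne
        exact Or.inl ⟨Or.inr ⟨hub ▸ hbB, hv'⟩, hu, hv⟩
    have h3 := three_clq hclq hcard
    refine {
      card := hA
      noX := ?_
      rtd := {
        disj := hd2
        on := hon
        clique := le_sup_right
        three := h3
        free := (mac_four hon h3 hcard).free hon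
        root := Or.inr ⟨hA, P512.conn_singleton _ _⟩ } }
    intro a ha c hc hac
    rcases hac.1 with h | h
    · exact disjoint_left.1 hd hc h.2
    · exact disjoint_left.1 hd ha h.1

/-- The code with the marked triangle `A`. -/
def cK (x y : ℕ) (A B : Finset ℕ) (hd : Disjoint A B) : Code3 where
  Y := A.erase x
  H := clq (insert y A)
  M := {A}
  V := fun X => if X = A then B.erase y else ∅
  T := fun X => if X = A then bip A (B.erase y) (hd.mono_right (erase_subset _ _)) else ⊥
  F := ∅

theorem cK_valid {x y : ℕ} {R U A B : Finset ℕ} (hR : R = {x, y}) (hRU : Disjoint R U) (hx : x ∈ A)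
    (hy : y ∈ B) (hW : R ∪ U = A ∪ B) (hd : Disjoint A B) (hA : A.card = 3) (hB : B.card = 3) :
    (cK x y A B hd).Valid R U := by
  have hyA : y ∉ A := fun h => disjoint_left.1 hd h hy
  have hxB : x ∉ B := fun h => disjoint_left.1 hd hx h
  have hxy : x ≠ y := fun h => hyA (h ▸ hx)
  have hR2 : R.card = 2 := by rw [hR, card_pair hxy]
  have hxR : x ∈ R := by rw [hR]; simp
  have hyR : y ∈ R := by rw [hR]; simp
  have mR : ∀ w, w ∈ R → w = x ∨ w = y := by
    intro w hw
    rw [hR] at hw
    simpa using hw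
  have mU : ∀ w, w ∈ U ↔ w ∈ A ∪ B ∧ w ≠ x ∧ w ≠ y := by
    intro w
    constructor
    · intro hw
      refine ⟨hW ▸ mem_union_right _ hw, ?_, ?_⟩
      · rintro rfl
        exact disjoint_left.1 hRU hxR hw
      · rintro rfl
        exact disjoint_left.1 hRU hyR hw
    · rintro ⟨h1, h2, h3⟩
      rw [← hW] at h1
      rcases mem_union.1 h1 with h | h
      · rcases mR w h with h | h
        · exact absurd h h2
        · exact absurd h h3
      · exact h
  have hRY : R ∪ A.erase x = insert y A := by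
    ext w
    rw [mem_union, mem_erase, mem_insert]
    constructor
    · rintro (h | h)
      · rcases mR w h with h | h
        · exact Or.inr (h ▸ hx)
        · exact Or.inl h
      · exact Or.inr h.2
    · rintro (h | h)
      · exact Or.inl (h ▸ hyR)
      · by_cases hwx : w = x
        · exact Or.inl (hwx ▸ hxR)
        · exact Or.inr ⟨hwx, h⟩
  have hcard : (insert y A).card = 4 := by rw [card_insert_of_notMem hyA, hA]
  have hon : On (clq (insert y A)) (insert y A) := fun u v h => h.2.1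
  have h3 : Three (clq (insert y A)) (insert y A) := three_clq le_rfl hcard
  have hmac := mac_four hon h3 hcard
  refine {
    disj := hRU
    sub := ?_
    core := {
      rtd := {
        disj := ?_
        on := ?_
        clique := ?_
        three := ?_
        free := hmac.free hon
        root := Or.inl hR2 }
      mac := ?_ }
    mark := ?_
    V_sub := ?_
    V_disj := ?_
    V_cover := ?_
    T_str := ?_
    V_out := ?_
    T_out := ?_
    F_sub := fun e he => absurd he (Set.notMem_empty e) }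
  · intro w hw
    have hw' := mem_erase.1 hw
    exact (mU w).2 ⟨mem_union_left _ hw'.2, hw'.1, fun h => hyA (h ▸ hw'.2)⟩
  · refine disjoint_left.2 fun w hw hw2 => ?_
    have hw' := mem_erase.1 hw2
    rcases mR w hw with h | h
    · exact hw'.1 h
    · exact hyA (h ▸ hw'.2)
  · change On (clq (insert y A)) (R ∪ A.erase x)
    rw [hRY]
    exact hon
  · rintro u v ⟨hne, hu, hv⟩
    refine ⟨hne, ?_, ?_⟩
    · rw [← hRY]
      exact mem_union_left _ hu
    · rw [← hRY]
      exact mem_union_left _ hv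
  · change Three (clq (insert y A)) (R ∪ A.erase x)
    rw [hRY]
    exact h3
  · change Mac (clq (insert y A)) (R ∪ A.erase x)
    rw [hRY]
    exact hmac
  · intro X hX
    have hX' : X = A := mem_singleton.1 hX
    subst hX'
    refine ⟨⟨?_, hA, ?_, ?_⟩, ?_⟩
    · change X ⊆ R ∪ X.erase x
      rw [hRY]
      exact subset_insert _ _
    · rintro u v ⟨hne, hu, hv⟩
      exact ⟨hne, mem_insert_of_mem hu, mem_insert_of_mem hv⟩
    · change P512.Conn (clq (insert y X)) ((R ∪ X.erase x) \ X)
      have he : (R ∪ X.erase x) \ X = {y} := by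
        rw [hRY, insert_sdiff_of_notMem _ hyA, sdiff_self]
        rfl
      rw [he]
      exact P512.conn_singleton _ _
    · intro he
      rw [he, hR2] at hA
      omega
  · intro X hX
    have hX' : X = A := mem_singleton.1 hX
    subst hX'
    change (if X = X then B.erase y else ∅) ⊆ U \ X.erase x
    rw [if_pos rfl]
    intro w hw
    have hw' := mem_erase.1 hw
    refine mem_sdiff.2 ⟨(mU w).2 ⟨mem_union_right _ hw'.2, fun h => hxB (h ▸ hw'.2), hw'.1⟩, fun h => ?_⟩
    exact disjoint_left.1 hd (mem_erase.1 h).2 hw'.2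
  · intro X hX X' hX' hne
    exact absurd ((mem_singleton.1 hX).trans (mem_singleton.1 hX').symm) hne
  · intro w hw
    have hw' := mem_sdiff.1 hw
    refine ⟨A, mem_singleton_self A, ?_⟩
    change w ∈ (if A = A then B.erase y else ∅)
    rw [if_pos rfl]
    obtain ⟨h1, h2, h4⟩ := (mU w).1 hw'.1
    rcases mem_union.1 h1 with h | h
    · exact absurd (mem_erase.2 ⟨h2, h⟩) hw'.2
    · exact mem_erase.2 ⟨h4, h⟩
  · intro X hX
    have hX' : X = A := mem_singleton.1 hX
    subst hX'
    change TStr X (if X = X then B.erase y else ∅)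
      (if X = X then bip X (B.erase y) (hd.mono_right (erase_subset _ _)) else ⊥)
    rw [if_pos rfl, if_pos rfl]
    refine tstr _ hA ?_
    rw [card_erase_of_mem hy, hB]
  · intro X hX
    exact if_neg (fun h => hX (mem_singleton.2 h))
  · intro X hX
    exact if_neg (fun h => hX (mem_singleton.2 h))

theorem cK_comp {x y : ℕ} {R A B : Finset ℕ} {G : Gr} (hR : R = {x, y}) (hx : x ∈ A)
    (hy : y ∈ B) (hd : Disjoint A B)
    (hadj : ∀ a b, G.Adj a b ↔ (a ∈ A ∧ b ∈ B) ∨ (a ∈ B ∧ b ∈ A)) :
    (cK x y A B hd).comp R = G := by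
  have hyA : y ∉ A := fun h => disjoint_left.1 hd h hy
  ext a b
  rw [hadj]
  constructor
  · rintro ⟨hne, h1 | h1 | h1 | ⟨X, h1⟩⟩
    · rw [hR] at h1
      simp only [mem_insert, mem_singleton] at h1
      rcases h1 with ⟨rfl | rfl, rfl | rfl⟩
      · exact absurd rfl hne
      · exact Or.inl ⟨hx, hy⟩
      · exact Or.inr ⟨hy, hx⟩
      · exact absurd rfl hne
    · obtain ⟨⟨-, ha, hb⟩, hcov⟩ := h1
      rcases mem_insert.1 ha with ha' | ha'
      · rcases mem_insert.1 hb with hb' | hb'
        · exact absurd (ha'.trans hb'.symm) hne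
        · exact Or.inr ⟨ha' ▸ hy, hb'⟩
      · rcases mem_insert.1 hb with hb' | hb'
        · exact Or.inl ⟨ha', hb' ▸ hy⟩
        · exact absurd ⟨A, mem_singleton_self A, (show (clq A).Adj a b from ⟨hne, ha', hb'⟩)⟩ hcov
    · exact absurd h1 (Set.notMem_empty _)
    · change (if X = A then bip A (B.erase y) (hd.mono_right (erase_subset _ _)) else (⊥ : Gr)).Adj a b at h1
      by_cases hX : X = A
      · rw [if_pos hX] at h1
        rcases h1 with h | h
        · exact Or.inl ⟨h.1, (mem_erase.1 h.2).2⟩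
        · exact Or.inr ⟨(mem_erase.1 h.1).2, h.2⟩
      · rw [if_neg hX] at h1
        exact absurd h1 id
  · intro h
    have hne : a ≠ b := by
      rintro rfl
      rcases h with h | h
      · exact disjoint_left.1 hd h.1 h.2
      · exact disjoint_left.1 hd h.2 h.1
    have hT : ∀ u v, u ∈ A → v ∈ B → v ≠ y → ((cK x y A B hd).T A).Adj u v ∧
        ((cK x y A B hd).T A).Adj v u := by
      intro u v hu hv hvy
      change (if A = A then bip A (B.erase y) (hd.mono_right (erase_subset _ _)) else (⊥ : Gr)).Adj u v ∧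
        (if A = A then bip A (B.erase y) (hd.mono_right (erase_subset _ _)) else (⊥ : Gr)).Adj v u
      rw [if_pos rfl]
      exact ⟨Or.inl ⟨hu, mem_erase.2 ⟨hvy, hv⟩⟩, Or.inr ⟨mem_erase.2 ⟨hvy, hv⟩, hu⟩⟩
    refine ⟨hne, Or.inr ?_⟩
    rcases h with ⟨ha, hb⟩ | ⟨ha, hb⟩
    · by_cases hby : b = y
      · left
        subst hby
        refine ⟨⟨hne, mem_insert_of_mem ha, mem_insert_self _ _⟩, ?_⟩
        rintro ⟨X, hX, h2⟩
        have hX' : X = A := mem_singleton.1 hX
        have h3 : (clq X).Adj a b := h2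
        exact hyA (hX' ▸ h3.2.2)
      · exact Or.inr (Or.inr ⟨A, (hT a b ha hb hby).1⟩)
    · by_cases hay : a = y
      · left
        subst hay
        refine ⟨⟨hne, mem_insert_self _ _, mem_insert_of_mem hb⟩, ?_⟩
        rintro ⟨X, hX, h2⟩
        have hX' : X = A := mem_singleton.1 hX
        have h3 : (clq X).Adj a b := h2
        exact hyA (hX' ▸ h3.2.1)
      · exact Or.inr (Or.inr ⟨A, (hT b a hb ha hay).2⟩)

/-- No triple with `0` and `1` is a class. -/
theorem not_both {G : Gr} {A B X : Finset ℕ} (hd : Disjoint A B)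
    (hadj : ∀ a b, G.Adj a b ↔ (a ∈ A ∧ b ∈ B) ∨ (a ∈ B ∧ b ∈ A)) (h01 : G.Adj 0 1)
    (h0 : 0 ∈ X) (h1 : 1 ∈ X) (hX : X = A ∨ X = B) : False := by
  rcases (hadj 0 1).1 h01 with ⟨ha, hb⟩ | ⟨hb, ha⟩ <;> rcases hX with rfl | rfl
  · exact disjoint_left.1 hd h1 hb
  · exact disjoint_left.1 hd ha h0
  · exact disjoint_left.1 hd h0 hb
  · exact disjoint_left.1 hd ha h1

end DK33Aux

open DK33Aux

theorem k33_rtd {U : Finset ℕ} {G : Gr} (hd : Disjoint {0, 1} U) (h : IsK33 G ({0, 1} ∪ U))
    (h1 : clq {0, 1} ≤ G) : Rtd {0, 1} U G := by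
  obtain ⟨A, B, hW, hAB, hA, hB, hadj⟩ := h
  have hon : On G ({0, 1} ∪ U) := by
    intro u v huv
    rw [hW]
    rcases (hadj u v).1 huv with h | h
    · exact mem_union_left _ h.1
    · exact mem_union_right _ h.1
  refine {
    disj := hd
    on := hon
    clique := h1
    three := ?_
    free := ?_
    root := Or.inl rfl }
  · rw [hW]
    exact three_mix hAB hA hB hadj
  · refine free_of hon ?_ (fun a b c => no_tri hAB hadj)
    rw [hW, card_union_of_disjoint hAB, hA, hB]
    norm_num

theorem k33_cg {U : Finset ℕ} {G : Gr} (hd : Disjoint {0, 1} U) (h : IsK33 G ({0, 1} ∪ U))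
    (h1 : clq {0, 1} ≤ G) : CG G U = ∅ := by
  obtain ⟨A, B, hW, hAB, hA, hB, hadj⟩ := h
  have h01 : G.Adj 0 1 := h1 ⟨by norm_num, by simp, by simp⟩
  classical
  refine eq_empty_of_forall_notMem fun v hv => ?_
  unfold CG at hv
  have hv' := (mem_filter.1 hv).2
  rw [hW] at hv'
  exact not_both hAB hadj h01 (by simp) (by simp) (k33_shr hAB hA hB hadj hv')

theorem k33_codes {U : Finset ℕ} {G : Gr} (hd : Disjoint {0, 1} U) (h : IsK33 G ({0, 1} ∪ U))
    (h1 : clq {0, 1} ≤ G) : (codes G U).Finite ∧ (codes G U).ncard = 2 := by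
  obtain ⟨A, B, hW, hAB, hA, hB, hadj⟩ := h
  have h01 : G.Adj 0 1 := h1 ⟨by norm_num, by simp, by simp⟩
  have hne : A ≠ B := by
    rintro rfl
    obtain ⟨a, ha⟩ : A.Nonempty := card_pos.1 (by omega)
    exact disjoint_left.1 hAB ha ha
  have hadj' : ∀ a b, G.Adj a b ↔ (a ∈ B ∧ b ∈ A) ∨ (a ∈ A ∧ b ∈ B) := fun a b =>
    (hadj a b).trans or_comm
  have hW' : {0, 1} ∪ U = B ∪ A := hW.trans (union_comm _ _)
  obtain ⟨c1, c2, hc1, hc2, h12⟩ : ∃ c1 c2 : Code3, c1 ∈ codes G U ∧ c2 ∈ codes G U ∧ c1 ≠ c2 := by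
    rcases (hadj 0 1).1 h01 with ⟨h0, h2⟩ | ⟨h0, h2⟩
    · refine ⟨cK 0 1 A B hAB, cK 1 0 B A hAB.symm,
        ⟨cK_valid rfl hd h0 h2 hW hAB hA hB, cK_comp rfl h0 h2 hAB hadj⟩,
        ⟨cK_valid (pair_comm 0 1) hd h2 h0 hW' hAB.symm hB hA, cK_comp (pair_comm 0 1) h2 h0 hAB.symm hadj'⟩, ?_⟩
      intro he
      have h3 : ({A} : Finset (Finset ℕ)) = {B} := congrArg Code3.M he
      exact hne (singleton_injective h3)
    · refine ⟨cK 0 1 B A hAB.symm, cK 1 0 A B hAB,
        ⟨cK_valid rfl hd h0 h2 hW' hAB.symm hB hA, cK_comp rfl h0 h2 hAB.symm hadj'⟩,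
        ⟨cK_valid (pair_comm 0 1) hd h2 h0 hW hAB hA hB, cK_comp (pair_comm 0 1) h2 h0 hAB hadj⟩, ?_⟩
      intro he
      have h3 : ({B} : Finset (Finset ℕ)) = {A} := congrArg Code3.M he
      exact hne (singleton_injective h3).symm
  have low : ∀ c ∈ codes G U, c.Low {0, 1} := by
    intro c hc X hX hRX
    have hs := hc.1.comp_shr hX
    rw [hc.2, hW] at hs
    exact not_both hAB hadj h01 (hRX (by simp)) (hRX (by simp)) (k33_shr hAB hA hB hadj hs)
  have hset : codes G U = {c1, c2} := by
    ext c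
    constructor
    · intro hc
      rcases Code3.Valid.three_codes hc1.1 (low c1 hc1) hc2.1 (low c2 hc2) hc.1 (low c hc)
        (hc1.2.trans hc2.2.symm) (hc1.2.trans hc.2.symm) with h | h | h
      · exact absurd h h12
      · exact Or.inl h.symm
      · exact Or.inr h.symm
    · rintro (rfl | h)
      · exact hc1
      · rw [Set.mem_singleton_iff] at h
        exact h ▸ hc2
  rw [hset]
  exact ⟨Set.toFinite _, Set.ncard_pair h12⟩

end K5
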