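import Pool.Agent.Lib.K5.DDn

/-!
# K5.DLow: graphs without shredder `{0, 1, v}`

`CG G U = ∅`. Every code `c ∈ codes G U` is low: a mark `X ∈ c.M` with `{0, 1} ⊆ X` is `tri v` for some `v` (`|X| = 3`), and `mark_comp` gives `v ∈ CG G U`. If `G` is not a `K_{3,3}`, two codes are equal by `Code3.Valid.inj`; by `ex2` there is a code if `G` is not a `V_8`. So `codes G U = {c}`.

The proofs are those of helper19 (first version of this file).
-/

namespace K5

open Finset

theorem Code3.Valid.mark_CG {U : Finset ℕ} {c : Code3} (h : c.Valid {0, 1} U) {X : Finset ℕ}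
    (hX : X ∈ c.M) (hR : ({0, 1} : Finset ℕ) ⊆ X) :
    ∃ v ∈ CG (c.comp {0, 1}) U, X = tri v := by
  classical
  have h0 : 0 ∈ X := hR (by simp)
  have h1 : 1 ∈ X := hR (by simp)
  have hc3 := (h.mark X hX).1.2.1
  have hS := h.comp_shr hX
  obtain ⟨v, hv⟩ : ∃ v, X = tri v ∧ v ≠ 0 ∧ v ≠ 1 := by
    have h2 : ((X.erase 0).erase 1).card = 1 := by
      rw [card_erase_of_mem (mem_erase.2 ⟨by norm_num, h1⟩), card_erase_of_mem h0, hc3]
    obtain ⟨v, hv⟩ := card_eq_one.1 h2
    have hvm : v ∈ (X.erase 0).erase 1 := by rw [hv]; simp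
    have hvm1 := mem_erase.1 hvm
    refine ⟨v, ?_, (mem_erase.1 hvm1.2).1, hvm1.1⟩
    ext w
    have hw : w ∈ (X.erase 0).erase 1 ↔ w = v := by rw [hv, mem_singleton]
    simp only [mem_erase] at hw
    simp only [tri, mem_insert, mem_singleton]
    by_cases hw0 : w = 0
    · subst hw0
      simp [h0]
    · by_cases hw1 : w = 1
      · subst hw1
        simp [h1]
      · rw [← hw]
        tauto
  obtain ⟨rfl, hv0, hv1⟩ := hv
  refine ⟨v, mem_filter.2 ⟨?_, hS⟩, rfl⟩
  have hvW : v ∈ ({0, 1} : Finset ℕ) ∪ U := hS.1 (by simp [tri])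
  rcases mem_union.1 hvW with h' | h'
  · simp only [mem_insert, mem_singleton] at h'
    rcases h' with h' | h'
    · exact absurd h' hv0
    · exact absurd h' hv1
  · exact h'

theorem codes_low {U : Finset ℕ} {G : Gr} (he : CG G U = ∅) {c : Code3} (hc : c ∈ codes G U) :
    c.Low {0, 1} := by
  obtain ⟨hc, rfl⟩ := hc
  intro X hX hR
  obtain ⟨v, hv, -⟩ := hc.mark_CG hX hR
  rw [he] at hv
  exact notMem_empty _ hv

theorem codes_single (hw : Wag) {U : Finset ℕ} {G : Gr} (h : Rtd {0, 1} U G)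
    (he : CG G U = ∅) (h8 : ¬ IsV8 G ({0, 1} ∪ U)) (h33 : ¬ IsK33 G ({0, 1} ∪ U)) :
    ∃ c, codes G U = {c} := by
  rcases ex2 hw h (by simp) with ⟨c, hc, hcG⟩ | h'
  · refine ⟨c, ?_⟩
    ext c'
    simp only [Set.mem_singleton_iff]
    constructor
    · intro hc'
      refine Code3.Valid.inj hc'.1 (codes_low he hc') hc (codes_low he ⟨hc, hcG⟩)
        (hc'.2.trans hcG.symm) ?_
      rw [hc'.2]
      exact h33
    · rintro rfl
      exact ⟨hc, hcG⟩
  · exact absurd h' h8

end K5
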