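import Pool.Agent.Lib.K5.QK5

/-!
# K5.QFree: planar graphs have no `K_5` minor, no `K_{3,3}` minor; 3-connected planar graphs have no shredder

PROOF. `Mac.free`: a model of `K_5` (`P512.Model`) has all its sets in `U`: every vertex of `B i` has an edge of `G` (if `B i` is a singleton by the edge to `B j`, otherwise by `Conn` applied to the
singleton), so it is in `U` (`On`). Use `Mac.model` with `H = ⊤` and `not_macK_top`.
`Mac.no_shr`: let `X = {x0, x1, x2}` and `C1, C2, C3` as in `Shr G U X` (components of `U \ X`, pairwise disjoint). Every `C i` is joined to every `x j`: otherwise let `{u, v} = X \ {x j}`; by `Three`,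
`(U.erase u).erase v` is connected; `P = C i` is a nonempty subset, not everything (`x j` is not in it), so there is an edge from `C i` to a vertex `w` of `(U \ {u, v}) \ C i`; `w ≠ x j`, so `w ∈ U \ X`,
`w ∉ C i`, which contradicts `IsComp`. So `C1, C2, C3, {x0}, {x1}, {x2}` is a model of `k33` (`Conn` of a singleton: the only nonempty subset is everything). Use `Mac.model` and `not_macK_k33`.
-/

namespace K5

open Finset

namespace QFreeAux

theorem conn_singleton (G : Gr) (x : ℕ) : P512.Conn G {x} := by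
  refine ⟨Finset.singleton_nonempty x, fun P hP hne hP' => ?_⟩
  exact absurd ((Finset.subset_singleton_iff.1 hP).resolve_left hne.ne_empty) hP'

/-- Every component of `G` on `U \ {a, b, x}` has a neighbour at `x`. -/
theorem joined {G : Gr} {U C : Finset ℕ} (hT : Three G U) (a b x : ℕ) (ha : x ≠ a) (hb : x ≠ b)
    (hX : ({a, b, x} : Finset ℕ) ⊆ U) (hC : IsComp G (U \ {a, b, x}) C) :
    ∃ u ∈ C, G.Adj u x := by
  have hxU : x ∈ U := hX (by simp)
  have hCU : ∀ c ∈ C, c ∈ U ∧ c ≠ a ∧ c ≠ b ∧ c ≠ x := by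
    intro c hc
    have h1 := hC.1 hc
    rw [Finset.mem_sdiff] at h1
    refine ⟨h1.1, ?_, ?_, ?_⟩
    · rintro rfl
      exact h1.2 (by simp)
    · rintro rfl
      exact h1.2 (by simp)
    · rintro rfl
      exact h1.2 (by simp)
  have hsub : C ⊆ (U.erase a).erase b := by
    intro c hc
    obtain ⟨h1, h2, h3, _⟩ := hCU c hc
    exact Finset.mem_erase.2 ⟨h3, Finset.mem_erase.2 ⟨h2, h1⟩⟩
  have hne : C ≠ (U.erase a).erase b := by
    intro h
    have hx : x ∈ C := by
      rw [h]
      exact Finset.mem_erase.2 ⟨hb, Finset.mem_erase.2 ⟨ha, hxU⟩⟩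
    exact (hCU x hx).2.2.2 rfl
  obtain ⟨u, hu, w, hw, hwC, huw⟩ := (hT.2 a b).2 C hsub hC.2.1.1 hne
  by_cases hwx : w = x
  · exact ⟨u, hu, hwx ▸ huw⟩
  · exfalso
    have h1 := Finset.mem_erase.1 hw
    have h2 := Finset.mem_erase.1 h1.2
    refine hC.2.2 u hu w ?_ hwC huw
    rw [Finset.mem_sdiff]
    refine ⟨h2.2, ?_⟩
    intro h3
    simp only [Finset.mem_insert, Finset.mem_singleton] at h3
    rcases h3 with h3 | h3 | h3
    · exact h2.1 h3
    · exact h1.1 h3
    · exact hwx h3

end QFreeAux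

theorem Mac.free {G : Gr} {U : Finset ℕ} (hM : Mac G U) (hon : On G U) : Free G := by
  rintro ⟨B, hB, hd, hadj⟩
  have hU : ∀ i, B i ⊆ U := by
    intro i v hv
    by_cases h : ({v} : Finset ℕ) = B i
    · have hj0 : ∀ i : Fin 5, i ≠ i + 1 := by decide
      have hj : ∃ j : Fin 5, i ≠ j := ⟨i + 1, hj0 i⟩
      obtain ⟨j, hj⟩ := hj
      obtain ⟨u, hu, w, _, huw⟩ := hadj i j hj
      rw [← h, Finset.mem_singleton] at hu
      exact hu ▸ hon u w huw
    · obtain ⟨u, hu, w, _, _, huw⟩ := (hB i).2 {v} (Finset.singleton_subset_iff.2 hv)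
        (Finset.singleton_nonempty v) h
      rw [Finset.mem_singleton] at hu
      exact hu ▸ hon u w huw
  exact not_macK_top (hM.model ⊤ B hB hU hd (fun i j h => hadj i j h.ne))

theorem Mac.no_shr {G : Gr} {U : Finset ℕ} (hM : Mac G U) (hT : Three G U) (X : Finset ℕ) :
    ¬ Shr G U X := by
  rintro ⟨hXU, hcard, C1, C2, C3, h1, h2, h3, d12, d13, d23⟩
  obtain ⟨x0, x1, x2, n01, n02, n12, rfl⟩ := Finset.card_eq_three.1 hcard
  have e0 : ({x0, x1, x2} : Finset ℕ) = {x1, x2, x0} := by
    ext a
    simp only [Finset.mem_insert, Finset.mem_singleton]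
    tauto
  have e1 : ({x0, x1, x2} : Finset ℕ) = {x0, x2, x1} := by
    ext a
    simp only [Finset.mem_insert, Finset.mem_singleton]
    tauto
  have j2 : ∀ C, IsComp G (U \ {x0, x1, x2}) C → ∃ u ∈ C, G.Adj u x2 := fun C hC =>
    QFreeAux.joined hT x0 x1 x2 n02.symm n12.symm hXU hC
  have j1 : ∀ C, IsComp G (U \ {x0, x1, x2}) C → ∃ u ∈ C, G.Adj u x1 := fun C hC =>
    QFreeAux.joined hT x0 x2 x1 n01.symm n12 (e1 ▸ hXU) (e1 ▸ hC)
  have j0 : ∀ C, IsComp G (U \ {x0, x1, x2}) C → ∃ u ∈ C, G.Adj u x0 := fun C hC =>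
    QFreeAux.joined hT x1 x2 x0 n01 n02 (e0 ▸ hXU) (e0 ▸ hC)
  have hx : ∀ C, IsComp G (U \ {x0, x1, x2}) C → x0 ∉ C ∧ x1 ∉ C ∧ x2 ∉ C := by
    intro C hC
    refine ⟨fun h => ?_, fun h => ?_, fun h => ?_⟩ <;>
    · have := (Finset.mem_sdiff.1 (hC.1 h)).2
      simp at this
  obtain ⟨a1, b1, c1⟩ := hx C1 h1
  obtain ⟨a2, b2, c2⟩ := hx C2 h2
  obtain ⟨a3, b3, c3⟩ := hx C3 h3
  refine not_macK_k33 (hM.model k33 ![C1, C2, C3, {x0}, {x1}, {x2}] ?_ ?_ ?_ ?_)
  · intro i
    fin_cases i
    · exact h1.2.1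
    · exact h2.2.1
    · exact h3.2.1
    · exact QFreeAux.conn_singleton G x0
    · exact QFreeAux.conn_singleton G x1
    · exact QFreeAux.conn_singleton G x2
  · intro i
    fin_cases i
    · exact h1.1.trans Finset.sdiff_subset
    · exact h2.1.trans Finset.sdiff_subset
    · exact h3.1.trans Finset.sdiff_subset
    · exact Finset.singleton_subset_iff.2 (hXU (by simp))
    · exact Finset.singleton_subset_iff.2 (hXU (by simp))
    · exact Finset.singleton_subset_iff.2 (hXU (by simp))
  · have key : ∀ i j : Fin 6, i < j → Disjoint ((![C1, C2, C3, {x0}, {x1}, {x2}] : Fin 6 → Finset ℕ) i)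
        ((![C1, C2, C3, {x0}, {x1}, {x2}] : Fin 6 → Finset ℕ) j) := by
      intro i j hij
      fin_cases i <;> fin_cases j <;>
        first
        | exact absurd hij (by decide)
        | exact d12
        | exact d13
        | exact d23
        | exact Finset.disjoint_singleton_right.2 a1
        | exact Finset.disjoint_singleton_right.2 a2
        | exact Finset.disjoint_singleton_right.2 a3
        | exact Finset.disjoint_singleton_right.2 b1
        | exact Finset.disjoint_singleton_right.2 b2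
        | exact Finset.disjoint_singleton_right.2 b3
        | exact Finset.disjoint_singleton_right.2 c1
        | exact Finset.disjoint_singleton_right.2 c2
        | exact Finset.disjoint_singleton_right.2 c3
        | exact Finset.disjoint_singleton.2 n01
        | exact Finset.disjoint_singleton.2 n02
        | exact Finset.disjoint_singleton.2 n12
    intro i j hij
    rcases lt_or_gt_of_ne hij with h | h
    · exact key i j h
    · exact (key j i h).symm
  · have key : ∀ i j : Fin 6, i.val < 3 → 3 ≤ j.val →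
        ∃ u ∈ (![C1, C2, C3, {x0}, {x1}, {x2}] : Fin 6 → Finset ℕ) i,
        ∃ v ∈ (![C1, C2, C3, {x0}, {x1}, {x2}] : Fin 6 → Finset ℕ) j, G.Adj u v := by
      have key0 : ∀ C, IsComp G (U \ {x0, x1, x2}) C → ∀ j : Fin 6, 3 ≤ j.val →
          ∃ u ∈ C, ∃ v ∈ (![C1, C2, C3, {x0}, {x1}, {x2}] : Fin 6 → Finset ℕ) j,
            G.Adj u v := by
        intro C hC j hj
        obtain ⟨u0, hu0, k0⟩ := j0 C hC
        obtain ⟨u1, hu1, k1⟩ := j1 C hC
        obtain ⟨u2, hu2, k2⟩ := j2 C hC
        fin_cases j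
        · exact absurd hj (by decide)
        · exact absurd hj (by decide)
        · exact absurd hj (by decide)
        · exact ⟨u0, hu0, x0, Finset.mem_singleton_self x0, k0⟩
        · exact ⟨u1, hu1, x1, Finset.mem_singleton_self x1, k1⟩
        · exact ⟨u2, hu2, x2, Finset.mem_singleton_self x2, k2⟩
      intro i j hi hj
      fin_cases i
      · exact key0 C1 h1 j hj
      · exact key0 C2 h2 j hj
      · exact key0 C3 h3 j hj
      · exact absurd hi (by decide)
      · exact absurd hi (by decide)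
      · exact absurd hi (by decide)
    rintro i j (h | h)
    · exact key i j h.1 h.2
    · obtain ⟨u, hu, v, hv, huv⟩ := key j i h.1 h.2
      exact ⟨v, hv, u, hu, huv.symm⟩

end K5
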