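import Pool.Agent.Lib.K5.YOut
import Pool.Agent.Lib.K5.QFree

/-!
# K5.YPlan: a shredder of the graph of a code inside the core is a marked triangle

`G = c.comp R`, `W = R ∪ U`, `Z = R ∪ c.Y`, `X' ⊆ Z` a shredder of `G`, suppose `X' ∉ c.M`. For every component `C` of `G` in `W \ X'`:
(a) `C` meets `Z`: otherwise let `w ∈ C`, `w ∈ W \ Z`, so `w ∈ U \ c.Y`, `w ∈ c.V X`, `X ∈ c.M` (`V_cover`). Let `K` be the component of `G` in `c.V X` with `w ∈ K`. `K ⊆ c.V X ⊆ W \ X'` (`X' ⊆ Z` is disjoint from `c.V X`), so `K ⊆ C` (`closed_sub`). `X ≠ X'`, `|X| = |X'| = 3`, so there is `x ∈ X \ X'`; `x ∈ Z ⊆ W`, `x` is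
    joined to `K` (`adjX`), so `x ∈ C`, `x ∈ Z`.
(b) `C ∩ Z` is connected in `c.H`: `conn_core` (K5.XCode) with `S = C`.
(c) `C ∩ Z` is closed in `Z \ X'` for `c.H`: let `a ∈ C ∩ Z`, `b ∈ Z \ X'`, `ab` an edge of `c.H`. `hedge` with `S = W \ X'`, `P = C` (`Closed`): for `X ∈ c.M` a component of `c.V X` exists (`two`) and is contained in `W \ X'`. So `b ∈ C`.
So `C ∩ Z` is a component of `c.H` in `Z \ X'`. Three disjoint components of `G` give three disjoint components of `c.H`: `Shr c.H Z X'`, which contradicts `Mac.no_shr` (`c.core.mac`, `c.core.rtd.three`).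
-/

namespace K5

open Finset

theorem Code3.Valid.shr_core {R U X' : Finset ℕ} {c : Code3} (h : c.Valid R U)
    (hX' : Shr (c.comp R) (R ∪ U) X') (hZ : X' ⊆ R ∪ c.Y) : X' ∈ c.M := by
  classical
  by_contra hM
  obtain ⟨hX'W, hX'3, C1, C2, C3, h1, h2, h3, d12, d13, d23⟩ := hX'
  have hZW : R ∪ c.Y ⊆ R ∪ U := union_subset_union (Subset.refl _) h.sub
  have hVS : ∀ X ∈ c.M, c.V X ⊆ (R ∪ U) \ X' := by
    intro X hX w hw
    refine mem_sdiff.2 ⟨mem_union_right _ (mem_sdiff.1 (h.V_sub X hX hw)).1, fun hwX' => ?_⟩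
    exact disjoint_left.1 (h.mark_sub hX).2.2 (hZ hwX') hw
  have key : ∀ C, IsComp (c.comp R) ((R ∪ U) \ X') C →
      IsComp c.H ((R ∪ c.Y) \ X') (C ∩ (R ∪ c.Y)) := by
    intro C hC
    -- (a)
    have hne : (C ∩ (R ∪ c.Y)).Nonempty := by
      by_contra hemp
      have hCZ : ∀ v ∈ C, v ∉ R ∪ c.Y := fun v hv hvZ => hemp ⟨v, mem_inter.2 ⟨hv, hvZ⟩⟩
      obtain ⟨w, hw⟩ := hC.2.1.1
      have hwW := (mem_sdiff.1 (hC.1 hw)).1
      have hwZ := hCZ w hw
      have hwU : w ∈ U \ c.Y := by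
        rcases mem_union.1 hwW with h' | h'
        · exact absurd (mem_union_left _ h') hwZ
        · exact mem_sdiff.2 ⟨h', fun h'' => hwZ (mem_union_right _ h'')⟩
      obtain ⟨X, hX, hwX⟩ := h.V_cover w hwU
      obtain ⟨K, hK, hwK⟩ := exists_xcomp (G := c.comp R) hwX
      have hKC : K ⊆ C := closed_sub hC.2.2 hK.2.1 (hK.1.trans (hVS X hX)) hwK hw
      obtain ⟨x, hx, hxX'⟩ : ∃ x ∈ X, x ∉ X' := by
        by_contra hcon
        push Not at hcon
        have hsub : X ⊆ X' := hcon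
        have hXX' : X = X' := eq_of_subset_of_card_le hsub (by rw [hX'3, (h.mark X hX).1.2.1])
        exact hM (hXX' ▸ hX)
      obtain ⟨a, ha, hax⟩ := h.adjX hX hK hx
      have hxZ : x ∈ R ∪ c.Y := (h.mark_sub hX).1 hx
      have hxC : x ∈ C := by
        by_contra hxC
        exact hC.2.2 a (hKC ha) x (mem_sdiff.2 ⟨hZW hxZ, hxX'⟩) hxC hax
      exact hCZ x hxC hxZ
    refine ⟨?_, h.conn_core hC.2.1 hne, ?_⟩
    · intro v hv
      obtain ⟨hv1, hv2⟩ := mem_inter.1 hv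
      exact mem_sdiff.2 ⟨hv2, (mem_sdiff.1 (hC.1 hv1)).2⟩
    · intro a ha b hb hbn hab
      obtain ⟨ha1, ha2⟩ := mem_inter.1 ha
      obtain ⟨hb1, hb2⟩ := mem_sdiff.1 hb
      apply hbn
      refine mem_inter.2 ⟨?_, hb1⟩
      refine h.hedge (S := (R ∪ U) \ X') (P := C) ⟨hC.1, hC.2.2⟩ hab ha1
        (mem_sdiff.2 ⟨hZW hb1, hb2⟩) ?_
      intro X hX _ _
      obtain ⟨K, _, hK, _, _⟩ := h.two hX
      exact ⟨K, hK, hK.1.trans (hVS X hX)⟩
  have hdis : ∀ {A B : Finset ℕ}, Disjoint A B → Disjoint (A ∩ (R ∪ c.Y)) (B ∩ (R ∪ c.Y)) :=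
    fun hAB => disjoint_of_subset_left inter_subset_left
      (disjoint_of_subset_right inter_subset_left hAB)
  exact h.core.mac.no_shr h.core.rtd.three X' ⟨hZ, hX'3, _, _, _, key C1 h1, key C2 h2, key C3 h3,
    hdis d12, hdis d13, hdis d23⟩

end K5
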