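import Pool.Agent.Lib.K5.DDefs
import Pool.Agent.Lib.K5.YPlan

/-!
# K5.DMark: a shredder that contains the root edge is at a marked triangle

`G = c.comp {0, 1}`, `Z = {0, 1} ∪ c.Y`, `v0 ∈ CG G U`, i.e. `X = {0, 1, v0}` is a shredder. If `v0 ∈ c.Y` then `X ⊆ Z` and `X ∈ c.M` by `shr_core`. Otherwise `v0 ∈ c.V X'`, `X' ∈ c.M`. `c.V X'` has two disjoint
components; let `K1` be one that does not contain `v0`. It is disjoint from `X`, connected and joined to every vertex of `X'`, so it is contained in a component `C1` of `G - X` that contains `X' \ X`. Let `C ≠ C1` be another component of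
`G - X`; it is disjoint from `X'`, and joined to `v0`, so `C` meets `c.V X'`. `C` is joined to `0` and `1`; `C ⊆ c.V X'` (closed outside `X'`), so `0, 1 ∈ X'`.
-/

namespace K5

open Finset

theorem tri_card {U : Finset ℕ} (hd : Disjoint ({0, 1} : Finset ℕ) U) {v : ℕ} (hv : v ∈ U) :
    (tri v).card = 3 ∧ v ≠ 0 ∧ v ≠ 1 := by
  have h0 : v ≠ 0 := fun he => disjoint_left.1 hd (by simp : (0 : ℕ) ∈ ({0, 1} : Finset ℕ)) (he ▸ hv)
  have h1 : v ≠ 1 := fun he => disjoint_left.1 hd (by simp : (1 : ℕ) ∈ ({0, 1} : Finset ℕ)) (he ▸ hv)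
  refine ⟨?_, h0, h1⟩
  rw [card_insert_of_notMem, card_insert_of_notMem, card_singleton]
  · simpa using h1.symm
  · simp only [mem_insert, mem_singleton, not_or]
    exact ⟨by omega, h0.symm⟩

theorem Code3.Valid.exists_mark' {U : Finset ℕ} {c : Code3} (h : c.Valid {0, 1} U) {v0 : ℕ}
    (hv0 : v0 ∈ CG (c.comp {0, 1}) U) :
    ∃ v, tri v ∈ c.M ∧ (v0 = v ∨ v0 ∈ c.V (tri v)) := by
  classical
  obtain ⟨hvU, hS⟩ := mem_filter.1 hv0
  by_cases hvY : v0 ∈ c.Y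
  · refine ⟨v0, h.shr_core hS ?_, Or.inl rfl⟩
    intro w hw
    simp only [tri, mem_insert, mem_singleton] at hw
    rcases hw with rfl | rfl | rfl
    · simp
    · simp
    · exact mem_union_right _ hvY
  obtain ⟨X', hX', hvV⟩ := h.V_cover v0 (mem_sdiff.2 ⟨hvU, hvY⟩)
  obtain ⟨m1, m2, m3⟩ := h.mark_sub hX'
  -- a component of `c.V X'` that does not contain `v0`
  obtain ⟨K1, hK1, hvK1⟩ : ∃ K1, IsComp (c.comp {0, 1}) (c.V X') K1 ∧ v0 ∉ K1 := by
    obtain ⟨A, B, hA, hB, hAB⟩ := h.two hX'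
    by_cases hvA : v0 ∈ A
    · exact ⟨B, hB, fun hvB => disjoint_left.1 hAB hvA hvB⟩
    · exact ⟨A, hA, hvA⟩
  set G := c.comp {0, 1} with hG
  set W := ({0, 1} : Finset ℕ) ∪ U with hW
  have hRV : ∀ w ∈ ({0, 1} : Finset ℕ), w ∉ c.V X' := fun w hw =>
    disjoint_left.1 m3 (mem_union_left _ hw)
  have hXin : ∀ w ∈ tri v0, w ∈ ({0, 1} : Finset ℕ) ∨ w = v0 := by
    intro w hw
    simp only [tri, mem_insert, mem_singleton] at hw ⊢
    tauto
  have hVW : ∀ w ∈ c.V X', w ∈ W := fun w hw =>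
    mem_union_right _ (mem_sdiff.1 (h.V_sub X' hX' hw)).1
  have hX'W : ∀ w ∈ X', w ∈ W := fun w hw => by
    rcases mem_union.1 (m1 hw) with h' | h'
    · exact mem_union_left _ h'
    · exact mem_union_right _ (h.sub h')
  have hK1S : K1 ⊆ W \ tri v0 := by
    intro w hw
    refine mem_sdiff.2 ⟨hVW w (hK1.1 hw), fun hwX => ?_⟩
    rcases hXin w hwX with h' | h'
    · exact hRV w h' (hK1.1 hw)
    · exact hvK1 (h' ▸ hw)
  obtain ⟨C1, hC1, hKC1⟩ := exists_comp_conn hK1.2.1 hK1S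
  have hX'C1 : ∀ x ∈ X', x ∉ tri v0 → x ∈ C1 := by
    intro x hx hxX
    by_contra hxC
    obtain ⟨a, ha, hax⟩ := h.adjX hX' hK1 hx
    exact hC1.2.2 a (hKC1 ha) x (mem_sdiff.2 ⟨hX'W x hx, hxX⟩) hxC hax
  -- another component of `G - X`
  obtain ⟨C, hC, hCC1, D, hD, hCD⟩ : ∃ C, IsComp G (W \ tri v0) C ∧ Disjoint C C1 ∧
      ∃ D, IsComp G (W \ tri v0) D ∧ Disjoint C D := by
    obtain ⟨A, B, E, hA, hB, -, hAB, -, -⟩ := hS.2.2
    by_cases hAC : Disjoint A C1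
    · exact ⟨A, hA, hAC, B, hB, hAB⟩
    · obtain ⟨w, hw, hw'⟩ := not_disjoint_iff.1 hAC
      have he : A = C1 := hA.xeq_of_mem hC1 hw hw'
      exact ⟨B, hB, he ▸ hAB.symm, A, hA, hAB.symm⟩
  have hthree : Three G W := h.comp_three
  have hcard := (tri_card h.disj hvU).1
  have hadj : ∀ x ∈ tri v0, ∃ a ∈ C, G.Adj a x := by
    intro x hx
    obtain ⟨z, hz⟩ := hD.2.1.1
    have hz' := mem_sdiff.1 (hD.1 hz)
    exact hthree.adj_comp hS.1 hcard (fun w hw => (mem_sdiff.1 (hC.1 hw)).1)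
      (disjoint_left.2 fun w hw => (mem_sdiff.1 (hC.1 hw)).2) hC.2.1.1
      (fun a ha b hb hbX hbC => hC.2.2 a ha b (mem_sdiff.2 ⟨hb, hbX⟩) hbC) hz'.1 hz'.2
      (fun hzC => disjoint_left.1 hCD hzC hz) hx
  have hCX' : ∀ w ∈ C, w ∉ X' := fun w hw hwX' =>
    disjoint_left.1 hCC1 hw (hX'C1 w hwX' (mem_sdiff.1 (hC.1 hw)).2)
  -- `C ⊆ c.V X'`
  have hCV : C ⊆ c.V X' := by
    obtain ⟨a, ha, hav⟩ := hadj v0 (by simp [tri])
    have haV : a ∈ c.V X' := by
      rcases h.V_closed hX' hvV hav.symm with h' | h'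
      · exact absurd h' (hCX' a ha)
      · exact h'
    refine closed_sub (U := C) (fun u hu w hw hwn huw => ?_) hC.2.1 (Subset.refl _) ha haV
    rcases h.V_closed hX' hu huw with h' | h'
    · exact hCX' w hw h'
    · exact hwn h'
  have hRX' : ∀ x ∈ ({0, 1} : Finset ℕ), x ∈ X' := by
    intro x hx
    have hx' : x ∈ tri v0 := by
      simp only [tri, mem_insert, mem_singleton] at hx ⊢
      tauto
    obtain ⟨a, ha, hax⟩ := hadj x hx'
    rcases h.V_closed hX' (hCV ha) hax with h' | h'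
    · exact h'
    · exact absurd h' (hRV x hx)
  have h0 : 0 ∈ X' := hRX' 0 (by simp)
  have h1 : 1 ∈ X' := hRX' 1 (by simp)
  have hc3 := (h.mark X' hX').1.2.1
  obtain ⟨v, hv⟩ : ∃ v, X' = tri v := by
    have h2 : ((X'.erase 0).erase 1).card = 1 := by
      rw [card_erase_of_mem (mem_erase.2 ⟨by norm_num, h1⟩), card_erase_of_mem h0, hc3]
    obtain ⟨v, hv⟩ := card_eq_one.1 h2
    refine ⟨v, ?_⟩
    ext w
    have hw : w ∈ (X'.erase 0).erase 1 ↔ w = v := by rw [hv, mem_singleton]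
    simp only [mem_erase] at hw
    simp only [tri, mem_insert, mem_singleton]
    by_cases hw0 : w = 0
    · subst hw0
      simp [h0]
    · by_cases hw1 : w = 1
      · subst hw1
        simp [h1]
      · rw [← hw]
        tauto
  exact ⟨v, hv ▸ hX', Or.inr (hv ▸ hvV)⟩

theorem Code3.Valid.exists_mark {U : Finset ℕ} {v0 : ℕ} {c : Code3} (h : c.Valid {0, 1} U)
    (hv : v0 ∈ CG (c.comp {0, 1}) U) : ∃ v, tri v ∈ c.M ∧ v0 ∈ insert v (c.V (tri v)) := by
  obtain ⟨v, hv1, hv2⟩ := h.exists_mark' hv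
  exact ⟨v, hv1, mem_insert.2 hv2⟩

end K5
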