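import Pool.Agent.Lib.K5.DDn
import Pool.Agent.Lib.K5.DMark
import Pool.Agent.Lib.K5.DFwd
import Pool.Agent.Lib.K5.DBwd

/-!
# K5.DNum: the number of codes of a graph with a shredder `{0, 1, v}`

`G` with `Rtd {0, 1} U G`.
1. `code_exists`: `v ∈ CG G U`, `D` a component of `G` in `U.erase v`: there is `c ∈ codes G U` with `tri v ∈ c.M` and `c.V (tri v) = U.erase v \ D`: `fwd_all`, `three_le`, `kk_tg`, `tg_isComp` and `bwd_code` for `G' = tg G (tri v) (U.erase v)`, `F0 = G.edgeSet ∩ {s(0, v), s(1, v)}`, and `gl_tg`.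
2. `codes_card`: let `v0 ∈ CG G U` and `P` the Finset of the pairs `(v, D)`, `v ∈ CG G U`, `D ∈ (compPart G (U.erase v)).parts`, `v0 ∉ D` (`Finset.sigma`). For every pair choose a code `κ (v, D)` by 1 (`Finset.attach` or a total function with `Classical.epsilon`/`dite`). `κ` is injective on `P`: if `κ (v, D) = κ (v', D') = c` then
`v0 ∈ insert v (c.V (tri v))` (`v0 ∈ U`, `v0 ∉ D`, `c.V (tri v) = U.erase v \ D`) and the same for `v'`. If `v ≠ v'` then `tri v ≠ tri v'`, so `c.V (tri v)`, `c.V (tri v')` are disjoint (`V_disj`), and `v, v' ∈ c.Y` (`mark_v`) are not in `c.V (tri v')`, `c.V (tri v) ⊆ U \ c.Y`; so `v0` cannot be in both sets: contradiction. So `v = v'`, and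
`D = U.erase v \ c.V (tri v) = D'` (`D ⊆ U.erase v`). `κ` is onto `codes G U`: for `c ∈ codes G U`, `exists_mark` gives `v` with `tri v ∈ c.M`, `v0 ∈ insert v (c.V (tri v))`; `mark_comp` gives `v ∈ CG G U` and the component `D = U \ insert v (c.V (tri v))`, `v0 ∉ D`; `κ (v, D)` and `c` have the same graph and the same
`V (tri v) = U.erase v \ D` (`c.V (tri v) ⊆ U`, `v ∉ c.V (tri v)`), so they are equal by `code_unique`. So `codes G U` is finite and `ncard = P.card = ∑ v ∈ CG G U, #{D ∈ parts | v0 ∉ D}`. For `v = v0` no part contains `v0`: `kk G U v0`; for `v ≠ v0` exactly one part of the partition of `U.erase v` contains `v0`: `kk G U v - 1`.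
Total: `1 + ∑ v ∈ CG G U, (kk G U v - 1)` (`kk ≥ 3`).
-/

namespace K5

open Finset

variable {U D : Finset ℕ} {G : Gr} {v : ℕ}

theorem code_exists (hw : Wag) (h : Rtd {0, 1} U G) (hv : v ∈ CG G U)
    (hD : IsComp G (U.erase v) D) :
    ∃ c ∈ codes G U, tri v ∈ c.M ∧ c.V (tri v) = U.erase v \ D := by
  have hvU := (cg_mem hv).1
  have hdX : Disjoint (tri v) (U.erase v) := by
    rw [disjoint_left]
    intro a ha ha'
    obtain ⟨h1, h2⟩ := mem_erase.1 ha'
    have h3 : a = 0 ∨ a = 1 ∨ a = v := by simpa [tri] using ha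
    rcases h3 with h3 | h3 | h3
    · exact disjoint_left.1 h.disj (by simp [h3] : a ∈ ({0, 1} : Finset ℕ)) h2
    · exact disjoint_left.1 h.disj (by simp [h3] : a ∈ ({0, 1} : Finset ℕ)) h2
    · exact h1 h3
  obtain ⟨c, hc1, hc2, hc3, hc4⟩ := bwd_code hw h.disj hvU (fwd_all h hv)
    (by rw [kk_tg hdX]; exact three_le h hv) (F0 := G.edgeSet ∩ {s(0, v), s(1, v)})
    Set.inter_subset_right ((tg_isComp hdX).2 hD)
  exact ⟨c, ⟨hc1, by rw [hc2, gl_tg h hvU]⟩, hc3, hc4⟩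

namespace DNumAux

open Classical in
/-- The pairs of a vertex and a component that does not contain `v0`. -/
noncomputable def prs (G : Gr) (U : Finset ℕ) (v0 : ℕ) : Finset (Σ _ : ℕ, Finset ℕ) :=
  (CG G U).sigma (fun v => (compPart G (U.erase v)).parts.filter (fun D => v0 ∉ D))

lemma mem_prs {v0 : ℕ} {p : Σ _ : ℕ, Finset ℕ} :
    p ∈ prs G U v0 ↔ p.1 ∈ CG G U ∧ IsComp G (U.erase p.1) p.2 ∧ v0 ∉ p.2 := by
  unfold prs
  rw [mem_sigma, mem_filter, mem_compPart]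

open Classical in
lemma card_prs (h : Rtd {0, 1} U G) {v0 : ℕ} (hv0 : v0 ∈ CG G U) :
    (prs G U v0).card = 1 + ∑ v ∈ CG G U, (kk G U v - 1) := by
  unfold prs
  rw [card_sigma]
  have h0 : ((compPart G (U.erase v0)).parts.filter (fun D => v0 ∉ D)).card = kk G U v0 := by
    unfold kk
    congr 1
    rw [filter_eq_self]
    intro D hD hv
    exact (mem_erase.1 ((mem_compPart.1 hD).1 hv)).1 rfl
  have h1 : ∀ v ∈ (CG G U).erase v0,
      ((compPart G (U.erase v)).parts.filter (fun D => v0 ∉ D)).card = kk G U v - 1 := by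
    intro v hv
    obtain ⟨hne, hvC⟩ := mem_erase.1 hv
    have hmem : v0 ∈ U.erase v := mem_erase.2 ⟨fun e => hne e.symm, (cg_mem hv0).1⟩
    obtain ⟨D, hD, hvD⟩ := exists_comp G hmem
    have e : (compPart G (U.erase v)).parts.filter (fun D => v0 ∉ D) =
        (compPart G (U.erase v)).parts.erase D := by
      ext D'
      rw [mem_filter, mem_erase, mem_compPart]
      constructor
      · rintro ⟨h2, h3⟩
        exact ⟨fun e => h3 (e ▸ hvD), h2⟩
      · rintro ⟨h2, h3⟩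
        exact ⟨h3, fun h4 => h2 (h3.eq_of_mem hD h4 hvD)⟩
    rw [e, card_erase_of_mem (mem_compPart.2 hD)]
    rfl
  rw [← add_sum_erase _ _ hv0, h0, sum_congr rfl h1, ← add_sum_erase (CG G U) (fun v => kk G U v - 1) hv0]
  have h3 := three_le h hv0
  omega

lemma v0_mem {v0 v : ℕ} {D : Finset ℕ} {c : Code3} (hU : v0 ∈ U) (hD : v0 ∉ D)
    (hV : c.V (tri v) = U.erase v \ D) : v0 = v ∨ v0 ∈ c.V (tri v) := by
  by_cases e : v0 = v
  · exact Or.inl e
  · right
    rw [hV]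
    exact mem_sdiff.2 ⟨mem_erase.2 ⟨e, hU⟩, hD⟩

lemma same_v {v0 v v' : ℕ} {c : Code3} (h : c.Valid {0, 1} U) (hX : tri v ∈ c.M)
    (hX' : tri v' ∈ c.M) (h1 : v0 = v ∨ v0 ∈ c.V (tri v)) (h2 : v0 = v' ∨ v0 ∈ c.V (tri v')) :
    v = v' := by
  by_contra hne
  obtain ⟨a1, a2, a3, a4, a5⟩ := h.mark_v hX
  obtain ⟨b1, b2, b3, b4, b5⟩ := h.mark_v hX'
  have hneX : tri v ≠ tri v' := by
    intro e
    have hm : v ∈ tri v' := by
      rw [← e]
      simp [tri]
    have h3 : v = 0 ∨ v = 1 ∨ v = v' := by simpa [tri] using hm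
    rcases h3 with h3 | h3 | h3
    · exact a1 h3
    · exact a2 h3
    · exact hne h3
  have hd := h.V_disj _ hX _ hX' hneX
  rcases h1 with h1 | h1
  · rcases h2 with h2 | h2
    · exact hne (h1.symm.trans h2)
    · rw [h1] at h2
      exact (mem_sdiff.1 (h.V_sub _ hX' h2)).2 a3
  · rcases h2 with h2 | h2
    · rw [h2] at h1
      exact (mem_sdiff.1 (h.V_sub _ hX h1)).2 b3
    · exact disjoint_left.1 hd h1 h2

end DNumAux

open DNumAux

theorem codes_card (hw : Wag) (h : Rtd {0, 1} U G) (hne : (CG G U).Nonempty) :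
    (codes G U).Finite ∧ (codes G U).ncard = 1 + ∑ v ∈ CG G U, (kk G U v - 1) := by
  classical
  obtain ⟨v0, hv0⟩ := hne
  have hv0U := (cg_mem hv0).1
  have hex : ∀ p : {p // p ∈ prs G U v0}, ∃ c : Code3, c ∈ codes G U ∧ tri p.1.1 ∈ c.M ∧
      c.V (tri p.1.1) = U.erase p.1.1 \ p.1.2 := by
    rintro ⟨p, hp⟩
    obtain ⟨h1, h2, h3⟩ := mem_prs.1 hp
    exact code_exists hw h h1 h2
  choose κ hκ1 hκ2 hκ3 using hex
  have hinj : Function.Injective κ := by
    rintro ⟨⟨v, D⟩, hp⟩ ⟨⟨v', D'⟩, hq⟩ hpq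
    obtain ⟨h1, h2, h3⟩ := mem_prs.1 hp
    obtain ⟨g1, g2, g3⟩ := mem_prs.1 hq
    have e1 := hκ2 ⟨⟨v, D⟩, hp⟩
    have e2 := hκ3 ⟨⟨v, D⟩, hp⟩
    have f1 := hκ2 ⟨⟨v', D'⟩, hq⟩
    have f2 := hκ3 ⟨⟨v', D'⟩, hq⟩
    rw [← hpq] at f1 f2
    simp only at e1 e2 f1 f2 h1 h2 h3 g1 g2 g3
    have hv : v = v' := same_v (hκ1 ⟨⟨v, D⟩, hp⟩).1 e1 f1 (v0_mem hv0U h3 e2) (v0_mem hv0U g3 f2)
    subst hv
    have hDD : D = D' := by
      rw [← Finset.sdiff_sdiff_eq_self h2.1, ← e2, f2, Finset.sdiff_sdiff_eq_self g2.1]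
    subst hDD
    rfl
  have hrange : codes G U = Set.range κ := by
    ext c
    constructor
    · rintro ⟨hc1, hc2⟩
      obtain ⟨v, hvM, hv⟩ := hc1.exists_mark (v0 := v0) (by rw [hc2]; exact hv0)
      obtain ⟨m1, m2⟩ := hc1.mark_comp hvM
      rw [hc2] at m1 m2
      obtain ⟨a1, a2, a3, a4, a5⟩ := hc1.mark_v hvM
      have hp : (⟨v, U \ insert v (c.V (tri v))⟩ : Σ _ : ℕ, Finset ℕ) ∈ prs G U v0 := by
        rw [mem_prs]
        refine ⟨m1, m2, fun hh => ?_⟩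
        apply (mem_sdiff.1 hh).2
        exact hv
      refine ⟨⟨_, hp⟩, ?_⟩
      have k1 := hκ1 ⟨_, hp⟩
      refine code_unique k1.1 hc1 (k1.2.trans hc2.symm) (hκ2 ⟨_, hp⟩) hvM ?_
      rw [hκ3 ⟨_, hp⟩]
      have hVU : c.V (tri v) ⊆ U := (hc1.V_sub _ hvM).trans sdiff_subset
      ext a
      simp only [mem_sdiff, mem_erase, mem_insert, not_and, not_not]
      constructor
      · rintro ⟨⟨h1, h2⟩, h3⟩
        rcases h3 h2 with h4 | h4
        · exact absurd h4 h1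
        · exact h4
      · intro ha
        exact ⟨⟨fun e => a5 (e ▸ ha), hVU ha⟩, fun _ => Or.inr ha⟩
    · rintro ⟨p, rfl⟩
      exact hκ1 p
  refine ⟨hrange ▸ Set.finite_range κ, ?_⟩
  rw [hrange, ← card_prs h hv0, ← Set.image_univ, Set.ncard_image_of_injective _ hinj,
    Set.ncard_univ, Nat.card_eq_fintype_card, Fintype.card_coe]

end K5
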