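import Pool.Agent.Lib.K5.DDefs
import Pool.Agent.Lib.K5.CLExp

/-!
# K5.DPrt: partitions with at least three parts

1. `sum_prt3`: as `sum_prt2` in K5.CLExp: `CLExpAux.coef` says that for every `k` the sum over the partitions of `U` with `k` parts is `fam (pos F) k U.card / k!`; sum over `k` with the weight `k - 1` for `k ≥ 3` (copy `CLExpAux.swap` with a weight: the sum over `π` is `∑' k, if 3 ≤ k then (k - 1) * ∑_π, if |π| = k …`: exchange the finite sum over `π`
and the sum over `k`, in which only `k = |π|` contributes: `tsum_eq_single`).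
2. `egf_prt3`: as `CLExpAux.egf_gen`: `egf (prt3 F) x = ∑' k, if 3 ≤ k then (k - 1) * (egf (pos F) x ^ k / k!) else 0` (`ENNReal.tsum_comm`, `egf_fam`), and shift the index by 3: `E3`.
3. `E3_ofReal`: in `ℝ`: `∑' k, (k + 2) * a^(k+3)/(k+3)! = a (e^a - 1 - a) - (e^a - 1 - a - a^2/2)`: `(k + 2) / (k + 3)! = 1/(k+2)! - 1/(k+3)!`. In `ENNReal`: show `E3 b + ∑' k, b^(k+3)/(k+3)! = b * ∑' k, b^(k+2)/(k+2)!` for all `b` (`(k+3) * (b^(k+3)/(k+3)!) = b * (b^(k+2)/(k+2)!)`), with `E2`: `∑' k, b^(k+2)/(k+2)! = E2 b`,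
`E2 b = b^2/2 + ∑' k, b^(k+3)/(k+3)!`; for `b = ofReal a` everything is finite, `E2 (ofReal a) = ofReal (exp a - 1 - a)` (K5.ZE2 or directly from `eexp_ofReal`), and solve for `E3`. Or use `ENNReal.ofReal_tsum_of_nonneg` and the real series of `exp`.
4. `E3_mono`: term by term.
-/

namespace K5

open Finset
open scoped ENNReal

namespace DPrtAux

theorem swapw (F : ℕ → ℝ≥0∞) (g : ℕ → ℝ≥0∞) (U : Finset ℕ) :
    (∑ π : Finpartition U, g π.parts.card * ∏ A ∈ π.parts, F A.card) =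
      ∑' k : ℕ, g k * (fam (pos F) k U.card / (k.factorial : ℝ≥0∞)) := by
  have h1 : ∀ π : Finpartition U,
      g π.parts.card * ∏ A ∈ π.parts, F A.card =
        ∑' k : ℕ, g k * (if π.parts.card = k then ∏ A ∈ π.parts, F A.card else 0) := by
    intro π
    rw [tsum_eq_single π.parts.card]
    · simp
    · intro k hk
      have : (if π.parts.card = k then ∏ A ∈ π.parts, F A.card else 0) = 0 :=
        if_neg (fun h => hk h.symm)
      rw [this, mul_zero]
  rw [Finset.sum_congr rfl fun π _ => h1 π, ← tsum_fintype (L := .unconditional _),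
    ENNReal.tsum_comm]
  refine tsum_congr fun k => ?_
  rw [tsum_fintype, ← Finset.mul_sum, CLExpAux.coef]

/-- The weight. -/
noncomputable def g3 (k : ℕ) : ℝ≥0∞ := if 3 ≤ k then ((k - 1 : ℕ) : ℝ≥0∞) else 0

theorem sum_g3 (F : ℕ → ℝ≥0∞) (U : Finset ℕ) :
    ∑ π : Finpartition U, (if 3 ≤ π.parts.card then
      ((π.parts.card - 1 : ℕ) : ℝ≥0∞) * ∏ A ∈ π.parts, F A.card else 0) =
      ∑' k : ℕ, g3 k * (fam (pos F) k U.card / (k.factorial : ℝ≥0∞)) := by
  rw [← swapw]
  refine Finset.sum_congr rfl (fun π _ => ?_)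
  unfold g3
  by_cases h : 3 ≤ π.parts.card
  · rw [if_pos h, if_pos h]
  · rw [if_neg h, if_neg h, zero_mul]

end DPrtAux

open DPrtAux

theorem sum_prt3 (F : ℕ → ℝ≥0∞) (U : Finset ℕ) :
    ∑ π : Finpartition U, (if 3 ≤ π.parts.card then
      ((π.parts.card - 1 : ℕ) : ℝ≥0∞) * ∏ A ∈ π.parts, F A.card else 0) = prt3 F U.card := by
  unfold prt3
  rw [sum_g3, sum_g3, Finset.card_range]

theorem egf_prt3 (F : ℕ → ℝ≥0∞) (x : ℝ≥0∞) : egf (prt3 F) x = E3 (egf (pos F) x) := by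
  have hG : ∀ n, prt3 F n = ∑' k : ℕ, g3 k * (fam (pos F) k n / (k.factorial : ℝ≥0∞)) := by
    intro n
    unfold prt3
    rw [sum_g3, Finset.card_range]
  have h1 : egf (prt3 F) x =
      ∑' k : ℕ, g3 k * (egf (pos F) x ^ k / (k.factorial : ℝ≥0∞)) := by
    have h2 : ∀ k, egf (pos F) x ^ k = egf (fam (pos F) k) x := fun k =>
      (egf_fam (pos F) k x).symm
    simp only [h2]
    unfold egf
    simp only [hG]
    simp only [← ENNReal.tsum_mul_left]
    rw [ENNReal.tsum_comm]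
    refine tsum_congr fun k => ?_
    simp only [div_eq_mul_inv]
    rw [← ENNReal.tsum_mul_right, ← ENNReal.tsum_mul_left]
    refine tsum_congr fun n => ?_
    ring
  rw [h1]
  unfold E3
  set y := egf (pos F) x
  have h3 : ∀ c : ℕ → ℝ≥0∞, ∑' k, c k = c 0 + (c 1 + (c 2 + ∑' k, c (k + 3))) := by
    intro c
    rw [tsum_eq_zero_add' ENNReal.summable, tsum_eq_zero_add' ENNReal.summable,
      tsum_eq_zero_add' ENNReal.summable]
  rw [h3]
  have h4 : ∀ k : ℕ, g3 (k + 3) = ((k + 2 : ℕ) : ℝ≥0∞) := fun k => by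
    unfold g3
    rw [if_pos (by omega)]
    rfl
  simp only [h4]
  simp only [g3, show ¬ (3 ≤ 0) by omega, show ¬ (3 ≤ 1) by omega, show ¬ (3 ≤ 2) by omega,
    if_false, zero_mul, zero_add]

theorem E3_ofReal {a : ℝ} (ha : 0 ≤ a) :
    E3 (.ofReal a) = .ofReal ((a - 1) * Real.exp a + 1 - a ^ 2 / 2) := by
  have hs : HasSum (fun n : ℕ => a ^ n / (n.factorial : ℝ)) (Real.exp a) := by
    rw [Real.exp_eq_exp_ℝ]
    exact NormedSpace.expSeries_div_hasSum_exp a
  have hs2 := (hasSum_nat_add_iff' 2).2 hs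
  have hs3 := (hasSum_nat_add_iff' 3).2 hs
  have hs4 : HasSum (fun k : ℕ => ((k + 2 : ℕ) : ℝ) * (a ^ (k + 3) / ((k + 3).factorial : ℝ)))
      ((a - 1) * Real.exp a + 1 - a ^ 2 / 2) := by
    have h := (hs2.mul_left a).sub hs3
    have e1 : (fun k : ℕ => ((k + 2 : ℕ) : ℝ) * (a ^ (k + 3) / ((k + 3).factorial : ℝ))) =
        fun b : ℕ => a * (a ^ (b + 2) / ((b + 2).factorial : ℝ)) -
          a ^ (b + 3) / ((b + 3).factorial : ℝ) := by
      funext k
      have hf : ((k + 3).factorial : ℝ) = (k + 3 : ℝ) * ((k + 2).factorial : ℝ) := by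
        rw [Nat.factorial_succ (k + 2)]
        push_cast
        ring
      have hne : ((k + 2).factorial : ℝ) ≠ 0 := by positivity
      have hne2 : (k + 3 : ℝ) ≠ 0 := by positivity
      rw [hf]
      push_cast
      field_simp
      ring
    have e2 : (a - 1) * Real.exp a + 1 - a ^ 2 / 2 =
        a * (Real.exp a - ∑ i ∈ range 2, a ^ i / (i.factorial : ℝ)) -
          (Real.exp a - ∑ i ∈ range 3, a ^ i / (i.factorial : ℝ)) := by
      simp [Finset.sum_range_succ, Nat.factorial]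
      ring
    rw [e1, e2]
    exact h
  have hpos : ∀ k : ℕ, 0 ≤ ((k + 2 : ℕ) : ℝ) * (a ^ (k + 3) / ((k + 3).factorial : ℝ)) := by
    intro k
    positivity
  unfold E3
  rw [← hs4.tsum_eq, ENNReal.ofReal_tsum_of_nonneg hpos hs4.summable]
  refine tsum_congr fun k => ?_
  rw [ENNReal.ofReal_mul (by positivity), ENNReal.ofReal_div_of_pos (by positivity),
    ENNReal.ofReal_pow ha, ENNReal.ofReal_natCast, ENNReal.ofReal_natCast]

theorem E3_mono {a b : ℝ≥0∞} (h : a ≤ b) : E3 a ≤ E3 b := by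
  unfold E3
  refine ENNReal.tsum_le_tsum fun k => ?_
  gcongr

end K5
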