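import Pool.Agent.Lib.K5.ZDefs

/-!
# K5.ZSub: the sum over the subsets of a finite set

Let `E = {e | p e}`, finite. The map `F ↦ ↑F` is a bijection from `hE.toFinset.powerset` (Finsets) to the sets `F` with `∀ e ∈ F, p e`; `(↑F : Set α).ncard = F.card`. So the sum is
`∑ F ∈ E'.powerset, z ^ F.card = (1 + z) ^ E'.card` (`Finset.sum_pow_mul_eq_add_pow`).
-/

namespace K5

open Finset
open scoped ENNReal

namespace ZSubAux

lemma fin {α : Type*} {p : α → Prop} (hp : {e | p e}.Finite) (F : {F : Set α // ∀ e ∈ F, p e}) : F.1.Finite :=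
  hp.subset F.2

/-- Subsets of a finite set as finsets. -/
noncomputable def eqv {α : Type*} (p : α → Prop) (hp : {e | p e}.Finite) :
    {F : Set α // ∀ e ∈ F, p e} ≃ {s : Finset α // s ∈ hp.toFinset.powerset} where
  toFun F := ⟨(fin hp F).toFinset, by
    rw [Finset.mem_powerset]
    intro e he
    rw [Set.Finite.mem_toFinset] at he ⊢
    exact F.2 e he⟩
  invFun s := ⟨(s.1 : Set α), by
    intro e he
    have h := Finset.mem_powerset.1 s.2 (Finset.mem_coe.1 he)
    rw [Set.Finite.mem_toFinset] at h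
    exact h⟩
  left_inv F := by
    apply Subtype.ext
    exact Set.Finite.coe_toFinset _
  right_inv s := by
    apply Subtype.ext
    ext e
    simp

end ZSubAux

open ZSubAux

theorem tsum_subset {α : Type*} (p : α → Prop) (hp : {e | p e}.Finite) (z : ℝ≥0∞) :
    ∑' F : {F : Set α // ∀ e ∈ F, p e}, z ^ F.1.ncard = (1 + z) ^ {e | p e}.ncard := by
  have h1 : ∑' F : {F : Set α // ∀ e ∈ F, p e}, z ^ F.1.ncard =
      ∑' s : {s : Finset α // s ∈ hp.toFinset.powerset}, z ^ s.1.card := by
    rw [← Equiv.tsum_eq (eqv p hp) (fun s : {s : Finset α // s ∈ hp.toFinset.powerset} => z ^ s.1.card)]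
    refine tsum_congr fun F => ?_
    congr 1
    change F.1.ncard = (fin hp F).toFinset.card
    exact Set.ncard_eq_toFinset_card _ _
  rw [h1, Finset.tsum_subtype hp.toFinset.powerset (fun s => z ^ s.card),
    Set.ncard_eq_toFinset_card _ hp]
  have h2 := Finset.sum_pow_mul_eq_add_pow z 1 hp.toFinset
  simp only [one_pow, mul_one] at h2
  rw [h2, add_comm]

end K5
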