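import Pool.Agent.Lib.K5.ZDefs
import Pool.Agent.Lib.K5.ExpF
import Pool.Agent.Lib.K5.CLExp

/-!
# K5.ZTs: a t-structure is a set of at least two branches

1. `tstr_iff`: `TStr X V G ↔ X.card = 3 ∧ AllK X (Branch X) V G ∧ 2 ≤ (compPart G V).parts.card`. The fields `disj, on, noX, branch` are those of `AllK`. If `V` is nonempty and `G` is not connected on `V`, there are two
disjoint components (`exists_two_comp`; components are nonempty by `Conn`), both parts of `compPart` (`mem_compPart`), so there are at least two parts (`Finset.one_lt_card`). Conversely, two different parts are two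
components `C ≠ C'`; `V` is nonempty (`C ⊆ V`, `C` nonempty) and not connected (`IsComp.eq_of_conn` would give `C = V = C'`).
2. `branch_class`: `ExpClass X (Branch X)`: `Branch X V G` gives `Disjoint X V` and `On G (X ∪ V)` (`rtd.disj`, `rtd.on`, `G ≤ G ⊔ clq X`), no edges in `X` (`noX`), and `Conn G V`: `rtd.root` with `X.card = 3`
gives `Conn (G ⊔ clq X) V`, and an edge of `clq X` has no end in `V`.
3. `ts_eq`: `exp_sum` for `R = {0, 1, 2}`, `U = Ico 3 (n + 3)`, `p π = (2 ≤ π.parts.card)`; the factors are `nB z C.card` by `branch_count` (`C ⊆ U` because `C ∈ π.parts`: `Finpartition.le`), then `sum_prt2`.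
4. `nB_zero`: a branch with empty interior does not exist (`Conn` on the empty set is false), so the sum is over an empty type. `pos_nB`: from 4.
5. `br_eq`, `nT_eq`: definitions (`Br`, `egf`, `nB`; `T0`, `nT`, `gw`), by `rfl` or `simp only`.
-/

namespace K5

open Finset
open scoped ENNReal

theorem tstr_iff {X V : Finset ℕ} {G : Gr} :
    TStr X V G ↔ X.card = 3 ∧ AllK X (Branch X) V G ∧ 2 ≤ (compPart G V).parts.card := by
  constructor
  · intro h
    refine ⟨h.card, ⟨h.disj, h.on, h.noX, h.branch⟩, ?_⟩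
    obtain ⟨C, C', hC, hC', hd⟩ := exists_two_comp h.ne h.nconn
    refine Finset.one_lt_card.2 ⟨C, mem_compPart.2 hC, C', mem_compPart.2 hC', ?_⟩
    rintro rfl
    obtain ⟨w, hw⟩ := hC.2.1.1
    exact Finset.disjoint_left.1 hd hw hw
  · rintro ⟨h1, ⟨hd, hon, hnoX, hb⟩, h2⟩
    obtain ⟨C, hC, C', hC', hne⟩ := Finset.one_lt_card.1 h2
    rw [mem_compPart] at hC hC'
    refine ⟨h1, hd, hon, hnoX, ?_, ?_, hb⟩
    · obtain ⟨w, hw⟩ := hC.2.1.1
      exact ⟨w, hC.1 hw⟩
    · intro hV
      exact hne ((hC.eq_of_conn hV).trans (hC'.eq_of_conn hV).symm)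

theorem branch_class (X : Finset ℕ) : ExpClass X (Branch X) := by
  intro V G h
  refine ⟨h.rtd.disj, fun a b hab => h.rtd.on a b (Or.inl hab), h.noX, ?_⟩
  rcases h.rtd.root with h2 | ⟨_, hc⟩
  · have := h.card
    omega
  · refine ⟨hc.1, fun P hP hne hPV => ?_⟩
    obtain ⟨u, hu, v, hv, hvP, huv⟩ := hc.2 P hP hne hPV
    rcases huv with huv | huv
    · exact ⟨u, hu, v, hv, hvP, huv⟩
    · exact absurd (hP hu) (Finset.disjoint_left.1 h.rtd.disj huv.2.1)

theorem ts_eq (z : ℝ≥0∞) (n : ℕ) : ts z n = prt2 (nB z) n := by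
  classical
  have hX : ({0, 1, 2} : Finset ℕ).card = 3 := by decide
  have hd : Disjoint ({0, 1, 2} : Finset ℕ) (Ico 3 (n + 3)) := by
    rw [Finset.disjoint_left]
    intro a ha hb
    have h1 := (Finset.mem_Ico.1 hb).1
    simp only [Finset.mem_insert, Finset.mem_singleton] at ha
    omega
  have hU : (Ico 3 (n + 3)).card = n := by
    rw [Nat.card_Ico]
    omega
  have h1 : ts z n = ∑' G : {G : Gr // AllK {0, 1, 2} (Branch {0, 1, 2}) (Ico 3 (n + 3)) G ∧
      2 ≤ (compPart G (Ico 3 (n + 3))).parts.card}, z ^ G.1.edgeSet.ncard := by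
    unfold ts tw
    have e : ∀ G : Gr, TStr {0, 1, 2} (Ico 3 (n + 3)) G ↔
        (AllK {0, 1, 2} (Branch {0, 1, 2}) (Ico 3 (n + 3)) G ∧
          2 ≤ (compPart G (Ico 3 (n + 3))).parts.card) := by
      intro G
      rw [tstr_iff]
      exact ⟨fun h => h.2, fun h => ⟨hX, h⟩⟩
    rw [← (Equiv.subtypeEquivRight e).tsum_eq]
    rfl
  rw [h1, exp_sum (branch_class _) z hd (fun π => 2 ≤ π.parts.card)]
  have h2 : ∀ π : Finpartition (Ico 3 (n + 3)), (if 2 ≤ π.parts.card then
      ∏ C ∈ π.parts, ∑' G : {G : Gr // Branch {0, 1, 2} C G}, z ^ G.1.edgeSet.ncard else 0) =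
      if 2 ≤ π.parts.card then ∏ C ∈ π.parts, nB z C.card else 0 := by
    intro π
    split_ifs
    · refine Finset.prod_congr rfl fun C hC => ?_
      exact branch_count z hX (hd.mono_right (π.le hC))
    · rfl
  rw [Finset.sum_congr rfl fun π _ => h2 π, sum_prt2, hU]

theorem nB_zero (z : ℝ≥0∞) : nB z 0 = 0 := by
  unfold nB
  have : IsEmpty {G : Gr // Branch {0, 1, 2} (Ico 3 (0 + 3)) G} := by
    refine ⟨fun G => ?_⟩
    obtain ⟨w, hw⟩ := (branch_class _ _ _ G.2).2.2.2.1
    have := Finset.mem_Ico.1 hw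
    omega
  exact tsum_empty

theorem pos_nB (z : ℝ≥0∞) : pos (nB z) = nB z := by
  funext n
  unfold pos
  split_ifs with h
  · rw [h, nB_zero]
  · rfl

theorem br_eq (x z : ℝ≥0∞) : Br x z = egf (nB z) x := rfl

theorem nT_eq (x z : ℝ≥0∞) : T0 x z = egf (fun n => gw z {0, 1} (Ico 2 (n + 2))) x := rfl

end K5
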