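import Pool.Agent.Lib.K5.DFwd
import Pool.Agent.Lib.K5.DBwd
import Pool.Agent.Lib.K5.DPrt
import Pool.Agent.Lib.K5.ZSub
import Pool.Agent.Lib.K5.ZTs

/-!
# K5.DSh: the sum over the graphs with a shredder `{0, 1, v}`

1. `all_sum`: `∑' G' : {G' // AllK X (Branch X) S G' ∧ 3 ≤ |parts|}, (|parts| - 1) * z ^ |E(G')| = prt3 (nB z) S.card` for `|X| = 3`, `X` disjoint from `S`. Split over the number `k` of parts: the left side is `∑' k, if 3 ≤ k then (k - 1) * ∑' G' : {G' // AllK X (Branch X) S G' ∧ |parts| = k}, z ^ |E(G')| else 0` (write both as sums over all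
`G'` with `AllK` of indicator functions: `tsum_subtype`, `ENNReal.tsum_comm`, `tsum_eq_single`; or an equivalence with a sigma type). By `exp_sum` (`branch_class`, K5.ZTs) with `p π := π.parts.card = k` and `branch_count` (K5.RelC; the parts are subsets of `S`, so disjoint from `X`) the inner sum is `∑ π, if |π| = k then ∏ C ∈ π.parts, nB z C.card`;
exchange the sums back (`tsum` over `k` and the finite sum over `π`) and use `sum_prt3`.
2. `shw_eq`: `X = tri v`, `|X| = 3` (`v ∈ U`, so `v ≠ 0, 1`), `X` is disjoint from `U.erase v`. The equivalence `{G // Rtd {0, 1} U G ∧ v ∈ CG G U} ≃ {F0 : Set (Sym2 ℕ) // ∀ e ∈ F0, e = s(0, v) ∨ e = s(1, v)} × {G' // AllK X (Branch X) (U.erase v) G' ∧ 3 ≤ |parts|}`, `G ↦ (G.edgeSet ∩ {s(0, v), s(1, v)}, tg G X (U.erase v))`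
(`fwd_all`, `three_le`, `kk_tg`), inverse `(F0, G') ↦ gl F0 G'` (`bwd`); the two compositions are the identity by `gl_tg`, `tg_gl`, `edge_gl`. The weight: `kk_tg` and `ecard_gl`: `(kk - 1) * z ^ ecard = z ^ |F0| * ((|parts| - 1) * z ^ |E(G')|)`. `Equiv.tsum_eq`, `ENNReal.tsum_prod`, `ENNReal.tsum_mul_left/right`, `tsum_subset` (K5.ZSub) gives
`(1 + z) ^ 2` for the first factor (`s(0, v) ≠ s(1, v)`), and 1 the second.
-/

namespace K5

open Finset
open scoped ENNReal

namespace DShAux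

/-- `exp_sum` with a weight that depends on the partition. -/
theorem exp_sum_w {R : Finset ℕ} {K : Finset ℕ → Gr → Prop} (hK : ExpClass R K) (z : ℝ≥0∞)
    {U : Finset ℕ} (hd : Disjoint R U) (p : Finpartition U → Prop) [DecidablePred p]
    (w : Finpartition U → ℝ≥0∞) :
    ∑' G : {G : Gr // AllK R K U G ∧ p (compPart G U)},
      w (compPart G.1 U) * z ^ G.1.edgeSet.ncard =
      ∑ π : Finpartition U, if p π then
        w π * ∏ C ∈ π.parts, ∑' G : {G : Gr // K C G}, z ^ G.1.edgeSet.ncard else 0 := by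
  classical
  have h1 : ∀ π : Finpartition U,
      w π * ∏ C ∈ π.parts, ∑' G : {G : Gr // K C G}, z ^ G.1.edgeSet.ncard =
        ∑' G : Gr, {G : Gr | AllK R K U G ∧ compPart G U = π}.indicator
          (fun G => w π * z ^ G.edgeSet.ncard) G := by
    intro π
    rw [← ExpFAux.sum_part hK hd z π, ← ENNReal.tsum_mul_left]
    exact tsum_subtype {G : Gr | AllK R K U G ∧ compPart G U = π}
      (fun G => w π * z ^ G.edgeSet.ncard)
  have h2 : ∑' G : {G : Gr // AllK R K U G ∧ p (compPart G U)},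
      w (compPart G.1 U) * z ^ G.1.edgeSet.ncard =
      ∑' G : Gr, {G : Gr | AllK R K U G ∧ p (compPart G U)}.indicator
        (fun G => w (compPart G U) * z ^ G.edgeSet.ncard) G :=
    tsum_subtype {G : Gr | AllK R K U G ∧ p (compPart G U)}
      (fun G => w (compPart G U) * z ^ G.edgeSet.ncard)
  rw [h2]
  have h3 : ∀ π : Finpartition U, (if p π then
        w π * ∏ C ∈ π.parts, ∑' G : {G : Gr // K C G}, z ^ G.1.edgeSet.ncard else 0) =
      ∑' G : Gr, if p π then {G : Gr | AllK R K U G ∧ compPart G U = π}.indicator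
          (fun G => w π * z ^ G.edgeSet.ncard) G else 0 := by
    intro π
    split_ifs
    · exact h1 π
    · simp
  rw [Finset.sum_congr rfl fun π _ => h3 π]
  have h4 : ∑ π : Finpartition U, ∑' G : Gr, (if p π then
      {G : Gr | AllK R K U G ∧ compPart G U = π}.indicator
        (fun G => w π * z ^ G.edgeSet.ncard) G else 0) =
      ∑' π : Finpartition U, ∑' G : Gr, (if p π then
      {G : Gr | AllK R K U G ∧ compPart G U = π}.indicator
        (fun G => w π * z ^ G.edgeSet.ncard) G else 0) := (tsum_fintype _).symm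
  rw [h4, ENNReal.tsum_comm]
  refine tsum_congr fun G => ?_
  rw [tsum_fintype]
  by_cases hG : AllK R K U G
  · rw [Finset.sum_eq_single (compPart G U)]
    · by_cases hp : p (compPart G U)
      · rw [if_pos hp, Set.indicator_of_mem, Set.indicator_of_mem]
        · exact ⟨hG, rfl⟩
        · exact ⟨hG, hp⟩
      · rw [if_neg hp, Set.indicator_of_notMem]
        exact fun h => hp h.2
    · intro π _ hπ
      split_ifs
      · rw [Set.indicator_of_notMem]
        exact fun h => hπ h.2.symm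
      · rfl
    · intro h
      exact absurd (Finset.mem_univ _) h
  · rw [Set.indicator_of_notMem (fun h => hG h.1)]
    symm
    refine Finset.sum_eq_zero fun π _ => ?_
    split_ifs
    · exact Set.indicator_of_notMem (fun h => hG h.1) _
    · rfl

theorem tri_disj {U : Finset ℕ} (hd : Disjoint {0, 1} U) (v : ℕ) :
    Disjoint (tri v) (U.erase v) := by
  rw [Finset.disjoint_left]
  intro a ha haU
  have h1 := Finset.mem_erase.1 haU
  have h2 := Finset.disjoint_left.1 hd
  simp only [Finset.mem_insert, Finset.mem_singleton] at ha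
  rcases ha with rfl | rfl | rfl
  · exact h2 (by simp) h1.2
  · exact h2 (by simp) h1.2
  · exact h1.1 rfl

theorem tri_card {U : Finset ℕ} (hd : Disjoint {0, 1} U) {v : ℕ} (hv : v ∈ U) :
    (tri v).card = 3 ∧ v ≠ 0 ∧ v ≠ 1 := by
  have h2 := Finset.disjoint_left.1 hd
  have h0 : v ≠ 0 := by rintro rfl; exact h2 (by simp) hv
  have h1 : v ≠ 1 := by rintro rfl; exact h2 (by simp) hv
  exact ⟨Finset.card_eq_three.2 ⟨0, 1, v, by decide, h0.symm, h1.symm, rfl⟩, h0, h1⟩

/-- The bijection. -/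
noncomputable def eqv (hw : Wag) {U : Finset ℕ} (hd : Disjoint {0, 1} U) {v : ℕ} (hv : v ∈ U) :
    {G : Gr // Rtd {0, 1} U G ∧ v ∈ CG G U} ≃
      {F0 : Set (Sym2 ℕ) // ∀ e ∈ F0, e = s(0, v) ∨ e = s(1, v)} ×
        {G' : Gr // AllK (tri v) (Branch (tri v)) (U.erase v) G' ∧
          3 ≤ (compPart G' (U.erase v)).parts.card} where
  toFun G := (⟨G.1.edgeSet ∩ {s(0, v), s(1, v)}, fun _ he => he.2⟩,
    ⟨tg G.1 (tri v) (U.erase v), fwd_all G.2.1 G.2.2, by
      rw [kk_tg (tri_disj hd v)]; exact three_le G.2.1 G.2.2⟩)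
  invFun q := ⟨gl q.1.1 q.2.1, bwd hw hd hv q.2.2.1 q.2.2.2 q.1.2⟩
  left_inv G := Subtype.ext (gl_tg G.2.1 hv)
  right_inv q := Prod.ext (Subtype.ext (edge_gl hd hv q.2.2.1 q.1.2))
    (Subtype.ext (tg_gl hd hv q.2.2.1 q.1.2))

end DShAux

open DShAux in
theorem all_sum (z : ℝ≥0∞) {X S : Finset ℕ} (hX : X.card = 3) (hd : Disjoint X S) :
    ∑' G' : {G' : Gr // AllK X (Branch X) S G' ∧ 3 ≤ (compPart G' S).parts.card},
      (((compPart G'.1 S).parts.card - 1 : ℕ) : ℝ≥0∞) * z ^ G'.1.edgeSet.ncard =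
        prt3 (nB z) S.card := by
  classical
  rw [exp_sum_w (branch_class X) z hd (fun π => 3 ≤ π.parts.card)
    (fun π => ((π.parts.card - 1 : ℕ) : ℝ≥0∞)), ← sum_prt3]
  refine Finset.sum_congr rfl fun π _ => ?_
  split_ifs
  · congr 1
    exact Finset.prod_congr rfl fun C hC => branch_count z hX (hd.mono_right (π.le hC))
  · rfl

open DShAux in
theorem shw_eq (hw : Wag) (z : ℝ≥0∞) {U : Finset ℕ} (hd : Disjoint {0, 1} U) {v : ℕ}
    (hv : v ∈ U) : shw z U v = (1 + z) ^ 2 * prt3 (nB z) (U.card - 1) := by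
  classical
  obtain ⟨hX, hv0, hv1⟩ := tri_card hd hv
  have hs : s(0, v) ≠ s(1, v) := by
    intro h
    rcases Sym2.eq_iff.1 h with h | h
    · exact absurd h.1 (by decide)
    · exact hv0 h.1.symm
  have hset : {e : Sym2 ℕ | e = s(0, v) ∨ e = s(1, v)} = {s(0, v), s(1, v)} := rfl
  have hfin : {e : Sym2 ℕ | e = s(0, v) ∨ e = s(1, v)}.Finite := by
    rw [hset]; exact Set.toFinite _
  have hc2 : {e : Sym2 ℕ | e = s(0, v) ∨ e = s(1, v)}.ncard = 2 := by
    rw [hset]; exact Set.ncard_pair hs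
  have h1 := tsum_subset (fun e : Sym2 ℕ => e = s(0, v) ∨ e = s(1, v)) hfin z
  rw [hc2] at h1
  have h2 := all_sum z hX (tri_disj hd v)
  rw [Finset.card_erase_of_mem hv] at h2
  rw [← h1, ← h2, ← ENNReal.tsum_mul_right]
  have h3 : ∀ F0 : {F0 : Set (Sym2 ℕ) // ∀ e ∈ F0, e = s(0, v) ∨ e = s(1, v)},
      z ^ F0.1.ncard * ∑' G' : {G' : Gr // AllK (tri v) (Branch (tri v)) (U.erase v) G' ∧
          3 ≤ (compPart G' (U.erase v)).parts.card},
        (((compPart G'.1 (U.erase v)).parts.card - 1 : ℕ) : ℝ≥0∞) * z ^ G'.1.edgeSet.ncard =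
      ∑' G' : {G' : Gr // AllK (tri v) (Branch (tri v)) (U.erase v) G' ∧
          3 ≤ (compPart G' (U.erase v)).parts.card},
        z ^ F0.1.ncard * ((((compPart G'.1 (U.erase v)).parts.card - 1 : ℕ) : ℝ≥0∞) *
          z ^ G'.1.edgeSet.ncard) := fun F0 => ENNReal.tsum_mul_left.symm
  rw [tsum_congr h3, ← ENNReal.tsum_prod, ← (eqv hw hd hv).tsum_eq]
  unfold shw
  refine tsum_congr fun G => ?_
  have e1 := ecard_gl G.2.1 hv
  have e2 := kk_tg (G := G.1) (tri_disj hd v)
  change ((kk G.1 U v - 1 : ℕ) : ℝ≥0∞) * z ^ ecard {0, 1} G.1 =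
    z ^ (G.1.edgeSet ∩ {s(0, v), s(1, v)}).ncard *
      ((((compPart (tg G.1 (tri v) (U.erase v)) (U.erase v)).parts.card - 1 : ℕ) : ℝ≥0∞) *
        z ^ (tg G.1 (tri v) (U.erase v)).edgeSet.ncard)
  rw [e1, e2, pow_add]
  ring

end K5
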