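import Pool.Agent.Lib.K5.ZEdge
import Pool.Agent.Lib.K5.ZSub


/-!
# K5.ZCode: the sum over the codes as an iterated sum

A code `c` with `c.Valid R U` and `Q X` for all marks is the same as: `Y = c.Y ⊆ U`, the marked core `p = (c.H, c.M) : MC Q R Y` (`core`, `mark`, `Q`), the set `F = c.F` with
`∀ e ∈ F, e ∈ H.edgeSet ∧ Cov M e ∧ e ∉ (clq R).edgeSet` (`F_sub`) and the filling `q = (c.V, c.T)` with `IsFil M (U \ Y) q` (`V_sub, V_disj, V_cover, T_str, V_out, T_out`). (The field `mark` of `Valid` asks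
`X ≠ R`, which follows from `hQ`; `disj` is the hypothesis `hRU`.) So there is an equivalence
`CD Q R U ≃ Σ Y : {Y // Y ∈ U.powerset}, Σ p : MC Q R Y.1, {F : Set (Sym2 ℕ) // ∀ e ∈ F, …} × {q // IsFil p.1.2 (U \ Y) q}`.
By `Code3.Valid.ecard_comp` the weight of `c` is `z ^ unc * z ^ F.ncard * z ^ (∑ X ∈ M, |E(T X)|)` with `unc = {e ∈ H.edgeSet | ¬ Cov M e ∧ e ∉ (clq R).edgeSet}.ncard`. Sum over `(F, q)`
(`ENNReal.tsum_prod`, `ENNReal.tsum_mul_left/right`): `z ^ unc * (1 + z) ^ cov * fil z M (U \ Y)` by `tsum_subset`, where `cov = {e | e ∈ H.edgeSet ∧ Cov M e ∧ e ∉ (clq R).edgeSet}.ncard` (finite by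
`On.edge_finite`); this is `mwt z (1 + z) 1 R H M * fil z M (U \ Y)`. Outer sums: `ENNReal.tsum_sigma`, `Finset.tsum_subtype` (sum over `U.powerset`).
-/

namespace K5

open Finset
open scoped ENNReal

/-- The codes as nested pairs. -/
def ZCodeAux.equ (Q : Finset ℕ → Prop) (R U : Finset ℕ) (hQ : ∀ X, Q X → X ≠ R)
    (hRU : Disjoint R U) :
    CD Q R U ≃ Σ Y : {Y : Finset ℕ // Y ∈ U.powerset}, Σ p : MC Q R Y.1,
      ({F : Set (Sym2 ℕ) // ∀ e ∈ F, e ∈ p.1.1.edgeSet ∧ Cov p.1.2 e ∧ e ∉ (clq R).edgeSet} ×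
        {q : (Finset ℕ → Finset ℕ) × (Finset ℕ → Gr) // IsFil p.1.2 (U \ Y.1) q}) where
  toFun c := ⟨⟨c.1.Y, mem_powerset.2 c.2.1.sub⟩,
    ⟨⟨(c.1.H, c.1.M), c.2.1.core, fun X hX => ⟨(c.2.1.mark X hX).1, c.2.2 X hX⟩⟩,
      (⟨c.1.F, c.2.1.F_sub⟩, ⟨(c.1.V, c.1.T), ⟨c.2.1.V_sub, c.2.1.V_disj, c.2.1.V_cover,
        c.2.1.T_str, c.2.1.V_out, c.2.1.T_out⟩⟩)⟩⟩
  invFun x := ⟨⟨x.1.1, x.2.1.1.1, x.2.1.1.2, x.2.2.2.1.1, x.2.2.2.1.2, x.2.2.1.1⟩,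
    ⟨hRU, mem_powerset.1 x.1.2, x.2.1.2.1,
      fun X hX => ⟨(x.2.1.2.2 X hX).1, hQ X (x.2.1.2.2 X hX).2⟩,
      x.2.2.2.2.sub, x.2.2.2.2.disj, x.2.2.2.2.cover, x.2.2.2.2.str, x.2.2.2.2.vout,
      x.2.2.2.2.tout, x.2.2.1.2⟩,
    fun X hX => (x.2.1.2.2 X hX).2⟩
  left_inv _ := rfl
  right_inv _ := rfl

theorem csC_eq_fil (Q : Finset ℕ → Prop) (z : ℝ≥0∞) (R U : Finset ℕ) (hQ : ∀ X, Q X → X ≠ R)
    (hRU : Disjoint R U) :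
    csC Q z R U = ∑ Y ∈ U.powerset, ∑' p : MC Q R Y,
      mwt z (1 + z) 1 R p.1.1 p.1.2 * fil z p.1.2 (U \ Y) := by
  unfold csC
  rw [← (ZCodeAux.equ Q R U hQ hRU).symm.tsum_eq, ENNReal.tsum_sigma']
  rw [← Finset.tsum_subtype U.powerset (fun Y => ∑' p : MC Q R Y,
      mwt z (1 + z) 1 R p.1.1 p.1.2 * fil z p.1.2 (U \ Y))]
  refine tsum_congr fun Y => ?_
  rw [ENNReal.tsum_sigma']
  refine tsum_congr fun p => ?_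
  have hfin : {e | e ∈ p.1.1.edgeSet ∧ Cov p.1.2 e ∧ e ∉ (clq R).edgeSet}.Finite :=
    (On.edge_finite p.2.1.rtd.on).subset fun e he => he.1
  have h1 : ∀ w : ({F : Set (Sym2 ℕ) // ∀ e ∈ F, e ∈ p.1.1.edgeSet ∧ Cov p.1.2 e ∧
        e ∉ (clq R).edgeSet} ×
        {q : (Finset ℕ → Finset ℕ) × (Finset ℕ → Gr) // IsFil p.1.2 (U \ Y.1) q}),
      z ^ ecard R (((ZCodeAux.equ Q R U hQ hRU).symm ⟨Y, ⟨p, w⟩⟩).1.comp R) =
        z ^ ({e ∈ p.1.1.edgeSet | ¬ Cov p.1.2 e ∧ e ∉ (clq R).edgeSet}.ncard) *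
          (z ^ w.1.1.ncard * z ^ (∑ X ∈ p.1.2, (w.2.1.2 X).edgeSet.ncard)) := by
    intro w
    rw [((ZCodeAux.equ Q R U hQ hRU).symm ⟨Y, ⟨p, w⟩⟩).2.1.ecard_comp, pow_add, pow_add, mul_assoc]
    rfl
  rw [tsum_congr h1, ENNReal.tsum_mul_left]
  rw [ENNReal.tsum_prod (f := fun (a : {F : Set (Sym2 ℕ) // ∀ e ∈ F, e ∈ p.1.1.edgeSet ∧
      Cov p.1.2 e ∧ e ∉ (clq R).edgeSet})
      (b : {q : (Finset ℕ → Finset ℕ) × (Finset ℕ → Gr) // IsFil p.1.2 (U \ Y.1) q}) =>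
      z ^ a.1.ncard * z ^ (∑ X ∈ p.1.2, (b.1.2 X).edgeSet.ncard))]
  simp only [ENNReal.tsum_mul_left, ENNReal.tsum_mul_right]
  rw [tsum_subset _ hfin]
  unfold mwt fil
  rw [one_pow, one_mul]
  ring

end K5
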