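import Pool.Agent.Lib.K5.ZEdge


/-!
# K5.ZFilA: the sum over the fillings as a sum over functions

The fillings `q` correspond to the pairs (`f : S → M`, `T ∈ ∏_{X : M} {G // TStr X (fibF f X) G}`): given `q`, `f w` is the unique `X ∈ M` with `w ∈ q.1 X` (`cover`, `disj`), then `fibF f X = q.1 X` for `X ∈ M`
(`sub`), and `T X = q.2 X`. Conversely `q.1 X = fibF f X` for `X ∈ M`, `∅` otherwise, `q.2 X = T X` for `X ∈ M`, `⊥` otherwise. The weight `z ^ (∑ X ∈ M, |E(q.2 X)|)` is `∏_{X : M} z ^ |E(T X)|`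
(`Finset.prod_pow_eq_pow_sum`, `Finset.prod_coe_sort` / `Finset.prod_attach`). So
`fil z M S = ∑' p : (Σ f, Π X : M, {G // TStr X (fibF f X) G}), ∏ X, z ^ |E(p.2 X)| = ∑' f, ∑' T, ∏ X, … = ∑ f, ∏ X, ∑' G, z ^ |E(G)|` (`Equiv.tsum_eq`, `ENNReal.tsum_sigma`, `tsum_fintype`).
The last step (product of sums): `M` is finite and every type `{G // TStr X V G}` is finite (`gr_finite`, `TStr.on`), so all sums are finite sums: `Finset.prod_univ_sum` + `Fintype.piFinset_univ`; a general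
lemma `∏ i : ι, ∑' a : A i, w i a = ∑' g : (Π i, A i), ∏ i, w i (g i)` for a Fintype `ι` and finite types `A i` (`Fintype.ofFinite`, `tsum_fintype`) is convenient.
-/

namespace K5

open Finset
open scoped ENNReal

theorem prod_tsum {ι : Type} [Fintype ι] {A : ι → Type} [∀ i, Finite (A i)]
    (w : ∀ i, A i → ℝ≥0∞) :
    ∏ i : ι, ∑' a : A i, w i a = ∑' g : (∀ i, A i), ∏ i : ι, w i (g i) := by
  classical
  have hft : ∀ i, Fintype (A i) := fun i => Fintype.ofFinite _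
  have h : ∀ i, ∑' a : A i, w i a = ∑ a : A i, w i a := fun i => tsum_fintype _
  rw [Finset.prod_congr rfl fun i _ => h i, tsum_fintype, Finset.prod_univ_sum,
    Fintype.piFinset_univ]

namespace ZFilAAux

variable {M : Finset (Finset ℕ)} {S : Finset ℕ}

theorem mem_fibF {f : {w // w ∈ S} → {X // X ∈ M}} {X : {X // X ∈ M}} {w : ℕ} :
    w ∈ fibF f X ↔ ∃ h : w ∈ S, f ⟨w, h⟩ = X := by
  simp only [fibF, Finset.mem_map, Finset.mem_filter, Finset.mem_univ, true_and,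
    Function.Embedding.subtype_apply]
  constructor
  · rintro ⟨v, hv, rfl⟩
    exact ⟨v.2, hv⟩
  · rintro ⟨h, hw⟩
    exact ⟨⟨w, h⟩, hw, rfl⟩

theorem finite_tstr (X V : Finset ℕ) : Finite {G : Gr // TStr X V G} :=
  ((gr_finite (X ∪ V)).subset (fun _ hG => TStr.on hG)).to_subtype

open Classical in
/-- The filling of a function and a family of structures. -/
noncomputable def toPair (p : Σ f : ({w // w ∈ S} → {X // X ∈ M}),
    ∀ X : {X // X ∈ M}, {G : Gr // TStr X.1 (fibF f X) G}) :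
    (Finset ℕ → Finset ℕ) × (Finset ℕ → Gr) :=
  (fun X => if h : X ∈ M then fibF p.1 ⟨X, h⟩ else ∅,
    fun X => if h : X ∈ M then (p.2 ⟨X, h⟩).1 else ⊥)

variable (p : Σ f : ({w // w ∈ S} → {X // X ∈ M}),
    ∀ X : {X // X ∈ M}, {G : Gr // TStr X.1 (fibF f X) G})

theorem fst_of_mem {X : Finset ℕ} (h : X ∈ M) : (toPair p).1 X = fibF p.1 ⟨X, h⟩ := dif_pos h

theorem fst_of_not {X : Finset ℕ} (h : X ∉ M) : (toPair p).1 X = ∅ := dif_neg h

theorem snd_of_mem {X : Finset ℕ} (h : X ∈ M) : (toPair p).2 X = (p.2 ⟨X, h⟩).1 := dif_pos h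

theorem snd_of_not {X : Finset ℕ} (h : X ∉ M) : (toPair p).2 X = ⊥ := dif_neg h

theorem isFil_toPair : IsFil M S (toPair p) where
  sub X hX := by
    rw [fst_of_mem p hX]
    intro w hw
    exact (mem_fibF.1 hw).1
  disj X hX X' hX' hne := by
    rw [fst_of_mem p hX, fst_of_mem p hX', Finset.disjoint_left]
    intro w hw hw'
    obtain ⟨h, h1⟩ := mem_fibF.1 hw
    obtain ⟨h', h1'⟩ := mem_fibF.1 hw'
    exact hne (congrArg Subtype.val (h1.symm.trans h1'))
  cover w hw := by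
    refine ⟨(p.1 ⟨w, hw⟩).1, (p.1 ⟨w, hw⟩).2, ?_⟩
    rw [fst_of_mem p (p.1 ⟨w, hw⟩).2]
    exact mem_fibF.2 ⟨hw, rfl⟩
  str X hX := by
    rw [fst_of_mem p hX, snd_of_mem p hX]
    exact (p.2 ⟨X, hX⟩).2
  vout X hX := fst_of_not p hX
  tout X hX := snd_of_not p hX

theorem bij : Function.Bijective (fun p : (Σ f : ({w // w ∈ S} → {X // X ∈ M}),
    ∀ X : {X // X ∈ M}, {G : Gr // TStr X.1 (fibF f X) G}) =>
      (⟨toPair p, isFil_toPair p⟩ :
        {q : (Finset ℕ → Finset ℕ) × (Finset ℕ → Gr) // IsFil M S q})) := by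
  constructor
  · rintro ⟨f, T⟩ ⟨f', T'⟩ h
    have h1 : toPair ⟨f, T⟩ = toPair ⟨f', T'⟩ := congrArg Subtype.val h
    have h2 : f = f' := by
      funext w
      have h3 : w.1 ∈ fibF f (f w) := mem_fibF.2 ⟨w.2, rfl⟩
      have h4 := congrFun (congrArg Prod.fst h1) (f w).1
      rw [fst_of_mem ⟨f, T⟩ (f w).2, fst_of_mem ⟨f', T'⟩ (f w).2] at h4
      have h5 : w.1 ∈ fibF f' (f w) := by
        have h6 : fibF f (f w) = fibF f' (f w) := h4
        rw [← h6]
        exact h3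
      obtain ⟨_, h7⟩ := mem_fibF.1 h5
      exact h7.symm
    subst h2
    have h3 : T = T' := by
      funext X
      have h4 := congrFun (congrArg Prod.snd h1) X.1
      rw [snd_of_mem ⟨f, T⟩ X.2, snd_of_mem ⟨f, T'⟩ X.2] at h4
      exact Subtype.ext h4
    rw [h3]
  · rintro ⟨q, hq⟩
    have hc : ∀ w : {w // w ∈ S}, ∃ X : {X // X ∈ M}, w.1 ∈ q.1 X.1 := by
      intro w
      obtain ⟨X, hX, h⟩ := hq.cover w.1 w.2
      exact ⟨⟨X, hX⟩, h⟩
    choose f hf using hc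
    have hfib : ∀ X : {X // X ∈ M}, fibF f X = q.1 X.1 := by
      intro X
      ext w
      rw [mem_fibF]
      constructor
      · rintro ⟨h, rfl⟩
        exact hf ⟨w, h⟩
      · intro h
        have hwS := hq.sub X.1 X.2 h
        refine ⟨hwS, ?_⟩
        by_contra hne
        have h1 : (f ⟨w, hwS⟩).1 ≠ X.1 := fun h2 => hne (Subtype.ext h2)
        exact Finset.disjoint_left.1 (hq.disj _ (f ⟨w, hwS⟩).2 _ X.2 h1) (hf ⟨w, hwS⟩) h
    refine ⟨⟨f, fun X => ⟨q.2 X.1, ?_⟩⟩, ?_⟩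
    · rw [hfib X]
      exact hq.str X.1 X.2
    · refine Subtype.ext (Prod.ext ?_ ?_)
      · funext X
        by_cases hX : X ∈ M
        · exact (fst_of_mem _ hX).trans (hfib ⟨X, hX⟩)
        · exact (fst_of_not _ hX).trans (hq.vout X hX).symm
      · funext X
        by_cases hX : X ∈ M
        · exact snd_of_mem _ hX
        · exact (snd_of_not _ hX).trans (hq.tout X hX).symm

end ZFilAAux

open ZFilAAux in
theorem fil_fam (z : ℝ≥0∞) (M : Finset (Finset ℕ)) (S : Finset ℕ) :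
    fil z M S = ∑ f : {w // w ∈ S} → {X // X ∈ M}, ∏ X : {X // X ∈ M}, tw z X.1 (fibF f X) := by
  classical
  have hfin : ∀ (f : {w // w ∈ S} → {X // X ∈ M}) (X : {X // X ∈ M}),
      Finite {G : Gr // TStr X.1 (fibF f X) G} := fun f X => finite_tstr _ _
  have h1 : ∀ f : {w // w ∈ S} → {X // X ∈ M}, ∏ X : {X // X ∈ M}, tw z X.1 (fibF f X) =
      ∑' T : (∀ X : {X // X ∈ M}, {G : Gr // TStr X.1 (fibF f X) G}),
        ∏ X : {X // X ∈ M}, z ^ (T X).1.edgeSet.ncard := fun f =>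
    prod_tsum (fun (X : {X // X ∈ M}) (G : {G : Gr // TStr X.1 (fibF f X) G}) =>
      z ^ G.1.edgeSet.ncard)
  rw [Finset.sum_congr rfl fun f _ => h1 f, fil, ← (Equiv.ofBijective _ bij).tsum_eq]
  have h2 : ∀ p : (Σ f : ({w // w ∈ S} → {X // X ∈ M}),
      ∀ X : {X // X ∈ M}, {G : Gr // TStr X.1 (fibF f X) G}),
      z ^ (∑ X ∈ M, (((Equiv.ofBijective _ bij) p).1.2 X).edgeSet.ncard) =
        ∏ X : {X // X ∈ M}, z ^ (p.2 X).1.edgeSet.ncard := by
    intro p
    rw [Finset.prod_pow_eq_pow_sum, ← Finset.sum_coe_sort M]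
    congr 1
    refine Finset.sum_congr rfl fun X _ => ?_
    have h3 : ((Equiv.ofBijective _ bij) p).1.2 X.1 = (p.2 X).1 := snd_of_mem p X.2
    rw [h3]
  rw [tsum_congr h2, ENNReal.tsum_sigma', tsum_fintype]

end K5
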