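import Pool.Agent.Lib.K5.ZRel
import Pool.Agent.Lib.K5.ZFilA
import Pool.Agent.Lib.K5.ZCode
import Pool.Agent.Lib.K5.CLFam

/-!
# K5.ZFil: the sum over the fillings depends only on the numbers; the sum over the codes

1. `fil_eq`: `fil_fam`; `tstr_count` for `X ∈ M` and the fibre `fibF f X ⊆ S` (so disjoint from `X`), `(fibF f X).card = (univ.filter (fun w => f w = X)).card` (`Finset.card_map`); then `sum_fam` (CLFam) and
`Fintype.card_coe`.
2. `csC_eq`: `csC_eq_fil`; for `p : MC Q R Y` with `Y ⊆ U` the marks are triangles `X ⊆ R ∪ Y` (`NT`), so `X.card = 3` and `X` is disjoint from `U \ Y` (`Disjoint R U`); `fil_eq`, `mul_comm`, unfold `csA`, `mphi`.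
-/

namespace K5

open Finset
open scoped ENNReal

theorem fil_eq (z : ℝ≥0∞) {M : Finset (Finset ℕ)} {S : Finset ℕ}
    (h : ∀ X ∈ M, X.card = 3 ∧ Disjoint X S) : fil z M S = fam (ts z) M.card S.card := by
  rw [fil_fam]
  have h1 : ∀ (f : {w // w ∈ S} → {X // X ∈ M}) (X : {X // X ∈ M}),
      tw z X.1 (fibF f X) = ts z (univ.filter (fun w => f w = X)).card := by
    intro f X
    have hsub : fibF f X ⊆ S := by
      intro w hw
      obtain ⟨w', _, rfl⟩ := Finset.mem_map.1 hw
      exact w'.2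
    rw [tstr_count z (h X.1 X.2).1 ((h X.1 X.2).2.mono_right hsub)]
    unfold fibF
    rw [Finset.card_map]
  simp only [h1]
  rw [sum_fam (ts z), Fintype.card_coe, Fintype.card_coe]

theorem csC_eq (Q : Finset ℕ → Prop) (z : ℝ≥0∞) (R U : Finset ℕ) (hQ : ∀ X, Q X → X ≠ R)
    (hRU : Disjoint R U) : csC Q z R U = csA Q (ts z) z R U := by
  rw [csC_eq_fil Q z R U hQ hRU]
  unfold csA mphi
  refine Finset.sum_congr rfl (fun Y hY => ?_)
  refine tsum_congr (fun p => ?_)
  rw [mul_comm]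
  congr 1
  refine fil_eq z (fun X hX => ?_)
  have hNT := (p.2.2 X hX).1
  refine ⟨hNT.2.1, Finset.disjoint_left.2 (fun w hw hw' => ?_)⟩
  rcases Finset.mem_union.1 (hNT.1 hw) with h1 | h1
  · exact Finset.disjoint_left.1 hRU h1 (Finset.mem_sdiff.1 hw').1
  · exact (Finset.mem_sdiff.1 hw').2 h1

end K5
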