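import Pool.Agent.Lib.K5.RelC

/-!
# K5.ZFinB: finiteness of the branch series

1. `nB_le`: for `1 ≤ z`: `nB z n ≤ nT z (n + 1)`. The map `G ↦ G ⊔ clq {0, 1, 2}` from `{G // Branch {0, 1, 2} (Ico 3 (n + 3)) G}` to `{G // Rtd {0, 1} (Ico 2 (n + 1 + 2)) G}` is injective (`noX`: `G` is `G ⊔ clq X` without the
edges inside `X`); `Rtd {0, 1}`: `{0, 1} ∪ Ico 2 (n + 3) = {0, 1, 2} ∪ Ico 3 (n + 3)`, `clq {0, 1} ≤ clq {0, 1, 2}`, root: `{0, 1}.card = 2`. Weights: the edges of `G` are edges of `G ⊔ clq X` outside `clq {0, 1}`, so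
`G.edgeSet.ncard ≤ ecard {0, 1} (G ⊔ clq X)` (finite: `On`), and `z ≥ 1` (`pow_le_pow_right₀` / `pow_le_pow_right'`). `ENNReal.tsum_comp_le_tsum_of_injective`.
2. `br_ne_top`: put `c n = nT z n`. `Br x z = ∑' n, x^n/n! * nB z n ≤ ∑' n, x^n/n! * c (n + 1)`. With `0 < x < x1`: `x^n/n! = (n + 1) (x/x1)^n / x1 * (x1^(n+1)/(n+1)!)` and `(n + 1) (x/x1)^n` is bounded by a constant `C` (it tends
to `0`: `tendsto_self_mul_const_pow_of_lt_one`, or `(n+1) r^n ≤ 1/(1-r)^2`, or Bernoulli), so `Br x z ≤ (C/x1) * T0 x1 z < ⊤`. For `x ≤ 0` (`ENNReal.ofReal x = 0`) only the term `n = 0` remains, which is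
`nB z 0 ≤ nT z 1`, finite by `T0 x1 z ≠ ⊤`.
-/

namespace K5

open Finset
open scoped ENNReal

namespace ZFinBAux

theorem edgeSet_finite {G : Gr} {S : Finset ℕ} (h : On G S) : G.edgeSet.Finite := by
  refine (S.sym2.finite_toSet).subset ?_
  intro e
  induction e using Sym2.ind with
  | _ a b =>
    intro he
    rw [SimpleGraph.mem_edgeSet] at he
    rw [Finset.mem_coe, Finset.mk_mem_sym2_iff]
    exact ⟨h a b he, h b a he.symm⟩

theorem set_eq (n : ℕ) : ({0, 1, 2} : Finset ℕ) ∪ Ico 3 (n + 3) = {0, 1} ∪ Ico 2 (n + 1 + 2) := by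
  ext a
  simp only [Finset.mem_union, Finset.mem_insert, Finset.mem_singleton, Finset.mem_Ico]
  omega

theorem clq_le : clq {0, 1} ≤ clq {0, 1, 2} := by
  intro a b h
  obtain ⟨h1, h2, h3⟩ := h
  simp only [Finset.mem_insert, Finset.mem_singleton] at h2 h3
  refine ⟨h1, ?_, ?_⟩
  · simp only [Finset.mem_insert, Finset.mem_singleton]
    omega
  · simp only [Finset.mem_insert, Finset.mem_singleton]
    omega

theorem rtd_of_branch {n : ℕ} {G : Gr} (h : Branch {0, 1, 2} (Ico 3 (n + 3)) G) :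
    Rtd {0, 1} (Ico 2 (n + 1 + 2)) (G ⊔ clq {0, 1, 2}) := by
  refine ⟨?_, ?_, ?_, ?_, h.rtd.free, Or.inl rfl⟩
  · rw [Finset.disjoint_left]
    intro a ha hb
    simp only [Finset.mem_insert, Finset.mem_singleton, Finset.mem_Ico] at ha hb
    omega
  · rw [← set_eq]
    exact h.rtd.on
  · exact clq_le.trans le_sup_right
  · rw [← set_eq]
    exact h.rtd.three

theorem inj {X V : Finset ℕ} {G G' : Gr} (h : Branch X V G) (h' : Branch X V G')
    (e : G ⊔ clq X = G' ⊔ clq X) : G = G' := by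
  have key : ∀ {G G' : Gr}, Branch X V G → G ⊔ clq X = G' ⊔ clq X → ∀ a b, G.Adj a b →
      G'.Adj a b := by
    intro G G' h e a b hab
    have h1 : (G ⊔ clq X).Adj a b := Or.inl hab
    rw [e] at h1
    rcases h1 with h1 | h1
    · exact h1
    · exact absurd hab (h.noX a h1.2.1 b h1.2.2)
  ext a b
  exact ⟨key h e a b, key h' e.symm a b⟩

end ZFinBAux

open ZFinBAux

theorem nB_le {z : ℝ≥0∞} (hz : 1 ≤ z) (n : ℕ) : nB z n ≤ nT z (n + 1) := by
  unfold nB nT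
  have hinj : Function.Injective (fun G : {G : Gr // Branch {0, 1, 2} (Ico 3 (n + 3)) G} =>
      (⟨G.1 ⊔ clq {0, 1, 2}, rtd_of_branch G.2⟩ :
        {G : Gr // Rtd {0, 1} (Ico 2 (n + 1 + 2)) G})) := by
    intro G G' h
    exact Subtype.ext (inj G.2 G'.2 (congrArg Subtype.val h))
  refine le_trans (ENNReal.tsum_le_tsum fun G => ?_) (ENNReal.tsum_comp_le_tsum_of_injective hinj _)
  refine pow_le_pow_right₀ hz ?_
  unfold ecard
  refine Set.ncard_le_ncard ?_ ((edgeSet_finite G.2.rtd.on).subset Set.sdiff_subset)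
  intro e
  induction e using Sym2.ind with
  | _ a b =>
    intro he
    rw [SimpleGraph.mem_edgeSet] at he
    refine ⟨?_, ?_⟩
    · rw [SimpleGraph.mem_edgeSet]
      exact Or.inl he
    · intro h1
      rw [SimpleGraph.mem_edgeSet] at h1
      have h2 := clq_le h1
      exact G.2.noX a h2.2.1 b h2.2.2 he

theorem br_ne_top {x x1 : ℝ} {z : ℝ≥0∞} (hx : x < x1) (hx1 : 0 < x1) (hz : 1 ≤ z)
    (h : T0 (.ofReal x1) z ≠ ⊤) : Br (.ofReal x) z ≠ ⊤ := by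
  have h0 : ENNReal.ofReal x1 ≠ 0 := by
    rw [Ne, ENNReal.ofReal_eq_zero]
    exact not_le.mpr hx1
  have ht : ENNReal.ofReal x1 ≠ ⊤ := ENNReal.ofReal_ne_top
  have hlt : ENNReal.ofReal x < ENNReal.ofReal x1 := (ENNReal.ofReal_lt_ofReal_iff hx1).mpr hx
  obtain ⟨X, hX⟩ : ∃ X, X = ENNReal.ofReal x := ⟨_, rfl⟩
  obtain ⟨Y, hY⟩ : ∃ Y, Y = ENNReal.ofReal x1 := ⟨_, rfl⟩
  rw [← hX]
  rw [← hX, ← hY] at hlt
  rw [← hY] at h h0 ht
  obtain ⟨q, hq⟩ : ∃ q, q = X / Y := ⟨_, rfl⟩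
  have hq1 : q < 1 := by
    rw [hq, ENNReal.div_lt_iff (Or.inl h0) (Or.inl ht), one_mul]
    exact hlt
  have hqX : X = q * Y := by rw [hq, ENNReal.div_mul_cancel h0 ht]
  have hC : ∀ n : ℕ, ((n : ℝ≥0∞) + 1) * q ^ n ≤ (1 - q)⁻¹ := by
    intro n
    have h1 : ((n : ℝ≥0∞) + 1) * q ^ n = ∑ _k ∈ range (n + 1), q ^ n := by
      rw [Finset.sum_const, Finset.card_range, nsmul_eq_mul]
      push_cast
      rfl
    rw [h1, ← ENNReal.tsum_geometric]
    refine le_trans (Finset.sum_le_sum fun k hk => ?_) (ENNReal.sum_le_tsum (range (n + 1)))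
    have hk' : k ≤ n := by
      have := Finset.mem_range.mp hk
      omega
    exact pow_le_pow_right_of_le_one' hq1.le hk'
  have hterm : ∀ n : ℕ, X ^ n / (n.factorial : ℝ≥0∞) ≤
      (1 - q)⁻¹ * Y⁻¹ * (Y ^ (n + 1) / ((n + 1).factorial : ℝ≥0∞)) := by
    intro n
    have hn0 : (n : ℝ≥0∞) + 1 ≠ 0 := by
      simp
    have hnt : (n : ℝ≥0∞) + 1 ≠ ⊤ := by
      exact_mod_cast ENNReal.natCast_ne_top (n + 1)
    have h1 : X ^ n / (n.factorial : ℝ≥0∞) =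
        (((n : ℝ≥0∞) + 1) * q ^ n) * Y⁻¹ * (Y ^ (n + 1) / ((n + 1).factorial : ℝ≥0∞)) := by
      rw [Nat.factorial_succ, Nat.cast_mul, Nat.cast_add, Nat.cast_one, div_eq_mul_inv,
        div_eq_mul_inv, ENNReal.mul_inv (Or.inl hn0) (Or.inl hnt), hqX, mul_pow, pow_succ]
      calc q ^ n * Y ^ n * (n.factorial : ℝ≥0∞)⁻¹
          = (((n : ℝ≥0∞) + 1) * ((n : ℝ≥0∞) + 1)⁻¹) * (Y * Y⁻¹) *
              (q ^ n * Y ^ n * (n.factorial : ℝ≥0∞)⁻¹) := by
            rw [ENNReal.mul_inv_cancel hn0 hnt, ENNReal.mul_inv_cancel h0 ht, one_mul, one_mul]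
        _ = _ := by ring
    rw [h1]
    gcongr
    exact hC n
  have hle : Br X z ≤ (1 - q)⁻¹ * Y⁻¹ * T0 Y z := by
    unfold Br T0
    rw [← ENNReal.tsum_mul_left]
    refine le_trans (ENNReal.tsum_le_tsum fun n => ?_)
      (ENNReal.tsum_comp_le_tsum_of_injective (add_left_injective 1) _)
    have h1 : ∑' G : {G : Gr // Branch {0, 1, 2} (Ico 3 (n + 3)) G}, z ^ G.1.edgeSet.ncard ≤
        ∑' G : {G : Gr // Rtd {0, 1} (Ico 2 (n + 1 + 2)) G}, z ^ ecard {0, 1} G.1 := nB_le hz n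
    refine le_trans (mul_le_mul' (hterm n) h1) ?_
    rw [mul_assoc]
  refine ne_top_of_le_ne_top ?_ hle
  refine ENNReal.mul_ne_top (ENNReal.mul_ne_top ?_ (ENNReal.inv_ne_top.mpr h0)) h
  rw [ENNReal.inv_ne_top]
  exact (tsub_pos_of_lt hq1).ne'

end K5
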