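import Pool.Agent.Lib.K5.RelC
import Pool.Agent.Lib.K5.CLMul

/-!
# K5.ZK0: the cores with a marked triangle at the root edge

1. `mwt_root`: let `X = {0, 1, v}` with `v ≠ 0, 1`, `X ∈ M`, `clq X ≤ H`, `H` with finitely many edges. Then `mwt z w t {0, 1} H M = t * w ^ 2 * mwt z w t X H (M.erase X)`. Indeed `M.card = (M.erase X).card + 1`; an edge `e` of
`H` outside `clq X` is covered by `M` iff it is covered by `M.erase X` (`X` covers only edges of `clq X`); so the uncovered edges outside `clq {0, 1}` for `M` are the uncovered edges outside `clq X` for `M.erase X` (the edges of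
`clq X` are covered by `X ∈ M`), and the covered edges outside `clq {0, 1}` for `M` are the covered edges outside `clq X` for `M.erase X` together with the two edges `s(0, v)`, `s(1, v)` (of `clq X`, not of `clq {0, 1}`, edges of
`H` by `clq X ≤ H`, covered by `X`).
2. `core_tri`: if `PCore {0, 1} U H`, `v ∈ U` and `NT H ({0, 1} ∪ U) {0, 1, v}` then `PCore {0, 1, v} (U.erase v) H` (`{0, 1, v} ∪ U.erase v = {0, 1} ∪ U`, `({0, 1} ∪ U) \ {0, 1, v} = U.erase v`).
3. `msum_le`: `msum z w t {0, 1} U ≤ msum0 z w t {0, 1} U + ∑ v ∈ U, t * w ^ 2 * msum z w t {0, 1, v} (U.erase v)` for `U` disjoint from `{0, 1}`: a pair `(H, M)` of the left side is a pair of `msum0` or some `X ∈ M`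
contains `{0, 1}`; then `X = {0, 1, v}`, `v ∈ U` (`X.card = 3`, `X ⊆ {0, 1} ∪ U`), and `(H, M.erase X)` is a pair of `msum z w t {0, 1, v} (U.erase v)` by 2 (`NT` is about the same set `{0, 1} ∪ U`; the
marks of `M.erase X` are different from `X`), with weight related by 1; the map `(H, M) ↦ (v, H, M.erase X)` (any choice of `v`) is injective (`M = insert X (M.erase X)`). Use
`ENNReal.tsum_comp_le_tsum_of_injective` into the sum type, or split the sum with indicator functions.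
4. `Kt_le`: `U = Ico 2 (n + 2)`: by `msum_count` every term of the sum over `v` is `t * w^2 * a (n - 1)` with `a k = msum z w t {0, 1, 2} (Ico 3 (k + 3))` (for `n ≥ 1`; for `n = 0` the sum is empty), so
`Kt ≤ Kt0 + t * w ^ 2 * egf (fun n => n * a (n - 1)) x = Kt0 + t * w ^ 2 * (x * At)` by `egf_root`.
-/

namespace K5

open Finset
open scoped ENNReal

namespace ZK0Aux

theorem mem_clq (X : Finset ℕ) (a b : ℕ) : s(a, b) ∈ (clq X).edgeSet ↔ a ≠ b ∧ a ∈ X ∧ b ∈ X :=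
  Iff.rfl

/-- The edges of the triangle `{0, 1, v}` outside `{0, 1}`. -/
theorem new_edges {v : ℕ} (h0 : v ≠ 0) (h1 : v ≠ 1) :
    {e | e ∈ (clq {0, 1, v}).edgeSet ∧ e ∉ (clq {0, 1}).edgeSet} =
      ({s(0, v), s(1, v)} : Set (Sym2 ℕ)) := by
  ext e
  induction e using Sym2.ind with
  | h a b =>
    simp only [Set.mem_ofPred_eq, mem_clq, Finset.mem_insert, Finset.mem_singleton,
      Set.mem_insert_iff, Set.mem_singleton_iff, Sym2.eq_iff]
    constructor
    · rintro ⟨⟨hab, ha, hb⟩, hn⟩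
      have hn' : ¬ ((a = 0 ∨ a = 1) ∧ (b = 0 ∨ b = 1)) := fun h => hn ⟨hab, h.1, h.2⟩
      rcases ha with rfl | rfl | rfl <;> rcases hb with rfl | rfl | rfl <;> simp_all
    · rintro ((⟨rfl, rfl⟩ | ⟨rfl, rfl⟩) | (⟨rfl, rfl⟩ | ⟨rfl, rfl⟩)) <;> simp_all <;> omega

theorem ncard_new (v : ℕ) :
    ({s(0, v), s(1, v)} : Set (Sym2 ℕ)).ncard = 2 := by
  apply Set.ncard_pair
  intro h
  rw [Sym2.eq_iff] at h
  omega

theorem clq_mono {X Y : Finset ℕ} (h : X ⊆ Y) {e : Sym2 ℕ} (he : e ∈ (clq X).edgeSet) :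
    e ∈ (clq Y).edgeSet := by
  induction e using Sym2.ind with
  | h a b =>
    rw [mem_clq] at he ⊢
    exact ⟨he.1, h he.2.1, h he.2.2⟩

theorem sub3 (v : ℕ) : ({0, 1} : Finset ℕ) ⊆ {0, 1, v} := by
  intro a ha
  simp only [Finset.mem_insert, Finset.mem_singleton] at ha ⊢
  tauto

theorem cov_erase {M : Finset (Finset ℕ)} {X : Finset ℕ} {e : Sym2 ℕ}
    (he : e ∉ (clq X).edgeSet) : Cov M e ↔ Cov (M.erase X) e := by
  constructor
  · rintro ⟨Y, hY, heY⟩
    refine ⟨Y, Finset.mem_erase.2 ⟨?_, hY⟩, heY⟩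
    rintro rfl
    exact he heY
  · rintro ⟨Y, hY, heY⟩
    exact ⟨Y, Finset.mem_of_mem_erase hY, heY⟩

end ZK0Aux

open ZK0Aux

theorem mwt_root (z w t : ℝ≥0∞) {H : Gr} {M : Finset (Finset ℕ)} {v : ℕ} (h0 : v ≠ 0)
    (h1 : v ≠ 1) (hM : {0, 1, v} ∈ M) (hH : clq {0, 1, v} ≤ H) (hfin : H.edgeSet.Finite) :
    mwt z w t {0, 1} H M = t * w ^ 2 * mwt z w t {0, 1, v} H (M.erase {0, 1, v}) := by
  have e1 : {e ∈ H.edgeSet | Cov M e ∧ e ∉ (clq {0, 1}).edgeSet} =
      {e ∈ H.edgeSet | Cov (M.erase {0, 1, v}) e ∧ e ∉ (clq {0, 1, v}).edgeSet} ∪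
        {s(0, v), s(1, v)} := by
    rw [← new_edges h0 h1]
    ext e
    simp only [Set.mem_ofPred_eq, Set.mem_union]
    constructor
    · rintro ⟨he, hc, hn⟩
      by_cases h : e ∈ (clq {0, 1, v}).edgeSet
      · exact Or.inr ⟨h, hn⟩
      · exact Or.inl ⟨he, (cov_erase h).1 hc, h⟩
    · rintro (⟨he, hc, hn⟩ | ⟨he, hn⟩)
      · exact ⟨he, (cov_erase hn).2 hc, fun h => hn (clq_mono (sub3 v) h)⟩
      · exact ⟨SimpleGraph.edgeSet_mono hH he, ⟨_, hM, he⟩, hn⟩
  have e2 : {e ∈ H.edgeSet | ¬ Cov M e ∧ e ∉ (clq {0, 1}).edgeSet} =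
      {e ∈ H.edgeSet | ¬ Cov (M.erase {0, 1, v}) e ∧ e ∉ (clq {0, 1, v}).edgeSet} := by
    ext e
    simp only [Set.mem_ofPred_eq]
    constructor
    · rintro ⟨he, hc, hn⟩
      have h : e ∉ (clq {0, 1, v}).edgeSet := fun h => hc ⟨_, hM, h⟩
      exact ⟨he, fun h2 => hc ((cov_erase h).2 h2), h⟩
    · rintro ⟨he, hc, hn⟩
      exact ⟨he, fun h2 => hc ((cov_erase hn).1 h2), fun h => hn (clq_mono (sub3 v) h)⟩
  have hd : Disjoint {e ∈ H.edgeSet | Cov (M.erase {0, 1, v}) e ∧ e ∉ (clq {0, 1, v}).edgeSet}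
      ({s(0, v), s(1, v)} : Set (Sym2 ℕ)) := by
    rw [← new_edges h0 h1, Set.disjoint_left]
    rintro e ⟨_, _, h⟩ ⟨h2, _⟩
    exact h h2
  have e3 : ({e ∈ H.edgeSet | Cov M e ∧ e ∉ (clq {0, 1}).edgeSet} : Set (Sym2 ℕ)).ncard =
      ({e ∈ H.edgeSet | Cov (M.erase {0, 1, v}) e ∧
        e ∉ (clq {0, 1, v}).edgeSet} : Set (Sym2 ℕ)).ncard + 2 := by
    rw [e1, Set.ncard_union_eq hd (hfin.subset fun e he => he.1) (Set.toFinite _), ncard_new v]
  unfold mwt
  rw [e3, e2, ← Finset.card_erase_add_one hM]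
  ring

theorem core_tri {U : Finset ℕ} {H : Gr} {v : ℕ} (h : PCore {0, 1} U H) (hv : v ∈ U)
    (ht : NT H ({0, 1} ∪ U) {0, 1, v}) : PCore {0, 1, v} (U.erase v) H := by
  have hd := h.rtd.disj
  rw [Finset.disjoint_left] at hd
  have h0 : (0 : ℕ) ∉ U := hd (by simp)
  have h1 : (1 : ℕ) ∉ U := hd (by simp)
  have e1 : ({0, 1, v} : Finset ℕ) ∪ U.erase v = {0, 1} ∪ U := by
    ext a
    simp only [Finset.mem_union, Finset.mem_insert, Finset.mem_singleton, Finset.mem_erase]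
    constructor
    · rintro ((ha | ha | ha) | ⟨_, ha⟩)
      · exact Or.inl (Or.inl ha)
      · exact Or.inl (Or.inr ha)
      · exact Or.inr (ha ▸ hv)
      · exact Or.inr ha
    · rintro ((ha | ha) | ha)
      · exact Or.inl (Or.inl ha)
      · exact Or.inl (Or.inr (Or.inl ha))
      · by_cases hav : a = v
        · exact Or.inl (Or.inr (Or.inr hav))
        · exact Or.inr ⟨hav, ha⟩
  have e2 : ({0, 1} ∪ U) \ ({0, 1, v} : Finset ℕ) = U.erase v := by
    ext a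
    simp only [Finset.mem_sdiff, Finset.mem_union, Finset.mem_insert, Finset.mem_singleton,
      Finset.mem_erase]
    constructor
    · rintro ⟨(ha | ha) | ha, hn⟩
      · exact absurd (Or.inl ha) hn
      · exact absurd (Or.inr (Or.inl ha)) hn
      · exact ⟨fun h => hn (Or.inr (Or.inr h)), ha⟩
    · rintro ⟨hav, ha⟩
      refine ⟨Or.inr ha, ?_⟩
      rintro (rfl | rfl | h)
      · exact h0 ha
      · exact h1 ha
      · exact hav h
  refine ⟨⟨?_, ?_, ht.2.2.1, ?_, h.rtd.free, Or.inr ⟨ht.2.1, ?_⟩⟩, ?_⟩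
  · rw [Finset.disjoint_left]
    intro a ha hb
    simp only [Finset.mem_insert, Finset.mem_singleton] at ha
    rw [Finset.mem_erase] at hb
    rcases ha with rfl | rfl | ha
    · exact h0 hb.2
    · exact h1 hb.2
    · exact hb.1 ha
  · rw [e1]
    exact h.rtd.on
  · rw [e1]
    exact h.rtd.three
  · rw [← e2]
    exact ht.2.2.2
  · rw [e1]
    exact h.mac

namespace ZK0Aux

theorem on_finite {H : Gr} {W : Finset ℕ} (h : On H W) : H.edgeSet.Finite := by
  refine Set.Finite.subset (W.sym2.finite_toSet) ?_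
  intro e he
  induction e using Sym2.ind with
  | h a b =>
    have hab : H.Adj a b := he
    rw [Finset.mem_coe, Finset.mk_mem_sym2_iff]
    exact ⟨h a b hab, h b a hab.symm⟩

/-- The pairs of `msum`. -/
def SP (R U : Finset ℕ) : Set (Gr × Finset (Finset ℕ)) :=
  {p | PCore R U p.1 ∧ ∀ X ∈ p.2, NT p.1 (R ∪ U) X ∧ X ≠ R}

/-- The pairs of `msum0`. -/
def S0 (R U : Finset ℕ) : Set (Gr × Finset (Finset ℕ)) :=
  {p | PCore R U p.1 ∧ ∀ X ∈ p.2, NT p.1 (R ∪ U) X ∧ ¬ R ⊆ X}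

/-- The pairs with the mark `{0, 1, v}`. -/
def SV (U : Finset ℕ) (v : ℕ) : Set (Gr × Finset (Finset ℕ)) :=
  {p | p ∈ SP {0, 1} U ∧ {0, 1, v} ∈ p.2}

theorem tri_of {X U : Finset ℕ} (h3 : X.card = 3) (hs : {0, 1} ⊆ X) (hX : X ⊆ {0, 1} ∪ U) :
    ∃ v ∈ U, X = {0, 1, v} := by
  have hc : (X \ {0, 1}).card = 1 := by
    rw [Finset.card_sdiff_of_subset hs, h3]
    rfl
  obtain ⟨v, hv⟩ := Finset.card_eq_one.1 hc
  have hv1 : v ∈ X \ {0, 1} := by
    rw [hv]
    exact Finset.mem_singleton_self v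
  rw [Finset.mem_sdiff] at hv1
  refine ⟨v, ?_, ?_⟩
  · have := hX hv1.1
    rw [Finset.mem_union] at this
    exact this.resolve_left hv1.2
  · rw [← Finset.sdiff_union_of_subset hs, hv]
    ext a
    simp only [Finset.mem_union, Finset.mem_insert, Finset.mem_singleton]
    tauto

theorem cover (U : Finset ℕ) : SP {0, 1} U ⊆ S0 {0, 1} U ∪ ⋃ v ∈ U, SV U v := by
  intro p hp
  by_cases h : ∀ X ∈ p.2, ¬ {0, 1} ⊆ X
  · exact Or.inl ⟨hp.1, fun X hX => ⟨(hp.2 X hX).1, h X hX⟩⟩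
  · push Not at h
    obtain ⟨X, hX, hs⟩ := h
    obtain ⟨v, hv, rfl⟩ := tri_of (hp.2 X hX).1.2.1 hs (hp.2 X hX).1.1
    right
    rw [Set.mem_iUnion₂]
    exact ⟨v, hv, hp, hX⟩

theorem sv_le (z w t : ℝ≥0∞) {U : Finset ℕ} (hU : Disjoint {0, 1} U) {v : ℕ} (hv : v ∈ U) :
    ∑' p : SV U v, mwt z w t {0, 1} p.1.1 p.1.2 ≤
      t * w ^ 2 * msum z w t {0, 1, v} (U.erase v) := by
  rw [Finset.disjoint_left] at hU
  have h0 : v ≠ 0 := by
    rintro rfl
    exact hU (by simp) hv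
  have h1 : v ≠ 1 := by
    rintro rfl
    exact hU (by simp) hv
  have e1 : ({0, 1, v} : Finset ℕ) ∪ U.erase v = {0, 1} ∪ U := by
    ext a
    simp only [Finset.mem_union, Finset.mem_insert, Finset.mem_singleton, Finset.mem_erase]
    constructor
    · rintro ((ha | ha | ha) | ⟨_, ha⟩)
      · exact Or.inl (Or.inl ha)
      · exact Or.inl (Or.inr ha)
      · exact Or.inr (ha ▸ hv)
      · exact Or.inr ha
    · rintro ((ha | ha) | ha)
      · exact Or.inl (Or.inl ha)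
      · exact Or.inl (Or.inr (Or.inl ha))
      · by_cases hav : a = v
        · exact Or.inl (Or.inr (Or.inr hav))
        · exact Or.inr ⟨hav, ha⟩
  have hmem : ∀ p : SV U v, (p.1.1, p.1.2.erase {0, 1, v}) ∈
      {q : Gr × Finset (Finset ℕ) | PCore {0, 1, v} (U.erase v) q.1 ∧
        ∀ X ∈ q.2, NT q.1 ({0, 1, v} ∪ U.erase v) X ∧ X ≠ {0, 1, v}} := by
    rintro ⟨p, hp, hX⟩
    refine ⟨core_tri hp.1 hv (hp.2 _ hX).1, ?_⟩
    intro X hXe
    rw [Finset.mem_erase] at hXe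
    refine ⟨?_, hXe.1⟩
    rw [e1]
    exact (hp.2 X hXe.2).1
  let φ : SV U v → {q : Gr × Finset (Finset ℕ) // PCore {0, 1, v} (U.erase v) q.1 ∧
        ∀ X ∈ q.2, NT q.1 ({0, 1, v} ∪ U.erase v) X ∧ X ≠ {0, 1, v}} :=
    fun p => ⟨(p.1.1, p.1.2.erase {0, 1, v}), hmem p⟩
  have hinj : Function.Injective φ := by
    rintro ⟨⟨G, M⟩, hp, hX⟩ ⟨⟨G', M'⟩, hp', hX'⟩ h
    have h2 := congrArg Subtype.val h
    simp only [φ, Prod.mk.injEq] at h2
    have h3 : M = M' := by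
      have hX2 : {0, 1, v} ∈ M := hX
      have hX3 : {0, 1, v} ∈ M' := hX'
      rw [← Finset.insert_erase hX2, ← Finset.insert_erase hX3, h2.2]
    have h4 : G = G' := h2.1
    subst h3
    subst h4
    rfl
  have e2 : ∀ p : SV U v, mwt z w t {0, 1} p.1.1 p.1.2 =
      t * w ^ 2 * mwt z w t {0, 1, v} (φ p).1.1 (φ p).1.2 := by
    rintro ⟨p, hp, hX⟩
    exact mwt_root z w t h0 h1 hX (hp.2 _ hX).1.2.2.1 (on_finite hp.1.rtd.on)
  rw [tsum_congr e2, ENNReal.tsum_mul_left]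
  refine mul_le_mul_right ?_ _
  exact ENNReal.tsum_comp_le_tsum_of_injective hinj
    (fun q => mwt z w t {0, 1, v} q.1.1 q.1.2)

end ZK0Aux

theorem msum_le (z w t : ℝ≥0∞) {U : Finset ℕ} (hU : Disjoint {0, 1} U) :
    msum z w t {0, 1} U ≤ msum0 z w t {0, 1} U +
      ∑ v ∈ U, t * w ^ 2 * msum z w t {0, 1, v} (U.erase v) := by
  have h1 : msum z w t {0, 1} U = ∑' p : SP {0, 1} U, mwt z w t {0, 1} p.1.1 p.1.2 := rfl
  have h2 : msum0 z w t {0, 1} U = ∑' p : S0 {0, 1} U, mwt z w t {0, 1} p.1.1 p.1.2 := rfl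
  rw [h1, h2]
  calc ∑' p : SP {0, 1} U, mwt z w t {0, 1} p.1.1 p.1.2
      ≤ ∑' p : (S0 {0, 1} U ∪ ⋃ v ∈ U, SV U v : Set (Gr × Finset (Finset ℕ))),
          mwt z w t {0, 1} p.1.1 p.1.2 :=
        ENNReal.tsum_mono_subtype (fun p : Gr × Finset (Finset ℕ) => mwt z w t {0, 1} p.1 p.2)
          (cover U)
    _ ≤ ∑' p : S0 {0, 1} U, mwt z w t {0, 1} p.1.1 p.1.2 +
          ∑' p : (⋃ v ∈ U, SV U v : Set (Gr × Finset (Finset ℕ))),
            mwt z w t {0, 1} p.1.1 p.1.2 :=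
        ENNReal.tsum_union_le (fun p : Gr × Finset (Finset ℕ) => mwt z w t {0, 1} p.1 p.2) _ _
    _ ≤ ∑' p : S0 {0, 1} U, mwt z w t {0, 1} p.1.1 p.1.2 +
          ∑ v ∈ U, ∑' p : SV U v, mwt z w t {0, 1} p.1.1 p.1.2 :=
        add_le_add le_rfl (ENNReal.tsum_biUnion_le
          (fun p : Gr × Finset (Finset ℕ) => mwt z w t {0, 1} p.1 p.2) U (SV U))
    _ ≤ _ := add_le_add le_rfl (Finset.sum_le_sum fun v hv => sv_le z w t hU hv)

/-- The statement `Kt_le` of `Blocks.lean`. -/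
theorem Kt_le' (x z w t : ℝ≥0∞) : Kt x z w t ≤ Kt0 x z w t + x * w ^ 2 * t * At x z w t := by
  obtain ⟨a, ha⟩ : ∃ a : ℕ → ℝ≥0∞, ∀ k, a k = msum z w t {0, 1, 2} (Ico 3 (k + 3)) :=
    ⟨_, fun _ => rfl⟩
  have hA : At x z w t = egf a x := by
    unfold At egf
    exact tsum_congr fun n => by rw [ha]
  have h1 : ∀ n : ℕ, msum z w t {0, 1} (Ico 2 (n + 2)) ≤ msum0 z w t {0, 1} (Ico 2 (n + 2)) +
      t * w ^ 2 * ((n : ℝ≥0∞) * a (n - 1)) := by
    intro n
    rw [ha]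
    have hd : Disjoint ({0, 1} : Finset ℕ) (Ico 2 (n + 2)) := by
      rw [Finset.disjoint_left]
      intro a ha hb
      simp only [Finset.mem_insert, Finset.mem_singleton] at ha
      rw [Finset.mem_Ico] at hb
      omega
    refine (msum_le z w t hd).trans (add_le_add le_rfl (le_of_eq ?_))
    have h2 : ∀ v ∈ Ico 2 (n + 2), t * w ^ 2 * msum z w t {0, 1, v} ((Ico 2 (n + 2)).erase v) =
        t * w ^ 2 * msum z w t {0, 1, 2} (Ico 3 (n - 1 + 3)) := by
      intro v hv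
      congr 1
      rw [Finset.mem_Ico] at hv
      refine (msum_count z w t (R := {0, 1, v}) (R' := {0, 1, 2}) ?_ ?_ ?_ ?_).1
      · rw [Finset.card_insert_of_notMem, Finset.card_insert_of_notMem, Finset.card_singleton]
        · rfl
        · rw [Finset.mem_singleton]
          omega
        · simp only [Finset.mem_insert, Finset.mem_singleton]
          omega
      · rw [Finset.card_erase_of_mem (Finset.mem_Ico.2 hv), Nat.card_Ico, Nat.card_Ico]
        omega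
      · rw [Finset.disjoint_left]
        intro a ha hb
        simp only [Finset.mem_insert, Finset.mem_singleton] at ha
        rw [Finset.mem_erase, Finset.mem_Ico] at hb
        omega
      · rw [Finset.disjoint_left]
        intro a ha hb
        simp only [Finset.mem_insert, Finset.mem_singleton] at ha
        rw [Finset.mem_Ico] at hb
        omega
    rw [Finset.sum_congr rfl h2, Finset.sum_const, Nat.card_Ico, nsmul_eq_mul]
    have e : n + 2 - 2 = n := by omega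
    rw [e]
    ring
  have h3 : Kt x z w t ≤ Kt0 x z w t +
      t * w ^ 2 * egf (fun n => (n : ℝ≥0∞) * a (n - 1)) x := by
    unfold Kt Kt0 egf
    rw [← ENNReal.tsum_mul_left, ← ENNReal.tsum_add]
    refine ENNReal.tsum_le_tsum fun n => ?_
    refine (mul_le_mul_right (h1 n) _).trans (le_of_eq ?_)
    ring
  rw [egf_root, ← hA] at h3
  refine h3.trans (le_of_eq ?_)
  ring

end K5
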