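import Pool.Agent.Lib.K5.ZDefs

/-!
# K5.ZK33: the labelled copies of `K_{3,3}` that contain the edge `01`

Every copy has 9 edges, so `ecard {0, 1} G = 8`; there are 6 copies on 6 given vertices that contain a given edge, and `6 / 4! = 1 / 4`.
1. `ecard = 8`: if `A, B` are as in `IsK33`, the edge set of `G` is the image of `A ×ˢ B` under the map `(a, b) ↦ s(a, b)`, injective on `A ×ˢ B` because `A, B` are disjoint; so it has `9` elements; the only edge of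
`clq {0, 1}` is `s(0, 1)`, an edge of `G`.
2. `W = A ∪ B` has 6 elements, so for `U = Ico 2 (n + 2)` the sum is empty unless `n = 4`; then `W = range 6`.
3. The count: exchanging `A` and `B` we may assume `0 ∈ A`; then `1 ∈ B` (`G.Adj 0 1`), `A = {0} ∪ A'` with `A' ⊆ {2, 3, 4, 5}`, `A'.card = 2`, and `B = range 6 \ A`. So the set of the `G` is contained in the image of
`powersetCard 2 {2, 3, 4, 5}` (6 elements, `decide`), and `k33w z (Ico 2 6) ≤ 6 * z ^ 8`.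
4. `egf`: only `n = 4` (`tsum_eq_single`): `x^4 / 24 * (6 * z^8) = x^4 * z^8 / 4`.
-/

namespace K5

open Finset
open scoped ENNReal

namespace ZK33Aux

theorem clq_edge : (clq {0, 1}).edgeSet = {s(0, 1)} := by
  ext e
  induction e with
  | _ a b =>
    rw [SimpleGraph.mem_edgeSet, Set.mem_singleton_iff, Sym2.eq_iff]
    simp only [clq, Finset.mem_insert, Finset.mem_singleton]
    omega

theorem edge_eq {G : Gr} {A B : Finset ℕ}
    (hadj : ∀ a b, G.Adj a b ↔ (a ∈ A ∧ b ∈ B) ∨ (a ∈ B ∧ b ∈ A)) :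
    G.edgeSet = (((A ×ˢ B).image (fun p : ℕ × ℕ => s(p.1, p.2)) : Finset (Sym2 ℕ)) :
      Set (Sym2 ℕ)) := by
  ext e
  induction e with
  | _ a b =>
    rw [SimpleGraph.mem_edgeSet, hadj a b]
    simp only [Finset.coe_image, Set.mem_image, Finset.mem_coe, Finset.mem_product]
    constructor
    · rintro (⟨h1, h2⟩ | ⟨h1, h2⟩)
      · exact ⟨(a, b), ⟨h1, h2⟩, rfl⟩
      · exact ⟨(b, a), ⟨h2, h1⟩, Sym2.eq_swap⟩
    · rintro ⟨⟨c, d⟩, ⟨h1, h2⟩, h3⟩
      dsimp only at h1 h2 h3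
      rcases Sym2.eq_iff.1 h3 with ⟨rfl, rfl⟩ | ⟨rfl, rfl⟩
      · exact Or.inl ⟨h1, h2⟩
      · exact Or.inr ⟨h2, h1⟩

theorem card_edge {A B : Finset ℕ} (hd : Disjoint A B) (hA : A.card = 3) (hB : B.card = 3) :
    ((A ×ˢ B).image (fun p : ℕ × ℕ => s(p.1, p.2))).card = 9 := by
  rw [Finset.card_image_of_injOn, Finset.card_product, hA, hB]
  rintro ⟨a, b⟩ h1 ⟨c, d⟩ h2 h3
  rw [Finset.mem_coe, Finset.mem_product] at h1 h2
  dsimp only at h1 h2 h3
  rcases Sym2.eq_iff.1 h3 with ⟨rfl, rfl⟩ | ⟨rfl, rfl⟩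
  · rfl
  · exact absurd h2.2 (Finset.disjoint_left.1 hd h1.1)

/-- Normal form: the side `A` that contains `0`. -/
theorem norm {G : Gr} {W : Finset ℕ} (h : IsK33 G W) (h1 : clq {0, 1} ≤ G) :
    ∃ A : Finset ℕ, A ⊆ W ∧ 0 ∈ A ∧ 1 ∉ A ∧ A.card = 3 ∧ W.card = 6 ∧
      ∀ a b, G.Adj a b ↔ (a ∈ A ∧ b ∈ W \ A) ∨ (a ∈ W \ A ∧ b ∈ A) := by
  obtain ⟨A, B, hW, hd, hA, hB, hadj⟩ := h
  have h01 : G.Adj 0 1 := h1 (by
    show (0 : ℕ) ≠ 1 ∧ _
    simp)
  have hWc : W.card = 6 := by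
    rw [hW, Finset.card_union_of_disjoint hd, hA, hB]
  have hB' : W \ A = B := by
    rw [hW, Finset.union_sdiff_left]
    exact Finset.sdiff_eq_self_of_disjoint hd.symm
  have hA' : W \ B = A := by
    rw [hW, Finset.union_sdiff_right]
    exact Finset.sdiff_eq_self_of_disjoint hd
  rcases (hadj 0 1).1 h01 with ⟨h2, h3⟩ | ⟨h2, h3⟩
  · refine ⟨A, ?_, h2, fun h4 => Finset.disjoint_left.1 hd h4 h3, hA, hWc, ?_⟩
    · rw [hW]
      exact Finset.subset_union_left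
    · intro a b
      rw [hB']
      exact hadj a b
  · refine ⟨B, ?_, h2, fun h4 => Finset.disjoint_left.1 hd h3 h4, hB, hWc, ?_⟩
    · rw [hW]
      exact Finset.subset_union_right
    · intro a b
      rw [hA', hadj a b]
      exact or_comm

end ZK33Aux

open ZK33Aux in
theorem k33_ecard {G : Gr} {W : Finset ℕ} (h : IsK33 G W) (h1 : clq {0, 1} ≤ G) :
    ecard {0, 1} G = 8 := by
  obtain ⟨A, B, hW, hd, hA, hB, hadj⟩ := h
  have h01 : G.Adj 0 1 := h1 (by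
    show (0 : ℕ) ≠ 1 ∧ _
    simp)
  unfold ecard
  rw [clq_edge, edge_eq hadj]
  have hmem : s(0, 1) ∈ (A ×ˢ B).image (fun p : ℕ × ℕ => s(p.1, p.2)) := by
    have h2 : s(0, 1) ∈ G.edgeSet := h01
    rw [edge_eq hadj] at h2
    exact Finset.mem_coe.1 h2
  have h3 : ((((A ×ˢ B).image (fun p : ℕ × ℕ => s(p.1, p.2)) : Finset (Sym2 ℕ)) :
      Set (Sym2 ℕ)) \ {s(0, 1)}) =
      ((((A ×ˢ B).image (fun p : ℕ × ℕ => s(p.1, p.2))).erase s(0, 1) : Finset (Sym2 ℕ)) :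
        Set (Sym2 ℕ)) := by
    rw [Finset.coe_erase]
  rw [h3, Set.ncard_coe_finset, Finset.card_erase_of_mem hmem, card_edge hd hA hB]

open ZK33Aux in
theorem k33w_le (z : ℝ≥0∞) : k33w z (Ico 2 6) ≤ 6 * z ^ 8 := by
  classical
  set W : Finset ℕ := {0, 1} ∪ Ico 2 6 with hWdef
  have key : ∀ G : Gr, IsK33 G W → clq {0, 1} ≤ G → ∃ A : Finset ℕ, 0 ∈ A ∧
      (Ico 2 6).filter (fun x => G.Adj 1 x) = A.erase 0 ∧ A.card = 3 ∧
      ∀ a b, G.Adj a b ↔ (a ∈ A ∧ b ∈ W \ A) ∨ (a ∈ W \ A ∧ b ∈ A) := by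
    intro G hG h1
    obtain ⟨A, hAW, h0, h1A, hc, -, hadj⟩ := norm hG h1
    refine ⟨A, h0, ?_, hc, hadj⟩
    have h1W : (1 : ℕ) ∈ W \ A := Finset.mem_sdiff.2 ⟨by simp [hWdef], h1A⟩
    ext x
    rw [Finset.mem_filter, Finset.mem_erase, hadj 1 x]
    constructor
    · rintro ⟨h2, h3⟩
      have h4 := Finset.mem_Ico.1 h2
      rcases h3 with h3 | h3
      · exact absurd h3.1 h1A
      · exact ⟨by omega, h3.2⟩
    · rintro ⟨h2, h3⟩
      refine ⟨?_, Or.inr ⟨h1W, h3⟩⟩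
      have h4 := hAW h3
      rw [hWdef, Finset.mem_union, Finset.mem_insert, Finset.mem_singleton] at h4
      rcases h4 with (h4 | h4) | h4
      · exact absurd h4 h2
      · rw [h4] at h3
        exact absurd h3 h1A
      · exact h4
  let j : {G : Gr // IsK33 G W ∧ clq {0, 1} ≤ G} → {X // X ∈ powersetCard 2 (Ico 2 6)} :=
    fun G => ⟨(Ico 2 6).filter (fun x => G.1.Adj 1 x), by
      obtain ⟨A, h0, h2, h3, -⟩ := key G.1 G.2.1 G.2.2
      rw [Finset.mem_powersetCard]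
      refine ⟨Finset.filter_subset _ _, ?_⟩
      rw [h2, Finset.card_erase_of_mem h0, h3]⟩
  have hj : Function.Injective j := by
    intro G G' hGG
    have h5 : (Ico 2 6).filter (fun x => G.1.Adj 1 x) = (Ico 2 6).filter (fun x => G'.1.Adj 1 x) :=
      congrArg Subtype.val hGG
    obtain ⟨A, h0, h2, -, h4⟩ := key G.1 G.2.1 G.2.2
    obtain ⟨A', h0', h2', -, h4'⟩ := key G'.1 G'.2.1 G'.2.2
    have hAA : A = A' := by
      rw [← Finset.insert_erase h0, ← Finset.insert_erase h0', ← h2, ← h2', h5]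
    apply Subtype.ext
    ext a b
    rw [h4, h4', hAA]
  unfold k33w
  have h8 : ∀ G : {G : Gr // IsK33 G ({0, 1} ∪ Ico 2 6) ∧ clq {0, 1} ≤ G},
      z ^ ecard {0, 1} G.1 = z ^ 8 := by
    intro G
    rw [k33_ecard G.2.1 G.2.2]
  rw [tsum_congr h8]
  refine (ENNReal.tsum_comp_le_tsum_of_injective hj (fun _ => z ^ 8)).trans ?_
  rw [tsum_fintype, Finset.sum_const, Finset.card_univ, Fintype.card_coe,
    Finset.card_powersetCard, Nat.card_Ico, nsmul_eq_mul]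
  have h9 : Nat.choose (6 - 2) 2 = 6 := by decide
  rw [h9]
  norm_num

open ZK33Aux in
theorem egf_k33w (x z : ℝ≥0∞) :
    egf (fun n => k33w z (Ico 2 (n + 2))) x ≤ x ^ 4 * z ^ 8 / 4 := by
  unfold egf
  rw [tsum_eq_single 4]
  · have h1 : x ^ 4 / ((4 : ℕ).factorial : ℝ≥0∞) * k33w z (Ico 2 (4 + 2)) ≤
        x ^ 4 / ((4 : ℕ).factorial : ℝ≥0∞) * (6 * z ^ 8) := by
      gcongr
      exact k33w_le z
    refine h1.trans (le_of_eq ?_)
    have h2 : ((4 : ℕ).factorial : ℝ≥0∞) = 6 * 4 := by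
      norm_num [Nat.factorial]
    rw [h2, div_eq_mul_inv, div_eq_mul_inv, ENNReal.mul_inv (by norm_num) (by norm_num)]
    calc x ^ 4 * (6⁻¹ * 4⁻¹) * (6 * z ^ 8) = (6⁻¹ * 6) * (x ^ 4 * z ^ 8 * 4⁻¹) := by ring
      _ = x ^ 4 * z ^ 8 * 4⁻¹ := by
        rw [ENNReal.inv_mul_cancel (by norm_num) (by norm_num), one_mul]
  · intro n hn
    have h1 : k33w z (Ico 2 (n + 2)) = 0 := by
      unfold k33w
      have h2 : IsEmpty {G : Gr // IsK33 G ({0, 1} ∪ Ico 2 (n + 2)) ∧ clq {0, 1} ≤ G} := by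
        refine ⟨fun G => ?_⟩
        obtain ⟨A, -, -, -, -, h6, -⟩ := norm G.2.1 G.2.2
        have h7 : ({0, 1} ∪ Ico 2 (n + 2) : Finset ℕ) = range (n + 2) := by
          ext y
          simp only [Finset.mem_union, Finset.mem_insert, Finset.mem_singleton, Finset.mem_Ico,
            Finset.mem_range]
          omega
        rw [h7, Finset.card_range] at h6
        omega
      exact tsum_empty
    show x ^ n / (n.factorial : ℝ≥0∞) * k33w z (Ico 2 (n + 2)) = 0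
    rw [h1, mul_zero]

end K5
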