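import Pool.Agent.Lib.K5.ZDefs

/-!
# K5.ZLo: from codes to graphs

1. `csC3_le`: the map `c ↦ c.comp {0, 1, 2}` from `CD (QA {0, 1, 2}) {0, 1, 2} U` to `{G // Rtd {0, 1, 2} U G}` (`Snd3`) is injective (`Inj3`, `Subtype.ext`) and preserves the weights: `ENNReal.tsum_comp_le_tsum_of_injective`.
2. `csC2_le`: codes in `CD (QL {0, 1}) {0, 1} U` are the valid low codes. Choose for every graph `G` in the range of `comp` a code `κ G` of the class with `comp (κ G) = G`. Call a code `c` first if `c = κ (comp c)`, second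
otherwise. First codes inject into `{G // Rtd {0, 1} U G}` (`Snd2`): if `comp c = comp c'` then `c = κ (comp c) = c'`. If `c` is second, then `c` and `κ (comp c)` are different codes of the class with the same graph, so the graph is a
`K_{3,3}` by `Inj2`, and it contains the root edge (`comp` contains `clq R` by definition): second codes map to `{G // IsK33 G ({0, 1} ∪ U) ∧ clq {0, 1} ≤ G}`, and this map is injective: if `c ≠ c'` are second with the
same graph `G`, then `c, c', κ G` are three different codes of the class with graph `G`, against `Two33` (`s = {c, c', κ G}`, `open Classical` for `DecidableEq Code3`). So the sum over the class is (sum over first codes) +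
(sum over second codes) `≤ gw + k33w` (`ENNReal.tsum_comp_le_tsum_of_injective` twice; splitting: `tsum` of `f` = `tsum` over the subtype `p` plus over the subtype `¬ p`, or use an injective map into the sum type).
-/

namespace K5

open Finset
open scoped ENNReal

theorem csC3_le (h1 : Snd3) (h2 : Inj3) (z : ℝ≥0∞) (U : Finset ℕ) :
    csC (QA {0, 1, 2}) z {0, 1, 2} U ≤ gw z {0, 1, 2} U := by
  unfold csC gw
  let f : CD (QA {0, 1, 2}) {0, 1, 2} U → {G : Gr // Rtd {0, 1, 2} U G} :=
    fun c => ⟨c.1.comp {0, 1, 2}, h1 U c.1 c.2.1⟩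
  have hf : Function.Injective f := by
    intro c c' h
    exact Subtype.ext (h2 U c.1 c'.1 c.2.1 c'.2.1 (congrArg Subtype.val h))
  exact ENNReal.tsum_comp_le_tsum_of_injective hf (fun G => z ^ ecard {0, 1, 2} G.1)

namespace ZLoAux

/-- The map from the class of the low codes to graphs. -/
def cm (U : Finset ℕ) (c : CD (QL {0, 1}) {0, 1} U) : Gr := c.1.comp {0, 1}

open Classical in
/-- The chosen code of the graph of a code. -/
noncomputable def kap (U : Finset ℕ) (c : CD (QL {0, 1}) {0, 1} U) : CD (QL {0, 1}) {0, 1} U :=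
  Classical.choose (⟨c, rfl⟩ : ∃ d, cm U d = cm U c)

theorem cm_kap (U : Finset ℕ) (c : CD (QL {0, 1}) {0, 1} U) : cm U (kap U c) = cm U c :=
  Classical.choose_spec (⟨c, rfl⟩ : ∃ d, cm U d = cm U c)

theorem kap_congr (U : Finset ℕ) {c c' : CD (QL {0, 1}) {0, 1} U} (h : cm U c = cm U c') :
    kap U c = kap U c' := by
  unfold kap
  congr 1
  rw [h]

end ZLoAux

open ZLoAux

open Classical in
theorem csC2_le (h1 : Snd2) (h2 : Inj2) (h3 : Two33) (z : ℝ≥0∞) (U : Finset ℕ) :
    csC (QL {0, 1}) z {0, 1} U ≤ gw z {0, 1} U + k33w z U := by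
  have h33 : ∀ c : CD (QL {0, 1}) {0, 1} U, c ≠ kap U c → IsK33 (cm U c) ({0, 1} ∪ U) := by
    intro c hc
    rcases h2 U c.1 (kap U c).1 c.2.1 (kap U c).2.1 c.2.2 (kap U c).2.2 (cm_kap U c).symm with h | h
    · exact absurd (Subtype.ext h) hc
    · exact h
  have hcl : ∀ c : CD (QL {0, 1}) {0, 1} U, clq {0, 1} ≤ cm U c := by
    intro c a b hab
    exact ⟨hab.1, Or.inl hab.2⟩
  let F : CD (QL {0, 1}) {0, 1} U → ℝ≥0∞ := fun c => z ^ ecard {0, 1} (c.1.comp {0, 1})
  let s : Set (CD (QL {0, 1}) {0, 1} U) := {c | c = kap U c}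
  have hsplit : (∑' x : s, F x) + ∑' x : (sᶜ : Set _), F x = ∑' x, F x :=
    Summable.tsum_add_tsum_compl ENNReal.summable ENNReal.summable
  have e1 : csC (QL {0, 1}) z {0, 1} U = ∑' x, F x := rfl
  rw [e1, ← hsplit]
  refine add_le_add ?_ ?_
  · let f : s → {G : Gr // Rtd {0, 1} U G} :=
      fun c => ⟨cm U c.1, h1 U c.1.1 c.1.2.1 c.1.2.2⟩
    have hf : Function.Injective f := by
      intro c c' h
      have h' : cm U c.1 = cm U c'.1 := congrArg Subtype.val h
      have hc : c.1 = kap U c.1 := c.2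
      have hc' : c'.1 = kap U c'.1 := c'.2
      exact Subtype.ext (by rw [hc, hc', kap_congr U h'])
    exact ENNReal.tsum_comp_le_tsum_of_injective hf (fun G => z ^ ecard {0, 1} G.1)
  · let f : (sᶜ : Set _) → {G : Gr // IsK33 G ({0, 1} ∪ U) ∧ clq {0, 1} ≤ G} :=
      fun c => ⟨cm U c.1, h33 c.1 c.2, hcl c.1⟩
    have hf : Function.Injective f := by
      intro c c' h
      have h' : cm U c.1 = cm U c'.1 := congrArg Subtype.val h
      by_contra hne
      have hne' : c.1.1 ≠ c'.1.1 := fun h => hne (Subtype.ext (Subtype.ext h))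
      have hn1 : c.1.1 ≠ (kap U c.1).1 := fun h => c.2 (Subtype.ext h)
      have hn2 : c'.1.1 ≠ (kap U c.1).1 := by
        intro h
        apply c'.2
        show c'.1 = kap U c'.1
        rw [← kap_congr U h']
        exact Subtype.ext h
      have h4 := h3 U (cm U c.1) {c.1.1, c'.1.1, (kap U c.1).1} (h33 c.1 c.2) (by
        intro d hd
        simp only [Finset.mem_insert, Finset.mem_singleton] at hd
        rcases hd with rfl | rfl | rfl
        · exact ⟨c.1.2.1, c.1.2.2, rfl⟩
        · exact ⟨c'.1.2.1, c'.1.2.2, h'.symm⟩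
        · exact ⟨(kap U c.1).2.1, (kap U c.1).2.2, cm_kap U c.1⟩)
      rw [Finset.card_eq_three.mpr ⟨_, _, _, hne', hn1, hn2, rfl⟩] at h4
      omega
    exact ENNReal.tsum_comp_le_tsum_of_injective hf (fun G => z ^ ecard {0, 1} G.1)

end K5
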