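import Pool.Agent.Lib.K5.ZDefs

/-!
# K5.ZUp: from graphs to codes

1. `gw3_le`: by `Ex3` choose for every `G` in `{G // Rtd {0, 1, 2} U G}` a code; it is in `CD (QA {0, 1, 2}) {0, 1, 2} U` (`Valid.mark`); the map is injective (`comp` of the code is `G`) and the weights agree
(`ENNReal.tsum_comp_le_tsum_of_injective`, or `ENNReal.tsum_le_tsum_comp_of_surjective`).
2. `gw2_le`: the same with the two cases: let `P G := ∃ c, c.Valid {0, 1} U ∧ c.comp {0, 1} = G`. `∑' G : {G // Rtd …}` is at most the sum over `{G // P G}` plus the sum over `{G // IsV8 … ∧ clq {0, 1} ≤ G}`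
(a map to the sum type `{G // P G} ⊕ {G // …}`, injective with equal weights, and `tsum` over a sum type: `Summable.tsum_sum`/`ENNReal.summable`, or: bound the term `z^…` by the sum of two indicator functions and use
`tsum_subtype`). `clq {0, 1} ≤ G` is `Rtd.clique`.
3. `bw_eq`: for `X.card = 3` the maps `G ↦ G ⊔ clq X` and `G ↦ G \ clq X` are inverse bijections between `{G // Branch X V G}` and `{G // Rtd X V G}` (for `Branch`: `noX` says `(G ⊔ clq X) \ clq X = G`; for `Rtd`: `clique`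
says `(G \ clq X) ⊔ clq X = G`; `noX` for `G \ clq X`: vertices `a ≠ b` of `X` are adjacent in `clq X`). The edge set of `G` is the edge set of `G ⊔ clq X` without the edges of `clq X` (`ecard`).
-/

namespace K5

open Finset
open scoped ENNReal

theorem gw3_le (h : Ex3) (z : ℝ≥0∞) (U : Finset ℕ) :
    gw z {0, 1, 2} U ≤ csC (QA {0, 1, 2}) z {0, 1, 2} U := by
  unfold gw csC
  choose c hc1 hc2 using fun G : {G : Gr // Rtd {0, 1, 2} U G} => h U G.1 G.2
  obtain ⟨f, hf⟩ : ∃ f : {G : Gr // Rtd {0, 1, 2} U G} → CD (QA {0, 1, 2}) {0, 1, 2} U,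
      ∀ G, (f G).1 = c G :=
    ⟨fun G => ⟨c G, hc1 G, fun X hX => ((hc1 G).mark X hX).2⟩, fun G => rfl⟩
  have hinj : Function.Injective f := by
    intro G G' e
    have e1 : c G = c G' := by rw [← hf G, ← hf G', e]
    apply Subtype.ext
    rw [← hc2 G, ← hc2 G', e1]
  calc ∑' G : {G : Gr // Rtd {0, 1, 2} U G}, z ^ ecard {0, 1, 2} G.1
      = ∑' G : {G : Gr // Rtd {0, 1, 2} U G}, z ^ ecard {0, 1, 2} ((f G).1.comp {0, 1, 2}) := by
        refine tsum_congr fun G => ?_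
        rw [hf G, hc2 G]
    _ ≤ _ := ENNReal.tsum_comp_le_tsum_of_injective hinj
        (fun c : CD (QA {0, 1, 2}) {0, 1, 2} U => z ^ ecard {0, 1, 2} (c.1.comp {0, 1, 2}))

theorem gw2_le (h : Ex2) (z : ℝ≥0∞) (U : Finset ℕ) :
    gw z {0, 1} U ≤ csC (QA {0, 1}) z {0, 1} U + v8w z U := by
  classical
  unfold gw csC v8w
  have key : ∀ G : {G : Gr // Rtd {0, 1} U G},
      ∃ s : CD (QA {0, 1}) {0, 1} U ⊕ {G : Gr // IsV8 G ({0, 1} ∪ U) ∧ clq {0, 1} ≤ G},
        Sum.elim (fun c => c.1.comp {0, 1}) (fun H => H.1) s = G.1 := by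
    intro G
    rcases h U G.1 G.2 with ⟨c, hc, e⟩ | hv
    · exact ⟨Sum.inl ⟨c, hc, fun X hX => (hc.mark X hX).2⟩, e⟩
    · exact ⟨Sum.inr ⟨G.1, hv, G.2.clique⟩, rfl⟩
  choose f hf using key
  have hinj : Function.Injective f := by
    intro G G' e
    apply Subtype.ext
    rw [← hf G, ← hf G', e]
  calc ∑' G : {G : Gr // Rtd {0, 1} U G}, z ^ ecard {0, 1} G.1
      = ∑' G : {G : Gr // Rtd {0, 1} U G}, z ^ ecard {0, 1}
          (Sum.elim (fun c : CD (QA {0, 1}) {0, 1} U => c.1.comp {0, 1})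
            (fun H : {G : Gr // IsV8 G ({0, 1} ∪ U) ∧ clq {0, 1} ≤ G} => H.1) (f G)) := by
        refine tsum_congr fun G => ?_
        rw [hf G]
    _ ≤ ∑' s : CD (QA {0, 1}) {0, 1} U ⊕ {G : Gr // IsV8 G ({0, 1} ∪ U) ∧ clq {0, 1} ≤ G},
          z ^ ecard {0, 1} (Sum.elim (fun c : CD (QA {0, 1}) {0, 1} U => c.1.comp {0, 1})
            (fun H : {G : Gr // IsV8 G ({0, 1} ∪ U) ∧ clq {0, 1} ≤ G} => H.1) s) :=
        ENNReal.tsum_comp_le_tsum_of_injective hinj _
    _ = _ := by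
        rw [Summable.tsum_sum ENNReal.summable ENNReal.summable]
        rfl

theorem bw_eq (z : ℝ≥0∞) {X V : Finset ℕ} (hX : X.card = 3) : bw z X V = gw z X V := by
  classical
  unfold bw gw
  have h1 : ∀ G : Gr, (∀ a ∈ X, ∀ b ∈ X, ¬ G.Adj a b) → (G ⊔ clq X) \ clq X = G := by
    intro G hG
    ext a b
    simp only [SimpleGraph.sdiff_adj, SimpleGraph.sup_adj]
    constructor
    · rintro ⟨h | h, h'⟩
      · exact h
      · exact absurd h h'
    · intro h
      exact ⟨Or.inl h, fun h' => hG a h'.2.1 b h'.2.2 h⟩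
  have h2 : ∀ G : Gr, clq X ≤ G → (G \ clq X) ⊔ clq X = G := by
    intro G hG
    ext a b
    simp only [SimpleGraph.sdiff_adj, SimpleGraph.sup_adj]
    constructor
    · rintro (h | h)
      · exact h.1
      · exact hG h
    · intro h
      by_cases h' : (clq X).Adj a b
      · exact Or.inr h'
      · exact Or.inl ⟨h, h'⟩
  let e : {G : Gr // Branch X V G} ≃ {G : Gr // Rtd X V G} :=
    { toFun := fun G => ⟨G.1 ⊔ clq X, G.2.rtd⟩
      invFun := fun G => ⟨G.1 \ clq X, by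
        refine ⟨hX, ?_, ?_⟩
        · intro a ha b hb hab
          rw [SimpleGraph.sdiff_adj] at hab
          exact hab.2 ⟨hab.1.ne, ha, hb⟩
        · rw [h2 _ G.2.clique]
          exact G.2⟩
      left_inv := fun G => Subtype.ext (h1 _ G.2.noX)
      right_inv := fun G => Subtype.ext (h2 _ G.2.clique) }
  rw [← e.tsum_eq]
  refine tsum_congr fun G => ?_
  have h3 : (G.1 ⊔ clq X).edgeSet \ (clq X).edgeSet = G.1.edgeSet := by
    rw [← SimpleGraph.edgeSet_sdiff, h1 _ G.2.noX]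
  show z ^ G.1.edgeSet.ncard = z ^ ecard X (G.1 ⊔ clq X)
  unfold ecard
  rw [h3]

theorem nB_eq (z : ℝ≥0∞) (n : ℕ) : nB z n = gw z {0, 1, 2} (Ico 3 (n + 3)) :=
  bw_eq z rfl

end K5
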