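import Pool.Agent.Lib.K5.ZDefs

/-!
# K5.ZV8: the labelled copies of the Wagner graph that contain the edge `01`

Every copy has 12 edges, so `ecard {0, 1} G = 11`; there are 1080 copies on 8 given vertices that contain a given edge, and `1080 / 6! = 3 / 2`.
1. `ecard = 11`: let `V : SimpleGraph (ZMod 8)` (or `Fin 8`) be the Wagner graph, `V.Adj i j ↔ j = i + 1 ∨ i = j + 1 ∨ j = i + 4` (decidable, `V.edgeFinset.card = 12` by `decide`). If `f` is as in `IsV8`, the edge set of `G` is the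
image of the edge set of `V` under the injective map `Sym2.map f` (`G = V.map ⟨f, _⟩`), so it has 12 elements; `clq {0, 1}` has the single edge `s(0, 1)`, which is an edge of `G`.
2. The interior: `{0, 1} ∪ U` has 8 elements (`W = univ.image f`), so for `U = Ico 2 (n + 2)` the sum is empty unless `n = 6`; then `W = range 8`.
3. The count for `n = 6`: `G` is determined by `f` (`gr f` = the graph with `Adj a b ↔ ∃ i j, …`). `gr f = gr (f ∘ φ)` for `φ` a rotation `i ↦ i + c` or a reflection `i ↦ c - i` of `ZMod 8` (they preserve the relation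
`j = i + 1 ∨ i = j + 1 ∨ j = i + 4`). As `01` is an edge, `0 = f i`, `1 = f j` with `j = i + 1`, `i = j + 1` or `j = i + 4`. In the first two cases compose with a rotation or a reflection to get `f 0 = 0`, `f 1 = 1`; there
are `6! = 720` such injections of `ZMod 8` into `range 8` (the other six values are an embedding of a 6-set into a 6-set: `Fintype.card_embedding_eq`, or `Fintype.card_perm`). In the third case rotate to get `f 0 = 0`,
`f 4 = 1`, and if `f 1 > f 7` compose with `i ↦ -i` (which fixes `0` and `4`, exchanges `1` and `7`) to get `f 1 < f 7`: there are `360` such injections (composition with `-` is an involution of the `720` injections with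
`f 0 = 0, f 4 = 1` that exchanges `f 1 < f 7` and `f 1 > f 7`). So the set of the `G` is contained in the union of the images of two finite sets of sizes 720 and 360, so `≤ 1080` elements; every term is `z ^ 11`:
`v8w z (Ico 2 8) ≤ 1080 * z ^ 11` (`tsum_fintype`/`ENNReal.tsum_const` on the finite subtype, `Finset.sum_const`).
4. `egf`: only `n = 6` (`tsum_eq_single`): `x^6 / 720 * (1080 * z^11) = 3/2 * x^6 * z^11` (in `ENNReal`: `1080 = 720 * (3/2)`).
-/

namespace K5

open Finset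
open scoped ENNReal

namespace ZV8Aux

/-- adjacency in the Wagner graph -/
def rel (i j : ZMod 8) : Prop := j = i + 1 ∨ i = j + 1 ∨ j = i + 4

instance : DecidableRel rel := fun i j => by unfold rel; infer_instance

theorem rel_symm : ∀ i j, rel i j → rel j i := by decide

theorem rel_irrefl : ∀ i, ¬ rel i i := by decide

theorem rel_add : ∀ c i j, rel (i + c) (j + c) ↔ rel i j := by decide

theorem rel_sub : ∀ c i j, rel (c - i) (c - j) ↔ rel i j := by decide

/-- the Wagner graph -/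
def W8 : SimpleGraph (ZMod 8) where
  Adj := rel
  symm := ⟨rel_symm⟩
  loopless := ⟨rel_irrefl⟩

instance : DecidableRel W8.Adj := fun i j => by
  unfold W8; infer_instance

theorem W8_card : W8.edgeFinset.card = 12 := by decide +kernel

theorem W8_ncard : W8.edgeSet.ncard = 12 := by
  rw [Set.ncard_eq_toFinset_card', ← W8_card]
  rfl

theorem clq_edge : (clq {0, 1}).edgeSet = {s(0, 1)} := by
  ext e
  induction e using Sym2.inductionOn with
  | hf a b =>
    constructor
    · intro h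
      have h' : a ≠ b ∧ a ∈ ({0, 1} : Finset ℕ) ∧ b ∈ ({0, 1} : Finset ℕ) := h
      obtain ⟨h1, h2, h3⟩ := h'
      rw [mem_insert, mem_singleton] at h2 h3
      rw [Set.mem_singleton_iff, Sym2.eq_iff]
      omega
    · intro h
      rw [Set.mem_singleton_iff, Sym2.eq_iff] at h
      show a ≠ b ∧ a ∈ ({0, 1} : Finset ℕ) ∧ b ∈ ({0, 1} : Finset ℕ)
      rw [mem_insert, mem_singleton, mem_insert, mem_singleton]
      omega

/-- the copy given by `f` -/
def gr (f : ZMod 8 → ℕ) : Gr :=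
  SimpleGraph.fromRel (fun a b => ∃ i j, a = f i ∧ b = f j ∧ rel i j)

theorem eq_gr {G : Gr} {f : ZMod 8 → ℕ}
    (h : ∀ a b, G.Adj a b ↔ ∃ i j, a = f i ∧ b = f j ∧ rel i j) : G = gr f := by
  ext a b
  unfold gr
  rw [SimpleGraph.fromRel_adj, ← h a b, ← h b a]
  constructor
  · intro h1
    exact ⟨h1.ne, Or.inl h1⟩
  · rintro ⟨-, h1 | h1⟩
    · exact h1
    · exact h1.symm

theorem exists_sigma {f : ZMod 8 → ℕ} (hinj : Function.Injective f) (hr : ∀ i, f i < 8)
    {c : ZMod 8} (h0 : f 0 = 0) (hc : f c = 1) {p : Fin 6 → ZMod 8} (hp : Function.Injective p)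
    (hpn : ∀ k, p k ≠ 0 ∧ p k ≠ c) : ∃ σ : Equiv.Perm (Fin 6), ∀ k, f (p k) = (σ k : ℕ) + 2 := by
  have h2 : ∀ k, 2 ≤ f (p k) := by
    intro k
    have e0 : f (p k) ≠ 0 := fun h => (hpn k).1 (hinj (h.trans h0.symm))
    have e1 : f (p k) ≠ 1 := fun h => (hpn k).2 (hinj (h.trans hc.symm))
    omega
  have hlt : ∀ k, f (p k) - 2 < 6 := by
    intro k
    have := hr (p k)
    omega
  have hg : Function.Injective (fun k : Fin 6 => (⟨f (p k) - 2, hlt k⟩ : Fin 6)) := by
    intro k l hkl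
    have e1 : f (p k) - 2 = f (p l) - 2 := congrArg Fin.val hkl
    have := h2 k
    have := h2 l
    exact hp (hinj (by omega))
  refine ⟨Equiv.ofBijective _ ⟨hg, Finite.surjective_of_injective hg⟩, fun k => ?_⟩
  show f (p k) = f (p k) - 2 + 2
  have := h2 k
  omega

/-- the copies with `f 0 = 0`, `f 1 = 1` -/
def FA (σ : Equiv.Perm (Fin 6)) : ZMod 8 → ℕ :=
  (![0, 1, σ 0 + 2, σ 1 + 2, σ 2 + 2, σ 3 + 2, σ 4 + 2, σ 5 + 2] : Fin 8 → ℕ)

/-- the copies with `f 0 = 0`, `f 4 = 1` -/
def FB (σ : Equiv.Perm (Fin 6)) : ZMod 8 → ℕ :=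
  (![0, σ 0 + 2, σ 2 + 2, σ 3 + 2, 1, σ 4 + 2, σ 5 + 2, σ 1 + 2] : Fin 8 → ℕ)

theorem half : (univ.filter (fun σ : Equiv.Perm (Fin 6) => σ 0 < σ 1)).card ≤ 360 := by
  have h1 : (univ.filter (fun σ : Equiv.Perm (Fin 6) => σ 0 < σ 1)).card =
      (univ.filter (fun σ : Equiv.Perm (Fin 6) => σ 1 < σ 0)).card := by
    refine Finset.card_equiv (Equiv.mulRight (Equiv.swap 0 1)) ?_
    intro σ
    rw [mem_filter, mem_filter]
    simp [Equiv.Perm.mul_apply]
  have h2 : (univ.filter (fun σ : Equiv.Perm (Fin 6) => σ 0 < σ 1)).card +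
      (univ.filter (fun σ : Equiv.Perm (Fin 6) => σ 1 < σ 0)).card ≤ 720 := by
    rw [← Finset.card_union_of_disjoint]
    · refine (Finset.card_le_univ _).trans ?_
      rw [Fintype.card_perm, Fintype.card_fin]
      decide
    · rw [Finset.disjoint_left]
      intro σ h3 h4
      exact lt_asymm (mem_filter.1 h3).2 (mem_filter.1 h4).2
  omega

open Classical in
/-- a finite set that contains all copies with the edge `01` -/
noncomputable def TT : Finset Gr :=
  (univ : Finset (Equiv.Perm (Fin 6))).image (fun σ => gr (FA σ)) ∪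
    (univ.filter (fun σ : Equiv.Perm (Fin 6) => σ 0 < σ 1)).image (fun σ => gr (FB σ))

theorem TT_card : TT.card ≤ 1080 := by
  classical
  unfold TT
  refine (Finset.card_union_le _ _).trans ?_
  have h1 := Finset.card_image_le (s := (univ : Finset (Equiv.Perm (Fin 6))))
    (f := fun σ => gr (FA σ))
  have h2 := Finset.card_image_le
    (s := (univ.filter (fun σ : Equiv.Perm (Fin 6) => σ 0 < σ 1))) (f := fun σ => gr (FB σ))
  rw [Finset.card_univ, Fintype.card_perm, Fintype.card_fin] at h1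
  have h3 := half
  have h4 : Nat.factorial 6 = 720 := by decide
  omega

theorem memA {G : Gr} {f : ZMod 8 → ℕ} (hinj : Function.Injective f) (hr : ∀ i, f i < 8)
    (h : ∀ a b, G.Adj a b ↔ ∃ i j, a = f i ∧ b = f j ∧ rel i j) (h0 : f 0 = 0) (h1 : f 1 = 1) :
    G ∈ TT := by
  classical
  obtain ⟨σ, hσ⟩ := exists_sigma hinj hr h0 h1 (p := ![2, 3, 4, 5, 6, 7]) (by decide) (by decide)
  have hf : f = FA σ := by
    funext i
    fin_cases i
    · exact h0
    · exact h1
    · exact hσ 0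
    · exact hσ 1
    · exact hσ 2
    · exact hσ 3
    · exact hσ 4
    · exact hσ 5
  unfold TT
  refine mem_union_left _ (mem_image.2 ⟨σ, mem_univ _, ?_⟩)
  show gr (FA σ) = G
  rw [← hf, ← eq_gr h]

theorem memB {G : Gr} {f : ZMod 8 → ℕ} (hinj : Function.Injective f) (hr : ∀ i, f i < 8)
    (h : ∀ a b, G.Adj a b ↔ ∃ i j, a = f i ∧ b = f j ∧ rel i j) (h0 : f 0 = 0) (h1 : f 4 = 1)
    (h17 : f 1 < f 7) : G ∈ TT := by
  classical
  obtain ⟨σ, hσ⟩ := exists_sigma hinj hr h0 h1 (p := ![1, 7, 2, 3, 5, 6]) (by decide) (by decide)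
  have hf : f = FB σ := by
    funext i
    fin_cases i
    · exact h0
    · exact hσ 0
    · exact hσ 2
    · exact hσ 3
    · exact h1
    · exact hσ 4
    · exact hσ 5
    · exact hσ 1
  have h2 : σ 0 < σ 1 := by
    have e0 : f 1 = (σ 0 : ℕ) + 2 := hσ 0
    have e1 : f 7 = (σ 1 : ℕ) + 2 := hσ 1
    rw [Fin.lt_def]
    omega
  unfold TT
  refine mem_union_right _ (mem_image.2 ⟨σ, mem_filter.2 ⟨mem_univ _, h2⟩, ?_⟩)
  show gr (FB σ) = G
  rw [← hf, ← eq_gr h]

theorem adj_add {G : Gr} {f : ZMod 8 → ℕ}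
    (h : ∀ a b, G.Adj a b ↔ ∃ i j, a = f i ∧ b = f j ∧ rel i j) (c : ZMod 8) :
    ∀ a b, G.Adj a b ↔ ∃ i j, a = f (i + c) ∧ b = f (j + c) ∧ rel i j := by
  intro a b
  rw [h a b]
  constructor
  · rintro ⟨i, j, h1, h2, h3⟩
    refine ⟨i - c, j - c, by rw [sub_add_cancel]; exact h1, by rw [sub_add_cancel]; exact h2, ?_⟩
    rw [← rel_add c, sub_add_cancel, sub_add_cancel]
    exact h3
  · rintro ⟨i, j, h1, h2, h3⟩
    exact ⟨i + c, j + c, h1, h2, (rel_add c i j).2 h3⟩

theorem adj_sub {G : Gr} {f : ZMod 8 → ℕ}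
    (h : ∀ a b, G.Adj a b ↔ ∃ i j, a = f i ∧ b = f j ∧ rel i j) (c : ZMod 8) :
    ∀ a b, G.Adj a b ↔ ∃ i j, a = f (c - i) ∧ b = f (c - j) ∧ rel i j := by
  intro a b
  rw [h a b]
  constructor
  · rintro ⟨i, j, h1, h2, h3⟩
    refine ⟨c - i, c - j, by rw [sub_sub_cancel]; exact h1, by rw [sub_sub_cancel]; exact h2, ?_⟩
    exact (rel_sub c i j).2 h3
  · rintro ⟨i, j, h1, h2, h3⟩
    exact ⟨c - i, c - j, h1, h2, (rel_sub c i j).2 h3⟩

theorem inj_add {f : ZMod 8 → ℕ} (hinj : Function.Injective f) (c : ZMod 8) :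
    Function.Injective (fun i => f (i + c)) := fun _ _ hij => add_right_cancel (hinj hij)

theorem inj_sub {f : ZMod 8 → ℕ} (hinj : Function.Injective f) (c : ZMod 8) :
    Function.Injective (fun i => f (c - i)) := fun _ _ hij => sub_right_injective (hinj hij)

theorem memT {G : Gr} {f : ZMod 8 → ℕ} (hinj : Function.Injective f) (hr : ∀ i, f i < 8)
    (h : ∀ a b, G.Adj a b ↔ ∃ i j, a = f i ∧ b = f j ∧ rel i j) (h01 : G.Adj 0 1) : G ∈ TT := by
  obtain ⟨i, j, h0, h1, hij⟩ := (h 0 1).1 h01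
  rcases hij with hij | hij | hij
  · refine memA (inj_add hinj i) (fun _ => hr _) (adj_add h i) ?_ ?_
    · show f (0 + i) = 0
      rw [zero_add]; exact h0.symm
    · show f (1 + i) = 1
      rw [add_comm, ← hij]; exact h1.symm
  · refine memA (inj_sub hinj i) (fun _ => hr _) (adj_sub h i) ?_ ?_
    · show f (i - 0) = 0
      rw [sub_zero]; exact h0.symm
    · show f (i - 1) = 1
      rw [hij, add_sub_cancel_right]; exact h1.symm
  · have hinj' := inj_add hinj i
    have h' := adj_add h i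
    have e0 : f (0 + i) = 0 := by rw [zero_add]; exact h0.symm
    have e4 : f (4 + i) = 1 := by rw [add_comm, ← hij]; exact h1.symm
    rcases lt_trichotomy (f (1 + i)) (f (7 + i)) with h17 | h17 | h17
    · exact memB hinj' (fun _ => hr _) h' e0 e4 h17
    · exact absurd (hinj' h17) (by decide)
    · refine memB (inj_sub hinj' 0) (fun _ => hr _) (adj_sub h' 0) e0 ?_ ?_
      · show f ((0 - 4) + i) = 1
        rw [show (0 - 4 : ZMod 8) = 4 from by decide]
        exact e4
      · show f ((0 - 1) + i) < f ((0 - 7) + i)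
        rw [show (0 - 1 : ZMod 8) = 7 from by decide, show (0 - 7 : ZMod 8) = 1 from by decide]
        exact h17

end ZV8Aux

open ZV8Aux

theorem v8_ecard {G : Gr} {W : Finset ℕ} (h : IsV8 G W) (h1 : clq {0, 1} ≤ G) :
    ecard {0, 1} G = 11 := by
  obtain ⟨f, hinj, -, hadj⟩ := h
  let f' : ZMod 8 ↪ ℕ := ⟨f, hinj⟩
  have hG : G = SimpleGraph.map f' W8 := by
    ext a b
    rw [hadj, SimpleGraph.map_adj]
    constructor
    · rintro ⟨i, j, h2, h3, h4⟩
      exact ⟨i, j, h4, h2.symm, h3.symm⟩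
    · rintro ⟨i, j, h4, h2, h3⟩
      exact ⟨i, j, h2.symm, h3.symm, h4⟩
  have hcard : G.edgeSet.ncard = 12 := by
    rw [hG, SimpleGraph.edgeSet_map, Set.ncard_image_of_injective _ (Function.Embedding.injective _),
      W8_ncard]
  have hmem : s(0, 1) ∈ G.edgeSet := by
    have h2 : (clq {0, 1}).Adj 0 1 := ⟨by norm_num, by simp, by simp⟩
    exact h1 h2
  unfold ecard
  rw [clq_edge, Set.ncard_sdiff_singleton_of_mem hmem, hcard]

theorem v8w_le (z : ℝ≥0∞) : v8w z (Ico 2 8) ≤ 1080 * z ^ 11 := by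
  classical
  unfold v8w
  have h1 : ∀ G : {G : Gr // IsV8 G ({0, 1} ∪ Ico 2 8) ∧ clq {0, 1} ≤ G},
      z ^ ecard {0, 1} G.1 = z ^ 11 := by
    rintro ⟨G, hG, hG1⟩
    rw [v8_ecard hG hG1]
  rw [tsum_congr h1]
  have hsub : {G : Gr | IsV8 G ({0, 1} ∪ Ico 2 8) ∧ clq {0, 1} ≤ G} ⊆ (TT : Set Gr) := by
    rintro G ⟨⟨f, hinj, hW, hadj⟩, hG1⟩
    refine mem_coe.2 (memT hinj (fun i => ?_) hadj ?_)
    · have h2 : f i ∈ ({0, 1} ∪ Ico 2 8 : Finset ℕ) := by
        rw [hW]; exact mem_image_of_mem f (mem_univ i)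
      rw [mem_union, mem_insert, mem_singleton, mem_Ico] at h2
      omega
    · have h2 : (clq {0, 1}).Adj 0 1 := ⟨by norm_num, by simp, by simp⟩
      exact hG1 h2
  calc ∑' _ : {G : Gr // IsV8 G ({0, 1} ∪ Ico 2 8) ∧ clq {0, 1} ≤ G}, z ^ 11
      ≤ ∑' _ : (TT : Set Gr), z ^ 11 := ENNReal.tsum_mono_subtype (fun _ => z ^ 11) hsub
    _ = ∑ _ ∈ TT, z ^ 11 := Finset.tsum_subtype' TT (fun _ => z ^ 11)
    _ = TT.card * z ^ 11 := by rw [Finset.sum_const, nsmul_eq_mul]
    _ ≤ 1080 * z ^ 11 := by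
      refine mul_le_mul_left ?_ _
      have := TT_card
      exact_mod_cast this

theorem egf_v8w (x z : ℝ≥0∞) :
    egf (fun n => v8w z (Ico 2 (n + 2))) x ≤ 3 / 2 * x ^ 6 * z ^ 11 := by
  unfold egf
  rw [tsum_eq_single 6]
  · have h1 : ((Nat.factorial 6 : ℕ) : ℝ≥0∞) = 720 := by
      have : Nat.factorial 6 = 720 := by decide
      rw [this]; norm_num
    rw [h1]
    calc x ^ 6 / 720 * v8w z (Ico 2 (6 + 2)) ≤ x ^ 6 / 720 * (1080 * z ^ 11) :=
          mul_le_mul_right (v8w_le z) _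
      _ = 3 / 2 * x ^ 6 * z ^ 11 := by
        have h2 : (1080 : ℝ≥0∞) / 720 = 3 / 2 := by
          rw [ENNReal.div_eq_div_iff (by norm_num) (by norm_num) (by norm_num) (by norm_num)]
          norm_num
        rw [← h2, div_eq_mul_inv, div_eq_mul_inv]
        ring
  · intro n hn
    have h2 : v8w z (Ico 2 (n + 2)) = 0 := by
      unfold v8w
      rw [ENNReal.tsum_eq_zero]
      rintro ⟨G, ⟨f, hinj, hW, -⟩, -⟩
      exfalso
      have h3 := congrArg Finset.card hW
      rw [Finset.card_image_of_injective _ hinj, Finset.card_univ, ZMod.card,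
        Finset.card_union_of_disjoint, Nat.card_Ico, Finset.card_pair (by norm_num)] at h3
      · omega
      · rw [Finset.disjoint_left]
        intro a ha ha'
        rw [mem_insert, mem_singleton] at ha
        rw [mem_Ico] at ha'
        omega
    show x ^ n / (n.factorial : ℝ≥0∞) * v8w z (Ico 2 (n + 2)) = 0
    rw [h2, mul_zero]

end K5
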