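import Pool.Agent.Lib.K5.ZUpB
import Pool.Agent.Lib.K5.ZFil
import Pool.Agent.Lib.K5.ZV8
import Pool.Agent.Lib.K5.ZK33
import Pool.Agent.Lib.K5.ZUp
import Pool.Agent.Lib.K5.ZLo
import Pool.Agent.Lib.K5.ZK0
import Pool.Agent.Lib.K5.ZFinB

/-!
# K5.ZOut: the inequalities between `Br`, `T0` and the planar cores

Assembly of the counting on the shredder level (no `sorry` in this file).
-/

namespace K5

open Finset
open scoped ENNReal

namespace ZOutAux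

theorem disj2 (n : ℕ) : Disjoint ({0, 1} : Finset ℕ) (Ico 2 (n + 2)) := by
  rw [Finset.disjoint_left]
  intro a ha hb
  rw [Finset.mem_Ico] at hb
  simp only [Finset.mem_insert, Finset.mem_singleton] at ha
  omega

theorem disj3 (n : ℕ) : Disjoint ({0, 1, 2} : Finset ℕ) (Ico 3 (n + 3)) := by
  rw [Finset.disjoint_left]
  intro a ha hb
  rw [Finset.mem_Ico] at hb
  simp only [Finset.mem_insert, Finset.mem_singleton] at ha
  omega

theorem one_add_ofReal {z : ℝ} (hz : 0 ≤ z) :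
    (1 : ℝ≥0∞) + ENNReal.ofReal z = ENNReal.ofReal (1 + z) := by
  rw [ENNReal.ofReal_add zero_le_one hz, ENNReal.ofReal_one]

theorem egf_add (F G : ℕ → ℝ≥0∞) (x : ℝ≥0∞) :
    egf (fun n => F n + G n) x = egf F x + egf G x := by
  unfold egf
  rw [← ENNReal.tsum_add]
  refine tsum_congr fun n => ?_
  rw [mul_add]

theorem csC3 (z : ℝ≥0∞) (n : ℕ) :
    csC (QA {0, 1, 2}) z {0, 1, 2} (Ico 3 (n + 3)) =
      csA (QA {0, 1, 2}) (ts z) z {0, 1, 2} (Ico 3 (n + 3)) :=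
  csC_eq _ _ _ _ (fun _ h => h) (disj3 n)

theorem csC2A (z : ℝ≥0∞) (n : ℕ) :
    csC (QA {0, 1}) z {0, 1} (Ico 2 (n + 2)) =
      csA (QA {0, 1}) (ts z) z {0, 1} (Ico 2 (n + 2)) :=
  csC_eq _ _ _ _ (fun _ h => h) (disj2 n)

theorem csC2L (z : ℝ≥0∞) (n : ℕ) :
    csC (QL {0, 1}) z {0, 1} (Ico 2 (n + 2)) =
      csA (QL {0, 1}) (ts z) z {0, 1} (Ico 2 (n + 2)) :=
  csC_eq _ _ _ _ (fun X h hX => h (by rw [hX])) (disj2 n)

theorem egf_ts {x z : ℝ≥0∞} (h : Br x z ≠ ⊤) : egf (ts z) x = E2 (Br x z) := by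
  have e : ts z = prt2 (nB z) := funext fun n => ts_eq z n
  rw [e, br_eq]
  have h' : egf (pos (nB z)) x ≠ ⊤ := by
    rw [pos_nB, ← br_eq]
    exact h
  rw [egf_prt2_E2 _ h', pos_nB]

end ZOutAux

open ZOutAux

/-- Upper bound for the branches. -/
theorem out_br_le (hex : Ex3) {x z t a : ℝ} (hz : 0 ≤ z) (ha : 0 ≤ a)
    (h1 : At (.ofReal x) (.ofReal z) (.ofReal (1 + z)) (.ofReal t) ≤ .ofReal a)
    (h2 : Real.exp a - 1 - a ≤ t) : Br (.ofReal x) (.ofReal z) ≤ .ofReal a := by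
  rw [br_eq]
  refine br_le (t := .ofReal t) ENNReal.ofReal_ne_top (fun n => ?_) ?_ ?_
  · rw [nB_eq, ← csC3]
    exact gw3_le hex _ _
  · rw [one_add_ofReal hz]
    exact h1
  · rw [E2_ofReal ha]
    exact ENNReal.ofReal_le_ofReal h2

/-- Upper bound for the rooted graphs. -/
theorem out_T0_le (hex : Ex2) {x z t a : ℝ} (hx : 0 ≤ x) (hz : 0 ≤ z) (ha : 0 ≤ a)
    (hB : Br (.ofReal x) (.ofReal z) ≤ .ofReal a) (h2 : Real.exp a - 1 - a ≤ t) :
    T0 (.ofReal x) (.ofReal z) ≤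
      Kt (.ofReal x) (.ofReal z) (.ofReal (1 + z)) (.ofReal t) +
        .ofReal (3 / 2 * x ^ 6 * z ^ 11) := by
  have hne : Br (.ofReal x) (.ofReal z) ≠ ⊤ := ne_top_of_le_ne_top ENNReal.ofReal_ne_top hB
  rw [nT_eq]
  refine (egf_mono (fun n => gw2_le hex _ _) _).trans ?_
  rw [egf_add]
  refine add_le_add ?_ ?_
  · have e : (fun n => csC (QA {0, 1}) (ENNReal.ofReal z) {0, 1} (Ico 2 (n + 2))) =
        fun n => csA (QA {0, 1}) (ts (.ofReal z)) (.ofReal z) {0, 1} (Ico 2 (n + 2)) :=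
      funext fun n => csC2A _ n
    rw [e, egf_csA_Kt, one_add_ofReal hz]
    refine Kt_mono ?_
    rw [egf_ts hne]
    refine (E2_mono hB).trans ?_
    rw [E2_ofReal ha]
    exact ENNReal.ofReal_le_ofReal h2
  · refine (egf_v8w _ _).trans (le_of_eq ?_)
    rw [ENNReal.ofReal_mul (by positivity), ENNReal.ofReal_mul (by norm_num),
      ENNReal.ofReal_pow hx, ENNReal.ofReal_pow hz, ENNReal.ofReal_div_of_pos (by norm_num)]
    norm_num

/-- Lower bound for the branches. -/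
theorem out_At_le (h1 : Snd3) (h2 : Inj3) {x z a : ℝ} (hz : 0 ≤ z) (ha : 0 ≤ a)
    (hB : Br (.ofReal x) (.ofReal z) = .ofReal a) :
    At (.ofReal x) (.ofReal z) (.ofReal (1 + z)) (.ofReal (Real.exp a - 1 - a)) ≤ .ofReal a := by
  have hne : Br (.ofReal x) (.ofReal z) ≠ ⊤ := by
    rw [hB]
    exact ENNReal.ofReal_ne_top
  have e : egf (ts (.ofReal z)) (.ofReal x) = .ofReal (Real.exp a - 1 - a) := by
    rw [egf_ts hne, hB, E2_ofReal ha]
  rw [← e, ← one_add_ofReal hz, ← egf_csA_At, ← hB, br_eq]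
  refine egf_mono (fun n => ?_) _
  rw [nB_eq, ← csC3]
  exact csC3_le h1 h2 _ _

/-- Lower bound for the rooted graphs. -/
theorem out_Kt0_le (h1 : Snd2) (h2 : Inj2) (h3 : Two33) {x z a : ℝ} (hx : 0 ≤ x) (hz : 0 ≤ z)
    (ha : 0 ≤ a) (hB : Br (.ofReal x) (.ofReal z) = .ofReal a) :
    Kt0 (.ofReal x) (.ofReal z) (.ofReal (1 + z)) (.ofReal (Real.exp a - 1 - a)) ≤
      T0 (.ofReal x) (.ofReal z) + .ofReal (x ^ 4 * z ^ 8 / 4) := by
  have hne : Br (.ofReal x) (.ofReal z) ≠ ⊤ := by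
    rw [hB]
    exact ENNReal.ofReal_ne_top
  have e : egf (ts (.ofReal z)) (.ofReal x) = .ofReal (Real.exp a - 1 - a) := by
    rw [egf_ts hne, hB, E2_ofReal ha]
  rw [← e, ← one_add_ofReal hz, ← egf_csA_Kt0, nT_eq]
  have e2 : (.ofReal (x ^ 4 * z ^ 8 / 4) : ℝ≥0∞) =
      (ENNReal.ofReal x) ^ 4 * (ENNReal.ofReal z) ^ 8 / 4 := by
    rw [ENNReal.ofReal_div_of_pos (by norm_num), ENNReal.ofReal_mul (by positivity),
      ENNReal.ofReal_pow hx, ENNReal.ofReal_pow hz]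
    norm_num
  rw [e2]
  refine le_trans ?_ (add_le_add le_rfl (egf_k33w _ _))
  rw [← egf_add]
  refine egf_mono (fun n => ?_) _
  rw [← csC2L]
  exact csC2_le h1 h2 h3 _ _

/-- Finiteness of the branch series. -/
theorem out_br_ne_top {x x1 z : ℝ} (hx : x < x1) (hx1 : 0 < x1) (hz : 1 ≤ z)
    (h : T0 (.ofReal x1) (.ofReal z) ≠ ⊤) : Br (.ofReal x) (.ofReal z) ≠ ⊤ := by
  refine br_ne_top hx hx1 ?_ h
  rw [← ENNReal.ofReal_one]
  exact ENNReal.ofReal_le_ofReal hz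

end K5
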