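import Pool.Agent.Lib.K5.DTot
import Pool.Agent.Lib.K5.DSh
import Pool.Agent.Lib.K5.DEx8
import Pool.Agent.Lib.K5.DEx33
import Pool.Agent.Lib.K5.ZOut

/-!
# K5.DOut: the exact equations of the shredder level

No `sorry` in this file.
-/

namespace K5

open Finset
open scoped ENNReal

namespace DOutAux

theorem egf_shw (hw : Wag) (x z : ℝ≥0∞) :
    egf (fun n => ∑ v ∈ Ico 2 (n + 2), shw z (Ico 2 (n + 2)) v) x =
      x * (1 + z) ^ 2 * E3 (Br x z) := by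
  have e : (fun n => ∑ v ∈ Ico 2 (n + 2), shw z (Ico 2 (n + 2)) v) =
      fun n : ℕ => ((n : ℕ) : ℝ≥0∞) * (fun m : ℕ => (1 + z) ^ 2 * prt3 (nB z) m) (n - 1) := by
    funext n
    rw [Finset.sum_congr rfl (fun v hv => shw_eq hw z (ZOutAux.disj2 n) hv)]
    rw [Finset.sum_const, Nat.card_Ico, Nat.add_sub_cancel, nsmul_eq_mul]
  rw [e]
  refine (egf_root (fun m : ℕ => (1 + z) ^ 2 * prt3 (nB z) m) x).trans ?_
  have e3 : E3 (Br x z) = egf (prt3 (nB z)) x := by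
    rw [egf_prt3, pos_nB, br_eq]
  rw [e3]
  unfold egf
  rw [mul_assoc]
  congr 1
  rw [← ENNReal.tsum_mul_left]
  refine tsum_congr fun n => ?_
  ring

end DOutAux

open DOutAux

/-- Root triangle: the exact equation. -/
theorem At_exact (hw : Wag) {x z a : ℝ} (hz : 0 ≤ z) (ha : 0 ≤ a)
    (hB : Br (.ofReal x) (.ofReal z) = .ofReal a) :
    At (.ofReal x) (.ofReal z) (.ofReal (1 + z)) (.ofReal (Real.exp a - 1 - a)) = .ofReal a := by
  have hne : Br (.ofReal x) (.ofReal z) ≠ ⊤ := by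
    rw [hB]
    exact ENNReal.ofReal_ne_top
  have e : egf (ts (.ofReal z)) (.ofReal x) = .ofReal (Real.exp a - 1 - a) := by
    rw [ZOutAux.egf_ts hne, hB, E2_ofReal ha]
  rw [← e, ← ZOutAux.one_add_ofReal hz, ← egf_csA_At, ← hB, br_eq]
  unfold egf
  refine tsum_congr fun n => ?_
  congr 1
  show csA (QA {0, 1, 2}) (ts (.ofReal z)) (.ofReal z) {0, 1, 2} (Ico 3 (n + 3)) = _
  rw [nB_eq, ← ZOutAux.csC3]
  refine le_antisymm (csC3_le ?_ ?_ _ _) (gw3_le ?_ _ _)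
  · exact fun U c h => h.rtd
  · exact fun U c c' h h' hc => Code3.Valid.inj3 (by decide) h h' hc
  · exact fun U G h => ex3 hw h (by decide)

/-- Root edge: the exact equation. -/
theorem T0_exact (hw : Wag) {x z a : ℝ} (hx : 0 ≤ x) (hz : 0 ≤ z) (ha : 0 ≤ a)
    (hB : Br (.ofReal x) (.ofReal z) = .ofReal a) :
    Kt (.ofReal x) (.ofReal z) (.ofReal (1 + z)) (.ofReal (Real.exp a - 1 - a)) +
        .ofReal (3 / 2 * x ^ 6 * z ^ 11) =
      T0 (.ofReal x) (.ofReal z) + .ofReal (x ^ 4 * z ^ 8 / 4) +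
        .ofReal (x * (1 + z) ^ 2 * ((a - 1) * Real.exp a + 1 - a ^ 2 / 2)) := by
  have hne : Br (.ofReal x) (.ofReal z) ≠ ⊤ := by
    rw [hB]
    exact ENNReal.ofReal_ne_top
  have e : egf (ts (.ofReal z)) (.ofReal x) = .ofReal (Real.exp a - 1 - a) := by
    rw [ZOutAux.egf_ts hne, hB, E2_ofReal ha]
  have e8 : (.ofReal (3 / 2 * x ^ 6 * z ^ 11) : ℝ≥0∞) =
      3 / 2 * (ENNReal.ofReal x) ^ 6 * (ENNReal.ofReal z) ^ 11 := by
    rw [ENNReal.ofReal_mul (by positivity), ENNReal.ofReal_mul (by norm_num),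
      ENNReal.ofReal_pow hx, ENNReal.ofReal_pow hz, ENNReal.ofReal_div_of_pos (by norm_num)]
    norm_num
  have e33 : (.ofReal (x ^ 4 * z ^ 8 / 4) : ℝ≥0∞) =
      (ENNReal.ofReal x) ^ 4 * (ENNReal.ofReal z) ^ 8 / 4 := by
    rw [ENNReal.ofReal_div_of_pos (by norm_num), ENNReal.ofReal_mul (by positivity),
      ENNReal.ofReal_pow hx, ENNReal.ofReal_pow hz]
    norm_num
  have eS : (.ofReal (x * (1 + z) ^ 2 * ((a - 1) * Real.exp a + 1 - a ^ 2 / 2)) : ℝ≥0∞) =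
      ENNReal.ofReal x * (1 + ENNReal.ofReal z) ^ 2 * E3 (Br (.ofReal x) (.ofReal z)) := by
    rw [ENNReal.ofReal_mul (by positivity), ENNReal.ofReal_mul hx, hB, E3_ofReal ha,
      ZOutAux.one_add_ofReal hz, ENNReal.ofReal_pow (by linarith)]
  rw [← e, ← ZOutAux.one_add_ofReal hz, ← egf_csA_Kt, e8, e33, eS, ← egf_v8w_eq, ← egf_k33w_eq,
    ← egf_shw hw, nT_eq, ← ZOutAux.egf_add, ← ZOutAux.egf_add, ← ZOutAux.egf_add]
  unfold egf
  refine tsum_congr fun n => ?_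
  congr 1
  show csA (QA {0, 1}) (ts (.ofReal z)) (.ofReal z) {0, 1} (Ico 2 (n + 2)) + _ = _
  rw [← ZOutAux.csC2A]
  exact csC_total hw _ (ZOutAux.disj2 n)

end K5
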