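import Mathlib

/-!
# K5.QCnt: a family that uses every coordinate at most twice: counting

`F : Fin m → E → ZMod 2`, `E` finite; `g` is a lower bound for the size of the support of every nonzero sum `∑ i ∈ S, F i`; the sums take at least `2 ^ d` values.
Then `(d + 1) * g ≤ 2 * |E|`.

PROOF. `I := {i | F i ≠ 0}`. The sums over subsets of `Fin m` are the sums over subsets of `I`, so `2 ^ d ≤ 2 ^ |I|` and `d ≤ |I|`. Every `F i`, `i ∈ I`, has a support of size at least `g`
(`S = {i}`), and `∑ i ∈ I, |supp F i| ≤ 2 |E|` (double counting, `h2`). If `|I| ≥ d + 1` we are done. If `|I| = d`, the map `S ↦ ∑ i ∈ S, F i` from the subsets of `I` is onto a set with at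
least `2 ^ d` elements, so it is injective; so `F0 := ∑ i ∈ I, F i ≠ 0` (as `d ≥ 1`, `I ≠ ∅`) and `|supp F0| ≥ g`. A coordinate `e` in exactly one `supp F i` is in `supp F0`, a coordinate in
exactly two is not, so `|supp F0| + ∑ i ∈ I, |supp F i| ≤ 2 |E|`.
-/

namespace K5

open Finset

namespace QCntAux

lemma zmod2_ne {a : ZMod 2} (h : a ≠ 0) : a = 1 := by
  revert h
  revert a
  decide

lemma sum_eq_card {E : Type*} {m : ℕ} (F : Fin m → E → ZMod 2) (e : E) :
    ∑ i, F i e = ((univ.filter (fun i => F i e ≠ 0)).card : ZMod 2) := by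
  rw [Finset.card_eq_sum_ones, Nat.cast_sum, Finset.sum_filter]
  refine Finset.sum_congr rfl fun i _ => ?_
  split_ifs with h
  · rw [zmod2_ne h]
    simp
  · push Not at h
    rw [h]

lemma double {E : Type*} [Fintype E] {m : ℕ} (F : Fin m → E → ZMod 2) :
    ∑ i, (univ.filter (fun e => F i e ≠ 0)).card = ∑ e, (univ.filter (fun i => F i e ≠ 0)).card := by
  simp only [Finset.card_eq_sum_ones, Finset.sum_filter]
  rw [Finset.sum_comm]

end QCntAux

open QCntAux in
theorem count2 {E : Type*} [Fintype E] {m : ℕ} (F : Fin m → E → ZMod 2)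
    (h2 : ∀ e, (univ.filter (fun i => F i e ≠ 0)).card ≤ 2) {d g : ℕ} (hd : 1 ≤ d)
    (hg : ∀ S : Finset (Fin m), (∃ e, ∑ i ∈ S, F i e ≠ 0) →
      g ≤ (univ.filter (fun e => ∑ i ∈ S, F i e ≠ 0)).card)
    (ψ : (Fin d → ZMod 2) → E → ZMod 2) (hψ : Function.Injective ψ)
    (hspan : ∀ v, ∃ S : Finset (Fin m), ∀ e, ψ v e = ∑ i ∈ S, F i e) :
    (d + 1) * g ≤ 2 * Fintype.card E := by
  classical
  set I : Finset (Fin m) := univ.filter (fun i => ∃ e, F i e ≠ 0) with hI
  have hnI : ∀ i, i ∉ I → ∀ e, F i e = 0 := by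
    intro i hi e
    by_contra h
    exact hi (Finset.mem_filter.mpr ⟨Finset.mem_univ _, e, h⟩)
  have hcap : ∀ (S : Finset (Fin m)) (e : E), ∑ i ∈ S, F i e = ∑ i ∈ S ∩ I, F i e := by
    intro S e
    symm
    refine Finset.sum_subset Finset.inter_subset_left fun i hi hni => ?_
    refine hnI i (fun h => hni (Finset.mem_inter.mpr ⟨hi, h⟩)) e
  have hcapI : ∀ e : E, ∑ i, F i e = ∑ i ∈ I, F i e := by
    intro e
    rw [hcap univ e, Finset.univ_inter]
  have hone : ∀ i ∈ I, g ≤ (univ.filter (fun e => F i e ≠ 0)).card := by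
    intro i hi
    obtain ⟨e, he⟩ := (Finset.mem_filter.mp hi).2
    have := hg {i} ⟨e, by rwa [Finset.sum_singleton]⟩
    simpa only [Finset.sum_singleton] using this
  have hI1 : I.card * g ≤ ∑ i ∈ I, (univ.filter (fun e => F i e ≠ 0)).card := by
    rw [← smul_eq_mul]
    exact Finset.card_nsmul_le_sum _ _ _ hone
  have hI2 : ∑ i ∈ I, (univ.filter (fun e => F i e ≠ 0)).card ≤
      ∑ e, (univ.filter (fun i => F i e ≠ 0)).card := by
    rw [← double F]
    exact Finset.sum_le_sum_of_subset (Finset.subset_univ _)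
  have hE : ∑ _e : E, 2 = 2 * Fintype.card E := by
    rw [Finset.sum_const, Finset.card_univ, smul_eq_mul, mul_comm]
  -- the map to subsets of `I`
  choose S hS using hspan
  let φ : (Fin d → ZMod 2) → Finset (Fin m) := fun v => S v ∩ I
  have hφI : ∀ v, φ v ∈ I.powerset := fun v => Finset.mem_powerset.mpr Finset.inter_subset_right
  have hφψ : ∀ v e, ψ v e = ∑ i ∈ φ v, F i e := fun v e => (hS v e).trans (hcap (S v) e)
  have hφinj : Function.Injective φ := by
    intro v w hvw
    apply hψ
    funext e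
    rw [hφψ v e, hφψ w e, hvw]
  have hcardv : Fintype.card (Fin d → ZMod 2) = 2 ^ d := by
    rw [Fintype.card_fun, ZMod.card, Fintype.card_fin]
  have hle : 2 ^ d ≤ 2 ^ I.card := by
    rw [← Finset.card_powerset, ← hcardv, ← Finset.card_univ]
    exact Finset.card_le_card_of_injOn φ (fun v _ => hφI v) (fun v _ w _ h => hφinj h)
  have hdI : d ≤ I.card := (Nat.pow_le_pow_iff_right (by norm_num)).mp hle
  rcases Nat.lt_or_ge d I.card with hlt | hge
  · calc (d + 1) * g ≤ I.card * g := Nat.mul_le_mul_right _ hlt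
      _ ≤ ∑ e, (univ.filter (fun i => F i e ≠ 0)).card := hI1.trans hI2
      _ ≤ ∑ _e : E, 2 := Finset.sum_le_sum fun e _ => h2 e
      _ = 2 * Fintype.card E := hE
  · have hcI : I.card = d := le_antisymm hge hdI
    -- `φ` is onto the subsets of `I`
    have himg : univ.image φ = I.powerset := by
      apply Finset.eq_of_subset_of_card_le
      · intro T hT
        obtain ⟨v, _, rfl⟩ := Finset.mem_image.mp hT
        exact hφI v
      · rw [Finset.card_image_of_injective _ hφinj, Finset.card_univ, hcardv, Finset.card_powerset, hcI]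
    obtain ⟨v, _, hv⟩ := Finset.mem_image.mp (by rw [himg]; exact Finset.mem_powerset_self I : I ∈ univ.image φ)
    obtain ⟨v0, _, hv0⟩ := Finset.mem_image.mp
      (by rw [himg]; exact Finset.empty_mem_powerset I : (∅ : Finset (Fin m)) ∈ univ.image φ)
    have hne : ∃ e, ∑ i ∈ I, F i e ≠ 0 := by
      by_contra hcon
      push Not at hcon
      have : v = v0 := by
        apply hψ
        funext e
        rw [hφψ v e, hφψ v0 e, hv, hv0, hcon e, Finset.sum_empty]
      rw [this, hv0] at hv
      rw [← hv, Finset.card_empty] at hcI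
      omega
    have h0 := hg I hne
    have hpt : ∀ e, (if ∑ i ∈ I, F i e ≠ 0 then 1 else 0) + (univ.filter (fun i => F i e ≠ 0)).card ≤ 2 := by
      intro e
      have hc := h2 e
      have hs := sum_eq_card F e
      rw [hcapI e] at hs
      split_ifs with h
      · rw [hs] at h
        have : (univ.filter (fun i => F i e ≠ 0)).card ≠ 2 := by
          intro h3
          apply h
          rw [h3]
          decide
        omega
      · omega
    have hsum : (univ.filter (fun e => ∑ i ∈ I, F i e ≠ 0)).card +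
        ∑ e, (univ.filter (fun i => F i e ≠ 0)).card ≤ 2 * Fintype.card E := by
      rw [← hE, Finset.card_eq_sum_ones, Finset.sum_filter, ← Finset.sum_add_distrib]
      exact Finset.sum_le_sum fun e _ => hpt e
    have h3 := hI1.trans hI2
    rw [hcI] at h3
    calc (d + 1) * g = g + d * g := by ring
      _ ≤ (univ.filter (fun e => ∑ i ∈ I, F i e ≠ 0)).card +
          ∑ e, (univ.filter (fun i => F i e ≠ 0)).card := Nat.add_le_add h0 h3
      _ ≤ 2 * Fintype.card E := hsum

end K5
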