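import Pool.Agent.Lib.K5.QMod
import Pool.Agent.Lib.K5.QCnt

/-!
# K5.QK5: `K_5` and `K_{3,3}` do not satisfy MacLane's criterion

PROOF. Apply `count2` with `E = {p : Fin k × Fin k // p.1 < p.2 ∧ H.Adj p.1 p.2}` and `F i e = F i e.1.1 e.1.2`.
`K_5` (`H = ⊤` on `Fin 5`): `|E| = 10`, `g = 3`, `d = 6`: `7 * 3 ≤ 20` is false. `g = 3`: a nonzero cycle mod 2 `z` with `z a b ≠ 0`: by `even` there are `c ≠ b` with `z a c ≠ 0` and `d ≠ a` with `z b d ≠ 0`; the
edges `ab`, `ac`, `bd` are different. `ψ v` for `v : Fin 6 → ZMod 2`: number the pairs `i < j` in `{0, 1, 2, 3}` as `l = 0, ..., 5`; `ψ v = ∑ l, v l * (the triangle on {i_l, j_l, 4})`: value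
`v l` at the edge `i_l j_l`, value `∑ {l : i ∈ {i_l, j_l}} v l` at the edge `i 4`. Injective: look at the edges `i_l j_l`. It is a cycle mod 2, so a sum of members.
`K_{3,3}` (`k33` on `Fin 6`, `a, b` adjacent if exactly one of them is `< 3`): `|E| = 9`, `g = 4`, `d = 4`: `5 * 4 ≤ 18` is false. `g = 4`: with `a, b, c, d` as above `c, d` are in different classes, `z c x ≠ 0` for some
`x ≠ a`; the edges `ab`, `ac`, `bd`, `cx` are different. `ψ v`: the 4-cycles through `0`, `3`, `i ∈ {1, 2}`, `j ∈ {4, 5}`; look at the edges `i j`.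
(If convenient: everything here is a finite statement about functions on a type with 10 or 9 elements, `decide` may help.)
-/

namespace K5

open Finset

/-- `K_{3,3}` on `Fin 6`. -/
def k33 : SimpleGraph (Fin 6) where
  Adj a b := (a.val < 3 ∧ 3 ≤ b.val) ∨ (b.val < 3 ∧ 3 ≤ a.val)
  symm := ⟨fun _ _ h => h.symm⟩
  loopless := ⟨fun a h => by rcases h with h | h <;> omega⟩

namespace QK5Aux

variable {k : ℕ} {H : SimpleGraph (Fin k)} {z : Fin k → Fin k → ZMod 2}

theorem other (hz : CycK H z) {a b : Fin k} (h : z a b ≠ 0) : ∃ c, c ≠ b ∧ z a c ≠ 0 := by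
  by_contra hcon
  push Not at hcon
  have h1 := hz.even a
  rw [Finset.sum_eq_single b (fun c _ hc => hcon c hc) (fun hb => absurd (Finset.mem_univ b) hb)] at h1
  exact h h1

theorem cyc_sum {n : ℕ} {F : Fin n → Fin k → Fin k → ZMod 2} (hF : ∀ i, CycK H (F i))
    (S : Finset (Fin n)) : CycK H (fun a b => ∑ i ∈ S, F i a b) := by
  refine ⟨fun a b => ?_, fun a b h => ?_, fun a => ?_⟩
  · exact Finset.sum_congr rfl fun i _ => (hF i).symm a b
  · obtain ⟨i, _, hi⟩ := Finset.exists_ne_zero_of_sum_ne_zero h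
    exact (hF i).supp a b hi
  · rw [Finset.sum_comm]
    exact Finset.sum_eq_zero fun i _ => (hF i).even a

/-- Counting in a subtype. -/
theorem card_sub {α : Type} [Fintype α] [DecidableEq α] {P : α → Prop} [Fintype {p : α // P p}]
    (Q : α → Prop) [DecidablePred (fun e : {p : α // P p} => Q e.1)] (T : Finset α)
    (hT : ∀ p ∈ T, P p ∧ Q p) :
    T.card ≤ (univ.filter (fun e : {p : α // P p} => Q e.1)).card := by
  refine le_trans (Finset.card_le_card ?_)
    (Finset.card_image_le (s := univ.filter (fun e : {p : α // P p} => Q e.1)) (f := Subtype.val))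
  intro p hp
  obtain ⟨h1, h2⟩ := hT p hp
  exact Finset.mem_image.2 ⟨⟨p, h1⟩, Finset.mem_filter.2 ⟨Finset.mem_univ _, h2⟩, rfl⟩

theorem card6 : ∀ a b c d : Fin 5, a ≠ b → a ≠ c → b ≠ d → c ≠ b → d ≠ a →
    ({(a, b), (b, a), (a, c), (c, a), (b, d), (d, b)} : Finset (Fin 5 × Fin 5)).card = 6 := by
  intro a b c d h1 h2 h3 h4 h5
  have h1' := h1.symm
  have h2' := h2.symm
  have h3' := h3.symm
  have h4' := h4.symm
  have h5' := h5.symm
  rw [Finset.card_insert_of_notMem, Finset.card_insert_of_notMem, Finset.card_insert_of_notMem,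
    Finset.card_insert_of_notMem, Finset.card_insert_of_notMem, Finset.card_singleton]
  all_goals
    simp only [Finset.mem_insert, Finset.mem_singleton, Prod.mk.injEq, not_or, not_and]
    try tauto
  all_goals grind

/-- The matrix of a cycle mod 2 of the complete graph. -/
def m5 (v : Fin 6 → ZMod 2) : Matrix (Fin 5) (Fin 5) (ZMod 2) :=
  !![0, v 0, v 1, v 2, v 0 + v 1 + v 2;
     v 0, 0, v 3, v 4, v 0 + v 3 + v 4;
     v 1, v 3, 0, v 5, v 1 + v 3 + v 5;
     v 2, v 4, v 5, 0, v 2 + v 4 + v 5;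
     v 0 + v 1 + v 2, v 0 + v 3 + v 4, v 1 + v 3 + v 5, v 2 + v 4 + v 5, 0]

theorem m5_cyc (v : Fin 6 → ZMod 2) : CycK (⊤ : SimpleGraph (Fin 5)) (fun a b => m5 v a b) := by
  refine ⟨fun a b => ?_, fun a b h => ?_, fun a => ?_⟩
  · fin_cases a <;> fin_cases b <;> rfl
  · rw [SimpleGraph.top_adj]
    rintro rfl
    apply h
    fin_cases a <;> rfl
  · have k1 : ∀ x y z : ZMod 2, x + y + z + (x + y + z) = 0 := by decide
    have k2 : ∀ a b c d e f : ZMod 2, a + b + c + (a + d + e) + (b + d + f) + (c + e + f) = 0 := by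
      decide
    have e : ∀ a, ∑ b, m5 v a b = m5 v a 0 + m5 v a 1 + m5 v a 2 + m5 v a 3 + m5 v a 4 := fun a =>
      Fin.sum_univ_five _
    show ∑ b, m5 v a b = 0
    rw [e]
    fin_cases a
    · show 0 + v 0 + v 1 + v 2 + (v 0 + v 1 + v 2) = 0
      rw [zero_add]
      exact k1 _ _ _
    · show v 0 + 0 + v 3 + v 4 + (v 0 + v 3 + v 4) = 0
      rw [add_zero]
      exact k1 _ _ _
    · show v 1 + v 3 + 0 + v 5 + (v 1 + v 3 + v 5) = 0
      rw [add_zero]
      exact k1 _ _ _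
    · show v 2 + v 4 + v 5 + 0 + (v 2 + v 4 + v 5) = 0
      rw [add_zero]
      exact k1 _ _ _
    · show v 0 + v 1 + v 2 + (v 0 + v 3 + v 4) + (v 1 + v 3 + v 5) + (v 2 + v 4 + v 5) + 0 = 0
      rw [add_zero]
      exact k2 _ _ _ _ _ _

/-- The matrix of a cycle mod 2 of `K_{3,3}`. -/
def m6 (v : Fin 4 → ZMod 2) : Matrix (Fin 6) (Fin 6) (ZMod 2) :=
  !![0, 0, 0, v 0 + v 1 + (v 2 + v 3), v 0 + v 2, v 1 + v 3;
     0, 0, 0, v 0 + v 1, v 0, v 1;
     0, 0, 0, v 2 + v 3, v 2, v 3;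
     v 0 + v 1 + (v 2 + v 3), v 0 + v 1, v 2 + v 3, 0, 0, 0;
     v 0 + v 2, v 0, v 2, 0, 0, 0;
     v 1 + v 3, v 1, v 3, 0, 0, 0]

theorem m6_cyc (v : Fin 4 → ZMod 2) : CycK k33 (fun a b => m6 v a b) := by
  refine ⟨fun a b => ?_, fun a b h => ?_, fun a => ?_⟩
  · fin_cases a <;> fin_cases b <;> rfl
  · by_contra hcon
    apply h
    have hcon' : ¬ ((a.val < 3 ∧ 3 ≤ b.val) ∨ (b.val < 3 ∧ 3 ≤ a.val)) := hcon
    clear h hcon
    revert hcon'
    fin_cases a <;> fin_cases b <;> intro hcon' <;>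
      first
        | rfl
        | exact absurd (by decide) hcon'
  · have k1 : ∀ x y : ZMod 2, x + y + x + y = 0 := by decide
    have k2 : ∀ a b c d : ZMod 2, a + b + (c + d) + (a + c) + (b + d) = 0 := by decide
    have k3 : ∀ a b c d : ZMod 2, a + b + (c + d) + (a + b) + (c + d) = 0 := by decide
    have e : ∀ a, ∑ b, m6 v a b = m6 v a 0 + m6 v a 1 + m6 v a 2 + m6 v a 3 + m6 v a 4 + m6 v a 5 :=
      fun a => Fin.sum_univ_six _
    show ∑ b, m6 v a b = 0
    rw [e]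
    fin_cases a
    · show 0 + 0 + 0 + (v 0 + v 1 + (v 2 + v 3)) + (v 0 + v 2) + (v 1 + v 3) = 0
      rw [add_zero, add_zero, zero_add]
      exact k2 _ _ _ _
    · show 0 + 0 + 0 + (v 0 + v 1) + v 0 + v 1 = 0
      rw [add_zero, add_zero, zero_add]
      exact k1 _ _
    · show 0 + 0 + 0 + (v 2 + v 3) + v 2 + v 3 = 0
      rw [add_zero, add_zero, zero_add]
      exact k1 _ _
    · show v 0 + v 1 + (v 2 + v 3) + (v 0 + v 1) + (v 2 + v 3) + 0 + 0 + 0 = 0
      rw [add_zero, add_zero, add_zero]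
      exact k3 _ _ _ _
    · show v 0 + v 2 + v 0 + v 2 + 0 + 0 + 0 = 0
      rw [add_zero, add_zero, add_zero]
      exact k1 _ _
    · show v 1 + v 3 + v 1 + v 3 + 0 + 0 + 0 = 0
      rw [add_zero, add_zero, add_zero]
      exact k1 _ _

/-- The ordered pairs of different vertices. -/
abbrev E5 : Type := {p : Fin 5 × Fin 5 // p.1 ≠ p.2}

/-- The ordered pairs of adjacent vertices of `K_{3,3}`. -/
abbrev E6 : Type := {p : Fin 6 × Fin 6 //
  (p.1.val < 3 ∧ 3 ≤ p.2.val) ∨ (p.2.val < 3 ∧ 3 ≤ p.1.val)}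

theorem card_E5 : Fintype.card E5 = 20 := by decide

theorem card_E6 : Fintype.card E6 = 18 := by decide

theorem card8 {a b c d x : Fin 6} (h1 : k33.Adj a b) (h2 : k33.Adj a c) (h3 : k33.Adj b d)
    (h4 : k33.Adj c x) (hcb : c ≠ b) (hda : d ≠ a) (hxa : x ≠ a) :
    ({(a, b), (b, a), (a, c), (c, a), (b, d), (d, b), (c, x), (x, c)} :
      Finset (Fin 6 × Fin 6)).card = 8 := by
  have hcd : c ≠ d := by
    rintro rfl
    have h1' : (a.val < 3 ∧ 3 ≤ b.val) ∨ (b.val < 3 ∧ 3 ≤ a.val) := h1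
    have h2' : (a.val < 3 ∧ 3 ≤ c.val) ∨ (c.val < 3 ∧ 3 ≤ a.val) := h2
    have h3' : (b.val < 3 ∧ 3 ≤ c.val) ∨ (c.val < 3 ∧ 3 ≤ b.val) := h3
    omega
  have hbx : b ≠ x := by
    rintro rfl
    have h1' : (a.val < 3 ∧ 3 ≤ b.val) ∨ (b.val < 3 ∧ 3 ≤ a.val) := h1
    have h2' : (a.val < 3 ∧ 3 ≤ c.val) ∨ (c.val < 3 ∧ 3 ≤ a.val) := h2
    have h4' : (c.val < 3 ∧ 3 ≤ b.val) ∨ (b.val < 3 ∧ 3 ≤ c.val) := h4
    omega
  have n1 := h1.ne
  have n2 := h2.ne
  have n3 := h3.ne
  have n4 := h4.ne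
  have n1' := h1.ne.symm
  have n2' := h2.ne.symm
  have n3' := h3.ne.symm
  have n4' := h4.ne.symm
  have hcb' := hcb.symm
  have hda' := hda.symm
  have hxa' := hxa.symm
  have hcd' := hcd.symm
  have hbx' := hbx.symm
  rw [Finset.card_insert_of_notMem, Finset.card_insert_of_notMem, Finset.card_insert_of_notMem,
    Finset.card_insert_of_notMem, Finset.card_insert_of_notMem, Finset.card_insert_of_notMem,
    Finset.card_insert_of_notMem, Finset.card_singleton]
  all_goals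
    simp only [Finset.mem_insert, Finset.mem_singleton, Prod.mk.injEq, not_or, not_and]
    try tauto
  all_goals grind

end QK5Aux

open QK5Aux in
theorem not_macK_top : ¬ MacK (⊤ : SimpleGraph (Fin 5)) := by
  classical
  rintro ⟨n, F, hF, hF2, hspan⟩
  have h := count2 (E := E5) (d := 6) (g := 6) (fun i e => F i e.1.1 e.1.2)
    (fun e => by
      have := hF2 e.1.1 e.1.2
      convert this)
    (by norm_num)
    (by
      rintro S ⟨e, he⟩
      have hz := cyc_sum hF S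
      have he' : (fun a b => ∑ i ∈ S, F i a b) e.1.1 e.1.2 ≠ 0 := he
      obtain ⟨a, ha⟩ : ∃ a, a = e.1.1 := ⟨_, rfl⟩
      obtain ⟨b, hb⟩ : ∃ b, b = e.1.2 := ⟨_, rfl⟩
      rw [← ha, ← hb] at he'
      obtain ⟨c, hcb, hc⟩ := other hz he'
      have hs : ∀ x y, (fun a b => ∑ i ∈ S, F i a b) x y ≠ 0 →
          ∑ i ∈ S, F i y x ≠ 0 := by
        intro x y hxy
        have := hz.symm y x
        intro h0
        exact hxy (this.symm.trans h0)
      obtain ⟨d, hda, hd⟩ := other hz (hs a b he')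
      have nab : a ≠ b := (hz.supp _ _ he').ne
      have nac : a ≠ c := (hz.supp _ _ hc).ne
      have nbd : b ≠ d := (hz.supp _ _ hd).ne
      rw [← card6 a b c d nab nac nbd hcb hda]
      refine card_sub (P := fun p : Fin 5 × Fin 5 => p.1 ≠ p.2)
        (fun p : Fin 5 × Fin 5 => ∑ i ∈ S, F i p.1 p.2 ≠ 0) _ ?_
      intro p hp
      simp only [Finset.mem_insert, Finset.mem_singleton] at hp
      rcases hp with rfl | rfl | rfl | rfl | rfl | rfl
      · exact ⟨nab, he'⟩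
      · exact ⟨nab.symm, hs a b he'⟩
      · exact ⟨nac, hc⟩
      · exact ⟨nac.symm, hs a c hc⟩
      · exact ⟨nbd, hd⟩
      · exact ⟨nbd.symm, hs b d hd⟩)
    (fun v e => m5 v e.1.1 e.1.2)
    (by
      intro v w hvw
      have g : ∀ a b : Fin 5, a ≠ b → m5 v a b = m5 w a b := fun a b hab =>
        congrFun hvw ⟨(a, b), hab⟩
      funext l
      fin_cases l
      · exact g 0 1 (by decide)
      · exact g 0 2 (by decide)
      · exact g 0 3 (by decide)
      · exact g 1 2 (by decide)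
      · exact g 1 3 (by decide)
      · exact g 2 3 (by decide))
    (fun v => by
      obtain ⟨S, hS⟩ := hspan _ (m5_cyc v)
      exact ⟨S, fun e => hS e.1.1 e.1.2⟩)
  rw [card_E5] at h
  omega

open QK5Aux in
theorem not_macK_k33 : ¬ MacK k33 := by
  classical
  rintro ⟨n, F, hF, hF2, hspan⟩
  have h := count2 (E := E6) (d := 4) (g := 8) (fun i e => F i e.1.1 e.1.2)
    (fun e => by
      have := hF2 e.1.1 e.1.2
      convert this)
    (by norm_num)
    (by
      rintro S ⟨e, he⟩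
      have hz := cyc_sum hF S
      have he' : (fun a b => ∑ i ∈ S, F i a b) e.1.1 e.1.2 ≠ 0 := he
      obtain ⟨a, ha⟩ : ∃ a, a = e.1.1 := ⟨_, rfl⟩
      obtain ⟨b, hb⟩ : ∃ b, b = e.1.2 := ⟨_, rfl⟩
      rw [← ha, ← hb] at he'
      have hs : ∀ x y, (fun a b => ∑ i ∈ S, F i a b) x y ≠ 0 →
          ∑ i ∈ S, F i y x ≠ 0 := by
        intro x y hxy
        have := hz.symm y x
        intro h0
        exact hxy (this.symm.trans h0)
      obtain ⟨c, hcb, hc⟩ := other hz he'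
      obtain ⟨d, hda, hd⟩ := other hz (hs a b he')
      obtain ⟨x, hxa, hx⟩ := other hz (hs a c hc)
      have nab := hz.supp _ _ he'
      have nac := hz.supp _ _ hc
      have nbd := hz.supp _ _ hd
      have ncx := hz.supp _ _ hx
      rw [← card8 nab nac nbd ncx hcb hda hxa]
      refine card_sub (P := fun p : Fin 6 × Fin 6 =>
        (p.1.val < 3 ∧ 3 ≤ p.2.val) ∨ (p.2.val < 3 ∧ 3 ≤ p.1.val))
        (fun p : Fin 6 × Fin 6 => ∑ i ∈ S, F i p.1 p.2 ≠ 0) _ ?_
      intro p hp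
      simp only [Finset.mem_insert, Finset.mem_singleton] at hp
      rcases hp with rfl | rfl | rfl | rfl | rfl | rfl | rfl | rfl
      · exact ⟨nab, he'⟩
      · exact ⟨nab.symm, hs a b he'⟩
      · exact ⟨nac, hc⟩
      · exact ⟨nac.symm, hs a c hc⟩
      · exact ⟨nbd, hd⟩
      · exact ⟨nbd.symm, hs b d hd⟩
      · exact ⟨ncx, hx⟩
      · exact ⟨ncx.symm, hs c x hx⟩)
    (fun v e => m6 v e.1.1 e.1.2)
    (by
      intro v w hvw
      have g : ∀ a b : Fin 6, (hab : (a.val < 3 ∧ 3 ≤ b.val) ∨ (b.val < 3 ∧ 3 ≤ a.val)) →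
          m6 v a b = m6 w a b := fun a b hab => congrFun hvw ⟨(a, b), hab⟩
      funext l
      fin_cases l
      · exact g 1 4 (by decide)
      · exact g 1 5 (by decide)
      · exact g 2 4 (by decide)
      · exact g 2 5 (by decide))
    (fun v => by
      obtain ⟨S, hS⟩ := hspan _ (m6_cyc v)
      exact ⟨S, fun e => hS e.1.1 e.1.2⟩)
  rw [card_E6] at h
  omega

end K5
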