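import Pool.Agent.Lib.K5.DDn
import Pool.Agent.Lib.K5.QK5

/-!
# K5.DV8: the Wagner graph is a rooted graph without codes

`G` is a copy of `V_8` on `W = {0, 1} ∪ U`, `f : ZMod 8 → ℕ` as in `IsV8`; put `V : SimpleGraph (ZMod 8)` with `V.Adj i j ↔ j = i + 1 ∨ i = j + 1 ∨ j = i + 4` (decidable). Connectivity of `G` on `f '' S` is connectivity (cut form) of `V` on `S : Finset (ZMod 8)`; all statements about subsets of `ZMod 8` are finite and decidable (a set of
vertices of `ZMod 8` may be coded by a natural number `< 256` for `decide`).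
1. Three: for all `i j`, `univ \ {i, j}` is connected in `V`; if `u` or `v` is not in `W` the set is larger or equal to one of these (take `i = j` or two equal). By the rotations it is enough to check `i = 0`, or use the cycle: `decide` over all cuts is `2^8` sets for each of `64` pairs; cheaper: removing two vertices from the 8-cycle
leaves at most two arcs (paths), and if both are nonempty some long diagonal joins them: arcs `i+1 .. j-1` and `j+1 .. i-1`, the shorter one has at most 3 vertices, the diagonal of its first vertex ends in the other arc unless it is `i` or `j`; then take another vertex. A statement `∀ i j, connected` for `V` can be proved by `decide` with a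
union-find style function or by giving explicit walks.
2. Free: a model `B` of `K_5` in `G`: all `B i ⊆ W` (every vertex of `B i` has an edge). If `B i = {w}` then `w` has neighbours in four pairwise disjoint sets, but every vertex of `G` has only three neighbours; so `|B i| ≥ 2` for all `i` and `∑ |B i| ≥ 10 > 8 = |W|`, contradiction.
3. `CG G U = ∅` and no code: `G` has no shredder: let `X` be a triple of vertices, three disjoint components in the other 5 vertices: one of the components is a single vertex `a`, whose three neighbours are then in `X`, so `X` is the neighbourhood of `a`. By rotation `a = 0`, `X = {1, 7, 4}`, and the rest `{2, 3, 5, 6}` is connected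
(`2-3`, `5-6`, `2-6`), so there are only two components: contradiction. Hence `CG G U = ∅`, and a code `c` of `G` has no marks (`comp_shr`), so `c.Y = U` (`V_cover`, `sub`), `c.comp {0, 1} = c.H` (every edge is uncovered; the root edge is in `H`), and `Mac G W` by `c.core.mac`. But `G` contains a model of `K_{3,3}`: the sets
`{f 0, f 1}, {f 3}, {f 6}` and `{f 4, f 5}, {f 2}, {f 7}` (`0-4`, `1-2`, `0-7`; `3-4`, `3-2`, `3-7`; `6-5`, `6-2`, `6-7`), so `Mac.model` (K5.QMod) with `H = k33` and `not_macK_k33` (K5.QK5) give a contradiction (`B : Fin 6 → Finset ℕ`, `![{f 0, f 1}, {f 3}, {f 6}, {f 4, f 5}, {f 2}, {f 7}]`).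
-/

namespace K5

open Finset

namespace DV8Aux

/-- Adjacency in `V_8`. -/
def va (i j : ZMod 8) : Prop := j = i + 1 ∨ i = j + 1 ∨ j = i + 4

instance (i j : ZMod 8) : Decidable (va i j) := by
  unfold va
  infer_instance

/-- All edges avoiding `i`, `j` join equal values. -/
def eok (x : List Bool) (i j : ℕ) : Bool :=
  (List.range 8).all fun a => (a == i) || (a == j) ||
    ((((a + 1) % 8 == i) || ((a + 1) % 8 == j) || (x.getD a false == x.getD ((a + 1) % 8) false)) &&
      (((a + 4) % 8 == i) || ((a + 4) % 8 == j) || (x.getD a false == x.getD ((a + 4) % 8) false)))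

/-- All values at the numbers different from `i`, `j` are equal. -/
def cok (x : List Bool) (i j : ℕ) : Bool :=
  (List.range 8).all fun a => (List.range 8).all fun b => (a == i) || (a == j) || (b == i) || (b == j) ||
    (x.getD a false == x.getD b false)

theorem chk : ∀ x0 x1 x2 x3 x4 x5 x6 x7 : Bool, ∀ i ∈ List.range 9, ∀ j ∈ List.range 9,
    eok [x0, x1, x2, x3, x4, x5, x6, x7] i j = true → cok [x0, x1, x2, x3, x4, x5, x6, x7] i j = true := by
  decide +kernel

theorem val_one : ∀ a : ZMod 8, (a + 1).val = (a.val + 1) % 8 := by decide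
theorem val_four : ∀ a : ZMod 8, (a + 4).val = (a.val + 4) % 8 := by decide

theorem getD_eq (χ : ZMod 8 → Bool) (a : ZMod 8) :
    [χ 0, χ 1, χ 2, χ 3, χ 4, χ 5, χ 6, χ 7].getD a.val false = χ a := by
  revert a
  intro (a : Fin 8)
  fin_cases a <;> rfl

/-- `V_8` minus two vertices is connected. -/
theorem const {i j : ℕ} (hi : i < 9) (hj : j < 9) (χ : ZMod 8 → Bool)
    (h : ∀ a b : ZMod 8, a.val ≠ i → a.val ≠ j → b.val ≠ i → b.val ≠ j → va a b → χ a = χ b) (a b : ZMod 8)
    (h1 : a.val ≠ i) (h2 : a.val ≠ j) (h3 : b.val ≠ i) (h4 : b.val ≠ j) : χ a = χ b := by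
  have hc := chk (χ 0) (χ 1) (χ 2) (χ 3) (χ 4) (χ 5) (χ 6) (χ 7) i (List.mem_range.2 hi) j (List.mem_range.2 hj) (by
    unfold eok
    rw [List.all_eq_true]
    intro n hn
    rw [List.mem_range] at hn
    have hv : ((n : ZMod 8)).val = n := ZMod.val_natCast_of_lt hn
    have g0 := getD_eq χ (n : ZMod 8)
    have g1 := getD_eq χ ((n : ZMod 8) + 1)
    have g4 := getD_eq χ ((n : ZMod 8) + 4)
    rw [hv] at g0
    rw [val_one, hv] at g1
    rw [val_four, hv] at g4
    rw [g0, g1, g4]
    by_cases e1 : n = i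
    · simp [e1]
    by_cases e2 : n = j
    · simp [e2]
    have k1 : ((((n + 1) % 8 == i) || ((n + 1) % 8 == j) || (χ (n : ZMod 8) == χ ((n : ZMod 8) + 1)))) = true := by
      by_cases e3 : (n + 1) % 8 = i
      · simp [e3]
      by_cases e4 : (n + 1) % 8 = j
      · simp [e4]
      have := h (n : ZMod 8) ((n : ZMod 8) + 1) (by rw [hv]; exact e1) (by rw [hv]; exact e2)
        (by rw [val_one, hv]; exact e3) (by rw [val_one, hv]; exact e4) (Or.inl rfl)
      rw [← this]
      simp
    have k4 : ((((n + 4) % 8 == i) || ((n + 4) % 8 == j) || (χ (n : ZMod 8) == χ ((n : ZMod 8) + 4)))) = true := by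
      by_cases e3 : (n + 4) % 8 = i
      · simp [e3]
      by_cases e4 : (n + 4) % 8 = j
      · simp [e4]
      have := h (n : ZMod 8) ((n : ZMod 8) + 4) (by rw [hv]; exact e1) (by rw [hv]; exact e2)
        (by rw [val_four, hv]; exact e3) (by rw [val_four, hv]; exact e4) (Or.inr (Or.inr rfl))
      rw [← this]
      simp
    rw [k1, k4]
    simp)
  unfold cok at hc
  rw [List.all_eq_true] at hc
  have h5 := hc a.val (List.mem_range.2 (ZMod.val_lt a))
  rw [List.all_eq_true] at h5
  have h6 := h5 b.val (List.mem_range.2 (ZMod.val_lt b))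
  rw [getD_eq, getD_eq] at h6
  simp only [Bool.or_eq_true, beq_iff_eq] at h6
  rcases h6 with (((h6 | h6) | h6) | h6) | h6
  · exact absurd h6 h1
  · exact absurd h6 h2
  · exact absurd h6 h3
  · exact absurd h6 h4
  · exact h6

variable {f : ZMod 8 → ℕ} {G : Gr}

/-- Connectivity of an image. -/
theorem conn_image (hadj : ∀ a b, va a b → G.Adj (f a) (f b)) (S : Finset (ZMod 8)) (hne : S.Nonempty)
    (h : ∀ χ : ZMod 8 → Bool, (∀ a ∈ S, ∀ b ∈ S, va a b → χ a = χ b) → ∀ a ∈ S, ∀ b ∈ S, χ a = χ b) :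
    P512.Conn G (S.image f) := by
  classical
  refine ⟨hne.image f, fun P hP hPne hPS => ?_⟩
  by_contra hcon
  push Not at hcon
  have hva : ∀ a b : ZMod 8, va a b → va b a := by decide
  have h1 := h (fun a => decide (f a ∈ P)) (by
    intro a ha b hb hab
    have key : ∀ a ∈ S, ∀ b ∈ S, va a b → f a ∈ P → f b ∈ P := by
      intro a ha b hb hab haP
      by_contra hbP
      exact hcon (f a) haP (f b) (Finset.mem_image_of_mem f hb) hbP (hadj a b hab)
    rw [Bool.eq_iff_iff, decide_eq_true_iff, decide_eq_true_iff]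
    exact ⟨key a ha b hb hab, key b hb a ha (hva a b hab)⟩)
  obtain ⟨x, hx⟩ := hPne
  obtain ⟨a, ha, rfl⟩ := Finset.mem_image.1 (hP hx)
  apply hPS
  apply Finset.Subset.antisymm hP
  intro y hy
  obtain ⟨b, hb, rfl⟩ := Finset.mem_image.1 hy
  have h2 := h1 a ha b hb
  rw [Bool.eq_iff_iff, decide_eq_true_iff, decide_eq_true_iff] at h2
  exact h2.1 hx

/-- The vertex `u` as a number. -/
theorem num (hf : Function.Injective f) (u : ℕ) : ∃ i < 9, ∀ a : ZMod 8, f a = u ↔ a.val = i := by
  by_cases h : ∃ a, f a = u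
  · obtain ⟨a0, rfl⟩ := h
    refine ⟨a0.val, lt_trans (ZMod.val_lt a0) (by norm_num), fun a => ?_⟩
    rw [hf.eq_iff]
    exact ⟨fun h => by rw [h], fun h => ZMod.val_injective 8 h⟩
  · refine ⟨8, by norm_num, fun a => ?_⟩
    constructor
    · intro h1
      exact absurd ⟨a, h1⟩ h
    · intro h1
      have := ZMod.val_lt a
      omega

theorem three (hf : Function.Injective f) (hadj : ∀ a b, va a b → G.Adj (f a) (f b)) :
    Three G (univ.image f) := by
  classical
  refine ⟨?_, fun u v => ?_⟩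
  · rw [Finset.card_image_of_injective _ hf, Finset.card_univ, ZMod.card]
    norm_num
  · obtain ⟨i, hi, hiu⟩ := num hf u
    obtain ⟨j, hj, hjv⟩ := num hf v
    have e1 : ((univ.image f).erase u).erase v =
        (univ.filter (fun a : ZMod 8 => a.val ≠ i ∧ a.val ≠ j)).image f := by
      ext x
      simp only [Finset.mem_erase, Finset.mem_image, Finset.mem_univ, true_and, Finset.mem_filter]
      constructor
      · rintro ⟨h1, h2, a, rfl⟩
        exact ⟨a, ⟨fun h3 => h2 ((hiu a).2 h3), fun h3 => h1 ((hjv a).2 h3)⟩, rfl⟩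
      · rintro ⟨a, ⟨h1, h2⟩, rfl⟩
        exact ⟨fun h3 => h2 ((hjv a).1 h3), fun h3 => h1 ((hiu a).1 h3), a, rfl⟩
    rw [e1]
    apply conn_image hadj
    · by_contra hcon
      rw [Finset.not_nonempty_iff_eq_empty, Finset.filter_eq_empty_iff] at hcon
      have h0 := hcon (x := (0 : ZMod 8)) (Finset.mem_univ _)
      have h1 := hcon (x := (1 : ZMod 8)) (Finset.mem_univ _)
      have h2 := hcon (x := (2 : ZMod 8)) (Finset.mem_univ _)
      have v0 : (0 : ZMod 8).val = 0 := rfl
      have v1 : (1 : ZMod 8).val = 1 := rfl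
      have v2 : (2 : ZMod 8).val = 2 := rfl
      rw [v0] at h0
      rw [v1] at h1
      rw [v2] at h2
      omega
    · intro χ hχ a ha b hb
      have ha' := (Finset.mem_filter.1 ha).2
      have hb' := (Finset.mem_filter.1 hb).2
      apply const hi hj χ _ a b ha'.1 ha'.2 hb'.1 hb'.2
      intro a b g1 g2 g3 g4 hab
      exact hχ a (Finset.mem_filter.2 ⟨Finset.mem_univ _, g1, g2⟩) b
        (Finset.mem_filter.2 ⟨Finset.mem_univ _, g3, g4⟩) hab

theorem three_nb : ∀ a : ZMod 8, (univ.filter (fun b => va a b)).card = 3 := by decide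

theorem free (hf : Function.Injective f) (hadj : ∀ a b, G.Adj a b → ∃ i j, a = f i ∧ b = f j ∧ va i j) : Free G := by
  classical
  intro h5
  have hon : On G (univ.image f) := by
    intro u v huv
    obtain ⟨i, j, rfl, -⟩ := hadj u v huv
    exact Finset.mem_image_of_mem f (Finset.mem_univ i)
  obtain ⟨B, hB, hs⟩ := k5in_of_k5 hon h5
  have h1 : (univ.biUnion B).card = ∑ i, (B i).card :=
    Finset.card_biUnion fun i _ j _ hij => hB.2.1 i j hij
  have h2 : (univ.biUnion B).card ≤ 8 := by
    have h3 : univ.biUnion B ⊆ univ.image f := by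
      intro a ha
      obtain ⟨i, -, hi⟩ := Finset.mem_biUnion.1 ha
      exact hs i hi
    have h4 := Finset.card_le_card h3
    rw [Finset.card_image_of_injective _ hf, Finset.card_univ, ZMod.card] at h4
    exact h4
  have h3 : ∀ i, 2 ≤ (B i).card := by
    intro i
    by_contra hlt
    have h4 : 0 < (B i).card := Finset.card_pos.2 (hB.1 i).1
    obtain ⟨w, hw⟩ := Finset.card_eq_one.1 (by omega : (B i).card = 1)
    obtain ⟨a, -, haw⟩ := Finset.mem_image.1 (hs i (by rw [hw]; exact Finset.mem_singleton_self w))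
    have h6 : ∀ j, j ≠ i → ∃ b : ZMod 8, va a b ∧ f b ∈ B j := by
      intro j hj
      obtain ⟨u, hu, v, hv, huv⟩ := hB.2.2 i j (Ne.symm hj)
      rw [hw, Finset.mem_singleton] at hu
      obtain ⟨p, q, hp, hq, hpq⟩ := hadj u v huv
      have h7 : p = a := hf (by rw [← hp, hu, haw])
      rw [h7] at hpq
      exact ⟨q, hpq, by rw [← hq]; exact hv⟩
    choose! g hg1 hg2 using h6
    have h7 : (univ.erase i).card ≤ (univ.filter (fun b => va a b)).card := by
      apply Finset.card_le_card_of_injOn g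
      · intro j hj
        have hj' := Finset.ne_of_mem_erase hj
        exact Finset.mem_coe.2 (Finset.mem_filter.2 ⟨Finset.mem_univ _, hg1 j hj'⟩)
      · intro j hj k hk hjk
        by_contra hne
        have hj' := Finset.ne_of_mem_erase hj
        have hk' := Finset.ne_of_mem_erase hk
        have h8 := hg2 j hj'
        have h9 := hg2 k hk'
        rw [← hjk] at h9
        exact Finset.disjoint_left.1 (hB.2.1 j k hne) h8 h9
    rw [Finset.card_erase_of_mem (Finset.mem_univ i), Finset.card_univ, Fintype.card_fin, three_nb] at h7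
    omega
  have h4 : ∑ _i : Fin 5, 2 ≤ ∑ i, (B i).card := Finset.sum_le_sum fun i _ => h3 i
  simp only [Finset.sum_const, Finset.card_univ, Fintype.card_fin, smul_eq_mul] at h4
  omega

/-- The vertices off a vertex and its neighbours. -/
theorem rest : ∀ a b : ZMod 8, b = a ∨ b = a + 1 ∨ b = a - 1 ∨ b = a + 4 ∨ b = a + 2 ∨ b = a + 3 ∨ b = a + 5 ∨
    b = a + 6 := by decide

theorem va1 : ∀ a : ZMod 8, va a (a + 1) ∧ va a (a - 1) ∧ va a (a + 4) ∧ va (a + 3) (a + 2) ∧ va (a + 6) (a + 2) ∧
    va (a + 5) (a + 6) := by decide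

theorem ne1 : ∀ a : ZMod 8, a + 2 ≠ a + 1 ∧ a + 2 ≠ a - 1 ∧ a + 2 ≠ a + 4 ∧ a + 6 ≠ a + 1 ∧ a + 6 ≠ a - 1 ∧
    a + 6 ≠ a + 4 ∧ a + 1 ≠ a - 1 ∧ a + 1 ≠ a + 4 ∧ a - 1 ≠ a + 4 ∧ a + 1 ≠ a ∧ a - 1 ≠ a ∧ a + 4 ≠ a := by decide

theorem no_single (hf : Function.Injective f) (hadj : ∀ a b, va a b → G.Adj (f a) (f b)) {X C C' C'' : Finset ℕ}
    (hX : X.card = 3) (hXW : X ⊆ univ.image f)
    (hC : IsComp G (univ.image f \ X) C) (hC' : IsComp G (univ.image f \ X) C')
    (hC'' : IsComp G (univ.image f \ X) C'') (h1 : Disjoint C C') (h2 : Disjoint C C'') (h3 : Disjoint C' C'')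
    (hc : C.card = 1) : False := by
  classical
  obtain ⟨w, hw⟩ := Finset.card_eq_one.1 hc
  have hwm := Finset.mem_sdiff.1 (hC.1 (by rw [hw]; exact Finset.mem_singleton_self w))
  obtain ⟨a, -, rfl⟩ := Finset.mem_image.1 hwm.1
  have hW : ∀ b, f b ∈ univ.image f := fun b => Finset.mem_image_of_mem f (Finset.mem_univ b)
  obtain ⟨n1, n2, n3, n4, n5, n6, n7, n8, n9, n10, n11, n12⟩ := ne1 a
  obtain ⟨v1, v2, v3, v4, v5, v6⟩ := va1 a
  -- the neighbours are in `X`
  have hnb : ∀ b, va a b → b ≠ a → f b ∈ X := by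
    intro b hab hba
    by_contra hbX
    apply hC.2.2 (f a) (by rw [hw]; exact Finset.mem_singleton_self _) (f b) (Finset.mem_sdiff.2 ⟨hW b, hbX⟩) _
      (hadj a b hab)
    rw [hw, Finset.mem_singleton]
    exact fun h => hba (hf h)
  have hXe : X = {f (a + 1), f (a - 1), f (a + 4)} := by
    symm
    apply Finset.eq_of_subset_of_card_le
    · intro x hx
      simp only [Finset.mem_insert, Finset.mem_singleton] at hx
      rcases hx with rfl | rfl | rfl
      · exact hnb _ v1 n10
      · exact hnb _ v2 n11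
      · exact hnb _ v3 n12
    · rw [hX, Finset.card_insert_of_notMem, Finset.card_pair]
      · exact fun h => n9 (hf h)
      · simp only [Finset.mem_insert, Finset.mem_singleton, not_or]
        exact ⟨fun h => n7 (hf h), fun h => n8 (hf h)⟩
  have hnX : ∀ b, b ≠ a + 1 → b ≠ a - 1 → b ≠ a + 4 → f b ∈ univ.image f \ X := by
    intro b g1 g2 g3
    refine Finset.mem_sdiff.2 ⟨hW b, ?_⟩
    rw [hXe]
    simp only [Finset.mem_insert, Finset.mem_singleton, not_or]
    exact ⟨fun h => g1 (hf h), fun h => g2 (hf h), fun h => g3 (hf h)⟩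
  have key : ∀ D, IsComp G (univ.image f \ X) D → Disjoint C D → f (a + 2) ∈ D := by
    intro D hD hdis
    have step : ∀ b c, va b c → f b ∈ D → f c ∈ univ.image f \ X → f c ∈ D := by
      intro b c hbc hb hcm
      by_contra hcD
      exact hD.2.2 (f b) hb (f c) hcm hcD (hadj b c hbc)
    obtain ⟨x, hx⟩ := hD.2.1.1
    obtain ⟨b, -, rfl⟩ := Finset.mem_image.1 (Finset.mem_sdiff.1 (hD.1 hx)).1
    have hbX := (Finset.mem_sdiff.1 (hD.1 hx)).2
    rw [hXe] at hbX
    simp only [Finset.mem_insert, Finset.mem_singleton, not_or] at hbX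
    rcases rest a b with h | h | h | h | h | h | h | h
    · exfalso
      rw [h] at hx
      exact Finset.disjoint_left.1 hdis (by rw [hw]; exact Finset.mem_singleton_self _) hx
    · exact absurd (by rw [h]) hbX.1
    · exact absurd (by rw [h]) hbX.2.1
    · exact absurd (by rw [h]) hbX.2.2
    · rw [h] at hx
      exact hx
    · rw [h] at hx
      exact step _ _ v4 hx (hnX _ n1 n2 n3)
    · rw [h] at hx
      exact step _ _ v5 (step _ _ v6 hx (hnX _ n4 n5 n6)) (hnX _ n1 n2 n3)
    · rw [h] at hx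
      exact step _ _ v5 hx (hnX _ n1 n2 n3)
  exact Finset.disjoint_left.1 h3 (key C' hC' h1) (key C'' hC'' h2)

theorem no_shr (hf : Function.Injective f) (hadj : ∀ a b, va a b → G.Adj (f a) (f b)) (X : Finset ℕ) :
    ¬ Shr G (univ.image f) X := by
  classical
  rintro ⟨hXW, hX, C1, C2, C3, hC1, hC2, hC3, h12, h13, h23⟩
  have hcard : (univ.image f \ X).card = 5 := by
    rw [Finset.card_sdiff_of_subset hXW, hX, Finset.card_image_of_injective _ hf, Finset.card_univ, ZMod.card]
  have h1 : (C1 ∪ C2 ∪ C3).card ≤ 5 := by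
    rw [← hcard]
    exact Finset.card_le_card (Finset.union_subset (Finset.union_subset hC1.1 hC2.1) hC3.1)
  rw [Finset.card_union_of_disjoint (Finset.disjoint_union_left.2 ⟨h13, h23⟩), Finset.card_union_of_disjoint h12] at h1
  have p1 := Finset.card_pos.2 hC1.2.1.1
  have p2 := Finset.card_pos.2 hC2.2.1.1
  have p3 := Finset.card_pos.2 hC3.2.1.1
  have hc : C1.card = 1 ∨ C2.card = 1 ∨ C3.card = 1 := by omega
  rcases hc with hc | hc | hc
  · exact no_single hf hadj hX hXW hC1 hC2 hC3 h12 h13 h23 hc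
  · exact no_single hf hadj hX hXW hC2 hC1 hC3 h12.symm h23 h13 hc
  · exact no_single hf hadj hX hXW hC3 hC1 hC2 h13.symm h23.symm h12 hc

/-- The branch sets of the `K_{3,3}` minor. -/
def bs : Fin 6 → Finset (ZMod 8) := ![{0, 1}, {3}, {6}, {4, 5}, {2}, {7}]

theorem bs_ne : ∀ i, (bs i).Nonempty := by decide
theorem bs_dj : ∀ i j, i ≠ j → Disjoint (bs i) (bs j) := by decide
theorem bs_cn : ∀ i, ∀ a ∈ bs i, ∀ b ∈ bs i, a = b ∨ va a b := by decide
theorem bs_adj : ∀ i j : Fin 6, ((i.val < 3 ∧ 3 ≤ j.val) ∨ (j.val < 3 ∧ 3 ≤ i.val)) →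
    ∃ a ∈ bs i, ∃ b ∈ bs j, va a b := by decide

theorem not_mac (hf : Function.Injective f) (hadj : ∀ a b, va a b → G.Adj (f a) (f b)) :
    ¬ Mac G (univ.image f) := by
  classical
  intro hM
  refine not_macK_k33 (hM.model k33 (fun i => (bs i).image f) ?_ ?_ ?_ ?_)
  · intro i
    apply conn_image hadj _ (bs_ne i)
    intro χ hχ a ha b hb
    rcases bs_cn i a ha b hb with h | h
    · rw [h]
    · exact hχ a ha b hb h
  · intro i
    exact Finset.image_subset_image (Finset.subset_univ _)
  · intro i j hij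
    exact (Finset.disjoint_image hf).2 (bs_dj i j hij)
  · intro i j hij
    obtain ⟨a, ha, b, hb, hab⟩ := bs_adj i j hij
    exact ⟨f a, Finset.mem_image_of_mem f ha, f b, Finset.mem_image_of_mem f hb, hadj a b hab⟩

end DV8Aux

open DV8Aux

theorem v8_rtd {U : Finset ℕ} {G : Gr} (hd : Disjoint {0, 1} U) (h : IsV8 G ({0, 1} ∪ U))
    (h1 : clq {0, 1} ≤ G) : Rtd {0, 1} U G := by
  obtain ⟨f, hf, hW, hadj⟩ := h
  have h2 : ∀ a b, va a b → G.Adj (f a) (f b) := fun a b hab => (hadj _ _).2 ⟨a, b, rfl, rfl, hab⟩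
  have h3 : ∀ a b, G.Adj a b → ∃ i j, a = f i ∧ b = f j ∧ va i j := fun a b hab => (hadj a b).1 hab
  refine ⟨hd, ?_, h1, ?_, free hf h3, Or.inl (by decide)⟩
  · intro u v huv
    rw [hW]
    obtain ⟨i, j, rfl, -⟩ := h3 u v huv
    exact Finset.mem_image_of_mem f (Finset.mem_univ i)
  · rw [hW]
    exact three hf h2

theorem v8_cg {U : Finset ℕ} {G : Gr} (hd : Disjoint {0, 1} U) (h : IsV8 G ({0, 1} ∪ U)) :
    CG G U = ∅ := by
  classical
  obtain ⟨f, hf, hW, hadj⟩ := h
  have h2 : ∀ a b, va a b → G.Adj (f a) (f b) := fun a b hab => (hadj _ _).2 ⟨a, b, rfl, rfl, hab⟩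
  unfold CG
  rw [Finset.filter_eq_empty_iff]
  intro v _ hv
  rw [hW] at hv
  exact no_shr hf h2 _ hv

theorem v8_codes {U : Finset ℕ} {G : Gr} (hd : Disjoint {0, 1} U) (h : IsV8 G ({0, 1} ∪ U)) :
    codes G U = ∅ := by
  classical
  obtain ⟨f, hf, hW, hadj⟩ := h
  have h2 : ∀ a b, va a b → G.Adj (f a) (f b) := fun a b hab => (hadj _ _).2 ⟨a, b, rfl, rfl, hab⟩
  rw [Set.eq_empty_iff_forall_notMem]
  rintro c ⟨hc, hG⟩
  have hM : ∀ X, X ∉ c.M := by
    intro X hX
    have h3 := hc.comp_shr hX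
    rw [hG, hW] at h3
    exact no_shr hf h2 X h3
  have hY : c.Y = U := by
    apply Finset.Subset.antisymm hc.sub
    intro w hw
    by_contra hwY
    obtain ⟨X, hX, -⟩ := hc.V_cover w (Finset.mem_sdiff.2 ⟨hw, hwY⟩)
    exact hM X hX
  have hcov : ∀ e, ¬ Cov c.M e := by
    rintro e ⟨X, hX, -⟩
    exact hM X hX
  have hH : c.H = G := by
    rw [← hG]
    ext a b
    constructor
    · intro hab
      exact ⟨hab.ne, Or.inr (Or.inl ⟨hab, hcov _⟩)⟩
    · rintro ⟨hne, hab | hab | hab | ⟨X, hX⟩⟩
      · exact hc.core.rtd.clique ⟨hne, hab.1, hab.2⟩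
      · exact hab.1
      · exact absurd (hc.F_sub _ hab).2.1 (hcov _)
      · rw [hc.T_out X (hM X)] at hX
        exact absurd hX (by simp)
  have h3 := hc.core.mac
  rw [hH, hY, hW] at h3
  exact not_mac hf h2 h3

end K5
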