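import Pool.Agent.Lib.K5.DNum
import Pool.Agent.Lib.K5.DLow
import Pool.Agent.Lib.K5.DV8
import Pool.Agent.Lib.K5.DK33

/-!
# K5.DTot: the sum over all codes with root edge

1. `codes_num`: for `G` with `Rtd {0, 1} U G`: `codes G U` is finite and `ncard + (if IsV8 then 1 else 0) = 1 + (if IsK33 then 1 else 0) + ∑ v ∈ CG G U, (kk G U v - 1)`. If `CG G U` is nonempty, `G` is neither a `V_8` nor a `K_{3,3}` (`v8_cg`, `k33_cg`; `clq {0, 1} ≤ G` by `Rtd.clique`): `codes_card`. If `CG G U = ∅`: `V_8`: no code (`v8_codes`), and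
not a `K_{3,3}` (8 vertices against 6: `W.card`); `K_{3,3}`: `k33_codes`; otherwise `codes_single`.
2. `csC_fib`: `csC (QA {0, 1}) z {0, 1} U = ∑' G : {G // Rtd {0, 1} U G}, (codes G U).ncard * z ^ ecard {0, 1} G`: a code in `CD (QA {0, 1}) {0, 1} U` is a valid code (the condition `QA` on the marks is part of `Valid.mark`), its graph is rooted (`Code3.Valid.rtd`); `CD … ≃ Σ G : {G // Rtd {0, 1} U G}, codes G U`; `ENNReal.tsum_sigma`; the
inner sum of the constant `z ^ ecard {0, 1} G` over the finite set `codes G U` is `ncard` times it (`tsum_fintype`, `Finset.sum_const`, `Set.ncard_eq_toFinset_card'`/`Nat.card_coe_set_eq`).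
3. `csC_total`: add up: `v8w z U = ∑' G : {G // Rtd {0, 1} U G}, if IsV8 G ({0, 1} ∪ U) then z ^ ecard else 0` because every copy with the root edge is rooted (`v8_rtd`); the same for `k33w` (`k33_rtd`); `∑ v ∈ U, shw z U v = ∑' G : {G // Rtd {0, 1} U G}, ∑ v ∈ CG G U, (kk G U v - 1) * z ^ ecard` (each `shw z U v` is the sum over all rooted `G` of the
term times the indicator of `v ∈ CG G U`; `CG G U ⊆ U`; `ENNReal.tsum_comm` or `tsum` of finite sums). A clean way: express all five terms as sums over `{G // Rtd {0, 1} U G}` (`tsum_subtype` + an equivalence of subtypes), then `ENNReal.tsum_add` and compare term by term using 1 (multiply by `z ^ ecard`).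
-/

namespace K5

open Finset
open scoped ENNReal

namespace DTotAux

theorem v8_not_k33 {G : Gr} {W : Finset ℕ} (h : IsV8 G W) (h' : IsK33 G W) : False := by
  obtain ⟨f, hf, hW, -⟩ := h
  obtain ⟨A, B, hAB, hd, hA, hB, -⟩ := h'
  have h1 : W.card = 8 := by
    rw [hW, Finset.card_image_of_injective _ hf, Finset.card_univ, ZMod.card]
  have h2 : W.card = 6 := by
    rw [hAB, Finset.card_union_of_disjoint hd, hA, hB]
  omega

theorem tsum_sub {α : Type*} (p : α → Prop) [DecidablePred p] (f : α → ℝ≥0∞) :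
    ∑' x : {x : α // p x}, f x.1 = ∑' x : α, if p x then f x else 0 := by
  have h := _root_.tsum_subtype {x : α | p x} f
  refine h.trans (tsum_congr (fun x => ?_))
  by_cases hx : p x
  · rw [if_pos hx, Set.indicator_of_mem (by exact hx)]
  · rw [if_neg hx, Set.indicator_of_notMem (by exact hx)]

theorem tsum_const_set {α : Type*} {S : Set α} (hS : S.Finite) (a : ℝ≥0∞) :
    ∑' _ : S, a = (S.ncard : ℝ≥0∞) * a := by
  have := hS.fintype
  rw [tsum_fintype, Finset.sum_const, nsmul_eq_mul, Finset.card_univ, ← Nat.card_eq_fintype_card,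
    Nat.card_coe_set_eq]

/-- All codes, by their graphs. -/
def fibE (U : Finset ℕ) : (Σ G : {G : Gr // Rtd {0, 1} U G}, codes G.1 U) ≃
    CD (QA {0, 1}) {0, 1} U where
  toFun p := ⟨p.2.1, p.2.2.1, fun X hX => (p.2.2.1.mark X hX).2⟩
  invFun c := ⟨⟨c.1.comp {0, 1}, c.2.1.rtd⟩, ⟨c.1, c.2.1, rfl⟩⟩
  left_inv := by
    rintro ⟨⟨G, hG⟩, ⟨c, hc⟩⟩
    obtain rfl : G = c.comp {0, 1} := hc.2.symm
    rfl
  right_inv := fun _ => rfl

end DTotAux

open DTotAux

open Classical in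
theorem codes_num (hw : Wag) {U : Finset ℕ} {G : Gr} (h : Rtd {0, 1} U G) :
    (codes G U).Finite ∧ (codes G U).ncard + (if IsV8 G ({0, 1} ∪ U) then 1 else 0) =
      1 + (if IsK33 G ({0, 1} ∪ U) then 1 else 0) + ∑ v ∈ CG G U, (kk G U v - 1) := by
  have hd := h.disj
  by_cases h8 : IsV8 G ({0, 1} ∪ U)
  · have h33 : ¬ IsK33 G ({0, 1} ∪ U) := fun h33 => v8_not_k33 h8 h33
    rw [if_pos h8, if_neg h33, v8_cg hd h8, v8_codes hd h8]
    refine ⟨Set.finite_empty, ?_⟩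
    rw [Set.ncard_empty, Finset.sum_empty]
    rfl
  · by_cases h33 : IsK33 G ({0, 1} ∪ U)
    · obtain ⟨h1, h2⟩ := k33_codes hd h33 h.clique
      rw [if_neg h8, if_pos h33, k33_cg hd h33 h.clique, h2]
      exact ⟨h1, rfl⟩
    · rw [if_neg h8, if_neg h33]
      by_cases hC : CG G U = ∅
      · obtain ⟨c, hc⟩ := codes_single hw h hC h8 h33
        rw [hc, hC]
        exact ⟨Set.finite_singleton c, by rw [Set.ncard_singleton, Finset.sum_empty]⟩
      · obtain ⟨h1, h2⟩ := codes_card hw h (Finset.nonempty_iff_ne_empty.mpr hC)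
        exact ⟨h1, by rw [h2]; rfl⟩

theorem csC_fib (hw : Wag) (z : ℝ≥0∞) {U : Finset ℕ} (hd : Disjoint {0, 1} U) :
    csC (QA {0, 1}) z {0, 1} U =
      ∑' G : {G : Gr // Rtd {0, 1} U G}, ((codes G.1 U).ncard : ℝ≥0∞) * z ^ ecard {0, 1} G.1 := by
  unfold csC
  rw [← Equiv.tsum_eq (fibE U), ENNReal.tsum_sigma']
  refine tsum_congr fun G => ?_
  rw [← tsum_const_set (codes_num hw G.2).1]
  refine tsum_congr fun c => ?_
  have h1 : ((fibE U) ⟨G, c⟩).1.comp {0, 1} = G.1 := c.2.2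
  rw [h1]

theorem csC_total (hw : Wag) (z : ℝ≥0∞) {U : Finset ℕ} (hd : Disjoint {0, 1} U) :
    csC (QA {0, 1}) z {0, 1} U + v8w z U =
      gw z {0, 1} U + k33w z U + ∑ v ∈ U, shw z U v := by
  classical
  have e1 : csC (QA {0, 1}) z {0, 1} U = ∑' G : Gr, if Rtd {0, 1} U G then
      ((codes G U).ncard : ℝ≥0∞) * z ^ ecard {0, 1} G else 0 := by
    rw [csC_fib hw z hd]
    exact tsum_sub (fun G => Rtd {0, 1} U G)
      (fun G => ((codes G U).ncard : ℝ≥0∞) * z ^ ecard {0, 1} G)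
  have e2 : v8w z U = ∑' G : Gr, if IsV8 G ({0, 1} ∪ U) ∧ clq {0, 1} ≤ G then
      z ^ ecard {0, 1} G else 0 :=
    tsum_sub (fun G => IsV8 G ({0, 1} ∪ U) ∧ clq {0, 1} ≤ G) (fun G => z ^ ecard {0, 1} G)
  have e3 : gw z {0, 1} U = ∑' G : Gr, if Rtd {0, 1} U G then z ^ ecard {0, 1} G else 0 :=
    tsum_sub (fun G => Rtd {0, 1} U G) (fun G => z ^ ecard {0, 1} G)
  have e4 : k33w z U = ∑' G : Gr, if IsK33 G ({0, 1} ∪ U) ∧ clq {0, 1} ≤ G then
      z ^ ecard {0, 1} G else 0 :=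
    tsum_sub (fun G => IsK33 G ({0, 1} ∪ U) ∧ clq {0, 1} ≤ G) (fun G => z ^ ecard {0, 1} G)
  have e5 : ∑ v ∈ U, shw z U v = ∑' G : Gr, ∑ v ∈ U, if Rtd {0, 1} U G ∧ v ∈ CG G U then
      ((kk G U v - 1 : ℕ) : ℝ≥0∞) * z ^ ecard {0, 1} G else 0 := by
    rw [Summable.tsum_finsetSum (fun _ _ => ENNReal.summable)]
    refine Finset.sum_congr rfl fun v _ => ?_
    exact tsum_sub (fun G => Rtd {0, 1} U G ∧ v ∈ CG G U)
      (fun G => ((kk G U v - 1 : ℕ) : ℝ≥0∞) * z ^ ecard {0, 1} G)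
  rw [e1, e2, e3, e4, e5, ← ENNReal.tsum_add, ← ENNReal.tsum_add, ← ENNReal.tsum_add]
  refine tsum_congr fun G => ?_
  by_cases hG : Rtd {0, 1} U G
  · have hcl := hG.clique
    have hsum : (∑ v ∈ U, if Rtd {0, 1} U G ∧ v ∈ CG G U then
        ((kk G U v - 1 : ℕ) : ℝ≥0∞) * z ^ ecard {0, 1} G else 0) =
        ((∑ v ∈ CG G U, (kk G U v - 1) : ℕ) : ℝ≥0∞) * z ^ ecard {0, 1} G := by
      have hsub : CG G U ⊆ U := Finset.filter_subset _ _
      rw [Nat.cast_sum, Finset.sum_mul, ← Finset.sum_subset hsub]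
      · refine Finset.sum_congr rfl fun v hv => ?_
        rw [if_pos ⟨hG, hv⟩]
      · intro v _ hv
        rw [if_neg (fun hh => hv hh.2)]
    have hnum := congrArg (fun n : ℕ => (n : ℝ≥0∞) * z ^ ecard {0, 1} G) (codes_num hw hG).2
    simp only [Nat.cast_add, add_mul] at hnum
    rw [hsum, if_pos hG, if_pos hG]
    have a1 : (((if IsV8 G ({0, 1} ∪ U) then 1 else 0 : ℕ)) : ℝ≥0∞) * z ^ ecard {0, 1} G =
        if IsV8 G ({0, 1} ∪ U) ∧ clq {0, 1} ≤ G then z ^ ecard {0, 1} G else 0 := by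
      by_cases h8 : IsV8 G ({0, 1} ∪ U)
      · rw [if_pos h8, if_pos ⟨h8, hcl⟩, Nat.cast_one, one_mul]
      · rw [if_neg h8, if_neg (fun hh => h8 hh.1), Nat.cast_zero, zero_mul]
    have a2 : (((if IsK33 G ({0, 1} ∪ U) then 1 else 0 : ℕ)) : ℝ≥0∞) * z ^ ecard {0, 1} G =
        if IsK33 G ({0, 1} ∪ U) ∧ clq {0, 1} ≤ G then z ^ ecard {0, 1} G else 0 := by
      by_cases h8 : IsK33 G ({0, 1} ∪ U)
      · rw [if_pos h8, if_pos ⟨h8, hcl⟩, Nat.cast_one, one_mul]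
      · rw [if_neg h8, if_neg (fun hh => h8 hh.1), Nat.cast_zero, zero_mul]
    rw [a1, a2, Nat.cast_one, one_mul] at hnum
    exact hnum
  · have h8 : ¬ (IsV8 G ({0, 1} ∪ U) ∧ clq {0, 1} ≤ G) := fun hh => hG (v8_rtd hd hh.1 hh.2)
    have h33 : ¬ (IsK33 G ({0, 1} ∪ U) ∧ clq {0, 1} ≤ G) := fun hh => hG (k33_rtd hd hh.1 hh.2)
    rw [if_neg hG, if_neg hG, if_neg h8, if_neg h33]
    have : (∑ v ∈ U, if Rtd {0, 1} U G ∧ v ∈ CG G U then
        ((kk G U v - 1 : ℕ) : ℝ≥0∞) * z ^ ecard {0, 1} G else 0) = 0 := by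
      refine Finset.sum_eq_zero fun v _ => ?_
      rw [if_neg (fun hh => hG hh.1)]
    rw [this]
    simp

end K5
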