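import Pool.Agent.Lib.K5.DDefs

/-!
# K5.DUp: adding a structure at the root triangle

`X = tri v = {0, 1, v}` is a root triangle of `c` (`|X| = 3` because `v ≠ 0, 1`), `c' = c.up v J T0 F0`, new root `{0, 1}`, `{0, 1} ∪ insert v c.Y = X ∪ c.Y`. `X ∉ c.M` by `mark` (`X ≠ X` is false), so `c.V X = ∅`, `c.T X = ⊥` (`V_out`, `T_out`) and `c'.V Z = c.V Z`, `c'.T Z = c.T Z` for `Z ≠ X` (`Function.update`).
1. `up_valid`. `disj`: `v ≠ 0, 1`; `C` is disjoint from `X` (`h.disj`), `J` is disjoint from `X` (`hT.disj`). `sub`: `h.sub`. `core`: `On`, `Three`, `Free`, `Mac` are about the same set; the clique `{0, 1}` is contained in the clique `X ≤ H`; root: `|{0, 1}| = 2`. `mark`: for `X`: `clq X ≤ H` (`h.core.rtd.clique`),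
`(X ∪ c.Y) \ X = c.Y` is connected in `H` (`h.core.rtd.root`, `|X| = 3`); for `Z ∈ c.M` from `h.mark`; `≠ {0, 1}` by cardinality. `V_sub`: `J` is disjoint from `X`, `C ⊇ c.Y`; `c.V Z ⊆ C \ c.Y`. `V_disj`: `J` is disjoint from `C`. `V_cover`: `(insert v (C ∪ J)) \ insert v c.Y = (C \ c.Y) ∪ J`. `T_str`: `hT`,
`h.T_str`. `F_sub`: `e ∈ c.F`: `h.F_sub` (not in `clq X`, so not in `clq {0, 1}`); `e ∈ F0`: `s(0, v)` and `s(1, v)` are edges of `clq X ≤ H`, covered by `X`, not edges of `clq {0, 1}`.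
2. `up_comp`: `gl F0 G'` where `G'` has the edges of `T0` and the edges of `c.comp X` that are not inside `X`. An edge `ab` of `c'.comp {0, 1}`: both in `{0, 1}`; edge of `H` not covered by `insert X M` = edge of `H` not covered by `M` and not inside `X`; in `F` (then not inside `X`: `F_sub`) or in `F0`; edge of `T0`; edge of
some `c.T Z` (not inside `X` by `T_mem`, as `X ⊆ X ∪ c.Y`). Compare with the definition of `c.comp X`.
-/

namespace K5

open Finset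

variable {v : ℕ} {C J : Finset ℕ} {T0 : Gr} {F0 : Set (Sym2 ℕ)} {c : Code3}

namespace DUpAux

theorem mem_tri {v a : ℕ} : a ∈ tri v ↔ a = 0 ∨ a = 1 ∨ a = v := by
  unfold tri
  rw [mem_insert, mem_insert, mem_singleton]

theorem mem_01 {a : ℕ} : a ∈ ({0, 1} : Finset ℕ) ↔ a = 0 ∨ a = 1 := by
  rw [mem_insert, mem_singleton]

theorem sub_tri (v : ℕ) : ({0, 1} : Finset ℕ) ⊆ tri v := by
  intro a ha
  rcases mem_01.1 ha with h | h
  · exact mem_tri.2 (Or.inl h)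
  · exact mem_tri.2 (Or.inr (Or.inl h))

theorem card_tri {v : ℕ} (h0 : v ≠ 0) (h1 : v ≠ 1) : (tri v).card = 3 := by
  unfold tri
  rw [card_insert_of_notMem, card_pair (Ne.symm h1)]
  rw [mem_insert, mem_singleton]
  rintro (h | h)
  · exact absurd h (by decide)
  · exact h0 h.symm

theorem un_eq (v : ℕ) (Y : Finset ℕ) : ({0, 1} : Finset ℕ) ∪ insert v Y = tri v ∪ Y := by
  ext a
  rw [mem_union, mem_union, mem_01, mem_insert, mem_tri]
  tauto

theorem mem_clq {X : Finset ℕ} {a b : ℕ} : s(a, b) ∈ (clq X).edgeSet ↔ a ≠ b ∧ a ∈ X ∧ b ∈ X :=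
  SimpleGraph.mem_edgeSet _

theorem clq_mono {X Y : Finset ℕ} (h : X ⊆ Y) : clq X ≤ clq Y :=
  fun _ _ hab => ⟨hab.1, h hab.2.1, h hab.2.2⟩

end DUpAux

open DUpAux

theorem Code3.Valid.up_valid (h : c.Valid (tri v) C) (hv0 : v ≠ 0) (hv1 : v ≠ 1)
    (hT : TStr (tri v) J T0) (hCJ : Disjoint C J) (hF : F0 ⊆ {s(0, v), s(1, v)}) :
    (c.up v J T0 F0).Valid {0, 1} (insert v (C ∪ J)) := by
  have hXM : tri v ∉ c.M := fun hX => (h.mark _ hX).2 rfl
  have hvX : v ∈ tri v := mem_tri.2 (Or.inr (Or.inr rfl))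
  have hVX : (c.up v J T0 F0).V (tri v) = J := Function.update_self _ _ _
  have hTX : (c.up v J T0 F0).T (tri v) = T0 := Function.update_self _ _ _
  have hVZ : ∀ Z, Z ≠ tri v → (c.up v J T0 F0).V Z = c.V Z :=
    fun Z hZ => Function.update_of_ne hZ _ _
  have hTZ : ∀ Z, Z ≠ tri v → (c.up v J T0 F0).T Z = c.T Z :=
    fun Z hZ => Function.update_of_ne hZ _ _
  have hne : ∀ Z ∈ c.M, Z ≠ tri v := fun Z hZ he => hXM (he ▸ hZ)
  have hMm : ∀ Z, Z ∈ (c.up v J T0 F0).M ↔ Z = tri v ∨ Z ∈ c.M := fun Z => mem_insert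
  have hC : ∀ a ∈ tri v, a ∉ C := fun a ha haC => disjoint_left.1 h.disj ha haC
  have hJ : ∀ a ∈ tri v, a ∉ J := fun a ha haJ => disjoint_left.1 hT.disj ha haJ
  have hVC : ∀ Z ∈ c.M, ∀ w ∈ c.V Z, w ∈ C ∧ w ∉ c.Y := fun Z hZ w hw =>
    mem_sdiff.1 (h.V_sub Z hZ hw)
  have hc3 := card_tri hv0 hv1
  have hroot : P512.Conn c.H c.Y := by
    rcases h.core.rtd.root with h1 | h1
    · rw [hc3] at h1
      exact absurd h1 (by decide)
    · exact h1.2
  have h01 : ∀ Z : Finset ℕ, Z.card = 3 → Z ≠ {0, 1} := by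
    intro Z hZ he
    rw [he, card_pair (by decide)] at hZ
    exact absurd hZ (by decide)
  refine ⟨?_, ?_, ⟨⟨?_, ?_, ?_, ?_, ?_, ?_⟩, ?_⟩, ?_, ?_, ?_, ?_, ?_, ?_, ?_, ?_⟩
  · rw [disjoint_left]
    intro a ha hb
    rcases mem_insert.1 hb with h1 | h1
    · rcases mem_01.1 ha with h2 | h2
      · exact hv0 (h1.symm.trans h2)
      · exact hv1 (h1.symm.trans h2)
    · rcases mem_union.1 h1 with h2 | h2
      · exact hC a (sub_tri v ha) h2
      · exact hJ a (sub_tri v ha) h2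
  · exact insert_subset_insert v (h.sub.trans subset_union_left)
  · rw [disjoint_left]
    intro a ha hb
    rcases mem_insert.1 hb with h1 | h1
    · rcases mem_01.1 ha with h2 | h2
      · exact hv0 (h1.symm.trans h2)
      · exact hv1 (h1.symm.trans h2)
    · exact hC a (sub_tri v ha) (h.sub h1)
  · change On c.H (({0, 1} : Finset ℕ) ∪ insert v c.Y)
    rw [un_eq]
    exact h.core.rtd.on
  · exact (clq_mono (sub_tri v)).trans h.core.rtd.clique
  · change Three c.H (({0, 1} : Finset ℕ) ∪ insert v c.Y)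
    rw [un_eq]
    exact h.core.rtd.three
  · exact h.core.rtd.free
  · exact Or.inl (card_pair (by decide))
  · change Mac c.H (({0, 1} : Finset ℕ) ∪ insert v c.Y)
    rw [un_eq]
    exact h.core.mac
  · intro Z hZ
    change NT c.H (({0, 1} : Finset ℕ) ∪ insert v c.Y) Z ∧ Z ≠ {0, 1}
    rw [un_eq]
    rcases (hMm Z).1 hZ with h1 | h1
    · subst h1
      refine ⟨⟨subset_union_left, hc3, h.core.rtd.clique, ?_⟩, h01 _ hc3⟩
      have h2 : (tri v ∪ c.Y) \ tri v = c.Y := by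
        rw [union_sdiff_left, Finset.sdiff_eq_self_iff_disjoint]
        exact h.core.rtd.disj.symm
      rw [h2]
      exact hroot
    · exact ⟨(h.mark Z h1).1, h01 _ (h.mark Z h1).1.2.1⟩
  · intro Z hZ w hw
    change w ∈ insert v (C ∪ J) \ insert v c.Y
    rw [mem_sdiff, mem_insert, mem_union, mem_insert]
    rcases (hMm Z).1 hZ with h1 | h1
    · subst h1
      rw [hVX] at hw
      refine ⟨Or.inr (Or.inr hw), ?_⟩
      rintro (h2 | h2)
      · exact hJ v hvX (h2 ▸ hw)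
      · exact disjoint_left.1 hCJ (h.sub h2) hw
    · rw [hVZ Z (hne Z h1)] at hw
      obtain ⟨h2, h3⟩ := hVC Z h1 w hw
      refine ⟨Or.inr (Or.inl h2), ?_⟩
      rintro (h4 | h4)
      · exact hC v hvX (h4 ▸ h2)
      · exact h3 h4
  · intro Z hZ Z' hZ' hZZ
    rcases (hMm Z).1 hZ with h1 | h1
    · rcases (hMm Z').1 hZ' with h2 | h2
      · exact absurd (h1.trans h2.symm) hZZ
      · rw [h1, hVX, hVZ Z' (hne Z' h2), disjoint_left]
        exact fun w hw hw' => disjoint_left.1 hCJ (hVC Z' h2 w hw').1 hw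
    · rcases (hMm Z').1 hZ' with h2 | h2
      · rw [h2, hVX, hVZ Z (hne Z h1), disjoint_left]
        exact fun w hw hw' => disjoint_left.1 hCJ (hVC Z h1 w hw).1 hw'
      · rw [hVZ Z (hne Z h1), hVZ Z' (hne Z' h2)]
        exact h.V_disj Z h1 Z' h2 hZZ
  · intro w hw
    change w ∈ insert v (C ∪ J) \ insert v c.Y at hw
    rw [mem_sdiff, mem_insert, mem_union, mem_insert, not_or] at hw
    obtain ⟨h1, h2, h3⟩ := hw
    rcases h1 with h1 | h1 | h1
    · exact absurd h1 h2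
    · obtain ⟨Z, hZ, hwZ⟩ := h.V_cover w (mem_sdiff.2 ⟨h1, h3⟩)
      refine ⟨Z, (hMm Z).2 (Or.inr hZ), ?_⟩
      rw [hVZ Z (hne Z hZ)]
      exact hwZ
    · refine ⟨tri v, (hMm _).2 (Or.inl rfl), ?_⟩
      rw [hVX]
      exact h1
  · intro Z hZ
    rcases (hMm Z).1 hZ with h1 | h1
    · rw [h1, hVX, hTX]
      exact hT
    · rw [hVZ Z (hne Z h1), hTZ Z (hne Z h1)]
      exact h.T_str Z h1
  · intro Z hZ
    have h1 : Z ≠ tri v := fun h2 => hZ ((hMm Z).2 (Or.inl h2))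
    rw [hVZ Z h1]
    exact h.V_out Z (fun h2 => hZ ((hMm Z).2 (Or.inr h2)))
  · intro Z hZ
    have h1 : Z ≠ tri v := fun h2 => hZ ((hMm Z).2 (Or.inl h2))
    rw [hTZ Z h1]
    exact h.T_out Z (fun h2 => hZ ((hMm Z).2 (Or.inr h2)))
  · intro e he
    rcases he with he | he
    · obtain ⟨h1, ⟨Z, hZ, h2⟩, h3⟩ := h.F_sub e he
      refine ⟨h1, ⟨Z, (hMm Z).2 (Or.inr hZ), h2⟩, fun h4 => h3 ?_⟩
      exact SimpleGraph.edgeSet_mono (clq_mono (sub_tri v)) h4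
    · have key : ∀ a, a = 0 ∨ a = 1 → s(a, v) ∈ c.H.edgeSet ∧ Cov (c.up v J T0 F0).M s(a, v) ∧
          s(a, v) ∉ (clq {0, 1}).edgeSet := by
        intro a ha
        have hav : a ≠ v := by
          rcases ha with h1 | h1
          · rw [h1]
            exact hv0.symm
          · rw [h1]
            exact hv1.symm
        have haX : a ∈ tri v := sub_tri v (mem_01.2 ha)
        have h1 : s(a, v) ∈ (clq (tri v)).edgeSet := mem_clq.2 ⟨hav, haX, hvX⟩
        refine ⟨SimpleGraph.edgeSet_mono h.core.rtd.clique h1, ⟨tri v, (hMm _).2 (Or.inl rfl), h1⟩,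
          fun h2 => ?_⟩
        rcases mem_01.1 (mem_clq.1 h2).2.2 with h3 | h3
        · exact hv0 h3
        · exact hv1 h3
      rcases hF he with h1 | h1
      · rw [h1]
        exact key 0 (Or.inl rfl)
      · rw [Set.mem_singleton_iff.1 h1]
        exact key 1 (Or.inr rfl)

theorem Code3.Valid.up_comp (h : c.Valid (tri v) C) (hv0 : v ≠ 0) (hv1 : v ≠ 1)
    (hT : TStr (tri v) J T0) (hCJ : Disjoint C J) (hF : F0 ⊆ {s(0, v), s(1, v)}) {G' : Gr}
    (hG' : ∀ a b, G'.Adj a b ↔ T0.Adj a b ∨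
      ((c.comp (tri v)).Adj a b ∧ ¬ (a ∈ tri v ∧ b ∈ tri v))) :
    (c.up v J T0 F0).comp {0, 1} = gl F0 G' := by
  have hXM : tri v ∉ c.M := fun hX => (h.mark _ hX).2 rfl
  have hTX : (c.up v J T0 F0).T (tri v) = T0 := Function.update_self _ _ _
  have hTZ : ∀ Z, Z ≠ tri v → (c.up v J T0 F0).T Z = c.T Z :=
    fun Z hZ => Function.update_of_ne hZ _ _
  have hMm : ∀ Z, Z ∈ (c.up v J T0 F0).M ↔ Z = tri v ∨ Z ∈ c.M := fun Z => mem_insert
  ext a b
  constructor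
  · rintro ⟨hne, h1 | h1 | h1 | ⟨Z, h1⟩⟩
    · exact ⟨hne, Or.inl h1⟩
    · refine ⟨hne, Or.inr (Or.inr ((hG' a b).2 (Or.inr ⟨⟨hne, Or.inr (Or.inl ⟨h1.1, ?_⟩)⟩, ?_⟩)))⟩
      · rintro ⟨Z, hZ, h2⟩
        exact h1.2 ⟨Z, (hMm Z).2 (Or.inr hZ), h2⟩
      · rintro ⟨h2, h3⟩
        exact h1.2 ⟨tri v, (hMm _).2 (Or.inl rfl), mem_clq.2 ⟨hne, h2, h3⟩⟩
    · rcases h1 with h1 | h1
      · refine ⟨hne, Or.inr (Or.inr ((hG' a b).2 (Or.inr ⟨⟨hne, Or.inr (Or.inr (Or.inl h1))⟩, ?_⟩)))⟩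
        rintro ⟨h2, h3⟩
        exact (h.F_sub _ h1).2.2 (mem_clq.2 ⟨hne, h2, h3⟩)
      · exact ⟨hne, Or.inr (Or.inl h1)⟩
    · by_cases hZ : Z = tri v
      · rw [hZ, hTX] at h1
        exact ⟨hne, Or.inr (Or.inr ((hG' a b).2 (Or.inl h1)))⟩
      · rw [hTZ Z hZ] at h1
        refine ⟨hne, Or.inr (Or.inr ((hG' a b).2 (Or.inr
          ⟨⟨hne, Or.inr (Or.inr (Or.inr ⟨Z, h1⟩))⟩, ?_⟩)))⟩
        rintro ⟨h2, h3⟩
        exact (h.T_mem h1).2.2.2 ⟨mem_union_left _ h2, mem_union_left _ h3⟩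
  · rintro ⟨hne, h1 | h1 | h1⟩
    · exact ⟨hne, Or.inl h1⟩
    · exact ⟨hne, Or.inr (Or.inr (Or.inl (Or.inr h1)))⟩
    · rcases (hG' a b).1 h1 with h2 | ⟨⟨_, h2 | h2 | h2 | ⟨Z, h2⟩⟩, h3⟩
      · refine ⟨hne, Or.inr (Or.inr (Or.inr ⟨tri v, ?_⟩))⟩
        rw [hTX]
        exact h2
      · exact absurd h2 h3
      · refine ⟨hne, Or.inr (Or.inl ⟨h2.1, ?_⟩)⟩
        rintro ⟨Z, hZ, h4⟩
        rcases (hMm Z).1 hZ with h5 | h5
        · rw [h5] at h4
          exact h3 (mem_clq.1 h4).2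
        · exact h2.2 ⟨Z, h5, h4⟩
      · exact ⟨hne, Or.inr (Or.inr (Or.inl (Or.inl h2)))⟩
      · refine ⟨hne, Or.inr (Or.inr (Or.inr ⟨Z, ?_⟩))⟩
        have hZ : Z ≠ tri v := by
          intro hZ
          rw [hZ, h.T_out _ hXM] at h2
          exact h2
        rw [hTZ Z hZ]
        exact h2

theorem Code3.up_mem (c : Code3) : tri v ∈ (c.up v J T0 F0).M ∧ (c.up v J T0 F0).V (tri v) = J :=
  ⟨mem_insert_self _ _, Function.update_self _ _ _⟩

end K5
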