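import Mathlib
import Pool.Agent.Lib.P512.Defs
import Pool.Agent.Lib.P8ffccf.Map

/-!
# K5.Defs: the graph side of the enumeration of graphs without a `K_5` minor

All graphs are simple graphs on `ℕ`; a structure on the label set `U` is a graph all of whose edges
lie in `U`.  Connectivity is used in cut form (`P512.Conn`).
-/

namespace K5

open Finset
open scoped ENNReal

abbrev Gr := SimpleGraph ℕ

/-- All edges of `G` lie inside `U`. -/
def On (G : Gr) (U : Finset ℕ) : Prop := ∀ u v, G.Adj u v → u ∈ U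

/-- `G` has no `K_5` minor. -/
def Free (G : Gr) : Prop := ¬ P512.K5 G

/-- `G` restricted to `U` is 2-connected (or a single edge). -/
def Blk (G : Gr) (U : Finset ℕ) : Prop :=
  2 ≤ U.card ∧ P512.Conn G U ∧ ∀ v ∈ U, P512.Conn G (U.erase v)

/-- `G` restricted to `U` is 3-connected. -/
def Three (G : Gr) (U : Finset ℕ) : Prop :=
  4 ≤ U.card ∧ ∀ u v, P512.Conn G ((U.erase u).erase v)

open Classical in
/-- The outer neighbours of `I` in `W`. -/
noncomputable def bd (G : Gr) (W I : Finset ℕ) : Finset ℕ :=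
  (W \ I).filter (fun w => ∃ i ∈ I, G.Adj i w)

/-- The vertex set of a network with poles `s`, `t` and interior `U`. -/
abbrev St (s t : ℕ) (U : Finset ℕ) : Finset ℕ := insert s (insert t U)

/-! ### Networks -/

/-- `G` contains the edge `st`, is 2-connected on `U ∪ {s, t}` and has no `K_5` minor. -/
structure Net (s t : ℕ) (U : Finset ℕ) (G : Gr) : Prop where
  ne : s ≠ t
  hs : s ∉ U
  ht : t ∉ U
  on : On G (St s t U)
  adj : G.Adj s t
  blk : Blk G (St s t U)
  free : Free G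

/-- A piece: a network whose interior is connected. -/
structure Piece (s t : ℕ) (U : Finset ℕ) (G : Gr) : Prop where
  net : Net s t U G
  conn : P512.Conn G U

/-- A series piece: some vertex of `U` separates `s` from `t` in `G - st`. -/
structure Series (s t : ℕ) (U : Finset ℕ) (G : Gr) : Prop where
  piece : Piece s t U G
  cut : ∃ c ∈ U, ¬ P512.Conn (G.deleteEdges {s(s, t)}) ((St s t U).erase c)

/-- A core: 3-connected, without `K_5` minor, with the edge `st`. -/
structure Core (s t : ℕ) (A : Finset ℕ) (H : Gr) : Prop where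
  ne : s ≠ t
  hs : s ∉ A
  ht : t ∉ A
  on : On H (St s t A)
  adj : H.Adj s t
  three : Three H (St s t A)
  free : Free H

/-- The network at the pair `e`. -/
def NetE (e : Sym2 ℕ) (I : Finset ℕ) (G : Gr) : Prop := ∃ u v, e = s(u, v) ∧ Net u v I G

/-- A piece that is not a series piece. -/
def HPiece (s t : ℕ) (U : Finset ℕ) (G : Gr) : Prop := Piece s t U G ∧ ¬ Series s t U G

/-! ### Fragments -/

/-- A fragment: a nonempty set of interior vertices with exactly two outer neighbours, not both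
poles. -/
structure Frag (s t : ℕ) (U : Finset ℕ) (G : Gr) (I : Finset ℕ) : Prop where
  sub : I ⊆ U
  ne : I.Nonempty
  card : (bd G (St s t U) I).card = 2
  bd_ne : bd G (St s t U) I ≠ {s, t}

/-- A maximal fragment. -/
def MaxFrag (s t : ℕ) (U : Finset ℕ) (G : Gr) (I : Finset ℕ) : Prop :=
  Frag s t U G I ∧ ∀ J, Frag s t U G J → I ⊆ J → J = I

open Classical in
/-- The interior vertices that lie in no fragment. -/
noncomputable def coreV (s t : ℕ) (U : Finset ℕ) (G : Gr) : Finset ℕ :=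
  U.filter (fun w => ∀ I, Frag s t U G I → w ∉ I)

/-- The core of a piece. -/
def coreG (s t : ℕ) (U : Finset ℕ) (G : Gr) : Gr where
  Adj a b := a ≠ b ∧ a ∈ St s t (coreV s t U G) ∧ b ∈ St s t (coreV s t U G) ∧
    (G.Adj a b ∨ ∃ I, MaxFrag s t U G I ∧ bd G (St s t U) I = {a, b})
  symm := ⟨fun a b h => ⟨h.1.symm, h.2.2.1, h.2.1, h.2.2.2.imp (fun h => h.symm)
    (fun ⟨I, h1, h2⟩ => ⟨I, h1, by rw [h2, Finset.pair_comm]⟩)⟩⟩
  loopless := ⟨fun a h => h.1 rfl⟩

/-- The part of `G` inside `I ∪ {u, v}`, with the edge `uv` added. -/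
def partG (G : Gr) (u v : ℕ) (I : Finset ℕ) : Gr where
  Adj a b := a ≠ b ∧ a ∈ St u v I ∧ b ∈ St u v I ∧ (G.Adj a b ∨ s(a, b) = s(u, v))
  symm := ⟨fun a b h => ⟨h.1.symm, h.2.2.1, h.2.1, h.2.2.2.imp (fun h => h.symm)
    (fun h => by rw [Sym2.eq_swap]; exact h)⟩⟩
  loopless := ⟨fun a h => h.1 rfl⟩

/-! ### Codes: a core with a network at each edge -/

/-- A code: a core `H` on `A ∪ {s, t}`, a map `f` that sends the other interior vertices to edges
of `H`, a network `N e` at every edge `e ≠ st` and the set `F` of the edges that are present. -/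
structure Code where
  A : Finset ℕ
  H : Gr
  f : ℕ → Sym2 ℕ
  N : Sym2 ℕ → Gr
  F : Set (Sym2 ℕ)

open Classical in
/-- The interior vertices of the network at the edge `e`. -/
noncomputable def Code.fib (U : Finset ℕ) (c : Code) (e : Sym2 ℕ) : Finset ℕ :=
  (U \ c.A).filter (fun w => c.f w = e)

open Classical in
/-- The code is admissible for the label set `U` and the poles `s`, `t`. -/
structure Code.Valid (s t : ℕ) (U : Finset ℕ) (c : Code) : Prop where
  hs : s ∉ U
  ht : t ∉ U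
  sub : c.A ⊆ U
  core : Core s t c.A c.H
  f_mem : ∀ w ∈ U \ c.A, c.f w ∈ c.H.edgeSet ∧ c.f w ≠ s(s, t)
  f_out : ∀ w, w ∉ U \ c.A → c.f w = s(s, t)
  net : ∀ e ∈ c.H.edgeSet, e ≠ s(s, t) → NetE e (c.fib U e) (c.N e)
  net_out : ∀ e, (e ∉ c.H.edgeSet ∨ e = s(s, t)) → c.N e = ⊥
  F_sub : ∀ e ∈ c.F, e ∈ c.H.edgeSet ∧ e ≠ s(s, t)
  F_full : ∀ e ∈ c.H.edgeSet, e ≠ s(s, t) → (∀ w ∈ U \ c.A, c.f w ≠ e) → e ∈ c.F

/-- The graph of a code. -/
def Code.comp (s t : ℕ) (c : Code) : Gr where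
  Adj a b := a ≠ b ∧ (s(a, b) = s(s, t) ∨ s(a, b) ∈ c.F ∨ ∃ e, (c.N e).Adj a b ∧ s(a, b) ≠ e)
  symm := ⟨fun a b h => by
    refine ⟨h.1.symm, ?_⟩
    rw [Sym2.eq_swap]
    exact h.2.imp id (Or.imp id (fun ⟨e, h1, h2⟩ => ⟨e, h1.symm, h2⟩))⟩
  loopless := ⟨fun a h => h.1 rfl⟩

end K5
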