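import Pool.Agent.Lib.K5.Defs

/-!
# K5.Defs3: 3-connected graphs without a `K_5` minor: shredders, branches, planar cores, weights
-/

namespace K5

open Finset
open scoped ENNReal

/-! ### Planarity (MacLane) -/

/-- `z` is an even edge function (a cycle mod 2) of `G` on `U`. -/
structure Cyc (G : Gr) (U : Finset ℕ) (z : ℕ → ℕ → ZMod 2) : Prop where
  symm : ∀ a b, z a b = z b a
  supp : ∀ a b, z a b ≠ 0 → G.Adj a b
  even : ∀ a ∈ U, ∑ b ∈ U, z a b = 0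

open Classical in
/-- MacLane's criterion: a family of cycles mod 2 such that every edge is in at most two of them and
every cycle mod 2 is a sum of members. -/
def Mac (G : Gr) (U : Finset ℕ) : Prop :=
  ∃ (n : ℕ) (F : Fin n → ℕ → ℕ → ZMod 2), (∀ i, Cyc G U (F i)) ∧
    (∀ a b, (univ.filter (fun i => F i a b ≠ 0)).card ≤ 2) ∧
    ∀ z, Cyc G U z → ∃ S : Finset (Fin n), ∀ a b, z a b = ∑ i ∈ S, F i a b

/-! ### Components, cliques, shredders -/

/-- `C` is a connected component of `G` restricted to `U`. -/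
def IsComp (G : Gr) (U C : Finset ℕ) : Prop :=
  C ⊆ U ∧ P512.Conn G C ∧ ∀ a ∈ C, ∀ b ∈ U, b ∉ C → ¬ G.Adj a b

/-- The complete graph on `X`. -/
def clq (X : Finset ℕ) : Gr where
  Adj a b := a ≠ b ∧ a ∈ X ∧ b ∈ X
  symm := ⟨fun _ _ h => ⟨h.1.symm, h.2.2, h.2.1⟩⟩
  loopless := ⟨fun _ h => h.1 rfl⟩

/-- The restriction of `G` to `S`. -/
def rst (G : Gr) (S : Finset ℕ) : Gr where
  Adj a b := G.Adj a b ∧ a ∈ S ∧ b ∈ S
  symm := ⟨fun _ _ h => ⟨h.1.symm, h.2.2, h.2.1⟩⟩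
  loopless := ⟨fun a h => G.loopless.irrefl a h.1⟩

/-- `X` is a shredder of `G` on `W`: three vertices whose deletion leaves at least three
components. -/
def Shr (G : Gr) (W X : Finset ℕ) : Prop :=
  X ⊆ W ∧ X.card = 3 ∧ ∃ C1 C2 C3, IsComp G (W \ X) C1 ∧ IsComp G (W \ X) C2 ∧
    IsComp G (W \ X) C3 ∧ Disjoint C1 C2 ∧ Disjoint C1 C3 ∧ Disjoint C2 C3

/-- `X` is a non-separating triangle of `H` on `Y`. -/
def NT (H : Gr) (Y X : Finset ℕ) : Prop :=
  X ⊆ Y ∧ X.card = 3 ∧ clq X ≤ H ∧ P512.Conn H (Y \ X)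

/-- `G` on `W` is a copy of `K_{3,3}`. -/
def IsK33 (G : Gr) (W : Finset ℕ) : Prop :=
  ∃ A B : Finset ℕ, W = A ∪ B ∧ Disjoint A B ∧ A.card = 3 ∧ B.card = 3 ∧
    ∀ a b, G.Adj a b ↔ (a ∈ A ∧ b ∈ B) ∨ (a ∈ B ∧ b ∈ A)

/-- `G` on `W` is a copy of the Wagner graph `V_8` (a cycle of length 8 with its four long
diagonals). -/
def IsV8 (G : Gr) (W : Finset ℕ) : Prop :=
  ∃ f : ZMod 8 → ℕ, Function.Injective f ∧ W = univ.image f ∧
    ∀ a b, G.Adj a b ↔ ∃ i j, a = f i ∧ b = f j ∧ (j = i + 1 ∨ i = j + 1 ∨ j = i + 4)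

/-! ### Rooted 3-connected graphs -/

/-- `G` is 3-connected on `R ∪ U`, has no `K_5` minor and contains the root clique `R`
(an edge, or a triangle whose deletion leaves a connected graph). -/
structure Rtd (R U : Finset ℕ) (G : Gr) : Prop where
  disj : Disjoint R U
  on : On G (R ∪ U)
  clique : clq R ≤ G
  three : Three G (R ∪ U)
  free : Free G
  root : R.card = 2 ∨ (R.card = 3 ∧ P512.Conn G U)

/-- A branch at the triple `X` with interior `V`: no edges inside `X`; with the triangle `X` added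
it is a rooted 3-connected graph. -/
structure Branch (X V : Finset ℕ) (G : Gr) : Prop where
  card : X.card = 3
  noX : ∀ a ∈ X, ∀ b ∈ X, ¬ G.Adj a b
  rtd : Rtd X V (G ⊔ clq X)

/-- At least two branches at the triple `X`. -/
structure TStr (X V : Finset ℕ) (G : Gr) : Prop where
  card : X.card = 3
  disj : Disjoint X V
  on : On G (X ∪ V)
  noX : ∀ a ∈ X, ∀ b ∈ X, ¬ G.Adj a b
  ne : V.Nonempty
  nconn : ¬ P512.Conn G V
  branch : ∀ C, IsComp G V C → Branch X C (rst G (X ∪ C))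

/-- `G` on `R ∪ U` is a planar 3-connected graph with root clique `R`. -/
structure PCore (R U : Finset ℕ) (H : Gr) : Prop where
  rtd : Rtd R U H
  mac : Mac H (R ∪ U)

/-- The edge `e` is an edge of one of the triangles in `M`. -/
def Cov (M : Finset (Finset ℕ)) (e : Sym2 ℕ) : Prop := ∃ X ∈ M, e ∈ (clq X).edgeSet

/-! ### Codes of the second kind: a planar core with marked triangles -/

structure Code3 where
  Y : Finset ℕ
  H : Gr
  M : Finset (Finset ℕ)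
  V : Finset ℕ → Finset ℕ
  T : Finset ℕ → Gr
  F : Set (Sym2 ℕ)

structure Code3.Valid (R U : Finset ℕ) (c : Code3) : Prop where
  disj : Disjoint R U
  sub : c.Y ⊆ U
  core : PCore R c.Y c.H
  mark : ∀ X ∈ c.M, NT c.H (R ∪ c.Y) X ∧ X ≠ R
  V_sub : ∀ X ∈ c.M, c.V X ⊆ U \ c.Y
  V_disj : ∀ X ∈ c.M, ∀ X' ∈ c.M, X ≠ X' → Disjoint (c.V X) (c.V X')
  V_cover : ∀ w ∈ U \ c.Y, ∃ X ∈ c.M, w ∈ c.V X
  T_str : ∀ X ∈ c.M, TStr X (c.V X) (c.T X)
  V_out : ∀ X, X ∉ c.M → c.V X = ∅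
  T_out : ∀ X, X ∉ c.M → c.T X = ⊥
  F_sub : ∀ e ∈ c.F, e ∈ c.H.edgeSet ∧ Cov c.M e ∧ e ∉ (clq R).edgeSet

/-- No marked triangle contains the root. -/
def Code3.Low (R : Finset ℕ) (c : Code3) : Prop := ∀ X ∈ c.M, ¬ R ⊆ X

/-- The graph of a code: the root clique, the edges of `H` on no marked triangle, the edges in `F`
and the structures `T X`. -/
def Code3.comp (R : Finset ℕ) (c : Code3) : Gr where
  Adj a b := a ≠ b ∧ ((a ∈ R ∧ b ∈ R) ∨ (c.H.Adj a b ∧ ¬ Cov c.M s(a, b)) ∨ s(a, b) ∈ c.F ∨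
    ∃ X, (c.T X).Adj a b)
  symm := ⟨fun a b h => by
    refine ⟨h.1.symm, ?_⟩
    rw [Sym2.eq_swap]
    exact h.2.imp (fun h => ⟨h.2, h.1⟩) (Or.imp (fun h => ⟨h.1.symm, h.2⟩)
      (Or.imp id (fun ⟨X, h⟩ => ⟨X, h.symm⟩)))⟩
  loopless := ⟨fun a h => h.1 rfl⟩

/-! ### Generating functions -/

/-- The number of edges of `H` that are not in the clique `R`. -/
noncomputable def ecard (R : Finset ℕ) (G : Gr) : ℕ := (G.edgeSet \ (clq R).edgeSet).ncard

/-- The weight of a planar core with marked triangles. -/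
noncomputable def mwt (z w t : ℝ≥0∞) (R : Finset ℕ) (H : Gr) (M : Finset (Finset ℕ)) : ℝ≥0∞ :=
  t ^ M.card * w ^ ({e ∈ H.edgeSet | Cov M e ∧ e ∉ (clq R).edgeSet}.ncard) *
    z ^ ({e ∈ H.edgeSet | ¬ Cov M e ∧ e ∉ (clq R).edgeSet}.ncard)

/-- The total weight of the planar cores with marked triangles with root `R` on the interior `U`. -/
noncomputable def msum (z w t : ℝ≥0∞) (R U : Finset ℕ) : ℝ≥0∞ :=
  ∑' p : {p : Gr × Finset (Finset ℕ) // PCore R U p.1 ∧ ∀ X ∈ p.2, NT p.1 (R ∪ U) X ∧ X ≠ R},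
    mwt z w t R p.1.1 p.1.2

/-- The same with no marked triangle that contains the root. -/
noncomputable def msum0 (z w t : ℝ≥0∞) (R U : Finset ℕ) : ℝ≥0∞ :=
  ∑' p : {p : Gr × Finset (Finset ℕ) // PCore R U p.1 ∧ ∀ X ∈ p.2, NT p.1 (R ∪ U) X ∧ ¬ R ⊆ X},
    mwt z w t R p.1.1 p.1.2

/-- `K~`: planar cores with root edge. -/
noncomputable def Kt (x z w t : ℝ≥0∞) : ℝ≥0∞ :=
  ∑' n : ℕ, x ^ n / (n.factorial : ℝ≥0∞) * msum z w t {0, 1} (Ico 2 (n + 2))

/-- `K~0`: planar cores with root edge, the root edge on no marked triangle. -/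
noncomputable def Kt0 (x z w t : ℝ≥0∞) : ℝ≥0∞ :=
  ∑' n : ℕ, x ^ n / (n.factorial : ℝ≥0∞) * msum0 z w t {0, 1} (Ico 2 (n + 2))

/-- `A`: planar cores with root triangle. -/
noncomputable def At (x z w t : ℝ≥0∞) : ℝ≥0∞ :=
  ∑' n : ℕ, x ^ n / (n.factorial : ℝ≥0∞) * msum z w t {0, 1, 2} (Ico 3 (n + 3))

/-- The number of networks (with the edge `st`) with `n` interior vertices. -/
noncomputable def Q (n : ℕ) : ℕ := Nat.card {G : Gr // Net 0 1 (Ico 2 (n + 2)) G}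

/-- The generating function of nonempty networks: `D = 2 Q - 1`. -/
noncomputable def D (x : ℝ≥0∞) : ℝ≥0∞ :=
  ∑' n : ℕ, x ^ n / (n.factorial : ℝ≥0∞) * (if n = 0 then 1 else 2 * (Q n : ℝ≥0∞))

/-- The generating function of the rooted 3-connected graphs without `K_5` minor (root edge). -/
noncomputable def T0 (x z : ℝ≥0∞) : ℝ≥0∞ :=
  ∑' n : ℕ, x ^ n / (n.factorial : ℝ≥0∞) *
    ∑' G : {G : Gr // Rtd {0, 1} (Ico 2 (n + 2)) G}, z ^ ecard {0, 1} G.1

/-- The generating function of the branches. -/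
noncomputable def Br (x z : ℝ≥0∞) : ℝ≥0∞ :=
  ∑' n : ℕ, x ^ n / (n.factorial : ℝ≥0∞) *
    ∑' G : {G : Gr // Branch {0, 1, 2} (Ico 3 (n + 3)) G}, z ^ G.1.edgeSet.ncard

end K5
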