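import Pool.Agent.Lib.K5.CntDefs

/-!
# K5.EDefs: networks with a weight `y` for every edge

`ec e G`: the number of edges of `G` different from `e`. `Qy y n`: the sum of `y ^ (number of edges different from st)` over the networks with
`n` interior vertices; `nPy`, `nSy`, `nHy`: the same for the pieces, the series pieces and the pieces that are not series; `ddy`: networks with or
without the edge `st` (which has weight `y`), not empty; `eey`: the same without the series pieces; `Dy x y` = generating function of `ddy y`.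
-/

namespace K5

open Finset
open scoped ENNReal

/-- The number of edges of `G` different from `e`. -/
noncomputable def ec (e : Sym2 ℕ) (G : Gr) : ℕ := (G.edgeSet \ {e}).ncard

/-- Networks, the edge `st` is not counted. -/
noncomputable def Qy (y : ℝ≥0∞) (n : ℕ) : ℝ≥0∞ :=
  ∑' G : {G : Gr // Net 0 1 (Ico 2 (n + 2)) G}, y ^ ec s(0, 1) G.1

/-- Pieces. -/
noncomputable def nPy (y : ℝ≥0∞) (n : ℕ) : ℝ≥0∞ :=
  ∑' G : {G : Gr // Piece 0 1 (Ico 2 (n + 2)) G}, y ^ ec s(0, 1) G.1

/-- Series pieces. -/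
noncomputable def nSy (y : ℝ≥0∞) (n : ℕ) : ℝ≥0∞ :=
  ∑' G : {G : Gr // Series 0 1 (Ico 2 (n + 2)) G}, y ^ ec s(0, 1) G.1

/-- Pieces that are not series. -/
noncomputable def nHy (y : ℝ≥0∞) (n : ℕ) : ℝ≥0∞ :=
  ∑' G : {G : Gr // HPiece 0 1 (Ico 2 (n + 2)) G}, y ^ ec s(0, 1) G.1

/-- Networks, with or without the edge `st`, not empty. -/
noncomputable def ddy (y : ℝ≥0∞) (n : ℕ) : ℝ≥0∞ := if n = 0 then y else (1 + y) * Qy y n

/-- Networks that are not series pieces without the edge `st`. -/
noncomputable def eey (y : ℝ≥0∞) (n : ℕ) : ℝ≥0∞ :=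
  ∑' p : {p : Gr × Bool // Net 0 1 (Ico 2 (n + 2)) p.1 ∧ (n = 0 → p.2 = true) ∧
    (p.2 = true ∨ ¬ Series 0 1 (Ico 2 (n + 2)) p.1)}, y ^ (ec s(0, 1) p.1.1 + p.1.2.toNat)

/-- The generating function of the nonempty networks with edge weight `y`. -/
noncomputable def Dy (x y : ℝ≥0∞) : ℝ≥0∞ := egf (ddy y) x

end K5
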