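import Pool.Agent.Lib.K5.BEdge
import Pool.Agent.Lib.K5.EDefs

/-!
# K5.EBDg: edges of blocks and networks, with a weight for every edge (double counting)

`em G`: the number of edges of `G`. `blk_edge`: twice the sum of `m y^(m-1)` over the blocks on `S`
is `|S| (|S| - 1) Qy y (|S| - 2)`: exchange the sum over the blocks and the sum over the ordered
pairs of adjacent vertices.
-/

set_option autoImplicit false

namespace K5

open Finset
open scoped ENNReal

/-- The number of edges. -/
noncomputable def em (G : Gr) : ℕ := G.edgeSet.ncard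

namespace EBAux

open RelAux Rel2Aux RelCAux

theorem ec_rg (σ : Equiv.Perm ℕ) {s t : ℕ} {G : Gr} :
    ec s(σ s, σ t) (rg σ G) = ec s(s, t) G := by
  unfold ec
  refine ncard_rg' σ (p := fun e => e ∈ G.edgeSet ∧ e ∉ ({s(s, t)} : Set (Sym2 ℕ)))
    (q := fun e => e ∈ (rg σ G).edgeSet ∧ e ∉ ({s(σ s, σ t)} : Set (Sym2 ℕ))) fun e => ?_
  rw [edge_rg]
  refine and_congr_right fun _ => not_congr ?_
  rw [Set.mem_singleton_iff, Set.mem_singleton_iff]
  have h : s(σ s, σ t) = Sym2.map σ s(s, t) := rfl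
  rw [h]
  exact (Sym2.map.injective σ.injective).eq_iff

theorem netw_cnt (y : ℝ≥0∞) {s t : ℕ} {U : Finset ℕ} (h : s ≠ t) (hs : s ∉ U) (ht : t ∉ U) :
    ∑' G : {G : Gr // Net s t U G}, y ^ ec s(s, t) G.1 = Qy y U.card := by
  obtain ⟨σ, h0, h1, hU⟩ := exists_st h hs ht
  exact tsum_rg σ (P := fun G => Net s t U G)
    (Q := fun G => Net 0 1 (Ico 2 (U.card + 2)) G) (fun G => y ^ ec s(s, t) G)
    (fun G => y ^ ec s(0, 1) G)
    (fun G => by rw [← h0, ← h1, ← hU]; exact net_rg σ)
    (fun G => by rw [← h0, ← h1, ec_rg])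

theorem finite_edges {G : Gr} {S : Finset ℕ} (h : On G S) : G.edgeSet.Finite := by
  classical
  refine (S.sym2.finite_toSet).subset ?_
  intro e he
  induction e using Sym2.ind with
  | _ a b =>
    rw [SimpleGraph.mem_edgeSet] at he
    simp only [Finset.mem_coe, Finset.mk_mem_sym2_iff]
    exact ⟨h a b he, h b a he.symm⟩

theorem ec_eq {G : Gr} {a b : ℕ} (hab : G.Adj a b) :
    ec s(a, b) G = em G - 1 := by
  unfold ec em
  exact Set.ncard_sdiff_singleton_of_mem ((SimpleGraph.mem_edgeSet G).2 hab)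

open Classical in
/-- The ordered pairs of adjacent vertices. -/
noncomputable def dp (G : Gr) (S : Finset ℕ) : Finset (ℕ × ℕ) :=
  S.offDiag.filter (fun p => G.Adj p.1 p.2)

theorem card_dp {G : Gr} {S : Finset ℕ} (h : On G S) : (dp G S).card = 2 * em G := by
  classical
  have hf := finite_edges h
  have hE : em G = hf.toFinset.card := by
    unfold em
    exact Set.ncard_eq_toFinset_card _ hf
  have h1 : ∀ p ∈ dp G S, s(p.1, p.2) ∈ hf.toFinset := by
    intro p hp
    unfold dp at hp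
    rw [Set.Finite.mem_toFinset, SimpleGraph.mem_edgeSet]
    exact (Finset.mem_filter.1 hp).2
  rw [Finset.card_eq_sum_card_fiberwise (f := fun p : ℕ × ℕ => s(p.1, p.2))
    (t := hf.toFinset) h1, hE, mul_comm, ← smul_eq_mul, ← Finset.sum_const]
  refine Finset.sum_congr rfl fun e he => ?_
  rw [Set.Finite.mem_toFinset] at he
  induction e using Sym2.ind with
  | _ a b =>
    rw [SimpleGraph.mem_edgeSet] at he
    have : (dp G S).filter (fun p => s(p.1, p.2) = s(a, b)) = {(a, b), (b, a)} := by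
      ext ⟨c, d⟩
      unfold dp
      rw [Finset.mem_filter, Finset.mem_filter, Finset.mem_offDiag, Finset.mem_insert,
        Finset.mem_singleton, Sym2.eq_iff, Prod.mk.injEq, Prod.mk.injEq]
      constructor
      · rintro ⟨-, h2⟩
        exact h2
      · rintro (⟨rfl, rfl⟩ | ⟨rfl, rfl⟩)
        · exact ⟨⟨⟨h _ _ he, h _ _ he.symm, he.ne⟩, he⟩, Or.inl ⟨rfl, rfl⟩⟩
        · exact ⟨⟨⟨h _ _ he.symm, h _ _ he, he.ne'⟩, he.symm⟩, Or.inr ⟨rfl, rfl⟩⟩
    rw [this]
    exact Finset.card_pair (fun e => he.ne (Prod.mk.inj e).1)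

end EBAux

open EBAux

theorem blk_edge (y : ℝ≥0∞) (S : Finset ℕ) :
    2 * ∑' G : {G : Gr // BB S G}, (em G.1 : ℝ≥0∞) * y ^ (em G.1 - 1) =
      ((S.card * (S.card - 1) : ℕ) : ℝ≥0∞) * Qy y (S.card - 2) := by
  classical
  have h1 : ∀ G : {G : Gr // BB S G}, 2 * ((em G.1 : ℝ≥0∞) * y ^ (em G.1 - 1)) =
      ∑ p ∈ S.offDiag, if G.1.Adj p.1 p.2 then y ^ ec s(p.1, p.2) G.1 else 0 := by
    intro G
    rw [← Finset.sum_filter]
    have h2 : ∀ p ∈ S.offDiag.filter (fun p => G.1.Adj p.1 p.2),
        y ^ ec s(p.1, p.2) G.1 = y ^ (em G.1 - 1) := fun p hp => by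
      rw [ec_eq (Finset.mem_filter.1 hp).2]
    rw [Finset.sum_congr rfl h2, Finset.sum_const, nsmul_eq_mul]
    have h3 : (S.offDiag.filter (fun p => G.1.Adj p.1 p.2)).card = 2 * em G.1 := by
      rw [← card_dp G.2.on]
      unfold dp
      congr
    rw [h3]
    push_cast
    ring
  rw [← ENNReal.tsum_mul_left, tsum_congr h1,
    Summable.tsum_finsetSum (fun _ _ => ENNReal.summable)]
  have h4 : ∀ p ∈ S.offDiag, ∑' G : {G : Gr // BB S G},
      (if G.1.Adj p.1 p.2 then y ^ ec s(p.1, p.2) G.1 else 0) = Qy y (S.card - 2) := by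
    rintro ⟨a, b⟩ hp
    rw [Finset.mem_offDiag] at hp
    obtain ⟨ha, hb, hab⟩ := hp
    dsimp only at ha hb hab ⊢
    have ha' : a ∉ (S.erase a).erase b := by simp
    have hb' : b ∉ (S.erase a).erase b := by simp
    have hc : ((S.erase a).erase b).card = S.card - 2 := by
      rw [Finset.card_erase_of_mem (Finset.mem_erase.2 ⟨hab.symm, hb⟩),
        Finset.card_erase_of_mem ha]
      omega
    rw [← hc, ← netw_cnt y hab ha' hb']
    have e1 : ∑' G : {G : Gr // BB S G}, (if G.1.Adj a b then y ^ ec s(a, b) G.1 else 0) =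
        ∑' G : Gr, if BB S G then (if G.Adj a b then y ^ ec s(a, b) G else 0) else 0 := by
      have := _root_.tsum_subtype {G : Gr | BB S G}
        (fun G => if G.Adj a b then y ^ ec s(a, b) G else 0)
      refine this.trans (tsum_congr fun G => ?_)
      by_cases hG : BB S G
      · rw [if_pos hG, Set.indicator_of_mem (by exact hG)]
      · rw [if_neg hG, Set.indicator_of_notMem (by exact hG)]
    have e2 : ∑' G : {G : Gr // Net a b ((S.erase a).erase b) G}, y ^ ec s(a, b) G.1 =
        ∑' G : Gr, if Net a b ((S.erase a).erase b) G then y ^ ec s(a, b) G else 0 := by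
      have := _root_.tsum_subtype {G : Gr | Net a b ((S.erase a).erase b) G}
        (fun G => y ^ ec s(a, b) G)
      refine this.trans (tsum_congr fun G => ?_)
      by_cases hG : Net a b ((S.erase a).erase b) G
      · rw [if_pos hG, Set.indicator_of_mem (by exact hG)]
      · rw [if_neg hG, Set.indicator_of_notMem (by exact hG)]
    rw [e1, e2]
    refine tsum_congr fun G => ?_
    have e3 := bb_net ha hb hab G
    by_cases hG : BB S G
    · by_cases hG2 : G.Adj a b
      · rw [if_pos hG, if_pos hG2, if_pos (e3.1 ⟨hG, hG2⟩)]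
      · rw [if_pos hG, if_neg hG2, if_neg (fun h => hG2 (e3.2 h).2)]
    · rw [if_neg hG, if_neg (fun h => hG (e3.2 h).1)]
  rw [Finset.sum_congr rfl h4, Finset.sum_const, nsmul_eq_mul, Finset.offDiag_card,
    Nat.mul_sub_one]

end K5
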