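import Pool.Agent.Lib.K5.EBDg

/-!
# K5.EBInt: the generating function of the blocks is an integral over the edge weight

`blk_egf`: `∑ x^n/n! ∑ m y^(m-1) = x^2/2 * egf (Qy y) x`, the inner sum over the blocks on `n`
vertices with `m` edges. `blk_int`: `∑ x^(n+1)/(n+1)! bE n = x^2/2 * ∫ egf (Qy y) x dy` over
`[0, 1]`, since `∫ m y^(m-1) dy = 1`.
-/

set_option autoImplicit false

namespace K5

open Finset MeasureTheory
open scoped ENNReal

namespace EBAux

theorem em_pos {G : Gr} {S : Finset ℕ} (h : BB S G) : 1 ≤ em G := by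
  have hf := finite_edges h.on
  obtain ⟨h2, h1, -⟩ := h.blk
  obtain ⟨a, ha⟩ := h1.1
  obtain ⟨u, -, v, -, -, hadj⟩ := h1.2 {a} (Finset.singleton_subset_iff.2 ha)
    (Finset.singleton_nonempty a) (by
      intro e
      rw [← e, Finset.card_singleton] at h2
      omega)
  unfold em
  rw [Nat.one_le_iff_ne_zero, Ne, Set.ncard_eq_zero hf]
  intro e
  have h3 : s(u, v) ∈ G.edgeSet := (SimpleGraph.mem_edgeSet G).2 hadj
  rw [e] at h3
  exact h3

theorem int_pow {m : ℕ} (hm : 1 ≤ m) :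
    ∫⁻ y in Set.Icc (0 : ℝ) 1, (m : ℝ≥0∞) * ENNReal.ofReal y ^ (m - 1) = 1 := by
  have h1 : ∫⁻ y in Set.Icc (0 : ℝ) 1, (m : ℝ≥0∞) * ENNReal.ofReal y ^ (m - 1) =
      ∫⁻ y in Set.Icc (0 : ℝ) 1, ENNReal.ofReal ((m : ℝ) * y ^ (m - 1)) := by
    refine setLIntegral_congr_fun measurableSet_Icc fun y hy => ?_
    show (m : ℝ≥0∞) * ENNReal.ofReal y ^ (m - 1) = ENNReal.ofReal ((m : ℝ) * y ^ (m - 1))
    rw [ENNReal.ofReal_mul (Nat.cast_nonneg m), ENNReal.ofReal_pow hy.1, ENNReal.ofReal_natCast]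
  have hc : Continuous fun y : ℝ => (m : ℝ) * y ^ (m - 1) := by fun_prop
  have h2 : IntegrableOn (fun y : ℝ => (m : ℝ) * y ^ (m - 1)) (Set.Icc 0 1) :=
    hc.continuousOn.integrableOn_compact isCompact_Icc
  rw [h1, ← ofReal_integral_eq_lintegral_ofReal h2]
  · rw [integral_Icc_eq_integral_Ioc, ← intervalIntegral.integral_of_le zero_le_one,
      intervalIntegral.integral_const_mul, integral_pow]
    have h3 : m - 1 + 1 = m := by omega
    have h4 : ((m - 1 : ℕ) : ℝ) + 1 = m := by exact_mod_cast h3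
    have h5 : (m : ℝ) ≠ 0 := by positivity
    rw [h4, h3, one_pow, zero_pow (by omega), sub_zero, mul_one_div_cancel h5, ENNReal.ofReal_one]
  · refine (ae_restrict_iff' measurableSet_Icc).2 (Filter.Eventually.of_forall fun y hy => ?_)
    have := hy.1
    show (0 : ℝ) ≤ (m : ℝ) * y ^ (m - 1)
    positivity

theorem meas_Qy (n : ℕ) : Measurable fun y : ℝ => Qy (ENNReal.ofReal y) n := by
  have : Finite {G : Gr // Net 0 1 (Ico 2 (n + 2)) G} := by
    have := RelCAux.finite_on' (St 0 1 (Ico 2 (n + 2)))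
    exact Finite.of_injective
      (fun G : {G : Gr // Net 0 1 (Ico 2 (n + 2)) G} =>
        (⟨G.1, G.2.on⟩ : {G : Gr // On G (St 0 1 (Ico 2 (n + 2)))}))
      (fun G H hGH => Subtype.ext (congrArg (fun x => x.1) hGH))
  unfold Qy
  exact Measurable.ennreal_tsum fun G => (ENNReal.measurable_ofReal).pow_const _

theorem term (x a q : ℝ≥0∞) (n : ℕ) (h : 2 * a = (((n + 2) * (n + 1) : ℕ) : ℝ≥0∞) * q) :
    x ^ (n + 2) / ((n + 2).factorial : ℝ≥0∞) * a =
      x ^ 2 / 2 * (x ^ n / (n.factorial : ℝ≥0∞) * q) := by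
  have h2 : (2 : ℝ≥0∞)⁻¹ * 2 = 1 := ENNReal.inv_mul_cancel (by norm_num) (by norm_num)
  have ha : a = 2⁻¹ * ((((n + 2) * (n + 1) : ℕ) : ℝ≥0∞) * q) := by
    rw [← h, ← mul_assoc, h2, one_mul]
  have hf : ((n + 2).factorial : ℝ≥0∞) =
      (((n + 2) * (n + 1) : ℕ) : ℝ≥0∞) * (n.factorial : ℝ≥0∞) := by
    rw [← Nat.cast_mul, Nat.factorial_succ, Nat.factorial_succ, mul_assoc]
  set c : ℝ≥0∞ := (((n + 2) * (n + 1) : ℕ) : ℝ≥0∞) with hcd
  have hc0 : c ≠ 0 := by
    rw [hcd]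
    positivity
  have hct : c ≠ ⊤ := ENNReal.natCast_ne_top _
  have hcc : c⁻¹ * c = 1 := ENNReal.inv_mul_cancel hc0 hct
  rw [hf, ha, div_eq_mul_inv, div_eq_mul_inv, div_eq_mul_inv,
    ENNReal.mul_inv (Or.inl hc0) (Or.inl hct), pow_add]
  calc x ^ n * x ^ 2 * (c⁻¹ * (n.factorial : ℝ≥0∞)⁻¹) * (2⁻¹ * (c * q))
      = x ^ 2 * 2⁻¹ * (x ^ n * (n.factorial : ℝ≥0∞)⁻¹ * q) * (c⁻¹ * c) := by ring
    _ = _ := by rw [hcc, mul_one]

theorem no_bb {n : ℕ} (hn : n ≤ 1) : IsEmpty {G : Gr // BB (range n) G} := by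
  refine ⟨fun G => ?_⟩
  have := G.2.blk.1
  rw [Finset.card_range] at this
  omega

end EBAux

open EBAux

theorem blk_egf (x y : ℝ≥0∞) :
    ∑' n : ℕ, x ^ n / (n.factorial : ℝ≥0∞) *
      ∑' G : {G : Gr // BB (range n) G}, (em G.1 : ℝ≥0∞) * y ^ (em G.1 - 1) =
      x ^ 2 / 2 * egf (Qy y) x := by
  rw [tsum_eq_zero_add' ENNReal.summable, tsum_eq_zero_add' ENNReal.summable]
  have := no_bb (n := 0) (by norm_num)
  have := no_bb (n := 0 + 1) (by norm_num)
  rw [tsum_empty, tsum_empty, mul_zero, mul_zero, zero_add, zero_add]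
  unfold egf
  rw [← ENNReal.tsum_mul_left]
  refine tsum_congr fun n => ?_
  refine term x _ _ n ?_
  rw [blk_edge, Finset.card_range]
  rfl

theorem blk_num (n : ℕ) : 2 * bE (n + 1) = (((n + 2) * (n + 1) : ℕ) : ℝ≥0∞) *
    ∫⁻ y in Set.Icc (0 : ℝ) 1, Qy (ENNReal.ofReal y) n := by
  have h1 := bb_card (S := range (n + 2)) ⟨0, by simp⟩
  rw [Finset.card_range] at h1
  have hfin := finite_bb (range (n + 2))
  have h2 : bE (n + 1) = ∫⁻ y in Set.Icc (0 : ℝ) 1, ∑' G : {G : Gr // BB (range (n + 2)) G},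
      (em G.1 : ℝ≥0∞) * ENNReal.ofReal y ^ (em G.1 - 1) := by
    rw [lintegral_tsum]
    · rw [tsum_congr fun G => int_pow (em_pos G.2), tsum_one, h1]
      rfl
    · intro G
      exact ((ENNReal.measurable_ofReal.pow_const _).const_mul _).aemeasurable
  rw [h2, ← lintegral_const_mul, ← lintegral_const_mul _ (meas_Qy n)]
  · refine lintegral_congr fun y => ?_
    rw [blk_edge, Finset.card_range]
    rfl
  · exact Measurable.ennreal_tsum fun G => (ENNReal.measurable_ofReal.pow_const _).const_mul _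

theorem bE_zero : bE 0 = 0 := by
  have h1 := bb_card (S := range 1) ⟨0, by simp⟩
  rw [Finset.card_range] at h1
  have := no_bb (n := 1) le_rfl
  rw [Nat.card_of_isEmpty] at h1
  unfold bE
  rw [← h1]
  simp

theorem blk_int (x : ℝ≥0∞) :
    ∑' n : ℕ, x ^ (n + 1) / ((n + 1).factorial : ℝ≥0∞) * bE n =
      x ^ 2 / 2 * ∫⁻ y in Set.Icc (0 : ℝ) 1, egf (Qy (ENNReal.ofReal y)) x := by
  rw [tsum_eq_zero_add' ENNReal.summable, bE_zero, mul_zero, zero_add]
  unfold egf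
  rw [lintegral_tsum fun n => ((meas_Qy n).const_mul _).aemeasurable, ← ENNReal.tsum_mul_left]
  refine tsum_congr fun n => ?_
  rw [lintegral_const_mul _ (meas_Qy n)]
  exact term x _ _ n (blk_num n)

end K5
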