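import Pool.Agent.Lib.K5.EDefs
import Pool.Agent.Lib.K5.CntB
import Pool.Agent.Lib.K5.Basic0

/-!
# K5.EBas: small facts about the weighted counting functions

Adapt the finished file `K5/Basic0.lean` (same statements without weights; also finite types, `tsum_one_eq` with a weight: `∑' x : {x // p x}, F x.1 = ∑' x, if p x then F x else 0` from `tsum_subtype`).
1. `ecard_eq`: `CntBAux.clq_pair` (`(clq {s, t}).edgeSet = {s(s, t)}`), definitions of `ecard` and `ec`. `ec_clq`: the edge set of `clq {s, t}` without `s(s, t)` is empty.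
2. `Qy_zero`: `net_empty`: the only network on the empty interior is `clq {0, 1}`, `ec_clq`, `y ^ 0 = 1`.
3. `nPy_eq`: a piece is a series piece or an `HPiece`, not both. `nPy_zero`, `nSy_zero`: a piece on the empty interior does not exist (`Basic0Aux.not_piece_empty`).
4. `ddy_add`: `n = 0`: `y + 1 = (1 + y) * 1` (`Qy_zero`), otherwise by definition. `Qy_ne_top`: the type of the networks is finite (`Basic0Aux.finite_sub`), the terms are finite; `ddy_ne_top` from it.
5. `eey_add`: `∑'` over `Gr × Bool` is the sum of the term with `true` (`Net`, weight `y ^ (ec + 1)`: total `y * Qy y n`) and the term with `false` (`Net`, `n ≠ 0`, not series, weight `y ^ ec`); adding `nSy y n` to the latter gives `Qy y n` if `n ≠ 0`; for `n = 0`: `y * 1 + 0 + 0 = y`.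
6. `Dy_one`: `Qy 1 n = Q n` (`tsum` of ones over a finite type: `Basic0Aux.tsum_one_card`), so `ddy 1 = dd`, `1 + 1 = 2`.
-/

namespace K5

open Finset
open scoped ENNReal

open Basic0Aux

namespace EBasAux

open Classical in
theorem tsum_w_eq {α : Type*} (p : α → Prop) (F : α → ℝ≥0∞) :
    ∑' x : {x : α // p x}, F x.1 = ∑' x : α, if p x then F x else 0 := by
  have h := _root_.tsum_subtype {x : α | p x} F
  refine h.trans (tsum_congr (fun x => ?_))
  by_cases hx : p x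
  · rw [if_pos hx, Set.indicator_of_mem (by exact hx)]
  · rw [if_neg hx, Set.indicator_of_notMem (by exact hx)]

end EBasAux

open EBasAux

theorem ecard_eq {s t : ℕ} (h : s ≠ t) (G : Gr) : ecard {s, t} G = ec s(s, t) G := by
  unfold ecard ec
  rw [CntBAux.clq_pair h]

theorem ec_clq {s t : ℕ} (h : s ≠ t) : ec s(s, t) (clq {s, t}) = 0 := by
  unfold ec
  rw [CntBAux.clq_pair h]
  simp

theorem Qy_zero (y : ℝ≥0∞) : Qy y 0 = 1 := by
  unfold Qy
  have h : ∀ G : Gr, Net 0 1 (Ico 2 (0 + 2)) G ↔ G = clq {0, 1} := fun G => by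
    have : Ico 2 (0 + 2) = (∅ : Finset ℕ) := by simp
    rw [this]
    exact net_empty (by norm_num)
  have : Unique {G : Gr // Net 0 1 (Ico 2 (0 + 2)) G} :=
    { default := ⟨clq {0, 1}, (h _).2 rfl⟩
      uniq := fun G => Subtype.ext ((h _).1 G.2) }
  rw [tsum_fintype, Fintype.sum_unique]
  have h1 : (default : {G : Gr // Net 0 1 (Ico 2 (0 + 2)) G}).1 = clq {0, 1} :=
    (h _).1 (default : {G : Gr // Net 0 1 (Ico 2 (0 + 2)) G}).2
  rw [h1, ec_clq (by norm_num), pow_zero]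

theorem nPy_eq (y : ℝ≥0∞) (n : ℕ) : nPy y n = nSy y n + nHy y n := by
  classical
  unfold nPy nSy nHy
  rw [tsum_w_eq (fun G => Piece 0 1 (Ico 2 (n + 2)) G) (fun G => y ^ ec s(0, 1) G),
    tsum_w_eq (fun G => Series 0 1 (Ico 2 (n + 2)) G) (fun G => y ^ ec s(0, 1) G),
    tsum_w_eq (fun G => HPiece 0 1 (Ico 2 (n + 2)) G) (fun G => y ^ ec s(0, 1) G),
    ← ENNReal.tsum_add]
  refine tsum_congr (fun G => ?_)
  by_cases h1 : Piece 0 1 (Ico 2 (n + 2)) G
  · by_cases h2 : Series 0 1 (Ico 2 (n + 2)) G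
    · simp [h1, h2, HPiece]
    · simp [h1, h2, HPiece]
  · have h2 : ¬ Series 0 1 (Ico 2 (n + 2)) G := fun h => h1 h.piece
    simp [h1, h2, HPiece]

theorem nPy_zero (y : ℝ≥0∞) : nPy y 0 = 0 := by
  unfold nPy
  have : IsEmpty {G : Gr // Piece 0 1 (Ico 2 (0 + 2)) G} := ⟨fun G => not_piece_empty G.2⟩
  exact tsum_empty

theorem nSy_zero (y : ℝ≥0∞) : nSy y 0 = 0 := by
  unfold nSy
  have : IsEmpty {G : Gr // Series 0 1 (Ico 2 (0 + 2)) G} := ⟨fun G => not_piece_empty G.2.piece⟩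
  exact tsum_empty

theorem ddy_add (y : ℝ≥0∞) (n : ℕ) : ddy y n + (if n = 0 then 1 else 0) = (1 + y) * Qy y n := by
  unfold ddy
  by_cases hn : n = 0
  · subst hn
    rw [if_pos rfl, if_pos rfl, Qy_zero, mul_one, add_comm]
  · rw [if_neg hn, if_neg hn, add_zero]

theorem Qy_ne_top {y : ℝ≥0∞} (hy : y ≠ ⊤) (n : ℕ) : Qy y n ≠ ⊤ := by
  unfold Qy
  have hfin : Finite {G : Gr // Net 0 1 (Ico 2 (n + 2)) G} :=
    finite_sub (S := St 0 1 (Ico 2 (n + 2))) _ (fun G h => h.on)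
  have := Fintype.ofFinite {G : Gr // Net 0 1 (Ico 2 (n + 2)) G}
  rw [tsum_fintype]
  exact ENNReal.sum_ne_top.2 (fun G _ => ENNReal.pow_ne_top hy)

theorem ddy_ne_top {y : ℝ≥0∞} (hy : y ≠ ⊤) (n : ℕ) : ddy y n ≠ ⊤ := by
  unfold ddy
  split_ifs
  · exact hy
  · exact ENNReal.mul_ne_top (ENNReal.add_ne_top.2 ⟨ENNReal.one_ne_top, hy⟩) (Qy_ne_top hy n)

theorem eey_add (y : ℝ≥0∞) (n : ℕ) : eey y n + nSy y n = ddy y n := by
  classical
  have hQ : Qy y n = ∑' G : Gr, if Net 0 1 (Ico 2 (n + 2)) G then y ^ ec s(0, 1) G else 0 := by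
    unfold Qy
    rw [tsum_w_eq (fun G => Net 0 1 (Ico 2 (n + 2)) G) (fun G => y ^ ec s(0, 1) G)]
  have hee : eey y n = ∑' G : Gr,
      ((if Net 0 1 (Ico 2 (n + 2)) G then y ^ (ec s(0, 1) G + 1) else 0) +
      (if Net 0 1 (Ico 2 (n + 2)) G ∧ n ≠ 0 ∧ ¬ Series 0 1 (Ico 2 (n + 2)) G then
        y ^ ec s(0, 1) G else 0)) := by
    unfold eey
    rw [tsum_w_eq (fun p : Gr × Bool => Net 0 1 (Ico 2 (n + 2)) p.1 ∧ (n = 0 → p.2 = true) ∧
        (p.2 = true ∨ ¬ Series 0 1 (Ico 2 (n + 2)) p.1))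
        (fun p : Gr × Bool => y ^ (ec s(0, 1) p.1 + p.2.toNat)), ENNReal.tsum_prod']
    refine tsum_congr (fun G => ?_)
    rw [tsum_fintype, Fintype.sum_bool]
    simp
  have hy1 : ∑' G : Gr, (if Net 0 1 (Ico 2 (n + 2)) G then y ^ (ec s(0, 1) G + 1) else 0) =
      y * Qy y n := by
    rw [hQ, ← ENNReal.tsum_mul_left]
    refine tsum_congr (fun G => ?_)
    by_cases h : Net 0 1 (Ico 2 (n + 2)) G
    · rw [if_pos h, if_pos h, pow_succ, mul_comm]
    · rw [if_neg h, if_neg h, mul_zero]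
  rw [hee, ENNReal.tsum_add, hy1]
  rcases Nat.eq_zero_or_pos n with rfl | hn
  · rw [nSy_zero, add_zero]
    simp only [ne_eq, not_true_eq_false, false_and, and_false, if_false, tsum_zero, add_zero]
    rw [Qy_zero, mul_one]
    simp [ddy]
  · have hn' : n ≠ 0 := by omega
    have : ddy y n = y * Qy y n + Qy y n := by
      simp only [ddy, if_neg hn']
      ring
    rw [this, add_assoc]
    congr 1
    unfold nSy
    rw [tsum_w_eq (fun G => Series 0 1 (Ico 2 (n + 2)) G) (fun G => y ^ ec s(0, 1) G),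
      ← ENNReal.tsum_add, hQ]
    refine tsum_congr (fun G => ?_)
    by_cases h1 : Net 0 1 (Ico 2 (n + 2)) G
    · by_cases h2 : Series 0 1 (Ico 2 (n + 2)) G
      · simp [h1, h2]
      · simp [h1, h2, hn']
    · have h2 : ¬ Series 0 1 (Ico 2 (n + 2)) G := fun h => h1 h.piece.net
      simp [h1, h2]

theorem Qy_one (n : ℕ) : Qy 1 n = (Q n : ℝ≥0∞) := by
  have hfin : Finite {G : Gr // Net 0 1 (Ico 2 (n + 2)) G} :=
    finite_sub (S := St 0 1 (Ico 2 (n + 2))) _ (fun G h => h.on)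
  unfold Qy Q
  simp only [one_pow]
  exact tsum_one_card

theorem Dy_one (x : ℝ≥0∞) : Dy x 1 = D x := by
  unfold Dy D egf
  refine tsum_congr (fun n => ?_)
  congr 1
  unfold ddy
  by_cases hn : n = 0
  · rw [if_pos hn, if_pos hn]
  · rw [if_neg hn, if_neg hn, Qy_one, one_add_one_eq_two]

end K5
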