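import Pool.Agent.Lib.K5.EDefs
import Pool.Agent.Lib.K5.ExpF
import Pool.Agent.Lib.K5.CompB

/-!
# K5.ECmp: the number of edges of the graph of a code

Let `c` be a valid code (`Code.Valid s t U`), `E` the finset of the edges of `c.H` different from `s(s, t)`, `K = c.comp s t`.
PROOF of `Code.Valid.ec_comp`. The set `X = K.edgeSet \ {s(s, t)}` is the disjoint union of the sets `(c.N e).edgeSet \ {e}` (`e ∈ E`) and of `{e ∈ E | e ∈ c.F}` (definition of `Code.comp`: a pair `a ≠ b` with `s(a, b) ≠ s(s, t)` is adjacent iff `s(a, b) ∈ c.F` or `(c.N e).Adj a b` and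
`s(a, b) ≠ e` for some `e`; `c.N e = ⊥` outside `E` by `net_out`; `F ⊆ E` by `F_sub`; an edge `s(a, b) ≠ e` of `c.N e`, `e ∈ E`, is different from `s(s, t)`).
(1) For `e = s(u, v) ∈ E`: `Net u v (c.fib U e) (c.N e)` up to the order of `u, v` (`net`), `u, v ∈ St s t c.A` (`core.on`); an edge `s(a, b) ≠ e` of `c.N e` has an end in `c.fib U e`: both ends are in `St u v (fib)` (`Net.on`), and if both are in `{u, v}` the edge is `e`.
(2) `fib U e ⊆ U \ A`, the sets `fib U e` are disjoint for different `e`, and disjoint from `St s t c.A` (`s, t ∉ U`).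
(3) So an edge in `(c.N e).edgeSet \ {e}` and in `(c.N e').edgeSet \ {e'}` with `e ≠ e'`: one end is in `fib e`, this end is in `St u' v' (fib e')`, not in `fib e'` and not in `{u', v'} ⊆ St s t A`: contradiction. An edge of `F ⊆ H.edgeSet` has both ends in `St s t A`, so it is not in `(c.N e).edgeSet \ {e}`.
All the sets are finite (`edgeSet_finite` of `K5.ExpF` with `Net.on`). Count: `Set.ncard` of a finite disjoint union, e.g. turn the sets into finsets (`Set.Finite.toFinset`, `Finset.card_biUnion`, `Finset.card_union_of_disjoint`, `Set.ncard_eq_toFinset_card`), and `∑ e ∈ E, (if e ∈ c.F then 1 else 0) = (E.filter (· ∈ c.F)).card`.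
-/

namespace K5

open Finset

namespace ECmpAux

variable {s t : ℕ} {U : Finset ℕ} {c : Code}

theorem not_St (h : c.Valid s t U) {x : ℕ} (hx : x ∈ U) (hA : x ∉ c.A) : x ∉ St s t c.A := by
  intro h1
  simp only [St, Finset.mem_insert] at h1
  rcases h1 with rfl | rfl | h1
  · exact h.hs hx
  · exact h.ht hx
  · exact hA h1

theorem mem_core (h : c.Valid s t U) {e : Sym2 ℕ} (he : e ∈ c.H.edgeSet) {x : ℕ} (hx : x ∈ e) :
    x ∈ St s t c.A := by
  induction e with
  | h u v =>
    have he' : c.H.Adj u v := he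
    rcases Sym2.mem_iff.1 hx with rfl | rfl
    · exact h.core.on _ _ he'
    · exact h.core.on _ _ he'.symm

/-- The ends of an edge of a network are in the fibre or in the core. -/
theorem mem_net (h : c.Valid s t U) {e d : Sym2 ℕ} (he : e ∈ c.H.edgeSet) (hne : e ≠ s(s, t))
    (hd : d ∈ (c.N e).edgeSet) {x : ℕ} (hx : x ∈ d) : x ∈ c.fib U e ∨ x ∈ e := by
  obtain ⟨u, v, h1, h2⟩ := h.net e he hne
  have h3 : x ∈ St u v (c.fib U e) := by
    induction d with
    | h a b =>
      have hd' : (c.N e).Adj a b := hd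
      rcases Sym2.mem_iff.1 hx with rfl | rfl
      · exact h2.on _ _ hd'
      · exact h2.on _ _ hd'.symm
  simp only [St, Finset.mem_insert] at h3
  rcases h3 with h3 | h3 | h3
  · right
    rw [h1, h3]
    exact Sym2.mem_mk_left _ _
  · right
    rw [h1, h3]
    exact Sym2.mem_mk_right _ _
  · exact Or.inl h3

/-- An edge of a network different from the root edge has an end in the fibre. -/
theorem end_fib (h : c.Valid s t U) {e d : Sym2 ℕ} (he : e ∈ c.H.edgeSet) (hne : e ≠ s(s, t))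
    (hd : d ∈ (c.N e).edgeSet) (hde : d ≠ e) : ∃ x ∈ d, x ∈ c.fib U e := by
  by_contra hcon
  push Not at hcon
  have h1 : ∀ x ∈ d, x ∈ e := fun x hx => (mem_net h he hne hd hx).resolve_left (hcon x hx)
  apply hde
  induction d with
  | h a b =>
    have hab : a ≠ b := (show (c.N e).Adj a b from hd).ne
    exact ((Sym2.mem_and_mem_iff hab).1 ⟨h1 a (Sym2.mem_mk_left _ _),
      h1 b (Sym2.mem_mk_right _ _)⟩).symm

open Classical in
/-- The edges that belong to the core edge `e`. -/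
noncomputable def part (c : Code) (e : Sym2 ℕ) : Set (Sym2 ℕ) :=
  ((c.N e).edgeSet \ {e}) ∪ (if e ∈ c.F then {e} else ∅)

theorem mem_part {e d : Sym2 ℕ} : d ∈ part c e ↔
    (d ∈ (c.N e).edgeSet ∧ d ≠ e) ∨ (e ∈ c.F ∧ d = e) := by
  unfold part
  split_ifs with h
  · simp only [Set.mem_union, Set.mem_sdiff, Set.mem_singleton_iff, h, true_and]
  · simp only [Set.mem_union, Set.mem_sdiff, Set.mem_singleton_iff, h, Set.mem_empty_iff_false,
      false_and]

theorem net_fin (h : c.Valid s t U) {e : Sym2 ℕ} (he : e ∈ c.H.edgeSet) (hne : e ≠ s(s, t)) :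
    (c.N e).edgeSet.Finite := by
  obtain ⟨u, v, h1, h2⟩ := h.net e he hne
  exact edgeSet_finite h2.on

theorem part_fin (h : c.Valid s t U) {e : Sym2 ℕ} (he : e ∈ c.H.edgeSet) (hne : e ≠ s(s, t)) :
    (part c e).Finite := by
  unfold part
  refine ((net_fin h he hne).subset Set.sdiff_subset).union ?_
  split_ifs
  · exact Set.finite_singleton _
  · exact Set.finite_empty

open Classical in
theorem part_ncard (h : c.Valid s t U) {e : Sym2 ℕ} (he : e ∈ c.H.edgeSet)
    (hne : e ≠ s(s, t)) : (part c e).ncard = ec e (c.N e) + if e ∈ c.F then 1 else 0 := by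
  unfold part
  have f1 : ((c.N e).edgeSet \ {e}).Finite := (net_fin h he hne).subset Set.sdiff_subset
  have f2 : (if e ∈ c.F then ({e} : Set (Sym2 ℕ)) else ∅).Finite := by
    split_ifs
    · exact Set.finite_singleton _
    · exact Set.finite_empty
  have f3 : Disjoint ((c.N e).edgeSet \ {e})
      (if e ∈ c.F then ({e} : Set (Sym2 ℕ)) else ∅) := by
    rw [Set.disjoint_left]
    intro d hd hd'
    split_ifs at hd' with h1
    · exact hd.2 hd'
    · exact hd'
  rw [Set.ncard_union_eq f3 f1 f2, ec]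
  congr 1
  split_ifs
  · exact Set.ncard_singleton _
  · exact Set.ncard_empty _

theorem disj (h : c.Valid s t U) {e e' : Sym2 ℕ} (he : e ∈ c.H.edgeSet) (hne : e ≠ s(s, t))
    (he' : e' ∈ c.H.edgeSet) (hne' : e' ≠ s(s, t)) (hee : e ≠ e') {d : Sym2 ℕ}
    (hd : d ∈ part c e) (hd' : d ∈ part c e') : False := by
  have key : ∀ e e' : Sym2 ℕ, e ∈ c.H.edgeSet → e ≠ s(s, t) → e' ∈ c.H.edgeSet → e' ≠ s(s, t) →
      e ≠ e' → d ∈ (c.N e).edgeSet → d ≠ e → d ∈ part c e' → False := by
    intro e e' he hne he' hne' hee h1 h2 h3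
    obtain ⟨x, hx, hxf⟩ := end_fib h he hne h1 h2
    obtain ⟨f1, f2, f3⟩ := h.fib_sub hxf
    have h4 : x ∉ St s t c.A := not_St h f1 f2
    rcases mem_part.1 h3 with ⟨h5, h6⟩ | ⟨h5, h6⟩
    · rcases mem_net h he' hne' h5 hx with h7 | h7
      · exact hee (f3.symm.trans (h.fib_sub h7).2.2)
      · exact h4 (mem_core h he' h7)
    · rw [h6] at hx
      exact h4 (mem_core h he' hx)
  rcases mem_part.1 hd with ⟨h1, h2⟩ | ⟨h1, h2⟩
  · exact key e e' he hne he' hne' hee h1 h2 hd'
  · rcases mem_part.1 hd' with ⟨h3, h4⟩ | ⟨h3, h4⟩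
    · exact key e' e he' hne' he hne hee.symm h3 h4 hd
    · exact hee (h2.symm.trans h4)

theorem mem_X (h : c.Valid s t U) {E : Finset (Sym2 ℕ)}
    (hE : ∀ e, e ∈ E ↔ e ∈ c.H.edgeSet ∧ e ≠ s(s, t)) (d : Sym2 ℕ) :
    d ∈ (c.comp s t).edgeSet \ {s(s, t)} ↔ ∃ e ∈ E, d ∈ part c e := by
  constructor
  · rintro ⟨h1, h2⟩
    induction d with
    | h a b =>
      have h1' : (c.comp s t).Adj a b := h1
      obtain ⟨-, h3 | h3 | ⟨e, h3, h4⟩⟩ := h1'
      · exact absurd h3 h2
      · exact ⟨_, (hE _).2 (h.F_sub _ h3), mem_part.2 (Or.inr ⟨h3, rfl⟩)⟩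
      · have he : e ∈ E := by
          rw [hE]
          by_contra hcon
          have : c.N e = ⊥ := by
            apply h.net_out e
            by_contra h5
            push Not at h5
            exact hcon h5
          rw [this] at h3
          exact h3
        exact ⟨e, he, mem_part.2 (Or.inl ⟨h3, h4⟩)⟩
  · rintro ⟨e, he, hd⟩
    obtain ⟨he1, he2⟩ := (hE e).1 he
    rcases mem_part.1 hd with ⟨h1, h2⟩ | ⟨h1, h2⟩
    · obtain ⟨x, hx, hxf⟩ := end_fib h he1 he2 h1 h2
      obtain ⟨f1, f2, f3⟩ := h.fib_sub hxf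
      refine ⟨?_, ?_⟩
      · induction d with
        | h a b =>
          have h3 : (c.N e).Adj a b := h1
          exact ⟨h3.ne, Or.inr (Or.inr ⟨e, h3, h2⟩)⟩
      · intro h3
        rw [Set.mem_singleton_iff] at h3
        rw [h3] at hx
        rcases Sym2.mem_iff.1 hx with rfl | rfl
        · exact h.hs f1
        · exact h.ht f1
    · refine ⟨?_, fun h3 => he2 (h2.symm.trans h3)⟩
      rw [h2]
      induction e with
      | h a b =>
        exact ⟨(show c.H.Adj a b from he1).ne, Or.inr (Or.inl h1)⟩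

end ECmpAux

open ECmpAux

open Classical in
theorem Code.Valid.ec_comp {s t : ℕ} {U : Finset ℕ} {c : Code} (h : c.Valid s t U)
    (E : Finset (Sym2 ℕ)) (hE : ∀ e, e ∈ E ↔ e ∈ c.H.edgeSet ∧ e ≠ s(s, t)) :
    ec s(s, t) (c.comp s t) = ∑ e ∈ E, (ec e (c.N e) + if e ∈ c.F then 1 else 0) := by
  have hfin : ∀ e : E, (part c e.1).Finite := fun e =>
    part_fin h ((hE e.1).1 e.2).1 ((hE e.1).1 e.2).2
  have h1 : (c.comp s t).edgeSet \ {s(s, t)} =
      ((E.attach.biUnion fun e => (hfin e).toFinset : Finset (Sym2 ℕ)) : Set (Sym2 ℕ)) := by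
    ext d
    rw [mem_X h hE d, Finset.mem_coe, Finset.mem_biUnion]
    constructor
    · rintro ⟨e, he, hd⟩
      exact ⟨⟨e, he⟩, Finset.mem_attach _ _, (hfin ⟨e, he⟩).mem_toFinset.2 hd⟩
    · rintro ⟨e, _, hd⟩
      exact ⟨e.1, e.2, (hfin e).mem_toFinset.1 hd⟩
  rw [ec, h1, Set.ncard_coe_finset, Finset.card_biUnion]
  · rw [← Finset.sum_attach E]
    refine Finset.sum_congr rfl fun e _ => ?_
    rw [← Set.ncard_eq_toFinset_card _ (hfin e)]
    exact part_ncard h ((hE e.1).1 e.2).1 ((hE e.1).1 e.2).2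
  · intro e _ e' _ hee
    show Disjoint (hfin e).toFinset (hfin e').toFinset
    rw [Finset.disjoint_left]
    intro d hd hd'
    exact disj h ((hE e.1).1 e.2).1 ((hE e.1).1 e.2).2 ((hE e'.1).1 e'.2).1 ((hE e'.1).1 e'.2).2
      (fun h0 => hee (Subtype.ext h0)) ((hfin e).mem_toFinset.1 hd) ((hfin e').mem_toFinset.1 hd')

end K5
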