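import Pool.Agent.Lib.K5.RelC
import Pool.Agent.Lib.K5.Basic0

/-!
# K5.RelD: the numbers of structures depend only on the sizes, continued

As in `K5.RelC`: the bijection `G ↦ rg σ G`.
`dd_count`: for `U = ∅` the only pair is `(G, true)` with `G` the only network on the empty set (`Q 0 = 1`: `K5.Basic0.q_zero`, or compare with `net_count`), otherwise two pairs for every network.
-/

namespace K5

open Finset
open scoped ENNReal

variable {s t : ℕ} {U : Finset ℕ}

namespace RelDAux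

/-- The bijection between two classes of graphs given by a relabelling. -/
def rgE {p p' : Gr → Prop} (σ : Equiv.Perm ℕ) (h : ∀ G, p' (rg σ G) ↔ p G) :
    {G : Gr // p G} ≃ {G : Gr // p' G} where
  toFun G := ⟨rg σ G.1, (h _).2 G.2⟩
  invFun G := ⟨rg σ⁻¹ G.1, (h _).1 (by rw [(rg_symm σ G.1).2]; exact G.2)⟩
  left_inv G := Subtype.ext (rg_symm σ G.1).1
  right_inv G := Subtype.ext (rg_symm σ G.1).2

/-- The same for graphs with a mark. -/
def rgEB {p p' : Gr × Bool → Prop} (σ : Equiv.Perm ℕ) (h : ∀ G b, p' (rg σ G, b) ↔ p (G, b)) :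
    {G : Gr × Bool // p G} ≃ {G : Gr × Bool // p' G} where
  toFun G := ⟨(rg σ G.1.1, G.1.2), (h _ _).2 G.2⟩
  invFun G := ⟨(rg σ⁻¹ G.1.1, G.1.2), (h _ _).1 (by rw [(rg_symm σ G.1.1).2]; exact G.2)⟩
  left_inv G := Subtype.ext (Prod.ext (rg_symm σ G.1.1).1 rfl)
  right_inv G := Subtype.ext (Prod.ext (rg_symm σ G.1.1).2 rfl)

end RelDAux

open RelDAux Basic0Aux

/-- More general weights. -/
theorem rtd_sum (φ : ℕ → ℝ≥0∞) {R : Finset ℕ} (hR : R.card = 2) (hd : Disjoint R U) :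
    ∑' G : {G : Gr // Rtd R U G}, φ (ecard R G.1) =
      ∑' G : {G : Gr // Rtd {0, 1} (Ico 2 (U.card + 2)) G}, φ (ecard {0, 1} G.1) := by
  obtain ⟨σ, h1, h2⟩ := exists_perm (R' := {0, 1}) (U' := Ico 2 (U.card + 2)) hd
    (by
      rw [Finset.disjoint_left]
      intro a ha hb
      simp only [Finset.mem_insert, Finset.mem_singleton, Finset.mem_Ico] at ha hb
      omega) (by rw [hR]; rfl) (by simp)
  have h : ∀ G, Rtd {0, 1} (Ico 2 (U.card + 2)) (rg σ G) ↔ Rtd R U G := fun G => by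
    rw [← h1, ← h2]
    exact rtd_rg σ
  rw [← Equiv.tsum_eq (rgE σ h)]
  refine tsum_congr fun G => ?_
  show φ (ecard R G.1) = φ (ecard {0, 1} (rg σ G.1))
  rw [← h1, ecard_rg]

theorem ee_count (h : s ≠ t) (hs : s ∉ U) (ht : t ∉ U) :
    ∑' _ : {p : Gr × Bool // Net s t U p.1 ∧ (U = ∅ → p.2 = true) ∧
      (p.2 = true ∨ ¬ Series s t U p.1)}, (1 : ℝ≥0∞) = ee U.card := by
  obtain ⟨σ, h1, h2, h3⟩ := exists_perm_st (s' := 0) (t' := 1) (U' := Ico 2 (U.card + 2)) h hs ht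
    (by norm_num) (by simp) (by simp) (by simp)
  have hN : ∀ G, Net 0 1 (Ico 2 (U.card + 2)) (rg σ G) ↔ Net s t U G := fun G => by
    rw [← h3, ← h1, ← h2]
    exact net_rg σ
  have hS : ∀ G, Series 0 1 (Ico 2 (U.card + 2)) (rg σ G) ↔ Series s t U G := fun G => by
    rw [← h3, ← h1, ← h2]
    exact series_rg σ
  unfold ee
  refine Equiv.tsum_eq (rgEB σ fun G b => ?_) (fun _ => (1 : ℝ≥0∞))
  show (Net 0 1 (Ico 2 (U.card + 2)) (rg σ G) ∧ (U.card = 0 → b = true) ∧
    (b = true ∨ ¬ Series 0 1 (Ico 2 (U.card + 2)) (rg σ G))) ↔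
    (Net s t U G ∧ (U = ∅ → b = true) ∧ (b = true ∨ ¬ Series s t U G))
  rw [hN, hS, Finset.card_eq_zero]

/-- Networks with the information whether `st` is present. -/
theorem dd_count (h : s ≠ t) (hs : s ∉ U) (ht : t ∉ U) :
    ∑' _ : {p : Gr × Bool // Net s t U p.1 ∧ (U = ∅ → p.2 = true)}, (1 : ℝ≥0∞) = dd U.card := by
  classical
  have hQ : (Q U.card : ℝ≥0∞) = ∑' G : Gr, if Net s t U G then 1 else 0 := by
    rw [← net_count h hs ht, tsum_one_eq]
  rw [tsum_one_eq, ENNReal.tsum_prod']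
  unfold dd
  by_cases hU : U = ∅
  · rw [if_pos (by rw [hU]; rfl)]
    have hc : U.card = 0 := by rw [hU]; rfl
    rw [hc, q_zero] at hQ
    rw [Nat.cast_one] at hQ
    refine Eq.trans ?_ hQ.symm
    refine tsum_congr fun G => ?_
    rw [tsum_fintype, Fintype.sum_bool]
    simp [hU]
  · rw [if_neg (fun hc => hU (Finset.card_eq_zero.mp hc)), hQ, ← ENNReal.tsum_mul_left]
    refine tsum_congr fun G => ?_
    rw [tsum_fintype, Fintype.sum_bool]
    by_cases hG : Net s t U G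
    · simp [hU, hG]
      norm_num
    · simp [hG]

end K5
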