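import Pool.Agent.Lib.K5.EBas
import Pool.Agent.Lib.K5.RelD

/-!
# K5.ERel: the weighted numbers of structures depend only on the sizes

Adapt the finished files `K5/RelC.lean` (`RelCAux.tsum_rg`, `exists_st`, `edge_rg`, `ncard_rg'`, `net_count`, `piece_count`) and `K5/RelD.lean` (`rgEB`, `ee_count`, `dd_count`).
1. `ec_rg`: the edges of `rg σ G` different from `Sym2.map σ e` are the images of the edges of `G` different from `e` (`RelCAux.edge_rg`, `Sym2.map.injective σ.injective`, `RelCAux.ncard_rg'`).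
2. `net_county`, `piece_county`: `RelCAux.tsum_rg` with the weights `fun G => y ^ ec s(s, t) G`, `fun G => y ^ ec s(0, 1) G`; `Sym2.map σ s(s, t) = s(σ s, σ t) = s(0, 1)`.
3. `eey_count`: as `ee_count` with the weight.
4. `ddy_count`: as `dd_count`: for `U = ∅` the only pair is `(clq {s, t}, true)` with weight `y ^ (0 + 1)` (`net_empty`, `ec_clq`), otherwise `∑_b y ^ (ec + b) = (1 + y) * y ^ ec` for every network, and `net_county`.
-/

namespace K5

open Finset
open scoped ENNReal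

variable {s t : ℕ} {U : Finset ℕ}

theorem ec_rg (σ : Equiv.Perm ℕ) (e : Sym2 ℕ) (G : Gr) : ec (Sym2.map σ e) (rg σ G) = ec e G := by
  exact RelCAux.ncard_rg' σ (p := fun x => x ∈ G.edgeSet ∧ x ∉ ({e} : Set (Sym2 ℕ)))
    (q := fun x => x ∈ (rg σ G).edgeSet ∧ x ∉ ({Sym2.map σ e} : Set (Sym2 ℕ))) fun x => by
      rw [RelCAux.edge_rg, Set.mem_singleton_iff, Set.mem_singleton_iff,
        (Sym2.map.injective σ.injective).eq_iff]

namespace ERelAux

theorem ec_st {σ : Equiv.Perm ℕ} (h0 : σ s = 0) (h1 : σ t = 1) (G : Gr) :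
    ec s(0, 1) (rg σ G) = ec s(s, t) G := by
  have h2 : Sym2.map σ s(s, t) = s(0, 1) := by
    rw [Sym2.map_mk, h0, h1]
  rw [← h2]
  exact ec_rg σ _ G

theorem tsum_if {α : Type} (p : α → Prop) [DecidablePred p] (f : α → ℝ≥0∞) :
    ∑' x : {x // p x}, f x.1 = ∑' x, if p x then f x else 0 := by
  have h1 : ∑' x : {x // p x}, f x.1 = ∑' x, ({x | p x} : Set α).indicator f x := tsum_subtype {x | p x} f
  rw [h1]
  refine tsum_congr fun x => ?_
  by_cases h : p x
  · rw [if_pos h, Set.indicator_of_mem (show x ∈ {x | p x} from h)]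
  · rw [if_neg h, Set.indicator_of_notMem (show x ∉ {x | p x} from h)]

end ERelAux

open ERelAux RelCAux RelDAux

theorem net_county (y : ℝ≥0∞) (h : s ≠ t) (hs : s ∉ U) (ht : t ∉ U) :
    ∑' G : {G : Gr // Net s t U G}, y ^ ec s(s, t) G.1 = Qy y U.card := by
  obtain ⟨σ, h0, h1, hU⟩ := exists_st h hs ht
  exact tsum_rg σ (P := fun G => Net s t U G)
    (Q := fun G => Net 0 1 (Ico 2 (U.card + 2)) G) (fun G => y ^ ec s(s, t) G)
    (fun G => y ^ ec s(0, 1) G)
    (fun G => by rw [← h0, ← h1, ← hU]; exact net_rg σ) (fun G => by rw [ec_st h0 h1])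

theorem piece_county (y : ℝ≥0∞) (h : s ≠ t) (hs : s ∉ U) (ht : t ∉ U) :
    ∑' G : {G : Gr // Piece s t U G}, y ^ ec s(s, t) G.1 = nPy y U.card := by
  obtain ⟨σ, h0, h1, hU⟩ := exists_st h hs ht
  exact tsum_rg σ (P := fun G => Piece s t U G)
    (Q := fun G => Piece 0 1 (Ico 2 (U.card + 2)) G) (fun G => y ^ ec s(s, t) G)
    (fun G => y ^ ec s(0, 1) G)
    (fun G => by rw [← h0, ← h1, ← hU]; exact piece_rg σ) (fun G => by rw [ec_st h0 h1])

theorem eey_count (y : ℝ≥0∞) (h : s ≠ t) (hs : s ∉ U) (ht : t ∉ U) :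
    ∑' p : {p : Gr × Bool // Net s t U p.1 ∧ (U = ∅ → p.2 = true) ∧
      (p.2 = true ∨ ¬ Series s t U p.1)}, y ^ (ec s(s, t) p.1.1 + p.1.2.toNat) = eey y U.card := by
  obtain ⟨σ, h1, h2, h3⟩ := exists_st h hs ht
  have hN : ∀ G, Net 0 1 (Ico 2 (U.card + 2)) (rg σ G) ↔ Net s t U G := fun G => by
    rw [← h3, ← h1, ← h2]
    exact net_rg σ
  have hS : ∀ G, Series 0 1 (Ico 2 (U.card + 2)) (rg σ G) ↔ Series s t U G := fun G => by
    rw [← h3, ← h1, ← h2]
    exact series_rg σ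
  unfold eey
  have h4 : ∀ (G : Gr) (b : Bool), (Net 0 1 (Ico 2 (U.card + 2)) (rg σ G) ∧ (U.card = 0 → b = true) ∧
      (b = true ∨ ¬ Series 0 1 (Ico 2 (U.card + 2)) (rg σ G))) ↔
      (Net s t U G ∧ (U = ∅ → b = true) ∧ (b = true ∨ ¬ Series s t U G)) := by
    intro G b
    rw [hN, hS, Finset.card_eq_zero]
  have h5 := Equiv.tsum_eq (rgEB σ (p := fun p : Gr × Bool => Net s t U p.1 ∧ (U = ∅ → p.2 = true) ∧
      (p.2 = true ∨ ¬ Series s t U p.1))
      (p' := fun p : Gr × Bool => Net 0 1 (Ico 2 (U.card + 2)) p.1 ∧ (U.card = 0 → p.2 = true) ∧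
      (p.2 = true ∨ ¬ Series 0 1 (Ico 2 (U.card + 2)) p.1)) h4)
    (fun p => y ^ (ec s(0, 1) p.1.1 + p.1.2.toNat))
  rw [← h5]
  refine tsum_congr fun p => ?_
  show y ^ (ec s(s, t) p.1.1 + p.1.2.toNat) = y ^ (ec s(0, 1) (rg σ p.1.1) + p.1.2.toNat)
  rw [ec_st h1 h2]

theorem ddy_count (y : ℝ≥0∞) (h : s ≠ t) (hs : s ∉ U) (ht : t ∉ U) :
    ∑' p : {p : Gr × Bool // Net s t U p.1 ∧ (U = ∅ → p.2 = true)},
      y ^ (ec s(s, t) p.1.1 + p.1.2.toNat) = ddy y U.card := by
  classical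
  have hQ : Qy y U.card = ∑' G : Gr, if Net s t U G then y ^ ec s(s, t) G else 0 := by
    rw [← net_county y h hs ht, tsum_if (fun G => Net s t U G) (fun G => y ^ ec s(s, t) G)]
  rw [tsum_if (fun p : Gr × Bool => Net s t U p.1 ∧ (U = ∅ → p.2 = true))
    (fun p => y ^ (ec s(s, t) p.1 + p.2.toNat)), ENNReal.tsum_prod']
  unfold ddy
  by_cases hU : U = ∅
  · rw [if_pos (by rw [hU]; rfl)]
    have hc : U.card = 0 := by rw [hU]; rfl
    rw [hc, Qy_zero] at hQ
    have h1 : y = y * ∑' G : Gr, if Net s t U G then y ^ ec s(s, t) G else 0 := by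
      rw [← hQ, mul_one]
    refine Eq.trans ?_ h1.symm
    rw [← ENNReal.tsum_mul_left]
    refine tsum_congr fun G => ?_
    rw [tsum_fintype, Fintype.sum_bool]
    by_cases hG : Net s t U G
    · rw [if_pos (⟨hG, fun _ => rfl⟩ : Net s t U (G, true).1 ∧ (U = ∅ → (G, true).2 = true)),
        if_neg (fun hh : Net s t U (G, false).1 ∧ (U = ∅ → (G, false).2 = true) => by
          have := hh.2 hU
          simp at this), if_pos hG, add_zero, Bool.toNat_true, pow_succ, mul_comm]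
    · rw [if_neg (fun hh : Net s t U (G, true).1 ∧ (U = ∅ → (G, true).2 = true) => hG hh.1),
        if_neg (fun hh : Net s t U (G, false).1 ∧ (U = ∅ → (G, false).2 = true) => hG hh.1),
        if_neg hG, add_zero, mul_zero]
  · rw [if_neg (fun hc => hU (Finset.card_eq_zero.mp hc)), hQ, ← ENNReal.tsum_mul_left]
    refine tsum_congr fun G => ?_
    rw [tsum_fintype, Fintype.sum_bool]
    by_cases hG : Net s t U G
    · rw [if_pos (⟨hG, fun _ => rfl⟩ : Net s t U (G, true).1 ∧ (U = ∅ → (G, true).2 = true)),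
        if_pos (⟨hG, fun hh => absurd hh hU⟩ : Net s t U (G, false).1 ∧ (U = ∅ → (G, false).2 = true)),
        if_pos hG, Bool.toNat_true, Bool.toNat_false, pow_succ, add_zero]
      ring
    · rw [if_neg (fun hh : Net s t U (G, true).1 ∧ (U = ∅ → (G, true).2 = true) => hG hh.1),
        if_neg (fun hh : Net s t U (G, false).1 ∧ (U = ∅ → (G, false).2 = true) => hG hh.1),
        if_neg hG, add_zero, mul_zero]

end K5
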