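import Pool.Agent.Lib.K5.CntA
import Pool.Agent.Lib.K5.ERel
import Pool.Agent.Lib.K5.ECmp

/-!
# K5.ECntA: the weighted number of codes with given `A`, `H`, `f`

Adapt the finished file `K5/CntA.lean` (`CntAAux.Dat`, `CntAAux.equ`, `codes_fixed`).
1. `tsum_piy`: product formula: for finite types `β i` (`i` in a fintype `ι`) `∑' g : (∀ i, β i), ∏ i, W i (g i) = ∏ i, ∑' b : β i, W i b` (`tsum_fintype`, `Finset.prod_univ_sum`, `Fintype.piFinset_univ`).
2. `codes_fixedy`: transport with `CntAAux.equ`; under it the weight `y ^ ec s(s, t) (comp)` is `∏ e : E, y ^ (ec e (N e) + [e ∈ F])` (`Code.Valid.ec_comp`, `Finset.prod_pow_eq_pow_sum`), and `[e ∈ F]` is `(decide (e ∈ F)).toNat`. For every `e = s(u, v)` the sum over `Dat` with the weight `y ^ (ec e p.1 + p.2.toNat)` is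
`ddy y (fibre).card` (`ddy_count` with `CntAAux.netE_iff` as in `codes_fixed`). `Dat` is finite: `finite_on` for the graphs (`Net.on`), times `Bool`.
-/

namespace K5

open Finset
open scoped ENNReal

theorem tsum_piy {ι : Type} [Fintype ι] {β : ι → Type} (hf : ∀ i, Finite (β i))
    (W : ∀ i, β i → ℝ≥0∞) : ∑' g : (∀ i, β i), ∏ i, W i (g i) = ∏ i, ∑' b : β i, W i b := by
  classical
  have hfi : ∀ i, Fintype (β i) := fun i => Fintype.ofFinite (β i)
  rw [tsum_fintype, Finset.prod_congr rfl (fun i _ => tsum_fintype (W i)), Finset.prod_univ_sum,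
    Fintype.piFinset_univ]

namespace ECntAAux

open CntAAux

lemma dat_eq {s t : ℕ} {U A : Finset ℕ} {H : Gr} (hs : s ∉ U) (ht : t ∉ U)
    (hH : Core s t A H) {f : ℕ → Sym2 ℕ} {e : Sym2 ℕ} (he : e ∈ H.edgeSet) :
    ∑' _ : Dat U A f e, (1 : ℝ≥0∞) = dd ((U \ A).filter (fun w => f w = e)).card := by
  revert he
  refine Sym2.ind (fun u v => ?_) e
  intro he
  have hadj : H.Adj u v := he
  have hout : ∀ x, x ∈ St s t A → x ∉ (U \ A).filter (fun w => f w = s(u, v)) := by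
    intro x hx hx'
    have h2 := mem_sdiff.mp (mem_filter.mp hx').1
    rcases mem_insert.mp hx with h | h
    · exact hs (h ▸ h2.1)
    · rcases mem_insert.mp h with h | h
      · exact ht (h ▸ h2.1)
      · exact h2.2 h
  rw [← dd_count hadj.ne (hout u (hH.on u v hadj)) (hout v (hH.on v u hadj.symm))]
  exact (Equiv.subtypeEquivRight (fun p => and_congr_left' netE_iff)).tsum_eq (fun _ => (1 : ℝ≥0∞))

lemma dat_eqy (y : ℝ≥0∞) {s t : ℕ} {U A : Finset ℕ} {H : Gr} (hs : s ∉ U) (ht : t ∉ U)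
    (hH : Core s t A H) {f : ℕ → Sym2 ℕ} {e : Sym2 ℕ} (he : e ∈ H.edgeSet) :
    ∑' b : Dat U A f e, y ^ (ec e b.1.1 + b.1.2.toNat) =
      ddy y ((U \ A).filter (fun w => f w = e)).card := by
  revert he
  refine Sym2.ind (fun u v => ?_) e
  intro he
  have hadj : H.Adj u v := he
  have hout : ∀ x, x ∈ St s t A → x ∉ (U \ A).filter (fun w => f w = s(u, v)) := by
    intro x hx hx'
    have h2 := mem_sdiff.mp (mem_filter.mp hx').1
    rcases mem_insert.mp hx with h | h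
    · exact hs (h ▸ h2.1)
    · rcases mem_insert.mp h with h | h
      · exact ht (h ▸ h2.1)
      · exact h2.2 h
  rw [← ddy_count y hadj.ne (hout u (hH.on u v hadj)) (hout v (hH.on v u hadj.symm))]
  exact (Equiv.subtypeEquivRight (fun p => and_congr_left' netE_iff)).tsum_eq
    (fun p : {p : Gr × Bool // Net u v ((U \ A).filter (fun w => f w = s(u, v))) p.1 ∧
      ((U \ A).filter (fun w => f w = s(u, v)) = ∅ → p.2 = true)} =>
        y ^ (ec s(u, v) p.1.1 + p.1.2.toNat))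

lemma toNat_dec {P : Prop} (i j : Decidable P) : (@decide P i).toNat = @ite ℕ P j 1 0 := by
  by_cases h : P
  · rw [if_pos h]
    simp [h]
  · rw [if_neg h]
    simp [h]

end ECntAAux

open CntAAux ECntAAux in
theorem codes_fixedy (y : ℝ≥0∞) {s t : ℕ} {U A : Finset ℕ} {H : Gr} (hs : s ∉ U) (ht : t ∉ U)
    (hA : A ⊆ U) (hH : Core s t A H) {f : ℕ → Sym2 ℕ}
    (hf : ∀ w ∈ U \ A, f w ∈ H.edgeSet ∧ f w ≠ s(s, t)) (hf' : ∀ w, w ∉ U \ A → f w = s(s, t))
    (E : Finset (Sym2 ℕ)) (hE : ∀ e, e ∈ E ↔ e ∈ H.edgeSet ∧ e ≠ s(s, t)) :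
    ∑' p : {p : (Sym2 ℕ → Gr) × Set (Sym2 ℕ) // Code.Valid s t U ⟨A, H, f, p.1, p.2⟩},
      y ^ ec s(s, t) (Code.comp s t ⟨A, H, f, p.1.1, p.1.2⟩) =
      ∏ e ∈ E, ddy y ((U \ A).filter (fun w => f w = e)).card := by
  classical
  have hfin : ∀ e : E, Finite (Dat U A f e.1) := fun e =>
    finite_of_tsum (by rw [dat_eq hs ht hH ((hE _).mp e.2).1]; exact dd_ne_top _)
  rw [← Finset.prod_coe_sort E (fun e => ddy y ((U \ A).filter (fun w => f w = e)).card)]
  rw [← Finset.prod_congr rfl (fun (e : E) _ => dat_eqy y hs ht hH ((hE _).mp e.2).1),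
    ← tsum_piy hfin (fun e b => y ^ (ec e.1 b.1.1 + b.1.2.toNat))]
  rw [← (equ hs ht hA hH hf hf' E hE).tsum_eq
    (fun g : (e : E) → Dat U A f e.1 => ∏ e : E, y ^ (ec e.1 (g e).1.1 + (g e).1.2.toNat))]
  refine tsum_congr fun p => ?_
  rw [p.2.ec_comp E hE, Finset.prod_pow_eq_pow_sum,
    ← Finset.sum_coe_sort E (fun e => ec e (p.1.1 e) + if e ∈ p.1.2 then 1 else 0)]
  congr 1
  refine Finset.sum_congr rfl fun e _ => ?_
  congr 1
  exact (toNat_dec _ _).symm

end K5
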