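import Pool.Agent.Lib.K5.ECntA
import Pool.Agent.Lib.K5.CntC

/-!
# K5.ECntC: the weighted generating function of the pieces that are not series

Adapt the finished files `K5/CntB.lean` (`codes_AH`, `codes_all`; bijections `CntBAux.glue`, `CntBAux.glue2`) and `K5/CntC.lean` (`nH_eq`, `egf_nH`): the same proofs with the weight `y ^ ec s(s, t) (comp s t)` carried along (both bijections do not change the graph of the code).
1. `codes_AHy`: as `codes_AH` with `codes_fixedy`.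
2. `codes_ally`: as `codes_all`.
3. `nHy_eq`: as `nH_eq`: the bijection `c ↦ c.comp 0 1` from the valid codes onto the `HPiece`s preserves the weight by definition; `rtd_sum` with `φ m = fam (ddy y) m k`.
4. `egf_nHy`: `CntCAux.egf_gF (ddy y) x` and `Dy x y = egf (ddy y) x` (definition).
-/

namespace K5

open Finset
open scoped ENNReal

theorem codes_AHy (y : ℝ≥0∞) {s t : ℕ} {U A : Finset ℕ} {H : Gr} (hs : s ∉ U) (ht : t ∉ U)
    (hA : A ⊆ U) (hH : Core s t A H) :
    ∑' p : {p : (ℕ → Sym2 ℕ) × (Sym2 ℕ → Gr) × Set (Sym2 ℕ) //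
      Code.Valid s t U ⟨A, H, p.1, p.2.1, p.2.2⟩},
      y ^ ec s(s, t) (Code.comp s t ⟨A, H, p.1.1, p.1.2.1, p.1.2.2⟩) =
      fam (ddy y) (ecard {s, t} H) (U \ A).card := by
  classical
  have hE := CntBAux.mem_edg (s := s) (t := t) hH.on
  have h1 := (Equiv.ofBijective _ (CntBAux.glue_bij (U := U) hH.on)).tsum_eq
    (fun p : {p : (ℕ → Sym2 ℕ) × (Sym2 ℕ → Gr) × Set (Sym2 ℕ) //
      Code.Valid s t U ⟨A, H, p.1, p.2.1, p.2.2⟩} =>
        y ^ ec s(s, t) (Code.comp s t ⟨A, H, p.1.1, p.1.2.1, p.1.2.2⟩))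
  rw [← h1, ENNReal.tsum_sigma', tsum_fintype, ← CntBAux.card_edg hH.ne hH.on]
  have h2 := sum_fam (ddy y) (α := ↥(U \ A)) (ι := ↥(CntBAux.edg s t A H))
  rw [Fintype.card_coe, Fintype.card_coe] at h2
  rw [← h2]
  refine Finset.sum_congr rfl fun g _ => ?_
  have h3 := codes_fixedy y hs ht hA hH (f := CntBAux.ext s(s, t) g) ?_ ?_
    (CntBAux.edg s t A H) hE
  · refine Eq.trans h3 ?_
    rw [← Finset.prod_coe_sort]
    refine Finset.prod_congr rfl fun e _ => ?_
    rw [← CntBAux.card_fibre (d := s(s, t)) g e]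
  · intro w hw
    rw [CntBAux.ext_mem g hw]
    exact (hE _).1 (g ⟨w, hw⟩).2
  · intro w hw
    exact CntBAux.ext_out g hw

theorem codes_ally (y : ℝ≥0∞) {s t : ℕ} {U : Finset ℕ} (hst : s ≠ t) (hs : s ∉ U) (ht : t ∉ U) :
    ∑' c : {c : Code // c.Valid s t U}, y ^ ec s(s, t) (c.1.comp s t) =
      ∑ A ∈ U.powerset, ∑' H : {H : Gr // Core s t A H},
        fam (ddy y) (ecard {s, t} H.1) (U \ A).card := by
  have h1 := (Equiv.ofBijective _ (CntBAux.glue2_bij (s := s) (t := t) (U := U))).tsum_eq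
    (fun c : {c : Code // c.Valid s t U} => y ^ ec s(s, t) (c.1.comp s t))
  rw [← h1, ENNReal.tsum_sigma', ← Finset.tsum_subtype]
  refine tsum_congr fun A => ?_
  rw [ENNReal.tsum_sigma']
  refine tsum_congr fun H => ?_
  exact codes_AHy y hs ht (Finset.mem_powerset.1 A.2) H.2

theorem nHy_eq (y : ℝ≥0∞) (n : ℕ) :
    nHy y n = ∑ A ∈ (range n).powerset, CntCAux.gF (ddy y) A.card (range n \ A).card := by
  have h0 : (0 : ℕ) ∉ Ico 2 (n + 2) := by simp
  have h1 : (1 : ℕ) ∉ Ico 2 (n + 2) := by simp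
  have hbij : nHy y n = ∑' c : {c : Code // c.Valid 0 1 (Ico 2 (n + 2))},
      y ^ ec s(0, 1) (c.1.comp 0 1) := by
    unfold nHy
    symm
    refine Equiv.tsum_eq (Equiv.ofBijective (fun c : {c : Code // c.Valid 0 1 (Ico 2 (n + 2))} =>
      (⟨c.1.comp 0 1, c.2.comp_hpiece⟩ : {G : Gr // HPiece 0 1 (Ico 2 (n + 2)) G})) ⟨?_, ?_⟩)
      (fun G : {G : Gr // HPiece 0 1 (Ico 2 (n + 2)) G} => y ^ ec s(0, 1) G.1)
    · rintro ⟨c, hc⟩ ⟨c', hc'⟩ h
      have h2 : c.comp 0 1 = c'.comp 0 1 := congrArg Subtype.val h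
      exact Subtype.ext (hc.comp_inj hc' h2)
    · rintro ⟨G, hG⟩
      obtain ⟨c, hc, hcG⟩ := hG.exists_code
      exact ⟨⟨c, hc⟩, Subtype.ext hcG⟩
  rw [hbij, codes_ally y (by norm_num) h0 h1]
  have hterm : ∀ A ∈ (Ico 2 (n + 2)).powerset,
      ∑' H : {H : Gr // Core 0 1 A H},
        fam (ddy y) (ecard {0, 1} H.1) (Ico 2 (n + 2) \ A).card =
        CntCAux.gF (ddy y) A.card (Ico 2 (n + 2) \ A).card := by
    intro A hA
    have hA' := Finset.mem_powerset.1 hA
    have hd : Disjoint ({0, 1} : Finset ℕ) A := by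
      rw [Finset.disjoint_left]
      intro a ha haA
      have h2 := Finset.mem_Ico.1 (hA' haA)
      rw [Finset.mem_insert, Finset.mem_singleton] at ha
      omega
    have h2 := rtd_sum (U := A) (fun m => fam (ddy y) m (Ico 2 (n + 2) \ A).card)
      (R := {0, 1}) (by simp) hd
    unfold CntCAux.gF
    rw [← h2]
    refine Equiv.tsum_eq (Equiv.subtypeEquivRight (fun G => core_iff_rtd (by norm_num)))
      (fun G : {G : Gr // Rtd {0, 1} A G} =>
        fam (ddy y) (ecard {0, 1} G.1) (Ico 2 (n + 2) \ A).card)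
  rw [Finset.sum_congr rfl hterm, sum_powerset_pair, sum_powerset_pair, Nat.card_Ico,
    Finset.card_range, Nat.add_sub_cancel]

theorem egf_nHy (y x : ℝ≥0∞) : egf (nHy y) x = T0 x (Dy x y) := by
  have h1 : nHy y = fun n => ∑ A ∈ (range n).powerset,
      CntCAux.gF (ddy y) A.card (range n \ A).card := by
    funext n
    exact nHy_eq y n
  rw [h1, CntCAux.egf_gF]
  rfl

end K5
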