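import Pool.Agent.Lib.K5.Defs3

/-!
# K5.SerDefs: series codes
-/

namespace K5

open Finset

/-- `P` is the side of `s` for the cut vertex `c` of `G - st`. -/
structure CutP (s t : ℕ) (U : Finset ℕ) (G : Gr) (c : ℕ) (P : Finset ℕ) : Prop where
  cU : c ∈ U
  sub : P ⊆ (St s t U).erase c
  hs : s ∈ P
  ht : t ∉ P
  closed : ∀ a ∈ P, ∀ b ∈ (St s t U).erase c, b ∉ P → G.Adj a b → s(a, b) = s(s, t)

/-- A series code: the cut vertex `c`, the interiors `A1`, `A2` of the two networks `G1` (poles `s, c`)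
and `G2` (poles `c, t`), and whether the edges `sc`, `ct` are present. -/
structure SCode where
  c : ℕ
  A1 : Finset ℕ
  A2 : Finset ℕ
  G1 : Gr
  G2 : Gr
  b1 : Bool
  b2 : Bool

structure SCode.Valid (s t : ℕ) (U : Finset ℕ) (d : SCode) : Prop where
  hst : s ≠ t
  hs : s ∉ U
  ht : t ∉ U
  part : U = insert d.c (d.A1 ∪ d.A2)
  disj : Disjoint d.A1 d.A2
  c1 : d.c ∉ d.A1
  c2 : d.c ∉ d.A2
  net1 : Net s d.c d.A1 d.G1
  net2 : Net d.c t d.A2 d.G2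
  e1 : d.A1 = ∅ → d.b1 = true
  e2 : d.A2 = ∅ → d.b2 = true
  nser : d.b1 = true ∨ ¬ Series s d.c d.A1 d.G1

/-- The graph of a series code. -/
def SCode.comp (s t : ℕ) (d : SCode) : Gr where
  Adj a b := a ≠ b ∧ (s(a, b) = s(s, t) ∨ (s(a, b) = s(s, d.c) ∧ d.b1 = true) ∨
    (s(a, b) = s(d.c, t) ∧ d.b2 = true) ∨ (d.G1.Adj a b ∧ s(a, b) ≠ s(s, d.c)) ∨
    (d.G2.Adj a b ∧ s(a, b) ≠ s(d.c, t)))
  symm := ⟨fun a b h => by
    refine ⟨h.1.symm, ?_⟩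
    rw [Sym2.eq_swap]
    exact h.2.imp id (Or.imp id (Or.imp id (Or.imp (fun h => ⟨h.1.symm, h.2⟩)
      (fun h => ⟨h.1.symm, h.2⟩))))⟩
  loopless := ⟨fun a h => h.1 rfl⟩

end K5
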