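import Pool.Agent.Lib.K5.EDefs
import Pool.Agent.Lib.K5.ExpF
import Pool.Agent.Lib.K5.SerDefs

/-!
# K5.ESerA: the number of edges of the graph of a series code

Let `d` be a valid series code, `K = d.comp s t`, `c = d.c`.
PROOF. `s, c, t` are different (`c ∈ U` by `part`, `s, t ∉ U`). `K.edgeSet \ {s(s, t)}` is the disjoint union of `{s(s, c)}` (if `b1`), `{s(c, t)}` (if `b2`), `d.G1.edgeSet \ {s(s, c)}` and `d.G2.edgeSet \ {s(c, t)}` (definition of `SCode.comp`; for this check that all of them consist of pairs different from `s(s, t)`: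
an edge of `G1` has its ends in `St s c A1` (`Net.on`), so not `t`; an edge of `G2` has its ends in `St c t A2`, so not `s`). Disjoint: an edge of `G1` has its ends in `{s, c} ∪ A1`, an edge of `G2` in `{c, t} ∪ A2`; these sets meet only in `c` (`disj`, `c1`, `c2`, `hs`, `ht`, `part`), and an edge has two different ends; `s(s, c)` is not in
`G2.edgeSet`, `s(c, t)` is not in `G1.edgeSet`, `s(s, c) ≠ s(c, t)`. All the sets are finite (`edgeSet_finite`, `Net.on`). Case distinction on `b1`, `b2` or count with `Set.ncard_union_eq`.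
-/

namespace K5

open Finset

namespace ESerAAux

/-- The optional edge. -/
def opt (e : Sym2 ℕ) (b : Bool) : Set (Sym2 ℕ) := {f | f = e ∧ b = true}

theorem opt_ncard (e : Sym2 ℕ) (b : Bool) : (opt e b).ncard = b.toNat := by
  cases b with
  | true =>
    have h : opt e true = {e} := by
      ext f
      simp [opt]
    rw [h, Set.ncard_singleton]
    rfl
  | false =>
    have h : opt e false = ∅ := by
      ext f
      simp [opt]
    rw [h, Set.ncard_empty]
    rfl

theorem opt_finite (e : Sym2 ℕ) (b : Bool) : (opt e b).Finite :=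
  (Set.finite_singleton e).subset fun _ hf => hf.1

theorem part_ncard {u v : ℕ} {A : Finset ℕ} {G : Gr} (h : Net u v A G) (b : Bool) :
    ((G.edgeSet \ {s(u, v)}) ∪ opt s(u, v) b).ncard = ec s(u, v) G + b.toNat := by
  have hd : Disjoint (G.edgeSet \ {s(u, v)}) (opt s(u, v) b) := by
    rw [Set.disjoint_left]
    intro e he he2
    exact he.2 he2.1
  rw [Set.ncard_union_eq hd ((edgeSet_finite h.on).subset Set.diff_subset) (opt_finite _ _),
    opt_ncard]
  rfl

theorem part_mem {u v : ℕ} {A : Finset ℕ} {G : Gr} (h : Net u v A G) {b : Bool} {x y : ℕ}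
    (hx : s(x, y) ∈ (G.edgeSet \ {s(u, v)}) ∪ opt s(u, v) b) :
    x ∈ St u v A ∧ y ∈ St u v A ∧ x ≠ y := by
  rcases hx with hx | hx
  · have hadj : G.Adj x y := hx.1
    exact ⟨h.on x y hadj, h.on y x hadj.symm, hadj.ne⟩
  · have h1 : s(x, y) = s(u, v) := hx.1
    have hu : u ∈ St u v A := Finset.mem_insert_self _ _
    have hv : v ∈ St u v A := Finset.mem_insert_of_mem (Finset.mem_insert_self _ _)
    rw [Sym2.eq_iff] at h1
    rcases h1 with ⟨h2, h3⟩ | ⟨h2, h3⟩
    · rw [h2, h3]
      exact ⟨hu, hv, h.ne⟩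
    · rw [h2, h3]
      exact ⟨hv, hu, h.ne.symm⟩

theorem part_finite {u v : ℕ} {A : Finset ℕ} {G : Gr} (h : Net u v A G) (b : Bool) :
    ((G.edgeSet \ {s(u, v)}) ∪ opt s(u, v) b).Finite :=
  ((edgeSet_finite h.on).subset Set.diff_subset).union (opt_finite _ _)

end ESerAAux

open ESerAAux

theorem SCode.Valid.ec_comp {s t : ℕ} {U : Finset ℕ} {d : SCode} (h : d.Valid s t U) :
    ec s(s, t) (d.comp s t) =
      (ec s(s, d.c) d.G1 + d.b1.toNat) + (ec s(d.c, t) d.G2 + d.b2.toNat) := by
  have hcU : d.c ∈ U := by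
    rw [h.part]
    exact Finset.mem_insert_self _ _
  have hA1 : d.A1 ⊆ U := by
    rw [h.part]
    exact fun x hx => Finset.mem_insert_of_mem (Finset.mem_union_left _ hx)
  have hA2 : d.A2 ⊆ U := by
    rw [h.part]
    exact fun x hx => Finset.mem_insert_of_mem (Finset.mem_union_right _ hx)
  have hsc : s ≠ d.c := fun e => h.hs (e ▸ hcU)
  have htc : t ≠ d.c := fun e => h.ht (e ▸ hcU)
  have hst := h.hst
  have ht1 : t ∉ St s d.c d.A1 := by
    intro ht
    rw [Finset.mem_insert, Finset.mem_insert] at ht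
    rcases ht with ht | ht | ht
    · exact hst ht.symm
    · exact htc ht
    · exact h.ht (hA1 ht)
  have hs2 : s ∉ St d.c t d.A2 := by
    intro hs
    rw [Finset.mem_insert, Finset.mem_insert] at hs
    rcases hs with hs | hs | hs
    · exact hsc hs
    · exact hst hs
    · exact h.hs (hA2 hs)
  have hcap : ∀ x, x ∈ St s d.c d.A1 → x ∈ St d.c t d.A2 → x = d.c := by
    intro x hx1 hx2
    rw [Finset.mem_insert, Finset.mem_insert] at hx1 hx2
    rcases hx1 with hx1 | hx1 | hx1
    · rcases hx2 with hx2 | hx2 | hx2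
      · exact hx2
      · exact absurd (hx1.symm.trans hx2) hst
      · exact absurd (hx1 ▸ hA2 hx2) h.hs
    · exact hx1
    · rcases hx2 with hx2 | hx2 | hx2
      · exact hx2
      · exact absurd (hx2 ▸ hA1 hx1) h.ht
      · exact absurd hx2 (Finset.disjoint_left.1 h.disj hx1)
  have hset : (d.comp s t).edgeSet \ {s(s, t)} =
      ((d.G1.edgeSet \ {s(s, d.c)}) ∪ opt s(s, d.c) d.b1) ∪
        ((d.G2.edgeSet \ {s(d.c, t)}) ∪ opt s(d.c, t) d.b2) := by
    ext e
    induction e using Sym2.ind with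
    | _ x y =>
      constructor
      · rintro ⟨he, hne⟩
        have he' : x ≠ y ∧ (s(x, y) = s(s, t) ∨ (s(x, y) = s(s, d.c) ∧ d.b1 = true) ∨
          (s(x, y) = s(d.c, t) ∧ d.b2 = true) ∨ (d.G1.Adj x y ∧ s(x, y) ≠ s(s, d.c)) ∨
          (d.G2.Adj x y ∧ s(x, y) ≠ s(d.c, t))) := he
        rcases he'.2 with h1 | h1 | h1 | h1 | h1
        · exact absurd h1 hne
        · exact Or.inl (Or.inr h1)
        · exact Or.inr (Or.inr h1)
        · exact Or.inl (Or.inl h1)
        · exact Or.inr (Or.inl h1)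
      · intro he
        rcases he with he | he
        · have hm := part_mem h.net1 he
          have hne : s(x, y) ≠ s(s, t) := by
            intro h1
            rw [Sym2.eq_iff] at h1
            rcases h1 with ⟨h2, h3⟩ | ⟨h2, h3⟩
            · exact ht1 (h3 ▸ hm.2.1)
            · exact ht1 (h2 ▸ hm.1)
          refine ⟨?_, hne⟩
          show x ≠ y ∧ (s(x, y) = s(s, t) ∨ (s(x, y) = s(s, d.c) ∧ d.b1 = true) ∨
            (s(x, y) = s(d.c, t) ∧ d.b2 = true) ∨ (d.G1.Adj x y ∧ s(x, y) ≠ s(s, d.c)) ∨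
            (d.G2.Adj x y ∧ s(x, y) ≠ s(d.c, t)))
          refine ⟨hm.2.2, ?_⟩
          rcases he with he | he
          · exact Or.inr (Or.inr (Or.inr (Or.inl he)))
          · exact Or.inr (Or.inl he)
        · have hm := part_mem h.net2 he
          have hne : s(x, y) ≠ s(s, t) := by
            intro h1
            rw [Sym2.eq_iff] at h1
            rcases h1 with ⟨h2, h3⟩ | ⟨h2, h3⟩
            · exact hs2 (h2 ▸ hm.1)
            · exact hs2 (h3 ▸ hm.2.1)
          refine ⟨?_, hne⟩
          show x ≠ y ∧ (s(x, y) = s(s, t) ∨ (s(x, y) = s(s, d.c) ∧ d.b1 = true) ∨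
            (s(x, y) = s(d.c, t) ∧ d.b2 = true) ∨ (d.G1.Adj x y ∧ s(x, y) ≠ s(s, d.c)) ∨
            (d.G2.Adj x y ∧ s(x, y) ≠ s(d.c, t)))
          refine ⟨hm.2.2, ?_⟩
          rcases he with he | he
          · exact Or.inr (Or.inr (Or.inr (Or.inr he)))
          · exact Or.inr (Or.inr (Or.inl he))
  have hdis : Disjoint ((d.G1.edgeSet \ {s(s, d.c)}) ∪ opt s(s, d.c) d.b1)
      ((d.G2.edgeSet \ {s(d.c, t)}) ∪ opt s(d.c, t) d.b2) := by
    rw [Set.disjoint_left]
    intro e
    induction e using Sym2.ind with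
    | _ x y =>
      intro he1 he2
      have hm1 := part_mem h.net1 he1
      have hm2 := part_mem h.net2 he2
      exact hm1.2.2 ((hcap x hm1.1 hm2.1).trans (hcap y hm1.2.1 hm2.2.1).symm)
  show ((d.comp s t).edgeSet \ {s(s, t)}).ncard = _
  rw [hset, Set.ncard_union_eq hdis (part_finite h.net1 _) (part_finite h.net2 _),
    part_ncard h.net1, part_ncard h.net2]

end K5
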