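import Pool.Agent.Lib.K5.SerDefs
import Pool.Agent.Lib.K5.Bd

/-!
# K5.SerA: cut vertices of a network without the edge `st`

`W = St s t U`, `G` a network, `N = G - st`.
1. `closed_side`: `c ∈ U`, `P ⊆ W.erase c` nonempty and not everything, no edge of `G` other than `st` from `P` to the rest `(W.erase c) \ P`. Then exactly one of `s, t` is in `P`: if none, `P ⊆ U` and `bd G W P ⊆ {c}` contradicts
   `Net.two_le_bd`; if both, the same for the complement.
2. `cutP_of_not_conn`: from `¬ Conn N (W.erase c)` the negation of the cut form gives `P`; by 1 exactly one of `P`, `(W.erase c) \ P` contains `s` and not `t`.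
3. `CutP.unique`: `P, P'` for the same `c`: `P \ P' ⊆ U` (both contain `s`) has `bd G W (P \ P') ⊆ {c}`: an edge from `P \ P'` to `b ∈ W.erase c` is not `st` (the end in `U`), so `b ∈ P`, and `b ∉ P'` (edges from `b ∈ P'` stay in `P'`). So `P \ P'`
   is empty, and by symmetry `P = P'`.
4. `CutP.not_conn`: `¬ Conn N (W.erase c)` (the set `P` is nonempty, proper as `t ∉ P`, closed in `N`).
5. `CutP.conn_left`, `CutP.conn_right`: `Conn G P` and `Conn G ((W.erase c) \ P)`: a proper nonempty closed subset of `P`, or its complement in `P`, does not contain `s`; it is contained in `U` and its boundary is contained in `{c}`. 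
6. `CutP.adj_c`: `c` has a neighbour in `P` and in `(W.erase c) \ P`: `Conn G (W.erase t)` for the set `P` gives an edge from `P` to `W \ P \ {t}`, by closedness its end is `c`; for the other side `Conn G (W.erase s)`.
-/

namespace K5

open Finset

variable {s t : ℕ} {U : Finset ℕ} {G : Gr}

namespace SerAAux

theorem mem_St {s t x : ℕ} {U : Finset ℕ} : x ∈ St s t U ↔ x = s ∨ x = t ∨ x ∈ U := by
  unfold St
  rw [Finset.mem_insert, Finset.mem_insert]

theorem not_st (h : Net s t U G) {a b : ℕ} (ha : a ∈ U) : s(a, b) ≠ s(s, t) := by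
  intro h1
  rw [Sym2.eq_iff] at h1
  rcases h1 with h1 | h1
  · rw [h1.1] at ha
    exact h.hs ha
  · rw [h1.1] at ha
    exact h.ht ha

/-- a subset of `U` with at most one outer neighbour is empty -/
theorem nc (h : Net s t U G) {P : Finset ℕ} (hP : P ⊆ U) (c : ℕ)
    (hcl : ∀ a ∈ P, ∀ b ∈ St s t U, b ∉ P → b ≠ c → ¬ G.Adj a b) : P = ∅ := by
  by_contra hne
  have h1 := h.two_le_bd hP (Finset.nonempty_iff_ne_empty.mpr hne)
  have h2 : bd G (St s t U) P ⊆ {c} := by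
    intro y hy
    obtain ⟨⟨hyW, hyn⟩, x, hx, hxy⟩ := mem_bd.mp hy
    rw [Finset.mem_singleton]
    by_contra hyc
    exact hcl x hx y hyW hyn hyc hxy
  have h3 := Finset.card_le_card h2
  rw [Finset.card_singleton] at h3
  omega

theorem inU {c x : ℕ} (hx : x ∈ (St s t U).erase c) (hs : x ≠ s) (ht : x ≠ t) : x ∈ U := by
  rw [Finset.mem_erase, mem_St] at hx
  rcases hx.2 with h1 | h1 | h1
  · exact absurd h1 hs
  · exact absurd h1 ht
  · exact h1

theorem s_mem (h : Net s t U G) {c : ℕ} (hc : c ∈ U) : s ∈ (St s t U).erase c := by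
  rw [Finset.mem_erase, mem_St]
  exact ⟨fun h1 => h.hs (h1 ▸ hc), Or.inl rfl⟩

theorem t_mem (h : Net s t U G) {c : ℕ} (hc : c ∈ U) : t ∈ (St s t U).erase c := by
  rw [Finset.mem_erase, mem_St]
  exact ⟨fun h1 => h.ht (h1 ▸ hc), Or.inr (Or.inl rfl)⟩

/-- the other side is closed as well -/
theorem closed_compl {c : ℕ} {P : Finset ℕ}
    (hcl : ∀ a ∈ P, ∀ b ∈ (St s t U).erase c, b ∉ P → G.Adj a b → s(a, b) = s(s, t)) :
    ∀ a ∈ (St s t U).erase c \ P, ∀ b ∈ (St s t U).erase c, b ∉ (St s t U).erase c \ P →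
      G.Adj a b → s(a, b) = s(s, t) := by
  intro a ha b hb hbn hab
  rw [Finset.mem_sdiff] at ha hbn
  have hbP : b ∈ P := by
    by_contra h1
    exact hbn ⟨hb, h1⟩
  rw [Sym2.eq_swap]
  exact hcl b hbP a ha.1 ha.2 hab.symm

theorem le_of (h : Net s t U G) {c : ℕ} {P P' : Finset ℕ} (hP : CutP s t U G c P)
    (hP' : CutP s t U G c P') : P ⊆ P' := by
  have hU : P \ P' ⊆ U := by
    intro x hx
    rw [Finset.mem_sdiff] at hx
    exact inU (hP.sub hx.1) (fun h1 => hx.2 (h1 ▸ hP'.hs)) (fun h1 => hP.ht (h1 ▸ hx.1))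
  have h1 : P \ P' = ∅ := by
    refine nc h hU c fun a ha b hb hbn hbc hab => ?_
    have haU := hU ha
    rw [Finset.mem_sdiff] at ha hbn
    have hbW : b ∈ (St s t U).erase c := Finset.mem_erase.mpr ⟨hbc, hb⟩
    by_cases hbP : b ∈ P
    · have hbP' : b ∈ P' := by
        by_contra h2
        exact hbn ⟨hbP, h2⟩
      have h3 := hP'.closed b hbP' a (hP.sub ha.1) ha.2 hab.symm
      rw [Sym2.eq_swap] at h3
      exact not_st h haU h3
    · exact not_st h haU (hP.closed a ha.1 b hbW hbP hab)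
  exact Finset.sdiff_eq_empty_iff_subset.mp h1

/-- a closed set that contains exactly one of the poles is connected -/
theorem conn_of (h : Net s t U G) {c r r' : ℕ} {P : Finset ℕ}
    (hr : (r = s ∧ r' = t) ∨ (r = t ∧ r' = s))
    (sub : P ⊆ (St s t U).erase c) (hs : r ∈ P) (ht : r' ∉ P)
    (hcl : ∀ a ∈ P, ∀ b ∈ (St s t U).erase c, b ∉ P → G.Adj a b → s(a, b) = s(s, t)) :
    P512.Conn G P := by
  have hin : ∀ x ∈ P, x ≠ r → x ∈ U := by
    intro x hx hxr
    have hx' : x ≠ r' := fun h1 => ht (h1 ▸ hx)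
    rcases hr with ⟨h1, h2⟩ | ⟨h1, h2⟩
    · exact inU (sub hx) (h1 ▸ hxr) (h2 ▸ hx')
    · exact inU (sub hx) (h2 ▸ hx') (h1 ▸ hxr)
  -- a subset `R` of `P` without `r` and without edges to the rest of `P` is empty
  have key : ∀ R : Finset ℕ, R ⊆ P → r ∉ R → (∀ a ∈ R, ∀ b ∈ P, b ∉ R → ¬ G.Adj a b) → R = ∅ := by
    intro R hR hrR hno
    have hRU : R ⊆ U := fun x hx => hin x (hR hx) (fun h1 => hrR (h1 ▸ hx))
    refine nc h hRU c fun a ha b hb hbn hbc hab => ?_
    have hbW : b ∈ (St s t U).erase c := Finset.mem_erase.mpr ⟨hbc, hb⟩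
    by_cases hbP : b ∈ P
    · exact hno a ha b hbP hbn hab
    · exact not_st h (hRU ha) (hcl a (hR ha) b hbW hbP hab)
  refine ⟨⟨r, hs⟩, fun R hR hRne hRP => ?_⟩
  by_contra hcon
  have hno : ∀ a ∈ R, ∀ b ∈ P, b ∉ R → ¬ G.Adj a b :=
    fun a ha b hb hbR hab => hcon ⟨a, ha, b, hb, hbR, hab⟩
  by_cases hrR : r ∈ R
  · have h1 : P \ R = ∅ := by
      refine key (P \ R) Finset.sdiff_subset (fun h2 => (Finset.mem_sdiff.mp h2).2 hrR) ?_
      intro a ha b hb hbn hab
      rw [Finset.mem_sdiff] at ha hbn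
      have hbR : b ∈ R := by
        by_contra h2
        exact hbn ⟨hb, h2⟩
      exact hno b hbR a ha.1 ha.2 hab.symm
    exact hRP (Finset.Subset.antisymm hR (Finset.sdiff_eq_empty_iff_subset.mp h1))
  · exact hRne.ne_empty (key R hR hrR hno)

end SerAAux

open SerAAux

theorem closed_side (h : Net s t U G) {c : ℕ} (hc : c ∈ U) {P : Finset ℕ}
    (hP : P ⊆ (St s t U).erase c) (hne : P.Nonempty) (hne' : P ≠ (St s t U).erase c)
    (hcl : ∀ a ∈ P, ∀ b ∈ (St s t U).erase c, b ∉ P → G.Adj a b → s(a, b) = s(s, t)) :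
    (s ∈ P ∧ t ∉ P) ∨ (s ∉ P ∧ t ∈ P) := by
  by_cases hs : s ∈ P <;> by_cases ht : t ∈ P
  · exfalso
    have hQU : (St s t U).erase c \ P ⊆ U := by
      intro x hx
      rw [Finset.mem_sdiff] at hx
      exact inU hx.1 (fun h1 => hx.2 (h1 ▸ hs)) (fun h1 => hx.2 (h1 ▸ ht))
    have h1 : (St s t U).erase c \ P = ∅ := by
      refine nc h hQU c fun a ha b hb hbn hbc hab => ?_
      exact not_st h (hQU ha) (closed_compl hcl a ha b (Finset.mem_erase.mpr ⟨hbc, hb⟩) hbn hab)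
    exact hne' (Finset.Subset.antisymm hP (Finset.sdiff_eq_empty_iff_subset.mp h1))
  · exact Or.inl ⟨hs, ht⟩
  · exact Or.inr ⟨hs, ht⟩
  · exfalso
    have hPU : P ⊆ U := fun x hx => inU (hP hx) (fun h1 => hs (h1 ▸ hx)) (fun h1 => ht (h1 ▸ hx))
    have h1 : P = ∅ := by
      refine nc h hPU c fun a ha b hb hbn hbc hab => ?_
      exact not_st h (hPU ha) (hcl a ha b (Finset.mem_erase.mpr ⟨hbc, hb⟩) hbn hab)
    exact hne.ne_empty h1

theorem cutP_of_not_conn (h : Net s t U G) {c : ℕ} (hc : c ∈ U)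
    (hn : ¬ P512.Conn (G.deleteEdges {s(s, t)}) ((St s t U).erase c)) :
    ∃ P, CutP s t U G c P := by
  have h1 : ∃ P : Finset ℕ, P ⊆ (St s t U).erase c ∧ P.Nonempty ∧ P ≠ (St s t U).erase c ∧
      ∀ a ∈ P, ∀ b ∈ (St s t U).erase c, b ∉ P → G.Adj a b → s(a, b) = s(s, t) := by
    by_contra hcon
    apply hn
    refine ⟨⟨s, s_mem h hc⟩, fun P hP hne hne' => ?_⟩
    by_contra hcon2
    apply hcon
    refine ⟨P, hP, hne, hne', fun a ha b hb hbn hab => ?_⟩
    by_contra hst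
    apply hcon2
    refine ⟨a, ha, b, hb, hbn, ?_⟩
    rw [SimpleGraph.deleteEdges_adj]
    exact ⟨hab, fun h2 => hst (Set.mem_singleton_iff.mp h2)⟩
  obtain ⟨P, hP, hne, hne', hcl⟩ := h1
  rcases closed_side h hc hP hne hne' hcl with h2 | h2
  · exact ⟨P, hc, hP, h2.1, h2.2, hcl⟩
  · refine ⟨(St s t U).erase c \ P, hc, Finset.sdiff_subset, ?_, ?_, closed_compl hcl⟩
    · exact Finset.mem_sdiff.mpr ⟨s_mem h hc, h2.1⟩
    · exact fun h3 => (Finset.mem_sdiff.mp h3).2 h2.2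

theorem CutP.unique (h : Net s t U G) {c : ℕ} {P P' : Finset ℕ} (hP : CutP s t U G c P)
    (hP' : CutP s t U G c P') : P = P' := by
  exact Finset.Subset.antisymm (le_of h hP hP') (le_of h hP' hP)

theorem CutP.not_conn (h : Net s t U G) {c : ℕ} {P : Finset ℕ} (hP : CutP s t U G c P) :
    ¬ P512.Conn (G.deleteEdges {s(s, t)}) ((St s t U).erase c) := by
  intro h1
  obtain ⟨a, ha, b, hb, hbn, hab⟩ := h1.2 P hP.sub ⟨s, hP.hs⟩
    (fun h2 => hP.ht (h2 ▸ t_mem h hP.cU))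
  rw [SimpleGraph.deleteEdges_adj] at hab
  exact hab.2 (Set.mem_singleton_iff.mpr (hP.closed a ha b hb hbn hab.1))

theorem CutP.conn_left (h : Net s t U G) {c : ℕ} {P : Finset ℕ} (hP : CutP s t U G c P) :
    P512.Conn G P := by
  exact conn_of h (Or.inl ⟨rfl, rfl⟩) hP.sub hP.hs hP.ht hP.closed

theorem CutP.conn_right (h : Net s t U G) {c : ℕ} {P : Finset ℕ} (hP : CutP s t U G c P) :
    P512.Conn G ((St s t U).erase c \ P) := by
  exact conn_of h (Or.inr ⟨rfl, rfl⟩) Finset.sdiff_subset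
    (Finset.mem_sdiff.mpr ⟨t_mem h hP.cU, hP.ht⟩)
    (fun h1 => (Finset.mem_sdiff.mp h1).2 hP.hs) (closed_compl hP.closed)

theorem CutP.adj_c (h : Net s t U G) {c : ℕ} {P : Finset ℕ} (hP : CutP s t U G c P) :
    (∃ a ∈ P, G.Adj a c) ∧ ∃ a ∈ (St s t U).erase c \ P, G.Adj a c := by
  have hcU := hP.cU
  have hcs : c ≠ s := fun h1 => h.hs (h1 ▸ hcU)
  have hct : c ≠ t := fun h1 => h.ht (h1 ▸ hcU)
  have hcP : c ∉ P := fun h1 => (Finset.mem_erase.mp (hP.sub h1)).1 rfl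
  have hsW : s ∈ St s t U := mem_St.mpr (Or.inl rfl)
  have htW : t ∈ St s t U := mem_St.mpr (Or.inr (Or.inl rfl))
  have hcW : c ∈ St s t U := mem_St.mpr (Or.inr (Or.inr hcU))
  constructor
  · obtain ⟨a, ha, b, hb, hbn, hab⟩ := (h.blk.2.2 t htW).2 P (fun x hx =>
        Finset.mem_erase.mpr ⟨fun h1 => hP.ht (h1 ▸ hx), (Finset.mem_erase.mp (hP.sub hx)).2⟩)
      ⟨s, hP.hs⟩ (fun h1 => hcP (h1 ▸ Finset.mem_erase.mpr ⟨hct, hcW⟩))
    rw [Finset.mem_erase] at hb
    by_cases hbc : b = c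
    · exact ⟨a, ha, hbc ▸ hab⟩
    · exfalso
      have h1 := hP.closed a ha b (Finset.mem_erase.mpr ⟨hbc, hb.2⟩) hbn hab
      rw [Sym2.eq_iff] at h1
      rcases h1 with h1 | h1
      · exact hb.1 h1.2
      · exact hP.ht (h1.1 ▸ ha)
  · obtain ⟨a, ha, b, hb, hbn, hab⟩ := (h.blk.2.2 s hsW).2 ((St s t U).erase c \ P) (fun x hx => by
        rw [Finset.mem_sdiff, Finset.mem_erase] at hx
        exact Finset.mem_erase.mpr ⟨fun h1 => hx.2 (h1 ▸ hP.hs), hx.1.2⟩)
      ⟨t, Finset.mem_sdiff.mpr ⟨t_mem h hcU, hP.ht⟩⟩ (fun h1 => by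
        have h2 : c ∈ (St s t U).erase c \ P := by
          rw [h1]
          exact Finset.mem_erase.mpr ⟨hcs, hcW⟩
        exact (Finset.mem_erase.mp (Finset.mem_sdiff.mp h2).1).1 rfl)
    rw [Finset.mem_erase] at hb
    by_cases hbc : b = c
    · exact ⟨a, ha, hbc ▸ hab⟩
    · exfalso
      have h1 := closed_compl hP.closed a ha b (Finset.mem_erase.mpr ⟨hbc, hb.2⟩) hbn hab
      rw [Sym2.eq_iff] at h1
      rcases h1 with h1 | h1
      · rw [h1.1] at ha
        exact (Finset.mem_sdiff.mp ha).2 hP.hs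
      · exact hb.1 h1.2

end K5
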