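import Pool.Agent.Lib.K5.SerS
import Pool.Agent.Lib.K5.SerA

/-!
# K5.SerI: a series code is determined by its graph

Let `d, d'` be valid with the same graph `G`. `P = insert s A1`, `P' = insert s A1'`: `CutP` for `c` resp. `c'` (`cutP_comp`); `Q = (W.erase c) \ P = insert t A2`.
1. `c = c'`: otherwise `c' ∈ A1` or `c' ∈ A2`. (a) If `c' ∈ A1`: `c ∉ P'`: `Q ∪ {c}` is connected in `G - st` and does not contain `c'` (`Q` is connected, `CutP.conn_right`, its edges are not `st` as `s ∉ Q`; `c` has a neighbour in `Q`), it contains `t ∉ P'`, and `P'` is closed, so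
   `c ∉ P'`. Then `P' ∩ (P ∪ {c})` contains `s` and not `c`, and is closed in `G1 - sc` without `c'`: if `b1 = true`, `sc` is an edge of `G` from `P'` to `c ∉ P'`, contradiction to the closedness of `P'`; so `b1 = false` and every edge of `G1 - sc` is an edge of `G`; hence
   `Series s c A1 G1`: contradiction to `nser`. (b) If `c' ∈ A2`: `P ∪ {c}` is connected in `G - st` without `c'` and contains `s ∈ P'`, so `c ∈ P'`, so `c ∈ A1'`: (a) with the roles exchanged. (`Series` also contains `Conn G1 A1`, see 3.)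
2. If `c = c'` then `P = P'` (`CutP.unique`), so `A1 = A1'`, `A2 = A2'`; `b1` iff `sc` is an edge of `G`, the same for `b2`; `G1 = partG G s c A1`, `G2 = partG G c t A2`.
3. `Conn G1 A1` in (a): `A1` with the cut vertex `c'` of `G1 - sc`: if `A1` is not connected, take a component `C` of `G1` on `A1` that does not contain `c'`; it is joined to `s` and to `c` (boundary at least two, `Net.two_le_bd`), and these edges are not `sc`; so in `G1 - sc` without `c'` the set `{s} ∪ C ∪ {c}`
   is connected, contradiction to the closed set `P' ∩ (P ∪ {c})` that contains `s` and not `c`.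
-/

namespace K5

open Finset

namespace SerIAux

variable {s t : ℕ} {U : Finset ℕ} {d : SCode}

lemma facts (h : d.Valid s t U) : d.c ∈ U ∧ d.A1 ⊆ U ∧ d.A2 ⊆ U ∧ s ≠ d.c ∧ t ≠ d.c ∧ s ∉ d.A1 ∧
    s ∉ d.A2 ∧ t ∉ d.A1 ∧ t ∉ d.A2 := by
  have hc : d.c ∈ U := by
    rw [h.part]
    exact mem_insert_self _ _
  have h1 : d.A1 ⊆ U := by
    intro x hx
    rw [h.part]
    exact mem_insert_of_mem (mem_union_left _ hx)
  have h2 : d.A2 ⊆ U := by
    intro x hx
    rw [h.part]
    exact mem_insert_of_mem (mem_union_right _ hx)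
  exact ⟨hc, h1, h2, fun e => h.hs (e ▸ hc), fun e => h.ht (e ▸ hc), fun e => h.hs (h1 e),
    fun e => h.hs (h2 e), fun e => h.ht (h1 e), fun e => h.ht (h2 e)⟩

lemma adj_of_G1 (h : d.Valid s t U) {a b : ℕ} (hab : d.G1.Adj a b) (hne : s(a, b) ≠ s(s, d.c)) :
    (d.comp s t).Adj a b :=
  ⟨hab.ne, Or.inr (Or.inr (Or.inr (Or.inl ⟨hab, hne⟩)))⟩

lemma adj_of_G2 (h : d.Valid s t U) {a b : ℕ} (hab : d.G2.Adj a b) (hne : s(a, b) ≠ s(d.c, t)) :
    (d.comp s t).Adj a b :=
  ⟨hab.ne, Or.inr (Or.inr (Or.inr (Or.inr ⟨hab, hne⟩)))⟩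

/-- Ends of an edge equal to `s t`. -/
lemma mem_of_eq {a b u v : ℕ} (h : s(a, b) = s(u, v)) : (a = u ∧ b = v) ∨ (a = v ∧ b = u) :=
  Sym2.eq_iff.mp h

/-- A network with a side `P` of a cut vertex `x` has a connected interior. -/
lemma conn_of_cut {u v x : ℕ} {A P : Finset ℕ} {H : Gr} (hn : Net u v A H) (hP : CutP u v A H x P) :
    P512.Conn H A := by
  classical
  refine ⟨⟨x, hP.cU⟩, ?_⟩
  intro X hX hXne hXA
  by_contra hcon
  push Not at hcon
  -- a closed set without `x` is impossible
  have key : ∀ C : Finset ℕ, C ⊆ A → C.Nonempty → x ∉ C →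
      (∀ a ∈ C, ∀ b ∈ A, b ∉ C → ¬ H.Adj a b) → False := by
    intro C hC hCne hxC hcl
    have h1 : ¬ (C ∩ P).Nonempty := by
      intro hne
      have h2 := hn.two_le_bd (I := C ∩ P) (inter_subset_left.trans hC) hne
      have h3 : bd H (St u v A) (C ∩ P) ⊆ {u} := by
        intro w hw
        obtain ⟨⟨hwW, hwI⟩, i, hi, hiw⟩ := mem_bd.mp hw
        have hiC := (mem_inter.mp hi).1
        have hiP := (mem_inter.mp hi).2
        rw [mem_singleton]
        by_contra hwu
        have hwx : w ∈ (St u v A).erase x ∨ w = x := by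
          by_cases e : w = x
          · exact Or.inr e
          · exact Or.inl (mem_erase.mpr ⟨e, hwW⟩)
        have hiu : i ≠ u := fun e => hn.hs (e ▸ hC hiC)
        have hiv : i ≠ v := fun e => hn.ht (e ▸ hC hiC)
        rcases hwx with hwx | hwx
        · by_cases hwP : w ∈ P
          · -- `w ∈ P`, `w ∉ C`
            have hwC : w ∉ C := fun h => hwI (mem_inter.mpr ⟨h, hwP⟩)
            have hwA : w ∈ A := by
              rcases mem_insert.mp hwW with e | e
              · exact absurd e hwu
              · rcases mem_insert.mp e with e | e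
                · exact absurd (e ▸ hwP) hP.ht
                · exact e
            exact hcl i hiC w hwA hwC hiw
          · rcases mem_of_eq (hP.closed i hiP w hwx hwP hiw) with e | e
            · exact hiu e.1
            · exact hiv e.1
        · subst hwx
          exact hcl i hiC w hP.cU hxC hiw
      have h4 := card_le_card h3
      rw [card_singleton] at h4
      omega
    have h5 := hn.two_le_bd (I := C) hC hCne
    have h6 : bd H (St u v A) C ⊆ {v} := by
      intro w hw
      obtain ⟨⟨hwW, hwI⟩, i, hi, hiw⟩ := mem_bd.mp hw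
      rw [mem_singleton]
      rcases mem_insert.mp hwW with e | e
      · exfalso
        subst e
        have hiP : i ∉ P := fun h => h1 ⟨i, mem_inter.mpr ⟨hi, h⟩⟩
        have hix : i ≠ x := fun e => hxC (e ▸ hi)
        rcases mem_of_eq (hP.closed w hP.hs i (mem_erase.mpr ⟨hix, mem_insert_of_mem
          (mem_insert_of_mem (hC hi))⟩) hiP hiw.symm) with e | e
        · exact hn.ht (e.2 ▸ hC hi)
        · exact hn.hs (e.2 ▸ hC hi)
      · rcases mem_insert.mp e with e | e
        · exact e
        · exact absurd hiw (hcl i hi w e hwI)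
    have h7 := card_le_card h6
    rw [card_singleton] at h7
    omega
  by_cases hx : x ∈ X
  · refine key (A \ X) sdiff_subset ?_ (fun h => (mem_sdiff.mp h).2 hx) ?_
    · rw [sdiff_nonempty]
      exact fun h => hXA (subset_antisymm hX h)
    · intro a ha b hb hbX hab
      have hbX' : b ∈ X := by
        by_contra h
        exact hbX (mem_sdiff.mpr ⟨hb, h⟩)
      exact hcon b hbX' a (mem_sdiff.mp ha).1 (mem_sdiff.mp ha).2 hab.symm
  · exact key X hX hXne hx (fun a ha b hb hbX => hcon a ha b hb hbX)

/-- The cut vertex is not in the interior of the first network. -/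
lemma no_A1 (h : d.Valid s t U) {c' : ℕ} {P' : Finset ℕ} (hP' : CutP s t U (d.comp s t) c' P')
    (hc' : c' ∈ d.A1) : False := by
  classical
  obtain ⟨hcU, hA1, hA2, hsc, htc, hs1, hs2, ht1, ht2⟩ := facts h
  have hN : Net s t U (d.comp s t) := h.comp_series.piece.net
  have hP := h.cutP_comp
  have hcc : d.c ≠ c' := fun e => h.c1 (e ▸ hc')
  -- `c ∉ P'`
  have hcP : d.c ∉ P' := by
    intro hcP
    have hQ := hP.conn_right hN
    set Q : Finset ℕ := (St s t U).erase d.c \ insert s d.A1 with hQd
    have hQc' : ∀ v ∈ Q, v ∈ (St s t U).erase c' := by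
      intro v hv
      have h1 := mem_sdiff.mp hv
      refine mem_erase.mpr ⟨fun e => h1.2 (mem_insert_of_mem (e ▸ hc')), (mem_erase.mp h1.1).2⟩
    have hsQ : s ∉ Q := fun e => (mem_sdiff.mp e).2 (mem_insert_self _ _)
    have htQ : t ∈ Q := by
      refine mem_sdiff.mpr ⟨mem_erase.mpr ⟨htc, mem_insert_of_mem (mem_insert_self _ _)⟩, ?_⟩
      intro e
      rcases mem_insert.mp e with e | e
      · exact h.hst e.symm
      · exact ht1 e
    have hempty : ∀ a ∈ Q, a ∉ P' := by
      intro a ha haP
      obtain ⟨u, hu, v, hv, hvP, huv⟩ := hQ.2 (Q ∩ P') inter_subset_left ⟨a, mem_inter.mpr ⟨ha, haP⟩⟩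
        (fun e => hP'.ht (mem_inter.mp (e.symm ▸ htQ : t ∈ Q ∩ P')).2)
      have hu' := mem_inter.mp hu
      rcases mem_of_eq (hP'.closed u hu'.2 v (hQc' v hv) (fun e => hvP (mem_inter.mpr ⟨hv, e⟩)) huv) with e | e
      · exact hsQ (e.1 ▸ hu'.1)
      · exact hsQ (e.2 ▸ hv)
    obtain ⟨_, a, ha, hac⟩ := hP.adj_c hN
    rcases mem_of_eq (hP'.closed d.c hcP a (hQc' a ha) (hempty a ha) hac.symm) with e | e
    · exact hsc e.1.symm
    · exact htc e.1.symm
  -- the side in the first network
  have hP1 : CutP s d.c d.A1 d.G1 c' (P' ∩ insert s d.A1) := by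
    refine ⟨hc', ?_, mem_inter.mpr ⟨hP'.hs, mem_insert_self _ _⟩, fun e => hcP (mem_inter.mp e).1, ?_⟩
    · intro v hv
      have h1 := mem_inter.mp hv
      refine mem_erase.mpr ⟨(mem_erase.mp (hP'.sub h1.1)).1, ?_⟩
      rcases mem_insert.mp h1.2 with e | e
      · exact mem_insert.mpr (Or.inl e)
      · exact mem_insert_of_mem (mem_insert_of_mem e)
    · intro a ha b hb hbP hab
      by_contra hne
      have ha' := mem_inter.mp ha
      have hb' := mem_erase.mp hb
      have hbW : b ∈ St s t U := by
        rcases mem_insert.mp hb'.2 with e | e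
        · exact mem_insert.mpr (Or.inl e)
        · rcases mem_insert.mp e with e | e
          · rw [e]
            exact mem_insert_of_mem (mem_insert_of_mem hcU)
          · exact mem_insert_of_mem (mem_insert_of_mem (hA1 e))
      have hbt : b ≠ t := by
        rintro rfl
        rcases mem_insert.mp hb'.2 with e | e
        · exact h.hst e.symm
        · rcases mem_insert.mp e with e | e
          · exact htc e
          · exact ht1 e
      have hbP' : b ∉ P' := by
        intro e
        rcases mem_insert.mp hb'.2 with e1 | e1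
        · exact hbP (mem_inter.mpr ⟨e, mem_insert.mpr (Or.inl e1)⟩)
        · rcases mem_insert.mp e1 with e1 | e1
          · exact hcP (e1 ▸ e)
          · exact hbP (mem_inter.mpr ⟨e, mem_insert_of_mem e1⟩)
      rcases mem_of_eq (hP'.closed a ha'.1 b (mem_erase.mpr ⟨hb'.1, hbW⟩) hbP'
        (adj_of_G1 h hab hne)) with e | e
      · exact hbt e.2
      · exact hP'.ht (e.1 ▸ ha'.1)
  have hb1 : d.b1 ≠ true := by
    intro hb
    have hadj : (d.comp s t).Adj s d.c := ⟨hsc, Or.inr (Or.inl ⟨rfl, hb⟩)⟩
    rcases mem_of_eq (hP'.closed s hP'.hs d.c (mem_erase.mpr ⟨hcc, mem_insert_of_mem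
      (mem_insert_of_mem hcU)⟩) hcP hadj) with e | e
    · exact htc e.2.symm
    · exact h.hst e.1
  rcases h.nser with hb | hns
  · exact hb1 hb
  · exact hns ⟨⟨h.net1, conn_of_cut h.net1 hP1⟩, ⟨c', hc', hP1.not_conn h.net1⟩⟩

/-- The cut vertices agree. -/
lemma cut_eq {d' : SCode} (h : d.Valid s t U) (h' : d'.Valid s t U) (heq : d.comp s t = d'.comp s t) :
    d.c = d'.c := by
  classical
  obtain ⟨hcU, hA1, hA2, hsc, htc, hs1, hs2, ht1, ht2⟩ := facts h
  obtain ⟨hcU', hA1', hA2', hsc', htc', hs1', hs2', ht1', ht2'⟩ := facts h'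
  by_contra hne
  have hN : Net s t U (d.comp s t) := h.comp_series.piece.net
  have hP := h.cutP_comp
  have hP' := h'.cutP_comp
  rw [← heq] at hP'
  have hmem : d'.c ∈ d.A1 ∨ d'.c ∈ d.A2 := by
    have h1 := hcU'
    rw [h.part] at h1
    rcases mem_insert.mp h1 with e | e
    · exact absurd e.symm hne
    · exact mem_union.mp e
  rcases hmem with hm | hm
  · exact no_A1 h hP' hm
  · have hdis : d'.c ∉ d.A1 := fun e => (disjoint_left.mp h.disj) e hm
    have hPc' : ∀ v ∈ insert s d.A1, v ∈ (St s t U).erase d'.c := by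
      intro v hv
      rcases mem_insert.mp hv with e | e
      · rw [e]
        exact mem_erase.mpr ⟨hsc', mem_insert_self _ _⟩
      · exact mem_erase.mpr ⟨fun e1 => hdis (e1 ▸ e), mem_insert_of_mem (mem_insert_of_mem (hA1 e))⟩
    have hcP : d.c ∈ insert s d'.A1 := by
      by_contra hcP
      have hall : ∀ a ∈ insert s d.A1, a ∈ insert s d'.A1 := by
        by_contra hcon
        push Not at hcon
        obtain ⟨a, ha, haP⟩ := hcon
        obtain ⟨u, hu, v, hv, hvP, huv⟩ := (hP.conn_left hN).2 (insert s d.A1 ∩ insert s d'.A1)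
          inter_subset_left ⟨s, mem_inter.mpr ⟨mem_insert_self _ _, mem_insert_self _ _⟩⟩
          (fun e => haP (mem_inter.mp (e.symm ▸ ha : a ∈ insert s d.A1 ∩ insert s d'.A1)).2)
        have hu' := mem_inter.mp hu
        rcases mem_of_eq (hP'.closed u hu'.2 v (hPc' v hv) (fun e => hvP (mem_inter.mpr ⟨hv, e⟩)) huv) with e | e
        · exact hP.ht (e.2 ▸ hv)
        · exact hP.ht (e.1 ▸ hu'.1)
      obtain ⟨⟨a, ha, hac⟩, _⟩ := hP.adj_c hN
      rcases mem_of_eq (hP'.closed a (hall a ha) d.c (mem_erase.mpr ⟨hne, mem_insert_of_mem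
        (mem_insert_of_mem hcU)⟩) hcP hac) with e | e
      · exact htc e.2.symm
      · exact hsc e.2.symm
    have hcA : d.c ∈ d'.A1 := by
      rcases mem_insert.mp hcP with e | e
      · exact absurd e.symm hsc
      · exact e
    rw [heq] at hP
    exact no_A1 h' hP hcA

lemma G1_iff (h : d.Valid s t U) (a b : ℕ) : d.G1.Adj a b ↔
    s(a, b) = s(s, d.c) ∨ (a ∈ St s d.c d.A1 ∧ b ∈ St s d.c d.A1 ∧ (d.comp s t).Adj a b) := by
  obtain ⟨hcU, hA1, hA2, hsc, htc, hs1, hs2, ht1, ht2⟩ := facts h
  have htS : t ∉ St s d.c d.A1 := by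
    intro e
    rcases mem_insert.mp e with e | e
    · exact h.hst e.symm
    · rcases mem_insert.mp e with e | e
      · exact htc e
      · exact ht1 e
  have hadj : s(a, b) = s(s, d.c) → d.G1.Adj a b := by
    intro e
    rcases mem_of_eq e with e | e
    · rw [e.1, e.2]
      exact h.net1.adj
    · rw [e.1, e.2]
      exact h.net1.adj.symm
  constructor
  · intro hab
    by_cases e : s(a, b) = s(s, d.c)
    · exact Or.inl e
    · exact Or.inr ⟨h.net1.on a b hab, h.net1.on b a hab.symm, adj_of_G1 h hab e⟩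
  · rintro (e | ⟨ha, hb, hab⟩)
    · exact hadj e
    · rcases hab.2 with e | ⟨e, _⟩ | ⟨e, _⟩ | ⟨e, _⟩ | ⟨e, _⟩
      · exfalso
        rcases mem_of_eq e with e | e
        · exact htS (e.2 ▸ hb)
        · exact htS (e.1 ▸ ha)
      · exact hadj e
      · exfalso
        rcases mem_of_eq e with e | e
        · exact htS (e.2 ▸ hb)
        · exact htS (e.1 ▸ ha)
      · exact e
      · exfalso
        have key : ∀ x, x ∈ St s d.c d.A1 → x ∈ St d.c t d.A2 → x = d.c := by
          intro x hx hx'
          rcases mem_insert.mp hx with e1 | e1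
          · exfalso
            subst e1
            rcases mem_insert.mp hx' with e2 | e2
            · exact hsc e2
            · rcases mem_insert.mp e2 with e2 | e2
              · exact h.hst e2
              · exact hs2 e2
          · rcases mem_insert.mp e1 with e1 | e1
            · exact e1
            · exfalso
              rcases mem_insert.mp hx' with e2 | e2
              · exact h.c1 (e2 ▸ e1)
              · rcases mem_insert.mp e2 with e2 | e2
                · exact ht1 (e2 ▸ e1)
                · exact (disjoint_left.mp h.disj) e1 e2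
        have e1 := key a ha (h.net2.on a b e)
        have e2 := key b hb (h.net2.on b a e.symm)
        exact e.ne (e1.trans e2.symm)

lemma G2_iff (h : d.Valid s t U) (a b : ℕ) : d.G2.Adj a b ↔
    s(a, b) = s(d.c, t) ∨ (a ∈ St d.c t d.A2 ∧ b ∈ St d.c t d.A2 ∧ (d.comp s t).Adj a b) := by
  obtain ⟨hcU, hA1, hA2, hsc, htc, hs1, hs2, ht1, ht2⟩ := facts h
  have hsS : s ∉ St d.c t d.A2 := by
    intro e
    rcases mem_insert.mp e with e | e
    · exact hsc e
    · rcases mem_insert.mp e with e | e
      · exact h.hst e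
      · exact hs2 e
  have hadj : s(a, b) = s(d.c, t) → d.G2.Adj a b := by
    intro e
    rcases mem_of_eq e with e | e
    · rw [e.1, e.2]
      exact h.net2.adj
    · rw [e.1, e.2]
      exact h.net2.adj.symm
  constructor
  · intro hab
    by_cases e : s(a, b) = s(d.c, t)
    · exact Or.inl e
    · exact Or.inr ⟨h.net2.on a b hab, h.net2.on b a hab.symm, adj_of_G2 h hab e⟩
  · rintro (e | ⟨ha, hb, hab⟩)
    · exact hadj e
    · rcases hab.2 with e | ⟨e, _⟩ | ⟨e, _⟩ | ⟨e, _⟩ | ⟨e, _⟩
      · exfalso
        rcases mem_of_eq e with e | e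
        · exact hsS (e.1 ▸ ha)
        · exact hsS (e.2 ▸ hb)
      · exfalso
        rcases mem_of_eq e with e | e
        · exact hsS (e.1 ▸ ha)
        · exact hsS (e.2 ▸ hb)
      · exact hadj e
      · exfalso
        have key : ∀ x, x ∈ St s d.c d.A1 → x ∈ St d.c t d.A2 → x = d.c := by
          intro x hx hx'
          rcases mem_insert.mp hx with e1 | e1
          · exfalso
            subst e1
            exact hsS hx'
          · rcases mem_insert.mp e1 with e1 | e1
            · exact e1
            · exfalso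
              rcases mem_insert.mp hx' with e2 | e2
              · exact h.c1 (e2 ▸ e1)
              · rcases mem_insert.mp e2 with e2 | e2
                · exact ht1 (e2 ▸ e1)
                · exact (disjoint_left.mp h.disj) e1 e2
        have e1 := key a (h.net1.on a b e) ha
        have e2 := key b (h.net1.on b a e.symm) hb
        exact e.ne (e1.trans e2.symm)
      · exact e

lemma b1_iff (h : d.Valid s t U) : d.b1 = true ↔ (d.comp s t).Adj s d.c := by
  obtain ⟨hcU, hA1, hA2, hsc, htc, hs1, hs2, ht1, ht2⟩ := facts h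
  constructor
  · intro hb
    exact ⟨hsc, Or.inr (Or.inl ⟨rfl, hb⟩)⟩
  · intro hab
    rcases hab.2 with e | ⟨_, e⟩ | ⟨e, _⟩ | ⟨_, e⟩ | ⟨e, _⟩
    · exfalso
      rcases mem_of_eq e with e | e
      · exact htc e.2.symm
      · exact h.hst e.1
    · exact e
    · exfalso
      rcases mem_of_eq e with e | e
      · exact hsc e.1
      · exact h.hst e.1
    · exact absurd rfl e
    · exfalso
      have h1 := h.net2.on s d.c e
      rcases mem_insert.mp h1 with e | e
      · exact hsc e
      · rcases mem_insert.mp e with e | e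
        · exact h.hst e
        · exact hs2 e

lemma b2_iff (h : d.Valid s t U) : d.b2 = true ↔ (d.comp s t).Adj d.c t := by
  obtain ⟨hcU, hA1, hA2, hsc, htc, hs1, hs2, ht1, ht2⟩ := facts h
  constructor
  · intro hb
    exact ⟨htc.symm, Or.inr (Or.inr (Or.inl ⟨rfl, hb⟩))⟩
  · intro hab
    rcases hab.2 with e | ⟨e, _⟩ | ⟨_, e⟩ | ⟨e, _⟩ | ⟨_, e⟩
    · exfalso
      rcases mem_of_eq e with e | e
      · exact hsc e.1.symm
      · exact htc e.1.symm
    · exfalso
      rcases mem_of_eq e with e | e
      · exact hsc e.1.symm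
      · exact h.hst e.2.symm
    · exact e
    · exfalso
      have h1 := h.net1.on t d.c e.symm
      rcases mem_insert.mp h1 with e | e
      · exact h.hst e.symm
      · rcases mem_insert.mp e with e | e
        · exact htc e
        · exact ht1 e
    · exact absurd rfl e

end SerIAux

open SerIAux in
theorem SCode.Valid.comp_inj {s t : ℕ} {U : Finset ℕ} {d d' : SCode} (h : d.Valid s t U)
    (h' : d'.Valid s t U) (heq : d.comp s t = d'.comp s t) : d = d' := by
  classical
  have hcc := cut_eq h h' heq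
  have hN : Net s t U (d.comp s t) := h.comp_series.piece.net
  obtain ⟨hcU, hA1, hA2, hsc, htc, hs1, hs2, ht1, ht2⟩ := facts h
  obtain ⟨hcU', hA1', hA2', hsc', htc', hs1', hs2', ht1', ht2'⟩ := facts h'
  have hP := h.cutP_comp
  have hP' := h'.cutP_comp
  rw [← heq, ← hcc] at hP'
  have hPP := hP.unique hN hP'
  have e1 : d.A1 = d'.A1 := by
    have h1 := congrArg (fun X => X.erase s) hPP
    simp only [erase_insert hs1, erase_insert hs1'] at h1
    exact h1
  have e2 : d.A2 = d'.A2 := by
    have hsplit : ∀ {e : SCode}, e.Valid s t U → e.A2 = (U.erase e.c) \ e.A1 := by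
      intro e he
      ext x
      rw [mem_sdiff, mem_erase]
      constructor
      · intro hx
        exact ⟨⟨fun e1 => he.c2 (e1 ▸ hx), (facts he).2.2.1 hx⟩, fun e1 => (disjoint_left.mp he.disj) e1 hx⟩
      · rintro ⟨⟨hxc, hxU⟩, hx1⟩
        rw [he.part] at hxU
        rcases mem_insert.mp hxU with e1 | e1
        · exact absurd e1 hxc
        · rcases mem_union.mp e1 with e1 | e1
          · exact absurd e1 hx1
          · exact e1
    rw [hsplit h, hsplit h', hcc, e1]
  have e3 : d.G1 = d'.G1 := by
    ext a b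
    rw [G1_iff h, G1_iff h', heq, hcc, e1]
  have e4 : d.G2 = d'.G2 := by
    ext a b
    rw [G2_iff h, G2_iff h', heq, hcc, e2]
  have e5 : d.b1 = d'.b1 := by
    rw [Bool.eq_iff_iff, b1_iff h, b1_iff h', heq, hcc]
  have e6 : d.b2 = d'.b2 := by
    rw [Bool.eq_iff_iff, b2_iff h, b2_iff h', heq, hcc]
  rcases d with ⟨c, A1, A2, G1, G2, b1, b2⟩
  rcases d' with ⟨c', A1', A2', G1', G2', b1', b2'⟩
  simp only at hcc e1 e2 e3 e4 e5 e6
  rw [hcc, e1, e2, e3, e4, e5, e6]

end K5
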