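import Pool.Agent.Lib.K5.SerE
import Pool.Agent.Lib.K5.SerI
import Pool.Agent.Lib.K5.RelD
import Pool.Agent.Lib.K5.Basic0
import Pool.Agent.Lib.K5.CLMul

/-!
# K5.SerC: counting the series pieces

1. `nS_eq`: `Series s t U G` corresponds to the valid series codes (`Series.exists_code`, `SCode.Valid.comp_series`, `SCode.Valid.comp_inj`). A code: `c ∈ U`, `A1 ⊆ U \ {c}`, `A2` = the rest, the pair `(G1, b1)` counted by `ee |A1|` (`ee_count` for the poles `s, c`), the pair `(G2, b2)` counted by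
   `dd |A2|` (`dd_count` for the poles `c, t`). For every `c` the sum over `A1` is the same (`sum_powerset_pair`), there are `n` choices of `c`.
2. `egf_nS`: `egf_root` and `egf_mul`.
3. `egf_nS_trn`: in `nS_eq` for `n ≤ N + 1` the sets have at most `N` elements.
-/

namespace K5

open Finset
open scoped ENNReal

namespace SerCAux

/-- Pairs counted by `ee`. -/
abbrev EP (s c : ℕ) (A : Finset ℕ) : Type :=
  {p : Gr × Bool // Net s c A p.1 ∧ (A = ∅ → p.2 = true) ∧ (p.2 = true ∨ ¬ Series s c A p.1)}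

/-- Pairs counted by `dd`. -/
abbrev DP (c t : ℕ) (A : Finset ℕ) : Type :=
  {p : Gr × Bool // Net c t A p.1 ∧ (A = ∅ → p.2 = true)}

variable {s t : ℕ} {U : Finset ℕ}

/-- The code of the data. -/
def mk (c : ℕ) (A B : Finset ℕ) (p q : Gr × Bool) : SCode := ⟨c, A, B, p.1, q.1, p.2, q.2⟩

lemma valid_mk (hst : s ≠ t) (hs : s ∉ U) (ht : t ∉ U) {c : ℕ} (hc : c ∈ U) {A : Finset ℕ}
    (hA : A ∈ (U.erase c).powerset) (p : EP s c A) (q : DP c t ((U.erase c) \ A)) :
    (mk c A ((U.erase c) \ A) p.1 q.1).Valid s t U := by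
  have hA' := mem_powerset.mp hA
  refine ⟨hst, hs, ht, ?_, disjoint_sdiff, ?_, ?_, p.2.1, q.2.1, p.2.2.1, q.2.2, p.2.2.2⟩
  · show U = insert c (A ∪ (U.erase c) \ A)
    rw [union_sdiff_of_subset hA', insert_erase hc]
  · exact fun h => (mem_erase.mp (hA' h)).1 rfl
  · exact fun h => (mem_erase.mp (mem_sdiff.mp h).1).1 rfl

/-- All the data. -/
abbrev Dat (s t : ℕ) (U : Finset ℕ) : Type :=
  Σ c : {c : ℕ // c ∈ U}, Σ A : {A : Finset ℕ // A ∈ (U.erase c.1).powerset},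
    EP s c.1 A.1 × DP c.1 t ((U.erase c.1) \ A.1)

lemma valid_dat (hst : s ≠ t) (hs : s ∉ U) (ht : t ∉ U) (x : Dat s t U) :
    (mk x.1.1 x.2.1.1 ((U.erase x.1.1) \ x.2.1.1) x.2.2.1.1 x.2.2.2.1).Valid s t U :=
  valid_mk hst hs ht x.1.2 x.2.1.2 x.2.2.1 x.2.2.2

/-- The series piece of the data. -/
def toS (hst : s ≠ t) (hs : s ∉ U) (ht : t ∉ U) (x : Dat s t U) : {G : Gr // Series s t U G} :=
  ⟨(mk x.1.1 x.2.1.1 ((U.erase x.1.1) \ x.2.1.1) x.2.2.1.1 x.2.2.2.1).comp s t,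
    (valid_dat hst hs ht x).comp_series⟩

lemma toS_bij (hst : s ≠ t) (hs : s ∉ U) (ht : t ∉ U) :
    Function.Bijective (toS (U := U) hst hs ht) := by
  constructor
  · intro x y hxy
    have h1 := congrArg Subtype.val hxy
    have h2 := (valid_dat hst hs ht x).comp_inj (valid_dat hst hs ht y) h1
    obtain ⟨⟨c, hc⟩, ⟨A, hA⟩, ⟨⟨G1, b1⟩, hp⟩, ⟨⟨G2, b2⟩, hq⟩⟩ := x
    obtain ⟨⟨c', hc'⟩, ⟨A', hA'⟩, ⟨⟨G1', b1'⟩, hp'⟩, ⟨⟨G2', b2'⟩, hq'⟩⟩ := y
    simp only [mk, SCode.mk.injEq] at h2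
    obtain ⟨e1, e2, -, e3, e4, e5, e6⟩ := h2
    subst e1 e2 e3 e4 e5 e6
    rfl
  · rintro ⟨G, hG⟩
    obtain ⟨d, hd, hdG⟩ := hG.exists_code
    have hc : d.c ∈ U := by
      rw [hd.part]
      exact mem_insert_self _ _
    have hA : d.A1 ∈ (U.erase d.c).powerset := by
      rw [mem_powerset]
      intro x hx
      refine mem_erase.mpr ⟨fun e => hd.c1 (e ▸ hx), ?_⟩
      rw [hd.part]
      exact mem_insert_of_mem (mem_union_left _ hx)
    have h2 : d.A2 = (U.erase d.c) \ d.A1 := by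
      ext x
      rw [mem_sdiff, mem_erase]
      constructor
      · intro hx
        refine ⟨⟨fun e => hd.c2 (e ▸ hx), ?_⟩, fun h => disjoint_left.mp hd.disj h hx⟩
        rw [hd.part]
        exact mem_insert_of_mem (mem_union_right _ hx)
      · rintro ⟨⟨hxc, hxU⟩, hx1⟩
        rw [hd.part] at hxU
        rcases mem_insert.mp hxU with e1 | e1
        · exact absurd e1 hxc
        · rcases mem_union.mp e1 with e1 | e1
          · exact absurd e1 hx1
          · exact e1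
    refine ⟨⟨⟨d.c, hc⟩, ⟨d.A1, hA⟩, ⟨(d.G1, d.b1), hd.net1, hd.e1, hd.nser⟩,
      ⟨(d.G2, d.b2), ?_, ?_⟩⟩, ?_⟩
    · show Net d.c t ((U.erase d.c) \ d.A1) d.G2
      rw [← h2]
      exact hd.net2
    · show (U.erase d.c) \ d.A1 = ∅ → d.b2 = true
      rw [← h2]
      exact hd.e2
    · apply Subtype.ext
      show (mk d.c d.A1 ((U.erase d.c) \ d.A1) (d.G1, d.b1) (d.G2, d.b2)).comp s t = G
      rw [← h2]
      exact hdG

lemma tsum_prod_one (α β : Type*) :
    ∑' _ : α × β, (1 : ℝ≥0∞) = (∑' _ : α, (1 : ℝ≥0∞)) * ∑' _ : β, (1 : ℝ≥0∞) := by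
  rw [ENNReal.tsum_prod (f := fun _ _ => (1 : ℝ≥0∞)), ← ENNReal.tsum_mul_right]
  refine tsum_congr fun a => ?_
  rw [one_mul]

lemma sum_eq (hst : s ≠ t) (hs : s ∉ U) (ht : t ∉ U) :
    ∑' _ : {G : Gr // Series s t U G}, (1 : ℝ≥0∞) =
      ∑ c ∈ U, ∑ A ∈ (U.erase c).powerset, ee A.card * dd ((U.erase c) \ A).card := by
  rw [← (Equiv.ofBijective _ (toS_bij (U := U) hst hs ht)).tsum_eq (fun _ => (1 : ℝ≥0∞)),
    ENNReal.tsum_sigma']
  rw [← Finset.tsum_subtype U (fun c => ∑ A ∈ (U.erase c).powerset,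
    ee A.card * dd ((U.erase c) \ A).card)]
  refine tsum_congr fun c => ?_
  rw [ENNReal.tsum_sigma', ← Finset.tsum_subtype ((U.erase c.1).powerset) (fun A =>
    ee A.card * dd ((U.erase c.1) \ A).card)]
  refine tsum_congr fun A => ?_
  have hA := mem_powerset.mp A.2
  have hsc : s ≠ c.1 := fun e => hs (e ▸ c.2)
  have hct : c.1 ≠ t := fun e => ht (e ▸ c.2)
  rw [tsum_prod_one, ee_count hsc (fun h => hs (mem_of_mem_erase (hA h)))
    (fun h => (mem_erase.mp (hA h)).1 rfl),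
    dd_count hct (fun h => (mem_erase.mp (mem_sdiff.mp h).1).1 rfl)
      (fun h => ht (mem_of_mem_erase (mem_sdiff.mp h).1))]

end SerCAux

open SerCAux in
theorem nS_eq (n : ℕ) : nS n = (n : ℝ≥0∞) *
    ∑ A ∈ (range (n - 1)).powerset, ee A.card * dd (range (n - 1) \ A).card := by
  have h1 := sum_eq (s := 0) (t := 1) (U := Ico 2 (n + 2)) (by decide)
    (by rw [mem_Ico]; omega) (by rw [mem_Ico]; omega)
  rw [nS, h1]
  have h2 : ∀ c ∈ Ico 2 (n + 2), ∑ A ∈ ((Ico 2 (n + 2)).erase c).powerset,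
      ee A.card * dd (((Ico 2 (n + 2)).erase c) \ A).card =
      ∑ A ∈ (range (n - 1)).powerset, ee A.card * dd (range (n - 1) \ A).card := by
    intro c hc
    rw [sum_powerset_pair (fun a b => ee a * dd b), sum_powerset_pair (fun a b => ee a * dd b),
      card_erase_of_mem hc, card_range, Nat.card_Ico, Nat.add_sub_cancel]
  rw [sum_congr rfl h2, sum_const, Nat.card_Ico, Nat.add_sub_cancel, nsmul_eq_mul]

theorem egf_nS (x : ℝ≥0∞) : egf nS x = x * (egf ee x * D x) := by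
  have h0 := egf_root
    (fun m : ℕ => ∑ A ∈ (range m).powerset, ee A.card * dd (range m \ A).card) x
  have h1 : nS = fun n : ℕ => (n : ℝ≥0∞) *
      (fun m : ℕ => ∑ A ∈ (range m).powerset, ee A.card * dd (range m \ A).card) (n - 1) :=
    funext nS_eq
  rw [egf_mul] at h0
  rw [h1]
  exact h0

theorem egf_nS_trn (N : ℕ) (x : ℝ≥0∞) :
    egf (trn (N + 1) nS) x ≤ x * (egf (trn N ee) x * egf (trn N dd) x) := by
  rw [← egf_mul, ← egf_root]
  refine egf_mono (fun n => ?_) x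
  rw [trn]
  split_ifs with hn
  · rw [nS_eq]
    refine mul_le_mul' le_rfl (le_of_eq (sum_congr rfl fun A hA => ?_))
    have h1 := card_le_card (mem_powerset.mp hA)
    have h2 := card_le_card (sdiff_subset (s := range (n - 1)) (t := A))
    rw [card_range] at h1 h2
    rw [trn, trn, if_pos (by omega), if_pos (by omega)]
  · exact zero_le

end K5
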