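import Pool.Agent.Lib.K5.ERel
import Pool.Agent.Lib.K5.ESerA
import Pool.Agent.Lib.K5.SerC

/-!
# K5.ESerC: counting the series pieces with weights

Adapt the finished file `K5/SerC.lean` (`SerCAux.Dat`, `SerCAux.toS`, `SerCAux.toS_bij`, `SerCAux.sum_eq`, `nS_eq`, `egf_nS`).
1. The bijection `SerCAux.toS` sends the data to the graph `(mk ..).comp s t`, whose weight is `y ^ ((ec s(s, c) G1 + b1.toNat) + (ec s(c, t) G2 + b2.toNat))` (`SCode.Valid.ec_comp`, `SerCAux.valid_dat`), a product of the weights of the two pairs; `ENNReal.tsum_prod`, `tsum_mul_left/right` instead of `tsum_prod_one`;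
then `eey_count`, `ddy_count`.
2. `nSy_eq`, `egf_nSy`: as `nS_eq`, `egf_nS`.
-/

namespace K5

open Finset
open scoped ENNReal

namespace ESerCAux

open SerCAux

variable {s t : ℕ} {U : Finset ℕ}

lemma tsum_prod_w (α β : Type) (f : α → ℝ≥0∞) (g : β → ℝ≥0∞) :
    ∑' p : α × β, f p.1 * g p.2 = (∑' a, f a) * ∑' b, g b := by
  rw [ENNReal.tsum_prod (f := fun a b => f a * g b), ← ENNReal.tsum_mul_right]
  refine tsum_congr fun a => ?_
  rw [ENNReal.tsum_mul_left]

lemma sum_eqy (y : ℝ≥0∞) (hst : s ≠ t) (hs : s ∉ U) (ht : t ∉ U) :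
    ∑' G : {G : Gr // Series s t U G}, y ^ ec s(s, t) G.1 =
      ∑ c ∈ U, ∑ A ∈ (U.erase c).powerset, eey y A.card * ddy y ((U.erase c) \ A).card := by
  rw [← (Equiv.ofBijective _ (toS_bij (U := U) hst hs ht)).tsum_eq (fun G => y ^ ec s(s, t) G.1)]
  have h0 : ∀ x : Dat s t U, y ^ ec s(s, t) ((Equiv.ofBijective _ (toS_bij (U := U) hst hs ht)) x).1 =
      y ^ (ec s(s, x.1.1) x.2.2.1.1.1 + x.2.2.1.1.2.toNat) *
        y ^ (ec s(x.1.1, t) x.2.2.2.1.1 + x.2.2.2.1.2.toNat) := by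
    intro x
    have h1 := (valid_dat hst hs ht x).ec_comp
    rw [← pow_add]
    exact congrArg (fun n : ℕ => y ^ n) h1
  rw [tsum_congr h0, ENNReal.tsum_sigma']
  rw [← Finset.tsum_subtype U (fun c => ∑ A ∈ (U.erase c).powerset,
    eey y A.card * ddy y ((U.erase c) \ A).card)]
  refine tsum_congr fun c => ?_
  rw [ENNReal.tsum_sigma', ← Finset.tsum_subtype ((U.erase c.1).powerset) (fun A =>
    eey y A.card * ddy y ((U.erase c.1) \ A).card)]
  refine tsum_congr fun A => ?_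
  have hA := mem_powerset.mp A.2
  have hsc : s ≠ c.1 := fun e => hs (e ▸ c.2)
  have hct : c.1 ≠ t := fun e => ht (e ▸ c.2)
  rw [← eey_count y hsc (fun h => hs (mem_of_mem_erase (hA h)))
    (fun h => (mem_erase.mp (hA h)).1 rfl),
    ← ddy_count y hct (fun h => (mem_erase.mp (mem_sdiff.mp h).1).1 rfl)
      (fun h => ht (mem_of_mem_erase (mem_sdiff.mp h).1))]
  exact tsum_prod_w (EP s c.1 A.1) (DP c.1 t ((U.erase c.1) \ A.1))
    (fun p => y ^ (ec s(s, c.1) p.1.1 + p.1.2.toNat)) (fun q => y ^ (ec s(c.1, t) q.1.1 + q.1.2.toNat))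

end ESerCAux

open ESerCAux in
theorem nSy_eq (y : ℝ≥0∞) (n : ℕ) : nSy y n = (n : ℝ≥0∞) *
    ∑ A ∈ (range (n - 1)).powerset, eey y A.card * ddy y (range (n - 1) \ A).card := by
  have h1 := sum_eqy y (s := 0) (t := 1) (U := Ico 2 (n + 2)) (by decide)
    (by rw [mem_Ico]; omega) (by rw [mem_Ico]; omega)
  rw [nSy, h1]
  have h2 : ∀ c ∈ Ico 2 (n + 2), ∑ A ∈ ((Ico 2 (n + 2)).erase c).powerset,
      eey y A.card * ddy y (((Ico 2 (n + 2)).erase c) \ A).card =
      ∑ A ∈ (range (n - 1)).powerset, eey y A.card * ddy y (range (n - 1) \ A).card := by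
    intro c hc
    rw [sum_powerset_pair (fun a b => eey y a * ddy y b), sum_powerset_pair (fun a b => eey y a * ddy y b),
      card_erase_of_mem hc, card_range, Nat.card_Ico, Nat.add_sub_cancel]
  rw [sum_congr rfl h2, sum_const, Nat.card_Ico, Nat.add_sub_cancel, nsmul_eq_mul]

theorem egf_nSy (y x : ℝ≥0∞) : egf (nSy y) x = x * (egf (eey y) x * Dy x y) := by
  have h0 := egf_root
    (fun m : ℕ => ∑ A ∈ (range m).powerset, eey y A.card * ddy y (range m \ A).card) x
  have h1 : nSy y = fun n : ℕ => (n : ℝ≥0∞) *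
      (fun m : ℕ => ∑ A ∈ (range m).powerset, eey y A.card * ddy y (range m \ A).card) (n - 1) :=
    funext (nSy_eq y)
  rw [egf_mul] at h0
  rw [h1, Dy]
  exact h0

end K5
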