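import Pool.Agent.Lib.K5.ParQ
import Pool.Agent.Lib.K5.CntC
import Pool.Agent.Lib.K5.SerC

/-!
# K5.NetL: the equation of the networks

If `D x` is finite (`x` real, `x > 0`), all the series are finite: `egf ee x, egf nS x ≤ D x`; `2 egf Q x = D x + 1`; `egf nP x ≤ egf Q x` (`nP n ≤ Q n`, or from `eexp a ≥ a`). Real numbers `z = D x ≥ 1` (term `n = 0`), `e + s = z` (`ee_add`), `s = x e z` (`egf_nS`), so `s = x z^2 / (1 + x z)`; `p = s + h` (`nP_eq`), `h = T0 x z` (`egf_nH`),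
`(1 + z)/2 = exp p` (`egf_q`, `eexp_ofReal`). So `T0 x z = log ((1 + z)/2) - x z^2/(1 + x z)`.
-/

namespace K5

open Finset
open scoped ENNReal

namespace NetLAux

lemma egf_add (F G : ℕ → ℝ≥0∞) (x : ℝ≥0∞) : egf (fun n => F n + G n) x = egf F x + egf G x := by
  unfold egf
  rw [← ENNReal.tsum_add]
  exact tsum_congr (fun n => mul_add _ _ _)

lemma egf_smul (c : ℝ≥0∞) (F : ℕ → ℝ≥0∞) (x : ℝ≥0∞) : egf (fun n => c * F n) x = c * egf F x := by
  unfold egf
  rw [← ENNReal.tsum_mul_left]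
  exact tsum_congr (fun n => by ring)

lemma egf_one (x : ℝ≥0∞) : egf (fun n => if n = 0 then 1 else 0) x = 1 := by
  unfold egf
  rw [tsum_eq_single 0]
  · simp
  · intro n hn
    simp [hn]

end NetLAux

open NetLAux in
theorem netL {x : ℝ} (hx : 0 < x) (hD : D (.ofReal x) ≠ ⊤) :
    ∃ z : ℝ, 1 ≤ z ∧ D (.ofReal x) = .ofReal z ∧
      0 ≤ Real.log ((1 + z) / 2) - x * z ^ 2 / (1 + x * z) ∧
      T0 (.ofReal x) (.ofReal z) = .ofReal (Real.log ((1 + z) / 2) - x * z ^ 2 / (1 + x * z)) := by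
  obtain ⟨X, hX⟩ : ∃ X, X = ENNReal.ofReal x := ⟨_, rfl⟩
  rw [← hX] at hD ⊢
  have hDe : D X = egf dd X := rfl
  have h1 : egf ee X + egf nS X = D X := by
    rw [hDe, ← egf_add]
    congr 1
    funext n
    exact ee_add n
  have h2 : D X + 1 = 2 * egf (fun n => (Q n : ℝ≥0∞)) X := by
    rw [hDe, ← egf_smul, ← egf_one X, ← egf_add]
    congr 1
    funext n
    exact dd_add n
  have h3 : egf nP X = egf nS X + egf nH X := by
    rw [← egf_add]
    congr 1
    funext n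
    exact nP_eq n
  have h4 := egf_q X
  have h5 := egf_nS X
  have h6 := egf_nH X
  have hQtop : egf (fun n => (Q n : ℝ≥0∞)) X ≠ ⊤ := by
    intro h
    rw [h] at h2
    have : D X + 1 ≠ ⊤ := ENNReal.add_ne_top.2 ⟨hD, ENNReal.one_ne_top⟩
    exact this (by rw [h2]; simp)
  have hPtop : egf nP X ≠ ⊤ := by
    intro h
    rw [h, eexp_top] at h4
    exact hQtop h4
  have hStop : egf nS X ≠ ⊤ := by
    intro h
    rw [h] at h3
    exact hPtop (by rw [h3]; simp)
  have hHtop : egf nH X ≠ ⊤ := by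
    intro h
    rw [h] at h3
    exact hPtop (by rw [h3]; simp)
  have hEtop : egf ee X ≠ ⊤ := by
    intro h
    rw [h] at h1
    exact hD (by rw [← h1]; simp)
  obtain ⟨z, hz⟩ : ∃ z, z = (D X).toReal := ⟨_, rfl⟩
  obtain ⟨e, he⟩ : ∃ e, e = (egf ee X).toReal := ⟨_, rfl⟩
  obtain ⟨s, hs⟩ : ∃ s, s = (egf nS X).toReal := ⟨_, rfl⟩
  obtain ⟨p, hp⟩ : ∃ p, p = (egf nP X).toReal := ⟨_, rfl⟩
  obtain ⟨h, hh⟩ : ∃ h, h = (egf nH X).toReal := ⟨_, rfl⟩
  have hzD : D X = ENNReal.ofReal z := by rw [hz, ENNReal.ofReal_toReal hD]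
  have hh0 : 0 ≤ h := by rw [hh]; exact ENNReal.toReal_nonneg
  have hp0 : 0 ≤ p := by rw [hp]; exact ENNReal.toReal_nonneg
  have hz1 : 1 ≤ z := by
    have : (1 : ℝ≥0∞) ≤ D X := by
      rw [hDe]
      have h7 : (X ^ 0 / ((0 : ℕ).factorial : ℝ≥0∞) * dd 0) ≤ egf dd X :=
        ENNReal.le_tsum (f := fun n : ℕ => X ^ n / (n.factorial : ℝ≥0∞) * dd n) 0
      have h8 : (X ^ 0 / ((0 : ℕ).factorial : ℝ≥0∞) * dd 0) = 1 := by simp [dd]
      rwa [h8] at h7
    rw [hz, ← ENNReal.toReal_one]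
    exact ENNReal.toReal_mono hD this
  have r1 : e + s = z := by
    rw [he, hs, hz, ← ENNReal.toReal_add hEtop hStop, h1]
  have r2 : s = x * (e * z) := by
    rw [hs, he, hz, h5, ENNReal.toReal_mul, ENNReal.toReal_mul, hX, ENNReal.toReal_ofReal hx.le]
  have r3 : p = s + h := by
    rw [hs, hp, hh, ← ENNReal.toReal_add hStop hHtop, h3]
  have r4 : Real.exp p = (1 + z) / 2 := by
    have hpe : egf nP X = ENNReal.ofReal p := by rw [hp, ENNReal.ofReal_toReal hPtop]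
    rw [hpe, eexp_ofReal hp0] at h4
    rw [h4] at h2
    have h9 := congrArg ENNReal.toReal h2
    rw [ENNReal.toReal_add hD ENNReal.one_ne_top, ENNReal.toReal_mul, ENNReal.toReal_ofReal (Real.exp_pos _).le,
      ← hz] at h9
    simp only [ENNReal.toReal_one, ENNReal.toReal_ofNat] at h9
    linarith
  have r5 : s = x * z ^ 2 / (1 + x * z) := by
    have hpos : 0 < 1 + x * z := by positivity
    rw [eq_div_iff hpos.ne']
    have : e = z - s := by linarith
    rw [this] at r2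
    linear_combination r2
  have r6 : p = Real.log ((1 + z) / 2) := by
    rw [← r4, Real.log_exp]
  have r7 : h = Real.log ((1 + z) / 2) - x * z ^ 2 / (1 + x * z) := by
    rw [← r5, ← r6]
    linarith
  refine ⟨z, hz1, hzD, ?_, ?_⟩
  · rw [← r7]
    exact hh0
  · rw [← hzD, ← h6, ← r7, hh, ENNReal.ofReal_toReal hHtop]

end K5
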