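import Pool.Agent.Lib.K5.EParQ
import Pool.Agent.Lib.K5.ECntC
import Pool.Agent.Lib.K5.ESerC
import Pool.Agent.Lib.K5.NetL

/-!
# K5.ENet: the exact equation of the networks with edge weight `y`
-/

namespace K5

open Finset
open scoped ENNReal

open NetLAux in
theorem Dy_Qy (x y : ℝ≥0∞) : 1 + Dy x y = (1 + y) * egf (Qy y) x := by
  have e1 := egf_smul (1 + y) (Qy y) x
  have e2 := egf_add (ddy y) (fun n => if n = 0 then 1 else 0) x
  rw [egf_one] at e2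
  have hDe : Dy x y = egf (ddy y) x := rfl
  rw [hDe, add_comm, ← e2, ← e1]
  congr 1
  funext n
  exact ddy_add y n

open NetLAux in
theorem netEq {x y : ℝ} (hx : 0 < x) (hy : 0 ≤ y) (hD : Dy (.ofReal x) (.ofReal y) ≠ ⊤) :
    ∃ z : ℝ, y ≤ z ∧ Dy (.ofReal x) (.ofReal y) = .ofReal z ∧
      0 ≤ Real.log ((1 + z) / (1 + y)) - x * z ^ 2 / (1 + x * z) ∧
      T0 (.ofReal x) (.ofReal z) =
        .ofReal (Real.log ((1 + z) / (1 + y)) - x * z ^ 2 / (1 + x * z)) ∧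
      egf (Qy (.ofReal y)) (.ofReal x) = .ofReal ((1 + z) / (1 + y)) := by
  obtain ⟨X, hX⟩ : ∃ X, X = ENNReal.ofReal x := ⟨_, rfl⟩
  obtain ⟨Y, hY⟩ : ∃ Y, Y = ENNReal.ofReal y := ⟨_, rfl⟩
  rw [← hX, ← hY] at hD ⊢
  have hDe : Dy X Y = egf (ddy Y) X := rfl
  have h1 : egf (eey Y) X + egf (nSy Y) X = Dy X Y := by
    rw [hDe, ← egf_add]
    congr 1
    funext n
    exact eey_add Y n
  have h2 : Dy X Y + 1 = (1 + Y) * egf (Qy Y) X := by
    have e1 := egf_smul (1 + Y) (Qy Y) X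
    have e2 := egf_add (ddy Y) (fun n => if n = 0 then 1 else 0) X
    rw [egf_one] at e2
    rw [hDe, ← e2, ← e1]
    congr 1
    funext n
    exact ddy_add Y n
  have h3 : egf (nPy Y) X = egf (nSy Y) X + egf (nHy Y) X := by
    rw [← egf_add]
    congr 1
    funext n
    exact nPy_eq Y n
  have h4 := egf_Qy Y X
  have h5 := egf_nSy Y X
  have h6 := egf_nHy Y X
  have hQtop : egf (Qy Y) X ≠ ⊤ := by
    intro h
    rw [h] at h2
    have : Dy X Y + 1 ≠ ⊤ := ENNReal.add_ne_top.2 ⟨hD, ENNReal.one_ne_top⟩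
    exact this (by rw [h2]; simp)
  have hPtop : egf (nPy Y) X ≠ ⊤ := by
    intro h
    rw [h, eexp_top] at h4
    exact hQtop h4
  have hStop : egf (nSy Y) X ≠ ⊤ := by
    intro h
    rw [h] at h3
    exact hPtop (by rw [h3]; simp)
  have hHtop : egf (nHy Y) X ≠ ⊤ := by
    intro h
    rw [h] at h3
    exact hPtop (by rw [h3]; simp)
  have hEtop : egf (eey Y) X ≠ ⊤ := by
    intro h
    rw [h] at h1
    exact hD (by rw [← h1]; simp)
  obtain ⟨z, hz⟩ : ∃ z, z = (Dy X Y).toReal := ⟨_, rfl⟩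
  obtain ⟨e, he⟩ : ∃ e, e = (egf (eey Y) X).toReal := ⟨_, rfl⟩
  obtain ⟨s, hs⟩ : ∃ s, s = (egf (nSy Y) X).toReal := ⟨_, rfl⟩
  obtain ⟨p, hp⟩ : ∃ p, p = (egf (nPy Y) X).toReal := ⟨_, rfl⟩
  obtain ⟨h, hh⟩ : ∃ h, h = (egf (nHy Y) X).toReal := ⟨_, rfl⟩
  have hzD : Dy X Y = ENNReal.ofReal z := by rw [hz, ENNReal.ofReal_toReal hD]
  have hh0 : 0 ≤ h := by rw [hh]; exact ENNReal.toReal_nonneg
  have hp0 : 0 ≤ p := by rw [hp]; exact ENNReal.toReal_nonneg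
  have hYtop : Y ≠ ⊤ := by rw [hY]; exact ENNReal.ofReal_ne_top
  have hYr : Y.toReal = y := by rw [hY, ENNReal.toReal_ofReal hy]
  have hz1 : y ≤ z := by
    have h8 : Y ≤ Dy X Y := by
      rw [hDe]
      have h7 : (X ^ 0 / ((0 : ℕ).factorial : ℝ≥0∞) * ddy Y 0) ≤ egf (ddy Y) X :=
        ENNReal.le_tsum (f := fun n : ℕ => X ^ n / (n.factorial : ℝ≥0∞) * ddy Y n) 0
      have h8 : (X ^ 0 / ((0 : ℕ).factorial : ℝ≥0∞) * ddy Y 0) = Y := by simp [ddy]
      rwa [h8] at h7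
    rw [hz, ← hYr]
    exact ENNReal.toReal_mono hD h8
  have hy1 : (1 + Y).toReal = 1 + y := by
    rw [ENNReal.toReal_add ENNReal.one_ne_top hYtop, hYr, ENNReal.toReal_one]
  have hypos : 0 < 1 + y := by linarith
  have r1 : e + s = z := by
    rw [he, hs, hz, ← ENNReal.toReal_add hEtop hStop, h1]
  have r2 : s = x * (e * z) := by
    rw [hs, he, hz, h5, ENNReal.toReal_mul, ENNReal.toReal_mul, hX, ENNReal.toReal_ofReal hx.le]
  have r3 : p = s + h := by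
    rw [hs, hp, hh, ← ENNReal.toReal_add hStop hHtop, h3]
  have r4 : Real.exp p = (1 + z) / (1 + y) := by
    have hpe : egf (nPy Y) X = ENNReal.ofReal p := by rw [hp, ENNReal.ofReal_toReal hPtop]
    rw [hpe, eexp_ofReal hp0] at h4
    rw [h4] at h2
    have h9 := congrArg ENNReal.toReal h2
    rw [ENNReal.toReal_add hD ENNReal.one_ne_top, ENNReal.toReal_mul,
      ENNReal.toReal_ofReal (Real.exp_pos _).le, ← hz, hy1] at h9
    simp only [ENNReal.toReal_one] at h9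
    rw [eq_div_iff hypos.ne']
    linarith
  have hz0 : 0 ≤ z := le_trans hy hz1
  have r5 : s = x * z ^ 2 / (1 + x * z) := by
    have hpos : 0 < 1 + x * z := by positivity
    rw [eq_div_iff hpos.ne']
    have : e = z - s := by linarith
    rw [this] at r2
    linear_combination r2
  have r6 : p = Real.log ((1 + z) / (1 + y)) := by
    rw [← r4, Real.log_exp]
  have r7 : h = Real.log ((1 + z) / (1 + y)) - x * z ^ 2 / (1 + x * z) := by
    rw [← r5, ← r6]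
    linarith
  refine ⟨z, hz1, hzD, ?_, ?_, ?_⟩
  · rw [← r7]
    exact hh0
  · rw [← hzD, ← h6, ← r7, hh, ENNReal.ofReal_toReal hHtop]
  · rw [h4, ← ENNReal.ofReal_toReal hPtop, ← hp, eexp_ofReal hp0, r4]

theorem E1 {x y : ℝ} (hx : 0 < x) (hy : 0 ≤ y) (h : Dy (.ofReal x) (.ofReal y) ≠ ⊤) :
    ∃ z : ℝ, 0 ≤ z ∧ Dy (.ofReal x) (.ofReal y) = .ofReal z ∧
      0 ≤ Real.log ((1 + z) / (1 + y)) - x * z ^ 2 / (1 + x * z) ∧
      T0 (.ofReal x) (.ofReal z) =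
        .ofReal (Real.log ((1 + z) / (1 + y)) - x * z ^ 2 / (1 + x * z)) := by
  obtain ⟨z, h1, h2, h3, h4, -⟩ := netEq hx hy h
  exact ⟨z, hy.trans h1, h2, h3, h4⟩

end K5
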