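import Pool.Agent.Lib.K5.ParQ
import Pool.Agent.Lib.K5.ERel

/-!
# K5.EParQ: `Qy = exp(nPy)`

Adapt the finished file `K5/ParQ.lean`. New: the weight. `exp_sum` is used with `z = y`: a graph `G` of `AllK {s, t} (KP s t) U` has no edge `st` (`KP` classes have no edges inside `{s, t}`), so
`G.edgeSet.ncard = ec s(s, t) (G ⊔ clq {s, t})`: the edges of `G ⊔ clq {s, t}` different from `s(s, t)` are the edges of `G` (`ParQAux.adj_clq`). The same for `KP s t C`. So the bijection `ParQAux.del` (delete the edge `st`) carries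
`y ^ ec s(s, t) G` to `y ^ G.edgeSet.ncard`.
1. `kp_county`: `∑' G : {G // KP s t U G}, y ^ G.1.edgeSet.ncard = nPy y U.card` (`piece_county`).
2. `Qy_prt` from `exp_sum`, `net_iff_allK`, `kp_county`, `net_county`, `sum_prt`. `egf_Qy`: `egf_prt` and `pos (nPy y) = nPy y` (`nPy_zero`).
-/

namespace K5

open Finset
open scoped ENNReal

namespace EParQAux

theorem weight_del (y : ℝ≥0∞) {s t : ℕ} (h : s ≠ t) (P : Gr → Prop) (hP : ∀ G, P G → G.Adj s t)
    (P' : Gr → Prop) (hP' : ∀ G, P' G ↔ P (G ⊔ clq {s, t}) ∧ ¬ G.Adj s t) :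
    ∑' G : {G : Gr // P' G}, y ^ G.1.edgeSet.ncard =
      ∑' G : {G : Gr // P G}, y ^ ec s(s, t) G.1 := by
  rw [← ((ParQAux.del h P hP).trans (Equiv.subtypeEquivRight fun G => (hP' G).symm)).tsum_eq
    (fun G : {G : Gr // P' G} => y ^ G.1.edgeSet.ncard)]
  refine tsum_congr fun G => ?_
  show y ^ (G.1.deleteEdges {s(s, t)}).edgeSet.ncard = _
  rw [SimpleGraph.edgeSet_deleteEdges]
  rfl

theorem net_allKy (y : ℝ≥0∞) {s t : ℕ} {U : Finset ℕ} (h : s ≠ t) (hs : s ∉ U) (ht : t ∉ U) :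
    ∑' G : {G : Gr // AllK {s, t} (KP s t) U G ∧ True}, y ^ G.1.edgeSet.ncard =
      Qy y U.card := by
  rw [← net_county y h hs ht]
  refine weight_del y h _ (fun G hG => hG.adj) _ (fun G => ?_)
  rw [and_true]
  constructor
  · intro hG
    have h1 : ¬ G.Adj s t := hG.2.2.1 s (by simp) t (by simp)
    exact ⟨(net_iff_allK h hs ht h1).2 hG, h1⟩
  · intro hG
    exact (net_iff_allK h hs ht hG.2).1 hG.1

theorem pos_nPy (y : ℝ≥0∞) : pos (nPy y) = nPy y := by
  funext n
  unfold pos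
  by_cases hn : n = 0
  · rw [if_pos hn, hn, nPy_zero]
  · rw [if_neg hn]

end EParQAux

open EParQAux

theorem kp_county (y : ℝ≥0∞) {s t : ℕ} {U : Finset ℕ} (h : s ≠ t) (hs : s ∉ U) (ht : t ∉ U) :
    ∑' G : {G : Gr // KP s t U G}, y ^ G.1.edgeSet.ncard = nPy y U.card := by
  rw [← piece_county y h hs ht]
  exact weight_del y h _ (fun G hG => hG.net.adj) _ (fun G => Iff.rfl)

namespace EParQAux

theorem q_cardy (y : ℝ≥0∞) {s t : ℕ} {U : Finset ℕ} (h : s ≠ t) (hs : s ∉ U) (ht : t ∉ U) :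
    Qy y U.card = prt (nPy y) U.card := by
  classical
  have hd : Disjoint ({s, t} : Finset ℕ) U := by
    rw [Finset.disjoint_left]
    intro a ha
    rw [Finset.mem_insert, Finset.mem_singleton] at ha
    rcases ha with rfl | rfl
    · exact hs
    · exact ht
  have h1 := exp_sum (expClass_KP s t) y hd (fun _ => True)
  simp only [if_true] at h1
  rw [← net_allKy y h hs ht, h1, ← sum_prt]
  refine Finset.sum_congr rfl fun π _ => Finset.prod_congr rfl fun C hC => ?_
  have hCU : C ⊆ U := π.le hC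
  exact kp_county y h (fun hh => hs (hCU hh)) (fun hh => ht (hCU hh))

end EParQAux

theorem Qy_prt (y : ℝ≥0∞) (n : ℕ) : Qy y n = prt (nPy y) n := by
  have h1 := q_cardy y (s := 0) (t := 1) (U := Ico 2 (n + 2)) (by omega) (by simp) (by simp)
  rwa [Nat.card_Ico, Nat.add_sub_cancel] at h1

theorem egf_Qy (y x : ℝ≥0∞) : egf (Qy y) x = eexp (egf (nPy y) x) := by
  have h1 : Qy y = prt (nPy y) := funext (Qy_prt y)
  rw [h1, egf_prt, pos_nPy]

end K5
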