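import Pool.Agent.Lib.K5.EBas

/-!
# K5.EPow: the dependence on the weight `y`

1. `Dy_series`: `Qy y n = ∑' m, q n m * y ^ m` with `q n m` = number of the networks with `ec = m` (group the sum over `G` by `ec s(0, 1) G`: `tsum` over a sigma type / `ENNReal.tsum_comm` with `y ^ ec = ∑' m, if ec = m then y ^ m else 0`). `ddy y 0 = y`, and for `n ≥ 1`
`ddy y n = ∑' m, (q n m + (if m = 0 then 0 else q n (m - 1))) * y ^ m`; `Dy x y = ∑' n, x ^ n / n! * ddy y n`; exchange (`ENNReal.tsum_comm`). `c 0 = 0`: for `n ≥ 1` no network has `ec = 0`: `G` is connected on at least 3 vertices (`blk.2.1`), so there is an edge between `{0, 1}` and the rest, it is different from `s(0, 1)`, and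
the edge set is finite (`edgeSet_finite`). `1 ≤ c 1`: the term `n = 0` is `x ^ 0 / 0! * y`, so `c 1 ≥ 1`.
2. `Dy_mono`: `ENNReal.tsum_le_tsum`, `pow_le_pow_left'` for the definitions, or from 1.
3. `Dy_real`: for `x` with `Dy x 1 ≠ ⊤` put `F y = (Dy x (.ofReal y)).toReal` for real `y`; on `[0, 1]` the series `∑ (c m).toReal * y ^ m` converges uniformly (`c m` finite and summable because `Dy x 1 = ∑' c m ≠ ⊤`), `F 0 = 0`, `F` is continuous and strictly increasing (`c 1 ≥ 1`: `F y' - F y ≥ y' - y` for `y ≤ y'`).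
-/

namespace K5

open Finset
open scoped ENNReal

namespace EPowAux

theorem fin_edge {G : Gr} {S : Finset ℕ} (h : On G S) : G.edgeSet.Finite := by
  have h1 : G.edgeSet ⊆ Set.range (fun p : {u // u ∈ S} × {u // u ∈ S} => s(p.1.1, p.2.1)) := by
    intro e
    induction e using Sym2.ind with
    | _ a b =>
      intro he
      rw [SimpleGraph.mem_edgeSet] at he
      exact ⟨(⟨a, h a b he⟩, ⟨b, h b a he.symm⟩), rfl⟩
  exact (Set.finite_range _).subset h1

theorem ec_pos {n : ℕ} (hn : n ≠ 0) {G : Gr} (h : Net 0 1 (Ico 2 (n + 2)) G) : ec s(0, 1) G ≠ 0 := by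
  obtain ⟨u, hu, v, hv, hvP, hadj⟩ := h.blk.2.1.2 {0, 1} (by
      intro a ha
      simp only [mem_insert, mem_singleton] at ha
      unfold St
      simp only [mem_insert]
      tauto) (by simp) (by
      intro he
      have h2 : (2 : ℕ) ∈ St 0 1 (Ico 2 (n + 2)) := by
        unfold St
        simp only [mem_insert, mem_Ico]
        right
        right
        omega
      rw [← he] at h2
      simp at h2)
  unfold ec
  have hfin : (G.edgeSet \ {s(0, 1)}).Finite := (fin_edge h.on).subset Set.diff_subset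
  refine Set.ncard_ne_zero_of_mem (a := s(u, v)) ⟨?_, ?_⟩ hfin
  · exact (SimpleGraph.mem_edgeSet G).mpr hadj
  · intro he
    rw [Set.mem_singleton_iff, Sym2.eq_iff] at he
    apply hvP
    simp only [mem_insert, mem_singleton]
    rcases he with he | he
    · exact Or.inr he.2
    · exact Or.inl he.2

/-- The number of the networks with `m` edges. -/
noncomputable def q (n m : ℕ) : ℝ≥0∞ :=
  ∑' G : {G : Gr // Net 0 1 (Ico 2 (n + 2)) G}, if ec s(0, 1) G.1 = m then 1 else 0

theorem q_zero {n : ℕ} (hn : n ≠ 0) : q n 0 = 0 := by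
  unfold q
  rw [ENNReal.tsum_eq_zero]
  intro G
  rw [if_neg (ec_pos hn G.2)]

theorem Qy_q (y : ℝ≥0∞) (n : ℕ) : Qy y n = ∑' m : ℕ, q n m * y ^ m := by
  unfold Qy q
  simp_rw [← ENNReal.tsum_mul_right]
  rw [ENNReal.tsum_comm]
  refine tsum_congr fun G => ?_
  rw [tsum_eq_single (ec s(0, 1) G.1)]
  · rw [if_pos rfl, one_mul]
  · intro m hm
    rw [if_neg (Ne.symm hm), zero_mul]

/-- The coefficients of `ddy y n`. -/
noncomputable def d (n m : ℕ) : ℝ≥0∞ :=
  if n = 0 then (if m = 1 then 1 else 0) else q n m + (if m = 0 then 0 else q n (m - 1))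

theorem ddy_d (y : ℝ≥0∞) (n : ℕ) : ddy y n = ∑' m : ℕ, d n m * y ^ m := by
  unfold ddy d
  by_cases hn : n = 0
  · simp only [hn, if_true]
    rw [tsum_eq_single 1]
    · simp
    · intro m hm
      rw [if_neg hm, zero_mul]
  · simp only [hn, if_false]
    have h1 : ∑' m : ℕ, (if m = 0 then 0 else q n (m - 1)) * y ^ m = y * Qy y n := by
      rw [tsum_eq_zero_add' ENNReal.summable, Qy_q, ← ENNReal.tsum_mul_left]
      simp only [if_true, zero_mul, zero_add, Nat.add_eq_zero_iff, one_ne_zero, and_false, if_false,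
        Nat.add_sub_cancel]
      refine tsum_congr fun m => ?_
      rw [pow_succ]
      ring
    have h2 : ∀ m : ℕ, (q n m + (if m = 0 then 0 else q n (m - 1))) * y ^ m =
        q n m * y ^ m + (if m = 0 then 0 else q n (m - 1)) * y ^ m := fun m => add_mul _ _ _
    rw [tsum_congr h2, ENNReal.tsum_add, h1, ← Qy_q]
    ring

end EPowAux

open EPowAux

theorem Dy_series (x : ℝ≥0∞) :
    ∃ c : ℕ → ℝ≥0∞, c 0 = 0 ∧ 1 ≤ c 1 ∧ ∀ y, Dy x y = ∑' m : ℕ, c m * y ^ m := by
  refine ⟨fun m => ∑' n : ℕ, x ^ n / (n.factorial : ℝ≥0∞) * d n m, ?_, ?_, ?_⟩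
  · simp only
    rw [ENNReal.tsum_eq_zero]
    intro n
    have : d n 0 = 0 := by
      unfold d
      by_cases hn : n = 0
      · simp [hn]
      · simp [hn, EPowAux.q_zero hn]
    rw [this, mul_zero]
  · simp only
    refine le_trans ?_ (ENNReal.le_tsum 0)
    unfold d
    simp
  · intro y
    unfold Dy egf
    simp_rw [ddy_d, ← ENNReal.tsum_mul_left, ← ENNReal.tsum_mul_right]
    rw [ENNReal.tsum_comm]
    refine tsum_congr fun m => tsum_congr fun n => ?_
    ring

theorem Dy_mono (x : ℝ≥0∞) {y y' : ℝ≥0∞} (h : y ≤ y') : Dy x y ≤ Dy x y' := by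
  obtain ⟨c, _, _, hc⟩ := Dy_series x
  rw [hc, hc]
  exact ENNReal.tsum_le_tsum fun m => mul_le_mul_right (pow_le_pow_left' h m) (c m)

theorem Dy_zero (x : ℝ≥0∞) : Dy x 0 = 0 := by
  obtain ⟨c, h0, _, hc⟩ := Dy_series x
  rw [hc, ENNReal.tsum_eq_zero]
  intro m
  rcases Nat.eq_zero_or_pos m with rfl | hm
  · rw [h0, zero_mul]
  · rw [zero_pow (by omega), mul_zero]

theorem Dy_ne_top {x : ℝ≥0∞} (h : Dy x 1 ≠ ⊤) {y : ℝ≥0∞} (hy : y ≤ 1) : Dy x y ≠ ⊤ :=
  ne_top_of_le_ne_top h (Dy_mono x hy)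

theorem Dy_cont {x : ℝ≥0∞} (h : Dy x 1 ≠ ⊤) :
    ContinuousOn (fun y : ℝ => (Dy x (.ofReal y)).toReal) (Set.Icc 0 1) := by
  obtain ⟨c, h0, h1, hc⟩ := Dy_series x
  have hsum : ∑' m, c m ≠ ⊤ := by
    have := hc 1
    simp only [one_pow, mul_one] at this
    rwa [← this]
  have hct : ∀ m, c m ≠ ⊤ := fun m => ENNReal.ne_top_of_tsum_ne_top hsum m
  have hs : Summable (fun m => (c m).toReal) := ENNReal.summable_toReal hsum
  have hF : ∀ y ∈ Set.Icc (0 : ℝ) 1, (Dy x (.ofReal y)).toReal = ∑' m : ℕ, (c m).toReal * y ^ m := by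
    intro y hy
    rw [hc, ENNReal.tsum_toReal_eq]
    · refine tsum_congr fun m => ?_
      rw [ENNReal.toReal_mul, ENNReal.toReal_pow, ENNReal.toReal_ofReal hy.1]
    · intro m
      exact ENNReal.mul_ne_top (hct m) (ENNReal.pow_ne_top ENNReal.ofReal_ne_top)
  have hC : ContinuousOn (fun y : ℝ => ∑' m : ℕ, (c m).toReal * y ^ m) (Set.Icc 0 1) := by
    refine continuousOn_tsum (fun m => ?_) hs (fun m y hy => ?_)
    · exact (continuous_const.mul (continuous_pow m)).continuousOn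
    · rw [Real.norm_eq_abs, abs_mul, abs_of_nonneg ENNReal.toReal_nonneg, abs_of_nonneg (pow_nonneg hy.1 m)]
      exact mul_le_of_le_one_right ENNReal.toReal_nonneg (pow_le_one₀ hy.1 hy.2)
  exact hC.congr hF

theorem Dy_sub {x : ℝ≥0∞} (h : Dy x 1 ≠ ⊤) {y y' : ℝ} (h0 : 0 ≤ y) (h1 : y ≤ y') (h2 : y' ≤ 1) :
    y' - y ≤ (Dy x (.ofReal y')).toReal - (Dy x (.ofReal y)).toReal := by
  obtain ⟨c, hc0, hc1, hc⟩ := Dy_series x
  have hle : ENNReal.ofReal y' ≤ 1 := by
    rw [← ENNReal.ofReal_one]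
    exact ENNReal.ofReal_le_ofReal h2
  have hle' : ENNReal.ofReal y ≤ 1 := by
    rw [← ENNReal.ofReal_one]
    exact ENNReal.ofReal_le_ofReal (h1.trans h2)
  have hy : ENNReal.ofReal y' = ENNReal.ofReal y + ENNReal.ofReal (y' - y) := by
    rw [← ENNReal.ofReal_add h0 (by linarith)]
    congr 1
    ring
  have key : Dy x (ENNReal.ofReal y) + ENNReal.ofReal (y' - y) ≤ Dy x (ENNReal.ofReal y') := by
    have e1 : ENNReal.ofReal (y' - y) = ∑' m : ℕ, if m = 1 then ENNReal.ofReal (y' - y) else 0 := by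
      rw [tsum_ite_eq]
    conv_lhs => rw [e1]
    rw [hc, hc, ← ENNReal.tsum_add]
    refine ENNReal.tsum_le_tsum fun m => ?_
    by_cases hm : m = 1
    · subst hm
      rw [if_pos rfl, pow_one, pow_one, hy, mul_add]
      refine add_le_add le_rfl ?_
      calc ENNReal.ofReal (y' - y) = 1 * ENNReal.ofReal (y' - y) := (one_mul _).symm
        _ ≤ c 1 * ENNReal.ofReal (y' - y) := mul_le_mul_left hc1 _
    · rw [if_neg hm, add_zero]
      exact mul_le_mul_right (pow_le_pow_left' (ENNReal.ofReal_le_ofReal h1) m) (c m)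
  have h3 := ENNReal.toReal_mono (Dy_ne_top h hle) key
  rw [ENNReal.toReal_add (Dy_ne_top h hle') ENNReal.ofReal_ne_top, ENNReal.toReal_ofReal (by linarith)] at h3
  linarith

end K5
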