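import Pool.Agent.Lib.K5.XComp

/-!
# K5.YCross: crossing shredders only exist in `K_{3,3}`

`G` is 3-connected on `W`, `X` and `X'` are shredders, `a ∈ K1 ∩ X'`, `b ∈ K2 ∩ X'` for two different components `K1, K2` of `G` in `W \ X`.
0. `Three.few`: let `P ⊆ W` be nonempty, `u, v ∉ P`, and every edge of `G` from `P` to `W` ends in `P ∪ {u, v}`. Then `W ⊆ P ∪ {u, v}`: otherwise `P` is a proper nonempty subset of `(W.erase u).erase v` without edges to the rest.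
1. `meets`: every component `D` of `G` in `W \ X'` meets `X`. Otherwise `D ⊆ W \ X` is connected, so it is contained in a component `K0` of `G` in `W \ X` (`exists_comp_conn`). For every `x' ∈ X'` there is an edge from `D` to `x'` (`Three.adj_comp` with `X := X'`, `C := D`; `z` a vertex of another component
   of `W \ X'`, which exists as there are three disjoint ones, and one of them is different from `D`, so disjoint from it by `IsComp.xeq_of_mem`). So `a` (in `W \ X`, joined to `D ⊆ K0`) is in `K0`, and `b` too: `K1 = K0 = K2` (`IsComp.xeq_of_mem`), contradiction.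
2. Let `D1, D2, D3` be the three disjoint components of `G` in `W \ X'` (`Shr`), `x_i ∈ X ∩ D_i` (1.): they are different, so `X = {x_1, x_2, x_3}` (`|X| = 3`), and `X` is disjoint from `X'` (`D_i ⊆ W \ X'`), `D_i ∩ X = {x_i}`. Every vertex `w ∈ W \ X'` is in some `D_i`: its component meets `X` (1.), so it contains
   some `x_i`, so it is `D_i`.
3. 1. and 2. with `X` and `X'` exchanged (`x_1 ∈ D1 ∩ X`, `x_2 ∈ D2 ∩ X`, `D1 ≠ D2`): the three components `K_1, K_2, K_3` of `G` in `W \ X` contain exactly one vertex `y_j` of `X'` each, `X' = {y_1, y_2, y_3}`, `W \ X = K_1 ∪ K_2 ∪ K_3`.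
4. `D_i = {x_i}`: let `w ∈ D_i`, `w ≠ x_i`. Then `w ∉ X`, so `w ∈ K_j` for some `j`. `P = D_i ∩ K_j`: an edge from `P` ends in `D_i ∪ X'` and in `K_j ∪ X`, so in `P ∪ {x_i, y_j}` (`D_i ∩ X = {x_i}`, `X' ∩ K_j = {y_j}`, `X ∩ X' = ∅`). `x_i, y_j ∉ P` (`x_i ∈ X`, `y_j ∈ X'`). By 0. `W ⊆ P ∪ {x_i, y_j}`; but `x_k`, `k ≠ i`, is in
   `W`, in `X` so not in `P ⊆ K_j`, different from `x_i` and from `y_j ∉ X`. So `W \ X' = X`. In the same way `K_j = {y_j}`.
5. `IsK33 G W` with `A = X`, `B = X'`: `W = X ∪ X'`. Edges of `G` are in `W` (`On`). No edge inside `X`: `D_i = {x_i}` is a component of `W \ X'`. No edge inside `X'`: `K_j = {y_j}`. Every `x_i` is joined to every `y ∈ X'`: `Three.adj_comp` for `C = D_i`.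
-/

namespace K5

open Finset

theorem Three.few {G : Gr} {W P : Finset ℕ} (h : Three G W) (hP : P ⊆ W) (hne : P.Nonempty)
    {u v : ℕ} (hu : u ∉ P) (hv : v ∉ P)
    (hcl : ∀ a ∈ P, ∀ b ∈ W, G.Adj a b → b ∈ P ∨ b = u ∨ b = v) {w : ℕ} (hw : w ∈ W) :
    w ∈ P ∨ w = u ∨ w = v := by
  by_contra hno
  push Not at hno
  have hPS : P ⊆ (W.erase u).erase v := by
    intro p hp
    exact mem_erase.2 ⟨fun h1 => hv (h1 ▸ hp), mem_erase.2 ⟨fun h1 => hu (h1 ▸ hp), hP hp⟩⟩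
  have hne' : P ≠ (W.erase u).erase v := by
    intro h1
    have : w ∈ (W.erase u).erase v := mem_erase.2 ⟨hno.2.2, mem_erase.2 ⟨hno.2.1, hw⟩⟩
    rw [← h1] at this
    exact hno.1 this
  obtain ⟨a, ha, b, hb, hbP, hab⟩ := (h.2 u v).2 P hPS hne hne'
  rw [mem_erase, mem_erase] at hb
  rcases hcl a ha b hb.2.2 hab with h1 | h1 | h1
  · exact hbP h1
  · exact hb.2.1 h1
  · exact hb.1 h1

namespace YCrossAux

theorem meets {G : Gr} {W X X' K1 K2 : Finset ℕ} (h3 : Three G W) (hX' : Shr G W X')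
    (h1 : IsComp G (W \ X) K1) (h2 : IsComp G (W \ X) K2)
    (hne : K1 ≠ K2) {a b : ℕ} (ha : a ∈ K1) (ha' : a ∈ X') (hb : b ∈ K2) (hb' : b ∈ X')
    {D : Finset ℕ} (hD : IsComp G (W \ X') D) : ∃ x ∈ D, x ∈ X := by
  by_contra hno
  push Not at hno
  have hDW : D ⊆ W := fun z hz => (mem_sdiff.1 (hD.1 hz)).1
  obtain ⟨K0, hK0, hDK⟩ := exists_comp_conn (U := W \ X) hD.2.1
    (fun z hz => mem_sdiff.2 ⟨hDW hz, hno z hz⟩)
  -- a vertex outside `D` and `X'`
  obtain ⟨z, hz, hzX, hzD⟩ : ∃ z ∈ W, z ∉ X' ∧ z ∉ D := by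
    obtain ⟨-, -, C1, C2, C3, hC1, hC2, hC3, h12, -, -⟩ := hX'
    obtain ⟨z1, hz1⟩ := hC1.2.1.1
    obtain ⟨z2, hz2⟩ := hC2.2.1.1
    by_cases h : z1 ∈ D
    · refine ⟨z2, (mem_sdiff.1 (hC2.1 hz2)).1, (mem_sdiff.1 (hC2.1 hz2)).2, fun h' => ?_⟩
      have e1 := hC1.xeq_of_mem hD hz1 h
      have e2 := hC2.xeq_of_mem hD hz2 h'
      rw [e1, e2] at h12
      exact (disjoint_left.1 h12) h h
    · exact ⟨z1, (mem_sdiff.1 (hC1.1 hz1)).1, (mem_sdiff.1 (hC1.1 hz1)).2, h⟩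
  have hadj : ∀ x ∈ X', ∃ c ∈ D, G.Adj c x := by
    intro x hx
    refine Three.adj_comp h3 hX'.1 hX'.2.1 hDW ?_ hD.2.1.1 ?_ hz hzX hzD hx
    · rw [disjoint_left]
      intro y hy
      exact (mem_sdiff.1 (hD.1 hy)).2
    · intro y hy w hw hwX hwD
      exact hD.2.2 y hy w (mem_sdiff.2 ⟨hw, hwX⟩) hwD
  have hin : ∀ {K : Finset ℕ} {y : ℕ}, IsComp G (W \ X) K → y ∈ K → y ∈ X' → K = K0 := by
    intro K y hK hy hyX
    obtain ⟨c, hc, hcy⟩ := hadj y hyX
    have hyK0 : y ∈ K0 := by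
      by_contra h
      exact hK0.2.2 c (hDK hc) y (hK.1 hy) h hcy
    exact hK.xeq_of_mem hK0 hy hyK0
  exact hne ((hin h1 ha ha').trans (hin h2 hb hb').symm)

/-- Three different components, each with exactly one vertex of `X`. -/
structure Str (G : Gr) (W X X' : Finset ℕ) (D : Fin 3 → Finset ℕ) (x : Fin 3 → ℕ) : Prop where
  comp : ∀ i, IsComp G (W \ X') (D i)
  mem : ∀ i, x i ∈ D i
  memX : ∀ i, x i ∈ X
  eqX : ∀ z ∈ X, ∃ i, z = x i
  inj : ∀ i j, x j ∈ D i → i = j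
  cov : ∀ w ∈ W \ X', ∃ i, w ∈ D i

theorem exists_str {G : Gr} {W X X' K1 K2 : Finset ℕ} (h3 : Three G W) (hX : X.card = 3)
    (hX' : Shr G W X') (h1 : IsComp G (W \ X) K1) (h2 : IsComp G (W \ X) K2)
    (hne : K1 ≠ K2) {a b : ℕ} (ha : a ∈ K1) (ha' : a ∈ X') (hb : b ∈ K2) (hb' : b ∈ X') :
    ∃ D x, Str G W X X' D x := by
  classical
  have hm := fun {D : Finset ℕ} (hD : IsComp G (W \ X') D) =>
    meets h3 hX' h1 h2 hne ha ha' hb hb' hD
  obtain ⟨-, -, C1, C2, C3, hC1, hC2, hC3, h12, h13, h23⟩ := hX'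
  obtain ⟨D, hD⟩ : ∃ D : Fin 3 → Finset ℕ, D = ![C1, C2, C3] := ⟨_, rfl⟩
  have hcomp : ∀ i, IsComp G (W \ X') (D i) := by
    intro i
    rw [hD]
    fin_cases i
    · exact hC1
    · exact hC2
    · exact hC3
  have hdis : ∀ i j, i ≠ j → Disjoint (D i) (D j) := by
    intro i j hij
    rw [hD]
    fin_cases i <;> fin_cases j
    · exact absurd rfl hij
    · exact h12
    · exact h13
    · exact h12.symm
    · exact absurd rfl hij
    · exact h23
    · exact h13.symm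
    · exact h23.symm
    · exact absurd rfl hij
  choose x hxD hxX using fun i => hm (hcomp i)
  have hinj : ∀ i j, x j ∈ D i → i = j := by
    intro i j h
    by_contra hij
    exact disjoint_left.1 (hdis i j hij) h (hxD j)
  have hxinj : Function.Injective x := by
    intro i j hij
    exact hinj i j (hij ▸ hxD i)
  have himg : univ.image x = X := by
    apply eq_of_subset_of_card_le
    · intro z hz
      obtain ⟨i, -, rfl⟩ := mem_image.1 hz
      exact hxX i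
    · rw [hX, card_image_of_injective _ hxinj, card_univ, Fintype.card_fin]
  have heq : ∀ z ∈ X, ∃ i, z = x i := by
    intro z hz
    rw [← himg, mem_image] at hz
    obtain ⟨i, -, hi⟩ := hz
    exact ⟨i, hi.symm⟩
  refine ⟨D, x, hcomp, hxD, hxX, heq, hinj, ?_⟩
  intro w hw
  obtain ⟨C, hC, hwC⟩ := exists_xcomp (G := G) hw
  obtain ⟨z, hzC, hzX⟩ := hm hC
  obtain ⟨i, rfl⟩ := heq z hzX
  have e := hC.xeq_of_mem (hcomp i) hzC (hxD i)
  exact ⟨i, e ▸ hwC⟩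

theorem Str.notMem {G : Gr} {W X X' : Finset ℕ} {D : Fin 3 → Finset ℕ} {x : Fin 3 → ℕ}
    (h : Str G W X X' D x) {z : ℕ} (hz : z ∈ X) : z ∈ W ∧ z ∉ X' := by
  obtain ⟨i, rfl⟩ := h.eqX z hz
  exact mem_sdiff.1 ((h.comp i).1 (h.mem i))

theorem Str.sing {G : Gr} {W X X' : Finset ℕ} {D K : Fin 3 → Finset ℕ} {x y : Fin 3 → ℕ}
    (h3 : Three G W) (h : Str G W X X' D x) (h' : Str G W X' X K y) (i : Fin 3) {w : ℕ}
    (hw : w ∈ D i) : w = x i := by
  by_contra hne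
  have hwW := mem_sdiff.1 ((h.comp i).1 hw)
  have hwX : w ∉ X := by
    intro hwX
    obtain ⟨j, rfl⟩ := h.eqX w hwX
    have := h.inj i j hw
    exact hne (this ▸ rfl)
  obtain ⟨j, hj⟩ := h'.cov w (mem_sdiff.2 ⟨hwW.1, hwX⟩)
  obtain ⟨k, hk⟩ : ∃ k : Fin 3, k ≠ i := by
    by_cases h0 : i = 0
    · exact ⟨1, by rw [h0]; decide⟩
    · exact ⟨0, fun h => h0 h.symm⟩
  have hKX : ∀ z ∈ K j, z ∈ W ∧ z ∉ X := fun z hz => mem_sdiff.1 ((h'.comp j).1 hz)
  have hDX : ∀ z ∈ D i, z ∈ W ∧ z ∉ X' := fun z hz => mem_sdiff.1 ((h.comp i).1 hz)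
  have hfew := Three.few (P := D i ∩ K j) (u := x i) (v := y j) h3
    (fun z hz => (hDX z (mem_inter.1 hz).1).1) ⟨w, mem_inter.2 ⟨hw, hj⟩⟩
    (fun hz => (hKX _ (mem_inter.1 hz).2).2 (h.memX i))
    (fun hz => (hDX _ (mem_inter.1 hz).1).2 (h'.memX j)) (by
      intro a ha b hb hab
      rw [mem_inter] at ha
      have hbD : b ∉ X' → b ∈ D i := by
        intro hbX'
        by_contra hbD
        exact (h.comp i).2.2 a ha.1 b (mem_sdiff.2 ⟨hb, hbX'⟩) hbD hab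
      have hbK : b ∉ X → b ∈ K j := by
        intro hbX
        by_contra hbK
        exact (h'.comp j).2.2 a ha.2 b (mem_sdiff.2 ⟨hb, hbX⟩) hbK hab
      by_cases hbX : b ∈ X
      · right; left
        have hbD' := hbD (h.notMem hbX).2
        obtain ⟨l, rfl⟩ := h.eqX b hbX
        rw [h.inj i l hbD']
      · by_cases hbX' : b ∈ X'
        · right; right
          have hbK' := hbK hbX
          obtain ⟨l, rfl⟩ := h'.eqX b hbX'
          rw [h'.inj j l hbK']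
        · left
          exact mem_inter.2 ⟨hbD hbX', hbK hbX⟩) (h.notMem (h.memX k)).1
  rcases hfew with h1 | h1 | h1
  · exact (hKX _ (mem_inter.1 h1).2).2 (h.memX k)
  · have : x k ∈ D i := h1 ▸ h.mem i
    exact hk (h.inj i k this).symm
  · have : x k ∈ K j := h1 ▸ h'.mem j
    exact (hKX _ this).2 (h.memX k)

theorem Str.noadj {G : Gr} {W X X' : Finset ℕ} {D K : Fin 3 → Finset ℕ} {x y : Fin 3 → ℕ}
    (h3 : Three G W) (h : Str G W X X' D x) (h' : Str G W X' X K y) {a b : ℕ} (ha : a ∈ X)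
    (hb : b ∈ X) : ¬ G.Adj a b := by
  intro hab
  obtain ⟨i, rfl⟩ := h.eqX a ha
  by_cases hbD : b ∈ D i
  · have := h.sing h3 h' i hbD
    exact hab.ne this.symm
  · exact (h.comp i).2.2 _ (h.mem i) b (mem_sdiff.2 (h.notMem hb)) hbD hab

theorem Str.adj {G : Gr} {W X X' : Finset ℕ} {D K : Fin 3 → Finset ℕ} {x y : Fin 3 → ℕ}
    (h3 : Three G W) (hX'W : X' ⊆ W) (hX' : X'.card = 3) (h : Str G W X X' D x)
    (h' : Str G W X' X K y) {a b : ℕ} (ha : a ∈ X) (hb : b ∈ X') : G.Adj a b := by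
  obtain ⟨i, rfl⟩ := h.eqX a ha
  obtain ⟨k, hk⟩ : ∃ k : Fin 3, k ≠ i := by
    by_cases h0 : i = 0
    · exact ⟨1, by rw [h0]; decide⟩
    · exact ⟨0, fun h => h0 h.symm⟩
  obtain ⟨c, hc, hcb⟩ := Three.adj_comp (C := D i) (z := x k) h3 hX'W hX'
    (fun z hz => (mem_sdiff.1 ((h.comp i).1 hz)).1)
    (by
      rw [disjoint_left]
      intro z hz
      exact (mem_sdiff.1 ((h.comp i).1 hz)).2) ⟨x i, h.mem i⟩
    (by
      intro z hz w hw hwX hwD
      exact (h.comp i).2.2 z hz w (mem_sdiff.2 ⟨hw, hwX⟩) hwD)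
    (h.notMem (h.memX k)).1 (h.notMem (h.memX k)).2 (fun hz => hk (h.inj i k hz).symm) hb
  rw [h.sing h3 h' i hc] at hcb
  exact hcb

end YCrossAux

open YCrossAux in
theorem shr_cross {G : Gr} {W X X' K1 K2 : Finset ℕ} (hon : On G W) (h3 : Three G W)
    (hX : Shr G W X) (hX' : Shr G W X') (h1 : IsComp G (W \ X) K1) (h2 : IsComp G (W \ X) K2)
    (hne : K1 ≠ K2) {a b : ℕ} (ha : a ∈ K1) (ha' : a ∈ X') (hb : b ∈ K2) (hb' : b ∈ X') :
    IsK33 G W := by
  obtain ⟨D, x, hs⟩ := exists_str h3 hX.2.1 hX' h1 h2 hne ha ha' hb hb'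
  have h01 : D 0 ≠ D 1 := by
    intro h
    have := hs.inj 0 1 (h ▸ hs.mem 1)
    exact absurd this (by decide)
  obtain ⟨K, y, ht⟩ := exists_str h3 hX'.2.1 hX (hs.comp 0) (hs.comp 1) h01 (hs.mem 0) (hs.memX 0)
    (hs.mem 1) (hs.memX 1)
  have hW : ∀ w ∈ W, w ∈ X ∨ w ∈ X' := by
    intro w hw
    by_cases hwX : w ∈ X'
    · exact Or.inr hwX
    · obtain ⟨i, hi⟩ := hs.cov w (mem_sdiff.2 ⟨hw, hwX⟩)
      rw [hs.sing h3 ht i hi]
      exact Or.inl (hs.memX i)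
  refine ⟨X, X', ?_, ?_, hX.2.1, hX'.2.1, ?_⟩
  · ext w
    rw [mem_union]
    exact ⟨hW w, fun h => h.elim (fun h => hX.1 h) (fun h => hX'.1 h)⟩
  · rw [disjoint_left]
    intro z hz
    exact (hs.notMem hz).2
  · intro c d
    constructor
    · intro hcd
      rcases hW c (hon c d hcd) with hc | hc <;> rcases hW d (hon d c hcd.symm) with hd | hd
      · exact absurd hcd (hs.noadj h3 ht hc hd)
      · exact Or.inl ⟨hc, hd⟩
      · exact Or.inr ⟨hc, hd⟩
      · exact absurd hcd (ht.noadj h3 hs hc hd)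
    · rintro (⟨hc, hd⟩ | ⟨hc, hd⟩)
      · exact hs.adj h3 hX'.1 hX'.2.1 ht hc hd
      · exact (hs.adj h3 hX'.1 hX'.2.1 ht hd hc).symm

end K5
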