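import Pool.Agent.Lib.K5.YSide

/-!
# K5.YThree: the graph of a code is 3-connected

`Z = R ∪ c.Y`, `G = c.comp R`, `W = R ∪ U`; `Z ⊆ W`, `4 ≤ |Z|` (`c.core.rtd.three`), so `4 ≤ |W|`. Let `u, v` be given, `S = (W.erase u).erase v`; it is nonempty. Let `P` be a proper nonempty subset of `S` without edges to `Q = S \ P`, i.e. `Closed G S P`, and so `Closed G S Q` (`Closed.compl`).
Step 1: `Z ∩ S ⊆ P` or `Z ∩ S` is disjoint from `P`.
 (a) Suppose that for every `X ∈ c.M` some component `C` of `G` in `c.V X` contains neither `u` nor `v`; then `C ⊆ S` (`V_sub`). `(Z.erase u).erase v = Z ∩ S` is connected in `c.H` (`c.core.rtd.three`), use `core_or`.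
 (b) Otherwise there is `X0 ∈ c.M` such that every component of `G` in `c.V X0` contains `u` or `v`. Take two disjoint components `C1, C2` (`two`): one of them contains `u`, the other `v` (if `u = v`: one of them would contain neither). So `u, v ∈ c.V X0`; as the `c.V X` are disjoint,
 and disjoint from `Z` (`mark_sub`), `Z ⊆ S` and `c.V X ⊆ S` for all `X ∈ c.M`, `X ≠ X0`. `Z \ X0` is connected in `c.H` (`c.mark X0`, `NT`), and `core_or` for `A = Z \ X0` (a pair `a ≠ b` in `A ∩ X` has `X ≠ X0`; take any component of `c.V X`, `two`) gives `Z \ X0 ⊆ P` or `Z \ X0`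
 disjoint from `P`. Let `x ∈ X0 = {x, x2, x3}`: `Three c.H Z` for `x2, x3` and the set `{x}` (proper: `|Z| ≥ 4`) gives an edge of `c.H` from `x` to some `b ∈ Z \ X0`. `hedge` in both directions (the pair `x, b` is not in `X0`, so only `X ≠ X0` occurs) for `P` and for `Q` shows that `x` is on the
 side of `Z \ X0`.
Step 2: replacing `P` by `Q` if necessary (`Closed.compl`; `Q` is also nonempty) we may assume that `P` does not meet `Z`. Let `w ∈ P`; `w ∈ W \ Z`, so `w ∈ U \ c.Y`, and `w ∈ c.V X` for some `X ∈ c.M` (`V_cover`). `P' = P ∩ c.V X` is nonempty; apply `small` to `P'`: `u, v ∉ P'` since `P ⊆ S`. An edge of `G`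
from `a ∈ P'` to `b` has `b ∈ X` or `b ∈ c.V X` (`V_closed`), so `b ∈ W`. If `b ∉ S` then `b = u` or `b = v`. If `b ∈ S` then `b ∈ P` (`Closed`); `b ∈ X ⊆ Z` is impossible (`P` does not meet `Z`), so `b ∈ P'`.
-/

namespace K5

open Finset

namespace YThreeAux

variable {R U : Finset ℕ} {c : Code3}

theorem step2 (h : c.Valid R U) {u v : ℕ} {P : Finset ℕ}
    (hP : Closed (c.comp R) (((R ∪ U).erase u).erase v) P) (hne : P.Nonempty)
    (hd : ∀ w ∈ P, w ∉ R ∪ c.Y) : False := by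
  obtain ⟨w, hw⟩ := hne
  have hS : ∀ z, z ∈ ((R ∪ U).erase u).erase v ↔ z ≠ v ∧ z ≠ u ∧ z ∈ R ∪ U := by
    intro z
    rw [Finset.mem_erase, Finset.mem_erase]
  have hwS := (hS w).1 (hP.1 hw)
  have hwZ := hd w hw
  rw [Finset.mem_union, not_or] at hwZ
  have hwU : w ∈ U \ c.Y :=
    Finset.mem_sdiff.2 ⟨(Finset.mem_union.1 hwS.2.2).resolve_left hwZ.1, hwZ.2⟩
  obtain ⟨X, hX, hwV⟩ := h.V_cover w hwU
  obtain ⟨m1, m2, m3⟩ := h.mark_sub hX
  refine h.small hX (P := P ∩ c.V X) Finset.inter_subset_right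
    ⟨w, Finset.mem_inter.2 ⟨hw, hwV⟩⟩ (u := u) (v := v) ?_ ?_ ?_
  · intro hu
    exact ((hS u).1 (hP.1 (Finset.mem_inter.1 hu).1)).2.1 rfl
  · intro hv
    exact ((hS v).1 (hP.1 (Finset.mem_inter.1 hv).1)).1 rfl
  · intro a ha b hab
    obtain ⟨haP, haV⟩ := Finset.mem_inter.1 ha
    have hbW : b ∈ R ∪ U := h.comp_on b a hab.symm
    by_cases hbu : b = u
    · exact Or.inr (Or.inl hbu)
    by_cases hbv : b = v
    · exact Or.inr (Or.inr hbv)
    left
    have hbS : b ∈ ((R ∪ U).erase u).erase v := (hS b).2 ⟨hbv, hbu, hbW⟩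
    have hbP : b ∈ P := by
      by_contra hbP
      exact hP.2 a haP b hbS hbP hab
    rcases h.V_closed hX haV hab with hbX | hbV
    · exact absurd (m1 hbX) (hd b hbP)
    · exact Finset.mem_inter.2 ⟨hbP, hbV⟩

/-- a vertex of a triple has a neighbour outside -/
theorem nb {H : Gr} {Z X : Finset ℕ} (h3 : Three H Z) (hX : X ⊆ Z) (hc : X.card = 3) {x : ℕ}
    (hx : x ∈ X) : ∃ b ∈ Z, b ∉ X ∧ H.Adj x b := by
  have hc2 : (X.erase x).card = 2 := by rw [Finset.card_erase_of_mem hx, hc]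
  obtain ⟨x2, x3, h23, he⟩ := Finset.card_eq_two.1 hc2
  have hX' : ∀ y, y ∈ X ↔ y = x ∨ y = x2 ∨ y = x3 := by
    intro y
    constructor
    · intro hy
      by_cases hyx : y = x
      · exact Or.inl hyx
      · have : y ∈ X.erase x := Finset.mem_erase.2 ⟨hyx, hy⟩
        rw [he] at this
        simpa using Or.inr (by simpa using this)
    · rintro (rfl | rfl | rfl)
      · exact hx
      · have : y ∈ X.erase x := by rw [he]; simp
        exact Finset.mem_of_mem_erase this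
      · have : y ∈ X.erase x := by rw [he]; simp
        exact Finset.mem_of_mem_erase this
  have hx2 : x2 ∈ X.erase x := by rw [he]; simp
  have hx3 : x3 ∈ X.erase x := by rw [he]; simp
  obtain ⟨z, hz, hzX⟩ : ∃ z ∈ Z, z ∉ X := by
    by_contra hcon
    push Not at hcon
    have := Finset.card_le_card (show Z ⊆ X from hcon)
    have := h3.1
    omega
  have hzn : z ≠ x ∧ z ≠ x2 ∧ z ≠ x3 := by
    rw [hX'] at hzX
    push Not at hzX
    exact hzX
  have hmem : ∀ y, y ∈ (Z.erase x2).erase x3 ↔ y ≠ x3 ∧ y ≠ x2 ∧ y ∈ Z := by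
    intro y
    rw [Finset.mem_erase, Finset.mem_erase]
  obtain ⟨a, ha, b, hb, hbn, hab⟩ := (h3.2 x2 x3).2 {x}
    (by
      intro y hy
      rw [Finset.mem_singleton] at hy
      subst hy
      exact (hmem y).2 ⟨(Finset.mem_erase.1 hx3).1.symm, (Finset.mem_erase.1 hx2).1.symm, hX hx⟩)
    (Finset.singleton_nonempty x)
    (by
      intro hcon
      have : z ∈ ({x} : Finset ℕ) := by
        rw [hcon]
        exact (hmem z).2 ⟨hzn.2.2, hzn.2.1, hz⟩
      exact hzn.1 (Finset.mem_singleton.1 this))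
  rw [Finset.mem_singleton] at ha hbn
  subst ha
  obtain ⟨hb3, hb2, hbZ⟩ := (hmem b).1 hb
  refine ⟨b, hbZ, ?_, hab⟩
  rw [hX']
  push Not
  exact ⟨hbn, hb2, hb3⟩

theorem step1 (h : c.Valid R U) {u v : ℕ} {P : Finset ℕ}
    (hP : Closed (c.comp R) (((R ∪ U).erase u).erase v) P) :
    (∀ z ∈ R ∪ c.Y, z ∈ ((R ∪ U).erase u).erase v → z ∈ P) ∨ (∀ w ∈ P, w ∉ R ∪ c.Y) := by
  have hS : ∀ z, z ∈ ((R ∪ U).erase u).erase v ↔ z ≠ v ∧ z ≠ u ∧ z ∈ R ∪ U := by
    intro z
    rw [Finset.mem_erase, Finset.mem_erase]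
  have hZW : R ∪ c.Y ⊆ R ∪ U := Finset.union_subset_union (Finset.Subset.refl _) h.sub
  have hVW : ∀ X ∈ c.M, c.V X ⊆ R ∪ U := fun X hX w hw =>
    Finset.mem_union_right _ (Finset.mem_sdiff.1 (h.V_sub X hX hw)).1
  by_cases hc : ∀ X ∈ c.M, ∃ C, IsComp (c.comp R) (c.V X) C ∧ u ∉ C ∧ v ∉ C
  · have hA : P512.Conn c.H (((R ∪ c.Y).erase u).erase v) := h.core.rtd.three.2 u v
    have hAm : ∀ z, z ∈ ((R ∪ c.Y).erase u).erase v ↔ z ≠ v ∧ z ≠ u ∧ z ∈ R ∪ c.Y := by
      intro z
      rw [Finset.mem_erase, Finset.mem_erase]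
    rcases h.core_or hP hA (fun z hz => (hS z).2
        ⟨((hAm z).1 hz).1, ((hAm z).1 hz).2.1, hZW ((hAm z).1 hz).2.2⟩)
      (by
        intro X hX a _ b _ _ _ _
        obtain ⟨C, hC, hu, hv⟩ := hc X hX
        refine ⟨C, hC, fun z hz => (hS z).2 ⟨?_, ?_, hVW X hX (hC.1 hz)⟩⟩
        · rintro rfl
          exact hv hz
        · rintro rfl
          exact hu hz) with h1 | h1
    · left
      intro z hz hzS
      exact h1 ((hAm z).2 ⟨((hS z).1 hzS).1, ((hS z).1 hzS).2.1, hz⟩)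
    · right
      intro w hw hwZ
      have hwS := (hS w).1 (hP.1 hw)
      exact Finset.disjoint_left.1 h1 ((hAm w).2 ⟨hwS.1, hwS.2.1, hwZ⟩) hw
  · push Not at hc
    obtain ⟨X0, hX0, hc⟩ := hc
    obtain ⟨C1, C2, hC1, hC2, hd⟩ := h.two hX0
    have huv : u ∈ c.V X0 ∧ v ∈ c.V X0 := by
      have e1 := hc C1 hC1
      have e2 := hc C2 hC2
      by_cases hu1 : u ∈ C1
      · have hu2 : u ∉ C2 := Finset.disjoint_left.1 hd hu1
        exact ⟨hC1.1 hu1, hC2.1 (e2 hu2)⟩
      · have hv1 := e1 hu1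
        have hu2 : u ∈ C2 := by
          by_contra hu2
          exact Finset.disjoint_left.1 hd hv1 (e2 hu2)
        exact ⟨hC2.1 hu2, hC1.1 hv1⟩
    obtain ⟨m1, m2, m3⟩ := h.mark_sub hX0
    have hZS : ∀ z ∈ R ∪ c.Y, z ∈ ((R ∪ U).erase u).erase v := by
      intro z hz
      refine (hS z).2 ⟨?_, ?_, hZW hz⟩
      · rintro rfl
        exact Finset.disjoint_left.1 m3 hz huv.2
      · rintro rfl
        exact Finset.disjoint_left.1 m3 hz huv.1
    have hVS : ∀ X ∈ c.M, X ≠ X0 → c.V X ⊆ ((R ∪ U).erase u).erase v := by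
      intro X hX hne z hz
      have hdis := h.V_disj X hX X0 hX0 hne
      refine (hS z).2 ⟨?_, ?_, hVW X hX hz⟩
      · rintro rfl
        exact Finset.disjoint_left.1 hdis hz huv.2
      · rintro rfl
        exact Finset.disjoint_left.1 hdis hz huv.1
    have hnt := (h.mark X0 hX0).1
    have key : ∀ P', Closed (c.comp R) (((R ∪ U).erase u).erase v) P' →
        (R ∪ c.Y) \ X0 ⊆ P' → ∀ z ∈ R ∪ c.Y, z ∈ P' := by
      intro P' hP' hsub z hz
      by_cases hzX : z ∈ X0
      · obtain ⟨b, hb, hbX, hzb⟩ := nb h.core.rtd.three hnt.1 hnt.2.1 hzX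
        refine h.hedge hP' hzb.symm (hsub (Finset.mem_sdiff.2 ⟨hb, hbX⟩)) (hZS z hz) ?_
        intro X hX hbX' _
        have hne : X ≠ X0 := by
          rintro rfl
          exact hbX hbX'
        obtain ⟨C, -, hC, -, -⟩ := h.two hX
        exact ⟨C, hC, hC.1.trans (hVS X hX hne)⟩
      · exact hsub (Finset.mem_sdiff.2 ⟨hz, hzX⟩)
    rcases h.core_or hP hnt.2.2.2 (fun z hz => hZS z (Finset.mem_sdiff.1 hz).1)
      (by
        intro X hX a ha b _ _ haX _
        have hne : X ≠ X0 := by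
          rintro rfl
          exact (Finset.mem_sdiff.1 ha).2 haX
        obtain ⟨C, -, hC, -, -⟩ := h.two hX
        exact ⟨C, hC, hC.1.trans (hVS X hX hne)⟩) with h1 | h1
    · left
      intro z hz _
      exact key P hP h1 z hz
    · right
      intro w hw hwZ
      have h2 : (R ∪ c.Y) \ X0 ⊆ (((R ∪ U).erase u).erase v) \ P := by
        intro z hz
        exact Finset.mem_sdiff.2 ⟨hZS z (Finset.mem_sdiff.1 hz).1, Finset.disjoint_left.1 h1 hz⟩
      exact (Finset.mem_sdiff.1 (key _ hP.compl h2 w hwZ)).2 hw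

end YThreeAux

theorem Code3.Valid.comp_three {R U : Finset ℕ} {c : Code3} (h : c.Valid R U) :
    Three (c.comp R) (R ∪ U) := by
  have hcard : 4 ≤ (R ∪ U).card :=
    h.core.rtd.three.1.trans (Finset.card_le_card
      (Finset.union_subset_union (Finset.Subset.refl _) h.sub))
  refine ⟨hcard, fun u v => ⟨?_, fun P hPS hne hneq => ?_⟩⟩
  · rw [← Finset.card_pos]
    have h1 := Finset.pred_card_le_card_erase (s := R ∪ U) (a := u)
    have h2 := Finset.pred_card_le_card_erase (s := (R ∪ U).erase u) (a := v)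
    omega
  · by_contra hcon
    push Not at hcon
    have hP : Closed (c.comp R) (((R ∪ U).erase u).erase v) P :=
      ⟨hPS, fun a ha b hb hbP => hcon a ha b hb hbP⟩
    rcases YThreeAux.step1 h hP with h1 | h1
    · refine YThreeAux.step2 h hP.compl ?_ ?_
      · rw [Finset.sdiff_nonempty]
        intro hsub
        exact hneq (Finset.Subset.antisymm hPS hsub)
      · intro w hw hwZ
        obtain ⟨hwS, hwP⟩ := Finset.mem_sdiff.1 hw
        exact hwP (h1 w hwZ hwS)
    · exact YThreeAux.step2 h hP hne h1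

end K5
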