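import Pool.Agent.Lib.K5.YOut
import Pool.Agent.Lib.K5.YThree
import Pool.Agent.Lib.K5.YCross

/-!
# K5.YIn: the other shredders of the graph of a code lie inside the structures

`G = c.comp R`, `W = R ∪ U`, `Z = R ∪ c.Y`, `X'` a shredder of `G`, not contained in `Z`, `G` is not `K_{3,3}`. Let `x' ∈ X' \ Z`; `x' ∈ U \ c.Y`, so `x' ∈ c.V X`, `X ∈ c.M` (`V_cover`). Let `K` be the component of `G` in `c.V X` with `x' ∈ K`; it is a component of `G` in `W \ X` (`isComp_out`). `X` is a shredder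
(`comp_shr`).
(a) `X' ⊆ X ∪ K`: let `y ∈ X'`, `y ∉ X ∪ K`; the component `K2` of `G` in `W \ X` with `y ∈ K2` is not `K`; `shr_cross` (`comp_on`, `comp_three`) gives `IsK33`, contradiction.
(b) `D = W \ (X ∪ c.V X)` is a component of `G` in `W \ X` (`out_isComp`), disjoint from `X'` by (a). Every `x ∈ X` is joined to `D` by an edge: `Three.adj_comp` with `C = D`, `z = x'`. Some `x0 ∈ X` is not in `X'` (otherwise `X' = X` as `|X| = |X'|`, but `x' ∉ X`).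
(c) Let `r ∈ R`, `r ∉ X'`; `r ∉ c.V X` (`R` is disjoint from `U`), so `r ∈ X` or `r ∈ D`. Let `C` be the component of `G` in `W \ X'` with `r ∈ C`. `D ⊆ C`: if `r ∈ D` by `closed_sub`; if `r ∈ X`, `r` is joined to some `d ∈ D`, so `d ∈ C`, and `closed_sub`. Every `x ∈ X \ X'` is in `C` (joined to `D`).
(d) Let `w ∈ inn G W R X'`. Then `w ∈ W \ X'` and `w ∉ C` (`C` meets `R`). So `w ∉ D`, `w ∉ X` (by (c)), so `w ∈ c.V X`. If `w ∉ K`, let `K'` be the component of `G` in `c.V X` with `w ∈ K'`, disjoint from `K`, so from `X'` by (a); `x0` is joined to `K'` (`adjX`) and `x0 ∈ C`, so `K'` meets `C`, `K' ⊆ C` (`closed_sub`),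
`w ∈ C`: contradiction. So `w ∈ K`.
(e) `inn G W R X' ⊆ K ⊆ c.V X` and `K ≠ c.V X`: `two` gives a component of `c.V X` disjoint from some other one, so different from `K` or ... (if `K = c.V X` both of the disjoint nonempty components are contained in `K`, so equal to `K` by `IsComp.eq_of_mem`). So the inclusion in `c.V X` is strict.
-/

namespace K5

open Finset

theorem Code3.Valid.shr_in {R U X' : Finset ℕ} {c : Code3} (h : c.Valid R U)
    (hX' : Shr (c.comp R) (R ∪ U) X') (hRX' : ¬ R ⊆ X') (hZ : ¬ X' ⊆ R ∪ c.Y)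
    (hk : ¬ IsK33 (c.comp R) (R ∪ U)) :
    ∃ X ∈ c.M, inn (c.comp R) (R ∪ U) R X' ⊂ c.V X := by
  classical
  obtain ⟨x', hx', hx'Z⟩ := Finset.not_subset.1 hZ
  have hx'W : x' ∈ R ∪ U := hX'.1 hx'
  have hx'U : x' ∈ U \ c.Y := by
    rw [Finset.mem_union, not_or] at hx'Z
    exact Finset.mem_sdiff.2 ⟨(Finset.mem_union.1 hx'W).resolve_left hx'Z.1, hx'Z.2⟩
  obtain ⟨X, hX, hx'V⟩ := h.V_cover x' hx'U
  obtain ⟨K, hK, hx'K⟩ := exists_xcomp (G := c.comp R) hx'V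
  have hK' : IsComp (c.comp R) ((R ∪ U) \ X) K := h.isComp_out hX hK
  have hXs : Shr (c.comp R) (R ∪ U) X := h.comp_shr hX
  obtain ⟨hXZ, hXV, hZV⟩ := h.mark_sub hX
  have hVU : ∀ v ∈ c.V X, v ∈ U := fun v hv => (Finset.mem_sdiff.1 (h.V_sub X hX hv)).1
  have hx'X : x' ∉ X := fun h1 => hx'Z (hXZ h1)
  -- (a)
  have ha : ∀ y ∈ X', y ∈ X ∨ y ∈ K := by
    intro y hy
    by_contra hcon
    rw [not_or] at hcon
    obtain ⟨K2, hK2, hyK2⟩ := exists_xcomp (G := c.comp R)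
      (Finset.mem_sdiff.2 ⟨hX'.1 hy, hcon.1⟩ : y ∈ (R ∪ U) \ X)
    have hne : K ≠ K2 := fun h1 => hcon.2 (h1 ▸ hyK2)
    exact hk (shr_cross h.comp_on h.comp_three hXs hX' hK' hK2 hne hx'K hx' hyK2 hy)
  -- (b)
  have hD := h.out_isComp hX
  have hDX' : ∀ d ∈ (R ∪ U) \ (X ∪ c.V X), d ∈ (R ∪ U) \ X' := by
    intro d hd
    obtain ⟨hd1, hd2⟩ := Finset.mem_sdiff.1 hd
    rw [Finset.mem_union, not_or] at hd2
    refine Finset.mem_sdiff.2 ⟨hd1, fun h1 => ?_⟩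
    rcases ha d h1 with h2 | h2
    · exact hd2.1 h2
    · exact hd2.2 (hK.1 h2)
  have hDadj : ∀ x ∈ X, ∃ d ∈ (R ∪ U) \ (X ∪ c.V X), (c.comp R).Adj d x := by
    intro x hx
    refine h.comp_three.adj_comp (X := X) (z := x') hXs.1 hXs.2.1 Finset.sdiff_subset ?_ hD.2.1.1 ?_
      hx'W hx'X ?_ hx
    · rw [Finset.disjoint_left]
      intro d hd hdX
      exact (Finset.mem_sdiff.1 hd).2 (Finset.mem_union_left _ hdX)
    · intro a haD b hb hbX hbD
      exact hD.2.2 a haD b (Finset.mem_sdiff.2 ⟨hb, hbX⟩) hbD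
    · intro h1
      exact (Finset.mem_sdiff.1 h1).2 (Finset.mem_union_right _ hx'V)
  obtain ⟨x0, hx0, hx0'⟩ : ∃ x0 ∈ X, x0 ∉ X' := by
    by_contra hcon
    push Not at hcon
    have h1 : X = X' := Finset.eq_of_subset_of_card_le hcon (by rw [hXs.2.1, hX'.2.1])
    exact hx'X (h1 ▸ hx')
  -- (c)
  obtain ⟨r, hr, hrX'⟩ := Finset.not_subset.1 hRX'
  have hrW : r ∈ (R ∪ U) \ X' := Finset.mem_sdiff.2 ⟨Finset.mem_union_left _ hr, hrX'⟩
  obtain ⟨C, hC, hrC⟩ := exists_xcomp (G := c.comp R) hrW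
  have step : ∀ a ∈ C, ∀ b ∈ (R ∪ U) \ X', (c.comp R).Adj a b → b ∈ C := by
    intro a haC b hb hab
    by_contra hbC
    exact hC.2.2 a haC b hb hbC hab
  have hDC : (R ∪ U) \ (X ∪ c.V X) ⊆ C := by
    have hrV : r ∉ c.V X := fun h1 => Finset.disjoint_left.1 h.disj hr (hVU r h1)
    by_cases hrX : r ∈ X
    · obtain ⟨d, hd, hdr⟩ := hDadj r hrX
      exact closed_sub hC.2.2 hD.2.1 hDX' hd (step r hrC d (hDX' d hd) hdr.symm)
    · have hrD : r ∈ (R ∪ U) \ (X ∪ c.V X) :=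
        Finset.mem_sdiff.2 ⟨Finset.mem_union_left _ hr, fun h1 => (Finset.mem_union.1 h1).elim hrX hrV⟩
      exact closed_sub hC.2.2 hD.2.1 hDX' hrD hrC
  have hXC : ∀ x ∈ X, x ∉ X' → x ∈ C := by
    intro x hx hxX'
    obtain ⟨d, hd, hdx⟩ := hDadj x hx
    exact step d (hDC hd) x (Finset.mem_sdiff.2 ⟨hXs.1 hx, hxX'⟩) hdx
  -- (d)
  have hin : inn (c.comp R) (R ∪ U) R X' ⊆ K := by
    intro w hw
    obtain ⟨hw1, hw2⟩ := Finset.mem_filter.1 hw
    obtain ⟨hwW, hwX'⟩ := Finset.mem_sdiff.1 hw1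
    have hwC : w ∉ C := fun h1 => Finset.disjoint_left.1 (hw2 C hC h1) hrC hr
    have hwX : w ∉ X := fun h1 => hwC (hXC w h1 hwX')
    have hwV : w ∈ c.V X := by
      by_contra hwV
      exact hwC (hDC (Finset.mem_sdiff.2 ⟨hwW, fun h1 => (Finset.mem_union.1 h1).elim hwX hwV⟩))
    by_contra hwK
    obtain ⟨K1, hK1, hwK1⟩ := exists_xcomp (G := c.comp R) hwV
    have hK1X' : ∀ y ∈ K1, y ∈ (R ∪ U) \ X' := by
      intro y hy
      refine Finset.mem_sdiff.2 ⟨Finset.mem_union_right _ (hVU y (hK1.1 hy)), fun hyX' => ?_⟩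
      rcases ha y hyX' with h1 | h1
      · exact Finset.disjoint_left.1 hXV h1 (hK1.1 hy)
      · exact hwK (by rw [hK.xeq_of_mem hK1 h1 hy]; exact hwK1)
    obtain ⟨a, haK1, hax0⟩ := h.adjX hX hK1 hx0
    have haC : a ∈ C := step x0 (hXC x0 hx0 hx0') a (hK1X' a haK1) hax0.symm
    exact hwC (closed_sub hC.2.2 hK1.2.1 hK1X' haK1 haC hwK1)
  -- (e)
  refine ⟨X, hX, lt_of_le_of_lt hin (Finset.ssubset_iff_subset_ne.2 ⟨hK.1, fun hKV => ?_⟩)⟩
  obtain ⟨C1, C2, hC1, hC2, hC12⟩ := h.two hX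
  obtain ⟨v1, hv1⟩ := hC1.2.1.1
  obtain ⟨v2, hv2⟩ := hC2.2.1.1
  have e1 : K = C1 := hK.xeq_of_mem hC1 (by rw [hKV]; exact hC1.1 hv1) hv1
  have e2 : K = C2 := hK.xeq_of_mem hC2 (by rw [hKV]; exact hC2.1 hv2) hv2
  exact Finset.disjoint_left.1 hC12 hv1 (by rw [← e2, e1]; exact hv1)

end K5
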