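import Pool.Agent.Lib.K5.YOut
import Pool.Agent.Lib.K5.QFree

/-!
# K5.YK33: the codes of `K_{3,3}`

1. `IsK33.no_clq`: `R = {x, y, z}` (`Finset.card_eq_three`); two of the three are in the same class `A` or `B` (all are in `A ∪ B` by the description of the edges), but the edges join `A` and `B`, which are disjoint.
2. `k33_shr`: a shredder `X` of `G` on `A ∪ B` is `A` or `B`. `S = (A ∪ B) \ X` has three elements and contains three disjoint nonempty components, so each of them is a singleton and they cover `S` (cardinalities). If `S` contains `a ∈ A` and `b ∈ B`, they are in different components, but they are joined by an edge: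
   contradiction. So `S ⊆ A` or `S ⊆ B`, so `S = A` or `S = B` (cardinalities), and `X = B` or `X = A`.
3. `a_shr`: `A` is a shredder: the three singletons of `B` are components of `(A ∪ B) \ A = B` (`P512.conn_singleton`).
4. `Code3.Valid.k33`: every `X ∈ c.M` is a shredder of `G = c.comp R` on `R ∪ U = A ∪ B` (`comp_shr`), so it is `A` or `B`. Not both `A, B ∈ c.M`: `A, B ⊆ R ∪ c.Y` (`mark_sub`), so `R ∪ c.Y = R ∪ U`, `U ⊆ R ∪ c.Y`, but `c.V A` is a nonempty (`T_str`, `ne`) subset of `U \ c.Y`, disjoint from `R ∪ c.Y`. `c.M` is not empty: otherwise `U = c.Y`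
   (`V_cover`, `sub`), and `G = c.H`: an edge of `G` has both ends in `R ∪ U = R ∪ c.Y` (`comp_on`), so it is an edge of `c.H` by `comp_core`; an edge of `c.H` is not covered by `∅`, so it is an edge of `G`. So `c.H` has the shredder `A`, which contradicts `Mac.no_shr` (`c.core.mac`, `c.core.rtd.three`).
-/

namespace K5

open Finset

theorem IsK33.no_clq {G : Gr} {W R : Finset ℕ} (h : IsK33 G W) (hR : clq R ≤ G)
    (hc : R.card = 3) : False := by
  obtain ⟨A, B, -, hd, -, -, hadj⟩ := h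
  obtain ⟨x, y, z, hxy, hxz, hyz, rfl⟩ := Finset.card_eq_three.1 hc
  have h1 : G.Adj x y := hR ⟨hxy, by simp, by simp⟩
  have h2 : G.Adj x z := hR ⟨hxz, by simp, by simp⟩
  have h3 : G.Adj y z := hR ⟨hyz, by simp, by simp⟩
  have hd' := Finset.disjoint_left.1 hd
  have q : ∀ w, w ∈ A → w ∈ B → False := fun w h1 h2 => hd' h1 h2
  rcases (hadj x y).1 h1 with ⟨xa, yb⟩ | ⟨xb, ya⟩
  · rcases (hadj x z).1 h2 with ⟨_, zb⟩ | ⟨xb, _⟩
    · rcases (hadj y z).1 h3 with ⟨ya, _⟩ | ⟨_, za⟩
      · exact q y ya yb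
      · exact q z za zb
    · exact q x xa xb
  · rcases (hadj x z).1 h2 with ⟨xa, _⟩ | ⟨_, za⟩
    · exact q x xa xb
    · rcases (hadj y z).1 h3 with ⟨_, zb⟩ | ⟨yb, _⟩
      · exact q z za zb
      · exact q y ya yb

theorem k33_shr {G : Gr} {A B X : Finset ℕ} (hd : Disjoint A B) (hA : A.card = 3)
    (hB : B.card = 3) (hadj : ∀ a b, G.Adj a b ↔ (a ∈ A ∧ b ∈ B) ∨ (a ∈ B ∧ b ∈ A))
    (hX : Shr G (A ∪ B) X) : X = A ∨ X = B := by
  obtain ⟨hXU, hXc, C1, C2, C3, h1, h2, h3, d12, d13, d23⟩ := hX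
  have hS : ((A ∪ B) \ X).card = 3 := by
    have e1 := Finset.card_sdiff_add_card_eq_card hXU
    have e2 := Finset.card_union_of_disjoint hd
    omega
  have n1 := Finset.card_pos.2 h1.2.1.1
  have n2 := Finset.card_pos.2 h2.2.1.1
  have n3 := Finset.card_pos.2 h3.2.1.1
  have dU : Disjoint (C1 ∪ C2) C3 := Finset.disjoint_union_left.2 ⟨d13, d23⟩
  have hsub : (C1 ∪ C2) ∪ C3 ⊆ (A ∪ B) \ X :=
    Finset.union_subset (Finset.union_subset h1.1 h2.1) h3.1
  have hcard : ((C1 ∪ C2) ∪ C3).card = C1.card + C2.card + C3.card := by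
    rw [Finset.card_union_of_disjoint dU, Finset.card_union_of_disjoint d12]
  have hle := Finset.card_le_card hsub
  have hcov : (C1 ∪ C2) ∪ C3 = (A ∪ B) \ X := Finset.eq_of_subset_of_card_le hsub (by omega)
  have key : ∀ C, IsComp G ((A ∪ B) \ X) C → C.card ≤ 1 → ∀ a ∈ A, ∀ b ∈ B,
      b ∈ (A ∪ B) \ X → a ∈ C → False := by
    intro C hC hC1 a ha b hb hbS haC
    have hab : G.Adj a b := (hadj a b).2 (Or.inl ⟨ha, hb⟩)
    have hbC : b ∈ C := by
      by_contra hbC
      exact hC.2.2 a haC b hbS hbC hab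
    have := Finset.card_le_one.1 hC1 a haC b hbC
    exact hab.ne this
  by_cases hAX : A ⊆ X
  · exact Or.inl (Finset.eq_of_subset_of_card_le hAX (by omega)).symm
  by_cases hBX : B ⊆ X
  · exact Or.inr (Finset.eq_of_subset_of_card_le hBX (by omega)).symm
  exfalso
  obtain ⟨a, ha, haX⟩ := Finset.not_subset.1 hAX
  obtain ⟨b, hb, hbX⟩ := Finset.not_subset.1 hBX
  have haS : a ∈ (A ∪ B) \ X := Finset.mem_sdiff.2 ⟨Finset.mem_union_left _ ha, haX⟩
  have hbS : b ∈ (A ∪ B) \ X := Finset.mem_sdiff.2 ⟨Finset.mem_union_right _ hb, hbX⟩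
  rw [← hcov] at haS
  rcases Finset.mem_union.1 haS with haS | haS
  · rcases Finset.mem_union.1 haS with haS | haS
    · exact key C1 h1 (by omega) a ha b hb hbS haS
    · exact key C2 h2 (by omega) a ha b hb hbS haS
  · exact key C3 h3 (by omega) a ha b hb hbS haS

theorem a_shr {G : Gr} {A B : Finset ℕ} (hd : Disjoint A B) (hA : A.card = 3)
    (hB : B.card = 3) (hadj : ∀ a b, G.Adj a b ↔ (a ∈ A ∧ b ∈ B) ∨ (a ∈ B ∧ b ∈ A)) :
    Shr G (A ∪ B) A := by
  have hd' := Finset.disjoint_left.1 hd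
  have key : ∀ x ∈ B, IsComp G ((A ∪ B) \ A) {x} := by
    intro x hx
    refine ⟨?_, P512.conn_singleton G x, ?_⟩
    · intro y hy
      rw [Finset.mem_singleton.1 hy]
      exact Finset.mem_sdiff.2 ⟨Finset.mem_union_right _ hx, fun h => hd' h hx⟩
    · intro a ha b hb _ hab
      rw [Finset.mem_singleton.1 ha] at hab
      have hb' := Finset.mem_sdiff.1 hb
      rcases (hadj x b).1 hab with h | h
      · exact hd' h.1 hx
      · exact hb'.2 h.2
  obtain ⟨x, y, z, hxy, hxz, hyz, hBe⟩ := Finset.card_eq_three.1 hB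
  refine ⟨Finset.subset_union_left, hA, {x}, {y}, {z}, key x (by rw [hBe]; simp),
    key y (by rw [hBe]; simp), key z (by rw [hBe]; simp), ?_, ?_, ?_⟩
  · exact Finset.disjoint_singleton.2 hxy
  · exact Finset.disjoint_singleton.2 hxz
  · exact Finset.disjoint_singleton.2 hyz

theorem Code3.Valid.k33 {R U A B : Finset ℕ} {c : Code3} (h : c.Valid R U)
    (hW : R ∪ U = A ∪ B) (hd : Disjoint A B) (hA : A.card = 3) (hB : B.card = 3)
    (hadj : ∀ a b, (c.comp R).Adj a b ↔ (a ∈ A ∧ b ∈ B) ∨ (a ∈ B ∧ b ∈ A)) :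
    c.M = {A} ∨ c.M = {B} := by
  have hM : ∀ X ∈ c.M, X = A ∨ X = B := by
    intro X hX
    have hs := h.comp_shr hX
    rw [hW] at hs
    exact k33_shr hd hA hB hadj hs
  have hne : c.M.Nonempty := by
    rw [Finset.nonempty_iff_ne_empty]
    intro hM0
    have hUY : U = c.Y := by
      refine Finset.Subset.antisymm (fun w hw => ?_) h.sub
      by_contra hwY
      obtain ⟨X, hX, -⟩ := h.V_cover w (Finset.mem_sdiff.2 ⟨hw, hwY⟩)
      rw [hM0] at hX
      exact Finset.notMem_empty X hX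
    have hadj' : ∀ a b, c.H.Adj a b ↔ (a ∈ A ∧ b ∈ B) ∨ (a ∈ B ∧ b ∈ A) := by
      intro a b
      rw [← hadj a b]
      constructor
      · intro hab
        refine ⟨hab.ne, Or.inr (Or.inl ⟨hab, ?_⟩)⟩
        rintro ⟨X, hX, -⟩
        rw [hM0] at hX
        exact Finset.notMem_empty X hX
      · intro hab
        refine h.comp_core hab ?_ ?_
        · rw [← hUY]; exact h.comp_on a b hab
        · rw [← hUY]; exact h.comp_on b a hab.symm
    have hs := a_shr hd hA hB hadj'
    rw [← hW, hUY] at hs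
    exact Mac.no_shr h.core.mac h.core.rtd.three A hs
  have hnot : ¬ (A ∈ c.M ∧ B ∈ c.M) := by
    rintro ⟨hAM, hBM⟩
    obtain ⟨v, hv⟩ := (h.T_str A hAM).ne
    have hvU := (Finset.mem_sdiff.1 (h.V_sub A hAM hv)).1
    have hvW : v ∈ A ∪ B := by rw [← hW]; exact Finset.mem_union_right _ hvU
    have hvZ : v ∈ R ∪ c.Y := by
      rcases Finset.mem_union.1 hvW with h' | h'
      · exact (h.mark_sub hAM).1 h'
      · exact (h.mark_sub hBM).1 h'
    exact Finset.disjoint_left.1 (h.mark_sub hAM).2.2 hvZ hv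
  obtain ⟨X, hX⟩ := hne
  rcases hM X hX with e | e
  · left
    subst e
    refine Finset.eq_singleton_iff_unique_mem.2 ⟨hX, fun X' hX' => ?_⟩
    rcases hM X' hX' with e' | e'
    · exact e'
    · exact absurd ⟨hX, e' ▸ hX'⟩ hnot
  · right
    subst e
    refine Finset.eq_singleton_iff_unique_mem.2 ⟨hX, fun X' hX' => ?_⟩
    rcases hM X' hX' with e' | e'
    · exact absurd ⟨e' ▸ hX', hX⟩ hnot
    · exact e'

end K5
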