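import Pool.Agent.Lib.K5.YStr

/-!
# K5.YRec: a code is determined by its graph, its marked triangles and their interiors

`G = c.comp R = c'.comp R`, `c.M = c'.M`, `c.V X = c'.V X` for `X ∈ c.M`.
* `c.V = c'.V`: `V_out`.
* `c.Y = c'.Y`: `w ∈ c.Y` iff `w ∈ U` and `w ∈ c.V X` for no `X ∈ c.M` (`sub`, `V_sub`, `V_cover`).
* `c.T X = c'.T X`: `T_out` for `X ∉ c.M`. For `X ∈ c.M`: `(c.T X).Adj a b` iff `G.Adj a b ∧ (a ∈ c.V X ∨ b ∈ c.V X)`: (→) `T_le`; `T_mem`: `a, b ∈ X ∪ c.V X`, not both in `R ∪ c.Y ⊇ X`. (←) `comp_V` (and symmetry).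
* `c.H = c'.H`: `c.H.Adj a b` iff `a, b ∈ R ∪ c.Y` and (`G.Adj a b` or `a ≠ b` and `Cov c.M s(a, b)`): (→) `c.core.rtd.on` (and symmetry); if `s(a, b)` is not covered, it is an edge of `G` (second case of `comp`). (←) `comp_core`; `Cov`: `clq X ≤ c.H` (`mark`, `NT`).
* `c.F = c'.F`: `e ∈ c.F` iff `e ∈ G.edgeSet ∧ Cov c.M e ∧ e ∉ (clq R).edgeSet`: (→) `F_sub` and the third case of `comp` (`a ≠ b` since it is an edge of `c.H`). (←) `e = s(a, b)` with `a, b ∈ X ∈ c.M`, so `a, b ∈ R ∪ c.Y` (`mark_sub`); the cases of `comp`: both in `R` (with `a ≠ b`) is excluded, not covered is excluded, `F`,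
  or `(c.T X'').Adj a b`, which contradicts `T_mem` (not both in `R ∪ c.Y`).
Then `cases c; cases c'; simp_all` or `Code3.mk.injEq`.
-/

namespace K5

open Finset

namespace YRecAux

variable {R U : Finset ℕ} {c : Code3}

theorem ext {c c' : Code3} (hY : c.Y = c'.Y) (hH : c.H = c'.H) (hM : c.M = c'.M) (hV : c.V = c'.V)
    (hT : c.T = c'.T) (hF : c.F = c'.F) : c = c' := by
  cases c
  cases c'
  rw [Code3.mk.injEq]
  exact ⟨hY, hH, hM, hV, hT, hF⟩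

theorem mem_Y (h : c.Valid R U) (w : ℕ) : w ∈ c.Y ↔ w ∈ U ∧ ∀ X ∈ c.M, w ∉ c.V X := by
  constructor
  · intro hw
    exact ⟨h.sub hw, fun X hX hwV => (mem_sdiff.1 (h.V_sub X hX hwV)).2 hw⟩
  · rintro ⟨hw, hV⟩
    by_contra hwY
    obtain ⟨X, hX, hwX⟩ := h.V_cover w (mem_sdiff.2 ⟨hw, hwY⟩)
    exact hV X hX hwX

theorem T_adj (h : c.Valid R U) {X : Finset ℕ} (hX : X ∈ c.M) (a b : ℕ) :
    (c.T X).Adj a b ↔ (c.comp R).Adj a b ∧ (a ∈ c.V X ∨ b ∈ c.V X) := by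
  constructor
  · intro hab
    refine ⟨c.T_le R X hab, ?_⟩
    obtain ⟨-, ha, hb, hn⟩ := h.T_mem hab
    by_contra hcon
    push Not at hcon
    refine hn ⟨(h.mark_sub hX).1 ((mem_union.1 ha).resolve_right hcon.1),
      (h.mark_sub hX).1 ((mem_union.1 hb).resolve_right hcon.2)⟩
  · rintro ⟨hab, ha | hb⟩
    · exact (h.comp_V hX hab ha).1
    · exact (h.comp_V hX hab.symm hb).1.symm

theorem H_adj (h : c.Valid R U) (a b : ℕ) :
    c.H.Adj a b ↔ (a ∈ R ∪ c.Y ∧ b ∈ R ∪ c.Y) ∧ a ≠ b ∧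
      ((c.comp R).Adj a b ∨ Cov c.M s(a, b)) := by
  constructor
  · intro hab
    refine ⟨⟨h.core.rtd.on a b hab, h.core.rtd.on b a hab.symm⟩, hab.ne, ?_⟩
    by_cases hcov : Cov c.M s(a, b)
    · exact Or.inr hcov
    · exact Or.inl ⟨hab.ne, Or.inr (Or.inl ⟨hab, hcov⟩)⟩
  · rintro ⟨⟨ha, hb⟩, -, hab | ⟨X, hX, hab⟩⟩
    · exact h.comp_core hab ha hb
    · exact (h.mark X hX).1.2.2.1 hab

theorem F_mem (h : c.Valid R U) (e : Sym2 ℕ) :
    e ∈ c.F ↔ e ∈ (c.comp R).edgeSet ∧ Cov c.M e ∧ e ∉ (clq R).edgeSet := by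
  induction e using Sym2.ind with
  | _ a b =>
    constructor
    · intro he
      obtain ⟨h1, h2, h3⟩ := h.F_sub _ he
      have hab : c.H.Adj a b := h1
      exact ⟨⟨hab.ne, Or.inr (Or.inr (Or.inl he))⟩, h2, h3⟩
    · rintro ⟨hab, hcov, hR⟩
      obtain ⟨X, hX, hX2⟩ := hcov
      have hX3 : a ≠ b ∧ a ∈ X ∧ b ∈ X := hX2
      have ha := (h.mark_sub hX).1 hX3.2.1
      have hb := (h.mark_sub hX).1 hX3.2.2
      rcases hab with ⟨hne, h1 | h1 | h1 | ⟨X', h1⟩⟩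
      · exact absurd (show s(a, b) ∈ (clq R).edgeSet from ⟨hne, h1.1, h1.2⟩) hR
      · exact absurd ⟨X, hX, hX2⟩ h1.2
      · exact h1
      · exact absurd ⟨ha, hb⟩ (h.T_mem h1).2.2.2

end YRecAux

theorem Code3.Valid.recover {R U : Finset ℕ} {c c' : Code3} (h : c.Valid R U)
    (h' : c'.Valid R U) (hc : c.comp R = c'.comp R) (hM : c.M = c'.M)
    (hV : ∀ X ∈ c.M, c.V X = c'.V X) : c = c' := by
  have hY : c.Y = c'.Y := by
    ext w
    rw [YRecAux.mem_Y h, YRecAux.mem_Y h', ← hM]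
    refine and_congr_right fun _ => forall₂_congr fun X hX => ?_
    rw [hV X hX]
  refine YRecAux.ext hY ?_ hM ?_ ?_ ?_
  · ext a b
    rw [YRecAux.H_adj h, YRecAux.H_adj h', hY, hM, hc]
  · funext X
    by_cases hX : X ∈ c.M
    · exact hV X hX
    · rw [h.V_out X hX, h'.V_out X (by rw [← hM]; exact hX)]
  · funext X
    by_cases hX : X ∈ c.M
    · ext a b
      rw [YRecAux.T_adj h hX, YRecAux.T_adj h' (by rw [← hM]; exact hX), hV X hX, hc]
    · rw [h.T_out X hX, h'.T_out X (by rw [← hM]; exact hX)]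
  · ext e
    rw [YRecAux.F_mem h, YRecAux.F_mem h', hM, hc]

end K5
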