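import Pool.Agent.Lib.K5.XCode
import Pool.Agent.Lib.K5.Sum

/-!
# K5.YFree: the graph of a code has no `K_5` minor

1. `TStr.free`. For a finite set `E` of components of `T` in `V` let `G_E = clq X ⊔ E.sup (fun C => rst T (X ∪ C))` (`Finset.sup` in the lattice `SimpleGraph ℕ`). By induction on `E`: `G_E` is `Free` and `On G_E (X ∪ E.biUnion id)`. Empty `E`: `clq X ≤ rst T (X ∪ C) ⊔ clq X` for any component `C`
   (`h.ne`, `exists_comp`), `Free` by `h.branch C`, `Free.mono`. Step: `G_{E + C} = G_E ⊔ (rst T (X ∪ C) ⊔ clq X)`, `Free.sup` with `S1 = X ∪ E.biUnion id`, `S2 = X ∪ C`: `S1 ∩ S2 = X` (components are pairwise disjoint, `IsComp.eq_of_mem`; `V` is disjoint from `X`), `|X| = 3`,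
   `X` is a clique of both. Finally `T ⊔ clq X ≤ G_E` for `E` = all components, i.e. `E = V.powerset.filter (IsComp T V)`: an edge `ab` of `T` has `a, b ∈ X ∪ V` (`h.on`), not both in `X` (`h.noX`); if `a ∈ V`, let `C` be its component, `b ∈ X ∪ C` (`IsComp`), so it is an edge of
   `rst T (X ∪ C)`; similarly if `b ∈ V`. `Free.mono`.
2. `Code3.Valid.comp_free`. For a finite set `E ⊆ c.M` let `G_E = c.H ⊔ E.sup (fun X => c.T X ⊔ clq X)`. By induction on `E`: `Free G_E` and `On G_E (R ∪ c.Y ∪ E.biUnion c.V)`. Step: `Free.sup` with `S1 = R ∪ c.Y ∪ E.biUnion c.V`, `S2 = X ∪ c.V X`: `S1 ∩ S2 = X` (`mark_sub`, `V_disj`), `X` is a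
   clique of `c.H` (`NT`). `c.T X ⊔ clq X` is `Free` by 1. and `On` it `X ∪ c.V X` (`TStr.on`). Finally `c.comp R ≤ G_E` for `E = c.M`: root clique `clq R ≤ c.H` (`c.core.rtd.clique`), edges of `c.H`, edges in `F` are edges of `c.H` (`F_sub`), `c.T X ≤ G_E` for `X ∈ c.M`, `c.T X = ⊥` otherwise.
The proof of `Code.Valid.comp_free` in K5.CompF has the same form (copy it).
-/

namespace K5

open Finset

namespace YFreeAux

/-- Gluing finitely many graphs to `H` along cliques of `H`. -/
theorem glue {ι : Type*} [DecidableEq ι] {H : Gr} {Z : Finset ℕ} (hH : Free H) (hZ : On H Z)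
    (E : Finset ι) (X V : ι → Finset ℕ) (T : ι → Gr)
    (hX : ∀ i ∈ E, X i ⊆ Z ∧ clq (X i) ≤ H ∧ (X i).card ≤ 3)
    (hV : ∀ i ∈ E, Disjoint Z (V i))
    (hVV : ∀ i ∈ E, ∀ j ∈ E, i ≠ j → Disjoint (V i) (V j))
    (hT : ∀ i ∈ E, Free (T i) ∧ On (T i) (X i ∪ V i) ∧ clq (X i) ≤ T i) :
    Free (H ⊔ E.sup T) ∧ On (H ⊔ E.sup T) (Z ∪ E.biUnion V) := by
  induction E using Finset.induction_on with
  | empty =>
    rw [Finset.sup_empty, sup_bot_eq]
    exact ⟨hH, fun u v huv => Finset.mem_union_left _ (hZ u v huv)⟩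
  | insert i E hi ih =>
    obtain ⟨ihF, ihO⟩ := ih (fun j hj => hX j (Finset.mem_insert_of_mem hj))
      (fun j hj => hV j (Finset.mem_insert_of_mem hj))
      (fun j hj k hk => hVV j (Finset.mem_insert_of_mem hj) k (Finset.mem_insert_of_mem hk))
      (fun j hj => hT j (Finset.mem_insert_of_mem hj))
    have hiE := Finset.mem_insert_self i E
    obtain ⟨hX1, hX2, hX3⟩ := hX i hiE
    obtain ⟨hT1, hT2, hT3⟩ := hT i hiE
    have heq : H ⊔ (insert i E).sup T = (H ⊔ E.sup T) ⊔ T i := by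
      rw [Finset.sup_insert, sup_comm (T i), sup_assoc]
    have hint : (Z ∪ E.biUnion V) ∩ (X i ∪ V i) ⊆ X i := by
      intro a ha
      obtain ⟨ha1, ha2⟩ := Finset.mem_inter.1 ha
      rcases Finset.mem_union.1 ha2 with ha2 | ha2
      · exact ha2
      exfalso
      rcases Finset.mem_union.1 ha1 with ha1 | ha1
      · exact Finset.disjoint_left.1 (hV i hiE) ha1 ha2
      · obtain ⟨j, hj, ha1⟩ := Finset.mem_biUnion.1 ha1
        have hji : j ≠ i := fun h => hi (h ▸ hj)
        exact Finset.disjoint_left.1 (hVV j (Finset.mem_insert_of_mem hj) i hiE hji) ha1 ha2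
    constructor
    · rw [heq]
      refine Free.sup ihF hT1 ihO hT2 ((Finset.card_le_card hint).trans hX3) ?_
      intro a ha b hb hab
      have h1 : (clq (X i)).Adj a b := ⟨hab, hint ha, hint hb⟩
      exact ⟨Or.inl (hX2 h1), hT3 h1⟩
    · rw [heq]
      intro a b hab
      rw [Finset.mem_union, Finset.mem_biUnion]
      rcases hab with hab | hab
      · rcases Finset.mem_union.1 (ihO a b hab) with h1 | h1
        · exact Or.inl h1
        · obtain ⟨j, hj, h1⟩ := Finset.mem_biUnion.1 h1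
          exact Or.inr ⟨j, Finset.mem_insert_of_mem hj, h1⟩
      · rcases Finset.mem_union.1 (hT2 a b hab) with h1 | h1
        · exact Or.inl (hX1 h1)
        · exact Or.inr ⟨i, hiE, h1⟩

end YFreeAux

open YFreeAux

theorem TStr.free {X V : Finset ℕ} {T : Gr} (h : TStr X V T) : Free (T ⊔ clq X) := by
  classical
  have hcomp : ∀ C ∈ V.powerset.filter (fun C => IsComp T V C), IsComp T V C :=
    fun C hC => (Finset.mem_filter.1 hC).2
  have hfree : Free (clq X) := by
    obtain ⟨v, hv⟩ := h.ne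
    obtain ⟨C, hC, -⟩ := exists_xcomp (G := T) hv
    exact (h.branch C hC).rtd.free.mono le_sup_right
  have h1 := glue (H := clq X) (Z := X) hfree (fun a b hab => hab.2.1)
    (V.powerset.filter (fun C => IsComp T V C)) (fun _ => X) (fun C => C)
    (fun C => rst T (X ∪ C) ⊔ clq X)
    (fun C _ => ⟨Finset.Subset.refl _, le_refl _, h.card.le⟩)
    (fun C hC => Finset.disjoint_left.2 fun v hv hvC =>
      Finset.disjoint_left.1 h.disj hv ((hcomp C hC).1 hvC))
    (fun C hC D hD hCD => Finset.disjoint_left.2 fun v hv hvD =>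
      hCD ((hcomp C hC).xeq_of_mem (hcomp D hD) hv hvD))
    (fun C hC => ⟨(h.branch C (hcomp C hC)).rtd.free, (h.branch C (hcomp C hC)).rtd.on,
      le_sup_right⟩)
  refine h1.1.mono fun a b hab => ?_
  have key : ∀ a b, T.Adj a b → a ∈ V → ∃ C ∈ V.powerset.filter (fun C => IsComp T V C),
      (rst T (X ∪ C)).Adj a b := by
    intro a b hab ha
    obtain ⟨C, hC, haC⟩ := exists_xcomp (G := T) ha
    refine ⟨C, Finset.mem_filter.2 ⟨Finset.mem_powerset.2 hC.1, hC⟩, hab,
      Finset.mem_union_right _ haC, ?_⟩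
    rcases Finset.mem_union.1 (h.on b a hab.symm) with hb | hb
    · exact Finset.mem_union_left _ hb
    · refine Finset.mem_union_right _ ?_
      by_contra hbC
      exact hC.2.2 a haC b hb hbC hab
  rcases hab with hab | hab
  · rcases Finset.mem_union.1 (h.on a b hab) with ha | ha
    · rcases Finset.mem_union.1 (h.on b a hab.symm) with hb | hb
      · exact absurd hab (h.noX a ha b hb)
      · obtain ⟨C, hC, h2⟩ := key b a hab.symm hb
        right
        exact (Finset.le_sup (f := fun C => rst T (X ∪ C) ⊔ clq X) hC) (Or.inl h2.symm)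
    · obtain ⟨C, hC, h2⟩ := key a b hab ha
      right
      exact (Finset.le_sup (f := fun C => rst T (X ∪ C) ⊔ clq X) hC) (Or.inl h2)
  · exact Or.inl hab

theorem Code3.Valid.comp_free {R U : Finset ℕ} {c : Code3} (h : c.Valid R U) :
    Free (c.comp R) := by
  classical
  have h1 := glue h.core.rtd.free h.core.rtd.on c.M (fun X => X) c.V (fun X => c.T X ⊔ clq X)
    (fun X hX => ⟨(h.mark_sub hX).1, (h.mark X hX).1.2.2.1, (h.mark X hX).1.2.1.le⟩)
    (fun X hX => (h.mark_sub hX).2.2)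
    (fun X hX Y hY hXY => h.V_disj X hX Y hY hXY)
    (fun X hX => ⟨(h.T_str X hX).free, fun a b hab => by
      rcases hab with hab | hab
      · exact (h.T_str X hX).on a b hab
      · exact Finset.mem_union_left _ hab.2.1, le_sup_right⟩)
  refine h1.1.mono fun a b hab => ?_
  obtain ⟨hne, ⟨h2, h3⟩ | h2 | h2 | ⟨X, h2⟩⟩ := hab
  · exact Or.inl (h.core.rtd.clique ⟨hne, h2, h3⟩)
  · exact Or.inl h2.1
  · exact Or.inl (h.F_sub _ h2).1
  · right
    exact (Finset.le_sup (f := fun X => c.T X ⊔ clq X) (h.T_mem h2).1) (Or.inl h2)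

end K5
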