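import Pool.Agent.Lib.K5.YSide

/-!
# K5.YRoot: the root triangle does not separate the graph of a code

`G = c.comp R`, `|R| = 3`. `c.Y` is nonempty (`4 ≤ |R ∪ c.Y|`) and connected in `c.H` (`c.core.rtd.root`). Let `P` be a proper nonempty subset of `U` without edges to the rest, `Closed G U P`, `Q = U \ P`, `Closed G U Q` (`Closed.compl`). `core_or` for `A = c.Y`, `S = U` (all `c.V X ⊆ U`; a component
of `c.V X` exists by `two`): `c.Y ⊆ P` or `c.Y` is disjoint from `P`. Replacing `P` by `Q`, if necessary, `c.Y` is disjoint from `P`. Let `w ∈ P`: `w ∈ U \ c.Y`, so `w ∈ c.V X`, `X ∈ c.M` (`V_cover`). `X ≠ R` and `|X| = |R| = 3` (`mark`), so some `x ∈ X` is not in `R`; `x ∈ R ∪ c.Y` (`mark_sub`), so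
`x ∈ c.Y ⊆ U`. `side_of_V` gives `x ∈ P`: contradiction.
-/

namespace K5

open Finset

namespace YRootAux

theorem empty_of_disj {R U P : Finset ℕ} {c : Code3} (h : c.Valid R U) (hR : R.card = 3)
    (hP : Closed (c.comp R) U P) (hd : Disjoint c.Y P) : P = ∅ := by
  rw [Finset.eq_empty_iff_forall_notMem]
  intro w hw
  have hwU : w ∈ U := hP.1 hw
  have hwY : w ∉ c.Y := fun h' => Finset.disjoint_left.1 hd h' hw
  obtain ⟨X, hX, hwX⟩ := h.V_cover w (Finset.mem_sdiff.2 ⟨hwU, hwY⟩)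
  obtain ⟨hNT, hXR⟩ := h.mark X hX
  obtain ⟨x, hx, hxR⟩ : ∃ x ∈ X, x ∉ R := by
    by_contra hcon
    push Not at hcon
    exact hXR (Finset.eq_of_subset_of_card_le hcon (by rw [hR, hNT.2.1]))
  have hxY : x ∈ c.Y := (Finset.mem_union.1 (hNT.1 hx)).resolve_left hxR
  have hxP := h.side_of_V hP hX ((h.V_sub X hX).trans Finset.sdiff_subset) hwX hw hx (h.sub hxY)
  exact Finset.disjoint_left.1 hd hxY hxP

end YRootAux

theorem Code3.Valid.comp_root {R U : Finset ℕ} {c : Code3} (h : c.Valid R U) (hR : R.card = 3) :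
    P512.Conn (c.comp R) U := by
  have h4 := h.core.rtd.three.1
  have hle := Finset.card_union_le R c.Y
  have hYne : c.Y.Nonempty := by
    rw [← Finset.card_pos]
    omega
  have hYc : P512.Conn c.H c.Y := by
    rcases h.core.rtd.root with h1 | h1
    · omega
    · exact h1.2
  refine ⟨hYne.mono h.sub, fun P hP hne hPU => ?_⟩
  by_contra hcon
  push Not at hcon
  have hcl : Closed (c.comp R) U P := ⟨hP, fun a ha b hb hbP => hcon a ha b hb hbP⟩
  have hcov : ∀ X ∈ c.M, ∀ a ∈ c.Y, ∀ b ∈ c.Y, a ≠ b → a ∈ X → b ∈ X →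
      ∃ C, IsComp (c.comp R) (c.V X) C ∧ C ⊆ U := by
    intro X hX _ _ _ _ _ _ _
    obtain ⟨C1, -, hC1, -, -⟩ := h.two hX
    exact ⟨C1, hC1, hC1.1.trans ((h.V_sub X hX).trans Finset.sdiff_subset)⟩
  rcases h.core_or hcl hYc h.sub hcov with h1 | h1
  · have h2 := YRootAux.empty_of_disj h hR hcl.compl (by
      rw [Finset.disjoint_left]
      intro a ha ha'
      exact (Finset.mem_sdiff.1 ha').2 (h1 ha))
    exact hPU (Finset.Subset.antisymm hP (Finset.sdiff_eq_empty_iff_subset.1 h2))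
  · exact hne.ne_empty (YRootAux.empty_of_disj h hR hcl h1)

end K5
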