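import Pool.Agent.Lib.K5.YThree
import Pool.Agent.Lib.K5.YFree
import Pool.Agent.Lib.K5.YRoot

/-!
# K5.YRtd: soundness of the codes of the second kind
-/

namespace K5

open Finset

theorem Code3.Valid.rtd {R U : Finset ℕ} {c : Code3} (h : c.Valid R U) :
    Rtd R U (c.comp R) where
  disj := h.disj
  on := h.comp_on
  clique := fun a b hab => ⟨hab.1, Or.inl ⟨hab.2.1, hab.2.2⟩⟩
  three := h.comp_three
  free := h.comp_free
  root := by
    rcases h.core.rtd.root with hr | hr
    · exact Or.inl hr
    · exact Or.inr ⟨hr.1, h.comp_root hr.1⟩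

end K5
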