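import Pool.Agent.Lib.K5.YPlan
import Pool.Agent.Lib.K5.YIn
import Pool.Agent.Lib.K5.YRec
import Pool.Agent.Lib.K5.YK33
import Pool.Agent.Lib.K5.YRtd

/-!
# K5.YInj: the graph of a code determines the code, except for `K_{3,3}`
-/

namespace K5

open Finset

variable {R U : Finset ℕ} {c c' : Code3}

/-- The marked triangles are the maximal shredders. -/
theorem Code3.Valid.mem_M (h : c.Valid R U) (hl : c.Low R)
    (hk : ¬ IsK33 (c.comp R) (R ∪ U)) (X : Finset ℕ) :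
    X ∈ c.M ↔ Shr (c.comp R) (R ∪ U) X ∧ ¬ R ⊆ X ∧
      ∀ X', Shr (c.comp R) (R ∪ U) X' → ¬ R ⊆ X' →
        ¬ inn (c.comp R) (R ∪ U) R X ⊂ inn (c.comp R) (R ∪ U) R X' := by
  have key : ∀ X1 ∈ c.M, ∀ X2 ∈ c.M, ¬ c.V X1 ⊂ c.V X2 := by
    intro X1 h1 X2 h2 hlt
    have hne : X1 ≠ X2 := by
      rintro rfl
      exact hlt.2 (Finset.Subset.refl _)
    obtain ⟨v, hv⟩ := (h.T_str X1 h1).ne
    exact Finset.disjoint_left.1 (h.V_disj X1 h1 X2 h2 hne) hv (hlt.1 hv)
  constructor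
  · intro hX
    refine ⟨h.comp_shr hX, hl X hX, fun X' hX' hRX' hlt => ?_⟩
    rw [h.inn_eq hX (hl X hX)] at hlt
    by_cases hZ : X' ⊆ R ∪ c.Y
    · have hX'M := h.shr_core hX' hZ
      rw [h.inn_eq hX'M hRX'] at hlt
      exact key X hX X' hX'M hlt
    · obtain ⟨X2, hX2, hlt2⟩ := h.shr_in hX' hRX' hZ hk
      exact key X hX X2 hX2 (hlt.trans hlt2)
  · rintro ⟨hX, hRX, hmax⟩
    by_cases hZ : X ⊆ R ∪ c.Y
    · exact h.shr_core hX hZ
    · obtain ⟨X2, hX2, hlt2⟩ := h.shr_in hX hRX hZ hk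
      rw [← h.inn_eq hX2 (hl X2 hX2)] at hlt2
      exact absurd hlt2 (hmax X2 (h.comp_shr hX2) (hl X2 hX2))

theorem Code3.Valid.eq_of_M (h : c.Valid R U) (hl : c.Low R) (h' : c'.Valid R U)
    (hc : c.comp R = c'.comp R) (hM : c.M = c'.M) : c = c' := by
  refine h.recover h' hc hM fun X hX => ?_
  rw [← h.inn_eq hX (hl X hX), hc, h'.inn_eq (hM ▸ hX) (hl X hX)]

/-- A code without marked triangle at the root is determined by its graph, if it is not
`K_{3,3}`. -/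
theorem Code3.Valid.inj (h : c.Valid R U) (hl : c.Low R) (h' : c'.Valid R U) (hl' : c'.Low R)
    (hc : c.comp R = c'.comp R) (hk : ¬ IsK33 (c.comp R) (R ∪ U)) : c = c' := by
  refine h.eq_of_M hl h' hc ?_
  ext X
  rw [h.mem_M hl hk, h'.mem_M hl' (hc ▸ hk), hc]

/-- Root triangle: every valid code is determined by its graph. -/
theorem Code3.Valid.inj3 (hR : R.card = 3) (h : c.Valid R U) (h' : c'.Valid R U)
    (hc : c.comp R = c'.comp R) : c = c' := by
  have low : ∀ d : Code3, d.Valid R U → d.Low R := by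
    intro d hd X hX hRX
    have h1 := hd.mark X hX
    exact h1.2 (Finset.eq_of_subset_of_card_le hRX (by rw [h1.1.2.1, hR])).symm
  refine h.inj (low c h) h' (low c' h') hc fun hk => ?_
  exact hk.no_clq h.rtd.clique hR

/-- Among three codes without marked triangle at the root and with the same graph two are
equal. -/
theorem Code3.Valid.three_codes {c1 c2 c3 : Code3} (h1 : c1.Valid R U) (l1 : c1.Low R)
    (h2 : c2.Valid R U) (l2 : c2.Low R) (h3 : c3.Valid R U) (_l3 : c3.Low R)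
    (h12 : c1.comp R = c2.comp R) (h13 : c1.comp R = c3.comp R) :
    c1 = c2 ∨ c1 = c3 ∨ c2 = c3 := by
  by_cases hk : IsK33 (c1.comp R) (R ∪ U)
  · obtain ⟨A, B, hW, hd, hA, hB, hadj⟩ := hk
    have e1 := h1.k33 hW hd hA hB hadj
    have e2 := h2.k33 hW hd hA hB (h12 ▸ hadj)
    have e3 := h3.k33 hW hd hA hB (h13 ▸ hadj)
    rcases e1 with e1 | e1 <;> rcases e2 with e2 | e2 <;> rcases e3 with e3 | e3
    · exact Or.inl (h1.eq_of_M l1 h2 h12 (e1.trans e2.symm))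
    · exact Or.inl (h1.eq_of_M l1 h2 h12 (e1.trans e2.symm))
    · exact Or.inr (Or.inl (h1.eq_of_M l1 h3 h13 (e1.trans e3.symm)))
    · exact Or.inr (Or.inr (h2.eq_of_M l2 h3 (h12.symm.trans h13) (e2.trans e3.symm)))
    · exact Or.inr (Or.inr (h2.eq_of_M l2 h3 (h12.symm.trans h13) (e2.trans e3.symm)))
    · exact Or.inr (Or.inl (h1.eq_of_M l1 h3 h13 (e1.trans e3.symm)))
    · exact Or.inl (h1.eq_of_M l1 h2 h12 (e1.trans e2.symm))
    · exact Or.inl (h1.eq_of_M l1 h2 h12 (e1.trans e2.symm))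
  · exact Or.inl (h1.inj l1 h2 l2 h12 hk)

end K5
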