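import Pool.Agent.Lib.K5.ZShr
import Pool.Agent.Lib.K5.XEx
import Pool.Agent.Lib.K5.YRtd
import Pool.Agent.Lib.K5.YInj
import Pool.Agent.Lib.K5W.Wag

/-!
# K5.GFin: the graph side, assembled

Wagner's theorem (`K5W.Wag`), existence of codes (`K5.XEx`), soundness and uniqueness (`K5.YRtd`, `K5.YInj`) and the
counting of the shredder level (`K5.ZShr`) give the two network theorems without hypotheses.
-/

namespace K5

open Finset
open scoped ENNReal

theorem wag : Wag := fun H Z hOn h3 hf hs => wagner H Z hOn h3 hf hs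

theorem c3 : ({0, 1, 2} : Finset ℕ).card = 3 := by decide

theorem c2 : ({0, 1} : Finset ℕ).card = 2 := by decide

theorem isEx3 : Ex3 := fun _ _ h => ex3 wag h c3

theorem isEx2 : Ex2 := fun _ _ h => ex2 wag h c2

theorem isSnd3 : Snd3 := fun _ _ h => h.rtd

theorem isInj3 : Inj3 := fun _ _ _ h h' he => Code3.Valid.inj3 c3 h h' he

theorem isSnd2 : Snd2 := fun _ _ h _ => h.rtd

theorem isInj2 : Inj2 := by
  intro U c c' h h' hl hl' he
  by_cases hk : IsK33 (c.comp {0, 1}) ({0, 1} ∪ U)
  · exact Or.inr hk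
  · exact Or.inl (h.inj hl h' hl' he hk)

theorem isTwo33 : Two33 := by
  classical
  intro U G s _ hs
  by_contra hcon
  have h3 : 2 < s.card := by omega
  obtain ⟨a, b, c, ha, hb, hc, hab, hac, hbc⟩ := Finset.two_lt_card_iff.mp h3
  obtain ⟨va, la, ea⟩ := hs a ha
  obtain ⟨vb, lb, eb⟩ := hs b hb
  obtain ⟨vc, lc, ec⟩ := hs c hc
  rcases va.three_codes la vb lb vc lc (ea.trans eb.symm) (ea.trans ec.symm) with h | h | h
  · exact hab h
  · exact hac h
  · exact hbc h

theorem isShrU : ShrU := shrU isEx3 isEx2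

theorem isShrL : ShrL := shrL isSnd3 isInj3 isSnd2 isInj2 isTwo33

end K5
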