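import Pool.Agent.Lib.K5.NetU
import Pool.Agent.Lib.K5.NetL

/-!
# K5.GraphUL: the two network theorems in terms of planar cores
-/

namespace K5

open Finset
open scoped ENNReal

/-- Output of the shredder level, upper bound (helper88). -/
def ShrU : Prop := ∀ {x z t a : ℝ}, 0 < x → 1 ≤ z → 0 ≤ t → 0 ≤ a →
  At (.ofReal x) (.ofReal z) (.ofReal (1 + z)) (.ofReal t) ≤ .ofReal a →
  Real.exp a - 1 - a ≤ t →
  T0 (.ofReal x) (.ofReal z) ≤ Kt (.ofReal x) (.ofReal z) (.ofReal (1 + z)) (.ofReal t) +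
    .ofReal (3 / 2 * x ^ 6 * z ^ 11)

/-- Output of the shredder level, lower bound (helper88). -/
def ShrL : Prop := ∀ {x x1 z : ℝ}, 0 < x → x < x1 → 1 ≤ z →
  T0 (.ofReal x1) (.ofReal z) ≠ ⊤ → ∃ t a k : ℝ, 0 ≤ t ∧ 0 ≤ a ∧ 0 ≤ k ∧
  At (.ofReal x) (.ofReal z) (.ofReal (1 + z)) (.ofReal t) ≤ .ofReal a ∧
  Real.exp a - 1 - a ≤ t ∧
  Kt0 (.ofReal x) (.ofReal z) (.ofReal (1 + z)) (.ofReal t) ≤ .ofReal k ∧
  .ofReal k ≤ T0 (.ofReal x) (.ofReal z) + .ofReal (x ^ 4 * z ^ 8 / 4)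

theorem D_mono {x x1 : ℝ≥0∞} (h : x ≤ x1) : D x ≤ D x1 := by
  unfold D
  exact ENNReal.tsum_le_tsum fun n => mul_le_mul_left (ENNReal.div_le_div_right (pow_le_pow_left' h n) _) _

theorem T0_mono_right {x z z1 : ℝ≥0∞} (h : z ≤ z1) : T0 x z ≤ T0 x z1 := by
  unfold T0
  exact ENNReal.tsum_le_tsum fun n => mul_le_mul_right
    (ENNReal.tsum_le_tsum fun G => pow_le_pow_left' h _) _

theorem graphU (hS : ShrU) {x z t a k : ℝ} (hx : 0 < x) (hz : 1 ≤ z) (ht : 0 ≤ t) (ha : 0 ≤ a)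
    (hk : 0 ≤ k)
    (h1 : At (.ofReal x) (.ofReal z) (.ofReal (1 + z)) (.ofReal t) ≤ .ofReal a)
    (h2 : Real.exp a - 1 - a ≤ t)
    (h3 : Kt (.ofReal x) (.ofReal z) (.ofReal (1 + z)) (.ofReal t) ≤ .ofReal k)
    (h4 : x * z ^ 2 / (1 + x * z) + k + 3 / 2 * x ^ 6 * z ^ 11 ≤ Real.log ((1 + z) / 2)) :
    D (.ofReal x) ≤ .ofReal z := by
  have hv : 0 ≤ 3 / 2 * x ^ 6 * z ^ 11 := by positivity
  refine netU hx hz (add_nonneg hk hv) ?_ (by linarith)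
  rw [ENNReal.ofReal_add hk hv]
  exact (hS hx hz ht ha h1 h2).trans (add_le_add_left h3 _)

theorem graphL (hS : ShrL) {x x1 : ℝ} (hx : 0 < x) (hx1 : x < x1) (hD : D (.ofReal x1) ≠ ⊤) :
    ∃ z t a k : ℝ, 1 ≤ z ∧ 0 ≤ t ∧ 0 ≤ a ∧ 0 ≤ k ∧ D (.ofReal x) = .ofReal z ∧
      At (.ofReal x) (.ofReal z) (.ofReal (1 + z)) (.ofReal t) ≤ .ofReal a ∧
      Real.exp a - 1 - a ≤ t ∧
      Kt0 (.ofReal x) (.ofReal z) (.ofReal (1 + z)) (.ofReal t) ≤ .ofReal k ∧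
      x * z ^ 2 / (1 + x * z) + k ≤ Real.log ((1 + z) / 2) + x ^ 4 * z ^ 8 / 4 := by
  have hle : D (.ofReal x) ≤ D (.ofReal x1) := D_mono (ENNReal.ofReal_le_ofReal hx1.le)
  have hDx : D (.ofReal x) ≠ ⊤ := ne_top_of_le_ne_top hD hle
  obtain ⟨z, hz1, hz, hpos, hT⟩ := netL hx hDx
  obtain ⟨z1, hz11, hz1', -, hT1⟩ := netL (hx.trans hx1) hD
  have hzz : z ≤ z1 := by
    have := hle
    rw [hz, hz1'] at this
    exact (ENNReal.ofReal_le_ofReal_iff (by linarith)).1 this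
  have hfin : T0 (.ofReal x1) (.ofReal z) ≠ ⊤ := by
    refine ne_top_of_le_ne_top ?_ (T0_mono_right (ENNReal.ofReal_le_ofReal hzz))
    rw [hT1]
    exact ENNReal.ofReal_ne_top
  obtain ⟨t, a, k, ht, ha, hk, h1, h2, h3, h4⟩ := hS hx hx1 hz1 hfin
  refine ⟨z, t, a, k, hz1, ht, ha, hk, hz, h1, h2, h3, ?_⟩
  have hv : 0 ≤ x ^ 4 * z ^ 8 / 4 := by positivity
  rw [hT, ← ENNReal.ofReal_add hpos hv, ENNReal.ofReal_le_ofReal_iff (add_nonneg hpos hv)] at h4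
  linarith

end K5
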