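import Pool.Agent.Lib.K5.MkSys
import Pool.Agent.Lib.K5.BMain
import Pool.Agent.Lib.K5.GraphUL
import Pool.Agent.Lib.K5.GFin
import Pool.Agent.Lib.K5A.Out
import Pool.Agent.Lib.K5M.MapS
import Pool.Agent.Lib.K5M.DMap
import Pool.Agent.Lib.K5M.DSup
import Pool.Agent.Lib.P512.Final

/-!
# K5.Final: the growth constant of the graphs without a `K_5` minor lies in `[27.79, 27.80]`
-/

namespace K5

open Finset Filter Topology
open scoped ENNReal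

/-- The bounds for the limit of `(g_n / n!)^(1/n)`. -/
theorem growth {γ : ℝ}
    (hγ : Tendsto (fun n : ℕ => ((P512.g n : ℝ) / n.factorial) ^ (1 / (n : ℝ))) atTop (𝓝 γ)) :
    2779 / 100 ≤ γ ∧ γ ≤ 278 / 10 := by
  have hD : ∀ x Y T : ℝ≥0∞, K5M.Dmap x Y T = (fun x Y T k => K5M.S x Y T k) x Y T 2 :=
    fun x Y T => (K5M.S_two x Y T).symm
  have hN : ∀ x Y T : ℝ≥0∞, 1 + 3 * K5M.Dmap x Y T + K5M.S x Y T 3 =
      1 + 3 * (fun x Y T k => K5M.S x Y T k) x Y T 2 + (fun x Y T k => K5M.S x Y T k) x Y T 3 :=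
    fun x Y T => by
      show 1 + 3 * K5M.Dmap x Y T + K5M.S x Y T 3 = 1 + 3 * K5M.S x Y T 2 + K5M.S x Y T 3
      rw [K5M.S_two]
  exact bounds_of (γ := γ) K5M.Dmap (fun x Y T => 1 + 3 * K5M.Dmap x Y T + K5M.S x Y T 3)
    (fun h0 h1 h2 h3 h4 h5 h6 h7 h8 => graphU isShrU h0 h1 h2 h3 h4 h5 h6 h7 h8)
    (fun h0 h1 h2 => graphL isShrL h0 h1 h2)
    Kt_le'
    (fun h0 h1 h2 => blockU_main hγ h0 h1 h2)
    (fun h0 h1 h2 => blockL_main hγ h0 h1 h2)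
    (fun x Y T h0 hx _ _ _ => K5M.map_eq x Y T h0 hx)
    (fun x Y T z S hx _ _ hz hS h => K5M.map_sup x Y T z S hx hz hS h)
    (K5A.algAS K5M.mapIn_S hD hN)
    (K5A.algAR K5M.mapIn_S hD hN)
    (K5A.algAX K5M.mapIn_S hD hN)

end K5
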