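import Pool.Agent.Lib.K5.FragU

/-!
# K5.FragM: maximal fragments

1. `exists_maxFrag`: finitely many subsets of `U`.
2. `MaxFrag.disjoint`: if two different maximal fragments met, their union would be a fragment (`Frag.union`) containing both.
3. `MaxFrag.no_edge`: let `I ≠ J` be maximal, `i ∈ I`, `j ∈ J`, `i ~ j`. Then `j ∈ bd I`, `i ∈ bd J`, `bd I = {j, q}`, `bd J = {i, r}`. The outer neighbours of `I ∪ J` are among
   `{q, r}`; there are at least two (`Net.two_le_bd`), so `bd (I ∪ J) = {q, r}` has two elements and `q, r ∉ I ∪ J`. If it is not `{s, t}`, `I ∪ J` is a fragment, contradiction to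
   maximality. If it is `{s, t}` then `I ∪ J = U` (`Conn G U`), contradiction to `union_ne`.
4. `MaxFrag.bd_inj`: if `bd I = bd J` then `bd (I ∪ J) ⊆ bd I`, at least two elements, so `I ∪ J` is a fragment.
5. `MaxFrag.bd_sub`: `bd I ⊆ coreV ∪ {s, t}`: a vertex `w ∈ bd I`, `w ∈ U`, that lies in a fragment lies in a maximal fragment `J`; `J ≠ I` (`w ∉ I`) contradicts 3.
6. `mem_maxFrag`: a vertex of `U` not in `coreV` lies in a (unique) maximal fragment.
-/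

namespace K5

open Finset

theorem exists_maxFrag {s t : ℕ} {U : Finset ℕ} {G : Gr} {I : Finset ℕ} (hI : Frag s t U G I) :
    ∃ J, MaxFrag s t U G J ∧ I ⊆ J := by
  classical
  obtain ⟨J, hJ, hmax⟩ := Finset.exists_max_image
    (U.powerset.filter (fun J => Frag s t U G J ∧ I ⊆ J)) Finset.card
    ⟨I, Finset.mem_filter.mpr ⟨Finset.mem_powerset.mpr hI.sub, hI, Finset.Subset.refl I⟩⟩
  rw [Finset.mem_filter] at hJ
  refine ⟨J, ⟨hJ.2.1, fun K hK hJK => ?_⟩, hJ.2.2⟩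
  exact (Finset.eq_of_subset_of_card_le hJK (hmax K (Finset.mem_filter.mpr
    ⟨Finset.mem_powerset.mpr hK.sub, hK, hJ.2.2.trans hJK⟩))).symm

theorem MaxFrag.disjoint {s t : ℕ} {U : Finset ℕ} {G : Gr} (h : HPiece s t U G) {I J : Finset ℕ}
    (hI : MaxFrag s t U G I) (hJ : MaxFrag s t U G J) (hne : I ≠ J) : Disjoint I J := by
  by_contra hd
  rw [Finset.not_disjoint_iff_nonempty_inter] at hd
  have hF := Frag.union h hI.1 hJ.1 hd
  have h1 := hI.2 _ hF Finset.subset_union_left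
  have h2 := hJ.2 _ hF Finset.subset_union_right
  exact hne (h1.symm.trans h2)

theorem FragMAux.bd_ne {s t : ℕ} {U : Finset ℕ} {G : Gr} (h : HPiece s t U G) {X : Finset ℕ}
    (hX : X ⊆ U) (hne : X.Nonempty) (hXU : X ≠ U) : bd G (St s t U) X ≠ {s, t} := by
  intro e
  obtain ⟨u, hu, v, hv, hvP, ha⟩ := h.1.conn.2 X hX hne hXU
  have : v ∈ bd G (St s t U) X :=
    mem_bd.mpr ⟨⟨FragUAux.mem_St.mpr (Or.inr (Or.inr hv)), hvP⟩, u, hu, ha⟩
  rw [e, Finset.mem_insert, Finset.mem_singleton] at this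
  rcases this with e | e
  · exact h.1.net.hs (e ▸ hv)
  · exact h.1.net.ht (e ▸ hv)

theorem MaxFrag.no_edge {s t : ℕ} {U : Finset ℕ} {G : Gr} (h : HPiece s t U G) {I J : Finset ℕ}
    (hI : MaxFrag s t U G I) (hJ : MaxFrag s t U G J) (hne : I ≠ J) {i j : ℕ} (hi : i ∈ I)
    (hj : j ∈ J) : ¬ G.Adj i j := by
  intro ha
  have hd := MaxFrag.disjoint h hI hJ hne
  have hjI : j ∉ I := fun e => Finset.disjoint_left.mp hd e hj
  have hiJ : i ∉ J := fun e => Finset.disjoint_left.mp hd hi e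
  have hjb : j ∈ bd G (St s t U) I :=
    mem_bd.mpr ⟨⟨FragUAux.mem_St.mpr (Or.inr (Or.inr (hJ.1.sub hj))), hjI⟩, i, hi, ha⟩
  have hib : i ∈ bd G (St s t U) J :=
    mem_bd.mpr ⟨⟨FragUAux.mem_St.mpr (Or.inr (Or.inr (hI.1.sub hi))), hiJ⟩, j, hj, ha.symm⟩
  have hsub : bd G (St s t U) (I ∪ J) ⊆
      (bd G (St s t U) I).erase j ∪ (bd G (St s t U) J).erase i := by
    intro w hw
    obtain ⟨⟨hW, hwIJ⟩, k, hk, hak⟩ := mem_bd.mp hw
    rw [Finset.mem_union, not_or] at hwIJ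
    rw [Finset.mem_union, Finset.mem_erase, Finset.mem_erase]
    rcases Finset.mem_union.mp hk with hk | hk
    · exact Or.inl ⟨fun e => hwIJ.2 (e ▸ hj), mem_bd.mpr ⟨⟨hW, hwIJ.1⟩, k, hk, hak⟩⟩
    · exact Or.inr ⟨fun e => hwIJ.1 (e ▸ hi), mem_bd.mpr ⟨⟨hW, hwIJ.2⟩, k, hk, hak⟩⟩
  have hc := (Finset.card_le_card hsub).trans (Finset.card_union_le _ _)
  rw [Finset.card_erase_of_mem hjb, Finset.card_erase_of_mem hib, hI.1.card, hJ.1.card] at hc
  have hU : I ∪ J ⊆ U := Finset.union_subset hI.1.sub hJ.1.sub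
  have hN : (I ∪ J).Nonempty := hI.1.ne.mono Finset.subset_union_left
  have h2 := h.1.net.two_le_bd hU hN
  have hF : Frag s t U G (I ∪ J) :=
    ⟨hU, hN, by omega, FragMAux.bd_ne h hU hN (union_ne h hI.1 hJ.1)⟩
  have h3 := hI.2 _ hF Finset.subset_union_left
  exact hjI (h3 ▸ Finset.mem_union_right I hj)

theorem MaxFrag.bd_inj {s t : ℕ} {U : Finset ℕ} {G : Gr} (h : HPiece s t U G) {I J : Finset ℕ}
    (hI : MaxFrag s t U G I) (hJ : MaxFrag s t U G J)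
    (hb : bd G (St s t U) I = bd G (St s t U) J) : I = J := by
  have hsub : bd G (St s t U) (I ∪ J) ⊆ bd G (St s t U) I := by
    intro w hw
    obtain ⟨⟨hW, hwIJ⟩, k, hk, hak⟩ := mem_bd.mp hw
    rw [Finset.mem_union, not_or] at hwIJ
    rcases Finset.mem_union.mp hk with hk | hk
    · exact mem_bd.mpr ⟨⟨hW, hwIJ.1⟩, k, hk, hak⟩
    · rw [hb]
      exact mem_bd.mpr ⟨⟨hW, hwIJ.2⟩, k, hk, hak⟩
  have hc := Finset.card_le_card hsub
  rw [hI.1.card] at hc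
  have hU : I ∪ J ⊆ U := Finset.union_subset hI.1.sub hJ.1.sub
  have hN : (I ∪ J).Nonempty := hI.1.ne.mono Finset.subset_union_left
  have h2 := h.1.net.two_le_bd hU hN
  have hF : Frag s t U G (I ∪ J) :=
    ⟨hU, hN, by omega, FragMAux.bd_ne h hU hN (union_ne h hI.1 hJ.1)⟩
  exact (hI.2 _ hF Finset.subset_union_left).symm.trans (hJ.2 _ hF Finset.subset_union_right)

theorem mem_maxFrag {s t : ℕ} {U : Finset ℕ} {G : Gr} {w : ℕ} (hw : w ∈ U)
    (hc : w ∉ coreV s t U G) : ∃ I, MaxFrag s t U G I ∧ w ∈ I := by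
  classical
  unfold coreV at hc
  rw [Finset.mem_filter] at hc
  have : ∃ I, Frag s t U G I ∧ w ∈ I := by
    by_contra hcon
    exact hc ⟨hw, fun I hI hwI => hcon ⟨I, hI, hwI⟩⟩
  obtain ⟨I, hI, hwI⟩ := this
  obtain ⟨J, hJ, hIJ⟩ := exists_maxFrag hI
  exact ⟨J, hJ, hIJ hwI⟩

theorem MaxFrag.bd_sub {s t : ℕ} {U : Finset ℕ} {G : Gr} (h : HPiece s t U G) {I : Finset ℕ}
    (hI : MaxFrag s t U G I) : bd G (St s t U) I ⊆ St s t (coreV s t U G) := by
  intro w hw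
  obtain ⟨⟨hW, hwI⟩, i, hi, ha⟩ := mem_bd.mp hw
  rw [FragUAux.mem_St] at hW ⊢
  rcases hW with e | e | hwU
  · exact Or.inl e
  · exact Or.inr (Or.inl e)
  · refine Or.inr (Or.inr ?_)
    by_contra hc
    obtain ⟨J, hJ, hwJ⟩ := mem_maxFrag hwU hc
    exact MaxFrag.no_edge h hI hJ (fun e => hwI (e ▸ hwJ)) hi hwJ ha

end K5
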