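import Pool.Agent.Lib.K5.Bd

/-!
# K5.FragU: two fragments that meet

Notation: `W = St s t U`, `N = G - st`; for `x, y ∈ U ∪ ...` other than the pair `st`, `N` and `G` have the same edges.
`HPiece` says: `G` is a network, `G` is connected on `U`, and for every `c ∈ U` the graph `N` is connected on `W \ c` (`¬ Series`).

1. `union_ne`: if `I, J ⊆ U` are fragments with `I ∪ J = U` then contradiction.
   `bd I ⊆ (J \ I) ∪ {s, t}` and `bd J ⊆ (I \ J) ∪ {s, t}`. The poles `s` and `t` have neighbours in `U` (`Net.two_le_bd` for `I := {..}` is not needed: cut form of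
   `Conn N (W \ c)` with `P = {s}`; `U` is not empty). So `s ∈ bd I ∪ bd J`, `t ∈ bd I ∪ bd J`. As `bd I ≠ {s, t} ≠ bd J` have two elements each: one of them contains `s` and
   not `t`, the other contains `t` and not `s` (if `s, t ∈ bd I` then `bd I = {s, t}`). Say `bd I = {s, p}`, `bd J = {t, q}`, with `p, q ∈ U` (else `bd I = {s, t}`), so
   `p ∈ J \ I` and `q ∈ I \ J`. Put `P = {s} ∪ (I \ J) \ {q}`. In `N - q` nothing leaves `P`: the neighbours of `s` in `N` are in `U`, not in `J` (`s ∉ bd J`), so in `I \ J`;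
   a vertex `x ∈ I \ J`, `x ≠ q`, has no neighbour in `J` (it would be in `bd J = {t, q}`), not `t` (`t ∉ bd I`), so its neighbours are in `I \ J` or `s`.
   `q ∈ U`, `s ∈ P`, `t ∉ P`: contradiction to `Conn N (W \ q)`.
2. `Frag.union`: `|bd (I ∪ J)| + |bd (I ∩ J)| ≤ 4` and both are at least 2, so `|bd (I ∪ J)| = 2`. If `bd (I ∪ J) = {s, t}` then nothing leaves `I ∪ J` inside `U`, and
   `Conn G U` gives `I ∪ J = U`: contradiction to 1.
-/

namespace K5

open Finset

namespace FragUAux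

theorem conn_del {s t : ℕ} {U : Finset ℕ} {G : Gr} (h : HPiece s t U G) {c : ℕ} (hc : c ∈ U) :
    P512.Conn (G.deleteEdges {s(s, t)}) ((St s t U).erase c) := by
  by_contra hcon
  exact h.2 ⟨h.1, c, hc, hcon⟩

theorem del_adj {s t : ℕ} {G : Gr} {a b : ℕ} :
    (G.deleteEdges {s(s, t)}).Adj a b ↔ G.Adj a b ∧ s(a, b) ≠ s(s, t) := by
  rw [SimpleGraph.deleteEdges_adj, Set.mem_singleton_iff]

theorem mem_St {s t : ℕ} {U : Finset ℕ} {x : ℕ} : x ∈ St s t U ↔ x = s ∨ x = t ∨ x ∈ U := by
  simp [St]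

theorem pole_nb {s t : ℕ} {U : Finset ℕ} {G : Gr} (h : HPiece s t U G) :
    (∃ v ∈ U, G.Adj v s) ∧ (∃ v ∈ U, G.Adj v t) := by
  obtain ⟨c, hc⟩ := h.1.conn.1
  have hcs : c ≠ s := fun e => h.1.net.hs (e ▸ hc)
  have hct : c ≠ t := fun e => h.1.net.ht (e ▸ hc)
  have hst := h.1.net.ne
  have hC := conn_del h hc
  constructor
  · obtain ⟨u, hu, v, hv, hvP, ha⟩ := hC.2 {s} (by
      intro x hx
      rw [Finset.mem_singleton] at hx
      subst hx
      exact Finset.mem_erase.mpr ⟨hcs.symm, mem_St.mpr (Or.inl rfl)⟩) (Finset.singleton_nonempty _)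
      (by
        intro e
        have : t ∈ ({s} : Finset ℕ) := by
          rw [e]
          exact Finset.mem_erase.mpr ⟨hct.symm, mem_St.mpr (Or.inr (Or.inl rfl))⟩
        rw [Finset.mem_singleton] at this
        exact hst this.symm)
    rw [Finset.mem_singleton] at hu hvP
    subst hu
    rw [del_adj] at ha
    rw [Finset.mem_erase, mem_St] at hv
    rcases hv.2 with e | e | e
    · exact absurd e hvP
    · exact absurd (by rw [e]) ha.2
    · exact ⟨v, e, ha.1.symm⟩
  · obtain ⟨u, hu, v, hv, hvP, ha⟩ := hC.2 {t} (by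
      intro x hx
      rw [Finset.mem_singleton] at hx
      subst hx
      exact Finset.mem_erase.mpr ⟨hct.symm, mem_St.mpr (Or.inr (Or.inl rfl))⟩)
      (Finset.singleton_nonempty _)
      (by
        intro e
        have : s ∈ ({t} : Finset ℕ) := by
          rw [e]
          exact Finset.mem_erase.mpr ⟨hcs.symm, mem_St.mpr (Or.inl rfl)⟩
        rw [Finset.mem_singleton] at this
        exact hst this)
    rw [Finset.mem_singleton] at hu hvP
    subst hu
    rw [del_adj] at ha
    rw [Finset.mem_erase, mem_St] at hv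
    rcases hv.2 with e | e | e
    · exact absurd (by rw [e]; exact Sym2.eq_swap) ha.2
    · exact absurd e hvP
    · exact ⟨v, e, ha.1.symm⟩

theorem bd_not_both {s t : ℕ} {U : Finset ℕ} {G : Gr} (h : HPiece s t U G) {I : Finset ℕ}
    (hI : Frag s t U G I) (hs : s ∈ bd G (St s t U) I) (ht : t ∈ bd G (St s t U) I) : False := by
  apply hI.bd_ne
  symm
  apply Finset.eq_of_subset_of_card_le
  · intro x hx
    rw [Finset.mem_insert, Finset.mem_singleton] at hx
    rcases hx with rfl | rfl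
    · exact hs
    · exact ht
  · rw [hI.card, Finset.card_pair h.1.net.ne]

theorem key {s t : ℕ} {U : Finset ℕ} {G : Gr} (h : HPiece s t U G) {I J : Finset ℕ}
    (hI : Frag s t U G I) (hJ : Frag s t U G J) (hU : I ∪ J = U)
    (hs : s ∈ bd G (St s t U) I) : False := by
  have htI : t ∉ bd G (St s t U) I := fun ht => bd_not_both h hI hs ht
  have hsU := h.1.net.hs
  have htU := h.1.net.ht
  have hst := h.1.net.ne
  have htJ : t ∈ bd G (St s t U) J := by
    obtain ⟨v, hv, ha⟩ := (pole_nb h).2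
    rw [← hU, Finset.mem_union] at hv
    rcases hv with hv | hv
    · exact absurd (mem_bd.mpr ⟨⟨mem_St.mpr (Or.inr (Or.inl rfl)), fun e => htU (hI.sub e)⟩,
        v, hv, ha⟩) htI
    · exact mem_bd.mpr ⟨⟨mem_St.mpr (Or.inr (Or.inl rfl)), fun e => htU (hJ.sub e)⟩, v, hv, ha⟩
  have hsJ : s ∉ bd G (St s t U) J := fun e => bd_not_both h hJ e htJ
  obtain ⟨q, hq, hqt⟩ : ∃ q ∈ bd G (St s t U) J, q ≠ t := by
    by_contra hcon
    push Not at hcon
    have : bd G (St s t U) J ⊆ {t} := fun x hx => Finset.mem_singleton.mpr (hcon x hx)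
    have := Finset.card_le_card this
    rw [hJ.card, Finset.card_singleton] at this
    omega
  have hbJ : ∀ x ∈ bd G (St s t U) J, x = t ∨ x = q := by
    have : ({t, q} : Finset ℕ) = bd G (St s t U) J := by
      apply Finset.eq_of_subset_of_card_le
      · intro x hx
        rw [Finset.mem_insert, Finset.mem_singleton] at hx
        rcases hx with rfl | rfl
        · exact htJ
        · exact hq
      · rw [hJ.card, Finset.card_pair hqt.symm]
    intro x hx
    rw [← this, Finset.mem_insert, Finset.mem_singleton] at hx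
    exact hx
  have hq2 := mem_bd.mp hq
  have hqs : q ≠ s := fun e => hsJ (e ▸ hq)
  have hqU : q ∈ U := by
    rcases mem_St.mp hq2.1.1 with e | e | e
    · exact absurd e hqs
    · exact absurd e hqt
    · exact e
  obtain ⟨u, hu, v, hv, hvP, ha⟩ := (conn_del h hqU).2 (insert s ((I \ J).erase q)) (by
    intro x hx
    rw [Finset.mem_insert, Finset.mem_erase, Finset.mem_sdiff] at hx
    rw [Finset.mem_erase, mem_St]
    rcases hx with rfl | hx
    · exact ⟨hqs.symm, Or.inl rfl⟩
    · exact ⟨hx.1, Or.inr (Or.inr (hI.sub hx.2.1))⟩) (Finset.insert_nonempty _ _) (by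
    intro e
    have : t ∈ insert s ((I \ J).erase q) := by
      rw [e, Finset.mem_erase, mem_St]
      exact ⟨hqt.symm, Or.inr (Or.inl rfl)⟩
    rw [Finset.mem_insert, Finset.mem_erase, Finset.mem_sdiff] at this
    rcases this with e | e
    · exact hst e.symm
    · exact htU (hI.sub e.2.1))
  rw [del_adj] at ha
  rw [Finset.mem_erase, mem_St] at hv
  rw [Finset.mem_insert, Finset.mem_erase, Finset.mem_sdiff, not_or] at hvP
  rw [Finset.mem_insert, Finset.mem_erase, Finset.mem_sdiff] at hu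
  have hvI : v ∈ U → v ∉ J → False := by
    intro hvU hvJ
    have hvI : v ∈ I := by
      rw [← hU, Finset.mem_union] at hvU
      exact hvU.resolve_right hvJ
    exact hvP.2 ⟨hv.1, hvI, hvJ⟩
  rcases hu with rfl | ⟨huq, huI, huJ⟩
  · rcases hv.2 with e | e | hvU
    · exact hvP.1 e
    · exact ha.2 (by rw [e])
    · refine hvI hvU (fun hvJ => hsJ (mem_bd.mpr ⟨⟨mem_St.mpr (Or.inl rfl),
        fun e => hsU (hJ.sub e)⟩, v, hvJ, ha.1.symm⟩))
  · rcases hv.2 with e | e | hvU
    · exact hvP.1 e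
    · subst e
      exact htI (mem_bd.mpr ⟨⟨mem_St.mpr (Or.inr (Or.inl rfl)), fun e => htU (hI.sub e)⟩,
        u, huI, ha.1⟩)
    · refine hvI hvU (fun hvJ => ?_)
      rcases hbJ u (mem_bd.mpr ⟨⟨mem_St.mpr (Or.inr (Or.inr (hI.sub huI))), huJ⟩,
        v, hvJ, ha.1.symm⟩) with e | e
      · exact htU (e ▸ hI.sub huI)
      · exact huq e

end FragUAux

theorem union_ne {s t : ℕ} {U : Finset ℕ} {G : Gr} (h : HPiece s t U G) {I J : Finset ℕ}
    (hI : Frag s t U G I) (hJ : Frag s t U G J) : I ∪ J ≠ U := by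
  intro hU
  obtain ⟨v, hv, ha⟩ := (FragUAux.pole_nb h).1
  rw [← hU, Finset.mem_union] at hv
  have hsW : s ∈ St s t U := FragUAux.mem_St.mpr (Or.inl rfl)
  rcases hv with hv | hv
  · exact FragUAux.key h hI hJ hU
      (mem_bd.mpr ⟨⟨hsW, fun e => h.1.net.hs (hI.sub e)⟩, v, hv, ha⟩)
  · exact FragUAux.key h hJ hI (by rw [Finset.union_comm]; exact hU)
      (mem_bd.mpr ⟨⟨hsW, fun e => h.1.net.hs (hJ.sub e)⟩, v, hv, ha⟩)

theorem Frag.union {s t : ℕ} {U : Finset ℕ} {G : Gr} (h : HPiece s t U G) {I J : Finset ℕ}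
    (hI : Frag s t U G I) (hJ : Frag s t U G J) (hne : (I ∩ J).Nonempty) :
    Frag s t U G (I ∪ J) := by
  have hsub : I ∪ J ⊆ U := Finset.union_subset hI.sub hJ.sub
  have h1 := bd_submod G (St s t U) I J
  rw [hI.card, hJ.card] at h1
  have h2 : 2 ≤ (bd G (St s t U) (I ∪ J)).card :=
    h.1.net.two_le_bd hsub (hI.ne.mono Finset.subset_union_left)
  have h3 : 2 ≤ (bd G (St s t U) (I ∩ J)).card :=
    h.1.net.two_le_bd (Finset.inter_subset_left.trans hI.sub) hne
  refine ⟨hsub, hI.ne.mono Finset.subset_union_left, by omega, fun e => ?_⟩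
  obtain ⟨u, hu, v, hv, hvP, ha⟩ := h.1.conn.2 (I ∪ J) hsub
    (hI.ne.mono Finset.subset_union_left) (union_ne h hI hJ)
  have : v ∈ bd G (St s t U) (I ∪ J) :=
    mem_bd.mpr ⟨⟨FragUAux.mem_St.mpr (Or.inr (Or.inr hv)), hvP⟩, u, hu, ha⟩
  rw [e, Finset.mem_insert, Finset.mem_singleton] at this
  rcases this with e | e
  · exact h.1.net.hs (e ▸ hv)
  · exact h.1.net.ht (e ▸ hv)

end K5
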