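import Pool.Agent.Lib.K5.Defs3
import Pool.Agent.Lib.K5N.Sys

/-!
# K5.KSer : the series `Kt`, `Kt0`, `At` are values of families of coefficients
-/

namespace K5

open Finset
open scoped ENNReal

noncomputable section

namespace KSer

/-- the coefficients of a weighted sum -/
def cf {P : ℕ → Type} (e1 e2 e3 : ∀ n, P n → ℕ) (n i j l : ℕ) : ℝ≥0∞ :=
  open Classical in
  (n.factorial : ℝ≥0∞)⁻¹ * ∑' p : P n, if e1 n p = i ∧ e2 n p = j ∧ e3 n p = l then 1 else 0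

theorem ser_cf {P : ℕ → Type} (e1 e2 e3 : ∀ n, P n → ℕ) (x z w t : ℝ≥0∞) :
    ∑' n : ℕ, x ^ n / (n.factorial : ℝ≥0∞) *
      ∑' p : P n, t ^ e3 n p * w ^ e2 n p * z ^ e1 n p =
    K5N.ser (cf e1 e2 e3) x z w t := by
  classical
  unfold K5N.ser cf
  rw [ENNReal.tsum_prod (f := fun (n : ℕ) (m : ℕ × ℕ × ℕ) =>
    (n.factorial : ℝ≥0∞)⁻¹ * (∑' p : P n, if e1 n p = m.1 ∧ e2 n p = m.2.1 ∧ e3 n p = m.2.2
      then 1 else 0) * x ^ n * z ^ m.1 * w ^ m.2.1 * t ^ m.2.2)]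
  refine tsum_congr fun n => ?_
  have h1 : ∀ m : ℕ × ℕ × ℕ, (n.factorial : ℝ≥0∞)⁻¹ *
      (∑' p : P n, if e1 n p = m.1 ∧ e2 n p = m.2.1 ∧ e3 n p = m.2.2 then (1 : ℝ≥0∞) else 0) *
      x ^ n * z ^ m.1 * w ^ m.2.1 * t ^ m.2.2 =
      x ^ n / (n.factorial : ℝ≥0∞) * ∑' p : P n,
        (if e1 n p = m.1 ∧ e2 n p = m.2.1 ∧ e3 n p = m.2.2 then
          t ^ m.2.2 * w ^ m.2.1 * z ^ m.1 else 0) := by
    intro m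
    have h2 : (∑' p : P n, (if e1 n p = m.1 ∧ e2 n p = m.2.1 ∧ e3 n p = m.2.2 then
        t ^ m.2.2 * w ^ m.2.1 * z ^ m.1 else 0)) =
        (∑' p : P n, if e1 n p = m.1 ∧ e2 n p = m.2.1 ∧ e3 n p = m.2.2 then (1 : ℝ≥0∞) else 0) *
          (t ^ m.2.2 * w ^ m.2.1 * z ^ m.1) := by
      rw [← ENNReal.tsum_mul_right]
      refine tsum_congr fun p => ?_
      split_ifs <;> simp
    rw [h2, div_eq_mul_inv]
    ring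
  rw [tsum_congr h1, ENNReal.tsum_mul_left]
  congr 1
  rw [ENNReal.tsum_comm]
  refine tsum_congr fun p => ?_
  rw [tsum_eq_single (e1 n p, e2 n p, e3 n p)]
  · simp
  · rintro ⟨i, j, l⟩ hne
    rw [if_neg]
    rintro ⟨h1, h2, h3⟩
    exact hne (by simp only at h1 h2 h3; rw [h1, h2, h3])

end KSer

/-- coefficients of `Kt` -/
def kc : ℕ → ℕ → ℕ → ℕ → ℝ≥0∞ :=
  KSer.cf (P := fun n => {p : Gr × Finset (Finset ℕ) // PCore {0, 1} (Ico 2 (n + 2)) p.1 ∧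
      ∀ X ∈ p.2, NT p.1 ({0, 1} ∪ Ico 2 (n + 2)) X ∧ X ≠ {0, 1}})
    (fun _ p => {e ∈ p.1.1.edgeSet | ¬ Cov p.1.2 e ∧ e ∉ (clq {0, 1}).edgeSet}.ncard)
    (fun _ p => {e ∈ p.1.1.edgeSet | Cov p.1.2 e ∧ e ∉ (clq {0, 1}).edgeSet}.ncard)
    (fun _ p => p.1.2.card)

/-- coefficients of `Kt0` -/
def kc0 : ℕ → ℕ → ℕ → ℕ → ℝ≥0∞ :=
  KSer.cf (P := fun n => {p : Gr × Finset (Finset ℕ) // PCore {0, 1} (Ico 2 (n + 2)) p.1 ∧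
      ∀ X ∈ p.2, NT p.1 ({0, 1} ∪ Ico 2 (n + 2)) X ∧ ¬ {0, 1} ⊆ X})
    (fun _ p => {e ∈ p.1.1.edgeSet | ¬ Cov p.1.2 e ∧ e ∉ (clq {0, 1}).edgeSet}.ncard)
    (fun _ p => {e ∈ p.1.1.edgeSet | Cov p.1.2 e ∧ e ∉ (clq {0, 1}).edgeSet}.ncard)
    (fun _ p => p.1.2.card)

/-- coefficients of `At` -/
def ac : ℕ → ℕ → ℕ → ℕ → ℝ≥0∞ :=
  KSer.cf (P := fun n => {p : Gr × Finset (Finset ℕ) // PCore {0, 1, 2} (Ico 3 (n + 3)) p.1 ∧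
      ∀ X ∈ p.2, NT p.1 ({0, 1, 2} ∪ Ico 3 (n + 3)) X ∧ X ≠ {0, 1, 2}})
    (fun _ p => {e ∈ p.1.1.edgeSet | ¬ Cov p.1.2 e ∧ e ∉ (clq {0, 1, 2}).edgeSet}.ncard)
    (fun _ p => {e ∈ p.1.1.edgeSet | Cov p.1.2 e ∧ e ∉ (clq {0, 1, 2}).edgeSet}.ncard)
    (fun _ p => p.1.2.card)

theorem Kt_eq_ser (x z w t : ℝ≥0∞) : Kt x z w t = K5N.ser kc x z w t :=
  KSer.ser_cf _ _ _ x z w t

theorem Kt0_eq_ser (x z w t : ℝ≥0∞) : Kt0 x z w t = K5N.ser kc0 x z w t :=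
  KSer.ser_cf _ _ _ x z w t

theorem At_eq_ser (x z w t : ℝ≥0∞) : At x z w t = K5N.ser ac x z w t :=
  KSer.ser_cf _ _ _ x z w t

end

end K5
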