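import Pool.Agent.Lib.K5.KSer
import Pool.Agent.Lib.K5.EDefs
import Pool.Agent.Lib.K5S.Sys2

/-!
# K5.KSer2 : the series `T0`, `Br`, `Dy` are values of families of coefficients
-/

namespace K5

open Finset
open scoped ENNReal

noncomputable section

namespace KSer

/-- the coefficients of a weighted sum with one weight -/
def cf2 {P : ℕ → Type} (e : ∀ n, P n → ℕ) (n i : ℕ) : ℝ≥0∞ :=
  open Classical in
  (n.factorial : ℝ≥0∞)⁻¹ * ∑' p : P n, if e n p = i then 1 else 0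

theorem ser2_cf {P : ℕ → Type} (e : ∀ n, P n → ℕ) (x z : ℝ≥0∞) :
    ∑' n : ℕ, x ^ n / (n.factorial : ℝ≥0∞) * ∑' p : P n, z ^ e n p =
    K5S.ser2 (cf2 e) x z := by
  classical
  unfold K5S.ser2 cf2
  rw [ENNReal.tsum_prod (f := fun (n : ℕ) (m : ℕ) =>
    (n.factorial : ℝ≥0∞)⁻¹ * (∑' p : P n, if e n p = m then 1 else 0) * x ^ n * z ^ m)]
  refine tsum_congr fun n => ?_
  have h1 : ∀ m : ℕ, (n.factorial : ℝ≥0∞)⁻¹ *
      (∑' p : P n, if e n p = m then (1 : ℝ≥0∞) else 0) * x ^ n * z ^ m =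
      x ^ n / (n.factorial : ℝ≥0∞) * ∑' p : P n, (if e n p = m then z ^ m else 0) := by
    intro m
    have h2 : (∑' p : P n, (if e n p = m then z ^ m else 0)) =
        (∑' p : P n, if e n p = m then (1 : ℝ≥0∞) else 0) * z ^ m := by
      rw [← ENNReal.tsum_mul_right]
      refine tsum_congr fun p => ?_
      split_ifs <;> simp
    rw [h2, div_eq_mul_inv]
    ring
  rw [tsum_congr h1, ENNReal.tsum_mul_left]
  congr 1
  rw [ENNReal.tsum_comm]
  refine tsum_congr fun p => ?_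
  rw [tsum_eq_single (e n p)]
  · simp
  · intro i hne
    rw [if_neg]
    exact fun h => hne h.symm

/-- the index type of the networks -/
abbrev NP (n : ℕ) : Type := {p : Gr × Bool // (n = 0 ∧ p = (⊥, true)) ∨
  (n ≠ 0 ∧ Net 0 1 (Ico 2 (n + 2)) p.1)}

/-- the number of edges -/
def ne (n : ℕ) (p : NP n) : ℕ := if n = 0 then 1 else ec s(0, 1) p.1.1 + p.1.2.toNat

theorem ddy_eq (y : ℝ≥0∞) (n : ℕ) : ∑' p : NP n, y ^ ne n p = ddy y n := by
  unfold ddy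
  split_ifs with h
  · subst h
    have hu : ∀ p : NP 0, p = ⟨(⊥, true), Or.inl ⟨rfl, rfl⟩⟩ := by
      rintro ⟨p, hp⟩
      rcases hp with hp | hp
      · exact Subtype.ext hp.2
      · exact absurd rfl hp.1
    rw [tsum_eq_single (⟨(⊥, true), Or.inl ⟨rfl, rfl⟩⟩ : NP 0) (fun p hp => absurd (hu p) hp)]
    simp [ne]
  · let e' : {G : Gr // Net 0 1 (Ico 2 (n + 2)) G} × Bool ≃ NP n :=
      { toFun := fun q => ⟨(q.1.1, q.2), Or.inr ⟨h, q.1.2⟩⟩
        invFun := fun p => (⟨p.1.1, by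
          rcases p.2 with hp | hp
          · exact absurd hp.1 h
          · exact hp.2⟩, p.1.2)
        left_inv := fun q => rfl
        right_inv := fun p => rfl }
    rw [← e'.tsum_eq (fun p : NP n => y ^ ne n p)]
    have h1 : ∀ q : {G : Gr // Net 0 1 (Ico 2 (n + 2)) G} × Bool,
        y ^ ne n (e' q) = y ^ ec s(0, 1) q.1.1 * y ^ q.2.toNat := by
      intro q
      show y ^ ne n ⟨(q.1.1, q.2), _⟩ = _
      unfold ne
      rw [if_neg h, pow_add]
    rw [tsum_congr h1, ENNReal.tsum_prod (f := fun (a : {G : Gr // Net 0 1 (Ico 2 (n + 2)) G})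
      (b : Bool) => y ^ ec s(0, 1) a.1 * y ^ b.toNat)]
    have h2 : ∀ a : {G : Gr // Net 0 1 (Ico 2 (n + 2)) G},
        ∑' b : Bool, y ^ ec s(0, 1) a.1 * y ^ b.toNat = (1 + y) * y ^ ec s(0, 1) a.1 := by
      intro a
      rw [tsum_bool]
      simp only [Bool.toNat_false, Bool.toNat_true, pow_zero, pow_one]
      ring
    rw [tsum_congr h2, ENNReal.tsum_mul_left]
    rfl

end KSer

/-- coefficients of `T0` -/
def tc : ℕ → ℕ → ℝ≥0∞ :=
  KSer.cf2 (P := fun n => {G : Gr // Rtd {0, 1} (Ico 2 (n + 2)) G}) (fun _ G => ecard {0, 1} G.1)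

/-- coefficients of `Br` -/
def rc : ℕ → ℕ → ℝ≥0∞ :=
  KSer.cf2 (P := fun n => {G : Gr // Branch {0, 1, 2} (Ico 3 (n + 3)) G})
    (fun _ G => G.1.edgeSet.ncard)

/-- coefficients of `Dy` -/
def dc : ℕ → ℕ → ℝ≥0∞ := KSer.cf2 (P := KSer.NP) KSer.ne

theorem T0_eq_ser2 (x z : ℝ≥0∞) : T0 x z = K5S.ser2 tc x z := KSer.ser2_cf _ x z

theorem Br_eq_ser2 (x z : ℝ≥0∞) : Br x z = K5S.ser2 rc x z := KSer.ser2_cf _ x z

theorem Dy_eq_ser2 (x y : ℝ≥0∞) : Dy x y = K5S.ser2 dc x y := by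
  unfold dc
  rw [← KSer.ser2_cf]
  unfold Dy egf
  refine tsum_congr fun n => ?_
  rw [KSer.ddy_eq]

/-- A triangle is not 3-connected. -/
theorem ac_zero (j k l : ℕ) : ac 0 j k l = 0 := by
  unfold ac KSer.cf
  have : IsEmpty {p : Gr × Finset (Finset ℕ) // PCore {0, 1, 2} (Ico 3 (0 + 3)) p.1 ∧
      ∀ X ∈ p.2, NT p.1 ({0, 1, 2} ∪ Ico 3 (0 + 3)) X ∧ X ≠ {0, 1, 2}} := by
    constructor
    rintro ⟨p, hp, -⟩
    have h := hp.rtd.three.1
    have h2 : (({0, 1, 2} : Finset ℕ) ∪ Ico 3 (0 + 3)).card = 3 := by decide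
    omega
  rw [tsum_empty, mul_zero]

end

end K5
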