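import Pool.Agent.Lib.K5.Mac

/-!
# K5.KuArc: an arc of the cyclic order between two faces

PROOF.  By `Link.all` (and `surj`) `i = φ p`, `j = φ q` with `p, q ≤ m`, `p /= q`; the statement is
symmetric in `i`, `j`, so let `p < q`.  Put `A = {u k | p < k ≤ q}` (image of `Ioc p q` under `u`).
It is a nonempty subset of `X` and does not contain `u p`, which is in `X`.  For an index `l` which is
not one of the `φ`'s all `f l (u k)` vanish (`all`), so the sum is 0 and `l /= i, j`.  For `l = φ c`,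
`c ≤ m`: by `inc` and `inj` the sum over `A` (in `ZMod 2`, nonzero values are 1) is the parity of the
number of `k` with `p < k ≤ q` and (`k = c` or `k = c + 1` or (`c = m` and `k = 0`)); the last
alternative cannot occur since `k > p ≥ 0`.  So it is `[p < c ≤ q] + [p < c + 1 ≤ q]` (for `c = m`
the second term is `[p < m + 1 ≤ q] = 0`, as `q ≤ m`), which is odd exactly if `c = p` or `c = q`
(`c = p`: 0 + 1; `c = q`: 1 + 0; strictly between: 1 + 1; otherwise 0).
-/

namespace K5

open Finset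

namespace KuArcAux

theorem z2 {x : ZMod 2} (h : x ≠ 0) : x = 1 := by
  revert h
  revert x
  decide

theorem arc_lt {n : ℕ} {f : Fin n → ℕ → ZMod 2} {X : Finset ℕ} {m : ℕ} {u : ℕ → ℕ}
    {φ : ℕ → Fin n} (hL : Link n f X m u φ) {p q : ℕ} (hpq : p < q) (hq : q ≤ m) :
    ∃ A ⊆ X, A.Nonempty ∧ A ≠ X ∧ ∀ l, (∑ x ∈ A, f l x ≠ 0 ↔ (l = φ p ∨ l = φ q)) := by
  classical
  refine ⟨(Finset.Ioc p q).image u, ?_, ?_, ?_, ?_⟩
  · intro x hx
    obtain ⟨k, hk, rfl⟩ := Finset.mem_image.1 hx
    exact hL.mem k (le_trans (Finset.mem_Ioc.1 hk).2 hq)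
  · exact ⟨u q, Finset.mem_image_of_mem _ (Finset.mem_Ioc.2 ⟨hpq, le_rfl⟩)⟩
  · intro h
    have hp : u p ∈ (Finset.Ioc p q).image u := by
      rw [h]
      exact hL.mem p (by omega)
    obtain ⟨k, hk, hk'⟩ := Finset.mem_image.1 hp
    have hk1 := Finset.mem_Ioc.1 hk
    have := hL.inj k p (by omega) (by omega) hk'
    omega
  · intro l
    rw [Finset.sum_image (fun a ha b hb h => hL.inj a b (by
      have := Finset.mem_Ioc.1 ha; omega) (by have := Finset.mem_Ioc.1 hb; omega) h)]
    by_cases hl : ∃ c, c ≤ m ∧ l = φ c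
    · obtain ⟨c, hc, rfl⟩ := hl
      have hval : ∀ k ∈ Finset.Ioc p q, f (φ c) (u k) =
          (if k = c then 1 else 0) + (if k = c + 1 then 1 else 0) := by
        intro k hk
        have hk1 := Finset.mem_Ioc.1 hk
        by_cases h1 : k = c
        · rw [if_pos h1, if_neg (by omega), add_zero]
          exact z2 ((hL.inc c k hc (by omega)).2 (Or.inl h1.symm))
        · by_cases h2 : k = c + 1
          · rw [if_neg h1, if_pos h2, zero_add]
            exact z2 ((hL.inc c k hc (by omega)).2 (Or.inr (Or.inl h2.symm)))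
          · rw [if_neg h1, if_neg h2, add_zero]
            by_contra h0
            rcases (hL.inc c k hc (by omega)).1 h0 with h | h | h
            · exact h1 h.symm
            · exact h2 h.symm
            · omega
      rw [Finset.sum_congr rfl hval, Finset.sum_add_distrib, Finset.sum_ite_eq', Finset.sum_ite_eq']
      have hφ : ∀ d, d ≤ m → (φ c = φ d ↔ c = d) := fun d hd =>
        ⟨fun h => hL.finj c d hc hd h, fun h => by rw [h]⟩
      rw [hφ p (by omega), hφ q hq]
      simp only [Finset.mem_Ioc]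
      by_cases h1 : c = p
      · rw [if_neg (by omega), if_pos (by omega)]
        simp [h1]
      · by_cases h2 : c = q
        · rw [if_pos (by omega), if_neg (by omega)]
          simp [h2]
        · by_cases h3 : p < c ∧ c < q
          · rw [if_pos (by omega), if_pos (by omega)]
            simp only [h1, h2, or_self, iff_false, not_not]
            decide
          · rw [if_neg (by omega), if_neg (by omega)]
            simp [h1, h2]
    · have h0 : ∑ k ∈ Finset.Ioc p q, f l (u k) = 0 := by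
        refine Finset.sum_eq_zero (fun k hk => ?_)
        by_contra h
        obtain ⟨j, hj, hj'⟩ := hL.all l k (by have := Finset.mem_Ioc.1 hk; omega) h
        exact hl ⟨j, hj, hj'⟩
      rw [h0]
      simp only [ne_eq, not_true_eq_false, false_iff, not_or]
      exact ⟨fun h => hl ⟨p, by omega, h⟩, fun h => hl ⟨q, hq, h⟩⟩

end KuArcAux

theorem link_arc {n : ℕ} {f : Fin n → ℕ → ZMod 2} {X : Finset ℕ} {m : ℕ} {u : ℕ → ℕ}
    {φ : ℕ → Fin n} (hL : Link n f X m u φ) {i j : Fin n} (hij : i ≠ j)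
    (hi : ∃ x ∈ X, f i x ≠ 0) (hj : ∃ x ∈ X, f j x ≠ 0) :
    ∃ A ⊆ X, A.Nonempty ∧ A ≠ X ∧ ∀ l, (∑ x ∈ A, f l x ≠ 0 ↔ (l = i ∨ l = j)) := by
  obtain ⟨x, hx, hfx⟩ := hi
  obtain ⟨y, hy, hfy⟩ := hj
  obtain ⟨k, hk, rfl⟩ := hL.surj x hx
  obtain ⟨k', hk', rfl⟩ := hL.surj y hy
  obtain ⟨p, hp, rfl⟩ := hL.all i k hk hfx
  obtain ⟨q, hq, rfl⟩ := hL.all j k' hk' hfy
  rcases Nat.lt_trichotomy p q with h | h | h
  · exact KuArcAux.arc_lt hL h hq
  · exact absurd (by rw [h]) hij
  · obtain ⟨A, h1, h2, h3, h4⟩ := KuArcAux.arc_lt hL h hp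
    exact ⟨A, h1, h2, h3, fun l => (h4 l).trans or_comm⟩

end K5
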