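import Pool.Agent.Lib.K5.Mac

/-!
# K5.KuContr: contraction of an edge and minors

PROOF.  `contr G x y` is `G` with `y` merged into `x`: the vertex `y` is isolated, and for
`a, b /= y` the pair `a b` is an edge iff it is an edge of `G` or one of the two is `x` and the
other is a `G`-neighbour of `y`.

(1) `contr_on`: an edge `a b` of `contr G x y` has `a /= y`; if `G.Adj a b` then `a` is in `U` by
`hon`; if `a = x` use `hx`; if `b = x` and `G.Adj a y` use `hon`.

(2) `conn_contr`: for `P` inside `S` the edge given by connectedness of `S` in `contr G x y` has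
both ends in `S`, so both differ from `x`, `y`; hence it is an edge of `G`.

(3) `K5_contr`, `K33_contr`.  No branch set `S` of a model in `contr G x y` contains `y`: every
branch set has a neighbour in another branch set; if `S = {y}` this gives an edge at `y`,
impossible; if `S` has another element apply connectedness of `S` to `P = {y}`: again an edge at
`y`.  Replace `S` by `S' = if x in S then insert y S else S`.
* `S'` is connected in `G`: if `x` is not in `S` this is (2).  If `x` is in `S` use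
  `P512.conn_of_forall` with `r = x`: let `P` be inside `insert y S`, `x` in `P`, `P` not everything.
  If `y` is not in `P` take the edge `x y`.  If `y` is in `P`, then `P ∩ S` is a nonempty proper
  subset of `S` and there are `u` in `P ∩ S`, `v` in `S` not in `P` with `(contr G x y).Adj u v`.
  Either `G.Adj u v` (done), or `u = x` and `G.Adj y v` (take the edge `y v`), or `v = x`
  (impossible, `x` is in `P`).
* the new sets are still pairwise disjoint: `x` lies in at most one branch set and `y` in none.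
* adjacency: an edge `a b` of `contr G x y` with `a` in `S`, `b` in `T` (different branch sets)
  is an edge of `G`, or `a = x` (then `y` is in `S'`) and `G.Adj y b`, or `b = x` and `G.Adj a y`
  with `y` in `T'`.
For `K33` do the same with the six sets (the same function `S ↦ S'` on all of them).
-/

namespace K5.KuContrAux

open Finset

/-- the new branch set -/
def up (x y : ℕ) (S : Finset ℕ) : Finset ℕ := if x ∈ S then insert y S else S

theorem up_pos {x y : ℕ} {S : Finset ℕ} (h : x ∈ S) : up x y S = insert y S := by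
  simp [up, h]

theorem up_neg {x y : ℕ} {S : Finset ℕ} (h : x ∉ S) : up x y S = S := by
  simp [up, h]

theorem sub_up (x y : ℕ) (S : Finset ℕ) : S ⊆ up x y S := by
  intro a ha
  by_cases h : x ∈ S
  · rw [up_pos h]
    exact mem_insert_of_mem ha
  · rw [up_neg h]
    exact ha

theorem y_mem_up {x y : ℕ} {S : Finset ℕ} (h : x ∈ S) : y ∈ up x y S := by
  rw [up_pos h]
  exact mem_insert_self _ _

theorem y_notMem {G : Gr} {x y : ℕ} {S : Finset ℕ} (hS : P512.Conn (contr G x y) S)
    (h : ∃ a ∈ S, ∃ b, b ∉ S ∧ (contr G x y).Adj a b) : y ∉ S := by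
  intro hy
  obtain ⟨a, ha, b, hb, hab⟩ := h
  by_cases hSy : ({y} : Finset ℕ) = S
  · have hay : a = y := by
      rw [← hSy] at ha
      exact mem_singleton.1 ha
    exact hab.2.1 hay
  · obtain ⟨u, hu, v, hv, hvn, huv⟩ := hS.2 {y} (singleton_subset_iff.2 hy)
      (singleton_nonempty y) hSy
    exact huv.2.1 (mem_singleton.1 hu)

theorem conn_out {G : Gr} {x y : ℕ} {S : Finset ℕ} (hS : P512.Conn (contr G x y) S)
    (hx : x ∉ S) (hy : y ∉ S) : P512.Conn G S := by
  refine ⟨hS.1, fun P hP hne hneq => ?_⟩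
  obtain ⟨u, hu, v, hv, hvn, huv⟩ := hS.2 P hP hne hneq
  refine ⟨u, hu, v, hv, hvn, ?_⟩
  rcases huv.2.2.2 with h | ⟨h, h'⟩ | ⟨h, h'⟩
  · exact h
  · exact absurd (h ▸ hP hu) hx
  · exact absurd (h ▸ hv) hx

theorem conn_up {G : Gr} {x y : ℕ} (hxy : G.Adj x y) {S : Finset ℕ}
    (hS : P512.Conn (contr G x y) S) (hy : y ∉ S) : P512.Conn G (up x y S) := by
  by_cases hx : x ∈ S
  · rw [up_pos hx]
    refine P512.conn_of_forall (r := x) (mem_insert_of_mem hx) (fun P hP hxP hneq => ?_)
    by_cases hyP : y ∈ P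
    · have hne : (P ∩ S).Nonempty := ⟨x, mem_inter.2 ⟨hxP, hx⟩⟩
      have hneq' : P ∩ S ≠ S := by
        intro he
        apply hneq
        apply le_antisymm hP
        intro a ha
        rcases mem_insert.1 ha with h | h
        · rw [h]
          exact hyP
        · rw [← he] at h
          exact (mem_inter.1 h).1
      obtain ⟨u, hu, v, hv, hvn, huv⟩ := hS.2 (P ∩ S) inter_subset_right hne hneq'
      have hvP : v ∉ P := fun h => hvn (mem_inter.2 ⟨h, hv⟩)
      rcases huv.2.2.2 with h | ⟨h, h'⟩ | ⟨h, h'⟩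
      · exact ⟨u, (mem_inter.1 hu).1, v, mem_insert_of_mem hv, hvP, h⟩
      · exact ⟨y, hyP, v, mem_insert_of_mem hv, hvP, h'⟩
      · exact absurd (h ▸ hxP) hvP
    · exact ⟨x, hxP, y, mem_insert_self _ _, hyP, hxy⟩
  · rw [up_neg hx]
    exact conn_out hS hx hy

theorem disj_up {x y : ℕ} {S T : Finset ℕ} (h : Disjoint S T) (hS : y ∉ S) (hT : y ∉ T) :
    Disjoint (up x y S) (up x y T) := by
  by_cases hx : x ∈ S
  · have hx' : x ∉ T := fun h' => disjoint_left.1 h hx h'
    rw [up_pos hx, up_neg hx', disjoint_insert_left]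
    exact ⟨hT, h⟩
  · rw [up_neg hx]
    by_cases hx' : x ∈ T
    · rw [up_pos hx', disjoint_insert_right]
      exact ⟨hS, h⟩
    · rw [up_neg hx']
      exact h

theorem adj_up {G : Gr} {x y : ℕ} {S T : Finset ℕ}
    (h : ∃ a ∈ S, ∃ b ∈ T, (contr G x y).Adj a b) :
    ∃ a ∈ up x y S, ∃ b ∈ up x y T, G.Adj a b := by
  obtain ⟨a, ha, b, hb, hab⟩ := h
  rcases hab.2.2.2 with h | ⟨h, h'⟩ | ⟨h, h'⟩
  · exact ⟨a, sub_up _ _ _ ha, b, sub_up _ _ _ hb, h⟩
  · exact ⟨y, y_mem_up (h ▸ ha), b, sub_up _ _ _ hb, h'⟩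
  · exact ⟨a, sub_up _ _ _ ha, y, y_mem_up (h ▸ hb), h'⟩

end K5.KuContrAux

namespace K5

open Finset

theorem contr_on {G : Gr} {U : Finset ℕ} {x y : ℕ} (hon : On G U) (hx : x ∈ U) :
    On (contr G x y) (U.erase y) := by
  intro a b hab
  refine mem_erase.2 ⟨hab.2.1, ?_⟩
  rcases hab.2.2.2 with h | ⟨h, h'⟩ | ⟨h, h'⟩
  · exact hon a b h
  · rw [h]
    exact hx
  · exact hon a y h'

theorem conn_contr {G : Gr} {x y : ℕ} {S : Finset ℕ} (hS : P512.Conn (contr G x y) S)
    (hx : x ∉ S) (hy : y ∉ S) : P512.Conn G S :=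
  KuContrAux.conn_out hS hx hy

theorem K5_contr {G : Gr} {x y : ℕ} (h : G.Adj x y) (hk : P512.K5 (contr G x y)) :
    P512.K5 G := by
  obtain ⟨B, hc, hd, ha⟩ := hk
  have hy : ∀ i, y ∉ B i := by
    intro i
    obtain ⟨j, hj⟩ : ∃ j : Fin 5, i ≠ j := by
      by_cases hi : i = 0
      · exact ⟨1, by rw [hi]; decide⟩
      · exact ⟨0, hi⟩
    obtain ⟨a, ha', b, hb, hab⟩ := ha i j hj
    exact KuContrAux.y_notMem (hc i)
      ⟨a, ha', b, fun hb' => disjoint_left.1 (hd i j hj) hb' hb, hab⟩
  exact ⟨fun i => KuContrAux.up x y (B i), fun i => KuContrAux.conn_up h (hc i) (hy i),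
    fun i j hij => KuContrAux.disj_up (hd i j hij) (hy i) (hy j),
    fun i j hij => KuContrAux.adj_up (ha i j hij)⟩

theorem K33_contr {G : Gr} {x y : ℕ} (h : G.Adj x y) (hk : K33 (contr G x y)) : K33 G := by
  obtain ⟨A, B, hcA, hcB, hdA, hdB, hd, ha⟩ := hk
  have hyA : ∀ i, y ∉ A i := by
    intro i
    obtain ⟨a, ha', b, hb, hab⟩ := ha i 0
    exact KuContrAux.y_notMem (hcA i)
      ⟨a, ha', b, fun hb' => disjoint_left.1 (hd i 0) hb' hb, hab⟩
  have hyB : ∀ i, y ∉ B i := by
    intro i
    obtain ⟨a, ha', b, hb, hab⟩ := ha 0 i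
    exact KuContrAux.y_notMem (hcB i)
      ⟨b, hb, a, fun ha'' => disjoint_left.1 (hd 0 i) ha' ha'', hab.symm⟩
  exact ⟨fun i => KuContrAux.up x y (A i), fun i => KuContrAux.up x y (B i),
    fun i => KuContrAux.conn_up h (hcA i) (hyA i), fun i => KuContrAux.conn_up h (hcB i) (hyB i),
    fun i j hij => KuContrAux.disj_up (hdA i j hij) (hyA i) (hyA j),
    fun i j hij => KuContrAux.disj_up (hdB i j hij) (hyB i) (hyB j),
    fun i j => KuContrAux.disj_up (hd i j) (hyA i) (hyB j),
    fun i j => KuContrAux.adj_up (ha i j)⟩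

end K5
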