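import Pool.Agent.Lib.K5.Mac

/-!
# K5.KuCut: a function on the edges that is orthogonal to all cycles is a coboundary

PROOF.  For `τ : ℕ → ZMod 2` call an edge `p q` (with `p`, `q` in `U`) bad if
`a p q + τ p + τ q = 1`.  Choose `τ` with the least number of bad ordered pairs (the number of
elements of the filter of `U ×ˢ U`); e.g. `τ` ranges over all functions, use
`Nat.find` / `WellFounded.min`.  Suppose there is a bad edge `p0 q0`.  Put
`b p q = a p q + τ p + τ q`.
(1) `pr U b z = 0` for every `z` with `Cyc G U z`: `pr` is additive, and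
`pr U (fun p q => τ p + τ q) z = sum over p in U of τ p * (sum over q in U of z p q) = 0`
(each unordered pair `p < q` contributes `(τ p + τ q) z p q`; the diagonal terms vanish because
`z p p = 0`: `G` has no loops; use `z.symm` and swap the order of summation).
(2) Let `G0` be the graph of good edges: `G0.Adj p q` iff `G.Adj p q` and `b p q = 0`.  If `q0` is
reachable from `p0` in `G0` take a walk from `q0` to `p0`, and let `z` be the sum (in `ZMod 2`) of
`ind r s` over its edges `r s`, plus `ind p0 q0`.  By induction on the walk the sum over its edges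
has `∑ c ∈ U, (..) a c = [a = start] + [a = end]` (all vertices of the edges are in `U` by `hon`),
so `Cyc G U z`.  By linearity and `pr U b (ind r s) = b r s` (for `r /= s` in `U`, `b` symmetric)
we get `pr U b z = b p0 q0 = 1`, against (1).
(3) So `q0` is not in the set `S` of vertices of `U` reachable from `p0` in `G0`.  All edges of `G`
between `S` and `U \ S` are bad.  Replace `τ` by `τ + 1_S`: these edges become good, the other
edges do not change; `p0 q0` was bad and is now good: fewer bad pairs, contradiction.
So there is no bad edge, and `a p q = τ p + τ q` for every edge.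
-/

namespace K5

open Finset

namespace KuCutAux

theorem z2 : ∀ x y z : ZMod 2, x + y + z = 0 → z = x + y := by decide

theorem dd : ∀ x : ZMod 2, x + x = 0 := by decide

theorem ind_symm (p q a b : ℕ) : ind p q a b = ind p q b a := by
  unfold ind
  exact if_congr (by tauto) rfl rfl

theorem ind_swap (p q : ℕ) : ind p q = ind q p := by
  funext a b
  unfold ind
  exact if_congr (by tauto) rfl rfl

theorem ind_row {U : Finset ℕ} {p q : ℕ} (hp : p ∈ U) (hq : q ∈ U) (hpq : p ≠ q) (v : ℕ) :
    ∑ c ∈ U, ind p q v c = (if v = p then 1 else 0) + (if v = q then 1 else 0) := by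
  unfold ind
  by_cases h1 : v = p
  · rw [if_pos h1, if_neg (fun h2 => hpq (h1.symm.trans h2)), add_zero,
      Finset.sum_eq_single q]
    · exact if_pos (Or.inl ⟨h1, rfl⟩)
    · intro c _ hc
      refine if_neg ?_
      rintro (h2 | h2)
      · exact hc h2.2
      · exact hpq (h1.symm.trans h2.1)
    · exact fun h2 => absurd hq h2
  · by_cases h3 : v = q
    · rw [if_neg h1, if_pos h3, zero_add, Finset.sum_eq_single p]
      · exact if_pos (Or.inr ⟨h3, rfl⟩)
      · intro c _ hc
        refine if_neg ?_
        rintro (h2 | h2)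
        · exact h1 h2.1
        · exact hc h2.2
      · exact fun h2 => absurd hp h2
    · rw [if_neg h1, if_neg h3, add_zero]
      refine Finset.sum_eq_zero fun c _ => if_neg ?_
      rintro (h2 | h2)
      · exact h1 h2.1
      · exact h3 h2.1

theorem pr_add (U : Finset ℕ) (a z z' : ℕ → ℕ → ZMod 2) :
    pr U a (fun p q => z p q + z' p q) = pr U a z + pr U a z' := by
  unfold pr
  rw [← Finset.sum_add_distrib]
  refine Finset.sum_congr rfl fun p _ => ?_
  rw [← Finset.sum_add_distrib]
  exact Finset.sum_congr rfl fun q _ => mul_add _ _ _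

theorem pr_ind_lt {U : Finset ℕ} (a : ℕ → ℕ → ZMod 2) {p q : ℕ} (hp : p ∈ U) (hq : q ∈ U)
    (hpq : p < q) : pr U a (ind p q) = a p q := by
  unfold pr
  rw [Finset.sum_eq_single p, Finset.sum_eq_single q]
  · unfold ind
    rw [if_pos (Or.inl ⟨rfl, rfl⟩), mul_one]
  · intro c hc hcq
    unfold ind
    rw [Finset.mem_filter] at hc
    rw [if_neg, mul_zero]
    rintro (h2 | h2)
    · exact hcq h2.2
    · omega
  · intro h2
    exact absurd (Finset.mem_filter.mpr ⟨hq, hpq⟩) h2
  · intro c _ hcp
    refine Finset.sum_eq_zero fun b hb => ?_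
    rw [Finset.mem_filter] at hb
    unfold ind
    rw [if_neg, mul_zero]
    rintro (h2 | h2)
    · exact hcp h2.1
    · omega
  · exact fun h2 => absurd hp h2

theorem pr_ind {U : Finset ℕ} (a : ℕ → ℕ → ZMod 2) (hsymm : ∀ p q, a p q = a q p) {p q : ℕ}
    (hp : p ∈ U) (hq : q ∈ U) (hpq : p ≠ q) : pr U a (ind p q) = a p q := by
  rcases lt_or_gt_of_ne hpq with h | h
  · exact pr_ind_lt a hp hq h
  · rw [ind_swap, hsymm p q]
    exact pr_ind_lt a hq hp h

theorem reach {G : Gr} {U : Finset ℕ} (hon : On G U) {x y : ℕ} (w : G.Walk x y) :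
    ∃ z : ℕ → ℕ → ZMod 2, (∀ a b, z a b = z b a) ∧ (∀ a b, z a b ≠ 0 → G.Adj a b) ∧
      ∀ v, ∑ c ∈ U, z v c = (if v = x then 1 else 0) + (if v = y then 1 else 0) := by
  induction w with
  | nil =>
    refine ⟨fun _ _ => 0, fun _ _ => rfl, fun a b h => absurd rfl h, fun v => ?_⟩
    rw [Finset.sum_const_zero, dd]
  | @cons u v w hadj p ih =>
    obtain ⟨z, h1, h2, h3⟩ := ih
    refine ⟨fun a b => ind u v a b + z a b, fun a b => ?_, fun a b hab => ?_, fun x => ?_⟩
    · show ind u v a b + z a b = ind u v b a + z b a
      rw [ind_symm, h1]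
    · by_cases h4 : z a b = 0
      · have h5 : ind u v a b ≠ 0 := fun h6 => hab (by
          show ind u v a b + z a b = 0
          rw [h6, h4, add_zero])
        unfold ind at h5
        by_cases h7 : (a = u ∧ b = v) ∨ (a = v ∧ b = u)
        · rcases h7 with h7 | h7
          · rw [h7.1, h7.2]
            exact hadj
          · rw [h7.1, h7.2]
            exact hadj.symm
        · exact absurd (if_neg h7) h5
      · exact h2 a b h4
    · have h4 := ind_row (hon u v hadj) (hon v u hadj.symm) hadj.ne x
      have h5 : ∑ c ∈ U, (ind u v x c + z x c) = ∑ c ∈ U, ind u v x c + ∑ c ∈ U, z x c :=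
        Finset.sum_add_distrib
      refine h5.trans ?_
      rw [h4, h3 x]
      have h6 := dd (if x = v then 1 else 0)
      linear_combination h6

end KuCutAux

open KuCutAux

theorem cut_lemma {G : Gr} {U : Finset ℕ} (hon : On G U) (a : ℕ → ℕ → ZMod 2)
    (hsymm : ∀ p q, a p q = a q p) (h : ∀ z, Cyc G U z → pr U a z = 0) :
    ∃ τ : ℕ → ZMod 2, ∀ p q, G.Adj p q → a p q = τ p + τ q := by
  have hr : ∀ v : ℕ, G.Reachable (Quot.out (G.connectedComponentMk v)) v := fun v =>
    SimpleGraph.ConnectedComponent.exact (Quot.out_eq (G.connectedComponentMk v))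
  have hw : ∀ v : ℕ, ∃ z : ℕ → ℕ → ZMod 2, (∀ a b, z a b = z b a) ∧
      (∀ a b, z a b ≠ 0 → G.Adj a b) ∧
      ∀ u, ∑ c ∈ U, z u c = (if u = Quot.out (G.connectedComponentMk v) then 1 else 0) +
        (if u = v then 1 else 0) := fun v => (hr v).elim fun w => reach hon w
  choose z hz1 hz2 hz3 using hw
  refine ⟨fun v => pr U a (z v), fun p q hpq => ?_⟩
  have hcc : G.connectedComponentMk p = G.connectedComponentMk q :=
    SimpleGraph.ConnectedComponent.sound hpq.reachable
  have hp : p ∈ U := hon p q hpq
  have hq : q ∈ U := hon q p hpq.symm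
  have hcyc : Cyc G U (fun b c => (z p b c + z q b c) + ind p q b c) := by
    constructor
    · intro b c
      rw [hz1 p b c, hz1 q b c, ind_symm]
    · intro b c hbc
      by_cases h1 : z p b c = 0
      · by_cases h2 : z q b c = 0
        · have h3 : ind p q b c ≠ 0 := fun h4 => hbc (by rw [h1, h2, h4, add_zero, add_zero])
          unfold ind at h3
          by_cases h7 : (b = p ∧ c = q) ∨ (b = q ∧ c = p)
          · rcases h7 with h7 | h7
            · rw [h7.1, h7.2]
              exact hpq
            · rw [h7.1, h7.2]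
              exact hpq.symm
          · exact absurd (if_neg h7) h3
        · exact hz2 q b c h2
      · exact hz2 p b c h1
    · intro b _
      rw [Finset.sum_add_distrib, Finset.sum_add_distrib, hz3, hz3, ind_row hp hq hpq.ne, hcc]
      have h1 := dd (if b = Quot.out (G.connectedComponentMk q) then 1 else 0)
      have h2 := dd (if b = p then 1 else 0)
      have h3 := dd (if b = q then 1 else 0)
      linear_combination h1 + h2 + h3
  have h1 := h _ hcyc
  rw [pr_add U a (fun b c => z p b c + z q b c) (ind p q), pr_add U a (z p) (z q),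
    pr_ind a hsymm hp hq hpq.ne] at h1
  exact z2 _ _ _ h1

end K5
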