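import Pool.Agent.Lib.K5.KuStar

/-!
# K5.KuEdge: in a 3-connected graph every edge lies on a cycle; degrees are at least 3

PROOF.  `edge_cyc`: suppose `z a b = 0` for all `z` with `Cyc G U z`.  Let `c` be a third vertex of
`U` (at least 4 vertices).  `cut_star` with `v = a`, `A = {b}`, `w = c`, `B = ∅` gives `τ` with
`τ p + τ q = 1` for the edge `a b` and `τ p + τ q = 0` for all other edges.  The set
`(U.erase b).erase b` is connected and its edges are not `a b`, so `τ a = τ c` (`conn_const`);
similarly with `a`: `τ b = τ c`.  So `τ a + τ b = 0`, contradiction.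
`deg3`: suppose all neighbours of `v` are among `p`, `q`.  Choose `t` outside `U`
(`Finset.exists_notMem`), `p' = if p = v then t else p`, `q' = if q = v then t else q`.  The set
`S = (U.erase p').erase q'` contains `v` and another vertex (`U` has at least 4 elements), but there
is no edge from `{v}` to the rest of `S` (`v` is not its own neighbour), against `Three G U`.
-/

namespace K5

open Finset

theorem edge_cyc {G : Gr} {U : Finset ℕ} (hon : On G U) (h3 : Three G U) {a b : ℕ}
    (hab : G.Adj a b) : ∃ z, Cyc G U z ∧ z a b ≠ 0 := by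
  by_contra hno
  have hz : ∀ z, Cyc G U z → z a b = 0 := by
    intro z hz
    by_contra h
    exact hno ⟨z, hz, h⟩
  have haU : a ∈ U := hon a b hab
  have hbU : b ∈ U := hon b a hab.symm
  have hne : a ≠ b := hab.ne
  obtain ⟨c, hcU, hca, hcb⟩ : ∃ c ∈ U, c ≠ a ∧ c ≠ b := by
    have h4 : 0 < ((U.erase a).erase b).card := by
      have h1 := Finset.card_erase_of_mem haU
      have h2 := Finset.card_erase_of_mem (Finset.mem_erase.mpr ⟨hne.symm, hbU⟩)
      have h5 := h3.1
      omega
    obtain ⟨c, hc⟩ := Finset.card_pos.mp h4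
    rw [Finset.mem_erase, Finset.mem_erase] at hc
    exact ⟨c, hc.2.2, hc.2.1, hc.1⟩
  obtain ⟨τ, hτ⟩ := cut_star hon haU hcU hca.symm {b} ∅ (by simpa using hbU) (by simp)
    (by simpa using hne) (by simp) (fun z hcyc => by simp [hz z hcyc])
  have hkey : ∀ e, e ∈ U → (e = a ∨ e = b) → ∀ p ∈ (U.erase e).erase e, ∀ q ∈ (U.erase e).erase e,
      τ p = τ q := by
    intro e he heab
    refine conn_const (h3.2 e e) τ ?_
    intro p hp q hq hpq
    rw [Finset.mem_erase, Finset.mem_erase] at hp hq
    have h1 := hτ p q hpq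
    have e1 : ¬ (p = a ∧ q ∈ ({b} : Finset ℕ)) := by
      rintro ⟨h, h'⟩
      rw [Finset.mem_singleton] at h'
      rcases heab with rfl | rfl
      · exact hp.1 h
      · exact hq.1 h'
    have e2 : ¬ (q = a ∧ p ∈ ({b} : Finset ℕ)) := by
      rintro ⟨h, h'⟩
      rw [Finset.mem_singleton] at h'
      rcases heab with rfl | rfl
      · exact hq.1 h
      · exact hp.1 h'
    rw [if_neg e1, if_neg e2, if_neg (by simp), if_neg (by simp)] at h1
    have h2 : τ p + τ q = 0 := by rw [← h1]; ring
    exact (CharTwo.add_eq_zero).mp h2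
  have t1 : τ a = τ c := hkey b hbU (Or.inr rfl) a
    (by rw [Finset.mem_erase, Finset.mem_erase]; exact ⟨hne, hne, haU⟩) c
    (by rw [Finset.mem_erase, Finset.mem_erase]; exact ⟨hcb, hcb, hcU⟩)
  have t2 : τ b = τ c := hkey a haU (Or.inl rfl) b
    (by rw [Finset.mem_erase, Finset.mem_erase]; exact ⟨hne.symm, hne.symm, hbU⟩) c
    (by rw [Finset.mem_erase, Finset.mem_erase]; exact ⟨hca, hca, hcU⟩)
  have h1 := hτ a b hab
  rw [if_pos ⟨rfl, by simp⟩, if_neg (fun h => hne h.1.symm), if_neg (by simp), if_neg (by simp),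
    t1, t2, CharTwo.add_self_eq_zero] at h1
  revert h1
  decide

theorem deg3 {G : Gr} {U : Finset ℕ} (hon : On G U) (h3 : Three G U) {v : ℕ} (hv : v ∈ U)
    (p q : ℕ) : ∃ u, G.Adj v u ∧ u ≠ p ∧ u ≠ q := by
  by_contra hno
  have hall : ∀ u, G.Adj v u → u = p ∨ u = q := by
    intro u hu
    by_contra h
    rw [not_or] at h
    exact hno ⟨u, hu, h.1, h.2⟩
  obtain ⟨t, ht⟩ := Infinite.exists_notMem_finset U
  have hvt : v ≠ t := fun h => ht (h ▸ hv)
  obtain ⟨p', hp', hpp⟩ : ∃ p', v ≠ p' ∧ (p = v ∨ p' = p) := by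
    by_cases h : p = v
    · exact ⟨t, hvt, Or.inl h⟩
    · exact ⟨p, fun h' => h h'.symm, Or.inr rfl⟩
  obtain ⟨q', hq', hqq⟩ : ∃ q', v ≠ q' ∧ (q = v ∨ q' = q) := by
    by_cases h : q = v
    · exact ⟨t, hvt, Or.inl h⟩
    · exact ⟨q, fun h' => h h'.symm, Or.inr rfl⟩
  have hvS : v ∈ (U.erase p').erase q' := by
    rw [Finset.mem_erase, Finset.mem_erase]
    exact ⟨hq', hp', hv⟩
  have hcard : 2 ≤ ((U.erase p').erase q').card := by
    have h1 := Finset.pred_card_le_card_erase (s := U) (a := p')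
    have h2 := Finset.pred_card_le_card_erase (s := U.erase p') (a := q')
    have h5 := h3.1
    omega
  have hne : ({v} : Finset ℕ) ≠ (U.erase p').erase q' := by
    intro h
    rw [← h, Finset.card_singleton] at hcard
    omega
  obtain ⟨u, hu, x, hx, hxv, hadj⟩ := (h3.2 p' q').2 {v} (by simpa using hvS) (by simp) hne
  rw [Finset.mem_singleton] at hu hxv
  subst hu
  rw [Finset.mem_erase, Finset.mem_erase] at hx
  rcases hall x hadj with h | h
  · rcases hpp with h' | h'
    · exact hxv (h.trans h')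
    · exact hx.2.1 (h.trans h'.symm)
  · rcases hqq with h' | h'
    · exact hxv (h.trans h')
    · exact hx.1 (h.trans h'.symm)

end K5
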