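import Pool.Agent.Lib.K5.Mac

/-!
# K5.KuLab: splitting the cyclic order, labels of the corners

`P`, `Q` are two properties of the elements of the cyclic order (adjacent to `x`, adjacent to `y`).

PROOF of `interval`: let `a` be the least and `b` the largest index `k ≤ m` with `P (u k)`
(`Nat.find`, `Nat.findGreatest` or `Finset.min'`/`max'` of the filter of `range (m + 1)`).  By `h2`
`a < b`, and `b < m` because `P (u m)` fails.  If some `k` with `a < k < b` has `Q (u k)` we are in
the first case, otherwise in the second.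

PROOF of `lab_exists`: put `lab i z = true` iff there are `j ≤ m`, `k ≤ m` with `i = φ j`,
`z = u k` and (`a < k ∧ k < b`) or (`k = a` and (`j = a` or not `Q (u a)`)) or (`k = b` and
(`j + 1 = b` or not `Q (u b)`)) (`decide`, classical; `j`, `k` are determined by `i`, `z`).
Let `f i (u k) /= 0`, so `i = φ j` with `j = k` or `j + 1 = k` or (`j = m`, `k = 0`) (`all`, `inc`).
(L1) If `lab` is true then `a ≤ k ≤ b`, and `P (u k)`: for `k = a`, `b` by hypothesis, for
`a < k < b` by `hPQ` and not `Q (u k)`.  If it is false then `Q (u k)`: for `k < a` or `k > b`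
not `P (u k)`, so `Q (u k)`; for `a < k < b` it is true; for `k = a`, `b` false implies `Q (u k)`.
(L2) If `P (u k)` and `Q (u k)` then `k = a` or `k = b` (`a ≤ k ≤ b` and not strictly between).  The
two faces at `u a` are `φ a` and the previous one (`φ (a - 1)`, or `φ m` if `a = 0`): the label is
true only for `φ a`.  The two faces at `u b` (`b ≥ 1`) are `φ (b - 1)` and `φ b`; the label is true
only for `φ (b - 1)`.
(L3) For `i = φ j` the sum `∑ x ∈ X, if lab then f i x` is the parity of the number of the two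
corners of `φ j` (at `u j` and `u (j + 1)`, resp. `u m`, `u 0` for `j = m`) with label true.
Corner of `φ j` at `u j`: true iff `a ≤ j < b` or (`j = b` and not `Q (u b)`).  Corner of `φ j` at
`u (j + 1)` (`j < m`): true iff `a < j + 1 ≤ b` or (`j + 1 = a` and not `Q (u a)`); of `φ m` at `u 0`:
true iff `a = 0` and not `Q (u 0)`.  So for `a ≤ j < b` both are true (sum 0), for `j = b` the sum is
`[not Q (u b)]` (`b < m`), for `j = a - 1` (if `a ≥ 1`) or `j = m` (if `a = 0`) it is
`[not Q (u a)]`, otherwise 0.  Indices that are not among the `φ j` have sum 0.  So the number of `i`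
with nonzero sum is at most `[not Q (u a)] + [not Q (u b)]`, and the number of `x` in `X` with `P x`
and `Q x` is `[Q (u a)] + [Q (u b)]`: together at most 2.  (For an inequality it is enough: the first
filter is contained in the set of `φ b` if not `Q (u b)` and `φ (a - 1)` / `φ m` if not `Q (u a)`;
the second in `{u a, u b}` filtered by `Q`.)

PROOF of `lab_swap`: use `lab' i x = !lab i x`.  (L2'): the total number of `i` with `f i x /= 0` is
2 (`h2`), exactly one has label true, so exactly one has label false.  (L3'): by `heven` the sum over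
the elements with label false equals the sum over those with label true.
-/

namespace K5

open Finset

namespace KuLabAux

theorem z2 {x : ZMod 2} (h : x ≠ 0) : x = 1 := by
  revert h
  revert x
  decide

/-- the condition for the label of the corner of `φ j` at `u k` -/
def cond (Q : ℕ → Prop) (u : ℕ → ℕ) (a b j k : ℕ) : Prop :=
  (a < k ∧ k < b) ∨ (k = a ∧ (j = a ∨ ¬ Q (u a))) ∨ (k = b ∧ (j + 1 = b ∨ ¬ Q (u b)))

theorem sum_two {n : ℕ} {f : Fin n → ℕ → ZMod 2} {X : Finset ℕ} {m : ℕ} {u : ℕ → ℕ}
    {φ : ℕ → Fin n} (hL : Link n f X m u φ) (c : ℕ → Bool) {j : ℕ} (hj : j ≤ m) :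
    ∑ x ∈ X, (if c x = true then f (φ j) x else 0) =
      (if c (u j) = true then 1 else 0) +
        (if c (u (if j = m then 0 else j + 1)) = true then 1 else 0) := by
  classical
  have hj' : (if j = m then 0 else j + 1) ≤ m := by split_ifs <;> omega
  have hne : u j ≠ u (if j = m then 0 else j + 1) := by
    intro h
    have := hL.inj j _ hj hj' h
    have h1 := hL.one
    split_ifs at this <;> omega
  have hf1 : f (φ j) (u j) = 1 := z2 ((hL.inc j j hj hj).2 (Or.inl rfl))
  have hf2 : f (φ j) (u (if j = m then 0 else j + 1)) = 1 := by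
    refine z2 ((hL.inc j _ hj hj').2 ?_)
    split_ifs with h
    · exact Or.inr (Or.inr ⟨h, rfl⟩)
    · exact Or.inr (Or.inl rfl)
  have hsub : ({u j, u (if j = m then 0 else j + 1)} : Finset ℕ) ⊆ X := by
    intro x hx
    rcases Finset.mem_insert.1 hx with rfl | hx
    · exact hL.mem j hj
    · rw [Finset.mem_singleton] at hx
      subst hx
      exact hL.mem _ hj'
  rw [← Finset.sum_subset hsub, Finset.sum_pair hne, hf1, hf2]
  intro x hx hxn
  have : f (φ j) x = 0 := by
    by_contra h0
    obtain ⟨k, hk, rfl⟩ := hL.surj x hx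
    apply hxn
    rcases (hL.inc j k hj hk).1 h0 with h | h | h
    · subst h
      exact Finset.mem_insert_self _ _
    · have : j ≠ m := by omega
      rw [if_neg this, h]
      simp
    · rw [if_pos h.1, h.2]
      simp
  rw [this]
  simp

end KuLabAux

open KuLabAux

theorem interval {m : ℕ} {u : ℕ → ℕ} (P Q : ℕ → Prop) (hm : ¬ P (u m))
    (h2 : ∃ j k, j < k ∧ k ≤ m ∧ P (u j) ∧ P (u k)) :
    (∃ a k b, a < k ∧ k < b ∧ b < m ∧ P (u a) ∧ Q (u k) ∧ P (u b)) ∨
      ∃ a b, a < b ∧ b < m ∧ P (u a) ∧ P (u b) ∧
        (∀ k, k ≤ m → P (u k) → a ≤ k ∧ k ≤ b) ∧ ∀ k, a < k → k < b → ¬ Q (u k) := by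
  classical
  obtain ⟨j, k, hjk, hkm, hj, hk⟩ := h2
  have hTne : ((Finset.range (m + 1)).filter (fun k => P (u k))).Nonempty :=
    ⟨j, Finset.mem_filter.2 ⟨Finset.mem_range.2 (by omega), hj⟩⟩
  have hmem : ∀ i, i ≤ m → P (u i) → i ∈ (Finset.range (m + 1)).filter (fun k => P (u k)) :=
    fun i hi hP => Finset.mem_filter.2 ⟨Finset.mem_range.2 (by omega), hP⟩
  obtain ⟨a, ha, ha'⟩ := Finset.exists_min_image _ (fun i => i) hTne
  obtain ⟨b, hb, hb'⟩ := Finset.exists_max_image _ (fun i => i) hTne
  have hPa := (Finset.mem_filter.1 ha).2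
  have hPb := (Finset.mem_filter.1 hb).2
  have hbm := Finset.mem_range.1 (Finset.mem_filter.1 hb).1
  have haj := ha' j (hmem j (by omega) hj)
  have hkb := hb' k (hmem k hkm hk)
  have hbm' : b < m := by
    rcases Nat.lt_or_ge b m with h | h
    · exact h
    · have : b = m := by omega
      exact absurd (this ▸ hPb) hm
  have hall : ∀ k, k ≤ m → P (u k) → a ≤ k ∧ k ≤ b := fun k hk hP =>
    ⟨ha' k (hmem k hk hP), hb' k (hmem k hk hP)⟩
  by_cases hQ : ∃ k, a < k ∧ k < b ∧ Q (u k)
  · obtain ⟨k', h1, h2, h3⟩ := hQ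
    exact Or.inl ⟨a, k', b, h1, h2, hbm', hPa, h3, hPb⟩
  · push Not at hQ
    exact Or.inr ⟨a, b, by omega, hbm', hPa, hPb, hall, hQ⟩

/-- The conditions on the labels of the corners at the merged vertex. -/
structure LabOK (n : ℕ) (f : Fin n → ℕ → ZMod 2) (X : Finset ℕ) (P Q : ℕ → Prop)
    (lab : Fin n → ℕ → Bool) : Prop where
  tr : ∀ i, ∀ x ∈ X, f i x ≠ 0 → lab i x = true → P x
  fa : ∀ i, ∀ x ∈ X, f i x ≠ 0 → lab i x = false → Q x
  one : ∀ x ∈ X, P x → Q x → ∃ i, ∀ j, (f j x ≠ 0 ∧ lab j x = true) ↔ j = i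
  two : ∃ (I : Finset (Fin n)) (Y : Finset ℕ), I.card + Y.card ≤ 2 ∧
    (∀ i, ∑ x ∈ X, (if lab i x = true then f i x else 0) ≠ 0 → i ∈ I) ∧
    ∀ x ∈ X, P x → Q x → x ∈ Y

theorem lab_exists {n : ℕ} {f : Fin n → ℕ → ZMod 2} {X : Finset ℕ} {m : ℕ} {u : ℕ → ℕ}
    {φ : ℕ → Fin n} (hL : Link n f X m u φ) (P Q : ℕ → Prop)
    (hPQ : ∀ x ∈ X, P x ∨ Q x) {a b : ℕ} (hab : a < b) (hbm : b < m) (ha : P (u a))
    (hb : P (u b)) (hP : ∀ k, k ≤ m → P (u k) → a ≤ k ∧ k ≤ b)
    (hQ : ∀ k, a < k → k < b → ¬ Q (u k)) :
    ∃ lab : Fin n → ℕ → Bool, LabOK n f X P Q lab := by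
  classical
  refine ⟨fun i z => decide (∃ j k, j ≤ m ∧ k ≤ m ∧ i = φ j ∧ z = u k ∧ cond Q u a b j k), ?_⟩
  have hlab : ∀ j k, j ≤ m → k ≤ m →
      (decide (∃ j' k', j' ≤ m ∧ k' ≤ m ∧ φ j = φ j' ∧ u k = u k' ∧ cond Q u a b j' k') = true ↔
        cond Q u a b j k) := by
    intro j k hj hk
    rw [decide_eq_true_iff]
    constructor
    · rintro ⟨j', k', hj', hk', h1, h2, h3⟩
      rw [hL.finj _ _ hj hj' h1, hL.inj _ _ hk hk' h2]
      exact h3
    · intro h
      exact ⟨j, k, hj, hk, rfl, rfl, h⟩
  -- the elements with both properties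
  have hboth : ∀ k, k ≤ m → P (u k) → Q (u k) → k = a ∨ k = b := by
    intro k hk h1 h2
    have h3 := hP k hk h1
    rcases Nat.lt_or_ge a k with h | h
    · rcases Nat.lt_or_ge k b with h' | h'
      · exact absurd h2 (hQ k h h')
      · exact Or.inr (by omega)
    · exact Or.inl (by omega)
  refine ⟨?_, ?_, ?_, ?_⟩
  · -- tr
    intro i x hx hf hl
    obtain ⟨k, hk, rfl⟩ := hL.surj x hx
    obtain ⟨j, hj, rfl⟩ := hL.all i k hk hf
    have hc := (hlab j k hj hk).1 hl
    rcases hc with h | h | h
    · rcases hPQ _ hx with h' | h'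
      · exact h'
      · exact absurd h' (hQ k h.1 h.2)
    · rw [h.1]; exact ha
    · rw [h.1]; exact hb
  · -- fa
    intro i x hx hf hl
    obtain ⟨k, hk, rfl⟩ := hL.surj x hx
    obtain ⟨j, hj, rfl⟩ := hL.all i k hk hf
    have hc : ¬ cond Q u a b j k := fun h => by
      have := (hlab j k hj hk).2 h
      rw [hl] at this
      exact absurd this (by decide)
    by_contra hn
    have hPk : P (u k) := (hPQ _ hx).resolve_right hn
    have h3 := hP k hk hPk
    apply hc
    rcases Nat.lt_or_ge a k with h | h
    · rcases Nat.lt_or_ge k b with h' | h'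
      · exact Or.inl ⟨h, h'⟩
      · have : k = b := by omega
        subst this
        exact Or.inr (Or.inr ⟨rfl, Or.inr hn⟩)
    · have : k = a := by omega
      subst this
      exact Or.inr (Or.inl ⟨rfl, Or.inr hn⟩)
  · -- one
    intro x hx h1 h2
    obtain ⟨k, hk, rfl⟩ := hL.surj x hx
    rcases hboth k hk h1 h2 with rfl | rfl
    · refine ⟨φ k, fun i => ⟨?_, ?_⟩⟩
      · rintro ⟨hf, hl⟩
        obtain ⟨j, hj, rfl⟩ := hL.all i k hk hf
        rcases (hlab j k hj hk).1 hl with h | h | h
        · omega
        · rw [h.2.resolve_right (not_not.2 h2)]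
        · omega
      · rintro rfl
        exact ⟨(hL.inc k k hk hk).2 (Or.inl rfl),
          (hlab k k hk hk).2 (Or.inr (Or.inl ⟨rfl, Or.inl rfl⟩))⟩
    · have hk1 : k - 1 + 1 = k := by omega
      refine ⟨φ (k - 1), fun i => ⟨?_, ?_⟩⟩
      · rintro ⟨hf, hl⟩
        obtain ⟨j, hj, rfl⟩ := hL.all i k hk hf
        rcases (hlab j k hj hk).1 hl with h | h | h
        · omega
        · omega
        · have := h.2.resolve_right (not_not.2 h2)
          rw [← this]
          simp
      · rintro rfl
        exact ⟨(hL.inc (k - 1) k (by omega) hk).2 (Or.inr (Or.inl hk1)),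
          (hlab (k - 1) k (by omega) hk).2 (Or.inr (Or.inr ⟨rfl, Or.inl hk1⟩))⟩
  · -- two
    refine ⟨(if Q (u b) then ∅ else {φ b}) ∪
      (if Q (u a) then ∅ else {φ (if a = 0 then m else a - 1)}),
      (if Q (u a) then {u a} else ∅) ∪ (if Q (u b) then {u b} else ∅), ?_, ?_, ?_⟩
    · refine le_trans (add_le_add (Finset.card_union_le _ _) (Finset.card_union_le _ _)) ?_
      by_cases h1 : Q (u a) <;> by_cases h2 : Q (u b) <;> simp [h1, h2]
    · intro i hs
      obtain ⟨x, hx, hxn⟩ := Finset.exists_ne_zero_of_sum_ne_zero hs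
      have hf : f i x ≠ 0 := by
        intro h0
        apply hxn
        rw [h0]
        simp
      obtain ⟨k, hk, rfl⟩ := hL.surj x hx
      obtain ⟨j, hj, rfl⟩ := hL.all i k hk hf
      have hj' : (if j = m then 0 else j + 1) ≤ m := by split_ifs <;> omega
      have h3 := sum_two hL (fun z => decide (∃ j' k', j' ≤ m ∧ k' ≤ m ∧ φ j = φ j' ∧
        z = u k' ∧ cond Q u a b j' k')) hj
      simp only [hlab j j hj hj, hlab j _ hj hj'] at h3
      rw [h3] at hs
      rw [Finset.mem_union]
      -- the two corners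
      by_cases hc1 : cond Q u a b j j
      · by_cases hc2 : cond Q u a b j (if j = m then 0 else j + 1)
        · exfalso
          apply hs
          rw [if_pos hc1, if_pos hc2]
          decide
        · left
          rcases hc1 with h | h | h
          · exfalso
            apply hc2
            rw [if_neg (by omega : ¬ j = m)]
            by_cases hjb : j + 1 = b
            · exact Or.inr (Or.inr ⟨hjb, Or.inl hjb⟩)
            · exact Or.inl ⟨by omega, by omega⟩
          · exfalso
            apply hc2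
            rw [if_neg (by omega : ¬ j = m)]
            by_cases hjb : j + 1 = b
            · exact Or.inr (Or.inr ⟨hjb, Or.inl hjb⟩)
            · exact Or.inl ⟨by omega, by omega⟩
          · have hq := h.2.resolve_left (by omega)
            rw [if_neg hq, h.1]
            simp
      · by_cases hc2 : cond Q u a b j (if j = m then 0 else j + 1)
        · right
          by_cases hjm : j = m
          · rw [if_pos hjm] at hc2
            rcases hc2 with h | h | h
            · omega
            · have hq := h.2.resolve_left (by omega)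
              rw [if_neg hq, if_pos h.1.symm, hjm]
              simp
            · omega
          · rw [if_neg hjm] at hc2
            rcases hc2 with h | h | h
            · exfalso
              apply hc1
              by_cases hja : j = a
              · exact Or.inr (Or.inl ⟨hja, Or.inl hja⟩)
              · exact Or.inl ⟨by omega, by omega⟩
            · have hq := h.2.resolve_left (by omega)
              rw [if_neg hq, if_neg (by omega : ¬ a = 0)]
              have : j = a - 1 := by omega
              rw [this]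
              simp
            · exfalso
              apply hc1
              by_cases hja : j = a
              · exact Or.inr (Or.inl ⟨hja, Or.inl hja⟩)
              · exact Or.inl ⟨by omega, by omega⟩
        · exfalso
          apply hs
          rw [if_neg hc1, if_neg hc2]
          decide
    · intro x hx h1 h2
      obtain ⟨k, hk, rfl⟩ := hL.surj x hx
      rw [Finset.mem_union]
      rcases hboth k hk h1 h2 with rfl | rfl
      · left
        rw [if_pos h2]
        simp
      · right
        rw [if_pos h2]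
        simp

theorem lab_swap {n : ℕ} {f : Fin n → ℕ → ZMod 2} {X : Finset ℕ}
    (h2 : ∀ x ∈ X, (univ.filter (fun i => f i x ≠ 0)).card = 2)
    (heven : ∀ i, ∑ x ∈ X, f i x = 0) (P Q : ℕ → Prop) (lab : Fin n → ℕ → Bool)
    (h : LabOK n f X P Q lab) : LabOK n f X Q P (fun i x => !lab i x) := by
  classical
  refine ⟨?_, ?_, ?_, ?_⟩
  · intro i x hx hf hl
    exact h.fa i x hx hf (by simpa using hl)
  · intro i x hx hf hl
    exact h.tr i x hx hf (by simpa using hl)
  · intro x hx hQ hP
    obtain ⟨i, hi⟩ := h.one x hx hP hQ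
    obtain ⟨p, q, hpq, hS⟩ := Finset.card_eq_two.1 (h2 x hx)
    have hmem : ∀ j, f j x ≠ 0 ↔ j = p ∨ j = q := by
      intro j
      have : j ∈ univ.filter (fun i => f i x ≠ 0) ↔ j ∈ ({p, q} : Finset (Fin n)) := by rw [hS]
      simpa using this
    have hip := (hi i).2 rfl
    rcases (hmem i).1 hip.1 with rfl | rfl
    · refine ⟨q, fun j => ⟨?_, ?_⟩⟩
      · rintro ⟨hf, hl⟩
        rcases (hmem j).1 hf with rfl | rfl
        · simp [hip.2] at hl
        · rfl
      · rintro rfl
        have hfq : f j x ≠ 0 := (hmem j).2 (Or.inr rfl)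
        refine ⟨hfq, ?_⟩
        by_contra hcon
        have hl : lab j x = true := by simpa using hcon
        exact hpq ((hi j).1 ⟨hfq, hl⟩).symm
    · refine ⟨p, fun j => ⟨?_, ?_⟩⟩
      · rintro ⟨hf, hl⟩
        rcases (hmem j).1 hf with rfl | rfl
        · rfl
        · simp [hip.2] at hl
      · rintro rfl
        have hfq : f j x ≠ 0 := (hmem j).2 (Or.inl rfl)
        refine ⟨hfq, ?_⟩
        by_contra hcon
        have hl : lab j x = true := by simpa using hcon
        exact hpq ((hi j).1 ⟨hfq, hl⟩)
  · obtain ⟨I, Y, h1, h3, h4⟩ := h.two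
    refine ⟨I, Y, h1, ?_, fun x hx hQ hP => h4 x hx hP hQ⟩
    intro i hs
    apply h3 i
    have hsum : ∑ x ∈ X, (if lab i x = true then f i x else 0) +
        ∑ x ∈ X, (if (!lab i x) = true then f i x else 0) = 0 := by
      rw [← Finset.sum_add_distrib]
      refine Eq.trans (Finset.sum_congr rfl (fun x _ => ?_)) (heven i)
      cases lab i x <;> simp
    intro h0
    rw [h0, zero_add] at hsum
    exact hs hsum

end K5
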