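import Pool.Agent.Lib.K5.KuLink
import Pool.Agent.Lib.K5.KuLab

/-!
# K5.KuLift: uncontraction of an edge keeps Mac Lane's condition

`H = contr G x y` (the vertex `y` is merged into `x`), `F` the faces of `H`, `X = nb H U' x`.

PROOF.  Let `I`, `Y` be as in `LabOK.two`; we may replace `Y` by the set `Y0` of common
neighbours of `x` and `y` (it is contained in `Y`; a common neighbour `c` of `x`, `y` is in `U`,
different from `x`, `y`, and `H.Adj x c`, so it is in `X`).
The new family has index set `Fin n ⊕ Y0` (re-index by `Fin (n + |Y0|)` at the end; it is convenient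
to prove first a lemma: if a family indexed by any finite type satisfies the three conditions of `Mac`
then `Mac G U` holds, via `Fintype.equivFin`).
LIFT of `F i`, call it `L i`: symmetric; for `a, b` both different from `x`, `y`: `L i a b = F i a b`;
for `c /= x, y`: `L i x c = if lab i c = true then F i x c else 0`,
`L i y c = if lab i c = false then F i x c else 0`; `L i x y = L i y x = ∑ c ∈ U', L i x c` (with
`c = x` contributing 0); `L i x x = L i y y = 0`.
TRIANGLE of `c` in `Y0`: `T c = ind x c + ind y c + ind x y`.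
(1) `Cyc G U (L i)`: support: for `a, b /= x, y` an `H`-edge is a `G`-edge (unfold `contr`);
`L i x c /= 0` implies `F i x c /= 0` and label true, so `P c = G.Adj x c` (`LabOK.tr`), the same for
`y`; `L i x y` is supported on the edge `x y`.  Even at `a /= x, y`: `∑ b ∈ U, L i a b` = sum over
`b /= x, y` of `F i a b` + `L i a x + L i a y`, and `L i a x + L i a y = F i x a = F i a x`, so it
equals `∑ b ∈ U', F i a b = 0` (`U' = U.erase y`).  Even at `x`: by definition of `L i x y`
(`∑ c ∈ U, L i x c = ∑ c /= y + L i x y = 0`).  Even at `y`: `∑ c ∈ U, L i y c` = sum over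
`c /= x, y` of `L i y c` + `L i y x`, and `L i y x = ∑ c, L i x c`, so the total is
`∑ c ∈ U', F i x c = 0`.  `Cyc G U (T c)`: clear (`c`, `x`, `y` are different and in `U`, all three
pairs are edges).
(2) At most two: for `a, b /= x, y`: the lifts are as in `F` (at most 2: exactly two if `H.Adj a b`, and
none otherwise by `supp`), triangles do not contain `a b`.  For `x c` (`c /= x, y`): lifts with
`F i x c /= 0` and label true.  If `c` is not a common neighbour there is no triangle and the number is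
at most 2.  If `c` is in `Y0`, by `LabOK.one` exactly one lift, and exactly one triangle: 2.  For `y c`:
if `c` is not in `Y0` at most 2; if `c` is in `Y0`: the lifts with label false: `2 - 1 = 1`
(exactly two faces contain `x c` in `H`, exactly one of them has label true), plus one triangle.  For
`x y`: lifts with `∑ c ∈ U', (if lab i c then F i x c else 0) /= 0`: they are in `I`
(the sum over `U'` equals the sum over `X = nb H U' x` by support), and all `|Y0| ≤ |Y|` triangles:
at most `|I| + |Y| ≤ 2`.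
(3) Span: let `Cyc G U z`.  Define `z' a b` (merge): for `a, b /= x, y`: `z a b`; for `c /= x, y`:
`z' x c = z' c x = z x c + z y c`; everything with `y` and `z' x x` is 0.  `Cyc H U' z'`: support and
evenness: at `a /= x, y`: `∑ b ∈ U', z' a b = ∑ b ∈ U, z a b`; at `x`:
`∑ c /= x, y, (z x c + z y c) = z x y + z y x = 0`.  So `z' = ∑ i ∈ S, F i`.  Put
`r = z + ∑ i ∈ S, L i`.  `Cyc G U r`.  For `a, b /= x, y`: `r a b = 0`.  For `c /= x, y`:
`r x c + r y c = z' x c + ∑ i ∈ S, F i x c = 0`, so `r x c = r y c`; if `c` is not a common neighbour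
one of them vanishes by support, so both vanish.  Let `S' = {c ∈ Y0 | r x c /= 0}`.  Then
`r = ∑ c ∈ S', T c`: at `x c` and `y c` clear; at `x y`: `r x y = ∑ c /= x, y, r x c` (evenness at
`x`) `= |S'|`, which is also the value of the right hand side.  So
`z = ∑ i ∈ S, L i + ∑ c ∈ S', T c` (in `ZMod 2`, `a + a = 0`).
-/

namespace K5.KuLiftAux

open Finset

/-- Mac Lane's condition from two families indexed by finite types. -/
theorem mac_of_two {G : Gr} {U : Finset ℕ} {ι κ : Type} [Fintype ι] [Fintype κ]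
    (F : ι → ℕ → ℕ → ZMod 2) (T : κ → ℕ → ℕ → ZMod 2) (hF : ∀ i, Cyc G U (F i))
    (hT : ∀ k, Cyc G U (T k))
    (h2 : ∀ a b, (univ.filter (fun i => F i a b ≠ 0)).card +
      (univ.filter (fun k => T k a b ≠ 0)).card ≤ 2)
    (hs : ∀ z, Cyc G U z → ∃ (S : Finset ι) (S' : Finset κ), ∀ a b,
      z a b = ∑ i ∈ S, F i a b + ∑ k ∈ S', T k a b) : Mac G U := by
  classical
  let e : Fin (Fintype.card (ι ⊕ κ)) ≃ ι ⊕ κ := (Fintype.equivFin (ι ⊕ κ)).symm
  let W : ι ⊕ κ → ℕ → ℕ → ZMod 2 := Sum.elim F T
  refine ⟨Fintype.card (ι ⊕ κ), fun j => W (e j), ?_, ?_, ?_⟩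
  · intro j
    rcases h : e j with i | k
    · simp only [h]
      exact hF i
    · simp only [h]
      exact hT k
  · intro a b
    have h := h2 a b
    rw [card_filter, card_filter] at h
    rw [card_filter]
    have h3 := Equiv.sum_comp e (fun w => if W w a b ≠ 0 then (1 : ℕ) else 0)
    rw [Fintype.sum_sum_type] at h3
    have h4 : (∑ i, if W (e i) a b ≠ 0 then (1 : ℕ) else 0) = _ := h3
    refine le_trans (le_of_eq h4) (le_trans (le_of_eq ?_) h)
    rfl
  · intro z hz
    obtain ⟨S, S', hSS⟩ := hs z hz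
    refine ⟨(S.disjSum S').map e.symm.toEmbedding, fun a b => ?_⟩
    rw [sum_map, hSS a b, sum_disjSum]
    congr 1
    · refine sum_congr rfl (fun i _ => ?_)
      simp [W]
    · refine sum_congr rfl (fun i _ => ?_)
      simp [W]

/-- An edge function from its parts. -/
def bld (x y : ℕ) (w : ℕ → ℕ → ZMod 2) (p q : ℕ → ZMod 2) (s : ZMod 2) : ℕ → ℕ → ZMod 2 :=
  fun a b =>
    if a = x then (if b = x then 0 else if b = y then s else p b)
    else if a = y then (if b = x then s else if b = y then 0 else q b)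
    else if b = x then p a
    else if b = y then q a
    else w a b

section
variable {x y : ℕ} {w : ℕ → ℕ → ZMod 2} {p q : ℕ → ZMod 2} {s : ZMod 2}

theorem bld_xx : bld x y w p q s x x = 0 := by simp [bld]

theorem bld_yy (h : x ≠ y) : bld x y w p q s y y = 0 := by simp [bld, h.symm]

theorem bld_xy (h : x ≠ y) : bld x y w p q s x y = s := by simp [bld, h.symm]

theorem bld_yx (h : x ≠ y) : bld x y w p q s y x = s := by simp [bld, h.symm]

theorem bld_x {c : ℕ} (h1 : c ≠ x) (h2 : c ≠ y) : bld x y w p q s x c = p c := by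
  simp [bld, h1, h2]

theorem bld_x' {c : ℕ} (h1 : c ≠ x) (h2 : c ≠ y) : bld x y w p q s c x = p c := by
  simp [bld, h1, h2]

theorem bld_y (h : x ≠ y) {c : ℕ} (h1 : c ≠ x) (h2 : c ≠ y) :
    bld x y w p q s y c = q c := by
  simp [bld, h1, h2, h.symm]

theorem bld_y' (h : x ≠ y) {c : ℕ} (h1 : c ≠ x) (h2 : c ≠ y) :
    bld x y w p q s c y = q c := by
  simp [bld, h1, h2, h.symm]

theorem bld_o {a b : ℕ} (h1 : a ≠ x) (h2 : a ≠ y) (h3 : b ≠ x) (h4 : b ≠ y) :
    bld x y w p q s a b = w a b := by
  simp [bld, h1, h2, h3, h4]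

end

/-- a property of pairs is checked case by case -/
theorem pair_ind {x y : ℕ} {P : ℕ → ℕ → Prop} (hsym : ∀ a b, P a b → P b a) (hxx : P x x)
    (hyy : P y y) (hxy : P x y) (hx : ∀ c, c ≠ x → c ≠ y → P x c)
    (hy : ∀ c, c ≠ x → c ≠ y → P y c)
    (ho : ∀ a b, a ≠ x → a ≠ y → b ≠ x → b ≠ y → P a b) : ∀ a b, P a b := by
  intro a b
  by_cases hax : a = x
  · rw [hax]
    by_cases hbx : b = x
    · rw [hbx]
      exact hxx
    · by_cases hby : b = y
      · rw [hby]
        exact hxy
      · exact hx b hbx hby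
  · by_cases hay : a = y
    · rw [hay]
      by_cases hbx : b = x
      · rw [hbx]
        exact hsym _ _ hxy
      · by_cases hby : b = y
        · rw [hby]
          exact hyy
        · exact hy b hbx hby
    · by_cases hbx : b = x
      · rw [hbx]
        exact hsym _ _ (hx a hax hay)
      · by_cases hby : b = y
        · rw [hby]
          exact hsym _ _ (hy a hax hay)
        · exact ho a b hax hay hbx hby

/-- splitting a sum over `U` -/
theorem sum_U {U : Finset ℕ} {x y : ℕ} (hx : x ∈ U) (hy : y ∈ U) (hxy : x ≠ y)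
    (f : ℕ → ZMod 2) :
    ∑ b ∈ U, f b = f y + (f x + ∑ b ∈ (U.erase y).erase x, f b) := by
  rw [add_sum_erase _ _ (mem_erase.2 ⟨hxy, hx⟩), add_sum_erase _ _ hy]

theorem mem_U2 {U : Finset ℕ} {x y c : ℕ} : c ∈ (U.erase y).erase x ↔ c ≠ x ∧ c ≠ y ∧ c ∈ U := by
  rw [mem_erase, mem_erase]

theorem bld_symm {x y : ℕ} (hne : x ≠ y) {w : ℕ → ℕ → ZMod 2} {p q : ℕ → ZMod 2} {s : ZMod 2}
    (hw : ∀ a b, a ≠ x → a ≠ y → b ≠ x → b ≠ y → w a b = w b a) (a b : ℕ) :
    bld x y w p q s a b = bld x y w p q s b a := by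
  revert a b
  refine pair_ind (x := x) (y := y) (fun a b h => h.symm) rfl rfl ?_ ?_ ?_ ?_
  · rw [bld_xy hne, bld_yx hne]
  · intro c h1 h2
    rw [bld_x h1 h2, bld_x' h1 h2]
  · intro c h1 h2
    rw [bld_y hne h1 h2, bld_y' hne h1 h2]
  · intro a b h1 h2 h3 h4
    rw [bld_o h1 h2 h3 h4, bld_o h3 h4 h1 h2, hw a b h1 h2 h3 h4]

/-- criterion for the even edge functions -/
theorem cyc_bld {G : Gr} {U : Finset ℕ} {x y : ℕ} (hx : x ∈ U) (hy : y ∈ U) (hxy : G.Adj x y)
    {w : ℕ → ℕ → ZMod 2} {p q : ℕ → ZMod 2} {s : ZMod 2}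
    (hw : ∀ a b, a ≠ x → a ≠ y → b ≠ x → b ≠ y → w a b = w b a)
    (hw2 : ∀ a b, a ≠ x → a ≠ y → b ≠ x → b ≠ y → w a b ≠ 0 → G.Adj a b)
    (hp : ∀ c, c ≠ x → c ≠ y → p c ≠ 0 → G.Adj x c)
    (hq : ∀ c, c ≠ x → c ≠ y → q c ≠ 0 → G.Adj y c)
    (he : ∀ a ∈ (U.erase y).erase x, q a + (p a + ∑ b ∈ (U.erase y).erase x, w a b) = 0)
    (hsp : s + ∑ c ∈ (U.erase y).erase x, p c = 0)
    (hsq : s + ∑ c ∈ (U.erase y).erase x, q c = 0) : Cyc G U (bld x y w p q s) := by
  have hne : x ≠ y := hxy.ne
  refine ⟨bld_symm hne hw, ?_, ?_⟩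
  · refine pair_ind (x := x) (y := y) (fun a b h h' => ?_) ?_ ?_ ?_ ?_ ?_ ?_
    · rw [bld_symm hne hw] at h'
      exact (h h').symm
    · intro h
      exact absurd bld_xx h
    · intro h
      exact absurd (bld_yy hne) h
    · intro _
      exact hxy
    · intro c h1 h2 h
      rw [bld_x h1 h2] at h
      exact hp c h1 h2 h
    · intro c h1 h2 h
      rw [bld_y hne h1 h2] at h
      exact hq c h1 h2 h
    · intro a b h1 h2 h3 h4 h
      rw [bld_o h1 h2 h3 h4] at h
      exact hw2 a b h1 h2 h3 h4 h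
  · intro a ha
    rw [sum_U hx hy hne]
    by_cases hax : a = x
    · rw [hax, bld_xy hne, bld_xx, zero_add, ← hsp]
      congr 1
      refine sum_congr rfl (fun c hc => ?_)
      rw [mem_U2] at hc
      rw [bld_x hc.1 hc.2.1]
    · by_cases hay : a = y
      · rw [hay, bld_yy hne, bld_yx hne, zero_add, ← hsq]
        congr 1
        refine sum_congr rfl (fun c hc => ?_)
        rw [mem_U2] at hc
        rw [bld_y hne hc.1 hc.2.1]
      · rw [bld_x' hax hay, bld_y' hne hax hay, ← he a (mem_U2.2 ⟨hax, hay, ha⟩)]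
        congr 2
        refine sum_congr rfl (fun c hc => ?_)
        rw [mem_U2] at hc
        rw [bld_o hax hay hc.1 hc.2.1]

end K5.KuLiftAux

namespace K5.KuLiftAux

open Finset

section contr
variable {G : Gr} {U : Finset ℕ} {x y : ℕ}

theorem contr_o {a b : ℕ} (h1 : a ≠ x) (h2 : a ≠ y) (h3 : b ≠ x) (h4 : b ≠ y) :
    (contr G x y).Adj a b ↔ G.Adj a b := by
  constructor
  · rintro ⟨_, _, _, h | ⟨h, _⟩ | ⟨h, _⟩⟩
    · exact h
    · exact absurd h h1
    · exact absurd h h3
  · intro h
    exact ⟨h.ne, h2, h4, Or.inl h⟩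

theorem contr_x (hne : x ≠ y) {c : ℕ} (h1 : c ≠ x) (h2 : c ≠ y) :
    (contr G x y).Adj x c ↔ G.Adj x c ∨ G.Adj y c := by
  constructor
  · rintro ⟨_, _, _, h | ⟨_, h⟩ | ⟨h, _⟩⟩
    · exact Or.inl h
    · exact Or.inr h
    · exact absurd h h1
  · rintro (h | h)
    · exact ⟨h1.symm, hne, h2, Or.inl h⟩
    · exact ⟨h1.symm, hne, h2, Or.inr (Or.inl ⟨rfl, h⟩)⟩

theorem contr_ny {a : ℕ} : ¬ (contr G x y).Adj a y := fun h => h.2.2.1 rfl

theorem contr_ny' {a : ℕ} : ¬ (contr G x y).Adj y a := fun h => h.2.1 rfl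

theorem contr_mem (hon : On G U) {c : ℕ} (h : (contr G x y).Adj x c) :
    c ∈ (U.erase y).erase x := by
  refine mem_U2.2 ⟨h.1.symm, h.2.2.1, ?_⟩
  rcases h.2.2.2 with h' | ⟨_, h'⟩ | ⟨h', _⟩
  · exact hon c x h'.symm
  · exact hon c y h'.symm
  · exact absurd h' h.1.symm

theorem mem_nb (hon : On G U) {c : ℕ} (h : (contr G x y).Adj x c) :
    c ∈ nb (contr G x y) (U.erase y) x := by
  classical
  unfold nb
  exact mem_filter.2 ⟨mem_of_mem_erase (contr_mem hon h), h⟩

theorem sum_nb (hon : On G U) {f : ℕ → ZMod 2} (hf : ∀ c, f c ≠ 0 → (contr G x y).Adj x c) :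
    ∑ c ∈ nb (contr G x y) (U.erase y) x, f c = ∑ c ∈ (U.erase y).erase x, f c := by
  classical
  refine sum_subset ?_ ?_
  · intro c hc
    unfold nb at hc
    exact contr_mem hon (mem_filter.1 hc).2
  · intro c _ hc
    by_contra h
    exact hc (mem_nb hon (hf c h))

end contr

/-- the part with label true -/
def pL (lab : ℕ → Bool) (f : ℕ → ZMod 2) (c : ℕ) : ZMod 2 := if lab c = true then f c else 0

/-- the part with label false -/
def qL (lab : ℕ → Bool) (f : ℕ → ZMod 2) (c : ℕ) : ZMod 2 := if lab c = true then 0 else f c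

theorem pq (lab : ℕ → Bool) (f : ℕ → ZMod 2) (c : ℕ) : pL lab f c + qL lab f c = f c := by
  unfold pL qL
  split_ifs <;> simp

theorem pL_ne {lab : ℕ → Bool} {f : ℕ → ZMod 2} {c : ℕ} :
    pL lab f c ≠ 0 ↔ f c ≠ 0 ∧ lab c = true := by
  unfold pL
  split_ifs with h <;> simp [h]

theorem qL_ne {lab : ℕ → Bool} {f : ℕ → ZMod 2} {c : ℕ} :
    qL lab f c ≠ 0 ↔ f c ≠ 0 ∧ lab c = false := by
  unfold qL
  split_ifs with h
  · simp [h]
  · simp only [Bool.not_eq_true] at h
    simp [h]

theorem add_self (a : ZMod 2) : a + a = 0 := CharTwo.add_self_eq_zero a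

/-- the indicator of `k` -/
def dl (k b : ℕ) : ZMod 2 := if b = k then 1 else 0

theorem dl_ne {k b : ℕ} : dl k b ≠ 0 ↔ b = k := by
  unfold dl
  split_ifs with h <;> simp [h]

theorem sum_dl {W : Finset ℕ} {k : ℕ} (hk : k ∈ W) : ∑ b ∈ W, dl k b = 1 := by
  unfold dl
  rw [sum_ite_eq' W k (fun _ => (1 : ZMod 2)), if_pos hk]

theorem eq_one_of_ne {a : ZMod 2} (h : a ≠ 0) : a = 1 := by
  revert a
  decide

theorem z2a : ∀ A B C D : ZMod 2, A + B = C + D → A + C = B + D := by decide

theorem z2b : ∀ A B C : ZMod 2, A + B = 0 → A = C + (B + C) := by decide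

theorem z2c : ∀ A B : ZMod 2, A + B = 0 → A = B := by decide

theorem z2d : ∀ A B : ZMod 2, A = B + (A + B) := by decide

/-- the merged edge function -/
def mrg (x y : ℕ) (z : ℕ → ℕ → ZMod 2) : ℕ → ℕ → ZMod 2 :=
  bld x y z (fun c => z x c + z y c) (fun _ => 0) 0

theorem mrg_cyc {G : Gr} {U : Finset ℕ} {x y : ℕ} (hx : x ∈ U) (hy : y ∈ U) (hxy : G.Adj x y)
    {z : ℕ → ℕ → ZMod 2} (hz : Cyc G U z) : Cyc (contr G x y) (U.erase y) (mrg x y z) := by
  have hne := hxy.ne
  have hzxx : z x x = 0 := by
    by_contra h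
    exact (hz.supp x x h).ne rfl
  have hzyy : z y y = 0 := by
    by_contra h
    exact (hz.supp y y h).ne rfl
  have hsym : ∀ a b, mrg x y z a b = mrg x y z b a :=
    bld_symm hne (fun a b _ _ _ _ => hz.symm a b)
  refine ⟨hsym, ?_, ?_⟩
  · refine pair_ind (x := x) (y := y) (fun a b h h' => ?_) ?_ ?_ ?_ ?_ ?_ ?_
    · rw [hsym] at h'
      exact (h h').symm
    · intro h
      exact absurd bld_xx h
    · intro h
      exact absurd (bld_yy hne) h
    · intro h
      exact absurd (bld_xy hne) h
    · intro c h1 h2 h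
      unfold mrg at h
      rw [bld_x h1 h2] at h
      rw [contr_x hne h1 h2]
      by_cases hc : z x c = 0
      · rw [hc, zero_add] at h
        exact Or.inr (hz.supp _ _ h)
      · exact Or.inl (hz.supp _ _ hc)
    · intro c h1 h2 h
      exact absurd (bld_y hne h1 h2) h
    · intro a b h1 h2 h3 h4 h
      unfold mrg at h
      rw [bld_o h1 h2 h3 h4] at h
      exact (contr_o h1 h2 h3 h4).2 (hz.supp _ _ h)
  · intro a ha
    rw [← add_sum_erase _ _ (mem_erase.2 ⟨hne, hx⟩)]
    by_cases hax : a = x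
    · rw [hax]
      unfold mrg
      rw [bld_xx, zero_add]
      have h1 := hz.even x hx
      have h2 := hz.even y hy
      rw [sum_U hx hy hne, hzxx, zero_add] at h1
      rw [sum_U hx hy hne, hzyy, zero_add] at h2
      have h3 : ∑ c ∈ (U.erase y).erase x, bld x y z (fun c => z x c + z y c) (fun _ => 0) 0 x c
          = ∑ c ∈ (U.erase y).erase x, z x c + ∑ c ∈ (U.erase y).erase x, z y c := by
        rw [← sum_add_distrib]
        refine sum_congr rfl (fun c hc => ?_)
        rw [mem_U2] at hc
        rw [bld_x hc.1 hc.2.1]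
      rw [h3]
      have h4 : z x y + ∑ c ∈ (U.erase y).erase x, z x c
          + (z y x + ∑ c ∈ (U.erase y).erase x, z y c) = 0 := by
        rw [h1, h2, add_zero]
      rw [hz.symm y x, add_add_add_comm, add_self, zero_add] at h4
      exact h4
    · have hay : a ≠ y := (mem_erase.1 ha).1
      have haU : a ∈ U := (mem_erase.1 ha).2
      have h1 := hz.even a haU
      rw [sum_U hx hy hne] at h1
      unfold mrg
      rw [bld_x' hax hay]
      have h3 : ∑ c ∈ (U.erase y).erase x, bld x y z (fun c => z x c + z y c) (fun _ => 0) 0 a c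
          = ∑ c ∈ (U.erase y).erase x, z a c := by
        refine sum_congr rfl (fun c hc => ?_)
        rw [mem_U2] at hc
        rw [bld_o hax hay hc.1 hc.2.1]
      rw [h3, hz.symm x a, hz.symm y a, add_comm (z a x), add_assoc]
      exact h1

end K5.KuLiftAux

namespace K5

open Finset

open KuLiftAux in
theorem mac_lift {G : Gr} {U : Finset ℕ} (hon : On G U) {x y : ℕ} (hxy : G.Adj x y) {n : ℕ}
    {F : Fin n → ℕ → ℕ → ZMod 2} (hF : Faces (contr G x y) (U.erase y) n F)
    (lab : Fin n → ℕ → Bool)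
    (hlab : LabOK n (fun i c => F i x c) (nb (contr G x y) (U.erase y) x)
      (fun c => G.Adj x c) (fun c => G.Adj y c) lab) : Mac G U := by
  classical
  have hne : x ≠ y := hxy.ne
  have hx : x ∈ U := hon x y hxy
  have hy : y ∈ U := hon y x hxy.symm
  have hFs : ∀ i a b, F i a b = F i b a := fun i => (hF.cyc i).symm
  have hFxx : ∀ i, F i x x = 0 := by
    intro i
    by_contra h
    exact ((hF.cyc i).supp x x h).ne rfl
  have hF2 : ∀ a b, (univ.filter (fun i => F i a b ≠ 0)).card ≤ 2 := by
    intro a b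
    by_cases h : (contr G x y).Adj a b
    · exact le_of_eq (hF.two a b h)
    · rw [filter_false_of_mem (fun i _ => by
        intro h'
        exact h ((hF.cyc i).supp a b h'))]
      simp
  have hpX : ∀ i c, pL (lab i) (F i x) c ≠ 0 → (contr G x y).Adj x c := fun i c h =>
    (hF.cyc i).supp x c (pL_ne.1 h).1
  have hqX : ∀ i c, qL (lab i) (F i x) c ≠ 0 → (contr G x y).Adj x c := fun i c h =>
    (hF.cyc i).supp x c (qL_ne.1 h).1
  have hpG : ∀ i c, pL (lab i) (F i x) c ≠ 0 → G.Adj x c := fun i c h =>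
    hlab.tr i c (mem_nb hon (hpX i c h)) (pL_ne.1 h).1 (pL_ne.1 h).2
  have hqG : ∀ i c, qL (lab i) (F i x) c ≠ 0 → G.Adj y c := fun i c h =>
    hlab.fa i c (mem_nb hon (hqX i c h)) (qL_ne.1 h).1 (qL_ne.1 h).2
  have hFx0 : ∀ i, ∑ c ∈ (U.erase y).erase x, F i x c = 0 := by
    intro i
    have h := (hF.cyc i).even x (mem_erase.2 ⟨hne, hx⟩)
    rw [← add_sum_erase _ _ (mem_erase.2 ⟨hne, hx⟩), hFxx, zero_add] at h
    exact h
  have hFa0 : ∀ i, ∀ a ∈ (U.erase y).erase x,
      F i x a + ∑ c ∈ (U.erase y).erase x, F i a c = 0 := by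
    intro i a ha
    have h := (hF.cyc i).even a (mem_of_mem_erase ha)
    rw [← add_sum_erase _ _ (mem_erase.2 ⟨hne, hx⟩), hFs i a x] at h
    exact h
  set L : Fin n → ℕ → ℕ → ZMod 2 := fun i => bld x y (F i) (pL (lab i) (F i x))
    (qL (lab i) (F i x)) (∑ c ∈ nb (contr G x y) (U.erase y) x, pL (lab i) (F i x) c) with hL
  have hsum : ∀ i, ∑ c ∈ nb (contr G x y) (U.erase y) x, pL (lab i) (F i x) c =
      ∑ c ∈ (U.erase y).erase x, pL (lab i) (F i x) c := fun i => sum_nb hon (hpX i)
  have hLcyc : ∀ i, Cyc G U (L i) := by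
    intro i
    refine cyc_bld hx hy hxy (fun a b _ _ _ _ => hFs i a b) (fun a b h1 h2 h3 h4 h =>
      (contr_o h1 h2 h3 h4).1 ((hF.cyc i).supp a b h)) (fun c _ _ h => hpG i c h)
      (fun c _ _ h => hqG i c h) ?_ ?_ ?_
    · intro a ha
      rw [← add_assoc, add_comm (qL (lab i) (F i x) a), pq]
      exact hFa0 i a ha
    · rw [hsum]
      exact add_self _
    · rw [hsum, ← sum_add_distrib, ← hFx0 i]
      exact sum_congr rfl (fun c _ => pq _ _ _)
  set Y0 : Finset ℕ := ((U.erase y).erase x).filter (fun c => G.Adj x c ∧ G.Adj y c) with hY0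
  set T : {c // c ∈ Y0} → ℕ → ℕ → ZMod 2 := fun k => bld x y (fun _ _ => 0) (dl k.1) (dl k.1) 1
    with hT
  have hkY : ∀ c, c ∈ Y0 → c ∈ (U.erase y).erase x ∧ G.Adj x c ∧ G.Adj y c := by
    intro c hc
    exact mem_filter.1 hc
  have hTcyc : ∀ k, Cyc G U (T k) := by
    intro k
    have hk := hkY k.1 k.2
    refine cyc_bld hx hy hxy (fun _ _ _ _ _ _ => rfl) (fun _ _ _ _ _ _ h => absurd rfl h)
      (fun c _ _ h => ?_) (fun c _ _ h => ?_) ?_ ?_ ?_
    · rw [dl_ne.1 h]
      exact hk.2.1
    · rw [dl_ne.1 h]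
      exact hk.2.2
    · intro a _
      rw [sum_const_zero, add_zero]
      exact add_self _
    · rw [sum_dl hk.1]
      exact add_self _
    · rw [sum_dl hk.1]
      exact add_self _
  have hXc : ∀ c, c ∈ Y0 → c ∈ nb (contr G x y) (U.erase y) x := by
    intro c hc
    have h := hkY c hc
    rw [mem_U2] at h
    exact mem_nb hon ((contr_x hne h.1.1 h.1.2.1).2 (Or.inl h.2.1))
  refine mac_of_two L T hLcyc hTcyc ?_ ?_
  · -- every edge is in at most two
    refine pair_ind (x := x) (y := y) (fun a b h => ?_) ?_ ?_ ?_ ?_ ?_ ?_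
    · refine le_trans (le_of_eq ?_) h
      congr 2
      · refine filter_congr (fun i _ => ?_)
        rw [(hLcyc i).symm]
      · refine filter_congr (fun i _ => ?_)
        rw [(hTcyc i).symm]
    · rw [filter_false_of_mem (fun i _ => by simp [hL, bld_xx]),
        filter_false_of_mem (fun i _ => by simp [hT, bld_xx])]
      simp
    · rw [filter_false_of_mem (fun i _ => by simp [hL, bld_yy hne]),
        filter_false_of_mem (fun i _ => by simp [hT, bld_yy hne])]
      simp
    · obtain ⟨I, Y, hIY, hI, hY⟩ := hlab.two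
      refine le_trans (Nat.add_le_add ?_ ?_) hIY
      · refine card_le_card (fun i hi => ?_)
        refine hI i ?_
        have h := (mem_filter.1 hi).2
        simp only [hL] at h
        rw [bld_xy hne] at h
        exact h
      · refine le_trans (card_le_univ _) ?_
        rw [Fintype.card_coe]
        exact card_le_card (fun c hc => hY c (hXc c hc) (hkY c hc).2.1 (hkY c hc).2.2)
    · intro c h1 h2
      have hLc : ∀ i, L i x c ≠ 0 ↔ F i x c ≠ 0 ∧ lab i c = true := by
        intro i
        simp only [hL]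
        rw [bld_x h1 h2]
        exact pL_ne
      have hTc : ∀ k, T k x c ≠ 0 ↔ c = k.1 := by
        intro k
        simp only [hT]
        rw [bld_x h1 h2]
        exact dl_ne
      by_cases hc : c ∈ Y0
      · obtain ⟨i, hi⟩ := hlab.one c (hXc c hc) (hkY c hc).2.1 (hkY c hc).2.2
        have h3 : (univ.filter (fun i => L i x c ≠ 0)).card ≤ 1 := by
          refine le_trans (card_le_card (t := {i}) (fun j hj => ?_)) (by simp)
          rw [mem_singleton]
          exact (hi j).1 ((hLc j).1 (mem_filter.1 hj).2)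
        have h4 : (univ.filter (fun k => T k x c ≠ 0)).card ≤ 1 := by
          refine le_trans (card_le_card (t := {⟨c, hc⟩}) (fun j hj => ?_)) (by simp)
          rw [mem_singleton]
          exact Subtype.ext ((hTc j).1 (mem_filter.1 hj).2).symm
        omega
      · have h3 : (univ.filter (fun i => L i x c ≠ 0)).card ≤ 2 := by
          refine le_trans (card_le_card (fun j hj => ?_)) (hF2 x c)
          exact mem_filter.2 ⟨mem_univ _, ((hLc j).1 (mem_filter.1 hj).2).1⟩
        have h4 : (univ.filter (fun k => T k x c ≠ 0)).card = 0 := by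
          rw [card_eq_zero]
          refine filter_false_of_mem (fun k _ h => hc ?_)
          rw [(hTc k).1 h]
          exact k.2
        omega
    · intro c h1 h2
      have hLc : ∀ i, L i y c ≠ 0 ↔ F i x c ≠ 0 ∧ lab i c = false := by
        intro i
        simp only [hL]
        rw [bld_y hne h1 h2]
        exact qL_ne
      have hTc : ∀ k, T k y c ≠ 0 ↔ c = k.1 := by
        intro k
        simp only [hT]
        rw [bld_y hne h1 h2]
        exact dl_ne
      by_cases hc : c ∈ Y0
      · obtain ⟨i, hi⟩ := hlab.one c (hXc c hc) (hkY c hc).2.1 (hkY c hc).2.2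
        have h3 : (univ.filter (fun i => L i y c ≠ 0)).card ≤ 1 := by
          have hi' := (hi i).2 rfl
          have h5 : (univ.filter (fun i => L i y c ≠ 0)) ⊆
              (univ.filter (fun i => F i x c ≠ 0)).erase i := by
            intro j hj
            have hj' := (hLc j).1 (mem_filter.1 hj).2
            refine mem_erase.2 ⟨?_, mem_filter.2 ⟨mem_univ _, hj'.1⟩⟩
            intro hji
            rw [hji, hi'.2] at hj'
            exact absurd hj'.2 (by decide)
          refine le_trans (card_le_card h5) ?_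
          have hm : i ∈ univ.filter (fun i => F i x c ≠ 0) := mem_filter.2 ⟨mem_univ _, hi'.1⟩
          rw [card_erase_of_mem hm]
          have := hF2 x c
          omega
        have h4 : (univ.filter (fun k => T k y c ≠ 0)).card ≤ 1 := by
          refine le_trans (card_le_card (t := {⟨c, hc⟩}) (fun j hj => ?_)) (by simp)
          rw [mem_singleton]
          exact Subtype.ext ((hTc j).1 (mem_filter.1 hj).2).symm
        omega
      · have h3 : (univ.filter (fun i => L i y c ≠ 0)).card ≤ 2 := by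
          refine le_trans (card_le_card (fun j hj => ?_)) (hF2 x c)
          exact mem_filter.2 ⟨mem_univ _, ((hLc j).1 (mem_filter.1 hj).2).1⟩
        have h4 : (univ.filter (fun k => T k y c ≠ 0)).card = 0 := by
          rw [card_eq_zero]
          refine filter_false_of_mem (fun k _ h => hc ?_)
          rw [(hTc k).1 h]
          exact k.2
        omega
    · intro a b h1 h2 h3 h4
      have h5 : (univ.filter (fun i => L i a b ≠ 0)).card ≤ 2 := by
        refine le_trans (card_le_card (fun j hj => ?_)) (hF2 a b)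
        refine mem_filter.2 ⟨mem_univ _, ?_⟩
        have h := (mem_filter.1 hj).2
        simp only [hL] at h
        rw [bld_o h1 h2 h3 h4] at h
        exact h
      have h6 : (univ.filter (fun k => T k a b ≠ 0)).card = 0 := by
        rw [card_eq_zero]
        refine filter_false_of_mem (fun k _ h => ?_)
        simp only [hT] at h
        rw [bld_o h1 h2 h3 h4] at h
        exact h rfl
      omega
  · -- the span
    intro z hz
    obtain ⟨S, hS⟩ := hF.span _ (mrg_cyc hx hy hxy hz)
    have hzxx : z x x = 0 := by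
      by_contra h
      exact (hz.supp x x h).ne rfl
    have hzyy : z y y = 0 := by
      by_contra h
      exact (hz.supp y y h).ne rfl
    have hLx : ∀ c, c ≠ x → c ≠ y →
        ∑ i ∈ S, L i x c = ∑ i ∈ S, pL (lab i) (F i x) c := by
      intro c h1 h2
      refine sum_congr rfl (fun i _ => ?_)
      simp only [hL]
      exact bld_x h1 h2
    have hLy : ∀ c, c ≠ x → c ≠ y →
        ∑ i ∈ S, L i y c = ∑ i ∈ S, qL (lab i) (F i x) c := by
      intro c h1 h2
      refine sum_congr rfl (fun i _ => ?_)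
      simp only [hL]
      exact bld_y hne h1 h2
    -- the remainder on the star of `x`
    set δ : ℕ → ZMod 2 := fun c => z x c + ∑ i ∈ S, L i x c with hδ
    have hδy : ∀ c, c ≠ x → c ≠ y → δ c = z y c + ∑ i ∈ S, L i y c := by
      intro c h1 h2
      have h3 := hS x c
      unfold mrg at h3
      rw [bld_x h1 h2] at h3
      have h4 : ∑ i ∈ S, F i x c = ∑ i ∈ S, L i x c + ∑ i ∈ S, L i y c := by
        rw [hLx c h1 h2, hLy c h1 h2, ← sum_add_distrib]
        exact sum_congr rfl (fun i _ => (pq _ _ _).symm)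
      rw [h4] at h3
      exact z2a _ _ _ _ h3
    have hδ0 : ∀ c, c ≠ x → c ≠ y → δ c ≠ 0 → c ∈ Y0 := by
      intro c h1 h2 h
      have hxc : G.Adj x c := by
        by_contra hcon
        apply h
        have h3 : z x c = 0 := by
          by_contra h'
          exact hcon (hz.supp x c h')
        have h4 : ∑ i ∈ S, L i x c = 0 := by
          refine sum_eq_zero (fun i _ => ?_)
          by_contra h'
          exact hcon ((hLcyc i).supp x c h')
        simp only [hδ]
        rw [h3, h4, add_zero]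
      have hyc : G.Adj y c := by
        by_contra hcon
        apply h
        have h3 : z y c = 0 := by
          by_contra h'
          exact hcon (hz.supp y c h')
        have h4 : ∑ i ∈ S, L i y c = 0 := by
          refine sum_eq_zero (fun i _ => ?_)
          by_contra h'
          exact hcon ((hLcyc i).supp y c h')
        rw [hδy c h1 h2, h3, h4, add_zero]
      exact mem_filter.2 ⟨mem_U2.2 ⟨h1, h2, hon c x hxc.symm⟩, hxc, hyc⟩
    have hT1 : ∀ c, c ≠ x → c ≠ y →
        ∑ k ∈ univ.filter (fun k : {c // c ∈ Y0} => δ k.1 ≠ 0), dl k.1 c = δ c := by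
      intro c h1 h2
      rw [sum_filter]
      by_cases hc : δ c = 0
      · rw [hc]
        refine sum_eq_zero (fun k _ => ?_)
        split_ifs with h
        · by_contra h'
          rw [dl_ne.1 h'] at hc
          exact h hc
        · rfl
      · have hcY := hδ0 c h1 h2 hc
        rw [sum_eq_single (⟨c, hcY⟩ : {c // c ∈ Y0})]
        · rw [if_pos hc]
          simp only [dl, if_true]
          exact (eq_one_of_ne hc).symm
        · intro k _ hk
          split_ifs with h
          · by_contra h'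
            exact hk (Subtype.ext (dl_ne.1 h').symm)
          · rfl
        · intro h
          exact absurd (mem_univ _) h
    refine ⟨S, univ.filter (fun k : {c // c ∈ Y0} => δ k.1 ≠ 0), ?_⟩
    refine pair_ind (x := x) (y := y) (fun a b h => ?_) ?_ ?_ ?_ ?_ ?_ ?_
    · rw [hz.symm, h]
      congr 1
      · exact sum_congr rfl (fun i _ => (hLcyc i).symm _ _)
      · exact sum_congr rfl (fun i _ => (hTcyc i).symm _ _)
    · rw [hzxx, sum_eq_zero (fun i _ => by simp [hL, bld_xx]),
        sum_eq_zero (fun i _ => by simp [hT, bld_xx]), add_zero]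
    · rw [hzyy, sum_eq_zero (fun i _ => by simp [hL, bld_yy hne]),
        sum_eq_zero (fun i _ => by simp [hT, bld_yy hne]), add_zero]
    · -- the edge `x y`
      have h1 := hz.even x hx
      rw [sum_U hx hy hne, hzxx, zero_add] at h1
      have h2 : ∑ i ∈ S, L i x y = ∑ c ∈ (U.erase y).erase x, ∑ i ∈ S, L i x c := by
        rw [sum_comm]
        refine sum_congr rfl (fun i _ => ?_)
        have h3 := (hLcyc i).even x hx
        rw [sum_U hx hy hne] at h3
        have h4 : L i x x = 0 := by simp [hL, bld_xx]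
        rw [h4, zero_add] at h3
        exact z2c _ _ h3
      have h3 : ∑ k ∈ univ.filter (fun k : {c // c ∈ Y0} => δ k.1 ≠ 0), T k x y =
          ∑ c ∈ (U.erase y).erase x, δ c := by
        have h4 : ∑ c ∈ (U.erase y).erase x, δ c = ∑ c ∈ (U.erase y).erase x,
            ∑ k ∈ univ.filter (fun k : {c // c ∈ Y0} => δ k.1 ≠ 0), dl k.1 c := by
          refine sum_congr rfl (fun c hc => ?_)
          rw [mem_U2] at hc
          rw [hT1 c hc.1 hc.2.1]
        rw [h4, sum_comm]
        refine sum_congr rfl (fun k _ => ?_)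
        rw [sum_dl (hkY k.1 k.2).1]
        simp only [hT]
        exact bld_xy hne
      rw [h2, h3]
      have h5 : ∑ c ∈ (U.erase y).erase x, δ c = ∑ c ∈ (U.erase y).erase x, z x c +
          ∑ c ∈ (U.erase y).erase x, ∑ i ∈ S, L i x c := by
        rw [← sum_add_distrib]
      rw [h5]
      exact z2b _ _ _ h1
    · intro c h1 h2
      have h3 : ∑ k ∈ univ.filter (fun k : {c // c ∈ Y0} => δ k.1 ≠ 0), T k x c = δ c := by
        rw [← hT1 c h1 h2]
        refine sum_congr rfl (fun k _ => ?_)
        simp only [hT]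
        exact bld_x h1 h2
      rw [h3]
      exact z2d _ _
    · intro c h1 h2
      have h3 : ∑ k ∈ univ.filter (fun k : {c // c ∈ Y0} => δ k.1 ≠ 0), T k y c = δ c := by
        rw [← hT1 c h1 h2]
        refine sum_congr rfl (fun k _ => ?_)
        simp only [hT]
        exact bld_y hne h1 h2
      rw [h3, hδy c h1 h2]
      exact z2d _ _
    · intro a b h1 h2 h3 h4
      have h5 := hS a b
      unfold mrg at h5
      rw [bld_o h1 h2 h3 h4] at h5
      have h6 : ∑ k ∈ univ.filter (fun k : {c // c ∈ Y0} => δ k.1 ≠ 0), T k a b = 0 := by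
        refine sum_eq_zero (fun k _ => ?_)
        simp only [hT]
        exact bld_o h1 h2 h3 h4
      rw [h6, add_zero, h5]
      refine sum_congr rfl (fun i _ => ?_)
      simp only [hL]
      exact (bld_o h1 h2 h3 h4).symm

end K5
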