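import Pool.Agent.Lib.K5.KuStar

/-!
# K5.KuMin: a proper part of the edges at `v` is not even on all faces

PROOF.  Suppose `∑ u ∈ A, F i v u = 0` for all `i`.  By `span` (and linearity)
`∑ u ∈ A, z v u = 0` for all `z` with `Cyc G U z`.  Let `w` be a vertex of `U` different from `v`;
`cut_star` with `A`, `B = ∅` gives `τ` with `τ p + τ q = [p = v, q ∈ A] + [q = v, p ∈ A]` for all
edges.  `U.erase v` (write it as `(U.erase v).erase v`) is connected and its edges do not contain
`v`, so `τ` is constant on it (`conn_const`).  Let `s` be in `A` and `u` in `U`, `G.Adj v u`, `u`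
not in `A`: `τ v + τ s = 1`, `τ v + τ u = 0` (note `v` is not in `A` because `G` has no loops) and
`τ s = τ u`: contradiction.
-/

namespace K5

open Finset

theorem star_min {G : Gr} {U : Finset ℕ} {n : ℕ} {F : Fin n → ℕ → ℕ → ZMod 2} (hon : On G U)
    (h3 : Three G U) (hF : Faces G U n F) {v : ℕ} (hv : v ∈ U) (A : Finset ℕ)
    (hadj : ∀ u ∈ A, G.Adj v u) (hne : A.Nonempty) (hneq : ∃ u, G.Adj v u ∧ u ∉ A) :
    ∃ i, ∑ u ∈ A, F i v u ≠ 0 := by
  classical
  by_contra hcon
  push Not at hcon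
  -- orthogonal to all cycles
  have hz : ∀ z, Cyc G U z → ∑ u ∈ A, z v u = 0 := by
    intro z hz
    obtain ⟨S, hS⟩ := hF.span z hz
    have : ∑ u ∈ A, z v u = ∑ i ∈ S, ∑ u ∈ A, F i v u := by
      rw [Finset.sum_comm]
      exact Finset.sum_congr rfl (fun u _ => hS v u)
    rw [this]
    exact Finset.sum_eq_zero (fun i _ => hcon i)
  obtain ⟨w, hw, hwv⟩ := Finset.exists_mem_ne (s := U) (lt_of_lt_of_le (by norm_num) h3.1) v
  have hAU : A ⊆ U := fun u hu => hon _ _ (hadj u hu).symm
  have hvA : v ∉ A := fun h => G.loopless.irrefl v (hadj v h)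
  obtain ⟨τ, hτ⟩ := cut_star hon hv hw (Ne.symm hwv) A ∅ hAU (Finset.empty_subset _) hvA
    (Finset.notMem_empty _) (fun z hz' => by rw [hz z hz', Finset.sum_empty, add_zero])
  have hconn := h3.2 v v
  rw [Finset.erase_idem] at hconn
  have hconst := conn_const hconn τ (by
    intro p hp q hq hpq
    have h1 : p ≠ v := (Finset.mem_erase.1 hp).1
    have h2 : q ≠ v := (Finset.mem_erase.1 hq).1
    have h4 := hτ p q hpq
    simp only [h1, h2, false_and, and_false, if_false, Finset.notMem_empty, add_zero] at h4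
    have h5 : τ p = τ q := by
      have h6 : τ p + τ q = 0 := h4.symm
      have h7 : τ q + τ q = 0 := CharTwo.add_self_eq_zero _
      exact add_right_cancel (h6.trans h7.symm)
    exact h5)
  obtain ⟨s, hs⟩ := hne
  obtain ⟨u, hu, huA⟩ := hneq
  have hsv : s ≠ v := fun h => hvA (h ▸ hs)
  have huv : u ≠ v := fun h => G.loopless.irrefl v (h ▸ hu)
  have h1 := hτ v s (hadj s hs)
  have h2 := hτ v u hu
  simp only [hs, huA, hsv, hvA, huv, and_false, if_true, if_false,
    Finset.notMem_empty, add_zero, and_self] at h1 h2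
  have h5 := hconst s (Finset.mem_erase.2 ⟨hsv, hAU hs⟩) u
    (Finset.mem_erase.2 ⟨huv, hon _ _ hu.symm⟩)
  rw [h5, ← h2] at h1
  exact one_ne_zero h1

end K5
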