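import Pool.Agent.Lib.K5.Mac

/-!
# K5.KuOrder: the cyclic order

Call `i` incident with `x` if `f i x /= 0`.  Every `x` in `X` is incident with exactly two indices
(`h2`), every index is incident with an even number of elements of `X` (`heven`; in `ZMod 2` the sum
is the parity of the number of incident elements), and no nonempty proper subset of `X` is even on
all indices (`hmin`).

PROOF.  Consider data `(k, x, ψ)`: `x 0 = y0, x 1, ..., x k` distinct elements of `X`,
`ψ 0, ..., ψ (k - 1)` distinct indices with `ψ j` incident with `x j` and `x (j + 1)`, and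
`ψ j /= β` where `β` is one of the two indices of `y0` (fixed at the beginning, and `ψ 0 /= β` is
the other one; for `k = 0` there is no condition).  `k = 0` is possible and `k < |X|` always
(distinct elements), so choose such data with `k` maximal.  Let `ψ k` be the index of `x k`
different from `ψ (k - 1)` (for `k = 0` the index of `y0` different from `β`).
Case 1: `ψ k = β` and `k ≥ 1`.  Then `A = {x 0, ..., x k}` is even on all indices: the two indices
of `x j` are `ψ (j - 1), ψ j` (of `x 0`: `β = ψ k` and `ψ 0`), so an index is incident with elements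
of `A` only if it is one of `ψ 0, ..., ψ k`, which are distinct, and `ψ j` is incident with exactly
`x j, x (j + 1)` in `A` (`ψ k` with `x k`, `x 0`).  By `hmin` `A = X`.  Output (reversed, so that the
last element is `y0`): `m = k`, `u j = x (k - j)`, `φ j = ψ (k - 1 - j)` for `j < k`, `φ k = ψ k`.
Then `φ j` is incident exactly with `u j` and `u (j + 1)` for `j < m`, and `φ m` with `u m = x 0` and
`u 0 = x k`; `all` holds because the indices of the elements of `X = A` are among the `ψ`'s.
Case 2: `ψ k = ψ j` for some `j < k - 1` (it is not `ψ (k - 1)`).  Then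
`A = {x (j + 1), ..., x k}` is nonempty, does not contain `x 0`, and is even on all indices: the
indices of its elements are `ψ j, ..., ψ (k - 1)`, each incident with exactly two elements of `A`
(`ψ j` with `x (j + 1)` and `x k`): contradiction to `hmin`.
Case 3: `ψ k` is none of `ψ 0, ..., ψ (k - 1), β` (for `k = 0` it is not `β`).  `ψ k` is incident
with an even number of elements of `X`, at least one (`x k`), so with another element `x'`.  `x'`
is none of `x 0, ..., x (k - 1)`, whose indices are among `β, ψ 0, ..., ψ (k - 1)`.  So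
`x (k + 1) = x'` extends the data, against maximality.
(`β` itself: for `k = 0` case 3 applies.)
-/

namespace K5

open Finset

namespace KuOrderAux

/-- A trail: `σ j` and `σ (j + 1)` are the two indices of `x j`. -/
structure Tr {n : ℕ} (f : Fin n → ℕ → ZMod 2) (X : Finset ℕ) (y0 : ℕ) (k : ℕ) (x : ℕ → ℕ)
    (σ : ℕ → Fin n) : Prop where
  zero : x 0 = y0
  mem : ∀ j, j ≤ k → x j ∈ X
  inj : ∀ i j, i ≤ k → j ≤ k → x i = x j → i = j
  two : ∀ j, j ≤ k → ∀ i, f i (x j) ≠ 0 ↔ (i = σ j ∨ i = σ (j + 1))
  ne : ∀ j, j ≤ k → σ j ≠ σ (j + 1)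
  sinj : ∀ i j, i ≤ k → j ≤ k → σ i = σ j → i = j

lemma z2 (a : ZMod 2) (h : a ≠ 0) : a = 1 := by
  revert h
  revert a
  decide

lemma z22 (a : ZMod 2) : a + a = 0 := CharTwo.add_self_eq_zero a

/-- The two indices of `x`, one of them given. -/
lemma other {n : ℕ} {f : Fin n → ℕ → ZMod 2} {x : ℕ}
    (h : (univ.filter (fun i => f i x ≠ 0)).card = 2) (p : Fin n) (hp : f p x ≠ 0) :
    ∃ q, p ≠ q ∧ ∀ i, f i x ≠ 0 ↔ (i = p ∨ i = q) := by
  obtain ⟨a, b, hab, he⟩ := Finset.card_eq_two.1 h
  have hm : ∀ i, f i x ≠ 0 ↔ (i = a ∨ i = b) := by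
    intro i
    have h1 : i ∈ univ.filter (fun i => f i x ≠ 0) ↔ i ∈ ({a, b} : Finset (Fin n)) := by rw [he]
    rw [mem_filter, mem_insert, mem_singleton] at h1
    simpa using h1
  rcases (hm p).1 hp with h1 | h1
  · subst h1
    exact ⟨b, hab, hm⟩
  · subst h1
    refine ⟨a, hab.symm, fun i => ?_⟩
    rw [hm i]
    exact or_comm

lemma tele (g : ℕ → ZMod 2) (s t : ℕ) (h : s ≤ t) :
    ∑ j ∈ Ico s t, (g j + g (j + 1)) = g s + g t := by
  induction t, h using Nat.le_induction with
  | base => rw [Ico_self, sum_empty, z22]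
  | succ t h ih =>
    rw [sum_Ico_succ_top h, ih]
    calc g s + g t + (g t + g (t + 1)) = g s + g (t + 1) + (g t + g t) := by ring
      _ = g s + g (t + 1) := by rw [z22, add_zero]

/-- A closed part of a trail is even. -/
lemma even_part {n : ℕ} {f : Fin n → ℕ → ZMod 2} {X : Finset ℕ} {y0 k : ℕ} {x : ℕ → ℕ}
    {σ : ℕ → Fin n} (T : Tr f X y0 k x σ) (s : ℕ) (hs : s ≤ k) (he : σ (k + 1) = σ s) (i : Fin n) :
    ∑ a ∈ (Ico s (k + 1)).image x, f i a = 0 := by
  rw [sum_image]
  · have h1 : ∀ j ∈ Ico s (k + 1), f i (x j) =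
        (if i = σ j then (1 : ZMod 2) else 0) + (if i = σ (j + 1) then (1 : ZMod 2) else 0) := by
      intro j hj
      rw [mem_Ico] at hj
      have h2 := T.two j (by omega) i
      have h3 := T.ne j (by omega)
      by_cases e1 : i = σ j
      · have e2 : i ≠ σ (j + 1) := fun e => h3 (e1.symm.trans e)
        rw [if_pos e1, if_neg e2, add_zero]
        exact z2 _ (h2.2 (Or.inl e1))
      · by_cases e2 : i = σ (j + 1)
        · rw [if_neg e1, if_pos e2, zero_add]
          exact z2 _ (h2.2 (Or.inr e2))
        · rw [if_neg e1, if_neg e2, add_zero]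
          by_contra h4
          rcases h2.1 h4 with e | e
          · exact e1 e
          · exact e2 e
    rw [sum_congr rfl h1, tele (fun j => if i = σ j then (1 : ZMod 2) else 0) s (k + 1) (by omega)]
    show (if i = σ s then (1 : ZMod 2) else 0) + (if i = σ (k + 1) then (1 : ZMod 2) else 0) = 0
    rw [he, z22]
  · intro a ha b hb hab
    rw [mem_coe, mem_Ico] at ha hb
    exact T.inj a b (by omega) (by omega) hab

lemma link_of {n : ℕ} {f : Fin n → ℕ → ZMod 2} {X : Finset ℕ} {y0 k : ℕ} {x : ℕ → ℕ}
    {σ : ℕ → Fin n} (T : Tr f X y0 k x σ) (he : σ (k + 1) = σ 0)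
    (hX : (Ico 0 (k + 1)).image x = X) :
    Link n f X k (fun j => x (k - j)) (fun j => σ (k - j)) := by
  have hk : 1 ≤ k := by
    rcases Nat.eq_zero_or_pos k with h | h
    · subst h
      exact absurd he.symm (T.ne 0 le_rfl)
    · exact h
  refine ⟨hk, fun j _ => T.mem _ (by omega), fun i j hi hj h => ?_, fun a ha => ?_,
    fun i j hi hj h => ?_, fun i j hi hj => ?_, fun i j hj h => ?_⟩
  · have := T.inj _ _ (by omega) (by omega) h
    omega
  · rw [← hX, mem_image] at ha
    obtain ⟨j, hj, rfl⟩ := ha
    rw [mem_Ico] at hj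
    refine ⟨k - j, by omega, ?_⟩
    show x (k - (k - j)) = x j
    rw [show k - (k - j) = j by omega]
  · have := T.sinj _ _ (by omega) (by omega) h
    omega
  · show f (σ (k - i)) (x (k - j)) ≠ 0 ↔ _
    rw [T.two (k - j) (by omega)]
    constructor
    · rintro (h | h)
      · have := T.sinj _ _ (by omega) (by omega) h
        left
        omega
      · rcases Nat.eq_zero_or_pos j with h0 | h0
        · subst h0
          rw [Nat.sub_zero, he] at h
          have := T.sinj _ _ (by omega) (by omega) h
          right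
          right
          exact ⟨by omega, rfl⟩
        · have := T.sinj _ _ (by omega) (by omega) h
          right
          left
          omega
    · rintro (h | h | ⟨h, h'⟩)
      · left
        rw [h]
      · right
        rw [show k - j + 1 = k - i by omega]
      · right
        subst h'
        rw [Nat.sub_zero, he, h, Nat.sub_self]
  · rw [T.two (k - j) (by omega)] at h
    rcases h with h | h
    · exact ⟨j, hj, h⟩
    · rcases Nat.eq_zero_or_pos j with h0 | h0
      · subst h0
        rw [Nat.sub_zero, he] at h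
        refine ⟨k, le_rfl, ?_⟩
        show i = σ (k - k)
        rw [Nat.sub_self, h]
      · refine ⟨j - 1, by omega, ?_⟩
        show i = σ (k - (j - 1))
        rw [h, show k - j + 1 = k - (j - 1) by omega]

lemma step {n : ℕ} (f : Fin n → ℕ → ZMod 2) (X : Finset ℕ)
    (h2 : ∀ x ∈ X, (univ.filter (fun i => f i x ≠ 0)).card = 2)
    (heven : ∀ i, ∑ x ∈ X, f i x = 0)
    (hmin : ∀ A ⊆ X, A.Nonempty → A ≠ X → ∃ i, ∑ x ∈ A, f i x ≠ 0) (y0 k : ℕ) (x : ℕ → ℕ)
    (σ : ℕ → Fin n) (T : Tr f X y0 k x σ) :
    (∃ (m : ℕ) (u : ℕ → ℕ) (φ : ℕ → Fin n), Link n f X m u φ ∧ u m = y0) ∨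
      ∃ x' σ', Tr f X y0 (k + 1) x' σ' := by
  classical
  by_cases hc : ∃ s, s ≤ k ∧ σ (k + 1) = σ s
  · left
    obtain ⟨s, hs, he⟩ := hc
    have hsub : (Ico s (k + 1)).image x ⊆ X := by
      intro a ha
      rw [mem_image] at ha
      obtain ⟨j, hj, rfl⟩ := ha
      rw [mem_Ico] at hj
      exact T.mem j (by omega)
    have hAX : (Ico s (k + 1)).image x = X := by
      by_contra hne
      obtain ⟨i, hi⟩ := hmin _ hsub ⟨x s, mem_image_of_mem x (mem_Ico.2 ⟨le_rfl, by omega⟩)⟩ hne
      exact hi (even_part T s hs he i)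
    have hs0 : s = 0 := by
      have h0 : x 0 ∈ (Ico s (k + 1)).image x := by
        rw [hAX]
        exact T.mem 0 (Nat.zero_le _)
      rw [mem_image] at h0
      obtain ⟨j, hj, hj'⟩ := h0
      rw [mem_Ico] at hj
      have := T.inj j 0 (by omega) (by omega) hj'
      omega
    subst hs0
    refine ⟨k, _, _, link_of T he hAX, ?_⟩
    show x (k - k) = y0
    rw [Nat.sub_self, T.zero]
  · right
    have hc' : ∀ s, s ≤ k → σ (k + 1) ≠ σ s := fun s hs h => hc ⟨s, hs, h⟩
    have hxk : f (σ (k + 1)) (x k) ≠ 0 := (T.two k le_rfl _).2 (Or.inr rfl)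
    obtain ⟨y, hy, hyne, hyf⟩ : ∃ y ∈ X, y ≠ x k ∧ f (σ (k + 1)) y ≠ 0 := by
      by_contra hcon
      push Not at hcon
      have h3 := heven (σ (k + 1))
      rw [sum_eq_single (x k) (fun b hb hne => hcon b hb hne)
        (fun hn => absurd (T.mem k le_rfl) hn)] at h3
      exact hxk h3
    have hnew : ∀ j, j ≤ k → x j ≠ y := by
      intro j hj h
      rcases Nat.lt_or_ge j k with hlt | hge
      · have h4 : f (σ (k + 1)) (x j) ≠ 0 := by rw [h]; exact hyf
        rcases (T.two j hj _).1 h4 with e | e
        · exact hc' j hj e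
        · exact hc' (j + 1) (by omega) e
      · have : j = k := by omega
        subst this
        exact hyne h.symm
    obtain ⟨q, hq1, hq2⟩ := other (h2 y hy) (σ (k + 1)) hyf
    refine ⟨fun j => if j ≤ k then x j else y, fun j => if j ≤ k + 1 then σ j else q, ?_⟩
    refine ⟨?_, fun j hj => ?_, fun i j hi hj h => ?_, fun j hj i => ?_, fun j hj => ?_,
      fun i j hi hj h => ?_⟩
    · show (if 0 ≤ k then x 0 else y) = y0
      rw [if_pos (Nat.zero_le k), T.zero]
    · show (if j ≤ k then x j else y) ∈ X
      split_ifs with h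
      · exact T.mem j h
      · exact hy
    · change (if i ≤ k then x i else y) = (if j ≤ k then x j else y) at h
      by_cases h1 : i ≤ k
      · by_cases h3 : j ≤ k
        · rw [if_pos h1, if_pos h3] at h
          exact T.inj i j h1 h3 h
        · rw [if_pos h1, if_neg h3] at h
          exact absurd h (hnew i h1)
      · by_cases h3 : j ≤ k
        · rw [if_neg h1, if_pos h3] at h
          exact absurd h.symm (hnew j h3)
        · omega
    · show f i (if j ≤ k then x j else y) ≠ 0 ↔
        (i = (if j ≤ k + 1 then σ j else q) ∨ i = (if j + 1 ≤ k + 1 then σ (j + 1) else q))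
      by_cases h1 : j ≤ k
      · rw [if_pos h1, if_pos (by omega), if_pos (by omega)]
        exact T.two j h1 i
      · have hj1 : j = k + 1 := by omega
        subst hj1
        rw [if_neg h1, if_pos le_rfl, if_neg (by omega)]
        exact hq2 i
    · show (if j ≤ k + 1 then σ j else q) ≠ (if j + 1 ≤ k + 1 then σ (j + 1) else q)
      by_cases h1 : j ≤ k
      · rw [if_pos (by omega), if_pos (by omega)]
        exact T.ne j h1
      · have hj1 : j = k + 1 := by omega
        subst hj1
        rw [if_pos le_rfl, if_neg (by omega)]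
        exact hq1
    · change (if i ≤ k + 1 then σ i else q) = (if j ≤ k + 1 then σ j else q) at h
      rw [if_pos hi, if_pos hj] at h
      by_cases h1 : i ≤ k
      · by_cases h3 : j ≤ k
        · exact T.sinj i j h1 h3 h
        · have hj1 : j = k + 1 := by omega
          subst hj1
          exact absurd h.symm (hc' i h1)
      · have hi1 : i = k + 1 := by omega
        subst hi1
        by_cases h3 : j ≤ k
        · exact absurd h (hc' j h3)
        · omega

end KuOrderAux

open KuOrderAux in
theorem cyc_order {n : ℕ} (f : Fin n → ℕ → ZMod 2) (X : Finset ℕ)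
    (h2 : ∀ x ∈ X, (univ.filter (fun i => f i x ≠ 0)).card = 2)
    (heven : ∀ i, ∑ x ∈ X, f i x = 0)
    (hmin : ∀ A ⊆ X, A.Nonempty → A ≠ X → ∃ i, ∑ x ∈ A, f i x ≠ 0) (y0 : ℕ) (hy : y0 ∈ X) :
    ∃ (m : ℕ) (u : ℕ → ℕ) (φ : ℕ → Fin n), Link n f X m u φ ∧ u m = y0 := by
  by_contra hcon
  have hall : ∀ k, ∃ x σ, Tr f X y0 k x σ := by
    intro k
    induction k with
    | zero =>
      have hne : (univ.filter (fun i => f i y0 ≠ 0)).Nonempty := by
        rw [← Finset.card_pos, h2 y0 hy]
        norm_num
      obtain ⟨p, hp⟩ := hne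
      obtain ⟨q, hpq, hq⟩ := other (h2 y0 hy) p (mem_filter.1 hp).2
      refine ⟨fun _ => y0, fun j => if j = 0 then p else q, rfl, fun _ _ => hy,
        fun i j hi hj _ => by omega, fun j hj i => ?_, fun j hj => ?_,
        fun i j hi hj _ => by omega⟩
      · have hj0 : j = 0 := by omega
        subst hj0
        show f i y0 ≠ 0 ↔ (i = (if 0 = 0 then p else q) ∨ i = (if 0 + 1 = 0 then p else q))
        rw [if_pos rfl, if_neg (by omega)]
        exact hq i
      · have hj0 : j = 0 := by omega
        subst hj0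
        show (if 0 = 0 then p else q) ≠ (if 0 + 1 = 0 then p else q)
        rw [if_pos rfl, if_neg (by omega)]
        exact hpq
    | succ k ih =>
      obtain ⟨x, σ, T⟩ := ih
      rcases step f X h2 heven hmin y0 k x σ T with h | h
      · exact absurd h hcon
      · exact h
  obtain ⟨x, σ, T⟩ := hall X.card
  have h1 : ((range (X.card + 1)).image x).card ≤ X.card := by
    refine card_le_card fun a ha => ?_
    rw [mem_image] at ha
    obtain ⟨j, hj, rfl⟩ := ha
    rw [mem_range] at hj
    exact T.mem j (by omega)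
  rw [card_image_of_injOn, card_range] at h1
  · omega
  · intro a ha b hb hab
    rw [mem_coe, mem_range] at ha hb
    exact T.inj a b (by omega) (by omega) hab

end K5
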