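import Pool.Agent.Lib.K5.KuEdge
import Pool.Agent.Lib.K5.KuMin
import Pool.Agent.Lib.K5.KuOrder

/-!
# K5.KuLink: the cyclic order of the edges at a vertex of a 3-connected planar graph

PROOF.  Apply `cyc_order` with `f i x = F i v x` and `X = U.filter (G.Adj v)`: `h2` is `hF.two v x`;
`heven`: `∑ x ∈ X, F i v x = ∑ x ∈ U, F i v x = 0` (`supp`: outside `X` the value is 0); `hmin`:
a proper subset `A` of `X` misses some `u` in `X`, so `star_min` applies.  `2 ≤ m`: the map `u` is a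
bijection from `{0, ..., m}` onto `X`; if `m = 1` then `X = {u 0, u 1}`, but by `deg3` there is a
neighbour of `v` different from `u 0`, `u 1` (in `U` by `hon`), contradiction (`1 ≤ m` is
`Link.one`).
-/

namespace K5

open Finset

open Classical in
/-- The neighbours of `v` in `U`. -/
noncomputable def nb (G : Gr) (U : Finset ℕ) (v : ℕ) : Finset ℕ := U.filter (fun x => G.Adj v x)

theorem link_exists {G : Gr} {U : Finset ℕ} {n : ℕ} {F : Fin n → ℕ → ℕ → ZMod 2} (hon : On G U)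
    (h3 : Three G U) (hF : Faces G U n F) {v : ℕ} (hv : v ∈ U) {y0 : ℕ} (hy : G.Adj v y0) :
    ∃ (m : ℕ) (u : ℕ → ℕ) (φ : ℕ → Fin n),
      Link n (fun i x => F i v x) (nb G U v) m u φ ∧ u m = y0 ∧ 2 ≤ m := by
  classical
  have hmem : ∀ x, x ∈ nb G U v ↔ x ∈ U ∧ G.Adj v x := by
    intro x
    simp [nb]
  have hyU : y0 ∈ U := hon y0 v hy.symm
  have h2 : ∀ x ∈ nb G U v,
      (univ.filter (fun i => (fun i x => F i v x) i x ≠ 0)).card = 2 := by
    intro x hx
    exact hF.two v x ((hmem x).1 hx).2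
  have heven : ∀ i, ∑ x ∈ nb G U v, (fun i x => F i v x) i x = 0 := by
    intro i
    have h := (hF.cyc i).even v hv
    rw [← h]
    apply Finset.sum_subset
    · intro x hx
      exact ((hmem x).1 hx).1
    · intro x hxU hx
      by_contra hne
      exact hx ((hmem x).2 ⟨hxU, (hF.cyc i).supp v x hne⟩)
  have hmin : ∀ A ⊆ nb G U v, A.Nonempty → A ≠ nb G U v →
      ∃ i, ∑ x ∈ A, (fun i x => F i v x) i x ≠ 0 := by
    intro A hA hne hneq
    have hx : ∃ x, x ∈ nb G U v ∧ x ∉ A := by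
      by_contra hcon
      push Not at hcon
      exact hneq (Finset.Subset.antisymm hA hcon)
    obtain ⟨x, hx1, hx2⟩ := hx
    exact star_min hon h3 hF hv A (fun u hu => ((hmem u).1 (hA hu)).2) hne
      ⟨x, ((hmem x).1 hx1).2, hx2⟩
  obtain ⟨m, u, φ, hL, hm⟩ := cyc_order (fun i x => F i v x) (nb G U v) h2 heven hmin y0
    ((hmem y0).2 ⟨hyU, hy⟩)
  refine ⟨m, u, φ, hL, hm, ?_⟩
  by_contra hlt
  have h1 := hL.one
  have hm1 : m = 1 := by omega
  obtain ⟨x, hx, hx0, hx1⟩ := deg3 hon h3 hv (u 0) (u 1)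
  have hxU : x ∈ U := hon x v hx.symm
  obtain ⟨k, hk, hkx⟩ := hL.surj x ((hmem x).2 ⟨hxU, hx⟩)
  rw [hm1] at hk
  rcases Nat.le_one_iff_eq_zero_or_eq_one.1 hk with h0 | h1'
  · exact hx0 (by rw [← hkx, h0])
  · exact hx1 (by rw [← hkx, h1'])

end K5
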