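import Pool.Agent.Lib.K5.KuSplit

/-!
# K5.KuMinor: `K_(3,3)` and `K_5` minors from a ring and two adjacent vertices

PROOF.  Take the sets `A i` of `ring4_sets` / `ring3_sets`; `x`, `y` are in none of them (they are
contained in the `W j`), and `x /= y`.
`K33_of_ring`: one side `{x}`, `A 1`, `A 3`, other side `{y}`, `A 0`, `A 2`.  Edges: `x y`;
`x` - `p 0` in `A 0`; `x` - `p 2` in `A 2`; `A 1` - `y` (`p 1`); `A 1` - `A 0` and `A 1` - `A 2`
(consecutive, use symmetry of adjacency); `A 3` - `y` (`p 3`); `A 3` - `A 0` (`A 3`, `A (3 + 1) = A 0`);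
`A 3` - `A 2`.
`K5_of_ring`: the sets `{x}`, `{y}`, `A 0`, `A 1`, `A 2` (`![{x}, {y}, A 0, A 1, A 2]`), all pairs
adjacent: `A 0`-`A 1`, `A 1`-`A 2`, `A 2`-`A 0`, `x`, `y` adjacent to each `p i` and to each other.
-/

namespace K5

open Finset

theorem K33_of_ring {G : Gr} {p : Fin 4 → ℕ} {W : Fin 4 → Finset ℕ} (hR : Ring4 G p W) {x y : ℕ}
    (hxy : G.Adj x y) (hx : ∀ i, x ∉ W i) (hy : ∀ i, y ∉ W i) (h0 : G.Adj x (p 0))
    (h2 : G.Adj x (p 2)) (h1 : G.Adj y (p 1)) (h3 : G.Adj y (p 3)) : K33 G := by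
  classical
  obtain ⟨S, hC, hD, hp, hA, hsub⟩ := ring4_sets hR
  have hxS : ∀ i, x ∉ S i := by
    intro i h
    obtain ⟨j, hj⟩ := hsub i x h
    exact hx j hj
  have hyS : ∀ i, y ∉ S i := by
    intro i h
    obtain ⟨j, hj⟩ := hsub i y h
    exact hy j hj
  have hne : x ≠ y := hxy.ne
  obtain ⟨a0, ha0, b0, hb0, e0⟩ := hA 0
  obtain ⟨a1, ha1, b1, hb1, e1⟩ := hA 1
  obtain ⟨a2, ha2, b2, hb2, e2⟩ := hA 2
  obtain ⟨a3, ha3, b3, hb3, e3⟩ := hA 3
  have dx : ∀ i, Disjoint ({x} : Finset ℕ) (S i) := fun i =>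
    Finset.disjoint_singleton_left.2 (hxS i)
  have dy : ∀ i, Disjoint ({y} : Finset ℕ) (S i) := fun i =>
    Finset.disjoint_singleton_left.2 (hyS i)
  have dxy : Disjoint ({x} : Finset ℕ) {y} := Finset.disjoint_singleton.2 hne
  refine ⟨![{x}, S 1, S 3], ![{y}, S 0, S 2], ?_, ?_, ?_, ?_, ?_, ?_⟩
  · intro i
    fin_cases i
    · exact P512.conn_singleton G x
    · exact hC 1
    · exact hC 3
  · intro i
    fin_cases i
    · exact P512.conn_singleton G y
    · exact hC 0
    · exact hC 2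
  · intro i j hij
    fin_cases i <;> fin_cases j
    · exact absurd rfl hij
    · exact dx 1
    · exact dx 3
    · exact (dx 1).symm
    · exact absurd rfl hij
    · exact hD 1 3 (by decide)
    · exact (dx 3).symm
    · exact hD 3 1 (by decide)
    · exact absurd rfl hij
  · intro i j hij
    fin_cases i <;> fin_cases j
    · exact absurd rfl hij
    · exact dy 0
    · exact dy 2
    · exact (dy 0).symm
    · exact absurd rfl hij
    · exact hD 0 2 (by decide)
    · exact (dy 2).symm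
    · exact hD 2 0 (by decide)
    · exact absurd rfl hij
  · intro i j
    fin_cases i <;> fin_cases j
    · exact dxy
    · exact dx 0
    · exact dx 2
    · exact (dy 1).symm
    · exact hD 1 0 (by decide)
    · exact hD 1 2 (by decide)
    · exact (dy 3).symm
    · exact hD 3 0 (by decide)
    · exact hD 3 2 (by decide)
  · intro i j
    fin_cases i <;> fin_cases j
    · exact ⟨x, Finset.mem_singleton_self x, y, Finset.mem_singleton_self y, hxy⟩
    · exact ⟨x, Finset.mem_singleton_self x, p 0, hp 0, h0⟩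
    · exact ⟨x, Finset.mem_singleton_self x, p 2, hp 2, h2⟩
    · exact ⟨p 1, hp 1, y, Finset.mem_singleton_self y, h1.symm⟩
    · exact ⟨b0, hb0, a0, ha0, e0.symm⟩
    · exact ⟨a1, ha1, b1, hb1, e1⟩
    · exact ⟨p 3, hp 3, y, Finset.mem_singleton_self y, h3.symm⟩
    · exact ⟨a3, ha3, b3, hb3, e3⟩
    · exact ⟨b2, hb2, a2, ha2, e2.symm⟩

theorem K5_of_ring {G : Gr} {p : Fin 3 → ℕ} {W : Fin 3 → Finset ℕ} (hR : Ring3 G p W) {x y : ℕ}
    (hxy : G.Adj x y) (hx : ∀ i, x ∉ W i) (hy : ∀ i, y ∉ W i) (h : ∀ i, G.Adj x (p i))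
    (h' : ∀ i, G.Adj y (p i)) : P512.K5 G := by
  classical
  obtain ⟨S, hC, hD, hp, hA, hsub⟩ := ring3_sets hR
  have hxS : ∀ i, x ∉ S i := by
    intro i h
    obtain ⟨j, hj⟩ := hsub i x h
    exact hx j hj
  have hyS : ∀ i, y ∉ S i := by
    intro i h
    obtain ⟨j, hj⟩ := hsub i y h
    exact hy j hj
  have hne : x ≠ y := hxy.ne
  obtain ⟨a0, ha0, b0, hb0, e0⟩ := hA 0
  obtain ⟨a1, ha1, b1, hb1, e1⟩ := hA 1
  obtain ⟨a2, ha2, b2, hb2, e2⟩ := hA 2
  have dx : ∀ i, Disjoint ({x} : Finset ℕ) (S i) := fun i =>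
    Finset.disjoint_singleton_left.2 (hxS i)
  have dy : ∀ i, Disjoint ({y} : Finset ℕ) (S i) := fun i =>
    Finset.disjoint_singleton_left.2 (hyS i)
  have dxy : Disjoint ({x} : Finset ℕ) {y} := Finset.disjoint_singleton.2 hne
  refine ⟨![{x}, {y}, S 0, S 1, S 2], ?_, ?_, ?_⟩
  · intro i
    fin_cases i
    · exact P512.conn_singleton G x
    · exact P512.conn_singleton G y
    · exact hC 0
    · exact hC 1
    · exact hC 2
  · intro i j hij
    fin_cases i <;> fin_cases j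
    · exact absurd rfl hij
    · exact dxy
    · exact dx 0
    · exact dx 1
    · exact dx 2
    · exact dxy.symm
    · exact absurd rfl hij
    · exact dy 0
    · exact dy 1
    · exact dy 2
    · exact (dx 0).symm
    · exact (dy 0).symm
    · exact absurd rfl hij
    · exact hD 0 1 (by decide)
    · exact hD 0 2 (by decide)
    · exact (dx 1).symm
    · exact (dy 1).symm
    · exact hD 1 0 (by decide)
    · exact absurd rfl hij
    · exact hD 1 2 (by decide)
    · exact (dx 2).symm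
    · exact (dy 2).symm
    · exact hD 2 0 (by decide)
    · exact hD 2 1 (by decide)
    · exact absurd rfl hij
  · intro i j hij
    fin_cases i <;> fin_cases j
    · exact absurd rfl hij
    · exact ⟨x, Finset.mem_singleton_self x, y, Finset.mem_singleton_self y, hxy⟩
    · exact ⟨x, Finset.mem_singleton_self x, p 0, hp 0, h 0⟩
    · exact ⟨x, Finset.mem_singleton_self x, p 1, hp 1, h 1⟩
    · exact ⟨x, Finset.mem_singleton_self x, p 2, hp 2, h 2⟩
    · exact ⟨y, Finset.mem_singleton_self y, x, Finset.mem_singleton_self x, hxy.symm⟩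
    · exact absurd rfl hij
    · exact ⟨y, Finset.mem_singleton_self y, p 0, hp 0, h' 0⟩
    · exact ⟨y, Finset.mem_singleton_self y, p 1, hp 1, h' 1⟩
    · exact ⟨y, Finset.mem_singleton_self y, p 2, hp 2, h' 2⟩
    · exact ⟨p 0, hp 0, x, Finset.mem_singleton_self x, (h 0).symm⟩
    · exact ⟨p 0, hp 0, y, Finset.mem_singleton_self y, (h' 0).symm⟩
    · exact absurd rfl hij
    · exact ⟨a0, ha0, b0, hb0, e0⟩
    · exact ⟨b2, hb2, a2, ha2, e2.symm⟩
    · exact ⟨p 1, hp 1, x, Finset.mem_singleton_self x, (h 1).symm⟩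
    · exact ⟨p 1, hp 1, y, Finset.mem_singleton_self y, (h' 1).symm⟩
    · exact ⟨b0, hb0, a0, ha0, e0.symm⟩
    · exact absurd rfl hij
    · exact ⟨a1, ha1, b1, hb1, e1⟩
    · exact ⟨p 2, hp 2, x, Finset.mem_singleton_self x, (h 2).symm⟩
    · exact ⟨p 2, hp 2, y, Finset.mem_singleton_self y, (h' 2).symm⟩
    · exact ⟨a2, ha2, b2, hb2, e2⟩
    · exact ⟨b1, hb1, a1, ha1, e1.symm⟩
    · exact absurd rfl hij

end K5
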