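import Pool.Agent.Lib.K5.Mac

/-!
# K5.KuSet: the part of a face outside `v` connects its two neighbours of `v`

PROOF.  Let `Z` be the graph with `Z.Adj a b` iff `z a b /= 0` (symmetric by `hz.symm`, without
loops since it is contained in `G`).  `{p}` is connected in `Z`; let `W` be the hull of `{p}` inside
`U.erase v` in the graph `Z` (`P512.hull Z {p} (U.erase v)`; `p` is in `U` by `hon` and `p /= v`):
`p` in `W`, `W` inside `U.erase v`, `W` connected in `Z` (hence in `G`: every `Z`-edge is a `G`-edge),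
and every `Z`-neighbour of an element of `W` that lies in `U.erase v` is in `W`.
Claim `q` is in `W`.  Suppose not.  Sum the equations `∑ b ∈ U, z w b = 0` over `w` in `W`:
`0 = ∑ w ∈ W, ∑ b ∈ U, z w b = ∑ w ∈ W, ∑ b ∈ W, z w b + ∑ w ∈ W, ∑ b ∈ U \ W, z w b`.  The first
double sum is 0 in `ZMod 2` (symmetric with zero diagonal: swap the two variables; e.g.
`Finset.sum_comm` and pair up, or `Finset.sum_involution` on `W ×ˢ W`).  In the second one
`z w b /= 0` with `b` outside `W` forces `b = v`, so it is `∑ w ∈ W, z w v = ∑ w ∈ W, z v w`, and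
`z v w /= 0` only for `w = p` or `w = q`, `q` not in `W`: the sum is `z v p = 1`.  Contradiction
`0 = 1`.
Last clause: every `w` in `W` has some `r` with `z w r /= 0`: for `w = p` take `r = v`
(`z p v = z v p`); otherwise `W` is connected in `Z` and has at least two elements, apply
connectedness to `P = {w}`.
-/

namespace K5

open Finset

namespace KuSetAux

theorem sym_sum (z : ℕ → ℕ → ZMod 2) (hs : ∀ a b, z a b = z b a) (h0 : ∀ a, z a a = 0)
    (W : Finset ℕ) : ∑ w ∈ W, ∑ b ∈ W, z w b = 0 := by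
  classical
  induction W using Finset.induction_on with
  | empty => simp
  | insert a s ha ih =>
    rw [Finset.sum_insert ha, Finset.sum_insert ha, h0 a]
    have h1 : ∑ w ∈ s, ∑ b ∈ insert a s, z w b = ∑ w ∈ s, z w a + ∑ w ∈ s, ∑ b ∈ s, z w b := by
      rw [← Finset.sum_add_distrib]
      refine Finset.sum_congr rfl (fun w _ => ?_)
      rw [Finset.sum_insert ha]
    rw [h1, ih]
    have h2 : ∑ w ∈ s, z w a = ∑ b ∈ s, z a b := Finset.sum_congr rfl (fun w _ => hs w a)
    rw [h2, zero_add, add_zero]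
    exact CharTwo.add_self_eq_zero _

end KuSetAux

theorem face_set {G : Gr} {U : Finset ℕ} {z : ℕ → ℕ → ZMod 2} (hon : On G U) (hz : Cyc G U z)
    {v p q : ℕ} (hpq : p ≠ q) (hp : z v p ≠ 0) (hq : z v q ≠ 0)
    (honly : ∀ r, z v r ≠ 0 → r = p ∨ r = q) :
    ∃ W : Finset ℕ, P512.Conn G W ∧ W ⊆ U ∧ v ∉ W ∧ p ∈ W ∧ q ∈ W ∧ ∀ w ∈ W, ∃ r, z w r ≠ 0 := by
  classical
  let Z : Gr := { Adj := fun a b => z a b ≠ 0
                  symm := ⟨fun a b h => by rw [hz.symm]; exact h⟩
                  loopless := ⟨fun a h => G.loopless.irrefl a (hz.supp a a h)⟩ }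
  have hpv : p ≠ v := fun h => by
    rw [h] at hp
    exact G.loopless.irrefl _ (hz.supp _ _ hp)
  have hpU : p ∈ U := hon _ _ (hz.supp _ _ hp).symm
  have hvU : v ∈ U := hon _ _ (hz.supp _ _ hp)
  have hpv' : z p v ≠ 0 := by rw [hz.symm]; exact hp
  have h0 : ∀ a, z a a = 0 := fun a => by
    by_contra hne
    exact G.loopless.irrefl _ (hz.supp _ _ hne)
  obtain ⟨W, h1, h2, h3, h4⟩ := P512.hull Z {p} (U.erase v) (P512.conn_singleton Z p)
    (Finset.singleton_subset_iff.2 (Finset.mem_erase.2 ⟨hpv, hpU⟩))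
  have hpW : p ∈ W := Finset.singleton_subset_iff.1 h1
  have hvW : v ∉ W := fun h => Finset.notMem_erase v U (h2 h)
  have hWU : W ⊆ U := h2.trans (Finset.erase_subset _ _)
  have hqW : q ∈ W := by
    by_contra hq'
    have s1 : ∑ w ∈ W, ∑ b ∈ U, z w b = 0 := Finset.sum_eq_zero (fun w hw => hz.even w (hWU hw))
    have s2 : ∑ w ∈ W, ∑ b ∈ U, z w b = ∑ w ∈ W, z w v + ∑ w ∈ W, ∑ b ∈ W, z w b := by
      rw [← Finset.sum_add_distrib]
      refine Finset.sum_congr rfl (fun w hw => ?_)
      rw [← Finset.sum_insert hvW]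
      symm
      refine Finset.sum_subset (Finset.insert_subset hvU hWU) (fun b hb hbn => ?_)
      by_contra hne
      rw [Finset.mem_insert, not_or] at hbn
      exact hbn.2 (h4 w hw b (Finset.mem_erase.2 ⟨hbn.1, hb⟩) hne)
    have s3 : ∑ w ∈ W, z w v = z p v := by
      refine Finset.sum_eq_single p (fun w hw hwp => ?_) (fun h => absurd hpW h)
      by_contra hne
      rw [hz.symm] at hne
      rcases honly w hne with h | h
      · exact hwp h
      · exact hq' (h ▸ hw)
    rw [s2, s3, KuSetAux.sym_sum z hz.symm h0 W, add_zero] at s1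
    exact hpv' s1
  refine ⟨W, ⟨h3.1, fun P hP hne hneq => ?_⟩, hWU, hvW, hpW, hqW, fun w hw => ?_⟩
  · obtain ⟨a, ha, b, hb, hbn, hab⟩ := h3.2 P hP hne hneq
    exact ⟨a, ha, b, hb, hbn, hz.supp a b hab⟩
  · by_cases hwp : w = p
    · exact ⟨v, by rw [hwp]; exact hpv'⟩
    · obtain ⟨a, ha, b, hb, hbn, hab⟩ := h3.2 {w} (Finset.singleton_subset_iff.2 hw)
        (Finset.singleton_nonempty w) (fun h => hwp (by
          rw [← h] at hpW
          exact (Finset.mem_singleton.1 hpW).symm))
      rw [Finset.mem_singleton] at ha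
      subst ha
      exact ⟨b, hab⟩

end K5
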