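import Pool.Agent.Lib.K5.KuTwo
import Pool.Agent.Lib.K5.KuSet

/-!
# K5.KuNeck: the necklace around a vertex

PROOF.  For `k ≤ m` the face `φ k` is incident at `v` exactly with `u k` and `u (k + 1)` (`k < m`),
resp. `u m` and `u 0` (`k = m`): `Link.inc` and `Link.surj` (if `F (φ k) v r /= 0` then `r` is in
`nb G U v` by `supp` and `hon`).  These two are different (`inj`, `1 ≤ m`).  `face_set` gives `W k`
(choose for each `k ≤ m`, and `W k = ∅` otherwise; `Classical.choose`/`choose`).  All fields except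
`meet` are immediate.  `meet`: let `i < j ≤ m`, `w` in `W i` and `W j`.  `w` is in `U`, `w /= v`,
and by the last clause of `face_set` both faces `φ i`, `φ j` (different, by `finj`) have an edge at
`w`; they have edges at `v`.  So by `two_faces` `G.Adj v w`, `F (φ i) v w /= 0`,
`F (φ j) v w /= 0`.  So `w = u k` for some `k ≤ m` (`surj`), and by `inc`: (`i = k` or `i + 1 = k`
or (`i = m` and `k = 0`)) and the same for `j`.  Since `i < j ≤ m`: either `j = k`, `i + 1 = k` (so
`j = i + 1`, `w = u j`), or `i = k = 0`, `j = m` (so `w = u 0`).  (`omega` after the case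
distinction.)
-/

namespace K5

open Finset

theorem neck_exists {G : Gr} {U : Finset ℕ} {n : ℕ} {F : Fin n → ℕ → ℕ → ZMod 2} (hon : On G U)
    (h3 : Three G U) (hF : Faces G U n F) {v : ℕ} (hv : v ∈ U) {m : ℕ} {u : ℕ → ℕ}
    {φ : ℕ → Fin n} (hL : Link n (fun i x => F i v x) (nb G U v) m u φ) :
    ∃ W : ℕ → Finset ℕ, Neck G U v m u W := by
  classical
  have hmem : ∀ c, c ∈ nb G U v ↔ c ∈ U ∧ G.Adj v c := fun c => by
    unfold nb
    rw [Finset.mem_filter]
  have hone := hL.one
  have hex : ∀ k, ∃ W : Finset ℕ, k ≤ m → P512.Conn G W ∧ W ⊆ U ∧ v ∉ W ∧ u k ∈ W ∧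
      u (if k = m then 0 else k + 1) ∈ W ∧ ∀ w ∈ W, ∃ r, F (φ k) w r ≠ 0 := by
    intro k
    by_cases hk : k ≤ m
    · have hk' : (if k = m then 0 else k + 1) ≤ m := by split_ifs <;> omega
      have hne : u k ≠ u (if k = m then 0 else k + 1) := by
        intro h
        have := hL.inj k _ hk hk' h
        split_ifs at this <;> omega
      have hp : F (φ k) v (u k) ≠ 0 := (hL.inc k k hk hk).2 (Or.inl rfl)
      have hq : F (φ k) v (u (if k = m then 0 else k + 1)) ≠ 0 := by
        refine (hL.inc k _ hk hk').2 ?_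
        split_ifs with h
        · exact Or.inr (Or.inr ⟨h, rfl⟩)
        · exact Or.inr (Or.inl rfl)
      obtain ⟨W, hW⟩ := face_set hon (hF.cyc (φ k)) hne hp hq (by
        intro r hr
        have hadj := (hF.cyc (φ k)).supp v r hr
        obtain ⟨l, hl, rfl⟩ := hL.surj r ((hmem r).2 ⟨hon _ _ hadj.symm, hadj⟩)
        rcases (hL.inc k l hk hl).1 hr with h | h | h
        · exact Or.inl (by rw [h])
        · right
          have : k ≠ m := by omega
          rw [if_neg this, h]
        · right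
          rw [if_pos h.1, h.2])
      exact ⟨W, fun _ => hW⟩
    · exact ⟨∅, fun h => absurd h hk⟩
  choose W hW using hex
  refine ⟨W, ?_, ?_, ?_, ?_, ?_, ?_, ?_⟩
  · exact fun k hk => (hW k hk).1
  · exact fun k hk => (hW k hk).2.1
  · exact fun k hk => (hW k hk).2.2.1
  · exact fun k hk => (hW k hk).2.2.2.1
  · intro k hk
    have := (hW k hk.le).2.2.2.2.1
    rwa [if_neg (by omega)] at this
  · have := (hW m le_rfl).2.2.2.2.1
    rwa [if_pos rfl] at this
  · intro i j hij hj w hwi hwj
    have hi : i ≤ m := by omega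
    have hwU : w ∈ U := (hW i hi).2.1 hwi
    have hwv : v ≠ w := fun h => (hW i hi).2.2.1 (h ▸ hwi)
    have hφ : φ i ≠ φ j := fun h => by
      have := hL.finj i j hi hj h
      omega
    obtain ⟨hadj, h1, h2⟩ := two_faces hon h3 hF hv hwU hwv hφ
      ⟨u i, (hL.inc i i hi hi).2 (Or.inl rfl)⟩ ((hW i hi).2.2.2.2.2 w hwi)
      ⟨u j, (hL.inc j j hj hj).2 (Or.inl rfl)⟩ ((hW j hj).2.2.2.2.2 w hwj)
    obtain ⟨k, hk, rfl⟩ := hL.surj w ((hmem w).2 ⟨hwU, hadj⟩)
    rcases (hL.inc i k hi hk).1 h1 with h | h | h <;>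
      rcases (hL.inc j k hj hk).1 h2 with h' | h' | h'
    · omega
    · omega
    · right
      refine ⟨by omega, h'.1, by rw [h'.2]⟩
    · left
      exact ⟨by omega, by rw [h']⟩
    · omega
    · omega
    · omega
    · omega
    · omega

end K5
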