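import Pool.Agent.Lib.K5.Mac

/-!
# K5.KuNorm: from `Mac` to `Faces` (add the sum of all faces)

PROOF.  Let `F : Fin n → ..` be the family of `Mac`.  Define `F' : Fin (n + 1) → ..` by `F' i = F i`
for the first `n` indices (`Fin.castSucc i`) and `F' (Fin.last n) = ∑ i, F i`
(`F' = Fin.snoc F (fun a b => ∑ i, F i a b)`).  `cyc`: a sum of elements of the cycle space is one
(symmetry and evenness are linear; if the sum is not 0 at `a b` then some `F i a b` is not 0).
`two`: let `G.Adj a b` and let `c` be the number of `i` with `F i a b /= 0`; `c ≤ 2`.  By `he` and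
`span` some `F i a b /= 0`, so `c = 1` or `c = 2`.  In `ZMod 2` a nonzero value is `1`, so
`∑ i, F i a b = c`.  If `c = 1` the last face is `1` at `a b`: total 2.  If `c = 2` it is `0`:
total 2.  `span`: use the image of the old `S` under `Fin.castSucc`.
-/

namespace K5

open Finset

theorem faces_of_mac {G : Gr} {U : Finset ℕ} (hM : Mac G U)
    (he : ∀ a b, G.Adj a b → ∃ z, Cyc G U z ∧ z a b ≠ 0) :
    ∃ (n : ℕ) (F : Fin n → ℕ → ℕ → ZMod 2), Faces G U n F := by
  obtain ⟨n, F, hc, h2, hs⟩ := hM
  let F' : Fin (n + 1) → ℕ → ℕ → ZMod 2 :=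
    Fin.snoc (α := fun _ => ℕ → ℕ → ZMod 2) F (fun a b => ∑ i, F i a b)
  have e1 : ∀ i : Fin n, F' i.castSucc = F i := fun i => by
    show Fin.snoc (α := fun _ => ℕ → ℕ → ZMod 2) F _ i.castSucc = F i
    rw [Fin.snoc_castSucc]
  have e2 : F' (Fin.last n) = fun a b => ∑ i, F i a b := by
    show Fin.snoc (α := fun _ => ℕ → ℕ → ZMod 2) F _ (Fin.last n) = _
    rw [Fin.snoc_last]
  have hbool : ∀ x : ZMod 2, x = if x ≠ 0 then 1 else 0 := by decide
  refine ⟨n + 1, F', ?_, ?_, ?_⟩
  · intro i
    refine Fin.lastCases ?_ (fun j => ?_) i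
    · rw [e2]
      refine ⟨fun a b => Finset.sum_congr rfl fun j _ => (hc j).symm a b, fun a b h => ?_,
        fun a ha => ?_⟩
      · obtain ⟨j, _, hj⟩ := Finset.exists_ne_zero_of_sum_ne_zero h
        exact (hc j).supp a b hj
      · rw [Finset.sum_comm]
        exact Finset.sum_eq_zero fun j _ => (hc j).even a ha
    · rw [e1]
      exact hc j
  · intro a b hab
    have hc2 : (univ.filter (fun i => F i a b ≠ 0)).card ≤ 2 := by
      refine le_of_eq_of_le (congrArg Finset.card ?_) (h2 a b)
      ext i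
      simp only [Finset.mem_filter]
    have hc1 : 1 ≤ (univ.filter (fun i => F i a b ≠ 0)).card := by
      obtain ⟨z, hz, hzab⟩ := he a b hab
      obtain ⟨S, hS⟩ := hs z hz
      rw [hS] at hzab
      obtain ⟨j, _, hj⟩ := Finset.exists_ne_zero_of_sum_ne_zero hzab
      exact Finset.card_pos.mpr ⟨j, Finset.mem_filter.mpr ⟨Finset.mem_univ _, hj⟩⟩
    have hsum : ∑ i, F i a b = ((univ.filter (fun i => F i a b ≠ 0)).card : ZMod 2) := by
      rw [← Finset.sum_boole]
      exact Finset.sum_congr rfl fun i _ => hbool _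
    rw [Finset.card_filter, Fin.sum_univ_castSucc, e2]
    simp only [e1]
    rw [← Finset.card_filter]
    simp only [hsum]
    generalize (univ.filter (fun i => F i a b ≠ 0)).card = c at hc1 hc2 ⊢
    interval_cases c
    · decide
    · decide
  · intro z hz
    obtain ⟨S, hS⟩ := hs z hz
    refine ⟨S.map Fin.castSuccEmb, fun a b => ?_⟩
    rw [Finset.sum_map, hS]
    refine Finset.sum_congr rfl fun j _ => ?_
    show F j a b = F' j.castSucc a b
    rw [e1]

end K5
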