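import Pool.Agent.Lib.K5.Mac

/-!
# K5.KuRing: rings of three and four connected sets in a necklace

`Ring3`, `Ring4`: connected sets `W i` in cyclic order, `p i` and `p (i + 1)` in `W i`, consecutive
sets meet only in `p (i + 1)`, the others are disjoint.

PROOF.  For `i < j` let `A i j = (Finset.Ico i j).biUnion W`.  (0) If `i < j ≤ m + 1` then `A i j`
is connected: induction on `j`, `A i (j + 1) = A i j ∪ W j` and both contain `u j` (`right` and
`left`), use `P512.conn_union`.
`ring4`: `W0 = A a k`, `W1 = A k b`, `W2 = A b m`, `W3 = W m ∪ A 0 a` (just `W m` if `a = 0`);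
`p = u a, u k, u b, u m`.  `W3` is connected: if `a = 0` it is `W m`; otherwise `u 0` is in `W m`
(`last`) and in `A 0 a`.  Membership: `u a` in `W a`; `u a` in `W (a - 1)` or (`a = 0`) in `W m`;
`u k` in `W (k - 1)` and `W k`; `u b`; `u m` in `W (m - 1)` and `W m`.  `p i /= p (i + 1)`: the `u`'s
are different: this is the hypothesis `hinj`.  Intersections by `Neck.meet`: let `w` be in `W i` and
`W j`, `i < j ≤ m`: then (`j = i + 1` and `w = u j`) or (`i = 0`, `j = m`, `w = u 0`).
* `W0 ∩ W1`: `i < k ≤ j < b < m`, so `j = k`, `w = u k`.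
* `W1 ∩ W2`: `w = u b`.
* `W2 ∩ W3`: `i` in `[b, m)`, and `j = m` (then `j = i + 1`, `w = u m`; `i = 0` is impossible) or the
  other index is `< a < b`, impossible (it would be `≥ b - 1 > a - 1`).
* `W3 ∩ W0`: one index in `[a, k)`, the other `m` (then the first is `0 = a` and `w = u 0 = u a`) or
  `< a` (then it is `a - 1` and `w = u a`).
* `W0 ∩ W2 = ∅`, `W1 ∩ W3 = ∅`: no index pair is possible (omega).
`ring3`: `W0 = W 0`, `W1 = W 1`, `W2 = A 2 m ∪ W m` = `A 2 (m + 1)`, `p = u 0, u 1, u 2`; needs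
`2 ≤ m`.  `u 2` is in `W 2`; `u 0` is in `W m`.  Intersections: `W 0 ∩ W 1`: `w = u 1` (`j = m = 1`
is impossible); `W 1 ∩ W j`, `j ≥ 2`: `j = 2`, `w = u 2`; `W 0 ∩ W j`, `j ≥ 2`: `j = m`, `w = u 0`.
The sets are inside `U` and do not contain `v` (`sub`, `out`).
-/

namespace K5

open Finset

/-- Four connected sets in a ring. -/
structure Ring4 (G : Gr) (p : Fin 4 → ℕ) (W : Fin 4 → Finset ℕ) : Prop where
  conn : ∀ i, P512.Conn G (W i)
  left : ∀ i, p i ∈ W i
  right : ∀ i, p (i + 1) ∈ W i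
  ne : ∀ i, p i ≠ p (i + 1)
  meet : ∀ i, ∀ w, w ∈ W i → w ∈ W (i + 1) → w = p (i + 1)
  far : ∀ i, Disjoint (W i) (W (i + 2))

/-- Three connected sets in a ring. -/
structure Ring3 (G : Gr) (p : Fin 3 → ℕ) (W : Fin 3 → Finset ℕ) : Prop where
  conn : ∀ i, P512.Conn G (W i)
  left : ∀ i, p i ∈ W i
  right : ∀ i, p (i + 1) ∈ W i
  ne : ∀ i, p i ≠ p (i + 1)
  meet : ∀ i, ∀ w, w ∈ W i → w ∈ W (i + 1) → w = p (i + 1)

namespace KuRingAux

theorem mem_A {W : ℕ → Finset ℕ} {i j x : ℕ} :
    x ∈ (Finset.Ico i j).biUnion W ↔ ∃ l, i ≤ l ∧ l < j ∧ x ∈ W l := by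
  simp only [Finset.mem_biUnion, Finset.mem_Ico, and_assoc]

theorem conn_A {G : Gr} {U : Finset ℕ} {v m : ℕ} {u : ℕ → ℕ} {W : ℕ → Finset ℕ}
    (hN : Neck G U v m u W) {i : ℕ} (j : ℕ) (hij : i < j) (hj : j ≤ m + 1) :
    P512.Conn G ((Finset.Ico i j).biUnion W) := by
  induction j, (Nat.succ_le_of_lt hij) using Nat.le_induction with
  | base =>
    have : Finset.Ico i (i + 1) = {i} := by
      ext x; simp only [Finset.mem_Ico, Finset.mem_singleton]; omega
    rw [Nat.succ_eq_add_one, this, Finset.singleton_biUnion]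
    exact hN.conn i (by omega)
  | succ j hj' ih =>
    have hij' : i < j := hj'
    have e : Finset.Ico i (j + 1) = Finset.Ico i j ∪ {j} := by
      ext x; simp only [Finset.mem_Ico, Finset.mem_singleton, Finset.mem_union]; omega
    rw [e, Finset.union_biUnion, Finset.singleton_biUnion]
    refine P512.conn_union (ih hij' (by omega)) (hN.conn j (by omega)) (Or.inl ⟨u j, ?_, ?_⟩)
    · rw [mem_A]
      refine ⟨j - 1, by omega, by omega, ?_⟩
      have := hN.right (j - 1) (by omega)
      rwa [Nat.sub_add_cancel (by omega)] at this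
    · exact hN.left j (by omega)

theorem meet' {G : Gr} {U : Finset ℕ} {v m : ℕ} {u : ℕ → ℕ} {W : ℕ → Finset ℕ}
    (hN : Neck G U v m u W) {i j w : ℕ} (hij : i ≠ j) (hi : i ≤ m) (hj : j ≤ m) (h1 : w ∈ W i)
    (h2 : w ∈ W j) : (j = i + 1 ∧ w = u j) ∨ (i = j + 1 ∧ w = u i) ∨ (i = 0 ∧ j = m ∧ w = u 0) ∨
      (j = 0 ∧ i = m ∧ w = u 0) := by
  rcases lt_or_gt_of_ne hij with h | h
  · rcases hN.meet i j h hj w h1 h2 with h | h
    · exact Or.inl h
    · exact Or.inr (Or.inr (Or.inl h))
  · rcases hN.meet j i h hi w h2 h1 with h | h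
    · exact Or.inr (Or.inl h)
    · exact Or.inr (Or.inr (Or.inr h))

theorem uR {G : Gr} {U : Finset ℕ} {v m : ℕ} {u : ℕ → ℕ} {W : ℕ → Finset ℕ}
    (hN : Neck G U v m u W) {i j k : ℕ} (h1 : i < k) (h2 : k ≤ j) (h3 : k ≤ m) :
    u k ∈ (Finset.Ico i j).biUnion W := by
  rw [mem_A]
  refine ⟨k - 1, by omega, by omega, ?_⟩
  have := hN.right (k - 1) (by omega)
  rwa [Nat.sub_add_cancel (by omega)] at this

theorem uL {G : Gr} {U : Finset ℕ} {v m : ℕ} {u : ℕ → ℕ} {W : ℕ → Finset ℕ}
    (hN : Neck G U v m u W) {i j k : ℕ} (h1 : i ≤ k) (h2 : k < j) (h3 : k ≤ m) :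
    u k ∈ (Finset.Ico i j).biUnion W := by
  rw [mem_A]
  exact ⟨k, h1, h2, hN.left k h3⟩

end KuRingAux

open KuRingAux in
theorem ring4 {G : Gr} {U : Finset ℕ} {v m : ℕ} {u : ℕ → ℕ} {W : ℕ → Finset ℕ}
    (hN : Neck G U v m u W) (hinj : ∀ j k, j ≤ m → k ≤ m → u j = u k → j = k) {a k b : ℕ}
    (h1 : a < k) (h2 : k < b) (h3 : b < m) :
    ∃ R : Fin 4 → Finset ℕ, Ring4 G ![u a, u k, u b, u m] R ∧ ∀ i, R i ⊆ U ∧ v ∉ R i := by
  have hc3 : P512.Conn G (W m ∪ (Finset.Ico 0 a).biUnion W) := by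
    rcases Nat.eq_zero_or_pos a with h | h
    · rw [h]; simpa using hN.conn m le_rfl
    · exact P512.conn_union (hN.conn m le_rfl) (conn_A hN a h (by omega))
        (Or.inl ⟨u 0, hN.last, uL hN (by omega) h (by omega)⟩)
  have hsub : ∀ i j, j ≤ m + 1 → (Finset.Ico i j).biUnion W ⊆ U := by
    intro i j hj x hx
    obtain ⟨l, _, h, hx⟩ := mem_A.1 hx
    exact hN.sub l (by omega) hx
  have hout : ∀ i j, j ≤ m + 1 → v ∉ (Finset.Ico i j).biUnion W := by
    intro i j hj hx
    obtain ⟨l, _, h, hx⟩ := mem_A.1 hx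
    exact hN.out l (by omega) hx
  refine ⟨![(Finset.Ico a k).biUnion W, (Finset.Ico k b).biUnion W, (Finset.Ico b m).biUnion W,
    W m ∪ (Finset.Ico 0 a).biUnion W], ⟨?_, ?_, ?_, ?_, ?_, ?_⟩, ?_⟩
  · intro i
    fin_cases i
    · exact conn_A hN k h1 (by omega)
    · exact conn_A hN b h2 (by omega)
    · exact conn_A hN m h3 (by omega)
    · exact hc3
  · intro i
    fin_cases i
    · exact uL hN le_rfl h1 (by omega)
    · exact uL hN le_rfl h2 (by omega)
    · exact uL hN le_rfl h3 (by omega)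
    · exact Finset.mem_union_left _ (hN.left m le_rfl)
  · intro i
    fin_cases i
    · exact uR hN h1 le_rfl (by omega)
    · exact uR hN h2 le_rfl (by omega)
    · exact uR hN h3 le_rfl (by omega)
    · show u a ∈ W m ∪ (Finset.Ico 0 a).biUnion W
      rcases Nat.eq_zero_or_pos a with h | h
      · rw [h]; exact Finset.mem_union_left _ hN.last
      · exact Finset.mem_union_right _ (uR hN h le_rfl (by omega))
  · intro i
    fin_cases i
    · intro h; have := hinj a k (by omega) (by omega) h; omega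
    · intro h; have := hinj k b (by omega) (by omega) h; omega
    · intro h; have := hinj b m (by omega) (by omega) h; omega
    · intro h; have := hinj m a (by omega) (by omega) h; omega
  · intro i
    fin_cases i
    · show ∀ w, w ∈ (Finset.Ico a k).biUnion W → w ∈ (Finset.Ico k b).biUnion W → w = u k
      intro w hw1 hw2
      obtain ⟨i, hi1, hi2, hw1⟩ := mem_A.1 hw1
      obtain ⟨j, hj1, hj2, hw2⟩ := mem_A.1 hw2
      rcases meet' hN (by omega) (by omega) (by omega) hw1 hw2 with h | h | h | h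
      · have : j = k := by omega
        rw [← this]; exact h.2
      · omega
      · omega
      · omega
    · show ∀ w, w ∈ (Finset.Ico k b).biUnion W → w ∈ (Finset.Ico b m).biUnion W → w = u b
      intro w hw1 hw2
      obtain ⟨i, hi1, hi2, hw1⟩ := mem_A.1 hw1
      obtain ⟨j, hj1, hj2, hw2⟩ := mem_A.1 hw2
      rcases meet' hN (by omega) (by omega) (by omega) hw1 hw2 with h | h | h | h
      · have : j = b := by omega
        rw [← this]; exact h.2
      · omega
      · omega
      · omega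
    · show ∀ w, w ∈ (Finset.Ico b m).biUnion W → w ∈ W m ∪ (Finset.Ico 0 a).biUnion W → w = u m
      intro w hw1 hw2
      obtain ⟨i, hi1, hi2, hw1⟩ := mem_A.1 hw1
      rcases Finset.mem_union.1 hw2 with hw2 | hw2
      · rcases meet' hN (by omega) (by omega) le_rfl hw1 hw2 with h | h | h | h
        · exact h.2
        · omega
        · omega
        · omega
      · obtain ⟨j, hj1, hj2, hw2⟩ := mem_A.1 hw2
        rcases meet' hN (by omega) (by omega) (by omega) hw1 hw2 with h | h | h | h <;> omega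
    · show ∀ w, w ∈ W m ∪ (Finset.Ico 0 a).biUnion W → w ∈ (Finset.Ico a k).biUnion W → w = u a
      intro w hw2 hw1
      obtain ⟨i, hi1, hi2, hw1⟩ := mem_A.1 hw1
      rcases Finset.mem_union.1 hw2 with hw2 | hw2
      · rcases meet' hN (by omega) (by omega) le_rfl hw1 hw2 with h | h | h | h
        · omega
        · omega
        · have : a = 0 := by omega
          rw [this]; exact h.2.2
        · omega
      · obtain ⟨j, hj1, hj2, hw2⟩ := mem_A.1 hw2
        rcases meet' hN (by omega) (by omega) (by omega) hw1 hw2 with h | h | h | h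
        · omega
        · have : i = a := by omega
          rw [← this]; exact h.2
        · omega
        · omega
  · have h02 : Disjoint ((Finset.Ico a k).biUnion W) ((Finset.Ico b m).biUnion W) := by
      rw [Finset.disjoint_left]
      intro w hw1 hw2
      obtain ⟨i, hi1, hi2, hw1⟩ := mem_A.1 hw1
      obtain ⟨j, hj1, hj2, hw2⟩ := mem_A.1 hw2
      rcases meet' hN (by omega) (by omega) (by omega) hw1 hw2 with h | h | h | h <;> omega
    have h13 : Disjoint ((Finset.Ico k b).biUnion W) (W m ∪ (Finset.Ico 0 a).biUnion W) := by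
      rw [Finset.disjoint_left]
      intro w hw1 hw2
      obtain ⟨i, hi1, hi2, hw1⟩ := mem_A.1 hw1
      rcases Finset.mem_union.1 hw2 with hw2 | hw2
      · rcases meet' hN (by omega) (by omega) le_rfl hw1 hw2 with h | h | h | h <;> omega
      · obtain ⟨j, hj1, hj2, hw2⟩ := mem_A.1 hw2
        rcases meet' hN (by omega) (by omega) (by omega) hw1 hw2 with h | h | h | h <;> omega
    intro i
    fin_cases i
    · exact h02
    · exact h13
    · exact h02.symm
    · exact h13.symm
  · intro i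
    fin_cases i
    · exact ⟨hsub _ _ (by omega), hout _ _ (by omega)⟩
    · exact ⟨hsub _ _ (by omega), hout _ _ (by omega)⟩
    · exact ⟨hsub _ _ (by omega), hout _ _ (by omega)⟩
    · refine ⟨Finset.union_subset (hN.sub m le_rfl) (hsub _ _ (by omega)), ?_⟩
      show v ∉ W m ∪ (Finset.Ico 0 a).biUnion W
      rw [Finset.mem_union, not_or]
      exact ⟨hN.out m le_rfl, hout _ _ (by omega)⟩

open KuRingAux in
theorem ring3 {G : Gr} {U : Finset ℕ} {v m : ℕ} {u : ℕ → ℕ} {W : ℕ → Finset ℕ}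
    (hN : Neck G U v m u W) (hinj : ∀ j k, j ≤ m → k ≤ m → u j = u k → j = k) (hm : 2 ≤ m) :
    ∃ R : Fin 3 → Finset ℕ, Ring3 G ![u 0, u 1, u 2] R ∧ ∀ i, R i ⊆ U ∧ v ∉ R i := by
  have hsub : ∀ i j, j ≤ m + 1 → (Finset.Ico i j).biUnion W ⊆ U := by
    intro i j hj x hx
    obtain ⟨l, _, h, hx⟩ := mem_A.1 hx
    exact hN.sub l (by omega) hx
  have hout : ∀ i j, j ≤ m + 1 → v ∉ (Finset.Ico i j).biUnion W := by
    intro i j hj hx
    obtain ⟨l, _, h, hx⟩ := mem_A.1 hx
    exact hN.out l (by omega) hx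
  refine ⟨![W 0, W 1, (Finset.Ico 2 (m + 1)).biUnion W], ⟨?_, ?_, ?_, ?_, ?_⟩, ?_⟩
  · intro i
    fin_cases i
    · exact hN.conn 0 (by omega)
    · exact hN.conn 1 (by omega)
    · exact conn_A hN (m + 1) (by omega) le_rfl
  · intro i
    fin_cases i
    · exact hN.left 0 (by omega)
    · exact hN.left 1 (by omega)
    · exact uL hN le_rfl (by omega) hm
  · intro i
    fin_cases i
    · exact hN.right 0 (by omega)
    · exact hN.right 1 (by omega)
    · show u 0 ∈ (Finset.Ico 2 (m + 1)).biUnion W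
      rw [mem_A]
      exact ⟨m, hm, by omega, hN.last⟩
  · intro i
    fin_cases i
    · intro h; have := hinj 0 1 (by omega) (by omega) h; omega
    · intro h; have := hinj 1 2 (by omega) (by omega) h; omega
    · intro h; have := hinj 2 0 (by omega) (by omega) h; omega
  · intro i
    fin_cases i
    · show ∀ w, w ∈ W 0 → w ∈ W 1 → w = u 1
      intro w hw1 hw2
      rcases hN.meet 0 1 (by omega) (by omega) w hw1 hw2 with h | h
      · exact h.2
      · omega
    · show ∀ w, w ∈ W 1 → w ∈ (Finset.Ico 2 (m + 1)).biUnion W → w = u 2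
      intro w hw1 hw2
      obtain ⟨j, hj1, hj2, hw2⟩ := mem_A.1 hw2
      rcases hN.meet 1 j (by omega) (by omega) w hw1 hw2 with h | h
      · rw [h.2, h.1]
      · omega
    · show ∀ w, w ∈ (Finset.Ico 2 (m + 1)).biUnion W → w ∈ W 0 → w = u 0
      intro w hw2 hw1
      obtain ⟨j, hj1, hj2, hw2⟩ := mem_A.1 hw2
      rcases hN.meet 0 j (by omega) (by omega) w hw1 hw2 with h | h
      · omega
      · exact h.2.2
  · intro i
    fin_cases i
    · exact ⟨hN.sub 0 (by omega), hN.out 0 (by omega)⟩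
    · exact ⟨hN.sub 1 (by omega), hN.out 1 (by omega)⟩
    · exact ⟨hsub _ _ (by omega), hout _ _ (by omega)⟩

end K5
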