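import Pool.Agent.Lib.K5.Mac

/-!
# K5.KuSep: if the contraction of an edge is not 3-connected there is a 3-separation

PROOF.  Let `H = contr G x y`, `U' = U.erase y` (at least 4 elements).  Since `Three H U'` fails
there are `u`, `v` such that `S = (U'.erase u).erase v` is not connected in `H`; `S` has at least 2
elements, so there is `P` inside `S`, nonempty, not equal to `S`, with no `H`-edge from `P` to
`S \ P` (unfold `P512.Conn`, `push_neg`).
Case A: `x` is neither `u` nor `v`, i.e. `x` is in `S`.  Choose `t` outside `U`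
(`Finset.exists_notMem` / `Infinite`), put `u' = if u = y then t else u`,
`v' = if v = y then t else v` and `T = (U.erase u').erase v'`; then `T = insert y S`.  Put
`P' = insert y P` if `x` is in `P` and `P' = P` otherwise.  `P'` is a nonempty subset of `T`, and not
equal to `T` (some element of `S` is not in `P`, if `x` is in `P`; and `y` is not in `P'` otherwise).
`P'` has no `G`-neighbour in `T \ P'`: let `p` be in `P'`, `q` in `T`, `q` not in `P'`, `G.Adj p q`.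
If `p, q /= y` then `H.Adj p q`, `q` in `S`, `q` not in `P`: contradiction.  If `p = y` then `x` is in
`P` and `H.Adj x q` (q /= x because `x` is in `P'`): contradiction.  If `q = y` then `x` is not in `P`
(otherwise `y` is in `P'`) and `H.Adj p x` with `p` in `P`: contradiction.  So `T` is not connected
in `G`, against `Three G U`.
Case B: `x = u` or `x = v`; by symmetry (`Finset.erase_right_comm`) let `x = u`.  If `v` is not in
`U'` or `v = x` then `S = U'.erase x = (U.erase y).erase x` and `P` shows that this set is not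
connected in `G` (all its vertices differ from `x`, `y`, so `H`-edges inside it are `G`-edges):
contradiction.  Otherwise `z = v` and `C = P` are as required: a `G`-neighbour `d` of `c` in `C` is
in `U` by `hon`; if it is none of `x`, `y`, `z` it lies in `S` and `H.Adj c d`, so `d` is in `P`.
The vertex `w` is any element of `S \ P`.
-/

namespace K5

open Finset

namespace KuSepAux

lemma caseB {G : Gr} {U : Finset ℕ} {x y v : ℕ} (hon : On G U) (h3 : Three G U)
    {P : Finset ℕ}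
    (hPS : P ⊆ ((U.erase y).erase x).erase v) (hPn : P.Nonempty)
    (hPq : ∃ q ∈ ((U.erase y).erase x).erase v, q ∉ P)
    (hno : ∀ a ∈ P, ∀ b ∈ ((U.erase y).erase x).erase v, b ∉ P → ¬ (contr G x y).Adj a b) :
    ∃ z ∈ U, z ≠ x ∧ z ≠ y ∧ ∃ C : Finset ℕ, C ⊆ U ∧ C.Nonempty ∧ x ∉ C ∧ y ∉ C ∧ z ∉ C ∧
      (∀ c ∈ C, ∀ d, G.Adj c d → d ∈ C ∨ d = x ∨ d = y ∨ d = z) ∧
      ∃ w ∈ U, w ∉ C ∧ w ≠ x ∧ w ≠ y ∧ w ≠ z := by
  have hmemS : ∀ q, q ∈ ((U.erase y).erase x).erase v ↔ q ≠ v ∧ q ≠ x ∧ q ≠ y ∧ q ∈ U := by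
    intro q
    simp only [Finset.mem_erase, ne_eq]
  have hmemP : ∀ q ∈ P, q ≠ v ∧ q ≠ x ∧ q ≠ y ∧ q ∈ U := fun q hq => (hmemS q).1 (hPS hq)
  by_cases hv : v ∈ U ∧ v ≠ x ∧ v ≠ y
  · obtain ⟨hvU, hvx, hvy⟩ := hv
    obtain ⟨w, hwS, hwP⟩ := hPq
    have hw := (hmemS w).1 hwS
    refine ⟨v, hvU, hvx, hvy, P, fun q hq => (hmemP q hq).2.2.2, hPn,
      fun h => (hmemP x h).2.1 rfl, fun h => (hmemP y h).2.2.1 rfl, fun h => (hmemP v h).1 rfl,
      fun c hc d hcd => ?_, w, hw.2.2.2, hwP, hw.2.1, hw.2.2.1, hw.1⟩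
    by_contra hcon
    have h1 : d ∉ P := fun h => hcon (Or.inl h)
    have h2 : d ≠ x := fun h => hcon (Or.inr (Or.inl h))
    have h3' : d ≠ y := fun h => hcon (Or.inr (Or.inr (Or.inl h)))
    have h4 : d ≠ v := fun h => hcon (Or.inr (Or.inr (Or.inr h)))
    exact hno c hc d ((hmemS d).2 ⟨h4, h2, h3', hon d c hcd.symm⟩) h1
      ⟨hcd.ne, (hmemP c hc).2.2.1, h3', Or.inl hcd⟩
  · exfalso
    have hv' : ∀ q, q ∈ U → q ≠ x → q ≠ y → q ≠ v := by
      intro q hqU hqx hqy hqv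
      subst hqv
      exact hv ⟨hqU, hqx, hqy⟩
    obtain ⟨w, hwS, hwP⟩ := hPq
    obtain ⟨a, ha, b, hb, hbP, hab⟩ := (h3.2 y x).2 P
      (fun q hq => by
        have := hmemP q hq
        simp only [Finset.mem_erase, ne_eq]
        exact ⟨this.2.1, this.2.2.1, this.2.2.2⟩) hPn (fun h => by
        have := (hmemS w).1 hwS
        apply hwP
        rw [h]
        simp only [Finset.mem_erase, ne_eq]
        exact ⟨this.2.1, this.2.2.1, this.2.2.2⟩)
    simp only [Finset.mem_erase, ne_eq] at hb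
    exact hno a ha b ((hmemS b).2 ⟨hv' b hb.2.2 hb.1 hb.2.1, hb.1, hb.2.1, hb.2.2⟩) hbP
      ⟨hab.ne, (hmemP a ha).2.2.1, hb.2.1, Or.inl hab⟩

end KuSepAux

theorem sep_of_contr {G : Gr} {U : Finset ℕ} {x y : ℕ} (hon : On G U) (h3 : Three G U)
    (h5 : 5 ≤ U.card) (hxy : G.Adj x y) (h : ¬ Three (contr G x y) (U.erase y)) :
    ∃ z ∈ U, z ≠ x ∧ z ≠ y ∧ ∃ C : Finset ℕ, C ⊆ U ∧ C.Nonempty ∧ x ∉ C ∧ y ∉ C ∧ z ∉ C ∧
      (∀ c ∈ C, ∀ d, G.Adj c d → d ∈ C ∨ d = x ∨ d = y ∨ d = z) ∧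
      ∃ w ∈ U, w ∉ C ∧ w ≠ x ∧ w ≠ y ∧ w ≠ z := by
  have hxU : x ∈ U := hon x y hxy
  have hyU : y ∈ U := hon y x hxy.symm
  have hne : x ≠ y := hxy.ne
  have hcard : 4 ≤ (U.erase y).card := by
    rw [Finset.card_erase_of_mem hyU]
    omega
  have hex : ∃ u v, ¬ P512.Conn (contr G x y) (((U.erase y).erase u).erase v) := by
    by_contra hcon
    push Not at hcon
    exact h ⟨hcard, hcon⟩
  obtain ⟨u, v, huv⟩ := hex
  have hSne : (((U.erase y).erase u).erase v).Nonempty := by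
    rw [← Finset.card_pos]
    have h1 := Finset.pred_card_le_card_erase (s := U.erase y) (a := u)
    have h2 := Finset.pred_card_le_card_erase (s := (U.erase y).erase u) (a := v)
    omega
  have hP : ∃ P : Finset ℕ, P ⊆ ((U.erase y).erase u).erase v ∧ P.Nonempty ∧
      (∃ q ∈ ((U.erase y).erase u).erase v, q ∉ P) ∧
      ∀ a ∈ P, ∀ b ∈ ((U.erase y).erase u).erase v, b ∉ P → ¬ (contr G x y).Adj a b := by
    by_contra hcon
    apply huv
    refine ⟨hSne, fun P hPS hPn hPne => ?_⟩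
    by_contra hc
    apply hcon
    refine ⟨P, hPS, hPn, ?_, fun a ha b hb hbP hab => hc ⟨a, ha, b, hb, hbP, hab⟩⟩
    by_contra hq
    apply hPne
    apply le_antisymm hPS
    intro q hq'
    by_contra hqP
    exact hq ⟨q, hq', hqP⟩
  obtain ⟨P, hPS, hPn, hPq, hno⟩ := hP
  by_cases hxu : x = u
  · subst hxu
    exact KuSepAux.caseB hon h3 hPS hPn hPq hno
  by_cases hxv : x = v
  · subst hxv
    rw [Finset.erase_right_comm] at hPS hPq hno
    exact KuSepAux.caseB hon h3 hPS hPn hPq hno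
  exfalso
  have hmemS : ∀ q, q ∈ ((U.erase y).erase u).erase v ↔ q ≠ v ∧ q ≠ u ∧ q ≠ y ∧ q ∈ U := by
    intro q
    simp only [Finset.mem_erase, ne_eq]
  have hmemP : ∀ q ∈ P, q ≠ v ∧ q ≠ u ∧ q ≠ y ∧ q ∈ U := fun q hq => (hmemS q).1 (hPS hq)
  have hxS : x ∈ ((U.erase y).erase u).erase v := (hmemS x).2 ⟨hxv, hxu, hne, hxU⟩
  obtain ⟨t, ht⟩ := Infinite.exists_notMem_finset U
  have hty : t ≠ y := fun h => ht (h ▸ hyU)
  obtain ⟨u', hu'y, hu'⟩ : ∃ u', u' ≠ y ∧ ∀ q ∈ U, q ≠ y → (q ≠ u' ↔ q ≠ u) := by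
    by_cases huy : u = y
    · exact ⟨t, hty, fun q hq hqy => ⟨fun _ => huy ▸ hqy, fun _ h => ht (h ▸ hq)⟩⟩
    · exact ⟨u, huy, fun q _ _ => Iff.rfl⟩
  obtain ⟨v', hv'y, hv'⟩ : ∃ v', v' ≠ y ∧ ∀ q ∈ U, q ≠ y → (q ≠ v' ↔ q ≠ v) := by
    by_cases hvy : v = y
    · exact ⟨t, hty, fun q hq hqy => ⟨fun _ => hvy ▸ hqy, fun _ h => ht (h ▸ hq)⟩⟩
    · exact ⟨v, hvy, fun q _ _ => Iff.rfl⟩
  have hmemT : ∀ q, q ∈ (U.erase u').erase v' ↔
      q = y ∨ q ∈ ((U.erase y).erase u).erase v := by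
    intro q
    rw [hmemS]
    simp only [Finset.mem_erase, ne_eq]
    constructor
    · rintro ⟨h1, h2, h3⟩
      by_cases hq : q = y
      · exact Or.inl hq
      · exact Or.inr ⟨(hv' q h3 hq).1 h1, (hu' q h3 hq).1 h2, hq, h3⟩
    · rintro (h | ⟨h1, h2, h3, h4⟩)
      · subst h
        exact ⟨fun h => hv'y h.symm, fun h => hu'y h.symm, hyU⟩
      · exact ⟨(hv' q h4 h3).2 h1, (hu' q h4 h3).2 h2, h4⟩
  by_cases hxP : x ∈ P
  · obtain ⟨w, hwS, hwP⟩ := hPq
    obtain ⟨a, ha, b, hb, hbP, hab⟩ := (h3.2 u' v').2 (insert y P)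
      (fun q hq => by
        rw [hmemT]
        rcases Finset.mem_insert.1 hq with h | h
        · exact Or.inl h
        · exact Or.inr (hPS h)) ⟨y, Finset.mem_insert_self _ _⟩ (fun h => by
        have h1 : w ∈ insert y P := by
          rw [h]
          exact (hmemT w).2 (Or.inr hwS)
        rcases Finset.mem_insert.1 h1 with h2 | h2
        · exact ((hmemS w).1 hwS).2.2.1 h2
        · exact hwP h2)
    have hby : b ≠ y := fun h => hbP (h ▸ Finset.mem_insert_self _ _)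
    have hbP' : b ∉ P := fun h => hbP (Finset.mem_insert_of_mem h)
    have hbS : b ∈ ((U.erase y).erase u).erase v := ((hmemT b).1 hb).resolve_left hby
    rcases Finset.mem_insert.1 ha with h | h
    · subst h
      exact hno x hxP b hbS hbP' ⟨fun h => hbP' (h ▸ hxP), hne, hby, Or.inr (Or.inl ⟨rfl, hab⟩)⟩
    · exact hno a h b hbS hbP' ⟨hab.ne, (hmemP a h).2.2.1, hby, Or.inl hab⟩
  · obtain ⟨a, ha, b, hb, hbP, hab⟩ := (h3.2 u' v').2 P
      (fun q hq => by
        rw [hmemT]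
        exact Or.inr (hPS hq)) hPn (fun h => by
        apply hxP
        rw [h]
        exact (hmemT x).2 (Or.inr hxS))
    rcases (hmemT b).1 hb with h | h
    · subst h
      exact hno a ha x hxS hxP ⟨fun h => hxP (h ▸ ha), (hmemP a ha).2.2.1, hne,
        Or.inr (Or.inr ⟨rfl, hab⟩)⟩
    · exact hno a ha b h hbP ⟨hab.ne, (hmemP a ha).2.2.1, ((hmemS b).1 h).2.2.1, Or.inl hab⟩

end K5
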