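import Pool.Agent.Lib.K5.KuRing

/-!
# K5.KuSplit: from a ring to disjoint connected sets

PROOF.  (1) `split_set`: let `P` be the hull of `{p}` inside `W.erase q` (`P512.hull`), and
`Q = W \ P`.  `q` is in `Q`.  `Q` is connected: `P512.conn_of_forall` with `r = q`: let `T` be
inside `Q`, `q` in `T`, `T /= Q`, and suppose there is no edge from `T` to `Q \ T`.  Then the set
`Q \ T` (nonempty, without `q`) has no edges to `T` and, as `P` is closed in `W.erase q`, no edges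
to `P` either (an edge from `P` to an element of `W.erase q` ends in `P`).  So there is no edge of
`G` from `Q \ T` to the rest of `W`, which contains `q`: `W` is not connected.  Contradiction.
There is an edge between `P` and `Q`: `P` is a nonempty proper subset of `W` (`q` is not in it).
(2) `ring4_sets`: split every `W i` for `p i /= p (i + 1)` into `P i ∋ p i` and `Q i ∋ p (i + 1)`,
and put `A i = Q (i - 1) ∪ P i`; both parts contain `p i`, so `A i` is connected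
(`P512.conn_union`).  Adjacent: `P i` and `Q i` are joined by an edge and `Q i` is inside `A (i + 1)`.
Disjoint: `A i ∩ A (i + 1)`: `Q (i - 1) ∩ Q i` is inside `W (i - 1) ∩ W i = {p i}`, but `p i` is not
in `Q i`; `Q (i - 1) ∩ P (i + 1)` is inside `W (i - 1) ∩ W (i + 1) = ∅` (`far`); `P i ∩ Q i = ∅`;
`P i ∩ P (i + 1)` is inside `{p (i + 1)}`, but `p (i + 1)` is not in `P i`.  `A i ∩ A (i + 2)`:
`Q (i - 1) ∩ Q (i + 1) = ∅` and `P i ∩ P (i + 2) = ∅` by `far`; `Q (i - 1) ∩ P (i + 2)`: as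
`i + 2 = i - 2`, inside `W (i - 2) ∩ W (i - 1) = {p (i - 1)}`, but `p (i - 1)` is not in
`Q (i - 1)`; `P i ∩ Q (i + 1)` is inside `W i ∩ W (i + 1) = {p (i + 1)}`, not in `P i`.
Treat the indices of `Fin 4` concretely (0, 1, 2, 3).
(3) `ring3_sets`: the same with three sets: `A i ∩ A (i + 1)`: `Q (i - 1) ∩ Q i` inside `{p i}`,
`p i` not in `Q i`; `Q (i - 1) ∩ P (i + 1)`: `i + 1 = (i - 1) - 1`, inside
`W (i + 1) ∩ W (i - 1) = {p (i - 1)}`, not in `Q (i - 1)`; `P i ∩ Q i = ∅`;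
`P i ∩ P (i + 1)` inside `{p (i + 1)}`, not in `P i`.
-/

namespace K5

open Finset

theorem split_set {G : Gr} {W : Finset ℕ} (hW : P512.Conn G W) {p q : ℕ} (hp : p ∈ W)
    (hq : q ∈ W) (hpq : p ≠ q) :
    ∃ P Q : Finset ℕ, P512.Conn G P ∧ P512.Conn G Q ∧ p ∈ P ∧ q ∈ Q ∧ Disjoint P Q ∧ P ∪ Q = W ∧
      ∃ a ∈ P, ∃ b ∈ Q, G.Adj a b := by
  obtain ⟨P, hpP, hPW, hPc, hcl⟩ := P512.hull G {p} (W.erase q) (P512.conn_singleton G p)
    (by simp [hp, hpq])
  have hpP' : p ∈ P := by simpa using hpP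
  have hPW' : P ⊆ W := hPW.trans (Finset.erase_subset _ _)
  have hqP : q ∉ P := fun h => by simpa using hPW h
  have hqQ : q ∈ W \ P := Finset.mem_sdiff.2 ⟨hq, hqP⟩
  refine ⟨P, W \ P, hPc, ?_, hpP', hqQ, Finset.disjoint_sdiff, by simp [hPW'], ?_⟩
  · refine P512.conn_of_forall hqQ (fun T hT hqT hTne => ?_)
    have hR : (((W \ P) \ T)).Nonempty := by
      rw [Finset.nonempty_iff_ne_empty]
      intro h
      exact hTne (le_antisymm hT (Finset.sdiff_eq_empty_iff_subset.1 h))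
    obtain ⟨u, hu, v, hv, hvn, hadj⟩ := hW.2 ((W \ P) \ T)
      (Finset.sdiff_subset.trans Finset.sdiff_subset) hR (fun h => by
        have : q ∈ (W \ P) \ T := by rw [h]; exact hq
        exact (Finset.mem_sdiff.1 this).2 hqT)
    have hu1 := Finset.mem_sdiff.1 hu
    have hu2 := Finset.mem_sdiff.1 hu1.1
    have huq : u ≠ q := fun h => hu1.2 (h ▸ hqT)
    have hvP : v ∉ P := fun h => hu2.2 (hcl v h u (Finset.mem_erase.2 ⟨huq, hu2.1⟩) hadj.symm)
    have hvT : v ∈ T := by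
      by_contra h
      exact hvn (Finset.mem_sdiff.2 ⟨Finset.mem_sdiff.2 ⟨hv, hvP⟩, h⟩)
    exact ⟨v, hvT, u, hu1.1, hu1.2, hadj.symm⟩
  · obtain ⟨u, hu, v, hv, hvn, hadj⟩ := hW.2 P hPW' ⟨p, hpP'⟩ (fun h => hqP (h ▸ hq))
    exact ⟨u, hu, v, Finset.mem_sdiff.2 ⟨hv, hvn⟩, hadj⟩

theorem ring4_sets {G : Gr} {p : Fin 4 → ℕ} {W : Fin 4 → Finset ℕ} (hR : Ring4 G p W) :
    ∃ A : Fin 4 → Finset ℕ, (∀ i, P512.Conn G (A i)) ∧ (∀ i j, i ≠ j → Disjoint (A i) (A j)) ∧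
      (∀ i, p i ∈ A i) ∧ (∀ i, ∃ a ∈ A i, ∃ b ∈ A (i + 1), G.Adj a b) ∧
      ∀ i, ∀ w ∈ A i, ∃ j, w ∈ W j := by
  have hs : ∀ i, ∃ PQ : Finset ℕ × Finset ℕ, P512.Conn G PQ.1 ∧ P512.Conn G PQ.2 ∧ p i ∈ PQ.1 ∧
      p (i + 1) ∈ PQ.2 ∧ Disjoint PQ.1 PQ.2 ∧ PQ.1 ∪ PQ.2 = W i ∧
      ∃ a ∈ PQ.1, ∃ b ∈ PQ.2, G.Adj a b := fun i => by
    obtain ⟨P, Q, h⟩ := split_set (hR.conn i) (hR.left i) (hR.right i) (hR.ne i)
    exact ⟨(P, Q), h⟩
  choose S hS using hs
  have hPW : ∀ i w, w ∈ (S i).1 → w ∈ W i := fun i w h => by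
    rw [← (hS i).2.2.2.2.2.1]; exact Finset.mem_union_left _ h
  have hQW : ∀ i w, w ∈ (S i).2 → w ∈ W i := fun i w h => by
    rw [← (hS i).2.2.2.2.2.1]; exact Finset.mem_union_right _ h
  have hdis : ∀ i w, w ∈ (S i).1 → w ∉ (S i).2 := fun i w h h' =>
    Finset.disjoint_left.1 (hS i).2.2.2.2.1 h h'
  have hfar : ∀ i w, w ∈ W i → w ∉ W (i + 2) := fun i w h h' =>
    Finset.disjoint_left.1 (hR.far i) h h'
  have e1 : ∀ i : Fin 4, i - 1 + 1 = i := by decide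
  have e2 : ∀ i : Fin 4, i - 1 + 2 = i + 1 := by decide
  have e3 : ∀ i : Fin 4, i + 2 + 1 = i - 1 := by decide
  have e4 : ∀ i : Fin 4, i + 1 - 1 = i := by decide
  have e5 : ∀ i : Fin 4, i + 2 - 1 = i + 1 := by decide
  have e6 : ∀ i : Fin 4, i + 1 + 2 = i - 1 := by decide
  have hA1 : ∀ i, Disjoint ((S (i - 1)).2 ∪ (S i).1) ((S (i + 1 - 1)).2 ∪ (S (i + 1)).1) := by
    intro i
    rw [e4, Finset.disjoint_left]
    intro w hw hw'
    rcases Finset.mem_union.1 hw with h | h <;> rcases Finset.mem_union.1 hw' with h' | h'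
    · have h1 := hR.meet (i - 1) w (hQW _ _ h) (by rw [e1]; exact hQW _ _ h')
      rw [e1] at h1
      subst h1
      exact hdis i _ (hS i).2.2.1 h'
    · have := hfar (i - 1) w (hQW _ _ h)
      rw [e2] at this
      exact this (hPW _ _ h')
    · exact hdis i _ h h'
    · have h1 := hR.meet i w (hPW _ _ h) (hPW _ _ h')
      subst h1
      exact hdis i _ h (hS i).2.2.2.1
  have hA2 : ∀ i, Disjoint ((S (i - 1)).2 ∪ (S i).1) ((S (i + 2 - 1)).2 ∪ (S (i + 2)).1) := by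
    intro i
    rw [e5, Finset.disjoint_left]
    intro w hw hw'
    rcases Finset.mem_union.1 hw with h | h <;> rcases Finset.mem_union.1 hw' with h' | h'
    · have := hfar (i - 1) w (hQW _ _ h)
      rw [e2] at this
      exact this (hQW _ _ h')
    · have h1 := hR.meet (i + 2) w (hPW _ _ h') (by rw [e3]; exact hQW _ _ h)
      rw [e3] at h1
      subst h1
      exact hdis (i - 1) _ (hS (i - 1)).2.2.1 h
    · have h1 := hR.meet i w (hPW _ _ h) (hQW _ _ h')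
      subst h1
      exact hdis i _ h (hS i).2.2.2.1
    · exact hfar i w (hPW _ _ h) (hPW _ _ h')
  refine ⟨fun i => (S (i - 1)).2 ∪ (S i).1, fun i => ?_, ?_, fun i => ?_, fun i => ?_,
    fun i w hw => ?_⟩
  · refine P512.conn_union (hS (i - 1)).2.1 (hS i).1 (Or.inl ⟨p i, ?_, (hS i).2.2.1⟩)
    have := (hS (i - 1)).2.2.2.1
    rwa [e1] at this
  · intro i j hij
    have hcase : ∀ i j : Fin 4, i ≠ j → j = i + 1 ∨ j = i + 2 ∨ i = j + 1 := by decide
    rcases hcase i j hij with h | h | h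
    · subst h
      exact hA1 i
    · subst h
      exact hA2 i
    · subst h
      exact (hA1 j).symm
  · exact Finset.mem_union_right _ (hS i).2.2.1
  · obtain ⟨a, ha, b, hb, hab⟩ := (hS i).2.2.2.2.2.2
    exact ⟨a, Finset.mem_union_right _ ha, b, Finset.mem_union_left _ (by rwa [e4]), hab⟩
  · rcases Finset.mem_union.1 hw with h | h
    · exact ⟨_, hQW _ _ h⟩
    · exact ⟨_, hPW _ _ h⟩

theorem ring3_sets {G : Gr} {p : Fin 3 → ℕ} {W : Fin 3 → Finset ℕ} (hR : Ring3 G p W) :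
    ∃ A : Fin 3 → Finset ℕ, (∀ i, P512.Conn G (A i)) ∧ (∀ i j, i ≠ j → Disjoint (A i) (A j)) ∧
      (∀ i, p i ∈ A i) ∧ (∀ i, ∃ a ∈ A i, ∃ b ∈ A (i + 1), G.Adj a b) ∧
      ∀ i, ∀ w ∈ A i, ∃ j, w ∈ W j := by
  have hs : ∀ i, ∃ PQ : Finset ℕ × Finset ℕ, P512.Conn G PQ.1 ∧ P512.Conn G PQ.2 ∧ p i ∈ PQ.1 ∧
      p (i + 1) ∈ PQ.2 ∧ Disjoint PQ.1 PQ.2 ∧ PQ.1 ∪ PQ.2 = W i ∧
      ∃ a ∈ PQ.1, ∃ b ∈ PQ.2, G.Adj a b := fun i => by
    obtain ⟨P, Q, h⟩ := split_set (hR.conn i) (hR.left i) (hR.right i) (hR.ne i)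
    exact ⟨(P, Q), h⟩
  choose S hS using hs
  have hPW : ∀ i w, w ∈ (S i).1 → w ∈ W i := fun i w h => by
    rw [← (hS i).2.2.2.2.2.1]; exact Finset.mem_union_left _ h
  have hQW : ∀ i w, w ∈ (S i).2 → w ∈ W i := fun i w h => by
    rw [← (hS i).2.2.2.2.2.1]; exact Finset.mem_union_right _ h
  have hdis : ∀ i w, w ∈ (S i).1 → w ∉ (S i).2 := fun i w h h' =>
    Finset.disjoint_left.1 (hS i).2.2.2.2.1 h h'
  have e1 : ∀ i : Fin 3, i - 1 + 1 = i := by decide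
  have e2 : ∀ i : Fin 3, i + 1 + 1 = i - 1 := by decide
  have e4 : ∀ i : Fin 3, i + 1 - 1 = i := by decide
  have hA1 : ∀ i, Disjoint ((S (i - 1)).2 ∪ (S i).1) ((S (i + 1 - 1)).2 ∪ (S (i + 1)).1) := by
    intro i
    rw [e4, Finset.disjoint_left]
    intro w hw hw'
    rcases Finset.mem_union.1 hw with h | h <;> rcases Finset.mem_union.1 hw' with h' | h'
    · have h1 := hR.meet (i - 1) w (hQW _ _ h) (by rw [e1]; exact hQW _ _ h')
      rw [e1] at h1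
      subst h1
      exact hdis i _ (hS i).2.2.1 h'
    · have h1 := hR.meet (i + 1) w (hPW _ _ h') (by rw [e2]; exact hQW _ _ h)
      rw [e2] at h1
      subst h1
      exact hdis (i - 1) _ (hS (i - 1)).2.2.1 h
    · exact hdis i _ h h'
    · have h1 := hR.meet i w (hPW _ _ h) (hPW _ _ h')
      subst h1
      exact hdis i _ h (hS i).2.2.2.1
  refine ⟨fun i => (S (i - 1)).2 ∪ (S i).1, fun i => ?_, ?_, fun i => ?_, fun i => ?_,
    fun i w hw => ?_⟩
  · refine P512.conn_union (hS (i - 1)).2.1 (hS i).1 (Or.inl ⟨p i, ?_, (hS i).2.2.1⟩)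
    have := (hS (i - 1)).2.2.2.1
    rwa [e1] at this
  · intro i j hij
    have hcase : ∀ i j : Fin 3, i ≠ j → j = i + 1 ∨ i = j + 1 := by decide
    rcases hcase i j hij with h | h
    · subst h
      exact hA1 i
    · subst h
      exact (hA1 j).symm
  · exact Finset.mem_union_right _ (hS i).2.2.1
  · obtain ⟨a, ha, b, hb, hab⟩ := (hS i).2.2.2.2.2.2
    exact ⟨a, Finset.mem_union_right _ ha, b, Finset.mem_union_left _ (by rwa [e4]), hab⟩
  · rcases Finset.mem_union.1 hw with h | h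
    · exact ⟨_, hQW _ _ h⟩
    · exact ⟨_, hPW _ _ h⟩

end K5
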