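import Pool.Agent.Lib.K5.KuCut

/-!
# K5.KuStar: the cut lemma for sets of edges at two vertices

PROOF.  Apply `cut_lemma` to
`a p q = [p = v, q ∈ A] + [q = v, p ∈ A] + [p = w, q ∈ B] + [q = w, p ∈ B]` (the left hand side of
the statement), which is symmetric.  For `Cyc G U z`:
`pr U a z = ∑ u ∈ A, z v u + ∑ u ∈ B, z w u`: the sum over `p < q` of
`([p = v, q ∈ A] + [q = v, p ∈ A]) z p q` runs over the pairs `{v, u}` with `u` in `A` once each
(`v` is not in `A`; for `u > v` the first term, for `u < v` the second one with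
`z u v = z v u`); the same for `w` and `B`.
`conn_const`: let `r` be in `S`; the set `P` of the elements of `S` with `τ = τ r` is nonempty; if
it is not `S`, connectedness gives an edge from `P` to `S \ P`, against `h`.
-/

namespace K5

open Finset

theorem conn_const {G : Gr} {S : Finset ℕ} (hS : P512.Conn G S) (τ : ℕ → ZMod 2)
    (h : ∀ p ∈ S, ∀ q ∈ S, G.Adj p q → τ p = τ q) : ∀ p ∈ S, ∀ q ∈ S, τ p = τ q := by
  intro p hp q hq
  by_contra hne
  obtain ⟨u, hu, v, hv, hvP, hadj⟩ := hS.2 (S.filter (fun x => τ x = τ p))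
    (Finset.filter_subset _ _) ⟨p, Finset.mem_filter.mpr ⟨hp, rfl⟩⟩ (fun e => by
      have : q ∈ S.filter (fun x => τ x = τ p) := by rw [e]; exact hq
      exact hne (Finset.mem_filter.mp this).2.symm)
  rw [Finset.mem_filter] at hu hvP
  exact hvP ⟨hv, by rw [← h u hu.1 v hv hadj]; exact hu.2⟩

namespace KuStarAux

theorem first_sum {U A : Finset ℕ} {v : ℕ} (hv : v ∈ U) (z : ℕ → ℕ → ZMod 2) :
    ∑ p ∈ U, ∑ q ∈ U.filter (fun q => p < q), (if p = v ∧ q ∈ A then 1 else 0 : ZMod 2) * z p q =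
      ∑ u ∈ U, if v < u ∧ u ∈ A then z v u else 0 := by
  rw [Finset.sum_eq_single v]
  · rw [Finset.sum_filter]
    refine Finset.sum_congr rfl fun q _ => ?_
    by_cases h1 : v < q <;> by_cases h2 : q ∈ A <;> simp [h1, h2]
  · intro p _ hpv
    exact Finset.sum_eq_zero fun q _ => by simp [hpv]
  · intro h
    exact absurd hv h

theorem second_sum {U A : Finset ℕ} {v : ℕ} (hv : v ∈ U) (z : ℕ → ℕ → ZMod 2)
    (hz : ∀ a b, z a b = z b a) :
    ∑ p ∈ U, ∑ q ∈ U.filter (fun q => p < q), (if q = v ∧ p ∈ A then 1 else 0 : ZMod 2) * z p q =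
      ∑ u ∈ U, if u < v ∧ u ∈ A then z v u else 0 := by
  refine Finset.sum_congr rfl fun p _ => ?_
  rw [Finset.sum_filter, Finset.sum_eq_single v]
  · by_cases h1 : p < v <;> by_cases h2 : p ∈ A <;> simp [h1, h2, hz p v]
  · intro q _ hqv
    simp [hqv]
  · intro h
    exact absurd hv h

theorem pair_sum {U A : Finset ℕ} {v : ℕ} (hv : v ∈ U) (hA : A ⊆ U) (hvA : v ∉ A)
    (z : ℕ → ℕ → ZMod 2) (hz : ∀ a b, z a b = z b a) :
    (∑ p ∈ U, ∑ q ∈ U.filter (fun q => p < q), (if p = v ∧ q ∈ A then 1 else 0 : ZMod 2) * z p q) +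
      (∑ p ∈ U, ∑ q ∈ U.filter (fun q => p < q), (if q = v ∧ p ∈ A then 1 else 0 : ZMod 2) * z p q)
      = ∑ u ∈ A, z v u := by
  rw [first_sum hv z, second_sum hv z hz, ← Finset.sum_add_distrib]
  have e : ∑ u ∈ A, z v u = ∑ u ∈ U, if u ∈ A then z v u else 0 := by
    rw [Finset.sum_ite_mem, Finset.inter_eq_right.mpr hA]
  rw [e]
  refine Finset.sum_congr rfl fun u _ => ?_
  by_cases h2 : u ∈ A
  · have hne : u ≠ v := fun h => hvA (h ▸ h2)
    rcases lt_or_gt_of_ne hne with h | h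
    · have h' : ¬ v < u := not_lt.mpr h.le
      simp [h2, h, h']
    · have h' : ¬ u < v := not_lt.mpr h.le
      simp [h2, h, h']
  · simp [h2]

end KuStarAux

open KuStarAux

theorem cut_star {G : Gr} {U : Finset ℕ} (hon : On G U) {v w : ℕ} (hv : v ∈ U) (hw : w ∈ U)
    (hvw : v ≠ w) (A B : Finset ℕ) (hA : A ⊆ U) (hB : B ⊆ U) (hvA : v ∉ A) (hwB : w ∉ B)
    (h : ∀ z, Cyc G U z → ∑ u ∈ A, z v u + ∑ u ∈ B, z w u = 0) :
    ∃ τ : ℕ → ZMod 2, ∀ p q, G.Adj p q →
      ((if p = v ∧ q ∈ A then 1 else 0) + (if q = v ∧ p ∈ A then 1 else 0) +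
        (if p = w ∧ q ∈ B then 1 else 0) + (if q = w ∧ p ∈ B then 1 else 0) : ZMod 2) =
        τ p + τ q := by
  refine cut_lemma hon (fun p q => (if p = v ∧ q ∈ A then 1 else 0) +
    (if q = v ∧ p ∈ A then 1 else 0) + (if p = w ∧ q ∈ B then 1 else 0) +
    (if q = w ∧ p ∈ B then 1 else 0)) (fun p q => by ring) (fun z hz => ?_)
  refine Eq.trans ?_ (h z hz)
  rw [← pair_sum hv hA hvA z hz.symm, ← pair_sum hw hB hwB z hz.symm]
  unfold pr
  simp only [add_mul, Finset.sum_add_distrib]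
  ring

end K5
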