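import Pool.Agent.Lib.K5.KuSep

/-!
# K5.KuThom: Thomassen's lemma (a 3-connected graph has a contractible edge)

PROOF.  Suppose `Three (contr G x y) (U.erase y)` fails for every edge `x y`.  `G` has an edge
(`Three G U`, at least 4 vertices, `U.erase u` connected).  By `sep_of_contr` there are
`x, y, z, C` with: `G.Adj x y`, `z` in `U`, `z /= x, y`, `C` a nonempty subset of `U` that contains
none of `x, y, z`, all `G`-neighbours of elements of `C` are in `C ∪ {x, y, z}`, and some `w` in `U`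
is outside `C ∪ {x, y, z}`.  Choose such a quadruple with `|C|` minimal (`Nat.find` or strong
induction on `C.card`).
(a) `z` has a `G`-neighbour `v` in `C`: otherwise `C` has no neighbour in
`T = (U.erase x).erase y` outside `C`, and `C` is a nonempty proper subset of `T` (`w` is outside),
so `T` is not connected, against `Three G U`.
(b) `G.Adj z v`, so by assumption and `sep_of_contr` (applied to the edge `z v`) there are `w'` in
`U`, `w' /= z, v`, and `D` inside `U`, nonempty, without `z, v, w'`, all neighbours of elements of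
`D` in `D ∪ {z, v, w'}`, and some element of `U` outside `D ∪ {z, v, w'}`.  Let
`D' = U \ (D ∪ {z, v, w'})`: it has the same properties (nonempty, none of `z, v, w'`; neighbours
of elements of `D'` are not in `D`, so they are in `D' ∪ {z, v, w'}`; `D` is outside).  One of `D`,
`D'` contains neither `x` nor `y`: if `x` is in `D` then `y` is in `D ∪ {z, v, w'}`, so neither is
in `D'`; the same if `y` is in `D`; otherwise `D` itself.  Call it `D`.
(c) `v` has a neighbour `d` in `D`: otherwise `D` has no neighbours outside in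
`(U.erase z).erase w'`, against `Three G U` (some vertex is outside `D ∪ {z, v, w'}`).  As `v` is in
`C`, `d` is in `C ∪ {x, y, z}`; `d` is not `x`, `y` (choice of `D`) and not `z`, so `d` is in `C`.
(d) Put `C2 = D ∩ C`: nonempty (`d`), without `z, v, w'`, `|C2| < |C|` since `v` is in `C` and not
in `D`.  Neighbours `n` of `c` in `C2` are in `C2 ∪ {z, v, w'}`: `n` is in `D ∪ {z, v, w'}` and in
`C ∪ {x, y, z}`; if `n` is in `D` then `n /= x, y, z`, so `n` is in `C`.  Some vertex of `U` is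
outside `C2 ∪ {z, v, w'}`: one of `x`, `y` is different from `w'`, and both are different from
`z, v` and not in `C`.  So `(z, v, w', C2)` is a quadruple with smaller `C`: contradiction.
-/

namespace K5

open Finset

/-- A 3-separation: an edge `x y`, a third vertex `z` and a set `C` closed up to `x, y, z`. -/
structure KuQuad (G : Gr) (U : Finset ℕ) (x y z : ℕ) (C : Finset ℕ) : Prop where
  adj : G.Adj x y
  hx : x ∈ U
  hy : y ∈ U
  hz : z ∈ U
  zx : z ≠ x
  zy : z ≠ y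
  sub : C ⊆ U
  ne : C.Nonempty
  xC : x ∉ C
  yC : y ∉ C
  zC : z ∉ C
  nb : ∀ c ∈ C, ∀ d, G.Adj c d → d ∈ C ∨ d = x ∨ d = y ∨ d = z
  out : ∃ w ∈ U, w ∉ C ∧ w ≠ x ∧ w ≠ y ∧ w ≠ z

/-- in a 3-connected graph a set closed up to two vertices is everything -/
theorem kuThom_noTwo {G : Gr} {U : Finset ℕ} (h3 : Three G U) {a b : ℕ} {C : Finset ℕ}
    (hC : C ⊆ U) (hne : C.Nonempty) (ha : a ∉ C) (hb : b ∉ C)
    (hnb : ∀ c ∈ C, ∀ d ∈ U, G.Adj c d → d ∈ C ∨ d = a ∨ d = b)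
    {w : ℕ} (hw : w ∈ U) (hwC : w ∉ C) (hwa : w ≠ a) (hwb : w ≠ b) : False := by
  obtain ⟨_, h2⟩ := h3.2 a b
  have hsub : C ⊆ (U.erase a).erase b := by
    intro c hc
    rw [mem_erase, mem_erase]
    exact ⟨fun e => hb (e ▸ hc), fun e => ha (e ▸ hc), hC hc⟩
  have hwT : w ∈ (U.erase a).erase b := by
    rw [mem_erase, mem_erase]
    exact ⟨hwb, hwa, hw⟩
  obtain ⟨u, hu, v, hv, hvC, huv⟩ := h2 C hsub hne (fun e => hwC (e ▸ hwT))
  rw [mem_erase, mem_erase] at hv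
  rcases hnb u hu v hv.2.2 huv with h | h | h
  · exact hvC h
  · exact hv.2.1 h
  · exact hv.1 h

theorem kuThom_step {G : Gr} {U : Finset ℕ} (hon : On G U) (h3 : Three G U)
    (hall : ∀ x y, G.Adj x y → ∃ z ∈ U, z ≠ x ∧ z ≠ y ∧ ∃ C : Finset ℕ, C ⊆ U ∧ C.Nonempty ∧
      x ∉ C ∧ y ∉ C ∧ z ∉ C ∧ (∀ c ∈ C, ∀ d, G.Adj c d → d ∈ C ∨ d = x ∨ d = y ∨ d = z) ∧
      ∃ w ∈ U, w ∉ C ∧ w ≠ x ∧ w ≠ y ∧ w ≠ z) {x y z : ℕ} {C : Finset ℕ}
    (q : KuQuad G U x y z C) : ∃ x' y' z' C', KuQuad G U x' y' z' C' ∧ C'.card < C.card := by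
  -- (a)
  obtain ⟨v, hvC, hzv⟩ : ∃ v ∈ C, G.Adj z v := by
    by_contra hno
    push Not at hno
    obtain ⟨w, hw, hwC, hwx, hwy, hwz⟩ := q.out
    refine kuThom_noTwo h3 q.sub q.ne q.xC q.yC (fun c hc d _ hcd => ?_) hw hwC hwx hwy
    rcases q.nb c hc d hcd with h | h | h | h
    · exact Or.inl h
    · exact Or.inr (Or.inl h)
    · exact Or.inr (Or.inr h)
    · subst h; exact absurd hcd.symm (hno c hc)
  have hvU : v ∈ U := q.sub hvC
  have hvx : v ≠ x := fun e => q.xC (e ▸ hvC)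
  have hvy : v ≠ y := fun e => q.yC (e ▸ hvC)
  -- (b)
  obtain ⟨w', hw', hw'z, hw'v, D, hD, hDne, hzD, hvD, hw'D, hDnb, o, ho, hoD, hoz, hov, how⟩ :=
    hall z v hzv
  have hkey : ∃ E : Finset ℕ, E ⊆ U ∧ E.Nonempty ∧ z ∉ E ∧ v ∉ E ∧ w' ∉ E ∧ x ∉ E ∧ y ∉ E ∧
      (∀ c ∈ E, ∀ d, G.Adj c d → d ∈ E ∨ d = z ∨ d = v ∨ d = w') ∧
      ∃ o ∈ U, o ∉ E ∧ o ≠ z ∧ o ≠ v ∧ o ≠ w' := by
    by_cases hxy : x ∉ D ∧ y ∉ D
    · exact ⟨D, hD, hDne, hzD, hvD, hw'D, hxy.1, hxy.2, hDnb, o, ho, hoD, hoz, hov, how⟩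
    · obtain ⟨d0, hd0⟩ := hDne
      have hd1 : d0 ≠ z := fun e => hzD (e ▸ hd0)
      have hd2 : d0 ≠ v := fun e => hvD (e ▸ hd0)
      have hd3 : d0 ≠ w' := fun e => hw'D (e ▸ hd0)
      have memE : ∀ a, a ∈ U.filter (fun a => a ∉ D ∧ a ≠ z ∧ a ≠ v ∧ a ≠ w') ↔
          a ∈ U ∧ a ∉ D ∧ a ≠ z ∧ a ≠ v ∧ a ≠ w' := fun a => mem_filter
      refine ⟨U.filter (fun a => a ∉ D ∧ a ≠ z ∧ a ≠ v ∧ a ≠ w'), filter_subset _ _,
        ⟨o, (memE o).2 ⟨ho, hoD, hoz, hov, how⟩⟩, fun h => ((memE _).1 h).2.2.1 rfl,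
        fun h => ((memE _).1 h).2.2.2.1 rfl, fun h => ((memE _).1 h).2.2.2.2 rfl, ?_, ?_, ?_,
        d0, hD hd0, fun h => ((memE _).1 h).2.1 hd0, hd1, hd2, hd3⟩
      · intro h
        obtain ⟨_, h1, h2, h3, h4⟩ := (memE _).1 h
        have hyD : y ∈ D := by
          by_contra hy
          exact hxy ⟨h1, hy⟩
        rcases hDnb y hyD x q.adj.symm with h5 | h5 | h5 | h5
        · exact h1 h5
        · exact h2 h5
        · exact h3 h5
        · exact h4 h5
      · intro h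
        obtain ⟨_, h1, h2, h3, h4⟩ := (memE _).1 h
        have hxD : x ∈ D := by
          by_contra hx
          exact hxy ⟨hx, h1⟩
        rcases hDnb x hxD y q.adj with h5 | h5 | h5 | h5
        · exact h1 h5
        · exact h2 h5
        · exact h3 h5
        · exact h4 h5
      · intro c hc d hcd
        obtain ⟨_, h1, h2, h3, h4⟩ := (memE _).1 hc
        by_cases e1 : d = z
        · exact Or.inr (Or.inl e1)
        by_cases e2 : d = v
        · exact Or.inr (Or.inr (Or.inl e2))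
        by_cases e3 : d = w'
        · exact Or.inr (Or.inr (Or.inr e3))
        left
        rw [memE]
        refine ⟨hon d c hcd.symm, fun hdD => ?_, e1, e2, e3⟩
        rcases hDnb d hdD c hcd.symm with h5 | h5 | h5 | h5
        · exact h1 h5
        · exact h2 h5
        · exact h3 h5
        · exact h4 h5
  clear hD hDne hzD hvD hw'D hDnb hoD
  obtain ⟨E, hE, hEne, hzE, hvE, hw'E, hxE, hyE, hEnb, o', ho', ho'E, ho'z, ho'v, ho'w⟩ := hkey
  -- (c)
  obtain ⟨d, hdE, hvd⟩ : ∃ d ∈ E, G.Adj v d := by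
    by_contra hno
    push Not at hno
    refine kuThom_noTwo h3 hE hEne hzE hw'E (fun c hc d _ hcd => ?_) ho' ho'E ho'z ho'w
    rcases hEnb c hc d hcd with h | h | h | h
    · exact Or.inl h
    · exact Or.inr (Or.inl h)
    · subst h; exact absurd hcd.symm (hno c hc)
    · exact Or.inr (Or.inr h)
  have hdC : d ∈ C := by
    rcases q.nb v hvC d hvd with h | h | h | h
    · exact h
    · exact absurd (h ▸ hdE) hxE
    · exact absurd (h ▸ hdE) hyE
    · exact absurd (h ▸ hdE) hzE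
  -- (d)
  refine ⟨z, v, w', C.filter (fun a => a ∈ E), ⟨hzv, q.hz, hvU, hw', hw'z, hw'v,
    (filter_subset _ _).trans q.sub, ⟨d, mem_filter.2 ⟨hdC, hdE⟩⟩,
    fun h => hzE (mem_filter.1 h).2, fun h => hvE (mem_filter.1 h).2,
    fun h => hw'E (mem_filter.1 h).2, ?_, ?_⟩, ?_⟩
  · intro c hc n hcn
    obtain ⟨hcC, hcE⟩ := mem_filter.1 hc
    rcases hEnb c hcE n hcn with h | h | h | h
    · left
      rw [mem_filter]
      refine ⟨?_, h⟩
      rcases q.nb c hcC n hcn with h5 | h5 | h5 | h5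
      · exact h5
      · exact absurd (h5 ▸ h) hxE
      · exact absurd (h5 ▸ h) hyE
      · exact absurd (h5 ▸ h) hzE
    · exact Or.inr (Or.inl h)
    · exact Or.inr (Or.inr (Or.inl h))
    · exact Or.inr (Or.inr (Or.inr h))
  · by_cases hxw : x = w'
    · refine ⟨y, q.hy, fun h => q.yC (mem_filter.1 h).1, q.zy.symm, hvy.symm, fun e => ?_⟩
      exact q.adj.ne (hxw.trans e.symm)
    · exact ⟨x, q.hx, fun h => q.xC (mem_filter.1 h).1, q.zx.symm, hvx.symm, hxw⟩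
  · apply card_lt_card
    rw [ssubset_iff_of_subset (filter_subset _ _)]
    exact ⟨v, hvC, fun h => hvE (mem_filter.1 h).2⟩

theorem kuThom_none {G : Gr} {U : Finset ℕ} (hon : On G U) (h3 : Three G U)
    (hall : ∀ x y, G.Adj x y → ∃ z ∈ U, z ≠ x ∧ z ≠ y ∧ ∃ C : Finset ℕ, C ⊆ U ∧ C.Nonempty ∧
      x ∉ C ∧ y ∉ C ∧ z ∉ C ∧ (∀ c ∈ C, ∀ d, G.Adj c d → d ∈ C ∨ d = x ∨ d = y ∨ d = z) ∧
      ∃ w ∈ U, w ∉ C ∧ w ≠ x ∧ w ≠ y ∧ w ≠ z) :
    ∀ n x y z C, KuQuad G U x y z C → C.card ≤ n → False := by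
  intro n
  induction n with
  | zero =>
    intro x y z C q hn
    have := card_pos.2 q.ne
    omega
  | succ n ih =>
    intro x y z C q hn
    obtain ⟨x', y', z', C', q', hlt⟩ := kuThom_step hon h3 hall q
    exact ih x' y' z' C' q' (by omega)

theorem thomassen {G : Gr} {U : Finset ℕ} (hon : On G U) (h3 : Three G U) (h5 : 5 ≤ U.card) :
    ∃ x y, G.Adj x y ∧ Three (contr G x y) (U.erase y) := by
  by_contra hno
  push Not at hno
  have hall : ∀ x y, G.Adj x y → ∃ z ∈ U, z ≠ x ∧ z ≠ y ∧ ∃ C : Finset ℕ, C ⊆ U ∧ C.Nonempty ∧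
      x ∉ C ∧ y ∉ C ∧ z ∉ C ∧ (∀ c ∈ C, ∀ d, G.Adj c d → d ∈ C ∨ d = x ∨ d = y ∨ d = z) ∧
      ∃ w ∈ U, w ∉ C ∧ w ≠ x ∧ w ≠ y ∧ w ≠ z :=
    fun x y hxy => sep_of_contr hon h3 h5 hxy (hno x y hxy)
  -- an edge exists
  obtain ⟨t, ht⟩ := Infinite.exists_notMem_finset U
  obtain ⟨⟨a, ha⟩, h2⟩ := h3.2 t t
  have ha' : a ∈ U := mem_of_mem_erase (mem_of_mem_erase ha)
  obtain ⟨u, hu, v, hv, _, huv⟩ := h2 {a} (by simpa using ha) ⟨a, mem_singleton_self a⟩ (by
    intro e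
    have h6 : ((U.erase t).erase t).card = 1 := by rw [← e, card_singleton]
    rw [erase_eq_of_notMem ht, erase_eq_of_notMem ht] at h6
    omega)
  obtain ⟨z, hz, hzx, hzy, C, hC, hCne, hxC, hyC, hzC, hnb, hout⟩ := hall u v huv
  exact kuThom_none hon h3 hall C.card u v z C
    ⟨huv, hon u v huv, hon v u huv.symm, hz, hzx, hzy, hC, hCne, hxC, hyC, hzC, hnb, hout⟩ le_rfl

end K5
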