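import Pool.Agent.Lib.K5.KuLink
import Pool.Agent.Lib.K5.KuArc

/-!
# K5.KuTwo: two faces with two common vertices share the edge between them

PROOF.  By `link_exists` (with any neighbour `y0` of `v`; one exists since `F i v _` is not zero)
and `link_arc` there is `A` inside `nb G U v`, nonempty, not everything, with
`∑ x ∈ A, F l v x /= 0` iff `l = i` or `l = j`; similarly `B` inside `nb G U w` for `w`.  (The
hypotheses of `link_arc`: `F i v u /= 0` implies `G.Adj v u`, so `u` is in `nb G U v`.)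
So `∑ u ∈ A, F l v u + ∑ u ∈ B, F l w u = 0` for all `l` (both are nonzero, i.e. 1, or both 0),
hence by `span` `∑ u ∈ A, z v u + ∑ u ∈ B, z w u = 0` for all `z` with `Cyc G U z`.  `cut_star`
gives `τ`.  The set `(U.erase v).erase w` is connected and for its edges the left hand side is 0, so
`τ` is constant, say `t`, on it (`conn_const`).  For a neighbour `x /= w` of `v` (it is in
`(U.erase v).erase w`): `[x ∈ A] = τ v + t`: the same value for all of them.
If `τ v + t = 0`: `A` contains no neighbour of `v` except possibly `w`; it is nonempty, so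
`A = {w}` and `G.Adj v w`.  Then `∑ x ∈ A, F l v x = F l v w`, so `F i v w /= 0`, `F j v w /= 0`.
If `τ v + t = 1`: `A` contains all neighbours of `v` except possibly `w`; it is not everything, so
`w` is a neighbour of `v` and `A = (nb G U v).erase w`.  Since
`∑ x ∈ nb G U v, F l v x = 0` (evenness), `∑ x ∈ A, F l v x = F l v w`, and again
`F i v w /= 0`, `F j v w /= 0`.
-/

namespace K5

open Finset

namespace KuTwoAux

lemma add_zero_of_iff : ∀ a b : ZMod 2, (a ≠ 0 ↔ b ≠ 0) → a + b = 0 := by decide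

lemma eq_of_add : ∀ a b : ZMod 2, 0 = a + b → a = b := by decide

lemma eq_of_add_zero : ∀ a b : ZMod 2, a + b = 0 → (a ≠ 0 ↔ b ≠ 0) := by decide

lemma mem_nb {G : Gr} {U : Finset ℕ} {v x : ℕ} : x ∈ nb G U v ↔ x ∈ U ∧ G.Adj v x := by
  classical
  simp [nb]

lemma arc {G : Gr} {U : Finset ℕ} {n : ℕ} {F : Fin n → ℕ → ℕ → ZMod 2} (hon : On G U)
    (h3 : Three G U) (hF : Faces G U n F) {v : ℕ} (hv : v ∈ U) {i j : Fin n} (hij : i ≠ j)
    (h1 : ∃ u, F i v u ≠ 0) (h4 : ∃ u, F j v u ≠ 0) :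
    ∃ A ⊆ nb G U v, A.Nonempty ∧ A ≠ nb G U v ∧ ∀ l, (∑ x ∈ A, F l v x ≠ 0 ↔ (l = i ∨ l = j)) := by
  have key : ∀ l u, F l v u ≠ 0 → u ∈ nb G U v := by
    intro l u hu
    have hadj := (hF.cyc l).supp _ _ hu
    exact mem_nb.2 ⟨hon _ _ hadj.symm, hadj⟩
  obtain ⟨y0, hy0⟩ := h1
  obtain ⟨m, u, φ, hL, -, -⟩ := link_exists hon h3 hF hv ((hF.cyc i).supp _ _ hy0)
  obtain ⟨y1, hy1⟩ := h4
  exact link_arc hL hij ⟨y0, key _ _ hy0, hy0⟩ ⟨y1, key _ _ hy1, hy1⟩

lemma sum_nb {G : Gr} {U : Finset ℕ} {z : ℕ → ℕ → ZMod 2} (hz : Cyc G U z) {v : ℕ} (hv : v ∈ U) :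
    ∑ x ∈ nb G U v, z v x = 0 := by
  rw [← hz.even v hv]
  refine Finset.sum_subset (fun x hx => (mem_nb.1 hx).1) (fun x hx hx2 => ?_)
  by_contra h
  exact hx2 (mem_nb.2 ⟨hx, hz.supp _ _ h⟩)

end KuTwoAux

open KuTwoAux in
theorem two_faces {G : Gr} {U : Finset ℕ} {n : ℕ} {F : Fin n → ℕ → ℕ → ZMod 2} (hon : On G U)
    (h3 : Three G U) (hF : Faces G U n F) {v w : ℕ} (hv : v ∈ U) (hw : w ∈ U) (hvw : v ≠ w)
    {i j : Fin n} (hij : i ≠ j) (h1 : ∃ u, F i v u ≠ 0) (h2 : ∃ u, F i w u ≠ 0)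
    (h4 : ∃ u, F j v u ≠ 0) (h5 : ∃ u, F j w u ≠ 0) :
    G.Adj v w ∧ F i v w ≠ 0 ∧ F j v w ≠ 0 := by
  classical
  obtain ⟨A, hA1, hA2, hA3, hA4⟩ := arc hon h3 hF hv hij h1 h4
  obtain ⟨B, hB1, hB2, hB3, hB4⟩ := arc hon h3 hF hw hij h2 h5
  have hAU : A ⊆ U := fun x hx => (mem_nb.1 (hA1 hx)).1
  have hBU : B ⊆ U := fun x hx => (mem_nb.1 (hB1 hx)).1
  have hvA : v ∉ A := fun h => (mem_nb.1 (hA1 h)).2.ne rfl
  have hwB : w ∉ B := fun h => (mem_nb.1 (hB1 h)).2.ne rfl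
  have hl : ∀ l, ∑ u ∈ A, F l v u + ∑ u ∈ B, F l w u = 0 := by
    intro l
    exact add_zero_of_iff _ _ ((hA4 l).trans (hB4 l).symm)
  have hz : ∀ z, Cyc G U z → ∑ u ∈ A, z v u + ∑ u ∈ B, z w u = 0 := by
    intro z hz
    obtain ⟨S, hS⟩ := hF.span z hz
    have e1 : ∑ u ∈ A, z v u = ∑ l ∈ S, ∑ u ∈ A, F l v u := by
      rw [Finset.sum_comm]
      exact Finset.sum_congr rfl (fun u _ => hS v u)
    have e2 : ∑ u ∈ B, z w u = ∑ l ∈ S, ∑ u ∈ B, F l w u := by
      rw [Finset.sum_comm]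
      exact Finset.sum_congr rfl (fun u _ => hS w u)
    rw [e1, e2, ← Finset.sum_add_distrib]
    exact Finset.sum_eq_zero (fun l _ => hl l)
  obtain ⟨τ, hτ⟩ := cut_star hon hv hw hvw A B hAU hBU hvA hwB hz
  have hT := conn_const (h3.2 v w) τ (by
    intro p hp q hq hpq
    have hp1 : p ≠ w := (Finset.mem_erase.1 hp).1
    have hp2 : p ≠ v := (Finset.mem_erase.1 (Finset.mem_erase.1 hp).2).1
    have hq1 : q ≠ w := (Finset.mem_erase.1 hq).1
    have hq2 : q ≠ v := (Finset.mem_erase.1 (Finset.mem_erase.1 hq).2).1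
    have := hτ p q hpq
    simp only [hp1, hp2, hq1, hq2, false_and, if_false, add_zero] at this
    exact eq_of_add _ _ this)
  have hmemT : ∀ x, G.Adj v x → x ≠ w → x ∈ (U.erase v).erase w := by
    intro x hx hxw
    exact Finset.mem_erase.2 ⟨hxw, Finset.mem_erase.2 ⟨hx.ne', hon _ _ hx.symm⟩⟩
  have hx : ∀ x, G.Adj v x → x ≠ w → (if x ∈ A then 1 else 0 : ZMod 2) = τ v + τ x := by
    intro x hx hxw
    have := hτ v x hx
    have hxv : x ≠ v := hx.ne'
    simp only [hxv, hvw, hxw, false_and, if_false, add_zero, true_and] at this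
    exact this
  have hsame : ∀ x y, G.Adj v x → x ≠ w → G.Adj v y → y ≠ w → x ∈ A → y ∈ A := by
    intro x y hx1 hx2 hy1 hy2 hxA
    have e1 := hx x hx1 hx2
    have e2 := hx y hy1 hy2
    rw [hT x (hmemT x hx1 hx2) y (hmemT y hy1 hy2), ← e2, if_pos hxA] at e1
    by_contra hyA
    rw [if_neg hyA] at e1
    exact one_ne_zero e1
  obtain ⟨x0, hx0, hx0w, -⟩ := deg3 hon h3 hv w w
  by_cases hc : x0 ∈ A
  · -- all neighbours except `w` are in `A`
    obtain ⟨y, hy, hyA⟩ : ∃ y ∈ nb G U v, y ∉ A := by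
      by_contra h
      push Not at h
      exact hA3 (Finset.Subset.antisymm hA1 h)
    have hyw : y = w := by
      by_contra hyw
      exact hyA (hsame x0 y hx0 hx0w (mem_nb.1 hy).2 hyw hc)
    subst hyw
    have hAe : A = (nb G U v).erase y := by
      ext x
      rw [Finset.mem_erase]
      constructor
      · intro hxA
        exact ⟨fun h => hyA (h ▸ hxA), hA1 hxA⟩
      · rintro ⟨h6, h7⟩
        exact hsame x0 x hx0 hx0w (mem_nb.1 h7).2 h6 hc
    have hs : ∀ l, (l = i ∨ l = j) → F l v y ≠ 0 := by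
      intro l hl
      have h8 := (hA4 l).2 hl
      have h9 := Finset.sum_erase_add (nb G U v) (fun x => F l v x) hy
      rw [sum_nb (hF.cyc l) hv, ← hAe] at h9
      exact (eq_of_add_zero _ _ h9).1 h8
    exact ⟨(mem_nb.1 hy).2, hs i (Or.inl rfl), hs j (Or.inr rfl)⟩
  · have hAw : A = {w} := by
      have hsub : ∀ x ∈ A, x = w := by
        intro x hxA
        by_contra hxw
        exact hc (hsame x x0 (mem_nb.1 (hA1 hxA)).2 hxw hx0 hx0w hxA)
      obtain ⟨a, ha⟩ := hA2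
      have haw := hsub a ha
      subst haw
      ext x
      rw [Finset.mem_singleton]
      exact ⟨hsub x, fun h => h ▸ ha⟩
    have hadj : G.Adj v w := by
      refine (mem_nb.1 (hA1 ?_)).2
      rw [hAw]
      exact Finset.mem_singleton_self _
    have hs : ∀ l, (l = i ∨ l = j) → F l v w ≠ 0 := by
      intro l hl
      have h8 := (hA4 l).2 hl
      rwa [hAw, Finset.sum_singleton] at h8
    exact ⟨hadj, hs i (Or.inl rfl), hs j (Or.inr rfl)⟩

end K5
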