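import Pool.Agent.Lib.K5.KuContr
import Pool.Agent.Lib.K5.KuThom
import Pool.Agent.Lib.K5.KuNorm
import Pool.Agent.Lib.K5.KuNeck
import Pool.Agent.Lib.K5.KuMinor
import Pool.Agent.Lib.K5.KuLift
import Pool.Agent.Lib.K5.KuBase

/-!
# K5.Kuratowski: a 3-connected graph without `K_5` and `K_(3,3)` minors is planar (Mac Lane's form)
-/

namespace K5

open Finset

theorem ring4_contr {G : Gr} {x y : ℕ} {p : Fin 4 → ℕ} {W : Fin 4 → Finset ℕ}
    (hR : Ring4 (contr G x y) p W) (hx : ∀ i, x ∉ W i) (hy : ∀ i, y ∉ W i) : Ring4 G p W :=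
  ⟨fun i => conn_contr (hR.conn i) (hx i) (hy i), hR.left, hR.right, hR.ne, hR.meet, hR.far⟩

theorem ring3_contr {G : Gr} {x y : ℕ} {p : Fin 3 → ℕ} {W : Fin 3 → Finset ℕ}
    (hR : Ring3 (contr G x y) p W) (hx : ∀ i, x ∉ W i) (hy : ∀ i, y ∉ W i) : Ring3 G p W :=
  ⟨fun i => conn_contr (hR.conn i) (hx i) (hy i), hR.left, hR.right, hR.ne, hR.meet⟩

theorem mem_nb {G : Gr} {U : Finset ℕ} {v c : ℕ} : c ∈ nb G U v ↔ c ∈ U ∧ G.Adj v c := by
  classical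
  unfold nb
  rw [Finset.mem_filter]

/-- the labels at the merged vertex exist, if some neighbour of it is not adjacent to `p` -/
theorem ku_step {G : Gr} {U : Finset ℕ} {x y : ℕ} (hxy : G.Adj x y)
    (honH : On (contr G x y) (U.erase y)) (h3 : Three (contr G x y) (U.erase y))
    (hxU : x ∈ U.erase y) {n : ℕ} {F : Fin n → ℕ → ℕ → ZMod 2}
    (hF : Faces (contr G x y) (U.erase y) n F) (hk : ¬ K33 G) {p q : ℕ}
    (hpq : (p = x ∧ q = y) ∨ (p = y ∧ q = x))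
    (hPQ : ∀ c ∈ nb (contr G x y) (U.erase y) x, G.Adj p c ∨ G.Adj q c) {y0 : ℕ}
    (hy0 : y0 ∈ nb (contr G x y) (U.erase y) x) (hn : ¬ G.Adj p y0)
    (h2 : ∃ c ∈ nb (contr G x y) (U.erase y) x, ∃ d ∈ nb (contr G x y) (U.erase y) x,
      c ≠ d ∧ G.Adj p c ∧ G.Adj p d) :
    ∃ lab, LabOK n (fun i c => F i x c) (nb (contr G x y) (U.erase y) x)
      (fun c => G.Adj p c) (fun c => G.Adj q c) lab := by
  obtain ⟨m, u, φ, hL, hum, hm⟩ := link_exists honH h3 hF hxU (mem_nb.1 hy0).2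
  obtain ⟨W, hW⟩ := neck_exists honH h3 hF hxU hL
  obtain ⟨c, hc, d, hd, hcd, hpc, hpd⟩ := h2
  obtain ⟨j, hj, rfl⟩ := hL.surj c hc
  obtain ⟨k, hkm, rfl⟩ := hL.surj d hd
  have hjk : ∃ j k, j < k ∧ k ≤ m ∧ G.Adj p (u j) ∧ G.Adj p (u k) := by
    rcases Nat.lt_trichotomy j k with h | h | h
    · exact ⟨j, k, h, hkm, hpc, hpd⟩
    · exact absurd (by rw [h]) hcd
    · exact ⟨k, j, h, hj, hpd, hpc⟩
  have hQm : G.Adj q (u m) := by
    rcases hPQ _ (hL.mem m le_rfl) with h | h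
    · exact absurd (hum ▸ h) hn
    · exact h
  rcases interval (m := m) (u := u) (fun c => G.Adj p c) (fun c => G.Adj q c) (by
      rw [hum]; exact hn) hjk with ⟨a, k', b, hak, hkb, hbm, hPa, hQk, hPb⟩ |
      ⟨a, b, hab, hbm, hPa, hPb, hint, hQn⟩
  · exfalso
    obtain ⟨R, hR, hRU⟩ := ring4 hW hL.inj hak hkb hbm
    have hRx : ∀ i, x ∉ R i := fun i => (hRU i).2
    have hRy : ∀ i, y ∉ R i := fun i h => (Finset.mem_erase.1 ((hRU i).1 h)).1 rfl
    have hR' := ring4_contr hR hRx hRy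
    have hpqa : G.Adj p q := by
      rcases hpq with ⟨rfl, rfl⟩ | ⟨rfl, rfl⟩
      · exact hxy
      · exact hxy.symm
    have hp : ∀ i, p ∉ R i := by
      rcases hpq with ⟨rfl, rfl⟩ | ⟨rfl, rfl⟩
      · exact hRx
      · exact hRy
    have hq : ∀ i, q ∉ R i := by
      rcases hpq with ⟨rfl, rfl⟩ | ⟨rfl, rfl⟩
      · exact hRy
      · exact hRx
    exact hk (K33_of_ring hR' hpqa hp hq hPa hPb hQk hQm)
  · exact lab_exists hL _ _ hPQ hab hbm hPa hPb hint hQn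

theorem two_nb {G : Gr} {U : Finset ℕ} {x y : ℕ} (hon : On G U) (h3 : Three G U)
    (hxy : G.Adj x y) {p q : ℕ} (hpq : (p = x ∧ q = y) ∨ (p = y ∧ q = x)) :
    ∃ c ∈ nb (contr G x y) (U.erase y) x, ∃ d ∈ nb (contr G x y) (U.erase y) x,
      c ≠ d ∧ G.Adj p c ∧ G.Adj p d := by
  have hne : x ≠ y := hxy.ne
  have hpU : p ∈ U := by
    rcases hpq with ⟨rfl, rfl⟩ | ⟨rfl, rfl⟩
    · exact hon _ _ hxy
    · exact hon _ _ hxy.symm
  have key : ∀ c, G.Adj p c → c ≠ q → c ∈ nb (contr G x y) (U.erase y) x := by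
    intro c hc hcq
    have hcU : c ∈ U := hon _ _ hc.symm
    have hpc : p ≠ c := hc.ne
    rcases hpq with ⟨rfl, rfl⟩ | ⟨rfl, rfl⟩
    · exact mem_nb.2 ⟨Finset.mem_erase.2 ⟨hcq, hcU⟩, hpc, hne, hcq, Or.inl hc⟩
    · exact mem_nb.2 ⟨Finset.mem_erase.2 ⟨hpc.symm, hcU⟩, hcq.symm, hne, hpc.symm,
        Or.inr (Or.inl ⟨rfl, hc⟩)⟩
  obtain ⟨c, hc, hcq, -⟩ := deg3 hon h3 hpU q q
  obtain ⟨d, hd, hdq, hdc⟩ := deg3 hon h3 hpU q c
  exact ⟨c, key c hc hcq, d, key d hd hdq, hdc.symm, hc, hd⟩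

theorem kuratowski {G : Gr} {U : Finset ℕ} (hon : On G U) (h3 : Three G U) (hf : Free G)
    (hk : ¬ K33 G) : Mac G U := by
  induction hn : U.card using Nat.strong_induction_on generalizing G U with
  | _ N ih =>
  subst hn
  rcases Nat.lt_or_ge 4 U.card with h5 | h4
  swap
  · exact mac_four hon h3 (le_antisymm h4 h3.1)
  obtain ⟨x, y, hxy, h3'⟩ := thomassen hon h3 h5
  have hne : x ≠ y := hxy.ne
  have hxU : x ∈ U := hon _ _ hxy
  have hyU : y ∈ U := hon _ _ hxy.symm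
  have honH : On (contr G x y) (U.erase y) := contr_on hon hxU
  have hM : Mac (contr G x y) (U.erase y) :=
    ih _ (Finset.card_erase_lt_of_mem hyU) honH h3' (fun h => hf (K5_contr hxy h))
      (fun h => hk (K33_contr hxy h)) rfl
  obtain ⟨n, F, hF⟩ := faces_of_mac hM (fun a b hab => edge_cyc honH h3' hab)
  have hxU' : x ∈ U.erase y := Finset.mem_erase.2 ⟨hne, hxU⟩
  have hX : ∀ c ∈ nb (contr G x y) (U.erase y) x, G.Adj x c ∨ G.Adj y c := by
    intro c hc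
    obtain ⟨-, h1, -, -, h | h | h⟩ := mem_nb.1 hc
    · exact Or.inl h
    · exact Or.inr h.2
    · exact absurd h.1.symm h1
  by_cases hc : ∀ c ∈ nb (contr G x y) (U.erase y) x, G.Adj x c ∧ G.Adj y c
  · exfalso
    obtain ⟨u0, hu0, -⟩ := deg3 honH h3' hxU' x x
    obtain ⟨m, u, φ, hL, -, hm⟩ := link_exists honH h3' hF hxU' hu0
    obtain ⟨W, hW⟩ := neck_exists honH h3' hF hxU' hL
    obtain ⟨R, hR, hRU⟩ := ring3 hW hL.inj hm
    have hRx : ∀ i, x ∉ R i := fun i => (hRU i).2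
    have hRy : ∀ i, y ∉ R i := fun i h => (Finset.mem_erase.1 ((hRU i).1 h)).1 rfl
    have hp : ∀ i : Fin 3, (![u 0, u 1, u 2] : Fin 3 → ℕ) i ∈ nb (contr G x y) (U.erase y) x := by
      intro i
      fin_cases i
      · exact hL.mem 0 (Nat.zero_le _)
      · exact hL.mem 1 (by omega)
      · exact hL.mem 2 hm
    exact hf (K5_of_ring (ring3_contr hR hRx hRy) hxy hRx hRy (fun i => (hc _ (hp i)).1)
      (fun i => (hc _ (hp i)).2))
  · push Not at hc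
    obtain ⟨y0, hy0, hy1⟩ := hc
    by_cases hP : G.Adj x y0
    · have hn : ¬ G.Adj y y0 := hy1 hP
      obtain ⟨lab, hlab⟩ := ku_step hxy honH h3' hxU' hF hk (p := y) (q := x)
        (Or.inr ⟨rfl, rfl⟩) (fun c hc => (hX c hc).symm) hy0 hn
        (two_nb hon h3 hxy (Or.inr ⟨rfl, rfl⟩))
      refine mac_lift hon hxy hF _ (lab_swap ?_ ?_ _ _ lab hlab)
      · exact fun c hc => hF.two x c (mem_nb.1 hc).2
      · intro i
        rw [← (hF.cyc i).even x hxU']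
        refine Finset.sum_subset (fun c hc => (mem_nb.1 hc).1) (fun c hcU hcn => ?_)
        by_contra h0
        exact hcn (mem_nb.2 ⟨hcU, (hF.cyc i).supp x c h0⟩)
    · obtain ⟨lab, hlab⟩ := ku_step hxy honH h3' hxU' hF hk (p := x) (q := y)
        (Or.inl ⟨rfl, rfl⟩) hX hy0 hP (two_nb hon h3 hxy (Or.inl ⟨rfl, rfl⟩))
      exact mac_lift hon hxy hF _ hlab

end K5
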