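import Pool.Agent.Lib.K5.Defs3
import Pool.Agent.Lib.P512.ConnB

/-!
# K5.Mac: `K_(3,3)` minors, faces, contraction (definitions for the modules Ku*)

`Cyc` and `Mac` (Mac Lane's form of planarity) are in `K5.Defs3`.  Everything is over the field with
two elements; an edge set is a symmetric function `z : ℕ → ℕ → ZMod 2` supported on the edges of the
graph.
-/

namespace K5

open Finset

/-- `G` has a `K_(3,3)` minor. -/
def K33 (G : Gr) : Prop :=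
  ∃ A B : Fin 3 → Finset ℕ, (∀ i, P512.Conn G (A i)) ∧ (∀ j, P512.Conn G (B j)) ∧
    (∀ i j, i ≠ j → Disjoint (A i) (A j)) ∧ (∀ i j, i ≠ j → Disjoint (B i) (B j)) ∧
    (∀ i j, Disjoint (A i) (B j)) ∧ ∀ i j, ∃ a ∈ A i, ∃ b ∈ B j, G.Adj a b

/-- The faces of a planar graph: every edge lies in exactly two of them, and they span the cycle
space. -/
structure Faces (G : Gr) (U : Finset ℕ) (n : ℕ) (F : Fin n → ℕ → ℕ → ZMod 2) : Prop where
  cyc : ∀ i, Cyc G U (F i)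
  two : ∀ a b, G.Adj a b → (univ.filter (fun i => F i a b ≠ 0)).card = 2
  span : ∀ z, Cyc G U z → ∃ S : Finset (Fin n), ∀ a b, z a b = ∑ i ∈ S, F i a b

/-- The graph `G` with `y` merged into `x`. -/
def contr (G : Gr) (x y : ℕ) : Gr where
  Adj a b := a ≠ b ∧ a ≠ y ∧ b ≠ y ∧ (G.Adj a b ∨ (a = x ∧ G.Adj y b) ∨ (b = x ∧ G.Adj a y))
  symm := ⟨fun _ _ h => ⟨h.1.symm, h.2.2.1, h.2.1, h.2.2.2.elim (fun h => Or.inl h.symm)
    (fun h => h.elim (fun h => Or.inr (Or.inr ⟨h.1, h.2.symm⟩))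
      (fun h => Or.inr (Or.inl ⟨h.1, h.2.symm⟩)))⟩⟩
  loopless := ⟨fun _ h => h.1 rfl⟩

/-- The edge `pq` as an edge set. -/
def ind (p q : ℕ) : ℕ → ℕ → ZMod 2 :=
  fun a b => if (a = p ∧ b = q) ∨ (a = q ∧ b = p) then 1 else 0

/-- The number (mod 2) of edges in both `a` and `z`. -/
def pr (U : Finset ℕ) (a z : ℕ → ℕ → ZMod 2) : ZMod 2 :=
  ∑ p ∈ U, ∑ q ∈ U.filter (fun q => p < q), a p q * z p q

/-- The cyclic order `u 0, ..., u m` of a finite set `X` by the faces `φ 0, ..., φ m`: `φ k` is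
incident with `u k` and `u (k + 1)` for `k < m`, and `φ m` with `u m` and `u 0`.  Here `f i x ≠ 0`
means that face `i` is incident with `x`. -/
structure Link (n : ℕ) (f : Fin n → ℕ → ZMod 2) (X : Finset ℕ) (m : ℕ) (u : ℕ → ℕ)
    (φ : ℕ → Fin n) : Prop where
  one : 1 ≤ m
  mem : ∀ k, k ≤ m → u k ∈ X
  inj : ∀ j k, j ≤ m → k ≤ m → u j = u k → j = k
  surj : ∀ x ∈ X, ∃ k, k ≤ m ∧ u k = x
  finj : ∀ j k, j ≤ m → k ≤ m → φ j = φ k → j = k
  inc : ∀ j k, j ≤ m → k ≤ m →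
    (f (φ j) (u k) ≠ 0 ↔ (j = k ∨ j + 1 = k ∨ (j = m ∧ k = 0)))
  all : ∀ i k, k ≤ m → f i (u k) ≠ 0 → ∃ j, j ≤ m ∧ i = φ j

/-- The necklace around `v`: connected sets `W k` containing `u k` and `u (k + 1)` (`u m` and `u 0`
for `k = m`), two of them meet at most in the common `u`. -/
structure Neck (G : Gr) (U : Finset ℕ) (v : ℕ) (m : ℕ) (u : ℕ → ℕ) (W : ℕ → Finset ℕ) : Prop where
  conn : ∀ k, k ≤ m → P512.Conn G (W k)
  sub : ∀ k, k ≤ m → W k ⊆ U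
  out : ∀ k, k ≤ m → v ∉ W k
  left : ∀ k, k ≤ m → u k ∈ W k
  right : ∀ k, k < m → u (k + 1) ∈ W k
  last : u 0 ∈ W m
  meet : ∀ i j, i < j → j ≤ m → ∀ w, w ∈ W i → w ∈ W j →
    (j = i + 1 ∧ w = u j) ∨ (i = 0 ∧ j = m ∧ w = u 0)

end K5
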