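import Pool.Agent.Lib.K5.KSer
import Pool.Agent.Lib.K5N.Main

/-!
# K5.MkSys : the bounds for the growth constant from the block theorems in terms of `D, Kt, Kt0, At`
-/

namespace K5

open Finset Filter Topology
open scoped ENNReal

/-- The analytic interface of stage 1, from the block theorems.  `Dm x Y T`, `N3 x Y T` are the
values of `D_map` and of `NS_3 / x^3 = 1 + 3 D_map + S_3`. -/
noncomputable def mkSys {γ : ℝ} (Dm N3 : ℝ≥0∞ → ℝ≥0∞ → ℝ≥0∞ → ℝ≥0∞)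
    (graphU : ∀ {x z t a k : ℝ}, 0 < x → 1 ≤ z → 0 ≤ t → 0 ≤ a → 0 ≤ k →
      At (.ofReal x) (.ofReal z) (.ofReal (1 + z)) (.ofReal t) ≤ .ofReal a →
      Real.exp a - 1 - a ≤ t →
      Kt (.ofReal x) (.ofReal z) (.ofReal (1 + z)) (.ofReal t) ≤ .ofReal k →
      x * z ^ 2 / (1 + x * z) + k + 3 / 2 * x ^ 6 * z ^ 11 ≤ Real.log ((1 + z) / 2) →
      D (.ofReal x) ≤ .ofReal z)
    (graphL : ∀ {x x1 : ℝ}, 0 < x → x < x1 → D (.ofReal x1) ≠ ⊤ →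
      ∃ z t a k : ℝ, 1 ≤ z ∧ 0 ≤ t ∧ 0 ≤ a ∧ 0 ≤ k ∧ D (.ofReal x) = .ofReal z ∧
      At (.ofReal x) (.ofReal z) (.ofReal (1 + z)) (.ofReal t) ≤ .ofReal a ∧
      Real.exp a - 1 - a ≤ t ∧
      Kt0 (.ofReal x) (.ofReal z) (.ofReal (1 + z)) (.ofReal t) ≤ .ofReal k ∧
      x * z ^ 2 / (1 + x * z) + k ≤ Real.log ((1 + z) / 2) + x ^ 4 * z ^ 8 / 4)
    (Kt_le : ∀ x z w t : ℝ≥0∞, Kt x z w t ≤ Kt0 x z w t + x * w ^ 2 * t * At x z w t)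
    (blockU : ∀ {x z : ℝ}, 0 < x → 1 ≤ z → D (.ofReal x) ≤ .ofReal z →
      γ * x ≤ Real.exp (x / 2 + x * (1 + z) / 4 - x ^ 3 / 3))
    (blockL : ∀ {x : ℝ}, 0 < x → x ≤ 1 / 4 →
      γ * x < Real.exp (x + x ^ 2 / 2 + 5 * x ^ 3 / 3 + 79 * x ^ 4 / 8) → D (.ofReal x) ≠ ⊤)
    (mapEq : ∀ x Y T : ℝ≥0∞, x ≠ 0 → x ≠ ∞ → Y ≠ ∞ → T ≠ ∞ → Dm x Y T ≠ ∞ → ∃ S : ℝ≥0∞,
      S * (1 + x * Dm x Y T) = x * Dm x Y T ^ 2 ∧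
      Dm x Y T = (1 + Dm x Y T) * (Y + S + x * (1 + Dm x Y T) ^ 2 * (2 * T + T ^ 2) +
        2 * Kt x (Dm x Y T) (1 + Dm x Y T) T) ∧
      N3 x Y T = (1 + Dm x Y T) ^ 3 * (1 + T + At x (Dm x Y T) (1 + Dm x Y T) T))
    (mapSup : ∀ x Y T z S : ℝ≥0∞, x ≠ ∞ → Y ≠ ∞ → T ≠ ∞ → z ≠ ∞ →
      S * (1 + x * z) = x * z ^ 2 →
      (1 + z) * (Y + S + x * (1 + z) ^ 2 * (2 * T + T ^ 2) + 2 * Kt x z (1 + z) T) ≤ z →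
      Dm x Y T ≤ z)
    (algAS : ∀ r s y t : ℝ, K5N.Good r s y t → 0 < K5N.pkap r s y t ∧
      Dm (.ofReal (K5N.px r s y t)) (.ofReal (K5N.pY r s y t)) (.ofReal (K5N.pT r s y t)) =
        .ofReal (K5N.pD r s y t) ∧
      N3 (.ofReal (K5N.px r s y t)) (.ofReal (K5N.pY r s y t)) (.ofReal (K5N.pT r s y t)) =
        .ofReal (K5N.pN r s y t))
    (algAR : ∀ r s y t : ℝ, K5N.Crit r s y t → ∃ (z n κ : ℝ → ℝ) (dz dκ : ℝ),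
      HasDerivWithinAt z dz (Set.Iic 1) 1 ∧ HasDerivWithinAt κ dκ (Set.Iic 1) 1 ∧
      z 1 = K5N.pD r s y t ∧ κ 1 = K5N.pkap r s y t ∧
      ∀ l : ℝ, 0 < l → l ≤ 1 → 0 < κ l ∧ 0 ≤ z l ∧ 0 ≤ n l ∧
        Dm (.ofReal (K5N.px r s y t)) (.ofReal (l * y * κ l ^ 2 + 2 * (l * t * κ l ^ 3)))
          (.ofReal (l * t * κ l ^ 3)) = .ofReal (z l) ∧
        N3 (.ofReal (K5N.px r s y t)) (.ofReal (l * y * κ l ^ 2 + 2 * (l * t * κ l ^ 3)))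
          (.ofReal (l * t * κ l ^ 3)) = .ofReal (n l) ∧
        κ l = 1 + l * y * κ l ^ 2 * (1 + K5N.px r s y t * (1 + z l)) +
          l * t * κ l ^ 3 * (1 + 3 * K5N.px r s y t * (1 + z l) + K5N.px r s y t ^ 2 * n l))
    (algAX : ∀ r s y t : ℝ, K5N.Crit r s y t → ∀ Y T D N : ℝ, 0 < T → 2 * T < Y → 0 ≤ D → 0 ≤ N →
      Dm (.ofReal (K5N.px r s y t)) (.ofReal Y) (.ofReal T) = .ofReal D →
      N3 (.ofReal (K5N.px r s y t)) (.ofReal Y) (.ofReal T) = .ofReal N →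
      ∀ κ : ℝ, κ = 1 + (Y - 2 * T) * (1 + K5N.px r s y t * (1 + D)) +
        T * (1 + 3 * K5N.px r s y t * (1 + D) + K5N.px r s y t ^ 2 * N) →
      ¬ (y < (Y - 2 * T) / κ ^ 2 ∧ t < T / κ ^ 3)) : K5N.Sys :=
  { γ := γ
    kc := kc
    k0 := kc0
    ac := ac
    Dg := D
    Dm := Dm
    N3 := N3
    hGU := fun x z t a k h0 h1 h2 h3 h4 h5 h6 h7 h8 =>
      graphU h0 h1 h2 h3 h4 (by rw [At_eq_ser]; exact h5) h6 (by rw [Kt_eq_ser]; exact h7) h8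
    hBU := fun x z h0 h1 h2 => blockU h0 h1 h2
    hGL := fun x x1 h0 h1 h2 => by
      obtain ⟨z, t, a, k, a1, a2, a3, a4, a5, a6, a7, a8, a9⟩ := graphL h0 h1 h2
      rw [At_eq_ser] at a6
      rw [Kt0_eq_ser] at a8
      exact ⟨z, t, a, k, a1, a2, a3, a4, a5, a6, a7, a8, a9⟩
    hBL := fun x h0 h1 h2 => blockL h0 h1 h2
    hK0 := fun x z w t => by
      have := Kt_le x z w t
      rwa [Kt_eq_ser, Kt0_eq_ser, At_eq_ser] at this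
    hMeq := fun x Y T hx0 h0 h1 h2 h3 => by
      obtain ⟨S, b1, b2, b3⟩ := mapEq x Y T hx0 h0 h1 h2 h3
      rw [Kt_eq_ser] at b2
      rw [At_eq_ser] at b3
      exact ⟨S, b1, b2, b3⟩
    hMsup := fun x Y T z S h0 h1 h2 h3 h4 h5 =>
      mapSup x Y T z S h0 h1 h2 h3 h4 (by rw [Kt_eq_ser]; exact h5)
    hAS := algAS
    hAR := algAR
    hAX := algAX }

/-- The two bounds, from the block theorems.  `Dm x Y T`, `N3 x Y T` are the values of `D_map` and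
of `NS_3 / x^3 = 1 + 3 D_map + S_3`. -/
theorem bounds_of {γ : ℝ} (Dm N3 : ℝ≥0∞ → ℝ≥0∞ → ℝ≥0∞ → ℝ≥0∞)
    (graphU : ∀ {x z t a k : ℝ}, 0 < x → 1 ≤ z → 0 ≤ t → 0 ≤ a → 0 ≤ k →
      At (.ofReal x) (.ofReal z) (.ofReal (1 + z)) (.ofReal t) ≤ .ofReal a →
      Real.exp a - 1 - a ≤ t →
      Kt (.ofReal x) (.ofReal z) (.ofReal (1 + z)) (.ofReal t) ≤ .ofReal k →
      x * z ^ 2 / (1 + x * z) + k + 3 / 2 * x ^ 6 * z ^ 11 ≤ Real.log ((1 + z) / 2) →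
      D (.ofReal x) ≤ .ofReal z)
    (graphL : ∀ {x x1 : ℝ}, 0 < x → x < x1 → D (.ofReal x1) ≠ ⊤ →
      ∃ z t a k : ℝ, 1 ≤ z ∧ 0 ≤ t ∧ 0 ≤ a ∧ 0 ≤ k ∧ D (.ofReal x) = .ofReal z ∧
      At (.ofReal x) (.ofReal z) (.ofReal (1 + z)) (.ofReal t) ≤ .ofReal a ∧
      Real.exp a - 1 - a ≤ t ∧
      Kt0 (.ofReal x) (.ofReal z) (.ofReal (1 + z)) (.ofReal t) ≤ .ofReal k ∧
      x * z ^ 2 / (1 + x * z) + k ≤ Real.log ((1 + z) / 2) + x ^ 4 * z ^ 8 / 4)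
    (Kt_le : ∀ x z w t : ℝ≥0∞, Kt x z w t ≤ Kt0 x z w t + x * w ^ 2 * t * At x z w t)
    (blockU : ∀ {x z : ℝ}, 0 < x → 1 ≤ z → D (.ofReal x) ≤ .ofReal z →
      γ * x ≤ Real.exp (x / 2 + x * (1 + z) / 4 - x ^ 3 / 3))
    (blockL : ∀ {x : ℝ}, 0 < x → x ≤ 1 / 4 →
      γ * x < Real.exp (x + x ^ 2 / 2 + 5 * x ^ 3 / 3 + 79 * x ^ 4 / 8) → D (.ofReal x) ≠ ⊤)
    (mapEq : ∀ x Y T : ℝ≥0∞, x ≠ 0 → x ≠ ∞ → Y ≠ ∞ → T ≠ ∞ → Dm x Y T ≠ ∞ → ∃ S : ℝ≥0∞,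
      S * (1 + x * Dm x Y T) = x * Dm x Y T ^ 2 ∧
      Dm x Y T = (1 + Dm x Y T) * (Y + S + x * (1 + Dm x Y T) ^ 2 * (2 * T + T ^ 2) +
        2 * Kt x (Dm x Y T) (1 + Dm x Y T) T) ∧
      N3 x Y T = (1 + Dm x Y T) ^ 3 * (1 + T + At x (Dm x Y T) (1 + Dm x Y T) T))
    (mapSup : ∀ x Y T z S : ℝ≥0∞, x ≠ ∞ → Y ≠ ∞ → T ≠ ∞ → z ≠ ∞ →
      S * (1 + x * z) = x * z ^ 2 →
      (1 + z) * (Y + S + x * (1 + z) ^ 2 * (2 * T + T ^ 2) + 2 * Kt x z (1 + z) T) ≤ z →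
      Dm x Y T ≤ z)
    (algAS : ∀ r s y t : ℝ, K5N.Good r s y t → 0 < K5N.pkap r s y t ∧
      Dm (.ofReal (K5N.px r s y t)) (.ofReal (K5N.pY r s y t)) (.ofReal (K5N.pT r s y t)) =
        .ofReal (K5N.pD r s y t) ∧
      N3 (.ofReal (K5N.px r s y t)) (.ofReal (K5N.pY r s y t)) (.ofReal (K5N.pT r s y t)) =
        .ofReal (K5N.pN r s y t))
    (algAR : ∀ r s y t : ℝ, K5N.Crit r s y t → ∃ (z n κ : ℝ → ℝ) (dz dκ : ℝ),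
      HasDerivWithinAt z dz (Set.Iic 1) 1 ∧ HasDerivWithinAt κ dκ (Set.Iic 1) 1 ∧
      z 1 = K5N.pD r s y t ∧ κ 1 = K5N.pkap r s y t ∧
      ∀ l : ℝ, 0 < l → l ≤ 1 → 0 < κ l ∧ 0 ≤ z l ∧ 0 ≤ n l ∧
        Dm (.ofReal (K5N.px r s y t)) (.ofReal (l * y * κ l ^ 2 + 2 * (l * t * κ l ^ 3)))
          (.ofReal (l * t * κ l ^ 3)) = .ofReal (z l) ∧
        N3 (.ofReal (K5N.px r s y t)) (.ofReal (l * y * κ l ^ 2 + 2 * (l * t * κ l ^ 3)))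
          (.ofReal (l * t * κ l ^ 3)) = .ofReal (n l) ∧
        κ l = 1 + l * y * κ l ^ 2 * (1 + K5N.px r s y t * (1 + z l)) +
          l * t * κ l ^ 3 * (1 + 3 * K5N.px r s y t * (1 + z l) + K5N.px r s y t ^ 2 * n l))
    (algAX : ∀ r s y t : ℝ, K5N.Crit r s y t → ∀ Y T D N : ℝ, 0 < T → 2 * T < Y → 0 ≤ D → 0 ≤ N →
      Dm (.ofReal (K5N.px r s y t)) (.ofReal Y) (.ofReal T) = .ofReal D →
      N3 (.ofReal (K5N.px r s y t)) (.ofReal Y) (.ofReal T) = .ofReal N →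
      ∀ κ : ℝ, κ = 1 + (Y - 2 * T) * (1 + K5N.px r s y t * (1 + D)) +
        T * (1 + 3 * K5N.px r s y t * (1 + D) + K5N.px r s y t ^ 2 * N) →
      ¬ (y < (Y - 2 * T) / κ ^ 2 ∧ t < T / κ ^ 3)) :
    2779 / 100 ≤ γ ∧ γ ≤ 278 / 10 :=
  K5N.Sys.main (mkSys Dm N3 graphU graphL Kt_le blockU blockL mapEq mapSup algAS algAR algAX)

end K5
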