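import Pool.Agent.Lib.K5.ParQ
import Pool.Agent.Lib.K5.CntC
import Pool.Agent.Lib.K5.SerC

/-!
# K5.NetU: upper bound for the generating function of the networks

Let `x, z, τ` be real, `D_N = egf (trn N dd) x`, `E_N`, `S_N`, `H_N`, `P_N`, `Q_N` the truncations of `ee, nS, nH, nP, Q` at `N`: finite sums of finite terms, so real numbers `≥ 0`. Relations: `E_N + S_N = D_N` (`ee_add`), `P_N = S_N + H_N` (`nP_eq`), `Q_N ≤ exp P_N` (`egf_q_trn`, `eexp_ofReal`), `D_N + 1 = 2 Q_N` (`dd_add`; the term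
`n = 0` of `egf` is `1`), `S_(N+1) ≤ x E_N D_N`, `H_(N+1) ≤ T0 x (D_N)` (monotone in the second argument). Put `σ = x z^2 / (1 + x z)`, `e = z / (1 + x z)`, `e + σ = z`, `x e z = σ`. Claim: `D_N ≤ z` and `E_N ≤ e` for all `N`. `N = 0`: `D_0 = E_0 = 1`; `e ≥ 1`? Do not start there: start
with the step applied to `S_0 = 0 ≤ σ`, `H_0 = 0 ≤ τ`. Step: if `S_N ≤ σ` and `H_N ≤ τ` then `D_N = 2 Q_N - 1 ≤ 2 exp (S_N + H_N) - 1 ≤ 2 exp (σ + τ) - 1 ≤ z` and `E_N = D_N - S_N ≤ 2 exp (S_N + τ) - 1 - S_N ≤ 2 exp (σ + τ) - 1 - σ ≤ z - σ = e`, because `u ↦ 2 exp (u + τ) - u` is increasing for `u ≥ 0`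
(`exp (u' + τ) - exp (u + τ) ≥ u' - u`). Then `S_(N+1) ≤ x e z = σ` and `H_(N+1) ≤ T0 x z ≤ τ`. Finally `D x = sup_N D_N ≤ z` (`ENNReal.tsum` is the supremum of the finite sums).
-/

namespace K5

open Finset
open scoped ENNReal

namespace NetUAux

theorem egf_add (F G : ℕ → ℝ≥0∞) (x : ℝ≥0∞) : egf (fun n => F n + G n) x = egf F x + egf G x := by
  unfold egf
  rw [← ENNReal.tsum_add]
  exact tsum_congr fun n => by rw [mul_add]

theorem egf_two (F : ℕ → ℝ≥0∞) (x : ℝ≥0∞) : egf (fun n => 2 * F n) x = 2 * egf F x := by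
  unfold egf
  rw [← ENNReal.tsum_mul_left]
  exact tsum_congr fun n => by ring

theorem egf_one (x : ℝ≥0∞) : egf (fun n => if n = 0 then 1 else 0) x = 1 := by
  unfold egf
  rw [tsum_eq_single 0]
  · simp
  · intro n hn
    simp only [if_neg hn, mul_zero]

theorem T0_mono (x : ℝ≥0∞) {a b : ℝ≥0∞} (h : a ≤ b) : T0 x a ≤ T0 x b := by
  unfold T0
  refine ENNReal.tsum_le_tsum fun n => mul_le_mul_right ?_ _
  exact ENNReal.tsum_le_tsum fun G => pow_le_pow_left' h _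

theorem trn_add {F G K : ℕ → ℝ≥0∞} (h : ∀ n, F n + G n = K n) (N : ℕ) (x : ℝ≥0∞) :
    egf (trn N F) x + egf (trn N G) x = egf (trn N K) x := by
  rw [← egf_add]
  congr 1
  funext n
  unfold trn
  split_ifs
  · exact h n
  · exact add_zero 0

theorem dq (N : ℕ) (x : ℝ≥0∞) :
    egf (trn N dd) x + 1 = 2 * egf (trn N (fun n => (Q n : ℝ≥0∞))) x := by
  rw [← egf_one x, ← egf_add, ← egf_two]
  congr 1
  funext n
  unfold trn
  split_ifs with h1 h2 h2
  · have h3 := dd_add n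
    rwa [if_pos h2] at h3
  · have h3 := dd_add n
    rwa [if_neg h2] at h3
  · omega
  · rw [mul_zero, add_zero]

theorem zero_trn {F : ℕ → ℝ≥0∞} (h : F 0 = 0) (x : ℝ≥0∞) : egf (trn 0 F) x = 0 := by
  unfold egf
  rw [ENNReal.tsum_eq_zero]
  intro n
  unfold trn
  split_ifs with h1
  · rw [Nat.le_zero.1 h1, h, mul_zero]
  · exact mul_zero _

theorem exp_step {s σ τ : ℝ} (hs : 0 ≤ s) (hsσ : s ≤ σ) (hτ : 0 ≤ τ) :
    2 * Real.exp (s + τ) - s ≤ 2 * Real.exp (σ + τ) - σ := by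
  have h1 : Real.exp (σ + τ) = Real.exp (s + τ) * Real.exp (σ - s) := by
    rw [← Real.exp_add]
    congr 1
    ring
  have h2 : 1 + (σ - s) ≤ Real.exp (σ - s) := by
    have := Real.add_one_le_exp (σ - s)
    linarith
  have h3 : 1 ≤ Real.exp (s + τ) := Real.one_le_exp (by linarith)
  have h4 : Real.exp (s + τ) * (1 + (σ - s)) ≤ Real.exp (s + τ) * Real.exp (σ - s) :=
    mul_le_mul_of_nonneg_left h2 (by linarith)
  have h5 : (σ - s) ≤ Real.exp (s + τ) * (σ - s) := by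
    nlinarith
  nlinarith

/-- The step. -/
theorem step {x z τ : ℝ} (hx : 0 < x) (hz : 1 ≤ z) (hτ : 0 ≤ τ)
    (h2 : x * z ^ 2 / (1 + x * z) + τ ≤ Real.log ((1 + z) / 2)) {N : ℕ}
    (hS : egf (trn N nS) (.ofReal x) ≤ .ofReal (x * z ^ 2 / (1 + x * z)))
    (hH : egf (trn N nH) (.ofReal x) ≤ .ofReal τ) :
    egf (trn N dd) (.ofReal x) ≤ .ofReal z ∧
      egf (trn N ee) (.ofReal x) ≤ .ofReal (z / (1 + x * z)) := by
  have hxz : 0 < 1 + x * z := by positivity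
  set σ := x * z ^ 2 / (1 + x * z) with hσ
  have hσ0 : 0 ≤ σ := by positivity
  have hse : z / (1 + x * z) = z - σ := by
    rw [hσ]
    field_simp
    ring
  -- the real number `S_N`
  have hSt : egf (trn N nS) (.ofReal x) ≠ ⊤ := ne_top_of_le_ne_top ENNReal.ofReal_ne_top hS
  obtain ⟨s, hs0, hs⟩ : ∃ s : ℝ, 0 ≤ s ∧ egf (trn N nS) (.ofReal x) = .ofReal s :=
    ⟨_, ENNReal.toReal_nonneg, (ENNReal.ofReal_toReal hSt).symm⟩
  have hsσ : s ≤ σ := by
    rw [hs] at hS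
    exact (ENNReal.ofReal_le_ofReal_iff hσ0).1 hS
  have hP : egf (trn N nP) (.ofReal x) ≤ .ofReal (s + τ) := by
    rw [← trn_add (fun n => (nP_eq n).symm), hs, ENNReal.ofReal_add hs0 hτ]
    exact add_le_add le_rfl hH
  have hQ : egf (trn N (fun n => (Q n : ℝ≥0∞))) (.ofReal x) ≤ .ofReal (Real.exp (s + τ)) := by
    refine (egf_q_trn N _).trans ?_
    rw [← eexp_ofReal (by positivity)]
    exact eexp_mono hP
  have hD : egf (trn N dd) (.ofReal x) + 1 ≤ .ofReal (2 * Real.exp (s + τ)) := by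
    rw [dq, ENNReal.ofReal_mul (by norm_num), ENNReal.ofReal_ofNat]
    exact mul_le_mul_right hQ _
  have hDt : egf (trn N dd) (.ofReal x) ≠ ⊤ := by
    refine ne_top_of_le_ne_top ENNReal.ofReal_ne_top (le_trans ?_ hD)
    exact le_self_add
  obtain ⟨d, hd0, hd⟩ : ∃ d : ℝ, 0 ≤ d ∧ egf (trn N dd) (.ofReal x) = .ofReal d :=
    ⟨_, ENNReal.toReal_nonneg, (ENNReal.ofReal_toReal hDt).symm⟩
  have hd1 : d + 1 ≤ 2 * Real.exp (s + τ) := by
    rw [hd, ← ENNReal.ofReal_one, ← ENNReal.ofReal_add hd0 zero_le_one] at hD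
    exact (ENNReal.ofReal_le_ofReal_iff (by positivity)).1 hD
  have hexp : Real.exp (σ + τ) ≤ (1 + z) / 2 := by
    have h3 := Real.exp_le_exp.2 h2
    rwa [Real.exp_log (by positivity)] at h3
  have h4 := exp_step hs0 hsσ hτ
  have h5 : Real.exp (s + τ) ≤ Real.exp (σ + τ) := Real.exp_le_exp.2 (by linarith)
  have hEt : egf (trn N ee) (.ofReal x) ≤ egf (trn N dd) (.ofReal x) := by
    rw [← trn_add ee_add]
    exact le_self_add
  have hEt' : egf (trn N ee) (.ofReal x) ≠ ⊤ := ne_top_of_le_ne_top hDt hEt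
  obtain ⟨e, he0, he⟩ : ∃ e : ℝ, 0 ≤ e ∧ egf (trn N ee) (.ofReal x) = .ofReal e :=
    ⟨_, ENNReal.toReal_nonneg, (ENNReal.ofReal_toReal hEt').symm⟩
  have hed : e + s = d := by
    have h6 := trn_add ee_add N (.ofReal x)
    rw [he, hs, hd, ← ENNReal.ofReal_add he0 hs0] at h6
    have h7 := congrArg ENNReal.toReal h6
    rwa [ENNReal.toReal_ofReal (by positivity), ENNReal.toReal_ofReal hd0] at h7
  constructor
  · rw [hd]
    exact ENNReal.ofReal_le_ofReal (by linarith)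
  · rw [he, hse]
    exact ENNReal.ofReal_le_ofReal (by linarith)

theorem bounds {x z τ : ℝ} (hx : 0 < x) (hz : 1 ≤ z) (hτ : 0 ≤ τ)
    (h1 : T0 (.ofReal x) (.ofReal z) ≤ .ofReal τ)
    (h2 : x * z ^ 2 / (1 + x * z) + τ ≤ Real.log ((1 + z) / 2)) (N : ℕ) :
    egf (trn N nS) (.ofReal x) ≤ .ofReal (x * z ^ 2 / (1 + x * z)) ∧
      egf (trn N nH) (.ofReal x) ≤ .ofReal τ := by
  induction N with
  | zero =>
    rw [zero_trn nS_zero, zero_trn (nH_small (Nat.zero_le 1))]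
    exact ⟨zero_le, zero_le⟩
  | succ N ih =>
    obtain ⟨hd, he⟩ := step hx hz hτ h2 ih.1 ih.2
    constructor
    · refine (egf_nS_trn N _).trans ?_
      have hxz : 0 < 1 + x * z := by positivity
      have e : x * z ^ 2 / (1 + x * z) = x * (z / (1 + x * z) * z) := by
        field_simp
      rw [e, ENNReal.ofReal_mul hx.le, ENNReal.ofReal_mul (by positivity)]
      exact mul_le_mul_right (mul_le_mul' he hd) _
    · exact (egf_nH_trn N _).trans ((T0_mono _ hd).trans h1)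

end NetUAux

open NetUAux

theorem netU {x z τ : ℝ} (hx : 0 < x) (hz : 1 ≤ z) (hτ : 0 ≤ τ)
    (h1 : T0 (.ofReal x) (.ofReal z) ≤ .ofReal τ)
    (h2 : x * z ^ 2 / (1 + x * z) + τ ≤ Real.log ((1 + z) / 2)) :
    D (.ofReal x) ≤ .ofReal z := by
  have key : D (.ofReal x) = egf dd (.ofReal x) := rfl
  rw [key]
  refine ENNReal.tsum_le_of_sum_range_le fun n => ?_
  obtain ⟨hS, hH⟩ := bounds hx hz hτ h1 h2 n
  refine le_trans ?_ (step hx hz hτ h2 hS hH).1
  refine le_trans (le_of_eq ?_) (ENNReal.sum_le_tsum (range n))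
  refine Finset.sum_congr rfl fun i hi => ?_
  rw [trn, if_pos (Finset.mem_range.1 hi).le]

end K5
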