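import Pool.Agent.Lib.K5.KSer2
import Pool.Agent.Lib.K5.DOut
import Pool.Agent.Lib.K5.NetU

/-!
# K5.MkSys2 : the instance of the interface of stage 2
-/

namespace K5

open Finset
open scoped ENNReal

noncomputable section

/-- The interface of stage 2, from the interface of stage 1 and the exact theorems. -/
def mkSys2 (S : K5N.Sys) (hkc : S.kc = kc) (hac : S.ac = ac) (hDg : S.Dg = D) (hex : Ex3)
    (hw : Wag)
    (hNE : ∀ x y : ℝ, 0 < x → 0 ≤ y → Dy (.ofReal x) (.ofReal y) ≠ ∞ →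
      ∃ z : ℝ, y ≤ z ∧ Dy (.ofReal x) (.ofReal y) = .ofReal z ∧
        0 ≤ Real.log ((1 + z) / (1 + y)) - x * z ^ 2 / (1 + x * z) ∧
        T0 (.ofReal x) (.ofReal z) =
          .ofReal (Real.log ((1 + z) / (1 + y)) - x * z ^ 2 / (1 + x * z)))
    (hD1 : ∀ x : ℝ≥0∞, D x = Dy x 1) : K5S.Sys2 :=
  { S with
    tc := tc
    rc := rc
    dc := dc
    hac0 := fun j k l => by rw [hac]; exact ac_zero j k l
    hBrU := fun x z t a hx hz ha h1 h2 => by
      rw [hac, ← At_eq_ser] at h1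
      rw [← Br_eq_ser2]
      exact out_br_le hex hz ha h1 h2
    hBrE := fun x z a hx hz ha h => by
      rw [hac, ← At_eq_ser]
      rw [← Br_eq_ser2] at h
      exact At_exact hw hz ha h
    hT0E := fun x z a hx hz ha h => by
      rw [hkc, ← Kt_eq_ser, ← T0_eq_ser2]
      rw [← Br_eq_ser2] at h
      exact T0_exact hw hx hz ha h
    hNU := fun x z τ hx hz hτ h1 h2 => by
      rw [← T0_eq_ser2] at h1
      rw [hDg]
      exact netU hx hz hτ h1 h2
    hNE := fun x y hx hy h => by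
      rw [← Dy_eq_ser2] at h ⊢
      obtain ⟨z, h1, h2, h3, h4⟩ := hNE x y hx hy h
      exact ⟨z, h1, h2, h3, by rw [← T0_eq_ser2]; exact h4⟩
    hDg := fun x => by rw [hDg, hD1, Dy_eq_ser2] }

end

end K5
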