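import Pool.Agent.Lib.K5.ExpF
import Pool.Agent.Lib.K5.Sum
import Pool.Agent.Lib.K5.Bd

/-!
# K5.ParK: a network is a set of pieces in parallel

Let `s ≠ t`, `R = {s, t}`, `KP s t V G`: `G` is a graph on `R ∪ V` without the edge `st` and `G ⊔ clq R` is a piece. For a graph `G` without the edge `st`: `Net s t U (G ⊔ clq R) ↔ AllK R (KP s t) U G`.
(→) Let `C` be a component of `G` on `U`, `G' = rst G (R ∪ C) ⊔ clq R`. `Blk G' (St s t C)`: let `x` be a vertex or nothing, `P` a proper nonempty subset of `(St s t C).erase x` without edges to the rest; `s` and `t` are adjacent, so (exchanging `P` and the rest) `s, t ∉ P`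
(if `x` is one of them, the other one is not in `P`), so `P ⊆ C`, and `bd (G ⊔ clq R) (St s t U) P ⊆ {x}` because `C` is a component: contradiction to `Net.two_le_bd`. `Free` by `Free.mono`, `Conn G' C` from `IsComp`.
(←) `Blk` on `St s t U`: let `P` be proper, nonempty, closed in `(St s t U).erase x`; exchange so that `s, t ∉ P` (as before); `P` meets some component `C`; `Blk` of the piece at `C` after deleting `x` gives an edge from `P ∩ C` to `(St s t C).erase x \ P`. `Free`: by induction on a set `𝒞` of components, the union of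
`clq R` and the `rst G (R ∪ C)`, `C ∈ 𝒞`, has no `K_5` minor: `Free.sup` with `S1 = R ∪ ⋃ 𝒞`, `S2 = R ∪ C`, `S1 ∩ S2 = R`, both graphs contain the edge `st`.
If `U = ∅` both sides say `G = ⊥` (`free_small` is not needed: `clq R` has two vertices; prove `Free (clq R)` directly or import `K5.Basic0`).
-/

namespace K5

open Finset

/-- Pieces without the edge `st`. -/
def KP (s t : ℕ) (V : Finset ℕ) (G : Gr) : Prop :=
  Piece s t V (G ⊔ clq {s, t}) ∧ ¬ G.Adj s t

namespace ParKAux

/-- Connectivity from closed predicates. -/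
lemma conn_of {G : Gr} {X : Finset ℕ} (hX : X.Nonempty)
    (h : ∀ p : ℕ → Prop, (∀ a ∈ X, ∀ b ∈ X, G.Adj a b → (p a ↔ p b)) → ∃ r : Prop, ∀ a ∈ X, (p a ↔ r)) :
    P512.Conn G X := by
  refine ⟨hX, fun P hP hne hPX => ?_⟩
  by_contra hcon
  push Not at hcon
  obtain ⟨r, hr⟩ := h (· ∈ P) (fun a ha b hb hab => by
    constructor
    · intro haP
      by_contra hbP
      exact hcon a haP b hb hbP hab
    · intro hbP
      by_contra haP
      exact hcon b hbP a ha haP hab.symm)
  obtain ⟨q, hq⟩ := hne
  have hr1 : r := (hr q (hP hq)).mp hq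
  exact hPX (Finset.Subset.antisymm hP (fun a ha => (hr a ha).mpr hr1))

lemma conn_sup {G G' : Gr} {S : Finset ℕ} (hle : ∀ a ∈ S, ∀ b ∈ S, G.Adj a b → G'.Adj a b)
    (h : P512.Conn G S) : P512.Conn G' S := by
  refine ⟨h.1, fun P hP hne hPS => ?_⟩
  obtain ⟨u, hu, v, hv, hvP, huv⟩ := h.2 P hP hne hPS
  exact ⟨u, hu, v, hv, hvP, hle u (hP hu) v hv huv⟩

/-- Interior vertices of a network for a closed predicate. -/
lemma inner {s c : ℕ} {A : Finset ℕ} {G1 : Gr} (hN : Net s c A G1) (x : ℕ) (p : ℕ → Prop)
    (hcl : ∀ a ∈ (St s c A).erase x, ∀ b ∈ (St s c A).erase x, G1.Adj a b → (p a ↔ p b))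
    (hs : s ≠ x → ¬ p s) (hc : c ≠ x → ¬ p c) : ∀ a ∈ A, a ≠ x → ¬ p a := by
  classical
  intro a ha hax hpa
  have hconn : P512.Conn G1 ((St s c A).erase x) := by
    by_cases hx : x ∈ St s c A
    · exact hN.blk.2.2 x hx
    · rw [Finset.erase_eq_of_notMem hx]
      exact hN.blk.2.1
  obtain ⟨u, hu, v, hv, hvP, huv⟩ := hconn.2 (((St s c A).erase x).filter p) (Finset.filter_subset _ _)
    ⟨a, Finset.mem_filter.mpr ⟨Finset.mem_erase.mpr ⟨hax, by simp [St, ha]⟩, hpa⟩⟩ (by
      intro h
      by_cases hsx : s = x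
      · have hcx : c ≠ x := fun h1 => hN.ne (hsx.trans h1.symm)
        have h1 : c ∈ (St s c A).erase x := Finset.mem_erase.mpr ⟨hcx, by simp [St]⟩
        rw [← h] at h1
        exact hc hcx (Finset.mem_filter.mp h1).2
      · have h1 : s ∈ (St s c A).erase x := Finset.mem_erase.mpr ⟨hsx, by simp [St]⟩
        rw [← h] at h1
        exact hs hsx (Finset.mem_filter.mp h1).2)
  obtain ⟨hu1, hu2⟩ := Finset.mem_filter.mp hu
  exact hvP (Finset.mem_filter.mpr ⟨hv, (hcl u hu1 v hv huv).mp hu2⟩)

/-- The value of a closed predicate at the poles. -/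
lemma poles {G : Gr} {s t x : ℕ} {X : Finset ℕ} (hs : s ∈ X) (ht : t ∈ X) (hadj : G.Adj s t) (p : ℕ → Prop)
    (hp : ∀ a ∈ X.erase x, ∀ b ∈ X.erase x, G.Adj a b → (p a ↔ p b)) :
    ∃ r : Prop, (s ≠ x → (p s ↔ r)) ∧ (t ≠ x → (p t ↔ r)) := by
  by_cases hsx : s = x
  · exact ⟨p t, fun h => absurd hsx h, fun _ => Iff.rfl⟩
  · exact ⟨p s, fun _ => Iff.rfl, fun htx => (hp s (Finset.mem_erase.mpr ⟨hsx, hs⟩) t
      (Finset.mem_erase.mpr ⟨htx, ht⟩) hadj).symm⟩

/-- From one sided statements to equivalences. -/
lemma upgrade {A : Finset ℕ} {s t x : ℕ} (cl : (ℕ → Prop) → Prop) (hcl : ∀ p, cl p → cl (fun a => ¬ p a))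
    (h : ∀ p, cl p → (s ≠ x → ¬ p s) → (t ≠ x → ¬ p t) → ∀ a ∈ A, a ≠ x → ¬ p a)
    (p : ℕ → Prop) (hp : cl p) (r : Prop) (hs : s ≠ x → (p s ↔ r)) (ht : t ≠ x → (p t ↔ r)) :
    ∀ a ∈ A, a ≠ x → (p a ↔ r) := by
  intro a ha hax
  by_cases hr : r
  · have h1 := h (fun a => ¬ p a) (hcl p hp) (fun h1 => not_not.mpr ((hs h1).mpr hr))
      (fun h1 => not_not.mpr ((ht h1).mpr hr)) a ha hax
    exact ⟨fun _ => hr, fun _ => not_not.mp h1⟩
  · have h1 := h p hp (fun h1 h2 => hr ((hs h1).mp h2)) (fun h1 h2 => hr ((ht h1).mp h2)) a ha hax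
    exact ⟨fun h => absurd h h1, fun h => absurd h hr⟩

/-- `Blk` from the interior statement. -/
lemma blk_of {G : Gr} {s t : ℕ} {A : Finset ℕ} (hst : s ≠ t) (hadj : G.Adj s t)
    (h : ∀ (x : ℕ) (p : ℕ → Prop), (∀ a ∈ (St s t A).erase x, ∀ b ∈ (St s t A).erase x, G.Adj a b → (p a ↔ p b)) →
      (s ≠ x → ¬ p s) → (t ≠ x → ¬ p t) → ∀ a ∈ A, a ≠ x → ¬ p a) : Blk G (St s t A) := by
  classical
  have hsW : s ∈ St s t A := by simp [St]
  have htW : t ∈ St s t A := by simp [St]
  have key : ∀ x, P512.Conn G ((St s t A).erase x) := by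
    intro x
    refine conn_of ?_ fun p hp => ?_
    · by_cases hx : s = x
      · exact ⟨t, Finset.mem_erase.mpr ⟨fun e => hst (hx.trans e.symm), htW⟩⟩
      · exact ⟨s, Finset.mem_erase.mpr ⟨hx, hsW⟩⟩
    · obtain ⟨r, r1, r2⟩ := poles hsW htW hadj p hp
      refine ⟨r, fun a ha => ?_⟩
      obtain ⟨hax, haW⟩ := Finset.mem_erase.mp ha
      simp only [St, Finset.mem_insert] at haW
      rcases haW with rfl | rfl | haA
      · exact r1 hax
      · exact r2 hax
      · exact upgrade (fun p => ∀ a ∈ (St s t A).erase x, ∀ b ∈ (St s t A).erase x, G.Adj a b → (p a ↔ p b))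
          (fun p hp a ha b hb hab => not_congr (hp a ha b hb hab)) (h x) p hp r r1 r2 a haA hax
  refine ⟨?_, ?_, fun v _ => key v⟩
  · have h1 : ({s, t} : Finset ℕ) ⊆ St s t A := by
      intro a ha
      simp only [Finset.mem_insert, Finset.mem_singleton] at ha
      rcases ha with rfl | rfl
      · exact hsW
      · exact htW
    have h2 := Finset.card_le_card h1
    rw [Finset.card_pair hst] at h2
    exact h2
  · obtain ⟨x, hx⟩ := Infinite.exists_notMem_finset (St s t A)
    have h1 := key x
    rwa [Finset.erase_eq_of_notMem hx] at h1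

lemma free_clq {X : Finset ℕ} (hX : X.card ≤ 4) : Free (clq X) := by
  classical
  rintro ⟨B, _, h2, h3⟩
  have h4 : ∀ i : Fin 5, ∃ x ∈ B i, x ∈ X := by
    intro i
    obtain ⟨j, hj⟩ := exists_ne i
    obtain ⟨u, hu, v, _, huv⟩ := h3 i j hj.symm
    exact ⟨u, hu, huv.2.1⟩
  choose x hx hxX using h4
  have hinj : Function.Injective x := by
    intro i j hij
    by_contra hne
    exact Finset.disjoint_left.1 (h2 i j hne) (hx i) (by rw [hij]; exact hx j)
  have h5 : (Finset.univ.image x).card = 5 := by
    rw [Finset.card_image_of_injective _ hinj, Finset.card_univ, Fintype.card_fin]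
  have h6 : Finset.univ.image x ⊆ X := by
    intro y hy
    obtain ⟨i, _, rfl⟩ := Finset.mem_image.1 hy
    exact hxX i
  have h7 := Finset.card_le_card h6
  omega

lemma union_eq (s t : ℕ) (V : Finset ℕ) : ({s, t} : Finset ℕ) ∪ V = St s t V := by
  ext a
  simp only [St, Finset.mem_union, Finset.mem_insert, Finset.mem_singleton, or_assoc]

lemma clq_adj {s t a b : ℕ} : (clq {s, t}).Adj a b → (a = s ∨ a = t) ∧ (b = s ∨ b = t) := by
  rintro ⟨_, h1, h2⟩
  simp only [Finset.mem_insert, Finset.mem_singleton] at h1 h2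
  exact ⟨h1, h2⟩

lemma clq_st {s t : ℕ} (h : s ≠ t) : (clq {s, t}).Adj s t := ⟨h, by simp, by simp⟩

/-- The union of the clique and of the restrictions to the sets of `D`. -/
def GG (G : Gr) (R : Finset ℕ) (D : Finset (Finset ℕ)) : Gr where
  Adj a b := (clq R).Adj a b ∨ ∃ C ∈ D, (rst G (R ∪ C)).Adj a b
  symm := ⟨fun _ _ h => h.imp (fun h => h.symm) (fun ⟨C, h1, h2⟩ => ⟨C, h1, h2.symm⟩)⟩
  loopless := ⟨fun _ h => h.elim (fun h => h.ne rfl) (fun ⟨_, _, h⟩ => h.ne rfl)⟩

lemma GG_on (G : Gr) (R : Finset ℕ) (D : Finset (Finset ℕ)) : On (GG G R D) (R ∪ D.sup id) := by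
  intro u v huv
  rcases huv with huv | ⟨C, hC, huv⟩
  · exact Finset.mem_union_left _ huv.2.1
  · rcases Finset.mem_union.mp huv.2.1 with h | h
    · exact Finset.mem_union_left _ h
    · exact Finset.mem_union_right _ (Finset.mem_sup.mpr ⟨C, hC, h⟩)

end ParKAux

open ParKAux

theorem expClass_KP (s t : ℕ) : ExpClass {s, t} (KP s t) := by
  rintro V G ⟨hP, hst⟩
  have hs := hP.net.hs
  have ht := hP.net.ht
  refine ⟨?_, ?_, ?_, ?_⟩
  · rw [Finset.disjoint_left]
    intro a ha haV
    simp only [Finset.mem_insert, Finset.mem_singleton] at ha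
    rcases ha with rfl | rfl
    · exact hs haV
    · exact ht haV
  · rw [union_eq]
    intro u v huv
    exact hP.net.on u v (Or.inl huv)
  · intro a ha b hb hab
    simp only [Finset.mem_insert, Finset.mem_singleton] at ha hb
    rcases ha with rfl | rfl
    · rcases hb with rfl | rfl
      · exact hab.ne rfl
      · exact hst hab
    · rcases hb with rfl | rfl
      · exact hst hab.symm
      · exact hab.ne rfl
  · refine conn_sup (fun a ha b hb hab => ?_) hP.conn
    rcases hab with hab | hab
    · exact hab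
    · exfalso
      rcases (clq_adj hab).1 with rfl | rfl
      · exact hs ha
      · exact ht ha

theorem net_iff_allK {s t : ℕ} {U : Finset ℕ} {G : Gr} (h : s ≠ t) (hs : s ∉ U) (ht : t ∉ U)
    (hG : ¬ G.Adj s t) : Net s t U (G ⊔ clq {s, t}) ↔ AllK {s, t} (KP s t) U G := by
  classical
  constructor
  · intro hN
    refine ⟨?_, ?_, ?_, ?_⟩
    · rw [Finset.disjoint_left]
      intro a ha haV
      simp only [Finset.mem_insert, Finset.mem_singleton] at ha
      rcases ha with rfl | rfl
      · exact hs haV
      · exact ht haV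
    · rw [union_eq]
      intro u v huv
      exact hN.on u v (Or.inl huv)
    · intro a ha b hb hab
      simp only [Finset.mem_insert, Finset.mem_singleton] at ha hb
      rcases ha with rfl | rfl
      · rcases hb with rfl | rfl
        · exact hab.ne rfl
        · exact hG hab
      · rcases hb with rfl | rfl
        · exact hG hab.symm
        · exact hab.ne rfl
    · intro C hC
      have hsC : s ∉ C := fun h1 => hs (hC.1 h1)
      have htC : t ∉ C := fun h1 => ht (hC.1 h1)
      have hadj : (rst G ({s, t} ∪ C) ⊔ clq {s, t}).Adj s t := Or.inr (clq_st h)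
      refine ⟨⟨⟨h, hsC, htC, ?_, hadj, ?_, ?_⟩, ?_⟩, fun h1 => hG h1.1⟩
      · rintro u v (huv | huv)
        · rw [← union_eq]
          exact huv.2.1
        · rw [← union_eq]
          exact Finset.mem_union_left _ huv.2.1
      · refine blk_of h hadj ?_
        intro x p hp h1 h2 a haC hax hpa
        set P : Finset ℕ := (C.erase x).filter p with hP
        have h3 : 2 ≤ (bd (G ⊔ clq {s, t}) (St s t U) P).card := by
          refine hN.two_le_bd (fun w hw => hC.1 ?_) ⟨a, ?_⟩
          · exact (Finset.mem_erase.mp (Finset.mem_filter.mp hw).1).2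
          · exact Finset.mem_filter.mpr ⟨Finset.mem_erase.mpr ⟨hax, haC⟩, hpa⟩
        have h4 : bd (G ⊔ clq {s, t}) (St s t U) P ⊆ {x} := by
          intro w hw
          rw [Finset.mem_singleton]
          by_contra hwx
          obtain ⟨⟨hwW, hwP⟩, i, hi, hiw⟩ := mem_bd.mp hw
          obtain ⟨hi1, hpi⟩ := Finset.mem_filter.mp hi
          obtain ⟨hix, hiC⟩ := Finset.mem_erase.mp hi1
          have hiw' : G.Adj i w := by
            rcases hiw with hiw | hiw
            · exact hiw
            · exfalso
              rcases (clq_adj hiw).1 with rfl | rfl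
              · exact hsC hiC
              · exact htC hiC
          have hiS : i ∈ (St s t C).erase x := Finset.mem_erase.mpr ⟨hix, by simp [St, hiC]⟩
          have hsub : ∀ y, y ∈ St s t C → y ≠ x → G.Adj i y → p y := by
            intro y hy hyx hiy
            refine (hp i hiS y (Finset.mem_erase.mpr ⟨hyx, hy⟩) (Or.inl ⟨hiy, ?_, ?_⟩)).mp hpi
            · exact Finset.mem_union_right _ hiC
            · rw [union_eq]
              exact hy
          simp only [St, Finset.mem_insert] at hwW
          rcases hwW with rfl | rfl | hwU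
          · exact h1 hwx (hsub w (by simp [St]) hwx hiw')
          · exact h2 hwx (hsub w (by simp [St]) hwx hiw')
          · have hwC : w ∈ C := by
              by_contra hwC
              exact hC.2.2 i hiC w hwU hwC hiw'
            exact hwP (Finset.mem_filter.mpr ⟨Finset.mem_erase.mpr ⟨hwx, hwC⟩,
              hsub w (by simp [St, hwC]) hwx hiw'⟩)
        have h5 := Finset.card_le_card h4
        rw [Finset.card_singleton] at h5
        omega
      · refine Free.mono hN.free ?_
        rintro a b (hab | hab)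
        · exact Or.inl hab.1
        · exact Or.inr hab
      · refine conn_sup (fun a ha b hb hab => ?_) hC.2.1
        exact Or.inl ⟨hab, Finset.mem_union_right _ ha, Finset.mem_union_right _ hb⟩
  · rintro ⟨h1, h2, h3, h4⟩
    have hadj : (G ⊔ clq {s, t}).Adj s t := Or.inr (clq_st h)
    refine ⟨h, hs, ht, ?_, hadj, ?_, ?_⟩
    · rintro u v (huv | huv)
      · rw [← union_eq]
        exact h2 u v huv
      · rw [← union_eq]
        exact Finset.mem_union_left _ huv.2.1
    · refine blk_of h hadj ?_
      intro x p hp g1 g2 a haU hax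
      obtain ⟨C, hC, haC⟩ := exists_comp G haU
      refine inner (h4 C hC).1.net x p (fun u hu v hv huv => ?_) g1 g2 a haC hax
      obtain ⟨hux, huS⟩ := Finset.mem_erase.mp hu
      obtain ⟨hvx, hvS⟩ := Finset.mem_erase.mp hv
      have hsub : ∀ y ∈ St s t C, y ∈ St s t U := by
        intro y hy
        simp only [St, Finset.mem_insert] at hy ⊢
        rcases hy with hy | hy | hy
        · exact Or.inl hy
        · exact Or.inr (Or.inl hy)
        · exact Or.inr (Or.inr (hC.1 hy))
      refine hp u (Finset.mem_erase.mpr ⟨hux, hsub u huS⟩) v (Finset.mem_erase.mpr ⟨hvx, hsub v hvS⟩) ?_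
      rcases huv with huv | huv
      · exact Or.inl huv.1
      · exact Or.inr huv
    · have hcard : ({s, t} : Finset ℕ).card ≤ 2 := Finset.card_le_two
      have key : ∀ D : Finset (Finset ℕ), (∀ C ∈ D, IsComp G U C) → Free (GG G {s, t} D) := by
        intro D
        induction D using Finset.induction_on with
        | empty =>
          intro _
          refine Free.mono (free_clq (X := {s, t}) (by omega)) ?_
          rintro a b (hab | ⟨C, hC, _⟩)
          · exact hab
          · exact absurd hC (Finset.notMem_empty C)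
        | insert C D hCD ih =>
          intro hD
          have ih' := ih (fun C' hC' => hD C' (Finset.mem_insert_of_mem hC'))
          have hC := hD C (Finset.mem_insert_self _ _)
          have hN := (h4 C hC).1.net
          have hinter : ∀ a ∈ (({s, t} : Finset ℕ) ∪ D.sup id) ∩ St s t C, a ∈ ({s, t} : Finset ℕ) := by
            intro a ha
            obtain ⟨ha1, ha2⟩ := Finset.mem_inter.mp ha
            by_contra hcon
            have ha3 : a ∈ D.sup id := (Finset.mem_union.mp ha1).resolve_left hcon
            have ha4 : a ∈ C := by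
              rw [← union_eq] at ha2
              exact (Finset.mem_union.mp ha2).resolve_left hcon
            obtain ⟨C', hC', haC'⟩ := Finset.mem_sup.mp ha3
            have h5 := (hD C' (Finset.mem_insert_of_mem hC')).eq_of_mem hC haC' ha4
            exact hCD (h5 ▸ hC')
          have hfree := Free.sup ih' hN.free (GG_on G {s, t} D) hN.on
            ((Finset.card_le_card hinter).trans (hcard.trans (by norm_num))) (by
              intro a ha b hb hab
              exact ⟨Or.inl ⟨hab, hinter a ha, hinter b hb⟩, Or.inr ⟨hab, hinter a ha, hinter b hb⟩⟩)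
          refine Free.mono hfree ?_
          rintro a b (hab | ⟨C', hC', hab⟩)
          · exact Or.inl (Or.inl hab)
          · rcases Finset.mem_insert.mp hC' with rfl | hC'
            · exact Or.inr (Or.inl hab)
            · exact Or.inl (Or.inr ⟨C', hC', hab⟩)
      refine Free.mono (key (compPart G U).parts (fun C hC => mem_compPart.mp hC)) ?_
      have key2 : ∀ a b, G.Adj a b → a ∈ U → (GG G {s, t} (compPart G U).parts).Adj a b := by
        intro a b hab ha
        obtain ⟨C, hC, haC⟩ := exists_comp G ha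
        refine Or.inr ⟨C, mem_compPart.mpr hC, hab, Finset.mem_union_right _ haC, ?_⟩
        by_contra hb
        rw [Finset.mem_union, not_or] at hb
        have hbU : b ∈ U := (Finset.mem_union.mp (h2 b a hab.symm)).resolve_left hb.1
        exact hC.2.2 a haC b hbU hb.2 hab
      rintro a b (hab | hab)
      · rcases Finset.mem_union.mp (h2 a b hab) with ha | ha
        · rcases Finset.mem_union.mp (h2 b a hab.symm) with hb | hb
          · exact absurd hab (h3 a ha b hb)
          · exact (key2 b a hab.symm hb).symm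
        · exact key2 a b hab ha
      · exact Or.inl hab

end K5
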