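import Pool.Agent.Lib.K5.ParK
import Pool.Agent.Lib.K5.RelD
import Pool.Agent.Lib.K5.CLExp
import Pool.Agent.Lib.K5.Basic0

/-!
# K5.ParQ: `Q = exp(nP)`

1. `q_prt`: `Q n = prt nP n`. With `s = 0`, `t = 1`, `U = Ico 2 (n+2)`: the networks correspond to the graphs `G` without the edge `st` in `AllK` (`net_iff_allK`; `G' ↦ G' without st`, inverse `G ↦ G ⊔ clq {s, t}`), `exp_sum` with `z = 1`, `p = True`; for each part `C` the sum over `KP s t C` is
   `nP C.card` (`piece_count`); `sum_prt`.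
2. `egf_q`: `egf Q x = eexp (egf nP x)` by `egf_prt`, `pos nP = nP` (`nP_zero`).
3. `egf_q_trn`: for `n ≤ N` the parts have at most `N` elements, so `Q n = prt (trn N nP) n`; so `egf (trn N Q) x ≤ egf (prt (trn N nP)) x = eexp (egf (trn N nP) x)`.
-/

namespace K5

open Finset
open scoped ENNReal

namespace ParQAux

theorem adj_clq {s t a b : ℕ} (h : s ≠ t) :
    (clq {s, t}).Adj a b ↔ s(a, b) = s(s, t) := by
  show (a ≠ b ∧ a ∈ ({s, t} : Finset ℕ) ∧ b ∈ ({s, t} : Finset ℕ)) ↔ _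
  rw [Finset.mem_insert, Finset.mem_singleton, Finset.mem_insert, Finset.mem_singleton, Sym2.eq_iff]
  constructor
  · rintro ⟨h1, h2 | h2, h3 | h3⟩
    · exact absurd (h2.trans h3.symm) h1
    · exact Or.inl ⟨h2, h3⟩
    · exact Or.inr ⟨h2, h3⟩
    · exact absurd (h2.trans h3.symm) h1
  · rintro (⟨rfl, rfl⟩ | ⟨rfl, rfl⟩)
    · exact ⟨h, Or.inl rfl, Or.inr rfl⟩
    · exact ⟨h.symm, Or.inr rfl, Or.inl rfl⟩

theorem del_sup {s t : ℕ} (h : s ≠ t) {G : Gr} (hG : G.Adj s t) :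
    G.deleteEdges {s(s, t)} ⊔ clq {s, t} = G := by
  ext a b
  rw [SimpleGraph.sup_adj, SimpleGraph.deleteEdges_adj, adj_clq h, Set.mem_singleton_iff]
  constructor
  · rintro (h1 | h1)
    · exact h1.1
    · rw [← SimpleGraph.mem_edgeSet, h1]
      exact hG
  · intro h1
    by_cases h2 : s(a, b) = s(s, t)
    · exact Or.inr h2
    · exact Or.inl ⟨h1, h2⟩

theorem sup_del {s t : ℕ} (h : s ≠ t) {G : Gr} (hG : ¬ G.Adj s t) :
    (G ⊔ clq {s, t}).deleteEdges {s(s, t)} = G := by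
  ext a b
  rw [SimpleGraph.deleteEdges_adj, SimpleGraph.sup_adj, adj_clq h, Set.mem_singleton_iff]
  constructor
  · rintro ⟨h1 | h1, h2⟩
    · exact h1
    · exact absurd h1 h2
  · intro h1
    refine ⟨Or.inl h1, fun h2 => hG ?_⟩
    rw [← SimpleGraph.mem_edgeSet, ← h2]
    exact h1

theorem not_adj_del {s t : ℕ} (G : Gr) : ¬ (G.deleteEdges {s(s, t)}).Adj s t := by
  rw [SimpleGraph.deleteEdges_adj]
  exact fun h => h.2 rfl

/-- Deleting the edge `st`. -/
def del {s t : ℕ} (h : s ≠ t) (P : Gr → Prop) (hP : ∀ G, P G → G.Adj s t) :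
    {G : Gr // P G} ≃ {G : Gr // P (G ⊔ clq {s, t}) ∧ ¬ G.Adj s t} where
  toFun G := ⟨G.1.deleteEdges {s(s, t)}, by
    rw [del_sup h (hP _ G.2)]
    exact ⟨G.2, not_adj_del _⟩⟩
  invFun G := ⟨G.1 ⊔ clq {s, t}, G.2.1⟩
  left_inv G := Subtype.ext (del_sup h (hP _ G.2))
  right_inv G := Subtype.ext (sup_del h G.2.2)

theorem count_del {s t : ℕ} (h : s ≠ t) (P : Gr → Prop) (hP : ∀ G, P G → G.Adj s t)
    (P' : Gr → Prop) (hP' : ∀ G, P' G ↔ P (G ⊔ clq {s, t}) ∧ ¬ G.Adj s t) :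
    ∑' _ : {G : Gr // P' G}, (1 : ℝ≥0∞) = ∑' _ : {G : Gr // P G}, 1 := by
  rw [← ((del h P hP).trans (Equiv.subtypeEquivRight fun G => (hP' G).symm)).tsum_eq
    (fun _ => (1 : ℝ≥0∞))]

theorem kp_count {s t : ℕ} {U : Finset ℕ} (h : s ≠ t) (hs : s ∉ U) (ht : t ∉ U) :
    ∑' _ : {G : Gr // KP s t U G}, (1 : ℝ≥0∞) = nP U.card := by
  rw [← piece_count h hs ht]
  exact count_del h _ (fun G hG => hG.net.adj) _ (fun G => Iff.rfl)

theorem net_allK {s t : ℕ} {U : Finset ℕ} (h : s ≠ t) (hs : s ∉ U) (ht : t ∉ U) :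
    ∑' _ : {G : Gr // AllK {s, t} (KP s t) U G ∧ True}, (1 : ℝ≥0∞) = Q U.card := by
  rw [← net_count h hs ht]
  refine count_del h _ (fun G hG => hG.adj) _ (fun G => ?_)
  rw [and_true]
  constructor
  · intro hG
    have h1 : ¬ G.Adj s t := hG.2.2.1 s (by simp) t (by simp)
    exact ⟨(net_iff_allK h hs ht h1).2 hG, h1⟩
  · intro hG
    exact (net_iff_allK h hs ht hG.2).1 hG.1

theorem q_card {s t : ℕ} {U : Finset ℕ} (h : s ≠ t) (hs : s ∉ U) (ht : t ∉ U) :
    (Q U.card : ℝ≥0∞) = prt nP U.card := by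
  classical
  have hd : Disjoint ({s, t} : Finset ℕ) U := by
    rw [Finset.disjoint_left]
    intro a ha
    rw [Finset.mem_insert, Finset.mem_singleton] at ha
    rcases ha with rfl | rfl
    · exact hs
    · exact ht
  have h1 := exp_sum (expClass_KP s t) 1 hd (fun _ => True)
  simp only [one_pow, if_true] at h1
  rw [← net_allK h hs ht, h1, ← sum_prt]
  refine Finset.sum_congr rfl fun π _ => Finset.prod_congr rfl fun C hC => ?_
  have hCU : C ⊆ U := π.le hC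
  exact kp_count h (fun hh => hs (hCU hh)) (fun hh => ht (hCU hh))

theorem pos_nP : pos nP = nP := by
  funext n
  unfold pos
  by_cases hn : n = 0
  · rw [if_pos hn, hn, nP_zero]
  · rw [if_neg hn]

theorem pos_trn (N : ℕ) : pos (trn N nP) = trn N nP := by
  funext n
  unfold pos
  by_cases hn : n = 0
  · rw [if_pos hn, hn]
    unfold trn
    rw [if_pos (Nat.zero_le N), nP_zero]
  · rw [if_neg hn]

theorem prt_trn {N n : ℕ} (h : n ≤ N) (F : ℕ → ℝ≥0∞) : prt (trn N F) n = prt F n := by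
  unfold prt
  refine Finset.sum_congr rfl fun π _ => Finset.prod_congr rfl fun C hC => ?_
  have h1 : C ⊆ range n := π.le hC
  have h2 := Finset.card_le_card h1
  rw [Finset.card_range] at h2
  unfold trn
  rw [if_pos (h2.trans h)]

theorem egf_mono {F F' : ℕ → ℝ≥0∞} (h : ∀ n, F n ≤ F' n) (x : ℝ≥0∞) : egf F x ≤ egf F' x := by
  unfold egf
  exact ENNReal.tsum_le_tsum fun n => mul_le_mul_right (h n) _

end ParQAux

open ParQAux

theorem q_prt (n : ℕ) : (Q n : ℝ≥0∞) = prt nP n := by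
  have h1 := q_card (s := 0) (t := 1) (U := Ico 2 (n + 2)) (by omega) (by simp) (by simp)
  rwa [Nat.card_Ico, Nat.add_sub_cancel] at h1

theorem egf_q (x : ℝ≥0∞) : egf (fun n => (Q n : ℝ≥0∞)) x = eexp (egf nP x) := by
  have h1 : (fun n => (Q n : ℝ≥0∞)) = prt nP := funext q_prt
  rw [h1, egf_prt, pos_nP]

theorem egf_q_trn (N : ℕ) (x : ℝ≥0∞) :
    egf (trn N (fun n => (Q n : ℝ≥0∞))) x ≤ eexp (egf (trn N nP) x) := by
  have h1 := egf_prt (trn N nP) x
  rw [pos_trn] at h1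
  rw [← h1]
  refine egf_mono (fun n => ?_) x
  by_cases hn : n ≤ N
  · rw [prt_trn hn, ← q_prt]
    unfold trn
    rw [if_pos hn]
  · unfold trn
    rw [if_neg hn]
    exact zero_le

end K5
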