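import Mathlib

/-!
# K5.QMin: deletion in a family of vectors mod 2 that uses every coordinate at most twice

`F : Fin n → E → ZMod 2`, every `e : E` is in the support of at most two `F i`; `X : Set E`.
There are sets `S' j` of indices (`j : Fin m`) such that the sums `∑ i ∈ S' j, F i` vanish on `X`, use every coordinate at most twice, and every sum `∑ i ∈ S, F i` that vanishes
on `X` is a sum of them.

PROOF. `A e := {i | F i e ≠ 0}`, `|A e| ≤ 2`, and `∑ i ∈ S, F i e = |S ∩ A e| mod 2` (the value of `F i e` is `1` on `A e`). Let `r` be the equivalence relation on `Fin n`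
generated by: `i r i'` if some `e ∈ X` has `i, i' ∈ A e` (`Relation.EqvGen` / `EqvGen.setoid`). Call a class bad if it contains an `i` with `A e = {i}` for some `e ∈ X`. `S' j` are the classes that
are not bad (the finite type `{c : Quotient r // not bad}` is equivalent to some `Fin m`).
* vanishing on `X`: let `e ∈ X` and let `c` be a good class. If `A e = ∅` the sum is `0`. If `|A e| = 1` then the element of `A e` is in a bad class, so the sum is `0`.
  If `|A e| = 2` both elements are in the same class, so `|c ∩ A e| ∈ {0, 2}`.
* at most twice: if the sum over the class `c` is not `0` at `e`, then `c` meets `A e`; different classes are disjoint, so this gives an injection into `A e`.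
* spanning: let `∑ i ∈ S, F i` vanish on `X`. If `i ∈ S`, `i, i' ∈ A e`, `e ∈ X`, `i ≠ i'` then `A e = {i, i'}` and `i' ∈ S` (parity). So `S` is a union of classes. If `A e = {i}`, `e ∈ X`
  then `i ∉ S` (parity), so `S` meets no bad class. Take `T` = the classes contained in `S`.
-/

namespace K5

open Finset

theorem minor2 {E : Type*} {n : ℕ} (F : Fin n → E → ZMod 2)
    (h2 : ∀ e, (univ.filter (fun i => F i e ≠ 0)).card ≤ 2) (X : Set E) :
    ∃ (m : ℕ) (S' : Fin m → Finset (Fin n)),
      (∀ j, ∀ e ∈ X, ∑ i ∈ S' j, F i e = 0) ∧
      (∀ e, (univ.filter (fun j => ∑ i ∈ S' j, F i e ≠ 0)).card ≤ 2) ∧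
      ∀ S : Finset (Fin n), (∀ e ∈ X, ∑ i ∈ S, F i e = 0) →
        ∃ T : Finset (Fin m), ∀ e, ∑ i ∈ S, F i e = ∑ j ∈ T, ∑ i ∈ S' j, F i e := by
  classical
  set A : E → Finset (Fin n) := fun e => univ.filter (fun i => F i e ≠ 0) with hA
  have memA : ∀ e i, i ∈ A e ↔ F i e ≠ 0 := fun e i => by simp [hA]
  have hone : ∀ x : ZMod 2, x ≠ 0 → x = 1 := by decide
  have hsum : ∀ (S : Finset (Fin n)) (e : E), ∑ i ∈ S, F i e = ((S.filter (fun i => i ∈ A e)).card : ZMod 2) := by
    intro S e
    rw [Finset.card_eq_sum_ones, Nat.cast_sum, Finset.sum_filter]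
    refine Finset.sum_congr rfl (fun i _ => ?_)
    by_cases hi : i ∈ A e
    · rw [if_pos hi, hone _ ((memA e i).1 hi)]; simp
    · rw [if_neg hi]
      by_contra hne
      exact hi ((memA e i).2 hne)
  have hpair : ∀ (e : E) (i i' : Fin n), i ∈ A e → i' ∈ A e → i ≠ i' → A e = {i, i'} := by
    intro e i i' hi hi' hne
    refine (Finset.eq_of_subset_of_card_le ?_ ?_).symm
    · intro x hx
      rcases Finset.mem_insert.1 hx with rfl | hx
      · exact hi
      · rw [Finset.mem_singleton.1 hx]; exact hi'
    · rw [Finset.card_pair hne]; exact h2 e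
  let R : Setoid (Fin n) := Relation.EqvGen.setoid (fun i i' => ∃ e ∈ X, i ∈ A e ∧ i' ∈ A e)
  have hR : ∀ (e : E) (i i' : Fin n), e ∈ X → i ∈ A e → i' ∈ A e → (Quotient.mk R i) = (Quotient.mk R i') := by
    intro e i i' he hi hi'
    exact Quotient.sound (Relation.EqvGen.rel _ _ ⟨e, he, hi, hi'⟩)
  let C := {c : Quotient R // ∀ i, Quotient.mk R i = c → ∀ e ∈ X, A e ≠ {i}}
  have : Fintype (Quotient R) := Fintype.ofFinite _
  have : Fintype C := Fintype.ofFinite _
  let eq := (Fintype.equivFin C).symm
  let S' : Fin (Fintype.card C) → Finset (Fin n) := fun j => univ.filter (fun i => Quotient.mk R i = (eq j).1)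
  have memS' : ∀ j i, i ∈ S' j ↔ Quotient.mk R i = (eq j).1 := fun j i => by simp [S']
  refine ⟨Fintype.card C, S', ?_, ?_, ?_⟩
  · intro j e he
    rw [hsum]
    by_cases hex : ∃ i ∈ A e, i ∈ S' j
    · obtain ⟨i, hi, hij⟩ := hex
      have hc := (memS' j i).1 hij
      have hne := (eq j).2 i hc e he
      obtain ⟨i', hi', hii'⟩ : ∃ i' ∈ A e, i' ≠ i := by
        by_contra hcon
        push Not at hcon
        exact hne (Finset.eq_singleton_iff_unique_mem.2 ⟨hi, hcon⟩)
      have hAe := hpair e i i' hi hi' (Ne.symm hii')
      have hc' : i' ∈ S' j := (memS' j i').2 ((hR e i' i he hi' hi).trans hc)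
      have : (S' j).filter (fun i => i ∈ A e) = {i, i'} := by
        ext x
        rw [Finset.mem_filter, hAe]
        constructor
        · exact fun h => h.2
        · intro h
          refine ⟨?_, h⟩
          rcases Finset.mem_insert.1 h with rfl | h
          · exact hij
          · rw [Finset.mem_singleton.1 h]; exact hc'
      rw [this, Finset.card_pair (Ne.symm hii')]
      decide
    · push Not at hex
      have : (S' j).filter (fun i => i ∈ A e) = ∅ :=
        Finset.filter_eq_empty_iff.2 (fun i hi hA => hex i hA hi)
      rw [this]; simp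
  · intro e
    refine le_trans ?_ (h2 e)
    have hex : ∀ j : Fin (Fintype.card C), ∑ i ∈ S' j, F i e ≠ 0 → ∃ i, i ∈ A e ∧ i ∈ S' j := by
      intro j hj
      by_contra hcon
      push Not at hcon
      apply hj
      rw [hsum]
      have : (S' j).filter (fun i => i ∈ A e) = ∅ :=
        Finset.filter_eq_empty_iff.2 (fun i hi hA => hcon i hA hi)
      rw [this]; simp
    let f : Fin (Fintype.card C) → Fin n := fun j =>
      if h : ∑ i ∈ S' j, F i e ≠ 0 then (hex j h).choose else (if h' : 0 < n then ⟨0, h'⟩ else (h' (by
        obtain ⟨c, hc⟩ := eq j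
        induction c using Quotient.inductionOn with
        | _ i => exact lt_of_le_of_lt (Nat.zero_le _) i.2)).elim)
    have hf : ∀ j, ∑ i ∈ S' j, F i e ≠ 0 → f j ∈ A e ∧ f j ∈ S' j := by
      intro j hj
      have : f j = (hex j hj).choose := dif_pos hj
      rw [this]
      exact (hex j hj).choose_spec
    refine Finset.card_le_card_of_injOn f ?_ ?_
    · intro j hj
      exact (hf j (Finset.mem_filter.1 hj).2).1
    · intro j hj j' hj' hjj'
      have h1 := (memS' _ _).1 (hf j (Finset.mem_filter.1 hj).2).2
      have h3 := (memS' _ _).1 (hf j' (Finset.mem_filter.1 hj').2).2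
      rw [hjj', h3] at h1
      exact eq.injective (Subtype.ext h1.symm)
  · intro S hS
    have hinv : ∀ i i', R i i' → (i ∈ S ↔ i' ∈ S) := by
      intro i i' h
      induction h with
      | rel a b hab =>
        obtain ⟨e, he, ha, hb⟩ := hab
        by_cases hne : a = b
        · rw [hne]
        · have hAe := hpair e a b ha hb hne
          have h0 := hS e he
          rw [hsum, hAe] at h0
          by_contra hcon
          have hcard : (S.filter (fun i => i ∈ ({a, b} : Finset (Fin n)))).card = 1 := by
            by_cases ha' : a ∈ S
            · have hb' : b ∉ S := fun hb' => hcon ⟨fun _ => hb', fun _ => ha'⟩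
              have : S.filter (fun i => i ∈ ({a, b} : Finset (Fin n))) = {a} := by
                ext x
                simp only [Finset.mem_filter, Finset.mem_insert, Finset.mem_singleton]
                constructor
                · rintro ⟨h1, rfl | rfl⟩
                  · rfl
                  · exact absurd h1 hb'
                · rintro rfl
                  exact ⟨ha', Or.inl rfl⟩
              rw [this]; simp
            · have hb' : b ∈ S := by
                by_contra hb'
                exact hcon ⟨fun h => absurd h ha', fun h => absurd h hb'⟩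
              have : S.filter (fun i => i ∈ ({a, b} : Finset (Fin n))) = {b} := by
                ext x
                simp only [Finset.mem_filter, Finset.mem_insert, Finset.mem_singleton]
                constructor
                · rintro ⟨h1, rfl | rfl⟩
                  · exact absurd h1 ha'
                  · rfl
                · rintro rfl
                  exact ⟨hb', Or.inr rfl⟩
              rw [this]; simp
          rw [hcard] at h0
          exact absurd h0 (by decide)
      | refl a => exact Iff.rfl
      | symm a b _ ih => exact ih.symm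
      | trans a b c _ _ ih1 ih2 => exact ih1.trans ih2
    have hinv' : ∀ i i', Quotient.mk R i = Quotient.mk R i' → (i ∈ S ↔ i' ∈ S) :=
      fun i i' h => hinv i i' (Quotient.exact h)
    let T : Finset (Fin (Fintype.card C)) := univ.filter (fun j => ∃ i ∈ S, Quotient.mk R i = (eq j).1)
    have hST : S = T.biUnion S' := by
      ext i
      rw [Finset.mem_biUnion]
      constructor
      · intro hi
        have hgood : ∀ i', Quotient.mk R i' = Quotient.mk R i → ∀ e ∈ X, A e ≠ {i'} := by
          intro i' hi' e he hAe
          have hi'S := (hinv' i' i hi').2 hi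
          have h0 := hS e he
          rw [hsum, hAe] at h0
          have : S.filter (fun k => k ∈ ({i'} : Finset (Fin n))) = {i'} := by
            ext x
            simp only [Finset.mem_filter, Finset.mem_singleton]
            constructor
            · exact fun h => h.2
            · rintro rfl
              exact ⟨hi'S, rfl⟩
          rw [this] at h0
          simp at h0
        refine ⟨eq.symm ⟨Quotient.mk R i, hgood⟩, ?_, ?_⟩
        · refine Finset.mem_filter.2 ⟨Finset.mem_univ _, i, hi, ?_⟩
          rw [Equiv.apply_symm_apply]
        · rw [memS', Equiv.apply_symm_apply]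
      · rintro ⟨j, hj, hij⟩
        obtain ⟨_, i0, hi0, hc⟩ := Finset.mem_filter.1 hj
        exact (hinv' i0 i (hc.trans ((memS' j i).1 hij).symm)).1 hi0
    refine ⟨T, fun e => ?_⟩
    conv_lhs => rw [hST]
    refine Finset.sum_biUnion ?_
    intro j _ j' _ hjj'
    refine Finset.disjoint_left.2 (fun i hi hi' => hjj' ?_)
    have h1 := (memS' j i).1 hi
    have h3 := (memS' j' i).1 hi'
    exact eq.injective (Subtype.ext (h1.symm.trans h3))

end K5
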