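import Pool.Agent.Lib.K5.Defs3

/-!
# K5.QTj: T-joins in a connected set

`B` connected in `G` (cut form), `f : ℕ → ZMod 2` with `∑ b ∈ B, f b = 0`: there is a symmetric `z` supported on the edges of `G` inside `B` with
`∑ b ∈ B, z a b = f a` for all `a ∈ B`.

PROOF. Fix `b0 ∈ B`. (1) For every `b ∈ B` there is such a `z` for `f = δ_b + δ_b0`: let `P` be the set of the `b ∈ B` with this property; `b0 ∈ P` (`z = 0`, `1 + 1 = 0`); if `P ≠ B` then `P512.Conn` gives
`u ∈ P`, `v ∈ B \ P`, `G.Adj u v`; add the function that is `1` at `(u, v)` and `(v, u)` to the `z` of `u`: its row sums are `δ_u + δ_v`; so `v ∈ P`, contradiction.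
(2) In general `f a = ∑ b ∈ B, f b (δ_b a + δ_b0 a)` for `a ∈ B` as `∑ f = 0`; take `z = ∑ b ∈ B, f b z_b`.
-/

namespace K5

open Finset

namespace QTjAux

/-- `f` is the row sum function of a symmetric edge function. -/
def J (G : Gr) (B : Finset ℕ) (f : ℕ → ZMod 2) : Prop :=
  ∃ z : ℕ → ℕ → ZMod 2, (∀ a b, z a b = z b a) ∧
    (∀ a b, z a b ≠ 0 → G.Adj a b ∧ a ∈ B ∧ b ∈ B) ∧ ∀ a ∈ B, ∑ b ∈ B, z a b = f a

lemma J_congr {G : Gr} {B : Finset ℕ} {f g : ℕ → ZMod 2} (h : ∀ a ∈ B, f a = g a)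
    (hf : J G B f) : J G B g := by
  obtain ⟨z, h1, h2, h3⟩ := hf
  exact ⟨z, h1, h2, fun a ha => (h3 a ha).trans (h a ha)⟩

lemma J_zero (G : Gr) (B : Finset ℕ) : J G B (fun _ => 0) :=
  ⟨fun _ _ => 0, fun _ _ => rfl, fun _ _ h => absurd rfl h, fun _ _ => by simp⟩

lemma J_add {G : Gr} {B : Finset ℕ} {f g : ℕ → ZMod 2} (hf : J G B f) (hg : J G B g) :
    J G B (fun a => f a + g a) := by
  obtain ⟨z, h1, h2, h3⟩ := hf
  obtain ⟨z', h1', h2', h3'⟩ := hg
  refine ⟨fun a b => z a b + z' a b, fun a b => ?_, fun a b h => ?_, fun a ha => ?_⟩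
  · show z a b + z' a b = z b a + z' b a
    rw [h1 a b, h1' a b]
  · by_cases hz : z a b = 0
    · refine h2' a b fun hz' => h ?_
      show z a b + z' a b = 0
      rw [hz, hz', add_zero]
    · exact h2 a b hz
  · rw [sum_add_distrib, h3 a ha, h3' a ha]

lemma J_mul {G : Gr} {B : Finset ℕ} {f : ℕ → ZMod 2} (c : ZMod 2) (hf : J G B f) :
    J G B (fun a => c * f a) := by
  obtain ⟨z, h1, h2, h3⟩ := hf
  refine ⟨fun a b => c * z a b, fun a b => ?_, fun a b h => ?_, fun a ha => ?_⟩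
  · show c * z a b = c * z b a
    rw [h1 a b]
  · refine h2 a b fun hz => h ?_
    show c * z a b = 0
    rw [hz, mul_zero]
  · rw [← mul_sum, h3 a ha]

lemma J_sum {G : Gr} {B : Finset ℕ} (s : Finset ℕ) (F : ℕ → ℕ → ZMod 2)
    (h : ∀ i ∈ s, J G B (F i)) : J G B (fun a => ∑ i ∈ s, F i a) := by
  classical
  induction s using Finset.induction_on with
  | empty =>
    refine J_congr (fun a _ => ?_) (J_zero G B)
    rw [sum_empty]
  | insert i s hi ih =>
    refine J_congr (fun a _ => ?_) (J_add (h i (mem_insert_self i s))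
      (ih fun j hj => h j (mem_insert_of_mem hj)))
    rw [sum_insert hi]

/-- The indicator of `b`. -/
def dl (b a : ℕ) : ZMod 2 := if a = b then 1 else 0

lemma J_edge {G : Gr} {B : Finset ℕ} {u v : ℕ} (hu : u ∈ B) (hv : v ∈ B) (h : G.Adj u v) :
    J G B (fun a => dl u a + dl v a) := by
  have huv : u ≠ v := h.ne
  refine ⟨fun a b => dl u a * dl v b + dl v a * dl u b, fun a b => ?_, fun a b hz => ?_,
    fun a _ => ?_⟩
  · show dl u a * dl v b + dl v a * dl u b = dl u b * dl v a + dl v b * dl u a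
    ring
  · change dl u a * dl v b + dl v a * dl u b ≠ 0 at hz
    unfold dl at hz
    by_cases h1 : a = u
    · subst h1
      by_cases h2 : b = v
      · subst h2
        exact ⟨h, hu, hv⟩
      · exfalso
        apply hz
        rw [if_neg h2, if_neg huv]
        ring
    · by_cases h2 : a = v
      · subst h2
        by_cases h3 : b = u
        · subst h3
          exact ⟨h.symm, hv, hu⟩
        · exfalso
          apply hz
          rw [if_neg h1, if_neg h3]
          ring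
      · exfalso
        apply hz
        rw [if_neg h1, if_neg h2]
        ring
  · rw [sum_add_distrib, ← mul_sum, ← mul_sum]
    have e1 : ∑ b ∈ B, dl v b = 1 := by
      unfold dl
      rw [sum_ite_eq', if_pos hv]
    have e2 : ∑ b ∈ B, dl u b = 1 := by
      unfold dl
      rw [sum_ite_eq', if_pos hu]
    rw [e1, e2, mul_one, mul_one]

lemma J_pair {G : Gr} {B : Finset ℕ} (hB : P512.Conn G B) {b0 : ℕ} (h0 : b0 ∈ B) (b : ℕ)
    (hb : b ∈ B) : J G B (fun a => dl b a + dl b0 a) := by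
  classical
  have two : ∀ c : ZMod 2, c + c = 0 := fun c => CharTwo.add_self_eq_zero c
  by_contra hcon
  have hne : B.filter (fun b => J G B (fun a => dl b a + dl b0 a)) ≠ B := by
    intro h
    have hb' : b ∈ B.filter (fun b => J G B (fun a => dl b a + dl b0 a)) := by
      rw [h]
      exact hb
    exact hcon (mem_filter.1 hb').2
  have hmem : b0 ∈ B.filter (fun b => J G B (fun a => dl b a + dl b0 a)) := by
    rw [mem_filter]
    exact ⟨h0, J_congr (fun a _ => (two _).symm) (J_zero G B)⟩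
  obtain ⟨u, hu, v, hv, hv', hadj⟩ := hB.2 _ (filter_subset _ B) ⟨b0, hmem⟩ hne
  rw [mem_filter] at hu
  apply hv'
  rw [mem_filter]
  refine ⟨hv, J_congr (fun a _ => ?_) (J_add hu.2 (J_edge hu.1 hv hadj))⟩
  have h1 := two (dl u a)
  calc dl u a + dl b0 a + (dl u a + dl v a) = (dl u a + dl u a) + (dl v a + dl b0 a) := by ring
    _ = dl v a + dl b0 a := by rw [h1, zero_add]

end QTjAux

open QTjAux in
theorem exists_tjoin {G : Gr} {B : Finset ℕ} (hB : P512.Conn G B) (f : ℕ → ZMod 2)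
    (hf : ∑ b ∈ B, f b = 0) :
    ∃ z : ℕ → ℕ → ZMod 2, (∀ a b, z a b = z b a) ∧
      (∀ a b, z a b ≠ 0 → G.Adj a b ∧ a ∈ B ∧ b ∈ B) ∧ ∀ a ∈ B, ∑ b ∈ B, z a b = f a := by
  obtain ⟨b0, h0⟩ := hB.1
  have h1 : J G B (fun a => ∑ b ∈ B, f b * (dl b a + dl b0 a)) :=
    J_sum B (fun b a => f b * (dl b a + dl b0 a)) fun b hb => J_mul (f b) (J_pair hB h0 b hb)
  refine J_congr (fun a ha => ?_) h1
  have e1 : ∑ b ∈ B, f b * (dl b a + dl b0 a) = ∑ b ∈ B, f b * dl b a + (∑ b ∈ B, f b) * dl b0 a := by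
    rw [sum_mul, ← sum_add_distrib]
    exact sum_congr rfl fun b _ => mul_add _ _ _
  rw [e1, hf, zero_mul, add_zero]
  unfold dl
  simp only [mul_ite, mul_one, mul_zero]
  rw [sum_ite_eq, if_pos ha]

end K5
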