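import Pool.Agent.Lib.K5.QMin
import Pool.Agent.Lib.K5.QTj

/-!
# K5.QMod: MacLane's criterion passes to a model

`H` is a graph on `Fin k`, `B i` (`i : Fin k`) disjoint connected subsets of `U`, joined by an edge if `i, j` are adjacent in `H` (a model of `H` in `G`). If `Mac G U` then `H` has a family of
cycles mod 2, every edge in at most two of them, that spans all cycles mod 2 of `H` (`MacK H`).

PROOF. For `i < j` with `H.Adj i j` choose `u i j ∈ B i`, `v i j ∈ B j`, `G.Adj (u i j) (v i j)`; put `φ i j = (u i j, v i j)` for `i < j` and `φ j i = (v i j, u i j)`. These pairs are different from each other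
(the `B i` are disjoint). `X` := the set of all `(a, b) : ℕ × ℕ` that are neither of the form `φ i j` with `H.Adj i j` nor in `B i ×ˢ B i` for some `i`. Apply `minor2` to
`F i e := F i e.1 e.2` (the family of `Mac`), `E = ℕ × ℕ`. New family: `F' j a b := ∑ i ∈ S' j, F i (φ a b)` if `H.Adj a b`, else `0`.
(1) Let `z` be a cycle mod 2 of `G` on `U` that vanishes on `X` (a sum of members is one, `Cyc`). Then `z' a b := if H.Adj a b then z (φ a b) else 0` is symmetric, supported on `H`, and even: for `i : Fin k`,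
`0 = ∑ a ∈ B i, ∑ b ∈ U, z a b`; the part with `b ∈ B i` is `0` (symmetric, zero on the diagonal as `G` has no loops: `2 * ... = 0`); the part with `b ∉ B i` is the sum over the pairs `φ i j`,
`H.Adj i j` (all other pairs `(a, b)`, `a ∈ B i`, `b ∉ B i` are in `X`).
(2) At most twice: from `minor2` at `e = φ a b`.
(3) Spanning: let `z'` be a cycle mod 2 of `H`. For every `i` let `f a` (`a ∈ B i`) be the sum of the `z' i j` over the `j` with `H.Adj i j` and `(φ i j).1 = a`; `∑ a ∈ B i, f a = ∑ j, z' i j = 0`,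
so `exists_tjoin` gives `z_i` inside `B i`. Let `z` = the sum of the `z_i` plus `z'` transported by `φ`. It is a cycle mod 2 of `G` on `U`, it vanishes on `X`, and `z (φ i j) = z' i j`. By `Mac` it is
`∑ i ∈ S, F i`, so by `minor2` a sum of the `∑ i ∈ S' j, F i`; restrict to `φ`.
-/

namespace K5

open Finset

/-- A cycle mod 2 of a graph on `Fin k`. -/
structure CycK {k : ℕ} (H : SimpleGraph (Fin k)) (z : Fin k → Fin k → ZMod 2) : Prop where
  symm : ∀ a b, z a b = z b a
  supp : ∀ a b, z a b ≠ 0 → H.Adj a b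
  even : ∀ a, ∑ b, z a b = 0

/-- MacLane's criterion for a graph on `Fin k`. -/
def MacK {k : ℕ} (H : SimpleGraph (Fin k)) : Prop :=
  ∃ (n : ℕ) (F : Fin n → Fin k → Fin k → ZMod 2), (∀ i, CycK H (F i)) ∧
    (∀ a b, (univ.filter (fun i => F i a b ≠ 0)).card ≤ 2) ∧
    ∀ z, CycK H z → ∃ S : Finset (Fin n), ∀ a b, z a b = ∑ i ∈ S, F i a b

namespace QModAux

theorem cyc_sum {G : Gr} {U : Finset ℕ} {n : ℕ} {F : Fin n → ℕ → ℕ → ZMod 2}
    (hF : ∀ i, Cyc G U (F i)) (S : Finset (Fin n)) :
    Cyc G U (fun a b => ∑ i ∈ S, F i a b) := by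
  refine ⟨fun a b => ?_, fun a b h => ?_, fun a ha => ?_⟩
  · exact Finset.sum_congr rfl fun i _ => (hF i).symm a b
  · obtain ⟨i, _, hi⟩ := Finset.exists_ne_zero_of_sum_ne_zero h
    exact (hF i).supp a b hi
  · rw [Finset.sum_comm]
    exact Finset.sum_eq_zero fun i _ => (hF i).even a ha

theorem add_self2 (a : ZMod 2) : a + a = 0 := CharTwo.add_self_eq_zero a

/-- a symmetric matrix mod 2 with zero diagonal has sum zero -/
theorem sum_symm {B : Finset ℕ} {z : ℕ → ℕ → ZMod 2} (hs : ∀ a b, z a b = z b a)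
    (h0 : ∀ a, z a a = 0) : ∑ a ∈ B, ∑ b ∈ B, z a b = 0 := by
  classical
  induction B using Finset.induction_on with
  | empty => simp
  | insert c B hc ih =>
    rw [Finset.sum_insert hc, Finset.sum_insert hc, h0, zero_add]
    have h1 : ∀ a ∈ B, ∑ b ∈ insert c B, z a b = z c a + ∑ b ∈ B, z a b := by
      intro a _
      rw [Finset.sum_insert hc, hs a c]
    rw [Finset.sum_congr rfl h1, Finset.sum_add_distrib, ih, add_zero, add_self2]

variable {G : Gr} {U : Finset ℕ} {k : ℕ} {H : SimpleGraph (Fin k)} {B : Fin k → Finset ℕ}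
  {p : Fin k → Fin k → ℕ}

theorem uniq (hd : ∀ i j, i ≠ j → Disjoint (B i) (B j)) {i j : Fin k} {x : ℕ} (hi : x ∈ B i)
    (hj : x ∈ B j) : i = j := by
  by_contra h
  exact Finset.disjoint_left.1 (hd i j h) hi hj

open Classical in
theorem contract (hU : ∀ i, B i ⊆ U) (hd : ∀ i j, i ≠ j → Disjoint (B i) (B j))
    (hp : ∀ i j, H.Adj i j → p i j ∈ B i ∧ G.Adj (p i j) (p j i))
    {z : ℕ → ℕ → ZMod 2} (hz : Cyc G U z)
    (hX : ∀ x y, (¬ ∃ i j, H.Adj i j ∧ x = p i j ∧ y = p j i) → (¬ ∃ i, x ∈ B i ∧ y ∈ B i) →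
      z x y = 0) :
    CycK H (fun a b => if H.Adj a b then z (p a b) (p b a) else 0) := by
  refine ⟨fun a b => ?_, fun a b h => ?_, fun i => ?_⟩
  · by_cases h : H.Adj a b
    · rw [if_pos h, if_pos h.symm, hz.symm]
    · rw [if_neg h, if_neg (fun h' => h h'.symm)]
  · by_contra h'
    exact h (if_neg h')
  · have h1 : ∑ x ∈ B i, ∑ y ∈ U, z x y = 0 :=
      Finset.sum_eq_zero fun x hx => hz.even x (hU i hx)
    have h2 : ∀ x ∈ B i, ∑ y ∈ U, z x y = ∑ y ∈ U \ B i, z x y + ∑ y ∈ B i, z x y := by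
      intro x _
      exact (Finset.sum_sdiff (hU i)).symm
    rw [Finset.sum_congr rfl h2, Finset.sum_add_distrib, sum_symm hz.symm (fun a => by
      by_contra h
      exact (hz.supp a a h).ne rfl), add_zero, ← Finset.sum_product'] at h1
    rw [← Finset.sum_filter, ← h1]
    refine Finset.sum_of_injOn (fun j => (p i j, p j i)) ?_ ?_ ?_ ?_
    · intro j hj j' hj' h
      have hj1 := (Finset.mem_filter.1 (Finset.mem_coe.1 hj)).2
      have hj2 := (Finset.mem_filter.1 (Finset.mem_coe.1 hj')).2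
      have h3 : p j i = p j' i := (Prod.mk.inj h).2
      exact uniq hd (hp j i hj1.symm).1 (by rw [h3]; exact (hp j' i hj2.symm).1)
    · intro j hj
      have hj1 := (Finset.mem_filter.1 (Finset.mem_coe.1 hj)).2
      refine Finset.mem_coe.2 (Finset.mem_product.2 ⟨(hp i j hj1).1, Finset.mem_sdiff.2
        ⟨hU j (hp j i hj1.symm).1, fun h => ?_⟩⟩)
      exact hj1.ne (uniq hd h (hp j i hj1.symm).1)
    · rintro ⟨x, y⟩ hxy hne
      obtain ⟨hx, hy⟩ := Finset.mem_product.1 hxy
      have hy' := Finset.mem_sdiff.1 hy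
      refine hX x y ?_ ?_
      · rintro ⟨a, b, hab, e1, e2⟩
        have ha : a = i := uniq hd (hp a b hab).1 (by rw [← e1]; exact hx)
        subst ha
        exact hne ⟨b, by simpa using hab, by rw [e1, e2]⟩
      · rintro ⟨a, ha1, ha2⟩
        have ha : a = i := uniq hd ha1 hx
        subst ha
        exact hy'.2 ha2
    · intro j _
      rfl

theorem expand (hU : ∀ i, B i ⊆ U) (hB : ∀ i, P512.Conn G (B i))
    (hd : ∀ i j, i ≠ j → Disjoint (B i) (B j))
    (hp : ∀ i j, H.Adj i j → p i j ∈ B i ∧ G.Adj (p i j) (p j i))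
    {z' : Fin k → Fin k → ZMod 2} (hz : CycK H z') :
    ∃ z : ℕ → ℕ → ZMod 2, Cyc G U z ∧ (∀ x y, (¬ ∃ i j, H.Adj i j ∧ x = p i j ∧ y = p j i) →
      (¬ ∃ i, x ∈ B i ∧ y ∈ B i) → z x y = 0) ∧ ∀ a b, H.Adj a b → z (p a b) (p b a) = z' a b := by
  classical
  -- the demands
  have hf : ∀ i, ∑ a ∈ B i, ∑ j, (if p i j = a then z' i j else 0) = 0 := by
    intro i
    rw [Finset.sum_comm]
    refine Eq.trans (Finset.sum_congr rfl fun j _ => ?_) (hz.even i)
    by_cases h : z' i j = 0
    · simp [h]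
    · rw [Finset.sum_ite_eq, if_pos (hp i j (hz.supp i j h)).1]
  choose zi hzs hzp hze using fun i => exists_tjoin (hB i) _ (hf i)
  have hsuppt : ∀ a b, z' a b ≠ 0 → p a b ∈ B a ∧ p b a ∈ B b ∧ G.Adj (p a b) (p b a) :=
    fun a b h => ⟨(hp a b (hz.supp a b h)).1, (hp b a (hz.supp a b h).symm).1,
      (hp a b (hz.supp a b h)).2⟩
  have hzi0 : ∀ i x y, ¬ (x ∈ B i ∧ y ∈ B i) → zi i x y = 0 := by
    intro i x y h
    by_contra h'
    exact h (hzp i x y h').2
  have ht0 : ∀ x y, (¬ ∃ i j, H.Adj i j ∧ x = p i j ∧ y = p j i) →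
      ∑ a, ∑ b, (if p a b = x ∧ p b a = y then z' a b else 0) = 0 := by
    intro x y h
    refine Finset.sum_eq_zero fun a _ => Finset.sum_eq_zero fun b _ => ?_
    by_cases hc : p a b = x ∧ p b a = y
    · rw [if_pos hc]
      by_contra h'
      exact h ⟨a, b, hz.supp a b h', hc.1.symm, hc.2.symm⟩
    · rw [if_neg hc]
  refine ⟨fun x y => ∑ i, zi i x y + ∑ a, ∑ b, (if p a b = x ∧ p b a = y then z' a b else 0),
    ⟨fun x y => ?_, fun x y h => ?_, fun x hx => ?_⟩, fun x y h1 h2 => ?_, fun a b hab => ?_⟩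
  · congr 1
    · exact Finset.sum_congr rfl fun i _ => hzs i x y
    · rw [Finset.sum_comm]
      refine Finset.sum_congr rfl fun a _ => Finset.sum_congr rfl fun b _ => ?_
      rw [hz.symm b a]
      by_cases hc : p b a = x ∧ p a b = y
      · rw [if_pos hc, if_pos ⟨hc.2, hc.1⟩]
      · rw [if_neg hc, if_neg (fun h => hc ⟨h.2, h.1⟩)]
  · by_contra hG
    refine h ?_
    have h1 : ∑ i, zi i x y = 0 := by
      refine Finset.sum_eq_zero fun i _ => ?_
      by_contra h'
      exact hG (hzp i x y h').1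
    have h2 := ht0 x y (by
      rintro ⟨i, j, hij, h1, h2⟩
      exact hG (by rw [h1, h2]; exact (hp i j hij).2))
    show ∑ i, zi i x y + ∑ a, ∑ b, (if p a b = x ∧ p b a = y then z' a b else 0) = 0
    rw [h1, h2, add_zero]
  · show ∑ y ∈ U, (∑ i, zi i x y + ∑ a, ∑ b, (if p a b = x ∧ p b a = y then z' a b else 0)) = 0
    rw [Finset.sum_add_distrib]
    have ht : ∑ y ∈ U, ∑ a, ∑ b, (if p a b = x ∧ p b a = y then z' a b else 0) =
        ∑ a, ∑ b, (if p a b = x then z' a b else 0) := by
      rw [Finset.sum_comm]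
      refine Finset.sum_congr rfl fun a _ => ?_
      rw [Finset.sum_comm]
      refine Finset.sum_congr rfl fun b _ => ?_
      by_cases h : z' a b = 0
      · simp [h]
      · have hb : p b a ∈ U := hU b (hsuppt a b h).2.1
        by_cases hc : p a b = x
        · simp only [hc, true_and, if_true]
          rw [Finset.sum_ite_eq, if_pos hb]
        · simp only [hc, false_and, if_false, Finset.sum_const_zero]
    rw [ht]
    by_cases hxB : ∃ i, x ∈ B i
    · obtain ⟨i, hxi⟩ := hxB
      have h1 : ∑ y ∈ U, ∑ l, zi l x y = ∑ j, (if p i j = x then z' i j else 0) := by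
        rw [Finset.sum_comm, Finset.sum_eq_single i, ← hze i x hxi]
        · symm
          exact Finset.sum_subset (hU i) fun y _ hy => hzi0 i x y (fun h => hy h.2)
        · intro l _ hl
          exact Finset.sum_eq_zero fun y _ => hzi0 l x y (fun h => hl (uniq hd h.1 hxi))
        · intro h
          exact absurd (Finset.mem_univ i) h
      have h2 : ∑ a, ∑ b, (if p a b = x then z' a b else 0) =
          ∑ j, (if p i j = x then z' i j else 0) := by
        rw [Finset.sum_eq_single i]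
        · intro a _ ha
          refine Finset.sum_eq_zero fun b _ => ?_
          by_cases hc : p a b = x
          · rw [if_pos hc]
            by_contra h
            exact ha (uniq hd (hsuppt a b h).1 (by rw [hc]; exact hxi))
          · rw [if_neg hc]
        · intro h
          exact absurd (Finset.mem_univ i) h
      rw [h1, h2, add_self2]
    · push Not at hxB
      have h1 : ∑ y ∈ U, ∑ l, zi l x y = 0 :=
        Finset.sum_eq_zero fun y _ => Finset.sum_eq_zero fun l _ =>
          hzi0 l x y (fun h => hxB l h.1)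
      have h2 : ∑ a, ∑ b, (if p a b = x then z' a b else 0) = 0 := by
        refine Finset.sum_eq_zero fun a _ => Finset.sum_eq_zero fun b _ => ?_
        by_cases hc : p a b = x
        · rw [if_pos hc]
          by_contra h
          exact hxB a (by rw [← hc]; exact (hsuppt a b h).1)
        · rw [if_neg hc]
      rw [h1, h2, add_zero]
  · show ∑ i, zi i x y + ∑ a, ∑ b, (if p a b = x ∧ p b a = y then z' a b else 0) = 0
    rw [ht0 x y h1, add_zero]
    exact Finset.sum_eq_zero fun i _ => hzi0 i x y (fun h => h2 ⟨i, h⟩)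
  · show ∑ i, zi i (p a b) (p b a) +
      ∑ a', ∑ b', (if p a' b' = p a b ∧ p b' a' = p b a then z' a' b' else 0) = z' a b
    have h1 : ∑ i, zi i (p a b) (p b a) = 0 := by
      refine Finset.sum_eq_zero fun i _ => hzi0 i _ _ (fun h => hab.ne ?_)
      exact (uniq hd h.1 (hp a b hab).1).symm.trans (uniq hd h.2 (hp b a hab.symm).1)
    rw [h1, zero_add, Finset.sum_eq_single a, Finset.sum_eq_single b]
    · rw [if_pos ⟨rfl, rfl⟩]
    · intro b' _ hb'
      by_cases hc : p a b' = p a b ∧ p b' a = p b a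
      · rw [if_pos hc]
        by_contra h
        exact hb' (uniq hd (hsuppt a b' h).2.1 (by rw [hc.2]; exact (hp b a hab.symm).1))
      · rw [if_neg hc]
    · intro h
      exact absurd (Finset.mem_univ b) h
    · intro a' _ ha'
      refine Finset.sum_eq_zero fun b' _ => ?_
      by_cases hc : p a' b' = p a b ∧ p b' a' = p b a
      · rw [if_pos hc]
        by_contra h
        exact ha' (uniq hd (hsuppt a' b' h).1 (by rw [hc.1]; exact (hp a b hab).1))
      · rw [if_neg hc]
    · intro h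
      exact absurd (Finset.mem_univ a) h

end QModAux

theorem Mac.model {G : Gr} {U : Finset ℕ} (hM : Mac G U) {k : ℕ} (H : SimpleGraph (Fin k))
    (B : Fin k → Finset ℕ) (hB : ∀ i, P512.Conn G (B i)) (hU : ∀ i, B i ⊆ U)
    (hd : ∀ i j, i ≠ j → Disjoint (B i) (B j))
    (hadj : ∀ i j, H.Adj i j → ∃ u ∈ B i, ∃ v ∈ B j, G.Adj u v) : MacK H := by
  classical
  obtain ⟨n, F, hF, hF2, hspan⟩ := hM
  have hp : ∃ p : Fin k → Fin k → ℕ, ∀ i j, H.Adj i j → p i j ∈ B i ∧ G.Adj (p i j) (p j i) := by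
    choose u hu v hv huv using hadj
    refine ⟨fun i j => if h : H.Adj i j then (if i < j then u i j h else v j i h.symm) else 0,
      fun i j h => ?_⟩
    have h' := h.symm
    rcases lt_trichotomy i j with hij | hij | hij
    · have hji : ¬ j < i := not_lt.2 hij.le
      simp only [h, h', dif_pos, if_pos hij, if_neg hji]
      exact ⟨hu i j h, huv i j h⟩
    · exact absurd hij h.ne
    · have hji : ¬ i < j := not_lt.2 hij.le
      simp only [h, h', dif_pos, if_pos hij, if_neg hji]
      exact ⟨hv j i h', (huv j i h').symm⟩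
  obtain ⟨p, hp⟩ := hp
  obtain ⟨m, S', h1, h2, h3⟩ := minor2 (fun (i : Fin n) (e : ℕ × ℕ) => F i e.1 e.2)
    (fun e => by
      have := hF2 e.1 e.2
      convert this)
    {e : ℕ × ℕ | (¬ ∃ i j, H.Adj i j ∧ e.1 = p i j ∧ e.2 = p j i) ∧ ¬ ∃ i, e.1 ∈ B i ∧ e.2 ∈ B i}
  refine ⟨m, fun j a b => if H.Adj a b then ∑ i ∈ S' j, F i (p a b) (p b a) else 0,
    fun j => ?_, fun a b => ?_, fun z' hz' => ?_⟩
  · exact QModAux.contract (G := G) (U := U) (z := fun x y => ∑ i ∈ S' j, F i x y) hU hd hp
      (QModAux.cyc_sum hF (S' j)) (fun x y hx hy => h1 j (x, y) ⟨hx, hy⟩)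
  · by_cases h : H.Adj a b
    · simp only [if_pos h]
      have := h2 (p a b, p b a)
      convert this
    · simp only [if_neg h]
      simp
  · obtain ⟨z, hz, hz0, hzv⟩ := QModAux.expand hU hB hd hp hz'
    obtain ⟨S, hS⟩ := hspan z hz
    obtain ⟨T, hT⟩ := h3 S (by
      rintro ⟨x, y⟩ ⟨hx, hy⟩
      show ∑ i ∈ S, F i x y = 0
      rw [← hS]
      exact hz0 x y hx hy)
    refine ⟨T, fun a b => ?_⟩
    by_cases h : H.Adj a b
    · simp only [if_pos h]
      rw [← hzv a b h, hS]
      exact hT (p a b, p b a)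
    · simp only [if_neg h, Finset.sum_const_zero]
      by_contra h'
      exact h (hz'.supp a b h')

end K5
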