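import Pool.Agent.Lib.K5.Rel

/-!
# K5.Rel2: relabelling, networks and rooted graphs

Unfold the structures and use `rg_adj`, `conn_rg`, `free_rg`, `on_rg`, `three_rg`; sets: `rl σ (insert s (insert t U)) = insert (σ s) (insert (σ t) (rl σ U))`, `rl σ (U.erase v) = (rl σ U).erase (σ v)`; graphs: `rg σ (G ⊔ clq X) = rg σ G ⊔ clq (rl σ X)`,
`rg σ (rst G S) = rst (rg σ G) (rl σ S)`, `rg σ (G.deleteEdges {s(s, t)}) = (rg σ G).deleteEdges {s(σ s, σ t)}`. Every subset of `rl σ U` is `rl σ P` with `P ⊆ U`.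
-/

namespace K5

open Finset

variable (σ : Equiv.Perm ℕ)

namespace Rel2Aux

open RelAux

theorem rl_insert (U : Finset ℕ) (v : ℕ) : rl σ (insert v U) = insert (σ v) (rl σ U) := by
  ext a
  rw [mem_rl, Finset.mem_insert, Finset.mem_insert, mem_rl]
  refine or_congr_left ?_
  constructor
  · intro h
    rw [← h]
    simp
  · intro h
    rw [h]
    simp

theorem rl_union (U V : Finset ℕ) : rl σ (U ∪ V) = rl σ U ∪ rl σ V := by
  ext a
  simp only [mem_rl, Finset.mem_union]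

theorem rl_St (s t : ℕ) (U : Finset ℕ) : rl σ (St s t U) = St (σ s) (σ t) (rl σ U) := by
  rw [rl_insert, rl_insert]

theorem rg_del (G : Gr) (s t : ℕ) :
    rg σ (G.deleteEdges {s(s, t)}) = (rg σ G).deleteEdges {s(σ s, σ t)} := by
  ext a b
  rw [rg_adj', SimpleGraph.deleteEdges_adj, SimpleGraph.deleteEdges_adj, rg_adj']
  refine and_congr_right fun _ => ?_
  rw [Set.mem_singleton_iff, Set.mem_singleton_iff, not_iff_not, Sym2.eq_iff, Sym2.eq_iff]
  constructor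
  · rintro (⟨h1, h2⟩ | ⟨h1, h2⟩)
    · left; rw [← h1, ← h2]; simp
    · right; rw [← h1, ← h2]; simp
  · rintro (⟨h1, h2⟩ | ⟨h1, h2⟩)
    · left; rw [h1, h2]; simp
    · right; rw [h1, h2]; simp

theorem rg_clq (X : Finset ℕ) : rg σ (clq X) = clq (rl σ X) := by
  ext a b
  rw [rg_adj']
  show (σ⁻¹ a ≠ σ⁻¹ b ∧ σ⁻¹ a ∈ X ∧ σ⁻¹ b ∈ X) ↔ (a ≠ b ∧ a ∈ rl σ X ∧ b ∈ rl σ X)
  rw [mem_rl, mem_rl]
  refine and_congr_left fun _ => ?_
  exact (σ⁻¹).injective.ne_iff

theorem rg_sup (G H : Gr) : rg σ (G ⊔ H) = rg σ G ⊔ rg σ H := by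
  ext a b
  rw [rg_adj', SimpleGraph.sup_adj, SimpleGraph.sup_adj, rg_adj', rg_adj']

theorem rg_rst (G : Gr) (S : Finset ℕ) : rg σ (rst G S) = rst (rg σ G) (rl σ S) := by
  ext a b
  rw [rg_adj']
  show (G.Adj (σ⁻¹ a) (σ⁻¹ b) ∧ σ⁻¹ a ∈ S ∧ σ⁻¹ b ∈ S) ↔
    ((rg σ G).Adj a b ∧ a ∈ rl σ S ∧ b ∈ rl σ S)
  rw [mem_rl, mem_rl, rg_adj']

theorem rg_le (G H : Gr) : rg σ G ≤ rg σ H ↔ G ≤ H := by
  constructor
  · intro h a b hab
    exact (rg_adj σ).mp (h ((rg_adj σ).mpr hab))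
  · intro h a b hab
    rw [rg_adj'] at hab ⊢
    exact h hab

theorem blk_rg {G : Gr} {U : Finset ℕ} : Blk (rg σ G) (rl σ U) ↔ Blk G U := by
  unfold Blk
  rw [rl_card, conn_rg]
  refine and_congr_right fun _ => and_congr_right fun _ => ?_
  constructor
  · intro h v hv
    have := h (σ v) ((apply_mem_rl σ).mpr hv)
    rwa [← rl_erase, conn_rg] at this
  · intro h v hv
    rw [mem_rl] at hv
    have := h _ hv
    rw [← conn_rg σ, rl_erase] at this
    simpa using this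

theorem all_rl {U : Finset ℕ} {p : ℕ → Prop} : (∀ a ∈ rl σ U, p a) ↔ ∀ a ∈ U, p (σ a) := by
  constructor
  · intro h a ha
    exact h _ ((apply_mem_rl σ).mpr ha)
  · intro h a ha
    rw [mem_rl] at ha
    have := h _ ha
    simpa using this

end Rel2Aux

open RelAux Rel2Aux

theorem net_rg {s t : ℕ} {U : Finset ℕ} {G : Gr} :
    Net (σ s) (σ t) (rl σ U) (rg σ G) ↔ Net s t U G := by
  constructor
  · intro h
    exact ⟨fun e => h.ne (by rw [e]), fun e => h.hs ((apply_mem_rl σ).mpr e),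
      fun e => h.ht ((apply_mem_rl σ).mpr e), (on_rg σ).mp (by rw [rl_St]; exact h.on),
      (rg_adj σ).mp h.adj, (blk_rg σ).mp (by rw [rl_St]; exact h.blk), (free_rg σ).mp h.free⟩
  · intro h
    exact ⟨fun e => h.ne (σ.injective e), fun e => h.hs ((apply_mem_rl σ).mp e),
      fun e => h.ht ((apply_mem_rl σ).mp e), by rw [← rl_St]; exact (on_rg σ).mpr h.on,
      (rg_adj σ).mpr h.adj, by rw [← rl_St]; exact (blk_rg σ).mpr h.blk, (free_rg σ).mpr h.free⟩

theorem piece_rg {s t : ℕ} {U : Finset ℕ} {G : Gr} :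
    Piece (σ s) (σ t) (rl σ U) (rg σ G) ↔ Piece s t U G := by
  constructor
  · intro h
    exact ⟨(net_rg σ).mp h.net, (conn_rg σ).mp h.conn⟩
  · intro h
    exact ⟨(net_rg σ).mpr h.net, (conn_rg σ).mpr h.conn⟩

theorem series_rg {s t : ℕ} {U : Finset ℕ} {G : Gr} :
    Series (σ s) (σ t) (rl σ U) (rg σ G) ↔ Series s t U G := by
  constructor
  · intro h
    refine ⟨(piece_rg σ).mp h.piece, ?_⟩
    obtain ⟨c, hc, hcut⟩ := h.cut
    refine ⟨σ⁻¹ c, (mem_rl σ).mp hc, fun hco => hcut ?_⟩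
    rw [← conn_rg σ, rl_erase, rl_St, rg_del] at hco
    simpa using hco
  · intro h
    refine ⟨(piece_rg σ).mpr h.piece, ?_⟩
    obtain ⟨c, hc, hcut⟩ := h.cut
    refine ⟨σ c, (apply_mem_rl σ).mpr hc, fun hco => hcut ?_⟩
    rwa [← rl_St, ← rl_erase, ← rg_del, conn_rg] at hco

theorem core_rg {s t : ℕ} {U : Finset ℕ} {G : Gr} :
    Core (σ s) (σ t) (rl σ U) (rg σ G) ↔ Core s t U G := by
  constructor
  · intro h
    exact ⟨fun e => h.ne (by rw [e]), fun e => h.hs ((apply_mem_rl σ).mpr e),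
      fun e => h.ht ((apply_mem_rl σ).mpr e), (on_rg σ).mp (by rw [rl_St]; exact h.on),
      (rg_adj σ).mp h.adj, (three_rg σ).mp (by rw [rl_St]; exact h.three), (free_rg σ).mp h.free⟩
  · intro h
    exact ⟨fun e => h.ne (σ.injective e), fun e => h.hs ((apply_mem_rl σ).mp e),
      fun e => h.ht ((apply_mem_rl σ).mp e), by rw [← rl_St]; exact (on_rg σ).mpr h.on,
      (rg_adj σ).mpr h.adj, by rw [← rl_St]; exact (three_rg σ).mpr h.three, (free_rg σ).mpr h.free⟩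

theorem rtd_rg {R U : Finset ℕ} {G : Gr} : Rtd (rl σ R) (rl σ U) (rg σ G) ↔ Rtd R U G := by
  constructor
  · intro h
    exact ⟨(rl_disj σ).mp h.disj, (on_rg σ).mp (by rw [rl_union]; exact h.on),
      (rg_le σ _ _).mp (by rw [rg_clq]; exact h.clique),
      (three_rg σ).mp (by rw [rl_union]; exact h.three), (free_rg σ).mp h.free,
      h.root.imp (fun h => by rwa [rl_card] at h) (fun h => by rwa [rl_card, conn_rg] at h)⟩
  · intro h
    exact ⟨(rl_disj σ).mpr h.disj, by rw [← rl_union]; exact (on_rg σ).mpr h.on,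
      by rw [← rg_clq]; exact (rg_le σ _ _).mpr h.clique,
      by rw [← rl_union]; exact (three_rg σ).mpr h.three, (free_rg σ).mpr h.free,
      h.root.imp (fun h => by rwa [rl_card]) (fun h => by rwa [rl_card, conn_rg])⟩

theorem isComp_rg {G : Gr} {U C : Finset ℕ} :
    IsComp (rg σ G) (rl σ U) (rl σ C) ↔ IsComp G U C := by
  unfold IsComp
  rw [rl_subset, conn_rg, all_rl]
  refine and_congr_right fun _ => and_congr_right fun _ => ?_
  constructor
  · intro h a ha b hb hbC hab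
    exact h a ha (σ b) ((apply_mem_rl σ).mpr hb) (fun e => hbC ((apply_mem_rl σ).mp e))
      ((rg_adj σ).mpr hab)
  · intro h a ha
    rw [all_rl]
    intro b hb hbC hab
    exact h a ha b hb (fun e => hbC ((apply_mem_rl σ).mpr e)) ((rg_adj σ).mp hab)

theorem branch_rg {R U : Finset ℕ} {G : Gr} :
    Branch (rl σ R) (rl σ U) (rg σ G) ↔ Branch R U G := by
  have hno : (∀ a ∈ rl σ R, ∀ b ∈ rl σ R, ¬ (rg σ G).Adj a b) ↔ ∀ a ∈ R, ∀ b ∈ R, ¬ G.Adj a b := by
    rw [all_rl]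
    refine forall₂_congr fun a _ => ?_
    rw [all_rl]
    refine forall₂_congr fun b _ => ?_
    rw [rg_adj]
  have e : rg σ G ⊔ clq (rl σ R) = rg σ (G ⊔ clq R) := by rw [rg_sup, rg_clq]
  constructor
  · intro h
    have h3 := h.rtd
    rw [e, rtd_rg] at h3
    have h1 := h.card
    rw [rl_card] at h1
    exact ⟨h1, hno.mp h.noX, h3⟩
  · intro h
    refine ⟨by rw [rl_card]; exact h.card, hno.mpr h.noX, ?_⟩
    rw [e, rtd_rg]
    exact h.rtd

theorem tstr_rg {R U : Finset ℕ} {G : Gr} : TStr (rl σ R) (rl σ U) (rg σ G) ↔ TStr R U G := by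
  have hno : (∀ a ∈ rl σ R, ∀ b ∈ rl σ R, ¬ (rg σ G).Adj a b) ↔ ∀ a ∈ R, ∀ b ∈ R, ¬ G.Adj a b := by
    rw [all_rl]
    refine forall₂_congr fun a _ => ?_
    rw [all_rl]
    refine forall₂_congr fun b _ => ?_
    rw [rg_adj]
  constructor
  · intro h
    have h1 := h.card
    rw [rl_card] at h1
    refine ⟨h1, (rl_disj σ).mp h.disj, (on_rg σ).mp (by rw [rl_union]; exact h.on), hno.mp h.noX,
      (rl_nonempty σ).mp h.ne, fun e => h.nconn ((conn_rg σ).mpr e), fun C hC => ?_⟩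
    have := h.branch (rl σ C) ((isComp_rg σ).mpr hC)
    rwa [← rl_union, ← rg_rst, branch_rg] at this
  · intro h
    refine ⟨by rw [rl_card]; exact h.card, (rl_disj σ).mpr h.disj,
      by rw [← rl_union]; exact (on_rg σ).mpr h.on, hno.mpr h.noX,
      (rl_nonempty σ).mpr h.ne, fun e => h.nconn ((conn_rg σ).mp e), fun C hC => ?_⟩
    have e : rl σ (rl σ⁻¹ C) = C := rl_inv' σ C
    rw [← e, isComp_rg] at hC
    have := h.branch _ hC
    rw [← branch_rg σ, rg_rst, rl_union, e] at this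
    exact this

end K5
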