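import Pool.Agent.Lib.K5.SerA
import Pool.Agent.Lib.K5.PartN

/-!
# K5.SerE: every series piece has a series code

Among all pairs `(c, P)` with `CutP s t U G c P` (there is one by `cutP_of_not_conn`) choose one with `P.card` minimal. `Q = (W.erase c) \ P` (contains `t`, not `s`). `A1 = P.erase s`, `A2 = Q.erase t`, `G1 = partG G s c A1`, `G2 = partG G c t A2`,
`b1 = decide (G.Adj s c)`, `b2 = decide (G.Adj c t)`.
1. `part_net_left`: `Net s c A1 (partG G s c A1)`. `Blk` as in `K5.PartN`: a proper nonempty closed subset (in `partG`, after deleting at most one vertex `x`) or its complement is contained in `A1` (the edge `sc` is present), and its boundary in `G` is contained in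
   `{x}` because edges of `G` from `A1 ⊆ P ∩ U` end in `P ∪ {c}`: contradiction to `Net.two_le_bd`. `Free`: `free_add_edge` with `S = St s c A1`, `R = Q` (`CutP.conn_right`), joined to `s` by `st`, joined to `c` by `CutP.adj_c`.
   `part_net_right`: `Net c t A2 (partG G c t A2)`, `R = P`.
2. `e1`: if `A1 = ∅` then `P = {s}` and `CutP.adj_c` gives `G.Adj s c`. `e2` the same.
3. `nser`: if `sc` is not an edge of `G` and `Series s c A1 G1`: there is `c' ∈ A1` with `¬ Conn (G1 - sc) ((St s c A1).erase c')`; `cutP_of_not_conn` for the network `G1` gives `P'` with `s ∈ P'`, `c ∉ P'`; then `CutP s t U G c' P'` (an edge of `G` other than `st` from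
   `P' ⊆ P` ends in `P ∪ {c}`, so it is an edge of `G1 - sc`), and `P' ⊆ P.erase c'` is smaller: contradiction to minimality.
4. `comp = G`: an edge of `G` other than `st` has both ends in `P ∪ {c}` or both in `Q ∪ {c}` (closedness).
-/

namespace K5

open Finset

namespace SerEAux

/-- Blocks with an additional edge. -/
theorem part_blk {G : Gr} {W A : Finset ℕ} {u v : ℕ} (huv : u ≠ v)
    (hbd : ∀ I ⊆ A, I.Nonempty → 2 ≤ (bd G W I).card)
    (hcl : ∀ a ∈ A, ∀ b ∈ W, G.Adj a b → b ∈ St u v A) :
    Blk (partG G u v A) (St u v A) := by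
  have key : ∀ (x : ℕ) (S : Finset ℕ), S ⊆ St u v A → (St u v A).erase x ⊆ S →
      P512.Conn (partG G u v A) S := by
    intro x S hS hxS
    have hu : u = x ∨ u ∈ S := by
      by_cases h : u = x
      · exact Or.inl h
      · exact Or.inr (hxS (mem_erase.2 ⟨h, mem_insert_self _ _⟩))
    have hv : v = x ∨ v ∈ S := by
      by_cases h : v = x
      · exact Or.inl h
      · exact Or.inr (hxS (mem_erase.2 ⟨h, mem_insert_of_mem (mem_insert_self _ _)⟩))
    refine ⟨?_, ?_⟩
    · rcases hu with hu | hu
      · rcases hv with hv | hv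
        · exact absurd (hu.trans hv.symm) huv
        · exact ⟨v, hv⟩
      · exact ⟨u, hu⟩
    · intro P hP hne hPS
      by_contra hno
      push Not at hno
      -- a nonempty part without edges to the other part is not inside `A`
      have hpart : ∀ R R' : Finset ℕ, R ⊆ A → R.Nonempty → (∀ z ∈ S, z ∈ R ∨ z ∈ R') →
          (∀ a ∈ R, ∀ b ∈ R', ¬ (partG G u v A).Adj a b) → False := by
        intro R R' hRA hRne hcov hedge
        have h1 := hbd R hRA hRne
        have h2 : bd G W R ⊆ {x} := by
          intro w hw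
          rw [mem_bd] at hw
          obtain ⟨⟨hwW, hwR⟩, i, hi, hiw⟩ := hw
          rw [mem_singleton]
          by_contra hwx
          have hwSt := hcl i (hRA hi) w hwW hiw
          have hwS : w ∈ S := hxS (mem_erase.2 ⟨hwx, hwSt⟩)
          rcases hcov w hwS with h | h
          · exact hwR h
          · exact hedge i hi w h ⟨hiw.ne, mem_insert_of_mem (mem_insert_of_mem (hRA hi)), hwSt, Or.inl hiw⟩
        have h3 := card_le_card h2
        rw [card_singleton] at h3
        omega
      have hSA : ∀ z ∈ S, z ≠ u → z ≠ v → z ∈ A := by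
        intro z hz hzu hzv
        have := hS hz
        rw [mem_insert, mem_insert] at this
        rcases this with h | h | h
        · exact absurd h hzu
        · exact absurd h hzv
        · exact h
      have huvP : u ∈ S → v ∈ S → (u ∈ P ↔ v ∈ P) := by
        intro huS hvS
        constructor
        · intro h
          by_contra h'
          exact hno u h v hvS h' ⟨huv, mem_insert_self _ _, mem_insert_of_mem (mem_insert_self _ _), Or.inr rfl⟩
        · intro h
          by_contra h'
          exact hno v h u huS h' ⟨huv.symm, mem_insert_of_mem (mem_insert_self _ _), mem_insert_self _ _,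
            Or.inr Sym2.eq_swap⟩
      -- `P` contains a pole or not
      by_cases hpole : u ∈ P ∨ v ∈ P
      · -- the complement has no pole
        refine hpart (S \ P) P ?_ ?_ ?_ ?_
        · intro z hz
          rw [mem_sdiff] at hz
          refine hSA z hz.1 ?_ ?_
          · rintro rfl
            rcases hpole with h | h
            · exact hz.2 h
            · exact hz.2 ((huvP hz.1 (hP h)).2 h)
          · rintro rfl
            rcases hpole with h | h
            · exact hz.2 ((huvP (hP h) hz.1).1 h)
            · exact hz.2 h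
        · rw [sdiff_nonempty]
          intro h
          exact hPS (Subset.antisymm hP h)
        · intro z hz
          by_cases h : z ∈ P
          · exact Or.inr h
          · exact Or.inl (mem_sdiff.2 ⟨hz, h⟩)
        · intro a ha b hb hab
          rw [mem_sdiff] at ha
          exact hno b hb a ha.1 ha.2 (SimpleGraph.Adj.symm hab)
      · push Not at hpole
        refine hpart P (S \ P) ?_ hne ?_ ?_
        · intro z hz
          exact hSA z (hP hz) (fun h => hpole.1 (h ▸ hz)) (fun h => hpole.2 (h ▸ hz))
        · intro z hz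
          by_cases h : z ∈ P
          · exact Or.inl h
          · exact Or.inr (mem_sdiff.2 ⟨hz, h⟩)
        · intro a ha b hb
          rw [mem_sdiff] at hb
          exact hno a ha b hb.1 hb.2
  refine ⟨?_, key u _ (Subset.refl _) (erase_subset _ _), fun x _ => key x _ (erase_subset _ _) (Subset.refl _)⟩
  have h1 : ({u, v} : Finset ℕ) ⊆ St u v A := by
    intro z hz
    rw [mem_insert, mem_singleton] at hz
    rcases hz with rfl | rfl
    · exact mem_insert_self _ _
    · exact mem_insert_of_mem (mem_insert_self _ _)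
  calc 2 = ({u, v} : Finset ℕ).card := (card_pair huv).symm
    _ ≤ _ := card_le_card h1

theorem part_on (G : Gr) (u v : ℕ) (A : Finset ℕ) : On (partG G u v A) (St u v A) :=
  fun _ _ h => h.2.1

theorem part_adj {G : Gr} {u v : ℕ} {A : Finset ℕ} (huv : u ≠ v) : (partG G u v A).Adj u v :=
  ⟨huv, mem_insert_self _ _, mem_insert_of_mem (mem_insert_self _ _), Or.inr rfl⟩

theorem part_le {G : Gr} {u v : ℕ} {A : Finset ℕ} (a b : ℕ) (h : (partG G u v A).Adj a b) :
    G.Adj a b ∨ s(a, b) = s(u, v) := h.2.2.2

end SerEAux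

open SerEAux in
theorem Series.exists_code {s t : ℕ} {U : Finset ℕ} {G : Gr} (h : Series s t U G) :
    ∃ d : SCode, d.Valid s t U ∧ d.comp s t = G := by
  classical
  have hnet : Net s t U G := h.piece.net
  obtain ⟨c0, hc0, hcut0⟩ := h.cut
  obtain ⟨P0, hP0⟩ := cutP_of_not_conn hnet hc0 hcut0
  have hex : ∃ n, ∃ c P, CutP s t U G c P ∧ P.card = n := ⟨_, c0, P0, hP0, rfl⟩
  obtain ⟨c, P, hCP, hcard⟩ := Nat.find_spec hex
  have hmin : ∀ c' P', CutP s t U G c' P' → P.card ≤ P'.card := by
    intro c' P' h'
    rw [hcard]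
    exact Nat.find_min' hex ⟨c', P', h', rfl⟩
  clear hcard
  have hcU := hCP.cU
  have hsc : s ≠ c := fun h => hnet.hs (h ▸ hcU)
  have htc : t ≠ c := fun h => hnet.ht (h ▸ hcU)
  have hst := hnet.ne
  have hmemW : ∀ z, z ∈ St s t U ↔ z = s ∨ z = t ∨ z ∈ U := fun z => by
    rw [mem_insert, mem_insert]
  obtain ⟨Q, hQ⟩ : ∃ Q, Q = (St s t U).erase c \ P := ⟨_, rfl⟩
  have hQmem : ∀ z, z ∈ Q ↔ (z ≠ c ∧ z ∈ St s t U) ∧ z ∉ P := fun z => by
    rw [hQ, mem_sdiff, mem_erase]
  have htQ : t ∈ Q := (hQmem t).2 ⟨⟨htc, (hmemW t).2 (Or.inr (Or.inl rfl))⟩, hCP.ht⟩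
  have hPW : ∀ z ∈ P, z ≠ c ∧ z ∈ St s t U := fun z hz => mem_erase.1 (hCP.sub hz)
  have hA1U : P.erase s ⊆ U := by
    intro z hz
    rw [mem_erase] at hz
    have h1 := (hmemW z).1 (hPW z hz.2).2
    rcases h1 with h1 | h1 | h1
    · exact absurd h1 hz.1
    · exact absurd (h1 ▸ hz.2) hCP.ht
    · exact h1
  have hA2U : Q.erase t ⊆ U := by
    intro z hz
    rw [mem_erase, hQmem] at hz
    have h1 := (hmemW z).1 hz.2.1.2
    rcases h1 with h1 | h1 | h1
    · exact absurd hCP.hs (h1 ▸ hz.2.2)
    · exact absurd h1 hz.1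
    · exact h1
  have hUW : U ⊆ St s t U := fun z hz => (hmemW z).2 (Or.inr (Or.inr hz))
  -- closedness
  have hclP : ∀ a ∈ P, ∀ b ∈ St s t U, G.Adj a b → s(a, b) ≠ s(s, t) → b = c ∨ b ∈ P := by
    intro a ha b hb hab hne
    by_contra hno
    push Not at hno
    exact hne (hCP.closed a ha b (mem_erase.2 ⟨hno.1, hb⟩) hno.2 hab)
  have hclQ : ∀ a ∈ Q, ∀ b ∈ St s t U, G.Adj a b → s(a, b) ≠ s(s, t) → b = c ∨ b ∈ Q := by
    intro a ha b hb hab hne
    by_contra hno
    push Not at hno
    have hbP : b ∈ P := by
      by_contra hbP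
      exact hno.2 ((hQmem b).2 ⟨⟨hno.1, hb⟩, hbP⟩)
    rw [hQmem] at ha
    have h1 := hCP.closed b hbP a (mem_erase.2 ha.1) ha.2 hab.symm
    rw [Sym2.eq_swap] at h1
    exact hne h1
  have hmem1 : ∀ z, z ∈ St s c (P.erase s) ↔ z ∈ P ∨ z = c := by
    intro z
    rw [mem_insert, mem_insert, mem_erase]
    constructor
    · rintro (h1 | h1 | h1)
      · exact Or.inl (h1 ▸ hCP.hs)
      · exact Or.inr h1
      · exact Or.inl h1.2
    · rintro (h1 | h1)
      · by_cases h2 : z = s
        · exact Or.inl h2
        · exact Or.inr (Or.inr ⟨h2, h1⟩)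
      · exact Or.inr (Or.inl h1)
  have hmem2 : ∀ z, z ∈ St c t (Q.erase t) ↔ z ∈ Q ∨ z = c := by
    intro z
    rw [mem_insert, mem_insert, mem_erase]
    constructor
    · rintro (h1 | h1 | h1)
      · exact Or.inr h1
      · exact Or.inl (h1 ▸ htQ)
      · exact Or.inl h1.2
    · rintro (h1 | h1)
      · by_cases h2 : z = t
        · exact Or.inr (Or.inl h2)
        · exact Or.inr (Or.inr ⟨h2, h1⟩)
      · exact Or.inl h1
  have hsym : ∀ {a b x y : ℕ}, s(a, b) = s(x, y) → (a = x ∧ b = y) ∨ (a = y ∧ b = x) := fun h =>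
    Sym2.eq_iff.1 h
  -- the two networks
  have hnet1 : Net s c (P.erase s) (partG G s c (P.erase s)) := by
    refine ⟨hsc, fun h1 => (mem_erase.1 h1).1 rfl, fun h1 => (hPW c (mem_erase.1 h1).2).1 rfl,
      part_on _ _ _ _, part_adj hsc, ?_, ?_⟩
    · refine part_blk (W := St s t U) hsc
        (fun I hI hne => hnet.two_le_bd (hI.trans hA1U) hne) ?_
      intro a ha b hb hab
      rw [mem_erase] at ha
      rw [hmem1]
      have h1 := hclP a ha.2 b hb hab (by
        intro h2
        rcases hsym h2 with h2 | h2
        · exact ha.1 h2.1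
        · exact hCP.ht (h2.1 ▸ ha.2))
      exact h1.symm
    · refine free_add_edge hnet.free (S := St s c (P.erase s)) (R := Q) (u := s) (v := c)
        (mem_insert_self _ _) (mem_insert_of_mem (mem_insert_self _ _)) hsc (hQ ▸ hCP.conn_right hnet) ?_
        ⟨t, htQ, hnet.adj.symm⟩ (hQ ▸ (hCP.adj_c hnet).2) (part_on _ _ _ _) part_le
      rw [disjoint_left]
      intro z hz hz1
      rw [hQmem] at hz
      rw [hmem1] at hz1
      rcases hz1 with h1 | h1
      · exact hz.2 h1
      · exact hz.1.1 h1
  have hnet2 : Net c t (Q.erase t) (partG G c t (Q.erase t)) := by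
    refine ⟨htc.symm, fun h1 => ((hQmem c).1 (mem_erase.1 h1).2).1.1 rfl, fun h1 => (mem_erase.1 h1).1 rfl,
      part_on _ _ _ _, part_adj htc.symm, ?_, ?_⟩
    · refine part_blk (W := St s t U) htc.symm
        (fun I hI hne => hnet.two_le_bd (hI.trans hA2U) hne) ?_
      intro a ha b hb hab
      rw [mem_erase] at ha
      rw [hmem2]
      have h1 := hclQ a ha.2 b hb hab (by
        intro h2
        rcases hsym h2 with h2 | h2
        · exact ((hQmem a).1 ha.2).2 (h2.1 ▸ hCP.hs)
        · exact ha.1 h2.1)
      exact h1.symm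
    · refine free_add_edge hnet.free (S := St c t (Q.erase t)) (R := P) (u := c) (v := t)
        (mem_insert_self _ _) (mem_insert_of_mem (mem_insert_self _ _)) htc.symm (hCP.conn_left hnet) ?_
        (hCP.adj_c hnet).1 ⟨s, hCP.hs, hnet.adj⟩ (part_on _ _ _ _) part_le
      rw [disjoint_left]
      intro z hz hz1
      rw [hmem2, hQmem] at hz1
      rcases hz1 with h1 | h1
      · exact h1.2 hz
      · exact (hPW z hz).1 h1
  refine ⟨⟨c, P.erase s, Q.erase t, partG G s c (P.erase s), partG G c t (Q.erase t),
    decide (G.Adj s c), decide (G.Adj c t)⟩, ?_, ?_⟩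
  · refine ⟨hst, hnet.hs, hnet.ht, ?_, ?_, hnet1.ht, hnet2.hs, hnet1, hnet2, ?_, ?_, ?_⟩
    · -- the partition
      ext z
      rw [mem_insert, mem_union]
      show z ∈ U ↔ z = c ∨ z ∈ P.erase s ∨ z ∈ Q.erase t
      rw [mem_erase, mem_erase, hQmem]
      constructor
      · intro hz
        by_cases h1 : z = c
        · exact Or.inl h1
        · right
          by_cases h2 : z ∈ P
          · left
            exact ⟨fun h3 => hnet.hs (h3 ▸ hz), h2⟩
          · right
            exact ⟨fun h3 => hnet.ht (h3 ▸ hz), ⟨h1, hUW hz⟩, h2⟩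
      · rintro (h1 | h1 | h1)
        · exact h1 ▸ hcU
        · exact hA1U (mem_erase.2 h1)
        · exact hA2U (mem_erase.2 ⟨h1.1, (hQmem z).2 h1.2⟩)
    · rw [disjoint_left]
      intro z hz hz2
      rw [mem_erase] at hz hz2
      exact ((hQmem z).1 hz2.2).2 hz.2
    · intro hA
      obtain ⟨a, ha, hac⟩ := (hCP.adj_c hnet).1
      have h1 : a = s := by
        by_contra h2
        have : a ∈ P.erase s := mem_erase.2 ⟨h2, ha⟩
        have hA' : P.erase s = ∅ := hA
        rw [hA'] at this
        exact notMem_empty _ this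
      subst h1
      exact decide_eq_true hac
    · intro hA
      obtain ⟨a, ha, hac⟩ := (hCP.adj_c hnet).2
      rw [← hQ] at ha
      have h1 : a = t := by
        by_contra h2
        have : a ∈ Q.erase t := mem_erase.2 ⟨h2, ha⟩
        have hA' : Q.erase t = ∅ := hA
        rw [hA'] at this
        exact notMem_empty _ this
      subst h1
      exact decide_eq_true hac.symm
    · -- minimality
      by_cases hadj : G.Adj s c
      · exact Or.inl (decide_eq_true hadj)
      · right
        intro hser
        have hser' : Series s c (P.erase s) (partG G s c (P.erase s)) := hser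
        obtain ⟨c', hc', hcut'⟩ := hser'.cut
        obtain ⟨P', hP'⟩ := cutP_of_not_conn hnet1 hc' hcut'
        have hP'mem : ∀ z ∈ P', z ≠ c' ∧ z ∈ P := by
          intro z hz
          have h1 := mem_erase.1 (hP'.sub hz)
          refine ⟨h1.1, ?_⟩
          rcases (hmem1 z).1 h1.2 with h2 | h2
          · exact h2
          · exact absurd hz (h2 ▸ hP'.ht)
        have hc'P : c' ∈ P := (mem_erase.1 hc').2
        have hlt : P'.card < P.card := by
          refine card_lt_card ⟨fun z hz => (hP'mem z hz).2, fun hsub => ?_⟩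
          exact (hP'mem c' (hsub hc'P)).1 rfl
        have hcut2 : CutP s t U G c' P' := by
          refine ⟨hA1U hc', ?_, hP'.hs, fun h1 => hCP.ht (hP'mem t h1).2, ?_⟩
          · intro z hz
            exact mem_erase.2 ⟨(hP'mem z hz).1, (hPW z (hP'mem z hz).2).2⟩
          · intro a ha b hb hbP' hab
            rw [mem_erase] at hb
            by_contra hne
            have h1 := hclP a (hP'mem a ha).2 b hb.2 hab hne
            have hb1 : b ∈ St s c (P.erase s) := (hmem1 b).2 h1.symm
            have ha1 : a ∈ St s c (P.erase s) := (hmem1 a).2 (Or.inl (hP'mem a ha).2)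
            have h2 := hP'.closed a ha b (mem_erase.2 ⟨hb.1, hb1⟩) hbP' ⟨hab.ne, ha1, hb1, Or.inl hab⟩
            rcases hsym h2 with h3 | h3
            · rw [h3.1, h3.2] at hab
              exact hadj hab
            · rw [h3.1, h3.2] at hab
              exact hadj hab.symm
        have := hmin c' P' hcut2
        omega
  · -- the composition is `G`
    ext a b
    constructor
    · rintro ⟨hab, h1 | ⟨h1, h2⟩ | ⟨h1, h2⟩ | ⟨h1, h2⟩ | ⟨h1, h2⟩⟩
      · rcases hsym h1 with h3 | h3
        · rw [h3.1, h3.2]; exact hnet.adj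
        · rw [h3.1, h3.2]; exact hnet.adj.symm
      · have h4 : G.Adj s c := of_decide_eq_true h2
        rcases hsym h1 with h3 | h3
        · rw [h3.1, h3.2]; exact h4
        · rw [h3.1, h3.2]; exact h4.symm
      · have h4 : G.Adj c t := of_decide_eq_true h2
        rcases hsym h1 with h3 | h3
        · rw [h3.1, h3.2]; exact h4
        · rw [h3.1, h3.2]; exact h4.symm
      · rcases part_le a b h1 with h3 | h3
        · exact h3
        · exact absurd h3 h2
      · rcases part_le a b h1 with h3 | h3
        · exact h3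
        · exact absurd h3 h2
    · intro hab
      have haW : a ∈ St s t U := hnet.on a b hab
      have hbW : b ∈ St s t U := hnet.on b a hab.symm
      refine ⟨hab.ne, ?_⟩
      by_cases h1 : s(a, b) = s(s, t)
      · exact Or.inl h1
      · right
        have hside : (a ∈ St s c (P.erase s) ∧ b ∈ St s c (P.erase s)) ∨
            (a ∈ St c t (Q.erase t) ∧ b ∈ St c t (Q.erase t)) := by
          rw [hmem1, hmem1, hmem2, hmem2]
          by_cases ha : a = c
          · by_cases hb : b ∈ P
            · exact Or.inl ⟨Or.inr ha, Or.inl hb⟩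
            · exact Or.inr ⟨Or.inr ha, Or.inl ((hQmem b).2 ⟨⟨fun h2 => hab.ne (ha.trans h2.symm), hbW⟩, hb⟩)⟩
          · by_cases haP : a ∈ P
            · exact Or.inl ⟨Or.inl haP, (hclP a haP b hbW hab h1).symm⟩
            · have haQ : a ∈ Q := (hQmem a).2 ⟨⟨ha, haW⟩, haP⟩
              exact Or.inr ⟨Or.inl haQ, (hclQ a haQ b hbW hab h1).symm⟩
        rcases hside with ⟨h2, h3⟩ | ⟨h2, h3⟩
        · by_cases h4 : s(a, b) = s(s, c)
          · left
            refine ⟨h4, decide_eq_true ?_⟩
            rcases hsym h4 with h5 | h5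
            · rw [h5.1, h5.2] at hab; exact hab
            · rw [h5.1, h5.2] at hab; exact hab.symm
          · right; right; left
            exact ⟨⟨hab.ne, h2, h3, Or.inl hab⟩, h4⟩
        · by_cases h4 : s(a, b) = s(c, t)
          · right; left
            refine ⟨h4, decide_eq_true ?_⟩
            rcases hsym h4 with h5 | h5
            · rw [h5.1, h5.2] at hab; exact hab
            · rw [h5.1, h5.2] at hab; exact hab.symm
          · right; right; right
            exact ⟨⟨hab.ne, h2, h3, Or.inl hab⟩, h4⟩

end K5
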