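import Pool.Agent.Lib.K5.SerDefs
import Pool.Agent.Lib.K5.Cross
import Pool.Agent.Lib.K5.Sum

/-!
# K5.SerS: the graph of a series code is a series piece

`G = d.comp s t`, `S1 = St s c A1`, `S2 = St c t A2`, `W = St s t U = S1 ∪ S2`. The edges of `G` inside `S1` are those of `G1` except `sc`, which is present iff `b1`; the same for `S2`.
(α) if `s ∈ P`, `c ∉ P` (or `s ∉ P`, `c ∈ P`) then an edge of `G` inside `S1`, not `st`, leaves `P`: if `A1 = ∅`, `b1 = true`; otherwise `Net.cross`. (β) the same for `S2` and `c, t`. (γ) if `P` meets `A1`, `s, c ∉ P`, then for every `x ∉ P` an edge of `G` joins `P ∩ A1` to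
`S1 \ (P ∪ {x})`: `Blk G1`, the edge is not `sc`. (δ) the same for `A2`.
1. `Conn G (W.erase x)` for all `x`: let `P` be proper, nonempty, closed. `x = c`: `s, t` on the same side (edge `st`), exchange sides so that `s, t ∉ P`; `P` meets `A1` or `A2`: (γ), (δ) with `x = c`. `x ∈ A1` or `x ∈ A2` or `x ∉ W`: `s, t` on the same side, and `c` too by
   (β) resp. (α) (for `x ∈ A1` use (β), otherwise (α)); exchange so that `s, t, c ∉ P`; (γ), (δ). `x = s`: `c, t` on the same side by (β), `P` meets `A1` or `A2`: (γ) with `x = s`, (δ). `x = t` the same.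
2. `Conn G U`: `U = {c} ∪ A1 ∪ A2`; exchange sides so that `c ∉ P`; (γ) with `x = s`, (δ) with `x = t`.
3. `Free`: `G ≤ G1 ⊔ clq {s, c, t} ⊔ G2`, `Free.sup` twice (`clq {s, c, t}` has three vertices: no `K_5` minor, five disjoint nonempty sets each with an edge to another one need five vertices with edges).
4. The cut: `{s} ∪ A1` is closed in `G - st` without `c`.
5. `cutP_comp`: `CutP s t U G c (insert s A1)`.
-/

namespace K5

open Finset

namespace SerSAux

/-- Connectivity from closed predicates. -/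
lemma conn_of {G : Gr} {X : Finset ℕ} (hX : X.Nonempty)
    (h : ∀ p : ℕ → Prop, (∀ a ∈ X, ∀ b ∈ X, G.Adj a b → (p a ↔ p b)) → ∃ r : Prop, ∀ a ∈ X, (p a ↔ r)) :
    P512.Conn G X := by
  refine ⟨hX, fun P hP hne hPX => ?_⟩
  by_contra hcon
  push Not at hcon
  obtain ⟨r, hr⟩ := h (· ∈ P) (fun a ha b hb hab => by
    constructor
    · intro haP
      by_contra hbP
      exact hcon a haP b hb hbP hab
    · intro hbP
      by_contra haP
      exact hcon b hbP a ha haP hab.symm)
  obtain ⟨q, hq⟩ := hne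
  have hr1 : r := (hr q (hP hq)).mp hq
  exact hPX (Finset.Subset.antisymm hP (fun a ha => (hr a ha).mpr hr1))

/-- Poles of a network are on the same side of a closed predicate. -/
lemma alpha {s c : ℕ} {A : Finset ℕ} {G1 : Gr} (hN : Net s c A G1) (p : ℕ → Prop)
    (h0 : A = ∅ → (p s ↔ p c))
    (hcl : ∀ a ∈ St s c A, ∀ b ∈ St s c A, G1.Adj a b → s(a, b) ≠ s(s, c) → (p a ↔ p b)) : p s ↔ p c := by
  classical
  rcases A.eq_empty_or_nonempty with hA | hA
  · exact h0 hA
  · have key : ∀ q : ℕ → Prop, (∀ a ∈ St s c A, ∀ b ∈ St s c A, G1.Adj a b → s(a, b) ≠ s(s, c) → (q a ↔ q b)) →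
        q s → q c := by
      intro q hq hs
      by_contra hc
      obtain ⟨a, ha, haP, b, hb, hbP, hab, he⟩ := hN.cross hA (P := (St s c A).filter q)
        (Finset.mem_filter.mpr ⟨by simp [St], hs⟩) (fun h => hc (Finset.mem_filter.mp h).2)
      exact hbP (Finset.mem_filter.mpr ⟨hb, (hq a ha b hb hab he).mp (Finset.mem_filter.mp haP).2⟩)
    refine ⟨key p hcl, fun hc => ?_⟩
    by_contra hs
    exact key (fun a => ¬ p a) (fun a ha b hb hab he => not_congr (hcl a ha b hb hab he)) hs hc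

/-- Interior vertices of a network for a closed predicate. -/
lemma inner {s c : ℕ} {A : Finset ℕ} {G1 : Gr} (hN : Net s c A G1) (x : ℕ) (p : ℕ → Prop)
    (hcl : ∀ a ∈ (St s c A).erase x, ∀ b ∈ (St s c A).erase x, G1.Adj a b → s(a, b) ≠ s(s, c) → (p a ↔ p b))
    (hs : s ≠ x → ¬ p s) (hc : c ≠ x → ¬ p c) : ∀ a ∈ A, a ≠ x → ¬ p a := by
  classical
  intro a ha hax hpa
  have hconn : P512.Conn G1 ((St s c A).erase x) := by
    by_cases hx : x ∈ St s c A
    · exact hN.blk.2.2 x hx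
    · rw [Finset.erase_eq_of_notMem hx]
      exact hN.blk.2.1
  obtain ⟨u, hu, v, hv, hvP, huv⟩ := hconn.2 (((St s c A).erase x).filter p) (Finset.filter_subset _ _)
    ⟨a, Finset.mem_filter.mpr ⟨Finset.mem_erase.mpr ⟨hax, by simp [St, ha]⟩, hpa⟩⟩ (by
      intro h
      by_cases hsx : s = x
      · have hcx : c ≠ x := fun h1 => hN.ne (hsx.trans h1.symm)
        have h1 : c ∈ (St s c A).erase x := Finset.mem_erase.mpr ⟨hcx, by simp [St]⟩
        rw [← h] at h1
        exact hc hcx (Finset.mem_filter.mp h1).2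
      · have h1 : s ∈ (St s c A).erase x := Finset.mem_erase.mpr ⟨hsx, by simp [St]⟩
        rw [← h] at h1
        exact hs hsx (Finset.mem_filter.mp h1).2)
  obtain ⟨hu1, hu2⟩ := Finset.mem_filter.mp hu
  have hux : u ≠ x := (Finset.mem_erase.mp hu1).1
  have hus : u ≠ s := by
    rintro rfl
    exact hs hux hu2
  have huc : u ≠ c := by
    rintro rfl
    exact hc hux hu2
  refine hvP (Finset.mem_filter.mpr ⟨hv, (hcl u hu1 v hv huv ?_).mp hu2⟩)
  intro he
  rcases Sym2.eq_iff.mp he with h1 | h1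
  · exact hus h1.1
  · exact huc h1.1

lemma inner' {s c : ℕ} {A : Finset ℕ} {G1 : Gr} (hN : Net s c A G1) (x : ℕ) (p : ℕ → Prop) (r : Prop)
    (hcl : ∀ a ∈ (St s c A).erase x, ∀ b ∈ (St s c A).erase x, G1.Adj a b → s(a, b) ≠ s(s, c) → (p a ↔ p b))
    (hs : s ≠ x → (p s ↔ r)) (hc : c ≠ x → (p c ↔ r)) : ∀ a ∈ A, a ≠ x → (p a ↔ r) := by
  intro a ha hax
  by_cases hr : r
  · have h1 := inner hN x (fun a => ¬ p a) (fun a ha b hb hab he => not_congr (hcl a ha b hb hab he))
      (fun h => not_not.mpr ((hs h).mpr hr)) (fun h => not_not.mpr ((hc h).mpr hr)) a ha hax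
    exact ⟨fun _ => hr, fun _ => not_not.mp h1⟩
  · have h1 := inner hN x p hcl (fun h h2 => hr ((hs h).mp h2)) (fun h h2 => hr ((hc h).mp h2)) a ha hax
    exact ⟨fun h => absurd h h1, fun h => absurd h hr⟩

lemma free_clq {X : Finset ℕ} (hX : X.card ≤ 4) : Free (clq X) := by
  classical
  rintro ⟨B, _, h2, h3⟩
  have h4 : ∀ i : Fin 5, ∃ x ∈ B i, x ∈ X := by
    intro i
    obtain ⟨j, hj⟩ := exists_ne i
    obtain ⟨u, hu, v, _, huv⟩ := h3 i j hj.symm
    exact ⟨u, hu, huv.2.1⟩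
  choose x hx hxX using h4
  have hinj : Function.Injective x := by
    intro i j hij
    by_contra hne
    exact Finset.disjoint_left.1 (h2 i j hne) (hx i) (by rw [hij]; exact hx j)
  have h5 : (Finset.univ.image x).card = 5 := by
    rw [Finset.card_image_of_injective _ hinj, Finset.card_univ, Fintype.card_fin]
  have h6 : Finset.univ.image x ⊆ X := by
    intro y hy
    obtain ⟨i, _, rfl⟩ := Finset.mem_image.1 hy
    exact hxX i
  have h7 := Finset.card_le_card h6
  omega

variable {s t : ℕ} {U : Finset ℕ} {d : SCode}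

/-- Membership facts. -/
lemma facts (h : d.Valid s t U) : d.c ∈ U ∧ (∀ a ∈ d.A1, a ∈ U) ∧ (∀ a ∈ d.A2, a ∈ U) ∧
    (∀ a ∈ U, a = d.c ∨ a ∈ d.A1 ∨ a ∈ d.A2) := by
  refine ⟨?_, fun a ha => ?_, fun a ha => ?_, fun a ha => ?_⟩
  · rw [h.part]
    exact Finset.mem_insert_self _ _
  · rw [h.part]
    exact Finset.mem_insert_of_mem (Finset.mem_union_left _ ha)
  · rw [h.part]
    exact Finset.mem_insert_of_mem (Finset.mem_union_right _ ha)
  · rw [h.part] at ha
    rcases Finset.mem_insert.mp ha with h1 | h1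
    · exact Or.inl h1
    · exact Or.inr (Finset.mem_union.mp h1)

lemma cs (h : d.Valid s t U) : d.c ≠ s := fun e => h.hs (e ▸ (facts h).1)

lemma ct (h : d.Valid s t U) : d.c ≠ t := fun e => h.ht (e ▸ (facts h).1)

lemma adj_st (h : d.Valid s t U) : (d.comp s t).Adj s t := ⟨h.hst, Or.inl rfl⟩

lemma adj1 {a b : ℕ} (hab : d.G1.Adj a b) (he : s(a, b) ≠ s(s, d.c)) : (d.comp s t).Adj a b :=
  ⟨hab.ne, Or.inr (Or.inr (Or.inr (Or.inl ⟨hab, he⟩)))⟩

lemma adj2 {a b : ℕ} (hab : d.G2.Adj a b) (he : s(a, b) ≠ s(d.c, t)) : (d.comp s t).Adj a b :=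
  ⟨hab.ne, Or.inr (Or.inr (Or.inr (Or.inr ⟨hab, he⟩)))⟩

lemma sub1 (h : d.Valid s t U) {a : ℕ} (ha : a ∈ St s d.c d.A1) : a ∈ St s t U ∧ a ≠ t := by
  have hf := facts h
  simp only [St, Finset.mem_insert] at ha ⊢
  rcases ha with rfl | rfl | ha
  · exact ⟨Or.inl rfl, h.hst⟩
  · exact ⟨Or.inr (Or.inr hf.1), ct h⟩
  · exact ⟨Or.inr (Or.inr (hf.2.1 a ha)), fun e => h.ht (e ▸ hf.2.1 a ha)⟩

lemma sub2 (h : d.Valid s t U) {a : ℕ} (ha : a ∈ St d.c t d.A2) : a ∈ St s t U ∧ a ≠ s := by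
  have hf := facts h
  simp only [St, Finset.mem_insert] at ha ⊢
  rcases ha with rfl | rfl | ha
  · exact ⟨Or.inr (Or.inr hf.1), cs h⟩
  · exact ⟨Or.inr (Or.inl rfl), h.hst.symm⟩
  · exact ⟨Or.inr (Or.inr (hf.2.2.1 a ha)), fun e => h.hs (e ▸ hf.2.2.1 a ha)⟩

/-- (α) -/
lemma alpha1 (h : d.Valid s t U) (p : ℕ → Prop)
    (hcl : ∀ a ∈ St s d.c d.A1, ∀ b ∈ St s d.c d.A1, (d.comp s t).Adj a b → (p a ↔ p b)) : p s ↔ p d.c :=
  alpha h.net1 p (fun hA => hcl s (by simp [St]) d.c (by simp [St])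
    ⟨(cs h).symm, Or.inr (Or.inl ⟨rfl, h.e1 hA⟩)⟩) (fun a ha b hb hab he => hcl a ha b hb (adj1 hab he))

/-- (β) -/
lemma alpha2 (h : d.Valid s t U) (p : ℕ → Prop)
    (hcl : ∀ a ∈ St d.c t d.A2, ∀ b ∈ St d.c t d.A2, (d.comp s t).Adj a b → (p a ↔ p b)) : p d.c ↔ p t :=
  alpha h.net2 p (fun hA => hcl d.c (by simp [St]) t (by simp [St])
    ⟨ct h, Or.inr (Or.inr (Or.inl ⟨rfl, h.e2 hA⟩))⟩) (fun a ha b hb hab he => hcl a ha b hb (adj2 hab he))

lemma conn_erase (h : d.Valid s t U) (x : ℕ) : P512.Conn (d.comp s t) ((St s t U).erase x) := by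
  have hf := facts h
  refine conn_of ?_ fun p hp => ?_
  · by_cases hx : s = x
    · exact ⟨t, Finset.mem_erase.mpr ⟨fun e => h.hst (hx.trans e.symm), by simp [St]⟩⟩
    · exact ⟨s, Finset.mem_erase.mpr ⟨hx, by simp [St]⟩⟩
  have i1 : ∀ r : Prop, (s ≠ x → (p s ↔ r)) → (d.c ≠ x → (p d.c ↔ r)) → ∀ a ∈ d.A1, a ≠ x → (p a ↔ r) := by
    intro r h1 h2
    refine inner' h.net1 x p r (fun a ha b hb hab he => ?_) h1 h2
    have ha' := Finset.mem_erase.mp ha
    have hb' := Finset.mem_erase.mp hb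
    exact hp a (Finset.mem_erase.mpr ⟨ha'.1, (sub1 h ha'.2).1⟩) b
      (Finset.mem_erase.mpr ⟨hb'.1, (sub1 h hb'.2).1⟩) (adj1 hab he)
  have i2 : ∀ r : Prop, (d.c ≠ x → (p d.c ↔ r)) → (t ≠ x → (p t ↔ r)) → ∀ a ∈ d.A2, a ≠ x → (p a ↔ r) := by
    intro r h1 h2
    refine inner' h.net2 x p r (fun a ha b hb hab he => ?_) h1 h2
    have ha' := Finset.mem_erase.mp ha
    have hb' := Finset.mem_erase.mp hb
    exact hp a (Finset.mem_erase.mpr ⟨ha'.1, (sub2 h ha'.2).1⟩) b
      (Finset.mem_erase.mpr ⟨hb'.1, (sub2 h hb'.2).1⟩) (adj2 hab he)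
  have a1 : x ∉ St s d.c d.A1 → (p s ↔ p d.c) := by
    intro hx
    refine alpha1 h p fun a ha b hb hab => ?_
    exact hp a (Finset.mem_erase.mpr ⟨fun e => hx (e ▸ ha), (sub1 h ha).1⟩) b
      (Finset.mem_erase.mpr ⟨fun e => hx (e ▸ hb), (sub1 h hb).1⟩) hab
  have a2 : x ∉ St d.c t d.A2 → (p d.c ↔ p t) := by
    intro hx
    refine alpha2 h p fun a ha b hb hab => ?_
    exact hp a (Finset.mem_erase.mpr ⟨fun e => hx (e ▸ ha), (sub2 h ha).1⟩) b
      (Finset.mem_erase.mpr ⟨fun e => hx (e ▸ hb), (sub2 h hb).1⟩) hab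
  have ast : s ≠ x → t ≠ x → (p s ↔ p t) := fun h1 h2 =>
    hp s (Finset.mem_erase.mpr ⟨h1, by simp [St]⟩) t (Finset.mem_erase.mpr ⟨h2, by simp [St]⟩) (adj_st h)
  have hr : ∃ r : Prop, (s ≠ x → (p s ↔ r)) ∧ (t ≠ x → (p t ↔ r)) ∧ (d.c ≠ x → (p d.c ↔ r)) := by
    by_cases hxs : x = s
    · refine ⟨p d.c, fun h1 => absurd hxs.symm h1, fun _ => (a2 ?_).symm, fun _ => Iff.rfl⟩
      intro hx
      exact (sub2 h hx).2 hxs
    · by_cases hxt : x = t
      · refine ⟨p d.c, fun _ => a1 ?_, fun h1 => absurd hxt.symm h1, fun _ => Iff.rfl⟩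
        intro hx
        exact (sub1 h hx).2 hxt
      · have hst := ast (Ne.symm hxs) (Ne.symm hxt)
        refine ⟨p s, fun _ => Iff.rfl, fun _ => hst.symm, fun hxc => ?_⟩
        by_cases hx1 : x ∈ d.A1
        · refine (a2 ?_).trans hst.symm
          intro hx
          simp only [St, Finset.mem_insert] at hx
          rcases hx with hx | hx | hx
          · exact hxc hx.symm
          · exact hxt hx
          · exact Finset.disjoint_left.1 h.disj hx1 hx
        · refine (a1 ?_).symm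
          intro hx
          simp only [St, Finset.mem_insert] at hx
          rcases hx with hx | hx | hx
          · exact hxs hx
          · exact hxc hx.symm
          · exact hx1 hx
  obtain ⟨r, r1, r2, r3⟩ := hr
  refine ⟨r, fun a ha => ?_⟩
  obtain ⟨hax, haW⟩ := Finset.mem_erase.mp ha
  simp only [St, Finset.mem_insert] at haW
  rcases haW with rfl | rfl | haU
  · exact r1 hax
  · exact r2 hax
  · rcases hf.2.2.2 a haU with rfl | h1 | h1
    · exact r3 hax
    · exact i1 r r1 r3 a h1 hax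
    · exact i2 r r3 r2 a h1 hax

lemma conn_U (h : d.Valid s t U) : P512.Conn (d.comp s t) U := by
  have hf := facts h
  refine conn_of ⟨_, hf.1⟩ fun p hp => ⟨p d.c, fun a ha => ?_⟩
  rcases hf.2.2.2 a ha with rfl | h1 | h1
  · exact Iff.rfl
  · refine inner' h.net1 s p (p d.c) (fun u hu v hv huv he => ?_) (fun h2 => absurd rfl h2)
      (fun _ => Iff.rfl) a h1 (fun e => h.hs (e ▸ ha))
    have key : ∀ w ∈ (St s d.c d.A1).erase s, w ∈ U := by
      intro w hw
      obtain ⟨hw1, hw2⟩ := Finset.mem_erase.mp hw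
      simp only [St, Finset.mem_insert] at hw2
      rcases hw2 with hw2 | rfl | hw2
      · exact absurd hw2 hw1
      · exact hf.1
      · exact hf.2.1 w hw2
    exact hp u (key u hu) v (key v hv) (adj1 huv he)
  · refine inner' h.net2 t p (p d.c) (fun u hu v hv huv he => ?_) (fun _ => Iff.rfl)
      (fun h2 => absurd rfl h2) a h1 (fun e => h.ht (e ▸ ha))
    have key : ∀ w ∈ (St d.c t d.A2).erase t, w ∈ U := by
      intro w hw
      obtain ⟨hw1, hw2⟩ := Finset.mem_erase.mp hw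
      simp only [St, Finset.mem_insert] at hw2
      rcases hw2 with rfl | hw2 | hw2
      · exact hf.1
      · exact absurd hw2 hw1
      · exact hf.2.2.1 w hw2
    exact hp u (key u hu) v (key v hv) (adj2 huv he)

lemma comp_le (h : d.Valid s t U) : d.comp s t ≤ (d.G1 ⊔ clq {s, d.c, t}) ⊔ d.G2 := by
  intro a b hab
  obtain ⟨hne, h1 | h1 | h1 | h1 | h1⟩ := hab
  · left; right
    rcases Sym2.eq_iff.mp h1 with ⟨rfl, rfl⟩ | ⟨rfl, rfl⟩
    · exact ⟨hne, by simp, by simp⟩
    · exact ⟨hne, by simp, by simp⟩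
  · left; right
    rcases Sym2.eq_iff.mp h1.1 with ⟨rfl, rfl⟩ | ⟨rfl, rfl⟩
    · exact ⟨hne, by simp, by simp⟩
    · exact ⟨hne, by simp, by simp⟩
  · left; right
    rcases Sym2.eq_iff.mp h1.1 with ⟨rfl, rfl⟩ | ⟨rfl, rfl⟩
    · exact ⟨hne, by simp, by simp⟩
    · exact ⟨hne, by simp, by simp⟩
  · left; left
    exact h1.1
  · right
    exact h1.1

lemma free_comp (h : d.Valid s t U) : Free (d.comp s t) := by
  classical
  have hf := facts h
  have hX : ({s, d.c, t} : Finset ℕ).card ≤ 3 := Finset.card_le_three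
  have hon : On (clq {s, d.c, t}) {s, d.c, t} := fun u v huv => huv.2.1
  have h1 : Free (d.G1 ⊔ clq {s, d.c, t}) := by
    refine Free.sup h.net1.free (free_clq (by omega)) h.net1.on hon
      ((Finset.card_le_card Finset.inter_subset_right).trans hX) ?_
    have key : ∀ a ∈ St s d.c d.A1 ∩ {s, d.c, t}, a = s ∨ a = d.c := by
      intro a ha
      obtain ⟨ha1, ha2⟩ := Finset.mem_inter.mp ha
      simp only [Finset.mem_insert, Finset.mem_singleton] at ha2
      rcases ha2 with ha2 | ha2 | ha2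
      · exact Or.inl ha2
      · exact Or.inr ha2
      · exact absurd ha2 (sub1 h ha1).2
    intro a ha b hb hab
    refine ⟨?_, hab, (Finset.mem_inter.mp ha).2, (Finset.mem_inter.mp hb).2⟩
    rcases key a ha with rfl | rfl
    · rcases key b hb with rfl | rfl
      · exact absurd rfl hab
      · exact h.net1.adj
    · rcases key b hb with rfl | rfl
      · exact h.net1.adj.symm
      · exact absurd rfl hab
  refine Free.mono ?_ (comp_le h)
  have hon1 : On (d.G1 ⊔ clq {s, d.c, t}) (St s d.c d.A1 ∪ {s, d.c, t}) := by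
    intro u v huv
    rcases huv with huv | huv
    · exact Finset.mem_union_left _ (h.net1.on u v huv)
    · exact Finset.mem_union_right _ (hon u v huv)
  have key : ∀ a ∈ (St s d.c d.A1 ∪ {s, d.c, t}) ∩ St d.c t d.A2, a = d.c ∨ a = t := by
    intro a ha
    obtain ⟨ha1, ha2⟩ := Finset.mem_inter.mp ha
    have has := (sub2 h ha2).2
    simp only [St, Finset.mem_union, Finset.mem_insert, Finset.mem_singleton] at ha1 ha2
    rcases ha2 with ha2 | ha2 | ha2
    · exact Or.inl ha2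
    · exact Or.inr ha2
    · rcases ha1 with (ha1 | ha1 | ha1) | (ha1 | ha1 | ha1)
      · exact absurd ha1 has
      · exact Or.inl ha1
      · exact absurd ha2 (Finset.disjoint_left.1 h.disj ha1)
      · exact absurd ha1 has
      · exact Or.inl ha1
      · exact Or.inr ha1
  refine Free.sup h1 h.net2.free hon1 h.net2.on ?_ ?_
  · have h2 : (St s d.c d.A1 ∪ {s, d.c, t}) ∩ St d.c t d.A2 ⊆ {d.c, t} := by
      intro a ha
      simp only [Finset.mem_insert, Finset.mem_singleton]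
      exact key a ha
    have h3 := (Finset.card_le_card h2).trans Finset.card_le_two
    omega
  · intro a ha b hb hab
    have h4 : ∀ a, a = d.c ∨ a = t → a ∈ ({s, d.c, t} : Finset ℕ) := by
      rintro a (rfl | rfl) <;> simp
    refine ⟨Or.inr ⟨hab, h4 a (key a ha), h4 b (key b hb)⟩, ?_⟩
    rcases key a ha with rfl | rfl
    · rcases key b hb with rfl | rfl
      · exact absurd rfl hab
      · exact h.net2.adj
    · rcases key b hb with rfl | rfl
      · exact h.net2.adj.symm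
      · exact absurd rfl hab

lemma on_comp (h : d.Valid s t U) : On (d.comp s t) (St s t U) := by
  have hf := facts h
  have hsW : s ∈ St s t U := by simp [St]
  have htW : t ∈ St s t U := by simp [St]
  have hcW : d.c ∈ St s t U := by simp [St, hf.1]
  intro a b hab
  obtain ⟨hne, h1 | h1 | h1 | h1 | h1⟩ := hab
  · rcases Sym2.eq_iff.mp h1 with ⟨rfl, rfl⟩ | ⟨rfl, rfl⟩
    · exact hsW
    · exact htW
  · rcases Sym2.eq_iff.mp h1.1 with ⟨rfl, rfl⟩ | ⟨rfl, rfl⟩
    · exact hsW
    · exact hcW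
  · rcases Sym2.eq_iff.mp h1.1 with ⟨rfl, rfl⟩ | ⟨rfl, rfl⟩
    · exact hcW
    · exact htW
  · exact (sub1 h (h.net1.on a b h1.1)).1
  · exact (sub2 h (h.net2.on a b h1.1)).1

end SerSAux

open SerSAux

theorem SCode.Valid.cutP_comp {s t : ℕ} {U : Finset ℕ} {d : SCode} (h : d.Valid s t U) :
    CutP s t U (d.comp s t) d.c (insert s d.A1) := by
  have hf := facts h
  have hcP : d.c ∉ insert s d.A1 := by
    simp only [Finset.mem_insert, not_or]
    exact ⟨cs h, h.c1⟩
  refine ⟨hf.1, ?_, Finset.mem_insert_self _ _, ?_, ?_⟩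
  · intro a ha
    refine Finset.mem_erase.mpr ⟨fun e => hcP (e ▸ ha), ?_⟩
    rcases Finset.mem_insert.mp ha with rfl | ha
    · simp [St]
    · simp [St, hf.2.1 a ha]
  · simp only [Finset.mem_insert, not_or]
    exact ⟨h.hst.symm, fun h1 => h.ht (hf.2.1 t h1)⟩
  · intro a ha b hb hbP hab
    obtain ⟨hbc, hbW⟩ := Finset.mem_erase.mp hb
    have hac : a ≠ d.c := fun e => hcP (e ▸ ha)
    obtain ⟨hne, h1 | h1 | h1 | h1 | h1⟩ := hab
    · exact h1
    · exfalso
      rcases Sym2.eq_iff.mp h1.1 with h2 | h2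
      · exact hbc h2.2
      · exact hac h2.1
    · exfalso
      rcases Sym2.eq_iff.mp h1.1 with h2 | h2
      · exact hac h2.1
      · exact hbc h2.2
    · exfalso
      have h2 := h.net1.on b a h1.1.symm
      simp only [St, Finset.mem_insert] at h2
      rcases h2 with h2 | h2 | h2
      · exact hbP (by rw [h2]; exact Finset.mem_insert_self _ _)
      · exact hbc h2
      · exact hbP (Finset.mem_insert_of_mem h2)
    · exfalso
      have h2 := h.net2.on a b h1.1
      have h3 := (sub2 h h2).2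
      simp only [St, Finset.mem_insert] at h2
      have h4 : a ∈ d.A1 := (Finset.mem_insert.mp ha).resolve_left h3
      rcases h2 with h2 | h2 | h2
      · exact hac h2
      · exact h.ht (h2 ▸ hf.2.1 a h4)
      · exact Finset.disjoint_left.1 h.disj h4 h2

theorem SCode.Valid.comp_series {s t : ℕ} {U : Finset ℕ} {d : SCode} (h : d.Valid s t U) :
    Series s t U (d.comp s t) := by
  classical
  have hf := facts h
  refine ⟨⟨⟨h.hst, h.hs, h.ht, on_comp h, adj_st h, ⟨?_, ?_, fun v _ => conn_erase h v⟩, free_comp h⟩,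
    conn_U h⟩, d.c, hf.1, ?_⟩
  · have h1 : ({s, t} : Finset ℕ) ⊆ St s t U := by
      intro a ha
      simp only [Finset.mem_insert, Finset.mem_singleton] at ha
      simp only [St, Finset.mem_insert]
      rcases ha with h2 | h2
      · exact Or.inl h2
      · exact Or.inr (Or.inl h2)
    have h2 := Finset.card_le_card h1
    rw [Finset.card_pair h.hst] at h2
    exact h2
  · obtain ⟨x, hx⟩ := Infinite.exists_notMem_finset (St s t U)
    have h1 := conn_erase h x
    rwa [Finset.erase_eq_of_notMem hx] at h1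
  · have hP := h.cutP_comp
    rintro ⟨_, hc⟩
    obtain ⟨u, hu, v, hv, hvP, huv⟩ := hc (insert s d.A1) hP.sub ⟨s, hP.hs⟩ (by
      intro e
      have h1 : t ∈ (St s t U).erase d.c := Finset.mem_erase.mpr ⟨(ct h).symm, by simp [St]⟩
      rw [← e] at h1
      exact hP.ht h1)
    rw [SimpleGraph.deleteEdges_adj] at huv
    exact huv.2 (hP.closed u hu v hv hvP huv.1)

end K5
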