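import Pool.Agent.Lib.K5.Final
import Pool.Agent.Lib.K5.MkSys2
import Pool.Agent.Lib.K5.ENet
import Pool.Agent.Lib.K5.EBas
import Pool.Agent.Lib.K5C.Law
import Pool.Agent.Lib.K5L.BoxPC

/-!
# K5.Sys2I: the instances of the two interfaces, and the asymptotic law at the critical point
-/

namespace K5

open Finset Filter Topology
open scoped ENNReal

noncomputable section

/-- `NS_3 / x^3` of the map side. -/
def nmap (x Y T : ℝ≥0∞) : ℝ≥0∞ := 1 + 3 * K5M.Dmap x Y T + K5M.S x Y T 3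

theorem dmap_two : ∀ x Y T : ℝ≥0∞, K5M.Dmap x Y T = (fun x Y T k => K5M.S x Y T k) x Y T 2 :=
  fun x Y T => (K5M.S_two x Y T).symm

theorem nmap_eq : ∀ x Y T : ℝ≥0∞, nmap x Y T =
    1 + 3 * (fun x Y T k => K5M.S x Y T k) x Y T 2 + (fun x Y T k => K5M.S x Y T k) x Y T 3 :=
  fun x Y T => by
    show 1 + 3 * K5M.Dmap x Y T + K5M.S x Y T 3 = 1 + 3 * K5M.S x Y T 2 + K5M.S x Y T 3
    rw [K5M.S_two]

/-- The instance of the interface of stage 1. -/
def sysI (γ : ℝ)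
    (hγ : Tendsto (fun n : ℕ => ((P512.g n : ℝ) / n.factorial) ^ (1 / (n : ℝ))) atTop (𝓝 γ)) :
    K5N.Sys :=
  { γ := γ
    kc := kc
    k0 := kc0
    ac := ac
    Dg := D
    Dm := K5M.Dmap
    N3 := nmap
    hGU := fun x z t a k h0 h1 h2 h3 h4 h5 h6 h7 h8 =>
      graphU isShrU h0 h1 h2 h3 h4 (by rw [At_eq_ser]; exact h5) h6 (by rw [Kt_eq_ser]; exact h7) h8
    hBU := fun x z h0 h1 h2 => blockU_main hγ h0 h1 h2
    hGL := fun x x1 h0 h1 h2 => by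
      obtain ⟨z, t, a, k, a1, a2, a3, a4, a5, a6, a7, a8, a9⟩ := graphL isShrL h0 h1 h2
      rw [At_eq_ser] at a6
      rw [Kt0_eq_ser] at a8
      exact ⟨z, t, a, k, a1, a2, a3, a4, a5, a6, a7, a8, a9⟩
    hBL := fun x h0 h1 h2 => blockL_main hγ h0 h1 h2
    hK0 := fun x z w t => by
      have := Kt_le' x z w t
      rwa [Kt_eq_ser, Kt0_eq_ser, At_eq_ser] at this
    hMeq := fun x Y T hx0 h0 _ _ _ => by
      obtain ⟨S, b1, b2, b3⟩ := K5M.map_eq x Y T hx0 h0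
      rw [Kt_eq_ser] at b2
      rw [At_eq_ser] at b3
      exact ⟨S, b1, b2, b3⟩
    hMsup := fun x Y T z S h0 _ _ h3 h4 h5 =>
      K5M.map_sup x Y T z S h0 h3 h4 (by rw [Kt_eq_ser]; exact h5)
    hAS := K5A.algAS K5M.mapIn_S dmap_two nmap_eq
    hAR := K5A.algAR K5M.mapIn_S dmap_two nmap_eq
    hAX := K5A.algAX K5M.mapIn_S dmap_two nmap_eq }

/-- The instance of the interface of stage 2. -/
def sys2I (γ : ℝ)
    (hγ : Tendsto (fun n : ℕ => ((P512.g n : ℝ) / n.factorial) ^ (1 / (n : ℝ))) atTop (𝓝 γ)) :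
    K5S.Sys2 :=
  mkSys2 (sysI γ hγ) rfl rfl rfl isEx3 wag
    (fun _ _ hx hy h => by
      obtain ⟨z, h1, h2, h3, h4, -⟩ := netEq hx hy h
      exact ⟨z, h1, h2, h3, h4⟩)
    (fun x => (Dy_one x).symm)

/-- The asymptotic law at the critical point. -/
theorem law {r s y t : ℝ} (hB : K5L.Box r s y t) :
    K5F.Law (Real.exp (K5C.pBx 1 r s y t) / K5N.px r s y t) := by
  obtain ⟨γ, -, -, hg, -, -⟩ := P512.main
  have hγ : Tendsto (fun n : ℕ => ((P512.g n : ℝ) / n.factorial) ^ (1 / (n : ℝ))) atTop (𝓝 γ) := by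
    simpa only [P512.numG_eq] using hg
  exact K5C.law (sys2I γ hγ) (fun x z => (T0_eq_ser2 x z).symm) (fun _ => rfl) hB hB.pc hB.HD_le

end

end K5
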