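import Pool.Agent.Lib.K5.XComp

/-!
# K5.XCode: first facts about the graph of a code of the second kind

`c.Valid R U`, `Z = R ∪ c.Y`.
1. `T_on`: for `X ∈ c.M` an edge `ab` of `T X` has `a, b ∈ X ∪ V X` (`TStr.on` and symmetry), not both in `Z` (`V X ⊆ U \ Y` is disjoint from `Z`, so both would be in `X`, `TStr.noX`). For `X ∉ c.M`, `T X = ⊥`.
2. `comp_core`: an edge of `c.comp R` with both ends in `Z` is an edge of `c.H`: root clique (`c.core.rtd.clique`), edge of `H`, edge in `F` (`F_sub`), not an edge of `T X` by 1.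
3. `comp_out`: an edge `ab` of `c.comp R` with `a ∉ Z`: the first three cases of the definition are excluded (edges of `H` are in `Z` by `rtd.on`), so it is an edge of some `T X`, `X ∈ c.M`, and `a ∈ V X`, `b ∈ X ∪ V X`.
4. `comp_V`: if `a ∈ V X`, `X ∈ c.M` and `ab` is an edge of `c.comp R` then it is an edge of `T X`: 3. gives `X'` with `a ∈ V X'`, so `X' = X` by `V_disj`; `b ∈ X ∪ V X`.
5. `comp_on`: all edges in `R ∪ U`.
6. `conn_core`: let `P` be a proper nonempty subset of `S ∩ Z`, `Q` the rest of `S ∩ Z`, and suppose that no edge of `H` joins `P` to `Q`. Every `X ∈ c.M` is a triangle of `H` (`NT`), so it does not meet both `P` and `Q`. Let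
   `P'` be `P` together with all `V X ∩ S`, `X ∈ c.M`, `X ∩ P ≠ ∅`, and, if `Q` is met by ... (nothing else). `P'` is a proper nonempty subset of `S` (it does not meet `Q`), so some edge `ab` of `c.comp R` has `a ∈ P'`, `b ∈ S \ P'`.
   `a ∈ P`: if `b ∈ Z` then `b ∈ Q` and the edge is an edge of `H` by 2., contradiction; if `b ∉ Z` then by 3. (for the reversed edge) `b ∈ V X`, `a ∈ X ∪ V X`, so `a ∈ X`, `X` meets `P`, `b ∈ P'`, contradiction.
   `a ∈ V X`, `X ∩ P ≠ ∅`: by 4. `b ∈ X ∪ V X`; `b ∈ V X` gives `b ∈ P'`; `b ∈ X ⊆ Z`, `b ∈ S`, so `b ∈ P` or `b ∈ Q`; both are excluded. Contradiction.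
-/

namespace K5

open Finset

variable {R U : Finset ℕ} {c : Code3}

theorem Code3.Valid.T_mem (h : c.Valid R U) {X : Finset ℕ} {a b : ℕ} (hab : (c.T X).Adj a b) :
    X ∈ c.M ∧ a ∈ X ∪ c.V X ∧ b ∈ X ∪ c.V X ∧ ¬ (a ∈ R ∪ c.Y ∧ b ∈ R ∪ c.Y) := by
  have hXM : X ∈ c.M := by
    by_contra hX
    rw [h.T_out X hX] at hab
    exact hab
  have hT := h.T_str X hXM
  have ha := hT.on a b hab
  have hb := hT.on b a hab.symm
  refine ⟨hXM, ha, hb, fun hh => ?_⟩
  have hV : ∀ v ∈ R ∪ c.Y, v ∉ c.V X := fun v hv hvV => by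
    have := mem_sdiff.1 (h.V_sub X hXM hvV)
    rcases mem_union.1 hv with h' | h'
    · exact disjoint_left.1 h.disj h' this.1
    · exact this.2 h'
  have ha' : a ∈ X := (mem_union.1 ha).resolve_right (hV a hh.1)
  have hb' : b ∈ X := (mem_union.1 hb).resolve_right (hV b hh.2)
  exact hT.noX a ha' b hb' hab

theorem Code3.Valid.mark_sub (h : c.Valid R U) {X : Finset ℕ} (hX : X ∈ c.M) :
    X ⊆ R ∪ c.Y ∧ Disjoint X (c.V X) ∧ Disjoint (R ∪ c.Y) (c.V X) := by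
  have hV : ∀ v ∈ R ∪ c.Y, v ∉ c.V X := fun v hv hvV => by
    have := mem_sdiff.1 (h.V_sub X hX hvV)
    rcases mem_union.1 hv with h' | h'
    · exact disjoint_left.1 h.disj h' this.1
    · exact this.2 h'
  have h1 := (h.mark X hX).1.1
  exact ⟨h1, disjoint_left.2 (fun v hv => hV v (h1 hv)), disjoint_left.2 hV⟩

theorem Code3.Valid.comp_core (h : c.Valid R U) {a b : ℕ} (hab : (c.comp R).Adj a b)
    (ha : a ∈ R ∪ c.Y) (hb : b ∈ R ∪ c.Y) : c.H.Adj a b := by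
  rcases hab with ⟨hne, ⟨h1, h2⟩ | h1 | h1 | ⟨X, h1⟩⟩
  · exact h.core.rtd.clique ⟨hne, h1, h2⟩
  · exact h1.1
  · exact (h.F_sub _ h1).1
  · exact absurd ⟨ha, hb⟩ (h.T_mem h1).2.2.2

theorem Code3.Valid.comp_out (h : c.Valid R U) {a b : ℕ} (hab : (c.comp R).Adj a b)
    (ha : a ∉ R ∪ c.Y) : ∃ X ∈ c.M, (c.T X).Adj a b ∧ a ∈ c.V X ∧ b ∈ X ∪ c.V X := by
  rcases hab with ⟨hne, ⟨h1, h2⟩ | h1 | h1 | ⟨X, h1⟩⟩
  · exact absurd (mem_union_left _ h1) ha
  · exact absurd (h.core.rtd.on a b h1.1) ha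
  · exact absurd (h.core.rtd.on a b (h.F_sub _ h1).1) ha
  · obtain ⟨h2, h3, h4, -⟩ := h.T_mem h1
    exact ⟨X, h2, h1, (mem_union.1 h3).resolve_left (fun h' => ha ((h.mark_sub h2).1 h')), h4⟩

theorem Code3.Valid.comp_V (h : c.Valid R U) {X : Finset ℕ} (hX : X ∈ c.M) {a b : ℕ}
    (hab : (c.comp R).Adj a b) (ha : a ∈ c.V X) : (c.T X).Adj a b ∧ b ∈ X ∪ c.V X := by
  obtain ⟨X', h1, h2, h3, h4⟩ := h.comp_out hab
    (fun h' => disjoint_left.1 (h.mark_sub hX).2.2 h' ha)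
  have : X' = X := by
    by_contra hne
    exact disjoint_left.1 (h.V_disj X' h1 X hX hne) h3 ha
  subst this
  exact ⟨h2, h4⟩

theorem Code3.Valid.comp_on (h : c.Valid R U) : On (c.comp R) (R ∪ U) := by
  intro a b hab
  by_cases ha : a ∈ R ∪ c.Y
  · exact union_subset_union (Subset.refl _) h.sub ha
  · obtain ⟨X, h1, -, h3, -⟩ := h.comp_out hab ha
    exact mem_union_right _ (sdiff_subset (h.V_sub X h1 h3))

theorem Code3.Valid.conn_core (h : c.Valid R U) {S : Finset ℕ}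
    (hc : P512.Conn (c.comp R) S) (hne : (S ∩ (R ∪ c.Y)).Nonempty) :
    P512.Conn c.H (S ∩ (R ∪ c.Y)) := by
  classical
  refine ⟨hne, fun P hP hPne hPS => ?_⟩
  by_contra hcon
  push Not at hcon
  set P' : Finset ℕ := P ∪ S.filter (fun v => ∃ X ∈ c.M, v ∈ c.V X ∧ ∃ p ∈ P, p ∈ X) with hP'
  have hPS' : P' ⊆ S := union_subset (hP.trans inter_subset_left) (filter_subset _ _)
  obtain ⟨q, hq, hqP⟩ : ∃ q ∈ S ∩ (R ∪ c.Y), q ∉ P := by
    by_contra h'
    push Not at h'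
    exact hPS (Subset.antisymm hP h')
  have hqP' : q ∉ P' := by
    intro h'
    rcases mem_union.1 h' with h'' | h''
    · exact hqP h''
    · obtain ⟨-, X, hX, hqV, -⟩ := mem_filter.1 h''
      exact disjoint_left.1 (h.mark_sub hX).2.2 (mem_inter.1 hq).2 hqV
  obtain ⟨p, hp⟩ := hPne
  obtain ⟨a, ha, b, hb, hbn, hab⟩ := hc.2 P' hPS' ⟨p, mem_union_left _ hp⟩
    (fun he => hqP' (by rw [he]; exact (mem_inter.1 hq).1))
  -- a vertex of `S` in a triangle that meets `P` is in `P`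
  have key : ∀ X ∈ c.M, ∀ p ∈ P, p ∈ X → ∀ v ∈ S, v ∈ X → v ∈ P := by
    intro X hX p hp hpX v hv hvX
    by_contra hvP
    have hvZ : v ∈ R ∪ c.Y := (h.mark_sub hX).1 hvX
    have hne : p ≠ v := fun he => hvP (he ▸ hp)
    exact hcon p hp v (mem_inter.2 ⟨hv, hvZ⟩) hvP ((h.mark X hX).1.2.2.1 ⟨hne, hpX, hvX⟩)
  rcases mem_union.1 ha with ha' | ha'
  · by_cases hbZ : b ∈ R ∪ c.Y
    · exact hcon a ha' b (mem_inter.2 ⟨hb, hbZ⟩) (fun h' => hbn (mem_union_left _ h'))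
        (h.comp_core hab (mem_inter.1 (hP ha')).2 hbZ)
    · obtain ⟨X, hX, -, hbV, haX⟩ := h.comp_out hab.symm hbZ
      have haX' : a ∈ X := (mem_union.1 haX).resolve_right
        (fun h' => disjoint_left.1 (h.mark_sub hX).2.2 (mem_inter.1 (hP ha')).2 h')
      exact hbn (mem_union_right _ (mem_filter.2 ⟨hb, X, hX, hbV, a, ha', haX'⟩))
  · obtain ⟨haS, X, hX, haV, p, hp, hpX⟩ := mem_filter.1 ha'
    rcases mem_union.1 (h.comp_V hX hab haV).2 with h' | h'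
    · exact hbn (mem_union_left _ (key X hX p hp hpX b hb h'))
    · exact hbn (mem_union_right _ (mem_filter.2 ⟨hb, X, hX, h', p, hp, hpX⟩))

end K5
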