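import Pool.Agent.Lib.K5.XDefs

/-!
# K5.XComp: components

All statements are about `P512.Conn` (cut form) and `IsComp G U C` (`C ⊆ U`, `C` connected, no edge of `G` from `C` to `U \ C`).
1. `closed_sub`: if not `A ⊆ C`, the cut form of `Conn G A` for the set `A ∩ C` (nonempty, not `A`) gives an edge from `A ∩ C` to `A \ C`, contradiction.
2. `exists_comp_conn`: `P512.hull G A U`; `exists_xcomp`: `A = {v}`, `P512.conn_singleton`.
3. `IsComp.xeq_of_mem`: two components with a common vertex are equal: `closed_sub` twice.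
4. `IsComp.of_closed`: the component `C` of `G` in `J ⊆ U`, where no edge joins `J` to `U \ J`: an edge from `a ∈ C` to `b ∈ U \ C` has `b ∈ J` or `b ∉ J`.
5. `IsComp.sub_closed`, `IsComp.congr`: from the definitions.
6. `exists_other_comp`: `C ≠ U` because `C` is connected and `U` is not; take the component of a vertex of `U \ C`; it is disjoint from `C` by 3.
7. `Three.adj_comp`: `X = {x, u, v}`; apply `Three` to `u, v`: `Conn G ((W.erase u).erase v)` for the set `C` (nonempty, `z` is outside): an edge from `C` to a vertex `b ∉ C`, `b ≠ u, v`. `b ∉ X` contradicts the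
   hypothesis that nothing leaves `C` in `W \ X`, so `b = x`.
-/

namespace K5

open Finset

variable {G : Gr} {U C : Finset ℕ}

theorem closed_sub {A : Finset ℕ} (hC : ∀ a ∈ C, ∀ b ∈ U, b ∉ C → ¬ G.Adj a b)
    (hA : P512.Conn G A) (hAU : A ⊆ U) {v : ℕ} (hv : v ∈ A) (hvC : v ∈ C) : A ⊆ C := by
  by_contra hcon
  obtain ⟨a, ha, b, hb, hbn, hab⟩ := hA.2 (A ∩ C) inter_subset_left
    ⟨v, mem_inter.2 ⟨hv, hvC⟩⟩ (fun he => hcon (by rw [← he]; exact inter_subset_right))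
  exact hC a (mem_inter.1 ha).2 b (hAU hb) (fun hbC => hbn (mem_inter.2 ⟨hb, hbC⟩)) hab

theorem exists_comp_conn {A : Finset ℕ} (hA : P512.Conn G A) (hAU : A ⊆ U) :
    ∃ C, IsComp G U C ∧ A ⊆ C := by
  obtain ⟨K, h1, h2, h3, h4⟩ := P512.hull G A U hA hAU
  exact ⟨K, ⟨h2, h3, fun a ha b hb hbn hab => hbn (h4 a ha b hb hab)⟩, h1⟩

theorem exists_xcomp {v : ℕ} (hv : v ∈ U) : ∃ C, IsComp G U C ∧ v ∈ C := by
  obtain ⟨K, h1, h2⟩ := exists_comp_conn (G := G) (U := U) (P512.conn_singleton G v)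
    (singleton_subset_iff.2 hv)
  exact ⟨K, h1, singleton_subset_iff.1 h2⟩

theorem IsComp.xeq_of_mem {C' : Finset ℕ} (h : IsComp G U C) (h' : IsComp G U C') {v : ℕ}
    (hv : v ∈ C) (hv' : v ∈ C') : C = C' := by
  exact Subset.antisymm (closed_sub h'.2.2 h.2.1 h.1 hv hv') (closed_sub h.2.2 h'.2.1 h'.1 hv' hv)

theorem IsComp.of_closed {J : Finset ℕ} (hJ : J ⊆ U)
    (hcl : ∀ a ∈ J, ∀ b ∈ U, b ∉ J → ¬ G.Adj a b) (h : IsComp G J C) : IsComp G U C := by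
  refine ⟨h.1.trans hJ, h.2.1, fun a ha b hb hbn hab => ?_⟩
  by_cases hbJ : b ∈ J
  · exact h.2.2 a ha b hbJ hbn hab
  · exact hcl a (h.1 ha) b hb hbJ hab

theorem IsComp.sub_closed {J : Finset ℕ} (h : IsComp G U C) (hCJ : C ⊆ J) (hJ : J ⊆ U) :
    IsComp G J C := by
  exact ⟨hCJ, h.2.1, fun a ha b hb hbn => h.2.2 a ha b (hJ hb) hbn⟩

theorem IsComp.congr {G' : Gr} (h : ∀ a ∈ U, ∀ b ∈ U, (G.Adj a b ↔ G'.Adj a b))
    (hC : IsComp G U C) : IsComp G' U C := by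
  refine ⟨hC.1, ?_, fun a ha b hb hbn hab => hC.2.2 a ha b hb hbn ((h a (hC.1 ha) b hb).2 hab)⟩
  refine ⟨hC.2.1.1, fun P hP hne hPC => ?_⟩
  obtain ⟨u, hu, v, hv, hvn, huv⟩ := hC.2.1.2 P hP hne hPC
  exact ⟨u, hu, v, hv, hvn, (h u (hC.1 (hP hu)) v (hC.1 hv)).1 huv⟩

theorem conn_congr {G' : Gr} (h : ∀ a ∈ U, ∀ b ∈ U, (G.Adj a b ↔ G'.Adj a b)) :
    P512.Conn G U ↔ P512.Conn G' U := by
  constructor
  · rintro ⟨h1, h2⟩
    refine ⟨h1, fun P hP hne hPC => ?_⟩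
    obtain ⟨u, hu, v, hv, hvn, huv⟩ := h2 P hP hne hPC
    exact ⟨u, hu, v, hv, hvn, (h u (hP hu) v hv).1 huv⟩
  · rintro ⟨h1, h2⟩
    refine ⟨h1, fun P hP hne hPC => ?_⟩
    obtain ⟨u, hu, v, hv, hvn, huv⟩ := h2 P hP hne hPC
    exact ⟨u, hu, v, hv, hvn, (h u (hP hu) v hv).2 huv⟩

theorem exists_other_comp (hU : ¬ P512.Conn G U) (hC : IsComp G U C) :
    ∃ C', IsComp G U C' ∧ Disjoint C C' := by
  have hne : ¬ U ⊆ C := fun hsub => hU (by
    rw [Subset.antisymm hsub hC.1]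
    exact hC.2.1)
  obtain ⟨v, hv, hvC⟩ := not_subset.1 hne
  obtain ⟨C', hC', hvC'⟩ := exists_xcomp (G := G) hv
  refine ⟨C', hC', disjoint_left.2 (fun w hw hw' => hvC ?_)⟩
  rw [hC.xeq_of_mem hC' hw hw']
  exact hvC'

/-- A set with two nonempty parts without edges between them is not connected. -/
theorem not_conn_of {P : Finset ℕ} (hP : P ⊆ U) (hne : P.Nonempty) (hPU : P ≠ U)
    (hcl : ∀ a ∈ P, ∀ b ∈ U, b ∉ P → ¬ G.Adj a b) : ¬ P512.Conn G U := by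
  intro hU
  obtain ⟨u, hu, v, hv, hvn, huv⟩ := hU.2 P hP hne hPU
  exact hcl u hu v hv hvn huv

theorem Three.adj_comp {W X : Finset ℕ} (h : Three G W) (hX : X ⊆ W) (hc : X.card = 3)
    (hCW : C ⊆ W) (hCX : Disjoint C X) (hne : C.Nonempty)
    (hcl : ∀ a ∈ C, ∀ b ∈ W, b ∉ X → b ∉ C → ¬ G.Adj a b) {z : ℕ} (hz : z ∈ W) (hzX : z ∉ X)
    (hzC : z ∉ C) {x : ℕ} (hx : x ∈ X) : ∃ c ∈ C, G.Adj c x := by
  obtain ⟨u, v, huv⟩ : ∃ u v, X.erase x = {u, v} := by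
    have : (X.erase x).card = 2 := by rw [card_erase_of_mem hx, hc]
    obtain ⟨u, v, -, h'⟩ := card_eq_two.1 this
    exact ⟨u, v, h'⟩
  have hu : u ∈ X := (mem_erase.1 (by rw [huv]; simp : u ∈ X.erase x)).2
  have hv : v ∈ X := (mem_erase.1 (by rw [huv]; simp : v ∈ X.erase x)).2
  have hXn : ∀ {y}, y ∉ X → y ≠ u ∧ y ≠ v := fun {y} hy =>
    ⟨fun he => hy (he ▸ hu), fun he => hy (he ▸ hv)⟩
  obtain ⟨a, ha, b, hb, hbn, hab⟩ := (h.2 u v).2 C (fun c hc' => by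
    have h1 := hXn (disjoint_left.1 hCX hc')
    exact mem_erase.2 ⟨h1.2, mem_erase.2 ⟨h1.1, hCW hc'⟩⟩) hne (fun he => by
    have h1 := hXn hzX
    apply hzC
    rw [he]
    exact mem_erase.2 ⟨h1.2, mem_erase.2 ⟨h1.1, hz⟩⟩)
  have hb1 := mem_erase.1 hb
  have hb2 := mem_erase.1 hb1.2
  have hbX : b ∈ X := by
    by_contra hbX
    exact hcl a ha b hb2.2 hbX hbn hab
  have hbx : b = x := by
    by_contra hbx
    have : b ∈ X.erase x := mem_erase.2 ⟨hbx, hbX⟩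
    rw [huv] at this
    simp only [mem_insert, mem_singleton] at this
    rcases this with h' | h'
    · exact hb2.1 h'
    · exact hb1.1 h'
  exact ⟨a, ha, hbx ▸ hab⟩

end K5
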