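import Pool.Agent.Lib.K5.Defs3
import Pool.Agent.Lib.P512.ConnB

/-!
# K5.XDefs: definitions for the existence half of the shredder level
-/

namespace K5

open Finset

/-- Wagner's theorem in the form needed here (proved in the `W` files). -/
def Wag : Prop :=
  ∀ (H : Gr) (Z : Finset ℕ), On H Z → Three H Z → Free H → (¬ ∃ X, Shr H Z X) →
    Mac H Z ∨ IsV8 H Z

/-- The part of `G` at the triple `X` with interior `J`, without the edges inside `X`. -/
def tg (G : Gr) (X J : Finset ℕ) : Gr where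
  Adj a b := G.Adj a b ∧ a ∈ X ∪ J ∧ b ∈ X ∪ J ∧ ¬ (a ∈ X ∧ b ∈ X)
  symm := ⟨fun _ _ h => ⟨h.1.symm, h.2.2.1, h.2.1, fun h' => h.2.2.2 ⟨h'.2, h'.1⟩⟩⟩
  loopless := ⟨fun a h => G.loopless.irrefl a h.1⟩

/-- The triple `X` separates the connected set `C` from the set `J`, which is not connected, in the
3-connected graph `G` on `X ∪ C ∪ J` without `K_5` minor. -/
structure Sep (G : Gr) (X C J : Finset ℕ) : Prop where
  card : X.card = 3
  dXC : Disjoint X C
  dXJ : Disjoint X J
  dCJ : Disjoint C J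
  on : On G (X ∪ C ∪ J)
  three : Three G (X ∪ C ∪ J)
  free : Free G
  conn : P512.Conn G C
  no : ∀ a ∈ C, ∀ b ∈ J, ¬ G.Adj a b
  ne : J.Nonempty
  nconn : ¬ P512.Conn G J

end K5
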