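import Pool.Agent.Lib.K5.XCode
import Pool.Agent.Lib.K5.XSep

/-!
# K5.XGlue: adding one more marked triangle to a code

`Sep G X C J`; `c1` is a code of the torso `G1 = rst G (X ∪ C) ⊔ clq X` (root `R1`, interior `U1`, `R1 ∪ U1 = X ∪ C`); `Z = R1 ∪ c1.Y` contains `X` and the new root `R`. New code `c` for the graph `G` with root `R`:
`Y = Z \ R`, `H = c1.H`, `M = insert X c1.M`, `V = Function.update c1.V X J`, `T = Function.update c1.T X (tg G X J)`, `F = {e | e ∈ G.edgeSet ∧ e ∈ c1.H.edgeSet ∧ Cov M e ∧ e ∉ (clq R).edgeSet}`.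
`R ∪ Y = Z`. Note `X ∉ c1.M`, so for `X' ∈ c1.M` nothing changes.
Valid: `sub`: `Z ⊆ X ∪ C ⊆ R ∪ U`. `core`: `On`, `Three`, `Free`, `Mac` are those of `c1.core`; the clique `R`: an edge `ab` of `R` is an edge of `G` inside `Z ⊆ X ∪ C`, so of `G1 = c1.comp R1`, so of `H` by `comp_core`; root condition: `hroot`.
`mark`: for `X`: `X` is a clique of `G1`, so of `H` by `comp_core`; `hconn`. `V_sub`: `J` is disjoint from `X ∪ C ⊇ R ∪ Y`, so `J ⊆ U \ Y`; `c1.V X' ⊆ U1 \ c1.Y` is disjoint from `Z` and contained in `X ∪ C`. `V_disj`: `J` is disjoint from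
`X ∪ C`. `V_cover`: `w ∈ U \ Y`: `w ∉ R` so `w ∉ Z`; `w ∈ J` or `w ∈ X ∪ C = R1 ∪ U1`, then `w ∈ U1 \ c1.Y`. `T_str`: `Sep.tstr`. `F_sub`: definition.
Comp: (G ≤ comp) an edge `ab` of `G`: if `a ∈ J` or `b ∈ J` both ends are in `X ∪ J` (`no`) and not both in `X`: `T X`. Otherwise `a, b ∈ X ∪ C` (`on`), so `ab` is an edge of `G1 = c1.comp R1`. If `a, b ∈ R` done. If `a, b ∈ Z`: edge of `H` by `comp_core`, and either not
covered by `M` (second case) or in `F`. If one of them is not in `Z`: `comp_out` gives `X' ∈ c1.M` (so `X' ≠ X`) with `T X'` (symmetrically for `b`).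
(comp ≤ G): `a, b ∈ R`: `hR`. Edge of `H` not covered by `M`: not covered by `c1.M`, so edge of `c1.comp R1 = G1`, and not both ends in `X` (it would be covered), so edge of `G`. `F`: definition. `T X'` with `X' = X`: `tg`. `X' ≠ X`: edge of `c1.comp R1 = G1`, and `a, b` are
not both in `X ⊆ Z` (`T_mem`), so edge of `G`.
-/

namespace K5

open Finset

namespace XGlueAux

theorem cov_insert {X : Finset ℕ} {M : Finset (Finset ℕ)} {a b : ℕ} :
    Cov (insert X M) s(a, b) ↔ (clq X).Adj a b ∨ Cov M s(a, b) := by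
  unfold Cov
  constructor
  · rintro ⟨X', hX', he⟩
    rcases Finset.mem_insert.1 hX' with rfl | hX'
    · exact Or.inl he
    · exact Or.inr ⟨X', hX', he⟩
  · rintro (h | ⟨X', hX', he⟩)
    · exact ⟨X, Finset.mem_insert_self _ _, h⟩
    · exact ⟨X', Finset.mem_insert_of_mem hX', he⟩

theorem comp_adj {R : Finset ℕ} {c : Code3} {a b : ℕ} : (c.comp R).Adj a b ↔
    a ≠ b ∧ ((a ∈ R ∧ b ∈ R) ∨ (c.H.Adj a b ∧ ¬ Cov c.M s(a, b)) ∨ s(a, b) ∈ c.F ∨
    ∃ X, (c.T X).Adj a b) := Iff.rfl

end XGlueAux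

theorem Sep.glue {G : Gr} {X C J R U R1 U1 : Finset ℕ} {c1 : Code3} (h : Sep G X C J)
    (hR : clq R ≤ G) (hd : Disjoint R U) (hW : R ∪ U = X ∪ C ∪ J) (h1 : c1.Valid R1 U1)
    (hU1 : R1 ∪ U1 = X ∪ C) (hcomp : c1.comp R1 = rst G (X ∪ C) ⊔ clq X)
    (hX : X ⊆ R1 ∪ c1.Y) (hXM : X ∉ c1.M) (hconn : P512.Conn c1.H ((R1 ∪ c1.Y) \ X))
    (hRY : R ⊆ R1 ∪ c1.Y) (hXR : X ≠ R) (hMR : ∀ X' ∈ c1.M, X' ≠ R)
    (hroot : R.card = 2 ∨ (R.card = 3 ∧ P512.Conn c1.H ((R1 ∪ c1.Y) \ R))) :
    ∃ c : Code3, c.Valid R U ∧ c.comp R = G := by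
  classical
  have hZ : R ∪ ((R1 ∪ c1.Y) \ R) = R1 ∪ c1.Y := Finset.union_sdiff_of_subset hRY
  -- `Z ⊆ X ∪ C`
  have hZC : ∀ a, a ∈ R1 ∪ c1.Y → a ∈ X ∪ C := by
    intro a ha
    rw [← hU1]
    rcases Finset.mem_union.1 ha with ha | ha
    · exact Finset.mem_union_left _ ha
    · exact Finset.mem_union_right _ (h1.sub ha)
  have hXC : ∀ a, a ∈ X ∪ C → a ∈ R ∪ U := by
    intro a ha
    rw [hW]
    exact Finset.mem_union_left _ ha
  have hJC : ∀ a, a ∈ J → a ∉ X ∪ C := by
    intro a ha hm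
    rcases Finset.mem_union.1 hm with hm | hm
    · exact Finset.disjoint_left.1 h.dXJ hm ha
    · exact Finset.disjoint_left.1 h.dCJ hm ha
  have hJZ : ∀ a, a ∈ J → a ∉ R1 ∪ c1.Y := fun a ha hm => hJC a ha (hZC a hm)
  have hJU : ∀ a, a ∈ J → a ∈ R ∪ U := by
    intro a ha
    rw [hW]
    exact Finset.mem_union_right _ ha
  -- interior vertices of the old marks
  have hV : ∀ X' ∈ c1.M, ∀ a ∈ c1.V X', a ∉ R1 ∪ c1.Y ∧ a ∈ X ∪ C := by
    intro X' hX' a ha
    have h2 := Finset.mem_sdiff.1 (h1.V_sub X' hX' ha)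
    refine ⟨fun hm => ?_, ?_⟩
    · rcases Finset.mem_union.1 hm with hm | hm
      · exact Finset.disjoint_left.1 h1.disj hm h2.1
      · exact h2.2 hm
    · rw [← hU1]
      exact Finset.mem_union_right _ h2.1
  have hneX : ∀ X' ∈ c1.M, X' ≠ X := fun X' hX' he => hXM (he ▸ hX')
  -- edges of the torso
  have tors : ∀ a b, (c1.comp R1).Adj a b ↔ (G.Adj a b ∧ a ∈ X ∪ C ∧ b ∈ X ∪ C) ∨ (clq X).Adj a b := by
    intro a b
    rw [hcomp]
    exact Iff.rfl
  have clX : ∀ a b, (clq X).Adj a b → c1.H.Adj a b := by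
    intro a b hab
    exact h1.comp_core ((tors a b).2 (Or.inr hab)) (hX hab.2.1) (hX hab.2.2)
  refine ⟨{ Y := (R1 ∪ c1.Y) \ R, H := c1.H, M := insert X c1.M, V := Function.update c1.V X J,
            T := Function.update c1.T X (tg G X J),
            F := {e | e ∈ G.edgeSet ∧ e ∈ c1.H.edgeSet ∧ Cov (insert X c1.M) e ∧ e ∉ (clq R).edgeSet} }, ?_, ?_⟩
  · constructor
    · exact hd
    · intro a ha
      obtain ⟨ha1, ha2⟩ := Finset.mem_sdiff.1 ha
      exact (Finset.mem_union.1 (hXC a (hZC a ha1))).resolve_left ha2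
    · -- core
      refine ⟨⟨Finset.disjoint_sdiff, ?_, ?_, ?_, h1.core.rtd.free, ?_⟩, ?_⟩
      · rw [hZ]; exact h1.core.rtd.on
      · intro a b hab
        have e1 : G.Adj a b := hR hab
        exact h1.comp_core ((tors a b).2 (Or.inl ⟨e1, hZC a (hRY hab.2.1), hZC b (hRY hab.2.2)⟩)) (hRY hab.2.1)
          (hRY hab.2.2)
      · rw [hZ]; exact h1.core.rtd.three
      · exact hroot
      · rw [hZ]; exact h1.core.mac
    · -- mark
      intro X' hX'
      show NT c1.H (R ∪ ((R1 ∪ c1.Y) \ R)) X' ∧ X' ≠ R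
      rw [hZ]
      rcases Finset.mem_insert.1 hX' with rfl | hX'
      · exact ⟨⟨hX, h.card, fun a b hab => clX a b hab, hconn⟩, hXR⟩
      · exact ⟨(h1.mark X' hX').1, hMR X' hX'⟩
    · -- V_sub
      intro X' hX'
      show Function.update c1.V X J X' ⊆ U \ ((R1 ∪ c1.Y) \ R)
      rcases Finset.mem_insert.1 hX' with rfl | hX'
      · rw [Function.update_self]
        intro a ha
        rw [Finset.mem_sdiff, Finset.mem_sdiff]
        exact ⟨(Finset.mem_union.1 (hJU a ha)).resolve_left fun hm => hJZ a ha (hRY hm), fun hm => hJZ a ha hm.1⟩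
      · rw [Function.update_of_ne (hneX X' hX')]
        intro a ha
        obtain ⟨g1, g2⟩ := hV X' hX' a ha
        rw [Finset.mem_sdiff, Finset.mem_sdiff]
        exact ⟨(Finset.mem_union.1 (hXC a g2)).resolve_left fun hm => g1 (hRY hm), fun hm => g1 hm.1⟩
    · -- V_disj
      intro X1 hX1 X2 hX2 hne
      show Disjoint (Function.update c1.V X J X1) (Function.update c1.V X J X2)
      rcases Finset.mem_insert.1 hX1 with e1 | g1
      · rcases Finset.mem_insert.1 hX2 with e2 | g2
        · exact absurd (e1.trans e2.symm) hne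
        · rw [e1, Function.update_self, Function.update_of_ne (hneX X2 g2)]
          exact Finset.disjoint_left.2 fun a ha hb => hJC a ha (hV X2 g2 a hb).2
      · rcases Finset.mem_insert.1 hX2 with e2 | g2
        · rw [e2, Function.update_self, Function.update_of_ne (hneX X1 g1)]
          exact Finset.disjoint_left.2 fun a ha hb => hJC a hb (hV X1 g1 a ha).2
        · rw [Function.update_of_ne (hneX X1 g1), Function.update_of_ne (hneX X2 g2)]
          exact h1.V_disj X1 g1 X2 g2 hne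
    · -- V_cover
      intro w hw
      show ∃ X' ∈ insert X c1.M, w ∈ Function.update c1.V X J X'
      obtain ⟨hw1, hw2⟩ := Finset.mem_sdiff.1 hw
      have hwR : w ∉ R := fun hm => Finset.disjoint_left.1 hd hm hw1
      have hwZ : w ∉ R1 ∪ c1.Y := fun hm => hw2 (Finset.mem_sdiff.2 ⟨hm, hwR⟩)
      have hwW : w ∈ X ∪ C ∪ J := by
        rw [← hW]
        exact Finset.mem_union_right _ hw1
      rcases Finset.mem_union.1 hwW with hw3 | hw3
      · rw [← hU1] at hw3
        have hw4 : w ∈ U1 := (Finset.mem_union.1 hw3).resolve_left fun hm => hwZ (Finset.mem_union_left _ hm)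
        obtain ⟨X', hX', hwX'⟩ := h1.V_cover w
          (Finset.mem_sdiff.2 ⟨hw4, fun hm => hwZ (Finset.mem_union_right _ hm)⟩)
        refine ⟨X', Finset.mem_insert_of_mem hX', ?_⟩
        rw [Function.update_of_ne (hneX X' hX')]
        exact hwX'
      · refine ⟨X, Finset.mem_insert_self _ _, ?_⟩
        rw [Function.update_self]
        exact hw3
    · -- T_str
      intro X' hX'
      show TStr X' (Function.update c1.V X J X') (Function.update c1.T X (tg G X J) X')
      rcases Finset.mem_insert.1 hX' with rfl | hX'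
      · rw [Function.update_self, Function.update_self]
        exact h.tstr
      · rw [Function.update_of_ne (hneX X' hX'), Function.update_of_ne (hneX X' hX')]
        exact h1.T_str X' hX'
    · -- V_out
      intro X' hX'
      show Function.update c1.V X J X' = ∅
      have hX'' : X' ∉ insert X c1.M := hX'
      rw [Finset.mem_insert, not_or] at hX''
      rw [Function.update_of_ne hX''.1]
      exact h1.V_out X' hX''.2
    · -- T_out
      intro X' hX'
      show Function.update c1.T X (tg G X J) X' = ⊥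
      have hX'' : X' ∉ insert X c1.M := hX'
      rw [Finset.mem_insert, not_or] at hX''
      rw [Function.update_of_ne hX''.1]
      exact h1.T_out X' hX''.2
    · intro e he
      exact ⟨he.2.1, he.2.2.1, he.2.2.2⟩
  · -- the graph of the new code
    ext a b
    rw [XGlueAux.comp_adj]
    show (a ≠ b ∧ ((a ∈ R ∧ b ∈ R) ∨ (c1.H.Adj a b ∧ ¬ Cov (insert X c1.M) s(a, b)) ∨
      (G.Adj a b ∧ c1.H.Adj a b ∧ Cov (insert X c1.M) s(a, b) ∧ s(a, b) ∉ (clq R).edgeSet) ∨
      ∃ X', (Function.update c1.T X (tg G X J) X').Adj a b)) ↔ G.Adj a b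
    constructor
    · rintro ⟨hne, hab | ⟨hH, hcov⟩ | hF | ⟨X', hX'⟩⟩
      · exact hR ⟨hne, hab⟩
      · rw [XGlueAux.cov_insert, not_or] at hcov
        have g1 : (c1.comp R1).Adj a b := ⟨hne, Or.inr (Or.inl ⟨hH, hcov.2⟩)⟩
        rcases (tors a b).1 g1 with g2 | g2
        · exact g2.1
        · exact absurd g2 hcov.1
      · exact hF.1
      · by_cases he : X' = X
        · subst he
          rw [Function.update_self] at hX'
          exact hX'.1
        · rw [Function.update_of_ne he] at hX'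
          have g0 := h1.T_mem hX'
          have g1 : (c1.comp R1).Adj a b := ⟨hne, Or.inr (Or.inr (Or.inr ⟨X', hX'⟩))⟩
          rcases (tors a b).1 g1 with g2 | g2
          · exact g2.1
          · exact absurd ⟨hX g2.2.1, hX g2.2.2⟩ g0.2.2.2
    · intro hG
      have hne : a ≠ b := hG.ne
      refine ⟨hne, ?_⟩
      have hon : ∀ u v, G.Adj u v → u ∈ X ∪ C ∪ J := h.on
      have ha := hon a b hG
      have hb := hon b a hG.symm
      -- an edge with an end in `J`
      have key : ∀ u v, G.Adj u v → u ∈ J → v ∈ X ∪ C ∪ J → v ∈ X ∪ J := by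
        intro u v huv hu hv
        rcases Finset.mem_union.1 hv with hv | hv
        · rcases Finset.mem_union.1 hv with hv | hv
          · exact Finset.mem_union_left _ hv
          · exact absurd huv.symm (h.no v hv u hu)
        · exact Finset.mem_union_right _ hv
      by_cases haJ : a ∈ J
      · refine Or.inr (Or.inr (Or.inr ⟨X, ?_⟩))
        rw [Function.update_self]
        exact ⟨hG, Finset.mem_union_right _ haJ, key a b hG haJ hb,
          fun hm => Finset.disjoint_left.1 h.dXJ hm.1 haJ⟩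
      by_cases hbJ : b ∈ J
      · refine Or.inr (Or.inr (Or.inr ⟨X, ?_⟩))
        rw [Function.update_self]
        exact ⟨hG, key b a hG.symm hbJ ha, Finset.mem_union_right _ hbJ,
          fun hm => Finset.disjoint_left.1 h.dXJ hm.2 hbJ⟩
      have ha1 : a ∈ X ∪ C := (Finset.mem_union.1 ha).resolve_right haJ
      have hb1 : b ∈ X ∪ C := (Finset.mem_union.1 hb).resolve_right hbJ
      have g1 : (c1.comp R1).Adj a b := (tors a b).2 (Or.inl ⟨hG, ha1, hb1⟩)
      by_cases hRR : a ∈ R ∧ b ∈ R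
      · exact Or.inl hRR
      by_cases haZ : a ∈ R1 ∪ c1.Y
      · by_cases hbZ : b ∈ R1 ∪ c1.Y
        · have g2 := h1.comp_core g1 haZ hbZ
          by_cases hcov : Cov (insert X c1.M) s(a, b)
          · refine Or.inr (Or.inr (Or.inl ⟨hG, g2, hcov, fun hm => hRR ?_⟩))
            exact hm.2
          · exact Or.inr (Or.inl ⟨g2, hcov⟩)
        · obtain ⟨X', hX', hT, -, -⟩ := h1.comp_out g1.symm hbZ
          refine Or.inr (Or.inr (Or.inr ⟨X', ?_⟩))
          rw [Function.update_of_ne (hneX X' hX')]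
          exact hT.symm
      · obtain ⟨X', hX', hT, -, -⟩ := h1.comp_out g1 haZ
        refine Or.inr (Or.inr (Or.inr ⟨X', ?_⟩))
        rw [Function.update_of_ne (hneX X' hX')]
        exact hT

end K5
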