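import Pool.Agent.Lib.K5.XDefs
import Pool.Agent.Lib.K5.Sum

/-!
# K5.XStar: contracting a connected set into one of its neighbours

`G'` has all its edges in `S`; `R` is connected in `G`, disjoint from `S`, joined to `u ∈ S` and to every vertex of `N`; every edge of `G'` is an edge of `G` or joins `u` to a vertex of `N`. If `G'` had a `K_5` minor, there
would be a model `B` of `K_5` in `G'` with all `B i ⊆ S` (`k5in_of_k5`). If `u` is in no `B i`, then `B` is a model in `G` (no edge used has the end `u`). If `u ∈ B i0`, replace `B i0` by `B i0 ∪ R`, the others unchanged.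
* Connected: `B j`, `j ≠ i0`: all edges of `G'` inside `B j` are edges of `G`. `B i0 ∪ R`: let `P` be a proper nonempty subset, `Q` the rest. If both meet `R` use `Conn G R`. Otherwise exchange `P` and `Q`, if necessary, so
  that `R ⊆ Q`, `P ⊆ B i0`. If `P = B i0` use the edge from `R` to `u`. Otherwise `Conn G' (B i0)` gives an edge `ab` of `G'` with `a ∈ P`, `b ∈ B i0 \ P`. If it is an edge of `G` it is the edge wanted. If `a = u` use the
  edge from `u` to `R`. If `b = u` and `a ∈ N` use the edge from `a` to `R`. (All in the direction from `P` to `Q`; `P512.conn_of_forall` with a root in `R` removes the exchange.)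
* Disjoint: `R` is disjoint from `S`.
* Joined: an edge `ab` of `G'` from `B i` to `B j` that is not an edge of `G`: say `a = u`, `b ∈ N`: `i = i0`, and `b` is joined to `R ⊆ B i0 ∪ R`.
-/

namespace K5

open Finset

theorem free_add_star {G G' : Gr} (hG : Free G) {S R N : Finset ℕ} {u : ℕ} (hu : u ∈ S)
    (hR : P512.Conn G R) (hRS : Disjoint R S) (hRu : ∃ r ∈ R, G.Adj r u)
    (hRN : ∀ v ∈ N, ∃ r ∈ R, G.Adj r v) (hon : On G' S)
    (hG' : ∀ a b, G'.Adj a b → G.Adj a b ∨ (a = u ∧ b ∈ N) ∨ (b = u ∧ a ∈ N)) : Free G' := by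
  classical
  intro h5
  obtain ⟨B, ⟨hconn, hdisj, hjoin⟩, hBS⟩ := k5in_of_k5 hon h5
  apply hG
  obtain ⟨r1, hr1, hr1u⟩ := hRu
  obtain ⟨B', hB'⟩ : ∃ B' : Fin 5 → Finset ℕ, B' = fun i => if u ∈ B i then B i ∪ R else B i :=
    ⟨_, rfl⟩
  have hin : ∀ i, u ∈ B i → B' i = B i ∪ R := fun i h => by
    rw [hB']
    exact if_pos h
  have hout : ∀ i, u ∉ B i → B' i = B i := fun i h => by
    rw [hB']
    exact if_neg h
  have hsub : ∀ i, B i ⊆ B' i := fun i => by
    by_cases h : u ∈ B i
    · rw [hin i h]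
      exact Finset.subset_union_left
    · rw [hout i h]
  have hsubR : ∀ i, u ∈ B i → R ⊆ B' i := fun i h => by
    rw [hin i h]
    exact Finset.subset_union_right
  refine ⟨B', fun i => ?_, fun i j hij => ?_, fun i j hij => ?_⟩
  · by_cases h : u ∈ B i
    · rw [hin i h]
      refine P512.conn_of_forall (r := r1) (Finset.mem_union_right _ hr1) fun P hP hrP hne => ?_
      by_cases hRP : R ⊆ P
      · obtain ⟨x, hx, hxP⟩ : ∃ x ∈ B i, x ∉ P := by
          by_contra hcon
          push Not at hcon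
          exact hne (Finset.Subset.antisymm hP (Finset.union_subset hcon hRP))
        by_cases huP : u ∈ P
        · obtain ⟨a, ha, b, hb, hbn, hab⟩ := (hconn i).2 (B i ∩ P) Finset.inter_subset_left
            ⟨u, Finset.mem_inter.mpr ⟨h, huP⟩⟩
            (fun h1 => hxP (Finset.mem_inter.mp (h1 ▸ hx)).2)
          rw [Finset.mem_inter] at ha
          have hbP : b ∉ P := fun h1 => hbn (Finset.mem_inter.mpr ⟨hb, h1⟩)
          rcases hG' a b hab with h1 | h1 | h1
          · exact ⟨a, ha.2, b, Finset.mem_union_left _ hb, hbP, h1⟩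
          · obtain ⟨r, hr, hrb⟩ := hRN b h1.2
            exact ⟨r, hRP hr, b, Finset.mem_union_left _ hb, hbP, hrb⟩
          · exact absurd (h1.1 ▸ huP) hbP
        · exact ⟨r1, hrP, u, Finset.mem_union_left _ h, huP, hr1u⟩
      · obtain ⟨a, ha, b, hb, hbn, hab⟩ := hR.2 (R ∩ P) Finset.inter_subset_left
          ⟨r1, Finset.mem_inter.mpr ⟨hr1, hrP⟩⟩
          (fun h1 => hRP (fun x hx => (Finset.mem_inter.mp (h1 ▸ hx)).2))
        rw [Finset.mem_inter] at ha
        exact ⟨a, ha.2, b, Finset.mem_union_right _ hb,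
          fun h1 => hbn (Finset.mem_inter.mpr ⟨hb, h1⟩), hab⟩
    · rw [hout i h]
      refine ⟨(hconn i).1, fun P hP hne hneq => ?_⟩
      obtain ⟨a, ha, b, hb, hbn, hab⟩ := (hconn i).2 P hP hne hneq
      refine ⟨a, ha, b, hb, hbn, ?_⟩
      rcases hG' a b hab with h1 | h1 | h1
      · exact h1
      · exact absurd (h1.1 ▸ hP ha) h
      · exact absurd (h1.1 ▸ hb) h
  · have hR1 : ∀ k, Disjoint R (B k) := fun k => Finset.disjoint_of_subset_right (hBS k) hRS
    by_cases hi : u ∈ B i
    · have hj : u ∉ B j := fun h1 => Finset.disjoint_left.mp (hdisj i j hij) hi h1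
      rw [hin i hi, hout j hj, Finset.disjoint_union_left]
      exact ⟨hdisj i j hij, hR1 j⟩
    · rw [hout i hi]
      by_cases hj : u ∈ B j
      · rw [hin j hj, Finset.disjoint_union_right]
        exact ⟨hdisj i j hij, (hR1 i).symm⟩
      · rw [hout j hj]
        exact hdisj i j hij
  · obtain ⟨a, ha, b, hb, hab⟩ := hjoin i j hij
    rcases hG' a b hab with h1 | h1 | h1
    · exact ⟨a, hsub i ha, b, hsub j hb, h1⟩
    · obtain ⟨r, hr, hrb⟩ := hRN b h1.2
      exact ⟨r, hsubR i (h1.1 ▸ ha) hr, b, hsub j hb, hrb⟩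
    · obtain ⟨r, hr, hra⟩ := hRN a h1.2
      exact ⟨a, hsub i ha, r, hsubR j (h1.1 ▸ hb) hr, hra.symm⟩

end K5
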