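import Pool.Agent.Lib.K5.XComp
import Pool.Agent.Lib.K5.XStar

/-!
# K5.XTor: the torso at a triple is 3-connected and has no `K_5` minor

`Sep G X C J`, `W = X ∪ C ∪ J`, `G' = rst G (X ∪ C) ⊔ clq X` (the graph on `X ∪ C` with the triangle `X` added).
1. `conn_torso` (general): `S ⊆ W` connected in `G`, `S \ J` nonempty; then `S \ J` is connected in `G'`. Let `P` be a proper nonempty subset of `S \ J`, `Q` the rest. If `X` meets both, use an edge of the triangle `X`.
   Otherwise `X` does not meet `P` or does not meet `Q`. If `X ∩ P = ∅`: `Conn G S` for the set `P` gives an edge `ab` of `G`, `a ∈ P`, `b ∈ S \ P`; `a ∈ C`, so `b ∉ J` (`no`), so `b ∈ Q` and `a, b ∈ X ∪ C`. If `X ∩ Q = ∅` the same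
   for `Q` (edges are symmetric).
2. `Sep.torso_three`: `|X ∪ C| ≥ 4` as `C` is nonempty. For `u, v`: `((X ∪ C).erase u).erase v = ((W.erase u).erase v) \ J` if `u, v ∉ J`, else use `W.erase` of the one that is not in `J`, or a vertex outside `W`: in general
   `((X ∪ C).erase u).erase v = ((W.erase u').erase v') \ J` where `u' = u` if `u ∉ J` and `u'` = a number outside `W` if `u ∈ J`, the same for `v'`; it is nonempty because `|X ∪ C| ≥ 4`. Apply 1.
3. `Sep.adj`: every component `K` of `G` in `J` and also `C` is joined to every vertex of `X`: `Three.adj_comp`.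
4. `Sep.torso_free`: `J` has two disjoint components `K1, K2` (`exists_other_comp`). `X = {x1, x2, x3}`. Let `G1 = rst G (W \ K1) ⊔ (edges x1 x2, x1 x3)`: no `K_5` minor by `free_add_star` with `R = K1`, `u = x1`, `N = {x2, x3}`,
   `S = W \ K1`. Then `G'` has no `K_5` minor by `free_add_star` for the graph `G1` with `R = K2`, `u = x2`, `N = {x3}`, `S = X ∪ C` (`K2` is connected in `G1` and joined in `G1` to `x2` and `x3`, as `K2` is disjoint from `K1`; every
   edge of `G'` is an edge of `G1` or `x2 x3`).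
5. `Sep.rtd_X`: `Rtd X C G'`, the root condition is `conn` (`C` is disjoint from `X`, so `G` and `G'` agree on `C`: `conn_congr`).
6. `Sep.rtd`: root triangle `R ⊆ X ∪ C`, `R ≠ X`, `R ∪ U = W`: `On`, clique (`G` has the edges of `R`, both ends in `X ∪ C`), `Three`, `Free` as above; `(U \ J)` is nonempty: it contains `X \ R` (`|X| = |R| = 3`, `X ≠ R`), and `Conn G' (U \ J)` is 1. for
   `S = U`.
-/

namespace K5

open Finset

variable {G : Gr} {X C J : Finset ℕ}

namespace XTorAux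

/-- The star with centre `u` and leaves in `N`. -/
def star (u : ℕ) (N : Finset ℕ) : Gr where
  Adj a b := a ≠ b ∧ ((a = u ∧ b ∈ N) ∨ (b = u ∧ a ∈ N))
  symm := ⟨fun _ _ h => ⟨h.1.symm, h.2.symm⟩⟩
  loopless := ⟨fun _ h => h.1 rfl⟩

theorem subX (X C J : Finset ℕ) : X ⊆ X ∪ C ∪ J := fun _ hx =>
  mem_union_left _ (mem_union_left _ hx)

theorem subC (X C J : Finset ℕ) : C ⊆ X ∪ C ∪ J := fun _ hx =>
  mem_union_left _ (mem_union_right _ hx)

theorem subJ (X C J : Finset ℕ) : J ⊆ X ∪ C ∪ J := fun _ hx => mem_union_right _ hx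

theorem notJ (h : Sep G X C J) {w : ℕ} (hw : w ∈ X ∪ C) : w ∉ J := by
  intro hJ
  rcases mem_union.1 hw with h1 | h1
  · exact disjoint_left.1 h.dXJ h1 hJ
  · exact disjoint_left.1 h.dCJ h1 hJ

end XTorAux

open XTorAux

theorem Sep.conn_torso (h : Sep G X C J) {S : Finset ℕ} (hS : S ⊆ X ∪ C ∪ J)
    (hc : P512.Conn G S) (hne : (S \ J).Nonempty) :
    P512.Conn (rst G (X ∪ C) ⊔ clq X) (S \ J) := by
  -- an edge of `G` leaving a subset of `S \ J` that does not meet `X`
  have key : ∀ P : Finset ℕ, P ⊆ S \ J → P.Nonempty → P ≠ S → (∀ x ∈ P, x ∉ X) →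
      ∃ a ∈ P, ∃ b ∈ S \ J, b ∉ P ∧ (rst G (X ∪ C)).Adj a b := by
    intro P hP hPne hPS hPX
    obtain ⟨a, ha, b, hb, hbn, hab⟩ := hc.2 P (hP.trans sdiff_subset) hPne hPS
    have haS := mem_sdiff.1 (hP ha)
    have haC : a ∈ C := by
      rcases mem_union.1 (hS haS.1) with h1 | h1
      · rcases mem_union.1 h1 with h2 | h2
        · exact absurd h2 (hPX a ha)
        · exact h2
      · exact absurd h1 haS.2
    have hbJ : b ∉ J := fun hbJ => h.no a haC b hbJ hab
    have hbXC : b ∈ X ∪ C := (mem_union.1 (hS hb)).resolve_right hbJ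
    exact ⟨a, ha, b, mem_sdiff.2 ⟨hb, hbJ⟩, hbn, hab, mem_union_right _ haC, hbXC⟩
  refine ⟨hne, fun P hP hPne hPneq => ?_⟩
  obtain ⟨q, hq, hqP⟩ : ∃ q ∈ S \ J, q ∉ P := by
    by_contra hcon
    push Not at hcon
    exact hPneq (Subset.antisymm hP hcon)
  by_cases h1 : ∀ x ∈ P, x ∉ X
  · obtain ⟨a, ha, b, hb, hbn, hab⟩ := key P hP hPne (fun he => hqP (by
      rw [he]
      exact (mem_sdiff.1 hq).1)) h1
    exact ⟨a, ha, b, hb, hbn, Or.inl hab⟩
  · by_cases h2 : ∀ x ∈ (S \ J) \ P, x ∉ X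
    · obtain ⟨p, hp⟩ := hPne
      obtain ⟨a, ha, b, hb, hbn, hab⟩ := key ((S \ J) \ P) sdiff_subset
        ⟨q, mem_sdiff.2 ⟨hq, hqP⟩⟩ (fun he => by
          have h3 : p ∈ (S \ J) \ P := by
            rw [he]
            exact (mem_sdiff.1 (hP hp)).1
          exact (mem_sdiff.1 h3).2 hp) h2
      have ha' := mem_sdiff.1 ha
      have hbP : b ∈ P := by
        by_contra hbP
        exact hbn (mem_sdiff.2 ⟨hb, hbP⟩)
      exact ⟨b, hbP, a, ha'.1, ha'.2, Or.inl hab.symm⟩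
    · push Not at h1 h2
      obtain ⟨x, hx, hxX⟩ := h1
      obtain ⟨y, hy, hyX⟩ := h2
      have hy' := mem_sdiff.1 hy
      exact ⟨x, hx, y, hy'.1, hy'.2, Or.inr ⟨fun he => hy'.2 (he ▸ hx), hxX, hyX⟩⟩

theorem Sep.torso_on (h : Sep G X C J) : On (rst G (X ∪ C) ⊔ clq X) (X ∪ C) := by
  intro u v huv
  rcases huv with h1 | h1
  · exact h1.2.1
  · exact mem_union_left _ h1.2.1

theorem Sep.torso_three (h : Sep G X C J) : Three (rst G (X ∪ C) ⊔ clq X) (X ∪ C) := by
  have hcard : 4 ≤ (X ∪ C).card := by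
    rw [card_union_of_disjoint h.dXC, h.card]
    have := h.conn.1.card_pos
    omega
  refine ⟨hcard, fun u v => ?_⟩
  obtain ⟨z, hz⟩ : ∃ z, z ∉ X ∪ C ∪ J := Infinite.exists_notMem_finset _
  have aux : ∀ u : ℕ, ∃ u', ∀ w ∈ X ∪ C, (w ≠ u' ↔ w ≠ u) := by
    intro u
    by_cases hu : u ∈ J
    · refine ⟨z, fun w hw => ⟨fun _ he => notJ h hw (he ▸ hu), fun _ he => hz ?_⟩⟩
      rw [← he]
      exact mem_union_left _ hw
    · exact ⟨u, fun w _ => Iff.rfl⟩
  obtain ⟨u', hu'⟩ := aux u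
  obtain ⟨v', hv'⟩ := aux v
  have hE : (((X ∪ C ∪ J).erase u').erase v') \ J = ((X ∪ C).erase u).erase v := by
    ext w
    simp only [mem_sdiff, mem_erase]
    constructor
    · rintro ⟨⟨h1, h2, h3⟩, h4⟩
      have h5 : w ∈ X ∪ C := (mem_union.1 h3).resolve_right h4
      exact ⟨(hv' w h5).1 h1, (hu' w h5).1 h2, h5⟩
    · rintro ⟨h1, h2, h3⟩
      exact ⟨⟨(hv' w h3).2 h1, (hu' w h3).2 h2, mem_union_left _ h3⟩, notJ h h3⟩
  rw [← hE]
  refine h.conn_torso ((erase_subset _ _).trans (erase_subset _ _)) (h.three.2 u' v') ?_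
  rw [hE, ← card_pos]
  have h1 := pred_card_le_card_erase (s := X ∪ C) (a := u)
  have h2 := pred_card_le_card_erase (s := (X ∪ C).erase u) (a := v)
  omega

theorem Sep.adj_J (h : Sep G X C J) {K : Finset ℕ} (hK : IsComp G J K) {x : ℕ} (hx : x ∈ X) :
    ∃ k ∈ K, G.Adj k x := by
  obtain ⟨z, hz⟩ := h.conn.1
  refine Three.adj_comp h.three (subX X C J) h.card (hK.1.trans (subJ X C J)) ?_ hK.2.1.1 ?_
    (subC X C J hz) (fun hzX => disjoint_left.1 h.dXC hzX hz)
    (fun hzK => disjoint_left.1 h.dCJ hz (hK.1 hzK)) hx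
  · exact disjoint_left.2 (fun w hw hwX => disjoint_left.1 h.dXJ hwX (hK.1 hw))
  · intro a ha b hb hbX hbK hab
    rcases mem_union.1 hb with h1 | h1
    · exact h.no b ((mem_union.1 h1).resolve_left hbX) a (hK.1 ha) hab.symm
    · exact hK.2.2 a ha b h1 hbK hab

theorem Sep.adj_C (h : Sep G X C J) {x : ℕ} (hx : x ∈ X) : ∃ k ∈ C, G.Adj k x := by
  obtain ⟨z, hz⟩ := h.ne
  refine Three.adj_comp h.three (subX X C J) h.card (subC X C J) h.dXC.symm h.conn.1 ?_
    (subJ X C J hz) (fun hzX => disjoint_left.1 h.dXJ hzX hz)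
    (fun hzC => disjoint_left.1 h.dCJ hzC hz) hx
  intro a ha b hb hbX hbC hab
  rcases mem_union.1 hb with h1 | h1
  · rcases mem_union.1 h1 with h2 | h2
    · exact hbX h2
    · exact hbC h2
  · exact h.no a ha b h1 hab

theorem Sep.torso_free (h : Sep G X C J) : Free (rst G (X ∪ C) ⊔ clq X) := by
  obtain ⟨v, hv⟩ := h.ne
  obtain ⟨K1, hK1, -⟩ := exists_xcomp (G := G) hv
  obtain ⟨K2, hK2, hd⟩ := exists_other_comp h.nconn hK1
  obtain ⟨x1, x2, x3, h12, h13, h23, hX⟩ := card_eq_three.1 h.card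
  have m1 : x1 ∈ X := by rw [hX]; simp
  have m2 : x2 ∈ X := by rw [hX]; simp
  have m3 : x3 ∈ X := by rw [hX]; simp
  -- the vertices of `X ∪ C` and of `K2` lie outside `K1`
  have hXC : ∀ w ∈ X ∪ C, w ∈ (X ∪ C ∪ J) \ K1 := fun w hw =>
    mem_sdiff.2 ⟨mem_union_left _ hw, fun hK => notJ h hw (hK1.1 hK)⟩
  have hXK : ∀ w ∈ X, w ∈ (X ∪ C ∪ J) \ K1 := fun w hw => hXC w (mem_union_left _ hw)
  have hK2s : ∀ w ∈ K2, w ∈ (X ∪ C ∪ J) \ K1 := fun w hw =>
    mem_sdiff.2 ⟨subJ X C J (hK2.1 hw), fun hK => disjoint_left.1 hd hK hw⟩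
  have hfree1 : Free (rst G ((X ∪ C ∪ J) \ K1) ⊔ star x1 {x2, x3}) := by
    refine free_add_star h.free (S := (X ∪ C ∪ J) \ K1) (R := K1) (N := {x2, x3}) (u := x1)
      (hXK x1 m1) hK1.2.1 disjoint_sdiff (h.adj_J hK1 m1) ?_ ?_ ?_
    · intro y hy
      simp only [mem_insert, mem_singleton] at hy
      rcases hy with rfl | rfl
      · exact h.adj_J hK1 m2
      · exact h.adj_J hK1 m3
    · intro a b hab
      rcases hab with h1 | h1
      · exact h1.2.1
      · rcases h1.2 with h2 | h2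
        · rw [h2.1]
          exact hXK x1 m1
        · have h3 := h2.2
          simp only [mem_insert, mem_singleton] at h3
          rcases h3 with h3 | h3
          · rw [h3]
            exact hXK x2 m2
          · rw [h3]
            exact hXK x3 m3
    · intro a b hab
      rcases hab with h1 | h1
      · exact Or.inl h1.1
      · exact Or.inr h1.2
  refine free_add_star hfree1 (S := X ∪ C) (R := K2) (N := {x3}) (u := x2)
    (mem_union_left _ m2) ?_ ?_ ?_ ?_ h.torso_on ?_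
  · refine (conn_congr (fun a ha b hb => ⟨fun hab => Or.inl ⟨hab, hK2s a ha, hK2s b hb⟩,
      fun hab => ?_⟩)).1 hK2.2.1
    rcases hab with h1 | h1
    · exact h1.1
    · exfalso
      have ha' : a ∉ X := fun hX' => disjoint_left.1 h.dXJ hX' (hK2.1 ha)
      have hb' : b ∉ X := fun hX' => disjoint_left.1 h.dXJ hX' (hK2.1 hb)
      rcases h1.2 with h2 | h2
      · exact ha' (h2.1 ▸ m1)
      · exact hb' (h2.1 ▸ m1)
  · exact disjoint_left.2 (fun w hw hwX => notJ h hwX (hK2.1 hw))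
  · obtain ⟨k, hk, hkx⟩ := h.adj_J hK2 m2
    exact ⟨k, hk, Or.inl ⟨hkx, hK2s k hk, hXK x2 m2⟩⟩
  · intro y hy
    rw [mem_singleton] at hy
    subst hy
    obtain ⟨k, hk, hkx⟩ := h.adj_J hK2 m3
    exact ⟨k, hk, Or.inl ⟨hkx, hK2s k hk, hXK y m3⟩⟩
  · intro a b hab
    rcases hab with h1 | h1
    · exact Or.inl (Or.inl ⟨h1.1, hXC a h1.2.1, hXC b h1.2.2⟩)
    · obtain ⟨hne, ha, hb⟩ := h1
      rw [hX] at ha hb
      simp only [mem_insert, mem_singleton] at ha hb
      rcases ha with ha | ha | ha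
      · rcases hb with hb | hb | hb
        · exact absurd (ha.trans hb.symm) hne
        · exact Or.inl (Or.inr ⟨hne, Or.inl ⟨ha, by simp [hb]⟩⟩)
        · exact Or.inl (Or.inr ⟨hne, Or.inl ⟨ha, by simp [hb]⟩⟩)
      · rcases hb with hb | hb | hb
        · exact Or.inl (Or.inr ⟨hne, Or.inr ⟨hb, by simp [ha]⟩⟩)
        · exact absurd (ha.trans hb.symm) hne
        · exact Or.inr (Or.inl ⟨ha, by simp [hb]⟩)
      · rcases hb with hb | hb | hb
        · exact Or.inl (Or.inr ⟨hne, Or.inr ⟨hb, by simp [ha]⟩⟩)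
        · exact Or.inr (Or.inr ⟨hb, by simp [ha]⟩)
        · exact absurd (ha.trans hb.symm) hne

theorem Sep.rtd_X (h : Sep G X C J) : Rtd X C (rst G (X ∪ C) ⊔ clq X) := by
  refine ⟨h.dXC, h.torso_on, le_sup_right, h.torso_three, h.torso_free,
    Or.inr ⟨h.card, (conn_congr (fun a ha b hb => ⟨fun hab => Or.inl ⟨hab,
      mem_union_right _ ha, mem_union_right _ hb⟩, fun hab => ?_⟩)).1 h.conn⟩⟩
  rcases hab with h1 | h1
  · exact h1.1
  · exact absurd ha (disjoint_left.1 h.dXC h1.2.1)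

theorem Sep.rtd (h : Sep G X C J) {R U : Finset ℕ} (hR : Rtd R U G) (hc : R.card = 3)
    (hRX : R ≠ X) (hRC : R ⊆ X ∪ C) (hW : R ∪ U = X ∪ C ∪ J) :
    Rtd R (U \ J) (rst G (X ∪ C) ⊔ clq X) := by
  have hE : R ∪ (U \ J) = X ∪ C := by
    ext w
    constructor
    · intro hw
      rcases mem_union.1 hw with h1 | h1
      · exact hRC h1
      · have h2 := mem_sdiff.1 h1
        have h3 : w ∈ X ∪ C ∪ J := by
          rw [← hW]
          exact mem_union_right _ h2.1
        exact (mem_union.1 h3).resolve_right h2.2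
    · intro hw
      have h3 : w ∈ R ∪ U := by
        rw [hW]
        exact mem_union_left _ hw
      rcases mem_union.1 h3 with h1 | h1
      · exact mem_union_left _ h1
      · exact mem_union_right _ (mem_sdiff.2 ⟨h1, notJ h hw⟩)
  have hU : P512.Conn G U := by
    rcases hR.root with h1 | h1
    · omega
    · exact h1.2
  refine ⟨disjoint_of_subset_right sdiff_subset hR.disj, ?_, ?_, ?_, h.torso_free,
    Or.inr ⟨hc, h.conn_torso ?_ hU ?_⟩⟩
  · rw [hE]
    exact h.torso_on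
  · intro a b hab
    exact Or.inl ⟨hR.clique hab, hRC hab.2.1, hRC hab.2.2⟩
  · rw [hE]
    exact h.torso_three
  · rw [← hW]
    exact subset_union_right
  · obtain ⟨x, hx, hxR⟩ : ∃ x ∈ X, x ∉ R := by
      by_contra hcon
      push Not at hcon
      exact hRX (eq_of_subset_of_card_le hcon (by rw [hc, h.card])).symm
    have h3 : x ∈ R ∪ U := by
      rw [hW]
      exact subX X C J hx
    exact ⟨x, mem_sdiff.2 ⟨(mem_union.1 h3).resolve_left hxR,
      notJ h (mem_union_left _ hx)⟩⟩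

end K5
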