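import Pool.Agent.Lib.K5.YSide

/-!
# K5.YOut: marked triangles are shredders of the graph of a code

`G = c.comp R`, `W = R ∪ U`, `Z = R ∪ c.Y`, `X ∈ c.M`, `D = W \ (X ∪ c.V X)`.
1. `out_isComp`: no edge joins `D` to `c.V X` (`V_closed`), so `D` is closed in `W \ X`. Connected: `D ∩ Z = Z \ X` is nonempty (`NT`: `Conn c.H (Z \ X)`). Let `P` be a proper nonempty subset of `D`, `Closed G D P`, `Q = D \ P`. For `X' ∈ c.M`, `X' ≠ X`: `c.V X' ⊆ D` (`V_sub`, `V_disj`, `mark_sub`), and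
   `core_or` for `A = Z \ X` (two vertices in `A ∩ X'` imply `X' ≠ X`; a component of `c.V X'` by `two`) gives `Z \ X ⊆ P` or `Z \ X` disjoint from `P`. Replacing `P` by `Q` if necessary (`Closed.compl`) `P` does not meet `Z \ X`. Let `w ∈ P`: `w ∈ D \ Z`, so `w ∈ U \ c.Y`, `w ∈ c.V X'`, `X' ≠ X`. As `|X'| = |X| = 3`,
   there is `x ∈ X' \ X`, `x ∈ Z \ X ⊆ D`; `side_of_V` gives `x ∈ P`: contradiction.
2. `comp_shr`: the components `D` and two disjoint components of `c.V X` (`two`, `isComp_out`); `X ⊆ Z ⊆ W`, `|X| = 3` (`mark`).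
3. `inn_eq`: some `r ∈ R` is not in `X`; `r ∈ D` as `R` is disjoint from `c.V X ⊆ U`. If `w ∈ c.V X`, a component of `G` in `W \ X` containing `w` is contained in `c.V X` (`closed_sub`: `c.V X` is closed in `W \ X` by `V_closed`), so disjoint from `R`. If `w ∈ W \ X`, `w ∉ c.V X` then `w ∈ D`, and the component `D` meets `R`.
-/

namespace K5

open Finset

open Classical in
/-- The vertices outside `X` whose component does not meet `R`. -/
noncomputable def inn (G : Gr) (W R X : Finset ℕ) : Finset ℕ :=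
  (W \ X).filter (fun w => ∀ C, IsComp G (W \ X) C → w ∈ C → Disjoint C R)

variable {R U X : Finset ℕ} {c : Code3}

namespace YOutAux

theorem core_sub (h : c.Valid R U) (hX : X ∈ c.M) :
    (R ∪ c.Y) \ X ⊆ (R ∪ U) \ (X ∪ c.V X) := by
  intro v hv
  rw [Finset.mem_sdiff] at hv
  rw [Finset.mem_sdiff, Finset.mem_union (s := X)]
  refine ⟨Finset.union_subset_union (Finset.Subset.refl _) h.sub hv.1, ?_⟩
  rintro (h1 | h1)
  · exact hv.2 h1
  · exact Finset.disjoint_left.1 (h.mark_sub hX).2.2 hv.1 h1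

theorem V_sub_out (h : c.Valid R U) (hX : X ∈ c.M) {X' : Finset ℕ} (hX' : X' ∈ c.M)
    (hne : X' ≠ X) : c.V X' ⊆ (R ∪ U) \ (X ∪ c.V X) := by
  intro v hv
  rw [Finset.mem_sdiff, Finset.mem_union (s := X)]
  refine ⟨Finset.mem_union_right _ (Finset.mem_sdiff.1 (h.V_sub X' hX' hv)).1, ?_⟩
  rintro (h1 | h1)
  · exact Finset.disjoint_left.1 (h.mark_sub hX').2.2 ((h.mark_sub hX).1 h1) hv
  · exact Finset.disjoint_left.1 (h.V_disj X' hX' X hX hne) hv h1

theorem empty_of_disj {P : Finset ℕ} (h : c.Valid R U) (hX : X ∈ c.M)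
    (hP : Closed (c.comp R) ((R ∪ U) \ (X ∪ c.V X)) P)
    (hd : Disjoint ((R ∪ c.Y) \ X) P) : P = ∅ := by
  rw [Finset.eq_empty_iff_forall_notMem]
  intro w hw
  have hwD := hP.1 hw
  rw [Finset.mem_sdiff, Finset.mem_union (s := X)] at hwD
  obtain ⟨hwW, hwn⟩ := hwD
  have hwZ : w ∉ R ∪ c.Y := fun h' =>
    Finset.disjoint_left.1 hd (Finset.mem_sdiff.2 ⟨h', fun h1 => hwn (Or.inl h1)⟩) hw
  have hwU : w ∈ U \ c.Y := by
    rw [Finset.mem_sdiff]
    refine ⟨(Finset.mem_union.1 hwW).resolve_left (fun h1 => hwZ (Finset.mem_union_left _ h1)), ?_⟩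
    exact fun h1 => hwZ (Finset.mem_union_right _ h1)
  obtain ⟨X', hX', hwX'⟩ := h.V_cover w hwU
  have hne : X' ≠ X := by
    rintro rfl
    exact hwn (Or.inr hwX')
  obtain ⟨hNT', -⟩ := h.mark X' hX'
  obtain ⟨hNT, -⟩ := h.mark X hX
  obtain ⟨x, hx, hxX⟩ : ∃ x ∈ X', x ∉ X := by
    by_contra hcon
    push Not at hcon
    exact hne (Finset.eq_of_subset_of_card_le hcon (by rw [hNT.2.1, hNT'.2.1]))
  have hxZ : x ∈ (R ∪ c.Y) \ X := Finset.mem_sdiff.2 ⟨hNT'.1 hx, hxX⟩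
  have hxP := h.side_of_V hP hX' (V_sub_out h hX hX' hne) hwX' hw hx (core_sub h hX hxZ)
  exact Finset.disjoint_left.1 hd hxZ hxP

theorem V_cl (h : c.Valid R U) (hX : X ∈ c.M) : ∀ a ∈ c.V X, ∀ b ∈ (R ∪ U) \ X, b ∉ c.V X →
    ¬ (c.comp R).Adj a b := by
  intro a ha b hb hbn hab
  rcases h.V_closed hX ha hab with h1 | h1
  · exact (Finset.mem_sdiff.1 hb).2 h1
  · exact hbn h1

end YOutAux

open YOutAux

theorem Code3.Valid.out_isComp (h : c.Valid R U) (hX : X ∈ c.M) :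
    IsComp (c.comp R) ((R ∪ U) \ X) ((R ∪ U) \ (X ∪ c.V X)) := by
  have hcs := core_sub h hX
  have hZc : P512.Conn c.H ((R ∪ c.Y) \ X) := (h.mark X hX).1.2.2.2
  refine ⟨Finset.sdiff_subset_sdiff (Finset.Subset.refl _) Finset.subset_union_left, ?_, ?_⟩
  · refine ⟨hZc.1.mono hcs, fun P hP hne hPD => ?_⟩
    by_contra hcon
    push Not at hcon
    have hcl : Closed (c.comp R) ((R ∪ U) \ (X ∪ c.V X)) P :=
      ⟨hP, fun a ha b hb hbP => hcon a ha b hb hbP⟩
    have hcov : ∀ X' ∈ c.M, ∀ a ∈ (R ∪ c.Y) \ X, ∀ b ∈ (R ∪ c.Y) \ X, a ≠ b → a ∈ X' → b ∈ X' →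
        ∃ C, IsComp (c.comp R) (c.V X') C ∧ C ⊆ (R ∪ U) \ (X ∪ c.V X) := by
      intro X' hX' a ha _ _ _ haX' _
      obtain ⟨C1, -, hC1, -, -⟩ := h.two hX'
      have hne' : X' ≠ X := by
        rintro rfl
        exact (Finset.mem_sdiff.1 ha).2 haX'
      exact ⟨C1, hC1, hC1.1.trans (V_sub_out h hX hX' hne')⟩
    rcases h.core_or hcl hZc hcs hcov with h1 | h1
    · have h2 := empty_of_disj h hX hcl.compl (by
        rw [Finset.disjoint_left]
        intro a ha ha'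
        exact (Finset.mem_sdiff.1 ha').2 (h1 ha))
      exact hPD (Finset.Subset.antisymm hP (Finset.sdiff_eq_empty_iff_subset.1 h2))
    · exact hne.ne_empty (empty_of_disj h hX hcl h1)
  · intro a ha b hb hbn hab
    rw [Finset.mem_sdiff] at hb
    rw [Finset.mem_sdiff, Finset.mem_union (s := X)] at ha hbn
    have hbV : b ∈ c.V X := by
      by_contra h1
      apply hbn
      refine ⟨hb.1, ?_⟩
      rintro (h2 | h2)
      · exact hb.2 h2
      · exact h1 h2
    rcases h.V_closed hX hbV hab.symm with h1 | h1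
    · exact ha.2 (Or.inl h1)
    · exact ha.2 (Or.inr h1)

theorem Code3.Valid.comp_shr (h : c.Valid R U) (hX : X ∈ c.M) : Shr (c.comp R) (R ∪ U) X := by
  obtain ⟨C1, C2, hC1, hC2, hd⟩ := h.two hX
  have hDV : ∀ C, C ⊆ c.V X → Disjoint C ((R ∪ U) \ (X ∪ c.V X)) := by
    intro C hC
    rw [Finset.disjoint_left]
    intro a ha ha'
    exact (Finset.mem_sdiff.1 ha').2 (Finset.mem_union_right _ (hC ha))
  refine ⟨(h.mark_sub hX).1.trans (Finset.union_subset_union (Finset.Subset.refl _) h.sub),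
    (h.mark X hX).1.2.1, C1, C2, (R ∪ U) \ (X ∪ c.V X), h.isComp_out hX hC1, h.isComp_out hX hC2,
    h.out_isComp hX, hd, hDV C1 hC1.1, hDV C2 hC2.1⟩

theorem Code3.Valid.inn_eq (h : c.Valid R U) (hX : X ∈ c.M) (hRX : ¬ R ⊆ X) :
    inn (c.comp R) (R ∪ U) R X = c.V X := by
  classical
  ext w
  unfold inn
  rw [Finset.mem_filter]
  constructor
  · rintro ⟨hw, hw'⟩
    by_contra hwV
    have hwD : w ∈ (R ∪ U) \ (X ∪ c.V X) := by
      rw [Finset.mem_sdiff, Finset.mem_union (s := X)]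
      refine ⟨(Finset.mem_sdiff.1 hw).1, ?_⟩
      rintro (h1 | h1)
      · exact (Finset.mem_sdiff.1 hw).2 h1
      · exact hwV h1
    have hdis := hw' _ (h.out_isComp hX) hwD
    obtain ⟨r, hr, hrX⟩ : ∃ r ∈ R, r ∉ X := by
      by_contra hcon
      push Not at hcon
      exact hRX hcon
    refine Finset.disjoint_left.1 hdis ?_ hr
    rw [Finset.mem_sdiff, Finset.mem_union (s := X)]
    refine ⟨Finset.mem_union_left _ hr, ?_⟩
    rintro (h1 | h1)
    · exact hrX h1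
    · exact Finset.disjoint_left.1 (h.mark_sub hX).2.2 (Finset.mem_union_left _ hr) h1
  · intro hw
    have hwU : w ∈ U := (Finset.mem_sdiff.1 (h.V_sub X hX hw)).1
    have hwS : w ∈ (R ∪ U) \ X := by
      rw [Finset.mem_sdiff]
      exact ⟨Finset.mem_union_right _ hwU,
        fun h1 => Finset.disjoint_left.1 (h.mark_sub hX).2.1 h1 hw⟩
    refine ⟨hwS, fun C hC hwC => ?_⟩
    have h1 : C ⊆ c.V X := closed_sub (V_cl h hX) hC.2.1 hC.1 hwC hw
    rw [Finset.disjoint_left]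
    intro a ha haR
    exact Finset.disjoint_left.1 h.disj haR (Finset.mem_sdiff.1 (h.V_sub X hX (h1 ha))).1

end K5
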