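import Pool.Agent.Lib.K5.YStr

/-!
# K5.YSide: parts of a vertex set without edges between them

`Closed G S P`: no edge of `G` joins `P ⊆ S` to `S \ P`.
1. `Closed.compl`: symmetry of `G.Adj`. `Closed.conn`: if the connected set `A ⊆ S` meets `P` then `A ⊆ P` (`closed_sub` with `U = S`, `C = P`); otherwise `A ⊆ S \ P`.
2. `Code3.Valid.side`: `C` is connected and contained in `S`, so `C ⊆ P` or `C ⊆ S \ P` (`Closed.conn`). `adjX` gives an edge from `a ∈ C` to `x ∈ P`: if `C ⊆ S \ P` the edge from `x` to `a` contradicts `hP`. So `C ⊆ P`; the edge from `C` to `y ∈ S` gives `y ∈ P`.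
3. `Code3.Valid.hedge`: if `ab` is covered by `X ∈ c.M`, i.e. `s(a, b) ∈ (clq X).edgeSet`, then `a, b ∈ X`; take `C` from `hcov` and use 2. If it is not covered it is an edge of `c.comp R` (second case of the definition), so `b ∈ P` by `hP`.
4. `Code3.Valid.core_or`: if `A` meets `P` and is not contained in `P` then `Conn c.H A` for the set `A ∩ P` gives an edge of `c.H` from `a ∈ A ∩ P` to `b ∈ A`, `b ∉ P`; 3. gives `b ∈ P`.
5. `Code3.Valid.side_of_V`: `w ∈ P ∩ c.V X`, the component `C` of `w` in `c.V X` is contained in `S`: `C ⊆ P` (`Closed.conn`), and `x ∈ X ∩ S` is joined to `C` (`adjX`), so `x ∈ P`.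
-/

namespace K5

open Finset

/-- No edge of `G` joins `P ⊆ S` to the rest of `S`. -/
def Closed (G : Gr) (S P : Finset ℕ) : Prop :=
  P ⊆ S ∧ ∀ a ∈ P, ∀ b ∈ S, b ∉ P → ¬ G.Adj a b

theorem Closed.compl {G : Gr} {S P : Finset ℕ} (h : Closed G S P) : Closed G S (S \ P) := by
  refine ⟨Finset.sdiff_subset, fun a ha b hb hbn hab => ?_⟩
  rw [Finset.mem_sdiff] at ha hbn
  have hbP : b ∈ P := by
    by_contra hc
    exact hbn ⟨hb, hc⟩
  exact h.2 b hbP a ha.1 ha.2 hab.symm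

theorem Closed.conn {G : Gr} {S P A : Finset ℕ} (h : Closed G S P) (hA : P512.Conn G A)
    (hAS : A ⊆ S) : A ⊆ P ∨ A ⊆ S \ P := by
  by_cases hm : ∃ v ∈ A, v ∈ P
  · left
    obtain ⟨v, hvA, hvP⟩ := hm
    exact closed_sub h.2 hA hAS hvA hvP
  · right
    intro v hv
    rw [Finset.mem_sdiff]
    exact ⟨hAS hv, fun hvP => hm ⟨v, hv, hvP⟩⟩

variable {R U S P : Finset ℕ} {c : Code3}

theorem Code3.Valid.side (h : c.Valid R U) (hP : Closed (c.comp R) S P) {X C : Finset ℕ}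
    (hX : X ∈ c.M) (hC : IsComp (c.comp R) (c.V X) C) (hCS : C ⊆ S) {x y : ℕ} (hx : x ∈ X)
    (hy : y ∈ X) (hyS : y ∈ S) (hxP : x ∈ P) : y ∈ P ∧ C ⊆ P := by
  have hCP : C ⊆ P := by
    rcases hP.conn hC.2.1 hCS with h1 | h1
    · exact h1
    · exfalso
      obtain ⟨a, ha, hax⟩ := h.adjX hX hC hx
      have h2 := Finset.mem_sdiff.1 (h1 ha)
      exact hP.2 x hxP a h2.1 h2.2 hax.symm
  refine ⟨?_, hCP⟩
  obtain ⟨a, ha, hay⟩ := h.adjX hX hC hy
  by_contra hyP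
  exact hP.2 a (hCP ha) y hyS hyP hay

theorem Code3.Valid.hedge (h : c.Valid R U) (hP : Closed (c.comp R) S P) {a b : ℕ}
    (hab : c.H.Adj a b) (ha : a ∈ P) (hb : b ∈ S)
    (hcov : ∀ X ∈ c.M, a ∈ X → b ∈ X → ∃ C, IsComp (c.comp R) (c.V X) C ∧ C ⊆ S) : b ∈ P := by
  by_cases hc : Cov c.M s(a, b)
  · obtain ⟨X, hX, he⟩ := hc
    have he' : (clq X).Adj a b := he
    obtain ⟨C, hC, hCS⟩ := hcov X hX he'.2.1 he'.2.2
    exact (h.side hP hX hC hCS he'.2.1 he'.2.2 hb ha).1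
  · by_contra hbP
    exact hP.2 a ha b hb hbP ⟨hab.ne, Or.inr (Or.inl ⟨hab, hc⟩)⟩

theorem Code3.Valid.core_or (h : c.Valid R U) (hP : Closed (c.comp R) S P) {A : Finset ℕ}
    (hA : P512.Conn c.H A) (hAS : A ⊆ S)
    (hcov : ∀ X ∈ c.M, ∀ a ∈ A, ∀ b ∈ A, a ≠ b → a ∈ X → b ∈ X →
      ∃ C, IsComp (c.comp R) (c.V X) C ∧ C ⊆ S) : A ⊆ P ∨ Disjoint A P := by
  by_cases hm : ∃ v ∈ A, v ∈ P
  · left
    obtain ⟨v, hvA, hvP⟩ := hm
    by_contra hn
    obtain ⟨a, ha, b, hb, hbn, hab⟩ := hA.2 (A ∩ P) Finset.inter_subset_left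
      ⟨v, Finset.mem_inter.2 ⟨hvA, hvP⟩⟩
      (fun he => hn (by rw [← he]; exact Finset.inter_subset_right))
    have ha' := Finset.mem_inter.1 ha
    have hbP := h.hedge hP hab ha'.2 (hAS hb)
      (fun X hX haX hbX => hcov X hX a ha'.1 b hb hab.ne haX hbX)
    exact hbn (Finset.mem_inter.2 ⟨hb, hbP⟩)
  · right
    rw [Finset.disjoint_left]
    exact fun v hv hvP => hm ⟨v, hv, hvP⟩

theorem Code3.Valid.side_of_V (h : c.Valid R U) (hP : Closed (c.comp R) S P) {X : Finset ℕ}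
    (hX : X ∈ c.M) (hVS : c.V X ⊆ S) {w : ℕ} (hw : w ∈ c.V X) (hwP : w ∈ P) {x : ℕ} (hx : x ∈ X)
    (hxS : x ∈ S) : x ∈ P := by
  obtain ⟨C, hC, hwC⟩ := exists_xcomp (G := c.comp R) hw
  have hCS : C ⊆ S := hC.1.trans hVS
  have hCP : C ⊆ P := by
    rcases hP.conn hC.2.1 hCS with h1 | h1
    · exact h1
    · exact absurd hwP (Finset.mem_sdiff.1 (h1 hwC)).2
  obtain ⟨a, ha, hax⟩ := h.adjX hX hC hx
  by_contra hxP
  exact hP.2 a (hCP ha) x hxS hxP hax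

end K5
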