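import Pool.Agent.Lib.K5.XCode

/-!
# K5.YStr: the structures at marked triangles inside the graph of a code

1. `TStr.adj`: let `X = {x, u, v}` (`|X| = 3`). `C` is a component of `T` in `V`, so `h.branch C` gives `Three (rst T (X ∪ C) ⊔ clq X) (X ∪ C)`; apply it to `u, v`: the set `((X ∪ C).erase u).erase v = {x} ∪ C` is connected; its subset `P = {x}` is proper (`C` is nonempty and
   disjoint from `X`, `h.disj`). So an edge joins `x` to some `a ∈ C`; it is not an edge of `clq X`, so it is an edge of `T`.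
2. `TStr.two`: a vertex of `V` (`h.ne`) is in a component `C1` (`exists_comp`); `exists_other_comp h.nconn`.
3. `TStr.small`: let `w ∈ P`, `C` the component of `T` in `V` with `w ∈ C`. `G' = rst T (X ∪ C) ⊔ clq X` is `Three` on `X ∪ C` (`h.branch C`). `P' = P ∩ C` is a nonempty subset of `S = ((X ∪ C).erase u).erase v` (as `u, v ∉ P`), not all of `S`: some `x ∈ X` is different from
   `u, v` (`|X| = 3`), `x ∈ S`, `x ∉ P ⊆ V` (`h.disj`). So an edge of `G'` joins `a ∈ P'` to `b ∈ S`, `b ∉ P'`. `a ∈ C` is not in `X`, so it is an edge of `T`, so `b ∈ P` (`hcl`; `b ≠ u, v` because `b ∈ S`); so `b ∈ V`, `b ∉ X`, `b ∈ C`, `b ∈ P'`: contradiction.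
4. For a valid code, `G = c.comp R`, `X ∈ c.M`: `T_le` by definition; `comp_isComp`: on `c.V X` the graphs `c.T X` and `G` agree (`T_le`, `comp_V`), use `IsComp.congr` in both directions. `V_closed` is `comp_V`. `isComp_out`: `C ⊆ c.V X ⊆ (R ∪ U) \ X` (`V_sub`, `mark_sub`); an edge of `G` from
   `a ∈ C ⊆ c.V X` to `b ∈ (R ∪ U) \ X` has `b ∈ c.V X` (`V_closed`), use `hC.2.2`. `adjX`, `two`: 1. and 2. for `h.T_str X hX`, transported by `comp_isComp` and `T_le`. `small`: 3. (`T_le`).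
-/

namespace K5

open Finset

theorem TStr.adj {X V C : Finset ℕ} {T : Gr} (h : TStr X V T) (hC : IsComp T V C) {x : ℕ}
    (hx : x ∈ X) : ∃ a ∈ C, T.Adj a x := by
  obtain ⟨u, v, huv⟩ : ∃ u v, X.erase x = {u, v} := by
    have h3 := h.card
    have : (X.erase x).card = 2 := by rw [card_erase_of_mem hx, h3]
    obtain ⟨u, v, -, h'⟩ := card_eq_two.1 this
    exact ⟨u, v, h'⟩
  have hu : u ≠ x := (mem_erase.1 (by rw [huv]; simp : u ∈ X.erase x)).1
  have hv : v ≠ x := (mem_erase.1 (by rw [huv]; simp : v ∈ X.erase x)).1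
  obtain ⟨c, hc⟩ := hC.2.1.1
  have huX : u ∈ X := (mem_erase.1 (by rw [huv]; simp : u ∈ X.erase x)).2
  have hvX : v ∈ X := (mem_erase.1 (by rw [huv]; simp : v ∈ X.erase x)).2
  have hCX : ∀ {y}, y ∈ C → y ∉ X := fun {y} hy hyX => disjoint_left.1 h.disj hyX (hC.1 hy)
  have h3 := ((h.branch C hC).rtd.three.2 u v).2 {x} (by
      rw [singleton_subset_iff]
      exact mem_erase.2 ⟨hv.symm, mem_erase.2 ⟨hu.symm, mem_union_left _ hx⟩⟩) ⟨x, mem_singleton_self x⟩ (by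
      intro he
      have h4 : c ∈ ((X ∪ C).erase u).erase v := mem_erase.2
        ⟨fun h' => hCX hc (h' ▸ hvX), mem_erase.2 ⟨fun h' => hCX hc (h' ▸ huX), mem_union_right _ hc⟩⟩
      rw [← he, mem_singleton] at h4
      exact hCX hc (h4 ▸ hx))
  obtain ⟨a, ha, b, hb, hbn, hab⟩ := h3
  rw [mem_singleton] at ha hbn
  subst ha
  have hb1 := mem_erase.1 hb
  have hb2 := mem_erase.1 hb1.2
  have hbX : b ∉ X := by
    intro hbX
    have : b ∈ X.erase a := mem_erase.2 ⟨hbn, hbX⟩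
    rw [huv] at this
    simp only [mem_insert, mem_singleton] at this
    rcases this with h' | h'
    · exact hb2.1 h'
    · exact hb1.1 h'
  refine ⟨b, (mem_union.1 hb2.2).resolve_left hbX, ?_⟩
  rcases hab with h' | h'
  · exact h'.1.symm
  · exact absurd h'.2.2 hbX

theorem TStr.two {X V : Finset ℕ} {T : Gr} (h : TStr X V T) :
    ∃ C1 C2, IsComp T V C1 ∧ IsComp T V C2 ∧ Disjoint C1 C2 := by
  obtain ⟨v, hv⟩ := h.ne
  obtain ⟨C1, hC1, -⟩ := exists_xcomp (G := T) hv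
  obtain ⟨C2, hC2, hd⟩ := exists_other_comp h.nconn hC1
  exact ⟨C1, C2, hC1, hC2, hd⟩

/-- A set of interior vertices of a structure has at least three outer neighbours. -/
theorem TStr.small {X V P : Finset ℕ} {T : Gr} (h : TStr X V T) (hP : P ⊆ V) (hne : P.Nonempty)
    {u v : ℕ} (hu : u ∉ P) (hv : v ∉ P)
    (hcl : ∀ a ∈ P, ∀ b, T.Adj a b → b ∈ P ∨ b = u ∨ b = v) : False := by
  obtain ⟨w, hw⟩ := hne
  obtain ⟨C, hC, hwC⟩ := exists_xcomp (G := T) (hP hw)
  have hPX : ∀ {y}, y ∈ P → y ∉ X := fun {y} hy hyX => disjoint_left.1 h.disj hyX (hP hy)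
  obtain ⟨x, hx⟩ : ((X.erase u).erase v).Nonempty := by
    rw [← card_pos]
    have h1 := pred_card_le_card_erase (s := X) (a := u)
    have h2 := pred_card_le_card_erase (s := X.erase u) (a := v)
    have h3 := h.card
    omega
  have hx1 := mem_erase.1 hx
  have hx2 := mem_erase.1 hx1.2
  have h3 := ((h.branch C hC).rtd.three.2 u v).2 (P ∩ C) (by
      intro a ha
      have ha' := mem_inter.1 ha
      exact mem_erase.2 ⟨fun h' => hv (h' ▸ ha'.1), mem_erase.2 ⟨fun h' => hu (h' ▸ ha'.1),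
        mem_union_right _ ha'.2⟩⟩) ⟨w, mem_inter.2 ⟨hw, hwC⟩⟩ (by
      intro he
      have h4 : x ∈ ((X ∪ C).erase u).erase v :=
        mem_erase.2 ⟨hx1.1, mem_erase.2 ⟨hx2.1, mem_union_left _ hx2.2⟩⟩
      rw [← he] at h4
      exact hPX (mem_inter.1 h4).1 hx2.2)
  obtain ⟨a, ha, b, hb, hbn, hab⟩ := h3
  have ha' := mem_inter.1 ha
  have hb1 := mem_erase.1 hb
  have hb2 := mem_erase.1 hb1.2
  have hT : T.Adj a b := by
    rcases hab with h' | h'
    · exact h'.1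
    · exact absurd h'.2.1 (hPX ha'.1)
  rcases hcl a ha'.1 b hT with h' | h' | h'
  · exact hbn (mem_inter.2 ⟨h', (mem_union.1 hb2.2).resolve_left (hPX h')⟩)
  · exact hb2.1 h'
  · exact hb1.1 h'

variable {R U : Finset ℕ} {c : Code3}

theorem Code3.T_le (c : Code3) (R X : Finset ℕ) : c.T X ≤ c.comp R := by
  intro a b hab
  exact ⟨hab.ne, Or.inr (Or.inr (Or.inr ⟨X, hab⟩))⟩

theorem Code3.Valid.comp_isComp (h : c.Valid R U) {X C : Finset ℕ} (hX : X ∈ c.M) :
    IsComp (c.comp R) (c.V X) C ↔ IsComp (c.T X) (c.V X) C := by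
  have h1 : ∀ a ∈ c.V X, ∀ b ∈ c.V X, ((c.comp R).Adj a b ↔ (c.T X).Adj a b) := fun a ha b _ =>
    ⟨fun hab => (h.comp_V hX hab ha).1, fun hab => c.T_le R X hab⟩
  exact ⟨fun hC => IsComp.congr h1 hC, fun hC => IsComp.congr (fun a ha b hb => (h1 a ha b hb).symm) hC⟩

theorem Code3.Valid.V_closed (h : c.Valid R U) {X : Finset ℕ} (hX : X ∈ c.M) {a b : ℕ}
    (ha : a ∈ c.V X) (hab : (c.comp R).Adj a b) : b ∈ X ∨ b ∈ c.V X := by
  exact mem_union.1 (h.comp_V hX hab ha).2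

theorem Code3.Valid.isComp_out (h : c.Valid R U) {X C : Finset ℕ} (hX : X ∈ c.M)
    (hC : IsComp (c.comp R) (c.V X) C) : IsComp (c.comp R) ((R ∪ U) \ X) C := by
  refine IsComp.of_closed (J := c.V X) ?_ ?_ hC
  · intro v hv
    have h1 := mem_sdiff.1 (h.V_sub X hX hv)
    exact mem_sdiff.2 ⟨mem_union_right _ h1.1, fun h2 => disjoint_left.1 (h.mark_sub hX).2.1 h2 hv⟩
  · intro a ha b hb hbn hab
    rcases h.V_closed hX ha hab with h' | h'
    · exact (mem_sdiff.1 hb).2 h'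
    · exact hbn h'

theorem Code3.Valid.adjX (h : c.Valid R U) {X C : Finset ℕ} (hX : X ∈ c.M)
    (hC : IsComp (c.comp R) (c.V X) C) {x : ℕ} (hx : x ∈ X) :
    ∃ a ∈ C, (c.comp R).Adj a x := by
  obtain ⟨a, ha, hab⟩ := (h.T_str X hX).adj ((h.comp_isComp hX).1 hC) hx
  exact ⟨a, ha, c.T_le R X hab⟩

theorem Code3.Valid.two (h : c.Valid R U) {X : Finset ℕ} (hX : X ∈ c.M) :
    ∃ C1 C2, IsComp (c.comp R) (c.V X) C1 ∧ IsComp (c.comp R) (c.V X) C2 ∧ Disjoint C1 C2 := by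
  obtain ⟨C1, C2, h1, h2, h3⟩ := (h.T_str X hX).two
  exact ⟨C1, C2, (h.comp_isComp hX).2 h1, (h.comp_isComp hX).2 h2, h3⟩

theorem Code3.Valid.small (h : c.Valid R U) {X P : Finset ℕ} (hX : X ∈ c.M) (hP : P ⊆ c.V X)
    (hne : P.Nonempty) {u v : ℕ} (hu : u ∉ P) (hv : v ∉ P)
    (hcl : ∀ a ∈ P, ∀ b, (c.comp R).Adj a b → b ∈ P ∨ b = u ∨ b = v) : False := by
  exact (h.T_str X hX).small hP hne hu hv (fun a ha b hab => hcl a ha b (c.T_le R X hab))

end K5
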