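import Pool.Agent.Lib.K5.ZDefs
import Pool.Agent.Lib.K5.CLExp

/-!
# K5.ZE2: the function `E2`

1. `E2_add`: split off the terms `k = 0, 1` of `eexp` (`tsum_eq_zero_add'` or `ENNReal.tsum_eq_zero_add`, twice; `ENNReal.summable`).
2. `E2_mono`: term by term (`ENNReal.tsum_le_tsum`, `ENNReal.div_le_div_right`, `pow_le_pow_left'`).
3. `E2_ofReal`: `E2_add` and `eexp_ofReal`; cancel `ofReal a + 1` (finite): `ENNReal.ofReal` of `Real.exp a - 1 - a` (nonnegative by `Real.add_one_le_exp`).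
4. `egf_prt2_E2`: `egf_prt2` and `E2_add`, cancel the finite `egf (pos F) x + 1` (`ENNReal.add_right_inj`).
-/

namespace K5

open Finset
open scoped ENNReal

theorem E2_add (b : ℝ≥0∞) : E2 b + b + 1 = eexp b := by
  unfold E2 eexp
  rw [tsum_eq_zero_add' (f := fun k : ℕ => b ^ k / (k.factorial : ℝ≥0∞)) ENNReal.summable,
    tsum_eq_zero_add' (f := fun k : ℕ => b ^ (k + 1) / ((k + 1).factorial : ℝ≥0∞))
      ENNReal.summable]
  simp only [pow_zero, Nat.factorial_zero, Nat.cast_one, div_one, zero_add, pow_one,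
    Nat.factorial_one]
  ring

theorem E2_mono {a b : ℝ≥0∞} (h : a ≤ b) : E2 a ≤ E2 b := by
  unfold E2
  refine ENNReal.tsum_le_tsum fun k => ?_
  gcongr

theorem E2_ofReal {a : ℝ} (ha : 0 ≤ a) : E2 (.ofReal a) = .ofReal (Real.exp a - 1 - a) := by
  have h1 := E2_add (.ofReal a)
  rw [eexp_ofReal ha, add_assoc] at h1
  have h2 : (0 : ℝ) ≤ Real.exp a - 1 - a := by
    have := Real.add_one_le_exp a
    linarith
  have h3 : ENNReal.ofReal (Real.exp a - 1 - a) + (ENNReal.ofReal a + 1) =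
      ENNReal.ofReal (Real.exp a) := by
    rw [← ENNReal.ofReal_one, ← ENNReal.ofReal_add ha zero_le_one,
      ← ENNReal.ofReal_add h2 (by linarith)]
    congr 1
    ring
  rw [← h3] at h1
  exact (ENNReal.add_left_inj (ENNReal.add_ne_top.mpr ⟨ENNReal.ofReal_ne_top, ENNReal.one_ne_top⟩)).mp h1

theorem egf_prt2_E2 (F : ℕ → ℝ≥0∞) {x : ℝ≥0∞} (h : egf (pos F) x ≠ ⊤) :
    egf (prt2 F) x = E2 (egf (pos F) x) := by
  have h1 := egf_prt2 F x
  rw [← E2_add, add_assoc, add_assoc] at h1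
  exact (ENNReal.add_left_inj (ENNReal.add_ne_top.mpr ⟨h, ENNReal.one_ne_top⟩)).mp h1

end K5
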