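import Pool.Agent.Lib.K5.ZDefs

/-!
# K5.ZEdge: finiteness, and the number of edges of the graph of a code

`On.edge_finite`: the edges are among the `s(a, b)`, `a, b ∈ U` (`On` and symmetry). `gr_finite`: a graph on `U` is determined by its (finite) edge set, a subset of a fixed finite set
(`SimpleGraph.edgeSet_injective`, `Set.Finite.finite_subsets`, `Set.Finite.of_injOn` or `Set.Finite.preimage`).

`ecard_comp`: put `E1 = {e ∈ H.edgeSet | ¬ Cov M e ∧ e ∉ clq R}`. Then `(comp).edgeSet \ (clq R).edgeSet = E1 ∪ F ∪ ⋃_{X ∈ M} (T X).edgeSet`, a disjoint union of finite sets: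
* an edge of `comp` outside `clq R` is in `E1`, in `F`, or is an edge of some `T X`, where `X ∈ M` because `T X = ⊥` otherwise (`T_out`); conversely `e ∈ F` is not an edge of `clq R` (`F_sub`), and an edge
  of `T X` (`X ∈ M`) has an end in `V X`: both ends are in `X ∪ V X` (`TStr.on` and symmetry) and not both in `X` (`noX`); `V X ⊆ U \ Y` is disjoint from `R` (`V_sub`, `disj`), so it is not an edge of `clq R`.
* `E1 ∩ F = ∅`: `F_sub` gives `Cov`. `E1` and `F` consist of edges of `H`, whose ends are in `R ∪ Y` (`core.rtd.on`), while an edge of `T X` has an end in `V X ⊆ U \ Y`, which is not in `R ∪ Y`.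
* `(T X).edgeSet` and `(T X').edgeSet` are disjoint for `X ≠ X'` in `M`: a common edge has an end `v ∈ V X`, and `v ∈ X' ∪ V X'`; `v ∉ V X'` by `V_disj`; `v ∈ X' ⊆ R ∪ Y` (`mark`, `NT`) is impossible.
Then `Set.ncard_union_eq` twice and `Set.ncard` of a disjoint finite union (induction on `M`, or `Set.ncard_iUnion...`, or via `Set.toFinset` and `Finset.card_biUnion`). The union of the edges of the `T X` may be
handled by a lemma `ncard (⋃ X ∈ M, A X) = ∑ X ∈ M, (A X).ncard` for pairwise disjoint finite `A X`, by `Finset.induction_on`.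
-/

namespace K5

open Finset
open scoped ENNReal

namespace ZEdgeAux

theorem T_mem {R U : Finset ℕ} {c : Code3} (h : c.Valid R U) {X : Finset ℕ} {a b : ℕ}
    (hab : (c.T X).Adj a b) :
    X ∈ c.M ∧ a ∈ X ∪ c.V X ∧ b ∈ X ∪ c.V X ∧ ¬ (a ∈ R ∪ c.Y ∧ b ∈ R ∪ c.Y) := by
  have hXM : X ∈ c.M := by
    by_contra hX
    rw [h.T_out X hX] at hab
    exact hab
  have hT := h.T_str X hXM
  have ha := hT.on a b hab
  have hb := hT.on b a hab.symm
  refine ⟨hXM, ha, hb, fun hh => ?_⟩
  have hV : ∀ v ∈ R ∪ c.Y, v ∉ c.V X := fun v hv hvV => by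
    have := mem_sdiff.1 (h.V_sub X hXM hvV)
    rcases mem_union.1 hv with h' | h'
    · exact disjoint_left.1 h.disj h' this.1
    · exact this.2 h'
  have ha' : a ∈ X := (mem_union.1 ha).resolve_right (hV a hh.1)
  have hb' : b ∈ X := (mem_union.1 hb).resolve_right (hV b hh.2)
  exact hT.noX a ha' b hb' hab

theorem ncard_biUnion {α β : Type*} [DecidableEq α] (M : Finset α) (A : α → Set β)
    (hf : ∀ X ∈ M, (A X).Finite) (hd : ∀ X ∈ M, ∀ X' ∈ M, X ≠ X' → Disjoint (A X) (A X')) :
    (⋃ X ∈ M, A X).Finite ∧ (⋃ X ∈ M, A X).ncard = ∑ X ∈ M, (A X).ncard := by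
  induction M using Finset.induction_on with
  | empty => simp
  | insert X M hX ih =>
    obtain ⟨h1, h2⟩ := ih (fun Y hY => hf Y (mem_insert_of_mem hY))
      (fun Y hY Z hZ => hd Y (mem_insert_of_mem hY) Z (mem_insert_of_mem hZ))
    have h3 : (⋃ Y ∈ insert X M, A Y) = A X ∪ ⋃ Y ∈ M, A Y := by
      rw [Finset.set_biUnion_insert]
    have h4 : Disjoint (A X) (⋃ Y ∈ M, A Y) := by
      rw [Set.disjoint_iUnion₂_right]
      intro Y hY
      refine hd X (mem_insert_self _ _) Y (mem_insert_of_mem hY) ?_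
      rintro rfl
      exact hX hY
    have h5 := hf X (mem_insert_self _ _)
    rw [h3]
    refine ⟨h5.union h1, ?_⟩
    rw [Set.ncard_union_eq h4 h5 h1, Finset.sum_insert hX, h2]

end ZEdgeAux

theorem On.edge_finite {G : Gr} {U : Finset ℕ} (h : On G U) : G.edgeSet.Finite := by
  classical
  refine ((U ×ˢ U).image (fun p : ℕ × ℕ => s(p.1, p.2))).finite_toSet.subset ?_
  intro e he
  induction e using Sym2.inductionOn with
  | hf a b =>
    have hab : G.Adj a b := he
    exact mem_coe.2 (mem_image.2 ⟨(a, b), mem_product.2 ⟨h a b hab, h b a hab.symm⟩, rfl⟩)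

theorem gr_finite (U : Finset ℕ) : {G : Gr | On G U}.Finite := by
  classical
  have h1 : {s : Set (Sym2 ℕ) |
      s ⊆ ((U ×ˢ U).image (fun p : ℕ × ℕ => s(p.1, p.2)) : Finset (Sym2 ℕ))}.Finite :=
    (Finset.finite_toSet _).finite_subsets
  refine (h1.preimage (f := fun G : Gr => G.edgeSet)
    (SimpleGraph.edgeSet_injective.injOn)).subset ?_
  intro G hG
  show G.edgeSet ⊆ _
  intro e he
  induction e using Sym2.inductionOn with
  | hf a b =>
    have hab : G.Adj a b := he
    exact mem_coe.2 (mem_image.2 ⟨(a, b), mem_product.2 ⟨hG a b hab, hG b a hab.symm⟩, rfl⟩)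

theorem Code3.Valid.ecard_comp {R U : Finset ℕ} {c : Code3} (h : c.Valid R U) :
    ecard R (c.comp R) = {e ∈ c.H.edgeSet | ¬ Cov c.M e ∧ e ∉ (clq R).edgeSet}.ncard +
      c.F.ncard + ∑ X ∈ c.M, (c.T X).edgeSet.ncard := by
  classical
  have hHon := h.core.rtd.on
  have hHfin : c.H.edgeSet.Finite := On.edge_finite hHon
  have hE1fin : {e ∈ c.H.edgeSet | ¬ Cov c.M e ∧ e ∉ (clq R).edgeSet}.Finite :=
    hHfin.subset (fun e he => he.1)
  have hFfin : c.F.Finite := hHfin.subset (fun e he => (h.F_sub e he).1)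
  -- an edge of some `T X` is not inside the core
  have hTH : ∀ X a b, (c.T X).Adj a b → ¬ c.H.Adj a b := by
    intro X a b hab hH
    exact (ZEdgeAux.T_mem h hab).2.2.2 ⟨hHon a b hH, hHon b a hH.symm⟩
  have hdisj : ∀ X ∈ c.M, ∀ X' ∈ c.M, X ≠ X' → Disjoint (c.T X).edgeSet (c.T X').edgeSet := by
    intro X hX X' hX' hne
    rw [Set.disjoint_left]
    intro e he he'
    induction e using Sym2.inductionOn with
    | hf a b =>
      have hab : (c.T X).Adj a b := he
      have hab' : (c.T X').Adj a b := he'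
      obtain ⟨-, h1, h2, h3⟩ := ZEdgeAux.T_mem h hab
      obtain ⟨-, h1', h2', h3'⟩ := ZEdgeAux.T_mem h hab'
      have key : ∀ v, v ∉ R ∪ c.Y → v ∈ X ∪ c.V X → v ∈ X' ∪ c.V X' → False := by
        intro v hv hvX hvX'
        have e1 : v ∈ c.V X := (mem_union.1 hvX).resolve_left
          (fun h' => hv ((h.mark X hX).1.1 h'))
        have e2 : v ∈ c.V X' := (mem_union.1 hvX').resolve_left
          (fun h' => hv ((h.mark X' hX').1.1 h'))
        exact disjoint_left.1 (h.V_disj X hX X' hX' hne) e1 e2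
      by_cases ha : a ∈ R ∪ c.Y
      · exact key b (fun hb => h3 ⟨ha, hb⟩) h2 h2'
      · exact key a ha h1 h1'
  obtain ⟨hUfin, hUcard⟩ := ZEdgeAux.ncard_biUnion c.M (fun X => (c.T X).edgeSet)
    (fun X hX => On.edge_finite (h.T_str X hX).on) hdisj
  have hset : (c.comp R).edgeSet \ (clq R).edgeSet =
      ({e ∈ c.H.edgeSet | ¬ Cov c.M e ∧ e ∉ (clq R).edgeSet} ∪ c.F) ∪
        ⋃ X ∈ c.M, (c.T X).edgeSet := by
    ext e
    induction e using Sym2.inductionOn with
    | hf a b =>
      constructor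
      · rintro ⟨he, hne⟩
        have hab : (c.comp R).Adj a b := he
        have hne' : ¬ (a ≠ b ∧ a ∈ R ∧ b ∈ R) := hne
        rcases hab with ⟨hab, ⟨h1, h2⟩ | h1 | h1 | ⟨X, h1⟩⟩
        · exact absurd ⟨hab, h1, h2⟩ hne'
        · exact Or.inl (Or.inl ⟨h1.1, h1.2, hne⟩)
        · exact Or.inl (Or.inr h1)
        · right
          rw [Set.mem_iUnion₂]
          exact ⟨X, (ZEdgeAux.T_mem h h1).1, h1⟩
      · rintro ((⟨h1, h2, h3⟩ | h1) | h1)
        · refine ⟨?_, h3⟩
          have hab : c.H.Adj a b := h1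
          exact ⟨hab.ne, Or.inr (Or.inl ⟨hab, h2⟩)⟩
        · obtain ⟨h2, -, h3⟩ := h.F_sub _ h1
          have hab : c.H.Adj a b := h2
          exact ⟨⟨hab.ne, Or.inr (Or.inr (Or.inl h1))⟩, h3⟩
        · rw [Set.mem_iUnion₂] at h1
          obtain ⟨X, hX, h1⟩ := h1
          have hab : (c.T X).Adj a b := h1
          refine ⟨⟨hab.ne, Or.inr (Or.inr (Or.inr ⟨X, hab⟩))⟩, fun hc => ?_⟩
          have hc' : a ≠ b ∧ a ∈ R ∧ b ∈ R := hc
          exact (ZEdgeAux.T_mem h hab).2.2.2 ⟨mem_union_left _ hc'.2.1, mem_union_left _ hc'.2.2⟩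
  unfold ecard
  rw [hset, Set.ncard_union_eq _ (hE1fin.union hFfin) hUfin, Set.ncard_union_eq _ hE1fin hFfin,
    hUcard]
  · rw [Set.disjoint_left]
    intro e he he'
    exact he.2.1 (h.F_sub e he').2.1
  · rw [Set.disjoint_left]
    intro e he he'
    have heH : e ∈ c.H.edgeSet := by
      rcases he with he | he
      · exact he.1
      · exact (h.F_sub e he).1
    rw [Set.mem_iUnion₂] at he'
    obtain ⟨X, hX, h1⟩ := he'
    induction e using Sym2.inductionOn with
    | hf a b => exact hTH X a b h1 heH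

end K5
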