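import Pool.Agent.Lib.K5.ZRel
import Pool.Agent.Lib.K5.CLFam

/-!
# K5.ZEg: the generating functions of the sums over marked cores

1. `egf_csA_gen`: let `R` be a finite set, `r` a number, `g a b = mphi Q (fun m => fam τ m b) z (1 + z) R (Ico r (a + r))`, and suppose (`hcount`) that for `Y ⊆ Ico r (n + r)` the sum `mphi Q φ z (1 + z) R Y` is the
same for `Y` and for `Ico r (Y.card + r)`. Then `csA Q τ z R (Ico r (n + r)) = ∑ Y ∈ (Ico r (n + r)).powerset, g Y.card (Ico r (n + r) \ Y).card`. By `sum_powerset_pair` for `Ico r (n + r)` and for `range n` (both have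
`n` elements: `Nat.card_Ico`, `card_range`) this is `∑ A ∈ (range n).powerset, g A.card (range n \ A).card`; `egf_pair` gives `∑' a, ∑' b, (x^a/a!) * ((x^b/b!) * g a b)`. In the inner sum
(`ENNReal.tsum_mul_left`, `ENNReal.tsum_comm`): `∑' b, (x^b/b!) * ∑' p, fam τ p.card b * mwt z (1+z) 1 R H M = ∑' p, egf (fam τ p.card) x * mwt … = ∑' p, (egf τ x)^p.card * mwt z (1+z) 1 R H M` (`egf_fam`) and
`t ^ M.card * mwt z w 1 R H M = mwt z w t R H M` (unfold `mwt`).
2. The three statements: `hcount` holds by `mphi_count` (`Y` and `Ico r (Y.card + r)` are disjoint from the root; same sizes), with `Q = QA {0, 1}`, `QL {0, 1}`, `QA {0, 1, 2}`; the sums over `MC Q R Y` are `msum`, `msum0`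
(the same subtypes up to unfolding `MC`, `QA`, `QL`), then `Kt`, `Kt0`, `At` unfold to the result.
-/

namespace K5

open Finset
open scoped ENNReal

theorem ZEgAux.disj {R Y : Finset ℕ} {r m : ℕ} (hR : ∀ a ∈ R, a < r) (hY : Y ⊆ Ico r m) :
    Disjoint R Y := by
  rw [Finset.disjoint_left]
  intro a ha hb
  have h1 := hR a ha
  have h2 := (Finset.mem_Ico.mp (hY hb)).1
  omega

theorem egf_csA_gen (Q : Finset ℕ → Prop) (τ : ℕ → ℝ≥0∞) (x z : ℝ≥0∞) (R : Finset ℕ) (r : ℕ)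
    (hcount : ∀ (φ : ℕ → ℝ≥0∞) (n : ℕ), ∀ Y ⊆ Ico r (n + r),
      mphi Q φ z (1 + z) R Y = mphi Q φ z (1 + z) R (Ico r (Y.card + r))) :
    egf (fun n => csA Q τ z R (Ico r (n + r))) x =
      ∑' n : ℕ, x ^ n / (n.factorial : ℝ≥0∞) *
        ∑' p : MC Q R (Ico r (n + r)), mwt z (1 + z) (egf τ x) R p.1.1 p.1.2 := by
  obtain ⟨g, hg⟩ : ∃ g : ℕ → ℕ → ℝ≥0∞, ∀ a b, g a b =
      mphi Q (fun m => fam τ m b) z (1 + z) R (Ico r (a + r)) := ⟨_, fun _ _ => rfl⟩
  have h1 : (fun n => csA Q τ z R (Ico r (n + r))) = fun n => ∑ A ∈ (range n).powerset,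
      g A.card (range n \ A).card := by
    funext n
    have h2 : csA Q τ z R (Ico r (n + r)) = ∑ Y ∈ (Ico r (n + r)).powerset,
        g Y.card (Ico r (n + r) \ Y).card := by
      unfold csA
      refine Finset.sum_congr rfl fun Y hY => ?_
      rw [hg]
      exact hcount _ n Y (Finset.mem_powerset.mp hY)
    rw [h2, sum_powerset_pair, sum_powerset_pair, Nat.card_Ico, Finset.card_range,
      Nat.add_sub_cancel]
  rw [h1, egf_pair]
  refine tsum_congr fun a => ?_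
  rw [ENNReal.tsum_mul_left]
  congr 1
  simp only [hg]
  simp only [mphi, ← ENNReal.tsum_mul_left]
  rw [ENNReal.tsum_comm]
  refine tsum_congr fun p => ?_
  simp only [← mul_assoc]
  rw [ENNReal.tsum_mul_right]
  have h3 := egf_fam τ p.1.2.card x
  unfold egf at h3
  rw [h3]
  unfold mwt egf
  rw [one_pow, one_mul, mul_assoc]

theorem egf_csA_Kt (τ : ℕ → ℝ≥0∞) (x z : ℝ≥0∞) :
    egf (fun n => csA (QA {0, 1}) τ z {0, 1} (Ico 2 (n + 2))) x = Kt x z (1 + z) (egf τ x) := by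
  rw [egf_csA_gen (QA {0, 1}) τ x z {0, 1} 2]
  · rfl
  · intro φ n Y hY
    refine (mphi_count φ z (1 + z) rfl (by simp) (ZEgAux.disj ?_ hY)
      (ZEgAux.disj ?_ (Finset.Subset.refl _))).1 <;> decide

theorem egf_csA_Kt0 (τ : ℕ → ℝ≥0∞) (x z : ℝ≥0∞) :
    egf (fun n => csA (QL {0, 1}) τ z {0, 1} (Ico 2 (n + 2))) x = Kt0 x z (1 + z) (egf τ x) := by
  rw [egf_csA_gen (QL {0, 1}) τ x z {0, 1} 2]
  · rfl
  · intro φ n Y hY
    refine (mphi_count φ z (1 + z) rfl (by simp) (ZEgAux.disj ?_ hY)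
      (ZEgAux.disj ?_ (Finset.Subset.refl _))).2 <;> decide

theorem egf_csA_At (τ : ℕ → ℝ≥0∞) (x z : ℝ≥0∞) :
    egf (fun n => csA (QA {0, 1, 2}) τ z {0, 1, 2} (Ico 3 (n + 3))) x =
      At x z (1 + z) (egf τ x) := by
  rw [egf_csA_gen (QA {0, 1, 2}) τ x z {0, 1, 2} 3]
  · rfl
  · intro φ n Y hY
    refine (mphi_count φ z (1 + z) rfl (by simp) (ZEgAux.disj ?_ hY)
      (ZEgAux.disj ?_ (Finset.Subset.refl _))).1 <;> decide

end K5
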