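import Pool.Agent.Lib.K5.ZDefs

/-!
# K5.ZLoc: dependence on the coefficients, monotonicity

1. `fam_congr`: every fibre of `f : Fin n → Fin m` has at most `n` elements (`Finset.card_le_univ`, `Fintype.card_fin`).
2. `prt2_congr`: every part of a partition of `range n` has at most `n` elements (`Finpartition.le`, `Finset.card_le_card`).
3. `MC_empty`: there is no core with empty interior if `R.card ≤ 3`: `PCore R ∅ H` gives `Three H (R ∪ ∅)`, so `4 ≤ R.card`. So `mphi Q φ z w R ∅ = 0` (sum over an empty type).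
4. `csA_congr`: for `Y ∈ U.powerset`, `Y ≠ ∅`: `(U \ Y).card < U.card`, use 1; for `Y = ∅` both terms are `0` by 3.
5. `At_mono`, `Kt_mono`: `mwt` is monotone in `t` (`t ^ M.card`), `ENNReal.tsum_le_tsum`, `mul_le_mul_left'`.
-/

namespace K5

open Finset
open scoped ENNReal

theorem fam_congr {τ τ' : ℕ → ℝ≥0∞} {m n : ℕ} (h : ∀ j ≤ n, τ j = τ' j) :
    fam τ m n = fam τ' m n := by
  unfold fam
  refine Finset.sum_congr rfl (fun f _ => Finset.prod_congr rfl (fun i _ => h _ ?_))
  exact (Finset.card_le_univ _).trans (le_of_eq (Fintype.card_fin n))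

theorem prt2_congr {β β' : ℕ → ℝ≥0∞} {n : ℕ} (h : ∀ j ≤ n, β j = β' j) :
    prt2 β n = prt2 β' n := by
  unfold prt2
  refine Finset.sum_congr rfl (fun π _ => ?_)
  have : ∏ A ∈ π.parts, β A.card = ∏ A ∈ π.parts, β' A.card :=
    Finset.prod_congr rfl (fun A hA => h _ (by
      have h1 := Finset.card_le_card (π.le hA)
      simpa using h1))
  rw [this]

theorem mphi_empty (Q : Finset ℕ → Prop) (φ : ℕ → ℝ≥0∞) (z w : ℝ≥0∞) {R : Finset ℕ}
    (hR : R.card ≤ 3) : mphi Q φ z w R ∅ = 0 := by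
  unfold mphi
  have : IsEmpty (MC Q R ∅) := by
    refine ⟨fun p => ?_⟩
    have h := p.2.1.rtd.three.1
    rw [Finset.union_empty] at h
    omega
  exact tsum_empty

theorem csA_congr (Q : Finset ℕ → Prop) {τ τ' : ℕ → ℝ≥0∞} (z : ℝ≥0∞) {R U : Finset ℕ}
    (hR : R.card ≤ 3) (h : ∀ j < U.card, τ j = τ' j) : csA Q τ z R U = csA Q τ' z R U := by
  unfold csA
  refine Finset.sum_congr rfl (fun Y hY => ?_)
  rcases Y.eq_empty_or_nonempty with rfl | hne
  · rw [mphi_empty _ _ _ _ hR, mphi_empty _ _ _ _ hR]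
  · have hlt : (U \ Y).card < U.card := by
      rw [Finset.card_sdiff_of_subset (Finset.mem_powerset.1 hY)]
      have h1 := Finset.card_pos.2 hne
      have h2 := Finset.card_le_card (Finset.mem_powerset.1 hY)
      omega
    have : (fun m => fam τ m (U \ Y).card) = fun m => fam τ' m (U \ Y).card := by
      funext m
      exact fam_congr (fun j hj => h j (lt_of_le_of_lt hj hlt))
    rw [this]

theorem At_mono {x z w t t' : ℝ≥0∞} (h : t ≤ t') : At x z w t ≤ At x z w t' := by
  unfold At msum mwt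
  gcongr

theorem Kt_mono {x z w t t' : ℝ≥0∞} (h : t ≤ t') : Kt x z w t ≤ Kt x z w t' := by
  unfold Kt msum mwt
  gcongr

end K5
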