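import Pool.Agent.Lib.K5.ZDefs

/-!
# K5.ZRel: relabelling of marked cores and of t-structures

`exists_perm` gives `σ` with `rl σ R = R'`, `rl σ U = U'`. The bijection `(H, M) ↦ (rg σ H, M.image (rl σ))` (inverse: the same with `σ⁻¹`; `rg_symm`, `RelAux.rl_inv`, `RelAux.rl_inv'`) maps `MC (QA R) R U` to
`MC (QA R') R' U'`: `PCore` by `rtd_rg`, `mac_rg` (`rl σ (R ∪ U) = rl σ R ∪ rl σ U`), the marks by `nt_rg`, `rl σ X = rl σ R ↔ X = R` (`RelAux.rl_inj`); for `QL`: `rl σ R ⊆ rl σ X ↔ R ⊆ X` (`RelAux.rl_subset`).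
The number of marks is preserved (`rl σ` is injective: `Finset.card_image_of_injective`), and `mwt z w 1` is preserved: the map `Sym2.map σ` is a bijection from the edges of `H` to the edges of `rg σ H`
(`Sym2.ind`, `rg_adj`), from the edges of `clq R` to those of `clq (rl σ R)`, and `Cov (M.image (rl σ)) (Sym2.map σ e) ↔ Cov M e`; so the two sets in `mwt` are images under the injective map `Sym2.map σ` of the
sets for `H` (`Set.ncard_image_of_injective`). Then `Equiv.tsum_eq`. `tstr_count`: `tstr_rg`, `ncard_rg` and the bijection `G ↦ rg σ G`.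
-/

namespace K5

open Finset
open scoped ENNReal

theorem mwt_rg (σ : Equiv.Perm ℕ) (z w t : ℝ≥0∞) (R : Finset ℕ) (H : Gr)
    (M : Finset (Finset ℕ)) :
    mwt z w t (rl σ R) (rg σ H) (M.image (rl σ)) = mwt z w t R H M := by
  have h : M.image (rl σ) = RelCAux.rm σ M := by
    unfold RelCAux.rm
    rw [Finset.map_eq_image]
    rfl
  rw [h]
  exact RelCAux.mwt_rg σ z w t R H M

theorem mphi_count (φ : ℕ → ℝ≥0∞) (z w : ℝ≥0∞) {R R' U U' : Finset ℕ} (hR : R.card = R'.card)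
    (hU : U.card = U'.card) (hd : Disjoint R U) (hd' : Disjoint R' U') :
    mphi (QA R) φ z w R U = mphi (QA R') φ z w R' U' ∧
      mphi (QL R) φ z w R U = mphi (QL R') φ z w R' U' := by
  obtain ⟨σ, rfl, rfl⟩ := exists_perm hd hd' hR hU
  have hc : ∀ M : Finset (Finset ℕ), (RelCAux.rm σ M).card = M.card := fun M => Finset.card_map _
  constructor
  · exact RelCAux.tsum_rm σ
      (P := fun p => PCore R U p.1 ∧ ∀ X ∈ p.2, NT p.1 (R ∪ U) X ∧ QA R X)
      (Q := fun p => PCore (rl σ R) (rl σ U) p.1 ∧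
        ∀ X ∈ p.2, NT p.1 (rl σ R ∪ rl σ U) X ∧ QA (rl σ R) X)
      (fun p => φ p.2.card * mwt z w 1 R p.1 p.2)
      (fun p => φ p.2.card * mwt z w 1 (rl σ R) p.1 p.2)
      (fun p => by
        refine and_congr (RelCAux.pcore_rg σ) ?_
        rw [RelCAux.all_rm]
        refine forall₂_congr fun X _ => ?_
        rw [← Rel2Aux.rl_union, nt_rg]
        show _ ∧ rl σ X ≠ rl σ R ↔ _ ∧ X ≠ R
        rw [Ne, RelAux.rl_inj])
      (fun p => by
        show φ (RelCAux.rm σ p.2).card * mwt z w 1 (rl σ R) (rg σ p.1) (RelCAux.rm σ p.2) = _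
        rw [hc, RelCAux.mwt_rg])
  · exact RelCAux.tsum_rm σ
      (P := fun p => PCore R U p.1 ∧ ∀ X ∈ p.2, NT p.1 (R ∪ U) X ∧ QL R X)
      (Q := fun p => PCore (rl σ R) (rl σ U) p.1 ∧
        ∀ X ∈ p.2, NT p.1 (rl σ R ∪ rl σ U) X ∧ QL (rl σ R) X)
      (fun p => φ p.2.card * mwt z w 1 R p.1 p.2)
      (fun p => φ p.2.card * mwt z w 1 (rl σ R) p.1 p.2)
      (fun p => by
        refine and_congr (RelCAux.pcore_rg σ) ?_
        rw [RelCAux.all_rm]
        refine forall₂_congr fun X _ => ?_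
        rw [← Rel2Aux.rl_union, nt_rg]
        show _ ∧ ¬ rl σ R ⊆ rl σ X ↔ _ ∧ ¬ R ⊆ X
        rw [RelAux.rl_subset])
      (fun p => by
        show φ (RelCAux.rm σ p.2).card * mwt z w 1 (rl σ R) (rg σ p.1) (RelCAux.rm σ p.2) = _
        rw [hc, RelCAux.mwt_rg])

theorem tstr_count (z : ℝ≥0∞) {X V : Finset ℕ} (hX : X.card = 3) (hd : Disjoint X V) :
    tw z X V = ts z V.card := by
  obtain ⟨σ, h0, hU⟩ := RelCAux.exists_rt hX hd {0, 1, 2} (by decide) (by decide)
  exact RelCAux.tsum_rg σ (P := fun G => TStr X V G)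
    (Q := fun G => TStr {0, 1, 2} (Ico 3 (V.card + 3)) G) (fun G => z ^ G.edgeSet.ncard)
    (fun G => z ^ G.edgeSet.ncard)
    (fun G => by rw [← h0, ← hU]; exact tstr_rg σ) (fun G => by rw [ncard_rg])

end K5
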