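import Pool.Agent.Lib.K5.ZOut
import Pool.Agent.Lib.K5.GraphUL

/-!
# K5.ZShr: the output of the shredder level in the form used by the network level

No `sorry` in this file.
-/

namespace K5

open Finset
open scoped ENNReal

theorem shrU (h3 : Ex3) (h2 : Ex2) : ShrU := by
  intro x z t a hx hz _ ha h1 h
  exact out_T0_le h2 hx.le (by linarith) ha (out_br_le h3 (by linarith) ha h1 h) h

theorem T0_mono_left {x x1 z : ℝ≥0∞} (h : x ≤ x1) : T0 x z ≤ T0 x1 z := by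
  unfold T0
  exact ENNReal.tsum_le_tsum fun n =>
    mul_le_mul_left (ENNReal.div_le_div_right (pow_le_pow_left' h n) _) _

theorem shrL (hs3 : Snd3) (hi3 : Inj3) (hs2 : Snd2) (hi2 : Inj2) (h33 : Two33) : ShrL := by
  intro x x1 z hx hx1 hz hT
  have hz0 : 0 ≤ z := by linarith
  have hB : Br (.ofReal x) (.ofReal z) ≠ ⊤ := out_br_ne_top hx1 (hx.trans hx1) hz hT
  have hTx : T0 (.ofReal x) (.ofReal z) ≠ ⊤ :=
    ne_top_of_le_ne_top hT (T0_mono_left (ENNReal.ofReal_le_ofReal hx1.le))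
  set a := (Br (.ofReal x) (.ofReal z)).toReal with ha
  have ha0 : 0 ≤ a := ENNReal.toReal_nonneg
  have hBa : Br (.ofReal x) (.ofReal z) = .ofReal a := by
    rw [ha, ENNReal.ofReal_toReal hB]
  have hK := out_Kt0_le hs2 hi2 h33 hx.le hz0 ha0 hBa
  have hA := out_At_le hs3 hi3 hz0 ha0 hBa
  have hKne : Kt0 (.ofReal x) (.ofReal z) (.ofReal (1 + z)) (.ofReal (Real.exp a - 1 - a)) ≠ ⊤ :=
    ne_top_of_le_ne_top (ENNReal.add_ne_top.2 ⟨hTx, ENNReal.ofReal_ne_top⟩) hK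
  refine ⟨Real.exp a - 1 - a, a, (Kt0 (.ofReal x) (.ofReal z) (.ofReal (1 + z))
    (.ofReal (Real.exp a - 1 - a))).toReal, ?_, ha0, ENNReal.toReal_nonneg, hA, le_rfl, ?_, ?_⟩
  · have := Real.add_one_le_exp a
    linarith
  · rw [ENNReal.ofReal_toReal hKne]
  · rw [ENNReal.ofReal_toReal hKne]
    exact hK

end K5
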