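import Pool.Agent.Lib.K5.ZEg
import Pool.Agent.Lib.K5.ZLoc
import Pool.Agent.Lib.K5.ZE2
import Pool.Agent.Lib.K5.ZTs

/-!
# K5.ZUpB: the upper bound for the branch series

`h0` says `nB z n ≤ csA (QA {0, 1, 2}) (ts z) z {0, 1, 2} (Ico 3 (n + 3))`, and `ts z = prt2 (nB z)` (`ts_eq`). Let `β N n = if n < N then nB z n else 0`. Claim: `egf (β N) x ≤ a` for every `N`, by induction. `N = 0`: `0 ≤ a`.
Step: for `n ≤ N`, `csA` on a set with `n` elements depends only on `ts z j` for `j < n` (`csA_congr`), and `prt2 (nB z) j = prt2 (β N) j` for `j < N` (`prt2_congr`), so `β (N+1) n ≤ csA (QA _) (prt2 (β N)) z {0, 1, 2} (Ico 3 (n + 3))`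
for `n ≤ N`, and for `n > N` because the left side is `0`. By `egf_mono` and `egf_csA_At`: `egf (β (N+1)) x ≤ At x z (1 + z) (egf (prt2 (β N)) x)`. By the induction hypothesis `egf (β N) x ≤ a < ⊤`, `pos (β N) = β N`
(`nB_zero`), so by `egf_prt2_E2`, `E2_mono` and `h2` `egf (prt2 (β N)) x = E2 (egf (β N) x) ≤ E2 a ≤ t`, and `At_mono`, `h1` give `≤ a`. Finally `egf (nB z) x ≤ a` because every partial sum over `range N` is a partial sum of
`egf (β N) x` (`ENNReal.tsum_le_of_sum_range_le`, `ENNReal.sum_le_tsum`).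
-/

namespace K5

open Finset
open scoped ENNReal

namespace ZUpBAux

/-- The coefficients below `N`. -/
noncomputable def cut (z : ℝ≥0∞) (N n : ℕ) : ℝ≥0∞ := if n < N then nB z n else 0

theorem cut_lt {z : ℝ≥0∞} {N n : ℕ} (h : n < N) : cut z N n = nB z n := if_pos h

theorem cut_ge {z : ℝ≥0∞} {N n : ℕ} (h : ¬ n < N) : cut z N n = 0 := if_neg h

theorem pos_cut (z : ℝ≥0∞) (N : ℕ) : pos (cut z N) = cut z N := by
  funext n
  unfold pos
  split_ifs with h
  · subst h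
    unfold cut
    split_ifs
    · exact (nB_zero z).symm
    · rfl
  · rfl

theorem cut_le {z : ℝ≥0∞}
    (h0 : ∀ n, nB z n ≤ csA (QA {0, 1, 2}) (ts z) z {0, 1, 2} (Ico 3 (n + 3))) (N n : ℕ) :
    cut z (N + 1) n ≤
      csA (QA {0, 1, 2}) (prt2 (cut z N)) z {0, 1, 2} (Ico 3 (n + 3)) := by
  by_cases h : n < N + 1
  · rw [cut_lt h]
    refine (h0 n).trans (le_of_eq ?_)
    refine csA_congr _ z (by decide) ?_
    intro j hj
    rw [Nat.card_Ico] at hj
    rw [ts_eq]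
    refine prt2_congr ?_
    intro i hi
    rw [cut_lt]
    omega
  · rw [cut_ge h]
    exact zero_le

theorem egf_cut_le {x z t a : ℝ≥0∞} (ha : a ≠ ⊤)
    (h0 : ∀ n, nB z n ≤ csA (QA {0, 1, 2}) (ts z) z {0, 1, 2} (Ico 3 (n + 3)))
    (h1 : At x z (1 + z) t ≤ a) (h2 : E2 a ≤ t) (N : ℕ) : egf (cut z N) x ≤ a := by
  induction N with
  | zero =>
    have : egf (cut z 0) x = 0 := by
      unfold egf
      rw [ENNReal.tsum_eq_zero]
      intro n
      rw [cut_ge (Nat.not_lt_zero n), mul_zero]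
    rw [this]
    exact zero_le
  | succ N ih =>
    refine (egf_mono (cut_le h0 N) x).trans ?_
    rw [egf_csA_At]
    refine (At_mono ?_).trans h1
    have hne : egf (pos (cut z N)) x ≠ ⊤ := by
      rw [pos_cut]
      exact ne_top_of_le_ne_top ha ih
    rw [egf_prt2_E2 _ hne, pos_cut]
    exact (E2_mono ih).trans h2

end ZUpBAux

theorem br_le {x z t a : ℝ≥0∞} (ha : a ≠ ⊤)
    (h0 : ∀ n, nB z n ≤ csA (QA {0, 1, 2}) (ts z) z {0, 1, 2} (Ico 3 (n + 3)))
    (h1 : At x z (1 + z) t ≤ a) (h2 : E2 a ≤ t) : egf (nB z) x ≤ a := by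
  unfold egf
  refine ENNReal.tsum_le_of_sum_range_le fun N => ?_
  refine le_trans ?_ (ZUpBAux.egf_cut_le ha h0 h1 h2 N)
  unfold egf
  refine le_trans (le_of_eq ?_) (ENNReal.sum_le_tsum (range N))
  refine Finset.sum_congr rfl fun n hn => ?_
  rw [ZUpBAux.cut_lt (Finset.mem_range.1 hn)]

end K5
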